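import Mathlib

/- Helper94.T.Helper39.Area.Dirichlet -/
section
set_option autoImplicit false
open Complex MeasureTheory Metric Set Filter Topology
open scoped Real ENNReal ComplexConjugate NNReal

/-! Positivity of the Dirichlet form `∮ conj E dE`. -/

namespace Pool.Agent.M16.Helper39.Area

theorem taylor_term {E : ℂ → ℂ} {R : ℝ} (hR : 0 < R) (hE : DifferentiableOn ℂ E (closedBall 0 R))
    (n : ℕ) (y : ℂ) : (cauchyPowerSeries E 0 R n fun _ => y) =
      y ^ n * (iteratedDeriv n E 0 / n.factorial) := by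
  rw [cauchyPowerSeries_apply]
  have h1 := hE.circleIntegral_one_div_sub_center_pow_smul hR n
  have h2 : (∮ z in C(0, R), (y / (z - 0)) ^ n • (z - 0)⁻¹ • E z) =
      y ^ n * ∮ z in C(0, R), (1 / (z - 0) ^ (n + 1)) • E z := by
    rw [← circleIntegral.integral_const_mul]
    congr 1
    funext z
    simp only [sub_zero, smul_eq_mul, div_pow, pow_succ, one_div, mul_inv]
    ring
  rw [h2, h1]
  have : (2 * π * I : ℂ) ≠ 0 := two_pi_I_ne_zero
  simp only [smul_eq_mul]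
  field_simp

theorem sphere_ne' {ρ : ℝ} (hρ : 0 < ρ) {ζ : ℂ} (hζ : ζ ∈ sphere (0:ℂ) ρ) : ζ ≠ 0 := by
  rintro rfl
  simp at hζ
  exact hρ.ne hζ

theorem conj_sphere {ρ : ℝ} (hρ : 0 < ρ) {ζ : ℂ} (hζ : ζ ∈ sphere (0:ℂ) ρ) :
    conj ζ = (ρ:ℂ) ^ 2 / ζ := by
  have h0 := sphere_ne' hρ hζ
  rw [eq_div_iff h0, mul_comm, Complex.mul_conj, Complex.normSq_eq_norm_sq]
  have : ‖ζ‖ = ρ := by simpa using hζ
  rw [this]
  push_cast
  rfl

theorem deriv_coeff {E : ℂ → ℂ} {R ρ : ℝ} (hE : DifferentiableOn ℂ E (ball 0 R)) (hρ : 0 < ρ)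
    (hρR : ρ < R) (n : ℕ) :
    (∮ ζ in C(0, ρ), (ζ ^ n)⁻¹ * deriv E ζ) =
      2 * π * I * (n * (iteratedDeriv n E 0 / n.factorial)) := by
  have hd : DifferentiableOn ℂ (deriv E) (ball 0 R) := hE.deriv isOpen_ball
  cases n with
  | zero =>
    simp only [pow_zero, inv_one, one_mul, CharP.cast_eq_zero, zero_mul, mul_zero]
    apply circleIntegral.integral_eq_zero_of_hasDerivWithinAt hρ.le (f := E)
    intro ζ hζ
    have h1 : ζ ∈ ball (0:ℂ) R := by
      rw [mem_ball, dist_zero_right]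
      rw [mem_sphere, dist_zero_right] at hζ
      linarith
    exact (hE.differentiableAt (isOpen_ball.mem_nhds h1)).hasDerivAt.hasDerivWithinAt
  | succ n =>
    have h1 := (hd.mono (closedBall_subset_ball hρR)).circleIntegral_one_div_sub_center_pow_smul hρ n
    have h2 : (∮ ζ in C(0, ρ), (ζ ^ (n + 1))⁻¹ * deriv E ζ) =
        ∮ z in C(0, ρ), (1 / (z - 0) ^ (n + 1)) • deriv E z := by
      congr 1
      funext z
      simp
    rw [h2, h1, ← iteratedDeriv_succ', Nat.factorial_succ]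
    have h3 : ((n.factorial : ℕ) : ℂ) ≠ 0 := by exact_mod_cast n.factorial_ne_zero
    have h4 : ((n : ℂ) + 1) ≠ 0 := by exact_mod_cast Nat.succ_ne_zero n
    push_cast
    simp only [smul_eq_mul]
    field_simp

theorem dirichlet_nonneg {E : ℂ → ℂ} {R ρ : ℝ} (hE : DifferentiableOn ℂ E (ball 0 R)) (hρ : 0 < ρ)
    (hρR : ρ < R) :
    ∃ c : ℝ, 0 ≤ c ∧ (∮ ζ in C(0, ρ), conj (E ζ) * deriv E ζ) = 2 * π * I * c := by
  obtain ⟨r, hρr, hrR⟩ := exists_between hρR
  have hr : 0 < r := hρ.trans hρr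
  lift r to ℝ≥0 using hr.le
  have hEr : DifferentiableOn ℂ E (closedBall 0 r) := hE.mono (closedBall_subset_ball hrR)
  have hps := hEr.hasFPowerSeriesOnBall (by exact_mod_cast hr)
  obtain ⟨r', hρr', hr'r⟩ := exists_between hρr
  lift r' to ℝ≥0 using (hρ.trans hρr').le
  have hun := hps.tendstoUniformlyOn (r' := r') (by exact_mod_cast hr'r)
  have hd : DifferentiableOn ℂ (deriv E) (ball 0 R) := hE.deriv isOpen_ball
  have hmem : ∀ ζ ∈ sphere (0:ℂ) ρ, ζ ∈ ball (0:ℂ) R := by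
    intro ζ hζ
    rw [mem_ball, dist_zero_right]
    rw [mem_sphere, dist_zero_right] at hζ
    linarith
  have hdc : ContinuousOn (deriv E) (sphere 0 ρ) := hd.continuousOn.mono hmem
  set e : ℕ → ℂ := fun n => iteratedDeriv n E 0 / n.factorial with he
  have hpart : ∀ (N : ℕ) (y : ℂ), (cauchyPowerSeries E 0 r).partialSum N y =
      ∑ n ∈ Finset.range N, y ^ n * e n := by
    intro N y
    unfold FormalMultilinearSeries.partialSum
    apply Finset.sum_congr rfl
    intro n _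
    exact taylor_term hr hEr n y
  set T : ℕ → ℂ → ℂ := fun N y => ∑ n ∈ Finset.range N, y ^ n * e n with hT
  have hTc : ∀ N, Continuous (T N) := by
    intro N
    rw [hT]
    fun_prop
  have hTE : TendstoUniformlyOn T E atTop (sphere 0 ρ) := by
    have h1 : TendstoUniformlyOn T E atTop (ball 0 r') := by
      have h2 : (fun (n : ℕ) (y : ℂ) => (cauchyPowerSeries E 0 r).partialSum n y) = T := by
        funext N y; exact hpart N y
      rw [h2] at hun
      simpa using hun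
    apply h1.mono
    intro ζ hζ
    rw [mem_ball, dist_zero_right]
    rw [mem_sphere, dist_zero_right] at hζ
    linarith
  -- bound for the derivative
  obtain ⟨B, hB⟩ := (isCompact_sphere (0:ℂ) ρ).exists_bound_of_continuousOn hdc
  have hlim : Tendsto (fun N => ∮ ζ in C(0, ρ), conj (T N ζ) * deriv E ζ) atTop
      (𝓝 (∮ ζ in C(0, ρ), conj (E ζ) * deriv E ζ)) := by
    apply TendstoUniformlyOn.tendsto_circleIntegral_of_continuousOn hρ.le
    · refine Eventually.of_forall fun N => ?_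
      exact ((Complex.continuous_conj.comp (hTc N)).continuousOn).mul hdc
    · rw [Metric.tendstoUniformlyOn_iff] at hTE ⊢
      intro ε hε
      have hε' : 0 < ε / (|B| + 1) := by positivity
      filter_upwards [hTE _ hε'] with N hN ζ hζ
      have h1 := hN ζ hζ
      rw [dist_eq_norm] at h1 ⊢
      rw [← sub_mul, ← map_sub, norm_mul, RCLike.norm_conj]
      calc ‖E ζ - T N ζ‖ * ‖deriv E ζ‖ ≤ ‖E ζ - T N ζ‖ * (|B| + 1) := by
            gcongr
            exact (hB ζ hζ).trans ((le_abs_self B).trans (by linarith))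
        _ < ε / (|B| + 1) * (|B| + 1) := by gcongr
        _ = ε := by field_simp
  have hval : ∀ N, (∮ ζ in C(0, ρ), conj (T N ζ) * deriv E ζ) =
      2 * π * I * ((∑ n ∈ Finset.range N, (n:ℝ) * ρ ^ (2 * n) * ‖e n‖ ^ 2 : ℝ) : ℂ) := by
    intro N
    have h1 : (∮ ζ in C(0, ρ), conj (T N ζ) * deriv E ζ) =
        ∮ ζ in C(0, ρ), ∑ n ∈ Finset.range N,
          (ρ:ℂ) ^ (2 * n) * conj (e n) * ((ζ ^ n)⁻¹ * deriv E ζ) := by
      apply circleIntegral.integral_congr hρ.le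
      intro ζ hζ
      simp only [hT, map_sum, map_mul, map_pow, Finset.sum_mul]
      apply Finset.sum_congr rfl
      intro n _
      rw [conj_sphere hρ hζ, div_pow, ← pow_mul, div_eq_mul_inv]
      ring
    rw [h1, circleIntegral.integral_fun_sum]
    · push_cast
      rw [Finset.mul_sum]
      apply Finset.sum_congr rfl
      intro n _
      rw [circleIntegral.integral_const_mul, deriv_coeff hE hρ hρR n]
      have h5 : (((‖e n‖ : ℝ)) : ℂ) ^ 2 = e n * conj (e n) := by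
        rw [Complex.mul_conj, Complex.normSq_eq_norm_sq]
        push_cast
        rfl
      rw [h5]
      ring
    · intro n _
      apply ContinuousOn.circleIntegrable hρ.le
      apply continuousOn_const.mul
      apply ContinuousOn.mul _ hdc
      apply ContinuousOn.inv₀ (by fun_prop)
      intro ζ hζ
      exact pow_ne_zero _ (sphere_ne' hρ hζ)
  -- the limit
  have h2pi : (2 * π * I : ℂ) ≠ 0 := two_pi_I_ne_zero
  set L : ℂ := ∮ ζ in C(0, ρ), conj (E ζ) * deriv E ζ with hL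
  set c : ℕ → ℝ := fun N => ∑ n ∈ Finset.range N, (n:ℝ) * ρ ^ (2 * n) * ‖e n‖ ^ 2 with hc
  have hlim2 : Tendsto (fun N => ((c N : ℝ) : ℂ)) atTop (𝓝 ((2 * π * I : ℂ)⁻¹ * L)) := by
    have := hlim.const_mul ((2 * π * I : ℂ)⁻¹)
    refine this.congr ?_
    intro N
    rw [hval N, ← mul_assoc, inv_mul_cancel₀ h2pi, one_mul]
  have hre := (Complex.continuous_re.tendsto _).comp hlim2
  have him := (Complex.continuous_im.tendsto _).comp hlim2
  refine ⟨((2 * π * I : ℂ)⁻¹ * L).re, ?_, ?_⟩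
  · apply ge_of_tendsto' hre
    intro N
    simp only [Function.comp, Complex.ofReal_re, hc]
    positivity
  · have him0 : ((2 * π * I : ℂ)⁻¹ * L).im = 0 := by
      have h1 : (Complex.im ∘ fun N => ((c N : ℝ) : ℂ)) = fun _ => (0:ℝ) := by
        funext N; simp
      rw [h1] at him
      exact (tendsto_nhds_unique him tendsto_const_nhds)
    have h3 : ((((2 * π * I : ℂ)⁻¹ * L).re : ℝ) : ℂ) = (2 * π * I : ℂ)⁻¹ * L := by
      apply Complex.ext
      · simp
      · simp only [Complex.ofReal_im]; exact him0.symm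
    rw [h3, ← mul_assoc, mul_inv_cancel₀ h2pi, one_mul]

end Pool.Agent.M16.Helper39.Area
end

/- Helper94.T.Helper39.Area.Goluzin -/
section
set_option autoImplicit false
open Complex MeasureTheory Metric Set Filter Topology
open scoped Real ENNReal ComplexConjugate NNReal

/-! The Goluzin inequality at one point. -/

namespace Pool.Agent.M16.Helper39.Area

/-- conjugate of a circle integral -/
theorem conj_circle {ρ : ℝ} (hρ : 0 < ρ) (f : ℂ → ℂ) :
    conj (∮ ζ in C(0, ρ), f ζ) = ∮ ζ in C(0, ρ), (-((ρ:ℂ) ^ 2 / ζ ^ 2)) * conj (f ζ) := by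
  rw [circleIntegral, circleIntegral, intervalIntegral.integral_of_le Real.two_pi_pos.le,
    intervalIntegral.integral_of_le Real.two_pi_pos.le, ← integral_conj]
  congr 1
  funext θ
  have hne : circleMap 0 ρ θ ≠ 0 := circleMap_ne_center (c := 0) (θ := θ) hρ.ne'
  have hc : conj (circleMap 0 ρ θ) = (ρ:ℂ) ^ 2 / circleMap 0 ρ θ :=
    conj_sphere hρ (circleMap_mem_sphere 0 hρ.le θ)
  simp only [deriv_circleMap, smul_eq_mul, map_mul, Complex.conj_I, hc]
  field_simp

theorem parts {ρ : ℝ} (hρ : 0 < ρ) {f g f' g' : ℂ → ℂ}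
    (hf : ∀ ζ ∈ sphere (0:ℂ) ρ, HasDerivAt f (f' ζ) ζ)
    (hg : ∀ ζ ∈ sphere (0:ℂ) ρ, HasDerivAt g (g' ζ) ζ)
    (hf' : ContinuousOn f' (sphere 0 ρ)) (hg' : ContinuousOn g' (sphere 0 ρ)) :
    (∮ ζ in C(0, ρ), f ζ * g' ζ) = - ∮ ζ in C(0, ρ), g ζ * f' ζ := by
  have hfc : ContinuousOn f (sphere 0 ρ) := fun ζ hζ => (hf ζ hζ).continuousAt.continuousWithinAt
  have hgc : ContinuousOn g (sphere 0 ρ) := fun ζ hζ => (hg ζ hζ).continuousAt.continuousWithinAt
  have h1 : (∮ ζ in C(0, ρ), (f' ζ * g ζ + f ζ * g' ζ)) = 0 := by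
    apply circleIntegral.integral_eq_zero_of_hasDerivWithinAt hρ.le (f := fun ζ => f ζ * g ζ)
    intro ζ hζ
    exact ((hf ζ hζ).mul (hg ζ hζ)).hasDerivWithinAt
  have hi1 : CircleIntegrable (fun ζ => f' ζ * g ζ) 0 ρ := (hf'.mul hgc).circleIntegrable hρ.le
  have hi2 : CircleIntegrable (fun ζ => f ζ * g' ζ) 0 ρ := (hfc.mul hg').circleIntegrable hρ.le
  rw [circleIntegral.integral_add hi1 hi2] at h1
  have h2 : (∮ ζ in C(0, ρ), f' ζ * g ζ) = ∮ ζ in C(0, ρ), g ζ * f' ζ := by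
    congr 1; funext ζ; ring
  rw [h2] at h1
  linear_combination h1

theorem cauchy_zero {ρ R : ℝ} (hρ : 0 < ρ) (hρR : ρ < R) {W : ℂ → ℂ}
    (hW : DifferentiableOn ℂ W (ball 0 R)) : (∮ ζ in C(0, ρ), W ζ) = 0 := by
  apply Complex.circleIntegral_eq_zero_of_differentiable_on_off_countable hρ.le countable_empty
  · exact hW.continuousOn.mono (closedBall_subset_ball hρR)
  · intro ζ hζ
    exact hW.differentiableAt (isOpen_ball.mem_nhds
      (closedBall_subset_ball hρR (ball_subset_closedBall hζ.1)))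

/-- derivative of `log (1 - a / ζ)` -/
noncomputable def gp (a ζ : ℂ) : ℂ := (ζ - a)⁻¹ - ζ⁻¹

/-- reproducing property -/
theorem repro {ρ R : ℝ} (hρ : 0 < ρ) (hρR : ρ < R) {W : ℂ → ℂ}
    (hW : DifferentiableOn ℂ W (ball 0 R)) {a : ℂ} (ha : a ∈ ball (0:ℂ) ρ) :
    (∮ ζ in C(0, ρ), W ζ * gp a ζ) = 2 * π * I * (W a - W 0) := by
  have hWc : DifferentiableOn ℂ W (closedBall 0 ρ) := hW.mono (closedBall_subset_ball hρR)
  have h1 := hWc.circleIntegral_sub_inv_smul ha
  have h2 := hWc.circleIntegral_sub_inv_smul (mem_ball_self hρ)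
  have hWs : ContinuousOn W (sphere 0 ρ) := hWc.continuousOn.mono sphere_subset_closedBall
  have hc : ∀ b ∈ ball (0:ℂ) ρ, CircleIntegrable (fun z => (z - b)⁻¹ • W z) 0 ρ := by
    intro b hb
    apply ContinuousOn.circleIntegrable hρ.le
    have hb' : ContinuousOn (fun z : ℂ => (z - b)⁻¹) (sphere 0 ρ) := by
      apply ContinuousOn.inv₀ (by fun_prop)
      intro ζ hζ h'
      rw [sub_eq_zero] at h'
      subst h'
      simp at hζ hb
      linarith only [hζ, hb]
    exact hb'.smul hWs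
  have h3 : (∮ ζ in C(0, ρ), W ζ * gp a ζ) =
      ∮ ζ in C(0, ρ), ((ζ - a)⁻¹ • W ζ - (ζ - 0)⁻¹ • W ζ) := by
    congr 1
    funext ζ
    simp only [gp, smul_eq_mul, sub_zero]
    ring
  rw [h3, circleIntegral.integral_sub (hc a ha) (hc 0 (mem_ball_self hρ)), h1, h2]
  simp only [smul_eq_mul]
  ring

section

variable {ρ : ℝ} {a : ℂ}

/-- `log (1 - conj a ζ / ρ²)` -/
noncomputable def Lam (ρ : ℝ) (a ζ : ℂ) : ℂ := Complex.log (1 - conj a * ζ / (ρ:ℂ) ^ 2)

noncomputable def Lamp (ρ : ℝ) (a ζ : ℂ) : ℂ := (-(conj a / (ρ:ℂ) ^ 2)) / (1 - conj a * ζ / (ρ:ℂ) ^ 2)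

theorem lam_re (hρ : 0 < ρ) (_ha : a ∈ ball (0:ℂ) ρ) (ha0 : a ≠ 0) {ζ : ℂ}
    (hζ : ζ ∈ ball (0:ℂ) (ρ ^ 2 / ‖a‖)) : 0 < (1 - conj a * ζ / (ρ:ℂ) ^ 2).re := by
  have ha' : 0 < ‖a‖ := norm_pos_iff.mpr ha0
  have h1 : ‖conj a * ζ / (ρ:ℂ) ^ 2‖ < 1 := by
    rw [norm_div, norm_mul, RCLike.norm_conj, norm_pow, Complex.norm_real, Real.norm_eq_abs,
      abs_of_pos hρ, div_lt_one (by positivity)]
    rw [mem_ball, dist_zero_right, lt_div_iff₀ ha'] at hζ
    linarith only [hζ]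
  have h2 := (abs_le.mp (Complex.abs_re_le_norm (conj a * ζ / (ρ:ℂ) ^ 2))).2
  rw [Complex.sub_re, Complex.one_re]
  linarith only [h1, h2]

theorem lam_hasDeriv (hρ : 0 < ρ) (ha : a ∈ ball (0:ℂ) ρ) (ha0 : a ≠ 0) {ζ : ℂ}
    (hζ : ζ ∈ ball (0:ℂ) (ρ ^ 2 / ‖a‖)) : HasDerivAt (Lam ρ a) (Lamp ρ a ζ) ζ := by
  have h1 : HasDerivAt (fun ζ : ℂ => 1 - conj a * ζ / (ρ:ℂ) ^ 2) (-(conj a / (ρ:ℂ) ^ 2)) ζ := by
    have h2 := (((hasDerivAt_id ζ).const_mul (conj a)).div_const ((ρ:ℂ) ^ 2)).const_sub 1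
    have e : (-(conj a / (ρ:ℂ) ^ 2)) = -(conj a * 1 / (ρ:ℂ) ^ 2) := by ring
    rw [e]
    exact h2
  exact h1.clog (Or.inl (lam_re hρ ha ha0 hζ))

theorem rad_lt (hρ : 0 < ρ) (ha : a ∈ ball (0:ℂ) ρ) (ha0 : a ≠ 0) : ρ < ρ ^ 2 / ‖a‖ := by
  have ha' : 0 < ‖a‖ := norm_pos_iff.mpr ha0
  rw [lt_div_iff₀ ha']
  rw [mem_ball, dist_zero_right] at ha
  nlinarith only [hρ, ha]

theorem lam_diff (hρ : 0 < ρ) (ha : a ∈ ball (0:ℂ) ρ) (ha0 : a ≠ 0) :
    DifferentiableOn ℂ (Lam ρ a) (ball 0 (ρ ^ 2 / ‖a‖)) := fun _ hζ =>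
  (lam_hasDeriv hρ ha ha0 hζ).differentiableAt.differentiableWithinAt

theorem conj_lam (hρ : 0 < ρ) (ha : a ∈ ball (0:ℂ) ρ) (ha0 : a ≠ 0) {ζ : ℂ}
    (hζ : ζ ∈ sphere (0:ℂ) ρ) : conj (Lam ρ a ζ) = Complex.log (1 - a / ζ) := by
  have h1 : ζ ∈ ball (0:ℂ) (ρ ^ 2 / ‖a‖) := by
    have := rad_lt hρ ha ha0
    rw [mem_ball, dist_zero_right]
    rw [mem_sphere, dist_zero_right] at hζ
    linarith only [hζ, this]
  have h2 := lam_re hρ ha ha0 h1
  have h3 : (1 - conj a * ζ / (ρ:ℂ) ^ 2).arg ≠ π := by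
    intro h
    rw [Complex.arg_eq_pi_iff] at h
    linarith only [h2, h]
  rw [Lam, ← Complex.log_conj _ h3]
  congr 1
  have hρ' : (ρ:ℂ) ≠ 0 := by exact_mod_cast hρ.ne'
  have h0 := sphere_ne' hρ hζ
  simp only [map_sub, map_one, map_div₀, map_mul, Complex.conj_conj, map_pow, Complex.conj_ofReal]
  rw [conj_sphere hρ hζ]
  field_simp

theorem g_hasDeriv (ha : a ∈ ball (0:ℂ) ρ) (hρ : 0 < ρ) {ζ : ℂ}
    (hζ : ζ ∈ sphere (0:ℂ) ρ) : HasDerivAt (fun ζ => Complex.log (1 - a / ζ)) (gp a ζ) ζ := by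
  have h0 := sphere_ne' hρ hζ
  have hne : ζ - a ≠ 0 := by
    intro h'
    rw [sub_eq_zero] at h'
    subst h'
    simp at hζ ha
    linarith
  have h1 : HasDerivAt (fun ζ : ℂ => 1 - a / ζ) (a / ζ ^ 2) ζ := by
    have h2 := ((hasDerivAt_inv h0).const_mul a).const_sub 1
    have e : a / ζ ^ 2 = -(a * -(ζ ^ 2)⁻¹) := by field_simp
    rw [e]
    exact h2
  have h2 : 0 < (1 - a / ζ).re := by
    have h3 : ‖a / ζ‖ < 1 := by
      rw [norm_div]
      rw [mem_ball, dist_zero_right] at ha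
      rw [mem_sphere, dist_zero_right] at hζ
      rw [hζ, div_lt_one hρ]
      exact ha
    have h4 := (abs_le.mp (Complex.abs_re_le_norm (a / ζ))).2
    rw [Complex.sub_re, Complex.one_re]
    linarith only [h3, h4]
  have h5 := h1.clog (Or.inl h2)
  have e : a / ζ ^ 2 / (1 - a / ζ) = gp a ζ := by
    unfold gp
    have h6 : 1 - a / ζ = (ζ - a) / ζ := by field_simp
    rw [h6]
    field_simp
    ring
  rw [← e]
  exact h5

theorem gp_cont (ha : a ∈ ball (0:ℂ) ρ) (hρ : 0 < ρ) : ContinuousOn (gp a) (sphere 0 ρ) := by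
  apply ContinuousOn.sub
  · apply ContinuousOn.inv₀ (by fun_prop)
    intro ζ hζ h'
    rw [sub_eq_zero] at h'
    subst h'
    simp at hζ ha
    linarith
  · exact ContinuousOn.inv₀ (by fun_prop) (fun ζ hζ => sphere_ne' hρ hζ)

/-- relation between the two derivatives -/
theorem lamp_eq (hρ : 0 < ρ) (ha : a ∈ ball (0:ℂ) ρ) (ha0 : a ≠ 0) {ζ : ℂ}
    (hζ : ζ ∈ sphere (0:ℂ) ρ) : (-((ρ:ℂ) ^ 2 / ζ ^ 2)) * conj (gp a ζ) = Lamp ρ a ζ := by
  have h1 : ζ ∈ ball (0:ℂ) (ρ ^ 2 / ‖a‖) := by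
    have := rad_lt hρ ha ha0
    rw [mem_ball, dist_zero_right]
    rw [mem_sphere, dist_zero_right] at hζ
    linarith
  have h2 := lam_re hρ ha ha0 h1
  have hne : 1 - conj a * ζ / (ρ:ℂ) ^ 2 ≠ 0 := by
    intro h; rw [h] at h2; simp at h2
  have hρ' : (ρ:ℂ) ≠ 0 := by exact_mod_cast hρ.ne'
  have h0 := sphere_ne' hρ hζ
  have h3 : (ρ:ℂ) ^ 2 - conj a * ζ ≠ 0 := by
    intro h
    apply hne
    rw [sub_eq_zero] at h
    rw [← h]
    field_simp
    ring
  have h4 : (ρ:ℂ) ^ 2 / ζ - conj a = ((ρ:ℂ) ^ 2 - conj a * ζ) / ζ := by field_simp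
  have h5 : 1 - conj a * ζ / (ρ:ℂ) ^ 2 = ((ρ:ℂ) ^ 2 - conj a * ζ) / (ρ:ℂ) ^ 2 := by field_simp
  unfold gp Lamp
  simp only [map_sub, map_inv₀]
  rw [conj_sphere hρ hζ, h4, h5]
  generalize conj a = x at h3 ⊢
  have h6 : (ρ:ℂ) ^ 2 - ζ * x ≠ 0 := by rwa [mul_comm] at h3
  field_simp
  ring

theorem gp_eq (hρ : 0 < ρ) (ha : a ∈ ball (0:ℂ) ρ) (ha0 : a ≠ 0) {ζ : ℂ}
    (hζ : ζ ∈ sphere (0:ℂ) ρ) : (-((ρ:ℂ) ^ 2 / ζ ^ 2)) * conj (Lamp ρ a ζ) = gp a ζ := by
  rw [← lamp_eq hρ ha ha0 hζ]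
  have hρ' : (ρ:ℂ) ≠ 0 := by exact_mod_cast hρ.ne'
  have h0 := sphere_ne' hρ hζ
  simp only [map_mul, map_neg, map_div₀, map_pow, Complex.conj_ofReal, Complex.conj_conj]
  rw [conj_sphere hρ hζ]
  field_simp

end

end Pool.Agent.M16.Helper39.Area
end

/- Helper94.T.Helper22.Marshall.Parseval -/
section
/-!
Parseval's identity for power series on circles.
-/

set_option autoImplicit false

open MeasureTheory Set Metric Filter Topology
open scoped ENNReal NNReal Real

namespace Pool.Agent.M16.Helper22.Marshall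

theorem integral_exp_int (n : ℤ) (hn : n ≠ 0) :
    ∫ θ in (-π)..π, Complex.exp ((n : ℂ) * (θ : ℂ) * Complex.I) = 0 := by
  have h1 : ∀ θ : ℝ, (n : ℂ) * (θ : ℂ) * Complex.I = (n : ℂ) * Complex.I * (θ : ℂ) := by
    intro θ; ring
  simp_rw [h1]
  have hne : (n : ℂ) * Complex.I ≠ 0 :=
    mul_ne_zero (Int.cast_ne_zero.mpr hn) Complex.I_ne_zero
  rw [integral_exp_mul_complex hne]
  have h2 : Complex.exp ((n : ℂ) * Complex.I * ((π : ℝ) : ℂ))
      = Complex.exp ((n : ℂ) * Complex.I * ((-π : ℝ) : ℂ)) := by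
    rw [Complex.exp_eq_exp_iff_exists_int]
    refine ⟨n, ?_⟩
    push_cast
    ring
  rw [h2, sub_self, zero_div]

theorem hasSum_mul_aux (F G : ℕ → ℂ) (s t : ℂ) (h0 : HasSum F s) (h1 : HasSum G t)
    (h : Summable fun n => ‖F n‖) (h2 : Summable fun n => ‖G n‖) :
    HasSum (fun p : ℕ × ℕ => F p.1 * G p.2) (s * t) :=
  h0.mul h1 (summable_mul_of_summable_norm h h2)

theorem parseval_aux (c : ℕ → ℂ) (r : ℝ) (hr : 0 ≤ r)
    (hs : Summable fun n => ‖c n‖ * r ^ n) (f : ℝ → ℂ)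
    (hf : ∀ θ : ℝ, HasSum (fun n => c n * ((r : ℂ) * Complex.exp (θ * Complex.I)) ^ n) (f θ)) :
    HasSum (fun n => ‖c n‖ ^ 2 * r ^ (2 * n)) ((1 / (2 * π)) * ∫ θ in (-π)..π, ‖f θ‖ ^ 2) := by
  obtain ⟨F, hF⟩ : ∃ F : ℕ → ℝ → ℂ,
    F = fun (n : ℕ) (θ : ℝ) => c n * ((r : ℂ) * Complex.exp ((θ : ℂ) * Complex.I)) ^ n :=
    ⟨_, rfl⟩
  have hnormF : ∀ n θ, ‖F n θ‖ = ‖c n‖ * r ^ n := by
    intro n θ
    simp only [hF, norm_mul, norm_pow, Complex.norm_exp_ofReal_mul_I, mul_one]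
    rw [Complex.norm_real, Real.norm_of_nonneg hr]
  have hsn : ∀ θ, Summable fun n => ‖F n θ‖ := by
    intro θ
    simp_rw [hnormF]
    exact hs
  have hprod : ∀ θ, HasSum (fun p : ℕ × ℕ => F p.1 θ * (starRingEnd ℂ) (F p.2 θ))
      (f θ * (starRingEnd ℂ) (f θ)) := by
    intro θ
    have h1 : HasSum (fun n => (starRingEnd ℂ) (F n θ)) ((starRingEnd ℂ) (f θ)) := by
      have := (hf θ).map (starRingEnd ℂ) Complex.continuous_conj
      rw [hF]
      exact this
    have h0 : HasSum (fun n => F n θ) (f θ) := by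
      rw [hF]
      exact hf θ
    have h2 : Summable fun n => ‖(starRingEnd ℂ) (F n θ)‖ := by
      simp_rw [Complex.norm_conj]
      exact hsn θ
    exact hasSum_mul_aux (fun n => F n θ) (fun n => (starRingEnd ℂ) (F n θ)) _ _ h0 h1 (hsn θ) h2

  have hFc : ∀ n, Continuous (F n) := by
    intro n
    simp only [hF]
    fun_prop
  have hint : HasSum (fun p : ℕ × ℕ => ∫ θ in (-π)..π, F p.1 θ * (starRingEnd ℂ) (F p.2 θ))
      (∫ θ in (-π)..π, f θ * (starRingEnd ℂ) (f θ)) := by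
    have hpi : (-π : ℝ) ≤ π := by linarith [Real.pi_pos]
    have key : ∀ g : ℝ → ℂ, ∫ θ in (-π)..π, g θ = ∫ θ in Ioc (-π) π, g θ := fun g =>
      intervalIntegral.integral_of_le hpi
    simp_rw [key]
    have h2 := hasSum_integral_of_summable_integral_norm (μ := volume.restrict (Ioc (-π) π))
      (F := fun (p : ℕ × ℕ) (θ : ℝ) => F p.1 θ * (starRingEnd ℂ) (F p.2 θ)) ?_ ?_
    · have h3 : (fun θ => ∑' p : ℕ × ℕ, F p.1 θ * (starRingEnd ℂ) (F p.2 θ))
          = fun θ => f θ * (starRingEnd ℂ) (f θ) := by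
        funext θ
        exact (hprod θ).tsum_eq
      rw [h3] at h2
      exact h2
    · intro p
      apply Continuous.integrableOn_Ioc
      exact (hFc p.1).mul (Complex.continuous_conj.comp (hFc p.2))
    · have h4 : ∀ p : ℕ × ℕ, ∫ θ in Ioc (-π) π, ‖F p.1 θ * (starRingEnd ℂ) (F p.2 θ)‖
          = (2 * π) * ((‖c p.1‖ * r ^ p.1) * (‖c p.2‖ * r ^ p.2)) := by
        intro p
        have : ∀ θ, ‖F p.1 θ * (starRingEnd ℂ) (F p.2 θ)‖
            = (‖c p.1‖ * r ^ p.1) * (‖c p.2‖ * r ^ p.2) := by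
          intro θ
          rw [norm_mul, Complex.norm_conj, hnormF, hnormF]
        simp_rw [this]
        rw [setIntegral_const]
        simp only [smul_eq_mul]
        rw [Real.volume_real_Ioc_of_le hpi]
        ring
      simp_rw [h4]
      apply Summable.mul_left
      exact summable_mul_of_summable_norm
        (f := fun n => ‖c n‖ * r ^ n) (g := fun n => ‖c n‖ * r ^ n)
        (by simpa [abs_of_nonneg hr] using hs) (by simpa [abs_of_nonneg hr] using hs)
  -- compute the integrals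
  have hval : ∀ p : ℕ × ℕ, ∫ θ in (-π)..π, F p.1 θ * (starRingEnd ℂ) (F p.2 θ)
      = if p.1 = p.2 then ((2 * π * (‖c p.1‖ ^ 2 * r ^ (2 * p.1)) : ℝ) : ℂ) else 0 := by
    rintro ⟨m, n⟩
    have h5 : ∀ θ : ℝ, F m θ * (starRingEnd ℂ) (F n θ)
        = (c m * (starRingEnd ℂ) (c n) * (r : ℂ) ^ (m + n)) *
          Complex.exp (((m : ℤ) - (n : ℤ) : ℤ) * (θ : ℂ) * Complex.I) := by
      intro θ
      simp only [hF, map_mul, map_pow, Complex.conj_ofReal]
      rw [← Complex.exp_conj]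
      simp only [map_mul, Complex.conj_ofReal, Complex.conj_I]
      rw [mul_pow, mul_pow, ← Complex.exp_nat_mul, ← Complex.exp_nat_mul]
      have : Complex.exp (((m : ℤ) - (n : ℤ) : ℤ) * (θ : ℂ) * Complex.I)
          = Complex.exp ((m : ℂ) * ((θ : ℂ) * Complex.I))
            * Complex.exp ((n : ℂ) * ((θ : ℂ) * -Complex.I)) := by
        rw [← Complex.exp_add]
        congr 1
        push_cast
        ring
      rw [this]
      ring
    simp only
    simp_rw [h5]
    rw [intervalIntegral.integral_const_mul]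
    by_cases hmn : m = n
    · subst hmn
      rw [if_pos rfl]
      simp only [sub_self, Int.cast_zero, zero_mul, Complex.exp_zero]
      rw [intervalIntegral.integral_const, Complex.mul_conj, Complex.normSq_eq_norm_sq]
      simp only [sub_neg_eq_add, Complex.real_smul, mul_one]
      push_cast
      ring
    · rw [if_neg hmn, integral_exp_int _ (sub_ne_zero.mpr (by exact_mod_cast hmn)), mul_zero]
  simp_rw [hval] at hint
  -- restrict to the diagonal
  have hdiag : HasSum (fun n : ℕ => ((2 * π * (‖c n‖ ^ 2 * r ^ (2 * n)) : ℝ) : ℂ))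
      (∫ θ in (-π)..π, f θ * (starRingEnd ℂ) (f θ)) := by
    have hinj : Function.Injective (fun n : ℕ => (n, n)) := by
      intro a b h
      exact (Prod.mk.inj h).1
    have := (hinj.hasSum_iff (f := fun p : ℕ × ℕ =>
      if p.1 = p.2 then ((2 * π * (‖c p.1‖ ^ 2 * r ^ (2 * p.1)) : ℝ) : ℂ) else 0)
      (a := ∫ θ in (-π)..π, f θ * (starRingEnd ℂ) (f θ)) ?_).mpr hint
    · simpa [Function.comp_def] using this
    · rintro ⟨a, b⟩ hab
      rw [if_neg]
      intro h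
      apply hab
      refine ⟨a, ?_⟩
      simp only [Prod.mk.injEq, true_and]
      exact h
  have hreal : (∫ θ in (-π)..π, f θ * (starRingEnd ℂ) (f θ))
      = ((∫ θ in (-π)..π, ‖f θ‖ ^ 2 : ℝ) : ℂ) := by
    rw [← intervalIntegral.integral_ofReal]
    congr 1
    funext θ
    rw [Complex.mul_conj, Complex.normSq_eq_norm_sq]
  rw [hreal] at hdiag
  have h6 := Complex.hasSum_ofReal.mp hdiag
  have h7 := h6.mul_left (1 / (2 * π))
  have hpi := Real.pi_pos
  have h8 : (fun n => ‖c n‖ ^ 2 * r ^ (2 * n))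
      = fun n => 1 / (2 * π) * (2 * π * (‖c n‖ ^ 2 * r ^ (2 * n))) := by
    funext n
    field_simp
  rw [h8]
  exact h7

end Pool.Agent.M16.Helper22.Marshall
end

/- Helper94.T.Helper22.Marshall.Coeff -/
section
/-!
Taylor coefficients of holomorphic functions on the unit disc, and Parseval's identity.
-/

set_option autoImplicit false

open MeasureTheory Set Metric Filter Topology
open scoped ENNReal NNReal Real Nat

namespace Pool.Agent.M16.Helper22.Marshall

/-- Taylor coefficient at zero. -/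
noncomputable def coeff (f : ℂ → ℂ) (n : ℕ) : ℂ := (n ! : ℂ)⁻¹ * iteratedDeriv n f 0

theorem coeff_zero (f : ℂ → ℂ) : coeff f 0 = f 0 := by simp [coeff]

theorem hasSum_coeff {f : ℂ → ℂ} (hf : DifferentiableOn ℂ f (ball 0 1)) {z : ℂ}
    (hz : ‖z‖ < 1) : HasSum (fun n => coeff f n * z ^ n) (f z) := by
  have h := Complex.hasSum_taylorSeries_on_ball (c := 0) (r := 1) (z := z) hf (by simpa using hz)
  have : (fun n => coeff f n * z ^ n)
      = fun n : ℕ => (n ! : ℂ)⁻¹ • (z - 0) ^ n • iteratedDeriv n f 0 := by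
    funext n
    simp only [coeff, smul_eq_mul, sub_zero]
    ring
  rw [this]
  exact h

theorem coeff_deriv (f : ℂ → ℂ) (n : ℕ) :
    coeff (deriv f) n = ((n : ℂ) + 1) * coeff f (n + 1) := by
  simp only [coeff, Nat.factorial_succ, Nat.cast_mul, Nat.cast_succ]
  rw [iteratedDeriv_succ']
  have h1 : ((n : ℂ) + 1) ≠ 0 := Nat.cast_add_one_ne_zero n
  have h2 : ((n ! : ℕ) : ℂ) ≠ 0 := Nat.cast_ne_zero.mpr (Nat.factorial_ne_zero n)
  field_simp

theorem differentiableOn_deriv {f : ℂ → ℂ} (hf : DifferentiableOn ℂ f (ball 0 1)) :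
    DifferentiableOn ℂ (deriv f) (ball 0 1) := hf.deriv isOpen_ball

theorem hasSum_coeff_deriv {f : ℂ → ℂ} (hf : DifferentiableOn ℂ f (ball 0 1)) {z : ℂ}
    (hz : ‖z‖ < 1) : HasSum (fun n : ℕ => (n : ℂ) * coeff f n * z ^ n) (z * deriv f z) := by
  have h := (hasSum_coeff (differentiableOn_deriv hf) hz).mul_left z
  have h2 : HasSum (fun n : ℕ => ((n + 1 : ℕ) : ℂ) * coeff f (n + 1) * z ^ (n + 1))
      (z * deriv f z) := by
    have : (fun n : ℕ => ((n + 1 : ℕ) : ℂ) * coeff f (n + 1) * z ^ (n + 1))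
        = fun n => z * (coeff (deriv f) n * z ^ n) := by
      funext n
      rw [coeff_deriv]
      push_cast
      ring
    rw [this]
    exact h
  rw [← hasSum_nat_add_iff' 1]
  simpa using h2

theorem parseval_comb {f : ℂ → ℂ} (hf : DifferentiableOn ℂ f (ball 0 1)) (α β : ℂ) {r : ℝ}
    (hr : 0 ≤ r) (hr1 : r < 1) :
    HasSum (fun n : ℕ => ‖(α * n + β) * coeff f n‖ ^ 2 * r ^ (2 * n))
      ((1 / (2 * π)) * ∫ θ in (-π)..π,
        ‖α * (((r : ℂ) * Complex.exp ((θ : ℂ) * Complex.I)) *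
          deriv f ((r : ℂ) * Complex.exp ((θ : ℂ) * Complex.I)))
          + β * f ((r : ℂ) * Complex.exp ((θ : ℂ) * Complex.I))‖ ^ 2) := by
  have hsum : ∀ z : ℂ, ‖z‖ < 1 → HasSum (fun n : ℕ => (α * n + β) * coeff f n * z ^ n)
      (α * (z * deriv f z) + β * f z) := by
    intro z hz
    have h1 := (hasSum_coeff_deriv hf hz).mul_left α
    have h2 := (hasSum_coeff hf hz).mul_left β
    have h3 := h1.add h2
    have : (fun n : ℕ => (α * n + β) * coeff f n * z ^ n)
        = fun n : ℕ => α * ((n : ℂ) * coeff f n * z ^ n) + β * (coeff f n * z ^ n) := by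
      funext n
      ring
    rw [this]
    exact h3
  have hnorm : ∀ θ : ℝ, ‖(r : ℂ) * Complex.exp ((θ : ℂ) * Complex.I)‖ = r := by
    intro θ
    rw [norm_mul, Complex.norm_exp_ofReal_mul_I, mul_one, Complex.norm_real,
      Real.norm_of_nonneg hr]
  apply parseval_aux (fun n : ℕ => (α * n + β) * coeff f n) r hr
  · have h := (hsum (r : ℂ) (by rw [Complex.norm_real, Real.norm_of_nonneg hr]; exact hr1)).summable
    have h2 := h.norm
    have : (fun n : ℕ => ‖(α * n + β) * coeff f n‖ * r ^ n)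
        = fun n : ℕ => ‖(α * n + β) * coeff f n * (r : ℂ) ^ n‖ := by
      funext n
      rw [norm_mul _ ((r : ℂ) ^ n), norm_pow, Complex.norm_real, Real.norm_of_nonneg hr]
    rw [this]
    exact h2
  · intro θ
    exact hsum _ (by rw [hnorm]; exact hr1)

end Pool.Agent.M16.Helper22.Marshall
end

/- Helper94.T.Helper22.Marshall.CoeffMul -/
section
/-!
Taylor coefficients of products, and Cauchy's formula on circles.
-/

set_option autoImplicit false

open MeasureTheory Set Metric Filter Topology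
open scoped ENNReal NNReal Real Nat

namespace Pool.Agent.M16.Helper22.Marshall

theorem coeff_mul {f g : ℂ → ℂ} (hf : AnalyticAt ℂ f 0) (hg : AnalyticAt ℂ g 0) (n : ℕ) :
    coeff (fun z => f z * g z) n = ∑ i ∈ Finset.range (n + 1), coeff f i * coeff g (n - i) := by
  unfold coeff
  have h := iteratedDeriv_mul (n := n) (x := (0 : ℂ)) hf.contDiffAt hg.contDiffAt
  have e : (fun z => f z * g z) = f * g := rfl
  rw [e, h, Finset.mul_sum]
  apply Finset.sum_congr rfl
  intro i hi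
  rw [Finset.mem_range] at hi
  have h2 : (n.choose i : ℂ) * ((i ! : ℕ) : ℂ) * (((n - i)! : ℕ) : ℂ) = ((n ! : ℕ) : ℂ) := by
    exact_mod_cast Nat.choose_mul_factorial_mul_factorial (by omega : i ≤ n)
  have h3 : ((n ! : ℕ) : ℂ) ≠ 0 := Nat.cast_ne_zero.mpr (Nat.factorial_ne_zero n)
  have h4 : ((i ! : ℕ) : ℂ) ≠ 0 := Nat.cast_ne_zero.mpr (Nat.factorial_ne_zero i)
  have h5 : (((n - i)! : ℕ) : ℂ) ≠ 0 := Nat.cast_ne_zero.mpr (Nat.factorial_ne_zero _)
  rw [← h2]
  have h6 : (n.choose i : ℂ) ≠ 0 := by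
    intro h
    rw [h, zero_mul, zero_mul] at h2
    exact h3 h2.symm
  field_simp

theorem coeff_congr {f g : ℂ → ℂ} (h : f =ᶠ[𝓝 0] g) (n : ℕ) : coeff f n = coeff g n := by
  unfold coeff
  rw [h.iteratedDeriv_eq]

theorem coeff_const_mul (c : ℂ) (f : ℂ → ℂ) (n : ℕ) :
    coeff (fun z => c * f z) n = c * coeff f n := by
  unfold coeff
  rw [iteratedDeriv_const_mul_field]
  ring

/-- uniqueness of Taylor coefficients -/
theorem coeff_eq_of_hasSum {f : ℂ → ℂ} {a : ℕ → ℂ} {r : ℝ} (hr : 0 < r)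
    (h : ∀ z : ℂ, ‖z‖ < r → HasSum (fun n => a n * z ^ n) (f z)) (n : ℕ) : coeff f n = a n := by
  have hp : HasFPowerSeriesAt f (FormalMultilinearSeries.ofScalars ℂ a) 0 := by
    rw [hasFPowerSeriesAt_iff]
    filter_upwards [ball_mem_nhds (0 : ℂ) hr] with z hz
    rw [mem_ball_zero_iff] at hz
    have e : (fun n => z ^ n • (FormalMultilinearSeries.ofScalars ℂ a).coeff n)
        = fun n => a n * z ^ n := by
      funext n
      rw [FormalMultilinearSeries.coeff_ofScalars, smul_eq_mul, mul_comm]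
    rw [e, zero_add]
    exact h z hz
  have han : AnalyticAt ℂ f 0 := hp.analyticAt
  have h2 := han.hasFPowerSeriesAt
  have h3 := hp.eq_formalMultilinearSeries h2
  have h4 := congrArg (fun p : FormalMultilinearSeries ℂ ℂ ℂ => p.coeff n) h3
  simp only [FormalMultilinearSeries.coeff_ofScalars] at h4
  rw [h4]
  unfold coeff
  rw [div_eq_inv_mul]

end Pool.Agent.M16.Helper22.Marshall
end

/- Helper94.T.Helper22.Marshall.DoubleSeries -/
section
/-!
Taylor coefficients of separately holomorphic functions on the bidisc.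
-/

set_option autoImplicit false

open MeasureTheory Set Metric Filter Topology
open scoped ENNReal NNReal Real Nat

namespace Pool.Agent.M16.Helper22.Marshall

theorem hasSum_integral_bound {g : ℕ → ℝ → ℂ} (hg : ∀ n, Continuous (g n)) {B : ℕ → ℝ}
    (hB : Summable B) (hgB : ∀ n α, ‖g n α‖ ≤ B n) {G : ℝ → ℂ}
    (hG : ∀ α, HasSum (fun n => g n α) (G α)) :
    HasSum (fun n => ∫ α in (-π)..π, g n α) (∫ α in (-π)..π, G α) := by
  have hpi : (-π : ℝ) ≤ π := by linarith only [Real.pi_pos]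
  simp_rw [intervalIntegral.integral_of_le hpi]
  have h2 := hasSum_integral_of_summable_integral_norm (μ := volume.restrict (Ioc (-π) π))
    (F := g) (fun n => (hg n).integrableOn_Ioc) ?_
  · have h3 : (fun α => ∑' n, g n α) = G := by
      funext α
      exact (hG α).tsum_eq
    rw [h3] at h2
    exact h2
  · apply (hB.mul_left (2 * π)).of_nonneg_of_le
    · intro n
      exact integral_nonneg fun α => norm_nonneg _
    · intro n
      calc ∫ α in Ioc (-π) π, ‖g n α‖ ≤ ∫ α in Ioc (-π) π, B n := by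
            apply integral_mono
            · exact ((hg n).norm).integrableOn_Ioc
            · exact integrable_const _
            · intro α; exact hgB n α
        _ = 2 * π * B n := by
            rw [setIntegral_const, smul_eq_mul, Real.volume_real_Ioc_of_le hpi]
            ring

/-- the point `r e^{iα}` -/
noncomputable def pt (r α : ℝ) : ℂ := (r : ℂ) * Complex.exp ((α : ℂ) * Complex.I)

theorem norm_pt {r : ℝ} (hr : 0 ≤ r) (α : ℝ) : ‖pt r α‖ = r := by
  unfold pt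
  rw [norm_mul, Complex.norm_exp_ofReal_mul_I, mul_one, Complex.norm_real, Real.norm_of_nonneg hr]

theorem continuous_pt (r : ℝ) : Continuous (pt r) := by unfold pt; fun_prop

theorem pt_mem {r : ℝ} (hr : 0 ≤ r) (hr1 : r < 1) (α : ℝ) : pt r α ∈ ball (0 : ℂ) 1 := by
  rw [mem_ball_zero_iff, norm_pt hr]; exact hr1

theorem circle_coeff {f : ℂ → ℂ} (hf : DifferentiableOn ℂ f (ball 0 1)) {r : ℝ} (hr : 0 ≤ r)
    (hr1 : r < 1) (k : ℕ) :
    ∫ α in (-π)..π, f (pt r α) * Complex.exp (-(k : ℂ) * α * Complex.I)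
      = 2 * π * (coeff f k * (r : ℂ) ^ k) := by
  have hs : Summable fun n => ‖coeff f n * (r : ℂ) ^ n‖ :=
    (hasSum_coeff hf (z := (r : ℂ)) (by
      rw [Complex.norm_real, Real.norm_of_nonneg hr]; exact hr1)).summable.norm
  have h1 := hasSum_integral_bound
    (g := fun n α => coeff f n * pt r α ^ n * Complex.exp (-(k : ℂ) * α * Complex.I))
    (fun n => by
      have := continuous_pt r
      fun_prop)
    hs (G := fun α => f (pt r α) * Complex.exp (-(k : ℂ) * α * Complex.I))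
    (fun n α => by
      have e : -(k : ℂ) * α * Complex.I = ((-(k : ℝ) * α : ℝ) : ℂ) * Complex.I := by push_cast; ring
      rw [norm_mul, e, Complex.norm_exp_ofReal_mul_I, mul_one, norm_mul, norm_pow, norm_pt hr,
        norm_mul, norm_pow, Complex.norm_real, Real.norm_of_nonneg hr])
    (fun α => by
      have := hasSum_coeff hf (z := pt r α) (by rw [norm_pt hr]; exact hr1)
      exact this.mul_right _)
  have h2 : ∀ n : ℕ, ∫ α in (-π)..π, coeff f n * pt r α ^ n * Complex.exp (-(k : ℂ) * α * Complex.I)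
      = if n = k then 2 * π * (coeff f k * (r : ℂ) ^ k) else 0 := by
    intro n
    have e : ∀ α : ℝ, coeff f n * pt r α ^ n * Complex.exp (-(k : ℂ) * α * Complex.I)
        = (coeff f n * (r : ℂ) ^ n) * Complex.exp (((n : ℤ) - (k : ℤ) : ℤ) * (α : ℂ) * Complex.I) := by
      intro α
      unfold pt
      have e2 : Complex.exp ((n : ℂ) * ((α : ℂ) * Complex.I))
          * Complex.exp (-(k : ℂ) * α * Complex.I)
          = Complex.exp (((n : ℤ) - (k : ℤ) : ℤ) * (α : ℂ) * Complex.I) := by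
        rw [← Complex.exp_add]
        congr 1
        push_cast
        ring
      rw [mul_pow, ← Complex.exp_nat_mul, ← e2]
      ring
    simp_rw [e]
    rw [intervalIntegral.integral_const_mul]
    split_ifs with h
    · subst h
      simp
      ring
    · rw [integral_exp_int _ (by omega), mul_zero]
  simp_rw [h2] at h1
  have h3 := h1.unique (hasSum_ite_eq k _)
  exact h3

/-- the data of a separately holomorphic continuous function -/
structure SepHol (U : ℂ → ℂ → ℂ) : Prop where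
  cont : ContinuousOn (fun p : ℂ × ℂ => U p.1 p.2) (ball 0 1 ×ˢ ball 0 1)
  left : ∀ w ∈ ball (0 : ℂ) 1, DifferentiableOn ℂ (fun z => U z w) (ball 0 1)
  right : ∀ z ∈ ball (0 : ℂ) 1, DifferentiableOn ℂ (fun w => U z w) (ball 0 1)

theorem SepHol.swap {U : ℂ → ℂ → ℂ} (h : SepHol U) : SepHol (fun z w => U w z) where
  cont := by
    have := h.cont.comp (f := fun p : ℂ × ℂ => (p.2, p.1)) (s := ball 0 1 ×ˢ ball 0 1)
      (by fun_prop) (fun p hp => ⟨hp.2, hp.1⟩)
    exact this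
  left := h.right
  right := h.left

theorem SepHol.bound {U : ℂ → ℂ → ℂ} (h : SepHol U) {r : ℝ} (hr1 : r < 1) :
    ∃ M : ℝ, 0 ≤ M ∧ ∀ z w : ℂ, ‖z‖ ≤ r → ‖w‖ ≤ r → ‖U z w‖ ≤ M := by
  have hc : IsCompact (closedBall (0 : ℂ) r ×ˢ closedBall (0 : ℂ) r) :=
    (isCompact_closedBall _ _).prod (isCompact_closedBall _ _)
  obtain ⟨M, hM⟩ := hc.exists_bound_of_continuousOn (h.cont.mono (by
    apply Set.prod_mono <;> exact closedBall_subset_ball hr1))
  refine ⟨max M 0, le_max_right _ _, fun z w hz hw => ?_⟩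
  exact (hM (z, w) ⟨mem_closedBall_zero_iff.mpr hz, mem_closedBall_zero_iff.mpr hw⟩).trans
    (le_max_left _ _)

theorem coeff_bound {f : ℂ → ℂ} (hf : DifferentiableOn ℂ f (ball 0 1)) {r M : ℝ} (hr : 0 < r)
    (hr1 : r < 1) (hM : ∀ z, ‖z‖ ≤ r → ‖f z‖ ≤ M) (n : ℕ) : ‖coeff f n‖ * r ^ n ≤ M := by
  have h1 : ‖∫ α in (-π)..π, f (pt r α) * Complex.exp (-(n : ℂ) * α * Complex.I)‖
      ≤ M * |π - (-π)| := by
    apply intervalIntegral.norm_integral_le_of_norm_le_const
    intro α _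
    have e : -(n : ℂ) * α * Complex.I = ((-(n : ℝ) * α : ℝ) : ℂ) * Complex.I := by push_cast; ring
    rw [norm_mul, e, Complex.norm_exp_ofReal_mul_I, mul_one]
    exact hM _ (norm_pt hr.le α).le
  rw [circle_coeff hf hr.le hr1, norm_mul (2 * π : ℂ), norm_mul (coeff f n), norm_pow,
    Complex.norm_real, Real.norm_of_nonneg hr.le] at h1
  have hpi := Real.pi_pos
  have h2 : |π - (-π)| = 2 * π := by rw [abs_of_pos (by linarith only [hpi])]; ring
  have h3 : ‖(2 * π : ℂ)‖ = 2 * π := by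
    rw [norm_mul, Complex.norm_real, Real.norm_of_nonneg hpi.le]; simp
  rw [h2, h3] at h1
  have h4 : 2 * π * (‖coeff f n‖ * r ^ n) ≤ 2 * π * M := by linarith only [h1]
  exact le_of_mul_le_mul_left h4 (by positivity)

/-- for fixed `k`, the coefficient functions are given by a power series -/
theorem SepHol.param {U : ℂ → ℂ → ℂ} (h : SepHol U) {r : ℝ} (hr : 0 < r) (hr1 : r < 1) (k : ℕ)
    {w : ℂ} (hw : ‖w‖ < r) :
    HasSum (fun l : ℕ => (∫ α in (-π)..π, coeff (U (pt r α)) l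
        * Complex.exp (-(k : ℂ) * α * Complex.I)) * w ^ l)
      (2 * π * (coeff (fun z => U z w) k * (r : ℂ) ^ k)) := by
  have hw1 : w ∈ ball (0 : ℂ) 1 := mem_ball_zero_iff.mpr (hw.trans hr1)
  rw [← circle_coeff (h.left w hw1) hr.le hr1 k]
  obtain ⟨M, hM0, hM⟩ := h.bound hr1
  have hcb : ∀ (l : ℕ) (α : ℝ), ‖coeff (U (pt r α)) l‖ * r ^ l ≤ M := fun l α =>
    coeff_bound (h.right _ (pt_mem hr.le hr1 α)) hr hr1
      (fun z hz => hM _ _ (norm_pt hr.le α).le hz) l
  have hcont : ∀ l : ℕ, Continuous (fun α : ℝ => coeff (U (pt r α)) l) := by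
    intro l
    have h1 : ∀ α : ℝ, coeff (U (pt r α)) l = (2 * π * (r : ℂ) ^ l)⁻¹ *
        ∫ β in (-π)..π, U (pt r α) (pt r β) * Complex.exp (-(l : ℂ) * β * Complex.I) := by
      intro α
      rw [circle_coeff (h.right _ (pt_mem hr.le hr1 α)) hr.le hr1]
      have h3 : (r : ℂ) ≠ 0 := by exact_mod_cast hr.ne'
      have h4 : (π : ℂ) ≠ 0 := by exact_mod_cast Real.pi_pos.ne'
      field_simp
    have h5 : (fun α : ℝ => coeff (U (pt r α)) l) = fun α => (2 * π * (r : ℂ) ^ l)⁻¹ *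
        ∫ β in (-π)..π, U (pt r α) (pt r β) * Complex.exp (-(l : ℂ) * β * Complex.I) := by
      funext α; exact h1 α
    rw [h5]
    apply Continuous.mul continuous_const
    apply intervalIntegral.continuous_parametric_intervalIntegral_of_continuous'
    apply Continuous.mul
    · have := h.cont.comp_continuous (f := fun p : ℝ × ℝ => (pt r p.1, pt r p.2))
        (by
          have := continuous_pt r
          fun_prop)
        (fun p => ⟨pt_mem hr.le hr1 _, pt_mem hr.le hr1 _⟩)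
      exact this
    · fun_prop
  have hr' : ‖w‖ / r < 1 := (div_lt_one hr).mpr hw
  have h3 := hasSum_integral_bound
    (g := fun l α => coeff (U (pt r α)) l * Complex.exp (-(k : ℂ) * α * Complex.I) * w ^ l)
    (B := fun l => M * (‖w‖ / r) ^ l)
    (G := fun α => U (pt r α) w * Complex.exp (-(k : ℂ) * α * Complex.I))
    (fun l => by
      have := hcont l
      fun_prop)
    ((summable_geometric_of_lt_one (by positivity) hr').mul_left M)
    (fun l α => by
      have e : -(k : ℂ) * α * Complex.I = ((-(k : ℝ) * α : ℝ) : ℂ) * Complex.I := by push_cast; ring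
      rw [norm_mul, norm_mul, e, Complex.norm_exp_ofReal_mul_I, mul_one, norm_pow]
      have h6 := hcb l α
      have h7 : ‖coeff (U (pt r α)) l‖ ≤ M / r ^ l := by
        rw [le_div_iff₀ (by positivity)]; exact h6
      calc ‖coeff (U (pt r α)) l‖ * ‖w‖ ^ l ≤ M / r ^ l * ‖w‖ ^ l := by gcongr
        _ = M * (‖w‖ / r) ^ l := by rw [div_pow]; ring)
    (fun α => by
      have := hasSum_coeff (h.right _ (pt_mem hr.le hr1 α)) (z := w) (by
        exact hw.trans hr1)
      have h8 := this.mul_right (Complex.exp (-(k : ℂ) * α * Complex.I))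
      have e : (fun l => coeff (U (pt r α)) l * Complex.exp (-(k : ℂ) * α * Complex.I) * w ^ l)
          = fun l => coeff (fun w => U (pt r α) w) l * w ^ l
            * Complex.exp (-(k : ℂ) * α * Complex.I) := by
        funext l; ring
      rw [e]
      exact h8)
  have e : (fun l : ℕ => (∫ α in (-π)..π, coeff (U (pt r α)) l
        * Complex.exp (-(k : ℂ) * α * Complex.I)) * w ^ l)
      = fun l : ℕ => ∫ α in (-π)..π, coeff (U (pt r α)) l
        * Complex.exp (-(k : ℂ) * α * Complex.I) * w ^ l := by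
    funext l
    rw [intervalIntegral.integral_mul_const]
  rw [e]
  exact h3

theorem SepHol.coeff_diff {U : ℂ → ℂ → ℂ} (h : SepHol U) (k : ℕ) :
    DifferentiableOn ℂ (fun w => coeff (fun z => U z w) k) (ball 0 1) := by
  intro w hw
  rw [mem_ball_zero_iff] at hw
  obtain ⟨r, hr1, hr2⟩ := exists_between hw
  have hr : 0 < r := (norm_nonneg w).trans_lt hr1
  have hr0 : (r : ℂ) ≠ 0 := by exact_mod_cast hr.ne'
  have hpi : (π : ℂ) ≠ 0 := by exact_mod_cast Real.pi_pos.ne'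
  have hne : (2 * π * (r : ℂ) ^ k : ℂ) ≠ 0 :=
    mul_ne_zero (mul_ne_zero two_ne_zero hpi) (pow_ne_zero _ hr0)
  obtain ⟨a, ha⟩ : ∃ a : ℕ → ℂ, ∀ z : ℂ, ‖z‖ < r →
      HasSum (fun l => a l * z ^ l) (coeff (fun z' => U z' z) k) := by
    refine ⟨fun l => (2 * π * (r : ℂ) ^ k)⁻¹ * ∫ α in (-π)..π, coeff (U (pt r α)) l
        * Complex.exp (-(k : ℂ) * α * Complex.I), fun z hz => ?_⟩
    have h1 := (h.param hr hr2 k hz).mul_left (2 * π * (r : ℂ) ^ k)⁻¹
    have e : (2 * π * (r : ℂ) ^ k)⁻¹ * (2 * π * (coeff (fun z' => U z' z) k * (r : ℂ) ^ k))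
        = coeff (fun z' => U z' z) k := by
      field_simp
    rw [e] at h1
    have e2 : (fun l => (2 * π * (r : ℂ) ^ k)⁻¹ * (∫ α in (-π)..π, coeff (U (pt r α)) l
        * Complex.exp (-(k : ℂ) * α * Complex.I)) * z ^ l)
        = fun l => (2 * π * (r : ℂ) ^ k)⁻¹ * ((∫ α in (-π)..π, coeff (U (pt r α)) l
        * Complex.exp (-(k : ℂ) * α * Complex.I)) * z ^ l) := by
      funext l; ring
    rw [e2]
    exact h1
  obtain ⟨r', hr1', hr2'⟩ := exists_between hr1
  have hr'0 : 0 < r' := (norm_nonneg w).trans_lt hr1'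
  have hsum : Summable fun l => ‖a l‖ * r' ^ l := by
    have := (ha (r' : ℂ) (by rw [Complex.norm_real, Real.norm_of_nonneg hr'0.le]; exact hr2')).summable.norm
    simpa [norm_mul, norm_pow, Complex.norm_real, abs_of_pos hr'0] using this
  have hd := Complex.differentiableOn_tsum_of_summable_norm (F := fun l z => a l * z ^ l) hsum
    (U := ball (0 : ℂ) r') (fun l => by fun_prop) isOpen_ball
    (fun l z hz => by
      rw [mem_ball_zero_iff] at hz
      rw [norm_mul, norm_pow]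
      gcongr)
  have hww : w ∈ ball (0 : ℂ) r' := mem_ball_zero_iff.mpr hr1'
  have h2 := hd.differentiableAt (isOpen_ball.mem_nhds hww)
  apply DifferentiableAt.differentiableWithinAt
  apply h2.congr_of_eventuallyEq
  filter_upwards [isOpen_ball.mem_nhds hww] with z hz
  rw [mem_ball_zero_iff] at hz
  exact (ha z (hz.trans hr2')).tsum_eq.symm

/-- the order of extracting coefficients does not matter -/
theorem SepHol.coeff_comm {U : ℂ → ℂ → ℂ} (h : SepHol U) (k l : ℕ) :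
    coeff (fun w => coeff (fun z => U z w) k) l = coeff (fun z => coeff (fun w => U z w) l) k := by
  have hr0 : ((1 / 2 : ℝ) : ℂ) ≠ 0 := by norm_num
  have hpi : (π : ℂ) ≠ 0 := by exact_mod_cast Real.pi_pos.ne'
  have hne : (2 * π * ((1 / 2 : ℝ) : ℂ) ^ k : ℂ) ≠ 0 :=
    mul_ne_zero (mul_ne_zero two_ne_zero hpi) (pow_ne_zero _ hr0)
  have h1 := coeff_eq_of_hasSum (f := fun w => 2 * π * (coeff (fun z => U z w) k * ((1 / 2 : ℝ) : ℂ) ^ k))
    (r := 1 / 2) (by norm_num) (fun w hw => h.param (r := 1 / 2) (by norm_num) (by norm_num) k hw) l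
  have e1 : coeff (fun w => 2 * π * (coeff (fun z => U z w) k * ((1 / 2 : ℝ) : ℂ) ^ k)) l
      = (2 * π * ((1 / 2 : ℝ) : ℂ) ^ k) * coeff (fun w => coeff (fun z => U z w) k) l := by
    rw [← coeff_const_mul]
    congr 1
    funext w
    ring
  rw [e1] at h1
  have h2 := circle_coeff (f := fun z => coeff (fun w => U z w) l) (h.swap.coeff_diff l)
    (r := 1 / 2) (by norm_num) (by norm_num) k
  rw [h2] at h1
  have : (2 * π * ((1 / 2 : ℝ) : ℂ) ^ k) * coeff (fun w => coeff (fun z => U z w) k) l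
      = (2 * π * ((1 / 2 : ℝ) : ℂ) ^ k) * coeff (fun z => coeff (fun w => U z w) l) k := by
    rw [h1]; ring
  exact mul_left_cancel₀ hne this

/-- double Taylor coefficients -/
noncomputable def dcoeff (U : ℂ → ℂ → ℂ) (k l : ℕ) : ℂ :=
  coeff (fun z => coeff (fun w => U z w) l) k

theorem SepHol.dcoeff_bound {U : ℂ → ℂ → ℂ} (h : SepHol U) {r : ℝ} (hr : 0 < r) (hr1 : r < 1) :
    ∃ M : ℝ, 0 ≤ M ∧ ∀ k l : ℕ, ‖dcoeff U k l‖ * r ^ k * r ^ l ≤ M := by
  obtain ⟨M, hM0, hM⟩ := h.bound hr1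
  refine ⟨M, hM0, fun k l => ?_⟩
  have h1 : ∀ z, ‖z‖ ≤ r → ‖coeff (fun w => U z w) l‖ ≤ M / r ^ l := by
    intro z hz
    rw [le_div_iff₀ (by positivity)]
    exact coeff_bound (h.right z (mem_ball_zero_iff.mpr (hz.trans_lt hr1))) hr hr1
      (fun w hw => hM z w hz hw) l
  have h2 := coeff_bound (f := fun z => coeff (fun w => U z w) l) (h.swap.coeff_diff l) hr hr1 h1 k
  rw [le_div_iff₀ (by positivity)] at h2
  exact h2

theorem SepHol.hasSum_left {U : ℂ → ℂ → ℂ} (h : SepHol U) {z : ℂ} (hz : ‖z‖ < 1) (l : ℕ) :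
    HasSum (fun k => dcoeff U k l * z ^ k) (coeff (fun w => U z w) l) :=
  hasSum_coeff (f := fun z => coeff (fun w => U z w) l) (h.swap.coeff_diff l) hz

/-- the diagonal -/
theorem SepHol.hasSum_diag {U : ℂ → ℂ → ℂ} (h : SepHol U) (m : ℕ) :
    coeff (fun z => U z z) m = ∑ k ∈ Finset.range (m + 1), dcoeff U k (m - k) := by
  apply coeff_eq_of_hasSum (r := 1 / 4) (by norm_num)
    (a := fun m => ∑ k ∈ Finset.range (m + 1), dcoeff U k (m - k))
  intro z hz
  obtain ⟨M, hM0, hM⟩ := h.dcoeff_bound (r := 1 / 2) (by norm_num) (by norm_num)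
  have hz1 : ‖z‖ < 1 := by linarith only [hz]
  have hb : ∀ k l : ℕ, ‖dcoeff U k l * z ^ k * z ^ l‖ ≤ M * ((2 * ‖z‖) ^ k * (2 * ‖z‖) ^ l) := by
    intro k l
    rw [norm_mul, norm_mul, norm_pow, norm_pow]
    have h1 := hM k l
    have h2 : ‖dcoeff U k l‖ ≤ M * (2 ^ k * 2 ^ l) := by
      have e : ‖dcoeff U k l‖ = (‖dcoeff U k l‖ * (1 / 2) ^ k * (1 / 2) ^ l) * (2 ^ k * 2 ^ l) := by
        rw [one_div, inv_pow, inv_pow]
        field_simp
      rw [e]
      exact mul_le_mul_of_nonneg_right h1 (by positivity)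
    calc ‖dcoeff U k l‖ * ‖z‖ ^ k * ‖z‖ ^ l ≤ M * (2 ^ k * 2 ^ l) * ‖z‖ ^ k * ‖z‖ ^ l := by gcongr
      _ = M * ((2 * ‖z‖) ^ k * (2 * ‖z‖) ^ l) := by rw [mul_pow, mul_pow]; ring
  have hg : Summable fun k : ℕ => (2 * ‖z‖) ^ k :=
    summable_geometric_of_lt_one (by positivity) (by linarith)
  have hs : Summable fun p : ℕ × ℕ => dcoeff U p.1 p.2 * z ^ p.1 * z ^ p.2 := by
    apply Summable.of_norm_bounded ((hg.mul_of_nonneg hg (fun _ => by positivity)
      (fun _ => by positivity)).mul_left M)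
    intro p
    exact hb p.1 p.2
  have h1 : HasSum (fun p : ℕ × ℕ => dcoeff U p.1 p.2 * z ^ p.1 * z ^ p.2) (U z z) := by
    have h2 := hs.hasSum
    have h3 : ∑' p : ℕ × ℕ, dcoeff U p.1 p.2 * z ^ p.1 * z ^ p.2 = U z z := by
      have e0 : ∑' p : ℕ × ℕ, dcoeff U p.1 p.2 * z ^ p.1 * z ^ p.2
          = ∑' p : ℕ × ℕ, dcoeff U p.2 p.1 * z ^ p.2 * z ^ p.1 :=
        ((Equiv.prodComm ℕ ℕ).tsum_eq
          (fun p : ℕ × ℕ => dcoeff U p.1 p.2 * z ^ p.1 * z ^ p.2)).symm
      have hs' : Summable fun p : ℕ × ℕ => dcoeff U p.2 p.1 * z ^ p.2 * z ^ p.1 :=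
        (Equiv.prodComm ℕ ℕ).summable_iff.mpr hs
      rw [e0, Summable.tsum_prod hs']
      have h4 : ∀ l : ℕ, ∑' k : ℕ, dcoeff U k l * z ^ k * z ^ l
          = coeff (fun w => U z w) l * z ^ l := by
        intro l
        rw [tsum_mul_right, (h.hasSum_left hz1 l).tsum_eq]
      simp_rw [h4]
      exact (hasSum_coeff (h.right z (mem_ball_zero_iff.mpr hz1)) hz1).tsum_eq
    rw [h3] at h2
    exact h2
  have h5 := hs.norm
  have h6 := (Finset.HasAntidiagonal.sigmaAntidiagonalEquivProd (A := ℕ)).hasSum_iff.mpr h1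
  have h7 := h6.sigma (g := fun m => (∑ k ∈ Finset.range (m + 1), dcoeff U k (m - k)) * z ^ m) (by
    intro m
    have h8 := hasSum_fintype (fun c : {x : ℕ × ℕ // x ∈ Finset.HasAntidiagonal.antidiagonal m} =>
      dcoeff U (c : ℕ × ℕ).1 (c : ℕ × ℕ).2 * z ^ (c : ℕ × ℕ).1 * z ^ (c : ℕ × ℕ).2)
    have h9 : ∑ c : {x : ℕ × ℕ // x ∈ Finset.HasAntidiagonal.antidiagonal m}, dcoeff U (c : ℕ × ℕ).1 (c : ℕ × ℕ).2
        * z ^ (c : ℕ × ℕ).1 * z ^ (c : ℕ × ℕ).2
        = (∑ k ∈ Finset.range (m + 1), dcoeff U k (m - k)) * z ^ m := by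
      rw [Finset.sum_coe_sort (Finset.HasAntidiagonal.antidiagonal m)
        (fun c : ℕ × ℕ => dcoeff U c.1 c.2 * z ^ c.1 * z ^ c.2)]
      rw [Finset.Nat.sum_antidiagonal_eq_sum_range_succ
        (fun k l => dcoeff U k l * z ^ k * z ^ l), Finset.sum_mul]
      apply Finset.sum_congr rfl
      intro k hk
      rw [Finset.mem_range] at hk
      rw [mul_assoc, ← pow_add]
      congr 2
      omega
    rw [h9] at h8
    exact h8)
  exact h7

end Pool.Agent.M16.Helper22.Marshall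
end
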