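import Mathlib

/- Helper94.T.Helper39.Area.Kernel -/
section
set_option autoImplicit false
open Complex MeasureTheory Metric Set
open scoped Real ENNReal ComplexConjugate

/-! The Cauchy kernel: `∫_{|u| < M} conj u ^ k / (v - u) dA(u) = π conj v ^ (k+1) / (k+1)`. -/

namespace Pool.Agent.M16.Helper39.Area

theorem circle_inv_out {ρ : ℝ} (hρ : 0 < ρ) {v : ℂ} (hv : ρ < ‖v‖) :
    (∮ w in C(0, ρ), (v - w)⁻¹) = 0 := by
  apply Complex.circleIntegral_eq_zero_of_differentiable_on_off_countable hρ.le countable_empty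
  · apply ContinuousOn.inv₀ (by fun_prop)
    intro w hw h
    rw [sub_eq_zero] at h
    subst h
    rw [mem_closedBall, dist_zero_right] at hw
    linarith only [hv, hw]
  · intro w hw
    have hw' : w ∈ ball (0:ℂ) ρ := hw.1
    apply DifferentiableAt.inv (by fun_prop)
    intro h
    rw [sub_eq_zero] at h
    subst h
    rw [mem_ball, dist_zero_right] at hw'
    linarith

theorem circle_inv_in {ρ : ℝ} {v : ℂ} (hv : ‖v‖ < ρ) :
    (∮ w in C(0, ρ), (v - w)⁻¹) = - (2 * π * I) := by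
  have h := circleIntegral.integral_sub_inv_of_mem_ball (c := 0) (w := v) (R := ρ)
    (by simpa using hv)
  have h2 : (∮ w in C(0, ρ), (v - w)⁻¹) = ∮ w in C(0, ρ), (-1 : ℂ) * (w - v)⁻¹ := by
    congr 1
    funext w
    rw [← neg_sub w v, inv_neg]; ring
  rw [h2, circleIntegral.integral_const_mul, h]
  ring

theorem circle_pow_inv (ρ : ℝ) (k : ℕ) :
    (∮ w in C(0, ρ), (w ^ (k + 2))⁻¹) = 0 := by
  have h := circleIntegral.integral_sub_zpow_of_ne (n := -((k:ℤ) + 2)) (by omega) (0:ℂ) 0 ρ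
  rw [← h]
  congr 1
  funext w
  rw [sub_zero, zpow_neg]
  norm_cast

theorem circle_inv_zero {ρ : ℝ} (hρ : 0 < ρ) :
    (∮ w in C(0, ρ), (w ^ (0 + 1))⁻¹) = 2 * π * I := by
  have h := circleIntegral.integral_sub_center_inv (0:ℂ) hρ.ne'
  simpa using h

theorem cont_pow_inv {ρ : ℝ} (hρ : 0 < ρ) (k : ℕ) :
    CircleIntegrable (fun w : ℂ => (w ^ k)⁻¹) 0 ρ := by
  apply ContinuousOn.circleIntegrable hρ.le
  apply ContinuousOn.inv₀ (by fun_prop)
  intro w hw
  apply pow_ne_zero
  rintro rfl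
  simp at hw
  exact hρ.ne hw

theorem cont_sub_inv {ρ : ℝ} {v : ℂ} (hv : ‖v‖ ≠ ρ) :
    ContinuousOn (fun w : ℂ => (v - w)⁻¹) (sphere 0 ρ) := by
  apply ContinuousOn.inv₀ (by fun_prop)
  intro w hw h
  rw [sub_eq_zero] at h
  subst h
  simp at hw
  exact hv hw

theorem circle_kernel {ρ : ℝ} (hρ : 0 < ρ) {v : ℂ} (hv0 : v ≠ 0) (hv : ‖v‖ ≠ ρ) (k : ℕ) :
    (∮ w in C(0, ρ), (w ^ (k + 1))⁻¹ * (v - w)⁻¹) =
      if ρ < ‖v‖ then 2 * π * I * (v ^ (k + 1))⁻¹ else 0 := by
  have hcs := cont_sub_inv hv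
  have hint : ∀ j : ℕ, CircleIntegrable (fun w : ℂ => (w ^ j)⁻¹ * (v - w)⁻¹) 0 ρ := by
    intro j
    apply ContinuousOn.circleIntegrable hρ.le
    apply ContinuousOn.mul _ hcs
    apply ContinuousOn.inv₀ (by fun_prop)
    intro w hw
    apply pow_ne_zero
    rintro rfl
    simp at hw
    exact hρ.ne hw
  have key : ∀ j : ℕ, (∮ w in C(0, ρ), (w ^ (j + 1))⁻¹ * (v - w)⁻¹) =
      v⁻¹ * ((∮ w in C(0, ρ), (w ^ (j + 1))⁻¹) + ∮ w in C(0, ρ), (w ^ j)⁻¹ * (v - w)⁻¹) := by
    intro j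
    rw [← circleIntegral.integral_add (cont_pow_inv hρ _) (hint j),
      ← circleIntegral.integral_const_mul]
    apply circleIntegral.integral_congr hρ.le
    intro w hw
    have hw0 : w ≠ 0 := by
      rintro rfl
      simp at hw
      exact hρ.ne hw
    have hvw : v - w ≠ 0 := by
      intro h
      rw [sub_eq_zero] at h
      subst h
      simp at hw
      exact hv hw
    simp only
    field_simp
    ring
  induction k with
  | zero =>
    rw [key 0, circle_inv_zero hρ]
    simp only [pow_zero, inv_one, one_mul]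
    split_ifs with h
    · rw [circle_inv_out hρ h]; simp; ring
    · rw [circle_inv_in (lt_of_le_of_ne (not_lt.mp h) hv)]; simp
  | succ k ih =>
    rw [key (k + 1), circle_pow_inv, ih]
    split_ifs with h
    · field_simp
      ring
    · simp

/-- the angular integral -/
theorem angular {ρ : ℝ} (hρ : 0 < ρ) {v : ℂ} (hv : ‖v‖ ≠ ρ) (k : ℕ) :
    (∫ θ in Ioo (-π) π, conj (Complex.polarCoord.symm (ρ, θ)) ^ k /
      (v - Complex.polarCoord.symm (ρ, θ))) =
      if ρ < ‖v‖ then 2 * π * ρ ^ (2 * k) * (v ^ (k + 1))⁻¹ else 0 := by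
  have e1 : ∀ θ : ℝ, Complex.polarCoord.symm (ρ, θ) = circleMap 0 ρ θ := by
    intro θ
    rw [Complex.polarCoord_symm_apply, circleMap, zero_add, Complex.exp_mul_I]
    simp
  simp_rw [e1]
  rw [← integral_Ioc_eq_integral_Ioo, ← intervalIntegral.integral_of_le (by linarith only [Real.pi_pos])]
  have hper : Function.Periodic (fun θ : ℝ => conj (circleMap 0 ρ θ) ^ k / (v - circleMap 0 ρ θ))
      (2 * π) := by
    intro θ
    simp only [periodic_circleMap 0 ρ θ]
  have h2 := hper.intervalIntegral_add_eq (-π) 0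
  rw [show -π + 2 * π = π by ring, zero_add] at h2
  rw [h2]
  -- express through a circle integral
  have e2 : (∫ θ in (0:ℝ)..2 * π, conj (circleMap 0 ρ θ) ^ k / (v - circleMap 0 ρ θ)) =
      (∮ w in C(0, ρ), ((ρ:ℂ) ^ (2 * k) * (-I)) * ((w ^ (k + 1))⁻¹ * (v - w)⁻¹)) := by
    rw [circleIntegral]
    apply intervalIntegral.integral_congr
    intro θ _
    simp only [deriv_circleMap, smul_eq_mul]
    have hne : circleMap 0 ρ θ ≠ 0 := circleMap_ne_center (c := 0) (θ := θ) hρ.ne'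
    have hc : conj (circleMap 0 ρ θ) = (ρ:ℂ) ^ 2 * (circleMap 0 ρ θ)⁻¹ := by
      rw [eq_mul_inv_iff_mul_eq₀ hne, mul_comm, Complex.mul_conj, Complex.normSq_eq_norm_sq]
      simp [abs_of_pos hρ]
    rw [hc, mul_pow, ← pow_mul, pow_succ, mul_inv, inv_pow, div_eq_mul_inv]
    have hI : I * -I = 1 := by simp
    linear_combination (-(((ρ:ℂ) ^ (2 * k)) * (circleMap 0 ρ θ ^ k)⁻¹ * (v - circleMap 0 ρ θ)⁻¹)) * hI * (circleMap 0 ρ θ * (circleMap 0 ρ θ)⁻¹) + (-(((ρ:ℂ) ^ (2 * k)) * (circleMap 0 ρ θ ^ k)⁻¹ * (v - circleMap 0 ρ θ)⁻¹)) * (mul_inv_cancel₀ hne)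
  rw [e2, circleIntegral.integral_const_mul]
  by_cases hv0 : v = 0
  · subst hv0
    have h3 : (∮ w in C(0, ρ), (w ^ (k + 1))⁻¹ * ((0:ℂ) - w)⁻¹) =
        ∮ w in C(0, ρ), (-1 : ℂ) * (w ^ (k + 2))⁻¹ := by
      congr 1
      funext w
      rw [zero_sub, inv_neg, pow_succ, pow_succ, pow_succ, mul_inv, mul_inv, mul_inv]
      ring
    rw [h3, circleIntegral.integral_const_mul, circle_pow_inv]
    simp
  · rw [circle_kernel hρ hv0 hv]
    split_ifs with h
    · have hI : I * -I = 1 := by simp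
      linear_combination (2 * π * (ρ:ℂ) ^ (2 * k) * (v ^ (k + 1))⁻¹) * hI
    · simp

/-- local integrability of the Cauchy kernel, uniformly -/
theorem lint_inv_ball (M : ℝ) :
    ∫⁻ u in ball (0:ℂ) M, ENNReal.ofReal (‖u‖⁻¹) ≤ ENNReal.ofReal (2 * π * M) := by
  rw [← lintegral_indicator measurableSet_ball, ← Complex.lintegral_comp_polarCoord_symm]
  calc _ ≤ ∫⁻ p in polarCoord.target, (Ioo 0 M ×ˢ Ioo (-π) π).indicator (fun _ => (1 : ℝ≥0∞)) p := by
        apply setLIntegral_mono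
        · exact measurable_const.indicator (measurableSet_Ioo.prod measurableSet_Ioo)
        rintro ⟨r, θ⟩ ⟨hr, hθ⟩
        simp only [mem_Ioi] at hr
        by_cases hrM : r < M
        · rw [indicator_of_mem (show (r, θ) ∈ Ioo 0 M ×ˢ Ioo (-π) π from ⟨⟨hr, hrM⟩, hθ⟩),
            indicator_of_mem (by rw [mem_ball, dist_zero_right, Complex.norm_polarCoord_symm, abs_of_pos hr]; exact hrM),
            Complex.norm_polarCoord_symm, abs_of_pos hr, smul_eq_mul, ← ENNReal.ofReal_mul hr.le,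
            mul_inv_cancel₀ hr.ne']
          simp
        · rw [indicator_of_notMem (by rw [mem_ball, dist_zero_right, Complex.norm_polarCoord_symm, abs_of_pos hr]; exact hrM)]
          simp
    _ ≤ ∫⁻ p, (Ioo 0 M ×ˢ Ioo (-π) π).indicator (fun _ => (1 : ℝ≥0∞)) p :=
        setLIntegral_le_lintegral _ _
    _ = ENNReal.ofReal (2 * π * M) := by
        rw [lintegral_indicator (measurableSet_Ioo.prod measurableSet_Ioo), setLIntegral_one,
          Measure.volume_eq_prod, Measure.prod_prod, Real.volume_Ioo, Real.volume_Ioo]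
        rcases le_total M 0 with h | h
        · rw [ENNReal.ofReal_of_nonpos (by linarith), zero_mul, ENNReal.ofReal_of_nonpos]
          nlinarith only [Real.pi_pos, h]
        · rw [← ENNReal.ofReal_mul (by linarith)]
          congr 1; ring

theorem lint_inv (v : ℂ) (M : ℝ) :
    ∫⁻ u in ball (0:ℂ) M, ENNReal.ofReal (‖v - u‖⁻¹) ≤ ENNReal.ofReal (2 * π * (‖v‖ + M)) := by
  rw [← lintegral_indicator measurableSet_ball]
  calc ∫⁻ u, (ball (0:ℂ) M).indicator (fun u => ENNReal.ofReal (‖v - u‖⁻¹)) u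
      ≤ ∫⁻ u, (ball (0:ℂ) (‖v‖ + M)).indicator (fun u => ENNReal.ofReal (‖u‖⁻¹)) (v - u) := by
        apply lintegral_mono
        intro u
        by_cases hu : u ∈ ball (0:ℂ) M
        · have h2 : v - u ∈ ball (0:ℂ) (‖v‖ + M) := by
            rw [mem_ball, dist_zero_right] at hu ⊢
            linarith [norm_sub_le v u]
          rw [indicator_of_mem hu]
          show _ ≤ (ball (0:ℂ) (‖v‖ + M)).indicator (fun u => ENNReal.ofReal (‖u‖⁻¹)) (v - u)
          rw [indicator_of_mem h2]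
        · rw [indicator_of_notMem hu]; exact zero_le
    _ = ∫⁻ u, (ball (0:ℂ) (‖v‖ + M)).indicator (fun u => ENNReal.ofReal (‖u‖⁻¹)) u :=
        lintegral_sub_left_eq_self _ v
    _ ≤ _ := by
        rw [lintegral_indicator measurableSet_ball]
        exact lint_inv_ball _

theorem integrable_inv (v : ℂ) (M : ℝ) :
    IntegrableOn (fun u : ℂ => ‖v - u‖⁻¹) (ball (0:ℂ) M) := by
  refine ⟨(by fun_prop : Measurable fun u : ℂ => ‖v - u‖⁻¹).aestronglyMeasurable, ?_⟩
  rw [hasFiniteIntegral_iff_enorm]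
  refine lt_of_le_of_lt ?_ (lt_of_le_of_lt (lint_inv v M) ENNReal.ofReal_lt_top)
  apply lintegral_mono
  intro u
  simp only
  rw [← ofReal_norm, Real.norm_of_nonneg (by positivity)]

theorem integrable_kernel (k : ℕ) (M : ℝ) (v : ℂ) :
    IntegrableOn (fun u : ℂ => conj u ^ k / (v - u)) (ball (0:ℂ) M) := by
  have h := (integrable_inv v M).const_mul (M ^ k)
  refine Integrable.mono' h ?_ ?_
  · apply Measurable.aestronglyMeasurable
    apply Measurable.div _ (by fun_prop)
    exact (Complex.continuous_conj.measurable).pow_const k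
  · rw [ae_restrict_iff' measurableSet_ball]
    refine Filter.Eventually.of_forall ?_
    intro u hu
    rw [mem_ball, dist_zero_right] at hu
    rw [norm_div, norm_pow, RCLike.norm_conj, div_eq_mul_inv]
    gcongr

theorem kernel (k : ℕ) (M : ℝ) (v : ℂ) (hv : ‖v‖ < M) :
    ∫ u in ball (0:ℂ) M, conj u ^ k / (v - u) = π * conj v ^ (k + 1) / (k + 1) := by
  have hM : 0 < M := lt_of_le_of_lt (norm_nonneg v) hv
  set f : ℂ → ℂ := (ball (0:ℂ) M).indicator (fun u => conj u ^ k / (v - u)) with hf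
  have hfi : Integrable f := by
    rw [hf, integrable_indicator_iff measurableSet_ball]
    exact integrable_kernel k M v
  have hfm : Measurable f := by
    apply Measurable.indicator _ measurableSet_ball
    apply Measurable.div _ (by fun_prop)
    exact (Complex.continuous_conj.measurable).pow_const k
  have hsm : Measurable (fun p : ℝ × ℝ => (Complex.polarCoord.symm p : ℂ)) := by
    simp only [Complex.polarCoord_symm_apply]
    fun_prop
  have hprod : IntegrableOn (fun p : ℝ × ℝ => p.1 • f (Complex.polarCoord.symm p))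
      (Ioi (0:ℝ) ×ˢ Ioo (-π) π) := by
    refine ⟨(measurable_fst.smul (hfm.comp hsm)).aestronglyMeasurable, ?_⟩
    rw [hasFiniteIntegral_iff_enorm]
    have h1 := Complex.lintegral_comp_polarCoord_symm (fun u => ‖f u‖ₑ)
    have h2 : (∫⁻ p in Ioi (0:ℝ) ×ˢ Ioo (-π) π, ‖p.1 • f (Complex.polarCoord.symm p)‖ₑ) =
        ∫⁻ p in polarCoord.target, ENNReal.ofReal p.1 • ‖f (Complex.polarCoord.symm p)‖ₑ := by
      apply setLIntegral_congr_fun (measurableSet_Ioi.prod measurableSet_Ioo)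
      rintro ⟨r, θ⟩ ⟨hr, hθ⟩
      simp only [mem_Ioi] at hr
      simp only [smul_eq_mul]
      rw [enorm_smul]
      congr 1
      rw [← ofReal_norm, Real.norm_of_nonneg hr.le]
    rw [h2, h1]
    exact hfi.2
  rw [← integral_indicator measurableSet_ball, ← hf, ← Complex.integral_comp_polarCoord_symm]
  rw [show polarCoord.target = Ioi (0:ℝ) ×ˢ Ioo (-π) π from rfl]
  rw [Measure.volume_eq_prod] at hprod ⊢
  rw [setIntegral_prod _ hprod]
  -- the inner integral
  have hin : ∀ r ∈ Ioi (0:ℝ), r ≠ ‖v‖ → r ≠ M →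
      (∫ θ in Ioo (-π) π, (r, θ).1 • f (Complex.polarCoord.symm (r, θ))) =
        (Ioo 0 ‖v‖).indicator (fun r : ℝ => 2 * π * (v ^ (k + 1))⁻¹ * ((r ^ (2 * k + 1) : ℝ) : ℂ)) r := by
    intro r hr hrv _
    simp only [mem_Ioi] at hr
    by_cases hrM : r < M
    · have e : ∀ θ, (r, θ).1 • f (Complex.polarCoord.symm (r, θ)) =
          (r : ℂ) * (conj (Complex.polarCoord.symm (r, θ)) ^ k / (v - Complex.polarCoord.symm (r, θ))) := by
        intro θ
        rw [hf, indicator_of_mem (by rw [mem_ball, dist_zero_right, Complex.norm_polarCoord_symm, abs_of_pos hr]; exact hrM)]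
        simp
      simp_rw [e]
      rw [integral_const_mul, angular hr (Ne.symm hrv) k]
      by_cases h : r < ‖v‖
      · rw [if_pos h, indicator_of_mem (show r ∈ Ioo 0 ‖v‖ from ⟨hr, h⟩)]
        push_cast
        ring
      · rw [if_neg h, indicator_of_notMem (fun h' => h h'.2), mul_zero]
    · have e : ∀ θ, (r, θ).1 • f (Complex.polarCoord.symm (r, θ)) = 0 := by
        intro θ
        rw [hf, indicator_of_notMem (by rw [mem_ball, dist_zero_right, Complex.norm_polarCoord_symm, abs_of_pos hr]; exact hrM)]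
        simp
      simp_rw [e]
      rw [indicator_of_notMem (fun h' => hrM (h'.2.trans hv))]
      simp
  have hae : (∫ r in Ioi (0:ℝ), ∫ θ in Ioo (-π) π, (r, θ).1 • f (Complex.polarCoord.symm (r, θ))) =
      ∫ r in Ioi (0:ℝ), (Ioo 0 ‖v‖).indicator
        (fun r : ℝ => 2 * π * (v ^ (k + 1))⁻¹ * ((r ^ (2 * k + 1) : ℝ) : ℂ)) r := by
    apply setIntegral_congr_ae measurableSet_Ioi
    have h1 : ∀ᵐ r : ℝ, r ≠ ‖v‖ := by
      simp [ae_iff, measure_singleton]
    have h2 : ∀ᵐ r : ℝ, r ≠ M := by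
      simp [ae_iff, measure_singleton]
    filter_upwards [h1, h2] with r hr1 hr2 hr
    exact hin r hr hr1 hr2
  rw [hae, setIntegral_indicator measurableSet_Ioo, inter_eq_self_of_subset_right Ioo_subset_Ioi_self,
    integral_const_mul, integral_complex_ofReal, ← integral_Ioc_eq_integral_Ioo,
    ← intervalIntegral.integral_of_le (norm_nonneg v), integral_pow]
  by_cases hv0 : v = 0
  · subst hv0; simp
  have hc : ((‖v‖ : ℝ) : ℂ) ^ 2 = v * conj v := by
    rw [Complex.mul_conj, Complex.normSq_eq_norm_sq]; push_cast; ring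
  have hpow : ((‖v‖ : ℝ) : ℂ) ^ (2 * k + 1 + 1) = v ^ (k + 1) * conj v ^ (k + 1) := by
    rw [show 2 * k + 1 + 1 = 2 * (k + 1) by ring, pow_mul, hc, mul_pow]
  have hvk : v ^ (k + 1) ≠ 0 := pow_ne_zero _ hv0
  have hk : ((k : ℂ) + 1) ≠ 0 := by exact_mod_cast Nat.succ_ne_zero k
  push_cast
  rw [zero_pow (by omega), sub_zero, hpow, show (2 * (k:ℂ) + 1 + 1) = 2 * ((k:ℂ) + 1) by ring]
  field_simp

end Pool.Agent.M16.Helper39.Area
end

/- Helper94.T.Helper39.Area.Wind -/
section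
set_option autoImplicit false
open Complex MeasureTheory Metric Set Polynomial
open scoped Real ENNReal ComplexConjugate

/-! Winding numbers for the exterior map in the coordinate `ζ = 1/z`. -/

namespace Pool.Agent.M16.Helper39.Area

/-- data of a univalent function `φ ζ = ζ⁻¹ + β ζ` on the punctured disc -/
structure Ext (β : ℂ → ℂ) : Prop where
  diff : DifferentiableOn ℂ β (ball 0 1)
  inj : ∀ ζ ω : ℂ, ζ ∈ ball (0:ℂ) 1 → ω ∈ ball (0:ℂ) 1 → ζ ≠ 0 → ω ≠ 0 →
    ζ⁻¹ + β ζ = ω⁻¹ + β ω → ζ = ω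
  ne : ∀ ζ : ℂ, ζ ∈ ball (0:ℂ) 1 → 1 - ζ ^ 2 * deriv β ζ ≠ 0

noncomputable def phi (β : ℂ → ℂ) (ζ : ℂ) : ℂ := ζ⁻¹ + β ζ
noncomputable def dphi (β : ℂ → ℂ) (ζ : ℂ) : ℂ := -(ζ ^ 2)⁻¹ + deriv β ζ
noncomputable def qq (β : ℂ → ℂ) (a ζ : ℂ) : ℂ := 1 - a * ζ * dslope β a ζ

variable {β : ℂ → ℂ}

theorem hasDerivAt_phi (h : DifferentiableOn ℂ β (ball 0 1)) {ζ : ℂ} (hζ : ζ ∈ ball (0:ℂ) 1)
    (h0 : ζ ≠ 0) : HasDerivAt (phi β) (dphi β ζ) ζ := by
  have h1 := (h.differentiableAt (isOpen_ball.mem_nhds hζ)).hasDerivAt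
  exact (hasDerivAt_inv h0).add h1

theorem phi_sub (a ζ : ℂ) (ha : a ≠ 0) (hζ : ζ ≠ 0) :
    phi β ζ - phi β a = (ζ⁻¹ - a⁻¹) * qq β a ζ := by
  unfold phi qq
  by_cases h : ζ = a
  · subst h; simp
  · rw [dslope_of_ne _ h, slope_def_field]
    have h1 : ζ - a ≠ 0 := sub_ne_zero.mpr h
    field_simp
    ring

theorem qq_diff (h : DifferentiableOn ℂ β (ball 0 1)) {a : ℂ} (ha : a ∈ ball (0:ℂ) 1) :
    DifferentiableOn ℂ (qq β a) (ball 0 1) := by
  have h1 : DifferentiableOn ℂ (dslope β a) (ball 0 1) :=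
    (Complex.differentiableOn_dslope (isOpen_ball.mem_nhds ha)).mpr h
  unfold qq
  fun_prop

theorem qq_ne (h : Ext β) {a ζ : ℂ} (ha : a ∈ ball (0:ℂ) 1) (hζ : ζ ∈ ball (0:ℂ) 1) :
    qq β a ζ ≠ 0 := by
  by_cases ha0 : a = 0
  · subst ha0; simp [qq]
  by_cases hζ0 : ζ = 0
  · subst hζ0; simp [qq]
  by_cases hne : ζ = a
  · subst hne
    have := h.ne ζ hζ
    unfold qq
    rw [dslope_same]
    intro h'
    apply this
    rw [← h']; ring
  · intro hq
    have h1 := phi_sub (β := β) a ζ ha0 hζ0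
    rw [hq, mul_zero, sub_eq_zero] at h1
    exact hne (h.inj ζ a hζ ha hζ0 ha0 h1)

theorem mem_ball_of_sphere {ρ : ℝ} (hρ1 : ρ < 1) {ζ : ℂ} (hζ : ζ ∈ closedBall (0:ℂ) ρ) :
    ζ ∈ ball (0:ℂ) 1 := by
  rw [mem_closedBall, dist_zero_right] at hζ
  rw [mem_ball, dist_zero_right]
  linarith

theorem sphere_ne {ρ : ℝ} (hρ : 0 < ρ) {ζ : ℂ} (hζ : ζ ∈ sphere (0:ℂ) ρ) : ζ ≠ 0 := by
  rintro rfl
  simp at hζ
  exact hρ.ne hζ

/-- integral of a logarithmic derivative of a zero free function -/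
theorem circle_logDeriv {ρ : ℝ} (hρ : 0 < ρ) (hρ1 : ρ < 1) {s : ℂ → ℂ}
    (hs : DifferentiableOn ℂ s (ball 0 1)) (hs0 : ∀ ζ ∈ closedBall (0:ℂ) ρ, s ζ ≠ 0) :
    (∮ ζ in C(0, ρ), deriv s ζ / s ζ) = 0 := by
  have hd : DifferentiableOn ℂ (deriv s) (ball 0 1) := hs.deriv isOpen_ball
  apply Complex.circleIntegral_eq_zero_of_differentiable_on_off_countable hρ.le countable_empty
  · apply ContinuousOn.div
    · exact hd.continuousOn.mono (fun ζ hζ => mem_ball_of_sphere hρ1 hζ)
    · exact hs.continuousOn.mono (fun ζ hζ => mem_ball_of_sphere hρ1 hζ)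
    · exact hs0
  · intro ζ hζ
    have hζ' : ζ ∈ closedBall (0:ℂ) ρ := ball_subset_closedBall hζ.1
    have hζ1 := mem_ball_of_sphere hρ1 hζ'
    exact (hd.differentiableAt (isOpen_ball.mem_nhds hζ1)).div
      (hs.differentiableAt (isOpen_ball.mem_nhds hζ1)) (hs0 ζ hζ')

theorem cont_logDeriv {ρ : ℝ} (hρ1 : ρ < 1) {s : ℂ → ℂ}
    (hs : DifferentiableOn ℂ s (ball 0 1)) (hs0 : ∀ ζ ∈ closedBall (0:ℂ) ρ, s ζ ≠ 0) :
    ContinuousOn (fun ζ => deriv s ζ / s ζ) (sphere 0 ρ) := by
  have hd : DifferentiableOn ℂ (deriv s) (ball 0 1) := hs.deriv isOpen_ball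
  apply ContinuousOn.div
  · exact hd.continuousOn.mono (fun ζ hζ => mem_ball_of_sphere hρ1 (sphere_subset_closedBall hζ))
  · exact hs.continuousOn.mono (fun ζ hζ => mem_ball_of_sphere hρ1 (sphere_subset_closedBall hζ))
  · intro ζ hζ; exact hs0 ζ (sphere_subset_closedBall hζ)

/-- the logarithmic derivative of `φ - φ a` -/
theorem dphi_div (h : Ext β) {a ζ : ℂ} (ha : a ∈ ball (0:ℂ) 1) (hζ : ζ ∈ ball (0:ℂ) 1)
    (ha0 : a ≠ 0) (hζ0 : ζ ≠ 0) (hne : ζ ≠ a) :
    dphi β ζ / (phi β ζ - phi β a) = deriv (qq β a) ζ / qq β a ζ + (ζ - a)⁻¹ - ζ⁻¹ := by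
  have hq := qq_ne h ha hζ
  have h1 : HasDerivAt (phi β) (-(ζ ^ 2)⁻¹ * qq β a ζ + (ζ⁻¹ - a⁻¹) * deriv (qq β a) ζ) ζ := by
    have h2 : HasDerivAt (fun ω => phi β a + (ω⁻¹ - a⁻¹) * qq β a ω)
        (-(ζ ^ 2)⁻¹ * qq β a ζ + (ζ⁻¹ - a⁻¹) * deriv (qq β a) ζ) ζ := by
      have h3 := ((qq_diff h.diff ha).differentiableAt (isOpen_ball.mem_nhds hζ)).hasDerivAt
      exact (((hasDerivAt_inv hζ0).sub_const _).mul h3).const_add _
    apply h2.congr_of_eventuallyEq
    filter_upwards [isOpen_ne.mem_nhds hζ0] with ω hω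
    rw [← phi_sub a ω ha0 hω]; ring
  have h4 := h1.unique (hasDerivAt_phi h.diff hζ hζ0)
  rw [← h4, phi_sub a ζ ha0 hζ0]
  have h5 : ζ - a ≠ 0 := sub_ne_zero.mpr hne
  have h6 : ζ⁻¹ - a⁻¹ ≠ 0 := by
    rw [sub_ne_zero]
    intro h'
    exact hne (inv_injective h')
  have h7 : a - ζ ≠ 0 := sub_ne_zero.mpr (Ne.symm hne)
  have h8 : ζ⁻¹ - a⁻¹ = (a - ζ) / (ζ * a) := by field_simp
  rw [h8]
  field_simp
  ring

theorem wind_in (h : Ext β) {ρ : ℝ} (hρ : 0 < ρ) (hρ1 : ρ < 1) {a : ℂ} (ha : a ∈ ball (0:ℂ) ρ)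
    (ha0 : a ≠ 0) : (∮ ζ in C(0, ρ), dphi β ζ / (phi β ζ - phi β a)) = 0 := by
  have ha1 : a ∈ ball (0:ℂ) 1 := mem_ball_of_sphere hρ1 (ball_subset_closedBall ha)
  have hq0 : ∀ ζ ∈ closedBall (0:ℂ) ρ, qq β a ζ ≠ 0 := fun ζ hζ =>
    qq_ne h ha1 (mem_ball_of_sphere hρ1 hζ)
  have h1 : (∮ ζ in C(0, ρ), dphi β ζ / (phi β ζ - phi β a)) =
      ∮ ζ in C(0, ρ), (deriv (qq β a) ζ / qq β a ζ + (ζ - a)⁻¹ - ζ⁻¹) := by
    apply circleIntegral.integral_congr hρ.le
    intro ζ hζ
    apply dphi_div h ha1 (mem_ball_of_sphere hρ1 (sphere_subset_closedBall hζ)) ha0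
      (sphere_ne hρ hζ)
    rintro rfl
    simp at hζ ha
    linarith
  have hc1 := (cont_logDeriv hρ1 (qq_diff h.diff ha1) hq0).circleIntegrable hρ.le
  have hc2 : CircleIntegrable (fun ζ : ℂ => (ζ - a)⁻¹) 0 ρ := by
    apply ContinuousOn.circleIntegrable hρ.le
    apply ContinuousOn.inv₀ (by fun_prop)
    intro ζ hζ h'
    rw [sub_eq_zero] at h'
    subst h'
    simp at hζ ha
    linarith
  have hc3 : CircleIntegrable (fun ζ : ℂ => ζ⁻¹) 0 ρ := by
    apply ContinuousOn.circleIntegrable hρ.le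
    apply ContinuousOn.inv₀ (by fun_prop)
    intro ζ hζ
    exact sphere_ne hρ hζ
  have hc12 : CircleIntegrable (fun ζ => deriv (qq β a) ζ / qq β a ζ + (ζ - a)⁻¹) 0 ρ :=
    hc1.add hc2
  rw [h1, circleIntegral.integral_sub hc12 hc3, circleIntegral.integral_add hc1 hc2,
    circle_logDeriv hρ hρ1 (qq_diff h.diff ha1) hq0, circleIntegral.integral_sub_inv_of_mem_ball ha]
  have h2 := circle_inv_zero hρ
  simp only [zero_add, pow_one] at h2
  rw [h2]; ring

theorem wind_out (h : DifferentiableOn ℂ β (ball 0 1)) {ρ : ℝ} (hρ : 0 < ρ) (hρ1 : ρ < 1) {u : ℂ}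
    (hu : ∀ ζ ∈ closedBall (0:ℂ) ρ, ζ ≠ 0 → phi β ζ ≠ u) :
    (∮ ζ in C(0, ρ), dphi β ζ / (phi β ζ - u)) = - (2 * π * I) := by
  set s : ℂ → ℂ := fun ζ => 1 + ζ * (β ζ - u) with hs
  have hsd : DifferentiableOn ℂ s (ball 0 1) := by
    rw [hs]; fun_prop
  have hsphi : ∀ ζ : ℂ, ζ ≠ 0 → phi β ζ - u = ζ⁻¹ * s ζ := by
    intro ζ hζ
    simp only [phi, hs]
    field_simp
    ring
  have hs0 : ∀ ζ ∈ closedBall (0:ℂ) ρ, s ζ ≠ 0 := by
    intro ζ hζ
    by_cases h0 : ζ = 0
    · subst h0; simp [hs]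
    · intro h'
      have h2 := hsphi ζ h0
      rw [h', mul_zero, sub_eq_zero] at h2
      exact hu ζ hζ h0 h2
  have h1 : (∮ ζ in C(0, ρ), dphi β ζ / (phi β ζ - u)) =
      ∮ ζ in C(0, ρ), (deriv s ζ / s ζ - ζ⁻¹) := by
    apply circleIntegral.integral_congr hρ.le
    intro ζ hζ
    have hζ0 := sphere_ne hρ hζ
    have hζ1 := mem_ball_of_sphere hρ1 (sphere_subset_closedBall hζ)
    have hsne := hs0 ζ (sphere_subset_closedBall hζ)
    have h3 : HasDerivAt (phi β) (-(ζ ^ 2)⁻¹ * s ζ + ζ⁻¹ * deriv s ζ) ζ := by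
      have h2 : HasDerivAt (fun ω => u + ω⁻¹ * s ω) (-(ζ ^ 2)⁻¹ * s ζ + ζ⁻¹ * deriv s ζ) ζ := by
        have h3 := (hsd.differentiableAt (isOpen_ball.mem_nhds hζ1)).hasDerivAt
        exact ((hasDerivAt_inv hζ0).mul h3).const_add _
      apply h2.congr_of_eventuallyEq
      filter_upwards [isOpen_ne.mem_nhds hζ0] with ω hω
      rw [← hsphi ω hω]; ring
    have h4 := h3.unique (hasDerivAt_phi h hζ1 hζ0)
    simp only
    rw [← h4, hsphi ζ hζ0]
    field_simp
    ring
  have hc1 := (cont_logDeriv hρ1 hsd hs0).circleIntegrable hρ.le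
  have hc3 : CircleIntegrable (fun ζ : ℂ => ζ⁻¹) 0 ρ := by
    apply ContinuousOn.circleIntegrable hρ.le
    apply ContinuousOn.inv₀ (by fun_prop)
    intro ζ hζ
    exact sphere_ne hρ hζ
  rw [h1, circleIntegral.integral_sub hc1 hc3, circle_logDeriv hρ hρ1 hsd hs0]
  have h2 := circle_inv_zero hρ
  simp only [zero_add, pow_one] at h2
  rw [h2]; ring

theorem exact (h : DifferentiableOn ℂ β (ball 0 1)) {ρ : ℝ} (hρ : 0 < ρ) (hρ1 : ρ < 1)
    (Q : ℂ[X]) : (∮ ζ in C(0, ρ), Q.eval (phi β ζ) * dphi β ζ) = 0 := by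
  have hcphi : ContinuousOn (phi β) (sphere 0 ρ) := fun ζ hζ =>
    (hasDerivAt_phi h (mem_ball_of_sphere hρ1 (sphere_subset_closedBall hζ))
      (sphere_ne hρ hζ)).continuousAt.continuousWithinAt
  have hcd : ContinuousOn (dphi β) (sphere 0 ρ) := by
    apply ContinuousOn.add
    · apply ContinuousOn.neg
      apply ContinuousOn.inv₀ (by fun_prop)
      intro ζ hζ
      exact pow_ne_zero _ (sphere_ne hρ hζ)
    · exact (h.deriv isOpen_ball).continuousOn.mono
        (fun ζ hζ => mem_ball_of_sphere hρ1 (sphere_subset_closedBall hζ))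
  have hci : ∀ Q : ℂ[X], CircleIntegrable (fun ζ => Q.eval (phi β ζ) * dphi β ζ) 0 ρ := by
    intro Q
    apply ContinuousOn.circleIntegrable hρ.le
    exact (Q.continuous.comp_continuousOn hcphi).mul hcd
  induction Q using Polynomial.induction_on' with
  | add p q hp hq =>
    have : (∮ ζ in C(0, ρ), (p + q).eval (phi β ζ) * dphi β ζ) =
        ∮ ζ in C(0, ρ), (p.eval (phi β ζ) * dphi β ζ + q.eval (phi β ζ) * dphi β ζ) := by
      congr 1; funext ζ; rw [eval_add, add_mul]
    rw [this, circleIntegral.integral_add (hci p) (hci q), hp, hq, add_zero]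
  | monomial n a =>
    apply circleIntegral.integral_eq_zero_of_hasDerivWithinAt hρ.le
      (f := fun ζ => a * (phi β ζ ^ (n + 1) / (n + 1)))
    intro ζ hζ
    have h1 := hasDerivAt_phi h (mem_ball_of_sphere hρ1 (sphere_subset_closedBall hζ))
      (sphere_ne hρ hζ)
    have hn : ((n : ℂ) + 1) ≠ 0 := by exact_mod_cast Nat.succ_ne_zero n
    have h2 := ((h1.pow (n + 1)).div_const ((n:ℂ) + 1)).const_mul a
    have h3 : (monomial n a).eval (phi β ζ) * dphi β ζ =
        a * (((n + 1 : ℕ) : ℂ) * phi β ζ ^ (n + 1 - 1) * dphi β ζ / ((n:ℂ) + 1)) := by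
      rw [eval_monomial, Nat.add_sub_cancel]
      push_cast
      field_simp
    rw [h3]
    exact h2.hasDerivWithinAt

end Pool.Agent.M16.Helper39.Area
end

/- Helper94.T.Helper39.Area.Ineq -/
section
set_option autoImplicit false
open Complex MeasureTheory Metric Set Polynomial
open scoped Real ENNReal ComplexConjugate

/-! The area inequality for a polynomial of the exterior map. -/

namespace Pool.Agent.M16.Helper39.Area

variable {β : ℂ → ℂ}

theorem integrable_kernel_poly (p : ℂ[X]) (M : ℝ) (v : ℂ) :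
    IntegrableOn (fun u : ℂ => conj (p.eval u) / (v - u)) (ball (0:ℂ) M) := by
  induction p using Polynomial.induction_on' with
  | add p q hp hq =>
    have : (fun u : ℂ => conj ((p + q).eval u) / (v - u)) =
        fun u => conj (p.eval u) / (v - u) + conj (q.eval u) / (v - u) := by
      funext u; rw [eval_add, map_add, add_div]
    rw [this]
    exact hp.add hq
  | monomial n a =>
    have : (fun u : ℂ => conj ((monomial n a).eval u) / (v - u)) =
        fun u => conj a * (conj u ^ n / (v - u)) := by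
      funext u; rw [eval_monomial, map_mul, map_pow, mul_div_assoc]
    rw [this]
    exact (integrable_kernel n M v).const_mul _

theorem kernel_poly (p : ℂ[X]) (M : ℝ) (v : ℂ) (hv : ‖v‖ < M) :
    ∫ u in ball (0:ℂ) M, conj ((derivative p).eval u) / (v - u) =
      π * (conj (p.eval v) - conj (p.eval 0)) := by
  induction p using Polynomial.induction_on' with
  | add p q hp hq =>
    have : (fun u : ℂ => conj ((derivative (p + q)).eval u) / (v - u)) =
        fun u => conj ((derivative p).eval u) / (v - u) + conj ((derivative q).eval u) / (v - u) := by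
      funext u; rw [derivative_add, eval_add, map_add, add_div]
    rw [this, integral_add (integrable_kernel_poly _ M v) (integrable_kernel_poly _ M v), hp, hq]
    simp only [eval_add, map_add]
    ring
  | monomial n a =>
    cases n with
    | zero => simp
    | succ n =>
      have : (fun u : ℂ => conj ((derivative (monomial (n + 1) a)).eval u) / (v - u)) =
          fun u => conj a * (n + 1) * (conj u ^ n / (v - u)) := by
        funext u
        rw [derivative_monomial, eval_monomial]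
        simp only [Nat.add_sub_cancel, map_mul, map_pow, Complex.conj_natCast]
        push_cast
        ring
      rw [this, integral_const_mul, kernel n M v hv]
      have hn : ((n : ℂ) + 1) ≠ 0 := by exact_mod_cast Nat.succ_ne_zero n
      simp only [eval_monomial, map_mul, map_pow]
      rw [map_zero, zero_pow (Nat.succ_ne_zero n)]
      field_simp
      ring

theorem cont_phi (h : DifferentiableOn ℂ β (ball 0 1)) {ρ : ℝ} (hρ : 0 < ρ) (hρ1 : ρ < 1) :
    ContinuousOn (phi β) (sphere 0 ρ) := fun ζ hζ =>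
  (hasDerivAt_phi h (mem_ball_of_sphere hρ1 (sphere_subset_closedBall hζ))
    (sphere_ne hρ hζ)).continuousAt.continuousWithinAt

theorem cont_dphi (h : DifferentiableOn ℂ β (ball 0 1)) {ρ : ℝ} (hρ : 0 < ρ) (hρ1 : ρ < 1) :
    ContinuousOn (dphi β) (sphere 0 ρ) := by
  apply ContinuousOn.add
  · apply ContinuousOn.neg
    apply ContinuousOn.inv₀ (by fun_prop)
    intro ζ hζ
    exact pow_ne_zero _ (sphere_ne hρ hζ)
  · exact (h.deriv isOpen_ball).continuousOn.mono
      (fun ζ hζ => mem_ball_of_sphere hρ1 (sphere_subset_closedBall hζ))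

theorem circleMap_mem {ρ : ℝ} (hρ : 0 < ρ) (θ : ℝ) : circleMap 0 ρ θ ∈ sphere (0:ℂ) ρ :=
  circleMap_mem_sphere 0 hρ.le θ

/-- the inner contour integral -/
theorem inner_int (h : DifferentiableOn ℂ β (ball 0 1)) {ρ : ℝ} (hρ : 0 < ρ) (hρ1 : ρ < 1)
    (P : ℂ[X]) {u : ℂ} (hu : u ∉ phi β '' sphere 0 ρ) :
    (∮ ζ in C(0, ρ), P.eval (phi β ζ) * dphi β ζ / (phi β ζ - u)) =
      P.eval u * ∮ ζ in C(0, ρ), dphi β ζ / (phi β ζ - u) := by
  have hne : ∀ ζ ∈ sphere (0:ℂ) ρ, phi β ζ - u ≠ 0 := by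
    intro ζ hζ h'
    exact hu ⟨ζ, hζ, sub_eq_zero.mp h'⟩
  have hc1 : CircleIntegrable (fun ζ => P.eval u * (dphi β ζ / (phi β ζ - u))) 0 ρ := by
    apply ContinuousOn.circleIntegrable hρ.le
    exact continuousOn_const.mul ((cont_dphi h hρ hρ1).div
      ((cont_phi h hρ hρ1).sub continuousOn_const) hne)
  have hc2 : CircleIntegrable (fun ζ => (P /ₘ (X - C u)).eval (phi β ζ) * dphi β ζ) 0 ρ := by
    apply ContinuousOn.circleIntegrable hρ.le
    exact ((P /ₘ (X - C u)).continuous.comp_continuousOn (cont_phi h hρ hρ1)).mul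
      (cont_dphi h hρ hρ1)
  have h1 : (∮ ζ in C(0, ρ), P.eval (phi β ζ) * dphi β ζ / (phi β ζ - u)) =
      ∮ ζ in C(0, ρ), (P.eval u * (dphi β ζ / (phi β ζ - u)) +
        (P /ₘ (X - C u)).eval (phi β ζ) * dphi β ζ) := by
    apply circleIntegral.integral_congr hρ.le
    intro ζ hζ
    have h2 : P.eval (phi β ζ) = P.eval u + (phi β ζ - u) * (P /ₘ (X - C u)).eval (phi β ζ) := by
      have h3 := modByMonic_add_div P (X - C u)
      have h4 := congrArg (eval (phi β ζ)) h3
      rw [modByMonic_X_sub_C_eq_C_eval] at h4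
      simpa using h4.symm
    simp only
    rw [h2]
    have := hne ζ hζ
    field_simp
  rw [h1, circleIntegral.integral_add hc1 hc2, exact h hρ hρ1, add_zero,
    circleIntegral.integral_const_mul]

/-- the area inequality: `∮ conj P dP` is a nonpositive multiple of `2 i`. -/
theorem area_ineq (h : Ext β) {ρ : ℝ} (hρ : 0 < ρ) (hρ1 : ρ < 1) (p : ℂ[X]) :
    ∃ c : ℝ, 0 ≤ c ∧ (∮ ζ in C(0, ρ), conj (p.eval (phi β ζ)) *
      ((derivative p).eval (phi β ζ) * dphi β ζ)) = -(2 * I) * c := by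
  have hphic := cont_phi h.diff hρ hρ1
  have hdc := cont_dphi h.diff hρ hρ1
  -- the radius
  obtain ⟨M, hM⟩ : ∃ M : ℝ, ∀ ζ ∈ sphere (0:ℂ) ρ, ‖phi β ζ‖ < M := by
    obtain ⟨M, hM⟩ := (isCompact_sphere (0:ℂ) ρ).exists_bound_of_continuousOn hphic
    exact ⟨M + 1, fun ζ hζ => lt_of_le_of_lt (hM ζ hζ) (lt_add_one M)⟩
  have hMpos : 0 < M := lt_of_le_of_lt (norm_nonneg _) (hM _ (circleMap_mem hρ 0))
  set D : ℂ → ℂ := fun ζ => (derivative p).eval (phi β ζ) * dphi β ζ with hD
  have hDc : ContinuousOn D (sphere 0 ρ) :=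
    ((derivative p).continuous.comp_continuousOn hphic).mul hdc
  -- Step 1: rewrite with the kernel
  have e1 : (∮ ζ in C(0, ρ), conj (p.eval (phi β ζ)) * D ζ) =
      ∮ ζ in C(0, ρ), ((π:ℂ)⁻¹ * (D ζ * ∫ u in ball (0:ℂ) M,
        conj ((derivative p).eval u) / (phi β ζ - u)) + conj (p.eval 0) * D ζ) := by
    apply circleIntegral.integral_congr hρ.le
    intro ζ hζ
    simp only
    rw [kernel_poly p M _ (hM ζ hζ)]
    have : (π:ℂ) ≠ 0 := by exact_mod_cast Real.pi_ne_zero
    field_simp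
    ring
  have hpc : ContinuousOn (fun ζ => conj (p.eval (phi β ζ))) (sphere 0 ρ) :=
    Complex.continuous_conj.comp_continuousOn (p.continuous.comp_continuousOn hphic)
  have hci2 : CircleIntegrable (fun ζ => conj (p.eval 0) * D ζ) 0 ρ :=
    (continuousOn_const.mul hDc).circleIntegrable hρ.le
  have hci1 : CircleIntegrable (fun ζ => (π:ℂ)⁻¹ * (D ζ * ∫ u in ball (0:ℂ) M,
        conj ((derivative p).eval u) / (phi β ζ - u))) 0 ρ := by
    apply ContinuousOn.circleIntegrable hρ.le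
    have hcc : ContinuousOn (fun ζ => conj (p.eval (phi β ζ)) * D ζ - conj (p.eval 0) * D ζ)
        (sphere 0 ρ) := (hpc.mul hDc).sub (continuousOn_const.mul hDc)
    apply hcc.congr
    intro ζ hζ
    simp only
    rw [kernel_poly p M _ (hM ζ hζ)]
    have : (π:ℂ) ≠ 0 := by exact_mod_cast Real.pi_ne_zero
    field_simp
  have e2 : (∮ ζ in C(0, ρ), conj (p.eval 0) * D ζ) = 0 := by
    rw [circleIntegral.integral_const_mul, hD, exact h.diff hρ hρ1, mul_zero]
  rw [e1, circleIntegral.integral_add hci1 hci2, e2, add_zero, circleIntegral.integral_const_mul]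
  -- Step 2: Fubini
  have e3 : (∮ ζ in C(0, ρ), D ζ * ∫ u in ball (0:ℂ) M,
        conj ((derivative p).eval u) / (phi β ζ - u)) =
      ∫ u in ball (0:ℂ) M, conj ((derivative p).eval u) *
        ∮ ζ in C(0, ρ), (derivative p).eval (phi β ζ) * dphi β ζ / (phi β ζ - u) := by
    simp only [circleIntegral]
    have e4 : (∫ θ in (0:ℝ)..2 * π, deriv (circleMap 0 ρ) θ • (D (circleMap 0 ρ θ) *
        ∫ u in ball (0:ℂ) M, conj ((derivative p).eval u) / (phi β (circleMap 0 ρ θ) - u))) =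
        ∫ θ in (0:ℝ)..2 * π, ∫ u in ball (0:ℂ) M, deriv (circleMap 0 ρ) θ * (D (circleMap 0 ρ θ) *
          (conj ((derivative p).eval u) / (phi β (circleMap 0 ρ θ) - u))) := by
      congr 1
      funext θ
      rw [smul_eq_mul, ← integral_const_mul, ← integral_const_mul]
    have e5 : (∫ u in ball (0:ℂ) M, conj ((derivative p).eval u) *
        ∫ θ in (0:ℝ)..2 * π, deriv (circleMap 0 ρ) θ •
          ((derivative p).eval (phi β (circleMap 0 ρ θ)) * dphi β (circleMap 0 ρ θ) /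
            (phi β (circleMap 0 ρ θ) - u))) =
        ∫ u in ball (0:ℂ) M, ∫ θ in (0:ℝ)..2 * π, deriv (circleMap 0 ρ) θ * (D (circleMap 0 ρ θ) *
          (conj ((derivative p).eval u) / (phi β (circleMap 0 ρ θ) - u))) := by
      congr 1
      funext u
      rw [← intervalIntegral.integral_const_mul]
      congr 1
      funext θ
      simp only [hD, smul_eq_mul]
      ring
    rw [e4, e5]
    simp only [intervalIntegral.integral_of_le Real.two_pi_pos.le]
    apply integral_integral_swap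
    -- integrability
    have hcθ : Continuous (fun θ : ℝ => circleMap 0 ρ θ) := continuous_circleMap 0 ρ
    have hc1 : Continuous (fun θ : ℝ => phi β (circleMap 0 ρ θ)) :=
      hphic.comp_continuous hcθ (fun θ => circleMap_mem hρ θ)
    have hc2 : Continuous (fun θ : ℝ => deriv (circleMap 0 ρ) θ * D (circleMap 0 ρ θ)) := by
      have : deriv (circleMap 0 ρ) = fun θ => circleMap 0 ρ θ * I := by
        funext θ; rw [deriv_circleMap]
      apply Continuous.mul
      · rw [this]; fun_prop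
      · exact hDc.comp_continuous hcθ (fun θ => circleMap_mem hρ θ)
    have hmeas : Measurable (fun z : ℝ × ℂ => deriv (circleMap 0 ρ) z.1 * (D (circleMap 0 ρ z.1) *
          (conj ((derivative p).eval z.2) / (phi β (circleMap 0 ρ z.1) - z.2)))) := by
      have m1 : Measurable (fun z : ℝ × ℂ => deriv (circleMap 0 ρ) z.1 * D (circleMap 0 ρ z.1)) :=
        hc2.measurable.comp measurable_fst
      have m2 : Measurable (fun z : ℝ × ℂ => conj ((derivative p).eval z.2)) :=
        (Complex.continuous_conj.comp (derivative p).continuous).measurable.comp measurable_snd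
      have m3 : Measurable (fun z : ℝ × ℂ => phi β (circleMap 0 ρ z.1) - z.2) :=
        (hc1.measurable.comp measurable_fst).sub measurable_snd
      have e : (fun z : ℝ × ℂ => deriv (circleMap 0 ρ) z.1 * (D (circleMap 0 ρ z.1) *
          (conj ((derivative p).eval z.2) / (phi β (circleMap 0 ρ z.1) - z.2)))) =
          fun z : ℝ × ℂ => (deriv (circleMap 0 ρ) z.1 * D (circleMap 0 ρ z.1)) *
          (conj ((derivative p).eval z.2) / (phi β (circleMap 0 ρ z.1) - z.2)) := by
        funext z; ring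
      rw [e]
      exact m1.mul (m2.div m3)
    show Integrable (fun z : ℝ × ℂ => deriv (circleMap 0 ρ) z.1 * (D (circleMap 0 ρ z.1) *
          (conj ((derivative p).eval z.2) / (phi β (circleMap 0 ρ z.1) - z.2))))
          ((volume.restrict (Ioc 0 (2 * π))).prod (volume.restrict (ball 0 M)))
    refine ⟨hmeas.aestronglyMeasurable, ?_⟩
    -- bounds
    obtain ⟨B1, hB1⟩ := (isCompact_Icc (a := (0:ℝ)) (b := 2 * π)).exists_bound_of_continuousOn
      hc2.continuousOn
    obtain ⟨B2, hB2⟩ := (isCompact_closedBall (0:ℂ) M).exists_bound_of_continuousOn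
      (Complex.continuous_conj.comp (derivative p).continuous).continuousOn
    rw [hasFiniteIntegral_iff_enorm]
    rw [lintegral_prod _ (hmeas.enorm.aemeasurable)]
    calc ∫⁻ θ in Ioc (0:ℝ) (2 * π), ∫⁻ u in ball (0:ℂ) M, ‖deriv (circleMap 0 ρ) θ *
          (D (circleMap 0 ρ θ) *
          (conj ((derivative p).eval u) / (phi β (circleMap 0 ρ θ) - u)))‖ₑ
        ≤ ∫⁻ θ in Ioc (0:ℝ) (2 * π), ENNReal.ofReal (B1 * B2) * ENNReal.ofReal (2 * π * (M + M)) := by
          apply setLIntegral_mono measurable_const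
          intro θ hθ
          have hθ' : θ ∈ Icc (0:ℝ) (2 * π) := Ioc_subset_Icc_self hθ
          calc ∫⁻ u in ball (0:ℂ) M, ‖deriv (circleMap 0 ρ) θ * (D (circleMap 0 ρ θ) *
                (conj ((derivative p).eval u) / (phi β (circleMap 0 ρ θ) - u)))‖ₑ
              ≤ ∫⁻ u in ball (0:ℂ) M, ENNReal.ofReal (B1 * B2) *
                  ENNReal.ofReal (‖phi β (circleMap 0 ρ θ) - u‖⁻¹) := by
                apply setLIntegral_mono
                · apply Measurable.const_mul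
                  exact (by fun_prop : Measurable fun u : ℂ => ‖phi β (circleMap 0 ρ θ) - u‖⁻¹).ennreal_ofReal
                intro u hu
                rw [← ofReal_norm, ← ENNReal.ofReal_mul (mul_nonneg
                  ((norm_nonneg _).trans (hB1 θ hθ')) ((norm_nonneg _).trans (hB2 u (ball_subset_closedBall hu))))]
                apply ENNReal.ofReal_le_ofReal
                have b1 := hB1 θ hθ'
                have b2 := hB2 u (ball_subset_closedBall hu)
                simp only [Function.comp] at b2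
                calc ‖deriv (circleMap 0 ρ) θ * (D (circleMap 0 ρ θ) *
                      (conj ((derivative p).eval u) / (phi β (circleMap 0 ρ θ) - u)))‖
                    = ‖deriv (circleMap 0 ρ) θ * D (circleMap 0 ρ θ)‖ *
                      ‖conj ((derivative p).eval u)‖ * ‖phi β (circleMap 0 ρ θ) - u‖⁻¹ := by
                      rw [← mul_assoc, norm_mul, norm_div, div_eq_mul_inv]
                      ring
                  _ ≤ B1 * B2 * ‖phi β (circleMap 0 ρ θ) - u‖⁻¹ := by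
                      apply mul_le_mul_of_nonneg_right _ (by positivity)
                      exact mul_le_mul b1 b2 (norm_nonneg _) ((norm_nonneg _).trans b1)
            _ = ENNReal.ofReal (B1 * B2) * ∫⁻ u in ball (0:ℂ) M,
                  ENNReal.ofReal (‖phi β (circleMap 0 ρ θ) - u‖⁻¹) := by
                rw [lintegral_const_mul' _ _ ENNReal.ofReal_ne_top]
            _ ≤ ENNReal.ofReal (B1 * B2) * ENNReal.ofReal (2 * π * (M + M)) := by
                gcongr
                refine (lint_inv _ M).trans ?_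
                apply ENNReal.ofReal_le_ofReal
                have := (hM _ (circleMap_mem hρ θ)).le
                have hpi := Real.pi_pos
                nlinarith only [this, hpi]
      _ < ⊤ := by
          rw [setLIntegral_const]
          apply ENNReal.mul_lt_top
          · exact ENNReal.mul_lt_top ENNReal.ofReal_lt_top ENNReal.ofReal_lt_top
          · rw [Real.volume_Ioc]; exact ENNReal.ofReal_lt_top
  rw [e3]
  -- Step 3: evaluate the inner integral almost everywhere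
  have hnull : volume (phi β '' sphere 0 ρ) = 0 := by
    apply addHaar_image_eq_zero_of_differentiableOn_of_addHaar_eq_zero
    · intro ζ hζ
      have h1 := hasDerivAt_phi h.diff (mem_ball_of_sphere hρ1 (sphere_subset_closedBall hζ))
        (sphere_ne hρ hζ)
      exact (h1.hasFDerivAt.restrictScalars ℝ).differentiableAt.differentiableWithinAt
    · exact Measure.addHaar_sphere volume 0 ρ
  set S : Set ℂ := phi β '' (ball 0 ρ \ {0}) with hS
  have hSo : IsOpen S := by
    -- open mapping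
    have ho : ∀ ζ ∈ ball (0:ℂ) ρ \ {0}, S ∈ nhds (phi β ζ) := by
      rintro ζ ⟨hζ, hζ0⟩
      have hζ0' : ζ ≠ 0 := hζ0
      have hζ1 : ζ ∈ ball (0:ℂ) 1 := mem_ball_of_sphere hρ1 (ball_subset_closedBall hζ)
      have hst : HasStrictDerivAt (phi β) (dphi β ζ) ζ := by
        have h1 : DifferentiableOn ℂ (phi β) (ball 0 1 \ {0}) := by
          rintro ω ⟨hω, hω0⟩
          exact (hasDerivAt_phi h.diff hω hω0).differentiableAt.differentiableWithinAt
        have h2 : AnalyticAt ℂ (phi β) ζ :=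
          h1.analyticAt ((isOpen_ball.sdiff isClosed_singleton).mem_nhds ⟨hζ1, hζ0⟩)
        have h3 := h2.hasStrictDerivAt
        rwa [(hasDerivAt_phi h.diff hζ1 hζ0').deriv] at h3
      have hd0 : dphi β ζ ≠ 0 := by
        have := h.ne ζ hζ1
        intro h'
        apply this
        have : 1 - ζ ^ 2 * deriv β ζ = - ζ ^ 2 * dphi β ζ := by
          unfold dphi
          field_simp
          ring
        rw [this, h', mul_zero]
      have hmap := hst.map_nhds_eq hd0
      rw [← hmap]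
      exact Filter.image_mem_map ((isOpen_ball.sdiff isClosed_singleton).mem_nhds ⟨hζ, hζ0⟩)
    rw [isOpen_iff_mem_nhds]
    rintro _ ⟨ζ, hζ, rfl⟩
    exact ho ζ hζ
  have hae : ∀ᵐ u : ℂ, conj ((derivative p).eval u) *
        (∮ ζ in C(0, ρ), (derivative p).eval (phi β ζ) * dphi β ζ / (phi β ζ - u)) =
      -(2 * π * I) * ((Sᶜ.indicator (fun u => ‖(derivative p).eval u‖ ^ 2) u : ℝ) : ℂ) := by
    have : ∀ᵐ u : ℂ, u ∉ phi β '' sphere 0 ρ := measure_eq_zero_iff_ae_notMem.mp hnull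
    filter_upwards [this] with u hu
    rw [inner_int h.diff hρ hρ1 _ hu]
    by_cases huS : u ∈ S
    · rw [indicator_of_notMem (by simpa using huS)]
      obtain ⟨a, ⟨ha, ha0⟩, rfl⟩ := huS
      rw [wind_in h hρ hρ1 ha ha0]
      simp
    · rw [indicator_of_mem (by simpa using huS)]
      rw [wind_out h.diff hρ hρ1]
      · have h7 : (((‖(derivative p).eval u‖ ^ 2 : ℝ)) : ℂ) =
            (derivative p).eval u * conj ((derivative p).eval u) := by
          rw [Complex.mul_conj, Complex.normSq_eq_norm_sq]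
        rw [h7]; ring
      · intro ζ hζ hζ0 h'
        rcases lt_or_eq_of_le (show ‖ζ‖ ≤ ρ by simpa using hζ) with h8 | h8
        · exact huS ⟨ζ, ⟨by simpa using h8, hζ0⟩, h'⟩
        · exact hu ⟨ζ, by simpa using h8, h'⟩
  rw [setIntegral_congr_ae measurableSet_ball (hae.mono fun u hu _ => hu), integral_const_mul,
    integral_complex_ofReal]
  refine ⟨∫ u in ball (0:ℂ) M, Sᶜ.indicator (fun u => ‖(derivative p).eval u‖ ^ 2) u, ?_, ?_⟩
  · apply integral_nonneg
    intro u
    apply indicator_nonneg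
    intro u _
    positivity
  · have : (π:ℂ) ≠ 0 := by exact_mod_cast Real.pi_ne_zero
    field_simp

end Pool.Agent.M16.Helper39.Area
end

/- Helper94.T.Helper39.Area.LogKernel -/
section
set_option autoImplicit false
open Complex MeasureTheory Metric Set
open scoped Real ENNReal ComplexConjugate

/-! The logarithmic kernel: `∫_{|u| < M} (conj u)⁻¹ / (v - u) dA(u) = 2π (log |v| - log M)`. -/

namespace Pool.Agent.M16.Helper39.Area

theorem angular_log {ρ : ℝ} (hρ : 0 < ρ) {v : ℂ} (hv : ‖v‖ ≠ ρ) :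
    (∫ θ in Ioo (-π) π, (conj (Complex.polarCoord.symm (ρ, θ)))⁻¹ /
      (v - Complex.polarCoord.symm (ρ, θ))) =
      if ρ < ‖v‖ then 0 else - (2 * π) * ((ρ:ℂ) ^ 2)⁻¹ := by
  have e1 : ∀ θ : ℝ, Complex.polarCoord.symm (ρ, θ) = circleMap 0 ρ θ := by
    intro θ
    rw [Complex.polarCoord_symm_apply, circleMap, zero_add, Complex.exp_mul_I]
    simp
  simp_rw [e1]
  rw [← integral_Ioc_eq_integral_Ioo, ← intervalIntegral.integral_of_le (by linarith [Real.pi_pos])]
  have hper : Function.Periodic (fun θ : ℝ => (conj (circleMap 0 ρ θ))⁻¹ / (v - circleMap 0 ρ θ))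
      (2 * π) := by
    intro θ
    simp only [periodic_circleMap 0 ρ θ]
  have h2 := hper.intervalIntegral_add_eq (-π) 0
  rw [show -π + 2 * π = π by ring, zero_add] at h2
  rw [h2]
  have e2 : (∫ θ in (0:ℝ)..2 * π, (conj (circleMap 0 ρ θ))⁻¹ / (v - circleMap 0 ρ θ)) =
      (∮ w in C(0, ρ), (((ρ:ℂ) ^ 2)⁻¹ * (-I)) * (v - w)⁻¹) := by
    rw [circleIntegral]
    apply intervalIntegral.integral_congr
    intro θ _
    simp only [deriv_circleMap, smul_eq_mul]
    have hne : circleMap 0 ρ θ ≠ 0 := circleMap_ne_center (c := 0) (θ := θ) hρ.ne'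
    have hρ' : (ρ:ℂ) ≠ 0 := by exact_mod_cast hρ.ne'
    have hc : (conj (circleMap 0 ρ θ))⁻¹ = ((ρ:ℂ) ^ 2)⁻¹ * circleMap 0 ρ θ := by
      have h3 : circleMap 0 ρ θ * conj (circleMap 0 ρ θ) = (ρ:ℂ) ^ 2 := by
        rw [Complex.mul_conj, Complex.normSq_eq_norm_sq]
        simp [abs_of_pos hρ]
      have h4 : conj (circleMap 0 ρ θ) ≠ 0 := by simpa using hne
      rw [inv_eq_iff_eq_inv, mul_inv, inv_inv, ← h3]
      field_simp
    rw [hc, div_eq_mul_inv]
    have hI : I * -I = 1 := by simp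
    linear_combination (-(((ρ:ℂ) ^ 2)⁻¹ * circleMap 0 ρ θ * (v - circleMap 0 ρ θ)⁻¹)) * hI
  rw [e2, circleIntegral.integral_const_mul]
  split_ifs with h
  · rw [circle_inv_out hρ h, mul_zero]
  · rw [circle_inv_in (lt_of_le_of_ne (not_lt.mp h) hv)]
    have hI : I * -I = 1 := by simp
    linear_combination (-(2 * π * ((ρ:ℂ) ^ 2)⁻¹)) * hI

theorem inv_mul_inv_le (u v : ℂ) (hv : v ≠ 0) :
    ‖u‖⁻¹ * ‖v - u‖⁻¹ ≤ ‖v‖⁻¹ * (‖u‖⁻¹ + ‖v - u‖⁻¹) := by
  by_cases hu : u = 0
  · subst hu; simp; positivity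
  by_cases huv : v - u = 0
  · rw [huv]; simp
    positivity
  have h1 : 0 < ‖u‖ := norm_pos_iff.mpr hu
  have h2 : 0 < ‖v - u‖ := norm_pos_iff.mpr huv
  have h3 : 0 < ‖v‖ := norm_pos_iff.mpr hv
  have h4 : ‖v‖ ≤ ‖u‖ + ‖v - u‖ := by
    calc ‖v‖ = ‖u + (v - u)‖ := by congr 1; ring
      _ ≤ _ := norm_add_le _ _
  rw [← sub_nonneg]
  have : ‖v‖⁻¹ * (‖u‖⁻¹ + ‖v - u‖⁻¹) - ‖u‖⁻¹ * ‖v - u‖⁻¹ =
      (‖u‖ + ‖v - u‖ - ‖v‖) / (‖v‖ * ‖u‖ * ‖v - u‖) := by
    field_simp
    ring
  rw [this]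
  apply div_nonneg (by linarith only [h4]) (by positivity)

theorem measurable_logkernel (v : ℂ) : Measurable (fun u : ℂ => (conj u)⁻¹ / (v - u)) := by
  apply Measurable.div _ (by fun_prop)
  exact (Complex.continuous_conj.measurable).inv

theorem integrable_logkernel (M : ℝ) {v : ℂ} (hv : v ≠ 0) :
    IntegrableOn (fun u : ℂ => (conj u)⁻¹ / (v - u)) (ball (0:ℂ) M) := by
  have h0 := integrable_inv 0 M
  simp only [zero_sub, norm_neg] at h0
  have h := (h0.add (integrable_inv v M)).const_mul (‖v‖⁻¹)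
  refine Integrable.mono' h (measurable_logkernel v).aestronglyMeasurable ?_
  refine Filter.Eventually.of_forall ?_
  intro u
  rw [norm_div, norm_inv, RCLike.norm_conj, div_eq_mul_inv]
  exact inv_mul_inv_le u v hv

theorem logkernel (M : ℝ) {v : ℂ} (hv0 : v ≠ 0) (hv : ‖v‖ < M) :
    ∫ u in ball (0:ℂ) M, (conj u)⁻¹ / (v - u) = ((2 * π * (Real.log ‖v‖ - Real.log M) : ℝ) : ℂ) := by
  have hvpos : 0 < ‖v‖ := norm_pos_iff.mpr hv0
  have hM : 0 < M := hvpos.trans hv
  set f : ℂ → ℂ := (ball (0:ℂ) M).indicator (fun u => (conj u)⁻¹ / (v - u)) with hf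
  have hfi : Integrable f := by
    rw [hf, integrable_indicator_iff measurableSet_ball]
    exact integrable_logkernel M hv0
  have hfm : Measurable f := (measurable_logkernel v).indicator measurableSet_ball
  have hsm : Measurable (fun p : ℝ × ℝ => (Complex.polarCoord.symm p : ℂ)) := by
    simp only [Complex.polarCoord_symm_apply]
    fun_prop
  have hprod : IntegrableOn (fun p : ℝ × ℝ => p.1 • f (Complex.polarCoord.symm p))
      (Ioi (0:ℝ) ×ˢ Ioo (-π) π) := by
    refine ⟨(measurable_fst.smul (hfm.comp hsm)).aestronglyMeasurable, ?_⟩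
    rw [hasFiniteIntegral_iff_enorm]
    have h1 := Complex.lintegral_comp_polarCoord_symm (fun u => ‖f u‖ₑ)
    have h2 : (∫⁻ p in Ioi (0:ℝ) ×ˢ Ioo (-π) π, ‖p.1 • f (Complex.polarCoord.symm p)‖ₑ) =
        ∫⁻ p in polarCoord.target, ENNReal.ofReal p.1 • ‖f (Complex.polarCoord.symm p)‖ₑ := by
      apply setLIntegral_congr_fun (measurableSet_Ioi.prod measurableSet_Ioo)
      rintro ⟨r, θ⟩ ⟨hr, hθ⟩
      simp only [mem_Ioi] at hr
      simp only [smul_eq_mul]
      rw [enorm_smul]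
      congr 1
      rw [← ofReal_norm, Real.norm_of_nonneg hr.le]
    rw [h2, h1]
    exact hfi.2
  rw [← integral_indicator measurableSet_ball, ← hf, ← Complex.integral_comp_polarCoord_symm]
  rw [show polarCoord.target = Ioi (0:ℝ) ×ˢ Ioo (-π) π from rfl]
  rw [Measure.volume_eq_prod] at hprod ⊢
  rw [setIntegral_prod _ hprod]
  -- the inner integral
  have hin : ∀ r ∈ Ioi (0:ℝ), r ≠ ‖v‖ → r ≠ M →
      (∫ θ in Ioo (-π) π, (r, θ).1 • f (Complex.polarCoord.symm (r, θ))) =
        (Ioo ‖v‖ M).indicator (fun r : ℝ => ((-(2 * π) * (r⁻¹) : ℝ) : ℂ)) r := by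
    intro r hr hrv hrM'
    simp only [mem_Ioi] at hr
    by_cases hrM : r < M
    · have e : ∀ θ, (r, θ).1 • f (Complex.polarCoord.symm (r, θ)) =
          (r : ℂ) * ((conj (Complex.polarCoord.symm (r, θ)))⁻¹ / (v - Complex.polarCoord.symm (r, θ))) := by
        intro θ
        rw [hf, indicator_of_mem (by rw [mem_ball, dist_zero_right, Complex.norm_polarCoord_symm, abs_of_pos hr]; exact hrM)]
        simp
      simp_rw [e]
      rw [integral_const_mul, angular_log hr (Ne.symm hrv)]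
      have hr' : (r:ℂ) ≠ 0 := by exact_mod_cast hr.ne'
      by_cases h : r < ‖v‖
      · rw [if_pos h, indicator_of_notMem (fun h' => absurd h'.1 (not_lt.mpr h.le)), mul_zero]
      · rw [if_neg h, indicator_of_mem (show r ∈ Ioo ‖v‖ M from
          ⟨lt_of_le_of_ne (not_lt.mp h) (Ne.symm hrv), hrM⟩)]
        push_cast
        field_simp
    · have e : ∀ θ, (r, θ).1 • f (Complex.polarCoord.symm (r, θ)) = 0 := by
        intro θ
        rw [hf, indicator_of_notMem (by rw [mem_ball, dist_zero_right, Complex.norm_polarCoord_symm, abs_of_pos hr]; exact hrM)]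
        simp
      simp_rw [e]
      rw [indicator_of_notMem (fun h' => hrM h'.2)]
      simp
  have hae : (∫ r in Ioi (0:ℝ), ∫ θ in Ioo (-π) π, (r, θ).1 • f (Complex.polarCoord.symm (r, θ))) =
      ∫ r in Ioi (0:ℝ), (Ioo ‖v‖ M).indicator (fun r : ℝ => ((-(2 * π) * (r⁻¹) : ℝ) : ℂ)) r := by
    apply setIntegral_congr_ae measurableSet_Ioi
    have h1 : ∀ᵐ r : ℝ, r ≠ ‖v‖ := by
      simp [ae_iff, measure_singleton]
    have h2 : ∀ᵐ r : ℝ, r ≠ M := by
      simp [ae_iff, measure_singleton]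
    filter_upwards [h1, h2] with r hr1 hr2 hr
    exact hin r hr hr1 hr2
  have hsub : Ioo ‖v‖ M ⊆ Ioi (0:ℝ) := fun r hr => hvpos.trans hr.1
  rw [hae, setIntegral_indicator measurableSet_Ioo, inter_eq_self_of_subset_right hsub,
    integral_complex_ofReal, ← integral_Ioc_eq_integral_Ioo,
    ← intervalIntegral.integral_of_le hv.le, intervalIntegral.integral_const_mul,
    integral_inv_of_pos hvpos hM, Real.log_div hM.ne' hvpos.ne']
  congr 1
  ring

end Pool.Agent.M16.Helper39.Area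
end

/- Helper94.T.Helper39.Area.AreaLog -/
section
set_option autoImplicit false
open Complex MeasureTheory Metric Set
open scoped Real ENNReal ComplexConjugate

/-! The area inequality for the logarithm of the exterior map. -/

namespace Pool.Agent.M16.Helper39.Area

variable {β : ℂ → ℂ}

/-- the inner contour integral -/
theorem inner_log (h : Ext β) {ρ : ℝ} (hρ : 0 < ρ) (hρ1 : ρ < 1)
    {a : ℂ} (ha : a ∈ ball (0:ℂ) ρ) (ha0 : a ≠ 0) {u : ℂ} (hu0 : u ≠ 0)
    (hu : phi β a + u ∉ phi β '' sphere 0 ρ) :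
    (∮ ζ in C(0, ρ), dphi β ζ / (phi β ζ - phi β a) / (phi β ζ - phi β a - u)) =
      u⁻¹ * ∮ ζ in C(0, ρ), dphi β ζ / (phi β ζ - (phi β a + u)) := by
  have ha1 : a ∈ ball (0:ℂ) 1 := mem_ball_of_sphere hρ1 (ball_subset_closedBall ha)
  have hne : ∀ ζ ∈ sphere (0:ℂ) ρ, phi β ζ - (phi β a + u) ≠ 0 := by
    intro ζ hζ h'
    exact hu ⟨ζ, hζ, sub_eq_zero.mp h'⟩
  have hne2 : ∀ ζ ∈ sphere (0:ℂ) ρ, phi β ζ - phi β a ≠ 0 := by
    intro ζ hζ h'
    have h2 := h.inj ζ a (mem_ball_of_sphere hρ1 (sphere_subset_closedBall hζ)) ha1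
      (sphere_ne hρ hζ) ha0 (sub_eq_zero.mp h')
    subst h2
    simp at ha hζ
    linarith only [ha, hζ]
  have hc1 : CircleIntegrable (fun ζ => dphi β ζ / (phi β ζ - (phi β a + u))) 0 ρ := by
    apply ContinuousOn.circleIntegrable hρ.le
    exact (cont_dphi h.diff hρ hρ1).div
      ((cont_phi h.diff hρ hρ1).sub continuousOn_const) hne
  have hc2 : CircleIntegrable (fun ζ => dphi β ζ / (phi β ζ - phi β a)) 0 ρ := by
    apply ContinuousOn.circleIntegrable hρ.le
    exact (cont_dphi h.diff hρ hρ1).div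
      ((cont_phi h.diff hρ hρ1).sub continuousOn_const) hne2
  have h1 : (∮ ζ in C(0, ρ), dphi β ζ / (phi β ζ - phi β a) / (phi β ζ - phi β a - u)) =
      ∮ ζ in C(0, ρ), u⁻¹ * (dphi β ζ / (phi β ζ - (phi β a + u)) -
        dphi β ζ / (phi β ζ - phi β a)) := by
    apply circleIntegral.integral_congr hρ.le
    intro ζ hζ
    have h3 := hne ζ hζ
    have h4 := hne2 ζ hζ
    have h5 : phi β ζ - phi β a - u ≠ 0 := by
      intro h'
      apply h3
      rw [← h']; ring
    simp only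
    rw [show phi β ζ - (phi β a + u) = phi β ζ - phi β a - u by ring]
    field_simp
    ring
  rw [h1, circleIntegral.integral_const_mul, circleIntegral.integral_sub hc1 hc2,
    wind_in h hρ hρ1 ha ha0, sub_zero]

/-- the area inequality for `log (φ - φ a)` -/
theorem area_log (h : Ext β) {ρ : ℝ} (hρ : 0 < ρ) (hρ1 : ρ < 1)
    {a : ℂ} (ha : a ∈ ball (0:ℂ) ρ) (ha0 : a ≠ 0) :
    ∃ c : ℝ, 0 ≤ c ∧ (∮ ζ in C(0, ρ), ((2 * Real.log ‖phi β ζ - phi β a‖ : ℝ) : ℂ) *
      (dphi β ζ / (phi β ζ - phi β a))) = -(2 * I) * c := by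
  have ha1 : a ∈ ball (0:ℂ) 1 := mem_ball_of_sphere hρ1 (ball_subset_closedBall ha)
  have hphic := cont_phi h.diff hρ hρ1
  have hdc := cont_dphi h.diff hρ hρ1
  set w : ℂ := phi β a with hw
  have hne2 : ∀ ζ ∈ sphere (0:ℂ) ρ, phi β ζ - w ≠ 0 := by
    intro ζ hζ h'
    have h2 := h.inj ζ a (mem_ball_of_sphere hρ1 (sphere_subset_closedBall hζ)) ha1
      (sphere_ne hρ hζ) ha0 (sub_eq_zero.mp h')
    subst h2
    simp at ha hζ
    linarith
  have hvc : ContinuousOn (fun ζ => phi β ζ - w) (sphere 0 ρ) := hphic.sub continuousOn_const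
  -- the radius
  obtain ⟨M, hM⟩ : ∃ M : ℝ, ∀ ζ ∈ sphere (0:ℂ) ρ, ‖phi β ζ - w‖ < M := by
    obtain ⟨M, hM⟩ := (isCompact_sphere (0:ℂ) ρ).exists_bound_of_continuousOn hvc
    exact ⟨M + 1, fun ζ hζ => lt_of_le_of_lt (hM ζ hζ) (lt_add_one M)⟩
  have hMpos : 0 < M := lt_of_le_of_lt (norm_nonneg _) (hM _ (circleMap_mem hρ 0))
  -- the lower bound
  obtain ⟨d, hd0, hd⟩ : ∃ d : ℝ, 0 < d ∧ ∀ ζ ∈ sphere (0:ℂ) ρ, ‖phi β ζ - w‖⁻¹ ≤ d := by
    have : ContinuousOn (fun ζ => (phi β ζ - w)⁻¹) (sphere 0 ρ) := hvc.inv₀ hne2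
    obtain ⟨M, hM⟩ := (isCompact_sphere (0:ℂ) ρ).exists_bound_of_continuousOn this
    refine ⟨|M| + 1, by positivity, fun ζ hζ => ?_⟩
    have := hM ζ hζ
    rw [norm_inv] at this
    linarith only [le_abs_self M, this]
  set D : ℂ → ℂ := fun ζ => dphi β ζ / (phi β ζ - w) with hD
  have hDc : ContinuousOn D (sphere 0 ρ) := hdc.div hvc hne2
  -- Step 1: rewrite with the kernel
  have e1 : (∮ ζ in C(0, ρ), ((2 * Real.log ‖phi β ζ - w‖ : ℝ) : ℂ) * D ζ) =
      ∮ ζ in C(0, ρ), ((π:ℂ)⁻¹ * (D ζ * ∫ u in ball (0:ℂ) M,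
        (conj u)⁻¹ / (phi β ζ - w - u)) + ((2 * Real.log M : ℝ) : ℂ) * D ζ) := by
    apply circleIntegral.integral_congr hρ.le
    intro ζ hζ
    simp only
    rw [logkernel M (hne2 ζ hζ) (hM ζ hζ)]
    have : (π:ℂ) ≠ 0 := by exact_mod_cast Real.pi_ne_zero
    push_cast
    field_simp
    ring
  have hlc : ContinuousOn (fun ζ => ((2 * Real.log ‖phi β ζ - w‖ : ℝ) : ℂ)) (sphere 0 ρ) := by
    apply Complex.continuous_ofReal.comp_continuousOn
    apply continuousOn_const.mul
    apply ContinuousOn.log hvc.norm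
    intro ζ hζ
    exact norm_ne_zero_iff.mpr (hne2 ζ hζ)
  have hci2 : CircleIntegrable (fun ζ => ((2 * Real.log M : ℝ) : ℂ) * D ζ) 0 ρ :=
    (continuousOn_const.mul hDc).circleIntegrable hρ.le
  have hci1 : CircleIntegrable (fun ζ => (π:ℂ)⁻¹ * (D ζ * ∫ u in ball (0:ℂ) M,
        (conj u)⁻¹ / (phi β ζ - w - u))) 0 ρ := by
    apply ContinuousOn.circleIntegrable hρ.le
    have hcc : ContinuousOn (fun ζ => ((2 * Real.log ‖phi β ζ - w‖ : ℝ) : ℂ) * D ζ -
        ((2 * Real.log M : ℝ) : ℂ) * D ζ) (sphere 0 ρ) :=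
      (hlc.mul hDc).sub (continuousOn_const.mul hDc)
    apply hcc.congr
    intro ζ hζ
    simp only
    rw [logkernel M (hne2 ζ hζ) (hM ζ hζ)]
    have : (π:ℂ) ≠ 0 := by exact_mod_cast Real.pi_ne_zero
    push_cast
    field_simp
  have e2 : (∮ ζ in C(0, ρ), ((2 * Real.log M : ℝ) : ℂ) * D ζ) = 0 := by
    rw [circleIntegral.integral_const_mul, hD, wind_in h hρ hρ1 ha ha0, mul_zero]
  rw [e1, circleIntegral.integral_add hci1 hci2, e2, add_zero, circleIntegral.integral_const_mul]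
  -- Step 2: Fubini
  have e3 : (∮ ζ in C(0, ρ), D ζ * ∫ u in ball (0:ℂ) M, (conj u)⁻¹ / (phi β ζ - w - u)) =
      ∫ u in ball (0:ℂ) M, (conj u)⁻¹ *
        ∮ ζ in C(0, ρ), dphi β ζ / (phi β ζ - w) / (phi β ζ - w - u) := by
    simp only [circleIntegral]
    have e4 : (∫ θ in (0:ℝ)..2 * π, deriv (circleMap 0 ρ) θ • (D (circleMap 0 ρ θ) *
        ∫ u in ball (0:ℂ) M, (conj u)⁻¹ / (phi β (circleMap 0 ρ θ) - w - u))) =
        ∫ θ in (0:ℝ)..2 * π, ∫ u in ball (0:ℂ) M, deriv (circleMap 0 ρ) θ * (D (circleMap 0 ρ θ) *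
          ((conj u)⁻¹ / (phi β (circleMap 0 ρ θ) - w - u))) := by
      congr 1
      funext θ
      rw [smul_eq_mul, ← integral_const_mul, ← integral_const_mul]
    have e5 : (∫ u in ball (0:ℂ) M, (conj u)⁻¹ *
        ∫ θ in (0:ℝ)..2 * π, deriv (circleMap 0 ρ) θ •
          (dphi β (circleMap 0 ρ θ) / (phi β (circleMap 0 ρ θ) - w) /
            (phi β (circleMap 0 ρ θ) - w - u))) =
        ∫ u in ball (0:ℂ) M, ∫ θ in (0:ℝ)..2 * π, deriv (circleMap 0 ρ) θ * (D (circleMap 0 ρ θ) *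
          ((conj u)⁻¹ / (phi β (circleMap 0 ρ θ) - w - u))) := by
      congr 1
      funext u
      rw [← intervalIntegral.integral_const_mul]
      congr 1
      funext θ
      simp only [hD, smul_eq_mul]
      ring
    rw [e4, e5]
    simp only [intervalIntegral.integral_of_le Real.two_pi_pos.le]
    apply integral_integral_swap
    -- integrability
    have hcθ : Continuous (fun θ : ℝ => circleMap 0 ρ θ) := continuous_circleMap 0 ρ
    have hc1 : Continuous (fun θ : ℝ => phi β (circleMap 0 ρ θ) - w) :=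
      hvc.comp_continuous hcθ (fun θ => circleMap_mem hρ θ)
    have hc2 : Continuous (fun θ : ℝ => deriv (circleMap 0 ρ) θ * D (circleMap 0 ρ θ)) := by
      have : deriv (circleMap 0 ρ) = fun θ => circleMap 0 ρ θ * I := by
        funext θ; rw [deriv_circleMap]
      apply Continuous.mul
      · rw [this]; fun_prop
      · exact hDc.comp_continuous hcθ (fun θ => circleMap_mem hρ θ)
    have hmeas : Measurable (fun z : ℝ × ℂ => deriv (circleMap 0 ρ) z.1 * (D (circleMap 0 ρ z.1) *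
          ((conj z.2)⁻¹ / (phi β (circleMap 0 ρ z.1) - w - z.2)))) := by
      have m1 : Measurable (fun z : ℝ × ℂ => deriv (circleMap 0 ρ) z.1 * D (circleMap 0 ρ z.1)) :=
        hc2.measurable.comp measurable_fst
      have m2 : Measurable (fun z : ℝ × ℂ => (conj z.2)⁻¹) :=
        (Complex.continuous_conj.measurable.inv).comp measurable_snd
      have m3 : Measurable (fun z : ℝ × ℂ => phi β (circleMap 0 ρ z.1) - w - z.2) :=
        (hc1.measurable.comp measurable_fst).sub measurable_snd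
      have e : (fun z : ℝ × ℂ => deriv (circleMap 0 ρ) z.1 * (D (circleMap 0 ρ z.1) *
          ((conj z.2)⁻¹ / (phi β (circleMap 0 ρ z.1) - w - z.2)))) =
          fun z : ℝ × ℂ => (deriv (circleMap 0 ρ) z.1 * D (circleMap 0 ρ z.1)) *
          ((conj z.2)⁻¹ / (phi β (circleMap 0 ρ z.1) - w - z.2)) := by
        funext z; ring
      rw [e]
      exact m1.mul (m2.div m3)
    show Integrable (fun z : ℝ × ℂ => deriv (circleMap 0 ρ) z.1 * (D (circleMap 0 ρ z.1) *
          ((conj z.2)⁻¹ / (phi β (circleMap 0 ρ z.1) - w - z.2))))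
          ((volume.restrict (Ioc 0 (2 * π))).prod (volume.restrict (ball 0 M)))
    refine ⟨hmeas.aestronglyMeasurable, ?_⟩
    -- bounds
    obtain ⟨B1, hB1⟩ := (isCompact_Icc (a := (0:ℝ)) (b := 2 * π)).exists_bound_of_continuousOn
      hc2.continuousOn
    have hB10 : 0 ≤ B1 := (norm_nonneg _).trans (hB1 0 ⟨le_rfl, Real.two_pi_pos.le⟩)
    rw [hasFiniteIntegral_iff_enorm]
    rw [lintegral_prod _ (hmeas.enorm.aemeasurable)]
    calc ∫⁻ θ in Ioc (0:ℝ) (2 * π), ∫⁻ u in ball (0:ℂ) M, ‖deriv (circleMap 0 ρ) θ *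
          (D (circleMap 0 ρ θ) *
          ((conj u)⁻¹ / (phi β (circleMap 0 ρ θ) - w - u)))‖ₑ
        ≤ ∫⁻ θ in Ioc (0:ℝ) (2 * π), ENNReal.ofReal (B1 * d) *
            (ENNReal.ofReal (2 * π * M) + ENNReal.ofReal (2 * π * (M + M))) := by
          apply setLIntegral_mono measurable_const
          intro θ hθ
          have hθ' : θ ∈ Icc (0:ℝ) (2 * π) := Ioc_subset_Icc_self hθ
          set v : ℂ := phi β (circleMap 0 ρ θ) - w with hv
          have hv0 : v ≠ 0 := hne2 _ (circleMap_mem hρ θ)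
          have hvd : ‖v‖⁻¹ ≤ d := hd _ (circleMap_mem hρ θ)
          have hvM : ‖v‖ < M := hM _ (circleMap_mem hρ θ)
          calc ∫⁻ u in ball (0:ℂ) M, ‖deriv (circleMap 0 ρ) θ * (D (circleMap 0 ρ θ) *
                ((conj u)⁻¹ / (v - u)))‖ₑ
              ≤ ∫⁻ u in ball (0:ℂ) M, ENNReal.ofReal (B1 * d) *
                  (ENNReal.ofReal (‖u‖⁻¹) + ENNReal.ofReal (‖v - u‖⁻¹)) := by
                apply setLIntegral_mono
                · apply Measurable.const_mul
                  exact (by fun_prop : Measurable fun u : ℂ => ‖u‖⁻¹).ennreal_ofReal.add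
                    (by fun_prop : Measurable fun u : ℂ => ‖v - u‖⁻¹).ennreal_ofReal
                intro u hu
                rw [← ofReal_norm, ← ENNReal.ofReal_add (by positivity) (by positivity),
                  ← ENNReal.ofReal_mul (by positivity)]
                apply ENNReal.ofReal_le_ofReal
                have b1 := hB1 θ hθ'
                calc ‖deriv (circleMap 0 ρ) θ * (D (circleMap 0 ρ θ) *
                      ((conj u)⁻¹ / (v - u)))‖
                    = ‖deriv (circleMap 0 ρ) θ * D (circleMap 0 ρ θ)‖ *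
                      (‖u‖⁻¹ * ‖v - u‖⁻¹) := by
                      rw [← mul_assoc, norm_mul, norm_div, norm_inv, RCLike.norm_conj, div_eq_mul_inv]
                  _ ≤ B1 * (‖v‖⁻¹ * (‖u‖⁻¹ + ‖v - u‖⁻¹)) := by
                      apply mul_le_mul b1 (inv_mul_inv_le u v hv0) (by positivity) hB10
                  _ ≤ B1 * (d * (‖u‖⁻¹ + ‖v - u‖⁻¹)) := by gcongr
                  _ = B1 * d * (‖u‖⁻¹ + ‖v - u‖⁻¹) := by ring
            _ = ENNReal.ofReal (B1 * d) * (∫⁻ u in ball (0:ℂ) M, ENNReal.ofReal (‖u‖⁻¹) +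
                  ENNReal.ofReal (‖v - u‖⁻¹)) := by
                rw [lintegral_const_mul' _ _ ENNReal.ofReal_ne_top]
            _ = ENNReal.ofReal (B1 * d) * ((∫⁻ u in ball (0:ℂ) M, ENNReal.ofReal (‖u‖⁻¹)) +
                  ∫⁻ u in ball (0:ℂ) M, ENNReal.ofReal (‖v - u‖⁻¹)) := by
                rw [lintegral_add_left (by fun_prop : Measurable fun u : ℂ => ‖u‖⁻¹).ennreal_ofReal]
            _ ≤ ENNReal.ofReal (B1 * d) *
                (ENNReal.ofReal (2 * π * M) + ENNReal.ofReal (2 * π * (M + M))) := by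
                gcongr
                · exact lint_inv_ball M
                · refine (lint_inv _ M).trans ?_
                  apply ENNReal.ofReal_le_ofReal
                  have hpi := Real.pi_pos
                  nlinarith only [hvM, hpi]
      _ < ⊤ := by
          rw [setLIntegral_const]
          apply ENNReal.mul_lt_top
          · apply ENNReal.mul_lt_top ENNReal.ofReal_lt_top
            exact ENNReal.add_lt_top.mpr ⟨ENNReal.ofReal_lt_top, ENNReal.ofReal_lt_top⟩
          · rw [Real.volume_Ioc]; exact ENNReal.ofReal_lt_top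
  rw [e3]
  -- Step 3: evaluate the inner integral almost everywhere
  have hnull : volume (phi β '' sphere 0 ρ) = 0 := by
    apply addHaar_image_eq_zero_of_differentiableOn_of_addHaar_eq_zero
    · intro ζ hζ
      have h1 := hasDerivAt_phi h.diff (mem_ball_of_sphere hρ1 (sphere_subset_closedBall hζ))
        (sphere_ne hρ hζ)
      exact (h1.hasFDerivAt.restrictScalars ℝ).differentiableAt.differentiableWithinAt
    · exact Measure.addHaar_sphere volume 0 ρ
  set S : Set ℂ := phi β '' (ball 0 ρ \ {0}) with hS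
  have hSo : IsOpen S := by
    have ho : ∀ ζ ∈ ball (0:ℂ) ρ \ {0}, S ∈ nhds (phi β ζ) := by
      rintro ζ ⟨hζ, hζ0⟩
      have hζ0' : ζ ≠ 0 := hζ0
      have hζ1 : ζ ∈ ball (0:ℂ) 1 := mem_ball_of_sphere hρ1 (ball_subset_closedBall hζ)
      have hst : HasStrictDerivAt (phi β) (dphi β ζ) ζ := by
        have h1 : DifferentiableOn ℂ (phi β) (ball 0 1 \ {0}) := by
          rintro ω ⟨hω, hω0⟩
          exact (hasDerivAt_phi h.diff hω hω0).differentiableAt.differentiableWithinAt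
        have h2 : AnalyticAt ℂ (phi β) ζ :=
          h1.analyticAt ((isOpen_ball.sdiff isClosed_singleton).mem_nhds ⟨hζ1, hζ0⟩)
        have h3 := h2.hasStrictDerivAt
        rwa [(hasDerivAt_phi h.diff hζ1 hζ0').deriv] at h3
      have hd0 : dphi β ζ ≠ 0 := by
        have := h.ne ζ hζ1
        intro h'
        apply this
        have : 1 - ζ ^ 2 * deriv β ζ = - ζ ^ 2 * dphi β ζ := by
          unfold dphi
          field_simp
          ring
        rw [this, h', mul_zero]
      have hmap := hst.map_nhds_eq hd0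
      rw [← hmap]
      exact Filter.image_mem_map ((isOpen_ball.sdiff isClosed_singleton).mem_nhds ⟨hζ, hζ0⟩)
    rw [isOpen_iff_mem_nhds]
    rintro _ ⟨ζ, hζ, rfl⟩
    exact ho ζ hζ
  set T : Set ℂ := {u | w + u ∉ S} with hT
  have hae : ∀ᵐ u : ℂ, (conj u)⁻¹ *
        (∮ ζ in C(0, ρ), dphi β ζ / (phi β ζ - w) / (phi β ζ - w - u)) =
      -(2 * π * I) * ((T.indicator (fun u => (‖u‖ ^ 2)⁻¹) u : ℝ) : ℂ) := by
    have h1 : ∀ᵐ u : ℂ, w + u ∉ phi β '' sphere 0 ρ := by
      have h2 : volume ((fun u => w + u) ⁻¹' (phi β '' sphere 0 ρ)) = 0 := by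
        rw [measure_preimage_add]; exact hnull
      exact measure_eq_zero_iff_ae_notMem.mp h2
    have h2 : ∀ᵐ u : ℂ, u ≠ 0 := by
      have : volume ({0} : Set ℂ) = 0 := measure_singleton 0
      filter_upwards [measure_eq_zero_iff_ae_notMem.mp this] with u hu
      simpa using hu
    filter_upwards [h1, h2] with u hu hu0
    rw [inner_log h hρ hρ1 ha ha0 hu0 hu]
    by_cases huS : w + u ∈ S
    · rw [indicator_of_notMem (by simpa [hT] using huS)]
      obtain ⟨b, ⟨hb, hb0⟩, hbw⟩ := huS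
      rw [← hw, ← hbw, wind_in h hρ hρ1 hb hb0]
      simp
    · rw [indicator_of_mem (by simpa [hT] using huS)]
      rw [wind_out h.diff hρ hρ1]
      · have h7 : (((‖u‖ ^ 2)⁻¹ : ℝ) : ℂ) = u⁻¹ * (conj u)⁻¹ := by
          rw [← mul_inv, Complex.mul_conj, Complex.normSq_eq_norm_sq]
          push_cast
          rfl
        rw [h7]; ring
      · intro ζ hζ hζ0 h'
        rcases lt_or_eq_of_le (show ‖ζ‖ ≤ ρ by simpa using hζ) with h8 | h8
        · exact huS ⟨ζ, ⟨by simpa using h8, hζ0⟩, h'⟩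
        · exact hu ⟨ζ, by simpa using h8, h'⟩
  rw [setIntegral_congr_ae measurableSet_ball (hae.mono fun u hu _ => hu), integral_const_mul,
    integral_complex_ofReal]
  refine ⟨∫ u in ball (0:ℂ) M, T.indicator (fun u => (‖u‖ ^ 2)⁻¹) u, ?_, ?_⟩
  · apply integral_nonneg
    intro u
    apply indicator_nonneg
    intro u _
    positivity
  · have : (π:ℂ) ≠ 0 := by exact_mod_cast Real.pi_ne_zero
    field_simp

end Pool.Agent.M16.Helper39.Area
end
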