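import Mathlib

/- Helper94.T.Helper22.Half.Binom -/
section
/-!
Coefficients of `(1 - x)^{-z}` and algebraic identities for palindromic sequences.
-/

set_option autoImplicit false

namespace Pool.Agent.M16.Helper22.Half

section generic
variable {𝕜 : Type*} [Field 𝕜] [CharZero 𝕜]

/-- coefficients of `(1-x)^{-z}` -/
def pq (z : 𝕜) : ℕ → 𝕜
  | 0 => 1
  | n + 1 => pq z n * ((z + n) / (n + 1))

omit [CharZero 𝕜] in
theorem pq_zero (z : 𝕜) : pq z 0 = 1 := rfl

omit [CharZero 𝕜] in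
theorem pq_succ (z : 𝕜) (n : ℕ) : pq z (n + 1) = pq z n * ((z + n) / (n + 1)) := rfl

theorem pq_succ' (z : 𝕜) (n : ℕ) : ((n : 𝕜) + 1) * pq z (n + 1) = pq z n * (z + n) := by
  rw [pq_succ]
  have : (n : 𝕜) + 1 ≠ 0 := Nat.cast_add_one_ne_zero n
  field_simp

theorem pq_shift (z : 𝕜) (n : ℕ) : ((n : 𝕜) + 1) * pq z (n + 1) = z * pq (z + 1) n := by
  induction n with
  | zero => simp [pq]
  | succ n ih =>
    rw [pq_succ', pq_succ (z + 1) n]
    have h : (n : 𝕜) + 1 ≠ 0 := Nat.cast_add_one_ne_zero n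
    have e : z * (pq (z + 1) n * ((z + 1 + n) / (n + 1)))
        = (z * pq (z + 1) n) * ((z + 1 + n) / (n + 1)) := by ring
    rw [e, ← ih]
    push_cast
    field_simp
    ring

theorem pq_add_one (z : 𝕜) (n : ℕ) : z * pq (z + 1) n = pq z n * (z + n) := by
  rw [← pq_shift, pq_succ']

theorem pq_one (n : ℕ) : pq (1 : 𝕜) n = 1 := by
  induction n with
  | zero => rfl
  | succ n ih =>
    rw [pq_succ, ih]
    have h : (n : 𝕜) + 1 ≠ 0 := Nat.cast_add_one_ne_zero n
    rw [add_comm (1 : 𝕜), div_self h, one_mul]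

theorem pq_two (n : ℕ) : pq (2 : 𝕜) n = n + 1 := by
  have h := pq_add_one (1 : 𝕜) n
  rw [pq_one, one_mul, one_mul, one_add_one_eq_two] at h
  rw [h]; ring

/-- Vandermonde's identity -/
theorem vander (z w : 𝕜) (M : ℕ) :
    ∑ k ∈ Finset.range (M + 1), pq z k * pq w (M - k) = pq (z + w) M := by
  induction M with
  | zero => simp [pq]
  | succ M ih =>
    have h1 : ∑ k ∈ Finset.range (M + 2), (k : 𝕜) * (pq z k * pq w (M + 1 - k))
        = ∑ k ∈ Finset.range (M + 1), (z + k) * (pq z k * pq w (M - k)) := by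
      rw [Finset.sum_range_succ']
      simp only [Nat.cast_zero, zero_mul, add_zero]
      apply Finset.sum_congr rfl
      intro k _
      have e : M + 1 - (k + 1) = M - k := by omega
      rw [e]
      have := pq_succ' z k
      push_cast
      linear_combination (pq w (M - k)) * this
    have h2 : ∑ k ∈ Finset.range (M + 2), ((M + 1 - k : ℕ) : 𝕜) * (pq z k * pq w (M + 1 - k))
        = ∑ k ∈ Finset.range (M + 1), (w + (M - k : ℕ)) * (pq z k * pq w (M - k)) := by
      rw [Finset.sum_range_succ]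
      simp only [Nat.sub_self, Nat.cast_zero, zero_mul, add_zero]
      apply Finset.sum_congr rfl
      intro k hk
      rw [Finset.mem_range] at hk
      have e : M + 1 - k = (M - k) + 1 := by omega
      rw [e]
      have := pq_succ' w (M - k)
      push_cast at this ⊢
      linear_combination (pq z k) * this
    have h3 : ((M : 𝕜) + 1) * ∑ k ∈ Finset.range (M + 2), pq z k * pq w (M + 1 - k)
        = (z + w + M) * ∑ k ∈ Finset.range (M + 1), pq z k * pq w (M - k) := by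
      have e1 : ((M : 𝕜) + 1) * ∑ k ∈ Finset.range (M + 2), pq z k * pq w (M + 1 - k)
          = ∑ k ∈ Finset.range (M + 2), (k : 𝕜) * (pq z k * pq w (M + 1 - k))
            + ∑ k ∈ Finset.range (M + 2), ((M + 1 - k : ℕ) : 𝕜) * (pq z k * pq w (M + 1 - k)) := by
        rw [← Finset.sum_add_distrib, Finset.mul_sum]
        apply Finset.sum_congr rfl
        intro k hk
        rw [Finset.mem_range] at hk
        rw [Nat.cast_sub (by omega)]
        push_cast
        ring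
      rw [e1, h1, h2, ← Finset.sum_add_distrib, Finset.mul_sum]
      apply Finset.sum_congr rfl
      intro k hk
      rw [Finset.mem_range] at hk
      rw [Nat.cast_sub (by omega)]
      ring
    rw [ih] at h3
    have h4 := pq_succ' (z + w) M
    have h5 : ((M : 𝕜) + 1) ≠ 0 := Nat.cast_add_one_ne_zero M
    apply mul_left_cancel₀ h5
    rw [h3, h4]
    ring

end generic

/-- the coefficients `A_{M,k}` of the partial fraction expansion -/
noncomputable def Ac (s : ℂ) (M k : ℕ) : ℂ :=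
  ((M - k : ℕ) : ℂ) * pq (1 + s) (M - k) * pq (-s) k

theorem conv_one (s : ℂ) (M : ℕ) :
    ∑ k ∈ Finset.range (M + 1), pq (1 + s) (M - k) * pq (-s) k = 1 := by
  have h := vander (-s) (1 + s) M
  have e : -s + (1 + s) = 1 := by ring
  rw [e, pq_one] at h
  refine Eq.trans ?_ h
  apply Finset.sum_congr rfl
  intro k _
  ring

theorem conv_moment (s : ℂ) (M : ℕ) :
    ∑ k ∈ Finset.range M, Ac s M k = (1 + s) * M := by
  cases M with
  | zero => simp
  | succ M =>
    have h := vander (-s) (2 + s) M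
    have e : -s + (2 + s) = 2 := by ring
    rw [e, pq_two] at h
    push_cast
    rw [← h, Finset.mul_sum]
    apply Finset.sum_congr rfl
    intro k hk
    rw [Finset.mem_range] at hk
    unfold Ac
    have e2 : M + 1 - k = (M - k) + 1 := by omega
    rw [e2]
    have h2 := pq_shift (1 + s) (M - k)
    have e3 : (1 + s + 1 : ℂ) = 2 + s := by ring
    rw [e3] at h2
    push_cast
    linear_combination (pq (-s) k) * h2

theorem Ac_succ (s : ℂ) {M k : ℕ} (hk : k < M) :
    Ac s (M + 1) k * ((M - k : ℕ) : ℂ) = Ac s M k * (((M - k : ℕ) : ℂ) + (1 + s)) := by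
  unfold Ac
  have e : M + 1 - k = (M - k) + 1 := by omega
  rw [e]
  have h := pq_succ' (1 + s) (M - k)
  push_cast
  linear_combination (pq (-s) k * ((M - k : ℕ) : ℂ)) * h

/-- partial fraction expansion of a quotient of coefficients -/
theorem partial_frac (s : ℂ) (p : ℕ) (hs : ∀ k : ℕ, ((p + k : ℕ) : ℂ) - s ≠ 0) (M : ℕ) :
    pq (-s) p = pq (-s) (p + M) * (1 + ∑ k ∈ Finset.range M, Ac s M k / (((p + k : ℕ) : ℂ) - s)) := by
  induction M with
  | zero => simp
  | succ M ih =>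
    have hne := hs M
    have hpM : pq (-s) (p + M) * (((p + M : ℕ) : ℂ) - s)
        = pq (-s) (p + M + 1) * (((p + M : ℕ) : ℂ) + 1) := by
      have := pq_succ' (-s) (p + M)
      linear_combination -this
    have h1 : pq (-s) (p + M) = pq (-s) (p + (M + 1)) * ((((p + M : ℕ) : ℂ) + 1)
        / (((p + M : ℕ) : ℂ) - s)) := by
      rw [← add_assoc, mul_div_assoc', eq_div_iff hne, hpM]
    rw [ih, h1, mul_assoc]
    congr 1
    -- the coefficient identity
    have h2 : ∀ k ∈ Finset.range M, Ac s M k / (((p + k : ℕ) : ℂ) - s)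
        * ((((p + M : ℕ) : ℂ) + 1) / (((p + M : ℕ) : ℂ) - s))
        = Ac s (M + 1) k / (((p + k : ℕ) : ℂ) - s)
          - (1 + s) * (pq (1 + s) (M - k) * pq (-s) k) / (((p + M : ℕ) : ℂ) - s) := by
      intro k hk
      rw [Finset.mem_range] at hk
      have hk1 := hs k
      have hMk : ((M - k : ℕ) : ℂ) ≠ 0 := by
        have : M - k ≠ 0 := by omega
        exact_mod_cast this
      have e1 : Ac s (M + 1) k = Ac s M k * (((M - k : ℕ) : ℂ) + (1 + s)) / ((M - k : ℕ) : ℂ) := by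
        rw [eq_div_iff hMk, Ac_succ s hk]
      have e2 : pq (1 + s) (M - k) * pq (-s) k = Ac s M k / ((M - k : ℕ) : ℂ) := by
        rw [eq_div_iff hMk]
        unfold Ac; ring
      rw [e1, e2]
      have e3 : ((p + M : ℕ) : ℂ) = ((p + k : ℕ) : ℂ) + ((M - k : ℕ) : ℂ) := by
        rw [← Nat.cast_add]; congr 1; omega
      rw [e3] at hne ⊢
      field_simp
      ring
    rw [mul_add, mul_one, mul_comm _ (∑ k ∈ Finset.range M, _), Finset.sum_mul,
      Finset.sum_congr rfl h2, Finset.sum_sub_distrib, Finset.sum_range_succ (fun k => Ac s (M + 1) k / _)]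
    have h3 : ∑ k ∈ Finset.range M, (1 + s) * (pq (1 + s) (M - k) * pq (-s) k)
        / (((p + M : ℕ) : ℂ) - s) = (1 + s) * (1 - pq (-s) M) / (((p + M : ℕ) : ℂ) - s) := by
      rw [← Finset.sum_div, ← Finset.mul_sum]
      have h4 := conv_one s M
      rw [Finset.sum_range_succ, Nat.sub_self, pq_zero, one_mul] at h4
      have h4' : ∑ k ∈ Finset.range M, pq (1 + s) (M - k) * pq (-s) k = 1 - pq (-s) M := by
        linear_combination h4
      rw [h4']
    rw [h3]
    have h5 : Ac s (M + 1) M = (1 + s) * pq (-s) M := by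
      unfold Ac
      have : M + 1 - M = 1 := by omega
      rw [this]
      simp [pq]
    rw [h5]
    field_simp
    ring

theorem sum_tri (f : ℕ → ℕ → ℂ) (m : ℕ) :
    ∑ l ∈ Finset.range (m + 1), ∑ k ∈ Finset.range (m - l), f l (l + k)
      = ∑ i ∈ Finset.range m, ∑ l ∈ Finset.range (i + 1), f l i := by
  rw [Finset.sum_sigma', Finset.sum_sigma']
  apply Finset.sum_bij' (i := fun (x : (_ : ℕ) × ℕ) _ => (⟨x.1 + x.2, x.1⟩ : (_ : ℕ) × ℕ))
    (j := fun (x : (_ : ℕ) × ℕ) _ => (⟨x.2, x.1 - x.2⟩ : (_ : ℕ) × ℕ))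
  · rintro ⟨l, k⟩ h
    simp only [Finset.mem_sigma, Finset.mem_range] at h ⊢
    omega
  · rintro ⟨i, l⟩ h
    simp only [Finset.mem_sigma, Finset.mem_range] at h ⊢
    omega
  · rintro ⟨l, k⟩ h
    simp only [Finset.mem_sigma, Finset.mem_range] at h ⊢
    simp
  · rintro ⟨i, l⟩ h
    simp only [Finset.mem_sigma, Finset.mem_range] at h ⊢
    have : l + (i - l) = i := by omega
    simp [this]
  · rintro ⟨l, k⟩ h
    simp

/-- the sequence `V_i = ∑_{l ≤ min(i,m)} c_{i-l} d_l` -/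
noncomputable def Vd (s : ℂ) (d : ℕ → ℂ) (m i : ℕ) : ℂ :=
  ∑ l ∈ Finset.range (min i m + 1), pq (-s) (i - l) * d l

theorem g_formula (s : ℂ) (d : ℕ → ℂ) (m : ℕ) (hd : ∀ l ≤ m, d l = d (m - l)) :
    (1 + s) * (m * ∑ l ∈ Finset.range (m + 1), d l) / 2
      = ∑ i ∈ Finset.range m, ((m - i : ℕ) : ℂ) * pq (1 + s) (m - i) * Vd s d m i := by
  have h1 : ∑ l ∈ Finset.range (m + 1), ((m - l : ℕ) : ℂ) * d l
      = m * (∑ l ∈ Finset.range (m + 1), d l) / 2 := by
    have h2 : ∑ l ∈ Finset.range (m + 1), ((m - l : ℕ) : ℂ) * d l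
        = ∑ l ∈ Finset.range (m + 1), (l : ℂ) * d l := by
      rw [← Finset.sum_range_reflect]
      apply Finset.sum_congr rfl
      intro l hl
      rw [Finset.mem_range] at hl
      have e1 : m + 1 - 1 - l = m - l := by omega
      have e2 : m - (m - l) = l := by omega
      rw [e1, e2, ← hd l (by omega)]
    have h3 : ∑ l ∈ Finset.range (m + 1), ((m - l : ℕ) : ℂ) * d l
        + ∑ l ∈ Finset.range (m + 1), (l : ℂ) * d l = m * ∑ l ∈ Finset.range (m + 1), d l := by
      rw [← Finset.sum_add_distrib, Finset.mul_sum]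
      apply Finset.sum_congr rfl
      intro l hl
      rw [Finset.mem_range] at hl
      rw [Nat.cast_sub (by omega)]
      ring
    rw [← h2] at h3
    linear_combination h3 / 2
  have h4 : (1 + s) * (m * ∑ l ∈ Finset.range (m + 1), d l) / 2
      = ∑ l ∈ Finset.range (m + 1), ∑ k ∈ Finset.range (m - l), Ac s (m - l) k * d l := by
    rw [mul_div_assoc, ← h1, Finset.mul_sum]
    apply Finset.sum_congr rfl
    intro l _
    rw [← Finset.sum_mul, conv_moment]
    ring
  rw [h4]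
  have h5 := sum_tri (fun l i => ((m - i : ℕ) : ℂ) * pq (1 + s) (m - i) * pq (-s) (i - l) * d l) m
  have h6 : ∑ l ∈ Finset.range (m + 1), ∑ k ∈ Finset.range (m - l), Ac s (m - l) k * d l
      = ∑ l ∈ Finset.range (m + 1), ∑ k ∈ Finset.range (m - l),
        ((m - (l + k) : ℕ) : ℂ) * pq (1 + s) (m - (l + k)) * pq (-s) (l + k - l) * d l := by
    apply Finset.sum_congr rfl
    intro l _
    apply Finset.sum_congr rfl
    intro k _
    unfold Ac
    have e1 : m - l - k = m - (l + k) := by omega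
    have e2 : l + k - l = k := by omega
    rw [e1, e2]
  rw [h6, h5]
  apply Finset.sum_congr rfl
  intro i hi
  rw [Finset.mem_range] at hi
  unfold Vd
  have e : min i m = i := by omega
  rw [e, Finset.mul_sum]
  apply Finset.sum_congr rfl
  intro l _
  ring

/-- the values beyond the palindrome in terms of those before -/
theorem V_formula (s : ℂ) (d : ℕ → ℂ) (m j : ℕ) (hm : 1 ≤ m) (h1s : 1 + s ≠ 0)
    (hd : ∀ l ≤ m, d l = d (m - l)) (hs : ∀ k : ℕ, ((j + k : ℕ) : ℂ) - s ≠ 0) :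
    Vd s d m (m + j) = pq (-s) (m + j) * ∑ i ∈ Finset.range m,
      ((m - i : ℕ) : ℂ) * pq (1 + s) (m - i) * Vd s d m i
        * (2 / (m * (1 + s)) + 1 / (((j + i : ℕ) : ℂ) - s)) := by
  have hm0 : (m : ℂ) ≠ 0 := by
    have : m ≠ 0 := by omega
    exact_mod_cast this
  -- reflect
  have h1 : Vd s d m (m + j) = ∑ l ∈ Finset.range (m + 1), pq (-s) (j + l) * d l := by
    unfold Vd
    have e : min (m + j) m = m := by omega
    rw [e, ← Finset.sum_range_reflect]
    apply Finset.sum_congr rfl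
    intro l hl
    rw [Finset.mem_range] at hl
    have e1 : m + 1 - 1 - l = m - l := by omega
    have e2 : m + j - (m - l) = j + l := by omega
    rw [e1, e2, ← hd l (by omega)]
  have h2 : ∀ l ∈ Finset.range (m + 1), pq (-s) (j + l) * d l = pq (-s) (m + j) * (d l
      + ∑ k ∈ Finset.range (m - l), Ac s (m - l) k * d l / (((j + (l + k) : ℕ) : ℂ) - s)) := by
    intro l hl
    rw [Finset.mem_range] at hl
    have h3 := partial_frac s (j + l) (fun k => by
      have := hs (l + k)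
      rwa [← add_assoc] at this) (m - l)
    have e1 : j + l + (m - l) = m + j := by omega
    rw [e1] at h3
    rw [h3, mul_assoc]
    congr 1
    rw [add_mul, one_mul, Finset.sum_mul]
    congr 1
    apply Finset.sum_congr rfl
    intro k _
    rw [add_assoc]
    ring
  rw [h1, Finset.sum_congr rfl h2, ← Finset.mul_sum, Finset.sum_add_distrib]
  congr 1
  have h5 := sum_tri (fun l i => ((m - i : ℕ) : ℂ) * pq (1 + s) (m - i) * pq (-s) (i - l) * d l
    / (((j + i : ℕ) : ℂ) - s)) m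
  have h6 : ∑ l ∈ Finset.range (m + 1), ∑ k ∈ Finset.range (m - l), Ac s (m - l) k * d l
        / (((j + (l + k) : ℕ) : ℂ) - s)
      = ∑ l ∈ Finset.range (m + 1), ∑ k ∈ Finset.range (m - l),
        ((m - (l + k) : ℕ) : ℂ) * pq (1 + s) (m - (l + k)) * pq (-s) (l + k - l) * d l
          / (((j + (l + k) : ℕ) : ℂ) - s) := by
    apply Finset.sum_congr rfl
    intro l _
    apply Finset.sum_congr rfl
    intro k _
    unfold Ac
    have e1 : m - l - k = m - (l + k) := by omega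
    have e2 : l + k - l = k := by omega
    rw [e1, e2]
  rw [h6, h5]
  have h7 := g_formula s d m hd
  have h8 : ∑ l ∈ Finset.range (m + 1), d l = (2 / (m * (1 + s))) *
      ∑ i ∈ Finset.range m, ((m - i : ℕ) : ℂ) * pq (1 + s) (m - i) * Vd s d m i := by
    rw [← h7]
    field_simp
  rw [h8, Finset.mul_sum, ← Finset.sum_add_distrib]
  apply Finset.sum_congr rfl
  intro i hi
  rw [Finset.mem_range] at hi
  have h9 : ∑ l ∈ Finset.range (i + 1), ((m - i : ℕ) : ℂ) * pq (1 + s) (m - i) * pq (-s) (i - l)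
      * d l / (((j + i : ℕ) : ℂ) - s)
      = ((m - i : ℕ) : ℂ) * pq (1 + s) (m - i) * Vd s d m i / (((j + i : ℕ) : ℂ) - s) := by
    unfold Vd
    have e : min i m = i := by omega
    rw [e, Finset.mul_sum, Finset.sum_div]
    apply Finset.sum_congr rfl
    intro l _
    ring
  rw [h9]
  ring

end Pool.Agent.M16.Helper22.Half
end

/- Helper94.T.Helper22.Half.Norms -/
section
/-!
Bounds for the coefficients of `(1-x)^{-1-s}` and `(1-x)^s`.
-/

set_option autoImplicit false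

namespace Pool.Agent.M16.Helper22.Half

theorem pq_pos {z : ℝ} (hz : 0 < z) (n : ℕ) : 0 < pq z n := by
  induction n with
  | zero => simp [pq]
  | succ n ih => rw [pq_succ]; positivity

theorem pq_mono_n {z : ℝ} (hz : 1 ≤ z) {a b : ℕ} (hab : a ≤ b) : pq z a ≤ pq z b := by
  induction b, hab using Nat.le_induction with
  | base => exact le_rfl
  | succ n _ ih =>
    refine ih.trans ?_
    rw [pq_succ]
    have h1 := pq_pos (by linarith only [hz] : 0 < z) n
    have h2 : 1 ≤ (z + n) / (n + 1) := by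
      rw [one_le_div (by positivity)]; linarith
    nlinarith only [h1, h2]

theorem normSq_one_add (s : ℂ) (n : ℕ) :
    ‖1 + s + n‖ ^ 2 = ((n : ℝ) + 1) ^ 2 + 2 * s.re * (n + 1) + ‖s‖ ^ 2 := by
  rw [← Complex.normSq_eq_norm_sq, ← Complex.normSq_eq_norm_sq, Complex.normSq_apply,
    Complex.normSq_apply]
  simp only [Complex.add_re, Complex.one_re, Complex.natCast_re, Complex.add_im, Complex.one_im,
    Complex.natCast_im]
  ring

theorem normSq_nat_sub (s : ℂ) (n : ℕ) :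
    ‖(n : ℂ) - s‖ ^ 2 = (n : ℝ) ^ 2 - 2 * s.re * n + ‖s‖ ^ 2 := by
  rw [← Complex.normSq_eq_norm_sq, ← Complex.normSq_eq_norm_sq, Complex.normSq_apply,
    Complex.normSq_apply]
  simp only [Complex.sub_re, Complex.natCast_re, Complex.sub_im, Complex.natCast_im]
  ring

/-- the products `∏_{k=2}^{n+1} (1 + ρ / (k (k + 2r)))` -/
noncomputable def kap (r ρ : ℝ) : ℕ → ℝ
  | 0 => 1
  | n + 1 => kap r ρ n * (1 + ρ / (((n : ℝ) + 2) * (n + 2 + 2 * r)))

theorem kap_zero (r ρ : ℝ) : kap r ρ 0 = 1 := rfl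

theorem kap_succ (r ρ : ℝ) (n : ℕ) :
    kap r ρ (n + 1) = kap r ρ n * (1 + ρ / (((n : ℝ) + 2) * (n + 2 + 2 * r))) := rfl

theorem kap_ge_one {r ρ : ℝ} (hr : -1 < r) (hρ : 0 ≤ ρ) (n : ℕ) : 1 ≤ kap r ρ n := by
  induction n with
  | zero => exact le_rfl
  | succ n ih =>
    rw [kap_succ]
    have h1 : 0 ≤ ρ / (((n : ℝ) + 2) * (n + 2 + 2 * r)) := by
      apply div_nonneg hρ
      have : (0 : ℝ) ≤ n := Nat.cast_nonneg n
      apply mul_nonneg <;> linarith only [hr]
    nlinarith only [ih, h1]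

theorem kap_mono {r ρ : ℝ} (hr : -1 < r) (hρ : 0 ≤ ρ) {a b : ℕ} (hab : a ≤ b) :
    kap r ρ a ≤ kap r ρ b := by
  induction b, hab using Nat.le_induction with
  | base => exact le_rfl
  | succ n _ ih =>
    refine ih.trans ?_
    rw [kap_succ]
    have h0 := kap_ge_one hr hρ n
    have h1 : 0 ≤ ρ / (((n : ℝ) + 2) * (n + 2 + 2 * r)) := by
      apply div_nonneg hρ
      have : (0 : ℝ) ≤ n := Nat.cast_nonneg n
      apply mul_nonneg <;> linarith only [hr]
    nlinarith only [h0, h1]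

theorem norm_Q (s : ℂ) (hr : -1 < s.re) (n : ℕ) :
    ((n : ℝ) + 1) * ‖pq (1 + s) (n + 1)‖ ^ 2
      = ‖1 + s‖ ^ 2 * kap s.re (‖s‖ ^ 2) n * pq (2 + 2 * s.re) n := by
  induction n with
  | zero => simp [pq, kap]
  | succ n ih =>
    have h1 : ‖pq (1 + s) (n + 1 + 1)‖ ^ 2 = ‖pq (1 + s) (n + 1)‖ ^ 2
        * ((((n : ℝ) + 2) ^ 2 + 2 * s.re * (n + 2) + ‖s‖ ^ 2) / ((n : ℝ) + 2) ^ 2) := by
      rw [pq_succ, norm_mul, norm_div, mul_pow, div_pow, normSq_one_add]
      have e : ‖((n + 1 : ℕ) : ℂ) + 1‖ = (n : ℝ) + 2 := by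
        have : ((n + 1 : ℕ) : ℂ) + 1 = (((n : ℝ) + 2 : ℝ) : ℂ) := by push_cast; ring
        rw [this, Complex.norm_real, Real.norm_of_nonneg (by positivity)]
      rw [e]
      push_cast
      ring
    have h2 : (0 : ℝ) < (n : ℝ) + 2 + 2 * s.re := by
      have : (0 : ℝ) ≤ n := Nat.cast_nonneg n
      linarith only [hr]
    rw [h1, kap_succ, pq_succ (2 + 2 * s.re)]
    push_cast
    have e2 : ((n : ℝ) + 1 + 1) * (‖pq (1 + s) (n + 1)‖ ^ 2
        * ((((n : ℝ) + 2) ^ 2 + 2 * s.re * (n + 2) + ‖s‖ ^ 2) / ((n : ℝ) + 2) ^ 2))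
        = (((n : ℝ) + 1) * ‖pq (1 + s) (n + 1)‖ ^ 2)
        * ((((n : ℝ) + 2) ^ 2 + 2 * s.re * (n + 2) + ‖s‖ ^ 2) / (((n : ℝ) + 2) * (n + 1))) := by
      field_simp
      ring
    rw [e2, ih]
    field_simp
    ring

theorem norm_c (s : ℂ) (hr : s.re < 1) (n : ℕ) :
    ((n : ℝ) + 2) ^ 2 * ‖pq (-s) (n + 2)‖ ^ 2 * (1 - 2 * s.re)
      = ‖s‖ ^ 2 * ((1 - 2 * s.re) + ‖s‖ ^ 2) * kap (-s.re) (‖s‖ ^ 2) n
        * pq (1 - 2 * s.re) (n + 1) := by
  induction n with
  | zero =>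
    have h1 : ‖pq (-s) (0 + 2)‖ ^ 2 = ‖s‖ ^ 2 * ((1 - 2 * s.re) + ‖s‖ ^ 2) / 4 := by
      have e : pq (-s) (0 + 2) = -s * ((((1 : ℕ) : ℂ) - s) / 2) := by
        rw [zero_add, pq_succ, pq_succ, pq_zero]
        push_cast
        ring
      rw [e, norm_mul, norm_div, mul_pow, div_pow, normSq_nat_sub, norm_neg, Complex.norm_two]
      push_cast
      ring
    rw [h1, zero_add, pq_succ, pq_zero, kap_zero]
    push_cast
    ring
  | succ n ih =>
    have h1 : ‖pq (-s) (n + 1 + 2)‖ ^ 2 = ‖pq (-s) (n + 2)‖ ^ 2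
        * ((((n : ℝ) + 2) ^ 2 - 2 * s.re * (n + 2) + ‖s‖ ^ 2) / ((n : ℝ) + 3) ^ 2) := by
      have e0 : n + 1 + 2 = (n + 2) + 1 := by ring
      rw [e0, pq_succ, norm_mul, norm_div, mul_pow, div_pow]
      have e1 : -s + ((n + 2 : ℕ) : ℂ) = ((n + 2 : ℕ) : ℂ) - s := by ring
      rw [e1, normSq_nat_sub]
      have e : ‖((n + 2 : ℕ) : ℂ) + 1‖ = (n : ℝ) + 3 := by
        have : ((n + 2 : ℕ) : ℂ) + 1 = (((n : ℝ) + 3 : ℝ) : ℂ) := by push_cast; ring
        rw [this, Complex.norm_real, Real.norm_of_nonneg (by positivity)]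
      rw [e]
      push_cast
      ring
    have h2 : (n : ℝ) + 2 - 2 * s.re ≠ 0 := by
      have : (0 : ℝ) ≤ n := Nat.cast_nonneg n
      apply ne_of_gt
      linarith only [hr]
    have h3 : (n : ℝ) + 2 + 2 * (-s.re) = (n : ℝ) + 2 - 2 * s.re := by ring
    have h4 : 1 - 2 * s.re + ((n + 1 : ℕ) : ℝ) = (n : ℝ) + 2 - 2 * s.re := by push_cast; ring
    have h5 : ((n + 1 : ℕ) : ℝ) + 1 = (n : ℝ) + 2 := by push_cast; ring
    rw [h1, kap_succ, pq_succ (1 - 2 * s.re) (n + 1), h3, h4, h5]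
    push_cast
    have e2 : ((n : ℝ) + 1 + 2) ^ 2 * (‖pq (-s) (n + 2)‖ ^ 2
        * ((((n : ℝ) + 2) ^ 2 - 2 * s.re * (n + 2) + ‖s‖ ^ 2) / ((n : ℝ) + 3) ^ 2)) * (1 - 2 * s.re)
        = (((n : ℝ) + 2) ^ 2 * ‖pq (-s) (n + 2)‖ ^ 2 * (1 - 2 * s.re))
          * ((((n : ℝ) + 2) ^ 2 - 2 * s.re * (n + 2) + ‖s‖ ^ 2) / ((n : ℝ) + 2) ^ 2) := by
      field_simp
      ring
    rw [e2, ih]
    have h6 : 1 - 2 * s.re = ((n : ℝ) + 2 - 2 * s.re) - (n + 1) := by ring
    have h7 : ((n : ℝ) + 2) ^ 2 - 2 * s.re * (n + 2) = ((n : ℝ) + 2) * ((n : ℝ) + 2 - 2 * s.re) := by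
      ring
    rw [h7]
    generalize pq (1 - 2 * s.re) (n + 1) = P
    generalize (1 - 2 * s.re + ‖s‖ ^ 2) = T
    generalize (n : ℝ) + 2 - 2 * s.re = u at h2
    field_simp

theorem kap_step {r ρ : ℝ} (hr : 4 * r ^ 2 ≤ 1) (hρ : 0 ≤ ρ) {k : ℝ} (hk : 2 ≤ k) :
    (1 + ρ / (k * (k + 2 * r))) * (1 + ρ / (k * (k + 2 * (-r))))
      ≤ Real.exp (ρ * (1 / (k - 1) - 1 / (k + 1))) := by
  have hr1 : -1 ≤ 2 * r ∧ 2 * r ≤ 1 := by
    constructor <;> nlinarith only [hr]
  have p1 : 0 < k + 2 * r := by linarith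
  have p2 : 0 < k + 2 * (-r) := by linarith
  have h1 := Real.add_one_le_exp (ρ / (k * (k + 2 * r)))
  have h2 := Real.add_one_le_exp (ρ / (k * (k + 2 * (-r))))
  have h3 : ρ / (k * (k + 2 * r)) + ρ / (k * (k + 2 * (-r))) ≤ ρ * (1 / (k - 1) - 1 / (k + 1)) := by
    have e1 : ρ / (k * (k + 2 * r)) + ρ / (k * (k + 2 * (-r)))
        = ρ * (2 / ((k + 2 * r) * (k + 2 * (-r)))) := by
      have : k ≠ 0 := by linarith only [p1, p2]
      have e0 : k + 2 * (-r) = k - 2 * r := by ring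
      rw [e0] at p2 ⊢
      have e9 : k - 2 * r ≠ 0 := p2.ne'
      have e8 : k + 2 * r ≠ 0 := p1.ne'
      field_simp
      ring
    have e2 : 1 / (k - 1) - 1 / (k + 1) = 2 / ((k - 1) * (k + 1)) := by
      have q1 : k - 1 ≠ 0 := by linarith only [hk]
      have q2 : k + 1 ≠ 0 := by linarith only [hr1, p1]
      field_simp
      ring
    rw [e1, e2]
    apply mul_le_mul_of_nonneg_left _ hρ
    apply div_le_div_of_nonneg_left (by norm_num)
    · have : 0 < k - 1 := by linarith only [hk]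
      positivity
    · nlinarith only [hr1]
  calc (1 + ρ / (k * (k + 2 * r))) * (1 + ρ / (k * (k + 2 * (-r))))
      ≤ Real.exp (ρ / (k * (k + 2 * r))) * Real.exp (ρ / (k * (k + 2 * (-r)))) := by
        apply mul_le_mul
        · linarith only [h1]
        · linarith only [h2]
        · have : 0 ≤ ρ / (k * (k + 2 * (-r))) := by positivity
          linarith
        · exact (Real.exp_pos _).le
    _ = Real.exp (ρ / (k * (k + 2 * r)) + ρ / (k * (k + 2 * (-r)))) := (Real.exp_add _ _).symm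
    _ ≤ _ := Real.exp_le_exp.mpr h3

end Pool.Agent.M16.Helper22.Half
end

/- Helper94.T.Helper22.Half.PfDef -/
section
/-!
The lower half form.
-/

set_option autoImplicit false

namespace Pool.Agent.M16.Helper22.Half

/-- the lower half form -/
noncomputable def Pf (s : ℂ) (b : ℝ) (d : ℕ → ℂ) (m : ℕ) : ℝ :=
  ∑ i ∈ Finset.range m, ((m - i : ℕ) : ℝ) * (pq (b + 1 - 2 * s.re) i)⁻¹ * ‖Vd s d m i‖ ^ 2

theorem Pf_nonneg {s : ℂ} {b : ℝ} (hσ : 0 < b + 1 - 2 * s.re) (d : ℕ → ℂ) (m : ℕ) :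
    0 ≤ Pf s b d m := by
  apply Finset.sum_nonneg
  intro i _
  have := pq_pos hσ i
  positivity

end Pool.Agent.M16.Helper22.Half
end

/- Helper94.T.Helper24.HR2.AsyA -/
section
/-!
MP_16b0ee, project HR2, module 6a, first part: asymptotics of the coefficients of `(1-x)^(-z)`.
-/

set_option autoImplicit false

open MeasureTheory Set Filter Topology
open scoped Real Nat

namespace Pool.Agent.M16.Helper24.HR2

open Pool.Agent.M16.Helper22.Half

theorem pq_prod (z : ℂ) (n : ℕ) : pq z n * (n ! : ℂ) = ∏ j ∈ Finset.range n, (z + j) := by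
  induction n with
  | zero => simp [pq]
  | succ n ih =>
    rw [Finset.prod_range_succ, ← ih, pq_succ, Nat.factorial_succ]
    have h : (n : ℂ) + 1 ≠ 0 := Nat.cast_add_one_ne_zero n
    push_cast
    field_simp

theorem pq_ofReal (b : ℝ) (n : ℕ) : pq (b : ℂ) n = ((pq b n : ℝ) : ℂ) := by
  induction n with
  | zero => simp [pq]
  | succ n ih =>
    rw [pq_succ, pq_succ, ih]
    push_cast
    ring

theorem pq_gammaSeq {z : ℂ} (hz : ∀ m : ℕ, z ≠ -m) {n : ℕ} (hn : n ≠ 0) :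
    pq z n * (n : ℂ) ^ (1 - z) = (Complex.GammaSeq z n)⁻¹ * ((n : ℂ) / (z + n)) := by
  have hn0 : (n : ℂ) ≠ 0 := Nat.cast_ne_zero.mpr hn
  have hzn : z + n ≠ 0 := fun h => hz n (eq_neg_of_add_eq_zero_left h)
  have hf : (n ! : ℂ) ≠ 0 := Nat.cast_ne_zero.mpr (Nat.factorial_ne_zero n)
  have hp : (n : ℂ) ^ z ≠ 0 := by
    rw [Complex.cpow_def_of_ne_zero hn0]
    exact Complex.exp_ne_zero _
  rw [Complex.GammaSeq, Finset.prod_range_succ, ← pq_prod, inv_div, Complex.cpow_sub _ _ hn0,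
    Complex.cpow_one]
  field_simp

theorem tendsto_pq {z : ℂ} (hz : ∀ m : ℕ, z ≠ -m) :
    Tendsto (fun n : ℕ => pq z n * (n : ℂ) ^ (1 - z)) atTop (𝓝 (Complex.Gamma z)⁻¹) := by
  have h1 : Tendsto (fun n : ℕ => (n : ℂ) / (z + n)) atTop (𝓝 1) := by
    have h2 : Tendsto (fun n : ℕ => (z / (n : ℂ) + 1)⁻¹) atTop (𝓝 (0 + 1)⁻¹) := by
      apply Tendsto.inv₀
      · apply Tendsto.add _ tendsto_const_nhds
        exact tendsto_const_div_atTop_nhds_zero_nat z
      · norm_num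
    rw [zero_add, inv_one] at h2
    apply h2.congr'
    filter_upwards [eventually_ne_atTop 0] with n hn
    have hn0 : (n : ℂ) ≠ 0 := Nat.cast_ne_zero.mpr hn
    rw [div_add_one hn0, inv_div]
  have h3 := ((Complex.GammaSeq_tendsto_Gamma z).inv₀ (Complex.Gamma_ne_zero hz)).mul h1
  rw [mul_one] at h3
  apply h3.congr'
  filter_upwards [eventually_ne_atTop 0] with n hn
  exact (pq_gammaSeq hz hn).symm

/-- the ratio of consecutive powers tends to one -/
theorem tendsto_shift_pow (p : ℝ) :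
    Tendsto (fun n : ℕ => (((n : ℝ) + 1) / n) ^ p) atTop (𝓝 1) := by
  have h1 : Tendsto (fun n : ℕ => ((n : ℝ) + 1) / n) atTop (𝓝 1) := by
    have h2 : Tendsto (fun n : ℕ => 1 + (1 : ℝ) / n) atTop (𝓝 (1 + 0)) :=
      tendsto_const_nhds.add tendsto_one_div_atTop_nhds_zero_nat
    rw [add_zero] at h2
    apply h2.congr'
    filter_upwards [eventually_ne_atTop 0] with n hn
    have hn0 : (n : ℝ) ≠ 0 := Nat.cast_ne_zero.mpr hn
    field_simp
  have h3 := h1.rpow_const (p := p) (Or.inl one_ne_zero)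
  rwa [Real.one_rpow] at h3

theorem tendsto_norm_pq {z : ℂ} (hz : ∀ m : ℕ, z ≠ -m) :
    Tendsto (fun n : ℕ => ‖pq z n‖ * ((n : ℝ) + 1) ^ (1 - z.re)) atTop
      (𝓝 ‖Complex.Gamma z‖⁻¹) := by
  have h1 := (tendsto_pq hz).norm
  rw [norm_inv] at h1
  have h2 := h1.mul (tendsto_shift_pow (1 - z.re))
  rw [mul_one] at h2
  apply h2.congr'
  filter_upwards [eventually_gt_atTop 0] with n hn
  have hn0 : (0 : ℝ) < n := by exact_mod_cast hn
  rw [norm_mul, Complex.norm_natCast_cpow_of_pos hn, Complex.sub_re, Complex.one_re,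
    Real.div_rpow (by positivity) hn0.le]
  have : (n : ℝ) ^ (1 - z.re) ≠ 0 := (Real.rpow_pos_of_pos hn0 _).ne'
  field_simp

theorem tendsto_pq_real {z : ℝ} (hz : 0 < z) :
    Tendsto (fun n : ℕ => pq z n * ((n : ℝ) + 1) ^ (1 - z)) atTop (𝓝 (Real.Gamma z)⁻¹) := by
  have hne : ∀ m : ℕ, (z : ℂ) ≠ -m := by
    intro m h
    have h1 := congrArg Complex.re h
    simp only [Complex.ofReal_re, Complex.neg_re, Complex.natCast_re] at h1
    have : (0 : ℝ) ≤ m := Nat.cast_nonneg m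
    linarith only [hz, h1]
  have h := tendsto_norm_pq hne
  rw [Complex.ofReal_re, Complex.Gamma_ofReal, Complex.norm_real, Real.norm_eq_abs,
    abs_of_pos (Real.Gamma_pos_of_pos hz)] at h
  apply h.congr
  intro n
  rw [pq_ofReal, Complex.norm_real, Real.norm_eq_abs, abs_of_pos (pq_pos hz n)]

theorem tendsto_pq_real_inv {z : ℝ} (hz : 0 < z) :
    Tendsto (fun n : ℕ => (pq z n)⁻¹ * ((n : ℝ) + 1) ^ (z - 1)) atTop (𝓝 (Real.Gamma z)) := by
  have h := (tendsto_pq_real hz).inv₀ (inv_ne_zero (Real.Gamma_pos_of_pos hz).ne')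
  rw [inv_inv] at h
  apply h.congr
  intro n
  have h1 : (0 : ℝ) < (n : ℝ) + 1 := by positivity
  rw [mul_inv, ← Real.rpow_neg h1.le, neg_sub]

/-- a bound from a limit -/
theorem le_of_tendsto_pow {u : ℕ → ℝ} {p L : ℝ}
    (h : Tendsto (fun n : ℕ => u n * ((n : ℝ) + 1) ^ p) atTop (𝓝 L)) :
    ∃ C : ℝ, 0 ≤ C ∧ ∀ n : ℕ, u n ≤ C * ((n : ℝ) + 1) ^ (-p) := by
  obtain ⟨C, hC⟩ := h.bddAbove_range
  refine ⟨max C 0, le_max_right _ _, fun n => ?_⟩
  have h1 : (0 : ℝ) < (n : ℝ) + 1 := by positivity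
  have h2 : u n * ((n : ℝ) + 1) ^ p ≤ C := hC ⟨n, rfl⟩
  have h3 : (0 : ℝ) < ((n : ℝ) + 1) ^ p := Real.rpow_pos_of_pos h1 _
  rw [Real.rpow_neg h1.le, ← div_eq_mul_inv, le_div_iff₀ h3]
  exact h2.trans (le_max_left _ _)

/-- scaled limits along a sequence of indices -/
theorem tendsto_scaled {u : ℕ → ℝ} {p L t : ℝ} (ht : 0 < t)
    (h : Tendsto (fun n : ℕ => u n * ((n : ℝ) + 1) ^ p) atTop (𝓝 L)) {k : ℕ → ℕ}
    (hk : Tendsto (fun m : ℕ => ((k m : ℝ) + 1) / m) atTop (𝓝 t)) :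
    Tendsto (fun m : ℕ => u (k m) * (m : ℝ) ^ p) atTop (𝓝 (L * t ^ (-p))) := by
  have hk1 : Tendsto k atTop atTop := by
    have h1 : Tendsto (fun m : ℕ => ((k m : ℝ) + 1) / m * m) atTop atTop :=
      hk.pos_mul_atTop ht tendsto_natCast_atTop_atTop
    have h2 : Tendsto (fun m : ℕ => (k m : ℝ) + 1) atTop atTop := by
      apply h1.congr'
      filter_upwards [eventually_ne_atTop 0] with m hm
      have hm0 : (m : ℝ) ≠ 0 := Nat.cast_ne_zero.mpr hm
      field_simp
    have h3 : Tendsto (fun m : ℕ => (k m : ℝ)) atTop atTop := by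
      have := tendsto_atTop_add_const_right atTop (-1 : ℝ) h2
      simpa using this
    exact tendsto_natCast_atTop_iff.mp h3
  have h4 := (h.comp hk1).mul (hk.rpow_const (p := -p) (Or.inl ht.ne'))
  apply h4.congr'
  filter_upwards [eventually_gt_atTop 0] with m hm
  have hm0 : (0 : ℝ) < m := by exact_mod_cast hm
  have hk0 : (0 : ℝ) < (k m : ℝ) + 1 := by positivity
  simp only [Function.comp_apply]
  rw [Real.rpow_neg (by positivity), Real.div_rpow hk0.le hm0.le, inv_div]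
  have : ((k m : ℝ) + 1) ^ p ≠ 0 := (Real.rpow_pos_of_pos hk0 _).ne'
  field_simp

theorem tendsto_of_scaled_atTop {k : ℕ → ℕ} {t : ℝ} (ht : 0 < t)
    (hk : Tendsto (fun m : ℕ => ((k m : ℝ) + 1) / m) atTop (𝓝 t)) : Tendsto k atTop atTop := by
  have h1 : Tendsto (fun m : ℕ => ((k m : ℝ) + 1) / m * m) atTop atTop :=
    hk.pos_mul_atTop ht tendsto_natCast_atTop_atTop
  have h2 : Tendsto (fun m : ℕ => (k m : ℝ) + 1) atTop atTop := by
    apply h1.congr'
    filter_upwards [eventually_ne_atTop 0] with m hm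
    have hm0 : (m : ℝ) ≠ 0 := Nat.cast_ne_zero.mpr hm
    field_simp
  have h3 : Tendsto (fun m : ℕ => (k m : ℝ)) atTop atTop := by
    have := tendsto_atTop_add_const_right atTop (-1 : ℝ) h2
    simpa using this
  exact tendsto_natCast_atTop_iff.mp h3

end Pool.Agent.M16.Helper24.HR2
end

/- Helper94.T.Helper22.Half.CloseA -/
section
/-!
Finite double sums.
-/

set_option autoImplicit false

namespace Pool.Agent.M16.Helper22.Half

/-- interchange of the finite sums -/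
theorem double_fin {S : ℕ → ℕ → ℝ} {lam : ℕ → ℝ} {κ : ℝ}
    (hlam : ∀ i, 0 ≤ lam i)
    (h : ∀ i M : ℕ, ∑ m ∈ Finset.range M, ((m - i : ℕ) : ℝ) * S m i
      ≤ κ * ∑ m ∈ Finset.range i, ((i - m : ℕ) : ℝ) * S m i) (I : ℕ) :
    ∑ m ∈ Finset.range I, ∑ i ∈ Finset.range I, ((m - i : ℕ) : ℝ) * lam i * S m i
      ≤ κ * ∑ m ∈ Finset.range I, ∑ i ∈ Finset.range I, ((i - m : ℕ) : ℝ) * lam i * S m i := by
  rw [Finset.sum_comm, Finset.sum_comm (f := fun m i => ((i - m : ℕ) : ℝ) * lam i * S m i),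
    Finset.mul_sum]
  apply Finset.sum_le_sum
  intro i hi
  rw [Finset.mem_range] at hi
  have h1 := mul_le_mul_of_nonneg_left (h i I) (hlam i)
  have e1 : ∑ m ∈ Finset.range I, ((m - i : ℕ) : ℝ) * lam i * S m i
      = lam i * ∑ m ∈ Finset.range I, ((m - i : ℕ) : ℝ) * S m i := by
    rw [Finset.mul_sum]
    apply Finset.sum_congr rfl
    intro m _; ring
  have e2 : ∑ m ∈ Finset.range I, ((i - m : ℕ) : ℝ) * lam i * S m i
      = lam i * ∑ m ∈ Finset.range i, ((i - m : ℕ) : ℝ) * S m i := by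
    have hsub : Finset.range i ⊆ Finset.range I := by
      intro m hm
      rw [Finset.mem_range] at hm ⊢
      omega
    rw [← Finset.sum_subset hsub, Finset.mul_sum]
    · apply Finset.sum_congr rfl
      intro m _; ring
    · intro m _ hm
      rw [Finset.mem_range, not_lt] at hm
      have : i - m = 0 := by omega
      rw [this]; simp
  rw [e1, e2]
  calc lam i * ∑ m ∈ Finset.range I, ((m - i : ℕ) : ℝ) * S m i
      ≤ lam i * (κ * ∑ m ∈ Finset.range i, ((i - m : ℕ) : ℝ) * S m i) := h1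
    _ = _ := by ring

/-- the upper part written with an explicit index -/
theorem upper_eq (a : ℕ → ℝ) (m I : ℕ) :
    ∑ i ∈ Finset.range I, ((i - m : ℕ) : ℝ) * a i
      = ∑ j ∈ Finset.range (I - (m + 1)), ((j : ℝ) + 1) * a (m + 1 + j) := by
  rcases le_or_gt I (m + 1) with h | h
  · have e : I - (m + 1) = 0 := by omega
    rw [e, Finset.sum_range_zero]
    apply Finset.sum_eq_zero
    intro i hi
    rw [Finset.mem_range] at hi
    have : i - m = 0 := by omega
    rw [this]; simp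
  · obtain ⟨J, rfl⟩ : ∃ J, I = m + 1 + J := ⟨I - (m + 1), by omega⟩
    have e : m + 1 + J - (m + 1) = J := by omega
    rw [e, Finset.sum_range_add]
    have h0 : ∑ i ∈ Finset.range (m + 1), ((i - m : ℕ) : ℝ) * a i = 0 := by
      apply Finset.sum_eq_zero
      intro i hi
      rw [Finset.mem_range] at hi
      have : i - m = 0 := by omega
      rw [this]; simp
    rw [h0, zero_add]
    apply Finset.sum_congr rfl
    intro j _
    have : m + 1 + j - m = j + 1 := by omega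
    rw [this]
    push_cast
    ring

theorem lower_eq {s : ℂ} {b : ℝ} (d : ℕ → ℂ) {m I : ℕ} (hm : m < I) :
    ∑ i ∈ Finset.range I, ((m - i : ℕ) : ℝ) * (pq (b + 1 - 2 * s.re) i)⁻¹ * ‖Vd s d m i‖ ^ 2
      = Pf s b d m := by
  unfold Pf
  have hsub : Finset.range m ⊆ Finset.range I := by
    intro i hi
    rw [Finset.mem_range] at hi ⊢
    omega
  rw [← Finset.sum_subset hsub]
  intro i _ hi
  rw [Finset.mem_range, not_lt] at hi
  have : m - i = 0 := by omega
  rw [this]; simp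

end Pool.Agent.M16.Helper22.Half
end

/- Helper94.T.Helper22.Half.Sums -/
section
/-!
The weighted double sums.
-/

set_option autoImplicit false

namespace Pool.Agent.M16.Helper22.Half

/-! ### telescoping sums -/

theorem tele1 {e : ℕ → ℝ} {z : ℝ} (hz : 0 < z)
    (he : ∀ n : ℕ, 1 ≤ n → e (n + 1) * (n + z + 1) = n * e n) {m : ℕ} (hm : 1 ≤ m) (J : ℕ) :
    ∑ j ∈ Finset.range J, e (m + 1 + j)
      = (m * e m - ((m + J : ℕ) : ℝ) * e (m + J)) / z := by
  induction J with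
  | zero => simp
  | succ J ih =>
    rw [Finset.sum_range_succ, ih]
    have h := he (m + J) (by omega)
    have e1 : m + 1 + J = m + J + 1 := by ring
    have e2 : m + (J + 1) = m + J + 1 := by ring
    rw [e1, e2]
    push_cast at h ⊢
    field_simp
    linear_combination h

theorem tele2 {e : ℕ → ℝ} {z : ℝ} (hz : 1 < z)
    (he : ∀ n : ℕ, 1 ≤ n → e (n + 1) * (n + z + 1) = n * e n) {m : ℕ} (hm : 1 ≤ m) (J : ℕ) :
    ∑ j ∈ Finset.range J, ((j : ℝ) + 1) * e (m + 1 + j)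
      = (m * (m + z) * e m - ((m + J : ℕ) : ℝ) * (((m + J : ℕ) : ℝ) + z) * e (m + J)) / (z * (z - 1))
        - J * (((m + J : ℕ) : ℝ) * e (m + J)) / z := by
  have hz1 : z - 1 ≠ 0 := by linarith only [hz]
  have hz0 : z ≠ 0 := by linarith only [hz]
  induction J with
  | zero => simp
  | succ J ih =>
    rw [Finset.sum_range_succ, ih]
    have h := he (m + J) (by omega)
    have e1 : m + 1 + J = m + J + 1 := by ring
    have e2 : m + (J + 1) = m + J + 1 := by ring
    rw [e1, e2]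
    generalize e (m + J + 1) = E at h ⊢
    push_cast at h ⊢
    have h2 : ((m : ℝ) + J) * e (m + J) = E * ((m : ℝ) + J + z + 1) := h.symm
    field_simp
    linear_combination ((m : ℝ) + J + z + J * (z - 1)) * h

theorem tele1_le {e : ℕ → ℝ} {z : ℝ} (hz : 0 < z) (he0 : ∀ n, 0 ≤ e n)
    (he : ∀ n : ℕ, 1 ≤ n → e (n + 1) * (n + z + 1) = n * e n) {m : ℕ} (hm : 1 ≤ m) (J : ℕ) :
    ∑ j ∈ Finset.range J, e (m + 1 + j) ≤ m * e m / z := by
  rw [tele1 hz he hm]
  have := he0 (m + J)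
  gcongr
  have : 0 ≤ ((m + J : ℕ) : ℝ) * e (m + J) := by positivity
  linarith only [this]

theorem tele2_le {e : ℕ → ℝ} {z : ℝ} (hz : 1 < z) (he0 : ∀ n, 0 ≤ e n)
    (he : ∀ n : ℕ, 1 ≤ n → e (n + 1) * (n + z + 1) = n * e n) {m : ℕ} (hm : 1 ≤ m) (J : ℕ) :
    ∑ j ∈ Finset.range J, ((j : ℝ) + 1) * e (m + 1 + j) ≤ m * (m + z) * e m / (z * (z - 1)) := by
  rw [tele2 hz he hm]
  have h0 := he0 (m + J)
  have hz1 : 0 < z - 1 := by linarith only [hz]
  have hz0 : 0 < z := by linarith only [hz1]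
  have h1 : 0 ≤ (J : ℝ) * (((m + J : ℕ) : ℝ) * e (m + J)) / z := by positivity
  have h2 : (m * (m + z) * e m - ((m + J : ℕ) : ℝ) * (((m + J : ℕ) : ℝ) + z) * e (m + J)) / (z * (z - 1))
      ≤ m * (m + z) * e m / (z * (z - 1)) := by
    gcongr
    have : 0 ≤ ((m + J : ℕ) : ℝ) * (((m + J : ℕ) : ℝ) + z) * e (m + J) := by positivity
    linarith only [this]
  linarith

/-! ### the weights -/

/-- `1 / pq (b+3) (n-1)` -/
noncomputable def De (b : ℝ) (n : ℕ) : ℝ := (pq (b + 3) (n - 1))⁻¹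

theorem De_pos {b : ℝ} (hb : 0 < b) (n : ℕ) : 0 < De b n :=
  inv_pos.mpr (pq_pos (by linarith) _)

theorem De_succ {b : ℝ} (hb : 0 < b) {n : ℕ} (hn : 1 ≤ n) :
    De b (n + 1) * (n + (b + 1) + 1) = n * De b n := by
  obtain ⟨k, rfl⟩ : ∃ k, n = k + 1 := ⟨n - 1, by omega⟩
  unfold De
  rw [Nat.add_sub_cancel, Nat.add_sub_cancel, pq_succ]
  have h := (pq_pos (by linarith only [hb] : 0 < b + 3) k).ne'
  have h2 : b + 3 + (k : ℝ) ≠ 0 := by positivity
  have h3 : (k : ℝ) + 1 ≠ 0 := by positivity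
  push_cast
  rw [mul_inv, inv_div]
  have : (k : ℝ) + 1 + (b + 1) + 1 = b + 3 + k := by ring
  rw [this]
  field_simp

/-- `De / (n + b + 2)` -/
noncomputable def De1 (b : ℝ) (n : ℕ) : ℝ := De b n / (n + b + 2)

theorem De1_pos {b : ℝ} (hb : 0 < b) (n : ℕ) : 0 < De1 b n := by
  have := De_pos hb n
  unfold De1; positivity

theorem De1_succ {b : ℝ} (hb : 0 < b) {n : ℕ} (hn : 1 ≤ n) :
    De1 b (n + 1) * (n + (b + 2) + 1) = n * De1 b n := by
  have h := De_succ hb hn
  unfold De1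
  have h1 : (n : ℝ) + b + 2 ≠ 0 := by positivity
  have h2 : ((n + 1 : ℕ) : ℝ) + b + 2 ≠ 0 := by positivity
  have e : De b (n + 1) = n * De b n / (n + b + 2) := by
    rw [eq_div_iff h1, ← h]; ring
  rw [e]
  push_cast at h2 ⊢
  field_simp
  ring

theorem De_anti {b : ℝ} (hb : 0 < b) {a c : ℕ} (ha : 1 ≤ a) (hac : a ≤ c) : De b c ≤ De b a := by
  induction c, hac using Nat.le_induction with
  | base => exact le_rfl
  | succ n hn ih =>
    refine le_trans ?_ ih
    have h := De_succ hb (ha.trans hn)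
    have h1 := De_pos hb (n + 1)
    have hn1 : (1 : ℝ) ≤ n := by exact_mod_cast ha.trans hn
    have h2 : (n : ℝ) * De b (n + 1) ≤ n * De b n := by
      rw [← h]; nlinarith only [hb, h1]
    exact le_of_mul_le_mul_left h2 (by linarith)

/-- the weights `W_i` -/
noncomputable def Wt (b r : ℝ) (m i : ℕ) : ℝ := pq (2 + 2 * r) (m - 1 - i) * pq (b + 1 - 2 * r) i

section
variable {b r : ℝ}

theorem Wt_pos (hr : -1 < r) (hσ : 0 < b + 1 - 2 * r) (m i : ℕ) : 0 < Wt b r m i :=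
  mul_pos (pq_pos (by linarith) _) (pq_pos hσ _)

theorem sum_shift (z w : ℝ) {m : ℕ} (hm : 1 ≤ m) :
    ∑ i ∈ Finset.range m, pq z (m - 1 - i) * pq w i = pq (z + w) (m - 1) := by
  obtain ⟨k, rfl⟩ : ∃ k, m = k + 1 := ⟨m - 1, by omega⟩
  rw [Nat.add_sub_cancel, add_comm z w, ← vander w z k]
  apply Finset.sum_congr rfl
  intro i _
  ring

theorem sum_Wt {m : ℕ} (hm : 1 ≤ m) : ∑ i ∈ Finset.range m, Wt b r m i = pq (b + 3) (m - 1) := by
  unfold Wt
  rw [sum_shift _ _ hm]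
  congr 1; ring

end

end Pool.Agent.M16.Helper22.Half
end

/- Helper94.T.Helper39.HR.FunId -/
section
/-!
MP_16b0ee, project HR: three functionals on the antidiagonal of a palindromic sequence.
-/

set_option autoImplicit false

namespace Pool.Agent.M16.Helper39.HR

open Pool.Agent.M16.Helper22.Half

/-- the functional attached to a sequence `f` -/
noncomputable def Fn (s : ℂ) (d : ℕ → ℂ) (m : ℕ) (f : ℕ → ℂ) : ℂ :=
  ∑ i ∈ Finset.range m, pq (2 + s) (m - 1 - i) * f i * Vd s d m i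

theorem Fn_swap (s : ℂ) (d : ℕ → ℂ) (m : ℕ) (f : ℕ → ℂ) :
    Fn s d m f = ∑ l ∈ Finset.range (m + 1), (∑ k ∈ Finset.range (m - l),
      pq (2 + s) (m - 1 - (l + k)) * f (l + k) * pq (-s) k) * d l := by
  have h := sum_tri (fun l i => pq (2 + s) (m - 1 - i) * f i * pq (-s) (i - l) * d l) m
  unfold Fn
  have e1 : ∀ i ∈ Finset.range m, pq (2 + s) (m - 1 - i) * f i * Vd s d m i
      = ∑ l ∈ Finset.range (i + 1), pq (2 + s) (m - 1 - i) * f i * pq (-s) (i - l) * d l := by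
    intro i hi
    rw [Finset.mem_range] at hi
    unfold Vd
    have e : min i m = i := by omega
    rw [e, Finset.mul_sum]
    apply Finset.sum_congr rfl
    intro l _
    ring
  rw [Finset.sum_congr rfl e1, ← h]
  apply Finset.sum_congr rfl
  intro l _
  rw [Finset.sum_mul]
  apply Finset.sum_congr rfl
  intro k _
  have e2 : l + k - l = k := by omega
  rw [e2]

theorem Fn_add (s : ℂ) (d : ℕ → ℂ) (m : ℕ) (f g : ℕ → ℂ) :
    Fn s d m (fun i => f i + g i) = Fn s d m f + Fn s d m g := by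
  unfold Fn
  rw [← Finset.sum_add_distrib]
  apply Finset.sum_congr rfl
  intro i _
  ring

theorem Fn_smul (s : ℂ) (d : ℕ → ℂ) (m : ℕ) (c : ℂ) (f : ℕ → ℂ) :
    Fn s d m (fun i => c * f i) = c * Fn s d m f := by
  unfold Fn
  rw [Finset.mul_sum]
  apply Finset.sum_congr rfl
  intro i _
  ring

theorem Fn_congr {s : ℂ} {d : ℕ → ℂ} {m : ℕ} {f g : ℕ → ℂ} (h : ∀ i < m, f i = g i) :
    Fn s d m f = Fn s d m g := by
  unfold Fn
  apply Finset.sum_congr rfl
  intro i hi
  rw [Finset.mem_range] at hi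
  rw [h i hi]

theorem inner_sum (z w t : ℂ) (hz : z + w = t) (M : ℕ) :
    ∑ k ∈ Finset.range M, pq z (M - 1 - k) * pq w k = if M = 0 then 0 else pq t (M - 1) := by
  cases M with
  | zero => simp
  | succ M =>
    rw [if_neg (Nat.succ_ne_zero M), Nat.add_sub_cancel, ← hz, add_comm z w, ← vander w z M]
    apply Finset.sum_congr rfl
    intro k _
    ring

theorem inner2 (s : ℂ) (M : ℕ) :
    ∑ k ∈ Finset.range M, pq (2 + s) (M - 1 - k) * pq (-s) k = M := by
  rw [inner_sum (2 + s) (-s) 2 (by ring)]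
  cases M with
  | zero => simp
  | succ M =>
    rw [if_neg (Nat.succ_ne_zero M), Nat.add_sub_cancel, pq_two]
    push_cast
    ring

/-- the moments of a palindromic sequence -/
noncomputable def Sk (d : ℕ → ℂ) (m k : ℕ) : ℂ := ∑ l ∈ Finset.range (m + 1), (l : ℂ) ^ k * d l

theorem Sk_reflect (d : ℕ → ℂ) (m k : ℕ) (hd : ∀ l ≤ m, d l = d (m - l)) :
    ∑ l ∈ Finset.range (m + 1), ((m - l : ℕ) : ℂ) ^ k * d l = Sk d m k := by
  unfold Sk
  rw [← Finset.sum_range_reflect]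
  apply Finset.sum_congr rfl
  intro l hl
  rw [Finset.mem_range] at hl
  have e1 : m + 1 - 1 - l = m - l := by omega
  have e2 : m - (m - l) = l := by omega
  rw [e1, e2, ← hd l (by omega)]

theorem Sk_one (d : ℕ → ℂ) (m : ℕ) (hd : ∀ l ≤ m, d l = d (m - l)) :
    Sk d m 1 = m * Sk d m 0 / 2 := by
  have h := Sk_reflect d m 1 hd
  have h2 : ∑ l ∈ Finset.range (m + 1), ((m - l : ℕ) : ℂ) ^ 1 * d l = m * Sk d m 0 - Sk d m 1 := by
    unfold Sk
    rw [Finset.mul_sum, ← Finset.sum_sub_distrib]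
    apply Finset.sum_congr rfl
    intro l hl
    rw [Finset.mem_range] at hl
    rw [Nat.cast_sub (by omega)]
    ring
  rw [h2] at h
  linear_combination -h / 2

theorem Fn_one (s : ℂ) (d : ℕ → ℂ) (m : ℕ) (hd : ∀ l ≤ m, d l = d (m - l)) :
    Fn s d m (fun _ => 1) = m * Sk d m 0 / 2 := by
  rw [← Sk_one d m hd, ← Sk_reflect d m 1 hd, Fn_swap]
  apply Finset.sum_congr rfl
  intro l hl
  rw [Finset.mem_range] at hl
  rw [pow_one, ← inner2 s (m - l)]
  congr 1
  apply Finset.sum_congr rfl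
  intro k hk
  rw [Finset.mem_range] at hk
  have e : m - 1 - (l + k) = m - l - 1 - k := by omega
  rw [e]
  ring

end Pool.Agent.M16.Helper39.HR
end

/- Helper94.T.Helper39.HR.NSums -/
section
/-!
MP_16b0ee, project HR: the sums of the upper form.
-/

set_option autoImplicit false

open scoped ComplexConjugate

namespace Pool.Agent.M16.Helper39.HR

open Pool.Agent.M16.Helper22.Half

section
variable {b : ℝ}

theorem sumA (hb : 0 < b) {m : ℕ} (hm : 1 ≤ m) (J : ℕ) :
    ∑ j ∈ Finset.range J, ((j : ℝ) + 1) * De b (m + 1 + j)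
      ≤ m * (m + (b + 1)) * De b m / ((b + 1) * b) := by
  have h2 := tele2_le (e := De b) (z := b + 1) (by linarith only [hb]) (fun n => (De_pos hb n).le)
    (fun n hn => De_succ hb hn) hm J
  have e : b + 1 - 1 = b := by ring
  rw [e] at h2
  exact h2

theorem sumB (hb : 0 < b) {m : ℕ} (hm : 1 ≤ m) (J : ℕ) :
    ∑ j ∈ Finset.range J, De b (m + 1 + j) ≤ m * De b m / (b + 1) :=
  tele1_le (e := De b) (z := b + 1) (by linarith only [hb]) (fun n => (De_pos hb n).le)
    (fun n hn => De_succ hb hn) hm J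

theorem De_div_le (hb : 0 < b) {m : ℕ} (hm : 1 ≤ m) (j : ℕ) :
    De b (m + 1 + j) / ((m : ℝ) + j) ≤ (1 + (b + 3) / m) * De1 b (m + 1 + j) := by
  have hm0 : (0 : ℝ) < m := by exact_mod_cast (by omega : 0 < m)
  have hj : (0 : ℝ) ≤ j := Nat.cast_nonneg j
  unfold De1
  have hD := De_pos hb (m + 1 + j)
  generalize De b (m + 1 + j) = D at *
  push_cast
  have h1 : (m : ℝ) + 1 + j + b + 2 ≤ (1 + (b + 3) / m) * (m + j) := by
    have h2 : (1 + (b + 3) / (m : ℝ)) * (m + j) = m + j + (b + 3) + (b + 3) / m * j := by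
      field_simp
      ring
    have h3 : 0 ≤ (b + 3) / (m : ℝ) * j := by positivity
    linarith only [h2, h3]
  rw [mul_div_assoc', div_le_div_iff₀ (by positivity) (by positivity)]
  calc D * ((m : ℝ) + 1 + j + b + 2) ≤ D * ((1 + (b + 3) / m) * (m + j)) := by gcongr
    _ = _ := by ring

theorem sumC (hb : 0 < b) {m : ℕ} (hm : 1 ≤ m) (J : ℕ) :
    ∑ j ∈ Finset.range J, De b (m + 1 + j) / ((m : ℝ) + j)
      ≤ (1 + (b + 3) / m) * (De b m / (b + 2)) := by
  have hm0 : (0 : ℝ) < m := by exact_mod_cast (by omega : 0 < m)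
  have h2 := tele1_le (e := De1 b) (z := b + 2) (by linarith only [hb]) (fun n => (De1_pos hb n).le)
    (fun n hn => De1_succ hb hn) hm J
  have h3 : (m : ℝ) * De1 b m / (b + 2) ≤ De b m / (b + 2) := by
    unfold De1
    have hD := De_pos hb m
    apply div_le_div_of_nonneg_right _ (by linarith only [hb])
    rw [mul_div_assoc', div_le_iff₀ (by positivity)]
    nlinarith only [hb, hD]
  calc ∑ j ∈ Finset.range J, De b (m + 1 + j) / ((m : ℝ) + j)
      ≤ ∑ j ∈ Finset.range J, (1 + (b + 3) / m) * De1 b (m + 1 + j) :=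
        Finset.sum_le_sum (fun j _ => De_div_le hb hm j)
    _ = (1 + (b + 3) / m) * ∑ j ∈ Finset.range J, De1 b (m + 1 + j) := by rw [Finset.mul_sum]
    _ ≤ _ := by
      apply mul_le_mul_of_nonneg_left (h2.trans h3)
      positivity

theorem sumD (hb : 0 < b) {m : ℕ} (hm : 1 ≤ m) (J : ℕ) :
    ∑ j ∈ Finset.range J, ((j : ℝ) + 1) * De b (m + 1 + j) / ((m : ℝ) + j)
      ≤ (1 + (b + 3) / m) * (m * De b m / ((b + 2) * (b + 1))) := by
  have hm0 : (0 : ℝ) < m := by exact_mod_cast (by omega : 0 < m)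
  have h2 := tele2_le (e := De1 b) (z := b + 2) (by linarith only [hb]) (fun n => (De1_pos hb n).le)
    (fun n hn => De1_succ hb hn) hm J
  have h3 : (m : ℝ) * (m + (b + 2)) * De1 b m / ((b + 2) * (b + 2 - 1))
      = m * De b m / ((b + 2) * (b + 1)) := by
    unfold De1
    have e : b + 2 - 1 = b + 1 := by ring
    rw [e]
    have h4 : (m : ℝ) + b + 2 ≠ 0 := by positivity
    field_simp
    ring
  rw [h3] at h2
  calc ∑ j ∈ Finset.range J, ((j : ℝ) + 1) * De b (m + 1 + j) / ((m : ℝ) + j)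
      ≤ ∑ j ∈ Finset.range J, (1 + (b + 3) / m) * (((j : ℝ) + 1) * De1 b (m + 1 + j)) := by
        apply Finset.sum_le_sum
        intro j _
        have h := De_div_le hb hm j
        have hj : (0 : ℝ) ≤ (j : ℝ) + 1 := by positivity
        calc ((j : ℝ) + 1) * De b (m + 1 + j) / ((m : ℝ) + j)
            = ((j : ℝ) + 1) * (De b (m + 1 + j) / ((m : ℝ) + j)) := by ring
          _ ≤ ((j : ℝ) + 1) * ((1 + (b + 3) / m) * De1 b (m + 1 + j)) := by gcongr
          _ = _ := by ring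
    _ = (1 + (b + 3) / m) * ∑ j ∈ Finset.range J, ((j : ℝ) + 1) * De1 b (m + 1 + j) := by
        rw [Finset.mul_sum]
    _ ≤ _ := by
      apply mul_le_mul_of_nonneg_left h2
      positivity

theorem sumE (hb : 0 < b) {m : ℕ} (hm : 1 ≤ m) (J : ℕ) {L : ℕ} (hL : 1 ≤ L) :
    ∑ j ∈ Finset.range J, De b (m + 1 + j) / ((j : ℝ) + 1)
      ≤ (1 / L + L / m) * (m * De b m) := by
  have hm0 : (0 : ℝ) < m := by exact_mod_cast (by omega : 0 < m)
  have hL0 : (0 : ℝ) < L := by exact_mod_cast (by omega : 0 < L)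
  have hD := De_pos hb m
  have h1 : ∀ j ∈ Finset.range J, De b (m + 1 + j) / ((j : ℝ) + 1)
      ≤ De b (m + 1 + j) / L + (if j < L then De b m else 0) := by
    intro j _
    have hDj := De_pos hb (m + 1 + j)
    by_cases hj : j < L
    · rw [if_pos hj]
      have h2 : De b (m + 1 + j) / ((j : ℝ) + 1) ≤ De b m := by
        rw [div_le_iff₀ (by positivity)]
        have h3 := De_anti hb hm (by omega : m ≤ m + 1 + j)
        have : (0 : ℝ) ≤ j := Nat.cast_nonneg j
        nlinarith only [hDj, h3]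
      have : 0 ≤ De b (m + 1 + j) / L := by positivity
      linarith only [h2, this]
    · rw [if_neg hj, add_zero]
      have hj2 : (L : ℝ) ≤ (j : ℝ) + 1 := by
        have : L ≤ j + 1 := by omega
        exact_mod_cast this
      exact div_le_div_of_nonneg_left hDj.le hL0 hj2
  refine (Finset.sum_le_sum h1).trans ?_
  rw [Finset.sum_add_distrib, ← Finset.sum_div]
  have h2 := sumB hb hm J
  have h3 : ∑ j ∈ Finset.range J, (if j < L then De b m else 0) ≤ L * De b m := by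
    rw [← Finset.sum_filter, Finset.sum_const, nsmul_eq_mul]
    have hcard : ((Finset.range J).filter (fun j => j < L)).card ≤ L := by
      have hsub : (Finset.range J).filter (fun j => j < L) ⊆ Finset.range L := by
        intro j hj
        rw [Finset.mem_filter] at hj
        exact Finset.mem_range.mpr hj.2
      have := Finset.card_le_card hsub
      rwa [Finset.card_range] at this
    have : (((Finset.range J).filter (fun j => j < L)).card : ℝ) ≤ L := by exact_mod_cast hcard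
    gcongr
  have h4 : (m : ℝ) * De b m / (b + 1) ≤ m * De b m := by
    rw [div_le_iff₀ (by linarith only [hb])]
    have : 0 ≤ (m : ℝ) * De b m := by positivity
    nlinarith only [hb, this]
  have h5 : (∑ j ∈ Finset.range J, De b (m + 1 + j)) / L ≤ m * De b m / L := by
    apply div_le_div_of_nonneg_right (h2.trans h4) hL0.le
  calc (∑ j ∈ Finset.range J, De b (m + 1 + j)) / L
        + ∑ j ∈ Finset.range J, (if j < L then De b m else 0)
      ≤ m * De b m / L + L * De b m := add_le_add h5 h3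
    _ = _ := by
      field_simp

end

/-- the kernel of the functional -/
noncomputable def kf (s : ℂ) (j i : ℕ) : ℂ := 1 / (((j + 1 + i : ℕ) : ℂ) - s)

theorem V_upper {s : ℂ} (hs : ‖s‖ < 1 / 2) {d : ℕ → ℂ} {m : ℕ} (hm : 1 ≤ m)
    (hd : ∀ l ≤ m, d l = d (m - l)) (j : ℕ) :
    Vd s d m (m + 1 + j) = pq (-s) (m + 1 + j) * (Sk d m 0 + (1 + s) * Fn s d m (kf s j)) := by
  have h1s : (1 + s) ≠ 0 := by
    intro h
    have h2 : s = -1 := by linear_combination h
    rw [h2] at hs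
    simp at hs
    norm_num at hs
  have hmc : (m : ℂ) ≠ 0 := by
    have : m ≠ 0 := by omega
    exact_mod_cast this
  have hV := V_formula s d m (j + 1) hm h1s hd (fun k => by
    intro h
    have h2 : s = ((j + 1 + k : ℕ) : ℂ) := by linear_combination -h
    rw [h2, Complex.norm_natCast] at hs
    push_cast at hs
    have : (0 : ℝ) ≤ j := Nat.cast_nonneg j
    have : (0 : ℝ) ≤ k := Nat.cast_nonneg k
    linarith)
  have e : m + (j + 1) = m + 1 + j := by ring
  rw [e] at hV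
  rw [hV]
  congr 1
  have h3 : Sk d m 0 = (2 / m) * Fn s d m (fun _ => 1) := by
    rw [Fn_one s d m hd]
    field_simp
  rw [h3]
  unfold Fn kf
  rw [Finset.mul_sum, Finset.mul_sum, ← Finset.sum_add_distrib]
  apply Finset.sum_congr rfl
  intro i hi
  rw [Finset.mem_range] at hi
  have h := pq_shift (1 + s) (m - 1 - i)
  have e : m - 1 - i + 1 = m - i := by omega
  have e2 : ((m - 1 - i : ℕ) : ℂ) + 1 = ((m - i : ℕ) : ℂ) := by
    rw [← e]
    push_cast
    ring
  have e3 : (1 + s + 1 : ℂ) = 2 + s := by ring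
  rw [e2, e, e3] at h
  rw [h]
  field_simp

theorem kf_den {s : ℂ} (hs : ‖s‖ < 1 / 2) (p : ℕ) : (p : ℝ) - 1 / 2 ≤ ‖(p : ℂ) - s‖ := by
  have h4 := norm_sub_norm_le (p : ℂ) s
  rw [Complex.norm_natCast] at h4
  linarith only [hs, h4]

/-- the kernel is close to a real one -/
theorem kf_real {s : ℂ} (hs : ‖s‖ < 1 / 2) (j i : ℕ) :
    ‖kf s j i - ((1 / ((j : ℝ) + 1 + i) : ℝ) : ℂ)‖ ≤ 1 / ((j : ℝ) + 1) ^ 2 := by
  obtain ⟨p, hp⟩ : ∃ p : ℕ, p = j + 1 + i := ⟨_, rfl⟩
  have hp1 : 1 ≤ p := by omega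
  have hpr : (j : ℝ) + 1 + i = p := by rw [hp]; push_cast; ring
  have hp0 : (0 : ℝ) < p := by exact_mod_cast hp1
  have hp1' : (1 : ℝ) ≤ p := by exact_mod_cast hp1
  unfold kf
  rw [← hp, hpr]
  have hden := kf_den hs p
  have hpos : 0 < ‖(p : ℂ) - s‖ := by linarith only [hp1', hden]
  have hne : (p : ℂ) - s ≠ 0 := norm_pos_iff.mp hpos
  have hpc : (p : ℂ) ≠ 0 := by exact_mod_cast hp0.ne'
  have e : 1 / ((p : ℂ) - s) - ((1 / (p : ℝ) : ℝ) : ℂ) = s / ((p : ℂ) * ((p : ℂ) - s)) := by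
    push_cast
    field_simp
    ring
  rw [e, norm_div, norm_mul, Complex.norm_natCast]
  have h1 : ‖s‖ / ((p : ℝ) * ‖(p : ℂ) - s‖) ≤ 1 / (p : ℝ) ^ 2 := by
    rw [div_le_div_iff₀ (by positivity) (by positivity)]
    have h2 : ‖s‖ * p ≤ ‖(p : ℂ) - s‖ := by nlinarith only [hs, hp1', hden]
    nlinarith only [h2]
  refine h1.trans ?_
  apply one_div_le_one_div_of_le (by positivity)
  apply pow_le_pow_left₀ (by positivity)
  rw [← hpr]
  have : (0 : ℝ) ≤ i := Nat.cast_nonneg i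
  linarith only []

theorem kf_sq {s : ℂ} (hs : ‖s‖ < 1 / 2) (j i : ℕ) :
    ‖kf s j i‖ ^ 2 ≤ 1 / (((j : ℝ) + 1 + i) * ((j : ℝ) + 2 + i))
      + 24 / (((j : ℝ) + 1 + i) * ((j : ℝ) + 2 + i) * ((j : ℝ) + 3 + i)) := by
  obtain ⟨p, hp⟩ : ∃ p : ℕ, p = j + 1 + i := ⟨_, rfl⟩
  have hp1 : 1 ≤ p := by omega
  have hpr : (j : ℝ) + 1 + i = p := by rw [hp]; push_cast; ring
  have hpr2 : (j : ℝ) + 2 + i = p + 1 := by rw [← hpr]; ring
  have hpr3 : (j : ℝ) + 3 + i = p + 2 := by rw [← hpr]; ring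
  have hp0 : (0 : ℝ) < p := by exact_mod_cast hp1
  have hp1' : (1 : ℝ) ≤ p := by exact_mod_cast hp1
  unfold kf
  rw [← hp, hpr, hpr2, hpr3]
  have hden := kf_den hs p
  have hpos : 0 < (p : ℝ) - 1 / 2 := by linarith only [hp1']
  have hTlow : ((p : ℝ) - 1 / 2) ^ 2 ≤ ‖(p : ℂ) - s‖ ^ 2 :=
    pow_le_pow_left₀ hpos.le hden 2
  rw [norm_div, norm_one, div_pow, one_pow]
  generalize ‖(p : ℂ) - s‖ ^ 2 = T at *
  have hTpos : 0 < T := lt_of_lt_of_le (by positivity) hTlow
  have e6 : 1 / ((p : ℝ) * (p + 1)) + 24 / (p * (p + 1) * (p + 2))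
      = ((p : ℝ) + 26) / (p * (p + 1) * (p + 2)) := by
    field_simp
    ring
  rw [e6, div_le_div_iff₀ hTpos (by positivity)]
  have h10 : (p : ℝ) * (p + 1) * (p + 2) ≤ (p + 26) * ((p : ℝ) - 1 / 2) ^ 2 := by
    nlinarith only [hp1']
  have h11 : ((p : ℝ) + 26) * ((p : ℝ) - 1 / 2) ^ 2 ≤ (p + 26) * T :=
    mul_le_mul_of_nonneg_left hTlow (by linarith only [])
  linarith only [h10, h11]

end Pool.Agent.M16.Helper39.HR
end
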