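import Mathlib
import Pool.Agent.Helper60.M16.G04

/- Helper94.T.Helper12.HR2.Kron -/
section
/-!
MP_16b0ee, project HR2: Hermitian polynomials in finitely many variables and their conjugates,
with Gaussian integer coefficients, and the Kronecker substitution: such a polynomial of bounded
weight with small coefficients vanishes if it vanishes at a suitable point with integer
coordinates.
-/

set_option autoImplicit false

open scoped ComplexConjugate

namespace Pool.Agent.M16.Helper12.HR2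

/-- a monomial: the indices of the variables and the indices of the conjugate variables -/
abbrev Mo := List ℕ × List ℕ

/-- Gaussian integers -/
abbrev GZ := ℤ × ℤ

/-- the complex number of a Gaussian integer -/
noncomputable def gv (z : GZ) : ℂ := (z.1 : ℂ) + (z.2 : ℂ) * Complex.I

/-- product -/
def gmul (z w : GZ) : GZ := (z.1 * w.1 - z.2 * w.2, z.1 * w.2 + z.2 * w.1)

/-- conjugate -/
def gconj (z : GZ) : GZ := (z.1, -z.2)

theorem gv_mul (z w : GZ) : gv (gmul z w) = gv z * gv w := by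
  simp only [gv, gmul]
  push_cast
  linear_combination (-(z.2 : ℂ) * (w.2 : ℂ)) * Complex.I_mul_I

theorem gv_conj (z : GZ) : gv (gconj z) = conj (gv z) := by
  simp only [gv, gconj, map_add, map_mul, Complex.conj_I, map_intCast]
  push_cast
  ring

theorem gv_re (z : GZ) : (gv z).re = z.1 := by simp [gv]

theorem gv_im (z : GZ) : (gv z).im = z.2 := by simp [gv]

/-- polynomials -/
abbrev Pol := List (Mo × GZ)

/-- the value of a monomial -/
noncomputable def mv (φ ψ : ℕ → ℂ) (m : Mo) : ℂ := (m.1.map φ).prod * (m.2.map ψ).prod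

/-- the value of a polynomial -/
noncomputable def pv (φ ψ : ℕ → ℂ) (P : Pol) : ℂ := (P.map (fun x => gv x.2 * mv φ ψ x.1)).sum

/-- product of a monomial term and a polynomial -/
def tmul (x : Mo × GZ) (Q : Pol) : Pol :=
  Q.map (fun y => ((x.1.1 ++ y.1.1, x.1.2 ++ y.1.2), gmul x.2 y.2))

/-- product -/
def pmul (P Q : Pol) : Pol := P.flatMap (fun x => tmul x Q)

/-- conjugate -/
def pconj (P : Pol) : Pol := P.map (fun x => ((x.1.2, x.1.1), gconj x.2))

/-- the weight -/
def wl (A : List ℕ) : ℕ := (A.map (fun k => k + 1)).sum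

section Values

variable (φ ψ : ℕ → ℂ)

theorem mv_mul (m m' : Mo) : mv φ ψ (m.1 ++ m'.1, m.2 ++ m'.2) = mv φ ψ m * mv φ ψ m' := by
  simp only [mv, List.map_append, List.prod_append]
  ring

theorem pv_nil : pv φ ψ [] = 0 := rfl

theorem pv_cons (x : Mo × GZ) (P : Pol) : pv φ ψ (x :: P) = gv x.2 * mv φ ψ x.1 + pv φ ψ P := by
  simp [pv]

theorem pv_append (P Q : Pol) : pv φ ψ (P ++ Q) = pv φ ψ P + pv φ ψ Q := by
  simp [pv]

theorem pv_tmul (x : Mo × GZ) (Q : Pol) :
    pv φ ψ (tmul x Q) = gv x.2 * mv φ ψ x.1 * pv φ ψ Q := by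
  induction Q with
  | nil => simp [tmul, pv_nil]
  | cons y Q ih =>
    change pv φ ψ (((x.1.1 ++ y.1.1, x.1.2 ++ y.1.2), gmul x.2 y.2) :: tmul x Q) = _
    rw [pv_cons, pv_cons, ih, mv_mul, gv_mul]
    ring

theorem pv_mul (P Q : Pol) : pv φ ψ (pmul P Q) = pv φ ψ P * pv φ ψ Q := by
  induction P with
  | nil => simp [pmul, pv_nil]
  | cons x P ih =>
    change pv φ ψ (tmul x Q ++ pmul P Q) = _
    rw [pv_append, pv_cons, ih, pv_tmul]
    ring

theorem prod_conj (l : List ℕ) (f : ℕ → ℂ) :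
    (l.map (fun k => conj (f k))).prod = conj ((l.map f).prod) := by
  induction l with
  | nil => simp
  | cons a l ih => simp [ih]

theorem pv_conj (P : Pol) :
    pv φ ψ (pconj P) = conj (pv (fun k => conj (ψ k)) (fun k => conj (φ k)) P) := by
  induction P with
  | nil => simp [pconj, pv_nil]
  | cons x P ih =>
    change pv φ ψ (((x.1.2, x.1.1), gconj x.2) :: pconj P) = _
    rw [pv_cons, pv_cons, ih, map_add, map_mul, gv_conj]
    congr 2
    simp only [mv, map_mul, prod_conj, Complex.conj_conj]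
    ring

end Values

/-! ## Vanishing -/

theorem vanish_aux (B : ℤ) (M : ℕ) : ∀ (l : List (ℕ × ℤ)) (V : ℕ → ℂ),
    (∀ x ∈ l, x.1 < M) → ((l.map (fun x => |x.2|)).sum < B) →
    (l.map (fun x => x.2 * B ^ x.1)).sum = 0 → (l.map (fun x => (x.2 : ℂ) * V x.1)).sum = 0 := by
  induction M with
  | zero =>
    intro l V h _ _
    have : l = [] := by
      rcases l with _ | ⟨x, l⟩
      · rfl
      · exact absurd (h x (by simp)) (by omega)
    rw [this]
    simp
  | succ M ih =>
    intro l V hl hn h0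
    have hB : 0 < B := lt_of_le_of_lt (List.sum_nonneg (by
      intro y hy
      rw [List.mem_map] at hy
      obtain ⟨x, _, rfl⟩ := hy
      exact abs_nonneg _)) hn
    -- the part with exponent zero
    set l0 := l.filter (fun x => x.1 = 0) with hl0
    set l1 := (l.filter (fun x => ¬ x.1 = 0)).map (fun x => (x.1 - 1, x.2)) with hl1
    have key : ∀ (l : List (ℕ × ℤ)) (f : ℕ × ℤ → ℂ) (g : ℕ × ℤ → ℂ),
        (∀ x ∈ l, x.1 = 0 → f x = g x) → (∀ x ∈ l, x.1 ≠ 0 → f x = g x) →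
        (l.map f).sum = ((l.filter (fun x => x.1 = 0)).map g).sum
          + ((l.filter (fun x => ¬ x.1 = 0)).map g).sum := by
      intro l f g h1 h2
      induction l with
      | nil => simp
      | cons x l ih =>
        have ih' := ih (fun y hy => h1 y (by simp [hy])) (fun y hy => h2 y (by simp [hy]))
        by_cases hx : x.1 = 0
        · have := h1 x (by simp) hx
          simp only [List.map_cons, List.sum_cons, hx, List.filter_cons, decide_true, if_true,
            not_true, decide_false, Bool.false_eq_true, if_false, ih', this]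
          ring
        · have := h2 x (by simp) hx
          simp only [List.map_cons, List.sum_cons, hx, List.filter_cons, decide_false,
            Bool.false_eq_true, if_false, not_false_iff, decide_true, if_true, ih', this]
          ring
    have keyZ : ∀ (l : List (ℕ × ℤ)) (f : ℕ × ℤ → ℤ),
        (l.map f).sum = ((l.filter (fun x => x.1 = 0)).map f).sum
          + ((l.filter (fun x => ¬ x.1 = 0)).map f).sum := by
      intro l f
      induction l with
      | nil => simp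
      | cons x l ih =>
        by_cases hx : x.1 = 0
        · simp only [List.map_cons, List.sum_cons, hx, List.filter_cons, decide_true, if_true,
            not_true, decide_false, Bool.false_eq_true, if_false, ih]
          ring
        · simp only [List.map_cons, List.sum_cons, hx, List.filter_cons, decide_false,
            Bool.false_eq_true, if_false, not_false_iff, decide_true, if_true, ih]
          ring
    have habs := keyZ l (fun x => |x.2|)
    have hpow := keyZ l (fun x => x.2 * B ^ x.1)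
    -- the exponent zero part of the power sum
    have e0 : (l0.map (fun x => x.2 * B ^ x.1)).sum = (l0.map (fun x => x.2)).sum := by
      congr 1
      apply List.map_congr_left
      intro x hx
      have : x.1 = 0 := by simpa using (List.mem_filter.1 hx).2
      simp [this]
    have e1 : ((l.filter (fun x => ¬ x.1 = 0)).map (fun x => x.2 * B ^ x.1)).sum
        = B * (l1.map (fun x => x.2 * B ^ x.1)).sum := by
      rw [hl1, List.map_map, ← List.sum_map_mul_left]
      congr 1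
      apply List.map_congr_left
      intro x hx
      have hx0 : x.1 ≠ 0 := by simpa using (List.mem_filter.1 hx).2
      simp only [Function.comp]
      obtain ⟨k, hk⟩ := Nat.exists_eq_succ_of_ne_zero hx0
      rw [hk]
      simp only [Nat.succ_sub_one, pow_succ]
      ring
    have hs0 : (l0.map (fun x => x.2)).sum = 0 := by
      have hdvd : B ∣ (l0.map (fun x => x.2)).sum := by
        rw [h0] at hpow
        rw [← hl0, e0, e1] at hpow
        exact ⟨-(l1.map (fun x => x.2 * B ^ x.1)).sum, by linarith only [hpow]⟩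
      have hle : |(l0.map (fun x => x.2)).sum| < B := by
        have h1 : |(l0.map (fun x => x.2)).sum| ≤ (l0.map (fun x => |x.2|)).sum := by
          clear_value l0
          clear hl0 e0 hdvd
          induction l0 with
          | nil => simp
          | cons x l0 ih =>
            simp only [List.map_cons, List.sum_cons]
            exact (abs_add_le _ _).trans (by linarith only [ih])
        have h2 : 0 ≤ ((l.filter (fun x => ¬ x.1 = 0)).map (fun x => |x.2|)).sum :=
          List.sum_nonneg (by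
            intro y hy
            rw [List.mem_map] at hy
            obtain ⟨x, _, rfl⟩ := hy
            exact abs_nonneg _)
        linarith only [hn, habs, h1, h2]
      exact Int.eq_zero_of_abs_lt_dvd hdvd hle
    have hl1s : (l1.map (fun x => x.2 * B ^ x.1)).sum = 0 := by
      rw [h0] at hpow
      rw [← hl0, e0, e1, hs0] at hpow
      have : B * (l1.map (fun x => x.2 * B ^ x.1)).sum = 0 := by linarith only [hpow]
      exact (mul_eq_zero.1 this).resolve_left hB.ne'
    have hl1n : (l1.map (fun x => |x.2|)).sum < B := by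
      have h1 : (l1.map (fun x => |x.2|)).sum
          = ((l.filter (fun x => ¬ x.1 = 0)).map (fun x => |x.2|)).sum := by
        rw [hl1, List.map_map]
        rfl
      have h2 : 0 ≤ (l0.map (fun x => |x.2|)).sum := List.sum_nonneg (by
        intro y hy
        rw [List.mem_map] at hy
        obtain ⟨x, _, rfl⟩ := hy
        exact abs_nonneg _)
      rw [h1]
      linarith
    have hl1b : ∀ x ∈ l1, x.1 < M := by
      intro x hx
      rw [hl1, List.mem_map] at hx
      obtain ⟨y, hy, rfl⟩ := hx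
      have h1 := hl y (List.mem_filter.1 hy).1
      have h2 : y.1 ≠ 0 := by simpa using (List.mem_filter.1 hy).2
      simp only
      omega
    have hfin := ih l1 (fun N => V (N + 1)) hl1b hl1n hl1s
    have hk := key l (fun x => (x.2 : ℂ) * V x.1) (fun x => (x.2 : ℂ) * V x.1)
      (fun _ _ _ => rfl) (fun _ _ _ => rfl)
    rw [hk]
    have f0 : ((l.filter (fun x => x.1 = 0)).map (fun x => (x.2 : ℂ) * V x.1)).sum = 0 := by
      have : ((l.filter (fun x => x.1 = 0)).map (fun x => (x.2 : ℂ) * V x.1)).sum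
          = (((l0.map (fun x => x.2)).sum : ℤ) : ℂ) * V 0 := by
        rw [← hl0]
        clear_value l0
        have hall : ∀ x ∈ l0, x.1 = 0 := by
          intro x hx
          rw [hl0] at hx
          simpa using (List.mem_filter.1 hx).2
        clear hl0 hs0 e0
        induction l0 with
        | nil => simp
        | cons x l0 ih =>
          simp only [List.map_cons, List.sum_cons]
          rw [ih (fun y hy => hall y (by simp [hy])), hall x (by simp)]
          push_cast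
          ring
      rw [this, hs0]
      simp
    have f1 : ((l.filter (fun x => ¬ x.1 = 0)).map (fun x => (x.2 : ℂ) * V x.1)).sum = 0 := by
      rw [← hfin, hl1, List.map_map]
      congr 1
      apply List.map_congr_left
      intro x hx
      have hx0 : x.1 ≠ 0 := by simpa using (List.mem_filter.1 hx).2
      simp only [Function.comp]
      rw [Nat.sub_add_cancel (Nat.one_le_iff_ne_zero.2 hx0)]
    rw [f0, f1, add_zero]

/-- small coefficients: the vanishing of the number gives the vanishing of all linear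
functionals -/
theorem vanish (B : ℤ) (l : List (ℕ × ℤ)) (V : ℕ → ℂ) (hn : (l.map (fun x => |x.2|)).sum < B)
    (h0 : (l.map (fun x => x.2 * B ^ x.1)).sum = 0) :
    (l.map (fun x => (x.2 : ℂ) * V x.1)).sum = 0 := by
  refine vanish_aux B (((l.map (fun x => x.1)).sum) + 1) l V ?_ hn h0
  intro x hx
  have : x.1 ≤ (l.map (fun x => x.1)).sum :=
    List.single_le_sum (by simp) _ (List.mem_map.2 ⟨x, hx, rfl⟩)
  omega

/-! ## Injectivity of a code -/

theorem prod_count {M : Type*} [CommMonoid M] (n : ℕ) (A : List ℕ) (hA : ∀ i ∈ A, i < n)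
    (f : ℕ → M) : (A.map f).prod = ∏ k ∈ Finset.range n, f k ^ A.count k := by
  rw [Finset.prod_list_map_count]
  apply Finset.prod_subset
  · intro i hi
    exact Finset.mem_range.2 (hA i (List.mem_toFinset.1 hi))
  · intro i _ hi
    have : A.count i = 0 := List.count_eq_zero.2 (fun h => hi (List.mem_toFinset.2 h))
    rw [this, pow_zero]

theorem sum_count (n : ℕ) (A : List ℕ) (hA : ∀ i ∈ A, i < n)
    (f : ℕ → ℕ) : (A.map f).sum = ∑ k ∈ Finset.range n, A.count k * f k := by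
  rw [Finset.sum_list_map_count]
  simp only [smul_eq_mul]
  apply Finset.sum_subset
  · intro i hi
    exact Finset.mem_range.2 (hA i (List.mem_toFinset.1 hi))
  · intro i _ hi
    have : A.count i = 0 := List.count_eq_zero.2 (fun h => hi (List.mem_toFinset.2 h))
    rw [this, zero_mul]

end Pool.Agent.M16.Helper12.HR2
end

/- Helper94.T.Helper12.HR2.Sound -/
section
/-!
MP_16b0ee, project HR2: soundness of the kernel check of a certificate.
-/

set_option autoImplicit false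

open scoped ComplexConjugate

namespace Pool.Agent.M16.Helper12.HR2

/-! ## The kernel functions and the polynomials -/

/-- unpacking -/
def upl (w h : ℕ) : List Mo → ℕ → ℕ → Pol
  | [], _, _ => []
  | (m :: ms), x, y =>
    (m, (((x % w : ℕ) : ℤ) - h, ((y % w : ℕ) : ℤ) - h)) :: upl w h ms (x / w) (y / w)

/-! ## The derivative -/

/-- derivative of a variable -/
noncomputable def dvl (c : ℕ → ℂ) (n : ℕ) : ℂ :=
  if n = 0 then 3 * c 1 - c 0 ^ 2
  else ((n : ℂ) + 3) * c (n + 1) + ∑ i ∈ Finset.range (n - 1), c (i + 1) * c (n - 1 - i)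

/-- derivative of a monomial -/
noncomputable def Dvl (c : ℕ → ℂ) : List ℕ → ℂ
  | [] => 0
  | a :: A => dvl c a * (A.map c).prod + c a * Dvl c A

/-! ## The blocks -/

/-- the relation polynomials of the decoded multipliers -/
noncomputable def rel (s b : ℂ) (c : ℕ → ℂ) (P : Pol) : ℂ :=
  (P.map (fun t => gv t.2 * (((-2 * s * c 0 * (t.1.1.map c).prod + Dvl c t.1.1)
    - (b + wl t.1.1 + wl t.1.2) * (t.1.1.map c).prod) * conj ((t.1.2.map c).prod)))).sum

theorem rel_nil (s b : ℂ) (c : ℕ → ℂ) : rel s b c [] = 0 := rfl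

theorem rel_cons (s b : ℂ) (c : ℕ → ℂ) (t : Mo × GZ) (P : Pol) :
    rel s b c (t :: P) = gv t.2 * (((-2 * s * c 0 * (t.1.1.map c).prod + Dvl c t.1.1)
    - (b + wl t.1.1 + wl t.1.2) * (t.1.1.map c).prod) * conj ((t.1.2.map c).prod))
      + rel s b c P := by
  simp [rel]

theorem rel_append (s b : ℂ) (c : ℕ → ℂ) (P Q : Pol) :
    rel s b c (P ++ Q) = rel s b c P + rel s b c Q := by
  simp [rel]

/-! ## The groups -/

/-! ## The identity -/

/-- the product of a basis monomial and a conjugate basis monomial -/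
def prd (p : Mo × Mo) : Mo := (p.1.1 ++ p.2.2, p.1.2 ++ p.2.1)

/-! ## Norms -/

/-! ## Validity -/

/-! ## The check -/

/-! ## The inequality -/

theorem mv_prd (c : ℕ → ℂ) (p : Mo × Mo) : mv c (fun k => conj (c k)) (prd p)
    = mv c (fun k => conj (c k)) p.1 * conj (mv c (fun k => conj (c k)) p.2) := by
  simp only [mv, prd, List.map_append, List.prod_append, map_mul, prod_conj, Complex.conj_conj]
  ring

end Pool.Agent.M16.Helper12.HR2
end

/- Helper94.T.Helper54.HR2.Gram6 -/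
section
/-!
MP_16b0ee, project HR2: the Gram matrix of the rows in the second kernel computation.
-/

set_option autoImplicit false

open scoped ComplexConjugate

namespace Pool.Agent.M16.Helper54.HR2

open Pool.Agent.M16.Helper12.HR2 (Par Mo GZ gv Pol mv pv wl rel Dvl dvl upl prd)

/-! ## Digits -/

theorem ons_eq (B n : ℕ) : ons B n = ∑ i ∈ Finset.range n, B ^ i := by
  induction n with
  | zero => rfl
  | succ n ih =>
    have h : ons B (n + 1) = 1 + B * ons B n := rfl
    rw [h, ih, Finset.sum_range_succ', Finset.mul_sum, pow_zero, add_comm]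
    congr 1
    exact Finset.sum_congr rfl (fun i _ => by rw [pow_succ, mul_comm])

theorem spr_eq (B w n x : ℕ) : spr B w n x = ∑ i ∈ Finset.range n, x / w ^ i % w * B ^ i := by
  induction n generalizing x with
  | zero => rfl
  | succ n ih =>
    have h : spr B w (n + 1) x = x % w + B * spr B w n (x / w) := rfl
    rw [h, ih, Finset.sum_range_succ', Finset.mul_sum, pow_zero, pow_zero, mul_one, Nat.div_one,
      add_comm]
    congr 1
    refine Finset.sum_congr rfl (fun i _ => ?_)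
    rw [pow_succ' w, Nat.div_div_eq_div_mul]
    ring

/-- the digits of a sum -/
theorem dig_base (B n : ℕ) : ∀ (f : ℕ → ℕ) (_ : ∀ i < n, f i < B) (i : ℕ), i < n →
    (∑ j ∈ Finset.range n, f j * B ^ j) / B ^ i % B = f i := by
  induction n with
  | zero => intro f _ i hi; omega
  | succ n ih =>
    intro f hf i hi
    have h1 : ∑ j ∈ Finset.range (n + 1), f j * B ^ j
        = f 0 + B * ∑ j ∈ Finset.range n, f (j + 1) * B ^ j := by
      rw [Finset.sum_range_succ', Finset.mul_sum, pow_zero, mul_one, add_comm]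
      congr 1
      exact Finset.sum_congr rfl (fun j _ => by ring)
    rw [h1]
    have h0 := hf 0 (by omega)
    rcases i with _ | i
    · rw [pow_zero, Nat.div_one, Nat.add_mul_mod_self_left, Nat.mod_eq_of_lt h0]
    · rw [pow_succ', ← Nat.div_div_eq_div_mul, Nat.add_mul_div_left _ _ (by omega),
        Nat.div_eq_of_lt h0, zero_add]
      exact ih (fun k => f (k + 1)) (fun k hk => hf (k + 1) (by omega)) i (by omega)

/-- a digit minus the offset -/
def dgo (w h x i : ℕ) : ℤ := ((x / w ^ i % w : ℕ) : ℤ) - h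

/-- the Gram matrix, real part -/
def Gre (w h : ℕ) : List (ℕ × ℕ × ℕ) → ℕ → ℕ → ℤ
  | [], _, _ => 0
  | (r :: U), i, k => (dgo w h r.2.1 i * dgo w h r.2.1 k + dgo w h r.2.2 i * dgo w h r.2.2 k) +
      (if 0 < i ∧ 0 < k then Gre w h U (i - 1) (k - 1) else 0)

/-- the Gram matrix, imaginary part -/
def Gim (w h : ℕ) : List (ℕ × ℕ × ℕ) → ℕ → ℕ → ℤ
  | [], _, _ => 0
  | (r :: U), i, k => (dgo w h r.2.2 i * dgo w h r.2.1 k - dgo w h r.2.1 i * dgo w h r.2.2 k) +
      (if 0 < i ∧ 0 < k then Gim w h U (i - 1) (k - 1) else 0)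

theorem head_re (B w h n x y k : ℕ) (hw0 : 0 < w) (hw : w ≤ 2 * h + 1) :
    (((x / w ^ k % w) * spr B w n x + (y / w ^ k % w) * spr B w n y
      + (4 * h - (x / w ^ k % w + y / w ^ k % w)) * (h * ons B n) : ℕ) : ℤ)
      - ((h * (spr B w n x + spr B w n y) + 2 * h * (h * ons B n) : ℕ) : ℤ)
    = ∑ i ∈ Finset.range n, (dgo w h x i * dgo w h x k + dgo w h y i * dgo w h y k) * (B : ℤ) ^ i := by
  have hx : x / w ^ k % w < w := Nat.mod_lt _ hw0
  have hy : y / w ^ k % w < w := Nat.mod_lt _ hw0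
  have h1 : ∀ i, (dgo w h x i * dgo w h x k + dgo w h y i * dgo w h y k) * (B : ℤ) ^ i
      = ((x / w ^ k % w : ℕ) : ℤ) * (((x / w ^ i % w : ℕ) : ℤ) * (B : ℤ) ^ i)
        + ((y / w ^ k % w : ℕ) : ℤ) * (((y / w ^ i % w : ℕ) : ℤ) * (B : ℤ) ^ i)
        + (2 * (h : ℤ) * h - h * ((x / w ^ k % w : ℕ) : ℤ) - h * ((y / w ^ k % w : ℕ) : ℤ))
          * (B : ℤ) ^ i
        - h * (((x / w ^ i % w : ℕ) : ℤ) * (B : ℤ) ^ i)
        - h * (((y / w ^ i % w : ℕ) : ℤ) * (B : ℤ) ^ i) := by
    intro i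
    unfold dgo
    ring
  simp only [h1, Finset.sum_add_distrib, Finset.sum_sub_distrib, ← Finset.mul_sum]
  rw [spr_eq, spr_eq, ons_eq]
  have h2 : x / w ^ k % w + y / w ^ k % w ≤ 4 * h := by omega
  push_cast [Nat.cast_sub h2]
  ring

theorem head_im (B w h n x y k : ℕ) (hw0 : 0 < w) (hw : w ≤ 2 * h + 1) :
    (((x / w ^ k % w) * spr B w n y + (2 * h - y / w ^ k % w) * spr B w n x
      + (2 * h + y / w ^ k % w - x / w ^ k % w) * (h * ons B n) : ℕ) : ℤ)
      - ((h * (spr B w n x + spr B w n y) + 2 * h * (h * ons B n) : ℕ) : ℤ)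
    = ∑ i ∈ Finset.range n, (dgo w h y i * dgo w h x k - dgo w h x i * dgo w h y k) * (B : ℤ) ^ i := by
  have hx : x / w ^ k % w < w := Nat.mod_lt _ hw0
  have hy : y / w ^ k % w < w := Nat.mod_lt _ hw0
  have h1 : ∀ i, (dgo w h y i * dgo w h x k - dgo w h x i * dgo w h y k) * (B : ℤ) ^ i
      = ((x / w ^ k % w : ℕ) : ℤ) * (((y / w ^ i % w : ℕ) : ℤ) * (B : ℤ) ^ i)
        - ((y / w ^ k % w : ℕ) : ℤ) * (((x / w ^ i % w : ℕ) : ℤ) * (B : ℤ) ^ i)
        + ((h : ℤ) * ((y / w ^ k % w : ℕ) : ℤ) - h * ((x / w ^ k % w : ℕ) : ℤ))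
          * (B : ℤ) ^ i
        + h * (((x / w ^ i % w : ℕ) : ℤ) * (B : ℤ) ^ i)
        - h * (((y / w ^ i % w : ℕ) : ℤ) * (B : ℤ) ^ i) := by
    intro i
    unfold dgo
    ring
  simp only [h1, Finset.sum_add_distrib, Finset.sum_sub_distrib, ← Finset.mul_sum]
  rw [spr_eq, spr_eq, ons_eq]
  have h2 : y / w ^ k % w ≤ 2 * h := by omega
  have h3 : x / w ^ k % w ≤ 2 * h + y / w ^ k % w := by omega
  push_cast [Nat.cast_sub h2, Nat.cast_sub h3]
  ring

theorem uok_cons {r : ℕ × ℕ × ℕ} {U : List (ℕ × ℕ × ℕ)} {n : ℕ} (h : uok (r :: U) n = true) :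
    ∃ m, n = m + 1 ∧ r.1 = m + 1 ∧ uok U m = true := by
  have h' : (Nat.beq r.1 n && (Nat.ble 1 n && uok U (n - 1))) = true := h
  simp only [Bool.and_eq_true] at h'
  have h1 := Nat.eq_of_beq_eq_true h'.1
  have h2 : 1 ≤ n := Nat.le_of_ble_eq_true h'.2.1
  refine ⟨n - 1, by omega, by omega, h'.2.2⟩

theorem uok_nil {n : ℕ} (h : uok [] n = true) : n = 0 := Nat.eq_of_beq_eq_true h

theorem uok_len {U : List (ℕ × ℕ × ℕ)} {n : ℕ} (h : uok U n = true) : U.length = n := by
  induction U generalizing n with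
  | nil => rw [uok_nil h]; rfl
  | cons r U ih =>
    obtain ⟨m, rfl, -, h1⟩ := uok_cons h
    rw [List.length_cons, ih h1]

theorem cast_split (X Y c' q' : ℕ) :
    ((X + c' : ℕ) : ℤ) - ((Y + q' : ℕ) : ℤ) = ((X : ℤ) - Y) + ((c' : ℤ) - q') := by
  push_cast
  ring

theorem cr_cq (B w h : ℕ) (hw0 : 0 < w) (hw : w ≤ 2 * h + 1) (U : List (ℕ × ℕ × ℕ)) :
    ∀ (n k : ℕ), uok U n = true → k < n →
    ((cr B w h U k : ℕ) : ℤ) - (cq B w h U k : ℕ)
      = ∑ i ∈ Finset.range n, Gre w h U i k * (B : ℤ) ^ i := by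
  induction U with
  | nil =>
    intro n k hn hk
    rw [uok_nil hn] at hk
    omega
  | cons r U ih =>
    intro n k hn hk
    obtain ⟨m, rfl, hr, hU⟩ := uok_cons hn
    have h0 := head_re B w h r.1 r.2.1 r.2.2 k hw0 hw
    rcases k with _ | k
    · have e1 : cr B w h (r :: U) 0 = ((r.2.1 / w ^ 0 % w) * spr B w r.1 r.2.1
        + (r.2.2 / w ^ 0 % w) * spr B w r.1 r.2.2
        + (4 * h - (r.2.1 / w ^ 0 % w + r.2.2 / w ^ 0 % w)) * (h * ons B r.1)) + 0 := rfl
      have e2 : cq B w h (r :: U) 0 = (h * (spr B w r.1 r.2.1 + spr B w r.1 r.2.2)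
        + 2 * h * (h * ons B r.1)) + 0 := rfl
      rw [e1, e2, add_zero, add_zero, h0, hr]
      apply Finset.sum_congr rfl
      intro i _
      rw [Gre, if_neg (by omega), add_zero]
    · have e1 : cr B w h (r :: U) (k + 1) = ((r.2.1 / w ^ (k + 1) % w) * spr B w r.1 r.2.1
        + (r.2.2 / w ^ (k + 1) % w) * spr B w r.1 r.2.2
        + (4 * h - (r.2.1 / w ^ (k + 1) % w + r.2.2 / w ^ (k + 1) % w)) * (h * ons B r.1))
          + B * cr B w h U k := rfl
      have e2 : cq B w h (r :: U) (k + 1) = (h * (spr B w r.1 r.2.1 + spr B w r.1 r.2.2)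
        + 2 * h * (h * ons B r.1)) + B * cq B w h U k := rfl
      have h1 := ih m k hU (by omega)
      rw [e1, e2, cast_split, h0, hr]
      have h2 : ((B * cr B w h U k : ℕ) : ℤ) - ((B * cq B w h U k : ℕ) : ℤ)
          = ∑ i ∈ Finset.range (m + 1),
            (if 0 < i ∧ 0 < k + 1 then Gre w h U (i - 1) (k + 1 - 1) else 0) * (B : ℤ) ^ i := by
        rw [Finset.sum_range_succ', if_neg (by omega), zero_mul, add_zero, Nat.cast_mul,
          Nat.cast_mul, ← mul_sub, h1, Finset.mul_sum]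
        apply Finset.sum_congr rfl
        intro i _
        rw [if_pos (by omega), Nat.add_sub_cancel, Nat.add_sub_cancel, pow_succ]
        ring
      rw [h2, ← Finset.sum_add_distrib]
      apply Finset.sum_congr rfl
      intro i _
      rw [Gre]
      ring

theorem ci_cq (B w h : ℕ) (hw0 : 0 < w) (hw : w ≤ 2 * h + 1) (U : List (ℕ × ℕ × ℕ)) :
    ∀ (n k : ℕ), uok U n = true → k < n →
    ((ci B w h U k : ℕ) : ℤ) - (cq B w h U k : ℕ)
      = ∑ i ∈ Finset.range n, Gim w h U i k * (B : ℤ) ^ i := by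
  induction U with
  | nil =>
    intro n k hn hk
    rw [uok_nil hn] at hk
    omega
  | cons r U ih =>
    intro n k hn hk
    obtain ⟨m, rfl, hr, hU⟩ := uok_cons hn
    have h0 := head_im B w h r.1 r.2.1 r.2.2 k hw0 hw
    rcases k with _ | k
    · have e1 : ci B w h (r :: U) 0 = ((r.2.1 / w ^ 0 % w) * spr B w r.1 r.2.2
        + (2 * h - r.2.2 / w ^ 0 % w) * spr B w r.1 r.2.1
        + (2 * h + r.2.2 / w ^ 0 % w - r.2.1 / w ^ 0 % w) * (h * ons B r.1)) + 0 := rfl
      have e2 : cq B w h (r :: U) 0 = (h * (spr B w r.1 r.2.1 + spr B w r.1 r.2.2)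
        + 2 * h * (h * ons B r.1)) + 0 := rfl
      rw [e1, e2, add_zero, add_zero, h0, hr]
      apply Finset.sum_congr rfl
      intro i _
      rw [Gim, if_neg (by omega), add_zero]
    · have e1 : ci B w h (r :: U) (k + 1) = ((r.2.1 / w ^ (k + 1) % w) * spr B w r.1 r.2.2
        + (2 * h - r.2.2 / w ^ (k + 1) % w) * spr B w r.1 r.2.1
        + (2 * h + r.2.2 / w ^ (k + 1) % w - r.2.1 / w ^ (k + 1) % w) * (h * ons B r.1))
          + B * ci B w h U k := rfl
      have e2 : cq B w h (r :: U) (k + 1) = (h * (spr B w r.1 r.2.1 + spr B w r.1 r.2.2)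
        + 2 * h * (h * ons B r.1)) + B * cq B w h U k := rfl
      have h1 := ih m k hU (by omega)
      rw [e1, e2, cast_split, h0, hr]
      have h2 : ((B * ci B w h U k : ℕ) : ℤ) - ((B * cq B w h U k : ℕ) : ℤ)
          = ∑ i ∈ Finset.range (m + 1),
            (if 0 < i ∧ 0 < k + 1 then Gim w h U (i - 1) (k + 1 - 1) else 0) * (B : ℤ) ^ i := by
        rw [Finset.sum_range_succ', if_neg (by omega), zero_mul, add_zero, Nat.cast_mul,
          Nat.cast_mul, ← mul_sub, h1, Finset.mul_sum]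
        apply Finset.sum_congr rfl
        intro i _
        rw [if_pos (by omega), Nat.add_sub_cancel, Nat.add_sub_cancel, pow_succ]
        ring
      rw [h2, ← Finset.sum_add_distrib]
      apply Finset.sum_congr rfl
      intro i _
      rw [Gim]
      ring

theorem dgo_abs (w h x i : ℕ) (hw : h < w) : |dgo w h x i| ≤ (w : ℤ) - 1 := by
  have h1 : x / w ^ i % w < w := Nat.mod_lt _ (by omega)
  unfold dgo
  rw [abs_le]
  constructor <;> omega

theorem mul_abs_le {a b m : ℤ} (ha : |a| ≤ m) (hb : |b| ≤ m) : |a * b| ≤ m * m := by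
  rw [abs_mul]
  exact mul_le_mul ha hb (abs_nonneg _) ((abs_nonneg _).trans ha)

theorem Gre_abs (w h : ℕ) (hw : h < w) (U : List (ℕ × ℕ × ℕ)) (i k : ℕ) :
    |Gre w h U i k| ≤ 2 * (U.length : ℤ) * (((w : ℤ) - 1) * ((w : ℤ) - 1)) := by
  induction U generalizing i k with
  | nil => simp [Gre]
  | cons r U ih =>
    rw [Gre, List.length_cons]
    have h1 := mul_abs_le (dgo_abs w h r.2.1 i hw) (dgo_abs w h r.2.1 k hw)
    have h2 := mul_abs_le (dgo_abs w h r.2.2 i hw) (dgo_abs w h r.2.2 k hw)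
    have h3 : |if 0 < i ∧ 0 < k then Gre w h U (i - 1) (k - 1) else 0|
        ≤ 2 * (U.length : ℤ) * (((w : ℤ) - 1) * ((w : ℤ) - 1)) := by
      split_ifs
      · exact ih _ _
      · rw [abs_zero]
        exact (abs_nonneg _).trans (ih i k)
    have h4 := abs_add_le (dgo w h r.2.1 i * dgo w h r.2.1 k + dgo w h r.2.2 i * dgo w h r.2.2 k)
      (if 0 < i ∧ 0 < k then Gre w h U (i - 1) (k - 1) else 0)
    have h5 := abs_add_le (dgo w h r.2.1 i * dgo w h r.2.1 k) (dgo w h r.2.2 i * dgo w h r.2.2 k)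
    push_cast
    linarith only [h1, h2, h3, h4, h5]

theorem Gim_abs (w h : ℕ) (hw : h < w) (U : List (ℕ × ℕ × ℕ)) (i k : ℕ) :
    |Gim w h U i k| ≤ 2 * (U.length : ℤ) * (((w : ℤ) - 1) * ((w : ℤ) - 1)) := by
  induction U generalizing i k with
  | nil => simp [Gim]
  | cons r U ih =>
    rw [Gim, List.length_cons]
    have h1 := mul_abs_le (dgo_abs w h r.2.2 i hw) (dgo_abs w h r.2.1 k hw)
    have h2 := mul_abs_le (dgo_abs w h r.2.1 i hw) (dgo_abs w h r.2.2 k hw)
    have h3 : |if 0 < i ∧ 0 < k then Gim w h U (i - 1) (k - 1) else 0|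
        ≤ 2 * (U.length : ℤ) * (((w : ℤ) - 1) * ((w : ℤ) - 1)) := by
      split_ifs
      · exact ih _ _
      · rw [abs_zero]
        exact (abs_nonneg _).trans (ih i k)
    have h4 := abs_add_le (dgo w h r.2.2 i * dgo w h r.2.1 k - dgo w h r.2.1 i * dgo w h r.2.2 k)
      (if 0 < i ∧ 0 < k then Gim w h U (i - 1) (k - 1) else 0)
    have h5 := abs_sub (dgo w h r.2.2 i * dgo w h r.2.1 k) (dgo w h r.2.1 i * dgo w h r.2.2 k)
    push_cast
    linarith only [h1, h2, h3, h4, h5]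

/-- digits of a packed sum with offset -/
theorem packed (B H n c q : ℕ) (G : ℕ → ℤ) (hB : B = 2 * H)
    (hc : (c : ℤ) - q = ∑ i ∈ Finset.range n, G i * (B : ℤ) ^ i) (hG : ∀ i < n, |G i| < H)
    (i : ℕ) (hi : i < n) : (((c + H * ons B n - q) / B ^ i % B : ℕ) : ℤ) - H = G i := by
  have h1 : ∀ j < n, (0 : ℤ) ≤ G j + H ∧ G j + H < B := by
    intro j hj
    have := abs_lt.1 (hG j hj)
    rw [hB]
    push_cast
    constructor <;> linarith only [this]
  have h2 : ((c + H * ons B n : ℕ) : ℤ)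
      = ((q + ∑ j ∈ Finset.range n, (G j + H).toNat * B ^ j : ℕ) : ℤ) := by
    rw [ons_eq]
    push_cast
    have h3 : ∑ j ∈ Finset.range n, (((G j + (H : ℤ)).toNat : ℕ) : ℤ) * (B : ℤ) ^ j
        = ∑ j ∈ Finset.range n, (G j * (B : ℤ) ^ j + (H : ℤ) * (B : ℤ) ^ j) := by
      apply Finset.sum_congr rfl
      intro j hj
      rw [Int.toNat_of_nonneg (h1 j (Finset.mem_range.1 hj)).1]
      ring
    rw [h3, Finset.sum_add_distrib, ← hc, ← Finset.mul_sum]
    ring
  have h4 : c + H * ons B n = q + ∑ j ∈ Finset.range n, (G j + H).toNat * B ^ j := by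
    exact_mod_cast h2
  rw [h4, Nat.add_sub_cancel_left, dig_base B n (fun j => (G j + H).toNat) (by
    intro j hj
    have := h1 j hj
    omega) i hi]
  have := h1 i hi
  omega

/-! ## The sum over the pairs -/

/-- a digit as a complex number -/
noncomputable def uc (w h : ℕ) (r : ℕ × ℕ × ℕ) (i : ℕ) : ℂ := gv (dgo w h r.2.1 i, dgo w h r.2.2 i)

/-- the Gram matrix -/
noncomputable def GG (w h : ℕ) (U : List (ℕ × ℕ × ℕ)) (i k : ℕ) : ℂ :=
  gv (Gre w h U i k, Gim w h U i k)

theorem GG_cons (w h : ℕ) (r : ℕ × ℕ × ℕ) (U : List (ℕ × ℕ × ℕ)) (i k : ℕ) :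
    GG w h (r :: U) i k = uc w h r i * conj (uc w h r k)
      + if 0 < i ∧ 0 < k then GG w h U (i - 1) (k - 1) else 0 := by
  unfold GG uc
  rw [Gre, Gim]
  have h1 : ∀ a b : ℤ, gv (a, b) = (a : ℂ) + b * Complex.I := fun a b => rfl
  split_ifs
  · simp only [h1, map_add, map_mul, Complex.conj_I]
    apply Complex.ext
    · simp
    · simp
      ring
  · simp only [h1]
    apply Complex.ext
    · simp
    · simp
      ring

/-- the sum over the pairs `i ≤ k` -/
noncomputable def SP (G : ℕ → ℕ → ℂ) (v : ℕ → ℂ) (n : ℕ) : ℝ :=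
  ∑ k ∈ Finset.range n, ∑ i ∈ Finset.range (k + 1),
    (if i < k then 2 else 1) * (G i k * (v i * conj (v k))).re

theorem SP_add (G G' : ℕ → ℕ → ℂ) (v : ℕ → ℂ) (n : ℕ) :
    SP (fun i k => G i k + G' i k) v n = SP G v n + SP G' v n := by
  unfold SP
  rw [← Finset.sum_add_distrib]
  apply Finset.sum_congr rfl
  intro k _
  rw [← Finset.sum_add_distrib]
  apply Finset.sum_congr rfl
  intro i _
  rw [add_mul, Complex.add_re]
  ring

theorem SP_sq (u v : ℕ → ℂ) (n : ℕ) :
    SP (fun i k => u i * conj (u k)) v n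
      = ((∑ i ∈ Finset.range n, u i * v i) * conj (∑ i ∈ Finset.range n, u i * v i)).re := by
  unfold SP
  induction n with
  | zero => simp
  | succ n ih =>
    rw [Finset.sum_range_succ, ih, Finset.sum_range_succ, if_neg (lt_irrefl n),
      Finset.sum_range_succ (fun i => u i * v i)]
    have h1 : ∑ i ∈ Finset.range n, (if i < n then 2 else 1 : ℝ)
        * (u i * conj (u n) * (v i * conj (v n))).re
        = 2 * ((∑ i ∈ Finset.range n, u i * v i) * conj (u n * v n)).re := by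
      rw [Finset.sum_mul, Complex.re_sum, Finset.mul_sum]
      apply Finset.sum_congr rfl
      intro i hi
      rw [if_pos (Finset.mem_range.1 hi), map_mul]
      congr 2
      ring
    rw [h1, map_add]
    generalize ∑ i ∈ Finset.range n, u i * v i = Z
    generalize hz : u n * v n = z
    have h2 : u n * conj (u n) * (v n * conj (v n)) = z * conj z := by
      rw [← hz, map_mul]
      ring
    rw [h2]
    simp only [Complex.mul_re, Complex.add_re, Complex.add_im, Complex.conj_re, Complex.conj_im]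
    ring

theorem SP_shift (G : ℕ → ℕ → ℂ) (v : ℕ → ℂ) (m : ℕ) :
    SP (fun i k => if 0 < i ∧ 0 < k then G (i - 1) (k - 1) else 0) v (m + 1)
      = SP G (fun i => v (i + 1)) m := by
  unfold SP
  rw [Finset.sum_range_succ']
  have h1 : ∑ i ∈ Finset.range (0 + 1), (if i < 0 then 2 else 1 : ℝ)
      * ((if 0 < i ∧ 0 < 0 then G (i - 1) (0 - 1) else 0) * (v i * conj (v 0))).re = 0 := by
    simp
  rw [h1, add_zero]
  apply Finset.sum_congr rfl
  intro k _
  rw [Finset.sum_range_succ']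
  have h2 : (if 0 < k + 1 then 2 else 1 : ℝ)
      * ((if 0 < 0 ∧ 0 < k + 1 then G (0 - 1) (k + 1 - 1) else 0) * (v 0 * conj (v (k + 1)))).re
      = 0 := by
    simp
  rw [h2, add_zero]
  apply Finset.sum_congr rfl
  intro i _
  have h3 : (i + 1 < k + 1) ↔ i < k := by omega
  simp only [h3]
  rw [if_pos (show 0 < i + 1 ∧ 0 < k + 1 by omega), Nat.add_sub_cancel, Nat.add_sub_cancel]

theorem SP_nonneg (w h : ℕ) (U : List (ℕ × ℕ × ℕ)) : ∀ (n : ℕ) (v : ℕ → ℂ), uok U n = true →
    0 ≤ SP (GG w h U) v n := by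
  induction U with
  | nil =>
    intro n v hn
    rw [uok_nil hn]
    simp [SP]
  | cons r U ih =>
    intro n v hn
    obtain ⟨m, rfl, -, hU⟩ := uok_cons hn
    have h1 : GG w h (r :: U) = fun i k => uc w h r i * conj (uc w h r k)
        + (if 0 < i ∧ 0 < k then GG w h U (i - 1) (k - 1) else 0) := by
      funext i k
      exact GG_cons w h r U i k
    rw [h1, SP_add, SP_sq, SP_shift]
    refine add_nonneg ?_ (ih m _ hU)
    rw [Complex.mul_conj, Complex.ofReal_re]
    exact Complex.normSq_nonneg _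

end Pool.Agent.M16.Helper54.HR2
end

/- Helper94.T.Helper12.HR2F.Fast7 -/
section
/-!
MP_16b0ee, project HR2: a faster form of the checks `chR` and `chI` of the kernel computation of a
certificate. The offsets are collected in constants of the table, big numbers are natural numbers,
arguments are evaluated before they are used, the Gram matrix is computed row by row.
-/

set_option autoImplicit false

namespace Pool.Agent.M16.Helper12.HR2F

open Pool.Agent.M16.Helper54.HR2
open Pool.Agent.M16.Helper12.HR2 (Par)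

/-! ## Definitions -/

/-- evaluate the argument first -/
noncomputable def frc {α : Type} (f : ℕ → α) (x : ℕ) : α :=
  Nat.rec (motive := fun _ => α) (f 0) (fun n _ => f (Nat.succ n)) x

/-- blocks: the digits -/
noncomputable def brN (w : ℕ) (bs : List Blk) (x : ℕ) : ℕ :=
  List.rec (motive := fun _ => ℕ) 0
    (fun b _ ih => Nat.add (Nat.shiftLeft (gr1 w b.2.2 (Nat.div x (Nat.pow w b.2.1))) b.1) ih) bs

/-- blocks: ones -/
noncomputable def brO (bs : List Blk) : ℕ :=
  List.rec (motive := fun _ => ℕ) 0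
    (fun b _ ih => Nat.add (Nat.shiftLeft (go1 b.2.2) b.1) ih) bs

/-- blocks: the digits, imaginary form -/
noncomputable def biN (w g : ℕ) (bs : List Blk) (x : ℕ) : ℕ :=
  List.rec (motive := fun _ => ℕ) 0
    (fun b _ ih => Nat.add (Nat.shiftLeft (gi1 w g b.2.2 (Nat.div x (Nat.pow w b.2.1))) b.1) ih) bs

/-- blocks: ones, imaginary form -/
noncomputable def biO (bs : List Blk) : ℕ :=
  List.rec (motive := fun _ => ℕ) 0
    (fun b _ ih => Nat.add (Nat.shiftLeft (gp1 b.2.2) b.1) ih) bs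

/-- sum over columns: ones -/
noncomputable def tO (f : List Blk → ℕ) (T : List (ℕ × List Blk)) : ℕ :=
  List.rec (motive := fun _ => ℕ) 0 (fun b _ ih => Nat.add (f b.2) ih) T

/-- sum over the groups: ones -/
noncomputable def gO (f : Grp → ℕ) (gs : List Grp) : ℕ :=
  List.rec (motive := fun _ => ℕ) 0 (fun g _ ih => Nat.add (f g) ih) gs

/-- sum over the groups -/
noncomputable def gN (f : Grp → ℕ × ℕ → ℕ) (gs : List Grp) : List (ℕ × ℕ) → ℕ :=
  List.rec (motive := fun _ => List (ℕ × ℕ) → ℕ) (fun _ => 0)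
    (fun g _ ih l => List.rec (motive := fun _ => ℕ) 0
      (fun xy l' _ => Nat.add (f g xy) (ih l')) l) gs

/-- the second list is not shorter -/
noncomputable def glen (gs : List Grp) : List (ℕ × ℕ) → Bool :=
  List.rec (motive := fun _ => List (ℕ × ℕ) → Bool) (fun _ => true)
    (fun _ _ ih l => List.rec (motive := fun _ => Bool) false (fun _ l' _ => ih l') l) gs

/-- the columns of the Gram matrix with one more row -/
noncomputable def rsp (w S T : ℕ) (X : List ℕ) : ℕ → ℕ → List ℕ :=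
  List.rec (motive := fun _ => ℕ → ℕ → List ℕ) (fun _ _ => [])
    (fun x _ ih a b => List.cons
      (Nat.add (Nat.add (Nat.mul (Nat.mod a w) S) (Nat.mul (Nat.mod b w) T)) x)
      (ih (Nat.div a w) (Nat.div b w))) X

/-- the columns of the Gram matrix: the real part and `be` times the imaginary part, modulo `Z`;
`Z1` is `Z - 1` -/
noncomputable def clp (B w h be Z Z1 : ℕ) (U : List (ℕ × ℕ × ℕ)) : ℕ → ℕ → List ℕ :=
  List.rec (motive := fun _ => ℕ → ℕ → List ℕ) (fun _ _ => [])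
    (fun r _ ih P q => frc (fun SR => frc (fun SI => frc (fun O =>
      frc (fun S => frc (fun T => frc (fun P' => frc (fun q' =>
        rsp w S T (List.cons q' (ih P' q')) r.2.1 r.2.2)
        (Nat.mod (Nat.add q (Nat.mul h (Nat.mul Z1 (Nat.add S T)))) Z))
        (Nat.mul P B))
        (Nat.mod (Nat.add (Nat.mul P (Nat.add SI (Nat.mul be O)))
          (Nat.mul Z1 (Nat.mul P (Nat.add O (Nat.mul be SR))))) Z))
        (Nat.mod (Nat.add (Nat.mul P (Nat.add SR (Nat.mul be SI)))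
          (Nat.mul Z1 (Nat.mul P (Nat.mul O (Nat.add 1 be))))) Z))
        (Nat.mul h (ons B r.1))) (spr B w r.1 r.2.2)) (spr B w r.1 r.2.1)) U

/-- sum over the columns -/
noncomputable def mM (f : List Blk → ℕ → ℕ) (T : List (ℕ × List Blk)) : List ℕ → ℕ :=
  List.rec (motive := fun _ => List ℕ → ℕ) (fun _ => 0)
    (fun b _ ih X => List.rec (motive := fun _ => ℕ) 0
      (fun x X' _ => Nat.add (f b.2 x) (ih X')) X) T

/-! ## Basic equalities -/

theorem frc_eq {α : Type} (f : ℕ → α) (x : ℕ) : frc f x = f x := by cases x <;> rfl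

theorem shl_eq (a o : ℕ) : Nat.shiftLeft a o = a * 2 ^ o := Nat.shiftLeft_eq a o

theorem sh_eq (o : ℕ) (z : ℤ) : sh o z = 2 ^ o * z := by
  have h : (Int.ofNat (Nat.shiftLeft 1 o)) = (2 : ℤ) ^ o := by
    rw [shl_eq, one_mul]
    exact Nat.cast_pow 2 o
  show (Int.ofNat (Nat.shiftLeft 1 o)) * z = _
  rw [h]

theorem yr_eq (w h : ℕ) (rs : List Sng) (x : ℕ) :
    yr w h rs x = (gr1 w rs x : ℤ) - h * (go1 rs : ℤ) := by
  have h1 : yr w h rs x = Int.subNatNat (gr1 w rs x) (h * go1 rs) := rfl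
  rw [h1, Int.subNatNat_eq_coe]
  push_cast
  ring

theorem yi_eq (w h : ℕ) (rs : List Sng) (x : ℕ) :
    yi w h rs x = (gi1 w (2 * h) rs x : ℤ) - h * (gp1 rs : ℤ) := by
  have h1 : yi w h rs x = Int.subNatNat (gi1 w (2 * h) rs x) (h * gp1 rs) := rfl
  rw [h1, Int.subNatNat_eq_coe]
  push_cast
  ring

theorem zr_eq (w h : ℕ) (rs : List Row) (x : ℕ) :
    zr w h rs x = (fr w rs x : ℤ) - h * (fr1 rs : ℤ) := by
  have h1 : zr w h rs x = Int.subNatNat (fr w rs x) (h * fr1 rs) := rfl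
  rw [h1, Int.subNatNat_eq_coe]
  push_cast
  ring

theorem zi_eq (w h : ℕ) (rs : List Row) (x : ℕ) :
    zi w h rs x = (fi w (2 * h) rs x : ℤ) - h * (fi1 rs : ℤ) := by
  have h1 : zi w h rs x = Int.subNatNat (fi w (2 * h) rs x) (h * fi1 rs) := rfl
  rw [h1, Int.subNatNat_eq_coe]
  push_cast
  ring

theorem brN_cons (w : ℕ) (b : Blk) (bs : List Blk) (x : ℕ) :
    brN w (b :: bs) x = gr1 w b.2.2 (x / w ^ b.2.1) * 2 ^ b.1 + brN w bs x := by
  rw [← shl_eq]; rfl

theorem brO_cons (b : Blk) (bs : List Blk) :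
    brO (b :: bs) = go1 b.2.2 * 2 ^ b.1 + brO bs := by
  rw [← shl_eq]; rfl

theorem biN_cons (w g : ℕ) (b : Blk) (bs : List Blk) (x : ℕ) :
    biN w g (b :: bs) x = gi1 w g b.2.2 (x / w ^ b.2.1) * 2 ^ b.1 + biN w g bs x := by
  rw [← shl_eq]; rfl

theorem biO_cons (b : Blk) (bs : List Blk) :
    biO (b :: bs) = gp1 b.2.2 * 2 ^ b.1 + biO bs := by
  rw [← shl_eq]; rfl

theorem br_eq (w h : ℕ) (bs : List Blk) (x : ℕ) :
    br w h bs x = (brN w bs x : ℤ) - h * (brO bs : ℤ) := by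
  induction bs with
  | nil =>
    show (0 : ℤ) = ((0 : ℕ) : ℤ) - h * ((0 : ℕ) : ℤ)
    simp
  | cons b bs ih =>
    have h1 : br w h (b :: bs) x = sh b.1 (yr w h b.2.2 (x / w ^ b.2.1)) + br w h bs x := rfl
    rw [h1, ih, sh_eq, yr_eq, brN_cons, brO_cons]
    push_cast
    ring

theorem bi_eq (w h : ℕ) (bs : List Blk) (x : ℕ) :
    bi w h bs x = (biN w (2 * h) bs x : ℤ) - h * (biO bs : ℤ) := by
  induction bs with
  | nil =>
    show (0 : ℤ) = ((0 : ℕ) : ℤ) - h * ((0 : ℕ) : ℤ)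
    simp
  | cons b bs ih =>
    have h1 : bi w h (b :: bs) x = sh b.1 (yi w h b.2.2 (x / w ^ b.2.1)) + bi w h bs x := rfl
    rw [h1, ih, sh_eq, yi_eq, biN_cons, biO_cons]
    push_cast
    ring

/-! ## The groups -/

theorem gN_cons (f : Grp → ℕ × ℕ → ℕ) (g : Grp) (gs : List Grp) (xy : ℕ × ℕ)
    (l : List (ℕ × ℕ)) : gN f (g :: gs) (xy :: l) = f g xy + gN f gs l := rfl

theorem gO_cons (f : Grp → ℕ) (g : Grp) (gs : List Grp) : gO f (g :: gs) = f g + gO f gs := rfl

/-- the weighted derivative, digits, real form -/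
noncomputable def f1 (w : ℕ) (g : Grp) (xy : ℕ × ℕ) : ℕ := Nat.shiftLeft (fr w g.D xy.1) g.oE

/-- the products, digits, real form, first component -/
noncomputable def f2 (w : ℕ) (g : Grp) (xy : ℕ × ℕ) : ℕ := Nat.shiftLeft (gr1 w g.E xy.1) g.oE

/-- the products, digits, real form, second component -/
noncomputable def f3 (w : ℕ) (g : Grp) (xy : ℕ × ℕ) : ℕ := Nat.shiftLeft (gr1 w g.E xy.2) g.oE

/-- the monomials, digits, real form -/
noncomputable def f4 (w : ℕ) (g : Grp) (xy : ℕ × ℕ) : ℕ := Nat.shiftLeft (gr1 w g.M xy.1) g.oM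

/-- ones -/
noncomputable def o1 (g : Grp) : ℕ := Nat.shiftLeft (fr1 g.D) g.oE

/-- ones -/
noncomputable def o2 (g : Grp) : ℕ := Nat.shiftLeft (go1 g.E) g.oE

/-- ones -/
noncomputable def o4 (g : Grp) : ℕ := Nat.shiftLeft (go1 g.M) g.oM

/-- the derivative, digits, imaginary form -/
noncomputable def i1 (w h2 : ℕ) (g : Grp) (xy : ℕ × ℕ) : ℕ :=
  Nat.shiftLeft (fi w h2 g.D xy.2) g.oE

/-- the products, digits, imaginary form, first component -/
noncomputable def i2 (w h2 : ℕ) (g : Grp) (xy : ℕ × ℕ) : ℕ :=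
  Nat.shiftLeft (gi1 w h2 g.E xy.1) g.oE

/-- the products, digits, imaginary form, second component -/
noncomputable def i3 (w h2 : ℕ) (g : Grp) (xy : ℕ × ℕ) : ℕ :=
  Nat.shiftLeft (gi1 w h2 g.E xy.2) g.oE

/-- the monomials, digits, imaginary form -/
noncomputable def i4 (w h2 : ℕ) (g : Grp) (xy : ℕ × ℕ) : ℕ :=
  Nat.shiftLeft (gi1 w h2 g.M xy.2) g.oM

/-- ones -/
noncomputable def p1 (g : Grp) : ℕ := Nat.shiftLeft (fi1 g.D) g.oE

/-- ones -/
noncomputable def p2 (g : Grp) : ℕ := Nat.shiftLeft (gp1 g.E) g.oE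

/-- ones -/
noncomputable def p4 (g : Grp) : ℕ := Nat.shiftLeft (gp1 g.M) g.oM

theorem gsr_eq (P : Par) (w h : ℕ) (gs : List Grp) : ∀ l : List (ℕ × ℕ), glen gs l = true →
    gsr P w h gs l = (P.bd : ℤ) * P.sr * ((gN (f1 w) gs l : ℤ) - h * (gO o1 gs : ℤ))
      - ((P.bd : ℤ) * P.sr * ((gN (fun g xy => Nat.mul g.a (f2 w g xy)) gs l : ℤ)
          - h * (gO (fun g => Nat.mul g.a (o2 g)) gs : ℤ))
        + 2 * (P.bd : ℤ) * P.p * ((gN (f2 w) gs l : ℤ) - h * (gO o2 gs : ℤ)))
      + 2 * (P.bd : ℤ) * P.q * ((gN (f3 w) gs l : ℤ) - h * (gO o2 gs : ℤ))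
      - ((P.sr : ℤ) * P.bn * ((gN (f4 w) gs l : ℤ) - h * (gO o4 gs : ℤ))
        + (P.sr : ℤ) * P.bd * ((gN (fun g xy => Nat.mul g.w (f4 w g xy)) gs l : ℤ)
          - h * (gO (fun g => Nat.mul g.w (o4 g)) gs : ℤ))) := by
  induction gs with
  | nil =>
    intro l _
    show (0 : ℤ) = _
    have h0 : ∀ f : Grp → ℕ × ℕ → ℕ, gN f [] l = 0 := fun f => rfl
    have h1 : ∀ f : Grp → ℕ, gO f [] = 0 := fun f => rfl
    rw [h0, h0, h0, h0, h0, h0, h1, h1, h1, h1, h1]
    simp
  | cons g gs ih =>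
    intro l hl
    rcases l with _ | ⟨xy, l⟩
    · exact absurd hl (by simp [glen])
    · have hl' : glen gs l = true := hl
      have h1 : gsr P w h (g :: gs) (xy :: l) = gr P w h g xy + gsr P w h gs l := rfl
      rw [h1, ih l hl']
      have h2 : gr P w h g xy = sh g.oE
          ((((P.bd : ℤ) * P.sr) * zr w h g.D xy.1
            - ((P.bd : ℤ) * P.sr * g.a + 2 * (P.bd : ℤ) * P.p) * yr w h g.E xy.1)
            + (2 * (P.bd : ℤ) * P.q) * yr w h g.E xy.2)
          - sh g.oM (((P.sr : ℤ) * (P.bn + P.bd * g.w)) * yr w h g.M xy.1) := by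
        have e1 : cD P = (P.bd : ℤ) * P.sr := Nat.cast_mul _ _
        have e2 : cE P g.a = (P.bd : ℤ) * P.sr * g.a + 2 * (P.bd : ℤ) * P.p := by
          show (((P.bd * P.sr * g.a : ℕ) : ℤ) + ((2 * P.bd : ℕ) : ℤ) * P.p) = _
          push_cast
          ring
        have e3 : cF P = 2 * (P.bd : ℤ) * P.q := by
          show (((2 * P.bd : ℕ) : ℤ) * P.q) = _
          push_cast
          ring
        have e4 : cM P g.w = (P.sr : ℤ) * (P.bn + P.bd * g.w) := by
          show (((P.sr * (P.bn + P.bd * g.w) : ℕ)) : ℤ) = _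
          push_cast
          ring
        rw [← e2, ← e1, ← e3, ← e4]
        rfl
      rw [h2, sh_eq, sh_eq, zr_eq, yr_eq, yr_eq, yr_eq]
      simp only [gN_cons, gO_cons, f1, f2, f3, f4, o1, o2, o4, shl_eq, Nat.mul_eq]
      push_cast
      ring

theorem gsi_eq (P : Par) (w h : ℕ) (gs : List Grp) : ∀ l : List (ℕ × ℕ), glen gs l = true →
    gsi P w h gs l = 2 * (P.bd : ℤ) * P.q * ((gN (i2 w (2 * h)) gs l : ℤ) - h * (gO p2 gs : ℤ))
      - (P.bd : ℤ) * P.sr * ((gN (i1 w (2 * h)) gs l : ℤ) - h * (gO p1 gs : ℤ))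
      + ((P.bd : ℤ) * P.sr * ((gN (fun g xy => Nat.mul g.a (i3 w (2 * h) g xy)) gs l : ℤ)
          - h * (gO (fun g => Nat.mul g.a (p2 g)) gs : ℤ))
        + 2 * (P.bd : ℤ) * P.p * ((gN (i3 w (2 * h)) gs l : ℤ) - h * (gO p2 gs : ℤ)))
      + ((P.sr : ℤ) * P.bn * ((gN (i4 w (2 * h)) gs l : ℤ) - h * (gO p4 gs : ℤ))
        + (P.sr : ℤ) * P.bd * ((gN (fun g xy => Nat.mul g.w (i4 w (2 * h) g xy)) gs l : ℤ)
          - h * (gO (fun g => Nat.mul g.w (p4 g)) gs : ℤ))) := by
  induction gs with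
  | nil =>
    intro l _
    show (0 : ℤ) = _
    have h0 : ∀ f : Grp → ℕ × ℕ → ℕ, gN f [] l = 0 := fun f => rfl
    have h1 : ∀ f : Grp → ℕ, gO f [] = 0 := fun f => rfl
    rw [h0, h0, h0, h0, h0, h0, h1, h1, h1, h1, h1]
    simp
  | cons g gs ih =>
    intro l hl
    rcases l with _ | ⟨xy, l⟩
    · exact absurd hl (by simp [glen])
    · have hl' : glen gs l = true := hl
      have h1 : gsi P w h (g :: gs) (xy :: l) = gi P w h g xy + gsi P w h gs l := rfl
      rw [h1, ih l hl']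
      have h2 : gi P w h g xy = sh g.oE
          (((2 * (P.bd : ℤ) * P.q) * yi w h g.E xy.1
            - ((P.bd : ℤ) * P.sr) * zi w h g.D xy.2)
            + ((P.bd : ℤ) * P.sr * g.a + 2 * (P.bd : ℤ) * P.p) * yi w h g.E xy.2)
          + sh g.oM (((P.sr : ℤ) * (P.bn + P.bd * g.w)) * yi w h g.M xy.2) := by
        have e1 : cD P = (P.bd : ℤ) * P.sr := Nat.cast_mul _ _
        have e2 : cE P g.a = (P.bd : ℤ) * P.sr * g.a + 2 * (P.bd : ℤ) * P.p := by
          show (((P.bd * P.sr * g.a : ℕ) : ℤ) + ((2 * P.bd : ℕ) : ℤ) * P.p) = _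
          push_cast
          ring
        have e3 : cF P = 2 * (P.bd : ℤ) * P.q := by
          show (((2 * P.bd : ℕ) : ℤ) * P.q) = _
          push_cast
          ring
        have e4 : cM P g.w = (P.sr : ℤ) * (P.bn + P.bd * g.w) := by
          show (((P.sr * (P.bn + P.bd * g.w) : ℕ)) : ℤ) = _
          push_cast
          ring
        rw [← e2, ← e1, ← e3, ← e4]
        rfl
      rw [h2, sh_eq, sh_eq, zi_eq, yi_eq, yi_eq, yi_eq]
      simp only [gN_cons, gO_cons, i1, i2, i3, i4, p1, p2, p4, shl_eq, Nat.mul_eq]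
      push_cast
      ring

/-! ## The Gram matrix -/

/-- one term of a column, real part -/
def cfR (h SR SI O u v : ℕ) : ℕ := u * SR + v * SI + (4 * h - (u + v)) * O

/-- one term of a column, imaginary part -/
def cfI (h SR SI O u v : ℕ) : ℕ := u * SI + (2 * h - v) * SR + (2 * h + v - u) * O

theorem rsp_cons (w S T : ℕ) (x : ℕ) (X : List ℕ) (a b : ℕ) :
    rsp w S T (x :: X) a b = (a % w * S + b % w * T + x) :: rsp w S T X (a / w) (b / w) := rfl

theorem rsp_get (w S T : ℕ) : ∀ (X : List ℕ) (a b k : ℕ),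
    (rsp w S T X a b)[k]? = (X[k]?).map (fun x =>
      a / w ^ k % w * S + b / w ^ k % w * T + x) := by
  intro X
  induction X with
  | nil => intro a b k; rfl
  | cons x X ih =>
    intro a b k
    rw [rsp_cons]
    rcases k with _ | k
    · simp
    · rw [List.getElem?_cons_succ, List.getElem?_cons_succ, ih]
      simp only [Nat.div_div_eq_div_mul, pow_succ']

/-- the first multiplier of a row -/
def mS (P be Z Z1 SR SI O : ℕ) : ℕ := (P * (SR + be * SI) + Z1 * (P * (O * (1 + be)))) % Z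

/-- the second multiplier of a row -/
def mT (P be Z Z1 SR SI O : ℕ) : ℕ := (P * (SI + be * O) + Z1 * (P * (O + be * SR))) % Z

/-- the correction -/
def mQ (q h Z Z1 S T : ℕ) : ℕ := (q + h * (Z1 * (S + T))) % Z

theorem clp_cons (B w h be Z Z1 : ℕ) (r : ℕ × ℕ × ℕ) (U : List (ℕ × ℕ × ℕ)) (P q : ℕ) :
    clp B w h be Z Z1 (r :: U) P q = rsp w
      (mS P be Z Z1 (spr B w r.1 r.2.1) (spr B w r.1 r.2.2) (h * ons B r.1))
      (mT P be Z Z1 (spr B w r.1 r.2.1) (spr B w r.1 r.2.2) (h * ons B r.1))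
      (mQ q h Z Z1 (mS P be Z Z1 (spr B w r.1 r.2.1) (spr B w r.1 r.2.2) (h * ons B r.1))
        (mT P be Z Z1 (spr B w r.1 r.2.1) (spr B w r.1 r.2.2) (h * ons B r.1))
        :: clp B w h be Z Z1 U (P * B)
          (mQ q h Z Z1 (mS P be Z Z1 (spr B w r.1 r.2.1) (spr B w r.1 r.2.2) (h * ons B r.1))
          (mT P be Z Z1 (spr B w r.1 r.2.1) (spr B w r.1 r.2.2) (h * ons B r.1))))
      r.2.1 r.2.2 := by
  have h1 : clp B w h be Z Z1 (r :: U) P q = frc (fun SR => frc (fun SI => frc (fun O =>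
      frc (fun S => frc (fun T => frc (fun P' => frc (fun q' =>
        rsp w S T (q' :: clp B w h be Z Z1 U P' q') r.2.1 r.2.2)
        (mQ q h Z Z1 S T)) (P * B)) (mT P be Z Z1 SR SI O)) (mS P be Z Z1 SR SI O))
        (h * ons B r.1)) (spr B w r.1 r.2.2)) (spr B w r.1 r.2.1) := rfl
  rw [h1]
  simp only [frc_eq]

theorem cr_zero (B w h : ℕ) (r : ℕ × ℕ × ℕ) (U : List (ℕ × ℕ × ℕ)) :
    cr B w h (r :: U) 0 = cfR h (spr B w r.1 r.2.1) (spr B w r.1 r.2.2) (h * ons B r.1)
      (r.2.1 / w ^ 0 % w) (r.2.2 / w ^ 0 % w) := rfl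

theorem cr_succ (B w h : ℕ) (r : ℕ × ℕ × ℕ) (U : List (ℕ × ℕ × ℕ)) (k : ℕ) :
    cr B w h (r :: U) (k + 1) = cfR h (spr B w r.1 r.2.1) (spr B w r.1 r.2.2) (h * ons B r.1)
      (r.2.1 / w ^ (k + 1) % w) (r.2.2 / w ^ (k + 1) % w) + B * cr B w h U k := rfl

theorem ci_zero (B w h : ℕ) (r : ℕ × ℕ × ℕ) (U : List (ℕ × ℕ × ℕ)) :
    ci B w h (r :: U) 0 = cfI h (spr B w r.1 r.2.1) (spr B w r.1 r.2.2) (h * ons B r.1)
      (r.2.1 / w ^ 0 % w) (r.2.2 / w ^ 0 % w) := rfl

theorem ci_succ (B w h : ℕ) (r : ℕ × ℕ × ℕ) (U : List (ℕ × ℕ × ℕ)) (k : ℕ) :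
    ci B w h (r :: U) (k + 1) = cfI h (spr B w r.1 r.2.1) (spr B w r.1 r.2.2) (h * ons B r.1)
      (r.2.1 / w ^ (k + 1) % w) (r.2.2 / w ^ (k + 1) % w) + B * ci B w h U k := rfl

theorem cq_zero (B w h : ℕ) (r : ℕ × ℕ × ℕ) (U : List (ℕ × ℕ × ℕ)) :
    cq B w h (r :: U) 0 = h * (spr B w r.1 r.2.1 + spr B w r.1 r.2.2)
      + 2 * h * (h * ons B r.1) := rfl

theorem cq_succ (B w h : ℕ) (r : ℕ × ℕ × ℕ) (U : List (ℕ × ℕ × ℕ)) (k : ℕ) :
    cq B w h (r :: U) (k + 1) = h * (spr B w r.1 r.2.1 + spr B w r.1 r.2.2)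
      + 2 * h * (h * ons B r.1) + B * cq B w h U k := rfl

theorem cast_mS {Z Z1 : ℕ} (hZ : Z = Z1 + 1) (P be SR SI O : ℕ) :
    ((mS P be Z Z1 SR SI O : ℕ) : ZMod Z)
      = (P : ZMod Z) * (((SR : ZMod Z) - O) + be * ((SI : ZMod Z) - O)) := by
  have h1 : ((Z1 : ℕ) : ZMod Z) = -1 := by
    have : ((Z : ℕ) : ZMod Z) = 0 := ZMod.natCast_self Z
    rw [hZ] at this ⊢
    push_cast at this
    exact eq_neg_of_add_eq_zero_left this
  unfold mS
  rw [ZMod.natCast_mod]
  push_cast
  rw [h1]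
  ring

theorem cast_mT {Z Z1 : ℕ} (hZ : Z = Z1 + 1) (P be SR SI O : ℕ) :
    ((mT P be Z Z1 SR SI O : ℕ) : ZMod Z)
      = (P : ZMod Z) * (((SI : ZMod Z) - O) + be * ((O : ZMod Z) - SR)) := by
  have h1 : ((Z1 : ℕ) : ZMod Z) = -1 := by
    have : ((Z : ℕ) : ZMod Z) = 0 := ZMod.natCast_self Z
    rw [hZ] at this ⊢
    push_cast at this
    exact eq_neg_of_add_eq_zero_left this
  unfold mT
  rw [ZMod.natCast_mod]
  push_cast
  rw [h1]
  ring

theorem cast_mQ {Z Z1 : ℕ} (hZ : Z = Z1 + 1) (q h S T : ℕ) :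
    ((mQ q h Z Z1 S T : ℕ) : ZMod Z) = (q : ZMod Z) - h * ((S : ZMod Z) + T) := by
  have h1 : ((Z1 : ℕ) : ZMod Z) = -1 := by
    have : ((Z : ℕ) : ZMod Z) = 0 := ZMod.natCast_self Z
    rw [hZ] at this ⊢
    push_cast at this
    exact eq_neg_of_add_eq_zero_left this
  unfold mQ
  rw [ZMod.natCast_mod]
  push_cast
  rw [h1]
  ring

theorem cast_cf {R : Type} [CommRing R] {h u v : ℕ} (hu : u ≤ 2 * h) (hv : v ≤ 2 * h)
    (P be SR SI O S T : R) (hS : S = P * ((SR - O) + be * (SI - O)))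
    (hT : T = P * ((SI - O) + be * (O - SR))) (a b c : ℕ) (ha : (a : R) = SR) (hb : (b : R) = SI)
    (hc : (c : R) = O) :
    ((u : R) - h) * S + ((v : R) - h) * T
      = P * ((((cfR h a b c u v : ℕ) : R) - ((h * (a + b) + 2 * h * c : ℕ) : R))
        + be * (((cfI h a b c u v : ℕ) : R) - ((h * (a + b) + 2 * h * c : ℕ) : R))) := by
  have h1 : u + v ≤ 4 * h := by omega
  have h2 : u ≤ 2 * h + v := by omega
  unfold cfR cfI
  push_cast [Nat.cast_sub h1, Nat.cast_sub hv, Nat.cast_sub h2]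
  rw [hS, hT, ha, hb, hc]
  ring

theorem clp_get {B w h be Z Z1 : ℕ} (hZ : Z = Z1 + 1) (hw0 : 0 < w) (hw : w ≤ 2 * h + 1) :
    ∀ (U : List (ℕ × ℕ × ℕ)) (P q k : ℕ), k < U.length →
    ∃ y : ℕ, (clp B w h be Z Z1 U P q)[k]? = some y ∧ (y : ZMod Z) = (q : ZMod Z)
      + P * ((((cr B w h U k : ℕ) : ZMod Z) - ((cq B w h U k : ℕ) : ZMod Z))
        + be * (((ci B w h U k : ℕ) : ZMod Z) - ((cq B w h U k : ℕ) : ZMod Z))) := by
  intro U
  induction U with
  | nil => intro P q k hk; simp at hk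
  | cons r U ih =>
    intro P q k hk
    have hu : ∀ j, r.2.1 / w ^ j % w ≤ 2 * h := fun j => by
      have := Nat.mod_lt (r.2.1 / w ^ j) hw0
      omega
    have hv : ∀ j, r.2.2 / w ^ j % w ≤ 2 * h := fun j => by
      have := Nat.mod_lt (r.2.2 / w ^ j) hw0
      omega
    rw [clp_cons, rsp_get]
    set a := spr B w r.1 r.2.1 with ha
    set b := spr B w r.1 r.2.2 with hb
    set c := h * ons B r.1 with hc
    have hS := cast_mS hZ P be a b c
    have hT := cast_mT hZ P be a b c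
    have hQ := cast_mQ hZ q h (mS P be Z Z1 a b c) (mT P be Z Z1 a b c)
    rcases k with _ | k
    · refine ⟨_, by rw [List.getElem?_cons_zero, Option.map_some], ?_⟩
      have h1 := cast_cf (R := ZMod Z) (hu 0) (hv 0) (P : ZMod Z) (be : ZMod Z) (a : ZMod Z)
        (b : ZMod Z) (c : ZMod Z) _ _ hS hT a b c rfl rfl rfl
      rw [cr_zero, ci_zero, cq_zero, ← ha, ← hb, ← hc, ← h1]
      push_cast
      rw [hQ]
      ring
    · obtain ⟨y, hy, hy'⟩ := ih (P * B) (mQ q h Z Z1 (mS P be Z Z1 a b c) (mT P be Z Z1 a b c)) k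
        (by simpa using hk)
      refine ⟨_, by rw [List.getElem?_cons_succ, hy, Option.map_some], ?_⟩
      have h1 := cast_cf (R := ZMod Z) (hu (k + 1)) (hv (k + 1)) (P : ZMod Z) (be : ZMod Z)
        (a : ZMod Z) (b : ZMod Z) (c : ZMod Z) _ _ hS hT a b c rfl rfl rfl
      rw [cr_succ, ci_succ, cq_succ, ← ha, ← hb, ← hc]
      push_cast
      rw [hy', hQ]
      push_cast at h1 ⊢
      linear_combination h1

theorem mM_cons (f : List Blk → ℕ → ℕ) (b : ℕ × List Blk) (T : List (ℕ × List Blk)) (x : ℕ)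
    (X : List ℕ) : mM f (b :: T) (x :: X) = f b.2 x + mM f T X := rfl

/-- the sum over the columns from functions -/
theorem mM_eq (f g : List Blk → ℕ → ℕ) (G : ℕ → ℕ) :
    ∀ (T : List (ℕ × List Blk)) (i : ℕ) (X : List ℕ),
      T.map Prod.fst = List.range' i T.length →
      (∀ k < T.length, ∃ y, X[k]? = some y ∧ ∀ bs, f bs y = g bs (G (i + k))) →
      mM f T X = (T.map (fun b => g b.2 (G b.1))).sum := by
  intro T
  induction T with
  | nil => intro i X _ _; rfl
  | cons b T ih =>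
    intro i X hT hX
    rcases X with _ | ⟨x, X⟩
    · obtain ⟨y, hy, -⟩ := hX 0 (by simp)
      simp at hy
    rw [List.map_cons, List.length_cons, List.range'_succ, List.cons.injEq] at hT
    obtain ⟨y, hy, hg⟩ := hX 0 (by simp)
    have hx : x = y := by simpa using hy
    rw [mM_cons, List.map_cons, List.sum_cons, ih (i + 1) X hT.2, hT.1, hx, hg b.2, Nat.add_zero]
    intro k hk
    obtain ⟨y', hy', hg'⟩ := hX (k + 1) (by simpa using hk)
    rw [List.getElem?_cons_succ] at hy'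
    refine ⟨y', hy', fun bs => ?_⟩
    rw [hg' bs]
    congr 2
    omega

theorem mr_sum (B H w h n : ℕ) (U : List (ℕ × ℕ × ℕ)) (T : List (ℕ × List Blk)) :
    mr B H w h n U T = ((T.map (fun b => brN B b.2 (cr B w h U b.1 + H * ons B n
      - cq B w h U b.1))).sum : ℤ) - H * (tO brO T : ℤ) := by
  induction T with
  | nil =>
    show (0 : ℤ) = ((0 : ℕ) : ℤ) - H * ((0 : ℕ) : ℤ)
    simp
  | cons b T ih =>
    have h1 : mr B H w h n U (b :: T) = br B H b.2 (cr B w h U b.1 + H * ons B n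
      - cq B w h U b.1) + mr B H w h n U T := rfl
    have h2 : tO brO (b :: T) = brO b.2 + tO brO T := rfl
    rw [h1, ih, br_eq, h2, List.map_cons, List.sum_cons]
    push_cast
    ring

theorem mi_sum (B H w h n : ℕ) (U : List (ℕ × ℕ × ℕ)) (T : List (ℕ × List Blk)) :
    mi B H w h n U T = ((T.map (fun b => biN B (2 * H) b.2 (ci B w h U b.1 + H * ons B n
      - cq B w h U b.1))).sum : ℤ) - H * (tO biO T : ℤ) := by
  induction T with
  | nil =>
    show (0 : ℤ) = ((0 : ℕ) : ℤ) - H * ((0 : ℕ) : ℤ)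
    simp
  | cons b T ih =>
    have h1 : mi B H w h n U (b :: T) = bi B H b.2 (ci B w h U b.1 + H * ons B n
      - cq B w h U b.1) + mi B H w h n U T := rfl
    have h2 : tO biO (b :: T) = biO b.2 + tO biO T := rfl
    rw [h1, ih, bi_eq, h2, List.map_cons, List.sum_cons]
    push_cast
    ring

/-- a packed sum with offset is small and has a simple value -/
theorem packed_lt (B H n c q : ℕ) (G : ℕ → ℤ) (hB : B = 2 * H)
    (hc : (c : ℤ) - q = ∑ i ∈ Finset.range n, G i * (B : ℤ) ^ i) (hG : ∀ i < n, |G i| < H) :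
    c + H * ons B n - q < B ^ n ∧ ((c + H * ons B n - q : ℕ) : ℤ) = c + H * ons B n - q := by
  have h1 : ∀ j < n, (0 : ℤ) ≤ G j + H ∧ G j + H < B := by
    intro j hj
    have := abs_lt.1 (hG j hj)
    rw [hB]
    push_cast
    constructor <;> linarith [this.1, this.2]
  have h2 : ((c + H * ons B n : ℕ) : ℤ)
      = ((q + ∑ j ∈ Finset.range n, (G j + H).toNat * B ^ j : ℕ) : ℤ) := by
    rw [ons_eq]
    push_cast
    have h3 : ∑ j ∈ Finset.range n, (((G j + (H : ℤ)).toNat : ℕ) : ℤ) * (B : ℤ) ^ j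
        = ∑ j ∈ Finset.range n, (G j * (B : ℤ) ^ j + (H : ℤ) * (B : ℤ) ^ j) := by
      apply Finset.sum_congr rfl
      intro j hj
      rw [Int.toNat_of_nonneg (h1 j (Finset.mem_range.1 hj)).1]
      ring
    rw [h3, Finset.sum_add_distrib, ← hc, ← Finset.mul_sum]
    ring
  have h4 : c + H * ons B n = q + ∑ j ∈ Finset.range n, (G j + H).toNat * B ^ j := by
    exact_mod_cast h2
  have h5 : ∀ m, (∀ j < m, (G j + H).toNat < B) →
      ∑ j ∈ Finset.range m, (G j + H).toNat * B ^ j < B ^ m := by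
    intro m
    induction m with
    | zero => intro _; simp
    | succ m ih =>
      intro hm
      rw [Finset.sum_range_succ, pow_succ]
      have e1 := ih (fun j hj => hm j (by omega))
      have e2 := hm m (by omega)
      have e3 : ((G m + H).toNat + 1) * B ^ m ≤ B * B ^ m := Nat.mul_le_mul_right _ e2
      nlinarith
  constructor
  · rw [h4, Nat.add_sub_cancel_left]
    exact h5 n (fun j hj => by have := h1 j hj; omega)
  · rw [h4, Nat.add_sub_cancel_left]
    have h6 : ((c + H * ons B n : ℕ) : ℤ)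
        = ((q + ∑ j ∈ Finset.range n, (G j + H).toNat * B ^ j : ℕ) : ℤ) := by rw [h4]
    push_cast at h6 ⊢
    linarith

/-- the real and the imaginary part of a packed column -/
theorem split_of_zmod {be y x x' : ℕ} (hx : x < be) (hx' : x' < be)
    (h : (y : ZMod (be * be)) = ((x + be * x' : ℕ) : ZMod (be * be))) :
    y % be = x ∧ y / be % be = x' := by
  have h1 : y % (be * be) = (x + be * x') % (be * be) := (ZMod.natCast_eq_natCast_iff' _ _ _).1 h
  have h2 : x + be * x' < be * be := by nlinarith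
  rw [Nat.mod_eq_of_lt h2, Nat.mod_mul] at h1
  have h3 : y % be < be := Nat.mod_lt _ (by omega)
  have h4 : (y % be + be * (y / be % be)) % be = (x + be * x') % be := by rw [h1]
  rw [Nat.add_mul_mod_self_left, Nat.add_mul_mod_self_left, Nat.mod_mod, Nat.mod_eq_of_lt hx]
    at h4
  refine ⟨h4, ?_⟩
  rw [h4] at h1
  have h5 : be * (y / be % be) = be * x' := by omega
  exact Nat.eq_of_mul_eq_mul_left (by omega) h5

/-- the columns are right -/
theorem clp_split {B H w h n : ℕ} (hB : B = 2 * H) (hH : 2 * n * (w * w) ≤ H) (hw0 : 0 < w)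
    (hw : w ≤ 2 * h + 1) (hw' : h < w) {U : List (ℕ × ℕ × ℕ)} (hU : uok U n = true) {Z1 : ℕ}
    (hZ : B ^ n * B ^ n = Z1 + 1) (k : ℕ) (hk : k < n) :
    ∃ y, (clp B w h (B ^ n) (B ^ n * B ^ n) Z1 U 1 (H * (ons B n * (1 + B ^ n))))[k]? = some y ∧
      y % B ^ n = cr B w h U k + H * ons B n - cq B w h U k ∧
      y / B ^ n % B ^ n = ci B w h U k + H * ons B n - cq B w h U k := by
  have hlen : U.length = n := uok_len hU
  have hww : 0 < w * w := Nat.mul_pos hw0 hw0
  have hH0 : 0 < H := by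
    have : 0 < 2 * n * (w * w) := Nat.mul_pos (by omega) hww
    omega
  have hb : 2 * (n : ℤ) * (((w : ℤ) - 1) * ((w : ℤ) - 1)) < H := by
    have h1 : 2 * (n : ℤ) * ((w : ℤ) * w) ≤ H := by exact_mod_cast hH
    have h2 : (1 : ℤ) ≤ w := by exact_mod_cast hw0
    have h3 : (1 : ℤ) ≤ n := by exact_mod_cast (by omega : 1 ≤ n)
    nlinarith
  have hG1 : ∀ i < n, |Gre w h U i k| < (H : ℤ) := fun i _ => by
    have := Gre_abs w h hw' U i k
    rw [hlen] at this
    linarith
  have hG2 : ∀ i < n, |Gim w h U i k| < (H : ℤ) := fun i _ => by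
    have := Gim_abs w h hw' U i k
    rw [hlen] at this
    linarith
  obtain ⟨r1, r2⟩ := packed_lt B H n _ _ _ hB (cr_cq B w h hw0 hw U n k hU hk) hG1
  obtain ⟨i1, i2⟩ := packed_lt B H n _ _ _ hB (ci_cq B w h hw0 hw U n k hU hk) hG2
  obtain ⟨y, hy, hy'⟩ := clp_get (be := B ^ n) hZ hw0 hw U 1 (H * (ons B n * (1 + B ^ n))) k
    (by omega)
  refine ⟨y, hy, split_of_zmod r1 i1 ?_⟩
  have r3 := congrArg (Int.cast : ℤ → ZMod (B ^ n * B ^ n)) r2
  have i3 := congrArg (Int.cast : ℤ → ZMod (B ^ n * B ^ n)) i2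
  simp only [Int.cast_natCast, Int.cast_sub, Int.cast_add, Int.cast_mul] at r3 i3
  rw [hy', Nat.cast_add, Nat.cast_mul (B ^ n) (ci B w h U k + H * ons B n - cq B w h U k), r3, i3]
  push_cast
  ring

/-- the reading of the real part of a column -/
noncomputable def rdR (B be : ℕ) (bs : List Blk) (x : ℕ) : ℕ :=
  frc (fun y => brN B bs y) (Nat.mod x be)

/-- the reading of the imaginary part of a column -/
noncomputable def rdI (B be g : ℕ) (bs : List Blk) (x : ℕ) : ℕ :=
  frc (fun y => biN B g bs y) (Nat.mod (Nat.div x be) be)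

theorem rdR_eq (B be : ℕ) (bs : List Blk) (x : ℕ) : rdR B be bs x = brN B bs (x % be) :=
  frc_eq _ _

theorem rdI_eq (B be g : ℕ) (bs : List Blk) (x : ℕ) :
    rdI B be g bs x = biN B g bs (x / be % be) := frc_eq _ _

theorem mr_eq {B H w h n : ℕ} (hB : B = 2 * H) (hH : 2 * n * (w * w) ≤ H) (hw0 : 0 < w)
    (hw : w ≤ 2 * h + 1) (hw' : h < w) {U : List (ℕ × ℕ × ℕ)} (hU : uok U n = true) {Z1 : ℕ}
    (hZ : B ^ n * B ^ n = Z1 + 1) {T : List (ℕ × List Blk)}
    (hT : T.map Prod.fst = List.range' 0 T.length) (hn : T.length = n) :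
    mr B H w h n U T = (mM (rdR B (B ^ n)) T
      (clp B w h (B ^ n) (B ^ n * B ^ n) Z1 U 1 (H * (ons B n * (1 + B ^ n)))) : ℤ)
        - H * (tO brO T : ℤ) := by
  rw [mr_sum, mM_eq (rdR B (B ^ n)) (brN B)
    (fun k => cr B w h U k + H * ons B n - cq B w h U k) T 0 _ hT]
  intro k hk
  obtain ⟨y, hy, h1, -⟩ := clp_split hB hH hw0 hw hw' hU hZ k (by omega)
  refine ⟨y, hy, fun bs => ?_⟩
  rw [rdR_eq, h1, Nat.zero_add]

theorem mi_eq {B H w h n : ℕ} (hB : B = 2 * H) (hH : 2 * n * (w * w) ≤ H) (hw0 : 0 < w)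
    (hw : w ≤ 2 * h + 1) (hw' : h < w) {U : List (ℕ × ℕ × ℕ)} (hU : uok U n = true) {Z1 : ℕ}
    (hZ : B ^ n * B ^ n = Z1 + 1) {T : List (ℕ × List Blk)}
    (hT : T.map Prod.fst = List.range' 0 T.length) (hn : T.length = n) :
    mi B H w h n U T = (mM (rdI B (B ^ n) (2 * H)) T
      (clp B w h (B ^ n) (B ^ n * B ^ n) Z1 U 1 (H * (ons B n * (1 + B ^ n)))) : ℤ)
        - H * (tO biO T : ℤ) := by
  rw [mi_sum, mM_eq (rdI B (B ^ n) (2 * H)) (biN B (2 * H))
    (fun k => ci B w h U k + H * ons B n - cq B w h U k) T 0 _ hT]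
  intro k hk
  obtain ⟨y, hy, -, h1⟩ := clp_split hB hH hw0 hw hw' hU hZ k (by omega)
  refine ⟨y, hy, fun bs => ?_⟩
  rw [rdI_eq, h1, Nat.zero_add]

/-! ## The fast checks -/

/-- constants of a table -/
structure TabC where
  /-- the form, real -/
  zq : ℕ
  /-- the derivatives, real -/
  zD : ℕ
  /-- the products with multiplicities, real -/
  zaE : ℕ
  /-- the products, real -/
  zE : ℕ
  /-- the monomials, real -/
  zM : ℕ
  /-- the monomials with weights, real -/
  zwM : ℕ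
  /-- the Gram matrix, real -/
  zC : ℕ
  /-- the residual, real -/
  zr : ℕ
  /-- the sum of all squares -/
  d1 : ℕ
  /-- the form, imaginary -/
  yq : ℕ
  /-- the derivatives, imaginary -/
  yD : ℕ
  /-- the products with multiplicities, imaginary -/
  yaE : ℕ
  /-- the products, imaginary -/
  yE : ℕ
  /-- the monomials, imaginary -/
  yM : ℕ
  /-- the monomials with weights, imaginary -/
  ywM : ℕ
  /-- the Gram matrix, imaginary -/
  yC : ℕ
  /-- the residual, imaginary -/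
  yr : ℕ

/-- the constants belong to the table -/
noncomputable def TabC.ok (c : TabC) (t : Tab6) : Bool :=
  and (and (and (and (Nat.beq c.zq (brO t.q)) (Nat.beq c.zD (gO o1 t.g)))
    (and (Nat.beq c.zaE (gO (fun g => Nat.mul g.a (o2 g)) t.g)) (Nat.beq c.zE (gO o2 t.g))))
    (and (and (Nat.beq c.zM (gO o4 t.g)) (Nat.beq c.zwM (gO (fun g => Nat.mul g.w (o4 g)) t.g)))
      (and (Nat.beq c.zC (tO brO t.c)) (Nat.beq c.zr (brO t.r)))))
    (and (and (and (and (Nat.beq c.yq (biO t.q)) (Nat.beq c.yD (gO p1 t.g)))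
    (and (Nat.beq c.yaE (gO (fun g => Nat.mul g.a (p2 g)) t.g)) (Nat.beq c.yE (gO p2 t.g))))
    (and (and (Nat.beq c.yM (gO p4 t.g)) (Nat.beq c.ywM (gO (fun g => Nat.mul g.w (p4 g)) t.g)))
      (and (Nat.beq c.yC (tO biO t.c)) (Nat.beq c.yr (biO t.r)))))
      (Nat.beq c.d1 (brN 2 t.d (Nat.sub (Nat.pow 2 t.nB) 1))))

/-- the groups, real part -/
noncomputable def gsF (P : Par) (w h : ℕ) (c : TabC) (gs : List Grp) (l : List (ℕ × ℕ)) : ℤ :=
  Int.sub (Int.add (Int.sub
    (Int.mul (Int.ofNat (Nat.mul P.bd P.sr))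
      (Int.subNatNat (Nat.add (gN (f1 w) gs l) (Nat.mul h c.zaE))
        (Nat.add (gN (fun g xy => Nat.mul g.a (f2 w g xy)) gs l) (Nat.mul h c.zD))))
    (Int.mul (Int.mul (Int.ofNat (Nat.mul 2 P.bd)) P.p)
      (Int.subNatNat (gN (f2 w) gs l) (Nat.mul h c.zE))))
    (Int.mul (Int.mul (Int.ofNat (Nat.mul 2 P.bd)) P.q)
      (Int.subNatNat (gN (f3 w) gs l) (Nat.mul h c.zE))))
    (Int.mul (Int.ofNat P.sr) (Int.subNatNat
      (Nat.add (Nat.mul P.bn (gN (f4 w) gs l))
        (Nat.mul P.bd (gN (fun g xy => Nat.mul g.w (f4 w g xy)) gs l)))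
      (Nat.mul h (Nat.add (Nat.mul P.bn c.zM) (Nat.mul P.bd c.zwM)))))

/-- the groups, imaginary part -/
noncomputable def gsG (P : Par) (w h h2 : ℕ) (c : TabC) (gs : List Grp) (l : List (ℕ × ℕ)) : ℤ :=
  Int.add (Int.add (Int.add
    (Int.mul (Int.ofNat (Nat.mul P.bd P.sr))
      (Int.subNatNat (Nat.add (gN (fun g xy => Nat.mul g.a (i3 w h2 g xy)) gs l) (Nat.mul h c.yD))
        (Nat.add (gN (i1 w h2) gs l) (Nat.mul h c.yaE))))
    (Int.mul (Int.mul (Int.ofNat (Nat.mul 2 P.bd)) P.p)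
      (Int.subNatNat (gN (i3 w h2) gs l) (Nat.mul h c.yE))))
    (Int.mul (Int.mul (Int.ofNat (Nat.mul 2 P.bd)) P.q)
      (Int.subNatNat (gN (i2 w h2) gs l) (Nat.mul h c.yE))))
    (Int.mul (Int.ofNat P.sr) (Int.subNatNat
      (Nat.add (Nat.mul P.bn (gN (i4 w h2) gs l))
        (Nat.mul P.bd (gN (fun g xy => Nat.mul g.w (i4 w h2 g xy)) gs l)))
      (Nat.mul h (Nat.add (Nat.mul P.bn c.yM) (Nat.mul P.bd c.ywM)))))

/-- the real part of the identity; `X` is the list of the columns -/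
noncomputable def FRf (t : Tab6) (c : TabC) (C : Cert6) (B be : ℕ) (X : List ℕ) : ℤ :=
  Int.add (Int.add
    (Int.mul (Int.ofNat (Nat.mul 2 C.m1)) (Int.add
      (Int.mul (Int.ofNat (Nat.mul C.P.sr C.P.bd))
        (Int.subNatNat (Nat.add (Nat.shiftLeft C.eta t.one) (frc (fun w => brN w t.q C.qx) C.wQ))
          (Nat.mul C.hQ c.zq)))
      (Int.mul (Int.ofNat C.mL) (frc (fun w => gsF C.P w C.hL c t.g C.G) C.wL))))
    (Int.mul (Int.ofNat C.m2) (Int.subNatNat (mM (rdR B be) t.c X) (Nat.mul C.hG c.zC))))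
    (Int.add (Int.ofNat (Nat.add (frc (fun w => brN w t.d C.dg) C.wD) (Nat.mul C.eps c.d1)))
      (Int.mul (Int.ofNat 2) (Int.subNatNat (frc (fun w => brN w t.r C.rx) C.wR)
        (Nat.mul C.hR c.zr))))

/-- minus the imaginary part of the identity -/
noncomputable def FIf (t : Tab6) (c : TabC) (C : Cert6) (B be : ℕ) (X : List ℕ) : ℤ :=
  Int.add (Int.sub
    (Int.mul (Int.ofNat C.m2) (Int.subNatNat
      (frc (fun g => mM (rdI B be g) t.c X) (Nat.mul 2 C.hG)) (Nat.mul C.hG c.yC)))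
    (Int.mul (Int.ofNat (Nat.mul 2 C.m1)) (Int.sub
      (Int.mul (Int.ofNat C.mL)
        (frc (fun h2 => frc (fun w => gsG C.P w C.hL h2 c t.g C.G) C.wL) (Nat.mul 2 C.hL)))
      (Int.mul (Int.ofNat (Nat.mul C.P.sr C.P.bd))
        (Int.subNatNat (frc (fun h2 => frc (fun w => biN w h2 t.q C.qy) C.wQ) (Nat.mul 2 C.hQ))
          (Nat.mul C.hQ c.yq))))))
    (Int.mul (Int.ofNat 2) (Int.subNatNat
      (frc (fun h2 => frc (fun w => biN w h2 t.r C.ry) C.wR) (Nat.mul 2 C.hR))
      (Nat.mul C.hR c.yr)))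

/-- the conditions on the sizes -/
noncomputable def szF (t : Tab6) (C : Cert6) : Bool :=
  and (and (Nat.ble (Nat.succ C.hU) C.wU) (Nat.ble C.wU (Nat.succ (Nat.mul 2 C.hU))))
    (and (Nat.beq C.wG (Nat.mul 2 C.hG))
      (Nat.ble (Nat.mul (Nat.mul 2 t.n) (Nat.mul C.wU C.wU)) C.hG))

/-- **The fast form of the checks `chR` and `chI`.** -/
noncomputable def chF (t : Tab6) (c : TabC) (C : Cert6) : Bool :=
  and (and (and (glen t.g C.G) (uok C.U t.n)) (szF t C))
    (frc (fun B => frc (fun w => frc (fun h => frc (fun be => frc (fun Z1 => frc (fun Z =>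
      (fun X : List ℕ => and (Nat.beq Z (Nat.succ Z1))
        (and (isz (FRf t c C B be X)) (isz (FIf t c C B be X))))
        (clp B w h be Z Z1 C.U 1 (Nat.mul C.hG (Nat.mul (ons B t.n) (Nat.add 1 be)))))
      (Nat.mul be be)) (Nat.sub (Nat.mul be be) 1)) (Nat.pow B t.n)) C.hU) C.wU) C.wG)

theorem TabC.ok_eqs {c : TabC} {t : Tab6} (h : c.ok t = true) :
    (c.zq = brO t.q ∧ c.zD = gO o1 t.g ∧ c.zaE = gO (fun g => Nat.mul g.a (o2 g)) t.g
      ∧ c.zE = gO o2 t.g ∧ c.zM = gO o4 t.g ∧ c.zwM = gO (fun g => Nat.mul g.w (o4 g)) t.g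
      ∧ c.zC = tO brO t.c ∧ c.zr = brO t.r)
    ∧ (c.yq = biO t.q ∧ c.yD = gO p1 t.g ∧ c.yaE = gO (fun g => Nat.mul g.a (p2 g)) t.g
      ∧ c.yE = gO p2 t.g ∧ c.yM = gO p4 t.g ∧ c.ywM = gO (fun g => Nat.mul g.w (p4 g)) t.g
      ∧ c.yC = tO biO t.c ∧ c.yr = biO t.r) ∧ c.d1 = brN 2 t.d (2 ^ t.nB - 1) := by
  simp only [TabC.ok, Bool.and_eq_true] at h
  obtain ⟨⟨⟨⟨a1, a2⟩, a3, a4⟩, ⟨a5, a6⟩, a7, a8⟩, ⟨⟨⟨b1, b2⟩, b3, b4⟩, ⟨b5, b6⟩, b7, b8⟩, d⟩ := h
  exact ⟨⟨Nat.eq_of_beq_eq_true a1, Nat.eq_of_beq_eq_true a2, Nat.eq_of_beq_eq_true a3,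
    Nat.eq_of_beq_eq_true a4, Nat.eq_of_beq_eq_true a5, Nat.eq_of_beq_eq_true a6,
    Nat.eq_of_beq_eq_true a7, Nat.eq_of_beq_eq_true a8⟩,
    ⟨Nat.eq_of_beq_eq_true b1, Nat.eq_of_beq_eq_true b2, Nat.eq_of_beq_eq_true b3,
    Nat.eq_of_beq_eq_true b4, Nat.eq_of_beq_eq_true b5, Nat.eq_of_beq_eq_true b6,
    Nat.eq_of_beq_eq_true b7, Nat.eq_of_beq_eq_true b8⟩, Nat.eq_of_beq_eq_true d⟩

theorem gsF_eq {t : Tab6} {c : TabC} (hc : c.ok t = true) (P : Par) (w h : ℕ)
    (l : List (ℕ × ℕ)) (hl : glen t.g l = true) : gsF P w h c t.g l = gsr P w h t.g l := by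
  obtain ⟨⟨e1, e2, e3, e4, e5, e6, e7, e8⟩, -, -⟩ := TabC.ok_eqs hc
  rw [gsr_eq P w h t.g l hl, ← e2, ← e3, ← e4, ← e5, ← e6]
  have h1 : gsF P w h c t.g l = ((P.bd * P.sr : ℕ) : ℤ)
      * Int.subNatNat (gN (f1 w) t.g l + h * c.zaE)
        (gN (fun g xy => Nat.mul g.a (f2 w g xy)) t.g l + h * c.zD)
      - (((2 * P.bd : ℕ) : ℤ) * P.p) * Int.subNatNat (gN (f2 w) t.g l) (h * c.zE)
      + (((2 * P.bd : ℕ) : ℤ) * P.q) * Int.subNatNat (gN (f3 w) t.g l) (h * c.zE)
      - (P.sr : ℤ) * Int.subNatNat (P.bn * gN (f4 w) t.g l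
          + P.bd * gN (fun g xy => Nat.mul g.w (f4 w g xy)) t.g l)
        (h * (P.bn * c.zM + P.bd * c.zwM)) := rfl
  rw [h1]
  simp only [Int.subNatNat_eq_coe]
  push_cast
  ring

theorem gsG_eq {t : Tab6} {c : TabC} (hc : c.ok t = true) (P : Par) (w h : ℕ)
    (l : List (ℕ × ℕ)) (hl : glen t.g l = true) :
    gsG P w h (2 * h) c t.g l = gsi P w h t.g l := by
  obtain ⟨-, ⟨e1, e2, e3, e4, e5, e6, e7, e8⟩, -⟩ := TabC.ok_eqs hc
  rw [gsi_eq P w h t.g l hl, ← e2, ← e3, ← e4, ← e5, ← e6]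
  have h1 : gsG P w h (2 * h) c t.g l = ((P.bd * P.sr : ℕ) : ℤ)
      * Int.subNatNat (gN (fun g xy => Nat.mul g.a (i3 w (2 * h) g xy)) t.g l + h * c.yD)
        (gN (i1 w (2 * h)) t.g l + h * c.yaE)
      + (((2 * P.bd : ℕ) : ℤ) * P.p) * Int.subNatNat (gN (i3 w (2 * h)) t.g l) (h * c.yE)
      + (((2 * P.bd : ℕ) : ℤ) * P.q) * Int.subNatNat (gN (i2 w (2 * h)) t.g l) (h * c.yE)
      + (P.sr : ℤ) * Int.subNatNat (P.bn * gN (i4 w (2 * h)) t.g l
          + P.bd * gN (fun g xy => Nat.mul g.w (i4 w (2 * h) g xy)) t.g l)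
        (h * (P.bn * c.yM + P.bd * c.ywM)) := rfl
  rw [h1]
  simp only [Int.subNatNat_eq_coe]
  push_cast
  ring

theorem FRf_eq {t : Tab6} {c : TabC} (hc : c.ok t = true)
    (hT : t.c.map Prod.fst = List.range' 0 t.c.length) (hn : t.c.length = t.n) (C : Cert6)
    (hl : glen t.g C.G = true) (hU : uok C.U t.n = true) (h1 : C.hU < C.wU)
    (h2 : C.wU ≤ 2 * C.hU + 1) (h3 : C.wG = 2 * C.hG) (h4 : 2 * t.n * (C.wU * C.wU) ≤ C.hG)
    {Z1 : ℕ} (hZ : C.wG ^ t.n * C.wG ^ t.n = Z1 + 1) :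
    FRf t c C C.wG (C.wG ^ t.n) (clp C.wG C.wU C.hU (C.wG ^ t.n) (C.wG ^ t.n * C.wG ^ t.n) Z1 C.U 1
      (C.hG * (ons C.wG t.n * (1 + C.wG ^ t.n)))) = FR t C := by
  obtain ⟨⟨e1, e2, e3, e4, e5, e6, e7, e8⟩, -, ed⟩ := TabC.ok_eqs hc
  set X := clp C.wG C.wU C.hU (C.wG ^ t.n) (C.wG ^ t.n * C.wG ^ t.n) Z1 C.U 1
      (C.hG * (ons C.wG t.n * (1 + C.wG ^ t.n))) with hX
  have q1 : FRf t c C C.wG (C.wG ^ t.n) X
      = ((2 * C.m1 : ℕ) : ℤ) * (((C.P.sr * C.P.bd : ℕ) : ℤ)
          * (Int.subNatNat (Nat.shiftLeft C.eta t.one + frc (fun w => brN w t.q C.qx) C.wQ)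
            (C.hQ * c.zq)) + (C.mL : ℤ) * frc (fun w => gsF C.P w C.hL c t.g C.G) C.wL)
        + (C.m2 : ℤ) * Int.subNatNat (mM (rdR C.wG (C.wG ^ t.n)) t.c X) (C.hG * c.zC)
        + ((((frc (fun w => brN w t.d C.dg) C.wD + C.eps * c.d1 : ℕ)) : ℤ)
          + 2 * Int.subNatNat (frc (fun w => brN w t.r C.rx) C.wR) (C.hR * c.zr)) := rfl
  have q2 : FR t C = ((2 * C.m1 : ℕ) : ℤ) * (((C.P.sr * C.P.bd : ℕ) : ℤ)
          * (((Nat.shiftLeft C.eta t.one : ℕ) : ℤ) + br C.wQ C.hQ t.q C.qx)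
            + (C.mL : ℤ) * gsr C.P C.wL C.hL t.g C.G)
        + (C.m2 : ℤ) * mr C.wG C.hG C.wU C.hU t.n C.U t.c
        + ((br C.wD 0 t.d C.dg + (C.eps : ℤ) * br 2 0 t.d (2 ^ t.nB - 1))
          + 2 * br C.wR C.hR t.r C.rx) := rfl
  rw [q1, q2, mr_eq h3 h4 (by omega) h2 h1 hU hZ hT hn, ← hX, br_eq, br_eq, br_eq, br_eq, ← e1,
    ← e7, ← e8, ← ed]
  simp only [frc_eq, Int.subNatNat_eq_coe]
  rw [gsF_eq hc C.P C.wL C.hL C.G hl]
  push_cast
  ring

theorem FIf_eq {t : Tab6} {c : TabC} (hc : c.ok t = true)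
    (hT : t.c.map Prod.fst = List.range' 0 t.c.length) (hn : t.c.length = t.n) (C : Cert6)
    (hl : glen t.g C.G = true) (hU : uok C.U t.n = true) (h1 : C.hU < C.wU)
    (h2 : C.wU ≤ 2 * C.hU + 1) (h3 : C.wG = 2 * C.hG) (h4 : 2 * t.n * (C.wU * C.wU) ≤ C.hG)
    {Z1 : ℕ} (hZ : C.wG ^ t.n * C.wG ^ t.n = Z1 + 1) :
    FIf t c C C.wG (C.wG ^ t.n) (clp C.wG C.wU C.hU (C.wG ^ t.n) (C.wG ^ t.n * C.wG ^ t.n) Z1 C.U 1
      (C.hG * (ons C.wG t.n * (1 + C.wG ^ t.n)))) = FI t C := by
  obtain ⟨-, ⟨e1, e2, e3, e4, e5, e6, e7, e8⟩, -⟩ := TabC.ok_eqs hc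
  set X := clp C.wG C.wU C.hU (C.wG ^ t.n) (C.wG ^ t.n * C.wG ^ t.n) Z1 C.U 1
      (C.hG * (ons C.wG t.n * (1 + C.wG ^ t.n))) with hX
  have q1 : FIf t c C C.wG (C.wG ^ t.n) X
      = (C.m2 : ℤ) * Int.subNatNat (frc (fun g => mM (rdI C.wG (C.wG ^ t.n) g) t.c X) (2 * C.hG))
          (C.hG * c.yC)
        - ((2 * C.m1 : ℕ) : ℤ) * ((C.mL : ℤ)
            * frc (fun h2 => frc (fun w => gsG C.P w C.hL h2 c t.g C.G) C.wL) (2 * C.hL)
          - ((C.P.sr * C.P.bd : ℕ) : ℤ) * Int.subNatNat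
            (frc (fun h2 => frc (fun w => biN w h2 t.q C.qy) C.wQ) (2 * C.hQ)) (C.hQ * c.yq))
        + 2 * Int.subNatNat (frc (fun h2 => frc (fun w => biN w h2 t.r C.ry) C.wR) (2 * C.hR))
          (C.hR * c.yr) := rfl
  have q2 : FI t C = (C.m2 : ℤ) * mi C.wG C.hG C.wU C.hU t.n C.U t.c
        - ((2 * C.m1 : ℕ) : ℤ) * ((C.mL : ℤ) * gsi C.P C.wL C.hL t.g C.G
          - ((C.P.sr * C.P.bd : ℕ) : ℤ) * bi C.wQ C.hQ t.q C.qy)
        + 2 * bi C.wR C.hR t.r C.ry := rfl
  rw [q1, q2, mi_eq h3 h4 (by omega) h2 h1 hU hZ hT hn, ← hX, bi_eq, bi_eq, ← e1, ← e7, ← e8]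
  simp only [frc_eq, Int.subNatNat_eq_coe]
  rw [gsG_eq hc C.P C.wL C.hL C.G hl]
  push_cast
  ring

theorem chF_eqs {t : Tab6} {c : TabC} (hc : c.ok t = true)
    (hT : t.c.map Prod.fst = List.range' 0 t.c.length) (hn : t.c.length = t.n) {C : Cert6}
    (h : chF t c C = true) : chR t C = true ∧ chI t C = true := by
  have h0 : chF t c C = (((glen t.g C.G && uok C.U t.n)
      && ((Nat.ble (Nat.succ C.hU) C.wU && Nat.ble C.wU (2 * C.hU + 1))
        && (Nat.beq C.wG (2 * C.hG) && Nat.ble (2 * t.n * (C.wU * C.wU)) C.hG)))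
      && frc (fun B => frc (fun w => frc (fun h => frc (fun be => frc (fun Z1 => frc (fun Z =>
        (Nat.beq Z (Z1 + 1) && (isz (FRf t c C B be (clp B w h be Z Z1 C.U 1
            (C.hG * (ons B t.n * (1 + be)))))
          && isz (FIf t c C B be (clp B w h be Z Z1 C.U 1 (C.hG * (ons B t.n * (1 + be))))))))
      (be * be)) (be * be - 1)) (B ^ t.n)) C.hU) C.wU) C.wG) := rfl
  rw [h0] at h
  simp only [frc_eq, Bool.and_eq_true] at h
  obtain ⟨⟨⟨hl, hU⟩, ⟨s1, s2⟩, s3, s4⟩, z, h1, h2⟩ := h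
  have z' := Nat.eq_of_beq_eq_true z
  have s3' := Nat.eq_of_beq_eq_true s3
  rw [FRf_eq hc hT hn C hl hU (Nat.le_of_ble_eq_true s1) (Nat.le_of_ble_eq_true s2) s3'
    (Nat.le_of_ble_eq_true s4) z'] at h1
  rw [FIf_eq hc hT hn C hl hU (Nat.le_of_ble_eq_true s1) (Nat.le_of_ble_eq_true s2) s3'
    (Nat.le_of_ble_eq_true s4) z'] at h2
  exact ⟨h1, h2⟩

end Pool.Agent.M16.Helper12.HR2F
end

/- Helper94.T.Helper54.HR2.Sem6 -/
section
/-!
MP_16b0ee, project HR2: the forms of the second kernel computation with values in a commutative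
group, and the vanishing of a form from the vanishing of its packed value.
-/

set_option autoImplicit false

namespace Pool.Agent.M16.Helper54.HR2

open Pool.Agent.M16.Helper12.HR2 (Par)

section Forms

variable {A : Type*} [AddCommGroup A]

/-- the value of a list of terms -/
def tv (v : ℕ → A) (l : List (ℕ × ℕ)) : A := (l.map fun p => (p.2 : ℤ) • v p.1).sum

/-- the real value of a row -/
def rowR (v : ℕ → A) (r : Row) : A := tv v r.1 + (tv v r.2.1 + tv v r.2.2)

/-- the imaginary value of a row -/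
def rowI (v : ℕ → A) (r : Row) : A := tv v r.1 - tv v r.2.1

/-- the real value of a row with one term -/
def sR (v : ℕ → A) (s : Sng) : A := v s.1

/-- the imaginary value of a row with one term -/
def sI (v : ℕ → A) (s : Sng) : A := if s.2 = 0 then v s.1 else if s.2 = 1 then -v s.1 else 0

/-- a form: the digits of `x` minus `h` times the rows -/
def fm {R : Type} (F : R → A) (w h : ℕ) : List R → ℕ → A
  | [], _ => 0
  | (r :: rs), x => (((x % w : ℕ) : ℤ) - h) • F r + fm F w h rs (x / w)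

/-- the shifted valuation -/
def vo (v : ℕ → A) (o : ℕ) : ℕ → A := fun T => v (o + T)

/-- the real form of blocks -/
def bmR (v : ℕ → A) (w h : ℕ) (bs : List Blk) (x : ℕ) : A :=
  (bs.map fun b => fm (sR (vo v b.1)) w h b.2.2 (x / w ^ b.2.1)).sum

/-- the imaginary form of blocks -/
def bmI (v : ℕ → A) (w h : ℕ) (bs : List Blk) (x : ℕ) : A :=
  (bs.map fun b => fm (sI (vo v b.1)) w h b.2.2 (x / w ^ b.2.1)).sum

/-- the real form of a group -/
noncomputable def gmR (P : Par) (v : ℕ → A) (w h : ℕ) (g : Grp) (xy : ℕ × ℕ) : A :=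
  (cD P • fm (rowR (vo v g.oE)) w h g.D xy.1 - cE P g.a • fm (sR (vo v g.oE)) w h g.E xy.1)
    + cF P • fm (sR (vo v g.oE)) w h g.E xy.2 - cM P g.w • fm (sR (vo v g.oM)) w h g.M xy.1

/-- the imaginary form of a group -/
noncomputable def gmI (P : Par) (v : ℕ → A) (w h : ℕ) (g : Grp) (xy : ℕ × ℕ) : A :=
  (cF P • fm (sI (vo v g.oE)) w h g.E xy.1 - cD P • fm (rowI (vo v g.oE)) w h g.D xy.2)
    + cE P g.a • fm (sI (vo v g.oE)) w h g.E xy.2 + cM P g.w • fm (sI (vo v g.oM)) w h g.M xy.2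

/-- the real form of the groups -/
noncomputable def gsmR (P : Par) (v : ℕ → A) (w h : ℕ) : List Grp → List (ℕ × ℕ) → A
  | [], _ => 0
  | (_ :: _), [] => 0
  | (g :: gs), (xy :: l) => gmR P v w h g xy + gsmR P v w h gs l

/-- the imaginary form of the groups -/
noncomputable def gsmI (P : Par) (v : ℕ → A) (w h : ℕ) : List Grp → List (ℕ × ℕ) → A
  | [], _ => 0
  | (_ :: _), [] => 0
  | (g :: gs), (xy :: l) => gmI P v w h g xy + gsmI P v w h gs l

/-- the packed column of the Gram matrix, real part -/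
noncomputable def zc (B H w h n : ℕ) (U : List (ℕ × ℕ × ℕ)) (k : ℕ) : ℕ :=
  cr B w h U k + H * ons B n - cq B w h U k

/-- the packed column of the Gram matrix, imaginary part -/
noncomputable def zd (B H w h n : ℕ) (U : List (ℕ × ℕ × ℕ)) (k : ℕ) : ℕ :=
  ci B w h U k + H * ons B n - cq B w h U k

/-- the real form of the Gram matrix -/
noncomputable def mmR (v : ℕ → A) (B H w h n : ℕ) (U : List (ℕ × ℕ × ℕ)) (T : List (ℕ × List Blk)) :
    A := (T.map fun bs => bmR v B H bs.2 (zc B H w h n U bs.1)).sum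

/-- the imaginary form of the Gram matrix -/
noncomputable def mmI (v : ℕ → A) (B H w h n : ℕ) (U : List (ℕ × ℕ × ℕ)) (T : List (ℕ × List Blk)) :
    A := (T.map fun bs => bmI v B H bs.2 (zd B H w h n U bs.1)).sum

/-- the real form of the left side -/
noncomputable def TRm (t : Tab6) (C : Cert6) (v : ℕ → A) : A :=
  ((C.P.sr * C.P.bd : ℕ) : ℤ) • ((C.eta : ℤ) • v t.one + bmR v C.wQ C.hQ t.q C.qx)
    + (C.mL : ℤ) • gsmR C.P v C.wL C.hL t.g C.G

/-- the imaginary form of the left side -/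
noncomputable def TIm (t : Tab6) (C : Cert6) (v : ℕ → A) : A :=
  (C.mL : ℤ) • gsmI C.P v C.wL C.hL t.g C.G
    - ((C.P.sr * C.P.bd : ℕ) : ℤ) • bmI v C.wQ C.hQ t.q C.qy

/-- the real form of the identity -/
noncomputable def FRm (t : Tab6) (C : Cert6) (v : ℕ → A) : A :=
  (((2 * C.m1 : ℕ) : ℤ) • TRm t C v + (C.m2 : ℤ) • mmR v C.wG C.hG C.wU C.hU t.n C.U t.c)
    + ((bmR v C.wD 0 t.d C.dg + (C.eps : ℤ) • bmR v 2 0 t.d (2 ^ t.nB - 1))
      + (2 : ℤ) • bmR v C.wR C.hR t.r C.rx)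

/-- minus the imaginary form of the identity -/
noncomputable def FIm (t : Tab6) (C : Cert6) (v : ℕ → A) : A :=
  ((C.m2 : ℤ) • mmI v C.wG C.hG C.wU C.hU t.n C.U t.c - ((2 * C.m1 : ℕ) : ℤ) • TIm t C v)
    + (2 : ℤ) • bmI v C.wR C.hR t.r C.ry

end Forms

/-! ## Homomorphisms -/

section Hom

variable {A B : Type*} [AddCommGroup A] [AddCommGroup B] (φ : A →+ B)

theorem map_tv (v : ℕ → A) (l : List (ℕ × ℕ)) : φ (tv v l) = tv (fun T => φ (v T)) l := by
  unfold tv
  rw [map_list_sum, List.map_map]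
  congr 1
  apply List.map_congr_left
  intro p _
  simp [map_zsmul]

theorem map_fm {R : Type} (F : R → A) (w h : ℕ) (rs : List R) (x : ℕ) :
    φ (fm F w h rs x) = fm (fun r => φ (F r)) w h rs x := by
  induction rs generalizing x with
  | nil => simp [fm]
  | cons r rs ih => simp only [fm, map_add, map_zsmul, ih]

theorem map_rowR (v : ℕ → A) (r : Row) : φ (rowR v r) = rowR (fun T => φ (v T)) r := by
  simp only [rowR, map_add, map_tv]

theorem map_rowI (v : ℕ → A) (r : Row) : φ (rowI v r) = rowI (fun T => φ (v T)) r := by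
  simp only [rowI, map_sub, map_tv]

theorem map_sR (v : ℕ → A) (s : Sng) : φ (sR v s) = sR (fun T => φ (v T)) s := rfl

theorem map_sI (v : ℕ → A) (s : Sng) : φ (sI v s) = sI (fun T => φ (v T)) s := by
  unfold sI
  split_ifs
  · rfl
  · rw [map_neg]
  · rw [map_zero]

theorem map_bmR (v : ℕ → A) (w h : ℕ) (bs : List Blk) (x : ℕ) :
    φ (bmR v w h bs x) = bmR (fun T => φ (v T)) w h bs x := by
  unfold bmR
  rw [map_list_sum, List.map_map]
  congr 1
  apply List.map_congr_left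
  intro b _
  simp only [Function.comp, map_fm]
  rfl

theorem map_bmI (v : ℕ → A) (w h : ℕ) (bs : List Blk) (x : ℕ) :
    φ (bmI v w h bs x) = bmI (fun T => φ (v T)) w h bs x := by
  unfold bmI
  rw [map_list_sum, List.map_map]
  congr 1
  apply List.map_congr_left
  intro b _
  simp only [Function.comp, map_fm, map_sI]
  rfl

theorem map_gmR (P : Par) (v : ℕ → A) (w h : ℕ) (g : Grp) (xy : ℕ × ℕ) :
    φ (gmR P v w h g xy) = gmR P (fun T => φ (v T)) w h g xy := by
  unfold gmR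
  simp only [map_add, map_sub, map_zsmul, map_fm, map_rowR, map_sR]
  rfl

theorem map_gmI (P : Par) (v : ℕ → A) (w h : ℕ) (g : Grp) (xy : ℕ × ℕ) :
    φ (gmI P v w h g xy) = gmI P (fun T => φ (v T)) w h g xy := by
  unfold gmI
  simp only [map_add, map_sub, map_zsmul, map_fm, map_rowI, map_sI]
  rfl

theorem map_gsmR (P : Par) (v : ℕ → A) (w h : ℕ) (gs : List Grp) (l : List (ℕ × ℕ)) :
    φ (gsmR P v w h gs l) = gsmR P (fun T => φ (v T)) w h gs l := by
  induction gs generalizing l with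
  | nil => simp [gsmR]
  | cons g gs ih =>
    rcases l with _ | ⟨xy, l⟩
    · simp [gsmR]
    · simp only [gsmR, map_add, ih, map_gmR]

theorem map_gsmI (P : Par) (v : ℕ → A) (w h : ℕ) (gs : List Grp) (l : List (ℕ × ℕ)) :
    φ (gsmI P v w h gs l) = gsmI P (fun T => φ (v T)) w h gs l := by
  induction gs generalizing l with
  | nil => simp [gsmI]
  | cons g gs ih =>
    rcases l with _ | ⟨xy, l⟩
    · simp [gsmI]
    · simp only [gsmI, map_add, ih, map_gmI]

theorem map_mmR (v : ℕ → A) (B' H w h n : ℕ) (U : List (ℕ × ℕ × ℕ)) (T : List (ℕ × List Blk)) :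
    φ (mmR v B' H w h n U T) = mmR (fun T => φ (v T)) B' H w h n U T := by
  unfold mmR
  rw [map_list_sum, List.map_map]
  congr 1
  apply List.map_congr_left
  intro b _
  simp only [Function.comp, map_bmR]

theorem map_mmI (v : ℕ → A) (B' H w h n : ℕ) (U : List (ℕ × ℕ × ℕ)) (T : List (ℕ × List Blk)) :
    φ (mmI v B' H w h n U T) = mmI (fun T => φ (v T)) B' H w h n U T := by
  unfold mmI
  rw [map_list_sum, List.map_map]
  congr 1
  apply List.map_congr_left
  intro b _
  simp only [Function.comp, map_bmI]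

theorem map_FRm (t : Tab6) (C : Cert6) (v : ℕ → A) : φ (FRm t C v) = FRm t C (fun T => φ (v T)) := by
  unfold FRm TRm
  simp only [map_add, map_zsmul, map_bmR, map_gsmR, map_mmR]

theorem map_FIm (t : Tab6) (C : Cert6) (v : ℕ → A) : φ (FIm t C v) = FIm t C (fun T => φ (v T)) := by
  unfold FIm TIm
  simp only [map_add, map_sub, map_zsmul, map_bmI, map_gsmI, map_mmI]

end Hom

/-! ## The kernel functions are the forms with the values `2 ^ T` -/

/-- the packed valuation -/
def pw (T : ℕ) : ℤ := 2 ^ T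

theorem rr_eq (l : List (ℕ × ℕ)) : ((rr l : ℕ) : ℤ) = tv pw l := by
  induction l with
  | nil => rfl
  | cons p l ih =>
    have h1 : rr (p :: l) = p.2 <<< p.1 + rr l := rfl
    rw [h1, Nat.shiftLeft_eq]
    push_cast
    rw [ih]
    simp [tv, pw]

theorem ra_eq (r : Row) : ((ra r : ℕ) : ℤ) = rowR pw r := by
  have h1 : ra r = rr r.1 + (rr r.2.1 + rr r.2.2) := rfl
  rw [h1, rowR, ← rr_eq, ← rr_eq, ← rr_eq]
  push_cast
  rfl

theorem zr_eq (w h : ℕ) (rs : List Row) (x : ℕ) : zr w h rs x = fm (rowR pw) w h rs x := by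
  have h0 : zr w h rs x = (fr w rs x : ℤ) - (h * fr1 rs : ℕ) := Int.subNatNat_eq_coe
  rw [h0]
  clear h0
  induction rs generalizing x with
  | nil => simp [fr, fr1, fm]
  | cons r rs ih =>
    have h1 : fr w (r :: rs) x = (x % w) * ra r + fr w rs (x / w) := rfl
    have h2 : fr1 (r :: rs) = ra r + fr1 rs := rfl
    rw [h1, h2, fm, ← ih, ← ra_eq]
    push_cast
    simp only [smul_eq_mul]
    ring

theorem zi_eq (w h : ℕ) (hw0 : 0 < w) (hw : w ≤ 2 * h + 1) (rs : List Row) (x : ℕ) :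
    zi w h rs x = fm (rowI pw) w h rs x := by
  have h0 : zi w h rs x = (fi w (2 * h) rs x : ℤ) - (h * fi1 rs : ℕ) := Int.subNatNat_eq_coe
  rw [h0]
  clear h0
  induction rs generalizing x with
  | nil => simp [fi, fi1, fm]
  | cons r rs ih =>
    have h1 : fi w (2 * h) (r :: rs) x = ((x % w) * rr r.1 + (2 * h - x % w) * rr r.2.1)
      + fi w (2 * h) rs (x / w) := rfl
    have h2 : fi1 (r :: rs) = (rr r.1 + rr r.2.1) + fi1 rs := rfl
    have h3 : x % w ≤ 2 * h := by
      have := Nat.mod_lt x hw0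
      omega
    rw [h1, h2, fm, ← ih, rowI, ← rr_eq, ← rr_eq]
    push_cast [Nat.cast_sub h3]
    simp only [smul_eq_mul]
    ring

theorem yr_eq (w h : ℕ) (rs : List Sng) (x : ℕ) : yr w h rs x = fm (sR pw) w h rs x := by
  have h0 : yr w h rs x = (gr1 w rs x : ℤ) - (h * go1 rs : ℕ) := Int.subNatNat_eq_coe
  rw [h0]
  clear h0
  induction rs generalizing x with
  | nil => simp [gr1, go1, fm]
  | cons r rs ih =>
    have h1 : gr1 w (r :: rs) x = (x % w) <<< r.1 + gr1 w rs (x / w) := rfl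
    have h2 : go1 (r :: rs) = 1 <<< r.1 + go1 rs := rfl
    rw [h1, h2, fm, ← ih, Nat.shiftLeft_eq, Nat.shiftLeft_eq, sR, pw]
    push_cast
    simp only [smul_eq_mul]
    ring

theorem yi_eq (w h : ℕ) (hw0 : 0 < w) (hw : w ≤ 2 * h + 1) (rs : List Sng) (x : ℕ) :
    yi w h rs x = fm (sI pw) w h rs x := by
  have h0 : yi w h rs x = (gi1 w (2 * h) rs x : ℤ) - (h * gp1 rs : ℕ) := Int.subNatNat_eq_coe
  rw [h0]
  clear h0
  induction rs generalizing x with
  | nil => simp [gi1, gp1, fm]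
  | cons r rs ih =>
    obtain ⟨T, f⟩ := r
    have h3 : x % w ≤ 2 * h := by
      have := Nat.mod_lt x hw0
      omega
    rcases f with _ | _ | f
    · have h1 : gi1 w (2 * h) ((T, 0) :: rs) x = (x % w) <<< T + gi1 w (2 * h) rs (x / w) := rfl
      have h2 : gp1 ((T, 0) :: rs) = 1 <<< T + gp1 rs := rfl
      rw [h1, h2, fm, ← ih, Nat.shiftLeft_eq, Nat.shiftLeft_eq, sI, pw]
      push_cast
      simp only [smul_eq_mul]
      ring
    · have h1 : gi1 w (2 * h) ((T, 0 + 1) :: rs) x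
        = (2 * h - x % w) <<< T + gi1 w (2 * h) rs (x / w) := rfl
      have h2 : gp1 ((T, 0 + 1) :: rs) = 1 <<< T + gp1 rs := rfl
      rw [h1, h2, fm, ← ih, Nat.shiftLeft_eq, Nat.shiftLeft_eq, sI, pw]
      push_cast [Nat.cast_sub h3]
      simp only [smul_eq_mul]
      ring
    · have h1 : gi1 w (2 * h) ((T, f + 1 + 1) :: rs) x = gi1 w (2 * h) rs (x / w) := rfl
      have h2 : gp1 ((T, f + 1 + 1) :: rs) = gp1 rs := rfl
      have h4 : sI pw ((T, f + 1 + 1) : Sng) = 0 := by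
        simp [sI]
      rw [h1, h2, fm, ← ih, h4, smul_zero, zero_add]

theorem vo_pw (o : ℕ) : vo pw o = fun T => (2 ^ o : ℤ) * pw T := by
  funext T
  simp only [vo, pw, pow_add]

theorem fm_mul {R : Type} (F : R → ℤ) (z : ℤ) (w h : ℕ) (rs : List R) (x : ℕ) :
    fm (fun r => z * F r) w h rs x = z * fm F w h rs x := by
  have := map_fm (AddMonoidHom.mulLeft z) F w h rs x
  simpa using this.symm

theorem sh_eq (o : ℕ) (z : ℤ) : sh o z = 2 ^ o * z := by
  have h1 : sh o z = ((1 <<< o : ℕ) : ℤ) * z := rfl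
  rw [h1, Nat.shiftLeft_eq]
  push_cast
  ring

theorem fm_sR_vo (o w h : ℕ) (rs : List Sng) (x : ℕ) :
    fm (sR (vo pw o)) w h rs x = 2 ^ o * fm (sR pw) w h rs x := by
  rw [← fm_mul, vo_pw]
  rfl

theorem fm_sI_vo (o w h : ℕ) (rs : List Sng) (x : ℕ) :
    fm (sI (vo pw o)) w h rs x = 2 ^ o * fm (sI pw) w h rs x := by
  rw [← fm_mul, vo_pw]
  congr 1
  funext r
  unfold sI
  split_ifs <;> ring

theorem fm_rowR_vo (o w h : ℕ) (rs : List Row) (x : ℕ) :
    fm (rowR (vo pw o)) w h rs x = 2 ^ o * fm (rowR pw) w h rs x := by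
  rw [← fm_mul, vo_pw]
  congr 1
  funext r
  have := map_rowR (AddMonoidHom.mulLeft (2 ^ o : ℤ)) pw r
  simpa using this.symm

theorem fm_rowI_vo (o w h : ℕ) (rs : List Row) (x : ℕ) :
    fm (rowI (vo pw o)) w h rs x = 2 ^ o * fm (rowI pw) w h rs x := by
  rw [← fm_mul, vo_pw]
  congr 1
  funext r
  have := map_rowI (AddMonoidHom.mulLeft (2 ^ o : ℤ)) pw r
  simpa using this.symm

theorem br_eq (w h : ℕ) (bs : List Blk) (x : ℕ) : br w h bs x = bmR pw w h bs x := by
  induction bs with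
  | nil => rfl
  | cons b bs ih =>
    have h1 : br w h (b :: bs) x = sh b.1 (yr w h b.2.2 (x / w ^ b.2.1)) + br w h bs x := rfl
    rw [h1, ih, sh_eq, yr_eq]
    simp only [bmR, List.map_cons, List.sum_cons]
    rw [fm_sR_vo]

theorem bi_eq (w h : ℕ) (hw0 : 0 < w) (hw : w ≤ 2 * h + 1) (bs : List Blk) (x : ℕ) :
    bi w h bs x = bmI pw w h bs x := by
  induction bs with
  | nil => rfl
  | cons b bs ih =>
    have h1 : bi w h (b :: bs) x = sh b.1 (yi w h b.2.2 (x / w ^ b.2.1)) + bi w h bs x := rfl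
    rw [h1, ih, sh_eq, yi_eq w h hw0 hw]
    simp only [bmI, List.map_cons, List.sum_cons]
    rw [fm_sI_vo]

theorem gr_eq (P : Par) (w h : ℕ) (g : Grp) (xy : ℕ × ℕ) : gr P w h g xy = gmR P pw w h g xy := by
  have h1 : gr P w h g xy = sh g.oE (cD P * zr w h g.D xy.1 - cE P g.a * yr w h g.E xy.1
    + cF P * yr w h g.E xy.2) - sh g.oM (cM P g.w * yr w h g.M xy.1) := rfl
  rw [h1, gmR, sh_eq, sh_eq, zr_eq, yr_eq, yr_eq, yr_eq, fm_rowR_vo, fm_sR_vo, fm_sR_vo, fm_sR_vo]
  simp only [smul_eq_mul]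
  ring

theorem gi_eq (P : Par) (w h : ℕ) (hw0 : 0 < w) (hw : w ≤ 2 * h + 1) (g : Grp) (xy : ℕ × ℕ) :
    gi P w h g xy = gmI P pw w h g xy := by
  have h1 : gi P w h g xy = sh g.oE (cF P * yi w h g.E xy.1 - cD P * zi w h g.D xy.2
    + cE P g.a * yi w h g.E xy.2) + sh g.oM (cM P g.w * yi w h g.M xy.2) := rfl
  rw [h1, gmI, sh_eq, sh_eq, zi_eq w h hw0 hw, yi_eq w h hw0 hw, yi_eq w h hw0 hw,
    yi_eq w h hw0 hw, fm_rowI_vo, fm_sI_vo, fm_sI_vo, fm_sI_vo]
  simp only [smul_eq_mul]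
  ring

theorem gsr_eq (P : Par) (w h : ℕ) (gs : List Grp) (l : List (ℕ × ℕ)) :
    gsr P w h gs l = gsmR P pw w h gs l := by
  induction gs generalizing l with
  | nil => rfl
  | cons g gs ih =>
    rcases l with _ | ⟨xy, l⟩
    · rfl
    · have h1 : gsr P w h (g :: gs) (xy :: l) = gr P w h g xy + gsr P w h gs l := rfl
      rw [h1, ih, gr_eq, gsmR]

theorem gsi_eq (P : Par) (w h : ℕ) (hw0 : 0 < w) (hw : w ≤ 2 * h + 1) (gs : List Grp)
    (l : List (ℕ × ℕ)) : gsi P w h gs l = gsmI P pw w h gs l := by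
  induction gs generalizing l with
  | nil => rfl
  | cons g gs ih =>
    rcases l with _ | ⟨xy, l⟩
    · rfl
    · have h1 : gsi P w h (g :: gs) (xy :: l) = gi P w h g xy + gsi P w h gs l := rfl
      rw [h1, ih, gi_eq P w h hw0 hw, gsmI]

theorem mr_eq (B H w h n : ℕ) (U : List (ℕ × ℕ × ℕ)) (T : List (ℕ × List Blk)) :
    mr B H w h n U T = mmR pw B H w h n U T := by
  induction T with
  | nil => rfl
  | cons b T ih =>
    have h1 : mr B H w h n U (b :: T) = br B H b.2 (zc B H w h n U b.1) + mr B H w h n U T := rfl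
    rw [h1, ih, br_eq]
    simp [mmR]

theorem mi_eq (B H w h n : ℕ) (hw0 : 0 < B) (hw : B ≤ 2 * H + 1) (U : List (ℕ × ℕ × ℕ))
    (T : List (ℕ × List Blk)) : mi B H w h n U T = mmI pw B H w h n U T := by
  induction T with
  | nil => rfl
  | cons b T ih =>
    have h1 : mi B H w h n U (b :: T) = bi B H b.2 (zd B H w h n U b.1) + mi B H w h n U T := rfl
    rw [h1, ih, bi_eq B H hw0 hw]
    simp [mmI]

theorem FR_eq (t : Tab6) (C : Cert6) : FR t C = FRm t C pw := by
  have h1 : FR t C = (((2 * C.m1 : ℕ) : ℤ) * TR t C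
      + (C.m2 : ℤ) * mr C.wG C.hG C.wU C.hU t.n C.U t.c)
      + ((br C.wD 0 t.d C.dg + (C.eps : ℤ) * br 2 0 t.d (2 ^ t.nB - 1))
        + 2 * br C.wR C.hR t.r C.rx) := rfl
  have h2 : TR t C = ((C.P.sr * C.P.bd : ℕ) : ℤ) * (((C.eta <<< t.one : ℕ) : ℤ)
      + br C.wQ C.hQ t.q C.qx) + (C.mL : ℤ) * gsr C.P C.wL C.hL t.g C.G := rfl
  rw [h1, h2, FRm, TRm, mr_eq, br_eq, br_eq, br_eq, br_eq, gsr_eq, Nat.shiftLeft_eq]
  simp only [smul_eq_mul, pw]
  push_cast
  ring

theorem FI_eq (t : Tab6) (C : Cert6) (hL0 : 0 < C.wL) (hL : C.wL ≤ 2 * C.hL + 1) (hQ0 : 0 < C.wQ)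
    (hQ : C.wQ ≤ 2 * C.hQ + 1) (hG0 : 0 < C.wG) (hG : C.wG ≤ 2 * C.hG + 1) (hR0 : 0 < C.wR)
    (hR : C.wR ≤ 2 * C.hR + 1) : FI t C = FIm t C pw := by
  have h1 : FI t C = ((C.m2 : ℤ) * mi C.wG C.hG C.wU C.hU t.n C.U t.c
      - ((2 * C.m1 : ℕ) : ℤ) * TI t C) + 2 * bi C.wR C.hR t.r C.ry := rfl
  have h2 : TI t C = (C.mL : ℤ) * gsi C.P C.wL C.hL t.g C.G
      - ((C.P.sr * C.P.bd : ℕ) : ℤ) * bi C.wQ C.hQ t.q C.qy := rfl
  rw [h1, h2, FIm, TIm, mi_eq _ _ _ _ _ hG0 hG, bi_eq _ _ hQ0 hQ, bi_eq _ _ hR0 hR,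
    gsi_eq _ _ _ hL0 hL]
  simp only [smul_eq_mul]

end Pool.Agent.M16.Helper54.HR2
end

/- Helper94.T.Helper54.HR2.Van6 -/
section
/-!
MP_16b0ee, project HR2: the norm of a form and the vanishing of a form from the vanishing of its
packed value.
-/

set_option autoImplicit false

namespace Pool.Agent.M16.Helper54.HR2

open Pool.Agent.M16.Helper12.HR2 (Par)

/-- the norm of an integral combination -/
noncomputable def NL (L : ℕ →₀ ℤ) : ℕ := ∑ j ∈ L.support, (L j).natAbs

theorem NL_eq (L : ℕ →₀ ℤ) (S : Finset ℕ) (hS : L.support ⊆ S) : NL L = ∑ j ∈ S, (L j).natAbs := by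
  unfold NL
  apply Finset.sum_subset hS
  intro j _ hj
  rw [Finsupp.notMem_support_iff.1 hj]
  rfl

theorem NL_zero : NL 0 = 0 := by simp [NL]

theorem NL_add (L L' : ℕ →₀ ℤ) : NL (L + L') ≤ NL L + NL L' := by
  classical
  rw [NL_eq L (L.support ∪ L'.support) Finset.subset_union_left,
    NL_eq L' (L.support ∪ L'.support) Finset.subset_union_right,
    NL_eq (L + L') (L.support ∪ L'.support) Finsupp.support_add, ← Finset.sum_add_distrib]
  apply Finset.sum_le_sum
  intro j _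
  rw [Finsupp.add_apply]
  exact Int.natAbs_add_le _ _

theorem NL_smul (z : ℤ) (L : ℕ →₀ ℤ) : NL (z • L) = z.natAbs * NL L := by
  rw [NL_eq (z • L) L.support Finsupp.support_smul, NL, Finset.mul_sum]
  apply Finset.sum_congr rfl
  intro j _
  rw [Finsupp.smul_apply, smul_eq_mul, Int.natAbs_mul]

theorem NL_neg (L : ℕ →₀ ℤ) : NL (-L) = NL L := by
  have := NL_smul (-1) L
  simpa using this

theorem NL_sub (L L' : ℕ →₀ ℤ) : NL (L - L') ≤ NL L + NL L' := by
  rw [sub_eq_add_neg]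
  have := NL_add L (-L')
  rwa [NL_neg] at this

theorem NL_single (j : ℕ) (z : ℤ) : NL (Finsupp.single j z) = z.natAbs := by
  rw [NL_eq _ {j} Finsupp.support_single_subset, Finset.sum_singleton, Finsupp.single_eq_same]

/-- the formal valuation -/
noncomputable def vF (K : ℕ) (T : ℕ) : ℕ →₀ ℤ := Finsupp.single (T / K) (2 ^ (T % K))

theorem NL_vF (K T : ℕ) : NL (vF K T) = 2 ^ (T % K) := by
  rw [vF, NL_single, Int.natAbs_pow]
  rfl

/-- a small form vanishes if its packed value vanishes -/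
theorem eq_zero_of_packed (B : ℕ) (L : ℕ →₀ ℤ) (hN : NL L < B)
    (h0 : Finsupp.linearCombination ℤ (fun j => (B : ℤ) ^ j) L = 0) : L = 0 := by
  classical
  have key : ∀ i, L i = 0 := by
    intro i
    have h1 := Pool.Agent.M16.Helper12.HR2.vanish (B : ℤ) (L.support.toList.map (fun j => (j, L j)))
      (fun j => if j = i then 1 else 0) (by
        rw [List.map_map]
        have h2 : (L.support.toList.map ((fun x : ℕ × ℤ => |x.2|) ∘ fun j => (j, L j))).sum
            = ∑ j ∈ L.support, |L j| := by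
          rw [← Finset.sum_map_toList]
          rfl
        rw [h2]
        have h3 : ((NL L : ℕ) : ℤ) = ∑ j ∈ L.support, |L j| := by
          rw [NL]
          push_cast
          rfl
        rw [← h3]
        exact_mod_cast hN) (by
        rw [List.map_map]
        have h2 : (L.support.toList.map ((fun x : ℕ × ℤ => x.2 * (B : ℤ) ^ x.1)
            ∘ fun j => (j, L j))).sum = ∑ j ∈ L.support, L j * (B : ℤ) ^ j := by
          rw [← Finset.sum_map_toList]
          rfl
        rw [h2, ← h0, Finsupp.linearCombination_apply, Finsupp.sum]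
        rfl)
    rw [List.map_map] at h1
    have h2 : (L.support.toList.map ((fun x : ℕ × ℤ => (x.2 : ℂ) * (if x.1 = i then 1 else 0))
        ∘ fun j => (j, L j))).sum = ∑ j ∈ L.support, (L j : ℂ) * (if j = i then 1 else 0) := by
      rw [← Finset.sum_map_toList]
      rfl
    rw [h2] at h1
    simp only [mul_ite, mul_one, mul_zero, Finset.sum_ite_eq', Finsupp.mem_support_iff, ne_eq,
      ite_not] at h1
    by_cases h : L i = 0
    · exact h
    · rw [if_neg h] at h1
      exact_mod_cast h1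
  ext i
  rw [key i]
  rfl

/-! ## Bounds -/

theorem NL_tv (v : ℕ → ℕ →₀ ℤ) (l : List (ℕ × ℕ)) :
    NL (tv v l) ≤ (l.map fun p => p.2 * NL (v p.1)).sum := by
  induction l with
  | nil => simp [tv, NL_zero]
  | cons p l ih =>
    have h1 : tv v (p :: l) = (p.2 : ℤ) • v p.1 + tv v l := by simp [tv]
    rw [h1]
    simp only [List.map_cons, List.sum_cons]
    refine (NL_add _ _).trans (Nat.add_le_add ?_ ih)
    rw [NL_smul]
    simp

theorem NL_fm {R : Type} (F : R → ℕ →₀ ℤ) (c : R → ℕ) (w h : ℕ) (hw : h < w) (rs : List R) (x : ℕ)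
    (hc : ∀ r ∈ rs, NL (F r) ≤ c r) : NL (fm F w h rs x) ≤ (w - 1) * (rs.map c).sum := by
  induction rs generalizing x with
  | nil => simp [fm, NL_zero]
  | cons r rs ih =>
    simp only [fm, List.map_cons, List.sum_cons, mul_add]
    refine (NL_add _ _).trans (Nat.add_le_add ?_ (ih _ (fun r' h' => hc r' (by simp [h']))))
    rw [NL_smul]
    refine Nat.mul_le_mul ?_ (hc r (by simp))
    have := Nat.mod_lt x (show 0 < w by omega)
    omega

/-- the multiplicity of a shift -/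
def eK (K T : ℕ) : ℕ := 2 ^ (T % K)

/-- the sum of the multiplicities of blocks -/
def cB (K : ℕ) (bs : List Blk) : ℕ := (bs.map fun b => (b.2.2.map fun s => eK K (b.1 + s.1)).sum).sum

/-- the sum of the multiplicities of a list of terms -/
def cT (K o : ℕ) (l : List (ℕ × ℕ)) : ℕ := (l.map fun p => p.2 * eK K (o + p.1)).sum

/-- the sum of the multiplicities of a row -/
def cRow (K o : ℕ) (r : Row) : ℕ := cT K o r.1 + (cT K o r.2.1 + cT K o r.2.2)

/-- the sum of the multiplicities of rows -/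
def cDs (K o : ℕ) (rs : List Row) : ℕ := (rs.map (cRow K o)).sum

/-- the sum of the multiplicities of rows with one term -/
def cSs (K o : ℕ) (rs : List Sng) : ℕ := (rs.map fun s => eK K (o + s.1)).sum

theorem NL_sR (K o : ℕ) (s : Sng) : NL (sR (vo (vF K) o) s) = eK K (o + s.1) := NL_vF _ _

theorem NL_sI (K o : ℕ) (s : Sng) : NL (sI (vo (vF K) o) s) ≤ eK K (o + s.1) := by
  unfold sI
  split_ifs
  · exact (NL_vF _ _).le
  · rw [NL_neg]
    exact (NL_vF _ _).le
  · rw [NL_zero]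
    exact Nat.zero_le _

theorem NL_tvo (K o : ℕ) (l : List (ℕ × ℕ)) : NL (tv (vo (vF K) o) l) ≤ cT K o l := by
  refine (NL_tv _ _).trans (le_of_eq ?_)
  unfold cT
  congr 1
  apply List.map_congr_left
  intro p _
  rw [vo, NL_vF]
  rfl

theorem NL_rowR (K o : ℕ) (r : Row) : NL (rowR (vo (vF K) o) r) ≤ cRow K o r := by
  unfold rowR cRow
  refine (NL_add _ _).trans (Nat.add_le_add (NL_tvo _ _ _) ?_)
  exact (NL_add _ _).trans (Nat.add_le_add (NL_tvo _ _ _) (NL_tvo _ _ _))

theorem NL_rowI (K o : ℕ) (r : Row) : NL (rowI (vo (vF K) o) r) ≤ cRow K o r := by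
  unfold rowI cRow
  refine (NL_sub _ _).trans (Nat.add_le_add (NL_tvo _ _ _) ?_)
  exact (NL_tvo _ _ _).trans (by omega)

theorem NL_bmR (K w h : ℕ) (hw : h < w) (bs : List Blk) (x : ℕ) :
    NL (bmR (vF K) w h bs x) ≤ (w - 1) * cB K bs := by
  induction bs with
  | nil => simp [bmR, NL_zero]
  | cons b bs ih =>
    have h1 : bmR (vF K) w h (b :: bs) x = fm (sR (vo (vF K) b.1)) w h b.2.2 (x / w ^ b.2.1)
      + bmR (vF K) w h bs x := by simp [bmR]
    have h2 : cB K (b :: bs) = (b.2.2.map fun s => eK K (b.1 + s.1)).sum + cB K bs := by simp [cB]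
    rw [h1, h2, mul_add]
    refine (NL_add _ _).trans (Nat.add_le_add ?_ ih)
    exact NL_fm _ _ w h hw _ _ (fun s _ => (NL_sR K b.1 s).le)

theorem NL_bmI (K w h : ℕ) (hw : h < w) (bs : List Blk) (x : ℕ) :
    NL (bmI (vF K) w h bs x) ≤ (w - 1) * cB K bs := by
  induction bs with
  | nil => simp [bmI, NL_zero]
  | cons b bs ih =>
    have h1 : bmI (vF K) w h (b :: bs) x = fm (sI (vo (vF K) b.1)) w h b.2.2 (x / w ^ b.2.1)
      + bmI (vF K) w h bs x := by simp [bmI]
    have h2 : cB K (b :: bs) = (b.2.2.map fun s => eK K (b.1 + s.1)).sum + cB K bs := by simp [cB]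
    rw [h1, h2, mul_add]
    refine (NL_add _ _).trans (Nat.add_le_add ?_ ih)
    exact NL_fm _ _ w h hw _ _ (fun s _ => NL_sI K b.1 s)

theorem cD_abs (P : Par) : (cD P).natAbs = P.bd * P.sr := Int.natAbs_natCast _

theorem cE_abs (P : Par) (a : ℕ) (ha : a ≤ 12) :
    (cE P a).natAbs ≤ P.bd * P.sr * 12 + 2 * P.bd * P.p.natAbs := by
  have h1 : cE P a = ((P.bd * P.sr * a : ℕ) : ℤ) + ((2 * P.bd : ℕ) : ℤ) * P.p := rfl
  rw [h1]
  refine (Int.natAbs_add_le _ _).trans (Nat.add_le_add ?_ ?_)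
  · rw [Int.natAbs_natCast]
    exact Nat.mul_le_mul_left _ ha
  · rw [Int.natAbs_mul, Int.natAbs_natCast]

theorem cF_abs (P : Par) : (cF P).natAbs = 2 * P.bd * P.q.natAbs := by
  have h1 : cF P = ((2 * P.bd : ℕ) : ℤ) * P.q := rfl
  rw [h1, Int.natAbs_mul, Int.natAbs_natCast]

theorem cM_abs (P : Par) (w : ℕ) (hw : w ≤ 12) : (cM P w).natAbs ≤ P.sr * (P.bn + P.bd * 12) := by
  have h1 : cM P w = ((P.sr * (P.bn + P.bd * w) : ℕ) : ℤ) := rfl
  rw [h1, Int.natAbs_natCast]
  exact Nat.mul_le_mul_left _ (Nat.add_le_add_left (Nat.mul_le_mul_left _ hw) _)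

/-- the number of rows of a group (with multiplicities) -/
def cG (K : ℕ) (g : Grp) : ℕ := max (cSs K g.oE g.E) (cSs K g.oM g.M)

/-- the bound of the norm of the groups -/
def bG (P : Par) (d m : ℕ) : ℕ :=
  P.bd * P.sr * d + m * (P.bd * P.sr * 12 + (2 * P.bd * (P.p.natAbs + P.q.natAbs)
    + P.sr * (P.bn + P.bd * 12)))

theorem bG_add (P : Par) (d m d' m' : ℕ) : bG P (d + d') (m + m') = bG P d m + bG P d' m' := by
  unfold bG
  ring

theorem grp_arith (P : Par) (w d e m c : ℕ) (a1 a2 a3 a4 : ℕ) (h1 : a1 = P.bd * P.sr)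
    (h2 : a2 ≤ P.bd * P.sr * 12 + 2 * P.bd * P.p.natAbs) (h3 : a3 = 2 * P.bd * P.q.natAbs)
    (h4 : a4 ≤ P.sr * (P.bn + P.bd * 12)) (he : e ≤ c) (hm : m ≤ c) :
    a1 * (w * d) + a2 * (w * e) + a3 * (w * e) + a4 * (w * m) ≤ w * bG P d c := by
  have e1 : a2 * (w * e) ≤ (P.bd * P.sr * 12 + 2 * P.bd * P.p.natAbs) * (w * c) :=
    Nat.mul_le_mul h2 (Nat.mul_le_mul_left _ he)
  have e2 : a3 * (w * e) ≤ (2 * P.bd * P.q.natAbs) * (w * c) :=
    Nat.mul_le_mul h3.le (Nat.mul_le_mul_left _ he)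
  have e3 : a4 * (w * m) ≤ (P.sr * (P.bn + P.bd * 12)) * (w * c) :=
    Nat.mul_le_mul h4 (Nat.mul_le_mul_left _ hm)
  calc _ ≤ a1 * (w * d) + (P.bd * P.sr * 12 + 2 * P.bd * P.p.natAbs) * (w * c)
        + (2 * P.bd * P.q.natAbs) * (w * c) + (P.sr * (P.bn + P.bd * 12)) * (w * c) := by
        omega
    _ = _ := by
        rw [h1]
        unfold bG
        ring

theorem NL_gmR (P : Par) (K w h : ℕ) (hw : h < w) (g : Grp) (ha : g.a ≤ 12) (hgw : g.w ≤ 12)
    (xy : ℕ × ℕ) :
    NL (gmR P (vF K) w h g xy) ≤ (w - 1) * bG P (cDs K g.oE g.D) (cG K g) := by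
  unfold gmR
  have h1 := NL_fm (rowR (vo (vF K) g.oE)) (cRow K g.oE) w h hw g.D xy.1
    (fun r _ => NL_rowR K g.oE r)
  have h2 := NL_fm (sR (vo (vF K) g.oE)) (fun s => eK K (g.oE + s.1)) w h hw g.E xy.1
    (fun s _ => (NL_sR K g.oE s).le)
  have h3 := NL_fm (sR (vo (vF K) g.oE)) (fun s => eK K (g.oE + s.1)) w h hw g.E xy.2
    (fun s _ => (NL_sR K g.oE s).le)
  have h4 := NL_fm (sR (vo (vF K) g.oM)) (fun s => eK K (g.oM + s.1)) w h hw g.M xy.1
    (fun s _ => (NL_sR K g.oM s).le)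
  refine (NL_sub _ _).trans ?_
  refine (Nat.add_le_add_right (NL_add _ _) _).trans ?_
  refine (Nat.add_le_add_right (Nat.add_le_add_right (NL_sub _ _) _) _).trans ?_
  rw [NL_smul, NL_smul, NL_smul, NL_smul]
  refine le_trans ?_ (grp_arith P (w - 1) (cDs K g.oE g.D) (cSs K g.oE g.E) (cSs K g.oM g.M)
    (cG K g) _ _ _ _ (cD_abs P) (cE_abs P g.a ha) (cF_abs P) (cM_abs P g.w hgw)
    (le_max_left _ _) (le_max_right _ _))
  exact Nat.add_le_add (Nat.add_le_add (Nat.add_le_add (Nat.mul_le_mul_left _ h1)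
    (Nat.mul_le_mul_left _ h2)) (Nat.mul_le_mul_left _ h3)) (Nat.mul_le_mul_left _ h4)

theorem NL_gmI (P : Par) (K w h : ℕ) (hw : h < w) (g : Grp) (ha : g.a ≤ 12) (hgw : g.w ≤ 12)
    (xy : ℕ × ℕ) :
    NL (gmI P (vF K) w h g xy) ≤ (w - 1) * bG P (cDs K g.oE g.D) (cG K g) := by
  unfold gmI
  have h1 := NL_fm (rowI (vo (vF K) g.oE)) (cRow K g.oE) w h hw g.D xy.2
    (fun r _ => NL_rowI K g.oE r)
  have h2 := NL_fm (sI (vo (vF K) g.oE)) (fun s => eK K (g.oE + s.1)) w h hw g.E xy.1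
    (fun s _ => NL_sI K g.oE s)
  have h3 := NL_fm (sI (vo (vF K) g.oE)) (fun s => eK K (g.oE + s.1)) w h hw g.E xy.2
    (fun s _ => NL_sI K g.oE s)
  have h4 := NL_fm (sI (vo (vF K) g.oM)) (fun s => eK K (g.oM + s.1)) w h hw g.M xy.2
    (fun s _ => NL_sI K g.oM s)
  refine (NL_add _ _).trans ?_
  refine (Nat.add_le_add_right (NL_add _ _) _).trans ?_
  refine (Nat.add_le_add_right (Nat.add_le_add_right (NL_sub _ _) _) _).trans ?_
  rw [NL_smul, NL_smul, NL_smul, NL_smul]
  refine le_trans ?_ (grp_arith P (w - 1) (cDs K g.oE g.D) (cSs K g.oE g.E) (cSs K g.oM g.M)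
    (cG K g) _ _ _ _ (cD_abs P) (cE_abs P g.a ha) (cF_abs P) (cM_abs P g.w hgw)
    (le_max_left _ _) (le_max_right _ _))
  have e1 := Nat.mul_le_mul_left (cF P).natAbs h2
  have e2 := Nat.mul_le_mul_left (cD P).natAbs h1
  have e3 := Nat.mul_le_mul_left (cE P g.a).natAbs h3
  have e4 := Nat.mul_le_mul_left (cM P g.w).natAbs h4
  calc _ ≤ _ := Nat.add_le_add (Nat.add_le_add (Nat.add_le_add e1 e2) e3) e4
    _ = _ := by
      simp only [cDs, cSs]
      ring

theorem NL_gsmR (P : Par) (K w h : ℕ) (hw : h < w) (gs : List Grp)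
    (hg : ∀ g ∈ gs, g.a ≤ 12 ∧ g.w ≤ 12) (l : List (ℕ × ℕ)) :
    NL (gsmR P (vF K) w h gs l)
      ≤ (w - 1) * bG P (gs.map fun g => cDs K g.oE g.D).sum (gs.map (cG K)).sum := by
  induction gs generalizing l with
  | nil => simp [gsmR, NL_zero]
  | cons g gs ih =>
    rcases l with _ | ⟨xy, l⟩
    · simp [gsmR, NL_zero]
    · simp only [gsmR, List.map_cons, List.sum_cons]
      rw [bG_add, mul_add]
      refine (NL_add _ _).trans (Nat.add_le_add ?_ (ih (fun g' h' => hg g' (by simp [h'])) l))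
      exact NL_gmR P K w h hw g (hg g (by simp)).1 (hg g (by simp)).2 xy

theorem NL_gsmI (P : Par) (K w h : ℕ) (hw : h < w) (gs : List Grp)
    (hg : ∀ g ∈ gs, g.a ≤ 12 ∧ g.w ≤ 12) (l : List (ℕ × ℕ)) :
    NL (gsmI P (vF K) w h gs l)
      ≤ (w - 1) * bG P (gs.map fun g => cDs K g.oE g.D).sum (gs.map (cG K)).sum := by
  induction gs generalizing l with
  | nil => simp [gsmI, NL_zero]
  | cons g gs ih =>
    rcases l with _ | ⟨xy, l⟩
    · simp [gsmI, NL_zero]
    · simp only [gsmI, List.map_cons, List.sum_cons]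
      rw [bG_add, mul_add]
      refine (NL_add _ _).trans (Nat.add_le_add ?_ (ih (fun g' h' => hg g' (by simp [h'])) l))
      exact NL_gmI P K w h hw g (hg g (by simp)).1 (hg g (by simp)).2 xy

theorem NL_mmR (K B H w h n : ℕ) (hB : H < B) (U : List (ℕ × ℕ × ℕ)) (T : List (ℕ × List Blk)) :
    NL (mmR (vF K) B H w h n U T) ≤ (B - 1) * (T.map fun b => cB K b.2).sum := by
  induction T with
  | nil => simp [mmR, NL_zero]
  | cons b T ih =>
    have h1 : mmR (vF K) B H w h n U (b :: T) = bmR (vF K) B H b.2 (zc B H w h n U b.1)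
      + mmR (vF K) B H w h n U T := by simp [mmR]
    rw [h1]
    simp only [List.map_cons, List.sum_cons, mul_add]
    exact (NL_add _ _).trans (Nat.add_le_add (NL_bmR K B H hB _ _) ih)

theorem NL_mmI (K B H w h n : ℕ) (hB : H < B) (U : List (ℕ × ℕ × ℕ)) (T : List (ℕ × List Blk)) :
    NL (mmI (vF K) B H w h n U T) ≤ (B - 1) * (T.map fun b => cB K b.2).sum := by
  induction T with
  | nil => simp [mmI, NL_zero]
  | cons b T ih =>
    have h1 : mmI (vF K) B H w h n U (b :: T) = bmI (vF K) B H b.2 (zd B H w h n U b.1)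
      + mmI (vF K) B H w h n U T := by simp [mmI]
    rw [h1]
    simp only [List.map_cons, List.sum_cons, mul_add]
    exact (NL_add _ _).trans (Nat.add_le_add (NL_bmI K B H hB _ _) ih)

/-- the numerical data of the tables are correct -/
structure NumOK (t : Tab6) (K : ℕ) : Prop where
  one : t.one % K = 0
  q : cB K t.q ≤ t.nQ
  ga : ∀ g ∈ t.g, g.a ≤ 12 ∧ g.w ≤ 12
  D : (t.g.map fun g => cDs K g.oE g.D).sum ≤ t.nD
  M : (t.g.map (cG K)).sum ≤ t.nM
  c : (t.c.map fun b => cB K b.2).sum ≤ t.nC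
  d : cB K t.d ≤ t.nB
  r : cB K t.r ≤ t.nR

theorem bG_mono (P : Par) {d d' m m' : ℕ} (hd : d ≤ d') (hm : m ≤ m') : bG P d m ≤ bG P d' m' := by
  unfold bG
  exact Nat.add_le_add (Nat.mul_le_mul_left _ hd) (Nat.mul_le_mul_right _ hm)

theorem NL_FRm {t : Tab6} {K : ℕ} (ht : NumOK t K) (C : Cert6) (hL : C.hL < C.wL)
    (hQ : C.hQ < C.wQ) (hG : C.hG < C.wG) (hD : 0 < C.wD) (hR : C.hR < C.wR) :
    NL (FRm t C (vF K)) ≤ nF t C := by
  have a1 := (NL_bmR K C.wQ C.hQ hQ t.q C.qx).trans (Nat.mul_le_mul (Nat.sub_le _ _) ht.q)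
  have a2 := (NL_gsmR C.P K C.wL C.hL hL t.g ht.ga C.G).trans
    (Nat.mul_le_mul (Nat.sub_le _ _) (bG_mono C.P ht.D ht.M))
  have a3 := (NL_mmR K C.wG C.hG C.wU C.hU t.n hG C.U t.c).trans
    (Nat.mul_le_mul (Nat.sub_le _ _) ht.c)
  have a4 := (NL_bmR K C.wD 0 hD t.d C.dg).trans (Nat.mul_le_mul (Nat.sub_le _ _) ht.d)
  have a5 := (NL_bmR K 2 0 (by norm_num) t.d (2 ^ t.nB - 1)).trans
    (Nat.mul_le_mul (le_refl (2 - 1)) ht.d)
  have a6 := (NL_bmR K C.wR C.hR hR t.r C.rx).trans (Nat.mul_le_mul (Nat.sub_le _ _) ht.r)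
  have a7 : NL (vF K t.one) = 1 := by rw [NL_vF, ht.one, pow_zero]
  have b1 : NL (TRm t C (vF K)) ≤ C.P.sr * C.P.bd * (C.eta + C.wQ * t.nQ)
      + C.mL * (C.wL * bG C.P t.nD t.nM) := by
    unfold TRm
    refine (NL_add _ _).trans (Nat.add_le_add ?_ ?_)
    · rw [NL_smul, Int.natAbs_natCast]
      refine Nat.mul_le_mul_left _ ((NL_add _ _).trans (Nat.add_le_add ?_ a1))
      rw [NL_smul, Int.natAbs_natCast, a7, mul_one]
    · rw [NL_smul, Int.natAbs_natCast]
      exact Nat.mul_le_mul_left _ a2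
  have e : nF t C = (2 * C.m1 * (C.P.sr * C.P.bd * (C.eta + C.wQ * t.nQ)
      + C.mL * (C.wL * bG C.P t.nD t.nM)) + C.m2 * (C.wG * t.nC))
      + ((C.wD + C.eps) * t.nB + 2 * (C.wR * t.nR)) := rfl
  rw [e]
  unfold FRm
  refine (NL_add _ _).trans (Nat.add_le_add ((NL_add _ _).trans (Nat.add_le_add ?_ ?_))
    ((NL_add _ _).trans (Nat.add_le_add ?_ ?_)))
  · rw [NL_smul, Int.natAbs_natCast]
    exact Nat.mul_le_mul_left _ b1
  · rw [NL_smul, Int.natAbs_natCast]
    exact Nat.mul_le_mul_left _ a3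
  · rw [add_mul]
    refine (NL_add _ _).trans (Nat.add_le_add a4 ?_)
    rw [NL_smul, Int.natAbs_natCast]
    exact Nat.mul_le_mul_left _ (a5.trans (by omega))
  · rw [NL_smul]
    exact Nat.mul_le_mul_left _ a6

theorem NL_FIm {t : Tab6} {K : ℕ} (ht : NumOK t K) (C : Cert6) (hL : C.hL < C.wL)
    (hQ : C.hQ < C.wQ) (hG : C.hG < C.wG) (hR : C.hR < C.wR) :
    NL (FIm t C (vF K)) ≤ nF t C := by
  have a1 := (NL_bmI K C.wQ C.hQ hQ t.q C.qy).trans (Nat.mul_le_mul (Nat.sub_le _ _) ht.q)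
  have a2 := (NL_gsmI C.P K C.wL C.hL hL t.g ht.ga C.G).trans
    (Nat.mul_le_mul (Nat.sub_le _ _) (bG_mono C.P ht.D ht.M))
  have a3 := (NL_mmI K C.wG C.hG C.wU C.hU t.n hG C.U t.c).trans
    (Nat.mul_le_mul (Nat.sub_le _ _) ht.c)
  have a6 := (NL_bmI K C.wR C.hR hR t.r C.ry).trans (Nat.mul_le_mul (Nat.sub_le _ _) ht.r)
  have b1 : NL (TIm t C (vF K)) ≤ C.P.sr * C.P.bd * (C.eta + C.wQ * t.nQ)
      + C.mL * (C.wL * bG C.P t.nD t.nM) := by
    unfold TIm
    refine (NL_sub _ _).trans ?_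
    rw [NL_smul, NL_smul, Int.natAbs_natCast, Int.natAbs_natCast]
    have c1 := Nat.mul_le_mul_left C.mL a2
    have c2 := Nat.mul_le_mul_left (C.P.sr * C.P.bd) (a1.trans (Nat.le_add_left _ C.eta))
    omega
  have e : nF t C = (2 * C.m1 * (C.P.sr * C.P.bd * (C.eta + C.wQ * t.nQ)
      + C.mL * (C.wL * bG C.P t.nD t.nM)) + C.m2 * (C.wG * t.nC))
      + ((C.wD + C.eps) * t.nB + 2 * (C.wR * t.nR)) := rfl
  rw [e]
  unfold FIm
  have d1 := NL_add ((C.m2 : ℤ) • mmI (vF K) C.wG C.hG C.wU C.hU t.n C.U t.c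
    - ((2 * C.m1 : ℕ) : ℤ) • TIm t C (vF K)) ((2 : ℤ) • bmI (vF K) C.wR C.hR t.r C.ry)
  have d2 := NL_sub ((C.m2 : ℤ) • mmI (vF K) C.wG C.hG C.wU C.hU t.n C.U t.c)
    (((2 * C.m1 : ℕ) : ℤ) • TIm t C (vF K))
  rw [NL_smul, NL_smul, Int.natAbs_natCast, Int.natAbs_natCast] at d2
  have d3 : NL ((2 : ℤ) • bmI (vF K) C.wR C.hR t.r C.ry) ≤ 2 * (C.wR * t.nR) := by
    rw [NL_smul]
    exact Nat.mul_le_mul_left _ a6
  have d4 := Nat.mul_le_mul_left C.m2 a3
  have d5 := Nat.mul_le_mul_left (2 * C.m1) b1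
  omega

/-- the packed homomorphism -/
noncomputable def lc {A : Type*} [AddCommGroup A] (V : ℕ → A) : (ℕ →₀ ℤ) →+ A :=
  (Finsupp.linearCombination ℤ V).toAddMonoidHom

theorem lc_vF {A : Type*} [AddCommGroup A] (V : ℕ → A) (K T : ℕ) :
    lc V (vF K T) = (2 ^ (T % K) : ℤ) • V (T / K) := by
  simp [lc, vF, Finsupp.linearCombination_single]

/-- the semantic valuation -/
def vs {A : Type*} [AddCommGroup A] (K : ℕ) (V : ℕ → A) (T : ℕ) : A := (2 ^ (T % K) : ℤ) • V (T / K)

theorem vs_pw (K : ℕ) : vs K (fun j => ((2 ^ K : ℕ) : ℤ) ^ j) = pw := by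
  funext T
  simp only [vs, pw, smul_eq_mul]
  push_cast
  rw [← pow_mul, ← pow_add]
  congr 1
  have := Nat.div_add_mod T K
  omega

theorem FRm_zero {t : Tab6} {K : ℕ} (ht : NumOK t K) (C : Cert6) (hL : C.hL < C.wL)
    (hQ : C.hQ < C.wQ) (hG : C.hG < C.wG) (hD : 0 < C.wD) (hR : C.hR < C.wR)
    (hn : nF t C < 2 ^ K) (h0 : FRm t C pw = 0) {A : Type*} [AddCommGroup A] (V : ℕ → A) :
    FRm t C (vs K V) = 0 := by
  have h1 : ∀ {A : Type} [AddCommGroup A] (V : ℕ → A),
      lc V (FRm t C (vF K)) = FRm t C (vs K V) := by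
    intro A _ V
    rw [map_FRm]
    simp only [lc_vF]
    rfl
  have h2 := h1 (fun j => ((2 ^ K : ℕ) : ℤ) ^ j)
  rw [vs_pw, h0] at h2
  have h3 := eq_zero_of_packed (2 ^ K) (FRm t C (vF K))
    (lt_of_le_of_lt (NL_FRm ht C hL hQ hG hD hR) hn) h2
  have h4 : lc V (FRm t C (vF K)) = FRm t C (vs K V) := by
    rw [map_FRm]
    simp only [lc_vF]
    rfl
  rw [← h4, h3, map_zero]

theorem FIm_zero {t : Tab6} {K : ℕ} (ht : NumOK t K) (C : Cert6) (hL : C.hL < C.wL)
    (hQ : C.hQ < C.wQ) (hG : C.hG < C.wG) (hR : C.hR < C.wR)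
    (hn : nF t C < 2 ^ K) (h0 : FIm t C pw = 0) {A : Type*} [AddCommGroup A] (V : ℕ → A) :
    FIm t C (vs K V) = 0 := by
  have h2 : lc (fun j => ((2 ^ K : ℕ) : ℤ) ^ j) (FIm t C (vF K))
      = FIm t C (vs K (fun j => ((2 ^ K : ℕ) : ℤ) ^ j)) := by
    rw [map_FIm]
    simp only [lc_vF]
    rfl
  rw [vs_pw, h0] at h2
  have h3 := eq_zero_of_packed (2 ^ K) (FIm t C (vF K))
    (lt_of_le_of_lt (NL_FIm ht C hL hQ hG hR) hn) h2
  have h4 : lc V (FIm t C (vF K)) = FIm t C (vs K V) := by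
    rw [map_FIm]
    simp only [lc_vF]
    rfl
  rw [← h4, h3, map_zero]

end Pool.Agent.M16.Helper54.HR2
end

/- Helper94.T.Helper54.HR2.Code6 -/
section
/-!
MP_16b0ee, project HR2: codes of monomials and the correctness of the tables of the second kernel
computation.
-/

set_option autoImplicit false

open scoped ComplexConjugate

namespace Pool.Agent.M16.Helper54.HR2

open Pool.Agent.M16.Helper12.HR2 (Par Mo GZ gv Pol mv pv wl rel Dvl dvl upl prd)

/-! ## Codes -/

/-- a digit to the base 16 -/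
def dig (κ k : ℕ) : ℕ := κ / 16 ^ k % 16

/-- the value of a code -/
noncomputable def mc (c : ℕ → ℂ) (κ : ℕ) : ℂ :=
  (∏ k ∈ Finset.range 6, c k ^ dig κ k) * ∏ k ∈ Finset.range 6, conj (c k) ^ dig κ (6 + k)

/-- the code of the conjugate monomial -/
def sw (κ : ℕ) : ℕ := κ / 16777216 % 16777216 + 16777216 * (κ % 16777216)

/-- the code of a monomial -/
def cod (m : Mo) : ℕ := (m.1.map (fun a => 16 ^ a)).sum + (m.2.map (fun b => 16 ^ (6 + b))).sum

theorem dig_aux (X H k : ℕ) (hk : k < 6) : (X + 16777216 * H) / 16 ^ k % 16 = X / 16 ^ k % 16 := by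
  interval_cases k <;> norm_num <;> omega

theorem dig_sw_lo (κ k : ℕ) (hk : k < 6) : dig (sw κ) k = dig κ (6 + k) := by
  have h1 := dig_aux (κ / 16777216 % 16777216) (κ % 16777216) k hk
  have h2 := dig_aux (κ / 16777216 % 16777216) (κ / 16777216 / 16777216) k hk
  have h3 : κ / 16777216 % 16777216 + 16777216 * (κ / 16777216 / 16777216) = κ / 16777216 :=
    Nat.mod_add_div _ _
  have h4 : κ / 16 ^ (6 + k) = κ / 16777216 / 16 ^ k := by
    rw [pow_add, ← Nat.div_div_eq_div_mul]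
    norm_num
  unfold dig sw
  rw [h1, h4, ← h2, h3]

theorem dig_sw_hi (κ k : ℕ) (hk : k < 6) : dig (sw κ) (6 + k) = dig κ k := by
  have h1 := dig_aux (κ % 16777216) (κ / 16777216) k hk
  have h3 : κ % 16777216 + 16777216 * (κ / 16777216) = κ := Nat.mod_add_div _ _
  have h4 : ∀ z : ℕ, z / 16 ^ (6 + k) = z / 16777216 / 16 ^ k := by
    intro z
    rw [pow_add, ← Nat.div_div_eq_div_mul]
    norm_num
  have h5 : (κ / 16777216 % 16777216 + 16777216 * (κ % 16777216)) / 16777216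
      = κ % 16777216 := by omega
  unfold dig sw
  rw [h4, h5, ← h1, h3]

theorem mc_sw (c : ℕ → ℂ) (κ : ℕ) : mc c (sw κ) = conj (mc c κ) := by
  unfold mc
  rw [map_mul, map_prod, map_prod, mul_comm]
  congr 1
  · apply Finset.prod_congr rfl
    intro k hk
    rw [dig_sw_hi κ k (Finset.mem_range.1 hk), map_pow]
  · apply Finset.prod_congr rfl
    intro k hk
    rw [dig_sw_lo κ k (Finset.mem_range.1 hk), map_pow, Complex.conj_conj]

theorem dig_sum (n : ℕ) : ∀ (e : ℕ → ℕ) (_ : ∀ k < n, e k < 16) (j : ℕ), j < n →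
    dig (∑ k ∈ Finset.range n, e k * 16 ^ k) j = e j := by
  induction n with
  | zero => intro e _ j hj; omega
  | succ n ih =>
    intro e he j hj
    have h1 : ∑ k ∈ Finset.range (n + 1), e k * 16 ^ k
        = e 0 + 16 * ∑ k ∈ Finset.range n, e (k + 1) * 16 ^ k := by
      rw [Finset.sum_range_succ', Finset.mul_sum, add_comm]
      congr 1
      · simp
      · apply Finset.sum_congr rfl
        intro k _
        ring
    rw [h1]
    have h0 := he 0 (by omega)
    rcases j with _ | j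
    · unfold dig
      simp only [pow_zero, Nat.div_one]
      omega
    · have h2 := ih (fun k => e (k + 1)) (fun k hk => he (k + 1) (by omega)) j (by omega)
      unfold dig at h2 ⊢
      rw [pow_succ', ← Nat.div_div_eq_div_mul]
      have h3 : (e 0 + 16 * ∑ k ∈ Finset.range n, e (k + 1) * 16 ^ k) / 16
          = ∑ k ∈ Finset.range n, e (k + 1) * 16 ^ k := by omega
      rw [h3]
      exact h2

/-- validity of a monomial -/
def vmo (m : Mo) : Bool :=
  m.1.all (fun i => Nat.ble (i + 1) 6) && m.2.all (fun i => Nat.ble (i + 1) 6)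
    && Nat.ble m.1.length 15 && Nat.ble m.2.length 15

theorem vmo_iff {m : Mo} (h : vmo m = true) : (∀ i ∈ m.1, i < 6) ∧ (∀ i ∈ m.2, i < 6) ∧
    m.1.length ≤ 15 ∧ m.2.length ≤ 15 := by
  unfold vmo at h
  simp only [Bool.and_eq_true, List.all_eq_true, Nat.ble_eq] at h
  obtain ⟨⟨⟨h1, h2⟩, h3⟩, h4⟩ := h
  exact ⟨fun i hi => h1 i hi, fun i hi => h2 i hi, h3, h4⟩

theorem cod_eq {m : Mo} (h : vmo m = true) : cod m
    = ∑ k ∈ Finset.range 12, (if k < 6 then m.1.count k else m.2.count (k - 6)) * 16 ^ k := by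
  obtain ⟨h1, h2, -, -⟩ := vmo_iff h
  unfold cod
  rw [Pool.Agent.M16.Helper12.HR2.sum_count 6 m.1 h1 (fun a => 16 ^ a),
    Pool.Agent.M16.Helper12.HR2.sum_count 6 m.2 h2 (fun b => 16 ^ (6 + b))]
  simp only [Finset.sum_range_succ, Finset.sum_range_zero]
  norm_num
  ring

theorem mc_cod (c : ℕ → ℂ) {m : Mo} (h : vmo m = true) :
    mc c (cod m) = mv c (fun k => conj (c k)) m := by
  obtain ⟨h1, h2, h3, h4⟩ := vmo_iff h
  have hd : ∀ j < 12, dig (cod m) j = if j < 6 then m.1.count j else m.2.count (j - 6) := by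
    intro j hj
    rw [cod_eq h]
    refine dig_sum 12 (fun k => if k < 6 then m.1.count k else m.2.count (k - 6)) ?_ j hj
    intro k _
    split_ifs
    · exact lt_of_le_of_lt List.count_le_length (by omega)
    · exact lt_of_le_of_lt List.count_le_length (by omega)
  unfold mc mv
  rw [Pool.Agent.M16.Helper12.HR2.prod_count 6 m.1 h1, Pool.Agent.M16.Helper12.HR2.prod_count 6 m.2 h2]
  congr 1
  · apply Finset.prod_congr rfl
    intro k hk
    have := Finset.mem_range.1 hk
    rw [hd k (by omega), if_pos this]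
  · apply Finset.prod_congr rfl
    intro k hk
    have := Finset.mem_range.1 hk
    rw [hd (6 + k) (by omega), if_neg (by omega)]
    congr 2
    omega

/-! ## Forms with complex digits -/

/-- a form with complex digits -/
noncomputable def cf {R : Type} (F : R → ℂ) (w h : ℕ) : List R → ℕ → ℕ → ℂ
  | [], _, _ => 0
  | (r :: rs), x, y => gv ((((x % w : ℕ) : ℤ) - h), (((y % w : ℕ) : ℤ) - h)) * F r
      + cf F w h rs (x / w) (y / w)

theorem cf_congr {R : Type} {F G : R → ℂ} (w h : ℕ) (rs : List R) (hFG : ∀ r ∈ rs, F r = G r)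
    (x y : ℕ) : cf F w h rs x y = cf G w h rs x y := by
  induction rs generalizing x y with
  | nil => rfl
  | cons r rs ih =>
    rw [cf, cf, hFG r (by simp), ih (fun r' h' => hFG r' (by simp [h']))]

theorem cf_add {R : Type} (F G : R → ℂ) (w h : ℕ) (rs : List R) (x y : ℕ) :
    cf (fun r => F r + G r) w h rs x y = cf F w h rs x y + cf G w h rs x y := by
  induction rs generalizing x y with
  | nil => simp [cf]
  | cons r rs ih => rw [cf, cf, cf, ih]; ring

theorem cf_mul {R : Type} (a : ℂ) (F : R → ℂ) (w h : ℕ) (rs : List R) (x y : ℕ) :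
    cf (fun r => a * F r) w h rs x y = a * cf F w h rs x y := by
  induction rs generalizing x y with
  | nil => simp [cf]
  | cons r rs ih => rw [cf, cf, ih]; ring

theorem pv_upl (φ ψ : ℕ → ℂ) (w h : ℕ) (ms : List Mo) (x y : ℕ) :
    pv φ ψ (upl w h ms x y) = cf (mv φ ψ) w h ms x y := by
  induction ms generalizing x y with
  | nil => simp [upl, cf, pv]
  | cons m ms ih => rw [upl, Pool.Agent.M16.Helper12.HR2.pv_cons, ih, cf]

/-- the value of a relation -/
noncomputable def rv (s b : ℂ) (c : ℕ → ℂ) (m : Mo) : ℂ :=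
  ((-2 * s * c 0 * (m.1.map c).prod + Dvl c m.1) - (b + wl m.1 + wl m.2) * (m.1.map c).prod)
    * conj ((m.2.map c).prod)

theorem rel_upl (s b : ℂ) (c : ℕ → ℂ) (w h : ℕ) (ms : List Mo) (x y : ℕ) :
    rel s b c (upl w h ms x y) = cf (rv s b c) w h ms x y := by
  induction ms generalizing x y with
  | nil => simp [upl, cf, rel]
  | cons m ms ih => rw [upl, Pool.Agent.M16.Helper12.HR2.rel_cons, ih, cf, rv]

/-- the rows have the real and imaginary parts of the complex values -/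
theorem fm_cf {R S : Type} (FR FI : R → ℝ) (G : S → ℂ) (w h : ℕ) {rs : List R} {ms : List S}
    (hf : List.Forall₂ (fun r m => FR r = (G m).re ∧ FI r = (G m).im) rs ms) (x y : ℕ) :
    fm FR w h rs x - fm FI w h rs y = (cf G w h ms x y).re ∧
      fm FI w h rs x + fm FR w h rs y = (cf G w h ms x y).im := by
  induction hf generalizing x y with
  | nil => simp [fm, cf]
  | cons h1 _ ih =>
    obtain ⟨i1, i2⟩ := ih (x / w) (y / w)
    simp only [fm, cf, Complex.add_re, Complex.add_im, Complex.mul_re, Complex.mul_im,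
      Pool.Agent.M16.Helper12.HR2.gv_re, Pool.Agent.M16.Helper12.HR2.gv_im, zsmul_eq_mul]
    rw [← i1, ← i2, h1.1, h1.2]
    constructor <;> ring

/-! ## The check of the tables -/

/-- the semantic valuations -/
noncomputable def rhoV (K : ℕ) (rep : ℕ → ℕ) (c : ℕ → ℂ) : ℕ → ℝ :=
  vs K (fun j => (mc c (rep j)).re)

/-- the semantic valuations -/
noncomputable def sigV (K : ℕ) (rep : ℕ → ℕ) (c : ℕ → ℂ) : ℕ → ℝ :=
  vs K (fun j => (mc c (rep j)).im)

/-- the check of a row with one term: code `κ`, multiplicity `2 ^ e` -/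
def okS (K : ℕ) (rep : ℕ → ℕ) (o : ℕ) (s : Sng) (κ e : ℕ) : Bool :=
  Nat.beq ((o + s.1) % K) e &&
    match s.2 with
    | 0 => Nat.beq (rep ((o + s.1) / K)) κ
    | 1 => Nat.beq (rep ((o + s.1) / K)) (sw κ)
    | 2 => Nat.beq (rep ((o + s.1) / K)) κ && Nat.beq (sw κ) κ
    | _ => false

theorem okS_spec {K : ℕ} {rep : ℕ → ℕ} {o : ℕ} {s : Sng} {κ e : ℕ} (h : okS K rep o s κ e = true)
    (c : ℕ → ℂ) : sR (vo (rhoV K rep c) o) s = ((2 ^ e : ℂ) * mc c κ).re ∧
      sI (vo (sigV K rep c) o) s = ((2 ^ e : ℂ) * mc c κ).im := by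
  unfold okS at h
  rw [Bool.and_eq_true] at h
  obtain ⟨h1, h2⟩ := h
  have h1' := Nat.eq_of_beq_eq_true h1
  have e1 : ((2 ^ e : ℂ) * mc c κ).re = 2 ^ e * (mc c κ).re := by
    have : (2 ^ e : ℂ) = ((2 ^ e : ℝ) : ℂ) := by push_cast; rfl
    rw [this, Complex.re_ofReal_mul]
  have e2 : ((2 ^ e : ℂ) * mc c κ).im = 2 ^ e * (mc c κ).im := by
    have : (2 ^ e : ℂ) = ((2 ^ e : ℝ) : ℂ) := by push_cast; rfl
    rw [this, Complex.im_ofReal_mul]
  have e3 : sR (vo (rhoV K rep c) o) s = 2 ^ e * (mc c (rep ((o + s.1) / K))).re := by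
    simp only [sR, vo, rhoV, vs, h1', zsmul_eq_mul]
    push_cast
    rfl
  have e4 : vo (sigV K rep c) o s.1 = 2 ^ e * (mc c (rep ((o + s.1) / K))).im := by
    simp only [vo, sigV, vs, h1', zsmul_eq_mul]
    push_cast
    rfl
  rw [e1, e2, e3, sI, e4]
  obtain ⟨T, f⟩ := s
  simp only at h2 ⊢
  rcases f with _ | _ | _ | f
  · have h3 := Nat.eq_of_beq_eq_true h2
    rw [h3]
    simp
  · have h3 := Nat.eq_of_beq_eq_true h2
    rw [h3, mc_sw]
    simp
  · simp only [Bool.and_eq_true] at h2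
    have h3 := Nat.eq_of_beq_eq_true h2.1
    have h4 := Nat.eq_of_beq_eq_true h2.2
    rw [h3]
    have h5 : (mc c κ).im = 0 := by
      have := mc_sw c κ
      rw [h4] at this
      have h6 := congrArg Complex.im this
      rw [Complex.conj_im] at h6
      linarith only [h6]
    rw [h5]
    simp
  · exact absurd h2 (by simp)

/-- the check of rows with one term -/
def okL {S : Type} (K : ℕ) (rep : ℕ → ℕ) (o : ℕ) (q : S → ℕ × ℕ) : List Sng → List S → Bool
  | [], [] => true
  | (s :: ss), (m :: ms) => okS K rep o s (q m).1 (q m).2 && okL K rep o q ss ms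
  | _, _ => false

theorem okL_spec {S : Type} {K : ℕ} {rep : ℕ → ℕ} {o : ℕ} {q : S → ℕ × ℕ} (c : ℕ → ℂ) :
    ∀ (ss : List Sng) (ms : List S), okL K rep o q ss ms = true →
    List.Forall₂ (fun s m => sR (vo (rhoV K rep c) o) s = ((2 ^ (q m).2 : ℂ) * mc c (q m).1).re ∧
      sI (vo (sigV K rep c) o) s = ((2 ^ (q m).2 : ℂ) * mc c (q m).1).im) ss ms := by
  intro ss
  induction ss with
  | nil =>
    intro ms h
    rcases ms with _ | ⟨m, ms⟩
    · exact List.Forall₂.nil
    · exact absurd h (by simp [okL])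
  | cons s ss ih =>
    intro ms h
    rcases ms with _ | ⟨m, ms⟩
    · exact absurd h (by simp [okL])
    · simp only [okL, Bool.and_eq_true] at h
      exact List.Forall₂.cons (okS_spec h.1 c) (ih ms h.2)

/-! ## The derivative -/

/-- derivative of a variable -/
def dvt : ℕ → List (List ℕ × ℤ)
  | 0 => [([1], 3), ([0, 0], -1)]
  | (k + 1) => ([k + 2], (k : ℤ) + 4) :: (List.range k).map (fun i => ([i + 1, k - i], 1))

/-- derivative of a monomial -/
def Dt : List ℕ → List (List ℕ × ℤ)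
  | [] => []
  | (a :: A) => (dvt a).map (fun t => (t.1 ++ A, t.2)) ++ (Dt A).map (fun t => (a :: t.1, t.2))

/-- the value of a list of terms -/
noncomputable def tev (c : ℕ → ℂ) (l : List (List ℕ × ℤ)) : ℂ :=
  (l.map fun t => (t.2 : ℂ) * (t.1.map c).prod).sum

theorem tev_append (c : ℕ → ℂ) (l l' : List (List ℕ × ℤ)) : tev c (l ++ l') = tev c l + tev c l' := by
  simp [tev]

theorem tev_cons (c : ℕ → ℂ) (t : List ℕ × ℤ) (l : List (List ℕ × ℤ)) :
    tev c (t :: l) = (t.2 : ℂ) * (t.1.map c).prod + tev c l := by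
  simp [tev]

theorem tev_dvt (c : ℕ → ℂ) (n : ℕ) : tev c (dvt n) = dvl c n := by
  rcases n with _ | k
  · simp only [dvt, tev, dvl, List.map_cons, List.map_nil, List.prod_cons, List.prod_nil,
      List.sum_cons, List.sum_nil, if_true]
    push_cast
    ring
  · rw [dvt, tev_cons, dvl, if_neg (Nat.succ_ne_zero k)]
    have h1 : tev c ((List.range k).map (fun i => (([i + 1, k - i] : List ℕ), (1 : ℤ))))
        = ∑ i ∈ Finset.range k, c (i + 1) * c (k - i) := by
      unfold tev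
      rw [List.map_map, Finset.sum_range]
      have : ∀ n : ℕ, ((List.range n).map ((fun t : List ℕ × ℤ => (t.2 : ℂ) * (t.1.map c).prod)
          ∘ fun i => (([i + 1, k - i] : List ℕ), (1 : ℤ)))).sum
          = ∑ i ∈ Finset.range n, c (i + 1) * c (k - i) := by
        intro n
        induction n with
        | zero => simp
        | succ n ih =>
          rw [List.range_succ, List.map_append, List.sum_append, ih, Finset.sum_range_succ]
          simp
      rw [this, Finset.sum_range]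
    rw [h1]
    simp only [List.map_cons, List.map_nil, List.prod_cons, List.prod_nil, mul_one,
      Nat.add_sub_cancel]
    push_cast
    ring

theorem tev_Dt (c : ℕ → ℂ) (A : List ℕ) : tev c (Dt A) = Dvl c A := by
  induction A with
  | nil => rfl
  | cons a A ih =>
    rw [Dt, tev_append]
    have h1 : tev c ((dvt a).map (fun t => (t.1 ++ A, t.2))) = tev c (dvt a) * (A.map c).prod := by
      generalize dvt a = l
      induction l with
      | nil => simp [tev]
      | cons t l ihl =>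
        rw [List.map_cons, tev_cons, tev_cons, ihl]
        simp only [List.map_append, List.prod_append]
        ring
    have h2 : tev c ((Dt A).map (fun t => (a :: t.1, t.2))) = c a * tev c (Dt A) := by
      generalize Dt A = l
      induction l with
      | nil => simp [tev]
      | cons t l ihl =>
        rw [List.map_cons, tev_cons, tev_cons, ihl]
        simp only [List.map_cons, List.prod_cons]
        ring
    rw [h1, h2, ih, tev_dvt]
    rfl

/-- insertion in a sorted list -/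
def ins (p : ℕ × ℤ) : List (ℕ × ℤ) → List (ℕ × ℤ)
  | [] => [p]
  | (q :: l) => bif Nat.beq p.1 q.1 then (q.1, p.2 + q.2) :: l
      else bif Nat.ble p.1 q.1 then p :: q :: l else q :: ins p l

/-- the normal form -/
def nf (l : List (ℕ × ℤ)) : List (ℕ × ℤ) := l.foldr ins []

/-- the value of coded terms -/
noncomputable def kev (f : ℕ → ℂ) (l : List (ℕ × ℤ)) : ℂ := (l.map fun p => (p.2 : ℂ) * f p.1).sum

theorem kev_cons (f : ℕ → ℂ) (p : ℕ × ℤ) (l : List (ℕ × ℤ)) :
    kev f (p :: l) = (p.2 : ℂ) * f p.1 + kev f l := by simp [kev]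

theorem kev_append (f : ℕ → ℂ) (l l' : List (ℕ × ℤ)) : kev f (l ++ l') = kev f l + kev f l' := by
  simp [kev]

theorem kev_ins (f : ℕ → ℂ) (p : ℕ × ℤ) (l : List (ℕ × ℤ)) :
    kev f (ins p l) = (p.2 : ℂ) * f p.1 + kev f l := by
  induction l with
  | nil => simp [ins, kev]
  | cons q l ih =>
    rw [ins]
    rcases h1 : Nat.beq p.1 q.1 with _ | _
    · rcases h2 : Nat.ble p.1 q.1 with _ | _
      · simp only [cond_false]
        rw [kev_cons, ih, kev_cons]
        ring
      · simp only [cond_false, cond_true]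
        rw [kev_cons]
    · have h3 := Nat.eq_of_beq_eq_true h1
      simp only [cond_true]
      rw [kev_cons, kev_cons, h3]
      push_cast
      ring

theorem kev_nf (f : ℕ → ℂ) (l : List (ℕ × ℤ)) : kev f (nf l) = kev f l := by
  induction l with
  | nil => rfl
  | cons p l ih =>
    have : nf (p :: l) = ins p (nf l) := rfl
    rw [this, kev_ins, ih, kev_cons]

/-- the coded terms of a row -/
def rowT (K : ℕ) (rep : ℕ → ℕ) (o : ℕ) (r : Row) : List (ℕ × ℤ) :=
  r.1.map (fun p => (rep ((o + p.1) / K), (p.2 : ℤ))) ++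
    (r.2.1.map (fun p => (sw (rep ((o + p.1) / K)), (p.2 : ℤ))) ++
      r.2.2.map (fun p => (rep ((o + p.1) / K), (p.2 : ℤ))))

/-- the conditions on the shifts of a row -/
def okW (K : ℕ) (rep : ℕ → ℕ) (o : ℕ) (r : Row) : Bool :=
  r.1.all (fun p => Nat.beq ((o + p.1) % K) 0) && r.2.1.all (fun p => Nat.beq ((o + p.1) % K) 0) &&
    r.2.2.all (fun p => Nat.beq ((o + p.1) % K) 0 &&
      Nat.beq (sw (rep ((o + p.1) / K))) (rep ((o + p.1) / K)))

theorem vs_zero {K : ℕ} (V : ℕ → ℝ) {T : ℕ} (h : T % K = 0) : vs K V T = V (T / K) := by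
  simp [vs, h]

theorem row_spec {K : ℕ} {rep : ℕ → ℕ} {o : ℕ} {r : Row} (h : okW K rep o r = true) (c : ℕ → ℂ) :
    rowR (vo (rhoV K rep c) o) r = (kev (mc c) (rowT K rep o r)).re ∧
      rowI (vo (sigV K rep c) o) r = (kev (mc c) (rowT K rep o r)).im := by
  unfold okW at h
  simp only [Bool.and_eq_true, List.all_eq_true] at h
  obtain ⟨⟨h1, h2⟩, h3⟩ := h
  have k0 : ∀ l : List (ℕ × ℕ), (∀ p ∈ l, Nat.beq ((o + p.1) % K) 0 = true) →
      tv (vo (rhoV K rep c) o) l
        = (kev (mc c) (l.map (fun p => (rep ((o + p.1) / K), (p.2 : ℤ))))).re ∧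
      tv (vo (sigV K rep c) o) l
        = (kev (mc c) (l.map (fun p => (rep ((o + p.1) / K), (p.2 : ℤ))))).im := by
    intro l hl
    induction l with
    | nil => simp [tv, kev]
    | cons p l ih =>
      obtain ⟨i1, i2⟩ := ih (fun p' h' => hl p' (by simp [h']))
      have h4 := Nat.eq_of_beq_eq_true (hl p (by simp))
      have e1 : tv (vo (rhoV K rep c) o) (p :: l)
          = (p.2 : ℤ) • vo (rhoV K rep c) o p.1 + tv (vo (rhoV K rep c) o) l := by simp [tv]
      have e2 : tv (vo (sigV K rep c) o) (p :: l)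
          = (p.2 : ℤ) • vo (sigV K rep c) o p.1 + tv (vo (sigV K rep c) o) l := by simp [tv]
      rw [e1, e2, i1, i2, List.map_cons, kev_cons, Complex.add_re, Complex.add_im]
      have e3 : ((((p.2 : ℕ) : ℤ) : ℂ) * mc c (rep ((o + p.1) / K))).re
          = (p.2 : ℝ) * (mc c (rep ((o + p.1) / K))).re := by
        have : ((((p.2 : ℕ) : ℤ) : ℂ)) = ((p.2 : ℝ) : ℂ) := by push_cast; rfl
        rw [this, Complex.re_ofReal_mul]
      have e4 : ((((p.2 : ℕ) : ℤ) : ℂ) * mc c (rep ((o + p.1) / K))).im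
          = (p.2 : ℝ) * (mc c (rep ((o + p.1) / K))).im := by
        have : ((((p.2 : ℕ) : ℤ) : ℂ)) = ((p.2 : ℝ) : ℂ) := by push_cast; rfl
        rw [this, Complex.im_ofReal_mul]
      rw [e3, e4]
      simp only [vo, rhoV, sigV, vs_zero _ h4, zsmul_eq_mul]
      push_cast
      exact ⟨rfl, rfl⟩
  have k1 : ∀ l : List (ℕ × ℕ),
      (kev (mc c) (l.map (fun p => (sw (rep ((o + p.1) / K)), (p.2 : ℤ)))))
        = conj (kev (mc c) (l.map (fun p => (rep ((o + p.1) / K), (p.2 : ℤ))))) := by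
    intro l
    induction l with
    | nil => simp [kev]
    | cons p l ih =>
      rw [List.map_cons, List.map_cons, kev_cons, kev_cons, ih, map_add, map_mul, mc_sw]
      simp
  have k2 : (kev (mc c) (r.2.2.map (fun p => (rep ((o + p.1) / K), (p.2 : ℤ))))).im = 0 := by
    have : ∀ l : List (ℕ × ℕ), (∀ p ∈ l, Nat.beq (sw (rep ((o + p.1) / K))) (rep ((o + p.1) / K))
        = true) → (kev (mc c) (l.map (fun p => (rep ((o + p.1) / K), (p.2 : ℤ))))).im = 0 := by
      intro l hl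
      induction l with
      | nil => simp [kev]
      | cons p l ih =>
        rw [List.map_cons, kev_cons, Complex.add_im, ih (fun p' h' => hl p' (by simp [h']))]
        have h4 := Nat.eq_of_beq_eq_true (hl p (by simp))
        have h5 : (mc c (rep ((o + p.1) / K))).im = 0 := by
          have := mc_sw c (rep ((o + p.1) / K))
          rw [h4] at this
          have h6 := congrArg Complex.im this
          rw [Complex.conj_im] at h6
          linarith only [h6]
        have : ((((p.2 : ℕ) : ℤ) : ℂ)) = ((p.2 : ℝ) : ℂ) := by push_cast; rfl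
        rw [this, Complex.im_ofReal_mul, h5]
        simp
    exact this _ (fun p hp => (h3 p hp).2)
  obtain ⟨a1, a2⟩ := k0 r.1 h1
  obtain ⟨b1, b2⟩ := k0 r.2.1 h2
  obtain ⟨c1, c2⟩ := k0 r.2.2 (fun p hp => (h3 p hp).1)
  unfold rowR rowI rowT
  rw [kev_append, kev_append, k1, a1, a2, b1, b2, c1]
  simp only [Complex.add_re, Complex.add_im, Complex.conj_re, Complex.conj_im]
  rw [k2]
  constructor
  · trivial
  · ring

/-- sum of powers of 16 -/
noncomputable def sS (l : List ℕ) : ℕ :=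
  List.rec (motive := fun _ => ℕ) 0 (fun a _ ih => Nat.add (Nat.pow 16 a) ih) l

theorem sS_cons (a : ℕ) (l : List ℕ) : sS (a :: l) = 16 ^ a + sS l := rfl

theorem sS_eq (l : List ℕ) : (l.map (fun a => 16 ^ a)).sum = sS l := by
  induction l with
  | nil => rfl
  | cons a l ih => rw [List.map_cons, List.sum_cons, ih, sS_cons]

theorem cod_sS (m : Mo) : cod m = sS m.1 + 16777216 * sS m.2 := by
  have h1 : ∀ l : List ℕ, (l.map (fun b => 16 ^ (6 + b))).sum = 16777216 * sS l := by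
    intro l
    induction l with
    | nil => rfl
    | cons a l ih =>
      rw [List.map_cons, List.sum_cons, ih, sS_cons, pow_add]
      norm_num
      ring
  rw [cod, sS_eq, h1]

/-- validity of a list -/
def vl (l : List ℕ) : Bool := l.all (fun i => Nat.ble (i + 1) 6) && Nat.ble l.length 15

theorem vmo_vl {A B : List ℕ} (h1 : vl A = true) (h2 : vl B = true) : vmo (A, B) = true := by
  unfold vl at h1 h2
  unfold vmo
  simp only [Bool.and_eq_true] at h1 h2 ⊢
  exact ⟨⟨⟨h1.1, h2.1⟩, h1.2⟩, h2.2⟩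

/-- the conditions for the first factor -/
def okA (A : List ℕ) : Bool := vl A && vl (0 :: A) && (Dt A).all (fun t => vl t.1)

/-- the coded terms of the derivative plus `a` times the product with the first variable -/
noncomputable def DZ (a : ℕ) (A : List ℕ) : List (ℕ × ℤ) :=
  nf ((sS (0 :: A), (a : ℤ)) :: (Dt A).map (fun t => (sS t.1, t.2)))

theorem DZ_spec {a : ℕ} {m : Mo} (hA : okA m.1 = true) (hB : vl m.2 = true) (c : ℕ → ℂ) :
    kev (fun κ => mc c (κ + 16777216 * sS m.2)) (DZ a m.1)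
      = (Dvl c m.1 + a * (c 0 * (m.1.map c).prod)) * conj ((m.2.map c).prod) := by
  unfold okA at hA
  simp only [Bool.and_eq_true, List.all_eq_true] at hA
  obtain ⟨⟨-, h2⟩, h3⟩ := hA
  have hc : ∀ A : List ℕ, vl A = true → mc c (sS A + 16777216 * sS m.2)
      = (A.map c).prod * conj ((m.2.map c).prod) := by
    intro A hA
    rw [← cod_sS (A, m.2), mc_cod c (vmo_vl hA hB), mv, Pool.Agent.M16.Helper12.HR2.prod_conj]
  rw [DZ, kev_nf, kev_cons, hc _ h2, ← tev_Dt]
  have h7 : ∀ l : List (List ℕ × ℤ), (∀ t ∈ l, vl t.1 = true) →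
      kev (fun κ => mc c (κ + 16777216 * sS m.2)) (l.map (fun t => (sS t.1, t.2)))
        = tev c l * conj ((m.2.map c).prod) := by
    intro l hl
    induction l with
    | nil => simp [kev, tev]
    | cons t l ih =>
      rw [List.map_cons, kev_cons, tev_cons, ih (fun t' h' => hl t' (by simp [h'])),
        hc _ (hl t (by simp))]
      ring
  rw [h7 _ h3]
  simp only [List.map_cons, List.prod_cons]
  push_cast
  ring

/-- `sw` without instances -/
noncomputable def swf (κ : ℕ) : ℕ :=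
  Nat.add (Nat.mod (Nat.div κ 16777216) 16777216) (Nat.mul 16777216 (Nat.mod κ 16777216))

/-- the first element of the list is the term, kind 0 -/
noncomputable def hd0 (K : ℕ) (rep : ℕ → ℕ) (o κ μ : ℕ) (l : List (ℕ × ℕ)) : Bool :=
  List.rec (motive := fun _ => Bool) false
    (fun p _ _ => and (Nat.beq (rep (Nat.div (Nat.add o p.1) K)) κ)
      (and (Nat.beq p.2 μ) (Nat.beq (Nat.mod (Nat.add o p.1) K) 0))) l

/-- the first element of the list is the term, kind 1 -/
noncomputable def hd1 (K : ℕ) (rep : ℕ → ℕ) (o κ μ : ℕ) (l : List (ℕ × ℕ)) : Bool :=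
  List.rec (motive := fun _ => Bool) false
    (fun p _ _ => and (Nat.beq (swf (rep (Nat.div (Nat.add o p.1) K))) κ)
      (and (Nat.beq p.2 μ) (Nat.beq (Nat.mod (Nat.add o p.1) K) 0))) l

/-- the check of a row of the derivative -/
noncomputable def chk (K : ℕ) (rep : ℕ → ℕ) (o β : ℕ) (T : List (ℕ × ℤ)) :
    List (ℕ × ℕ) → List (ℕ × ℕ) → List (ℕ × ℕ) → Bool :=
  List.rec (motive := fun _ => List (ℕ × ℕ) → List (ℕ × ℕ) → List (ℕ × ℕ) → Bool)
    (fun l0 l1 l2 => List.rec (motive := fun _ => Bool)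
      (List.rec (motive := fun _ => Bool)
        (List.rec (motive := fun _ => Bool) true (fun _ _ _ => false) l2)
        (fun _ _ _ => false) l1) (fun _ _ _ => false) l0)
    (fun t _ ih l0 l1 l2 => Int.rec (motive := fun _ => Bool)
      (fun μ => Nat.rec (motive := fun _ => Bool) (ih l0 l1 l2)
        (fun _ _ => Bool.rec (motive := fun _ => Bool)
          (Bool.rec (motive := fun _ => Bool)
            (and (hd0 K rep o (Nat.add t.1 β) μ l2)
              (and (Nat.beq (swf (Nat.add t.1 β)) (Nat.add t.1 β)) (ih l0 l1 l2.tail)))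
            (ih l0 l1.tail l2) (hd1 K rep o (Nat.add t.1 β) μ l1))
          (ih l0.tail l1 l2) (hd0 K rep o (Nat.add t.1 β) μ l0)) μ)
      (fun _ => false) t.2) T

theorem hd0_spec {K : ℕ} {rep : ℕ → ℕ} {o κ μ : ℕ} {l : List (ℕ × ℕ)}
    (h : hd0 K rep o κ μ l = true) : ∃ p l', l = p :: l' ∧ rep ((o + p.1) / K) = κ ∧ p.2 = μ ∧
      Nat.beq ((o + p.1) % K) 0 = true := by
  rcases l with _ | ⟨p, l'⟩
  · exact absurd h (by simp [hd0])
  · have h' : and (Nat.beq (rep (Nat.div (Nat.add o p.1) K)) κ)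
      (and (Nat.beq p.2 μ) (Nat.beq (Nat.mod (Nat.add o p.1) K) 0)) = true := h
    simp only [Bool.and_eq_true] at h'
    exact ⟨p, l', rfl, Nat.eq_of_beq_eq_true h'.1, Nat.eq_of_beq_eq_true h'.2.1, h'.2.2⟩

theorem hd1_spec {K : ℕ} {rep : ℕ → ℕ} {o κ μ : ℕ} {l : List (ℕ × ℕ)}
    (h : hd1 K rep o κ μ l = true) : ∃ p l', l = p :: l' ∧ sw (rep ((o + p.1) / K)) = κ ∧ p.2 = μ ∧
      Nat.beq ((o + p.1) % K) 0 = true := by
  rcases l with _ | ⟨p, l'⟩
  · exact absurd h (by simp [hd1])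
  · have h' : and (Nat.beq (swf (rep (Nat.div (Nat.add o p.1) K))) κ)
      (and (Nat.beq p.2 μ) (Nat.beq (Nat.mod (Nat.add o p.1) K) 0)) = true := h
    simp only [Bool.and_eq_true] at h'
    exact ⟨p, l', rfl, Nat.eq_of_beq_eq_true h'.1, Nat.eq_of_beq_eq_true h'.2.1, h'.2.2⟩

theorem chk_spec {K : ℕ} {rep : ℕ → ℕ} {o β : ℕ} : ∀ (T : List (ℕ × ℤ)) (l0 l1 l2 : List (ℕ × ℕ)),
    chk K rep o β T l0 l1 l2 = true → okW K rep o (l0, l1, l2) = true ∧
      ∀ f : ℕ → ℂ, kev f (rowT K rep o (l0, l1, l2)) = kev (fun κ => f (κ + β)) T := by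
  intro T
  induction T with
  | nil =>
    intro l0 l1 l2 h
    rcases l0 with _ | ⟨p, l0⟩
    · rcases l1 with _ | ⟨p, l1⟩
      · rcases l2 with _ | ⟨p, l2⟩
        · exact ⟨rfl, fun f => rfl⟩
        · exact absurd h (by simp [chk])
      · exact absurd h (by simp [chk])
    · exact absurd h (by simp [chk])
  | cons t T ih =>
    intro l0 l1 l2 h
    obtain ⟨κ, z⟩ := t
    rcases z with μ | μ
    · rcases μ with _ | μ
      · have h' : chk K rep o β T l0 l1 l2 = true := h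
        obtain ⟨h1, h2⟩ := ih l0 l1 l2 h'
        refine ⟨h1, fun f => ?_⟩
        rw [h2 f, kev_cons]
        simp
      · have h' : Bool.rec (motive := fun _ => Bool)
          (Bool.rec (motive := fun _ => Bool)
            (and (hd0 K rep o (κ + β) (μ + 1) l2)
              (and (Nat.beq (swf (κ + β)) (κ + β)) (chk K rep o β T l0 l1 l2.tail)))
            (chk K rep o β T l0 l1.tail l2) (hd1 K rep o (κ + β) (μ + 1) l1))
          (chk K rep o β T l0.tail l1 l2) (hd0 K rep o (κ + β) (μ + 1) l0) = true := h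
        have hk : (Int.ofNat (μ + 1)) = ((μ + 1 : ℕ) : ℤ) := rfl
        rcases e0 : hd0 K rep o (κ + β) (μ + 1) l0 with _ | _
        · rw [e0] at h'
          rcases e1 : hd1 K rep o (κ + β) (μ + 1) l1 with _ | _
          · rw [e1] at h'
            have h'' : and (hd0 K rep o (κ + β) (μ + 1) l2)
              (and (Nat.beq (swf (κ + β)) (κ + β)) (chk K rep o β T l0 l1 l2.tail)) = true := h'
            simp only [Bool.and_eq_true] at h''
            obtain ⟨h3, h4, h5⟩ := h''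
            obtain ⟨p, l', rfl, g1, g2, g3⟩ := hd0_spec h3
            obtain ⟨h6, h7⟩ := ih _ _ _ h5
            refine ⟨?_, fun f => ?_⟩
            · simp only [okW, List.tail_cons, Bool.and_eq_true, List.all_cons] at h6 ⊢
              refine ⟨h6.1, ⟨g3, ?_⟩, h6.2⟩
              rw [g1]
              exact h4
            · have h8 := h7 f
              simp only [rowT, List.tail_cons, List.map_cons, kev_append, kev_cons] at h8 ⊢
              rw [g1, g2, hk, ← h8]
              ring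
          · rw [e1] at h'
            have h5 : chk K rep o β T l0 l1.tail l2 = true := h'
            obtain ⟨p, l', rfl, g1, g2, g3⟩ := hd1_spec e1
            obtain ⟨h6, h7⟩ := ih _ _ _ h5
            refine ⟨?_, fun f => ?_⟩
            · simp only [okW, List.tail_cons, Bool.and_eq_true, List.all_cons] at h6 ⊢
              exact ⟨⟨h6.1.1, g3, h6.1.2⟩, h6.2⟩
            · have h8 := h7 f
              simp only [rowT, List.tail_cons, List.map_cons, kev_append, kev_cons] at h8 ⊢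
              rw [g1, g2, hk, ← h8]
              ring
        · rw [e0] at h'
          have h5 : chk K rep o β T l0.tail l1 l2 = true := h'
          obtain ⟨p, l', rfl, g1, g2, g3⟩ := hd0_spec e0
          obtain ⟨h6, h7⟩ := ih _ _ _ h5
          refine ⟨?_, fun f => ?_⟩
          · simp only [okW, List.tail_cons, Bool.and_eq_true, List.all_cons] at h6 ⊢
            exact ⟨⟨⟨g3, h6.1.1⟩, h6.1.2⟩, h6.2⟩
          · have h8 := h7 f
            simp only [rowT, List.tail_cons, List.map_cons, kev_append, kev_cons] at h8 ⊢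
            rw [g1, g2, hk, ← h8]
            ring
    · exact absurd h (by simp [chk])

/-- the rows of the derivative are correct -/
def DOK (K : ℕ) (rep : ℕ → ℕ) (o a : ℕ) (rs : List Row) (ms : List Mo) : Prop :=
  ∀ c : ℕ → ℂ, List.Forall₂ (fun r m => rowR (vo (rhoV K rep c) o) r
        = ((Dvl c m.1 + a * (c 0 * (m.1.map c).prod)) * conj ((m.2.map c).prod)).re ∧
      rowI (vo (sigV K rep c) o) r
        = ((Dvl c m.1 + a * (c 0 * (m.1.map c).prod)) * conj ((m.2.map c).prod)).im) rs ms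

/-- correctness of a group -/
structure GrpOK (K : ℕ) (rep : ℕ → ℕ) (g : Grp) (ms : List Mo) : Prop where
  M : okL K rep g.oM (fun m : Mo => (cod m, 0)) g.M ms = true
  E : okL K rep g.oE (fun m : Mo => (cod (0 :: m.1, m.2), 0)) g.E ms = true
  D : DOK K rep g.oE g.a g.D ms
  v : ∀ m ∈ ms, vmo m = true
  v0 : ∀ m ∈ ms, vmo (0 :: m.1, m.2) = true
  w : ∀ m ∈ ms, wl m.1 + wl m.2 = g.w

/-- the check of a row with one term, without instances -/
noncomputable def okSf (K : ℕ) (rep : ℕ → ℕ) (T f κ e : ℕ) : Bool :=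
  and (Nat.beq (Nat.mod T K) e)
   (Nat.rec (motive := fun _ => Bool) (Nat.beq (rep (Nat.div T K)) κ)
     (fun f1 _ => Nat.rec (motive := fun _ => Bool) (Nat.beq (rep (Nat.div T K)) (swf κ))
        (fun f2 _ => Nat.rec (motive := fun _ => Bool)
          (and (Nat.beq (rep (Nat.div T K)) κ) (Nat.beq (swf κ) κ)) (fun _ _ => false) f2) f1) f)

theorem okSf_spec {K : ℕ} {rep : ℕ → ℕ} {o T f κ e : ℕ} (h : okSf K rep (o + T) f κ e = true) :
    okS K rep o (T, f) κ e = true := by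
  rcases f with _ | _ | _ | f
  · exact h
  · exact h
  · exact h
  · exact absurd h (by simp [okSf])

/-- the check of a group: the lists of the rows -/
noncomputable def okGf (K : ℕ) (rep : ℕ → ℕ) (oM oE a w : ℕ) (ms : List Mo) :
    List Sng → List Sng → List Row → Bool :=
  List.rec (motive := fun _ => List Sng → List Sng → List Row → Bool)
    (fun M E D => List.rec (motive := fun _ => Bool)
      (List.rec (motive := fun _ => Bool)
        (List.rec (motive := fun _ => Bool) true (fun _ _ _ => false) D)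
        (fun _ _ _ => false) E) (fun _ _ _ => false) M)
    (fun m _ ih M E D => List.rec (motive := fun _ => Bool) false
      (fun s M' _ => List.rec (motive := fun _ => Bool) false
        (fun e E' _ => List.rec (motive := fun _ => Bool) false
          (fun r D' _ => Prod.rec (motive := fun _ => Bool) (fun A B =>
            and (okSf K rep (Nat.add oM s.1) s.2 (Nat.add (sS A) (Nat.mul 16777216 (sS B))) 0)
             (and (okSf K rep (Nat.add oE e.1) e.2
                (Nat.add (sS (0 :: A)) (Nat.mul 16777216 (sS B))) 0)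
              (and (and (okA A) (and (vl B) (Nat.beq (Nat.add (wl A) (wl B)) w)))
               (and (chk K rep oE (Nat.mul 16777216 (sS B)) (DZ a A) r.1 r.2.1 r.2.2)
                (ih M' E' D'))))) m) D) E) M) ms

theorem okGf_spec {K : ℕ} {rep : ℕ → ℕ} {oM oE a w : ℕ} : ∀ (ms : List Mo) (M E : List Sng)
    (D : List Row), okGf K rep oM oE a w ms M E D = true →
    GrpOK K rep ⟨w, a, oM, oE, M, E, D⟩ ms := by
  intro ms
  induction ms with
  | nil =>
    intro M E D h
    rcases M with _ | ⟨s, M⟩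
    · rcases E with _ | ⟨e, E⟩
      · rcases D with _ | ⟨r, D⟩
        · exact ⟨rfl, rfl, fun _ => List.Forall₂.nil, by simp, by simp, by simp⟩
        · exact absurd h (by simp [okGf])
      · exact absurd h (by simp [okGf])
    · exact absurd h (by simp [okGf])
  | cons m ms ih =>
    intro M E D h
    rcases M with _ | ⟨s, M⟩
    · exact absurd h (by simp [okGf])
    · rcases E with _ | ⟨e, E⟩
      · exact absurd h (by simp [okGf])
      · rcases D with _ | ⟨r, D⟩
        · exact absurd h (by simp [okGf])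
        · obtain ⟨A, B⟩ := m
          have h' : and (okSf K rep (oM + s.1) s.2 (sS A + 16777216 * sS B) 0)
             (and (okSf K rep (oE + e.1) e.2 (sS (0 :: A) + 16777216 * sS B) 0)
              (and (and (okA A) (and (vl B) (Nat.beq (wl A + wl B) w)))
               (and (chk K rep oE (16777216 * sS B) (DZ a A) r.1 r.2.1 r.2.2)
                (okGf K rep oM oE a w ms M E D)))) = true := h
          simp only [Bool.and_eq_true] at h'
          obtain ⟨h1, h2, ⟨h3, h4, h5⟩, h6, h7⟩ := h'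
          have G := ih M E D h7
          have hw := Nat.eq_of_beq_eq_true h5
          have hA := h3
          unfold okA at hA
          simp only [Bool.and_eq_true] at hA
          have v1 : vmo (A, B) = true := vmo_vl hA.1.1 h4
          have v2 : vmo (0 :: A, B) = true := vmo_vl hA.1.2 h4
          have e1 : okS K rep oM s (cod (A, B)) 0 = true := by
            rw [cod_sS]
            exact okSf_spec h1
          have e2 : okS K rep oE e (cod (0 :: A, B)) 0 = true := by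
            rw [cod_sS]
            exact okSf_spec h2
          refine ⟨?_, ?_, ?_, ?_, ?_, ?_⟩
          · simp only [okL, Bool.and_eq_true]
            exact ⟨e1, G.M⟩
          · simp only [okL, Bool.and_eq_true]
            exact ⟨e2, G.E⟩
          · intro c
            refine List.Forall₂.cons ?_ (G.D c)
            obtain ⟨k1, k2⟩ := chk_spec _ _ _ _ h6
            obtain ⟨r1, r2⟩ := row_spec k1 c
            have k3 := k2 (mc c)
            rw [DZ_spec (m := (A, B)) h3 h4 c] at k3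
            have hr : ((r.1, r.2.1, r.2.2) : Row) = r := rfl
            rw [hr] at k3 r1 r2
            rw [k3] at r1 r2
            exact ⟨r1, r2⟩
          · intro m hm
            rcases List.mem_cons.1 hm with rfl | hm
            · exact v1
            · exact G.v m hm
          · intro m hm
            rcases List.mem_cons.1 hm with rfl | hm
            · exact v2
            · exact G.v0 m hm
          · intro m hm
            rcases List.mem_cons.1 hm with rfl | hm
            · exact hw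
            · exact G.w m hm

/-- the check of all groups -/
noncomputable def okGsf (K : ℕ) (rep : ℕ → ℕ) (gs : List Grp) : List (List Mo) → Bool :=
  List.rec (motive := fun _ => List (List Mo) → Bool)
    (fun gm => List.rec (motive := fun _ => Bool) true (fun _ _ _ => false) gm)
    (fun g _ ih gm => List.rec (motive := fun _ => Bool) false
      (fun ms gm' _ => and (okGf K rep g.oM g.oE g.a g.w ms g.M g.E g.D) (ih gm')) gm) gs

theorem okGsf_spec {K : ℕ} {rep : ℕ → ℕ} : ∀ (gs : List Grp) (gm : List (List Mo)),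
    okGsf K rep gs gm = true → List.Forall₂ (GrpOK K rep) gs gm := by
  intro gs
  induction gs with
  | nil =>
    intro gm h
    rcases gm with _ | ⟨ms, gm⟩
    · exact List.Forall₂.nil
    · exact absurd h (by simp [okGsf])
  | cons g gs ih =>
    intro gm h
    rcases gm with _ | ⟨ms, gm⟩
    · exact absurd h (by simp [okGsf])
    · have h' : and (okGf K rep g.oM g.oE g.a g.w ms g.M g.E g.D) (okGsf K rep gs gm) = true := h
      rw [Bool.and_eq_true] at h'
      exact List.Forall₂.cons (okGf_spec _ _ _ _ h'.1) (ih gm h'.2)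

theorem grp_spec {K : ℕ} {rep : ℕ → ℕ} {g : Grp} {ms : List Mo} (h : GrpOK K rep g ms)
    (P : Par) (hs : P.sr ≠ 0) (hb : P.bd ≠ 0) (c : ℕ → ℂ) (w hh x y : ℕ) :
    gmR P (rhoV K rep c) w hh g (x, y) + gmI P (sigV K rep c) w hh g (x, y)
      = (P.sr * P.bd : ℝ) * (rel (((P.p : ℂ) + P.q * Complex.I) / P.sr) ((P.bn : ℂ) / P.bd) c
          (upl w hh ms x y)).re := by
  obtain ⟨h1, h2, h3, hv, hv0, hw⟩ := h
  have f1 := okL_spec c g.M ms h1
  have f2 := okL_spec c g.E ms h2
  have f3 := h3 c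
  obtain ⟨m1, -⟩ := fm_cf _ _ _ w hh f1 x y
  obtain ⟨e1, e2⟩ := fm_cf _ _ _ w hh f2 x y
  obtain ⟨d1, -⟩ := fm_cf _ _ (fun m : Mo => (Dvl c m.1 + g.a * (c 0 * (m.1.map c).prod))
    * conj ((m.2.map c).prod)) w hh f3 x y
  have n1 : cf (fun m : Mo => (2 ^ ((fun m : Mo => (cod m, 0)) m).2 : ℂ)
      * mc c ((fun m : Mo => (cod m, 0)) m).1) w hh ms x y
      = cf (fun m : Mo => (m.1.map c).prod * conj ((m.2.map c).prod)) w hh ms x y := by
    apply cf_congr
    intro m hm
    simp only [pow_zero, one_mul]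
    rw [mc_cod c (hv m hm), mv, Pool.Agent.M16.Helper12.HR2.prod_conj]
  have n2 : cf (fun m : Mo => (2 ^ ((fun m : Mo => (cod (0 :: m.1, m.2), 0)) m).2 : ℂ)
      * mc c ((fun m : Mo => (cod (0 :: m.1, m.2), 0)) m).1) w hh ms x y
      = cf (fun m : Mo => (c 0 * (m.1.map c).prod) * conj ((m.2.map c).prod)) w hh ms x y := by
    apply cf_congr
    intro m hm
    simp only [pow_zero, one_mul]
    rw [mc_cod c (hv0 m hm), mv, Pool.Agent.M16.Helper12.HR2.prod_conj]
    simp only [List.map_cons, List.prod_cons]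
  rw [n1] at m1
  rw [n2] at e1 e2
  have hsr : (P.sr : ℂ) ≠ 0 := Nat.cast_ne_zero.2 hs
  have hbd : (P.bd : ℂ) ≠ 0 := Nat.cast_ne_zero.2 hb
  -- the relation
  have key : (P.sr * P.bd : ℂ) * rel (((P.p : ℂ) + P.q * Complex.I) / P.sr)
      ((P.bn : ℂ) / P.bd) c (upl w hh ms x y)
      = (P.bd * P.sr : ℂ) * cf (fun m : Mo => (Dvl c m.1 + g.a * (c 0 * (m.1.map c).prod))
          * conj ((m.2.map c).prod)) w hh ms x y
        + (-(((P.bd * P.sr * g.a : ℂ) + 2 * P.bd * P.p) + 2 * P.bd * P.q * Complex.I))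
          * cf (fun m : Mo => (c 0 * (m.1.map c).prod) * conj ((m.2.map c).prod)) w hh ms x y
        + (-(P.sr * (P.bn + P.bd * g.w) : ℂ))
          * cf (fun m : Mo => (m.1.map c).prod * conj ((m.2.map c).prod)) w hh ms x y := by
    rw [rel_upl, ← cf_mul, ← cf_mul, ← cf_mul, ← cf_mul, ← cf_add, ← cf_add]
    apply cf_congr
    intro m hm
    have hwm := hw m hm
    have hwc : (g.w : ℂ) = (wl m.1 : ℂ) + wl m.2 := by
      rw [← hwm]
      push_cast
      rfl
    rw [rv, hwc]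
    field_simp
    ring
  have key2 := congrArg Complex.re key
  have r1 : ((P.sr * P.bd : ℂ) * rel (((P.p : ℂ) + P.q * Complex.I) / P.sr)
      ((P.bn : ℂ) / P.bd) c (upl w hh ms x y)).re = (P.sr * P.bd : ℝ)
      * (rel (((P.p : ℂ) + P.q * Complex.I) / P.sr) ((P.bn : ℂ) / P.bd) c
        (upl w hh ms x y)).re := by
    have : (P.sr * P.bd : ℂ) = ((P.sr * P.bd : ℝ) : ℂ) := by push_cast; rfl
    rw [this, Complex.re_ofReal_mul]
  rw [r1] at key2
  rw [key2]
  generalize cf (fun m : Mo => (Dvl c m.1 + g.a * (c 0 * (m.1.map c).prod))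
          * conj ((m.2.map c).prod)) w hh ms x y = zD at d1 ⊢
  generalize cf (fun m : Mo => (c 0 * (m.1.map c).prod) * conj ((m.2.map c).prod)) w hh ms x y
    = zE at e1 e2 ⊢
  generalize cf (fun m : Mo => (m.1.map c).prod * conj ((m.2.map c).prod)) w hh ms x y
    = zM at m1 ⊢
  have c1 : ((P.bd * P.sr : ℂ) * zD).re = (P.bd * P.sr : ℝ) * zD.re := by
    have : (P.bd * P.sr : ℂ) = ((P.bd * P.sr : ℝ) : ℂ) := by push_cast; rfl
    rw [this, Complex.re_ofReal_mul]
  have c2 : ((-(P.sr * (P.bn + P.bd * g.w) : ℂ)) * zM).re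
      = -(P.sr * (P.bn + P.bd * g.w) : ℝ) * zM.re := by
    have : (-(P.sr * (P.bn + P.bd * g.w) : ℂ)) = ((-(P.sr * (P.bn + P.bd * g.w)) : ℝ) : ℂ) := by
      push_cast; rfl
    rw [this, Complex.re_ofReal_mul]
  have c3 : ((-(((P.bd * P.sr * g.a : ℂ) + 2 * P.bd * P.p) + 2 * P.bd * P.q * Complex.I)) * zE).re
      = -(P.bd * P.sr * g.a + 2 * P.bd * P.p : ℝ) * zE.re + (2 * P.bd * P.q : ℝ) * zE.im := by
    have : (-(((P.bd * P.sr * g.a : ℂ) + 2 * P.bd * P.p) + 2 * P.bd * P.q * Complex.I))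
        = ((-(P.bd * P.sr * g.a + 2 * P.bd * P.p) : ℝ) : ℂ)
          + ((-(2 * P.bd * P.q) : ℝ) : ℂ) * Complex.I := by
      push_cast; ring
    rw [this, add_mul, Complex.add_re, Complex.re_ofReal_mul,
      mul_assoc ((-(2 * P.bd * P.q) : ℝ) : ℂ), Complex.re_ofReal_mul, Complex.I_mul_re]
    ring
  rw [Complex.add_re, Complex.add_re, c1, c2, c3, ← d1, ← e1, ← e2, ← m1]
  unfold gmR gmI
  have p1 : ((cD P : ℤ) : ℝ) = P.bd * P.sr := by
    have : cD P = ((P.bd * P.sr : ℕ) : ℤ) := rfl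
    rw [this]; push_cast; rfl
  have p2 : ((cE P g.a : ℤ) : ℝ) = P.bd * P.sr * g.a + 2 * P.bd * P.p := by
    have : cE P g.a = ((P.bd * P.sr * g.a : ℕ) : ℤ) + ((2 * P.bd : ℕ) : ℤ) * P.p := rfl
    rw [this]; push_cast; rfl
  have p3 : ((cF P : ℤ) : ℝ) = 2 * P.bd * P.q := by
    have : cF P = ((2 * P.bd : ℕ) : ℤ) * P.q := rfl
    rw [this]; push_cast; rfl
  have p4 : ((cM P g.w : ℤ) : ℝ) = P.sr * (P.bn + P.bd * g.w) := by
    have : cM P g.w = ((P.sr * (P.bn + P.bd * g.w) : ℕ) : ℤ) := rfl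
    rw [this]; push_cast; rfl
  simp only [zsmul_eq_mul, p1, p2, p3, p4]
  ring

end Pool.Agent.M16.Helper54.HR2
end

/- Helper94.T.Helper54.HR2.Sound6 -/
section
/-!
MP_16b0ee, project HR2: soundness of the second kernel check of a certificate.
-/

set_option autoImplicit false

open scoped ComplexConjugate

namespace Pool.Agent.M16.Helper54.HR2

open Pool.Agent.M16.Helper12.HR2 (Par Mo GZ gv Pol mv pv wl rel Dvl dvl upl prd)

/-! ## Blocks -/

/-- the rows of blocks -/
def flat : List Blk → List Sng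
  | [] => []
  | (b :: bs) => b.2.2.map (fun s => (b.1 + s.1, s.2)) ++ flat bs

/-- the blocks are consecutive -/
def okB : ℕ → List Blk → Bool
  | _, [] => true
  | k, (b :: bs) => Nat.beq b.2.1 k && okB (k + b.2.2.length) bs

section Forms

variable {A : Type*} [AddCommGroup A]

theorem fm_append {R : Type} (F : R → A) (w h : ℕ) (l l' : List R) (x : ℕ) :
    fm F w h (l ++ l') x = fm F w h l x + fm F w h l' (x / w ^ l.length) := by
  induction l generalizing x with
  | nil => simp [fm]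
  | cons r l ih =>
    rw [List.cons_append, fm, ih, fm, List.length_cons, pow_succ', ← Nat.div_div_eq_div_mul,
      add_assoc]

theorem fm_map {R S : Type} (F : R → A) (f : S → R) (w h : ℕ) (l : List S) (x : ℕ) :
    fm F w h (l.map f) x = fm (fun s => F (f s)) w h l x := by
  induction l generalizing x with
  | nil => rfl
  | cons r l ih => rw [List.map_cons, fm, fm, ih]

theorem bmR_flat (v : ℕ → A) (w h : ℕ) (bs : List Blk) (k x : ℕ) (hk : okB k bs = true) :
    bmR v w h bs x = fm (sR v) w h (flat bs) (x / w ^ k) := by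
  induction bs generalizing k with
  | nil => rfl
  | cons b bs ih =>
    simp only [okB, Bool.and_eq_true] at hk
    have h1 := Nat.eq_of_beq_eq_true hk.1
    have h2 := ih _ hk.2
    have h3 : bmR v w h (b :: bs) x = fm (sR (vo v b.1)) w h b.2.2 (x / w ^ b.2.1)
      + bmR v w h bs x := by simp [bmR]
    rw [h3, h2, flat, fm_append, fm_map, List.length_map, Nat.div_div_eq_div_mul, ← pow_add, h1]
    rfl

theorem bmI_flat (v : ℕ → A) (w h : ℕ) (bs : List Blk) (k x : ℕ) (hk : okB k bs = true) :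
    bmI v w h bs x = fm (sI v) w h (flat bs) (x / w ^ k) := by
  induction bs generalizing k with
  | nil => rfl
  | cons b bs ih =>
    simp only [okB, Bool.and_eq_true] at hk
    have h1 := Nat.eq_of_beq_eq_true hk.1
    have h2 := ih _ hk.2
    have h3 : bmI v w h (b :: bs) x = fm (sI (vo v b.1)) w h b.2.2 (x / w ^ b.2.1)
      + bmI v w h bs x := by simp [bmI]
    rw [h3, h2, flat, fm_append, fm_map, List.length_map, Nat.div_div_eq_div_mul, ← pow_add, h1]
    rfl

theorem bmR_flat0 (v : ℕ → A) (w h : ℕ) (bs : List Blk) (x : ℕ) (hk : okB 0 bs = true) :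
    bmR v w h bs x = fm (sR v) w h (flat bs) x := by
  rw [bmR_flat v w h bs 0 x hk, pow_zero, Nat.div_one]

theorem bmI_flat0 (v : ℕ → A) (w h : ℕ) (bs : List Blk) (x : ℕ) (hk : okB 0 bs = true) :
    bmI v w h bs x = fm (sI v) w h (flat bs) x := by
  rw [bmI_flat v w h bs 0 x hk, pow_zero, Nat.div_one]

end Forms

theorem vo_zero {A : Type*} (v : ℕ → A) : vo v 0 = v := by
  funext T
  rw [vo, zero_add]

/-! ## Forms of monomials -/

/-- the check of blocks: the rows are the coded elements -/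
def okF {S : Type} (K : ℕ) (rep : ℕ → ℕ) (q : S → ℕ × ℕ) (bs : List Blk) (ms : List S) : Bool :=
  okB 0 bs && okL K rep 0 q (flat bs) ms

theorem okF_spec {S : Type} {K : ℕ} {rep : ℕ → ℕ} {q : S → ℕ × ℕ} {bs : List Blk} {ms : List S}
    (h : okF K rep q bs ms = true) (c : ℕ → ℂ) (w hh x y : ℕ) :
    bmR (rhoV K rep c) w hh bs x - bmI (sigV K rep c) w hh bs y
      = (cf (fun m => (2 ^ (q m).2 : ℂ) * mc c (q m).1) w hh ms x y).re := by
  unfold okF at h
  rw [Bool.and_eq_true] at h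
  rw [bmR_flat0 _ _ _ _ _ h.1, bmI_flat0 _ _ _ _ _ h.1]
  have h2 := okL_spec c (flat bs) ms h.2
  rw [vo_zero, vo_zero] at h2
  exact (fm_cf _ _ (fun m => (2 ^ (q m).2 : ℂ) * mc c (q m).1) w hh h2 x y).1

theorem okF_spec_re {S : Type} {K : ℕ} {rep : ℕ → ℕ} {q : S → ℕ × ℕ} {bs : List Blk}
    {ms : List S} (h : okF K rep q bs ms = true) (c : ℕ → ℂ) (w hh x : ℕ) :
    bmR (rhoV K rep c) w hh bs x
      = fm (fun m => ((2 ^ (q m).2 : ℂ) * mc c (q m).1).re) w hh ms x := by
  unfold okF at h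
  rw [Bool.and_eq_true] at h
  rw [bmR_flat0 _ _ _ _ _ h.1]
  have h2 := okL_spec c (flat bs) ms h.2
  rw [vo_zero, vo_zero] at h2
  clear h
  generalize flat bs = l at h2
  induction h2 generalizing x with
  | nil => rfl
  | cons h1 _ ih => rw [fm, fm, ih, h1.1]

theorem cf_range (F : ℕ → ℂ) (w h n : ℕ) : ∀ (s x y : ℕ),
    cf F w h (List.range' s n) x y
      = ∑ i ∈ Finset.range n, gv (dgo w h x i, dgo w h y i) * F (s + i) := by
  induction n with
  | zero => intro s x y; simp [cf]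
  | succ n ih =>
    intro s x y
    rw [List.range'_succ, cf, ih, Finset.sum_range_succ']
    rw [add_comm]
    congr 1
    · apply Finset.sum_congr rfl
      intro i _
      have h1 : ∀ z, dgo w h (z / w) i = dgo w h z (i + 1) := by
        intro z
        unfold dgo
        rw [Nat.div_div_eq_div_mul, ← pow_succ']
      rw [h1, h1]
      congr 2
      omega
    · simp [dgo]

/-! ## The Gram matrix -/

/-- the monomial with the number `i` -/
def bm (bas : List Mo) (i : ℕ) : Mo := bas.getD i ([], [])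

/-- the code and the multiplicity for the pair `(i, k)` -/
def qik (bas : List Mo) (k i : ℕ) : ℕ × ℕ :=
  (cod (prd (bm bas i, bm bas k)), bif Nat.beq i k then 0 else 1)

/-- the check of the columns -/
def okC (K : ℕ) (rep : ℕ → ℕ) (bas : List Mo) (n : ℕ) : ℕ → List (ℕ × List Blk) → Bool
  | k, [] => Nat.beq k n
  | k, (b :: T) => Nat.beq b.1 k && okF K rep (qik bas k) b.2 (List.range' 0 (k + 1)) &&
      (List.range' 0 (k + 1)).all (fun i => vmo (prd (bm bas i, bm bas k))) && okC K rep bas n (k + 1) T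

/-- the value of a basis monomial -/
noncomputable def bv (c : ℕ → ℂ) (m : Mo) : ℂ := mv c (fun k => conj (c k)) m

theorem mc_prd (c : ℕ → ℂ) {p : Mo × Mo} (h : vmo (prd p) = true) :
    mc c (cod (prd p)) = bv c p.1 * conj (bv c p.2) := by
  rw [mc_cod c h]
  exact Pool.Agent.M16.Helper12.HR2.mv_prd c p

theorem okC_spec {K : ℕ} {rep : ℕ → ℕ} {bas : List Mo} {n : ℕ} (c : ℕ → ℂ) (B H w h : ℕ)
    (U : List (ℕ × ℕ × ℕ)) (hB : B = 2 * H) (hw0 : 0 < w) (hw : w ≤ 2 * h + 1) (hhw : h < w)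
    (hU : uok U n = true) (hH : 2 * n * (w * w) ≤ H) :
    ∀ (T : List (ℕ × List Blk)) (k : ℕ), okC K rep bas n k T = true →
    k ≤ n ∧ mmR (rhoV K rep c) B H w h n U T - mmI (sigV K rep c) B H w h n U T
      = ∑ j ∈ Finset.Ico k n, ∑ i ∈ Finset.range (j + 1),
        (if i < j then 2 else 1) * (GG w h U i j * (bv c (bm bas i) * conj (bv c (bm bas j)))).re := by
  intro T
  induction T with
  | nil =>
    intro k hk
    have h1 : k = n := Nat.eq_of_beq_eq_true hk
    subst h1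
    simp [mmR, mmI]
  | cons b T ih =>
    intro k hk
    simp only [okC, Bool.and_eq_true] at hk
    obtain ⟨⟨⟨h1, h2⟩, h3⟩, h4⟩ := hk
    have h1' := Nat.eq_of_beq_eq_true h1
    obtain ⟨h5, h6⟩ := ih (k + 1) h4
    refine ⟨by omega, ?_⟩
    have e1 : mmR (rhoV K rep c) B H w h n U (b :: T) = bmR (rhoV K rep c) B H b.2
      (zc B H w h n U b.1) + mmR (rhoV K rep c) B H w h n U T := by simp [mmR]
    have e2 : mmI (sigV K rep c) B H w h n U (b :: T) = bmI (sigV K rep c) B H b.2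
      (zd B H w h n U b.1) + mmI (sigV K rep c) B H w h n U T := by simp [mmI]
    rw [e1, e2, add_sub_add_comm, h6, okF_spec h2, h1', cf_range,
      ← Finset.sum_Ioo_add_eq_sum_Ico (show k < n by omega)]
    have e3 : Finset.Ico (k + 1) n = Finset.Ioo k n := by
      ext j
      simp only [Finset.mem_Ico, Finset.mem_Ioo]
      omega
    rw [e3, add_comm]
    congr 1
    rw [Complex.re_sum]
    apply Finset.sum_congr rfl
    intro i hi
    have hi' : i < k + 1 := Finset.mem_range.1 hi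
    have hl := uok_len hU
    have hlt : 2 * (U.length : ℤ) * (((w : ℤ) - 1) * ((w : ℤ) - 1)) < H := by
      have a1 : ((2 * n * (w * w) : ℕ) : ℤ) ≤ H := by exact_mod_cast hH
      have a2 : (1 : ℤ) ≤ w := by omega
      have a3 : (1 : ℤ) ≤ n := by omega
      rw [hl]
      push_cast at a1
      nlinarith only [a2, a3, a1]
    have g1 : ∀ j < n, |Gre w h U j k| < H := fun j _ => lt_of_le_of_lt (Gre_abs w h hhw U j k) hlt
    have g2 : ∀ j < n, |Gim w h U j k| < H := fun j _ => lt_of_le_of_lt (Gim_abs w h hhw U j k) hlt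
    have p1 := packed B H n (cr B w h U k) (cq B w h U k) (fun j => Gre w h U j k) hB
      (cr_cq B w h hw0 hw U n k hU (by omega)) g1 i (by omega)
    have p2 := packed B H n (ci B w h U k) (cq B w h U k) (fun j => Gim w h U j k) hB
      (ci_cq B w h hw0 hw U n k hU (by omega)) g2 i (by omega)
    have d1 : dgo B H (zc B H w h n U k) i = Gre w h U i k := p1
    have d2 : dgo B H (zd B H w h n U k) i = Gim w h U i k := p2
    rw [d1, d2, zero_add]
    have hv : vmo (prd (bm bas i, bm bas k)) = true := by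
      have := List.all_eq_true.1 h3 i (by
        rw [List.mem_range'_1]
        omega)
      exact this
    have q1 : mc c (qik bas k i).1 = bv c (bm bas i) * conj (bv c (bm bas k)) := mc_prd c hv
    rw [q1]
    change (GG w h U i k * _).re = _
    by_cases hik : i < k
    · have q2 : (qik bas k i).2 = 1 := by
        have : Nat.beq i k = false := by
          rw [Bool.eq_false_iff]
          intro h0
          have := Nat.eq_of_beq_eq_true h0
          omega
        simp only [qik, this, cond_false]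
      rw [q2, if_pos hik, pow_one]
      have : GG w h U i k * ((2 : ℂ) * (bv c (bm bas i) * conj (bv c (bm bas k))))
          = ((2 : ℝ) : ℂ) * (GG w h U i k * (bv c (bm bas i) * conj (bv c (bm bas k)))) := by
        push_cast
        ring
      rw [this, Complex.re_ofReal_mul]
    · have hik' : i = k := by omega
      have q2 : (qik bas k i).2 = 0 := by
        have : Nat.beq i k = true := by rw [hik']; exact Nat.beq_refl k
        simp only [qik, this, cond_true]
      rw [q2, if_neg hik, pow_zero, one_mul, one_mul]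

/-! ## The groups -/

/-- the decoded multipliers -/
def dec6 (w h : ℕ) : List (List Mo) → List (ℕ × ℕ) → Pol
  | [], _ => []
  | (_ :: _), [] => []
  | (ms :: gm), (xy :: l) => upl w h ms xy.1 xy.2 ++ dec6 w h gm l

theorem okGs_spec {K : ℕ} {rep : ℕ → ℕ} (P : Par) (hs : P.sr ≠ 0) (hb : P.bd ≠ 0) (c : ℕ → ℂ)
    (w h : ℕ) (gs : List Grp) (gm : List (List Mo)) (hg : List.Forall₂ (GrpOK K rep) gs gm) :
    ∀ l : List (ℕ × ℕ),
    gsmR P (rhoV K rep c) w h gs l + gsmI P (sigV K rep c) w h gs l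
      = (P.sr * P.bd : ℝ) * (rel (((P.p : ℂ) + P.q * Complex.I) / P.sr) ((P.bn : ℂ) / P.bd) c
          (dec6 w h gm l)).re := by
  induction hg with
  | nil =>
    intro l
    simp [gsmR, gsmI, dec6, Pool.Agent.M16.Helper12.HR2.rel_nil]
  | cons hg0 _ ih =>
    intro l
    rcases l with _ | ⟨xy, l⟩
    · simp [gsmR, gsmI, dec6, Pool.Agent.M16.Helper12.HR2.rel_nil]
    · have h1 := grp_spec hg0 P hs hb c w h xy.1 xy.2
      have h2 := ih l
      simp only [gsmR, gsmI, dec6, Pool.Agent.M16.Helper12.HR2.rel_append, Complex.add_re]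
      rw [mul_add, ← h1, ← h2]
      ring

/-! ## Correctness of the tables -/

/-- correctness of the tables -/
structure TabOK6 (t : Tab6) (K : ℕ) (rep : ℕ → ℕ) (bas qm : List Mo) (gm : List (List Mo))
    (prs : List (ℕ × ℕ)) : Prop where
  num : NumOK t K
  npos : 0 < t.n
  one : rep (t.one / K) = 0
  q : okF K rep (fun m => (cod m, 0)) t.q qm = true
  qv : qm.all vmo = true
  g : List.Forall₂ (GrpOK K rep) t.g gm
  c : okC K rep bas t.n 0 t.c = true
  d : okF K rep (fun m => (cod (prd (m, m)), 0)) t.d bas = true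
  dv : bas.all (fun m => vmo (prd (m, m))) = true
  nB : bas.length = t.nB
  r : okF K rep (fun p => (cod (prd (bm bas p.1, bm bas p.2)), 0)) t.r prs = true
  rv : prs.all (fun p => vmo (prd (bm bas p.1, bm bas p.2)) && Nat.ble (p.1 + 1) bas.length &&
    Nat.ble (p.2 + 1) bas.length) = true
  nR : prs.length = t.nR

/-! ## Bounds of the residual -/

theorem sab_succ (w h n x : ℕ) : sab w h (n + 1) x = ((x % w - h) + (h - x % w)) + sab w h n (x / w) :=
  rfl

theorem cf_le {S : Type} (F : S → ℂ) (w h : ℕ) (M : ℝ) (ms : List S) (hM : ∀ m ∈ ms, ‖F m‖ ≤ M) :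
    ∀ (x y : ℕ), ‖cf F w h ms x y‖ ≤ ((sab w h ms.length x + sab w h ms.length y : ℕ) : ℝ) * M := by
  induction ms with
  | nil => intro x y; simp [cf, sab]
  | cons m ms ih =>
    intro x y
    have h1 := ih (fun m' h' => hM m' (by simp [h'])) (x / w) (y / w)
    have h2 := hM m (by simp)
    rw [cf, List.length_cons, sab_succ, sab_succ]
    have h3 : ∀ z : ℕ, ((((z % w : ℕ) : ℤ) - h).natAbs : ℕ) = (z % w - h) + (h - z % w) := by
      intro z
      omega
    have h4 : ‖gv ((((x % w : ℕ) : ℤ) - h), (((y % w : ℕ) : ℤ) - h))‖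
        ≤ ((((x % w - h) + (h - x % w)) + ((y % w - h) + (h - y % w)) : ℕ) : ℝ) := by
      rw [← h3, ← h3]
      unfold gv
      refine (norm_add_le _ _).trans ?_
      rw [norm_mul, Complex.norm_I, mul_one]
      simp only
      rw [Complex.norm_intCast, Complex.norm_intCast, Nat.cast_add, Nat.cast_natAbs,
        Nat.cast_natAbs, Int.cast_abs, Int.cast_abs]
    refine (norm_add_le _ _).trans ?_
    rw [norm_mul]
    have h5 := mul_le_mul h4 h2 (norm_nonneg _) (Nat.cast_nonneg _)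
    have h6 : (((x % w - h + (h - x % w) + sab w h ms.length (x / w)
        + (y % w - h + (h - y % w) + sab w h ms.length (y / w)) : ℕ)) : ℝ) * M
        = (((x % w - h) + (h - x % w) + ((y % w - h) + (h - y % w)) : ℕ) : ℝ) * M
          + ((sab w h ms.length (x / w) + sab w h ms.length (y / w) : ℕ) : ℝ) * M := by
      push_cast
      ring
    rw [h6]
    exact add_le_add h5 h1

theorem fm_nonneg {S : Type} (F : S → ℝ) (w : ℕ) (ms : List S) (hF : ∀ m ∈ ms, 0 ≤ F m) :
    ∀ x : ℕ, 0 ≤ fm F w 0 ms x := by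
  induction ms with
  | nil => intro x; simp [fm]
  | cons m ms ih =>
    intro x
    rw [fm, zsmul_eq_mul]
    have h1 := ih (fun m' h' => hF m' (by simp [h'])) (x / w)
    have h2 := hF m (by simp)
    have h3 : (0 : ℝ) ≤ (((((x % w : ℕ) : ℤ) - (0 : ℕ)) : ℤ) : ℝ) := by
      push_cast
      rw [sub_zero]
      exact Nat.cast_nonneg _
    exact add_nonneg (mul_nonneg h3 h2) h1

theorem fm_ones {S : Type} (F : S → ℝ) (ms : List S) :
    fm F 2 0 ms (2 ^ ms.length - 1) = (ms.map F).sum := by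
  induction ms with
  | nil => rfl
  | cons m ms ih =>
    rw [fm, List.length_cons, List.map_cons, List.sum_cons]
    have h1 : (2 ^ (ms.length + 1) - 1) / 2 = 2 ^ ms.length - 1 := by
      rw [pow_succ]
      omega
    have h2 : (2 ^ (ms.length + 1) - 1) % 2 = 1 := by
      have := Nat.one_le_two_pow (n := ms.length)
      rw [pow_succ]
      omega
    rw [h1, h2, ih]
    simp

/-! ## Soundness -/

theorem isz_eq {x : ℤ} (h : isz x = true) : x = 0 := by
  rcases x with n | n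
  · have h1 : n = 0 := Nat.eq_of_beq_eq_true h
    rw [h1]
    rfl
  · exact absurd h (by simp [isz])

/-- **Soundness of the second check.** -/
theorem sound6 {t : Tab6} {K : ℕ} {rep : ℕ → ℕ} {bas qm : List Mo} {gm : List (List Mo)}
    {prs : List (ℕ × ℕ)} (ht : TabOK6 t K rep bas qm gm prs) (C : Cert6) (hR : chR t C = true)
    (hI : chI t C = true) (hBb : chB t K C = true) (c : ℕ → ℂ) :
    (C.eta : ℝ) + (pv c (fun k => conj (c k)) (upl C.wQ C.hQ qm C.qx C.qy)).re
      + C.mL * (rel (((C.P.p : ℂ) + C.P.q * Complex.I) / C.P.sr) ((C.P.bn : ℂ) / C.P.bd) c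
        (dec6 C.wL C.hL gm C.G)).re ≤ 0 := by
  have hb0 : ((Nat.ble (Nat.succ (nF t C)) (2 ^ K) && uok C.U t.n)
    && (Nat.ble (2 * (sab C.wR C.hR t.nR C.rx + sab C.wR C.hR t.nR C.ry)) C.eps
      && ((Nat.ble 1 C.P.sr && (Nat.ble 1 C.P.bd && (Nat.ble 1 C.m1 && Nat.ble 1 C.wD)))
        && ((Nat.ble (Nat.succ C.hL) C.wL && Nat.ble C.wL (Nat.succ (2 * C.hL)))
          && ((Nat.ble (Nat.succ C.hR) C.wR && Nat.ble C.wR (Nat.succ (2 * C.hR)))
            && ((Nat.ble (Nat.succ C.hQ) C.wQ && Nat.ble C.wQ (Nat.succ (2 * C.hQ)))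
              && ((Nat.ble (Nat.succ C.hU) C.wU && Nat.ble C.wU (Nat.succ (2 * C.hU)))
                && (Nat.beq C.wG (2 * C.hG)
                  && Nat.ble (2 * t.n * (C.wU * C.wU)) C.hG)))))))) = true := hBb
  simp only [Bool.and_eq_true, Nat.ble_eq] at hb0
  obtain ⟨⟨hn, hU⟩, heps, ⟨hsr, hbd, hm1, hwD⟩, ⟨hL1, hL2⟩, ⟨hR1, hR2⟩, ⟨hQ1, hQ2⟩, ⟨hU1, hU2⟩,
    hG1, hG2⟩ := hb0
  have hG1' := Nat.eq_of_beq_eq_true hG1
  have hwU : 1 ≤ C.wU := by omega
  have hH : 1 ≤ C.hG := by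
    have h1 := ht.npos
    have h2 : 1 ≤ C.wU * C.wU := Nat.mul_pos hwU hwU
    have h3 : 1 ≤ 2 * t.n * (C.wU * C.wU) := Nat.mul_pos (by omega) h2
    omega
  have z1 := FRm_zero ht.num C (by omega) (by omega) (by omega) (by omega) (by omega) (by omega)
    (by rw [← FR_eq]; exact isz_eq hR) (fun j => (mc c (rep j)).re)
  have z2 := FIm_zero ht.num C (by omega) (by omega) (by omega) (by omega) (by omega)
    (by rw [← FI_eq t C (by omega) (by omega) (by omega) (by omega) (by omega) (by omega)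
      (by omega) (by omega)]; exact isz_eq hI) (fun j => (mc c (rep j)).im)
  change FRm t C (rhoV K rep c) = 0 at z1
  change FIm t C (sigV K rep c) = 0 at z2
  have hsr0 : C.P.sr ≠ 0 := by omega
  have hbd0 : C.P.bd ≠ 0 := by omega
  -- the constant
  have e0 : rhoV K rep c t.one = 1 := by
    rw [rhoV, vs_zero _ ht.num.one, ht.one]
    simp [mc, dig]
  -- the form
  have e1 : bmR (rhoV K rep c) C.wQ C.hQ t.q C.qx - bmI (sigV K rep c) C.wQ C.hQ t.q C.qy
      = (pv c (fun k => conj (c k)) (upl C.wQ C.hQ qm C.qx C.qy)).re := by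
    rw [okF_spec ht.q c C.wQ C.hQ C.qx C.qy, pv_upl]
    congr 1
    apply cf_congr
    intro m hm
    have := List.all_eq_true.1 ht.qv m hm
    simp only [pow_zero, one_mul]
    exact mc_cod c this
  -- the multipliers
  have e2 := okGs_spec C.P hsr0 hbd0 c C.wL C.hL t.g gm ht.g C.G
  -- the Gram matrix
  have e3 : 0 ≤ mmR (rhoV K rep c) C.wG C.hG C.wU C.hU t.n C.U t.c
      - mmI (sigV K rep c) C.wG C.hG C.wU C.hU t.n C.U t.c := by
    rw [(okC_spec c C.wG C.hG C.wU C.hU C.U hG1' (by omega) (by omega) (by omega) hU hG2 t.c 0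
      ht.c).2, ← Finset.range_eq_Ico]
    exact SP_nonneg C.wU C.hU C.U t.n (fun i => bv c (bm bas i)) hU
  -- the squares
  have sq : ∀ m ∈ bas, ((2 ^ 0 : ℂ) * mc c (cod (prd (m, m)))).re = ‖bv c m‖ ^ 2 := by
    intro m hm
    have h1 := List.all_eq_true.1 ht.dv m hm
    rw [pow_zero, one_mul, mc_prd c h1]
    simp only
    rw [Complex.mul_conj, Complex.ofReal_re, Complex.normSq_eq_norm_sq]
  have e4 : 0 ≤ bmR (rhoV K rep c) C.wD 0 t.d C.dg := by
    rw [okF_spec_re ht.d]
    apply fm_nonneg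
    intro m hm
    rw [sq m hm]
    exact sq_nonneg _
  obtain ⟨S, hS⟩ : ∃ S : ℝ, bmR (rhoV K rep c) 2 0 t.d (2 ^ t.nB - 1) = S := ⟨_, rfl⟩
  have hS1 : S = (bas.map (fun m => ‖bv c m‖ ^ 2)).sum := by
    rw [← hS, okF_spec_re ht.d, ← ht.nB, fm_ones]
    congr 1
    exact List.map_congr_left sq
  have hS2 : ∀ m ∈ bas, ‖bv c m‖ ^ 2 ≤ S := by
    intro m hm
    rw [hS1]
    exact List.single_le_sum (by
      intro x hx
      obtain ⟨m', -, rfl⟩ := List.mem_map.1 hx
      exact sq_nonneg _) _ (List.mem_map.2 ⟨m, hm, rfl⟩)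
  have hS0 : 0 ≤ S := by
    rw [hS1]
    apply List.sum_nonneg
    intro x hx
    obtain ⟨m', -, rfl⟩ := List.mem_map.1 hx
    exact sq_nonneg _
  -- the residual
  have e5 : |bmR (rhoV K rep c) C.wR C.hR t.r C.rx - bmI (sigV K rep c) C.wR C.hR t.r C.ry|
      ≤ ((sab C.wR C.hR t.nR C.rx + sab C.wR C.hR t.nR C.ry : ℕ) : ℝ) * S := by
    rw [okF_spec ht.r c C.wR C.hR C.rx C.ry, ← ht.nR]
    refine (Complex.abs_re_le_norm _).trans (cf_le _ C.wR C.hR S prs ?_ C.rx C.ry)
    intro p hp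
    have h1 := List.all_eq_true.1 ht.rv p hp
    simp only [Bool.and_eq_true, Nat.ble_eq] at h1
    obtain ⟨⟨h2, h3⟩, h4⟩ := h1
    rw [pow_zero, one_mul, mc_prd c h2]
    simp only
    rw [norm_mul, Complex.norm_conj]
    have k1 : bm bas p.1 ∈ bas := by
      rw [bm, List.getD_eq_getElem _ _ (by omega)]
      exact List.getElem_mem _
    have k2 : bm bas p.2 ∈ bas := by
      rw [bm, List.getD_eq_getElem _ _ (by omega)]
      exact List.getElem_mem _
    nlinarith only [hS2 _ k1, hS2 _ k2]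
  -- the sum
  unfold FRm TRm at z1
  unfold FIm TIm at z2
  simp only [zsmul_eq_mul, e0, hS] at z1 z2
  push_cast at z1 z2
  generalize hT : (C.eta : ℝ) + (pv c (fun k => conj (c k)) (upl C.wQ C.hQ qm C.qx C.qy)).re
      + C.mL * (rel (((C.P.p : ℂ) + C.P.q * Complex.I) / C.P.sr) ((C.P.bn : ℂ) / C.P.bd) c
        (dec6 C.wL C.hL gm C.G)).re = T
  generalize (rel (((C.P.p : ℂ) + C.P.q * Complex.I) / C.P.sr) ((C.P.bn : ℂ) / C.P.bd) c
        (dec6 C.wL C.hL gm C.G)).re = X at e2 hT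
  generalize (pv c (fun k => conj (c k)) (upl C.wQ C.hQ qm C.qx C.qy)).re = Y at e1 hT
  generalize bmR (rhoV K rep c) C.wQ C.hQ t.q C.qx = Q1 at e1 z1
  generalize bmI (sigV K rep c) C.wQ C.hQ t.q C.qy = Q2 at e1 z2
  generalize gsmR C.P (rhoV K rep c) C.wL C.hL t.g C.G = G1 at e2 z1
  generalize gsmI C.P (sigV K rep c) C.wL C.hL t.g C.G = G2 at e2 z2
  generalize mmR (rhoV K rep c) C.wG C.hG C.wU C.hU t.n C.U t.c = M1 at e3 z1
  generalize mmI (sigV K rep c) C.wG C.hG C.wU C.hU t.n C.U t.c = M2 at e3 z2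
  generalize bmR (rhoV K rep c) C.wD 0 t.d C.dg = D1 at e4 z1
  generalize bmR (rhoV K rep c) C.wR C.hR t.r C.rx = R1 at e5 z1
  generalize bmI (sigV K rep c) C.wR C.hR t.r C.ry = R2 at e5 z2
  have f1 : 2 * (C.m1 : ℝ) * ((C.P.sr * C.P.bd : ℝ) * T) + C.m2 * (M1 - M2) + D1 + C.eps * S
      + 2 * (R1 - R2) = 0 := by
    rw [← hT, ← e1]
    have e2' : (C.mL : ℝ) * ((C.P.sr * C.P.bd : ℝ) * X) = C.mL * (G1 + G2) := by rw [e2]
    linear_combination z1 - z2 + 2 * (C.m1 : ℝ) * e2'
  have f2 : 0 ≤ (C.m2 : ℝ) * (M1 - M2) := mul_nonneg (Nat.cast_nonneg _) e3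
  have f3 : (((sab C.wR C.hR t.nR C.rx + sab C.wR C.hR t.nR C.ry : ℕ) : ℝ) * S) * 2
      ≤ C.eps * S := by
    have h1 : ((2 * (sab C.wR C.hR t.nR C.rx + sab C.wR C.hR t.nR C.ry) : ℕ) : ℝ) ≤ C.eps := by
      exact_mod_cast heps
    have h2 := mul_le_mul_of_nonneg_right h1 hS0
    push_cast at h2 ⊢
    linarith only [h2]
  have f4 := (abs_le.1 e5).1
  have f5 : (C.m1 : ℝ) * ((C.P.sr * C.P.bd : ℝ) * T) ≤ 0 := by linarith only [e4, f1, f2, f3, f4]
  have f6 : (0 : ℝ) < C.m1 * (C.P.sr * C.P.bd) := by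
    have a1 : (0 : ℝ) < C.m1 := by exact_mod_cast hm1
    have a2 : (0 : ℝ) < C.P.sr := by exact_mod_cast hsr
    have a3 : (0 : ℝ) < C.P.bd := by exact_mod_cast hbd
    positivity
  by_contra hneg
  have f7 : 0 < T := not_le.1 hneg
  nlinarith only [f5, f6, hneg]

end Pool.Agent.M16.Helper54.HR2
end

/- Helper94.T.Helper98.HR2.SmEq -/
section
/-!
MP_16b0ee, project HR2: the region of small exponents: comparison of the digits of the form with a
short list of terms.
-/

set_option autoImplicit false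

namespace Pool.Agent.M16.Helper98.HR2

open Pool.Agent.M16.Helper12.HR2 (Mo GZ gv Pol mv pv upl pv_cons pv_nil)

/-- the digits are the coefficients of the short list; the other digits are zero -/
def eqS (w h : ℕ) : List Mo → List (Mo × GZ) → ℕ → ℕ → Bool
  | [], l, _, _ => l.isEmpty
  | _ :: ms, [], x, y => (x % w == h) && ((y % w == h) && eqS w h ms [] (x / w) (y / w))
  | m :: ms, t :: l, x, y =>
    if m = t.1 then
      (decide (((x % w : ℕ) : ℤ) - h = t.2.1)) && ((decide (((y % w : ℕ) : ℤ) - h = t.2.2)) &&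
        eqS w h ms l (x / w) (y / w))
    else (x % w == h) && ((y % w == h) && eqS w h ms (t :: l) (x / w) (y / w))

theorem gv_zero' : gv (0, 0) = 0 := by simp [gv]

theorem eqS_pv (φ ψ : ℕ → ℂ) (w h : ℕ) : ∀ (ms : List Mo) (l : List (Mo × GZ)) (x y : ℕ),
    eqS w h ms l x y = true → pv φ ψ (upl w h ms x y) = pv φ ψ l := by
  intro ms
  induction ms with
  | nil =>
    intro l x y hl
    simp only [eqS, List.isEmpty_iff] at hl
    rw [hl]
    rfl
  | cons m ms ih =>
    intro l x y hl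
    have hz : (x % w == h) = true → (y % w == h) = true →
        pv φ ψ (upl w h (m :: ms) x y) = pv φ ψ (upl w h ms (x / w) (y / w)) := by
      intro h1 h2
      rw [beq_iff_eq] at h1 h2
      rw [upl, pv_cons, h1, h2, sub_self, gv_zero', zero_mul, zero_add]
    cases l with
    | nil =>
      simp only [eqS, Bool.and_eq_true] at hl
      rw [hz hl.1 hl.2.1, ih _ _ _ hl.2.2]
    | cons t l =>
      rw [eqS] at hl
      split at hl
      · rename_i hm
        simp only [Bool.and_eq_true, decide_eq_true_eq] at hl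
        rw [upl, pv_cons, pv_cons, ih _ _ _ hl.2.2, hl.1, hl.2.1, hm]
      · simp only [Bool.and_eq_true] at hl
        rw [hz hl.1 hl.2.1, ih _ _ _ hl.2.2]

end Pool.Agent.M16.Helper98.HR2
end
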