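import Mathlib
import Pool.Agent.Helper60.M16.G03

/- Helper94.T.Helper22.Half.Defs -/
section
/-!
Definitions used in the statement.
-/

set_option autoImplicit false

open Filter Topology

namespace Pool.Agent.M16.Helper22.Half

/-- `ψ` is in the class Sigma of the exterior disc and `h` is the branch of `log ψ'` on the
exterior disc that tends to `0` at infinity. -/
structure SigmaLog (ψ h : ℂ → ℂ) : Prop where
  diff : DifferentiableOn ℂ ψ {z : ℂ | 1 < ‖z‖}
  inj : Set.InjOn ψ {z : ℂ | 1 < ‖z‖}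
  normalised : ∃ b : ℂ, Tendsto (fun z => ψ z - z) (Bornology.cobounded ℂ) (𝓝 b)
  hdiff : DifferentiableOn ℂ h {z : ℂ | 1 < ‖z‖}
  exp_eq : ∀ z : ℂ, 1 < ‖z‖ → Complex.exp (h z) = deriv ψ z
  lim : Tendsto h (Bornology.cobounded ℂ) (𝓝 0)

/-- A holomorphic family in the class Sigma, parametrised by the unit disc, starting at the
identity. -/
structure HolFam (ψ h : ℂ → ℂ → ℂ) : Prop where
  mem : ∀ l ∈ Metric.ball (0:ℂ) 1, SigmaLog (ψ l) (h l)
  hol : ∀ z : ℂ, 1 < ‖z‖ → DifferentiableOn ℂ (fun l => ψ l z) (Metric.ball 0 1)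
  base : ∀ z : ℂ, 1 < ‖z‖ → ψ 0 z = z

/-- The mean of `exp (a |h|² / log (R² / (R² - 1)))` over the circle of radius `R`. -/
noncomputable def mInt (a R : ℝ) (h : ℂ → ℂ) : ℝ :=
  (1 / (2 * Real.pi)) * ∫ θ in (0:ℝ)..(2 * Real.pi),
    Real.exp (a * ‖h ((R : ℂ) * Complex.exp ((θ : ℂ) * Complex.I))‖ ^ 2
      / Real.log (R ^ 2 / (R ^ 2 - 1)))

end Pool.Agent.M16.Helper22.Half
end

/- Helper94.T.Helper94.HR2.FinSig -/
section
/-!
MP_16b0ee, project HR2: the statement of the hand-in for the class Sigma, from one bound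
`mInt a0 R h ≤ C` for the class Sigma (light imports).
-/

set_option autoImplicit false

open MeasureTheory Set Metric Filter Topology
open scoped ENNReal NNReal Real ComplexConjugate

namespace Pool.Agent.M16.Helper94.HR2

open Pool.Agent.M16.Helper22.Half

/-- monotonicity in the exponent -/
theorem mInt_mono {a a0 R : ℝ} (ha : a ≤ a0) (hR : 1 < R) {ψ h : ℂ → ℂ} (H : SigmaLog ψ h) :
    mInt a R h ≤ mInt a0 R h := by
  have hpi := Real.pi_pos
  have hR0 : 0 < R := by linarith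
  have hL : 0 < Real.log (R ^ 2 / (R ^ 2 - 1)) := by
    apply Real.log_pos
    have h1 : 0 < R ^ 2 - 1 := by nlinarith
    rw [one_lt_div h1]
    linarith
  have hmem : ∀ θ : ℝ, (R : ℂ) * Complex.exp ((θ : ℂ) * Complex.I) ∈ {z : ℂ | 1 < ‖z‖} := by
    intro θ
    show 1 < ‖(R : ℂ) * Complex.exp ((θ : ℂ) * Complex.I)‖
    rw [norm_mul, Complex.norm_exp_ofReal_mul_I, mul_one, Complex.norm_real,
      Real.norm_of_nonneg hR0.le]
    exact hR
  have hfc : Continuous (fun θ : ℝ => h ((R : ℂ) * Complex.exp ((θ : ℂ) * Complex.I))) :=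
    (H.hdiff.continuousOn).comp_continuous (by fun_prop) hmem
  unfold mInt
  apply mul_le_mul_of_nonneg_left _ (by positivity)
  apply intervalIntegral.integral_mono (by positivity)
  · apply Continuous.intervalIntegrable
    exact Real.continuous_exp.comp ((continuous_const.mul (hfc.norm.pow 2)).div_const _)
  · apply Continuous.intervalIntegrable
    exact Real.continuous_exp.comp ((continuous_const.mul (hfc.norm.pow 2)).div_const _)
  · intro θ
    simp only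
    gcongr

/-- The statement for the class Sigma with the closed range `0 < a ≤ a0`. -/
theorem final_sigma {a0 : ℝ}
    (hS : ∃ C : ℝ, ∀ R : ℝ, 1 < R → ∀ ψ h : ℂ → ℂ, SigmaLog ψ h → mInt a0 R h ≤ C) :
    ∃ C : ℝ, ∀ a : ℝ, a ≤ a0 → ∀ R : ℝ, 1 < R → ∀ ψ h : ℂ → ℂ,
      DifferentiableOn ℂ ψ {z : ℂ | 1 < ‖z‖} →
      Set.InjOn ψ {z : ℂ | 1 < ‖z‖} →
      (∃ b : ℂ, Filter.Tendsto (fun z => ψ z - z) (Bornology.cobounded ℂ) (nhds b)) →
      DifferentiableOn ℂ h {z : ℂ | 1 < ‖z‖} →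
      (∀ z : ℂ, 1 < ‖z‖ → Complex.exp (h z) = deriv ψ z) →
      Filter.Tendsto h (Bornology.cobounded ℂ) (nhds 0) →
      (1 / (2 * Real.pi)) * ∫ θ in (0:ℝ)..(2 * Real.pi),
        Real.exp (a * ‖h ((R : ℂ) * Complex.exp ((θ : ℂ) * Complex.I))‖ ^ 2
          / Real.log (R ^ 2 / (R ^ 2 - 1))) ≤ C := by
  obtain ⟨C, hm⟩ := hS
  refine ⟨C, fun a ha R hR ψ h h1 h2 h3 h4 h5 h6 => ?_⟩
  have H : SigmaLog ψ h := ⟨h1, h2, h3, h4, h5, h6⟩
  exact (mInt_mono ha hR H).trans (hm R hR ψ h H)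

end Pool.Agent.M16.Helper94.HR2
end

/- Helper94.T.Helper22.Half.Sums2 -/
section
/-!
Bounds for the four weighted double sums.
-/

set_option autoImplicit false

namespace Pool.Agent.M16.Helper22.Half

variable {b r : ℝ}

theorem De_mul {b : ℝ} (hb : 0 < b) (m : ℕ) : De b m * pq (b + 3) (m - 1) = 1 :=
  inv_mul_cancel₀ (pq_pos (by linarith) _).ne'

end Pool.Agent.M16.Helper22.Half
end

/- Helper94.T.Helper22.Half.Sums3 -/
section
/-!
The third and fourth weighted double sums.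
-/

set_option autoImplicit false

namespace Pool.Agent.M16.Helper22.Half

variable {b r : ℝ}

/-- index shift between the two auxiliary sums -/
theorem shift_sum {m : ℕ} (hm : 1 ≤ m) (u : ℕ → ℝ) :
    ∑ i ∈ Finset.range m, Wt b r m i * i * (((m : ℝ) - i) + 1 + 2 * r) * u i
      = ∑ i ∈ Finset.range m, Wt b r m i * (((m : ℝ) - i) - 1) * (b + 1 - 2 * r + i) * u (i + 1) := by
  obtain ⟨k, rfl⟩ : ∃ k, m = k + 1 := ⟨m - 1, by omega⟩
  rw [Finset.sum_range_succ', Finset.sum_range_succ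
    (fun i => Wt b r (k + 1) i * ((((k + 1 : ℕ) : ℝ) - i) - 1) * (b + 1 - 2 * r + i) * u (i + 1))]
  have e0 : Wt b r (k + 1) k * ((((k + 1 : ℕ) : ℝ) - (k : ℝ)) - 1) * (b + 1 - 2 * r + k)
      * u (k + 1) = 0 := by
    push_cast
    ring
  rw [e0]
  simp only [Nat.cast_zero, mul_zero, zero_mul, add_zero]
  apply Finset.sum_congr rfl
  intro i hi
  rw [Finset.mem_range] at hi
  unfold Wt
  have e1 : k + 1 - 1 - i = (k + 1 - 1 - (i + 1)) + 1 := by omega
  rw [e1]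
  obtain ⟨a, ha⟩ : ∃ a, a = k + 1 - 1 - (i + 1) := ⟨_, rfl⟩
  rw [← ha]
  have hk : (k : ℝ) = i + 1 + a := by
    have : k = i + 1 + a := by omega
    rw [this]; push_cast; ring
  have h1 := pq_succ' (b + 1 - 2 * r) i
  have h2 := pq_succ' (2 + 2 * r) a
  push_cast
  rw [hk]
  have q1 : pq (2 + 2 * r) a * pq (b + 1 - 2 * r) (i + 1) * ((i : ℝ) + 1)
      * (((i : ℝ) + 1 + a + 1 - (i + 1)) + 1 + 2 * r) * u (i + 1)
      = (pq (2 + 2 * r) a * (2 + 2 * r + a)) * (((i : ℝ) + 1) * pq (b + 1 - 2 * r) (i + 1))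
        * u (i + 1) := by ring
  have q2 : pq (2 + 2 * r) (a + 1) * pq (b + 1 - 2 * r) i * (((i : ℝ) + 1 + a + 1 - i) - 1)
      * (b + 1 - 2 * r + i) * u (i + 1)
      = (((a : ℝ) + 1) * pq (2 + 2 * r) (a + 1)) * (pq (b + 1 - 2 * r) i * (b + 1 - 2 * r + i))
        * u (i + 1) := by ring
  rw [q1, q2, h1, h2]

/-- the exact evaluation -/
theorem S3_exact (hb : 0 < b) {m : ℕ} (hm : 1 ≤ m) (J : ℕ) :
    (b + 1 - 2 * r) * (m + b + 2) * ∑ j ∈ Finset.range J, ∑ i ∈ Finset.range m,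
        De1 b (m + 1 + j) * Wt b r m i / ((j : ℝ) + 1 + i)
      = ∑ i ∈ Finset.range m, Wt b r m i * (i + (b + 1 - 2 * r)) * De b (m + 1) / (1 + (i : ℝ))
        - ∑ i ∈ Finset.range m, Wt b r m i * (i + (b + 1 - 2 * r)) * De b (m + 1 + J)
          / ((J : ℝ) + 1 + i) := by
  induction J with
  | zero => simp
  | succ J ih =>
    rw [Finset.sum_range_succ, mul_add, ih]
    have hn : ((m + 1 + J : ℕ) : ℝ) + b + 2 ≠ 0 := by positivity
    have hD : De b (m + 1 + (J + 1)) = ((m + 1 + J : ℕ) : ℝ) * De1 b (m + 1 + J) := by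
      have h := De_succ hb (n := m + 1 + J) (by omega)
      have e : m + 1 + (J + 1) = m + 1 + J + 1 := by ring
      rw [e]
      unfold De1
      rw [mul_div_assoc', eq_div_iff hn, ← h]
      ring
    have hD0 : De b (m + 1 + J) = (((m + 1 + J : ℕ) : ℝ) + b + 2) * De1 b (m + 1 + J) := by
      unfold De1
      field_simp
    rw [hD, hD0]
    generalize De1 b (m + 1 + J) = E
    have hsh := shift_sum (b := b) (r := r) hm (fun i => E / ((J : ℝ) + 1 + i))
    have hterm : ∀ i ∈ Finset.range m,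
        (b + 1 - 2 * r) * (m + b + 2) * (E * Wt b r m i / ((J : ℝ) + 1 + i))
        = Wt b r m i * (i + (b + 1 - 2 * r)) * ((((m + 1 + J : ℕ) : ℝ) + b + 2) * E)
            / ((J : ℝ) + 1 + i)
          - Wt b r m i * (i + (b + 1 - 2 * r)) * (((m + 1 + J : ℕ) : ℝ) * E)
            / (((J + 1 : ℕ) : ℝ) + 1 + i)
          - Wt b r m i * i * (((m : ℝ) - i) + 1 + 2 * r) * (E / ((J : ℝ) + 1 + i))
          + Wt b r m i * (((m : ℝ) - i) - 1) * (b + 1 - 2 * r + i)
            * (E / ((J : ℝ) + 1 + ((i + 1 : ℕ) : ℝ))) := by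
      intro i hi
      have h1 : (J : ℝ) + 1 + i ≠ 0 := by positivity
      have h2 : (J : ℝ) + 1 + 1 + i ≠ 0 := by positivity
      have e1 : (J : ℝ) + 1 + ((i : ℝ) + 1) = (J : ℝ) + 1 + 1 + i := by ring
      push_cast
      rw [e1]
      field_simp
      ring
    have hsum := Finset.sum_congr rfl hterm
    rw [← Finset.mul_sum, Finset.sum_add_distrib, Finset.sum_sub_distrib, Finset.sum_sub_distrib,
      hsh] at hsum
    rw [hsum]
    ring

theorem S3_aux (hb : 0 < b) (hr : -(1 / 2) ≤ r) (hσ : 0 < b + 1 - 2 * r) {m : ℕ} (hm : 1 ≤ m)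
    (J : ℕ) :
    ∑ j ∈ Finset.range J, ∑ i ∈ Finset.range m, De1 b (m + 1 + j) * Wt b r m i / ((j : ℝ) + 1 + i)
      ≤ 1 / ((b + 1 - 2 * r) * (m + b + 2)) := by
  have h := S3_exact (r := r) hb hm J
  have h2 : 0 ≤ ∑ i ∈ Finset.range m, Wt b r m i * (i + (b + 1 - 2 * r)) * De b (m + 1 + J)
          / ((J : ℝ) + 1 + i) := by
    apply Finset.sum_nonneg
    intro i _
    have h3 := Wt_pos (b := b) (by linarith only [hr] : -1 < r) hσ m i
    have h4 := De_pos hb (m + 1 + J)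
    have : 0 ≤ (i : ℝ) + (b + 1 - 2 * r) := by
      have : (0 : ℝ) ≤ i := Nat.cast_nonneg i
      linarith only [hσ]
    positivity
  have h3 : ∑ i ∈ Finset.range m, Wt b r m i * (i + (b + 1 - 2 * r)) * De b (m + 1) / (1 + (i : ℝ))
      ≤ 1 := by
    have e1 : ∑ i ∈ Finset.range m, Wt b r m i * (i + (b + 1 - 2 * r)) * De b (m + 1) / (1 + (i : ℝ))
        = De b (m + 1) * ∑ i ∈ Finset.range m, pq (2 + 2 * r) (m - 1 - i)
          * pq (b + 1 - 2 * r) (i + 1) := by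
      rw [Finset.mul_sum]
      apply Finset.sum_congr rfl
      intro i _
      unfold Wt
      rw [pq_succ]
      ring
    have e2 : pq (b + 3) m = pq (2 + 2 * r) m + ∑ i ∈ Finset.range m, pq (2 + 2 * r) (m - 1 - i)
          * pq (b + 1 - 2 * r) (i + 1) := by
      have hv := vander (b + 1 - 2 * r) (2 + 2 * r) m
      have e3 : b + 1 - 2 * r + (2 + 2 * r) = b + 3 := by ring
      rw [e3, Finset.sum_range_succ'] at hv
      rw [← hv, pq_zero, one_mul, Nat.sub_zero, add_comm]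
      congr 1
      apply Finset.sum_congr rfl
      intro i _
      have e4 : m - (i + 1) = m - 1 - i := by omega
      rw [e4]; ring
    rw [e1]
    have h5 := pq_pos (by linarith only [hr] : 0 < 2 + 2 * r) m
    have h6 : De b (m + 1) = (pq (b + 3) m)⁻¹ := by
      unfold De; rw [Nat.add_sub_cancel]
    have h7 := pq_pos (by linarith only [hb] : 0 < b + 3) m
    rw [h6, inv_mul_le_iff₀ h7]
    linarith only [e2, h5]
  have hpos : 0 < (b + 1 - 2 * r) * (m + b + 2) := by positivity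
  rw [le_div_iff₀ hpos]
  linarith only [h, h2, h3]

/-- summation by parts -/
theorem by_parts (D v : ℕ → ℝ) (m J : ℕ) :
    ∑ j ∈ Finset.range J, ((j : ℝ) + 1) * D (m + 1 + j) * (v j - v (j + 1))
      = ∑ j ∈ Finset.range J, (((j : ℝ) + 1) * D (m + 1 + j) - j * D (m + j)) * v j
        - J * D (m + J) * v J := by
  induction J with
  | zero => simp
  | succ J ih =>
    rw [Finset.sum_range_succ, Finset.sum_range_succ, ih]
    have e : m + (J + 1) = m + 1 + J := by ring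
    rw [e]
    push_cast
    ring

/-- third sum -/
theorem S3_le (hb : 0 < b) (hr : -(1 / 2) ≤ r) (hσ : 0 < b + 1 - 2 * r) {m : ℕ} (hm : 1 ≤ m)
    (J : ℕ) :
    ∑ j ∈ Finset.range J, ∑ i ∈ Finset.range m,
      ((j : ℝ) + 1) * De b (m + 1 + j) * Wt b r m i / (((j : ℝ) + 1 + i) * ((j : ℝ) + 2 + i))
      ≤ (1 + (b + 3) / m) / (b + 1 - 2 * r) := by
  have hm' : (0 : ℝ) < m := by exact_mod_cast (by omega : 0 < m)
  rw [Finset.sum_comm]
  have h1 : ∀ i ∈ Finset.range m, ∑ j ∈ Finset.range J,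
      ((j : ℝ) + 1) * De b (m + 1 + j) * Wt b r m i / (((j : ℝ) + 1 + i) * ((j : ℝ) + 2 + i))
      ≤ ∑ j ∈ Finset.range J, (m * (1 + (b + 3) / m)) *
        (De1 b (m + 1 + j) * Wt b r m i / ((j : ℝ) + 1 + i)) := by
    intro i _
    have hW := Wt_pos (b := b) (by linarith only [hr] : -1 < r) hσ m i
    have e1 : ∑ j ∈ Finset.range J,
      ((j : ℝ) + 1) * De b (m + 1 + j) * Wt b r m i / (((j : ℝ) + 1 + i) * ((j : ℝ) + 2 + i))
        = Wt b r m i * ∑ j ∈ Finset.range J, ((j : ℝ) + 1) * De b (m + 1 + j)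
          * (1 / ((j : ℝ) + 1 + i) - 1 / (((j + 1 : ℕ) : ℝ) + 1 + i)) := by
      rw [Finset.mul_sum]
      apply Finset.sum_congr rfl
      intro j _
      have q1 : (j : ℝ) + 1 + i ≠ 0 := by positivity
      have q2 : (j : ℝ) + 2 + i ≠ 0 := by positivity
      have q3 : (j : ℝ) + 1 + 1 + i = (j : ℝ) + 2 + i := by ring
      push_cast
      rw [q3]
      field_simp
      ring
    rw [e1, by_parts (De b) (fun j => 1 / ((j : ℝ) + 1 + i)) m J]
    have h2 : 0 ≤ (J : ℝ) * De b (m + J) * (1 / ((J : ℝ) + 1 + i)) := by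
      have := De_pos hb (m + J)
      positivity
    have h3 : ∑ j ∈ Finset.range J, (((j : ℝ) + 1) * De b (m + 1 + j) - j * De b (m + j))
        * (1 / ((j : ℝ) + 1 + i))
        ≤ ∑ j ∈ Finset.range J, (m * (1 + (b + 3) / m)) * De1 b (m + 1 + j) * (1 / ((j : ℝ) + 1 + i)) := by
      apply Finset.sum_le_sum
      intro j _
      apply mul_le_mul_of_nonneg_right _ (by positivity)
      have hE := De1_pos hb (m + 1 + j)
      have hj0 : (0 : ℝ) ≤ j := Nat.cast_nonneg j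
      have hD1 : De b (m + 1 + j) = ((m : ℝ) + 1 + j + b + 2) * De1 b (m + 1 + j) := by
        unfold De1
        push_cast
        have : (m : ℝ) + 1 + j + b + 2 ≠ 0 := by positivity
        field_simp
      have hD0 : ((m : ℝ) + j) * De b (m + j)
          = ((m : ℝ) + 1 + j + b + 2) * ((m : ℝ) + j + b + 2) * De1 b (m + 1 + j) := by
        have h := De_succ hb (n := m + j) (by omega)
        have e : m + 1 + j = m + j + 1 := by ring
        push_cast at h
        rw [← h, ← e, hD1]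
        ring
      have hmj : 0 < (m : ℝ) + j := by positivity
      have hDj : De b (m + j) = ((m : ℝ) + 1 + j + b + 2) * ((m : ℝ) + j + b + 2)
          * De1 b (m + 1 + j) / ((m : ℝ) + j) := by
        rw [eq_div_iff hmj.ne', ← hD0]
        ring
      rw [hD1, hDj]
      have e3 : ((j : ℝ) + 1) * (((m : ℝ) + 1 + j + b + 2) * De1 b (m + 1 + j))
          - j * (((m : ℝ) + 1 + j + b + 2) * ((m : ℝ) + j + b + 2) * De1 b (m + 1 + j) / ((m : ℝ) + j))
          = De1 b (m + 1 + j) * (((m : ℝ) + 1 + j + b + 2) * ((m - j * (b + 1)) / ((m : ℝ) + j))) := by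
        field_simp
        ring
      rw [e3, mul_comm (m * (1 + (b + 3) / m))]
      apply mul_le_mul_of_nonneg_left _ hE.le
      have e4 : ((m : ℝ) - j * (b + 1)) / ((m : ℝ) + j) ≤ m / ((m : ℝ) + j) := by
        gcongr
        nlinarith only [hb]
      calc ((m : ℝ) + 1 + j + b + 2) * ((m - j * (b + 1)) / ((m : ℝ) + j))
          ≤ ((m : ℝ) + 1 + j + b + 2) * (m / ((m : ℝ) + j)) := by gcongr
        _ = m * (1 + (b + 3) / ((m : ℝ) + j)) := by field_simp; ring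
        _ ≤ m * (1 + (b + 3) / m) := by
          gcongr
          linarith only []
    calc Wt b r m i * (∑ j ∈ Finset.range J, (((j : ℝ) + 1) * De b (m + 1 + j) - j * De b (m + j))
        * (1 / ((j : ℝ) + 1 + i)) - (J : ℝ) * De b (m + J) * (1 / ((J : ℝ) + 1 + i)))
        ≤ Wt b r m i * ∑ j ∈ Finset.range J, (m * (1 + (b + 3) / m)) * De1 b (m + 1 + j)
          * (1 / ((j : ℝ) + 1 + i)) := by
          apply mul_le_mul_of_nonneg_left _ hW.le
          linarith only [h2, h3]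
      _ = _ := by
          rw [Finset.mul_sum]
          apply Finset.sum_congr rfl
          intro j _
          ring
  refine (Finset.sum_le_sum h1).trans ?_
  rw [Finset.sum_comm]
  simp_rw [← Finset.mul_sum]
  have h4 := S3_aux hb hr hσ hm J
  have hc : 0 ≤ (m : ℝ) * (1 + (b + 3) / m) := by positivity
  calc (m : ℝ) * (1 + (b + 3) / m) * ∑ j ∈ Finset.range J, ∑ i ∈ Finset.range m,
        De1 b (m + 1 + j) * Wt b r m i / ((j : ℝ) + 1 + i)
      ≤ (m : ℝ) * (1 + (b + 3) / m) * (1 / ((b + 1 - 2 * r) * (m + b + 2))) := by gcongr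
    _ = (1 + (b + 3) / m) / (b + 1 - 2 * r) * (m / (m + b + 2)) := by
        have : (m : ℝ) + b + 2 ≠ 0 := by positivity
        field_simp
    _ ≤ (1 + (b + 3) / m) / (b + 1 - 2 * r) * 1 := by
        have : (m : ℝ) / (m + b + 2) ≤ 1 := by
          rw [div_le_one (by positivity)]; linarith only [hb]
        gcongr
    _ = _ := mul_one _

theorem small_sum (i J : ℕ) :
    ∑ j ∈ Finset.range J, ((j : ℝ) + 1) / (((j : ℝ) + 1 + i) * ((j : ℝ) + 2 + i) * ((j : ℝ) + 3 + i))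
      ≤ 1 / ((i : ℝ) + 2) - 1 / ((J : ℝ) + i + 2) := by
  induction J with
  | zero => simp
  | succ J ih =>
    rw [Finset.sum_range_succ]
    have h1 : ((J : ℝ) + 1) / (((J : ℝ) + 1 + i) * ((J : ℝ) + 2 + i) * ((J : ℝ) + 3 + i))
        ≤ 1 / ((J : ℝ) + i + 2) - 1 / (((J + 1 : ℕ) : ℝ) + i + 2) := by
      have e1 : 1 / ((J : ℝ) + i + 2) - 1 / (((J + 1 : ℕ) : ℝ) + i + 2)
          = ((J : ℝ) + 1 + i) / (((J : ℝ) + 1 + i) * ((J : ℝ) + 2 + i) * ((J : ℝ) + 3 + i)) := by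
        push_cast
        have q1 : (J : ℝ) + i + 2 ≠ 0 := by positivity
        have q2 : (J : ℝ) + 1 + i + 2 ≠ 0 := by positivity
        have q3 : (J : ℝ) + 1 + i ≠ 0 := by positivity
        have q4 : (J : ℝ) + 2 + i ≠ 0 := by positivity
        have q5 : (J : ℝ) + 3 + i ≠ 0 := by positivity
        field_simp
        ring
      rw [e1]
      apply div_le_div_of_nonneg_right _ (by positivity)
      have : (0 : ℝ) ≤ i := Nat.cast_nonneg i
      linarith only []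
    linarith

/-- crude bound of the fourth sum -/
theorem S4_le' (hb : 0 < b) (hr : -(1 / 2) ≤ r) (hσ : 0 < b + 1 - 2 * r)
    {m : ℕ} (hm : 1 ≤ m) (J : ℕ) :
    ∑ j ∈ Finset.range J, ∑ i ∈ Finset.range m,
      ((j : ℝ) + 1) * De b (m + 1 + j) * Wt b r m i
        / (((j : ℝ) + 1 + i) * ((j : ℝ) + 2 + i) * ((j : ℝ) + 3 + i)) ≤ 1 := by
  rw [Finset.sum_comm]
  have hD := De_pos hb (m + 1)
  have hDP : De b (m + 1) * pq (b + 3) m = 1 := by
    have := De_mul hb (m + 1)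
    rwa [Nat.add_sub_cancel] at this
  have h1 : ∀ i ∈ Finset.range m, ∑ j ∈ Finset.range J,
      ((j : ℝ) + 1) * De b (m + 1 + j) * Wt b r m i
        / (((j : ℝ) + 1 + i) * ((j : ℝ) + 2 + i) * ((j : ℝ) + 3 + i))
      ≤ De b (m + 1) * Wt b r m i := by
    intro i _
    have hW := Wt_pos (b := b) (by linarith only [hr] : -1 < r) hσ m i
    calc ∑ j ∈ Finset.range J, ((j : ℝ) + 1) * De b (m + 1 + j) * Wt b r m i
        / (((j : ℝ) + 1 + i) * ((j : ℝ) + 2 + i) * ((j : ℝ) + 3 + i))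
        ≤ ∑ j ∈ Finset.range J, (De b (m + 1) * Wt b r m i) * (((j : ℝ) + 1)
        / (((j : ℝ) + 1 + i) * ((j : ℝ) + 2 + i) * ((j : ℝ) + 3 + i))) := by
          apply Finset.sum_le_sum
          intro j _
          have hDj := De_anti hb (a := m + 1) (c := m + 1 + j) (by omega) (by omega)
          have hq : 0 ≤ ((j : ℝ) + 1)
            / (((j : ℝ) + 1 + i) * ((j : ℝ) + 2 + i) * ((j : ℝ) + 3 + i)) := by positivity
          calc ((j : ℝ) + 1) * De b (m + 1 + j) * Wt b r m i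
              / (((j : ℝ) + 1 + i) * ((j : ℝ) + 2 + i) * ((j : ℝ) + 3 + i))
              = (De b (m + 1 + j) * Wt b r m i) * (((j : ℝ) + 1)
                / (((j : ℝ) + 1 + i) * ((j : ℝ) + 2 + i) * ((j : ℝ) + 3 + i))) := by ring
            _ ≤ _ := by gcongr
      _ = (De b (m + 1) * Wt b r m i) * ∑ j ∈ Finset.range J, ((j : ℝ) + 1)
        / (((j : ℝ) + 1 + i) * ((j : ℝ) + 2 + i) * ((j : ℝ) + 3 + i)) := by rw [Finset.mul_sum]
      _ ≤ (De b (m + 1) * Wt b r m i) * 1 := by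
          apply mul_le_mul_of_nonneg_left _ (by positivity)
          refine (small_sum i J).trans ?_
          have h3 : 0 ≤ 1 / ((J : ℝ) + i + 2) := by positivity
          have h4 : 1 / ((i : ℝ) + 2) ≤ 1 := by
            rw [div_le_one (by positivity)]
            have : (0 : ℝ) ≤ i := Nat.cast_nonneg i
            linarith only []
          linarith only [h3, h4]
      _ = _ := by ring
  refine (Finset.sum_le_sum h1).trans ?_
  rw [← Finset.mul_sum, sum_Wt hm, ← hDP]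
  gcongr
  exact pq_mono_n (by linarith only [hb]) (by omega)

end Pool.Agent.M16.Helper22.Half
end

/- Helper94.T.Helper22.Half.Core -/
section
/-!
Cauchy-Schwarz estimates for palindromic sequences.
-/

set_option autoImplicit false

namespace Pool.Agent.M16.Helper22.Half

theorem cs_aux (m : ℕ) (a : ℕ → ℝ) (ha : ∀ i, 0 < a i) (Q V Z : ℕ → ℂ) :
    ‖∑ i ∈ Finset.range m, ((m - i : ℕ) : ℂ) * Q i * V i * Z i‖ ^ 2
      ≤ (∑ i ∈ Finset.range m, ((m - i : ℕ) : ℝ) * ‖Q i‖ ^ 2 * a i * ‖Z i‖ ^ 2)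
        * ∑ i ∈ Finset.range m, ((m - i : ℕ) : ℝ) * (a i)⁻¹ * ‖V i‖ ^ 2 := by
  have h1 : ‖∑ i ∈ Finset.range m, ((m - i : ℕ) : ℂ) * Q i * V i * Z i‖
      ≤ ∑ i ∈ Finset.range m, ((m - i : ℕ) : ℝ) * ‖Q i‖ * ‖V i‖ * ‖Z i‖ := by
    refine (norm_sum_le _ _).trans (le_of_eq ?_)
    apply Finset.sum_congr rfl
    intro i _
    rw [norm_mul, norm_mul, norm_mul, Complex.norm_natCast]
  have h2 := Finset.sum_sq_le_sum_mul_sum_of_sq_le_mul (Finset.range m)
    (r := fun i => ((m - i : ℕ) : ℝ) * ‖Q i‖ * ‖V i‖ * ‖Z i‖)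
    (f := fun i => ((m - i : ℕ) : ℝ) * ‖Q i‖ ^ 2 * a i * ‖Z i‖ ^ 2)
    (g := fun i => ((m - i : ℕ) : ℝ) * (a i)⁻¹ * ‖V i‖ ^ 2)
    (fun i _ => by have := ha i; positivity) (fun i _ => by have := ha i; positivity)
    (fun i _ => by
      have := (ha i).ne'
      apply le_of_eq
      field_simp)
  refine le_trans ?_ h2
  exact pow_le_pow_left₀ (norm_nonneg _) h1 2

end Pool.Agent.M16.Helper22.Half
end

/- Helper94.T.Helper39.HR.Gram -/
section
/-!
MP_16b0ee, project HR: the lower bound of `Pf` by two functionals.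
-/

set_option autoImplicit false

namespace Pool.Agent.M16.Helper39.HR

open Pool.Agent.M16.Helper22.Half

/-- Cauchy-Schwarz for the functional `Fn` -/
theorem Fn_cs {s : ℂ} (hs : ‖s‖ < 1 / 2) {b : ℝ} (hb : 0 < b) {K : ℝ}
    (hK : ∀ n, kap s.re (‖s‖ ^ 2) n ≤ K) (d : ℕ → ℂ) (m : ℕ) (f : ℕ → ℂ) :
    ‖Fn s d m f‖ ^ 2 ≤ K * (∑ i ∈ Finset.range m, Wt b s.re m i * ‖f i‖ ^ 2) * Pf s b d m := by
  have hre := Complex.abs_re_le_norm s
  have hre2 := abs_lt.mp (hre.trans_lt hs)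
  have hσ : 0 < b + 1 - 2 * s.re := by linarith only [hb, hre2]
  have h1s0 : (1 + s) ≠ 0 := by
    intro h
    have h2 : s = -1 := by linear_combination h
    rw [h2] at hs
    simp at hs
    norm_num at hs
  have h1s : 0 < ‖1 + s‖ ^ 2 := by
    have := norm_pos_iff.mpr h1s0
    positivity
  have hcs := cs_aux m (fun i => pq (b + 1 - 2 * s.re) i) (fun i => pq_pos hσ i)
    (fun i => pq (1 + s) (m - i)) (fun i => Vd s d m i) f
  have e1 : ∑ i ∈ Finset.range m, ((m - i : ℕ) : ℂ) * pq (1 + s) (m - i) * Vd s d m i * f i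
      = (1 + s) * Fn s d m f := by
    unfold Fn
    rw [Finset.mul_sum]
    apply Finset.sum_congr rfl
    intro i hi
    rw [Finset.mem_range] at hi
    have h := pq_shift (1 + s) (m - 1 - i)
    have e : m - 1 - i + 1 = m - i := by omega
    have e2 : ((m - 1 - i : ℕ) : ℂ) + 1 = ((m - i : ℕ) : ℂ) := by
      rw [← e]
      push_cast
      ring
    have e3 : (1 + s + 1 : ℂ) = 2 + s := by ring
    rw [e2, e, e3] at h
    linear_combination (Vd s d m i * f i) * h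
  rw [e1, norm_mul, mul_pow] at hcs
  have hsum : ∑ i ∈ Finset.range m, ((m - i : ℕ) : ℝ) * ‖pq (1 + s) (m - i)‖ ^ 2
      * pq (b + 1 - 2 * s.re) i * ‖f i‖ ^ 2
      ≤ ‖1 + s‖ ^ 2 * (K * ∑ i ∈ Finset.range m, Wt b s.re m i * ‖f i‖ ^ 2) := by
    rw [Finset.mul_sum, Finset.mul_sum]
    apply Finset.sum_le_sum
    intro i hi
    rw [Finset.mem_range] at hi
    have h1 := norm_Q s (by linarith only [hre2] : -1 < s.re) (m - 1 - i)
    have e1 : m - 1 - i + 1 = m - i := by omega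
    have e2 : ((m - 1 - i : ℕ) : ℝ) + 1 = ((m - i : ℕ) : ℝ) := by exact_mod_cast e1
    rw [e1, e2] at h1
    rw [h1]
    unfold Wt
    have p1 := pq_pos (by linarith only [hre2] : 0 < 2 + 2 * s.re) (m - 1 - i)
    have p2 := pq_pos hσ i
    calc ‖1 + s‖ ^ 2 * kap s.re (‖s‖ ^ 2) (m - 1 - i) * pq (2 + 2 * s.re) (m - 1 - i)
          * pq (b + 1 - 2 * s.re) i * ‖f i‖ ^ 2
        ≤ ‖1 + s‖ ^ 2 * K * pq (2 + 2 * s.re) (m - 1 - i)
          * pq (b + 1 - 2 * s.re) i * ‖f i‖ ^ 2 := by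
          have := hK (m - 1 - i)
          gcongr
      _ = _ := by ring
  have hP := Pf_nonneg hσ d m
  have h4 := hcs.trans (mul_le_mul_of_nonneg_right hsum hP)
  rw [mul_assoc (‖1 + s‖ ^ 2)] at h4
  exact le_of_mul_le_mul_left h4 h1s

end Pool.Agent.M16.Helper39.HR
end

/- Helper94.T.Helper39.HR.Lower -/
section
/-!
MP_16b0ee, project HR: the lower bound of `Pf` by two functionals, with the limiting Gram matrix.
-/

set_option autoImplicit false

open scoped ComplexConjugate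

namespace Pool.Agent.M16.Helper39.HR


section

variable {s : ℂ}

theorem norm_add_le_of {a : ℂ} {A : ℝ} {c : ℂ} {C : ℝ} (ha : ‖a‖ ≤ A) (hc : ‖c‖ ≤ C) :
    ‖a + c‖ ≤ A + C := (norm_add_le a c).trans (add_le_add ha hc)

end

end Pool.Agent.M16.Helper39.HR
end

/- Helper94.T.Helper39.HR.NBound -/
section
/-!
MP_16b0ee, project HR: the bound of the upper form by the lower form and the diagonal.
-/

set_option autoImplicit false

open scoped ComplexConjugate

namespace Pool.Agent.M16.Helper39.HR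

open Pool.Agent.M16.Helper22.Half

theorem Fn_sum (s : ℂ) (d : ℕ → ℂ) (m J : ℕ) (w : ℕ → ℂ) (f : ℕ → ℕ → ℂ) :
    ∑ j ∈ Finset.range J, w j * Fn s d m (f j)
      = Fn s d m (fun i => ∑ j ∈ Finset.range J, w j * f j i) := by
  induction J with
  | zero =>
    simp only [Finset.range_zero, Finset.sum_empty]
    unfold Fn
    simp
  | succ J ih =>
    rw [Finset.sum_range_succ, ih, ← Fn_smul, ← Fn_add]
    apply Fn_congr
    intro i _
    rw [Finset.sum_range_succ]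

theorem normsq_add_mul (G u U : ℂ) : ‖G + u * U‖ ^ 2
    = ‖G‖ ^ 2 + 2 * (conj G * u * U).re + ‖u‖ ^ 2 * ‖U‖ ^ 2 := by
  rw [← Complex.normSq_eq_norm_sq, ← Complex.normSq_eq_norm_sq, ← Complex.normSq_eq_norm_sq,
    ← Complex.normSq_eq_norm_sq]
  simp only [Complex.normSq_apply, Complex.add_re, Complex.add_im, Complex.mul_im,
    Complex.mul_re, Complex.conj_re, Complex.conj_im]
  ring

/-- the diagonal quantity -/
noncomputable def Xm (b K : ℝ) (d : ℕ → ℂ) (m : ℕ) : ℝ :=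
  (m : ℝ) ^ 2 * ‖Sk d m 0‖ ^ 2 / (4 * K * pq (b + 3) (m - 1))

/-- the half width factor -/
noncomputable def kp (b : ℝ) (m L : ℕ) : ℝ :=
  (1 + (b + 3) / m) / (2 * (b + 2)) + (1 / L + L / m)

theorem T3_bound {s : ℂ} (hs : ‖s‖ < 1 / 2) {b : ℝ} (hb : 0 < b) {K Cw : ℝ}
    (hK0 : 0 < K) (hK : ∀ n, kap s.re (‖s‖ ^ 2) n ≤ K) {d : ℕ → ℂ} {m : ℕ}
    (hm : 1 ≤ m) (J : ℕ)
    {e4 : ℝ} (h4 : ∑ j ∈ Finset.range J, ∑ i ∈ Finset.range m,
      ((j : ℝ) + 1) * De b (m + 1 + j) * Wt b s.re m i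
        / (((j : ℝ) + 1 + i) * ((j : ℝ) + 2 + i) * ((j : ℝ) + 3 + i)) ≤ e4)
    (hCw : 0 ≤ Cw) :
    ∑ j ∈ Finset.range J, (Cw * (((j : ℝ) + 1) * De b (m + 1 + j))) * ‖Fn s d m (kf s j)‖ ^ 2
      ≤ K * Cw * ((1 + (b + 3) / m) / (b + 1 - 2 * s.re) + 24 * e4) * Pf s b d m := by
  have hre := Complex.abs_re_le_norm s
  have hre2 := abs_lt.mp (hre.trans_lt hs)
  have hσ : 0 < b + 1 - 2 * s.re := by linarith
  have hP := Pf_nonneg hσ d m
  have h3 := S3_le hb (by linarith only [hre2] : -(1 / 2) ≤ s.re) hσ hm J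
  have hU : ∀ j ∈ Finset.range J, (Cw * (((j : ℝ) + 1) * De b (m + 1 + j)))
      * ‖Fn s d m (kf s j)‖ ^ 2 ≤ K * Cw * Pf s b d m * ∑ i ∈ Finset.range m,
        (((j : ℝ) + 1) * De b (m + 1 + j) * Wt b s.re m i / (((j : ℝ) + 1 + i) * ((j : ℝ) + 2 + i))
        + 24 * (((j : ℝ) + 1) * De b (m + 1 + j) * Wt b s.re m i
          / (((j : ℝ) + 1 + i) * ((j : ℝ) + 2 + i) * ((j : ℝ) + 3 + i)))) := by
    intro j _
    have h1 := Fn_cs hs hb hK d m (kf s j)
    have hD := De_pos hb (m + 1 + j)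
    have h2 : ∑ i ∈ Finset.range m, Wt b s.re m i * ‖kf s j i‖ ^ 2
        ≤ ∑ i ∈ Finset.range m, Wt b s.re m i * (1 / (((j : ℝ) + 1 + i) * ((j : ℝ) + 2 + i))
      + 24 / (((j : ℝ) + 1 + i) * ((j : ℝ) + 2 + i) * ((j : ℝ) + 3 + i))) := by
      apply Finset.sum_le_sum
      intro i _
      have hW := Wt_pos (b := b) (r := s.re) (by linarith only [hre2]) hσ m i
      exact mul_le_mul_of_nonneg_left (kf_sq hs j i) hW.le
    calc (Cw * (((j : ℝ) + 1) * De b (m + 1 + j))) * ‖Fn s d m (kf s j)‖ ^ 2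
        ≤ (Cw * (((j : ℝ) + 1) * De b (m + 1 + j))) * (K * (∑ i ∈ Finset.range m,
          Wt b s.re m i * (1 / (((j : ℝ) + 1 + i) * ((j : ℝ) + 2 + i))
      + 24 / (((j : ℝ) + 1 + i) * ((j : ℝ) + 2 + i) * ((j : ℝ) + 3 + i)))) * Pf s b d m) := by
          have h5 : K * (∑ i ∈ Finset.range m, Wt b s.re m i * ‖kf s j i‖ ^ 2) * Pf s b d m
            ≤ K * (∑ i ∈ Finset.range m,
          Wt b s.re m i * (1 / (((j : ℝ) + 1 + i) * ((j : ℝ) + 2 + i))
      + 24 / (((j : ℝ) + 1 + i) * ((j : ℝ) + 2 + i) * ((j : ℝ) + 3 + i)))) * Pf s b d m := by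
            gcongr
          exact mul_le_mul_of_nonneg_left (h1.trans h5) (by positivity)
      _ = K * Cw * Pf s b d m * ((((j : ℝ) + 1) * De b (m + 1 + j)) * (∑ i ∈ Finset.range m,
          Wt b s.re m i * (1 / (((j : ℝ) + 1 + i) * ((j : ℝ) + 2 + i))
      + 24 / (((j : ℝ) + 1 + i) * ((j : ℝ) + 2 + i) * ((j : ℝ) + 3 + i))))) := by ring
      _ = _ := by
          rw [Finset.mul_sum]
          congr 1
          apply Finset.sum_congr rfl
          intro i _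
          ring
  refine (Finset.sum_le_sum hU).trans ?_
  rw [← Finset.mul_sum]
  have e : ∑ j ∈ Finset.range J, ∑ i ∈ Finset.range m,
        (((j : ℝ) + 1) * De b (m + 1 + j) * Wt b s.re m i / (((j : ℝ) + 1 + i) * ((j : ℝ) + 2 + i))
        + 24 * (((j : ℝ) + 1) * De b (m + 1 + j) * Wt b s.re m i
          / (((j : ℝ) + 1 + i) * ((j : ℝ) + 2 + i) * ((j : ℝ) + 3 + i))))
      = (∑ j ∈ Finset.range J, ∑ i ∈ Finset.range m,
        ((j : ℝ) + 1) * De b (m + 1 + j) * Wt b s.re m i / (((j : ℝ) + 1 + i) * ((j : ℝ) + 2 + i)))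
        + 24 * ∑ j ∈ Finset.range J, ∑ i ∈ Finset.range m,
          ((j : ℝ) + 1) * De b (m + 1 + j) * Wt b s.re m i
          / (((j : ℝ) + 1 + i) * ((j : ℝ) + 2 + i) * ((j : ℝ) + 3 + i)) := by
    simp_rw [Finset.sum_add_distrib, ← Finset.mul_sum]
  rw [e]
  calc K * Cw * Pf s b d m * ((∑ j ∈ Finset.range J, ∑ i ∈ Finset.range m,
        ((j : ℝ) + 1) * De b (m + 1 + j) * Wt b s.re m i / (((j : ℝ) + 1 + i) * ((j : ℝ) + 2 + i)))
        + 24 * ∑ j ∈ Finset.range J, ∑ i ∈ Finset.range m,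
          ((j : ℝ) + 1) * De b (m + 1 + j) * Wt b s.re m i
          / (((j : ℝ) + 1 + i) * ((j : ℝ) + 2 + i) * ((j : ℝ) + 3 + i)))
      ≤ K * Cw * Pf s b d m * ((1 + (b + 3) / m) / (b + 1 - 2 * s.re) + 24 * e4) := by
        apply mul_le_mul_of_nonneg_left _ (by positivity)
        linarith only [h4, h3]
    _ = _ := by ring

/-- the bound of the upper form -/
theorem N_bound {s : ℂ} (hs : ‖s‖ < 1 / 2) {b : ℝ} (hb : 0 < b) {K Cw : ℝ}
    (hK0 : 0 < K) (hK : ∀ n, kap s.re (‖s‖ ^ 2) n ≤ K) (hCw : 0 ≤ Cw) {d : ℕ → ℂ} {m : ℕ}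
    (hm : 1 ≤ m) (hd : ∀ l ≤ m, d l = d (m - l)) (J : ℕ) {L : ℕ} (hL : 1 ≤ L)
    (hw : ∀ j, (pq (b + 1 - 2 * s.re) (m + 1 + j))⁻¹ * ‖pq (-s) (m + 1 + j)‖ ^ 2
      ≤ Cw * De b (m + 1 + j))
    {e4 : ℝ} (h4 : ∑ j ∈ Finset.range J, ∑ i ∈ Finset.range m,
      ((j : ℝ) + 1) * De b (m + 1 + j) * Wt b s.re m i
        / (((j : ℝ) + 1 + i) * ((j : ℝ) + 2 + i) * ((j : ℝ) + 3 + i)) ≤ e4)
    {τ : ℝ} (hτ : 0 < τ) :
    ∑ j ∈ Finset.range J, ((j : ℝ) + 1) * (pq (b + 1 - 2 * s.re) (m + 1 + j))⁻¹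
        * ‖Vd s d m (m + 1 + j)‖ ^ 2
      ≤ K * Cw * (‖1 + s‖ ^ 2 * ((1 + (b + 3) / m) / (b + 1 - 2 * s.re) + 24 * e4)
          + 2 * kp b m L / τ) * Pf s b d m
        + K * Cw * (4 * (1 + (b + 1) / m) / ((b + 1) * b)
          + 2 * (1 + s.re) * (1 / (b + 1) + (1 + (b + 3) / m) / ((b + 2) * (b + 1)))
          + 2 * kp b m L * ‖1 + s‖ ^ 2 * τ) * Xm b K d m := by
  have hm0 : (0 : ℝ) < m := by exact_mod_cast (by omega : 0 < m)
  have hmc : (m : ℂ) ≠ 0 := by exact_mod_cast hm0.ne'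
  have hL0 : (0 : ℝ) < L := by exact_mod_cast (by omega : 0 < L)
  have hre := Complex.abs_re_le_norm s
  have hre2 := abs_lt.mp (hre.trans_lt hs)
  have hσ : 0 < b + 1 - 2 * s.re := by linarith
  have hP := Pf_nonneg hσ d m
  obtain ⟨G, hG⟩ : ∃ G, G = Sk d m 0 := ⟨_, rfl⟩
  obtain ⟨w, hwd⟩ : ∃ w : ℕ → ℝ, w = fun (j : ℕ) => ((j : ℝ) + 1)
    * ((pq (b + 1 - 2 * s.re) (m + 1 + j))⁻¹ * ‖pq (-s) (m + 1 + j)‖ ^ 2) := ⟨_, rfl⟩
  have hw0 : ∀ j, 0 ≤ w j := by
    intro j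
    rw [hwd]
    have := pq_pos hσ (m + 1 + j)
    positivity
  have hw1 : ∀ j, w j ≤ Cw * (((j : ℝ) + 1) * De b (m + 1 + j)) := by
    intro j
    rw [hwd]
    simp only
    calc ((j : ℝ) + 1) * ((pq (b + 1 - 2 * s.re) (m + 1 + j))⁻¹ * ‖pq (-s) (m + 1 + j)‖ ^ 2)
        ≤ ((j : ℝ) + 1) * (Cw * De b (m + 1 + j)) := by
          have := hw j
          gcongr
      _ = _ := by ring
  -- the decomposition
  have hdec : ∑ j ∈ Finset.range J, ((j : ℝ) + 1) * (pq (b + 1 - 2 * s.re) (m + 1 + j))⁻¹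
        * ‖Vd s d m (m + 1 + j)‖ ^ 2
      = ‖G‖ ^ 2 * (∑ j ∈ Finset.range J, w j)
        + 2 * (conj G * (1 + s) * ∑ j ∈ Finset.range J, (w j : ℂ) * Fn s d m (kf s j)).re
        + ‖1 + s‖ ^ 2 * ∑ j ∈ Finset.range J, w j * ‖Fn s d m (kf s j)‖ ^ 2 := by
    rw [Finset.mul_sum, Finset.mul_sum, Complex.re_sum, Finset.mul_sum, Finset.mul_sum,
      ← Finset.sum_add_distrib, ← Finset.sum_add_distrib]
    apply Finset.sum_congr rfl
    intro j _
    rw [V_upper hs hm hd j, norm_mul, mul_pow, ← hG, normsq_add_mul, hwd]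
    simp only
    have e : conj G * (1 + s) * ((((j : ℝ) + 1) * ((pq (b + 1 - 2 * s.re) (m + 1 + j))⁻¹
        * ‖pq (-s) (m + 1 + j)‖ ^ 2) : ℝ) * Fn s d m (kf s j))
        = ((((j : ℝ) + 1) * ((pq (b + 1 - 2 * s.re) (m + 1 + j))⁻¹
        * ‖pq (-s) (m + 1 + j)‖ ^ 2) : ℝ) : ℂ) * (conj G * (1 + s) * Fn s d m (kf s j)) := by ring
    rw [e, Complex.re_ofReal_mul]
    ring
  rw [hdec]
  -- basic data
  have hpq := pq_pos (by linarith only [hre2, hσ] : 0 < b + 3) (m - 1)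
  have hDe := De_pos hb m
  have hDpq := De_mul hb m
  obtain ⟨Q, hQ⟩ : ∃ Q, Q = pq (b + 3) (m - 1) := ⟨_, rfl⟩
  obtain ⟨D, hD⟩ : ∃ D, D = De b m := ⟨_, rfl⟩
  obtain ⟨P, hPd⟩ : ∃ P, P = Pf s b d m := ⟨_, rfl⟩
  obtain ⟨X, hX⟩ : ∃ X, X = Xm b K d m := ⟨_, rfl⟩
  have hX0 : 0 ≤ X := by rw [hX]; unfold Xm; positivity
  have hGX : ‖G‖ ^ 2 = 4 * K * Q * X / (m : ℝ) ^ 2 := by
    rw [hX, hQ, hG]
    unfold Xm
    field_simp
  -- T1
  have hT1 : ‖G‖ ^ 2 * (∑ j ∈ Finset.range J, w j)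
      ≤ K * Cw * (4 * (1 + (b + 1) / m) / ((b + 1) * b)) * X := by
    have h1 : ∑ j ∈ Finset.range J, w j ≤ Cw * (m * (m + (b + 1)) * D / ((b + 1) * b)) := by
      refine (Finset.sum_le_sum (fun j _ => hw1 j)).trans ?_
      rw [← Finset.mul_sum, hD]
      exact mul_le_mul_of_nonneg_left (sumA hb hm J) hCw
    calc ‖G‖ ^ 2 * (∑ j ∈ Finset.range J, w j)
        ≤ ‖G‖ ^ 2 * (Cw * (m * (m + (b + 1)) * D / ((b + 1) * b))) := by gcongr
      _ = K * Cw * (4 * (1 + (b + 1) / m) / ((b + 1) * b)) * X * (D * Q) := by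
          rw [hGX]
          field_simp
      _ = _ := by rw [hD, hQ, hDpq, mul_one]
  -- T3
  have hT3 : ‖1 + s‖ ^ 2 * ∑ j ∈ Finset.range J, w j * ‖Fn s d m (kf s j)‖ ^ 2
      ≤ K * Cw * (‖1 + s‖ ^ 2 * ((1 + (b + 3) / m) / (b + 1 - 2 * s.re) + 24 * e4)) * P := by
    have h1 : ∑ j ∈ Finset.range J, w j * ‖Fn s d m (kf s j)‖ ^ 2
        ≤ ∑ j ∈ Finset.range J, (Cw * (((j : ℝ) + 1) * De b (m + 1 + j)))
          * ‖Fn s d m (kf s j)‖ ^ 2 := by
      apply Finset.sum_le_sum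
      intro j _
      exact mul_le_mul_of_nonneg_right (hw1 j) (sq_nonneg _)
    have h2 := h1.trans (T3_bound (d := d) hs hb hK0 hK hm J h4 hCw)
    rw [hPd]
    calc ‖1 + s‖ ^ 2 * ∑ j ∈ Finset.range J, w j * ‖Fn s d m (kf s j)‖ ^ 2
        ≤ ‖1 + s‖ ^ 2 * (K * Cw * ((1 + (b + 3) / m) / (b + 1 - 2 * s.re) + 24 * e4)
          * Pf s b d m) := by gcongr
      _ = _ := by ring
  -- T2
  obtain ⟨ψ, hψ⟩ : ∃ ψ : ℕ → ℝ, ψ = fun (i : ℕ) => ∑ j ∈ Finset.range J, w j / ((j : ℝ) + 1 + i) :=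
    ⟨_, rfl⟩
  obtain ⟨ps1, hps1⟩ : ∃ x, x = ∑ j ∈ Finset.range J, w j / ((m : ℝ) + j) := ⟨_, rfl⟩
  obtain ⟨ps0, hps0⟩ : ∃ x, x = ∑ j ∈ Finset.range J, w j / ((j : ℝ) + 1) := ⟨_, rfl⟩
  have hψlo : ∀ i < m, ps1 ≤ ψ i := by
    intro i hi
    rw [hps1, hψ]
    apply Finset.sum_le_sum
    intro j _
    have hi2 : (i : ℝ) + 1 ≤ m := by exact_mod_cast hi
    apply div_le_div_of_nonneg_left (hw0 j) (by positivity)
    linarith only [hi2]
  have hψhi : ∀ i < m, ψ i ≤ ps0 := by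
    intro i _
    rw [hps0, hψ]
    apply Finset.sum_le_sum
    intro j _
    have hi0 : (0 : ℝ) ≤ i := Nat.cast_nonneg i
    apply div_le_div_of_nonneg_left (hw0 j) (by positivity)
    linarith only []
  obtain ⟨mid, hmid⟩ : ∃ x, x = (ps0 + ps1) / 2 := ⟨_, rfl⟩
  obtain ⟨dev, hdev⟩ : ∃ x, x = (ps0 - ps1) / 2 := ⟨_, rfl⟩
  obtain ⟨err, herr⟩ : ∃ x, x = ∑ j ∈ Finset.range J, w j * (1 / ((j : ℝ) + 1) ^ 2) := ⟨_, rfl⟩
  -- bounds of mid, dev, err
  have hps0' : ps0 ≤ Cw * (m * D / (b + 1)) := by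
    rw [hps0]
    have h1 : ∀ j ∈ Finset.range J, w j / ((j : ℝ) + 1) ≤ Cw * De b (m + 1 + j) := by
      intro j _
      rw [div_le_iff₀ (by positivity)]
      exact (hw1 j).trans (le_of_eq (by ring))
    refine (Finset.sum_le_sum h1).trans ?_
    rw [← Finset.mul_sum, hD]
    exact mul_le_mul_of_nonneg_left (sumB hb hm J) hCw
  have hps1' : ps1 ≤ Cw * ((1 + (b + 3) / m) * (m * D / ((b + 2) * (b + 1)))) := by
    rw [hps1]
    have h1 : ∀ j ∈ Finset.range J, w j / ((m : ℝ) + j)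
        ≤ Cw * (((j : ℝ) + 1) * De b (m + 1 + j) / ((m : ℝ) + j)) := by
      intro j _
      calc w j / ((m : ℝ) + j) ≤ Cw * (((j : ℝ) + 1) * De b (m + 1 + j)) / ((m : ℝ) + j) := by
            have := hw1 j
            gcongr
        _ = _ := by ring
    refine (Finset.sum_le_sum h1).trans ?_
    rw [← Finset.mul_sum, hD]
    exact mul_le_mul_of_nonneg_left (sumD hb hm J) hCw
  have hdev' : dev ≤ Cw * (m * D) * ((1 + (b + 3) / m) / (2 * (b + 2))) := by
    have h1 : ps0 - ps1 ≤ Cw * (m * ((1 + (b + 3) / m) * (D / (b + 2)))) := by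
      rw [hps0, hps1, ← Finset.sum_sub_distrib]
      have h2 : ∀ j ∈ Finset.range J, w j / ((j : ℝ) + 1) - w j / ((m : ℝ) + j)
          ≤ (Cw * m) * (De b (m + 1 + j) / ((m : ℝ) + j)) := by
        intro j _
        have hj : (0 : ℝ) < (j : ℝ) + 1 := by positivity
        have hmj : (0 : ℝ) < (m : ℝ) + j := by positivity
        have hDj := De_pos hb (m + 1 + j)
        have e : w j / ((j : ℝ) + 1) - w j / ((m : ℝ) + j)
            = w j * (((m : ℝ) - 1) / (((j : ℝ) + 1) * ((m : ℝ) + j))) := by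
          field_simp
          ring
        rw [e]
        have hm1 : (1 : ℝ) ≤ m := by exact_mod_cast hm
        calc w j * (((m : ℝ) - 1) / (((j : ℝ) + 1) * ((m : ℝ) + j)))
            ≤ (Cw * (((j : ℝ) + 1) * De b (m + 1 + j)))
              * (((m : ℝ) - 1) / (((j : ℝ) + 1) * ((m : ℝ) + j))) := by
              apply mul_le_mul_of_nonneg_right (hw1 j)
              apply div_nonneg
              · linarith only [hm1]
              · positivity
          _ = (Cw * ((m : ℝ) - 1)) * (De b (m + 1 + j) / ((m : ℝ) + j)) := by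
              field_simp
          _ ≤ (Cw * m) * (De b (m + 1 + j) / ((m : ℝ) + j)) := by
              apply mul_le_mul_of_nonneg_right _ (by positivity)
              apply mul_le_mul_of_nonneg_left _ hCw
              linarith only []
      refine (Finset.sum_le_sum h2).trans ?_
      rw [← Finset.mul_sum, mul_assoc, hD]
      apply mul_le_mul_of_nonneg_left _ hCw
      exact mul_le_mul_of_nonneg_left (sumC hb hm J) hm0.le
    rw [hdev]
    calc (ps0 - ps1) / 2 ≤ Cw * (m * ((1 + (b + 3) / m) * (D / (b + 2)))) / 2 := by linarith only [h1]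
      _ = _ := by
        field_simp
  have herr' : err ≤ Cw * (m * D) * (1 / L + L / m) := by
    rw [herr]
    have h1 : ∀ j ∈ Finset.range J, w j * (1 / ((j : ℝ) + 1) ^ 2)
        ≤ Cw * (De b (m + 1 + j) / ((j : ℝ) + 1)) := by
      intro j _
      calc w j * (1 / ((j : ℝ) + 1) ^ 2)
          ≤ (Cw * (((j : ℝ) + 1) * De b (m + 1 + j))) * (1 / ((j : ℝ) + 1) ^ 2) := by
            have := hw1 j
            gcongr
        _ = _ := by
            field_simp
    refine (Finset.sum_le_sum h1).trans ?_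
    rw [← Finset.mul_sum, hD]
    calc Cw * ∑ j ∈ Finset.range J, De b (m + 1 + j) / ((j : ℝ) + 1)
        ≤ Cw * ((1 / L + L / m) * (m * De b m)) :=
          mul_le_mul_of_nonneg_left (sumE hb hm J hL) hCw
      _ = _ := by ring
  have hdev0 : 0 ≤ dev := by
    have h1 := hψlo 0 (by omega)
    have h2 := hψhi 0 (by omega)
    rw [hdev]; linarith only [h1, h2]
  have herr0 : 0 ≤ err := by
    rw [herr]
    apply Finset.sum_nonneg
    intro j _
    have := hw0 j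
    positivity
  -- the functional of the sum
  obtain ⟨φ, hφ⟩ : ∃ φ : ℕ → ℂ, φ = fun (i : ℕ) => ∑ j ∈ Finset.range J, (w j : ℂ) * kf s j i :=
    ⟨_, rfl⟩
  have hsumFn : ∑ j ∈ Finset.range J, (w j : ℂ) * Fn s d m (kf s j) = Fn s d m φ := by
    rw [Fn_sum, hφ]
  have hφψ : ∀ i, ‖φ i - (ψ i : ℂ)‖ ≤ err := by
    intro i
    rw [hφ, hψ, herr]
    simp only
    push_cast
    rw [← Finset.sum_sub_distrib]
    refine (norm_sum_le _ _).trans ?_
    apply Finset.sum_le_sum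
    intro j _
    have h1 := kf_real hs j i
    have e : (w j : ℂ) * kf s j i - (w j : ℂ) / ((j : ℂ) + 1 + i)
        = (w j : ℂ) * (kf s j i - ((1 / ((j : ℝ) + 1 + i) : ℝ) : ℂ)) := by
      push_cast
      ring
    rw [e, norm_mul, Complex.norm_real, Real.norm_of_nonneg (hw0 j)]
    exact mul_le_mul_of_nonneg_left h1 (hw0 j)
  have hφmid : ∀ i < m, ‖φ i - (mid : ℂ)‖ ≤ dev + err := by
    intro i hi
    have h1 : ‖(ψ i : ℂ) - (mid : ℂ)‖ ≤ dev := by
      rw [← Complex.ofReal_sub, Complex.norm_real, Real.norm_eq_abs, abs_le]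
      have h2 := hψlo i hi
      have h3 := hψhi i hi
      rw [hmid, hdev]
      constructor <;> linarith only [h2, h3]
    have e : φ i - (mid : ℂ) = ((ψ i : ℂ) - (mid : ℂ)) + (φ i - (ψ i : ℂ)) := by ring
    rw [e]
    exact norm_add_le_of h1 (hφψ i)
  have hsplit : Fn s d m φ = (mid : ℂ) * (m * G / 2) + Fn s d m (fun i => φ i - (mid : ℂ)) := by
    have h1 : Fn s d m φ = Fn s d m (fun i => (mid : ℂ) * 1 + (φ i - (mid : ℂ))) := by
      apply Fn_congr
      intro i _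
      ring
    rw [h1, Fn_add s d m (fun _ => (mid : ℂ) * 1) (fun i => φ i - (mid : ℂ)),
      Fn_smul s d m (mid : ℂ) (fun _ => 1), Fn_one s d m hd, hG]
  have hcs := Fn_cs hs hb hK d m (fun i => φ i - (mid : ℂ))
  have hcs2 : ‖Fn s d m (fun i => φ i - (mid : ℂ))‖ ^ 2 ≤ K * Q * P * (dev + err) ^ 2 := by
    refine hcs.trans ?_
    have h1 : ∑ i ∈ Finset.range m, Wt b s.re m i * ‖φ i - (mid : ℂ)‖ ^ 2
        ≤ Q * (dev + err) ^ 2 := by
      rw [hQ, ← sum_Wt (b := b) (r := s.re) hm, Finset.sum_mul]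
      apply Finset.sum_le_sum
      intro i hi
      rw [Finset.mem_range] at hi
      have hW := Wt_pos (b := b) (r := s.re) (by linarith only [hre2]) hσ m i
      apply mul_le_mul_of_nonneg_left _ hW.le
      exact pow_le_pow_left₀ (norm_nonneg _) (hφmid i hi) 2
    rw [← hPd] at hP ⊢
    calc K * (∑ i ∈ Finset.range m, Wt b s.re m i * ‖φ i - (mid : ℂ)‖ ^ 2) * P
        ≤ K * (Q * (dev + err) ^ 2) * P := by gcongr
      _ = _ := by ring
  have hde : dev + err ≤ Cw * (m * D) * kp b m L := by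
    unfold kp
    rw [mul_add]
    exact add_le_add hdev' herr'
  have hkp0 : 0 ≤ kp b m L := by unfold kp; positivity
  have hmidb : mid ≤ Cw * (m * D) / 2 * (1 / (b + 1) + (1 + (b + 3) / m) / ((b + 2) * (b + 1))) := by
    rw [hmid]
    have e : Cw * (m * D) / 2 * (1 / (b + 1) + (1 + (b + 3) / m) / ((b + 2) * (b + 1)))
        = (Cw * (m * D / (b + 1)) + Cw * ((1 + (b + 3) / m) * (m * D / ((b + 2) * (b + 1))))) / 2 := by
      field_simp
    rw [e]
    linarith only [hps0', hps1']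
  have hQ0 : 0 < Q := by rw [hQ]; exact hpq
  have hD0 : 0 < D := by rw [hD]; exact hDe
  have hDQ : D * Q = 1 := by rw [hD, hQ]; exact hDpq
  have hP0 : 0 ≤ P := by rw [hPd]; exact hP
  -- the cross term
  have hT2 : 2 * (conj G * (1 + s) * ∑ j ∈ Finset.range J, (w j : ℂ) * Fn s d m (kf s j)).re
      ≤ K * Cw * (2 * (1 + s.re) * (1 / (b + 1) + (1 + (b + 3) / m) / ((b + 2) * (b + 1)))) * X
        + (K * Cw * (2 * kp b m L / τ) * P + K * Cw * (2 * kp b m L * ‖1 + s‖ ^ 2 * τ) * X) := by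
    rw [hsumFn, hsplit, mul_add, Complex.add_re, mul_add]
    apply add_le_add
    · have e : conj G * (1 + s) * ((mid : ℂ) * (m * G / 2))
          = ((mid * m / 2 * ‖G‖ ^ 2 : ℝ) : ℂ) * (1 + s) := by
        have h1 : conj G * G = ((‖G‖ ^ 2 : ℝ) : ℂ) := by
          rw [← Complex.normSq_eq_norm_sq, mul_comm, Complex.mul_conj]
        have h2 : conj G * (1 + s) * ((mid : ℂ) * (m * G / 2))
            = (mid : ℂ) * m / 2 * (conj G * G) * (1 + s) := by ring
        rw [h2, h1]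
        push_cast
        ring
      rw [e, Complex.re_ofReal_mul]
      simp only [Complex.add_re, Complex.one_re]
      have h1r : 0 ≤ 1 + s.re := by linarith only [hre2]
      calc 2 * (mid * m / 2 * ‖G‖ ^ 2 * (1 + s.re))
          = mid * (m * ‖G‖ ^ 2 * (1 + s.re)) := by ring
        _ ≤ (Cw * (m * D) / 2 * (1 / (b + 1) + (1 + (b + 3) / m) / ((b + 2) * (b + 1))))
            * (m * ‖G‖ ^ 2 * (1 + s.re)) := by gcongr
        _ = K * Cw * (2 * (1 + s.re) * (1 / (b + 1) + (1 + (b + 3) / m) / ((b + 2) * (b + 1))))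
            * X * (D * Q) := by
            rw [hGX]
            field_simp
            ring
        _ = _ := by rw [hDQ, mul_one]
    · obtain ⟨F, hF⟩ : ∃ F, F = Fn s d m (fun i => φ i - (mid : ℂ)) := ⟨_, rfl⟩
      rw [← hF] at hcs2 ⊢
      have h1 : (conj G * (1 + s) * F).re ≤ ‖G‖ * ‖1 + s‖ * ‖F‖ := by
        refine (Complex.re_le_norm _).trans (le_of_eq ?_)
        rw [norm_mul, norm_mul, RCLike.norm_conj]
      -- Young's inequality with the weight m / (2 K Q ...)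
      have hF2 : ‖F‖ ^ 2 ≤ K * Q * P * (Cw * (m * D) * kp b m L) ^ 2 := by
        refine hcs2.trans ?_
        have : (dev + err) ^ 2 ≤ (Cw * (m * D) * kp b m L) ^ 2 :=
          pow_le_pow_left₀ (by linarith only [hdev0, herr0]) hde 2
        gcongr
      obtain ⟨E, hE⟩ : ∃ E, E = Cw * (m * D) * kp b m L := ⟨_, rfl⟩
      rw [← hE] at hF2
      have hE0 : 0 ≤ E := by rw [hE]; positivity
      have goal_eq : K * Cw * (2 * kp b m L / τ) * P + K * Cw * (2 * kp b m L * ‖1 + s‖ ^ 2 * τ) * X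
          = E * (2 * K * Q / m) * (P / τ + ‖1 + s‖ ^ 2 * τ * X) := by
        rw [hE]
        have h2 : Cw * (m * D) * kp b m L * (2 * K * Q / m) = 2 * K * Cw * kp b m L * (D * Q) := by
          field_simp
        rw [h2, hDQ]
        ring
      rw [goal_eq]
      have hprod : (‖G‖ * ‖1 + s‖ * ‖F‖) ^ 2
          ≤ (E * (K * Q / m) * (P / τ + ‖1 + s‖ ^ 2 * τ * X)) ^ 2 := by
        have h3 : (‖G‖ * ‖1 + s‖ * ‖F‖) ^ 2 = ‖G‖ ^ 2 * ‖1 + s‖ ^ 2 * ‖F‖ ^ 2 := by ring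
        rw [h3, hGX]
        have h4 : 4 * K * Q * X / (m : ℝ) ^ 2 * ‖1 + s‖ ^ 2 * ‖F‖ ^ 2
            ≤ 4 * K * Q * X / (m : ℝ) ^ 2 * ‖1 + s‖ ^ 2 * (K * Q * P * E ^ 2) := by
          apply mul_le_mul_of_nonneg_left hF2
          positivity
        refine h4.trans ?_
        have h5 : 4 * K * Q * X / (m : ℝ) ^ 2 * ‖1 + s‖ ^ 2 * (K * Q * P * E ^ 2)
            = (E * (K * Q / m)) ^ 2 * (4 * (P / τ) * (‖1 + s‖ ^ 2 * τ * X)) := by
          field_simp
        rw [h5, mul_pow (E * (K * Q / m)) (P / τ + ‖1 + s‖ ^ 2 * τ * X) 2]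
        apply mul_le_mul_of_nonneg_left _ (sq_nonneg _)
        linarith only [sq_nonneg (P / τ - ‖1 + s‖ ^ 2 * τ * X)]
      have hnn : 0 ≤ E * (K * Q / m) * (P / τ + ‖1 + s‖ ^ 2 * τ * X) := by positivity
      have h6 := (pow_le_pow_iff_left₀ (by positivity) hnn two_ne_zero).mp hprod
      calc 2 * (conj G * (1 + s) * F).re ≤ 2 * (‖G‖ * ‖1 + s‖ * ‖F‖) := by linarith only [h1]
        _ ≤ 2 * (E * (K * Q / m) * (P / τ + ‖1 + s‖ ^ 2 * τ * X)) := by linarith only [h6]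
        _ = _ := by ring
  rw [← hPd, ← hX]
  have := add_le_add (add_le_add hT1 hT2) hT3
  refine this.trans (le_of_eq ?_)
  ring

end Pool.Agent.M16.Helper39.HR
end
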