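import Mathlib
import Pool.Agent.Helper60.M16.G03
import Pool.Agent.Helper60.M16.G04

/- Helper94.T.Helper37.PFS.Fin -/
section
/-!
Project HR2 (MP_16b0ee): a finite dimensional inequality for the difference of a diagonal form and
a form given by a kernel that is a polynomial plus a small remainder.
-/

set_option autoImplicit false

open Filter Topology Finset
open scoped ComplexConjugate

namespace Pool.Agent.M16.Helper37.PFS

theorem two_mul_le {x y c : ℝ} (hc : 0 < c) : 2 * (x * y) ≤ c * x ^ 2 + y ^ 2 / c := by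
  have h : 0 ≤ (c * x - y) ^ 2 / c := div_nonneg (sq_nonneg _) hc.le
  have e : (c * x - y) ^ 2 / c = c * x ^ 2 + y ^ 2 / c - 2 * (x * y) := by
    field_simp
    ring
  linarith only [h, e]

theorem nsq_add (z w : ℂ) : ‖z + w‖ ^ 2 = ‖z‖ ^ 2 + 2 * (conj z * w).re + ‖w‖ ^ 2 := by
  rw [← Complex.normSq_eq_norm_sq, ← Complex.normSq_eq_norm_sq, ← Complex.normSq_eq_norm_sq,
    Complex.normSq_apply, Complex.normSq_apply, Complex.normSq_apply]
  simp only [Complex.add_re, Complex.add_im, Complex.mul_re, Complex.conj_re, Complex.conj_im]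
  ring

theorem re_mul_le (z w : ℂ) : (z * w).re ≤ ‖z‖ * ‖w‖ := by
  rw [← norm_mul]
  exact Complex.re_le_norm _

theorem sq3 (F R0 R1 : ℂ) {κ : ℝ} (hκ : 0 < κ) :
    ‖F + (R0 + R1)‖ ^ 2 ≤ ‖F‖ ^ 2 + 2 * (conj F * R0).re + 2 * (conj F * R1).re
      + ((1 + 1 / κ) * ‖R0‖ ^ 2 + (1 + κ) * ‖R1‖ ^ 2) := by
  rw [nsq_add, nsq_add, mul_add, Complex.add_re]
  have h1 : (conj R0 * R1).re ≤ ‖R1‖ * ‖R0‖ := by
    have := re_mul_le (conj R0) R1
    rw [RCLike.norm_conj] at this
    linarith only [this]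
  have h2 := two_mul_le (x := ‖R1‖) (y := ‖R0‖) hκ
  have e : (1 + 1 / κ) * ‖R0‖ ^ 2 = ‖R0‖ ^ 2 + ‖R0‖ ^ 2 / κ := by
    field_simp
  linarith only [h1, h2, e]

/-- the norm square of a sum -/
theorem nsq_sum (L : Finset ℕ) (x : ℕ → ℂ) :
    ‖∑ l ∈ L, x l‖ ^ 2 = ∑ l ∈ L, ∑ k ∈ L, (x l * conj (x k)).re := by
  have h : ((‖∑ l ∈ L, x l‖ ^ 2 : ℝ) : ℂ) = ∑ l ∈ L, ∑ k ∈ L, x l * conj (x k) := by
    rw [← Complex.normSq_eq_norm_sq, ← Complex.mul_conj, map_sum, Finset.sum_mul_sum]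
  have h2 := congrArg Complex.re h
  rw [Complex.ofReal_re] at h2
  rw [h2, Complex.re_sum]
  apply Finset.sum_congr rfl
  intro l _
  rw [Complex.re_sum]

theorem cs1 (I : Finset ℕ) (a : ℕ → ℝ) (ha : ∀ i ∈ I, 0 < a i) (u r : ℕ → ℂ) :
    ‖∑ i ∈ I, u i * r i‖ ^ 2 ≤ (∑ i ∈ I, ‖u i‖ ^ 2 / a i) * ∑ i ∈ I, a i * ‖r i‖ ^ 2 := by
  have h1 : ‖∑ i ∈ I, u i * r i‖ ≤ ∑ i ∈ I, ‖u i‖ * ‖r i‖ := by
    refine (norm_sum_le _ _).trans (le_of_eq ?_)
    apply Finset.sum_congr rfl
    intro i _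
    rw [norm_mul]
  have h2 := Finset.sum_sq_le_sum_mul_sum_of_sq_le_mul I
    (r := fun i => ‖u i‖ * ‖r i‖) (f := fun i => ‖u i‖ ^ 2 / a i)
    (g := fun i => a i * ‖r i‖ ^ 2)
    (fun i hi => by have := ha i hi; positivity) (fun i hi => by have := ha i hi; positivity)
    (fun i hi => by
      have := (ha i hi).ne'
      apply le_of_eq
      field_simp)
  exact (pow_le_pow_left₀ (norm_nonneg _) h1 2).trans h2

theorem cs2 (I : Finset ℕ) (a : ℕ → ℝ) (ha : ∀ i ∈ I, 0 < a i) (w : ℕ → ℝ) (hw : ∀ j, 0 ≤ w j)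
    (u : ℕ → ℂ) (r : ℕ → ℕ → ℂ) (J : ℕ) :
    ∑ j ∈ range J, w j * ‖∑ i ∈ I, u i * r i j‖ ^ 2
      ≤ (∑ i ∈ I, ‖u i‖ ^ 2 / a i) * ∑ j ∈ range J, ∑ i ∈ I, w j * a i * ‖r i j‖ ^ 2 := by
  rw [Finset.mul_sum]
  apply Finset.sum_le_sum
  intro j _
  have h := mul_le_mul_of_nonneg_left (cs1 I a ha u (fun i => r i j)) (hw j)
  refine h.trans (le_of_eq ?_)
  have e : ∑ i ∈ I, w j * a i * ‖r i j‖ ^ 2 = w j * ∑ i ∈ I, a i * ‖r i j‖ ^ 2 := by
    rw [Finset.mul_sum]
    apply Finset.sum_congr rfl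
    intro i _
    ring
  rw [e]
  ring

/-- the quadratic part -/
theorem quad (L : Finset ℕ) (w Y : ℕ → ℝ) (f : ℕ → ℂ) (J : ℕ) :
    ∑ j ∈ range J, w j * ‖∑ l ∈ L, f l * (Y j : ℂ) ^ l‖ ^ 2
      = ∑ l ∈ L, ∑ k ∈ L, (f l * conj (f k)).re * ∑ j ∈ range J, w j * Y j ^ (l + k) := by
  have h : ∀ j, w j * ‖∑ l ∈ L, f l * (Y j : ℂ) ^ l‖ ^ 2
      = ∑ l ∈ L, ∑ k ∈ L, (f l * conj (f k)).re * (w j * Y j ^ (l + k)) := by
    intro j
    rw [nsq_sum, Finset.mul_sum]
    apply Finset.sum_congr rfl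
    intro l _
    rw [Finset.mul_sum]
    apply Finset.sum_congr rfl
    intro k _
    have e : f l * (Y j : ℂ) ^ l * conj (f k * (Y j : ℂ) ^ k)
        = (f l * conj (f k)) * ((Y j ^ (l + k) : ℝ) : ℂ) := by
      rw [map_mul, map_pow, Complex.conj_ofReal, pow_add]
      push_cast
      ring
    rw [e, Complex.re_mul_ofReal]
    ring
  rw [Finset.sum_congr rfl (fun j _ => h j), Finset.sum_comm]
  apply Finset.sum_congr rfl
  intro l _
  rw [Finset.sum_comm]
  apply Finset.sum_congr rfl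
  intro k _
  rw [Finset.mul_sum]

/-- the cross part -/
theorem cross (L I : Finset ℕ) (w Y : ℕ → ℝ) (f u : ℕ → ℂ) (r : ℕ → ℕ → ℂ) (J : ℕ) :
    ∑ j ∈ range J, w j * (2 * (conj (∑ l ∈ L, f l * (Y j : ℂ) ^ l)
        * ∑ i ∈ I, u i * r i j).re)
      = 2 * (∑ l ∈ L, conj (f l) * ∑ i ∈ I, u i
        * ∑ j ∈ range J, (w j : ℂ) * (Y j : ℂ) ^ l * r i j).re := by
  have h1 : ∑ l ∈ L, conj (f l) * ∑ i ∈ I, u i * ∑ j ∈ range J, (w j : ℂ) * (Y j : ℂ) ^ l * r i j
      = ∑ j ∈ range J, (w j : ℂ) * (conj (∑ l ∈ L, f l * (Y j : ℂ) ^ l)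
        * ∑ i ∈ I, u i * r i j) := by
    have e : ∀ l ∈ L, conj (f l) * ∑ i ∈ I, u i
        * ∑ j ∈ range J, (w j : ℂ) * (Y j : ℂ) ^ l * r i j
        = ∑ j ∈ range J, (w j : ℂ) * (conj (f l * (Y j : ℂ) ^ l) * ∑ i ∈ I, u i * r i j) := by
      intro l _
      have e2 : ∑ i ∈ I, u i * ∑ j ∈ range J, (w j : ℂ) * (Y j : ℂ) ^ l * r i j
          = ∑ j ∈ range J, ∑ i ∈ I, u i * ((w j : ℂ) * (Y j : ℂ) ^ l * r i j) := by
        rw [Finset.sum_comm]
        apply Finset.sum_congr rfl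
        intro i _
        rw [Finset.mul_sum]
      rw [e2, Finset.mul_sum]
      apply Finset.sum_congr rfl
      intro j _
      rw [Finset.mul_sum, Finset.mul_sum, Finset.mul_sum]
      apply Finset.sum_congr rfl
      intro i _
      rw [map_mul, map_pow, Complex.conj_ofReal]
      ring
    rw [Finset.sum_congr rfl e, Finset.sum_comm]
    apply Finset.sum_congr rfl
    intro j _
    rw [← Finset.mul_sum, ← Finset.sum_mul, map_sum]
  rw [h1, Complex.re_sum, Finset.mul_sum]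
  apply Finset.sum_congr rfl
  intro j _
  rw [Complex.re_ofReal_mul]
  ring

end Pool.Agent.M16.Helper37.PFS
end

/- Helper94.T.Helper22.Half.Ratio -/
section
/-!
Comparison of `pq c (n-1) / (n² pq (b+c) n)` with `De b n`, and the pointwise bound of the kernel.
-/

set_option autoImplicit false

namespace Pool.Agent.M16.Helper22.Half

variable {b r : ℝ}

/-- the exponent constant -/
noncomputable def qe (b r : ℝ) : ℝ := (101 / 20 + b - 2 * r) / 2

end Pool.Agent.M16.Helper22.Half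
end

/- Helper94.T.Helper39.HR.Pref -/
section
/-!
Sharper versions of the constants of `Half/Norms` and `Half/Ratio`: one more factor is kept exactly.
-/

set_option autoImplicit false

namespace Pool.Agent.M16.Helper39.HR

open Pool.Agent.M16.Helper22.Half

/-- the supremum of the products `kap` -/
noncomputable def Ks (r ρ : ℝ) : ℝ := ⨆ n, kap r ρ n

/-- the constant of the product bound -/
noncomputable def Bq (r ρ : ℝ) : ℝ :=
  (1 + ρ / (2 * (2 + 2 * r))) * (1 + ρ / (2 * (2 - 2 * r))) * (1 + ρ / (3 * (3 + 2 * r)))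
    * (1 + ρ / (3 * (3 - 2 * r))) * Real.exp (7 * ρ / 12)

theorem kap_prod2 {r ρ : ℝ} (hr : 4 * r ^ 2 ≤ 1) (hρ : 0 ≤ ρ) (n : ℕ) :
    kap r ρ (n + 2) * kap (-r) ρ (n + 2)
      ≤ (1 + ρ / (2 * (2 + 2 * r))) * (1 + ρ / (2 * (2 - 2 * r))) * (1 + ρ / (3 * (3 + 2 * r)))
        * (1 + ρ / (3 * (3 - 2 * r)))
        * Real.exp (ρ * (7 / 12 - 1 / ((n : ℝ) + 3) - 1 / ((n : ℝ) + 4))) := by
  have hr1 : -1 ≤ 2 * r ∧ 2 * r ≤ 1 := by
    constructor <;> nlinarith only [hr]
  induction n with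
  | zero =>
    rw [kap_succ, kap_succ, kap_succ, kap_succ, kap_zero, kap_zero]
    have e : (7 / 12 - 1 / (((0 : ℕ) : ℝ) + 3) - 1 / (((0 : ℕ) : ℝ) + 4)) = 0 := by norm_num
    rw [e, mul_zero, Real.exp_zero]
    push_cast
    apply le_of_eq
    have e2 : (1 : ℝ) + 2 = 3 := by norm_num
    have e3 : (2 : ℝ) + 2 * (-r) = 2 - 2 * r := by ring
    have e4 : (3 : ℝ) + 2 * (-r) = 3 - 2 * r := by ring
    simp only [zero_add, e2, e3, e4]
    ring
  | succ n ih =>
    have e0 : n + 1 + 2 = (n + 2) + 1 := by ring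
    rw [e0, kap_succ r ρ (n + 2), kap_succ (-r) ρ (n + 2)]
    have hn0 : (0 : ℝ) ≤ n := Nat.cast_nonneg n
    have h1 := kap_step hr hρ (k := (n : ℝ) + 4) (by linarith only [])
    have g1 := kap_ge_one (by linarith only [hr1] : -1 < r) hρ (n + 2)
    have g2 := kap_ge_one (by linarith only [hr1] : -1 < -r) hρ (n + 2)
    push_cast
    have e3 : (n : ℝ) + 2 + 2 = n + 4 := by ring
    have e4 : (n : ℝ) + 1 + 3 = n + 4 := by ring
    have e5 : (n : ℝ) + 1 + 4 = n + 5 := by ring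
    rw [e3, e4, e5]
    have f0 : 0 ≤ (1 + ρ / (((n : ℝ) + 4) * (n + 4 + 2 * r)))
        * (1 + ρ / (((n : ℝ) + 4) * (n + 4 + 2 * (-r)))) := by
      have a1 : 0 ≤ (n : ℝ) + 4 + 2 * r := by linarith only [hr1]
      have a2 : 0 ≤ (n : ℝ) + 4 + 2 * (-r) := by linarith only [hr1]
      positivity
    have b1 : 0 ≤ 2 + 2 * r := by linarith only [hr1]
    have b2 : 0 ≤ 2 - 2 * r := by linarith only [hr1]
    have b3 : 0 ≤ 3 + 2 * r := by linarith only [b1]
    have b4 : 0 ≤ 3 - 2 * r := by linarith only [b2]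
    calc (kap r ρ (n + 2) * (1 + ρ / (((n : ℝ) + 4) * (n + 4 + 2 * r))))
          * (kap (-r) ρ (n + 2) * (1 + ρ / (((n : ℝ) + 4) * (n + 4 + 2 * (-r)))))
        = (kap r ρ (n + 2) * kap (-r) ρ (n + 2)) * ((1 + ρ / (((n : ℝ) + 4) * (n + 4 + 2 * r)))
          * (1 + ρ / (((n : ℝ) + 4) * (n + 4 + 2 * (-r))))) := by ring
      _ ≤ ((1 + ρ / (2 * (2 + 2 * r))) * (1 + ρ / (2 * (2 - 2 * r))) * (1 + ρ / (3 * (3 + 2 * r)))
        * (1 + ρ / (3 * (3 - 2 * r)))
        * Real.exp (ρ * (7 / 12 - 1 / ((n : ℝ) + 3) - 1 / ((n : ℝ) + 4))))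
          * Real.exp (ρ * (1 / ((n : ℝ) + 4 - 1) - 1 / ((n : ℝ) + 4 + 1))) := by
          apply mul_le_mul ih h1 f0
          positivity
      _ = _ := by
          rw [mul_assoc _ (Real.exp _) (Real.exp _), ← Real.exp_add]
          congr 2
          have q : (n : ℝ) + 4 - 1 = n + 3 := by ring
          have q' : (n : ℝ) + 4 + 1 = n + 5 := by ring
          rw [q, q']
          ring

theorem kap_prod3 {r ρ : ℝ} (hr : 4 * r ^ 2 ≤ 1) (hρ : 0 ≤ ρ) (a b : ℕ) :
    kap r ρ a * kap (-r) ρ b ≤ Bq r ρ := by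
  have hr1 : -1 ≤ 2 * r ∧ 2 * r ≤ 1 := by
    constructor <;> nlinarith only [hr]
  have m1 := kap_mono (by linarith : -1 < r) hρ (a := a) (b := a + b + 2) (by omega)
  have m2 := kap_mono (by linarith only [hr1] : -1 < -r) hρ (a := b) (b := a + b + 2) (by omega)
  have g2 := kap_ge_one (by linarith only [hr1] : -1 < -r) hρ b
  have g1 := kap_ge_one (by linarith : -1 < r) hρ (a + b + 2)
  have h := kap_prod2 hr hρ (a + b)
  calc kap r ρ a * kap (-r) ρ b ≤ kap r ρ (a + b + 2) * kap (-r) ρ (a + b + 2) := by gcongr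
    _ ≤ _ := h
    _ ≤ Bq r ρ := by
      unfold Bq
      have b1 : 0 ≤ 2 + 2 * r := by linarith only [hr1]
      have b2 : 0 ≤ 2 - 2 * r := by linarith only [hr1]
      have b3 : 0 ≤ 3 + 2 * r := by linarith only [b1]
      have b4 : 0 ≤ 3 - 2 * r := by linarith only [b2]
      apply mul_le_mul_of_nonneg_left _ (by positivity)
      apply Real.exp_le_exp.mpr
      have h1 : 0 ≤ 1 / (((a + b : ℕ) : ℝ) + 3) := by positivity
      have h2 : 0 ≤ 1 / (((a + b : ℕ) : ℝ) + 4) := by positivity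
      nlinarith only [hρ, h1, h2]

theorem kap_le_Bq {r ρ : ℝ} (hr : 4 * r ^ 2 ≤ 1) (hρ : 0 ≤ ρ) (n : ℕ) : kap r ρ n ≤ Bq r ρ := by
  have h := kap_prod3 hr hρ n 0
  rwa [kap_zero, mul_one] at h

theorem bdd_kap {r ρ : ℝ} (hr : 4 * r ^ 2 ≤ 1) (hρ : 0 ≤ ρ) :
    BddAbove (Set.range fun n => kap r ρ n) := by
  refine ⟨Bq r ρ, ?_⟩
  rintro _ ⟨n, rfl⟩
  exact kap_le_Bq hr hρ n

theorem kap_le_Ks {r ρ : ℝ} (hr : 4 * r ^ 2 ≤ 1) (hρ : 0 ≤ ρ) (n : ℕ) : kap r ρ n ≤ Ks r ρ :=
  le_ciSup (bdd_kap hr hρ) n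

theorem one_le_Ks {r ρ : ℝ} (hr : 4 * r ^ 2 ≤ 1) (hρ : 0 ≤ ρ) : 1 ≤ Ks r ρ := by
  have h := kap_le_Ks hr hρ 0
  rwa [kap_zero] at h

theorem Ks_mul_Ks {r ρ : ℝ} (hr : 4 * r ^ 2 ≤ 1) (hρ : 0 ≤ ρ) : Ks r ρ * Ks (-r) ρ ≤ Bq r ρ := by
  have hr1 : -1 ≤ 2 * r ∧ 2 * r ≤ 1 := by
    constructor <;> nlinarith only [hr]
  have hr' : 4 * (-r) ^ 2 ≤ 1 := by nlinarith only [hr1]
  have k2 : 1 ≤ Ks (-r) ρ := one_le_Ks hr' hρ
  -- for every a: kap r a * Ks (-r) ≤ Bq
  have h1 : ∀ a, kap r ρ a * Ks (-r) ρ ≤ Bq r ρ := by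
    intro a
    have ga := kap_ge_one (by linarith only [hr1] : -1 < r) hρ a
    have h2 : Ks (-r) ρ ≤ Bq r ρ / kap r ρ a := by
      apply ciSup_le
      intro b
      rw [le_div_iff₀ (by linarith)]
      have := kap_prod3 hr hρ a b
      linarith
    rw [le_div_iff₀ (by linarith)] at h2
    linarith
  have h3 : Ks r ρ ≤ Bq r ρ / Ks (-r) ρ := by
    apply ciSup_le
    intro a
    rw [le_div_iff₀ (by linarith)]
    exact h1 a
  rw [le_div_iff₀ (by linarith only [k2])] at h3
  exact h3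

/-- the constant of the ratio bound -/
noncomputable def Rb (b r : ℝ) : ℝ :=
  (1 + b / 3) * (1 - 2 * b * (1 + r) / (4 * (b + 2 - 2 * r)))
    * (1 - 2 * b * (1 + r) / (5 * (b + 3 - 2 * r))) * Real.exp (-(2 * b * (1 + r) / (qe b r + 2)))

/-- the constant of the weights -/
noncomputable def Cw (s : ℂ) (b : ℝ) (m : ℕ) : ℝ :=
  ‖s‖ ^ 2 * (1 - 2 * s.re + ‖s‖ ^ 2) / (2 * (b + 1 - 2 * s.re)) * Ks (-s.re) (‖s‖ ^ 2)
    * Rb b s.re * ((1 + 2 / m) * Real.exp (3 / (2 * m)))

theorem pq_three (z : ℝ) : pq z 3 = z * (z + 1) * (z + 2) / 6 := by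
  have h : pq z 3 = pq z (0 + 1 + 1 + 1) := rfl
  rw [h, pq_succ, pq_succ, pq_succ, pq_zero]
  push_cast
  ring

theorem pq_four (z : ℝ) : pq z 4 = z * (z + 1) * (z + 2) * (z + 3) / 24 := by
  have h : pq z 4 = pq z (3 + 1) := rfl
  rw [h, pq_succ, pq_three]
  push_cast
  ring

/-- one step of the comparison -/
theorem step_le {b r : ℝ} (hb : 0 < b) (hb1 : b ≤ 1 / 2) (hr : -(1 / 2) ≤ r) (hr1 : r < 1 / 2)
    {x : ℝ} (hx : 0 ≤ x) :
    (1 - 2 * r + (x + 1)) * (b + 3 + (x + 1))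
      ≤ (x + 4) * (b + 1 - 2 * r + x + 1) * Real.exp (-(2 * b * (1 + r)
        * (1 / (x + qe b r) - 1 / (x + 1 + qe b r)))) := by
  have hσ : 0 < b + 1 - 2 * r := by linarith only [hb, hr1]
  have hq : 1 < qe b r := by unfold qe; linarith only [hσ]
  have hA : 0 < (x + 4) * (b + 1 - 2 * r + x + 1) := by positivity
  have h1 : 1 - 2 * b * (1 + r) / ((x + 4) * (b + 1 - 2 * r + x + 1))
      ≤ Real.exp (-(2 * b * (1 + r) * (1 / (x + qe b r) - 1 / (x + 1 + qe b r)))) := by
    have h2 := Real.add_one_le_exp (-(2 * b * (1 + r) * (1 / (x + qe b r) - 1 / (x + 1 + qe b r))))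
    refine le_trans ?_ h2
    have h3 : 1 / (x + qe b r) - 1 / (x + 1 + qe b r)
        = 1 / ((x + qe b r) * (x + 1 + qe b r)) := by
      have q1 : x + qe b r ≠ 0 := by positivity
      have q2 : x + 1 + qe b r ≠ 0 := by positivity
      field_simp
      ring
    have h4 : 1 / ((x + qe b r) * (x + 1 + qe b r))
        ≤ 1 / ((x + 4) * (b + 1 - 2 * r + x + 1)) := by
      apply one_div_le_one_div_of_le hA
      unfold qe
      nlinarith only [hb1, hr, hx]
    have h5 : 0 ≤ 2 * b * (1 + r) := by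
      apply mul_nonneg <;> linarith only [hb, hr]
    rw [h3]
    have h6 : 2 * b * (1 + r) / ((x + 4) * (b + 1 - 2 * r + x + 1))
        = 2 * b * (1 + r) * (1 / ((x + 4) * (b + 1 - 2 * r + x + 1))) := by ring
    rw [h6]
    have := mul_le_mul_of_nonneg_left h4 h5
    linarith only [this]
  calc (1 - 2 * r + (x + 1)) * (b + 3 + (x + 1))
      = (x + 4) * (b + 1 - 2 * r + x + 1)
        * (1 - 2 * b * (1 + r) / ((x + 4) * (b + 1 - 2 * r + x + 1))) := by
        field_simp
        ring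
    _ ≤ _ := by gcongr

theorem F1_pos {b r : ℝ} (hb : 0 < b) (hb1 : b ≤ 1 / 2) (hr : -(1 / 2) ≤ r) (hr1 : r < 1 / 2) :
    0 < 1 - 2 * b * (1 + r) / (4 * (b + 2 - 2 * r)) := by
  rw [sub_pos, div_lt_one (by linarith only [hb, hr1])]
  nlinarith only [hb, hr1]

theorem F2_pos {b r : ℝ} (hb : 0 < b) (hb1 : b ≤ 1 / 2) (hr : -(1 / 2) ≤ r) (hr1 : r < 1 / 2) :
    0 < 1 - 2 * b * (1 + r) / (5 * (b + 3 - 2 * r)) := by
  rw [sub_pos, div_lt_one (by linarith only [hb, hr1])]
  nlinarith only [hb, hr1]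

theorem ratio_aux2 {b r : ℝ} (hb : 0 < b) (hb1 : b ≤ 1 / 2) (hr : -(1 / 2) ≤ r)
    (hr1 : r < 1 / 2) (n : ℕ) :
    pq (1 - 2 * r) (n + 3) * pq (b + 3) (n + 3)
      ≤ (1 - 2 * r) * ((n : ℝ) + 5) / (2 * (b + 1 - 2 * r) * (b + 1 - 2 * r + n + 3))
        * ((1 + b / 3) * (1 - 2 * b * (1 + r) / (4 * (b + 2 - 2 * r)))
          * (1 - 2 * b * (1 + r) / (5 * (b + 3 - 2 * r))))
        * Real.exp (-(2 * b * (1 + r) / (qe b r + 2)) + 2 * b * (1 + r) / (n + 2 + qe b r))
        * (((n : ℝ) + 4) ^ 2 * pq (b + 1 - 2 * r) (n + 4)) := by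
  have hc : 0 < 1 - 2 * r := by linarith only [hr1]
  have hσ : 0 < b + 1 - 2 * r := by linarith only [hb, hc]
  have hq : 1 < qe b r := by unfold qe; linarith
  have f1 := F1_pos hb hb1 hr hr1
  have f2 := F2_pos hb hb1 hr hr1
  induction n with
  | zero =>
    have e : -(2 * b * (1 + r) / (qe b r + 2))
        + 2 * b * (1 + r) / (((0 : ℕ) : ℝ) + 2 + qe b r) = 0 := by
      have : ((0 : ℕ) : ℝ) + 2 + qe b r = qe b r + 2 := by push_cast; ring
      rw [this]
      ring
    rw [e, Real.exp_zero, zero_add, zero_add, pq_three, pq_three, pq_four]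
    push_cast
    apply le_of_eq
    have q1 : b + 1 - 2 * r ≠ 0 := hσ.ne'
    have q2 : b + 2 - 2 * r ≠ 0 := (by linarith only [hσ] : 0 < b + 2 - 2 * r).ne'
    have q3 : b + 3 - 2 * r ≠ 0 := (by linarith only [hσ] : 0 < b + 3 - 2 * r).ne'
    have q4 : b + 1 - 2 * r + 0 + 3 ≠ 0 := (by linarith only [hσ] : 0 < b + 1 - 2 * r + 0 + 3).ne'
    have e5 : b + 1 - 2 * r + 1 = b + 2 - 2 * r := by ring
    have e6 : b + 1 - 2 * r + 2 = b + 3 - 2 * r := by ring
    have e7 : b + 1 - 2 * r + 0 + 3 = b + 1 - 2 * r + 3 := by ring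
    rw [e7] at q4 ⊢
    rw [e5, e6]
    have e8 : 1 - 2 * b * (1 + r) / (4 * (b + 2 - 2 * r))
        = (2 - 2 * r) * (b + 4) / (4 * (b + 2 - 2 * r)) := by
      field_simp
      ring
    have e9 : 1 - 2 * b * (1 + r) / (5 * (b + 3 - 2 * r))
        = (3 - 2 * r) * (b + 5) / (5 * (b + 3 - 2 * r)) := by
      field_simp
      ring
    rw [e8, e9]
    generalize b + 1 - 2 * r + 3 = u3 at *
    generalize b + 1 - 2 * r = u0 at *
    generalize b + 2 - 2 * r = u1 at *
    generalize b + 3 - 2 * r = u2 at *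
    field_simp
    ring
  | succ n ih =>
    have p1 := pq_pos hc (n + 3)
    have p2 := pq_pos (by linarith only [hb] : 0 < b + 3) (n + 3)
    have p3 := pq_pos hσ (n + 4)
    have hn0 : (0 : ℝ) ≤ n := Nat.cast_nonneg n
    have hx := step_le hb hb1 hr hr1 (x := (n : ℝ) + 2) (by linarith only [])
    have e0 : n + 1 + 3 = (n + 3) + 1 := by ring
    have e1 : pq (1 - 2 * r) (n + 3 + 1) * pq (b + 3) (n + 3 + 1)
        = (pq (1 - 2 * r) (n + 3) * pq (b + 3) (n + 3))
          * ((1 - 2 * r + ((n : ℝ) + 2 + 1)) * (b + 3 + ((n : ℝ) + 2 + 1)) / ((n : ℝ) + 4) ^ 2) := by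
      rw [pq_succ _ (n + 3), pq_succ _ (n + 3)]
      push_cast
      field_simp
      ring
    have hpow : 0 < ((n : ℝ) + 4) ^ 2 := by positivity
    rw [e0, e1]
    have hf0 : 0 ≤ (1 - 2 * r + ((n : ℝ) + 2 + 1)) * (b + 3 + ((n : ℝ) + 2 + 1))
        / ((n : ℝ) + 4) ^ 2 := by
      apply div_nonneg _ hpow.le
      apply mul_nonneg <;> linarith only [hc, hb]
    have hf1 : (1 - 2 * r + ((n : ℝ) + 2 + 1)) * (b + 3 + ((n : ℝ) + 2 + 1)) / ((n : ℝ) + 4) ^ 2
        ≤ ((n : ℝ) + 2 + 4) * (b + 1 - 2 * r + ((n : ℝ) + 2) + 1) * Real.exp (-(2 * b * (1 + r)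
          * (1 / ((n : ℝ) + 2 + qe b r) - 1 / ((n : ℝ) + 2 + 1 + qe b r)))) / ((n : ℝ) + 4) ^ 2 := by
      gcongr
    refine (mul_le_mul ih hf1 hf0 (by positivity)).trans (le_of_eq ?_)
    have e2 : Real.exp (-(2 * b * (1 + r) / (qe b r + 2))
          + 2 * b * (1 + r) / (((n + 1 : ℕ) : ℝ) + 2 + qe b r))
        = Real.exp (-(2 * b * (1 + r) / (qe b r + 2)) + 2 * b * (1 + r) / (n + 2 + qe b r))
          * Real.exp (-(2 * b * (1 + r) * (1 / ((n : ℝ) + 2 + qe b r)
            - 1 / ((n : ℝ) + 2 + 1 + qe b r)))) := by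
      rw [← Real.exp_add]
      congr 1
      have e3 : ((n + 1 : ℕ) : ℝ) + 2 + qe b r = (n : ℝ) + 2 + 1 + qe b r := by push_cast; ring
      rw [e3]
      ring
    rw [e2]
    generalize Real.exp (-(2 * b * (1 + r) / (qe b r + 2)) + 2 * b * (1 + r) / (n + 2 + qe b r)) = X1
    generalize Real.exp (-(2 * b * (1 + r) * (1 / ((n : ℝ) + 2 + qe b r)
            - 1 / ((n : ℝ) + 2 + 1 + qe b r)))) = X2
    generalize (1 + b / 3) * (1 - 2 * b * (1 + r) / (4 * (b + 2 - 2 * r)))
          * (1 - 2 * b * (1 + r) / (5 * (b + 3 - 2 * r))) = X3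
    have e3 : n + 1 + 4 = (n + 4) + 1 := by ring
    rw [e3, pq_succ _ (n + 4)]
    push_cast
    have q1 : b + 1 - 2 * r ≠ 0 := hσ.ne'
    have q2 : b + 1 - 2 * r + (n : ℝ) + 3 ≠ 0 := by positivity
    have q3 : b + 1 - 2 * r + (n : ℝ) + 4 ≠ 0 := by positivity
    have q4 : b + 1 - 2 * r + ((n : ℝ) + 4) = b + 1 - 2 * r + (n : ℝ) + 4 := by ring
    have q5 : b + 1 - 2 * r + ((n : ℝ) + 1) + 3 = b + 1 - 2 * r + (n : ℝ) + 4 := by ring
    have q6 : b + 1 - 2 * r + ((n : ℝ) + 2) + 1 = b + 1 - 2 * r + (n : ℝ) + 3 := by ring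
    rw [q4, q5, q6]
    generalize pq (b + 1 - 2 * r) (n + 4) = P
    generalize b + 1 - 2 * r + (n : ℝ) + 4 = u3 at *
    generalize b + 1 - 2 * r + (n : ℝ) + 3 = u2 at *
    field_simp
    ring

theorem Rb_nonneg {b r : ℝ} (hb : 0 < b) (hb1 : b ≤ 1 / 2) (hr : -(1 / 2) ≤ r) (hr1 : r < 1 / 2) :
    0 ≤ Rb b r := by
  have f1 := F1_pos hb hb1 hr hr1
  have f2 := F2_pos hb hb1 hr hr1
  unfold Rb
  positivity

theorem ratio_bound2 {b r : ℝ} (hb : 0 < b) (hb1 : b ≤ 1 / 2) (hr : -(1 / 2) ≤ r)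
    (hr1 : r < 1 / 2) {m : ℕ} (hm : 3 ≤ m) (j : ℕ) :
    pq (1 - 2 * r) (m + j) / (((m : ℝ) + 1 + j) ^ 2 * pq (b + 1 - 2 * r) (m + 1 + j))
      ≤ (1 - 2 * r) / (2 * (b + 1 - 2 * r)) * Rb b r * ((1 + 2 / m) * Real.exp (3 / (2 * m)))
        * De b (m + 1 + j) := by
  obtain ⟨n, hn⟩ : ∃ n, m + j = n + 3 := ⟨m + j - 3, by omega⟩
  have hn2 : m + 1 + j = n + 4 := by omega
  have hnr : (m : ℝ) + 1 + j = n + 4 := by exact_mod_cast hn2
  have hnm : (m : ℝ) ≤ n + 3 := by
    have : m ≤ n + 3 := by omega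
    exact_mod_cast this
  have hm' : (0 : ℝ) < m := by exact_mod_cast (by omega : 0 < m)
  have hc : 0 < 1 - 2 * r := by linarith
  have hσ : 0 < b + 1 - 2 * r := by linarith only [hb, hr1]
  have hq : 1 < qe b r := by unfold qe; linarith only [hσ]
  have hn0 : (0 : ℝ) ≤ n := Nat.cast_nonneg n
  have f1 := F1_pos hb hb1 hr hr1
  have f2 := F2_pos hb hb1 hr hr1
  rw [hn, hn2, hnr]
  have p2 := pq_pos (by linarith only [hb] : 0 < b + 3) (n + 3)
  have p3 := pq_pos hσ (n + 4)
  have h := ratio_aux2 hb hb1 hr hr1 n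
  have hD : De b (n + 4) = (pq (b + 3) (n + 3))⁻¹ := by
    unfold De
    rfl
  rw [hD, div_le_iff₀ (by positivity)]
  have h2 : pq (1 - 2 * r) (n + 3) ≤ ((1 - 2 * r) * ((n : ℝ) + 5)
      / (2 * (b + 1 - 2 * r) * (b + 1 - 2 * r + n + 3))
        * ((1 + b / 3) * (1 - 2 * b * (1 + r) / (4 * (b + 2 - 2 * r)))
          * (1 - 2 * b * (1 + r) / (5 * (b + 3 - 2 * r))))
        * Real.exp (-(2 * b * (1 + r) / (qe b r + 2)) + 2 * b * (1 + r) / (n + 2 + qe b r))
        * (((n : ℝ) + 4) ^ 2 * pq (b + 1 - 2 * r) (n + 4))) * (pq (b + 3) (n + 3))⁻¹ := by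
    rw [← div_eq_mul_inv, le_div_iff₀ p2]
    exact h
  refine h2.trans ?_
  have h3 : ((n : ℝ) + 5) / (b + 1 - 2 * r + n + 3) ≤ 1 + 2 / m := by
    rw [div_le_iff₀ (by positivity)]
    have : 2 ≤ 2 / (m : ℝ) * (b + 1 - 2 * r + n + 3) := by
      rw [div_mul_eq_mul_div, le_div_iff₀ hm']
      linarith only [hb, hnm, hc]
    linarith only [hσ, this]
  have h4 : Real.exp (-(2 * b * (1 + r) / (qe b r + 2)) + 2 * b * (1 + r) / (n + 2 + qe b r))
      ≤ Real.exp (-(2 * b * (1 + r) / (qe b r + 2))) * Real.exp (3 / (2 * m)) := by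
    rw [← Real.exp_add]
    apply Real.exp_le_exp.mpr
    have h5 : 2 * b * (1 + r) / (n + 2 + qe b r) ≤ 3 / (2 * m) := by
      rw [div_le_div_iff₀ (by positivity) (by positivity)]
      have h6 : 2 * b * (1 + r) ≤ 3 / 2 := by nlinarith only [hb1, hr, hr1]
      nlinarith only [hnm, hq, h6]
    linarith only [h5]
  have p4 : 0 < (pq (b + 3) (n + 3))⁻¹ := inv_pos.mpr p2
  calc ((1 - 2 * r) * ((n : ℝ) + 5)
      / (2 * (b + 1 - 2 * r) * (b + 1 - 2 * r + n + 3))
        * ((1 + b / 3) * (1 - 2 * b * (1 + r) / (4 * (b + 2 - 2 * r)))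
          * (1 - 2 * b * (1 + r) / (5 * (b + 3 - 2 * r))))
        * Real.exp (-(2 * b * (1 + r) / (qe b r + 2)) + 2 * b * (1 + r) / (n + 2 + qe b r))
        * (((n : ℝ) + 4) ^ 2 * pq (b + 1 - 2 * r) (n + 4))) * (pq (b + 3) (n + 3))⁻¹
      = ((1 - 2 * r) / (2 * (b + 1 - 2 * r)) * ((1 + b / 3)
          * (1 - 2 * b * (1 + r) / (4 * (b + 2 - 2 * r)))
          * (1 - 2 * b * (1 + r) / (5 * (b + 3 - 2 * r)))) * (((n : ℝ) + 4) ^ 2
        * pq (b + 1 - 2 * r) (n + 4)) * (pq (b + 3) (n + 3))⁻¹)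
        * ((((n : ℝ) + 5) / (b + 1 - 2 * r + n + 3))
          * Real.exp (-(2 * b * (1 + r) / (qe b r + 2)) + 2 * b * (1 + r) / (n + 2 + qe b r))) := by
        generalize (1 + b / 3) * (1 - 2 * b * (1 + r) / (4 * (b + 2 - 2 * r)))
          * (1 - 2 * b * (1 + r) / (5 * (b + 3 - 2 * r))) = X3
        have q1 : b + 1 - 2 * r ≠ 0 := hσ.ne'
        have q2 : b + 1 - 2 * r + (n : ℝ) + 3 ≠ 0 := by positivity
        field_simp
    _ ≤ ((1 - 2 * r) / (2 * (b + 1 - 2 * r)) * ((1 + b / 3)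
          * (1 - 2 * b * (1 + r) / (4 * (b + 2 - 2 * r)))
          * (1 - 2 * b * (1 + r) / (5 * (b + 3 - 2 * r)))) * (((n : ℝ) + 4) ^ 2
        * pq (b + 1 - 2 * r) (n + 4)) * (pq (b + 3) (n + 3))⁻¹)
        * ((1 + 2 / m) * (Real.exp (-(2 * b * (1 + r) / (qe b r + 2)))
          * Real.exp (3 / (2 * m)))) := by
        gcongr
    _ = _ := by unfold Rb; ring

theorem Cw_nonneg (s : ℂ) (hs : ‖s‖ < 1 / 2) {b : ℝ} (hb : 0 < b) (hb1 : b ≤ 1 / 2) (m : ℕ) :
    0 ≤ Cw s b m := by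
  have hre := Complex.abs_re_le_norm s
  have hre2 := abs_lt.mp (hre.trans_lt hs)
  have hr4 : 4 * (-s.re) ^ 2 ≤ 1 := by nlinarith only [hre2]
  have h1 := one_le_Ks hr4 (sq_nonneg ‖s‖)
  have h2 := Rb_nonneg hb hb1 (by linarith only [hre2] : -(1 / 2) ≤ s.re) (by linarith only [hre2] : s.re < 1 / 2)
  have h3 : 0 < 1 - 2 * s.re := by linarith only [hre2]
  have h4 : 0 < b + 1 - 2 * s.re := by linarith only [hb, hre2]
  have h5 : 0 ≤ Ks (-s.re) (‖s‖ ^ 2) := by linarith only [h1]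
  unfold Cw
  positivity

/-- the weights are bounded by `Cw` times the majorant `De` -/
theorem hw_Cw (s : ℂ) (hs : ‖s‖ < 1 / 2) {b : ℝ} (hb : 0 < b) (hb1 : b ≤ 1 / 2) {m : ℕ}
    (hm : 3 ≤ m) (j : ℕ) :
    (pq (b + 1 - 2 * s.re) (m + 1 + j))⁻¹ * ‖pq (-s) (m + 1 + j)‖ ^ 2
      ≤ Cw s b m * De b (m + 1 + j) := by
  have hre := Complex.abs_re_le_norm s
  have hre2 := abs_lt.mp (hre.trans_lt hs)
  have hr4 : 4 * (-s.re) ^ 2 ≤ 1 := by nlinarith only [hre2]
  have hc : 0 < 1 - 2 * s.re := by linarith only [hre2]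
  have hσ : 0 < b + 1 - 2 * s.re := by linarith only [hb, hc]
  obtain ⟨k, hk⟩ : ∃ k, m + j = k + 1 := ⟨m + j - 1, by omega⟩
  have hk2 : m + 1 + j = k + 2 := by omega
  have hkr : (m : ℝ) + 1 + j = k + 2 := by exact_mod_cast hk2
  have hrb := ratio_bound2 hb hb1 (by linarith only [hre2] : -(1 / 2) ≤ s.re) (by linarith only [hc] : s.re < 1 / 2) hm j
  have hn := norm_c s (by linarith only [hc]) k
  rw [hk2] at hrb ⊢
  rw [hk, hkr] at hrb
  have p3 := pq_pos hσ (k + 2)
  have p4 := pq_pos hc (k + 1)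
  have hK := kap_le_Ks hr4 (sq_nonneg ‖s‖) k
  have hK1 := kap_ge_one (by linarith only [hc] : -1 < -s.re) (sq_nonneg ‖s‖) k
  have hk0 : (0 : ℝ) < (k : ℝ) + 2 := by positivity
  have hD := De_pos hb (k + 2)
  have e1 : (pq (b + 1 - 2 * s.re) (k + 2))⁻¹ * ‖pq (-s) (k + 2)‖ ^ 2
      = (‖s‖ ^ 2 * (1 - 2 * s.re + ‖s‖ ^ 2) / (1 - 2 * s.re) * kap (-s.re) (‖s‖ ^ 2) k)
        * (pq (1 - 2 * s.re) (k + 1) / (((k : ℝ) + 2) ^ 2 * pq (b + 1 - 2 * s.re) (k + 2))) := by
    have e2 : ‖pq (-s) (k + 2)‖ ^ 2 = ‖s‖ ^ 2 * (1 - 2 * s.re + ‖s‖ ^ 2)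
        * kap (-s.re) (‖s‖ ^ 2) k * pq (1 - 2 * s.re) (k + 1)
        / (((k : ℝ) + 2) ^ 2 * (1 - 2 * s.re)) := by
      rw [eq_div_iff (by positivity)]
      linarith only [hn]
    rw [e2]
    field_simp
  rw [e1]
  have hX : 0 ≤ ‖s‖ ^ 2 * (1 - 2 * s.re + ‖s‖ ^ 2) / (1 - 2 * s.re) := by positivity
  have hY : 0 ≤ pq (1 - 2 * s.re) (k + 1) / (((k : ℝ) + 2) ^ 2 * pq (b + 1 - 2 * s.re) (k + 2)) := by
    positivity
  calc (‖s‖ ^ 2 * (1 - 2 * s.re + ‖s‖ ^ 2) / (1 - 2 * s.re) * kap (-s.re) (‖s‖ ^ 2) k)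
        * (pq (1 - 2 * s.re) (k + 1) / (((k : ℝ) + 2) ^ 2 * pq (b + 1 - 2 * s.re) (k + 2)))
      ≤ (‖s‖ ^ 2 * (1 - 2 * s.re + ‖s‖ ^ 2) / (1 - 2 * s.re) * Ks (-s.re) (‖s‖ ^ 2))
        * ((1 - 2 * s.re) / (2 * (b + 1 - 2 * s.re)) * Rb b s.re
          * ((1 + 2 / m) * Real.exp (3 / (2 * m))) * De b (k + 2)) := by
        apply mul_le_mul _ hrb hY
        · apply mul_nonneg hX
          linarith only [hK, hK1]
        · exact mul_le_mul_of_nonneg_left hK hX
    _ = Cw s b m * De b (k + 2) := by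
        unfold Cw
        field_simp

theorem K_mul_Cw (s : ℂ) (hs : ‖s‖ < 1 / 2) {b : ℝ} (hb : 0 < b) (hb1 : b ≤ 1 / 2) (m : ℕ)
    (hm : 1 ≤ m) :
    Ks s.re (‖s‖ ^ 2) * Cw s b m
      ≤ ‖s‖ ^ 2 / 2 * ((1 - 2 * s.re + ‖s‖ ^ 2) / (b + 1 - 2 * s.re))
        * (Bq s.re (‖s‖ ^ 2) * Rb b s.re) * ((1 + 2 / m) * Real.exp (3 / (2 * m))) := by
  have hre := Complex.abs_re_le_norm s
  have hre2 := abs_lt.mp (hre.trans_lt hs)
  have hr4 : 4 * s.re ^ 2 ≤ 1 := by nlinarith only [hre2]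
  have hc : 0 < 1 - 2 * s.re := by linarith only [hre2]
  have hσ : 0 < b + 1 - 2 * s.re := by linarith only [hb, hc]
  have h2 := Rb_nonneg hb hb1 (by linarith only [hre2] : -(1 / 2) ≤ s.re) (by linarith only [hc] : s.re < 1 / 2)
  have h1 := Ks_mul_Ks hr4 (sq_nonneg ‖s‖)
  have e1 : Ks s.re (‖s‖ ^ 2) * Cw s b m
      = (‖s‖ ^ 2 / 2 * ((1 - 2 * s.re + ‖s‖ ^ 2) / (b + 1 - 2 * s.re)) * Rb b s.re
        * ((1 + 2 / m) * Real.exp (3 / (2 * m))))
        * (Ks s.re (‖s‖ ^ 2) * Ks (-s.re) (‖s‖ ^ 2)) := by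
    unfold Cw
    field_simp
  rw [e1]
  refine (mul_le_mul_of_nonneg_left h1 (by positivity)).trans (le_of_eq ?_)
  ring

end Pool.Agent.M16.Helper39.HR
end

/- Helper94.T.Helper54.HR2.TabData5 -/
section
/-!
MP_16b0ee, project HR2: the tables for the second kernel computation, basis monomials of weight at most 5, 74 monomials in the rows, digits of 168 bits.
-/

set_option autoImplicit false
set_option maxRecDepth 100000
set_option linter.all false

namespace Pool.Agent.M16.Helper54.HR2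

/-- group -/
noncomputable def tabFiveg0 : Grp :=
  ⟨0, 0, 0, 168, [(0, 2)],
   [(0, 1)],
   [([], [], [])]⟩

/-- group -/
noncomputable def tabFiveg1 : Grp :=
  ⟨1, 0, 168, 336, [(0, 0)],
   [(0, 2)],
   [([], [], [])]⟩

/-- group -/
noncomputable def tabFiveg2 : Grp :=
  ⟨1, 1, 168, 504, [(0, 1)],
   [(0, 1)],
   [([], [(168, 3)], [])]⟩

/-- group -/
noncomputable def tabFiveg3 : Grp :=
  ⟨2, 0, 504, 840, [(0, 0), (168, 0), (168, 1)],
   [(0, 0), (168, 0), (504, 1)],
   [([], [], []), ([], [], []), ([], [(672, 4)], [])]⟩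

/-- group -/
noncomputable def tabFiveg4 : Grp :=
  ⟨2, 1, 336, 840, [(0, 2)],
   [(0, 1)],
   [([], [(168, 3)], [])]⟩

/-- group -/
noncomputable def tabFiveg5 : Grp :=
  ⟨2, 2, 504, 1176, [(0, 1)],
   [(0, 1)],
   [([], [(168, 6)], [])]⟩

/-- group -/
noncomputable def tabFiveg6 : Grp :=
  ⟨3, 0, 1008, 2184, [(168, 0), (336, 0), (504, 0), (0, 1), (504, 1)],
   [(0, 0), (168, 0), (336, 0), (168, 1), (840, 1)],
   [([], [], []), ([], [], []), ([], [], []), ([], [(336, 4)], []), ([], [(1008, 1), (1176, 5)], [])]⟩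

/-- group -/
noncomputable def tabFiveg7 : Grp :=
  ⟨3, 1, 840, 1680, [(0, 0), (168, 0), (504, 1)],
   [(0, 2), (168, 0), (1176, 1)],
   [([], [(168, 3)], []), ([], [], [(336, 3)]), ([], [(1512, 3), (1344, 4)], [])]⟩

/-- group -/
noncomputable def tabFiveg8 : Grp :=
  ⟨3, 2, 840, 2184, [(0, 1)],
   [(0, 1)],
   [([], [(168, 6)], [])]⟩

/-- group -/
noncomputable def tabFiveg9 : Grp :=
  ⟨3, 3, 1176, 2688, [(0, 1)],
   [(0, 1)],
   [([], [(168, 9)], [])]⟩

/-- group -/
noncomputable def tabFiveg10 : Grp :=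
  ⟨4, 0, 1848, 3696, [(840, 0), (1008, 0), (1176, 0), (1344, 0), (1512, 0), (0, 1), (168, 2), (672, 1), (1344, 1), (1512, 1)],
   [(840, 0), (1008, 0), (1176, 0), (1344, 0), (1512, 0), (0, 1), (672, 0), (1176, 1), (2184, 1), (2352, 1)],
   [([], [], []), ([], [], []), ([], [], []), ([], [], []), ([], [], []), ([], [(168, 4)], []), ([], [(336, 4)], []), ([], [(1344, 1), (1512, 5)], []), ([], [(2520, 8)], []), ([], [(2520, 2), (2688, 6)], [])]⟩

/-- group -/
noncomputable def tabFiveg11 : Grp :=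
  ⟨4, 1, 2184, 3528, [(0, 0), (168, 0), (336, 0), (168, 1), (840, 1)],
   [(0, 0), (168, 0), (336, 0), (1176, 1), (2184, 1)],
   [([], [(672, 3)], []), ([], [(840, 3)], []), ([(504, 3)], [], []), ([], [(1512, 3), (1344, 4)], []), ([], [(2352, 1), (2688, 3), (2520, 5)], [])]⟩

/-- group -/
noncomputable def tabFiveg12 : Grp :=
  ⟨4, 2, 1680, 3528, [(0, 2), (168, 0), (1176, 1)],
   [(0, 1), (672, 0), (2016, 1)],
   [([], [(168, 6)], []), ([(840, 6)], [], []), ([], [(2352, 6), (2184, 4)], [])]⟩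

/-- group -/
noncomputable def tabFiveg13 : Grp :=
  ⟨4, 3, 2184, 4536, [(0, 1)],
   [(0, 1)],
   [([], [(168, 9)], [])]⟩

/-- group -/
noncomputable def tabFiveg14 : Grp :=
  ⟨4, 4, 2688, 5376, [(0, 1)],
   [(0, 1)],
   [([], [(168, 12)], [])]⟩

/-- group -/
noncomputable def tabFiveg15 : Grp :=
  ⟨5, 0, 3864, 6720, [(1512, 0), (1680, 0), (1848, 0), (2016, 0), (2184, 0), (2352, 0), (2520, 0), (336, 1), (504, 1), (168, 0), (0, 1), (168, 1), (1176, 1), (1344, 1), (2352, 1)],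
   [(2520, 0), (2688, 0), (2856, 0), (3024, 0), (3192, 0), (3360, 0), (3528, 0), (0, 1), (336, 2), (504, 0), (1176, 1), (2352, 0), (3024, 1), (3192, 1), (4536, 1)],
   [([], [], []), ([], [], []), ([], [], []), ([], [], []), ([], [], []), ([], [], []), ([], [], []), ([], [(168, 4)], []), ([], [(504, 4)], []), ([], [], [(672, 4)]), ([], [(1344, 1), (1512, 5)], []), ([], [(1680, 1), (1848, 5)], []), ([], [(3360, 8)], []), ([], [(3360, 2), (3528, 6)], []), ([], [(4872, 1), (5208, 4), (5040, 5)], [])]⟩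

/-- group -/
noncomputable def tabFiveg16 : Grp :=
  ⟨5, 1, 3696, 7560, [(840, 0), (1008, 0), (1176, 0), (1344, 0), (1512, 0), (0, 1), (672, 0), (1176, 1), (2184, 1), (2352, 1)],
   [(0, 0), (168, 0), (336, 0), (504, 0), (672, 0), (168, 1), (1344, 0), (2016, 1), (3360, 1), (3528, 1)],
   [([], [(1176, 3)], []), ([], [(1344, 3)], []), ([], [(1512, 3)], []), ([(840, 3)], [], []), ([(1008, 3)], [], []), ([], [(504, 3), (336, 4)], []), ([(1512, 4)], [(840, 3)], []), ([], [(2184, 1), (2520, 3), (2352, 5)], []), ([], [(4032, 3), (3696, 8)], []), ([], [(3696, 2), (4200, 3), (3864, 6)], [])]⟩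

/-- group -/
noncomputable def tabFiveg17 : Grp :=
  ⟨5, 2, 3528, 6552, [(0, 0), (168, 0), (336, 0), (1176, 1), (2184, 1)],
   [(0, 2), (168, 0), (336, 0), (2856, 1), (4200, 1)],
   [([], [(168, 6)], []), ([], [], [(504, 6)]), ([(672, 6)], [], []), ([], [(3192, 6), (3024, 4)], []), ([], [(4368, 1), (4704, 6), (4536, 5)], [])]⟩

/-- group -/
noncomputable def tabFiveg18 : Grp :=
  ⟨5, 3, 3528, 7560, [(0, 1), (672, 0), (2016, 1)],
   [(0, 1), (1176, 0), (3024, 1)],
   [([], [(168, 9)], []), ([(1344, 9)], [], []), ([], [(3360, 9), (3192, 4)], [])]⟩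

/-- group -/
noncomputable def tabFiveg19 : Grp :=
  ⟨5, 4, 4536, 9240, [(0, 1)],
   [(0, 1)],
   [([], [(168, 12)], [])]⟩

/-- group -/
noncomputable def tabFiveg20 : Grp :=
  ⟨5, 5, 5376, 10416, [(0, 1)],
   [(0, 1)],
   [([], [(168, 15)], [])]⟩

/-- group -/
noncomputable def tabFiveg21 : Grp :=
  ⟨6, 0, 6888, 12432, [(3528, 0), (3696, 0), (3864, 0), (4032, 0), (4200, 0), (4368, 0), (4536, 0), (4704, 0), (4872, 0), (5040, 0), (1848, 1), (2016, 1), (2184, 1), (1512, 0), (1680, 0), (0, 1), (336, 1), (504, 2), (1176, 1), (1512, 1), (1344, 1), (1680, 1), (3192, 1), (4704, 1), (4872, 1), (5040, 1)],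
   [(4536, 0), (4704, 0), (4872, 0), (5040, 0), (5208, 0), (5376, 0), (5544, 0), (5712, 0), (5880, 0), (6048, 0), (1176, 1), (1512, 1), (504, 0), (672, 0), (840, 0), (0, 1), (504, 1), (1848, 0), (2688, 1), (4200, 0), (2856, 1), (4368, 0), (5376, 1), (7392, 1), (7560, 1), (7728, 1)],
   [([], [], []), ([], [], []), ([], [], []), ([], [], []), ([], [], []), ([], [], []), ([], [], []), ([], [], []), ([], [], []), ([], [], []), ([], [(1344, 4)], []), ([], [(1680, 4)], []), ([], [(1848, 4)], []), ([], [(2016, 4)], []), ([(1008, 4)], [], []), ([], [(168, 1), (336, 5)], []), ([], [(672, 1), (840, 5)], []), ([(2016, 1)], [(1008, 5)], []), ([], [(3024, 8)], []), ([], [(3360, 8)], []), ([], [(3024, 2), (3192, 6)], []), ([], [(3360, 2), (3528, 6)], []), ([], [(5712, 1), (6048, 4), (5880, 5)], []), ([], [(7896, 12)], []), ([], [(7896, 2), (8232, 4), (8064, 6)], []), ([], [(7896, 2), (8232, 10)], [])]⟩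

/-- group -/
noncomputable def tabFiveg22 : Grp :=
  ⟨6, 1, 6720, 12264, [(2520, 0), (2688, 0), (2856, 0), (3024, 0), (3192, 0), (3360, 0), (3528, 0), (0, 1), (336, 2), (504, 0), (1176, 1), (2352, 0), (3024, 1), (3192, 1), (4536, 1)],
   [(2352, 0), (2520, 0), (2688, 0), (2856, 0), (3024, 0), (3192, 0), (3360, 0), (0, 1), (1680, 0), (1848, 0), (2688, 1), (4200, 0), (5208, 1), (5376, 1), (7224, 1)],
   [([], [(3864, 3)], []), ([], [(4032, 3)], []), ([], [(4200, 3)], []), ([], [(4368, 3)], []), ([], [(4536, 3)], []), ([(3528, 3)], [], []), ([(3696, 3)], [], []), ([], [(336, 3), (168, 4)], []), ([], [(840, 3), (672, 4)], []), ([(2184, 3), (2016, 4)], [], []), ([], [(2856, 1), (3192, 3), (3024, 5)], []), ([(4368, 1), (4536, 5)], [(3528, 3)], []), ([], [(5880, 3), (5544, 8)], []), ([], [(5544, 2), (6048, 3), (5712, 6)], []), ([], [(7560, 1), (8064, 3), (7896, 4), (7728, 5)], [])]⟩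

/-- group -/
noncomputable def tabFiveg23 : Grp :=
  ⟨6, 2, 7560, 12096, [(0, 0), (168, 0), (336, 0), (504, 0), (672, 0), (168, 1), (1344, 0), (2016, 1), (3360, 1), (3528, 1)],
   [(0, 0), (168, 0), (336, 0), (504, 0), (672, 0), (2688, 1), (4200, 0), (5208, 1), (7056, 1), (7224, 1)],
   [([], [(1512, 6)], []), ([], [(1848, 6)], []), ([(840, 6)], [], []), ([(1008, 6)], [], []), ([(1176, 6)], [], []), ([], [(3024, 6), (2856, 4)], []), ([(4536, 6), (4368, 4)], [], []), ([], [(5376, 1), (5712, 6), (5544, 5)], []), ([], [(7728, 6), (7392, 8)], []), ([], [(7392, 2), (7896, 6), (7560, 6)], [])]⟩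

/-- group -/
noncomputable def tabFiveg24 : Grp :=
  ⟨6, 3, 6552, 12096, [(0, 2), (168, 0), (336, 0), (2856, 1), (4200, 1)],
   [(0, 1), (1512, 0), (1680, 0), (5040, 1), (6888, 1)],
   [([], [(168, 9)], []), ([(1848, 9)], [], []), ([(2016, 9)], [], []), ([], [(5376, 9), (5208, 4)], []), ([], [(7056, 1), (7392, 9), (7224, 5)], [])]⟩

/-- group -/
noncomputable def tabFiveg25 : Grp :=
  ⟨6, 4, 7560, 14616, [(0, 1), (1176, 0), (3024, 1)],
   [(0, 1), (1512, 0), (4200, 1)],
   [([], [(168, 12)], []), ([(1680, 12)], [], []), ([], [(4536, 12), (4368, 4)], [])]⟩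

/-- group -/
noncomputable def tabFiveg26 : Grp :=
  ⟨6, 5, 9240, 16968, [(0, 1)],
   [(0, 1)],
   [([], [(168, 15)], [])]⟩

/-- group -/
noncomputable def tabFiveg27 : Grp :=
  ⟨6, 6, 10416, 18648, [(0, 1)],
   [(0, 1)],
   [([], [(168, 18)], [])]⟩

/-- group -/
noncomputable def tabFiveg28 : Grp :=
  ⟨7, 0, 12600, 21168, [(6048, 0), (6216, 0), (6384, 0), (6552, 0), (6720, 0), (6888, 0), (7056, 0), (7224, 0), (7392, 0), (7560, 0), (7728, 0), (7896, 0), (8064, 0), (3528, 1), (3696, 1), (3864, 1), (4032, 1), (4200, 1), (3192, 0), (3360, 0), (1176, 1), (1512, 1), (1680, 1), (1848, 1), (840, 0), (0, 1), (504, 1), (1848, 0), (168, 1), (672, 1), (840, 1), (2856, 1), (3192, 1), (5544, 1), (5712, 1), (5880, 1), (7728, 1), (8064, 1)],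
   [(9072, 0), (9240, 0), (9408, 0), (9576, 0), (9744, 0), (9912, 0), (10080, 0), (10248, 0), (10416, 0), (10584, 0), (10752, 0), (10920, 0), (11088, 0), (4200, 1), (4536, 1), (4872, 1), (3360, 0), (3528, 0), (3696, 0), (3864, 0), (0, 1), (672, 1), (1176, 2), (1344, 0), (1512, 0), (2688, 1), (3360, 1), (5208, 0), (2856, 1), (3528, 1), (5376, 0), (6552, 1), (8736, 0), (10248, 1), (10416, 1), (10584, 1), (12936, 1), (13272, 1)],
   [([], [], []), ([], [], []), ([], [], []), ([], [], []), ([], [], []), ([], [], []), ([], [], []), ([], [], []), ([], [], []), ([], [], []), ([], [], []), ([], [], []), ([], [], []), ([], [(4368, 4)], []), ([], [(4704, 4)], []), ([], [(5040, 4)], []), ([], [(5208, 4)], []), ([], [(5376, 4)], []), ([], [(5544, 4)], []), ([(4032, 4)], [], []), ([], [(168, 1), (336, 5)], []), ([], [(840, 1), (1008, 5)], []), ([], [(1344, 1), (1512, 5)], []), ([], [(1848, 5)], [(1680, 1)]), ([(1848, 1)], [], [(2016, 5)]), ([], [(3024, 8)],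 []), ([], [(3696, 8)], []), ([(5544, 8)], [], []), ([], [(3024, 2), (3192, 6)], []), ([], [(3696, 2), (3864, 6)], []), ([(5544, 2)], [(4032, 6)], []), ([], [(6888, 1), (7224, 4), (7056, 5)], []), ([], [(7392, 1), (7728, 4), (7560, 5)], []), ([], [(10752, 12)], []), ([], [(10752, 2), (11088, 4), (10920, 6)], []), ([], [(10752, 2), (11088, 10)], []), ([], [(13440, 1), (13776, 8), (13608, 5)], []), ([], [(13776, 2), (13608, 1), (14112, 5), (13944, 6)], [])]⟩

/-- group -/
noncomputable def tabFiveg29 : Grp :=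
  ⟨7, 1, 12432, 21000, [(4536, 0), (4704, 0), (4872, 0), (5040, 0), (5208, 0), (5376, 0), (5544, 0), (5712, 0), (5880, 0), (6048, 0), (1176, 1), (1512, 1), (504, 0), (672, 0), (840, 0), (0, 1), (504, 1), (1848, 0), (2688, 1), (4200, 0), (2856, 1), (4368, 0), (5376, 1), (7392, 1), (7560, 1), (7728, 1)],
   [(5880, 0), (6048, 0), (6216, 0), (6384, 0), (6552, 0), (6720, 0), (6888, 0), (7056, 0), (7224, 0), (7392, 0), (0, 1), (672, 2), (840, 0), (1008, 0), (1176, 0), (2688, 1), (5040, 0), (5208, 0), (6384, 1), (8568, 0), (6552, 1), (8736, 0), (10080, 1), (12600, 1), (12768, 1), (12936, 1)],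
   [([], [(8064, 3)], []), ([], [(8232, 3)], []), ([], [(8400, 3)], []), ([], [(8568, 3)], []), ([], [(8736, 3)], []), ([], [(8904, 3)], []), ([], [(9072, 3)], []), ([(7560, 3)], [], []), ([(7728, 3)], [], []), ([(7896, 3)], [], []), ([], [(336, 3), (168, 4)], []), ([], [(1008, 3), (840, 4)], []), ([], [(1512, 3)], [(1344, 4)]), ([(1512, 4)], [], [(1848, 3)]), ([(2016, 3), (1680, 4)], [], []), ([], [(2856, 1), (3192, 3), (3024, 5)], []), ([], [(3528, 1), (3864, 3), (3696, 5)], []), ([(5376, 1), (5712, 3), (5544, 5)], [], []), ([], [(7056, 3), (6720, 8)], []), ([(8904, 8)], [(7560, 3)], []), ([], [(6720, 2), (7224, 3), (6888, 6)], []), ([(8904, 2), (9072, 6)], [(7728, 3)], []), ([], [(10416, 1), (10920, 3), (10752, 4), (10584, 5)], []), ([], [(13608, 3), (13104, 12)], []), ([], [(13104, 2), (13776, 3), (13440, 4), (13272, 6)], []), ([], [(13104, 2), (13944, 3), (13440, 10)], [])]⟩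

/-- group -/
noncomputable def tabFiveg30 : Grp :=
  ⟨7, 2, 12264, 23352, [(2352, 0), (2520, 0), (2688, 0), (2856, 0), (3024, 0), (3192, 0), (3360, 0), (0, 1), (1680, 0), (1848, 0), (2688, 1), (4200, 0), (5208, 1), (5376, 1), (7224, 1)],
   [(0, 0), (168, 0), (336, 0), (504, 0), (672, 0), (840, 0), (1008, 0), (168, 1), (2352, 0), (2520, 0), (3864, 1), (6048, 0), (7392, 1), (7560, 1), (9912, 1)],
   [([], [(2016, 6)], []), ([], [(2352, 6)], []), ([], [(2688, 6)], []), ([(1176, 6)], [], []), ([(1344, 6)], [], []), ([(1512, 6)], [], []), ([(1680, 6)], [], []), ([], [(504, 6), (336, 4)], []), ([(2688, 4)], [(1176, 6)], []), ([(3024, 6), (2856, 4)], [], []), ([], [(4032, 1), (4368, 6), (4200, 5)], []), ([(6216, 1), (6552, 6), (6384, 5)], [], []), ([], [(8064, 6), (7728, 8)], []), ([], [(7728, 2), (8232, 6), (7896, 6)], []), ([], [(10248, 1), (10752, 6), (10584, 4), (10416, 5)], [])]⟩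

/-- group -/
noncomputable def tabFiveg31 : Grp :=
  ⟨7, 3, 12096, 20832, [(0, 0), (168, 0), (336, 0), (504, 0), (672, 0), (2688, 1), (4200, 0), (5208, 1), (7056, 1), (7224, 1)],
   [(0, 2), (168, 0), (336, 0), (504, 0), (672, 0), (6216, 1), (8400, 0), (9744, 1), (12096, 1), (12264, 1)],
   [([], [(168, 9)], []), ([], [], [(840, 9)]), ([(1008, 9)], [], []), ([(1176, 9)], [], []), ([(1344, 9)], [], []), ([], [(6552, 9), (6384, 4)], []), ([(8736, 9), (8568, 4)], [], []), ([], [(9912, 1), (10248, 9), (10080, 5)], []), ([], [(12768, 9), (12432, 8)], []), ([], [(12432, 2), (12936, 9), (12600, 6)], [])]⟩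

/-- group -/
noncomputable def tabFiveg32 : Grp :=
  ⟨7, 4, 12096, 23352, [(0, 1), (1512, 0), (1680, 0), (5040, 1), (6888, 1)],
   [(0, 1), (2016, 0), (2184, 0), (7056, 1), (9408, 1)],
   [([], [(168, 12)], []), ([(2352, 12)], [], []), ([(2520, 12)], [], []), ([], [(7392, 12), (7224, 4)], []), ([], [(9576, 1), (9912, 12), (9744, 5)], [])]⟩

/-- group -/
noncomputable def tabFiveg33 : Grp :=
  ⟨7, 5, 14616, 26880, [(0, 1), (1512, 0), (4200, 1)],
   [(0, 1), (2184, 0), (5712, 1)],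
   [([], [(168, 15)], []), ([(2352, 15)], [], []), ([], [(6048, 15), (5880, 4)], [])]⟩

/-- group -/
noncomputable def tabFiveg34 : Grp :=
  ⟨7, 6, 16968, 30240, [(0, 1)],
   [(0, 1)],
   [([], [(168, 18)], [])]⟩

/-- group -/
noncomputable def tabFiveg35 : Grp :=
  ⟨7, 7, 18648, 32424, [(0, 1)],
   [(0, 1)],
   [([], [(168, 21)], [])]⟩

/-- group -/
noncomputable def tabFiveg36 : Grp :=
  ⟨8, 0, 21336, 35952, [(11088, 0), (11256, 0), (11424, 0), (11592, 0), (11760, 0), (11928, 0), (12096, 0), (12264, 0), (12432, 0), (12600, 0), (12768, 0), (12936, 0), (13104, 0), (13272, 0), (13440, 0), (13608, 0), (13776, 0), (13944, 0), (7728, 1), (7896, 1), (8064, 1), (8232, 1), (8400, 1), (8568, 1), (8736, 1), (7224, 0), (7392, 0), (4200, 1), (4536, 1), (4872, 1), (5040, 1), (5208, 1), (5376, 1), (3864, 0), (0, 1), (672, 1), (1176, 1), (1512, 2), (1680, 0), (168, 1), (840, 1), (1344, 1), (1680, 1), (1848, 2), (2856, 1), (3528, 1), (6720, 1), (7224, 1), (6888,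 1), (7392, 1), (7056, 1), (7560, 1), (10584, 1), (10920, 1), (13272, 1), (13440, 1), (13944, 1)],
   [(14616, 0), (14784, 0), (14952, 0), (15120, 0), (15288, 0), (15456, 0), (15624, 0), (15792, 0), (15960, 0), (16128, 0), (16296, 0), (16464, 0), (16632, 0), (16800, 0), (16968, 0), (17136, 0), (17304, 0), (17472, 0), (7896, 1), (8232, 1), (8568, 1), (8904, 1), (9240, 1), (7056, 0), (7224, 0), (7392, 0), (7560, 0), (2688, 1), (3360, 1), (3864, 1), (4368, 1), (1512, 0), (1680, 0), (1848, 0), (0, 1), (840, 1), (4368, 0), (4536, 0), (4704, 0), (168, 1), (1008, 1), (1512, 1), (4872, 0), (5040, 0), (6216, 1), (7056, 1), (11424, 1), (14112, 0), (11592, 1), (14280, 0), (11760, 1), (14448, 0), (16296, 1), (16632, 1), (19824, 1), (19992, 1), (20496, 1)],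
   [([], [], []), ([], [], []), ([], [], []), ([], [], []), ([], [], []), ([], [], []), ([], [], []), ([], [], []), ([], [], []), ([], [], []), ([], [], []), ([], [], []), ([], [], []), ([], [], []), ([], [], []), ([], [], []), ([], [], []), ([], [], []), ([], [(8064, 4)], []), ([], [(8400, 4)], []), ([], [(8736, 4)], []), ([], [(9072, 4)], []), ([], [(9408, 4)], []), ([], [(9576, 4)], []), ([], [(9744, 4)], []), ([], [(9912, 4)], []), ([], [(10080, 4)], []), ([], [(2856, 1), (3024, 5)], []), ([], [(3528, 1), (3696, 5)], []), ([], [(4032, 1), (4200, 5)], []), ([], [(4536, 1), (4704, 5)], []), ([], [(4872, 1), (5040, 5)], []), ([(2016, 1)], [(5208, 5)], []), ([(2184, 1), (2352, 5)], [], []), ([], [(336, 8)], []), ([], [(1176, 8)], []), ([], [(1680, 8)], []), ([], [(2016, 8)], []), ([(5208, 8)], [], []), ([], [(336, 2), (504, 6)], []), ([], [(1176, 2), (1344, 6)], []), ([], [(1680, 2), (1848, 6)], []), ([], [(2016, 2), (2184, 6)], []), ([(5208, 2)],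 [(2352, 6)], []), ([], [(6552, 1), (6888, 4), (6720, 5)], []), ([], [(7392, 1), (7728, 4), (7560, 5)], []), ([], [(11928, 12)], []), ([], [(12432, 12)], []), ([], [(11928, 2), (12264, 4), (12096, 6)], []), ([], [(12432, 2), (12768, 4), (12600, 6)], []), ([], [(11928, 2), (12264, 10)], []), ([], [(12432, 2), (12768, 10)], []), ([], [(16800, 1), (17136, 8), (16968, 5)], []), ([], [(17136, 2), (16968, 1), (17472, 5), (17304, 6)], []), ([], [(20664, 16)], []), ([], [(20664, 2), (21000, 8), (20832, 6)], []), ([], [(21000, 4), (21168, 12)], [])]⟩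

/-- group -/
noncomputable def tabFiveg37 : Grp :=
  ⟨8, 1, 21168, 35784, [(9072, 0), (9240, 0), (9408, 0), (9576, 0), (9744, 0), (9912, 0), (10080, 0), (10248, 0), (10416, 0), (10584, 0), (10752, 0), (10920, 0), (11088, 0), (4200, 1), (4536, 1), (4872, 1), (3360, 0), (3528, 0), (3696, 0), (3864, 0), (0, 1), (672, 1), (1176, 2), (1344, 0), (1512, 0), (2688, 1), (3360, 1), (5208, 0), (2856, 1), (3528, 1), (5376, 0), (6552, 1), (8736, 0), (10248, 1), (10416, 1), (10584, 1), (12936, 1), (13272, 1)],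
   [(10416, 0), (10584, 0), (10752, 0), (10920, 0), (11088, 0), (11256, 0), (11424, 0), (11592, 0), (11760, 0), (11928, 0), (12096, 0), (12264, 0), (12432, 0), (2688, 1), (3360, 1), (840, 0), (1008, 0), (1176, 0), (1344, 0), (1512, 0), (0, 1), (840, 1), (4032, 0), (4200, 0), (4368, 0), (6048, 1), (9072, 0), (9240, 0), (6216, 1), (9408, 0), (9576, 0), (11256, 1), (13944, 0), (15960, 1), (16128, 1), (16296, 1), (19488, 1), (19824, 1)],
   [([], [(13104, 3)], []), ([], [(13272, 3)], []), ([], [(13440, 3)], []), ([], [(13608, 3)], []), ([], [(13776, 3)], []), ([], [(13944, 3)], []), ([], [(14112, 3)], []), ([], [(14280, 3)], []), ([], [(14448, 3)], []), ([], [(14616, 3)], []), ([(12600, 3)], [], []), ([(12768, 3)], [], []), ([(12936, 3)], [], []), ([], [(3024, 3), (2856, 4)], []), ([], [(3696, 3), (3528, 4)], []), ([], [(4200, 3), (4032, 4)], []), ([], [(4704, 3), (4536, 4)], []), ([(1680, 4)], [(5040, 3)], []), ([(2184, 3), (1848, 4)], [], []), ([(2352,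 3), (2016, 4)], [], []), ([], [(168, 1), (504, 3), (336, 5)], []), ([], [(1008, 1), (1344, 3), (1176, 5)], []), ([(4536, 1)], [(1848, 3), (1680, 5)], []), ([(4704, 1), (5040, 5)], [(2184, 3)], []), ([(4872, 1), (5376, 3), (5208, 5)], [], []), ([], [(6720, 3), (6384, 8)], []), ([], [(7560, 3), (7224, 8)], []), ([(10080, 3), (9744, 8)], [], []), ([], [(6384, 2), (6888, 3), (6552, 6)], []), ([], [(7224, 2), (7728, 3), (7392, 6)], []), ([(9744, 2), (10248, 3), (9912, 6)], [], []), ([], [(11592, 1), (12096, 3), (11928, 4), (11760, 5)], []), ([(14280, 1), (14616, 4), (14448, 5)], [(12600, 3)], []), ([], [(16968, 3), (16464, 12)], []), ([], [(16464, 2), (17136, 3), (16800, 4), (16632, 6)], []), ([], [(16464, 2), (17304, 3), (16800, 10)], []), ([], [(19992, 1), (20832, 3), (20328, 8), (20160, 5)], []), ([], [(20328, 2), (20160, 1), (21168, 3), (20664, 5), (20496, 6)], [])]⟩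

/-- group -/
noncomputable def tabFiveg38 : Grp :=
  ⟨8, 2, 21000, 35616, [(5880, 0), (6048, 0), (6216, 0), (6384, 0), (6552, 0), (6720, 0), (6888, 0), (7056, 0), (7224, 0), (7392, 0), (0, 1), (672, 2), (840, 0), (1008, 0), (1176, 0), (2688, 1), (5040, 0), (5208, 0), (6384, 1), (8568, 0), (6552, 1), (8736, 0), (10080, 1), (12600, 1), (12768, 1), (12936, 1)],
   [(5712, 0), (5880, 0), (6048, 0), (6216, 0), (6384, 0), (6552, 0), (6720, 0), (6888, 0), (7056, 0), (7224, 0), (0, 1), (3528, 0), (3696, 0), (3864, 0), (4032, 0), (6048, 1), (8904, 0), (9072, 0), (11088, 1), (13776, 0), (11256, 1), (13944, 0), (15792, 1), (19152, 1), (19320, 1), (19488, 1)],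
   [([], [(8232, 6)], []), ([], [(8568, 6)], []), ([], [(8904, 6)], []), ([], [(9240, 6)], []), ([], [(9576, 6)], []), ([(7392, 6)], [], []), ([(7560, 6)], [], []), ([(7728, 6)], [], []), ([(7896, 6)], [], []), ([(8064, 6)], [], []), ([], [(336, 6), (168, 4)], []), ([], [(1176, 6), (1008, 4)], []), ([(4704, 6), (4200, 4)], [], []), ([(4872, 6), (4368, 4)], [], []), ([(5040, 6), (4536, 4)], [], []), ([], [(6216, 1), (6552, 6), (6384, 5)], []), ([(9240, 1), (9576, 5)], [(7392, 6)], []), ([(9408, 1), (9912, 6), (9744, 5)], [], []), ([], [(11760, 6), (11424, 8)], []), ([(14448, 6), (14112, 8)], [], []), ([], [(11424, 2), (11928, 6), (11592, 6)], []), ([(14112, 2), (14616, 6), (14280, 6)], [], []), ([], [(16128, 1), (16632, 6), (16464, 4), (16296, 5)], []), ([], [(20160, 6), (19656, 12)], []), ([], [(19656, 2), (20328, 6), (19992, 4), (19824, 6)], []), ([], [(19656, 2), (20496, 6), (19992, 10)], [])]⟩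

/-- group -/
noncomputable def tabFiveg39 : Grp :=
  ⟨8, 3, 23352, 35448, [(0, 0), (168, 0), (336, 0), (504, 0), (672, 0), (840, 0), (1008, 0), (168, 1), (2352, 0), (2520, 0), (3864, 1), (6048, 0), (7392, 1), (7560, 1), (9912, 1)],
   [(0, 0), (168, 0), (336, 0), (504, 0), (672, 0), (840, 0), (1008, 0), (6048, 1), (8736, 0), (8904, 0), (11088, 1), (13776, 0), (15624, 1), (15792, 1), (18984, 1)],
   [([], [(3024, 9)], []), ([], [(3696, 9)], []), ([(1176, 9)], [], []), ([(1344, 9)], [], []), ([(1512, 9)], [], []), ([(1680, 9)], [], []), ([(1848, 9)], [], []), ([], [(6384, 9), (6216, 4)], []), ([(9408, 9), (9072, 4)], [], []), ([(9576, 9), (9240, 4)], [], []), ([], [(11256, 1), (11592, 9), (11424, 5)], []), ([(13944, 1), (14280, 9), (14112, 5)], [], []), ([], [(16296, 9), (15960, 8)], []), ([], [(15960, 2), (16464, 9), (16128, 6)], []), ([], [(19320, 1), (19824, 9), (19656, 4), (19488, 5)], [])]⟩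

/-- group -/
noncomputable def tabFiveg40 : Grp :=
  ⟨8, 4, 20832, 35448, [(0, 2), (168, 0), (336, 0), (504, 0), (672, 0), (6216, 1), (8400, 0), (9744, 1), (12096, 1), (12264, 1)],
   [(0, 1), (3024, 0), (3192, 0), (3360, 0), (3528, 0), (10920, 1), (13608, 0), (15456, 1), (18648, 1), (18816, 1)],
   [([], [(168, 12)], []), ([(3696, 12)], [], []), ([(3864, 12)], [], []), ([(4032, 12)], [], []), ([(4200, 12)], [], []), ([], [(11256, 12), (11088, 4)], []), ([(13944, 12), (13776, 4)], [], []), ([], [(15624, 1), (15960, 12), (15792, 5)], []), ([], [(19320, 12), (18984, 8)], []), ([], [(18984, 2), (19488, 12), (19152, 6)], [])]⟩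

/-- group -/
noncomputable def tabFiveg41 : Grp :=
  ⟨8, 5, 23352, 41328, [(0, 1), (2016, 0), (2184, 0), (7056, 1), (9408, 1)],
   [(0, 1), (2520, 0), (2688, 0), (9408, 1), (12600, 1)],
   [([], [(168, 15)], []), ([(2856, 15)], [], []), ([(3024, 15)], [], []), ([], [(9744, 15), (9576, 4)], []), ([], [(12768, 1), (13104, 15), (12936, 5)], [])]⟩

/-- group -/
noncomputable def tabFiveg42 : Grp :=
  ⟨8, 6, 26880, 46200, [(0, 1), (2184, 0), (5712, 1)],
   [(0, 1), (2688, 0), (7560, 1)],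
   [([], [(168, 18)], []), ([(2856, 18)], [], []), ([], [(7896, 18), (7728, 4)], [])]⟩

/-- group -/
noncomputable def tabFiveg43 : Grp :=
  ⟨8, 7, 30240, 50568, [(0, 1)],
   [(0, 1)],
   [([], [(168, 21)], [])]⟩

/-- group -/
noncomputable def tabFiveg44 : Grp :=
  ⟨8, 8, 32424, 53592, [(0, 1)],
   [(0, 1)],
   [([], [(168, 24)], [])]⟩

/-- group -/
noncomputable def tabFiveg45 : Grp :=
  ⟨9, 0, 36288, 57792, [(17304, 0), (17472, 0), (17640, 0), (17808, 0), (17976, 0), (18144, 0), (18312, 0), (18480, 0), (18648, 0), (18816, 0), (18984, 0), (19152, 0), (19320, 0), (19488, 0), (19656, 0), (19824, 0), (19992, 0), (20160, 0), (20328, 0), (20496, 0), (20664, 0), (20832, 0), (12600, 1), (12768, 1), (12936, 1), (13104, 1), (13272, 1), (13440, 1), (13608, 1), (13776, 1), (13944, 1), (12096, 0), (12264, 0), (7728, 1), (8064, 1), (8400, 1), (8736, 1), (9072, 1), (9240, 1), (9408, 1), (2520, 1), (3192, 1), (3696, 1), (4200, 1), (4536, 1), (1680, 0), (1848,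 0), (2688, 1), (3360, 1), (3864, 1), (4368, 1), (4704, 1), (4872, 1), (2016, 0), (0, 1), (840, 1), (6216, 1), (7056, 1), (9576, 0), (6384, 1), (7224, 1), (6552, 1), (7392, 1), (11592, 1), (11928, 1), (16464, 1), (16632, 1), (17136, 1)],
   [(23352, 0), (23520, 0), (23688, 0), (23856, 0), (24024, 0), (24192, 0), (24360, 0), (24528, 0), (24696, 0), (24864, 0), (25032, 0), (25200, 0), (25368, 0), (25536, 0), (25704, 0), (25872, 0), (26040, 0), (26208, 0), (26376, 0), (26544, 0), (26712, 0), (26880, 0), (14784, 1), (15120, 1), (15456, 1), (15792, 1), (16128, 1), (16464, 1), (16800, 1), (13776, 0), (13944, 0), (14280, 0), (14448, 0), (7896, 1), (8568, 1), (9240, 1), (9744, 1), (10248, 1), (10752, 1), (7056, 0), (0, 1), (1008, 1), (1848, 1), (2520, 2), (2688, 0), (2856, 0), (3024, 0), (168, 1), (1176, 1), (2016, 1), (2688, 1), (3192, 2), (3360, 0), (3528, 0), (5040, 1), (6216, 1), (12768, 1), (13776, 1), (17136, 0), (12936, 1), (13944, 1), (13104, 1),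 (14112, 1), (19488, 1), (19824, 1), (25536, 1), (25704, 1), (26208, 1)],
   [([], [], []), ([], [], []), ([], [], []), ([], [], []), ([], [], []), ([], [], []), ([], [], []), ([], [], []), ([], [], []), ([], [], []), ([], [], []), ([], [], []), ([], [], []), ([], [], []), ([], [], []), ([], [], []), ([], [], []), ([], [], []), ([], [], []), ([], [], []), ([], [], []), ([], [], []), ([], [(14952, 4)], []), ([], [(15288, 4)], []), ([], [(15624, 4)], []), ([], [(15960, 4)], []), ([], [(16296, 4)], []), ([], [(16632, 4)], []), ([], [(16968, 4)], []), ([], [(17136, 4)], []), ([], [(17304, 4)], []), ([], [(17472, 4)], []), ([], [(17640, 4)], []), ([], [(8064, 1), (8232, 5)], []), ([], [(8736, 1), (8904, 5)], []), ([], [(9408, 1), (9576, 5)], []), ([], [(9912, 1), (10080, 5)], []), ([], [(10416, 1), (10584, 5)], []), ([], [(10920, 1), (11088, 5)], []), ([], [(11256, 1), (11424, 5)], []), ([], [(336, 8)], []), ([], [(1344, 8)], []), ([], [(2184, 8)], []),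 ([], [(2856, 8)], []), ([], [(3360, 8)], []), ([], [], [(3696, 8)]), ([(3864, 8)], [], []), ([], [(336, 2), (504, 6)], []), ([], [(1344, 2), (1512, 6)], []), ([], [(2184, 2), (2352, 6)], []), ([], [(2856, 2), (3024, 6)], []), ([], [(3360, 2), (3528, 6)], []), ([], [(3864, 6)], [(3696, 2)]), ([(3864, 2)], [], [(4032, 6)]), ([], [(5376, 1), (5712, 4), (5544, 5)], []), ([], [(6552, 1), (6888, 4), (6720, 5)], []), ([], [(13272, 12)], []), ([], [(14280, 12)], []), ([(17472, 12)], [], []), ([], [(13272, 2), (13608, 4), (13440, 6)], []), ([], [(14280, 2), (14616, 4), (14448, 6)], []), ([], [(13272, 2), (13608, 10)], []), ([], [(14280, 2), (14616, 10)], []), ([], [(19992, 1), (20328, 8), (20160, 5)], []), ([], [(20328, 2), (20160, 1), (20664, 5), (20496, 6)], []), ([], [(26376, 16)], []), ([], [(26376, 2), (26712, 8), (26544, 6)], []), ([], [(26712, 4), (26880, 12)], [])]⟩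

/-- group -/
noncomputable def tabFiveg46 : Grp :=
  ⟨9, 1, 35952, 57624, [(14616, 0), (14784, 0), (14952, 0), (15120, 0), (15288, 0), (15456, 0), (15624, 0), (15792, 0), (15960, 0), (16128, 0), (16296, 0), (16464, 0), (16632, 0), (17136, 0), (17304, 0), (7896, 1), (8232, 1), (8568, 1), (8904, 1), (9240, 1), (7056, 0), (7224, 0), (2688, 1), (3360, 1), (3864, 1), (4368, 1), (1512, 0), (1680, 0), (1848, 0), (0, 1), (840, 1), (4368, 0), (168, 1), (1008, 1), (1512, 1), (6216, 1), (7056, 1), (11424, 1), (11592, 1), (11760, 1), (14448, 0), (16296, 1), (16632, 1)],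
   [(17976, 0), (18144, 0), (18312, 0), (18480, 0), (18648, 0), (18816, 0), (18984, 0), (19152, 0), (19320, 0), (19488, 0), (19656, 0), (19824, 0), (19992, 0), (20496, 0), (20664, 0), (7896, 1), (8568, 1), (9240, 1), (6048, 0), (6216, 0), (6384, 0), (6552, 0), (0, 1), (1008, 1), (1848, 2), (2016, 0), (2184, 0), (2352, 0), (2520, 0), (4872, 1), (6048, 1), (9912, 0), (5040, 1), (6216, 1), (10416, 0), (12600, 1), (16632, 0), (19152, 1), (19320, 1), (19488, 1), (22848, 0), (25200, 1), (25536, 1)],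
   [([], [(21336, 3)], []), ([], [(21504, 3)], []), ([], [(21672, 3)], []), ([], [(21840, 3)], []), ([], [(22008, 3)], []), ([], [(22176, 3)], []), ([], [(22344, 3)], []), ([], [(22512, 3)], []), ([], [(22680, 3)], []), ([], [(22848, 3)], []), ([], [(23016, 3)], []), ([], [(23184, 3)], []), ([], [(23352, 3)], []), ([(21000, 3)], [], []), ([(21168, 3)], [], []), ([], [(8232, 3), (8064, 4)], []), ([], [(8904, 3), (8736, 4)], []), ([], [(9576, 3), (9408, 4)], []), ([], [(10080, 3), (9912, 4)], []), ([], [(10584, 3), (10416, 4)], []), ([], [(11088, 3), (10920, 4)], []), ([(7224, 4)], [(11424, 3)], []), ([], [(168, 1), (504, 3), (336, 5)], []), ([], [(1176, 1), (1512, 3), (1344, 5)], []), ([], [(2016, 1), (2352, 3), (2184, 5)], []), ([], [(3024, 3), (2856, 5)], [(2688, 1)]), ([(2856, 1)], [(3528, 3)], [(3360, 5)]), ([(3024, 1), (3528, 5)], [], [(3864, 3)]), ([(3192, 1), (4032, 3), (3696, 5)], [], []), ([], [(5544, 3), (5208, 8)], []), ([], [(6720, 3),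 (6384, 8)], []), ([(10920, 8)], [(7392, 3)], []), ([], [(5208, 2), (5712, 3), (5376, 6)], []), ([], [(6384, 2), (6888, 3), (6552, 6)], []), ([(10920, 2)], [(7560, 3), (7224, 6)], []), ([], [(12936, 1), (13440, 3), (13272, 4), (13104, 5)], []), ([], [(13944, 1), (14448, 3), (14280, 4), (14112, 5)], []), ([], [(20160, 3), (19656, 12)], []), ([], [(19656, 2), (20328, 3), (19992, 4), (19824, 6)], []), ([], [(19656, 2), (20496, 3), (19992, 10)], []), ([(23016, 2), (23352, 10)], [(21000, 3)], []), ([], [(25704, 1), (26544, 3), (26040, 8), (25872, 5)], []), ([], [(26040, 2), (25872, 1), (26880, 3), (26376, 5), (26208, 6)], [])]⟩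

/-- group -/
noncomputable def tabFiveg47 : Grp :=
  ⟨9, 2, 35784, 57456, [(10416, 0), (10584, 0), (10752, 0), (10920, 0), (11088, 0), (11256, 0), (11424, 0), (11592, 0), (11760, 0), (11928, 0), (12096, 0), (12264, 0), (12432, 0), (2688, 1), (3360, 1), (840, 0), (1008, 0), (1176, 0), (1344, 0), (1512, 0), (0, 1), (840, 1), (4032, 0), (4200, 0), (4368, 0), (6048, 1), (9072, 0), (9240, 0), (6216, 1), (9408, 0), (9576, 0), (11256, 1), (13944, 0), (15960, 1), (16128, 1), (16296, 1), (19488, 1), (19824, 1)],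
   [(11928, 0), (12096, 0), (12264, 0), (12432, 0), (12600, 0), (12768, 0), (12936, 0), (13104, 0), (13272, 0), (13440, 0), (13608, 0), (13776, 0), (13944, 0), (0, 1), (1008, 2), (1176, 0), (1344, 0), (1512, 0), (1680, 0), (1848, 0), (4872, 1), (9408, 0), (9576, 0), (9744, 0), (9912, 0), (12432, 1), (16128, 0), (16296, 0), (12600, 1), (16464, 0), (16632, 0), (18984, 1), (22344, 0), (24864, 1), (25032, 1), (25200, 1), (29064, 1), (29400, 1)],
   [([], [(15120, 6)], []), ([], [(15456, 6)], []), ([], [(15792, 6)], []), ([], [(16128, 6)], []), ([], [(16464, 6)], []), ([], [(16800, 6)], []), ([], [(17136, 6)], []), ([(14112, 6)], [], []), ([(14280, 6)], [], []), ([(14448, 6)], [], []), ([(14616, 6)], [], []), ([(14784, 6)], [], []), ([(14952, 6)], [], []), ([], [(336, 6), (168, 4)], []), ([], [(1344, 6), (1176, 4)], []), ([], [(2184, 6)], [(2016, 4)]), ([(2184, 4)], [], [(2856, 6)]), ([(3024, 6), (2352, 4)], [], []), ([(3192, 6), (2520, 4)], [], []),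 ([(3360, 6), (2688, 4)], [], []), ([], [(5040, 1), (5376, 6), (5208, 5)], []), ([], [(6216, 1), (6552, 6), (6384, 5)], []), ([(10080, 1), (11088, 6), (10584, 5)], [], []), ([(10248, 1), (11256, 6), (10752, 5)], [], []), ([(10416, 1), (11424, 6), (10920, 5)], [], []), ([], [(13104, 6), (12768, 8)], []), ([(16800, 8)], [(14112, 6)], []), ([(17472, 6), (16968, 8)], [], []), ([], [(12768, 2), (13272, 6), (12936, 6)], []), ([(16800, 2), (17136, 6)], [(14280, 6)], []), ([(16968, 2), (17640, 6), (17304, 6)], [], []), ([], [(19320, 1), (19824, 6), (19656, 4), (19488, 5)], []), ([(22680, 1), (23184, 6), (23016, 4), (22848, 5)], [], []), ([], [(25872, 6), (25368, 12)], []), ([], [(25368, 2), (26040, 6), (25704, 4), (25536, 6)], []), ([], [(25368, 2), (26208, 6), (25704, 10)], []), ([], [(29568, 1), (30408, 6), (29904, 8), (29736, 5)], []), ([], [(29904, 2), (29736, 1), (30744, 6), (30240, 5), (30072, 6)], [])]⟩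

/-- group -/
noncomputable def tabFiveg48 : Grp :=
  ⟨9, 3, 35616, 61992, [(5712, 0), (5880, 0), (6048, 0), (6216, 0), (6384, 0), (6552, 0), (6720, 0), (6888, 0), (7056, 0), (7224, 0), (0, 1), (3528, 0), (3696, 0), (3864, 0), (4032, 0), (6048, 1), (8904, 0), (9072, 0), (11088, 1), (13776, 0), (11256, 1), (13944, 0), (15792, 1), (19152, 1), (19320, 1), (19488, 1)],
   [(0, 0), (168, 0), (336, 0), (504, 0), (672, 0), (840, 0), (1008, 0), (1176, 0), (1344, 0), (1512, 0), (168, 1), (4200, 0), (4368, 0), (4536, 0), (4704, 0), (7728, 1), (11256, 0), (11424, 0), (14112, 1), (17472, 0), (14280, 1), (17640, 0), (19992, 1), (24024, 1), (24192, 1), (24360, 1)],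
   [([], [(3528, 9)], []), ([], [(4200, 9)], []), ([], [(4872, 9)], []), ([(1680, 9)], [], []), ([(1848, 9)], [], []), ([(2016, 9)], [], []), ([(2184, 9)], [], []), ([(2352, 9)], [], []), ([(2520, 9)], [], []), ([(2688, 9)], [], []), ([], [(504, 9), (336, 4)], []), ([(4872, 4)], [(1680, 9)], []), ([(5544, 9), (5040, 4)], [], []), ([(5712, 9), (5208, 4)], [], []), ([(5880, 9), (5376, 4)], [], []), ([], [(7896, 1), (8232, 9), (8064, 5)], []), ([(11592, 1), (12264, 9), (11928, 5)], [], []), ([(11760, 1), (12432, 9), (12096, 5)], [], []), ([], [(14784, 9), (14448, 8)], []), ([(18144, 9), (17808, 8)], [], []), ([], [(14448, 2), (14952, 9), (14616, 6)], []), ([(17808, 2), (18312, 9), (17976, 6)], [], []), ([], [(20328, 1), (20832, 9), (20664, 4), (20496, 5)], []), ([], [(25032, 9), (24528, 12)], []), ([], [(24528, 2), (25200, 9), (24864, 4), (24696, 6)], []), ([], [(24528, 2), (25368, 9), (24864, 10)], [])]⟩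

/-- group -/
noncomputable def tabFiveg49 : Grp :=
  ⟨9, 4, 35448, 57288, [(0, 0), (168, 0), (336, 0), (504, 0), (672, 0), (840, 0), (1008, 0), (6048, 1), (8736, 0), (8904, 0), (11088, 1), (13776, 0), (15624, 1), (15792, 1), (18984, 1)],
   [(0, 2), (168, 0), (336, 0), (504, 0), (672, 0), (840, 0), (1008, 0), (12264, 1), (15624, 0), (15792, 0), (18648, 1), (22008, 0), (24360, 1), (24528, 1), (28392, 1)],
   [([], [(168, 12)], []), ([], [], [(1176, 12)]), ([(1344, 12)], [], []), ([(1512, 12)], [], []), ([(1680, 12)], [], []), ([(1848, 12)], [], []), ([(2016, 12)], [], []), ([], [(12600, 12), (12432, 4)], []), ([(16296, 12), (15960, 4)], [], []), ([(16464, 12), (16128, 4)], [], []), ([], [(18816, 1), (19152, 12), (18984, 5)], []), ([(22176, 1), (22512, 12), (22344, 5)], [], []), ([], [(25032, 12), (24696, 8)], []), ([], [(24696, 2), (25200, 12), (24864, 6)], []), ([], [(28728, 1), (29232, 12), (29064, 4), (28896, 5)], [])]⟩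

/-- group -/
noncomputable def tabFiveg50 : Grp :=
  ⟨9, 5, 35448, 61992, [(0, 1), (3024, 0), (3192, 0), (3360, 0), (3528, 0), (10920, 1), (13608, 0), (15456, 1), (18648, 1), (18816, 1)],
   [(0, 1), (3528, 0), (3696, 0), (3864, 0), (4032, 0), (13776, 1), (17136, 0), (19488, 1), (23352, 1), (23520, 1)],
   [([], [(168, 15)], []), ([(4200, 15)], [], []), ([(4368, 15)], [], []), ([(4536, 15)], [], []), ([(4704, 15)], [], []), ([], [(14112, 15), (13944, 4)], []), ([(17472, 15), (17304, 4)], [], []), ([], [(19656, 1), (19992, 15), (19824, 5)], []), ([], [(24024, 15), (23688, 8)], []), ([], [(23688, 2), (24192, 15), (23856, 6)], [])]⟩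

/-- group -/
noncomputable def tabFiveg51 : Grp :=
  ⟨9, 6, 41328, 69384, [(0, 1), (2520, 0), (2688, 0), (9408, 1), (12600, 1)],
   [(0, 1), (3192, 0), (3360, 0), (11928, 1), (15792, 1)],
   [([], [(168, 18)], []), ([(3528, 18)], [], []), ([(3696, 18)], [], []), ([], [(12264, 18), (12096, 4)], []), ([], [(15960, 1), (16296, 18), (16128, 5)], [])]⟩

/-- group -/
noncomputable def tabFiveg52 : Grp :=
  ⟨9, 7, 46200, 75600, [(0, 1), (2688, 0), (7560, 1)],
   [(0, 1), (3360, 0), (9408, 1)],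
   [([], [(168, 21)], []), ([(3528, 21)], [], []), ([], [(9744, 21), (9576, 4)], [])]⟩

/-- group -/
noncomputable def tabFiveg53 : Grp :=
  ⟨9, 8, 50568, 81144, [(0, 1)],
   [(0, 1)],
   [([], [(168, 24)], [])]⟩

/-- group -/
noncomputable def tabFiveg54 : Grp :=
  ⟨9, 9, 53592, 84840, [(0, 1)],
   [(0, 1)],
   [([], [(168, 27)], [])]⟩

/-- column -/
noncomputable def tabFivec0 : ℕ × List Blk := (0, [(0, 0, [(0, 2)])])

/-- column -/
noncomputable def tabFivec1 : ℕ × List Blk := (1, [(168, 0, [(1, 1), (168, 2)])])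

/-- column -/
noncomputable def tabFivec2 : ℕ × List Blk := (2, [(168, 0, [(1, 0), (337, 0), (168, 2)])])

/-- column -/
noncomputable def tabFivec3 : ℕ × List Blk := (3, [(504, 0, [(1, 1), (337, 1), (673, 1), (1176, 2)])])

/-- column -/
noncomputable def tabFivec4 : ℕ × List Blk := (4, [(672, 0, [(1, 1), (337, 1), (673, 1), (1177, 1), (1344, 2)])])

/-- column -/
noncomputable def tabFivec5 : ℕ × List Blk := (5, [(336, 0, [(1, 2), (505, 0), (505, 1), (1849, 0), (2017, 0), (1344, 2)])])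

/-- column -/
noncomputable def tabFivec6 : ℕ × List Blk := (6, [(504, 0, [(1, 0), (673, 0), (337, 0), (2185, 0), (2353, 0), (1681, 0), (1176, 2)])])

/-- column -/
noncomputable def tabFivec7 : ℕ × List Blk := (7, [(672, 0, [(1, 0), (673, 0), (337, 0), (2185, 0), (2521, 0), (1681, 0), (1177, 0), (1344, 2)])])

/-- column -/
noncomputable def tabFivec8 : ℕ × List Blk := (8, [(1176, 0, [(1, 1), (1009, 1), (1513, 1), (2353, 1), (3025, 0), (3361, 1), (4201, 1), (4369, 1), (5376, 2)])])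

/-- column -/
noncomputable def tabFivec9 : ℕ × List Blk := (9, [(1344, 0, [(1, 1), (1009, 1), (1513, 1), (2353, 1), (3025, 0), (3361, 1), (4201, 1), (4537, 1), (5377, 1), (5712, 2)])])

/-- column -/
noncomputable def tabFivec10 : ℕ × List Blk := (10, [(1512, 0, [(1, 1), (1009, 1), (1513, 1), (2353, 1), (2521, 1), (3361, 1), (4201, 1), (4705, 1), (5377, 1), (5713, 1), (5880, 2)])])

/-- column -/
noncomputable def tabFivec11 : ℕ × List Blk := (11, [(840, 0, [(1, 1), (841, 2), (1345, 1), (2689, 0), (2857, 0), (2689, 1), (3697, 1), (3865, 1), (6721, 0), (6889, 0), (7057, 0), (5712, 2)])])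

/-- column -/
noncomputable def tabFivec12 : ℕ × List Blk := (12, [(1008, 0, [(1, 1), (841, 1), (1345, 1), (3193, 1), (3361, 1), (2689, 1), (3697, 1), (4033, 1), (7729, 1), (7897, 1), (8065, 1), (5713, 1), (6048, 2)])])

/-- column -/
noncomputable def tabFivec13 : ℕ × List Blk := (13, [(840, 0, [(1, 0), (1345, 0), (841, 2), (3697, 0), (3865, 0), (2689, 0), (2689, 1), (2857, 1), (8401, 0), (8569, 0), (8737, 0), (6721, 0), (6889, 0), (5712, 2)])])

/-- column -/
noncomputable def tabFivec14 : ℕ × List Blk := (14, [(1008, 0, [(1, 0), (1345, 0), (841, 0), (3697, 0), (4033, 0), (2689, 0), (3193, 0), (3361, 0), (8401, 0), (8737, 0), (9073, 0), (6721, 0), (7057, 0), (5713, 0), (6048, 2)])])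

/-- column -/
noncomputable def tabFivec15 : ℕ × List Blk := (15, [(1176, 0, [(1, 0), (1513, 0), (1009, 0), (4201, 0), (4369, 0), (3361, 0), (2353, 0), (3025, 1), (9241, 0), (9409, 0), (9577, 0), (8065, 0), (8233, 0), (6385, 0), (7561, 1), (5376, 2)])])

/-- column -/
noncomputable def tabFivec16 : ℕ × List Blk := (16, [(1344, 0, [(1, 0), (1513, 0), (1009, 0), (4201, 0), (4537, 0), (3361, 0), (2353, 0), (3025, 1), (9241, 0), (9577, 0), (9913, 0), (8065, 0), (8401, 0), (6385, 0), (7561, 1), (5377, 0), (5712, 2)])])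

/-- column -/
noncomputable def tabFivec17 : ℕ × List Blk := (17, [(1512, 0, [(1, 0), (1513, 0), (1009, 0), (4201, 0), (4705, 0), (3361, 0), (2353, 0), (2521, 0), (9241, 0), (9745, 0), (10417, 0), (8065, 0), (8569, 0), (6385, 0), (7561, 1), (5377, 0), (5713, 0), (5880, 2)])])

/-- column -/
noncomputable def tabFivec18 : ℕ × List Blk := (18, [(2688, 0, [(1, 1), (1849, 1), (2689, 1), (4873, 1), (6049, 0), (6553, 1), (7729, 1), (7897, 1), (9409, 1), (10921, 0), (11089, 0), (11929, 1), (13441, 0), (14281, 1), (14449, 1), (15961, 1), (16129, 1), (16297, 1), (18144, 2)])])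

/-- column -/
noncomputable def tabFivec19 : ℕ × List Blk := (19, [(2856, 0, [(1, 1), (1849, 1), (2689, 1), (4873, 1), (6049, 0), (6553, 1), (7729, 1), (8065, 1), (9409, 1), (11089, 0), (11257, 0), (11929, 1), (13441, 0), (14281, 1), (14617, 1), (15961, 1), (16297, 1), (16633, 1), (18145, 1), (18816, 2)])])

/-- column -/
noncomputable def tabFivec20 : ℕ × List Blk := (20, [(3024, 0, [(1, 1), (1849, 1), (2689, 1), (4873, 1), (6049, 0), (6553, 1), (7729, 1), (8233, 1), (9409, 1), (9913, 1), (11257, 0)]), (14952, 11, [(1, 1), (1513, 0), (2353, 1), (2857, 1), (4033, 1), (4537, 1), (5209, 1), (6217, 1), (6889, 1), (7392, 2)])])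

/-- column -/
noncomputable def tabFivec21 : ℕ × List Blk := (21, [(3192, 0, [(1, 1), (1849, 1), (2689, 1), (4873, 1), (5209, 1), (6553, 1), (7729, 1), (8401, 1), (9409, 1), (9913, 1), (11257, 0)]), (15120, 11, [(1, 1), (1513, 0), (2353, 1), (3025, 1), (4033, 1), (4705, 1), (5209, 1), (6217, 1), (6889, 1), (7393, 1), (7728, 2)])])

/-- column -/
noncomputable def tabFivec22 : ℕ × List Blk := (22, [(3360, 0, [(1, 1), (1849, 1), (2689, 1), (4873, 1), (5209, 1), (6553, 1), (7729, 1), (8401, 1), (9409, 1), (9913, 1), (10081, 1), (11929, 1)]), (16800, 12, [(1, 0), (841, 1), (1513, 1), (2521, 1), (3193, 1), (3865, 1), (4705, 1), (5377, 1), (5881, 1), (6217, 1), (6384, 2)])])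

/-- column -/
noncomputable def tabFivec23 : ℕ × List Blk := (23, [(2184, 0, [(1, 1), (1345, 1), (2353, 1), (4369, 2), (4537, 0), (5377, 1), (7057, 1), (7225, 1), (9913, 0), (10081, 0), (10249, 0), (9913, 1)]), (13608, 12, [(1, 0), (1009, 1), (1177, 1), (3361, 1), (3529, 1), (3697, 1), (9745, 0), (9913, 0), (10081, 0), (10249, 0), (10417, 0), (7224, 2)])])

/-- column -/
noncomputable def tabFivec24 : ℕ × List Blk := (24, [(2352, 0, [(1, 1), (1345, 1), (2353, 1), (4369, 1), (4705, 2), (5377, 1), (7057, 1), (7393, 1), (11257, 1), (11593, 1), (10585, 0), (9913, 1), (11593, 0)]), (14784, 13, [(1, 1), (337, 1), (2353, 1), (2689, 1), (3025, 1), (10585, 1), (10921, 1), (11257, 1), (9745, 0), (9913, 0), (6217, 1), (6888, 2)])])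

/-- column -/
noncomputable def tabFivec25 : ℕ × List Blk := (25, [(2520, 0, [(1, 1), (1345, 1), (2353, 1), (4369, 1), (4705, 1), (5377, 1), (7057, 1), (7561, 1), (11257, 1), (11593, 1), (11761, 1), (9913, 1), (10417, 1)]), (14952, 13, [(1, 1), (505, 1), (2353, 1), (2857, 1), (3529, 1), (10585, 1), (10921, 1), (11257, 1), (11425, 1), (11593, 1), (6217, 1), (6889, 1), (7392, 2)])])

/-- column -/
noncomputable def tabFivec26 : ℕ × List Blk := (26, [(1680, 0, [(1, 2), (1849, 0), (1849, 1), (5881, 0), (6049, 0), (4873, 2), (5881, 1), (6049, 1), (12937, 0), (13105, 0), (13273, 0), (10417, 0), (10585, 0), (10417, 1)]), (12264, 14, [(1, 1), (2353, 1), (2521, 1), (2689, 1), (14617, 0), (14785, 0), (14953, 0), (15121, 0), (15289, 0), (11089, 0), (11257, 0), (11425, 0), (8568, 2)])])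

/-- column -/
noncomputable def tabFivec27 : ℕ × List Blk := (27, [(1848, 0, [(1, 1), (2353, 1), (1849, 1), (6889, 1), (7057, 1), (4873, 1), (5881, 1), (6217, 1), (14281, 1), (14449, 1), (14617, 1), (11761, 1), (12097, 1), (10417, 1)]), (12600, 14, [(1, 1), (2185, 1), (2521, 1), (2857, 1), (16465, 1), (16633, 1), (16801, 1), (16969, 1), (17137, 1), (12769, 1), (13105, 1), (13441, 1), (8401, 1), (9072, 2)])])

/-- column -/
noncomputable def tabFivec28 : ℕ × List Blk := (28, [(1848, 0, [(1, 0), (1849, 0), (2353, 0), (5881, 0), (6217, 0), (4873, 0), (6889, 0), (7057, 0), (12937, 0), (13273, 0), (13609, 0), (10417, 0), (10753, 0), (11761, 0), (12097, 0)]), (16128, 15, [(1, 0), (169, 0), (337, 0), (10921, 0), (11257, 0), (11593, 0), (11929, 0), (12097, 0), (7393, 0), (7729, 0), (8065, 0), (4873, 0), (5209, 0), (5544, 2)])])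

/-- column -/
noncomputable def tabFivec29 : ℕ × List Blk := (29, [(2016, 0, [(1, 2), (2353, 1), (2353, 0), (6889, 1), (6385, 0), (5041, 2), (6889, 0), (6385, 1), (14281, 1), (14617, 1), (13777, 0), (11929, 1), (11089, 0), (11929, 0), (11089, 1)]), (15792, 15, [(505, 0), (841, 0), (1, 1), (13441, 1), (13777, 1), (14113, 1), (12769, 0), (12937, 0), (9913, 1), (8737, 0), (9073, 0), (5881, 2), (6217, 0), (6217, 1), (7056, 2)])])

/-- column -/
noncomputable def tabFivec30 : ℕ × List Blk := (30, [(2184, 0, [(1, 0), (2353, 0), (1345, 0), (7057, 0), (7225, 0), (5377, 0), (4369, 2), (4537, 1), (14785, 0), (14953, 0), (15121, 0), (12433, 0), (12601, 0), (9913, 0), (11425, 1), (9913, 1)]), (12264, 16, [(1, 1), (169, 1), (17977, 0), (18145, 0), (18313, 0), (18481, 0), (18649, 0), (14617, 0), (14785, 0), (14953, 0), (11089, 0), (11257, 0), (13105, 1), (13441, 1), (8568, 2)])])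

/-- column -/
noncomputable def tabFivec31 : ℕ × List Blk := (31, [(2352, 0, [(1, 0), (2353, 0), (1345, 0), (7057, 0), (7393, 0), (5377, 0), (4369, 0), (4705, 2), (14785, 0), (15121, 0), (15457, 0), (12433, 0), (12769, 0), (9913, 0), (11593, 1), (11257, 0)]), (12936, 16, [(1009, 0), (1, 1), (17473, 0), (17809, 0), (18145, 0), (18481, 0), (18649, 0), (14113, 0), (14449, 0), (14785, 0), (10585, 0), (10921, 0), (12769, 1), (11593, 0), (8065, 0), (8736, 2)])])

/-- column -/
noncomputable def tabFivec32 : ℕ × List Blk := (32, [(2520, 0, [(1, 0), (2353, 0), (1345, 0), (7057, 0), (7561, 0), (5377, 0), (4369, 0), (4705, 0), (14785, 0), (15289, 0), (15961, 0), (12433, 0), (12937, 0), (9913, 0), (10417, 0), (11257, 0), (11593, 0)]), (14280, 17, [(1, 0), (16297, 0), (16801, 0), (17473, 0), (17641, 0), (17977, 0), (12937, 0), (13441, 0), (14113, 0), (9409, 0), (9913, 0), (11761, 1), (10585, 0), (6889, 0), (7561, 0), (8064, 2)])])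

/-- column -/
noncomputable def tabFivec33 : ℕ × List Blk := (33, [(2688, 0, [(1, 0), (2689, 0), (1849, 0), (7729, 0), (7897, 0), (6553, 0), (4873, 0), (6049, 1), (15961, 0), (16129, 0), (16297, 0), (14281, 0), (14449, 0), (11929, 0), (13441, 1), (9409, 0), (10921, 1)]), (13776, 17, [(1, 1), (18649, 0), (18817, 0), (18985, 0), (19153, 0), (19321, 0), (16465, 0), (16633, 0), (16801, 0), (13105, 0), (13273, 0), (15289, 1), (15457, 1), (9577, 0), (11593, 1), (11761, 1), (7056, 2)])])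

/-- column -/
noncomputable def tabFivec34 : ℕ × List Blk := (34, [(2856, 0, [(1, 0), (2689, 0), (1849, 0), (7729, 0), (8065, 0), (6553, 0), (4873, 0), (6049, 1), (15961, 0), (16297, 0), (16633, 0), (14281, 0), (14617, 0), (11929, 0), (13441, 1), (9409, 0), (11089, 1), (11257, 1)]), (21000, 18, [(11593, 0), (11929, 0), (12265, 0), (12601, 0), (12769, 0), (9409, 0), (9745, 0), (10081, 0), (6049, 0), (6385, 0), (8233, 1), (8569, 1), (2521, 0), (4705, 1), (4873, 1), (1, 0), (672, 2)])])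

/-- column -/
noncomputable def tabFivec35 : ℕ × List Blk := (35, [(3024, 0, [(1, 0), (2689, 0), (1849, 0), (7729, 0), (8233, 0), (6553, 0), (4873, 0), (6049, 1), (15961, 0), (16465, 0), (17137, 0), (14281, 0), (14785, 0), (11929, 0), (13441, 1), (9409, 0), (9913, 0), (11257, 1)]), (21168, 18, [(11593, 0), (12097, 0), (12769, 0), (12937, 0), (13273, 0), (9409, 0), (9913, 0), (10585, 0), (6049, 0), (6553, 0), (8233, 1), (8737, 1), (2521, 0), (4873, 1), (5041, 1), (1, 0), (673, 0), (1176, 2)])])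

/-- column -/
noncomputable def tabFivec36 : ℕ × List Blk := (36, [(3192, 0, [(1, 0), (2689, 0), (1849, 0), (7729, 0), (8401, 0), (6553, 0), (4873, 0), (5209, 0), (15961, 0), (16633, 0), (17137, 0), (14281, 0), (14953, 0), (11929, 0), (13441, 1), (9409, 0), (9913, 0), (11257, 1), (29737, 0)]), (21336, 19, [(12265, 0), (12769, 0), (13273, 0), (13441, 0), (9409, 0), (10081, 0), (10585, 0), (6049, 0), (6721, 0), (8233, 1), (7225, 0), (2521, 0), (3193, 0), (5041, 1), (1, 0), (673, 0), (1177, 0), (1512, 2)])])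

/-- column -/
noncomputable def tabFivec37 : ℕ × List Blk := (37, [(3360, 0, [(1, 0), (2689, 0), (1849, 0), (7729, 0), (8401, 0), (6553, 0), (4873, 0), (5209, 0), (15961, 0), (16633, 0), (17305, 0), (14281, 0), (14953, 0), (11929, 0), (13441, 1), (9409, 0), (9913, 0), (10081, 0), (29737, 0)]), (21504, 19, [(12265, 0), (12937, 0), (13273, 0), (13777, 0), (9409, 0), (10081, 0), (10753, 0), (6049, 0), (6721, 0), (8233, 1), (7225, 0), (2521, 0), (3193, 0), (5041, 1), (1, 0), (673, 0), (1177, 0), (1513, 0), (1680, 2)])])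

/-- column -/
noncomputable def tabFivec38 : ℕ × List Blk := (38, [(5376, 0, [(1, 1), (3865, 1), (5041, 1), (9241, 1), (10753, 0), (11593, 1), (13273, 1), (13441, 1), (17977, 1), (19993, 0), (20161, 0), (21505, 1), (23689, 0), (24865, 1), (25033, 1), (27049, 1), (27217, 1), (27385, 1), (30073, 1), (33097, 0)]), (38640, 20, [(1, 0), (169, 0), (337, 0), (2689, 1), (5209, 0), (5377, 0), (7561, 1), (10249, 0), (7729, 1), (10417, 0), (11929, 1), (12097, 1), (12265, 1), (14953, 1), (15121, 1), (15289, 1), (15457, 1), (15625, 1), (18648, 2)])])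

/-- column -/
noncomputable def tabFivec39 : ℕ × List Blk := (39, [(5544, 0, [(1, 1), (3865, 1), (5041, 1), (9241, 1), (10753, 0), (11593, 1), (13273, 1), (13609, 1), (17977, 1), (20161, 0), (20329, 0), (21505, 1), (23689, 0), (24865, 1), (25201, 1), (27049, 1), (27385, 1), (27721, 1), (30073, 1), (33601, 0)]), (39312, 20, [(1, 0), (169, 0), (337, 0), (2185, 1), (4873, 0), (5041, 0), (7057, 1), (9745, 0), (7393, 1), (10081, 0), (11425, 1), (11761, 1), (12097, 1), (14449, 1), (14785, 1), (15121, 1), (15457, 1), (15625, 1), (18145, 1), (19152, 2)])])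

/-- column -/
noncomputable def tabFivec40 : ℕ × List Blk := (40, [(5712, 0, [(1, 1), (3865, 1), (5041, 1), (9241, 1), (10753, 0), (11593, 1), (13273, 1), (13777, 1), (17977, 1), (20329, 0), (20497, 0), (21505, 1), (23689, 0), (24865, 1)]), (31080, 14, [(1, 1), (1681, 1), (2185, 1), (2857, 1), (4705, 1), (5545, 1), (8737, 0), (8905, 0), (9073, 0), (10585, 1), (13441, 0), (13609, 0), (15457, 1), (18145, 0)]), (47040, 28, [(1, 1), (2689, 0), (3865, 1), (4369, 1), (5041, 1), (6889, 1), (7393, 1), (8065, 1), (8233, 1), (8569, 1), (10585, 1), (11593, 1), (12432, 2)])])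

/-- column -/
noncomputable def tabFivec41 : ℕ × List Blk := (41, [(5880, 0, [(1, 1), (3865, 1), (5041, 1), (9241, 1), (10753, 0), (11593, 1), (13273, 1), (13945, 1), (17977, 1), (18649, 1), (20497, 0), (21505, 1), (23689, 0), (24865, 1)]), (31416, 14, [(1, 1), (1513, 1), (2185, 1), (2689, 1), (4537, 1), (5377, 1), (8905, 0), (9073, 0), (9241, 0), (10417, 1), (13441, 0), (13609, 0), (15289, 1), (17977, 0)]), (47376, 28, [(1, 1), (2689, 0), (3697, 1), (4369, 1), (4873, 1), (6721, 1), (7393, 1), (7897, 1), (8401, 1), (8569, 1), (10417, 1), (11425, 1), (12265, 1), (12936, 2)])])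

/-- column -/
noncomputable def tabFivec42 : ℕ × List Blk := (42, [(6048, 0, [(1, 1), (3865, 1), (5041, 1), (9241, 1), (10753, 0), (11593, 1), (13273, 1), (13945, 1), (17977, 1), (18649, 1), (20497, 0), (21505, 1), (23689, 0), (24865, 1), (25537, 1)]), (33096, 15, [(1, 1), (673, 1), (1345, 1), (3025, 1), (3865, 1), (4369, 1), (7729, 0), (7897, 0), (8905, 1), (12097, 0), (12265, 0), (13777, 1), (16465, 0), (14449, 1), (17137, 0)]), (51240, 30, [(1, 1), (673, 1), (1345, 1), (3025, 1), (3697, 1), (4369, 1), (4705, 1), (5209, 1), (6721, 1), (7729, 1), (8569, 1), (9241, 1), (9744, 2)])])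

/-- column -/
noncomputable def tabFivec43 : ℕ × List Blk := (43, [(6216, 0, [(1, 1), (3865, 1), (5041, 1), (9241, 1), (9577, 1), (11593, 1), (13273, 1), (14113, 1), (17977, 1), (18649, 1), (20497, 0), (21505, 1), (23689, 0), (24865, 1), (25705, 1)]), (33264, 15, [(1, 1), (841, 1), (1681, 1), (3025, 1), (3865, 1), (4369, 1), (4705, 1), (7897, 0), (8905, 1), (9745, 1), (12265, 0), (13777, 1), (16465, 0), (14617, 1), (15121, 1)]), (51408, 30, [(1, 1), (841, 1), (1681, 1), (3025, 1), (3865, 1), (4705, 1), (5209, 1), (5545, 1), (6721, 1), (7729, 1), (8569, 1), (9241, 1), (9745, 1), (10080, 2)])])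

/-- column -/
noncomputable def tabFivec44 : ℕ × List Blk := (44, [(6384, 0, [(1, 1), (3865, 1), (5041, 1), (9241, 1), (9577, 1), (11593, 1), (13273, 1), (14113, 1), (17977, 1), (18649, 1), (18817, 1), (21505, 1), (23689, 0), (24865, 1), (25705, 1)]), (33432, 15, [(1, 1), (841, 1), (1681, 1), (3025, 1), (3865, 1), (4369, 1), (4705, 1), (4873, 1), (8905, 1), (9745, 1), (12265, 0), (13777, 1), (16465, 0), (14617, 1), (15121, 1)]), (51576, 30, [(1, 1), (841, 1), (1681, 1), (3025, 1), (3865, 1), (4705, 1), (5209, 1), (5545, 1), (6721, 1), (7729, 1), (8569, 1), (9241, 1), (9745, 1), (10081, 1), (10248, 2)])])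

/-- column -/
noncomputable def tabFivec45 : ℕ × List Blk := (45, [(4536, 0, [(1, 1), (3025, 1), (4705, 1), (7561, 1), (9073, 0), (10081, 1), (12433, 1), (12601, 1), (16297, 2), (16465, 0), (16633, 0), (18817, 1), (20833, 0), (22345, 1), (22513, 1), (25705, 1)]), (30408, 16, [(1, 1), (169, 1), (5041, 0), (5209, 0), (5377, 0), (5545, 0), (5713, 0), (5041, 1), (8065, 0), (8233, 0), (10921, 1), (13441, 0), (11089, 1), (13777, 0), (15793, 1), (15961, 1)]), (46536, 32, [(1, 1), (4033, 1), (4201, 1), (4369, 1), (4537, 1), (4705, 1), (15457, 0), (15625, 0), (15793, 0), (15961, 0), (16129, 0), (16297, 0), (16465, 0), (10752, 2)])])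

/-- column -/
noncomputable def tabFivec46 : ℕ × List Blk := (46, [(4704, 0, [(1, 1), (3025, 1), (4705, 1), (7561, 1), (9241, 0), (10081, 1), (12433, 1), (12769, 1), (16297, 1), (16969, 2), (17137, 0), (18817, 1), (21001, 0), (22345, 1), (22681, 1), (25705, 1)]), (30744, 16, [(1, 1), (337, 1), (7729, 1), (8401, 1), (5881, 0), (6049, 0), (6217, 0), (4873, 1), (8401, 0), (8569, 0), (10753, 1), (13441, 0), (11089, 1), (14113, 0), (15625, 1), (15961, 1)]), (47040, 32, [(1, 1), (3697, 1), (4033, 1), (4369, 1), (4705, 1), (4873, 1), (18481, 1), (19153, 1), (19825, 1), (16633, 0), (16801, 0), (16969, 0), (17137, 0), (10417, 1), (11424, 2)])])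

/-- column -/
noncomputable def tabFivec47 : ℕ × List Blk := (47, [(4872, 0, [(1, 1), (3025, 1), (4705, 1), (7561, 1), (8065, 1), (10081, 1), (12433, 1), (12937, 1), (16297, 1), (16969, 1), (17473, 2), (18817, 1), (21169, 0), (22345, 1), (22849, 1), (25705, 1)]), (31080, 16, [(1, 1), (673, 1), (7561, 1), (8233, 1), (8737, 1), (9241, 1), (6385, 0), (4705, 1), (5545, 1), (8737, 0), (10585, 1), (13441, 0), (11089, 1), (11929, 1), (15457, 1), (15961, 1)]), (47712, 32, [(1, 1), (3193, 1), (3697, 1), (4369, 1), (4537, 1), (4873, 1), (17977, 1), (18649, 1), (19321, 1), (19825, 1), (20329, 1), (20833, 1), (17137, 0), (9913, 1), (10921, 1), (11760, 2)])])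

/-- column -/
noncomputable def tabFivec48 : ℕ × List Blk := (48, [(5040, 0, [(1, 1), (3025, 1), (4705, 1), (7561, 1), (8065, 1), (10081, 1), (12433, 1), (13105, 1), (16297, 1), (16969, 1), (17473, 1), (18817, 1), (19489, 1), (22345, 1), (23017, 1), (25705, 1), (26377, 1)]), (31920, 17, [(1, 1), (6889, 1), (7561, 1), (8065, 1), (8569, 1), (8905, 1), (4033, 1), (4873, 1), (8401, 0), (9913, 1), (12937, 0), (10585, 1), (11425, 1), (14785, 1), (15457, 1), (15961, 1), (19153, 1)]), (51744, 34, [(1, 1), (505, 1), (1009, 1), (1177, 1), (14113, 1), (14785, 1), (15457, 1), (15961, 1), (16465, 1), (16969, 1), (17305, 1), (6049, 1), (7057, 1), (7897, 1), (8568, 2)])])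

/-- column -/
noncomputable def tabFivec49 : ℕ × List Blk := (49, [(5208, 0, [(1, 1), (3025, 1), (4705, 1), (7561, 1), (8065, 1), (10081, 1), (12433, 1), (13105, 1), (16297, 1), (16969, 1), (17473, 1), (18817, 1), (19489, 1), (22345, 1), (23017, 1), (25705, 1), (26377, 1)]), (32256, 17, [(1, 1), (6721, 1), (7393, 1), (7897, 1), (8401, 1), (8737, 1), (3865, 1), (4705, 1), (5209, 1), (9745, 1), (12937, 0), (10417, 1), (11257, 1), (14617, 1), (15289, 1), (15961, 1), (18985, 1)]), (51912, 34, [(1, 1), (673, 1), (1009, 1), (1513, 1), (14113, 1), (14785, 1), (15457, 1), (15961, 1), (16465, 1), (16969, 1), (17305, 1), (6049, 1), (7057, 1), (7897, 1), (8569, 1), (9072, 2)])])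

/-- column -/
noncomputable def tabFivec50 : ℕ × List Blk := (50, [(3528, 0, [(1, 1), (3025, 2), (4033, 1), (8569, 0), (8737, 0), (8569, 1), (11089, 1), (11257, 1), (19825, 0), (19993, 0), (20161, 0), (17305, 2), (17473, 0), (19825, 1), (19993, 1), (23353, 1), (23521, 1)]), (27216, 17, [(1, 1), (14113, 0), (14281, 0), (14449, 0), (14617, 0), (14785, 0), (8233, 0), (8401, 0), (8569, 0), (8233, 1), (11257, 0), (8401, 1), (11929, 0), (14113, 1), (14281, 1), (14449, 1), (18985, 1)]), (46368, 34, [(1, 1), (169, 1), (337, 1), (505, 1), (23017, 0), (23185, 0), (23353, 0), (23521, 0), (23689, 0), (23857, 0), (24025, 0), (15625, 0), (15793, 0), (15961, 0), (16129, 0), (16297, 0), (10920, 2)])])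

/-- column -/
noncomputable def tabFivec51 : ℕ × List Blk := (51, [(3696, 0, [(1, 1), (3025, 1), (4033, 1), (9913, 1), (10249, 1), (8569, 1), (11089, 1), (11425, 1), (21673, 1), (22009, 1), (22345, 1), (17305, 1), (17977, 2), (19825, 1), (20161, 1), (23353, 1), (23689, 1), (24025, 1)]), (35616, 18, [(8233, 1), (8569, 1), (8905, 1), (9241, 1), (9577, 1), (2857, 1), (3529, 1), (1009, 0), (1, 1), (3529, 0), (337, 1), (1177, 1), (5881, 1), (6217, 1), (6553, 1), (10753, 1), (11089, 1), (11425, 1)]), (47376, 36, [(1, 1), (169, 1), (25201, 1), (25537, 1), (25873, 1), (26209, 1), (26545, 1), (26881, 1), (27217, 1), (18145, 1), (18817, 1), (19489, 1), (16297, 0), (16465, 0), (10081, 1), (11088, 2)])])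

/-- column -/
noncomputable def tabFivec52 : ℕ × List Blk := (52, [(3864, 0, [(1, 1), (3025, 1), (4033, 1), (9913, 1), (10249, 1), (8569, 1), (11089, 1), (11593, 1), (21673, 1), (22009, 1), (22345, 1), (17305, 1), (17977, 1), (19825, 1), (20329, 1), (23353, 1), (23857, 1), (24529, 1)]), (35784, 18, [(8233, 1), (8569, 1), (8905, 1), (9241, 1), (9577, 1), (2857, 1), (3529, 1), (4033, 1), (1, 1), (841, 1), (505, 1), (1345, 1), (5881, 1), (6385, 1), (7057, 1), (10753, 1), (11257, 1), (11929, 1)]), (47880, 36, [(1, 1), (337, 1), (24865, 1), (25201, 1), (25537, 1), (25873, 1), (26209, 1), (26545, 1), (26881, 1), (17809, 1), (18481, 1), (19153, 1), (19657, 1), (20161, 1), (9745, 1), (10753, 1), (11592, 2)])])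

/-- column -/
noncomputable def tabFivec53 : ℕ × List Blk := (53, [(4200, 0, [(1, 0), (2521, 0), (4537, 0), (8065, 0), (8401, 0), (9409, 0), (11929, 0), (12097, 0), (19321, 0), (19657, 0), (19993, 0), (16801, 0), (17137, 0), (21169, 0), (21505, 0), (24865, 0), (25033, 0), (25201, 0)]), (35616, 18, [(5881, 0), (6217, 0), (6553, 0), (6889, 0), (7057, 0), (1, 0), (337, 0), (673, 0), (2857, 0), (3193, 0), (3529, 0), (3865, 0), (8233, 0), (8569, 0), (8905, 0), (13273, 0), (13441, 0), (13609, 0)]), (49392, 36, [(1, 0), (169, 0), (20161, 0), (20497, 0), (20833, 0), (21169, 0), (21337, 0), (21673, 0), (21841, 0), (12769, 0), (13105, 0), (13441, 0), (13777, 0), (13945, 0), (8065, 0), (8401, 0), (8737, 0), (9072, 2)])])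

/-- column -/
noncomputable def tabFivec54 : ℕ × List Blk := (54, [(4368, 0, [(1, 0), (2689, 2), (4537, 0), (9577, 1), (8737, 0), (9577, 0), (11929, 0), (12265, 0), (21337, 1), (20161, 0), (20497, 0), (17305, 2), (17641, 0), (21337, 0), (20161, 1), (24865, 0), (25201, 0), (25537, 0), (39817, 1)]), (36792, 19, [(8065, 1), (6217, 0), (6553, 0), (6721, 0), (2353, 1), (1, 0), (337, 0), (2353, 0), (2689, 0), (1, 1), (3697, 0), (7393, 0), (8065, 0), (6217, 1), (12265, 0), (12601, 0), (12937, 0), (13273, 0), (13441, 0)]), (58464, 38, [(14449, 1), (15121, 1), (15793, 1), (13105, 0), (13273, 0), (13609, 0), (13777, 0), (7729, 1), (5209, 0), (5545, 0), (5881, 0), (6049, 0), (1, 2), (337, 0), (673, 0), (337, 1), (1848, 2)])])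

/-- column -/
noncomputable def tabFivec55 : ℕ × List Blk := (55, [(4032, 0, [(1, 1), (3193, 1), (5041, 0), (10081, 1), (10417, 1), (8905, 1), (12433, 0), (11761, 1), (21841, 1), (22345, 1), (22681, 1), (17809, 1), (18481, 0), (22009, 0), (20833, 1), (25369, 0), (25873, 0), (24865, 1), (40321, 1)]), (36624, 19, [(8401, 1), (8905, 1), (9241, 1), (9409, 1), (2689, 1), (3697, 1), (1009, 0), (1, 1), (3361, 0), (505, 1), (1345, 1), (7897, 0), (6385, 1), (7057, 1), (12601, 0), (13105, 0), (13777, 0), (11761, 1), (12097, 1)]), (58632, 38, [(14449, 1), (15121, 1), (15793, 1), (16297, 1), (16465, 1), (16633, 1), (16801, 1), (7729, 1), (8905, 1), (9913, 1), (6385, 0), (6553, 0), (1, 1), (1009, 0), (1345, 0), (505, 1), (2017, 1), (2856, 2)])])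

/-- column -/
noncomputable def tabFivec56 : ℕ × List Blk := (56, [(3528, 0, [(1, 0), (4033, 0), (3025, 2), (11089, 0), (11257, 0), (8569, 0), (8569, 1), (8737, 1), (23353, 0), (23521, 0), (23689, 0), (19825, 0), (19993, 0), (17305, 2), (17473, 1), (19825, 1), (19993, 1), (20161, 1), (42673, 0)]), (35448, 19, [(10921, 0), (11089, 0), (11257, 0), (11425, 0), (5881, 0), (6049, 0), (6217, 0), (1, 0), (169, 0), (3025, 1), (3697, 1), (1, 1), (169, 1), (337, 1), (5881, 1), (6049, 1), (6217, 1), (6385, 1), (6553, 1)]), (57288, 38, [(18313, 0), (18481, 0), (18649, 0), (18817, 0), (18985, 0), (19153, 0), (19321, 0), (12097, 0), (12265, 0), (12433, 0), (12601, 0), (12769, 0), (4705, 0), (4873, 0), (5041, 0), (8233, 1), (8905, 1), (9577, 1), (0, 2)])])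

/-- column -/
noncomputable def tabFivec57 : ℕ × List Blk := (57, [(4200, 0, [(1, 1), (4537, 1), (2521, 1), (11929, 1), (12097, 1), (9409, 1), (8065, 1), (8401, 1), (24865, 1), (25033, 1), (25201, 1), (21169, 1), (21505, 1), (16801, 1), (17137, 1), (19321, 1), (19657, 1), (19993, 1), (44689, 1), (44857, 1)]), (35616, 20, [(13609, 1), (13777, 1), (13945, 1), (8233, 1), (8569, 1), (8905, 1), (2857, 1), (3529, 1), (3193, 1), (3865, 1), (1, 1), (337, 1), (673, 1), (5881, 1), (6217, 1), (6553, 1), (6889, 1), (7057, 1), (43345, 1), (43513, 1)]), (57456, 40, [(21841, 1), (22009, 1), (22177, 1), (22345, 1), (22513, 1), (15121, 1), (15457, 1), (15793, 1), (16129, 1), (16465, 1), (8065, 1), (8737, 1), (9409, 1), (8401, 1), (9073, 1), (9745, 1), (1, 1), (1008, 2)])])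

/-- column -/
noncomputable def tabFivec58 : ℕ × List Blk := (58, [(3696, 0, [(1, 0), (4033, 0), (3025, 0), (11089, 0), (11425, 0), (8569, 0), (9913, 0), (10249, 0), (23353, 0), (23689, 0), (24025, 0), (19825, 0), (20161, 0), (17305, 0), (17977, 2), (21673, 0), (22009, 0), (22345, 0), (42673, 0), (43009, 0)]), (35616, 20, [(11425, 0), (11761, 0), (11929, 0), (5881, 0), (6217, 0), (6553, 0), (1, 0), (337, 0), (3529, 1), (1177, 0), (2857, 0), (3529, 0), (1009, 1), (8233, 0), (8569, 0), (8905, 0), (9241, 0), (9577, 0), (40153, 0), (40489, 0)]), (57456, 40, [(18985, 0), (19321, 0), (19489, 0), (19825, 0), (19993, 0), (12097, 0), (12433, 0), (12769, 0), (13105, 0), (13273, 0), (4705, 0), (5041, 0), (5377, 0), (8737, 1), (6217, 0), (6553, 0), (1, 0), (337, 0), (1008, 2)])])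

/-- column -/
noncomputable def tabFivec59 : ℕ × List Blk := (59, [(4368, 0, [(1, 1), (4537, 1), (2689, 2), (11929, 1), (12265, 1), (9577, 1), (9577, 0), (8737, 1), (24865, 1), (25201, 1), (25537, 1), (21337, 1), (20161, 0), (17305, 2), (17641, 1), (21337, 0), (20161, 1), (20497, 1), (44689, 1), (45025, 1)]), (36792, 20, [(12937, 1), (13273, 1), (13441, 1), (7393, 1), (8065, 1), (6217, 0), (2353, 1), (1, 0), (2689, 1), (3697, 1), (2353, 0), (1, 1), (337, 1), (7393, 0), (8065, 0), (6217, 1), (6553, 1), (6721, 1), (42337, 1), (42673, 1)]), (58464, 40, [(21337, 1), (21673, 1), (21841, 1), (22177, 1), (22345, 1), (14449, 1), (15121, 1), (15793, 1), (13105, 0), (13273, 0), (7729, 1), (5209, 0), (5545, 0), (8065, 1), (9241, 1), (10249, 1), (1, 2), (337, 0), (337, 1), (1848, 2)])])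

/-- column -/
noncomputable def tabFivec60 : ℕ × List Blk := (60, [(3864, 0, [(1, 0), (4033, 0), (3025, 0), (11089, 0), (11593, 0), (8569, 0), (9913, 0), (10249, 0), (23353, 0), (23857, 0), (24529, 0), (19825, 0), (20329, 0), (17305, 0), (17977, 0), (21673, 0)]), (25872, 16, [(1, 0), (337, 0), (20665, 0), (21169, 0), (21841, 0), (22009, 0), (22345, 0), (15793, 0), (16297, 0), (16969, 0), (9913, 0), (10417, 0), (10753, 0), (11257, 0), (12769, 0), (13441, 0)]), (39816, 32, [(1, 0), (4201, 0), (4537, 0), (4873, 0), (5209, 0), (5545, 0), (36121, 0), (36625, 0), (37297, 0), (37465, 0), (37801, 0), (38305, 0), (38473, 0), (29905, 0), (30409, 0), (31081, 0)]), (57624, 48, [(13441, 0), (13777, 0), (4705, 0), (5209, 0), (5881, 0), (9241, 1), (6385, 0), (7057, 0), (1, 0), (505, 0), (1009, 0), (1513, 0), (1848, 2)])])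

/-- column -/
noncomputable def tabFivec61 : ℕ × List Blk := (61, [(4032, 0, [(1, 0), (5041, 1), (3193, 0), (12433, 1), (11761, 0), (8905, 0), (10081, 0), (10417, 0), (25369, 1), (25873, 1), (24865, 0), (22009, 1), (20833, 0), (17809, 0), (18481, 1), (21841, 0)]), (26376, 16, [(1, 0), (337, 0), (22849, 1), (23353, 1), (24025, 1), (22009, 0), (22345, 0), (18145, 1), (16633, 0), (17305, 0), (10249, 0), (10753, 0), (13609, 1), (11593, 0), (12937, 0), (13945, 0)]), (37632, 32, [(1, 1), (6721, 0), (7393, 0), (7897, 0), (8233, 0), (8401, 0), (41665, 1), (42169, 1), (42841, 1), (43009, 1), (43345, 1), (40993, 0), (41161, 0), (35617, 1), (36625, 1), (34273, 0)]), (58632, 48, [(13441, 0), (13777, 0), (8233, 1), (5377, 0), (6049, 0), (8569, 1), (10081, 1), (6721, 0), (1, 0), (505, 0), (1009, 1), (2017, 0), (1345, 1), (2856, 2)])])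

/-- column -/
noncomputable def tabFivec62 : ℕ × List Blk := (62, [(4536, 0, [(1, 0), (4705, 0), (3025, 0), (12433, 0), (12601, 0), (10081, 0), (7561, 0), (9073, 1), (25705, 0), (25873, 0), (26041, 0), (22345, 0), (22513, 0), (18817, 0), (20833, 1), (16297, 2)]), (21000, 16, [(1, 1), (169, 1), (29569, 0), (29737, 0), (29905, 0), (30073, 0), (30241, 0), (25201, 0), (25369, 0), (25537, 0), (20329, 0), (20497, 0), (22849, 1), (23185, 1), (14449, 0), (17473, 1)]), (35448, 32, [(3193, 1), (1, 1), (169, 1), (337, 1), (505, 1), (673, 1), (45697, 0), (45865, 0), (46033, 0), (46201, 0), (46369, 0), (46537, 0), (46705, 0), (40153, 0), (40321, 0), (40489, 0)]), (57288, 48, [(18817, 0), (18985, 0), (12097, 0), (12265, 0), (12433, 0), (15289, 1), (15625, 1), (15961, 1), (4705, 0), (4873, 0), (8233, 1), (8905, 1), (8401, 1), (9073, 1), (0, 2)])])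

/-- column -/
noncomputable def tabFivec63 : ℕ × List Blk := (63, [(4704, 0, [(1, 0), (4705, 0), (3025, 0), (12433, 0), (12769, 0), (10081, 0), (7561, 0), (9241, 1), (25705, 0), (26041, 0), (26377, 0), (22345, 0), (22681, 0), (18817, 0), (21001, 1), (16297, 0)]), (21672, 16, [(1, 2), (169, 1), (29065, 0), (29401, 0), (29737, 0), (30073, 0), (30241, 0), (24697, 0), (25033, 0), (25369, 0), (19825, 0), (20161, 0), (22513, 1), (23185, 1), (13945, 0), (17473, 1)]), (36624, 32, [(2689, 1), (1849, 0), (2521, 0), (1, 1), (169, 1), (337, 1), (44689, 0), (45025, 0), (45361, 0), (45697, 0), (45865, 0), (46201, 0), (46369, 0), (39145, 0), (39481, 0), (39817, 0)]), (57456, 48, [(19321, 0), (19489, 0), (12097, 0), (12433, 0), (12769, 0), (15457, 1), (16129, 1), (16801, 1), (4705, 0), (5041, 0), (8737, 1), (6217, 0), (8905, 1), (10081, 1), (1, 0), (1008, 2)])])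

/-- column -/
noncomputable def tabFivec64 : ℕ × List Blk := (64, [(4872, 0, [(1, 0), (4705, 0), (3025, 0), (12433, 0), (12937, 0), (10081, 0), (7561, 0), (8065, 0), (25705, 0), (26209, 0), (26881, 0), (22345, 0), (22849, 0), (18817, 0), (21169, 1), (16297, 0), (16969, 0)]), (22344, 17, [(1, 2), (28561, 0), (29065, 0), (29737, 0), (29905, 0), (30241, 0), (24193, 0), (24697, 0), (25369, 0), (19321, 0), (19825, 0), (22177, 1), (20665, 0), (13441, 0), (14281, 0), (17473, 1), (16297, 0)]), (37464, 34, [(1849, 0), (2353, 0), (2857, 0), (1, 1), (44017, 0), (44521, 0), (45193, 0), (45361, 0), (45697, 0), (46201, 0), (46369, 0), (38473, 0), (38977, 0), (39649, 0), (39817, 0), (40153, 0), (32257, 0)]), (57624, 51, [(12601, 0), (13273, 0), (15625, 1), (16633, 1), (14281, 0), (4705, 0), (5209, 0), (9241, 1), (6385, 0), (9409, 1), (10921, 1), (1, 0), (1009, 0), (1848, 2)])])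

/-- column -/
noncomputable def tabFivec65 : ℕ × List Blk := (65, [(5040, 0, [(1, 0), (4705, 0), (3025, 0), (12433, 0), (13105, 0), (10081, 0), (7561, 0), (8065, 0), (25705, 0), (26377, 0), (26881, 0), (22345, 0), (23017, 0), (18817, 0), (19489, 0), (16297, 0), (16969, 0)]), (22512, 17, [(1, 0), (28561, 0), (29233, 0), (29737, 0), (30241, 0), (30409, 0), (24193, 0), (24865, 0), (25369, 0), (19321, 0), (19993, 0), (22345, 1), (20833, 0), (13441, 0), (14281, 0), (17809, 1), (16297, 0)]), (39480, 34, [(1, 0), (505, 0), (1009, 0), (1345, 0), (42169, 0), (42841, 0), (43345, 0), (43849, 0), (44017, 0), (44689, 0), (44857, 0), (36625, 0), (37297, 0), (37801, 0), (38305, 0), (38473, 0), (30409, 0)]), (57792, 51, [(12769, 0), (13273, 0), (15793, 1), (13777, 0), (14281, 0), (4705, 0), (5377, 0), (5881, 0), (6553, 0), (9745, 1), (7225, 0), (1, 0), (1009, 0), (1849, 0), (2520, 2)])])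

/-- column -/
noncomputable def tabFivec66 : ℕ × List Blk := (66, [(5208, 0, [(1, 0), (4705, 0), (3025, 0), (12433, 0), (13105, 0), (10081, 0), (7561, 0), (8065, 0), (25705, 0), (26377, 0), (27049, 0), (22345, 0), (23017, 0), (18817, 0), (19489, 0), (16297, 0), (16969, 0)]), (22680, 17, [(1, 0), (28561, 0), (29233, 0), (29905, 0), (30241, 0), (30745, 0), (24193, 0), (24865, 0), (25537, 0), (19321, 0), (19993, 0), (22513, 1), (20833, 0), (13441, 0), (14281, 0), (14785, 0), (16297, 0)]), (39648, 34, [(1, 0), (505, 0), (1009, 0), (1345, 0), (42169, 0), (42841, 0), (43513, 0), (43849, 0), (44353, 0), (44857, 0), (45025, 0), (36625, 0), (37297, 0), (37969, 0), (38305, 0), (38809, 0), (30409, 0)]), (57960, 51, [(12769, 0), (13441, 0), (15961, 1), (13777, 0), (14449, 0), (4705, 0), (5377, 0), (5881, 0), (6553, 0), (10081, 1), (7225, 0), (1, 0), (1009, 0), (1849, 0), (2521, 0), (3024, 2)])])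

/-- column -/
noncomputable def tabFivec67 : ℕ × List Blk := (67, [(5376, 0, [(1, 0), (5041, 0), (3865, 0), (13273, 0), (13441, 0), (11593, 0), (9241, 0), (10753, 1), (27049, 0), (27217, 0), (27385, 0), (24865, 0), (25033, 0), (21505, 0), (23689, 1), (17977, 0), (19993, 1)]), (25536, 17, [(1, 1), (28057, 0), (28225, 0), (28393, 0), (28561, 0), (28729, 0), (25033, 0), (25201, 0), (25369, 0), (20665, 0), (20833, 0), (23353, 1), (23521, 1), (15793, 0), (18313, 1), (18481, 1), (9913, 0)]), (38472, 34, [(1, 1), (169, 1), (337, 1), (505, 1), (46369, 0), (46537, 0), (46705, 0), (46873, 0), (47041, 0), (47209, 0), (47377, 0), (42673, 0), (42841, 0), (43009, 0), (43177, 0), (43345, 0), (37129, 0)]), (57288, 51, [(18481, 0), (18649, 0), (21673, 1), (21841, 1), (22009, 1), (12097, 0), (12265, 0), (15289, 1), (15625, 1), (15457, 1), (15793, 1), (4705, 0), (8233, 1), (8401, 1), (8569, 1), (8737, 1), (0, 2)])])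

/-- column -/
noncomputable def tabFivec68 : ℕ × List Blk := (68, [(5544, 0, [(1, 0), (5041, 0), (3865, 0), (13273, 0), (13609, 0), (11593, 0), (9241, 0), (10753, 1), (27049, 0), (27385, 0), (27721, 0), (24865, 0), (25201, 0), (21505, 0), (23689, 1), (17977, 0), (20161, 1), (20329, 1)]), (35616, 18, [(18145, 0), (18481, 0), (18817, 0), (19153, 0), (19321, 0), (15121, 0), (15457, 0), (15793, 0), (10753, 0), (11089, 0), (13441, 1), (13777, 1), (5881, 0), (8569, 1), (8737, 1), (1, 0), (3529, 1), (3697, 1)]), (39480, 36, [(1, 1), (169, 1), (45529, 0), (45865, 0), (46201, 0), (46537, 0), (46705, 0), (47041, 0), (47209, 0), (41833, 0), (42169, 0), (42505, 0), (42841, 0), (43009, 0), (36289, 0), (36625, 0), (36961, 0), (39649, 1)]), (57456, 54, [(22009, 1), (22345, 1), (12097, 0), (12433, 0), (15457, 1), (16129, 1), (15625, 1), (16297, 1), (4705, 0), (8737, 1), (8905, 1), (9073, 1), (9241, 1), (1, 0), (1008, 2)])])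

/-- column -/
noncomputable def tabFivec69 : ℕ × List Blk := (69, [(5712, 0, [(1, 0), (5041, 0), (3865, 0), (13273, 0), (13777, 0), (11593, 0), (9241, 0), (10753, 1), (27049, 0), (27553, 0), (28225, 0), (24865, 0), (25369, 0), (21505, 0), (23689, 1), (17977, 0), (20329, 1), (20497, 1)]), (35784, 18, [(18145, 0), (18649, 0), (19321, 0), (19489, 0), (19825, 0), (15121, 0), (15625, 0), (16297, 0), (10753, 0), (11257, 0), (13441, 1), (13945, 1), (5881, 0), (8737, 1), (8905, 1), (1, 0), (841, 0), (4033, 1)]), (39984, 36, [(1, 1), (169, 1), (45193, 0), (45697, 0), (46369, 0), (46537, 0), (46873, 0), (47377, 0), (47545, 0), (41497, 0), (42001, 0), (42673, 0), (42841, 0), (43177, 0), (35953, 0), (36457, 0), (37129, 0), (39313, 1)]), (57624, 54, [(22177, 1), (22849, 1), (12097, 0), (12601, 0), (15625, 1), (16633, 1), (15793, 1), (16801, 1), (4705, 0), (9241, 1), (9409, 1), (9577, 1), (9745, 1), (1, 0), (1009, 0), (1848, 2)])])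

/-- column -/
noncomputable def tabFivec70 : ℕ × List Blk := (70, [(5880, 0, [(1, 0), (5041, 0), (3865, 0), (13273, 0), (13945, 0), (11593, 0), (9241, 0), (10753, 1), (27049, 0), (27721, 0), (28225, 0), (24865, 0), (25537, 0), (21505, 0), (23689, 1), (17977, 0), (18649, 0), (20497, 1)]), (35952, 18, [(18145, 0), (18817, 0), (19321, 0), (19825, 0), (19993, 0), (15121, 0), (15793, 0), (16297, 0), (10753, 0), (11425, 0), (13441, 1), (14113, 1), (5881, 0), (8905, 1), (9073, 1), (1, 0), (841, 0), (4369, 1)]), (40488, 36, [(1, 1), (169, 1), (44857, 0), (45529, 0), (46033, 0), (46537, 0), (46705, 0), (47377, 0), (47545, 0), (41161, 0), (41833, 0), (42337, 0), (42841, 0), (43009, 0), (35617, 0), (36289, 0), (36793, 0), (38977, 1)]), (57792, 54, [(22345, 1), (22849, 1), (12097, 0), (12769, 0), (15793, 1), (13777, 0), (15961, 1), (17137, 1), (4705, 0), (5881, 0), (9745, 1), (9913, 1), (10081, 1), (1, 0), (1009, 0), (1849, 0), (2520, 2)])])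

/-- column -/
noncomputable def tabFivec71 : ℕ × List Blk := (71, [(6048, 0, [(1, 0), (5041, 0), (3865, 0), (13273, 0), (13945, 0), (11593, 0), (9241, 0), (10753, 1), (27049, 0), (27721, 0), (28393, 0), (24865, 0), (25537, 0), (21505, 0), (23689, 1), (17977, 0), (18649, 0), (20497, 1)]), (36120, 18, [(18145, 0), (18817, 0), (19489, 0), (19825, 0), (20329, 0), (15121, 0), (15793, 0), (16465, 0), (10753, 0), (11425, 0), (13441, 1), (14113, 1), (5881, 0), (9073, 1), (9241, 1), (1, 0), (841, 0), (1345, 0)]), (40824, 36, [(1, 1), (169, 1), (44689, 0), (45361, 0), (46033, 0), (46369, 0), (46873, 0), (47377, 0), (47545, 0), (40993, 0), (41665, 0), (42337, 0), (42673, 0), (43177, 0), (35449, 0), (36121, 0), (36793, 0), (38809, 1)]), (57960, 54, [(22345, 1), (23017, 1), (12097, 0), (12769, 0), (15961, 1), (13777, 0), (16129, 1), (17137, 1), (4705, 0), (5881, 0), (10081, 1), (10249, 1), (10417, 1), (1, 0), (1009, 0), (1849, 0), (2521, 0), (3024, 2)])])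

/-- column -/
noncomputable def tabFivec72 : ℕ × List Blk := (72, [(6216, 0, [(1, 0), (5041, 0), (3865, 0), (13273, 0), (14113, 0), (11593, 0), (9241, 0), (9577, 0), (27049, 0), (27889, 0), (28729, 0), (24865, 0), (25705, 0), (21505, 0), (23689, 1), (17977, 0), (18649, 0), (20497, 1), (48217, 0)]), (36288, 19, [(18985, 0), (19825, 0), (20329, 0), (20665, 0), (15121, 0), (15961, 0), (16801, 0), (10753, 0), (11593, 0), (13441, 1), (12097, 0), (5881, 0), (6721, 0), (9241, 1), (1, 0), (841, 0), (1345, 0), (1681, 0), (4873, 1)]), (70224, 38, [(15457, 0), (16297, 0), (17137, 0), (17641, 0), (17977, 0), (18313, 0), (18481, 0), (11761, 0), (12601, 0), (13441, 0), (13945, 0), (14281, 0), (6217, 0), (7057, 0), (7897, 0), (9577, 1), (10417, 1), (8401, 0), (1, 0)]), (58128, 57, [(12937, 0), (16129, 1), (13945, 0), (16297, 1), (17137, 1), (4705, 0), (5881, 0), (10417, 1), (10585, 1), (10753, 1), (1, 0), (1009, 0), (1849, 0), (2521, 0), (3025, 0), (3360, 2)])])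

/-- column -/
noncomputable def tabFivec73 : ℕ × List Blk := (73, [(6384, 0, [(1, 0), (5041, 0), (3865, 0), (13273, 0), (14113, 0), (11593, 0), (9241, 0), (9577, 0), (27049, 0), (27889, 0), (28729, 0), (24865, 0), (25705, 0), (21505, 0), (23689, 1), (17977, 0), (18649, 0), (18817, 0), (48217, 0)]), (36456, 19, [(18985, 0), (19825, 0), (20329, 0), (20665, 0), (15121, 0), (15961, 0), (16801, 0), (10753, 0), (11593, 0), (13441, 1), (12097, 0), (5881, 0), (6721, 0), (9241, 1), (1, 0), (841, 0), (1345, 0), (1681, 0), (1849, 0)]), (70392, 38, [(15457, 0), (16297, 0), (17137, 0), (17641, 0), (17977, 0), (18313, 0), (18481, 0), (11761, 0), (12601, 0), (13441, 0), (13945, 0), (14281, 0), (6217, 0), (7057, 0), (7897, 0), (9577, 1), (10417, 1), (8401, 0), (1, 0)]), (58296, 57, [(12937, 0), (16297, 1), (13945, 0), (16465, 1), (17137, 1), (4705, 0), (5881, 0), (6553, 0), (10753, 1), (10921, 1), (1, 0), (1009, 0), (1849, 0), (2521, 0), (3025, 0), (3361, 0),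 (3528, 2)])])

/-- block -/
noncomputable def tabFiver0 : Blk := (168, 0, [(0, 0)])

/-- block -/
noncomputable def tabFiver1 : Blk := (504, 1, [(0, 0), (168, 0)])

/-- block -/
noncomputable def tabFiver2 : Blk := (840, 3, [(0, 0), (168, 0), (336, 0), (504, 0), (672, 0)])

/-- block -/
noncomputable def tabFiver3 : Blk := (1848, 8, [(0, 0), (336, 0), (504, 0), (672, 0), (840, 0), (1008, 0), (1176, 0), (1344, 0), (1512, 0)])

/-- block -/
noncomputable def tabFiver4 : Blk := (3528, 17, [(0, 0), (168, 0), (336, 0), (504, 0), (672, 0), (840, 0), (1008, 0), (1176, 0), (1344, 0), (1512, 0), (1680, 0), (1848, 0), (2016, 0), (2184, 0), (2352, 0), (2520, 0), (2688, 0), (2856, 0)])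

/-- block -/
noncomputable def tabFiver5 : Blk := (6720, 35, [(0, 0), (168, 0), (504, 0), (840, 0), (1008, 0), (1176, 0), (1344, 0), (1512, 0), (1680, 0), (1848, 0), (2016, 0), (2184, 0), (2352, 0), (2520, 0), (2688, 0), (2856, 0), (3024, 0), (3192, 0), (3360, 0), (3528, 0), (3696, 0), (3864, 0), (4032, 0), (4200, 0), (4368, 0), (4536, 0), (4704, 0), (4872, 0), (5040, 0), (5208, 0)])

/-- block -/
noncomputable def tabFiver6 : Blk := (12096, 65, [(0, 0), (168, 0), (336, 0), (504, 0), (672, 0), (840, 0), (1008, 0), (1176, 0), (1344, 0), (1512, 0), (1680, 0), (1848, 0), (2016, 0), (2184, 0), (2352, 0), (2520, 0), (2688, 0), (2856, 0), (3024, 0), (3192, 0), (3360, 0), (3528, 0), (3696, 0), (3864, 0), (4032, 0), (4200, 0), (4368, 0), (4536, 0), (4704, 0), (4872, 0), (5040, 0), (5208, 0), (5376, 0), (5544, 0), (5712, 0), (5880, 0), (6048, 0), (6216, 0), (6384, 0), (6552, 0), (6720, 0), (6888, 0), (7056, 0), (7224, 0), (7392, 0), (7560, 0), (7728, 0),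 (7896, 0), (8064, 0), (8232, 0), (8400, 0), (8568, 0)])

/-- block -/
noncomputable def tabFiver7 : Blk := (21000, 117, [(0, 0), (168, 0), (336, 0), (504, 0), (840, 0), (1008, 0), (1176, 0), (1512, 0), (1680, 0), (2016, 0), (2352, 0), (2520, 0), (2688, 0), (2856, 0), (3024, 0), (3192, 0), (3360, 0), (3528, 0), (3696, 0), (3864, 0), (4032, 0), (4200, 0), (4368, 0), (4536, 0), (4704, 0), (4872, 0), (5040, 0), (5208, 0), (5376, 0), (5544, 0), (5712, 0), (5880, 0), (6048, 0), (6216, 0), (6384, 0), (6552, 0), (6720, 0), (6888, 0), (7056, 0), (7224, 0), (7392, 0), (7560, 0), (7728, 0), (7896, 0), (8064, 0), (8232, 0), (8400, 0), (8568, 0), (8736, 0), (8904, 0), (9072, 0), (9240, 0), (9408, 0), (9576, 0), (9744, 0), (9912, 0), (10080, 0), (10248, 0), (10416, 0), (10584, 0), (10752, 0), (10920, 0), (11088, 0), (11256, 0), (11424, 0), (11592, 0), (11760, 0), (11928, 0), (12096, 0), (12264, 0), (12432, 0), (12600, 0), (12768, 0), (12936, 0), (13104, 0), (13272,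 0), (13440, 0), (13608, 0), (13776, 0), (13944, 0), (14112, 0), (14280, 0)])

/-- block -/
noncomputable def tabFiver8 : Blk := (35448, 199, [(0, 0), (168, 0), (336, 0), (504, 0), (672, 0), (840, 0), (1008, 0), (1176, 0), (1344, 0), (1512, 0), (1680, 0), (1848, 0), (2016, 0), (2184, 0), (2352, 0), (2520, 0), (2688, 0), (2856, 0), (3024, 0), (3192, 0), (3360, 0), (3528, 0), (3696, 0), (3864, 0), (4032, 0), (4200, 0), (4368, 0), (4536, 0), (4704, 0), (4872, 0), (5040, 0), (5208, 0), (5376, 0), (5544, 0), (5712, 0), (5880, 0), (6048, 0), (6216, 0), (6384, 0), (6552, 0), (6720, 0), (6888, 0), (7056, 0), (7224, 0), (7392, 0), (7560, 0), (7728, 0), (7896, 0), (8064, 0), (8232, 0), (8400, 0), (8568, 0), (8736, 0), (8904, 0), (9072, 0), (9240, 0), (9408, 0), (9576, 0), (9744, 0), (9912, 0), (10080, 0), (10248, 0), (10416, 0), (10584, 0), (10752, 0), (10920, 0), (11088, 0), (11256, 0), (11424, 0), (11592, 0), (11760, 0), (11928, 0), (12096, 0), (12264, 0),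 (12432, 0), (12600, 0), (12768, 0), (12936, 0), (13104, 0), (13272, 0), (13440, 0), (13608, 0), (13776, 0), (13944, 0), (14112, 0), (14280, 0), (14448, 0), (14616, 0), (14784, 0), (14952, 0), (15120, 0), (15288, 0), (15456, 0), (15624, 0), (15792, 0), (15960, 0), (16128, 0), (16296, 0), (16464, 0), (16632, 0), (16800, 0), (16968, 0), (17136, 0), (17304, 0), (17472, 0), (17640, 0), (17808, 0), (17976, 0), (18144, 0), (18312, 0), (18480, 0), (18648, 0), (18816, 0), (18984, 0), (19152, 0), (19320, 0), (19488, 0), (19656, 0), (19824, 0), (19992, 0), (20160, 0), (20328, 0), (20496, 0), (20664, 0), (20832, 0), (21000, 0), (21168, 0), (21336, 0), (21504, 0), (21672, 0)])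

/-- block -/
noncomputable def tabFiver9 : Blk := (57456, 329, [(0, 0), (168, 0), (336, 0), (504, 0), (672, 0), (840, 0), (1176, 0), (1344, 0), (1512, 0), (1680, 0), (1848, 0), (2184, 0), (2352, 0), (2520, 0), (2688, 0), (3024, 0), (3192, 0), (3360, 0), (3696, 0), (3864, 0), (4200, 0), (4536, 0), (4704, 0), (4872, 0), (5040, 0), (5208, 0), (5376, 0), (5544, 0), (5712, 0), (5880, 0), (6048, 0), (6216, 0), (6384, 0), (6552, 0), (6720, 0), (6888, 0), (7056, 0), (7224, 0), (7392, 0), (7560, 0), (7728, 0), (7896, 0), (8064, 0), (8232, 0), (8400, 0), (8568, 0), (8736, 0), (8904, 0), (9072, 0), (9240, 0), (9408, 0), (9576, 0), (9744, 0), (9912, 0), (10080, 0), (10248, 0), (10416, 0), (10584, 0), (10752, 0), (10920, 0), (11088, 0), (11256, 0), (11424, 0), (11592, 0), (11760, 0), (11928, 0), (12096, 0), (12264, 0), (12432, 0), (12600, 0), (12768, 0), (12936, 0), (13104, 0), (13272, 0), (13440, 0), (13608, 0), (13776, 0), (13944, 0), (14112, 0), (14280,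 0), (14448, 0), (14616, 0), (14784, 0), (14952, 0), (15120, 0), (15288, 0), (15456, 0), (15624, 0), (15792, 0), (15960, 0), (16128, 0), (16296, 0), (16464, 0), (16632, 0), (16800, 0), (16968, 0), (17136, 0), (17304, 0), (17472, 0), (17640, 0), (17808, 0), (17976, 0), (18144, 0), (18312, 0), (18480, 0), (18648, 0), (18816, 0), (18984, 0), (19152, 0), (19320, 0), (19488, 0), (19656, 0), (19824, 0), (19992, 0), (20160, 0), (20328, 0), (20496, 0), (20664, 0), (20832, 0), (21000, 0), (21168, 0), (21336, 0), (21504, 0), (21672, 0), (21840, 0), (22008, 0), (22176, 0), (22344, 0), (22512, 0), (22680, 0), (22848, 0), (23016, 0), (23184, 0), (23352, 0), (23520, 0), (23688, 0), (23856, 0), (24024, 0), (24192, 0), (24360, 0), (24528, 0), (24696, 0), (24864, 0), (25032, 0), (25200, 0), (25368, 0), (25536, 0), (25704, 0), (25872, 0), (26040, 0), (26208, 0), (26376, 0), (26544, 0), (26712, 0), (26880, 0), (27048, 0), (27216, 0), (27384, 0), (27552, 0), (27720,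 0), (27888, 0), (28056, 0), (28224, 0), (28392, 0), (28560, 0), (28728, 0), (28896, 0), (29064, 0), (29232, 0), (29400, 0), (29568, 0), (29736, 0), (29904, 0), (30072, 0), (30240, 0), (30408, 0), (30576, 0), (30744, 0), (30912, 0), (31080, 0), (31248, 0), (31416, 0)])

/-- form -/
noncomputable def tabFiveq : List Blk := [(0, 0, [(0, 2), (168, 0), (504, 0), (672, 0), (1176, 0), (1344, 0), (1512, 0), (2688, 0), (2856, 0), (3024, 0), (3192, 0), (3360, 0), (168, 1), (336, 2), (840, 0), (1008, 0), (2184, 0), (2352, 0), (2520, 0), (4536, 0), (4704, 0), (4872, 0), (5040, 0), (5208, 0), (504, 1), (840, 1), (1680, 2), (1848, 0), (3528, 0), (3696, 0), (3864, 0), (7560, 0), (7728, 0), (7896, 0), (8064, 0), (8232, 0), (672, 1), (1008, 1), (1848, 1), (2016, 2), (4200, 1), (4368, 1), (4032, 0), (8736, 1), (8904, 1), (9072, 1), (8400, 0), (8568, 0), (1176, 1), (2184, 1), (3528, 1), (4200, 0), (6552, 2), (6720, 0), (6888, 0), (12096, 0), (12264, 0), (12432, 0),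 (12600, 0), (12768, 0), (1344, 1), (2352, 1), (3696, 1), (4368, 0), (6720, 1), (7056, 2), (7224, 0), (13608, 1), (13944, 1), (12936, 0), (13104, 0), (13272, 0), (1512, 1), (2520, 1), (3864, 1), (4032, 1), (6888, 1), (7224, 1), (7392, 2), (13776, 1), (14112, 1), (14280, 1), (14448, 1), (13440, 0), (2688, 1), (4536, 1), (7560, 1), (8736, 0), (12096, 1), (13608, 0), (13776, 0), (20832, 2), (21000, 0), (21168, 0), (21336, 0), (21504, 0), (2856, 1), (4704, 1), (7728, 1), (8904, 0), (12264, 1), (13944, 0), (14112, 0), (21000, 1), (21672, 2), (21840, 0), (22008, 0), (22176, 0), (3024, 1), (4872, 1), (7896, 1), (9072, 0), (12432, 1), (12936, 1), (14280, 0), (21168, 1), (21840, 1), (22344, 2), (22512, 0), (22680, 0), (3192, 1), (5040, 1), (8064, 1), (8400, 1), (12600, 1), (13104, 1), (14448, 0), (21336, 1), (22008, 1), (22512, 1), (22848, 2), (23016, 0), (3360, 1), (5208, 1), (8232, 1), (8568, 1), (12768, 1), (13272, 1), (13440, 1), (21504, 1), (22176, 1),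 (22680, 1), (23016, 1), (23184, 2), (57288, 2)])]

/-- squares -/
noncomputable def tabFived : List Blk := [(0, 0, [(0, 2)]), (336, 1, [(0, 2), (0, 2)]), (1680, 3, [(0, 2), (336, 2), (0, 2), (0, 2), (336, 2)]), (6552, 8, [(0, 2), (504, 2), (840, 2), (0, 2), (504, 2), (0, 2), (504, 2), (0, 2), (504, 2), (840, 2)]), (20832, 18, [(0, 2), (840, 2), (1512, 2), (2016, 2), (2352, 2), (0, 2), (840, 2), (1512, 2), (0, 2), (840, 2), (840, 2), (2016, 2), (0, 2), (840, 2), (1512, 2), (0, 2), (840, 2), (1512, 2), (2016, 2), (2352, 2)]), (57288, 38, [(0, 2), (1176, 2), (2184, 2), (3024, 2), (3696, 2), (4200, 2), (4536, 2), (0, 2), (1176, 2), (2184, 2), (3024, 2), (3696, 2), (0, 2), (1176, 2), (2184, 2), (1176, 2), (3024, 2), (4200, 2), (0, 2), (1176, 2), (1176, 2), (3024, 2), (2184, 2), (4200, 2), (0, 2), (1176, 2), (2184, 2), (3024, 2), (3696, 2), (0, 2), (1176, 2), (2184, 2), (3024, 2), (3696, 2), (4200, 2), (4536, 2)])]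

/-- tables -/
noncomputable def tabFive : Tab6 where
  one := 0
  q := tabFiveq
  g := [tabFiveg0, tabFiveg1, tabFiveg2, tabFiveg3, tabFiveg4, tabFiveg5, tabFiveg6, tabFiveg7, tabFiveg8, tabFiveg9, tabFiveg10, tabFiveg11, tabFiveg12, tabFiveg13, tabFiveg14, tabFiveg15, tabFiveg16, tabFiveg17, tabFiveg18, tabFiveg19, tabFiveg20, tabFiveg21, tabFiveg22, tabFiveg23, tabFiveg24, tabFiveg25, tabFiveg26, tabFiveg27, tabFiveg28, tabFiveg29, tabFiveg30, tabFiveg31, tabFiveg32, tabFiveg33, tabFiveg34, tabFiveg35, tabFiveg36, tabFiveg37, tabFiveg38, tabFiveg39, tabFiveg40, tabFiveg41, tabFiveg42, tabFiveg43, tabFiveg44, tabFiveg45, tabFiveg46, tabFiveg47, tabFiveg48, tabFiveg49, tabFiveg50, tabFiveg51, tabFiveg52, tabFiveg53, tabFiveg54]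
  n := 74
  c := [tabFivec0, tabFivec1, tabFivec2, tabFivec3, tabFivec4, tabFivec5, tabFivec6, tabFivec7, tabFivec8, tabFivec9, tabFivec10, tabFivec11, tabFivec12, tabFivec13, tabFivec14, tabFivec15, tabFivec16, tabFivec17, tabFivec18, tabFivec19, tabFivec20, tabFivec21, tabFivec22, tabFivec23, tabFivec24, tabFivec25, tabFivec26, tabFivec27, tabFivec28, tabFivec29, tabFivec30, tabFivec31, tabFivec32, tabFivec33, tabFivec34, tabFivec35, tabFivec36, tabFivec37, tabFivec38, tabFivec39, tabFivec40, tabFivec41, tabFivec42, tabFivec43, tabFivec44, tabFivec45, tabFivec46, tabFivec47, tabFivec48, tabFivec49, tabFivec50, tabFivec51, tabFivec52, tabFivec53, tabFivec54, tabFivec55, tabFivec56, tabFivec57, tabFivec58, tabFivec59, tabFivec60, tabFivec61, tabFivec62, tabFivec63, tabFivec64, tabFivec65, tabFivec66, tabFivec67, tabFivec68, tabFivec69, tabFivec70, tabFivec71, tabFivec72, tabFivec73]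
  d := tabFived
  r := [tabFiver0, tabFiver1, tabFiver2, tabFiver3, tabFiver4, tabFiver5, tabFiver6, tabFiver7, tabFiver8, tabFiver9]
  nQ := 145
  nM := 599
  nD := 5133
  nC := 5476
  nB := 74
  nR := 511

end Pool.Agent.M16.Helper54.HR2
end
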