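import Mathlib
import Pool.Agent.Helper60.M16.G01
import Pool.Agent.Helper60.M16.G02
import Pool.Agent.Helper60.M16.G03

/- Helper94.T.Helper39.Area.GolMain -/
section
set_option autoImplicit false
open Complex MeasureTheory Metric Set Filter Topology
open scoped Real ENNReal ComplexConjugate NNReal

/-! The Goluzin inequality at one point, main computation. -/

namespace Pool.Agent.M16.Helper39.Area

variable {β : ℂ → ℂ}

theorem lam_zero (ρ : ℝ) (a : ℂ) : Lam ρ a 0 = 0 := by simp [Lam]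

theorem lam_self {ρ : ℝ} (hρ : 0 < ρ) {a : ℂ} (ha : a ∈ ball (0:ℂ) ρ) :
    Lam ρ a a = ((Real.log (1 - ‖a‖ ^ 2 / ρ ^ 2) : ℝ) : ℂ) := by
  have h1 : conj a * a = ((‖a‖ ^ 2 : ℝ) : ℂ) := by
    rw [mul_comm, Complex.mul_conj, Complex.normSq_eq_norm_sq]
  have h2 : 0 ≤ 1 - ‖a‖ ^ 2 / ρ ^ 2 := by
    rw [mem_ball, dist_zero_right] at ha
    have : ‖a‖ ^ 2 / ρ ^ 2 ≤ 1 := by
      rw [div_le_one (by positivity)]
      gcongr
    linarith only [this]
  rw [Lam, h1, Complex.ofReal_log h2]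
  congr 1
  push_cast
  ring

theorem log_bound_aux (h : Ext β) {ρ : ℝ} (hρ : 0 < ρ) (hρ1 : ρ < 1)
    {a : ℂ} (ha : a ∈ ball (0:ℂ) ρ) (ha0 : a ≠ 0) {F : ℂ → ℂ}
    (hF : ∀ ζ ∈ ball (0:ℂ) 1, HasDerivAt F (deriv (qq β a) ζ / qq β a ζ) ζ)
    (hF0 : F 0 = 0) (hexp : ∀ ζ ∈ ball (0:ℂ) 1, Complex.exp (F ζ) = qq β a ζ) :
    ‖F a‖ ≤ - Real.log (1 - ‖a‖ ^ 2 / ρ ^ 2) := by
  have ha1 : a ∈ ball (0:ℂ) 1 := mem_ball_of_sphere hρ1 (ball_subset_closedBall ha)
  have hapos : 0 < ‖a‖ := norm_pos_iff.mpr ha0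
  have haρ : ‖a‖ < ρ := by simpa using ha
  set Q : ℂ → ℂ := fun ζ => deriv (qq β a) ζ / qq β a ζ with hQ
  set R : ℝ := min 1 (ρ ^ 2 / ‖a‖) with hR
  have hρR : ρ < R := lt_min hρ1 (rad_lt hρ ha ha0)
  have hR1 : ball (0:ℂ) R ⊆ ball 0 1 := ball_subset_ball (min_le_left _ _)
  have hR2 : ball (0:ℂ) R ⊆ ball 0 (ρ ^ 2 / ‖a‖) := ball_subset_ball (min_le_right _ _)
  have hsR : sphere (0:ℂ) ρ ⊆ ball 0 R := by
    intro ζ hζ
    rw [mem_ball, dist_zero_right]
    rw [mem_sphere, dist_zero_right] at hζ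
    linarith only [hρR, hζ]
  have hFd : DifferentiableOn ℂ F (ball 0 R) := fun ζ hζ =>
    (hF ζ (hR1 hζ)).differentiableAt.differentiableWithinAt
  have hQd : DifferentiableOn ℂ Q (ball 0 R) := by
    have h1 : DifferentiableOn ℂ (deriv F) (ball 0 R) := hFd.deriv isOpen_ball
    apply h1.congr
    intro ζ hζ
    exact (hF ζ (hR1 hζ)).deriv.symm
  have hLd : DifferentiableOn ℂ (Lam ρ a) (ball 0 R) := (lam_diff hρ ha ha0).mono hR2
  have hLpd : DifferentiableOn ℂ (Lamp ρ a) (ball 0 R) := by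
    have h1 : DifferentiableOn ℂ (deriv (Lam ρ a)) (ball 0 R) := hLd.deriv isOpen_ball
    apply h1.congr
    intro ζ hζ
    exact (lam_hasDeriv hρ ha ha0 (hR2 hζ)).deriv.symm
  have hFc : ContinuousOn F (sphere 0 ρ) := hFd.continuousOn.mono hsR
  have hQc : ContinuousOn Q (sphere 0 ρ) := hQd.continuousOn.mono hsR
  have hLc : ContinuousOn (Lam ρ a) (sphere 0 ρ) := hLd.continuousOn.mono hsR
  have hLpc : ContinuousOn (Lamp ρ a) (sphere 0 ρ) := hLpd.continuousOn.mono hsR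
  have hgpc : ContinuousOn (gp a) (sphere 0 ρ) := gp_cont ha hρ
  set G : ℂ → ℂ := fun ζ => Complex.log (1 - a / ζ) with hG
  have hGc : ContinuousOn G (sphere 0 ρ) := fun ζ hζ =>
    (g_hasDeriv ha hρ hζ).continuousAt.continuousWithinAt
  have hcFc : ContinuousOn (fun ζ => conj (F ζ)) (sphere 0 ρ) :=
    Complex.continuous_conj.comp_continuousOn hFc
  have hFs : ∀ ζ ∈ sphere (0:ℂ) ρ, HasDerivAt F (Q ζ) ζ := fun ζ hζ => hF ζ (hR1 (hsR hζ))
  have hLs : ∀ ζ ∈ sphere (0:ℂ) ρ, HasDerivAt (Lam ρ a) (Lamp ρ a ζ) ζ := fun ζ hζ =>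
    lam_hasDeriv hρ ha ha0 (hR2 (hsR hζ))
  have hGs : ∀ ζ ∈ sphere (0:ℂ) ρ, HasDerivAt G (gp a ζ) ζ := fun ζ hζ => g_hasDeriv ha hρ hζ
  have hGL : ∀ ζ ∈ sphere (0:ℂ) ρ, conj (Lam ρ a ζ) = G ζ := fun ζ hζ => conj_lam hρ ha ha0 hζ
  set ℓ : ℝ := - Real.log (1 - ‖a‖ ^ 2 / ρ ^ 2) with hℓ
  have hfrac : 0 < ‖a‖ ^ 2 / ρ ^ 2 := by positivity
  have hfrac1 : ‖a‖ ^ 2 / ρ ^ 2 < 1 := by
    rw [div_lt_one (by positivity)]
    exact pow_lt_pow_left₀ haρ hapos.le two_ne_zero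
  have hℓpos : 0 < ℓ := by
    rw [hℓ, neg_pos]
    exact Real.log_neg (by linarith only [hfrac1]) (by linarith only [hfrac])
  have hLa : Lam ρ a a = -(ℓ:ℂ) := by
    rw [lam_self hρ ha, hℓ]; push_cast; ring
  have hL0 : Lam ρ a 0 = 0 := lam_zero ρ a
  -- the basic integrals
  have I3 : (∮ ζ in C(0, ρ), G ζ * Q ζ) = -(2 * π * I * F a) := by
    rw [parts hρ hGs hFs hgpc hQc, repro hρ hρR hFd ha, hF0, sub_zero]
  have I4 : (∮ ζ in C(0, ρ), G ζ * gp a ζ) = 0 := by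
    have h1 := parts hρ hGs hGs hgpc hgpc
    have h2 : (2:ℂ) * (∮ ζ in C(0, ρ), G ζ * gp a ζ) = 0 := by linear_combination h1
    simpa using h2
  obtain ⟨A, hA0, hA⟩ := dirichlet_nonneg hFd hρ hρR
  have I5 : (∮ ζ in C(0, ρ), conj (F ζ) * Q ζ) = 2 * π * I * A := by
    rw [← hA]
    apply circleIntegral.integral_congr hρ.le
    intro ζ hζ
    simp only
    rw [(hFs ζ hζ).deriv]
  have I6 : (∮ ζ in C(0, ρ), conj (F ζ) * gp a ζ) = 0 := by
    have h1 := conj_circle hρ (fun ζ => conj (F ζ) * gp a ζ)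
    have h2 : (∮ ζ in C(0, ρ), (-((ρ:ℂ) ^ 2 / ζ ^ 2)) * conj (conj (F ζ) * gp a ζ)) =
        ∮ ζ in C(0, ρ), F ζ * Lamp ρ a ζ := by
      apply circleIntegral.integral_congr hρ.le
      intro ζ hζ
      simp only
      rw [map_mul, Complex.conj_conj, ← lamp_eq hρ ha ha0 hζ]
      ring
    have hz : (∮ ζ in C(0, ρ), F ζ * Lamp ρ a ζ) = 0 := cauchy_zero hρ hρR (hFd.mul hLpd)
    rw [h2, hz] at h1
    simpa using h1
  have I7 : (∮ ζ in C(0, ρ), conj (F ζ) * Lamp ρ a ζ) = -(2 * π * I * conj (F a)) := by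
    have h1 := conj_circle hρ (fun ζ => conj (F ζ) * Lamp ρ a ζ)
    have h2 : (∮ ζ in C(0, ρ), (-((ρ:ℂ) ^ 2 / ζ ^ 2)) * conj (conj (F ζ) * Lamp ρ a ζ)) =
        ∮ ζ in C(0, ρ), F ζ * gp a ζ := by
      apply circleIntegral.integral_congr hρ.le
      intro ζ hζ
      simp only
      rw [map_mul, Complex.conj_conj, ← gp_eq hρ ha ha0 hζ]
      ring
    rw [h2, repro hρ hρR hFd ha, hF0, sub_zero] at h1
    have h3 := congrArg conj h1
    rw [Complex.conj_conj] at h3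
    rw [h3]
    simp only [map_mul, Complex.conj_ofReal, Complex.conj_I, map_ofNat]
    ring
  have I8 : (∮ ζ in C(0, ρ), G ζ * Lamp ρ a ζ) = 2 * π * I * ℓ := by
    rw [parts hρ hGs hLs hgpc hLpc, repro hρ hρR hLd ha, hLa, hL0]
    ring
  -- the area inequality
  obtain ⟨c, hc0, hc⟩ := area_log h hρ hρ1 ha ha0
  set c0 : ℂ := ((-2 * Real.log ‖a‖ : ℝ) : ℂ) with hc0'
  have hW : DifferentiableOn ℂ (fun ζ => c0 + Lam ρ a ζ + F ζ) (ball 0 R) :=
    ((differentiableOn_const c0).add hLd).add hFd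
  have hWc : ContinuousOn (fun ζ => c0 + Lam ρ a ζ + F ζ) (sphere 0 ρ) := hW.continuousOn.mono hsR
  have I1 : (∮ ζ in C(0, ρ), (c0 + Lam ρ a ζ + F ζ) * Q ζ) = 0 :=
    cauchy_zero hρ hρR (hW.mul hQd)
  have I2 : (∮ ζ in C(0, ρ), (c0 + Lam ρ a ζ + F ζ) * gp a ζ) = 2 * π * I * (F a - ℓ) := by
    rw [repro hρ hρR hW ha, hLa, hL0, hF0]
    ring
  have hJ : (∮ ζ in C(0, ρ), ((2 * Real.log ‖phi β ζ - phi β a‖ : ℝ) : ℂ) *
      (dphi β ζ / (phi β ζ - phi β a))) =
      ∮ ζ in C(0, ρ), ((((((c0 + Lam ρ a ζ + F ζ) * Q ζ) + ((c0 + Lam ρ a ζ + F ζ) * gp a ζ)) +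
        (G ζ * Q ζ)) + (G ζ * gp a ζ)) + (conj (F ζ) * Q ζ)) + (conj (F ζ) * gp a ζ) := by
    apply circleIntegral.integral_congr hρ.le
    intro ζ hζ
    have hζ1 : ζ ∈ ball (0:ℂ) 1 := hR1 (hsR hζ)
    have hζ0 : ζ ≠ 0 := sphere_ne' hρ hζ
    have hne : ζ ≠ a := by
      rintro rfl
      simp at hζ
      linarith
    have h1 : ((2 * Real.log ‖phi β ζ - phi β a‖ : ℝ) : ℂ) =
        c0 + Lam ρ a ζ + F ζ + G ζ + conj (F ζ) := by
      have h2 : phi β ζ - phi β a = -a⁻¹ * (1 - a / ζ) * qq β a ζ := by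
        rw [phi_sub a ζ ha0 hζ0]
        field_simp
        ring
      have h3 : (1 - a / ζ) ≠ 0 := by
        intro h'
        rw [sub_eq_zero, eq_div_iff hζ0, one_mul] at h'
        exact hne h'
      have h4 : qq β a ζ ≠ 0 := qq_ne h ha1 hζ1
      have h5 : Real.log ‖phi β ζ - phi β a‖ = - Real.log ‖a‖ + (G ζ).re + (F ζ).re := by
        rw [h2, norm_mul, norm_mul, norm_neg, norm_inv,
          Real.log_mul (mul_ne_zero (inv_ne_zero hapos.ne') (norm_ne_zero_iff.mpr h3))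
            (norm_ne_zero_iff.mpr h4),
          Real.log_mul (inv_ne_zero hapos.ne') (norm_ne_zero_iff.mpr h3), Real.log_inv, hG,
          Complex.log_re, ← hexp ζ hζ1, Complex.norm_exp, Real.log_exp]
      have h6 : Lam ρ a ζ = conj (G ζ) := by rw [← hGL ζ hζ, Complex.conj_conj]
      rw [h5, h6, hc0']
      have h7 := Complex.add_conj (G ζ)
      have h8 := Complex.add_conj (F ζ)
      push_cast at h7 h8 ⊢
      linear_combination -h7 - h8
    simp only
    rw [h1, dphi_div h ha1 hζ1 ha0 hζ0 hne]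
    simp only [gp, hQ]
    ring
  have hc1 : CircleIntegrable (fun ζ => (c0 + Lam ρ a ζ + F ζ) * Q ζ) 0 ρ :=
    (hWc.mul hQc).circleIntegrable hρ.le
  have hc2 : CircleIntegrable (fun ζ => (c0 + Lam ρ a ζ + F ζ) * gp a ζ) 0 ρ :=
    (hWc.mul hgpc).circleIntegrable hρ.le
  have hc3 : CircleIntegrable (fun ζ => G ζ * Q ζ) 0 ρ := (hGc.mul hQc).circleIntegrable hρ.le
  have hc4 : CircleIntegrable (fun ζ => G ζ * gp a ζ) 0 ρ := (hGc.mul hgpc).circleIntegrable hρ.le
  have hc5 : CircleIntegrable (fun ζ => conj (F ζ) * Q ζ) 0 ρ :=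
    (hcFc.mul hQc).circleIntegrable hρ.le
  have hc6 : CircleIntegrable (fun ζ => conj (F ζ) * gp a ζ) 0 ρ :=
    (hcFc.mul hgpc).circleIntegrable hρ.le
  have hc12 : CircleIntegrable (fun ζ => ((c0 + Lam ρ a ζ + F ζ) * Q ζ) +
      ((c0 + Lam ρ a ζ + F ζ) * gp a ζ)) 0 ρ := hc1.add hc2
  have hc13 : CircleIntegrable (fun ζ => (((c0 + Lam ρ a ζ + F ζ) * Q ζ) +
      ((c0 + Lam ρ a ζ + F ζ) * gp a ζ)) + (G ζ * Q ζ)) 0 ρ := hc12.add hc3
  have hc14 : CircleIntegrable (fun ζ => ((((c0 + Lam ρ a ζ + F ζ) * Q ζ) +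
      ((c0 + Lam ρ a ζ + F ζ) * gp a ζ)) + (G ζ * Q ζ)) + (G ζ * gp a ζ)) 0 ρ := hc13.add hc4
  have hc15 : CircleIntegrable (fun ζ => (((((c0 + Lam ρ a ζ + F ζ) * Q ζ) +
      ((c0 + Lam ρ a ζ + F ζ) * gp a ζ)) + (G ζ * Q ζ)) + (G ζ * gp a ζ)) +
      (conj (F ζ) * Q ζ)) 0 ρ := hc14.add hc5
  rw [hJ, circleIntegral.integral_add hc15 hc6, circleIntegral.integral_add hc14 hc5,
    circleIntegral.integral_add hc13 hc4, circleIntegral.integral_add hc12 hc3,
    circleIntegral.integral_add hc1 hc2, I1, I2, I3, I4, I5, I6] at hc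
  have hpi : (π:ℂ) ≠ 0 := by exact_mod_cast Real.pi_ne_zero
  have hAc : (A:ℂ) = ℓ - c / π := by
    have hI : (2 * I : ℂ) ≠ 0 := by simp
    have : (2 * I : ℂ) * (π * A) = (2 * I : ℂ) * (π * ℓ - c) := by linear_combination hc
    have h2 := mul_left_cancel₀ hI this
    field_simp
    linear_combination h2
  have hAr : A = ℓ - c / π := by exact_mod_cast hAc
  have hAle : A ≤ ℓ := by
    rw [hAr]
    have : 0 ≤ c / π := div_nonneg hc0 Real.pi_pos.le
    linarith only [this]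
  -- the Dirichlet form of the combination
  set lam : ℂ := F a / ℓ with hlam
  have hEd : DifferentiableOn ℂ (fun ζ => F ζ + lam * Lam ρ a ζ) (ball 0 R) :=
    hFd.add (hLd.const_mul lam)
  obtain ⟨c2, hc20, hc2'⟩ := dirichlet_nonneg hEd hρ hρR
  have hℓc : (ℓ:ℂ) ≠ 0 := by exact_mod_cast hℓpos.ne'
  have hE : (∮ ζ in C(0, ρ), conj (F ζ + lam * Lam ρ a ζ) *
      deriv (fun ζ => F ζ + lam * Lam ρ a ζ) ζ) =
      ∮ ζ in C(0, ρ), (((conj (F ζ) * Q ζ) + lam * (conj (F ζ) * Lamp ρ a ζ)) +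
        conj lam * (G ζ * Q ζ)) + (conj lam * lam) * (G ζ * Lamp ρ a ζ) := by
    apply circleIntegral.integral_congr hρ.le
    intro ζ hζ
    have h1 : deriv (fun ζ => F ζ + lam * Lam ρ a ζ) ζ = Q ζ + lam * Lamp ρ a ζ :=
      ((hFs ζ hζ).add ((hLs ζ hζ).const_mul lam)).deriv
    simp only
    rw [h1, map_add, map_mul, hGL ζ hζ]
    ring
  have hd2 : CircleIntegrable (fun ζ => lam * (conj (F ζ) * Lamp ρ a ζ)) 0 ρ :=
    (continuousOn_const.mul (hcFc.mul hLpc)).circleIntegrable hρ.le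
  have hd3 : CircleIntegrable (fun ζ => conj lam * (G ζ * Q ζ)) 0 ρ :=
    (continuousOn_const.mul (hGc.mul hQc)).circleIntegrable hρ.le
  have hd4 : CircleIntegrable (fun ζ => (conj lam * lam) * (G ζ * Lamp ρ a ζ)) 0 ρ :=
    (continuousOn_const.mul (hGc.mul hLpc)).circleIntegrable hρ.le
  have hd12 : CircleIntegrable (fun ζ => (conj (F ζ) * Q ζ) +
      lam * (conj (F ζ) * Lamp ρ a ζ)) 0 ρ := hc5.add hd2
  have hd13 : CircleIntegrable (fun ζ => ((conj (F ζ) * Q ζ) +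
      lam * (conj (F ζ) * Lamp ρ a ζ)) + conj lam * (G ζ * Q ζ)) 0 ρ := hd12.add hd3
  rw [hE, circleIntegral.integral_add hd13 hd4, circleIntegral.integral_add hd12 hd3,
    circleIntegral.integral_add hc5 hd2, circleIntegral.integral_const_mul,
    circleIntegral.integral_const_mul, circleIntegral.integral_const_mul, I5, I7, I3, I8] at hc2'
  have hFa : F a * conj (F a) = ((‖F a‖ ^ 2 : ℝ) : ℂ) := by
    rw [Complex.mul_conj, Complex.normSq_eq_norm_sq]
  have hclam : conj lam = conj (F a) / ℓ := by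
    rw [hlam, map_div₀, Complex.conj_ofReal]
  have hfin : (A:ℂ) = c2 + ((‖F a‖ ^ 2 : ℝ) : ℂ) / ℓ := by
    have h2pi : (2 * π * I : ℂ) ≠ 0 := two_pi_I_ne_zero
    apply mul_left_cancel₀ h2pi
    rw [← hFa]
    rw [hclam, hlam] at hc2'
    have h9 : (2 * π * I : ℂ) * A + F a / ℓ * -(2 * π * I * conj (F a)) +
        conj (F a) / ℓ * -(2 * π * I * F a) + conj (F a) / ℓ * (F a / ℓ) * (2 * π * I * ℓ) =
        2 * π * I * (A - F a * conj (F a) / ℓ) := by
      field_simp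
      ring
    rw [h9] at hc2'
    linear_combination hc2'
  have hfinr : A = c2 + ‖F a‖ ^ 2 / ℓ := by exact_mod_cast hfin
  have h10 : ‖F a‖ ^ 2 / ℓ ≤ ℓ := by linarith only [hAle, hc20, hfinr]
  rw [div_le_iff₀ hℓpos] at h10
  nlinarith only [hℓpos, h10]

theorem log_bound (h : Ext β) {a : ℂ} (ha : a ∈ ball (0:ℂ) 1) {F : ℂ → ℂ}
    (hF : ∀ ζ ∈ ball (0:ℂ) 1, HasDerivAt F (deriv (qq β a) ζ / qq β a ζ) ζ)
    (hF0 : F 0 = 0) (hexp : ∀ ζ ∈ ball (0:ℂ) 1, Complex.exp (F ζ) = qq β a ζ) :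
    ‖F a‖ ≤ - Real.log (1 - ‖a‖ ^ 2) := by
  by_cases ha0 : a = 0
  · subst ha0; simp [hF0]
  have ha' : ‖a‖ < 1 := by simpa using ha
  have hlim : Tendsto (fun ρ : ℝ => - Real.log (1 - ‖a‖ ^ 2 / ρ ^ 2)) (𝓝[<] 1)
      (𝓝 (- Real.log (1 - ‖a‖ ^ 2))) := by
    have h1 : ContinuousAt (fun ρ : ℝ => - Real.log (1 - ‖a‖ ^ 2 / ρ ^ 2)) 1 := by
      apply ContinuousAt.neg
      apply ContinuousAt.log
      · apply ContinuousAt.sub continuousAt_const
        apply ContinuousAt.div continuousAt_const (by fun_prop) (by norm_num)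
      · have : ‖a‖ ^ 2 < 1 := by nlinarith only [norm_nonneg a, ha']
        simp only [one_pow, div_one]
        linarith
    have h2 := h1.tendsto
    simp only [one_pow, div_one] at h2
    exact h2.mono_left nhdsWithin_le_nhds
  apply ge_of_tendsto hlim
  have h1 : Ioo ‖a‖ 1 ∈ 𝓝[<] (1:ℝ) := Ioo_mem_nhdsLT ha'
  filter_upwards [h1] with ρ hρ
  exact log_bound_aux h ((norm_nonneg a).trans_lt hρ.1) hρ.2 (by simpa using hρ.1) ha0 hF hF0 hexp

end Pool.Agent.M16.Helper39.Area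
end

/- Helper94.T.Helper39.Area.Branch -/
section
set_option autoImplicit false
open Complex MeasureTheory Metric Set Filter Topology
open scoped Real ENNReal ComplexConjugate NNReal

/-! Identification of the branch; the Goluzin inequality `|log (1 - ζ² β')| ≤ log 1/(1-|ζ|²)`. -/

namespace Pool.Agent.M16.Helper39.Area

theorem eq_zero_of_exp_one {X : Type*} [TopologicalSpace X] {S : Set X} (hS : IsPreconnected S)
    {f : X → ℂ} (hf : ContinuousOn f S) (he : ∀ x ∈ S, Complex.exp (f x) = 1) {x0 : X}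
    (hx0 : x0 ∈ S) (h0 : f x0 = 0) : ∀ x ∈ S, f x = 0 := by
  have him : ContinuousOn (fun x => (f x).im) S := Complex.continuous_im.comp_continuousOn hf
  have hpre := (hS.image _ him).ordConnected
  intro x hx
  obtain ⟨n, hn⟩ := Complex.exp_eq_one_iff.mp (he x hx)
  have him2 : (f x).im = n * (2 * π) := by rw [hn]; simp
  have hn0 : n = 0 := by
    by_contra hne
    -- a value with imaginary part ±π
    have hz : (0:ℝ) ∈ (fun x => (f x).im) '' S := ⟨x0, hx0, by simp [h0]⟩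
    have hz2 : (n * (2 * π) : ℝ) ∈ (fun x => (f x).im) '' S := ⟨x, hx, him2⟩
    have key : ∀ t : ℝ, (t = π ∨ t = -π) → t ∉ (fun x => (f x).im) '' S := by
      rintro t ht ⟨y, hy, hyt⟩
      obtain ⟨m, hm⟩ := Complex.exp_eq_one_iff.mp (he y hy)
      have h1 : (f y).im = m * (2 * π) := by rw [hm]; simp
      simp only at hyt
      rw [hyt] at h1
      have hpi := Real.pi_pos
      rcases ht with rfl | rfl
      · have h2 : (1:ℝ) = m * 2 := by
          have : π * 1 = π * (m * 2) := by linarith only [h1]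
          exact mul_left_cancel₀ hpi.ne' this
        have h3 : (1:ℤ) = m * 2 := by exact_mod_cast h2
        omega
      · have h2 : (-1:ℝ) = m * 2 := by
          have : π * (-1) = π * (m * 2) := by linarith only [h1]
          exact mul_left_cancel₀ hpi.ne' this
        have h3 : (-1:ℤ) = m * 2 := by exact_mod_cast h2
        omega
    have hpi := Real.pi_pos
    rcases lt_or_gt_of_ne hne with h | h
    · have h1 : (n:ℝ) ≤ -1 := by exact_mod_cast (Int.le_sub_one_iff.mpr h)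
      exact key (-π) (Or.inr rfl) (hpre.out hz2 hz ⟨by nlinarith only [hpi, h1], by linarith⟩)
    · have h1 : (1:ℝ) ≤ n := by exact_mod_cast h
      exact key π (Or.inl rfl) (hpre.out hz hz2 ⟨by linarith, by nlinarith only [hpi, h1]⟩)
  rw [hn, hn0]; simp

variable {β : ℂ → ℂ}

theorem dslope_cont (hβ : DifferentiableOn ℂ β (ball 0 1)) :
    ContinuousOn (fun p : ℂ × ℂ => dslope β p.1 p.2) (ball 0 1 ×ˢ ball 0 1) := by
  rintro ⟨a, b⟩ ⟨ha, hb⟩
  simp only at ha hb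
  apply ContinuousAt.continuousWithinAt
  have hβa : ContinuousAt β a := (hβ.differentiableAt (isOpen_ball.mem_nhds ha)).continuousAt
  have hβb : ContinuousAt β b := (hβ.differentiableAt (isOpen_ball.mem_nhds hb)).continuousAt
  by_cases hab : a = b
  · subst hab
    have han : AnalyticAt ℂ β a := hβ.analyticAt (isOpen_ball.mem_nhds ha)
    have hst : HasStrictDerivAt β (deriv β a) a := han.hasStrictDerivAt
    have hdc : ContinuousAt (deriv β) a :=
      ((hβ.deriv isOpen_ball).differentiableAt (isOpen_ball.mem_nhds ha)).continuousAt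
    have hdc2 : ContinuousAt (fun p : ℂ × ℂ => deriv β p.1) (a, a) :=
      ContinuousAt.comp (f := Prod.fst) (g := deriv β) (x := ((a, a) : ℂ × ℂ)) hdc continuousAt_fst
    rw [Metric.continuousAt_iff']
    intro ε hε
    rw [Metric.continuousAt_iff'] at hdc2
    have h1 := (hasStrictDerivAt_iff_hasStrictFDerivAt.mp hst).isLittleO
    have h2 := (Asymptotics.isLittleO_iff.mp h1) (half_pos hε)
    filter_upwards [h2, hdc2 ε hε] with p hp1 hp2
    simp only [dslope_same]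
    by_cases hp : p.1 = p.2
    · rw [← hp, dslope_same]
      exact hp2
    · rw [dslope_of_ne _ (Ne.symm hp), slope_def_field, dist_eq_norm]
      have h3 : p.2 - p.1 ≠ 0 := sub_ne_zero.mpr (Ne.symm hp)
      have h4 : (β p.2 - β p.1) / (p.2 - p.1) - deriv β a =
          (β p.1 - β p.2 - (p.1 - p.2) * deriv β a) / (p.1 - p.2) := by
        have h5 : p.1 - p.2 ≠ 0 := sub_ne_zero.mpr hp
        field_simp
        ring
      rw [h4, norm_div]
      have h5 : 0 < ‖p.1 - p.2‖ := norm_pos_iff.mpr (sub_ne_zero.mpr hp)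
      rw [div_lt_iff₀ h5]
      have h6 : ‖β p.1 - β p.2 - (p.1 - p.2) * deriv β a‖ ≤ ε / 2 * ‖p.1 - p.2‖ := by
        simpa [mul_comm] using hp1
      nlinarith only [hε, h5, h6]
  · have hne : ∀ᶠ p : ℂ × ℂ in 𝓝 (a, b), p.1 ≠ p.2 := by
      have : IsOpen {p : ℂ × ℂ | p.1 ≠ p.2} := isOpen_ne_fun continuous_fst continuous_snd
      exact this.mem_nhds hab
    have h1 : ContinuousAt (fun p : ℂ × ℂ => (β p.2 - β p.1) / (p.2 - p.1)) (a, b) := by
      have c1 : ContinuousAt (fun p : ℂ × ℂ => β p.1) (a, b) :=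
        ContinuousAt.comp (f := Prod.fst) (g := β) (x := ((a, b) : ℂ × ℂ)) hβa continuousAt_fst
      have c2 : ContinuousAt (fun p : ℂ × ℂ => β p.2) (a, b) :=
        ContinuousAt.comp (f := Prod.snd) (g := β) (x := ((a, b) : ℂ × ℂ)) hβb continuousAt_snd
      exact (c2.sub c1).div (continuousAt_snd.sub continuousAt_fst) (sub_ne_zero.mpr (Ne.symm hab))
    apply h1.congr
    filter_upwards [hne] with p hp
    rw [dslope_of_ne _ (Ne.symm hp), slope_def_field]

theorem goluzin (h : Ext β) {H : ℂ → ℂ} (hH : ContinuousOn H (ball 0 1)) (hH0 : H 0 = 0)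
    (hexp : ∀ ζ ∈ ball (0:ℂ) 1, Complex.exp (H ζ) = 1 - ζ ^ 2 * deriv β ζ) {a : ℂ}
    (ha : a ∈ ball (0:ℂ) 1) : ‖H a‖ ≤ - Real.log (1 - ‖a‖ ^ 2) := by
  set U : Set (ℂ × ℂ) := ball 0 1 ×ˢ ball 0 1 with hU
  have hUo : IsOpen U := isOpen_ball.prod isOpen_ball
  have hUconv : Convex ℝ U := (convex_ball _ _).prod (convex_ball _ _)
  have h00 : ((0:ℂ), (0:ℂ)) ∈ U := ⟨mem_ball_self one_pos, mem_ball_self one_pos⟩
  have hUs : IsSimplyConnected U := by
    have hc : ContractibleSpace U := hUconv.contractibleSpace ⟨_, h00⟩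
    show SimplyConnectedSpace U
    infer_instance
  have hqc : ContinuousOn (fun p : ℂ × ℂ => qq β p.1 p.2) U := by
    unfold qq
    apply ContinuousOn.sub continuousOn_const
    apply ContinuousOn.mul (by fun_prop)
    exact dslope_cont h.diff
  have hq0 : 0 ∉ (fun p : ℂ × ℂ => qq β p.1 p.2) '' U := by
    rintro ⟨p, ⟨hp1, hp2⟩, hp⟩
    exact qq_ne h hp1 hp2 hp
  obtain ⟨Φ, hΦc, hΦ⟩ := Complex.exists_continuousOn_eqOn_exp_comp hUs hUo hqc hq0
  have hΦe : ∀ b ∈ ball (0:ℂ) 1, ∀ ζ ∈ ball (0:ℂ) 1, Complex.exp (Φ (b, ζ)) = qq β b ζ :=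
    fun b hb ζ hζ => hΦ (show (b, ζ) ∈ U from ⟨hb, hζ⟩)
  have h0b : (0:ℂ) ∈ ball (0:ℂ) 1 := mem_ball_self one_pos
  -- the diagonal
  have hTc : ContinuousOn (fun b : ℂ => Φ (b, b) - Φ (b, 0)) (ball 0 1) := by
    apply ContinuousOn.sub
    · exact hΦc.comp (by fun_prop) (fun b hb => ⟨hb, hb⟩)
    · exact hΦc.comp (by fun_prop) (fun b hb => ⟨hb, h0b⟩)
  have hTe : ∀ b ∈ ball (0:ℂ) 1, Complex.exp (Φ (b, b) - Φ (b, 0)) = 1 - b ^ 2 * deriv β b := by
    intro b hb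
    rw [Complex.exp_sub, hΦe b hb b hb, hΦe b hb 0 h0b]
    simp only [qq, mul_zero, zero_mul, sub_zero, div_one, dslope_same]
    ring
  have hTHc : ContinuousOn (fun b : ℂ => (Φ (b, b) - Φ (b, 0)) - H b) (ball 0 1) := hTc.sub hH
  have hTH : ∀ b ∈ ball (0:ℂ) 1, (Φ (b, b) - Φ (b, 0)) - H b = 0 := by
    apply eq_zero_of_exp_one (convex_ball (0:ℂ) 1).isPreconnected hTHc _ h0b
    · simp [hH0]
    · intro b hb
      rw [Complex.exp_sub, hTe b hb, hexp b hb, div_self]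
      exact h.ne b hb
  -- the logarithm for fixed `a`
  have hqd := qq_diff h.diff ha
  have hQd : DifferentiableOn ℂ (fun ζ => deriv (qq β a) ζ / qq β a ζ) (ball 0 1) :=
    (hqd.deriv isOpen_ball).div hqd (fun ζ hζ => qq_ne h ha hζ)
  obtain ⟨F, hF0, hF⟩ := hQd.isExactOn_ball.with_val_at 0 0
  have hFe : ∀ ζ ∈ ball (0:ℂ) 1, Complex.exp (F ζ) = qq β a ζ := by
    -- `exp F / q` has zero derivative
    have hderiv : ∀ ζ ∈ ball (0:ℂ) 1, HasDerivAt (fun ζ => Complex.exp (-F ζ) * qq β a ζ) 0 ζ := by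
      intro ζ hζ
      have h1 := ((hF ζ hζ).neg.cexp).mul ((hqd.differentiableAt (isOpen_ball.mem_nhds hζ)).hasDerivAt)
      have h2 := qq_ne h ha hζ
      have e : (0:ℂ) = Complex.exp (-F ζ) * -(deriv (qq β a) ζ / qq β a ζ) * qq β a ζ +
          Complex.exp (-F ζ) * deriv (qq β a) ζ := by
        field_simp
        ring
      rw [e]
      exact h1
    intro ζ hζ
    have h1 : Complex.exp (-F ζ) * qq β a ζ = Complex.exp (-F 0) * qq β a 0 := by
      apply (convex_ball (0:ℂ) 1).is_const_of_fderivWithin_eq_zero (𝕜 := ℂ)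
        (f := fun ζ => Complex.exp (-F ζ) * qq β a ζ) _ _ hζ h0b
      · intro ω hω
        exact (hderiv ω hω).differentiableAt.differentiableWithinAt
      · intro ω hω
        have h3 := (hderiv ω hω).hasFDerivAt.hasFDerivWithinAt (s := ball (0:ℂ) 1)
        rw [h3.fderivWithin (isOpen_ball.uniqueDiffWithinAt hω)]
        ext
        simp
    rw [hF0, neg_zero, Complex.exp_zero, one_mul] at h1
    have h2 : qq β a 0 = 1 := by simp [qq]
    rw [h2, Complex.exp_neg] at h1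
    have h3 := Complex.exp_ne_zero (F ζ)
    field_simp at h1
    exact h1.symm
  have hFc : ContinuousOn F (ball 0 1) := fun ζ hζ => (hF ζ hζ).continuousAt.continuousWithinAt
  have hFΦ : ∀ ζ ∈ ball (0:ℂ) 1, (Φ (a, ζ) - Φ (a, 0)) - F ζ = 0 := by
    apply eq_zero_of_exp_one (convex_ball (0:ℂ) 1).isPreconnected _ _ h0b
    · simp [hF0]
    · apply ContinuousOn.sub _ hFc
      apply ContinuousOn.sub _ continuousOn_const
      exact hΦc.comp (by fun_prop) (fun ζ hζ => ⟨ha, hζ⟩)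
    · intro ζ hζ
      rw [Complex.exp_sub, Complex.exp_sub, hΦe a ha ζ hζ, hΦe a ha 0 h0b, hFe ζ hζ]
      have h2 : qq β a 0 = 1 := by simp [qq]
      rw [h2, div_one, div_self (qq_ne h ha hζ)]
  have h1 := hTH a ha
  have h2 := hFΦ a ha
  have h3 : H a = F a := by linear_combination h2 - h1
  rw [h3]
  exact log_bound h ha hF hF0 hFe

end Pool.Agent.M16.Helper39.Area
end

/- Helper94.T.Helper22.Marshall.ClassIneq -/
section
/-!
The area inequality for polynomials in terms of Taylor coefficients.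
-/

set_option autoImplicit false

open MeasureTheory Set Metric Filter Topology
open scoped ENNReal NNReal Real Nat ComplexConjugate

namespace Pool.Agent.M16.Helper22.Marshall

open Pool.Agent.M16.Helper39.Area (Ext phi dphi area_ineq hasDerivAt_phi)

/-- the (generalised) area inequality with constant `k`, in the coordinate `ζ = 1/z` -/
def GLe (β : ℂ → ℂ) (k : ℝ) : Prop :=
  ∀ (i : ℕ) (P : Polynomial ℂ) (v : ℕ → ℂ), P.natDegree ≤ i →
    (∀ ζ : ℂ, ζ ≠ 0 → ‖ζ‖ < 1 → HasSum (fun m => v m * ζ ^ m) (ζ ^ i * P.eval (phi β ζ))) →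
    ∀ M : ℕ, ∑ m ∈ Finset.range M, ((m - i : ℕ) : ℝ) * ‖v m‖ ^ 2
      ≤ k ^ 2 * ∑ m ∈ Finset.range i, ((i - m : ℕ) : ℝ) * ‖v m‖ ^ 2

/-- power series with given values on the punctured disc -/
theorem exists_g {v : ℕ → ℂ} {f : ℂ → ℂ}
    (h : ∀ ζ : ℂ, ζ ≠ 0 → ‖ζ‖ < 1 → HasSum (fun m => v m * ζ ^ m) (f ζ)) :
    ∃ g : ℂ → ℂ, DifferentiableOn ℂ g (ball 0 1) ∧ (∀ m, coeff g m = v m) ∧
      ∀ ζ : ℂ, ζ ≠ 0 → ‖ζ‖ < 1 → g ζ = f ζ := by
  have hs : ∀ ζ : ℂ, ‖ζ‖ < 1 → Summable (fun m => v m * ζ ^ m) := by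
    intro ζ hζ
    by_cases h0 : ζ = 0
    · subst h0
      apply summable_of_ne_finset_zero (s := {0})
      intro m hm
      rw [Finset.mem_singleton] at hm
      rw [zero_pow hm, mul_zero]
    · exact (h ζ h0 hζ).summable
  refine ⟨fun ζ => ∑' m, v m * ζ ^ m, ?_, ?_, ?_⟩
  · intro w hw
    rw [mem_ball_zero_iff] at hw
    obtain ⟨r, hr1, hr2⟩ := exists_between hw
    have hr : 0 < r := (norm_nonneg w).trans_lt hr1
    have hsum : Summable fun m => ‖v m‖ * r ^ m := by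
      have := (hs (r : ℂ) (by rw [Complex.norm_real, Real.norm_of_nonneg hr.le]; exact hr2)).norm
      simpa [norm_mul, norm_pow, Complex.norm_real, abs_of_pos hr] using this
    have hd := Complex.differentiableOn_tsum_of_summable_norm (F := fun m z => v m * z ^ m) hsum
      (U := ball (0 : ℂ) r) (fun l => by fun_prop) isOpen_ball
      (fun l z hz => by
        rw [mem_ball_zero_iff] at hz
        rw [norm_mul, norm_pow]
        gcongr)
    exact (hd.differentiableAt (isOpen_ball.mem_nhds (mem_ball_zero_iff.mpr hr1))).differentiableWithinAt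
  · intro m
    exact coeff_eq_of_hasSum one_pos (fun z hz => (hs z hz).hasSum) m
  · intro ζ h0 hζ
    exact (h ζ h0 hζ).tsum_eq

theorem real_part_id (g q : ℂ) : (conj g * q).re = (‖g + q‖ ^ 2 - ‖g - q‖ ^ 2) / 4 := by
  rw [← Complex.normSq_eq_norm_sq, ← Complex.normSq_eq_norm_sq]
  simp only [Complex.normSq_apply, Complex.mul_re, Complex.conj_re, Complex.conj_im,
    Complex.add_re, Complex.add_im, Complex.sub_re, Complex.sub_im]
  ring

/-- Parseval for `conj g (ζ g' - i g)` -/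
theorem parseval_J {g : ℂ → ℂ} (hg : DifferentiableOn ℂ g (ball 0 1)) (i : ℕ) {r : ℝ}
    (hr : 0 ≤ r) (hr1 : r < 1) :
    HasSum (fun n : ℕ => ((n : ℝ) - i) * ‖coeff g n‖ ^ 2 * r ^ (2 * n))
      ((1 / (2 * π)) * ∫ θ in (-π)..π,
        (conj (g ((r : ℂ) * Complex.exp ((θ : ℂ) * Complex.I))) *
          (((r : ℂ) * Complex.exp ((θ : ℂ) * Complex.I)) *
            deriv g ((r : ℂ) * Complex.exp ((θ : ℂ) * Complex.I))
            - i * g ((r : ℂ) * Complex.exp ((θ : ℂ) * Complex.I)))).re) := by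
  have h1 := parseval_comb hg 1 (1 - i) hr hr1
  have h2 := parseval_comb hg (-1) (1 + i) hr hr1
  have h3 := (h1.sub h2).mul_left (1 / 4)
  have e1 : (fun n : ℕ => 1 / 4 * (‖(1 * (n : ℂ) + (1 - i)) * coeff g n‖ ^ 2 * r ^ (2 * n)
      - ‖((-1) * (n : ℂ) + (1 + i)) * coeff g n‖ ^ 2 * r ^ (2 * n)))
      = fun n : ℕ => ((n : ℝ) - i) * ‖coeff g n‖ ^ 2 * r ^ (2 * n) := by
    funext n
    have e3 : (1 * (n : ℂ) + (1 - i)) = (((n : ℝ) + (1 - i) : ℝ) : ℂ) := by push_cast; ring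
    have e4 : ((-1) * (n : ℂ) + (1 + i)) = (((-1) * (n : ℝ) + (1 + i) : ℝ) : ℂ) := by push_cast; ring
    rw [e3, e4, norm_mul, norm_mul, Complex.norm_real, Complex.norm_real, mul_pow, mul_pow,
      Real.norm_eq_abs, Real.norm_eq_abs, sq_abs, sq_abs]
    ring
  have hc : ∀ α β : ℂ, Continuous (fun θ : ℝ => ‖α * (((r : ℂ) * Complex.exp ((θ : ℂ) * Complex.I)) *
          deriv g ((r : ℂ) * Complex.exp ((θ : ℂ) * Complex.I)))
          + β * g ((r : ℂ) * Complex.exp ((θ : ℂ) * Complex.I))‖ ^ 2) := by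
    intro α β
    have hcirc : Continuous (fun θ : ℝ => (r : ℂ) * Complex.exp ((θ : ℂ) * Complex.I)) := by fun_prop
    have hmem : ∀ θ : ℝ, (r : ℂ) * Complex.exp ((θ : ℂ) * Complex.I) ∈ ball (0 : ℂ) 1 := by
      intro θ
      rw [mem_ball_zero_iff, norm_mul, Complex.norm_exp_ofReal_mul_I, mul_one, Complex.norm_real,
        Real.norm_of_nonneg hr]
      exact hr1
    have c1 : Continuous (fun θ : ℝ => g ((r : ℂ) * Complex.exp ((θ : ℂ) * Complex.I))) :=
      hg.continuousOn.comp_continuous hcirc hmem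
    have c2 : Continuous (fun θ : ℝ => deriv g ((r : ℂ) * Complex.exp ((θ : ℂ) * Complex.I))) :=
      (hg.deriv isOpen_ball).continuousOn.comp_continuous hcirc hmem
    exact ((continuous_const.mul (hcirc.mul c2)).add (continuous_const.mul c1)).norm.pow 2
  have e2 : 1 / 4 * (1 / (2 * π) * (∫ θ in (-π)..π,
        ‖1 * (((r : ℂ) * Complex.exp ((θ : ℂ) * Complex.I)) *
          deriv g ((r : ℂ) * Complex.exp ((θ : ℂ) * Complex.I)))
          + (1 - i) * g ((r : ℂ) * Complex.exp ((θ : ℂ) * Complex.I))‖ ^ 2)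
      - 1 / (2 * π) * ∫ θ in (-π)..π,
        ‖(-1) * (((r : ℂ) * Complex.exp ((θ : ℂ) * Complex.I)) *
          deriv g ((r : ℂ) * Complex.exp ((θ : ℂ) * Complex.I)))
          + (1 + i) * g ((r : ℂ) * Complex.exp ((θ : ℂ) * Complex.I))‖ ^ 2)
      = (1 / (2 * π)) * ∫ θ in (-π)..π,
        (conj (g ((r : ℂ) * Complex.exp ((θ : ℂ) * Complex.I))) *
          (((r : ℂ) * Complex.exp ((θ : ℂ) * Complex.I)) *
            deriv g ((r : ℂ) * Complex.exp ((θ : ℂ) * Complex.I))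
            - i * g ((r : ℂ) * Complex.exp ((θ : ℂ) * Complex.I)))).re := by
    rw [← mul_sub, ← intervalIntegral.integral_sub ((hc 1 (1 - i)).intervalIntegrable _ _)
      ((hc (-1) (1 + i)).intervalIntegrable _ _), mul_left_comm,
      ← intervalIntegral.integral_const_mul]
    congr 2
    funext θ
    rw [real_part_id]
    generalize g ((r : ℂ) * Complex.exp ((θ : ℂ) * Complex.I)) = G
    generalize ((r : ℂ) * Complex.exp ((θ : ℂ) * Complex.I)) *
          deriv g ((r : ℂ) * Complex.exp ((θ : ℂ) * Complex.I)) = Q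
    have e5 : 1 * Q + (1 - (i : ℂ)) * G = G + (Q - i * G) := by ring
    have e6 : (-1) * Q + (1 + (i : ℂ)) * G = G - (Q - i * G) := by ring
    rw [e5, e6]
    ring
  rw [e1, e2] at h3
  exact h3

/-- the area inequality holds with constant one -/
theorem gLe_one {β : ℂ → ℂ} (h : Ext β) : GLe β 1 := by
  intro i P v hP hv M
  obtain ⟨g, hg, hgv, hgf⟩ := exists_g hv
  -- the inequality for each radius
  have key : ∀ r : ℝ, 0 < r → r < 1 → ∑' n : ℕ, ((n : ℝ) - i) * ‖v n‖ ^ 2 * r ^ (2 * n) ≤ 0 ∧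
      Summable (fun n : ℕ => ((n : ℝ) - i) * ‖v n‖ ^ 2 * r ^ (2 * n)) := by
    intro r hr hr1
    have h1 := parseval_J hg i hr.le hr1
    simp_rw [hgv] at h1
    refine ⟨?_, h1.summable⟩
    rw [h1.tsum_eq]
    obtain ⟨c, hc, hc2⟩ := area_ineq h hr hr1 P
    have h2 : (∮ ζ in C(0, r), conj (P.eval (phi β ζ)) *
        ((Polynomial.derivative P).eval (phi β ζ) * dphi β ζ))
        = (Complex.I * ((r : ℂ) ^ (2 * i))⁻¹) * ∫ θ in (0:ℝ)..(2 * π),
          (conj (g ((r : ℂ) * Complex.exp ((θ : ℂ) * Complex.I))) *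
          (((r : ℂ) * Complex.exp ((θ : ℂ) * Complex.I)) *
            deriv g ((r : ℂ) * Complex.exp ((θ : ℂ) * Complex.I))
            - i * g ((r : ℂ) * Complex.exp ((θ : ℂ) * Complex.I)))) := by
      rw [circleIntegral, ← intervalIntegral.integral_const_mul]
      congr 1
      funext θ
      have e0 : circleMap 0 r θ = (r : ℂ) * Complex.exp ((θ : ℂ) * Complex.I) := by
        rw [circleMap, zero_add]
      rw [deriv_circleMap, e0]
      set ζ : ℂ := (r : ℂ) * Complex.exp ((θ : ℂ) * Complex.I) with hζ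
      have hζn : ‖ζ‖ = r := by
        rw [hζ, norm_mul, Complex.norm_exp_ofReal_mul_I, mul_one, Complex.norm_real,
          Real.norm_of_nonneg hr.le]
      have hζ0 : ζ ≠ 0 := by
        rw [← norm_pos_iff, hζn]; exact hr
      have hζb : ζ ∈ ball (0 : ℂ) 1 := by rw [mem_ball_zero_iff, hζn]; exact hr1
      have hgd : HasDerivAt g (deriv g ζ) ζ :=
        (hg.differentiableAt (isOpen_ball.mem_nhds hζb)).hasDerivAt
      have hPd : HasDerivAt (fun ζ => ζ ^ i * P.eval (phi β ζ))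
          (i * ζ ^ (i - 1) * P.eval (phi β ζ) + ζ ^ i * ((Polynomial.derivative P).eval (phi β ζ)
            * dphi β ζ)) ζ := by
        have d1 := hasDerivAt_pow i ζ
        have d2 := (Polynomial.hasDerivAt P (phi β ζ)).comp ζ (hasDerivAt_phi h.diff hζb hζ0)
        exact d1.mul d2
      have hgP : g =ᶠ[𝓝 ζ] fun ζ => ζ ^ i * P.eval (phi β ζ) := by
        have hmem : ball (0 : ℂ) 1 \ {0} ∈ 𝓝 ζ := by
          apply IsOpen.mem_nhds (isOpen_ball.sdiff isClosed_singleton)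
          exact ⟨hζb, hζ0⟩
        filter_upwards [hmem] with w hw
        exact hgf w hw.2 (mem_ball_zero_iff.mp hw.1)
      have e1 : deriv g ζ = i * ζ ^ (i - 1) * P.eval (phi β ζ)
          + ζ ^ i * ((Polynomial.derivative P).eval (phi β ζ) * dphi β ζ) := by
        rw [hgP.deriv_eq, hPd.deriv]
      have e2 : g ζ = ζ ^ i * P.eval (phi β ζ) := hgf ζ hζ0 (by rw [hζn]; exact hr1)
      have e3 : ζ * deriv g ζ - i * g ζ
          = ζ ^ i * (ζ * ((Polynomial.derivative P).eval (phi β ζ) * dphi β ζ)) := by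
        rw [e1, e2]
        cases i with
        | zero => simp
        | succ i =>
          simp only [Nat.add_sub_cancel]
          ring
      rw [e3, e2]
      have e4 : conj ζ * ζ = (r : ℂ) ^ 2 := by
        rw [← hζn, Complex.conj_mul']
      have e5 : conj (ζ ^ i) * ζ ^ i = (r : ℂ) ^ (2 * i) := by
        rw [map_pow, ← mul_pow, e4, ← pow_mul]
      have hr0 : (r : ℂ) ^ (2 * i) ≠ 0 := pow_ne_zero _ (by exact_mod_cast hr.ne')
      rw [map_mul, smul_eq_mul]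
      calc ζ * Complex.I * (conj (Polynomial.eval (phi β ζ) P) *
          (Polynomial.eval (phi β ζ) (Polynomial.derivative P) * dphi β ζ))
          = (Complex.I * ((r : ℂ) ^ (2 * i))⁻¹) * ((r : ℂ) ^ (2 * i) *
            (conj (Polynomial.eval (phi β ζ) P) *
            (ζ * (Polynomial.eval (phi β ζ) (Polynomial.derivative P) * dphi β ζ)))) := by
            field_simp
        _ = _ := by rw [← e5]; ring
    rw [h2] at hc2
    have hr0 : (r : ℂ) ^ (2 * i) ≠ 0 := pow_ne_zero _ (by exact_mod_cast hr.ne')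
    have h3 : (∫ θ in (0:ℝ)..(2 * π),
          (conj (g ((r : ℂ) * Complex.exp ((θ : ℂ) * Complex.I))) *
          (((r : ℂ) * Complex.exp ((θ : ℂ) * Complex.I)) *
            deriv g ((r : ℂ) * Complex.exp ((θ : ℂ) * Complex.I))
            - i * g ((r : ℂ) * Complex.exp ((θ : ℂ) * Complex.I))))) = ((-2 * c * r ^ (2 * i) : ℝ) : ℂ) := by
      have h4 : Complex.I * ((r : ℂ) ^ (2 * i))⁻¹ ≠ 0 := mul_ne_zero Complex.I_ne_zero (inv_ne_zero hr0)
      apply mul_left_cancel₀ h4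
      rw [hc2]
      push_cast
      field_simp
    -- shift of the interval
    set Fn : ℝ → ℂ := fun θ => (conj (g ((r : ℂ) * Complex.exp ((θ : ℂ) * Complex.I))) *
          (((r : ℂ) * Complex.exp ((θ : ℂ) * Complex.I)) *
            deriv g ((r : ℂ) * Complex.exp ((θ : ℂ) * Complex.I))
            - i * g ((r : ℂ) * Complex.exp ((θ : ℂ) * Complex.I)))) with hFn
    have hper : Function.Periodic Fn (2 * π) := by
      intro θ
      have e : Complex.exp (((θ + 2 * π : ℝ) : ℂ) * Complex.I) = Complex.exp ((θ : ℂ) * Complex.I) := by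
        push_cast
        rw [add_mul, Complex.exp_add, Complex.exp_two_pi_mul_I, mul_one]
      simp only [hFn, e]
    have h5 := hper.intervalIntegral_add_eq (-π) 0
    rw [show -π + 2 * π = π by ring, zero_add] at h5
    have hFc : Continuous Fn := by
      have hcirc : Continuous (fun θ : ℝ => (r : ℂ) * Complex.exp ((θ : ℂ) * Complex.I)) := by fun_prop
      have hmem : ∀ θ : ℝ, (r : ℂ) * Complex.exp ((θ : ℂ) * Complex.I) ∈ ball (0 : ℂ) 1 := by
        intro θ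
        rw [mem_ball_zero_iff, norm_mul, Complex.norm_exp_ofReal_mul_I, mul_one, Complex.norm_real,
          Real.norm_of_nonneg hr.le]
        exact hr1
      have c1 : Continuous (fun θ : ℝ => g ((r : ℂ) * Complex.exp ((θ : ℂ) * Complex.I))) :=
        hg.continuousOn.comp_continuous hcirc hmem
      have c2 : Continuous (fun θ : ℝ => deriv g ((r : ℂ) * Complex.exp ((θ : ℂ) * Complex.I))) :=
        (hg.deriv isOpen_ball).continuousOn.comp_continuous hcirc hmem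
      exact (Complex.continuous_conj.comp c1).mul ((hcirc.mul c2).sub (continuous_const.mul c1))
    have h6 : ∫ θ in (-π)..π, (Fn θ).re = (∫ θ in (-π)..π, Fn θ).re := by
      have := Complex.reCLM.intervalIntegral_comp_comm (hFc.intervalIntegrable (μ := volume) (-π) π)
      exact this
    rw [h6, h5, h3, Complex.ofReal_re]
    have hpi := Real.pi_pos
    have : 0 ≤ r ^ (2 * i) := by positivity
    have h7 : 0 ≤ 1 / (2 * π) * (2 * c * r ^ (2 * i)) := by positivity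
    linarith only [h7]
  -- partial sums
  have key2 : ∀ r : ℝ, 0 < r → r < 1 → (∑ m ∈ Finset.range M, ((m - i : ℕ) : ℝ) * ‖v m‖ ^ 2 * r ^ (2 * m))
      ≤ ∑ m ∈ Finset.range i, ((i - m : ℕ) : ℝ) * ‖v m‖ ^ 2 := by
    intro r hr hr1
    obtain ⟨h1, h2⟩ := key r hr hr1
    have h3 : (∑ n ∈ Finset.range i, ((n : ℝ) - i) * ‖v n‖ ^ 2 * r ^ (2 * n))
        + ∑' n : ℕ, (((n + i : ℕ) : ℝ) - i) * ‖v (n + i)‖ ^ 2 * r ^ (2 * (n + i)) ≤ 0 := by
      rw [h2.sum_add_tsum_nat_add i]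
      exact h1
    have h4 : (∑ m ∈ Finset.range M, ((m - i : ℕ) : ℝ) * ‖v m‖ ^ 2 * r ^ (2 * m))
        ≤ ∑ m ∈ Finset.range (i + M), ((m - i : ℕ) : ℝ) * ‖v m‖ ^ 2 * r ^ (2 * m) := by
      apply Finset.sum_le_sum_of_subset_of_nonneg
      · intro m hm
        rw [Finset.mem_range] at hm ⊢
        omega
      · intro m _ _
        positivity
    have h5 : ∑ m ∈ Finset.range (i + M), ((m - i : ℕ) : ℝ) * ‖v m‖ ^ 2 * r ^ (2 * m)
        = ∑ m ∈ Finset.range M, (((m + i : ℕ) : ℝ) - i) * ‖v (m + i)‖ ^ 2 * r ^ (2 * (m + i)) := by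
      rw [Finset.sum_range_add]
      have : ∑ x ∈ Finset.range i, ((x - i : ℕ) : ℝ) * ‖v x‖ ^ 2 * r ^ (2 * x) = 0 := by
        apply Finset.sum_eq_zero
        intro x hx
        rw [Finset.mem_range] at hx
        have : x - i = 0 := by omega
        rw [this]
        simp
      rw [this, zero_add]
      apply Finset.sum_congr rfl
      intro x _
      have e : i + x - i = x := by omega
      rw [e, add_comm i x]
      push_cast
      ring
    have h6 : ∑ m ∈ Finset.range M, (((m + i : ℕ) : ℝ) - i) * ‖v (m + i)‖ ^ 2 * r ^ (2 * (m + i))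
        ≤ ∑' n : ℕ, (((n + i : ℕ) : ℝ) - i) * ‖v (n + i)‖ ^ 2 * r ^ (2 * (n + i)) := by
      apply Summable.sum_le_tsum
      · intro n _
        push_cast
        have : (n : ℝ) + i - i = n := by ring
        rw [this]
        positivity
      · exact (summable_nat_add_iff i).mpr h2
    have h7 : ∑ m ∈ Finset.range i, ((i - m : ℕ) : ℝ) * ‖v m‖ ^ 2 * r ^ (2 * m)
        ≤ ∑ m ∈ Finset.range i, ((i - m : ℕ) : ℝ) * ‖v m‖ ^ 2 := by
      apply Finset.sum_le_sum
      intro m _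
      have : r ^ (2 * m) ≤ 1 := pow_le_one₀ hr.le hr1.le
      have h0 : 0 ≤ ((i - m : ℕ) : ℝ) * ‖v m‖ ^ 2 := by positivity
      nlinarith only [this, h0]
    have h8 : ∑ m ∈ Finset.range i, ((i - m : ℕ) : ℝ) * ‖v m‖ ^ 2 * r ^ (2 * m)
        = - ∑ n ∈ Finset.range i, ((n : ℝ) - i) * ‖v n‖ ^ 2 * r ^ (2 * n) := by
      rw [← Finset.sum_neg_distrib]
      apply Finset.sum_congr rfl
      intro m hm
      rw [Finset.mem_range] at hm
      rw [Nat.cast_sub hm.le]
      ring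
    linarith
  rw [one_pow, one_mul]
  -- limit r → 1
  have hcont : Continuous (fun r : ℝ => ∑ m ∈ Finset.range M, ((m - i : ℕ) : ℝ) * ‖v m‖ ^ 2 * r ^ (2 * m)) := by
    fun_prop
  have hlim : Tendsto (fun r : ℝ => ∑ m ∈ Finset.range M, ((m - i : ℕ) : ℝ) * ‖v m‖ ^ 2 * r ^ (2 * m))
      (𝓝[<] 1) (𝓝 (∑ m ∈ Finset.range M, ((m - i : ℕ) : ℝ) * ‖v m‖ ^ 2 * 1 ^ (2 * m))) :=
    (hcont.tendsto 1).mono_left nhdsWithin_le_nhds
  simp only [one_pow, mul_one] at hlim
  apply le_of_tendsto hlim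
  have hmem : Ioo (0 : ℝ) 1 ∈ 𝓝[<] (1 : ℝ) := Ioo_mem_nhdsLT one_pos
  filter_upwards [hmem] with r hr
  exact key2 r hr.1 hr.2

end Pool.Agent.M16.Helper22.Marshall
end

/- Helper94.T.Helper22.Marshall.LogPhi -/
section
/-!
The logarithm of the two point function `(φ ζ - φ ω)/(ζ⁻¹ - ω⁻¹)`.
-/

set_option autoImplicit false

open MeasureTheory Set Metric Filter Topology
open scoped ENNReal NNReal Real Nat

namespace Pool.Agent.M16.Helper22.Marshall

open Pool.Agent.M16.Helper39.Area (Ext phi dphi qq_ne qq_diff dslope_cont eq_zero_of_exp_one)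

theorem differentiableOn_of_exp {f : ℂ → ℂ} {s : Set ℂ} (hs : IsOpen s) (hf : ContinuousOn f s)
    (he : DifferentiableOn ℂ (fun z => Complex.exp (f z)) s) : DifferentiableOn ℂ f s := by
  intro z hz
  apply DifferentiableAt.differentiableWithinAt
  have hfz : ContinuousAt f z := hf.continuousAt (hs.mem_nhds hz)
  have hez : DifferentiableAt ℂ (fun z => Complex.exp (f z)) z := he.differentiableAt (hs.mem_nhds hz)
  have h1 : DifferentiableAt ℂ (fun w => f z + Complex.log (Complex.exp (f w) * Complex.exp (-f z))) z := by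
    apply DifferentiableAt.const_add
    apply DifferentiableAt.clog
    · exact hez.mul_const _
    · rw [← Complex.exp_add, add_neg_cancel, Complex.exp_zero]
      exact Complex.one_mem_slitPlane
  apply h1.congr_of_eventuallyEq
  have h2 : ∀ᶠ w in 𝓝 z, ‖f w - f z‖ < 1 := by
    have h3 : ContinuousAt (fun w => ‖f w - f z‖) z := (hfz.sub continuousAt_const).norm
    have h4 : ‖f z - f z‖ < 1 := by simp
    exact h3.eventually_lt continuousAt_const h4
  filter_upwards [h2] with w hw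
  rw [← Complex.exp_add, Complex.log_exp]
  · ring
  · have h5 := Complex.abs_im_le_norm (f w - f z)
    have h6 := (abs_lt.mp (h5.trans_lt hw)).1
    have hpi := Real.pi_gt_three
    rw [← sub_eq_add_neg]
    linarith
  · have h5 := Complex.abs_im_le_norm (f w - f z)
    have h6 := (abs_lt.mp (h5.trans_lt hw)).2
    have hpi := Real.pi_gt_three
    rw [← sub_eq_add_neg]
    linarith

theorem qq_symm (β : ℂ → ℂ) (a b : ℂ) :
    Pool.Agent.M16.Helper39.Area.qq β a b = Pool.Agent.M16.Helper39.Area.qq β b a := by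
  unfold Pool.Agent.M16.Helper39.Area.qq
  by_cases h : a = b
  · subst h; rfl
  · have e : dslope β a b = dslope β b a := by
      rw [dslope_of_ne _ (Ne.symm h), dslope_of_ne _ h, slope_comm]
    rw [e]; ring

/-- the data of the logarithm of the two point function -/
structure LogPhi (β H : ℂ → ℂ) (Φ : ℂ → ℂ → ℂ) : Prop where
  sep : SepHol Φ
  exp_eq : ∀ a ∈ ball (0 : ℂ) 1, ∀ b ∈ ball (0 : ℂ) 1,
    Complex.exp (Φ a b) = Pool.Agent.M16.Helper39.Area.qq β a b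
  zero_right : ∀ a ∈ ball (0 : ℂ) 1, Φ a 0 = 0
  symm : ∀ a ∈ ball (0 : ℂ) 1, ∀ b ∈ ball (0 : ℂ) 1, Φ a b = Φ b a
  diag : ∀ a ∈ ball (0 : ℂ) 1, Φ a a = H a

theorem exists_logPhi {β : ℂ → ℂ} (h : Ext β) {H : ℂ → ℂ} (hH : ContinuousOn H (ball 0 1))
    (hH0 : H 0 = 0)
    (hexp : ∀ ζ ∈ ball (0 : ℂ) 1, Complex.exp (H ζ) = 1 - ζ ^ 2 * deriv β ζ) :
    ∃ Φ : ℂ → ℂ → ℂ, LogPhi β H Φ := by
  set U : Set (ℂ × ℂ) := ball 0 1 ×ˢ ball 0 1 with hU
  have hUo : IsOpen U := isOpen_ball.prod isOpen_ball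
  have hUconv : Convex ℝ U := (convex_ball _ _).prod (convex_ball _ _)
  have h00 : ((0:ℂ), (0:ℂ)) ∈ U := ⟨mem_ball_self one_pos, mem_ball_self one_pos⟩
  have h0b : (0:ℂ) ∈ ball (0:ℂ) 1 := mem_ball_self one_pos
  have hUs : IsSimplyConnected U := by
    have hc : ContractibleSpace U := hUconv.contractibleSpace ⟨_, h00⟩
    show SimplyConnectedSpace U
    infer_instance
  have hqc : ContinuousOn (fun p : ℂ × ℂ => Pool.Agent.M16.Helper39.Area.qq β p.1 p.2) U := by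
    unfold Pool.Agent.M16.Helper39.Area.qq
    apply ContinuousOn.sub continuousOn_const
    apply ContinuousOn.mul (by fun_prop)
    exact dslope_cont h.diff
  have hq0 : 0 ∉ (fun p : ℂ × ℂ => Pool.Agent.M16.Helper39.Area.qq β p.1 p.2) '' U := by
    rintro ⟨p, ⟨hp1, hp2⟩, hp⟩
    exact qq_ne h hp1 hp2 hp
  obtain ⟨Φ, hΦc, hΦ⟩ := Complex.exists_continuousOn_eqOn_exp_comp hUs hUo hqc hq0
  have hΦe : ∀ b ∈ ball (0:ℂ) 1, ∀ ζ ∈ ball (0:ℂ) 1,
      Complex.exp (Φ (b, ζ)) = Pool.Agent.M16.Helper39.Area.qq β b ζ :=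
    fun b hb ζ hζ => hΦ (show (b, ζ) ∈ U from ⟨hb, hζ⟩)
  have hq00 : ∀ a : ℂ, Pool.Agent.M16.Helper39.Area.qq β a 0 = 1 := by
    intro a; simp [Pool.Agent.M16.Helper39.Area.qq]
  have hΨe : ∀ a ∈ ball (0:ℂ) 1, ∀ b ∈ ball (0:ℂ) 1,
      Complex.exp (Φ (a, b) - Φ (0, 0)) = Pool.Agent.M16.Helper39.Area.qq β a b := by
    intro a ha b hb
    rw [Complex.exp_sub, hΦe a ha b hb, hΦe 0 h0b 0 h0b, hq00, div_one]
  have hΨc : ContinuousOn (fun p : ℂ × ℂ => Φ (p.1, p.2) - Φ (0, 0)) U := by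
    have : ContinuousOn (fun p : ℂ × ℂ => Φ (p.1, p.2)) U := hΦc
    exact this.sub continuousOn_const
  have hright : ∀ a ∈ ball (0:ℂ) 1,
      DifferentiableOn ℂ (fun b => Φ (a, b) - Φ (0, 0)) (ball 0 1) := by
    intro a ha
    apply differentiableOn_of_exp isOpen_ball
    · exact hΨc.comp (f := fun b => (a, b)) (by fun_prop) (fun b hb => ⟨ha, hb⟩)
    · apply (qq_diff h.diff ha).congr
      intro b hb
      exact hΨe a ha b hb
  have hleft : ∀ b ∈ ball (0:ℂ) 1,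
      DifferentiableOn ℂ (fun a => Φ (a, b) - Φ (0, 0)) (ball 0 1) := by
    intro b hb
    apply differentiableOn_of_exp isOpen_ball
    · exact hΨc.comp (f := fun a => (a, b)) (by fun_prop) (fun a ha => ⟨ha, hb⟩)
    · apply (qq_diff h.diff hb).congr
      intro a ha
      rw [hΨe a ha b hb, qq_symm]
  refine ⟨fun a b => Φ (a, b) - Φ (0, 0), ⟨hΨc, hleft, hright⟩, hΨe, ?_, ?_, ?_⟩
  · apply eq_zero_of_exp_one (convex_ball (0:ℂ) 1).isPreconnected _ _ h0b (by simp)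
    · exact hΨc.comp (f := fun a => (a, 0)) (by fun_prop) (fun a ha => ⟨ha, h0b⟩)
    · intro a ha
      rw [hΨe a ha 0 h0b, hq00]
  · have h1 : ∀ p ∈ U, (Φ (p.1, p.2) - Φ (0, 0)) - (Φ (p.2, p.1) - Φ (0, 0)) = 0 := by
      apply eq_zero_of_exp_one hUconv.isPreconnected _ _ h00 (by simp)
      · apply hΨc.sub
        exact hΨc.comp (f := fun p : ℂ × ℂ => (p.2, p.1)) (by fun_prop) (fun p hp => ⟨hp.2, hp.1⟩)
      · rintro ⟨a, b⟩ ⟨ha, hb⟩
        simp only at ha hb ⊢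
        rw [Complex.exp_sub, hΨe a ha b hb, hΨe b hb a ha, qq_symm β a b, div_self]
        exact qq_ne h hb ha
    intro a ha b hb
    have := h1 (a, b) ⟨ha, hb⟩
    simp only at this
    exact sub_eq_zero.mp this
  · have h1 : ∀ a ∈ ball (0:ℂ) 1, (Φ (a, a) - Φ (0, 0)) - H a = 0 := by
      apply eq_zero_of_exp_one (convex_ball (0:ℂ) 1).isPreconnected _ _ h0b (by simp [hH0])
      · apply ContinuousOn.sub _ hH
        exact hΨc.comp (f := fun a => (a, a)) (by fun_prop) (fun a ha => ⟨ha, ha⟩)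
      · intro a ha
        rw [Complex.exp_sub, hΨe a ha a ha, hexp a ha]
        have e : Pool.Agent.M16.Helper39.Area.qq β a a = 1 - a ^ 2 * deriv β a := by
          unfold Pool.Agent.M16.Helper39.Area.qq
          rw [dslope_same]; ring
        rw [e, div_self (h.ne a ha)]
    intro a ha
    exact sub_eq_zero.mp (h1 a ha)

end Pool.Agent.M16.Helper22.Marshall
end

/- Helper94.T.Helper39.MH.Defs -/
section
/-!
MP_16b0ee, project MH (moment hierarchy for the mean of the power -2 of the derivative):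
common definitions. Everything lives in the unit disc (coordinate `1/z`): `H = log psi'(1/z)`,
`G = exp (-H)`.
-/

set_option autoImplicit false

open MeasureTheory Set Metric Filter Topology
open scoped Real ComplexConjugate

namespace Pool.Agent.M16.Helper39.MH

open Pool.Agent.M16.Helper22.Marshall (coeff SepHol LogPhi dcoeff GLe)
open Pool.Agent.M16.Helper39.Area (Ext phi)

/-- the Euler operator -/
noncomputable def th (F : ℂ → ℂ) (z : ℂ) : ℂ := z * deriv F z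

/-- the jets: `th g0 = 3 g1 - g0^2`, `th gn = (n+3) g(n+1) + sum_(i+j=n, i,j>=1) gi gj` -/
noncomputable def gg (H : ℂ → ℂ) : ℕ → (ℂ → ℂ)
  | 0 => fun z => -(th H z) / 2
  | 1 => fun z => (th (gg H 0) z + (gg H 0 z) ^ 2) / 3
  | (n + 2) => fun z =>
      (th (gg H (n + 1)) z - ∑ i : Fin n, gg H (i.1 + 1) z * gg H (n - i.1) z) / ((n : ℂ) + 4)
termination_by n => n
decreasing_by all_goals omega

/-- the weight of a monomial (a list of indices) -/
def wt (A : List ℕ) : ℕ := (A.map (fun n => n + 1)).sum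

/-- the value of a monomial -/
noncomputable def ev (c : ℕ → ℂ) (A : List ℕ) : ℂ := (A.map c).prod

/-- the formal derivative of the variable `n` -/
noncomputable def dval (c : ℕ → ℂ) (n : ℕ) : ℂ :=
  if n = 0 then 3 * c 1 - c 0 ^ 2
  else ((n : ℂ) + 3) * c (n + 1) + ∑ i ∈ Finset.range (n - 1), c (i + 1) * c (n - 1 - i)

/-- the formal derivative of a monomial -/
noncomputable def Dv (c : ℕ → ℂ) : List ℕ → ℂ
  | [] => 0
  | a :: A => dval c a * ev c A + c a * Dv c A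

/-- the scaled jets -/
noncomputable def cc (H : ℂ → ℂ) (z : ℂ) (n : ℕ) : ℂ :=
  (((1 - ‖z‖ ^ 2) ^ (n + 1) : ℝ) : ℂ) * gg H n z

/-- the class of data: a dilated map of the class -/
structure Data (ρ : ℝ) (β H : ℂ → ℂ) (Φ : ℂ → ℂ → ℂ) : Prop where
  one_lt : 1 < ρ
  ext : Ext β
  logPhi : LogPhi β H Φ
  diff : DifferentiableOn ℂ H (ball 0 ρ)
  bloch : ∀ z ∈ ball (0 : ℂ) 1, (1 - ‖z‖ ^ 2) * ‖deriv H z‖ ≤ 28
  exp_eq : ∀ z ∈ ball (0 : ℂ) 1, Complex.exp (H z) = 1 - z ^ 2 * deriv β z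

end Pool.Agent.M16.Helper39.MH
end

/- Helper94.T.Helper39.MH.Euler -/
section
/-!
MP_16b0ee, project MH: the jets are analytic; the formal derivative.
-/

set_option autoImplicit false

open MeasureTheory Set Metric Filter Topology
open scoped Real ComplexConjugate

namespace Pool.Agent.M16.Helper39.MH

open Pool.Agent.M16.Helper22.Marshall (coeff SepHol LogPhi dcoeff GLe)
open Pool.Agent.M16.Helper39.Area (Ext phi)

/-! ### equation lemmas of the jets -/

theorem gg_zero (H : ℂ → ℂ) (z : ℂ) : gg H 0 z = -(th H z) / 2 := by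
  rw [gg]

theorem gg_one (H : ℂ → ℂ) (z : ℂ) :
    gg H 1 z = (th (gg H 0) z + (gg H 0 z) ^ 2) / 3 := by
  rw [gg.eq_2]

theorem gg_succ (H : ℂ → ℂ) (n : ℕ) (z : ℂ) :
    gg H (n + 2) z = (th (gg H (n + 1)) z
      - ∑ i : Fin n, gg H (i.1 + 1) z * gg H (n - i.1) z) / ((n : ℂ) + 4) := by
  rw [gg.eq_3]

theorem gg_succ_range (H : ℂ → ℂ) (n : ℕ) (z : ℂ) :
    gg H (n + 2) z = (th (gg H (n + 1)) z
      - ∑ i ∈ Finset.range n, gg H (i + 1) z * gg H (n - i) z) / ((n : ℂ) + 4) := by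
  rw [gg_succ, Fin.sum_univ_eq_sum_range (fun i => gg H (i + 1) z * gg H (n - i) z) n]

/-! ### the Euler operator -/

theorem th_diff {F : ℂ → ℂ} {ρ : ℝ} (hF : DifferentiableOn ℂ F (ball 0 ρ)) :
    DifferentiableOn ℂ (th F) (ball 0 ρ) :=
  differentiableOn_id.mul (hF.deriv isOpen_ball)

theorem th_const (c : ℂ) (z : ℂ) : th (fun _ => c) z = 0 := by
  simp [th]

theorem th_add {F K : ℂ → ℂ} {z : ℂ} (hF : DifferentiableAt ℂ F z)
    (hK : DifferentiableAt ℂ K z) : th (fun w => F w + K w) z = th F z + th K z := by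
  unfold th
  rw [deriv_fun_add hF hK]
  ring

theorem th_const_mul (c : ℂ) {F : ℂ → ℂ} {z : ℂ} (hF : DifferentiableAt ℂ F z) :
    th (fun w => c * F w) z = c * th F z := by
  unfold th
  rw [deriv_const_mul _ hF]
  ring

theorem th_mul {F K : ℂ → ℂ} {z : ℂ} (hF : DifferentiableAt ℂ F z)
    (hK : DifferentiableAt ℂ K z) :
    th (fun w => F w * K w) z = th F z * K z + F z * th K z := by
  unfold th
  rw [deriv_fun_mul hF hK]
  ring

theorem th_congr {F K : ℂ → ℂ} {z : ℂ} (h : F =ᶠ[𝓝 z] K) : th F z = th K z := by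
  unfold th
  rw [h.deriv_eq]

theorem coeff_th {F : ℂ → ℂ} (hF : DifferentiableOn ℂ F (ball 0 1)) (m : ℕ) :
    coeff (th F) m = (m : ℂ) * coeff F m :=
  Pool.Agent.M16.Helper22.Marshall.coeff_eq_of_hasSum one_pos
    (fun _ hz => Pool.Agent.M16.Helper22.Marshall.hasSum_coeff_deriv hF hz) m

/-! ### the jets are analytic -/

theorem gg_diff {H : ℂ → ℂ} {ρ : ℝ} (hρ : 0 < ρ) (hH : DifferentiableOn ℂ H (ball 0 ρ)) (n : ℕ) :
    DifferentiableOn ℂ (gg H n) (ball 0 ρ) := by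
  have _ := hρ
  induction n using Nat.strong_induction_on with
  | _ n ih =>
    match n with
    | 0 =>
      have e : gg H 0 = fun z => -(th H z) / 2 := by
        funext z
        exact gg_zero H z
      rw [e]
      exact (th_diff hH).fun_neg.div_const 2
    | 1 =>
      have e : gg H 1 = fun z => (th (gg H 0) z + (gg H 0 z) ^ 2) / 3 := by
        funext z
        exact gg_one H z
      rw [e]
      have h0 := ih 0 (by omega)
      exact ((th_diff h0).fun_add (h0.fun_pow 2)).div_const 3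
    | (k + 2) =>
      have e : gg H (k + 2) = fun z => (th (gg H (k + 1)) z
          - ∑ i ∈ Finset.range k, gg H (i + 1) z * gg H (k - i) z) / ((k : ℂ) + 4) := by
        funext z
        exact gg_succ_range H k z
      rw [e]
      refine ((th_diff (ih (k + 1) (by omega))).fun_sub ?_).div_const _
      apply DifferentiableOn.fun_sum
      intro i hi
      have hi' := Finset.mem_range.mp hi
      exact (ih (i + 1) (by omega)).fun_mul (ih (k - i) (by omega))

theorem th_gg {H : ℂ → ℂ} {z : ℂ} (n : ℕ) :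
    th (gg H n) z = dval (fun k => gg H k z) n := by
  unfold dval
  match n with
  | 0 =>
    simp only [if_true]
    rw [gg_one]
    ring
  | (m + 1) =>
    rw [if_neg (Nat.succ_ne_zero m)]
    have e : m + 1 - 1 = m := by omega
    rw [e]
    have h1 : m + 1 + 1 = m + 2 := rfl
    rw [h1]
    have h := gg_succ_range H m z
    have h4 : (m : ℂ) + 4 ≠ 0 := by
      have : ((m + 4 : ℕ) : ℂ) ≠ 0 := Nat.cast_ne_zero.mpr (by omega)
      push_cast at this
      exact this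
    beta_reduce
    rw [h]
    push_cast
    field_simp
    ring

theorem ev_nil (c : ℕ → ℂ) : ev c [] = 1 := by simp [ev]

theorem ev_cons (c : ℕ → ℂ) (a : ℕ) (A : List ℕ) : ev c (a :: A) = c a * ev c A := by
  simp [ev]

theorem wt_nil : wt [] = 0 := rfl

theorem wt_cons (a : ℕ) (A : List ℕ) : wt (a :: A) = a + 1 + wt A := by
  simp [wt]

theorem ev_gg_diff {H : ℂ → ℂ} {ρ : ℝ} (hρ : 0 < ρ) (hH : DifferentiableOn ℂ H (ball 0 ρ))
    (A : List ℕ) : DifferentiableOn ℂ (fun w => ev (fun k => gg H k w) A) (ball 0 ρ) := by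
  induction A with
  | nil =>
    simp only [ev_nil]
    exact differentiableOn_const 1
  | cons a A ih =>
    simp only [ev_cons]
    exact (gg_diff hρ hH a).fun_mul ih

theorem th_ev_gg {H : ℂ → ℂ} {ρ : ℝ} (hρ : 0 < ρ) (hH : DifferentiableOn ℂ H (ball 0 ρ)) {z : ℂ}
    (hz : z ∈ ball (0 : ℂ) ρ) (A : List ℕ) :
    th (fun w => ev (fun k => gg H k w) A) z = Dv (fun k => gg H k z) A := by
  induction A with
  | nil =>
    simp only [ev_nil, Dv]
    exact th_const 1 z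
  | cons a A ih =>
    simp only [ev_cons, Dv]
    have h1 : DifferentiableAt ℂ (gg H a) z :=
      (gg_diff hρ hH a).differentiableAt (isOpen_ball.mem_nhds hz)
    have h2 : DifferentiableAt ℂ (fun w => ev (fun k => gg H k w) A) z :=
      (ev_gg_diff hρ hH A).differentiableAt (isOpen_ball.mem_nhds hz)
    rw [th_mul h1 h2, ih, th_gg]

/-! ### homogeneity -/

/-- scaling of the variables -/
theorem ev_scale (t : ℂ) (g : ℕ → ℂ) (A : List ℕ) :
    ev (fun n => t ^ (n + 1) * g n) A = t ^ (wt A) * ev g A := by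
  induction A with
  | nil => simp [ev, wt]
  | cons a A ih =>
    rw [ev_cons, ev_cons, ih, wt_cons, pow_add]
    ring

theorem dval_scale (t : ℂ) (g : ℕ → ℂ) (n : ℕ) :
    dval (fun n => t ^ (n + 1) * g n) n = t ^ (n + 2) * dval g n := by
  unfold dval
  by_cases hn : n = 0
  · subst hn
    simp only [if_true]
    ring
  · rw [if_neg hn, if_neg hn, mul_add, Finset.mul_sum]
    congr 1
    · ring
    · apply Finset.sum_congr rfl
      intro i hi
      have hi' := Finset.mem_range.mp hi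
      have e : n + 2 = (i + 1 + 1) + (n - 1 - i + 1) := by omega
      rw [e, pow_add]
      ring

theorem Dv_scale (t : ℂ) (g : ℕ → ℂ) (A : List ℕ) :
    Dv (fun n => t ^ (n + 1) * g n) A = t ^ (wt A + 1) * Dv g A := by
  induction A with
  | nil => simp [Dv]
  | cons a A ih =>
    have e1 : Dv (fun n => t ^ (n + 1) * g n) (a :: A)
        = dval (fun n => t ^ (n + 1) * g n) a * ev (fun n => t ^ (n + 1) * g n) A
          + t ^ (a + 1) * g a * Dv (fun n => t ^ (n + 1) * g n) A := rfl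
    have e2 : Dv g (a :: A) = dval g a * ev g A + g a * Dv g A := rfl
    rw [e1, e2, ih, dval_scale, ev_scale, wt_cons]
    have h1 : a + 1 + wt A + 1 = (a + 2) + wt A := by omega
    rw [h1, pow_add, pow_add, pow_add, pow_add]
    ring

theorem cc_eq (H : ℂ → ℂ) (z : ℂ) :
    cc H z = fun n => (((1 - ‖z‖ ^ 2 : ℝ) : ℂ)) ^ (n + 1) * gg H n z := by
  funext n
  unfold cc
  push_cast
  ring

theorem ev_cc (H : ℂ → ℂ) (z : ℂ) (A : List ℕ) :
    ev (cc H z) A = (((1 - ‖z‖ ^ 2) ^ (wt A) : ℝ) : ℂ) * ev (fun k => gg H k z) A := by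
  rw [cc_eq, ev_scale]
  push_cast
  ring

end Pool.Agent.M16.Helper39.MH
end

/- Helper94.T.Helper39.MH.EulerS -/
section
/-!
MP_16b0ee, project MH: the formal weighted derivative for `G = exp (s H)`, `s` complex
(the case `s = -1` is `DG`).
-/

set_option autoImplicit false

open MeasureTheory Set Metric Filter Topology
open scoped Real ComplexConjugate

namespace Pool.Agent.M16.Helper39.MH

/-- the formal weighted derivative: `th (exp (s H) * A) = exp (s H) * DGs s A` -/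
noncomputable def DGs (s : ℂ) (c : ℕ → ℂ) (A : List ℕ) : ℂ := -2 * s * c 0 * ev c A + Dv c A

theorem th_exp_mul (s : ℂ) {H : ℂ → ℂ} {z : ℂ} (hH : DifferentiableAt ℂ H z) :
    th (fun w => Complex.exp (s * H w)) z = -2 * s * gg H 0 z * Complex.exp (s * H z) := by
  rw [gg_zero]
  unfold th
  rw [deriv_cexp (hH.const_mul s), deriv_const_mul s hH]
  ring

theorem exp_mul_diff (s : ℂ) {H : ℂ → ℂ} {ρ : ℝ} (hH : DifferentiableOn ℂ H (ball 0 ρ)) :
    DifferentiableOn ℂ (fun w => Complex.exp (s * H w)) (ball 0 ρ) :=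
  (hH.const_mul s).cexp

theorem exp_ev_diff_s (s : ℂ) {H : ℂ → ℂ} {ρ : ℝ} (hρ : 0 < ρ)
    (hH : DifferentiableOn ℂ H (ball 0 ρ)) (A : List ℕ) :
    DifferentiableOn ℂ (fun w => Complex.exp (s * H w) * ev (fun k => gg H k w) A) (ball 0 ρ) :=
  (exp_mul_diff s hH).fun_mul (ev_gg_diff hρ hH A)

theorem th_ev_s (s : ℂ) {H : ℂ → ℂ} {ρ : ℝ} (hρ : 0 < ρ) (hH : DifferentiableOn ℂ H (ball 0 ρ))
    {z : ℂ} (hz : z ∈ ball (0 : ℂ) ρ) (A : List ℕ) :
    th (fun w => Complex.exp (s * H w) * ev (fun k => gg H k w) A) z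
      = Complex.exp (s * H z) * DGs s (fun k => gg H k z) A := by
  have h0 : DifferentiableAt ℂ H z := hH.differentiableAt (isOpen_ball.mem_nhds hz)
  have h1 : DifferentiableAt ℂ (fun w => Complex.exp (s * H w)) z :=
    (exp_mul_diff s hH).differentiableAt (isOpen_ball.mem_nhds hz)
  have h2 : DifferentiableAt ℂ (fun w => ev (fun k => gg H k w) A) z :=
    (ev_gg_diff hρ hH A).differentiableAt (isOpen_ball.mem_nhds hz)
  rw [th_mul h1 h2, th_exp_mul s h0, th_ev_gg hρ hH hz, DGs]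
  ring

theorem DGs_scale (s t : ℂ) (g : ℕ → ℂ) (A : List ℕ) :
    DGs s (fun n => t ^ (n + 1) * g n) A = t ^ (wt A + 1) * DGs s g A := by
  unfold DGs
  rw [Dv_scale, ev_scale, pow_add]
  ring

theorem DGs_cc (s : ℂ) (H : ℂ → ℂ) (z : ℂ) (A : List ℕ) :
    DGs s (cc H z) A
      = (((1 - ‖z‖ ^ 2) ^ (wt A + 1) : ℝ) : ℂ) * DGs s (fun k => gg H k z) A := by
  rw [cc_eq, DGs_scale]
  push_cast
  ring

end Pool.Agent.M16.Helper39.MH
end

/- Helper94.T.Helper24.HR2.Defs -/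
section
/-!
MP_16b0ee, project HR2 (exponential square integrability for every exponent below two thirds, for
the whole class Sigma): common definitions. As in the project MH everything lives in the unit disc
(coordinate `1/z`): `H = log psi'(1/z)`; now `G = exp (s H)` with a complex exponent `s`, `|s| < 1`.
-/

set_option autoImplicit false

open MeasureTheory Set Metric Filter Topology
open scoped Real ComplexConjugate

namespace Pool.Agent.M16.Helper24.HR2

open Pool.Agent.M16.Helper22.Half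
open Pool.Agent.M16.Helper22.Marshall (coeff SepHol LogPhi dcoeff GLe)
open Pool.Agent.M16.Helper39.Area (Ext phi)
open Pool.Agent.M16.Helper39.MH

/-- the class of data: dilated maps of the class, with Goluzin's bound -/
structure Dat (ρ : ℝ) (β H : ℂ → ℂ) (Φ : ℂ → ℂ → ℂ) : Prop extends Data ρ β H Φ where
  gol : ∀ z ∈ ball (0 : ℂ) 1, ‖H z‖ ≤ Real.log (1 / (1 - ‖z‖ ^ 2))

/-- weighted area integral with the density `|exp (s H)|^2 (1-|z|^2)^(b-1)` -/
noncomputable def LS (s : ℂ) (H : ℂ → ℂ) (b : ℝ) (f : ℂ → ℝ) : ℝ :=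
  (1 / π) * ∫ z in ball (0 : ℂ) 1,
    (1 - ‖z‖ ^ 2) ^ (b - 1) * ‖Complex.exp (s * H z)‖ ^ 2 * f z

/-- the relation polynomial of the pair `(A, B)` -/
noncomputable def relS (s : ℂ) (b : ℝ) (c : ℕ → ℂ) (A B : List ℕ) : ℂ :=
  DGs s c A * conj (ev c B) - ((b + wt A + wt B : ℝ) : ℂ) * (ev c A * conj (ev c B))

/-- the function `exp (s H) * A`, `A` a monomial in the jets -/
noncomputable def FA (s : ℂ) (H : ℂ → ℂ) (A : List ℕ) (z : ℂ) : ℂ :=
  Complex.exp (s * H z) * ev (fun k => gg H k z) A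

/-- leading parts (weight `2 r`) of the even moments of the antidiagonals -/
noncomputable def XS (s : ℂ) (c : ℕ → ℂ) : ℕ → ℂ
  | 0 => 1
  | 1 => s * (c 0 ^ 2 - c 1) / 2
  | 2 => 3 / 4 * (s ^ 2 - s) * (c 0 ^ 2 - c 1) ^ 2
      + 3 / 2 * s * (-(c 3) + c 1 ^ 2 + 2 * c 0 * c 2 - 3 * c 0 ^ 2 * c 1 + c 0 ^ 4)
  | _ => 0

/-- the lower order part of the second moment -/
noncomputable def low2S (s : ℂ) (g : ℕ → ℂ) : ℂ := 1 / 3 * s * g 0

/-- the lower order part of the fourth moment -/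
noncomputable def low4S (s : ℂ) (g : ℕ → ℂ) : ℂ :=
  s * (6 / 5 * g 2 - 7 / 5 * g 0 * g 1 + 1 / 5 * g 0 ^ 3 - 1 / 5 * g 1 - 2 / 15 * g 0 ^ 2
      - 1 / 15 * g 0)
    + s ^ 2 * (-(g 0 * g 1) + g 0 ^ 3 + 1 / 3 * g 0 ^ 2)

/-- the Pochhammer symbol -/
noncomputable def poch (x : ℝ) (n : ℕ) : ℝ := ∏ k ∈ Finset.range n, (x + k)

/-- the area form in the scaled variables (fixed exponent) -/
noncomputable def qS (Q : ℕ → ℕ → ℂ) (s : ℂ) (b : ℝ) (c : ℕ → ℂ) : ℝ :=
  b * (b + 1) * (b + 2) * ∑ r ∈ Finset.range 3, ∑ t ∈ Finset.range 3,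
    (Q r t * (XS s c t * conj (XS s c r))).re / poch b (2 * r + 2 * t)

/-- the normalised even moments of an antidiagonal -/
noncomputable def vS (d : ℕ → ℂ) (m r : ℕ) : ℂ :=
  (∑ l ∈ Finset.range (m + 1), d l * ((l : ℂ) - m / 2) ^ (2 * r)) / (m : ℂ) ^ (2 * r)

/-- the functionals `(s+2)_n / (n+1)! * mu_(n+1)`, `mu_j` the moment of order `j` at the end point,
expressed by the central moments -/
noncomputable def muS (s : ℂ) (K : ℕ) (g : ℕ → ℂ) (n : ℕ) : ℂ :=
  (∏ k ∈ Finset.range n, (s + 2 + k)) / (Nat.factorial (n + 1) : ℂ)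
    * ∑ r ∈ Finset.range K, (Nat.choose (n + 1) (2 * r) : ℂ) * (1 / 2) ^ (n + 1 - 2 * r) * g r

/-- the moments of the normalised beta density: `E X^n` -/
noncomputable def Gm (s : ℂ) (b : ℝ) (n : ℕ) : ℝ :=
  ∏ k ∈ Finset.range n, (2 * s.re + 2 + k) / (b + 3 + k)

/-- the quadratic part of the test form -/
noncomputable def gamF (s : ℂ) (b : ℝ) (N : ℕ) (y : ℕ → ℂ) : ℝ :=
  ∑ n ∈ Finset.range N, ∑ k ∈ Finset.range N, Gm s b (n + k) * (y n * conj (y k)).re

/-- the linear part of the test form -/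
noncomputable def linF (s : ℂ) (K N : ℕ) (g y : ℕ → ℂ) : ℝ :=
  2 * (∑ n ∈ Finset.range N, conj (y n) * muS s K g n).re

/-- the upper form (partial sums) -/
noncomputable def Nf (s : ℂ) (b : ℝ) (d : ℕ → ℂ) (m J : ℕ) : ℝ :=
  ∑ j ∈ Finset.range J, ((j : ℝ) + 1) * (pq (b + 1 - 2 * s.re) (m + 1 + j))⁻¹
    * ‖Vd s d m (m + 1 + j)‖ ^ 2

/-- the limit of the partial products `kap` -/
noncomputable def KS (s : ℂ) : ℝ := ⨆ n, kap s.re (‖s‖ ^ 2) n

/-! discrete quantities: `P = sum |U_i|^2 / aD_i` and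
`V_(m+1+j) = (1+s) pq(-s)(m+1+j) / m * (2/(1+s) * sum U_i + sum U_i kD_ij)` for
`U_i = pq(s+2)(m-1-i) V_i` -/

noncomputable def aD (s : ℂ) (b : ℝ) (m i : ℕ) : ℝ :=
  kap s.re (‖s‖ ^ 2) (m - 1 - i) * pq (2 + 2 * s.re) (m - 1 - i) * pq (b + 1 - 2 * s.re) i

noncomputable def bD (s : ℂ) (b : ℝ) (m j : ℕ) : ℝ :=
  ((j : ℝ) + 1) * ‖(1 + s) * pq (-s) (m + 1 + j)‖ ^ 2 / pq (b + 1 - 2 * s.re) (m + 1 + j)

noncomputable def kD (s : ℂ) (m i j : ℕ) : ℂ := (m : ℂ) / (((j + 1 + i : ℕ) : ℂ) - s)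

noncomputable def XD (s : ℂ) (m n i : ℕ) : ℂ :=
  (∏ k ∈ Finset.range n, (s + 1 + k + ((m - i : ℕ) : ℂ))) / (m : ℂ) ^ n

noncomputable def YD (m j : ℕ) : ℝ := (m : ℝ) / (m + 1 + j)

noncomputable def rD (s : ℂ) (D : ℕ) (p : ℕ → ℕ → ℝ) (m i j : ℕ) : ℂ :=
  kD s m i j - ∑ n ∈ Finset.range D, ∑ l ∈ Finset.range D,
    (p n l : ℂ) * XD s m n i * (YD m j : ℂ) ^ (l + 1)

noncomputable def UD (s : ℂ) (d : ℕ → ℂ) (m i : ℕ) : ℂ := pq (s + 2) (m - 1 - i) * Vd s d m i

/-! the limit densities; the variables are `x = i / m` in `(0, 1)` and `y = j / m` in `(0, ∞)`,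
`X = 1 - x`, `Y = 1 / (1 + y)`, and the kernel is `1 / (x + y) = Y / (1 - X Y)` -/

noncomputable def alp (s : ℂ) (b : ℝ) (x : ℝ) : ℝ :=
  (1 - x) ^ (2 * s.re + 1) * x ^ (b - 2 * s.re)

noncomputable def bet (b : ℝ) (y : ℝ) : ℝ := y * (1 + y) ^ (-b - 2)

noncomputable def B0 (s : ℂ) (b : ℝ) : ℝ := ∫ x in Ioo (0 : ℝ) 1, alp s b x

/-- the constant `|sin (pi s) / pi|^2` -/
noncomputable def cst (s : ℂ) : ℝ := ‖Complex.sin (π * s) / π‖ ^ 2

/-- the main constant -/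
noncomputable def Es (s : ℂ) (b : ℝ) : ℝ := cst s * B0 s b

/-- a polynomial kernel: coefficients `p n l` of `X^n Y^(l+1)`, `n, l < D` -/
noncomputable def kp (D : ℕ) (p : ℕ → ℕ → ℝ) (X Y : ℝ) : ℝ :=
  ∑ n ∈ Finset.range D, ∑ l ∈ Finset.range D, p n l * X ^ n * Y ^ (l + 1)

/-- the remainder of the kernel -/
noncomputable def RR (D : ℕ) (p : ℕ → ℕ → ℝ) (x y : ℝ) : ℝ :=
  1 / (x + y) - kp D p (1 - x) (1 / (1 + y))

/-- the squared Hilbert-Schmidt norm of the remainder -/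
noncomputable def HSn (s : ℂ) (b : ℝ) (D : ℕ) (p : ℕ → ℕ → ℝ) : ℝ :=
  (1 / B0 s b) * ∫ x in Ioo (0 : ℝ) 1, ∫ y in Ioi (0 : ℝ), alp s b x * bet b y * RR D p x y ^ 2

/-- the mixed moments of the remainder, `X^n Y^l` -/
noncomputable def xln (s : ℂ) (b : ℝ) (D : ℕ) (p : ℕ → ℕ → ℝ) (l n : ℕ) : ℝ :=
  (1 / B0 s b) * ∫ x in Ioo (0 : ℝ) 1, ∫ y in Ioi (0 : ℝ),
    alp s b x * bet b y * (1 - x) ^ n * (1 / (1 + y)) ^ l * RR D p x y

/-- coefficients (of `Y^l`, `l ≤ D`) of the approximation of the inner function -/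
noncomputable def FF (s : ℂ) (D : ℕ) (p : ℕ → ℕ → ℝ) (μ : ℕ → ℂ) : ℕ → ℂ
  | 0 => 2 / (1 + s) * μ 0
  | (l + 1) => ∑ n ∈ Finset.range D, (p n l : ℂ) * μ n

/-- the main part of the upper form -/
noncomputable def Nmain (b : ℝ) (D : ℕ) (F : ℕ → ℂ) : ℝ :=
  ∑ l ∈ Finset.range (D + 1), ∑ k ∈ Finset.range (D + 1),
    (F l * conj (F k)).re / ((b + l + k) * (b + l + k + 1))

/-- the cross part with the test vector -/
noncomputable def Nx (s : ℂ) (b : ℝ) (D N : ℕ) (p : ℕ → ℕ → ℝ) (F y : ℕ → ℂ) : ℝ :=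
  2 * ∑ l ∈ Finset.range (D + 1), ∑ n ∈ Finset.range N,
    xln s b D p l n * (conj (F l) * y n).re

/-- the cross functions `int bet Y^l RR dy` -/
noncomputable def rl (b : ℝ) (D : ℕ) (p : ℕ → ℕ → ℝ) (l : ℕ) (x : ℝ) : ℝ :=
  ∫ y in Ioi (0 : ℝ), bet b y * (1 / (1 + y)) ^ l * RR D p x y

/-- the norm of the cross functional -/
noncomputable def Ncross (s : ℂ) (b : ℝ) (D : ℕ) (p : ℕ → ℕ → ℝ) (F : ℕ → ℂ) : ℝ :=
  (1 / B0 s b) * ∫ x in Ioo (0 : ℝ) 1, alp s b x
    * ‖∑ l ∈ Finset.range (D + 1), F l * (rl b D p l x : ℂ)‖ ^ 2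

/-- multiplication of a vector by a matrix -/
noncomputable def Tg (K : ℕ) (T : ℕ → ℕ → ℂ) (g : ℕ → ℂ) (n : ℕ) : ℂ :=
  ∑ r ∈ Finset.range K, T n r * g r

/-- value of the Hermitian form `Q` -/
noncomputable def hF (K : ℕ) (Q : ℕ → ℕ → ℂ) (g : ℕ → ℂ) : ℝ :=
  ∑ r ∈ Finset.range K, ∑ t ∈ Finset.range K, (Q r t * (g t * conj (g r))).re

/-! the region of small exponents: everything is divided by `s` -/

/-- the even moments divided by `s`, leading parts: weights 1, 2, 4 -/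
noncomputable def YS (s : ℂ) (c : ℕ → ℂ) : ℕ → ℂ
  | 0 => -2 * c 0
  | 1 => (c 0 ^ 2 - c 1) / 2
  | 2 => 3 / 4 * (s - 1) * (c 0 ^ 2 - c 1) ^ 2
      + 3 / 2 * (-(c 3) + c 1 ^ 2 + 2 * c 0 * c 2 - 3 * c 0 ^ 2 * c 1 + c 0 ^ 4)
  | _ => 0

/-- the weights 1, 2, 4 -/
def wY : ℕ → ℕ
  | 0 => 1
  | 1 => 2
  | 2 => 4
  | _ => 0

/-- the area form in the scaled variables (small exponents) -/
noncomputable def qY (Q : ℕ → ℕ → ℂ) (s : ℂ) (b : ℝ) (c : ℕ → ℂ) : ℝ :=
  (b + 1) * (b + 2) * ∑ r ∈ Finset.range 3, ∑ t ∈ Finset.range 3,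
    (Q r t * (YS s c t * conj (YS s c r))).re / poch (b + 1) (wY r + wY t - 1)

end Pool.Agent.M16.Helper24.HR2
end

/- Helper94.T.Helper24.HR2.Defs2 -/
section
/-!
MP_16b0ee, project HR2, second form of the area inequality: the term `|R u0|^2` of the test
polynomial is kept exactly instead of being bounded by the Hilbert-Schmidt norm.
-/

set_option autoImplicit false

open MeasureTheory Set Metric Filter Topology
open scoped Real ComplexConjugate

namespace Pool.Agent.M16.Helper24.HR2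

open Pool.Agent.M16.Helper22.Half
open Pool.Agent.M16.Helper39.MH

/-- the remainder tested on the power `X^n` -/
noncomputable def ryn (s : ℂ) (b : ℝ) (D : ℕ) (p : ℕ → ℕ → ℝ) (n : ℕ) (y : ℝ) : ℝ :=
  (1 / B0 s b) * ∫ x in Ioo (0 : ℝ) 1, alp s b x * (1 - x) ^ n * RR D p x y

/-- the Gram matrix of the remainder on the powers -/
noncomputable def MR (s : ℂ) (b : ℝ) (D : ℕ) (p : ℕ → ℕ → ℝ) (n k : ℕ) : ℝ :=
  ∫ y in Ioi (0 : ℝ), bet b y * ryn s b D p n y * ryn s b D p k y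

noncomputable def gamR (s : ℂ) (b : ℝ) (N D : ℕ) (p : ℕ → ℕ → ℝ) (y : ℕ → ℂ) : ℝ :=
  ∑ n ∈ Finset.range N, ∑ k ∈ Finset.range N, MR s b D p n k * (y n * conj (y k)).re

/-- the second limit form of `P - N` (lower bound) -/
noncomputable def limG (s : ℂ) (b : ℝ) (K N D : ℕ) (p : ℕ → ℕ → ℝ) (κ τ : ℝ)
    (g y : ℕ → ℂ) : ℝ :=
  linF s K N g y - gamF s b N y - (1 + 1 / κ) * Es s b * gamR s b N D p y
    - Es s b * Nmain b D (FF s D p (muS s K g))
    - Es s b * Nx s b D N p (FF s D p (muS s K g)) y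
    - Es s b ^ 2 / τ * Ncross s b D p (FF s D p (muS s K g))

/-- the inequality `q ≤ P - N` for all large orders, up to small errors -/
def PF (s : ℂ) (b : ℝ) (K : ℕ) (q : (ℕ → ℂ) → ℝ) : Prop :=
  ∀ δ : ℝ, 0 < δ → ∃ m0 : ℕ, ∀ m : ℕ, 1 ≤ m → m0 ≤ m → ∀ (J : ℕ) (d : ℕ → ℂ),
    (∀ l ≤ m, d l = d (m - l)) →
      (m : ℝ) ^ 2 / (KS s * pq (b + 3) (m - 1))
        * (q (vS d m) - δ * ∑ r ∈ Finset.range K, ‖vS d m r‖ ^ 2)
      ≤ Pf s b d m - Nf s b d m J

/-- convolutions of the moments -/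
noncomputable def CN (s : ℂ) (b : ℝ) (n k N : ℕ) : ℝ :=
  ∑ j ∈ Finset.range (N + 1), Gm s b (n + j) * Gm s b (k + (N - j))

/-- the Gram matrix of the kernel `1 / (x + y)` on the powers -/
noncomputable def MM (s : ℂ) (b : ℝ) (n k : ℕ) : ℝ :=
  ∑' N : ℕ, CN s b n k N / ((b + N + 2) * (b + N + 3))

/-- coefficients of the projection of the polynomial kernel -/
noncomputable def pil (s : ℂ) (b : ℝ) (D : ℕ) (p : ℕ → ℕ → ℝ) (n l : ℕ) : ℝ :=
  ∑ n' ∈ Finset.range D, p n' l * Gm s b (n + n')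

/-- test functions for the tail -/
noncomputable def ph (c1 c2 b : ℝ) (N : ℕ) : ℝ :=
  c1 / (N + 2 * b + 5) + c2 / ((N + 2 * b + 5) * (N + 2 * b + 6))

noncomputable def ch (c1 c2 b : ℝ) (N : ℕ) : ℝ :=
  c1 / (N + b + 3) + c2 / ((N + b + 3) * (N + b + 4))

end Pool.Agent.M16.Helper24.HR2
end
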