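import Mathlib
import Pool.Agent.Helper60.M16.G03
import Pool.Agent.Helper60.M16.G08

/- Helper94.T.Helper24.HR2.PLowerA -/
section
/-!
MP_16b0ee, project HR2, section R5, first half: the constant `KS`, the lower form in the variables
`UD`, and the Gram matrix of the test functions.
-/

set_option autoImplicit false

open MeasureTheory Set Metric Filter Topology
open scoped Real ComplexConjugate

namespace Pool.Agent.M16.Helper24.HR2

open Pool.Agent.M16.Helper22.Half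

theorem kap_exp_bound {r ρ : ℝ} (hr : -1 < r) (hρ : 0 ≤ ρ) (n : ℕ) :
    kap r ρ (n + 1) ≤ kap r ρ 1 * Real.exp (ρ * (1 - 1 / ((n : ℝ) + 1))) := by
  induction n with
  | zero => simp
  | succ n ih =>
    have hn : (0 : ℝ) ≤ n := Nat.cast_nonneg n
    have h1 : 1 + ρ / ((((n + 1 : ℕ) : ℝ) + 2) * (((n + 1 : ℕ) : ℝ) + 2 + 2 * r))
        ≤ Real.exp (ρ / (((n : ℝ) + 2) * ((n : ℝ) + 1))) := by
      have h2 : ρ / ((((n + 1 : ℕ) : ℝ) + 2) * (((n + 1 : ℕ) : ℝ) + 2 + 2 * r))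
          ≤ ρ / (((n : ℝ) + 2) * ((n : ℝ) + 1)) := by
        apply div_le_div_of_nonneg_left hρ (by positivity)
        push_cast
        apply mul_le_mul <;> linarith only [hr]
      have h3 := Real.add_one_le_exp (ρ / (((n : ℝ) + 2) * ((n : ℝ) + 1)))
      linarith only [h2, h3]
    have h4 : Real.exp (ρ * (1 - 1 / (((n + 1 : ℕ) : ℝ) + 1)))
        = Real.exp (ρ * (1 - 1 / ((n : ℝ) + 1))) * Real.exp (ρ / (((n : ℝ) + 2) * ((n : ℝ) + 1))) := by
      rw [← Real.exp_add]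
      congr 1
      push_cast
      field_simp
      ring
    have h5 : 0 ≤ kap r ρ 1 := zero_le_one.trans (kap_ge_one hr hρ 1)
    have h6 : 0 ≤ 1 + ρ / ((((n + 1 : ℕ) : ℝ) + 2) * (((n + 1 : ℕ) : ℝ) + 2 + 2 * r)) := by
      have : 0 ≤ ((n + 1 : ℕ) : ℝ) + 2 + 2 * r := by push_cast; linarith only [hr]
      positivity
    rw [kap_succ, h4, ← mul_assoc]
    exact mul_le_mul ih h1 h6 (mul_nonneg h5 (Real.exp_pos _).le)

theorem kap_bddAbove {r ρ : ℝ} (hr : -1 < r) (hρ : 0 ≤ ρ) :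
    BddAbove (Set.range fun n => kap r ρ n) := by
  have h5 : 0 ≤ kap r ρ 1 := zero_le_one.trans (kap_ge_one hr hρ 1)
  refine ⟨kap r ρ 1 * Real.exp ρ, ?_⟩
  rintro _ ⟨n, rfl⟩
  refine (kap_mono hr hρ (Nat.le_succ n)).trans ((kap_exp_bound hr hρ n).trans ?_)
  apply mul_le_mul_of_nonneg_left _ h5
  apply Real.exp_le_exp.mpr
  have : 0 ≤ 1 / ((n : ℝ) + 1) := by positivity
  nlinarith only [hρ, this]

theorem neg_one_lt_re {s : ℂ} (hs : ‖s‖ < 1) : -1 < s.re :=
  (abs_lt.mp ((Complex.abs_re_le_norm s).trans_lt hs)).1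

theorem KS_facts {s : ℂ} (hs : ‖s‖ < 1) : 1 ≤ KS s ∧ (∀ n, kap s.re (‖s‖ ^ 2) n ≤ KS s)
    ∧ Tendsto (fun n => kap s.re (‖s‖ ^ 2) n) atTop (𝓝 (KS s)) := by
  have hr := neg_one_lt_re hs
  have hb := kap_bddAbove hr (sq_nonneg ‖s‖)
  have h1 : ∀ n, kap s.re (‖s‖ ^ 2) n ≤ KS s := fun n => le_ciSup hb n
  refine ⟨(kap_ge_one hr (sq_nonneg ‖s‖) 0).trans (h1 0), h1, ?_⟩
  exact tendsto_atTop_ciSup (fun a b hab => kap_mono hr (sq_nonneg ‖s‖) hab) hb

theorem one_add_ne_zero_of {s : ℂ} (hs : ‖s‖ < 1) : 1 + s ≠ 0 := by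
  intro h
  have h2 : s = -1 := by linear_combination h
  rw [h2, norm_neg, norm_one] at hs
  exact lt_irrefl _ hs

/-- the norm of the coefficients of `(1-x)^(-s-2)` -/
theorem norm_pq_two {s : ℂ} (hs : ‖s‖ < 1) (n : ℕ) :
    ‖pq (s + 2) n‖ ^ 2 = ((n : ℝ) + 1) * (kap s.re (‖s‖ ^ 2) n * pq (2 + 2 * s.re) n) := by
  have h1 := norm_Q s (neg_one_lt_re hs) n
  have h2 := pq_shift (1 + s) n
  have e : 1 + s + 1 = s + 2 := by ring
  rw [e] at h2
  have h3 : ((n : ℝ) + 1) ^ 2 * ‖pq (1 + s) (n + 1)‖ ^ 2 = ‖1 + s‖ ^ 2 * ‖pq (s + 2) n‖ ^ 2 := by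
    have h4 : ‖((n : ℂ) + 1)‖ = (n : ℝ) + 1 := by
      have : ((n : ℂ) + 1) = (((n : ℝ) + 1 : ℝ) : ℂ) := by push_cast; ring
      rw [this, Complex.norm_real, Real.norm_of_nonneg (by positivity)]
    rw [← h4, ← mul_pow, ← norm_mul, h2, norm_mul, mul_pow]
  have h5 : ‖1 + s‖ ^ 2 ≠ 0 := pow_ne_zero 2 (norm_ne_zero_iff.mpr (one_add_ne_zero_of hs))
  apply mul_left_cancel₀ h5
  rw [← h3]
  linear_combination ((n : ℝ) + 1) * h1

theorem Pf_eq {s : ℂ} (hs : ‖s‖ < 1) {b : ℝ} (hσ : 0 < b + 1 - 2 * s.re) (d : ℕ → ℂ) (m : ℕ) :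
    Pf s b d m = ∑ i ∈ Finset.range m, ‖UD s d m i‖ ^ 2 / aD s b m i := by
  unfold Pf
  apply Finset.sum_congr rfl
  intro i hi
  rw [Finset.mem_range] at hi
  have hr := neg_one_lt_re hs
  have p1 := (pq_pos hσ i).ne'
  have p2 := (pq_pos (by linarith only [hr] : 0 < 2 + 2 * s.re) (m - 1 - i)).ne'
  have p3 := (zero_lt_one.trans_le (kap_ge_one hr (sq_nonneg ‖s‖) (m - 1 - i))).ne'
  have e : ((m - i : ℕ) : ℝ) = ((m - 1 - i : ℕ) : ℝ) + 1 := by
    have : m - i = (m - 1 - i) + 1 := by omega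
    rw [this]
    push_cast
    ring
  unfold UD aD
  rw [norm_mul, mul_pow, norm_pq_two hs, e]
  generalize kap s.re (‖s‖ ^ 2) (m - 1 - i) = k0 at *
  generalize pq (2 + 2 * s.re) (m - 1 - i) = q0 at *
  field_simp

/-! the Gram matrix -/

/-- products of nearly equal factors -/
theorem prod_close {B ε : ℝ} (hB : 1 ≤ B) (hε : 0 ≤ ε) {t : ℂ} (ht : ‖t‖ ≤ 1) (n : ℕ) (x : ℕ → ℂ)
    (hx : ∀ j < n, ‖x j‖ ≤ B) (hxt : ∀ j < n, ‖x j - t‖ ≤ ε) :
    ‖∏ j ∈ Finset.range n, x j - t ^ n‖ ≤ n * B ^ n * ε := by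
  induction n with
  | zero => simp
  | succ n ih =>
    have h1 := ih (fun j hj => hx j (by omega)) fun j hj => hxt j (by omega)
    rw [Finset.prod_range_succ, pow_succ]
    have e : (∏ j ∈ Finset.range n, x j) * x n - t ^ n * t
        = (∏ j ∈ Finset.range n, x j - t ^ n) * x n + t ^ n * (x n - t) := by ring
    rw [e]
    have h2 : ‖t ^ n‖ ≤ 1 := by
      rw [norm_pow]
      exact pow_le_one₀ (norm_nonneg _) ht
    have h3 : 1 ≤ B ^ (n + 1) := one_le_pow₀ hB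
    calc ‖(∏ j ∈ Finset.range n, x j - t ^ n) * x n + t ^ n * (x n - t)‖
        ≤ ‖∏ j ∈ Finset.range n, x j - t ^ n‖ * ‖x n‖ + ‖t ^ n‖ * ‖x n - t‖ := by
          refine (norm_add_le _ _).trans ?_
          rw [norm_mul, norm_mul]
      _ ≤ (n * B ^ n * ε) * B + 1 * ε := by
          apply add_le_add
          · exact mul_le_mul h1 (hx n (by omega)) (norm_nonneg _) (by positivity)
          · exact mul_le_mul h2 (hxt n (by omega)) (norm_nonneg _) zero_le_one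
      _ ≤ ((n + 1 : ℕ) : ℝ) * B ^ (n + 1) * ε := by
          push_cast
          have : ε ≤ B ^ (n + 1) * ε := le_mul_of_one_le_left hε h3
          have e2 : ((n : ℝ) + 1) * B ^ (n + 1) * ε = n * B ^ n * ε * B + B ^ (n + 1) * ε := by
            rw [pow_succ]
            ring
          rw [e2]
          linarith

/-- products of factors `(x + c_j) / m` with `0 ≤ x ≤ m` -/
theorem prod_close' {A : ℝ} (hA : 0 ≤ A) {m : ℕ} (hm : 1 ≤ m) {x : ℝ} (hx0 : 0 ≤ x)
    (hxm : x ≤ m) (n : ℕ) (c : ℕ → ℂ) (hc : ∀ j < n, ‖c j‖ ≤ A) :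
    ‖(∏ j ∈ Finset.range n, ((x : ℂ) + c j)) / (m : ℂ) ^ n - ((x / m : ℝ) : ℂ) ^ n‖
      ≤ n * (A + 1) ^ (n + 1) / m := by
  have hm0 : (0 : ℝ) < m := by exact_mod_cast (by omega : 0 < m)
  have hm1 : (1 : ℝ) ≤ m := by exact_mod_cast hm
  have hmc : (m : ℂ) ≠ 0 := by exact_mod_cast hm0.ne'
  have ht : ‖((x / m : ℝ) : ℂ)‖ ≤ 1 := by
    rw [Complex.norm_real, Real.norm_of_nonneg (by positivity), div_le_one hm0]
    exact hxm
  have h1 : ∀ j < n, ‖((x : ℂ) + c j) / m - ((x / m : ℝ) : ℂ)‖ ≤ (A + 1) / m := by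
    intro j hj
    have e : ((x : ℂ) + c j) / m - ((x / m : ℝ) : ℂ) = c j / m := by
      push_cast
      field_simp
      ring
    rw [e, norm_div, Complex.norm_natCast]
    apply div_le_div_of_nonneg_right _ hm0.le
    have := hc j hj
    linarith only [this]
  have h2 : ∀ j < n, ‖((x : ℂ) + c j) / m‖ ≤ A + 1 := by
    intro j hj
    rw [norm_div, Complex.norm_natCast, div_le_iff₀ hm0]
    have h3 : ‖(x : ℂ) + c j‖ ≤ x + A := by
      refine (norm_add_le _ _).trans ?_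
      rw [Complex.norm_real, Real.norm_of_nonneg hx0]
      have := hc j hj
      linarith only [this]
    nlinarith only [hA, hxm, hm1, h3]
  have h4 := prod_close (by linarith only [hA] : 1 ≤ A + 1) (by positivity : 0 ≤ (A + 1) / m) ht n
    (fun j => ((x : ℂ) + c j) / m) h2 h1
  rw [Finset.prod_div_distrib, Finset.prod_const, Finset.card_range] at h4
  refine h4.trans (le_of_eq ?_)
  rw [pow_succ]
  ring

/-- weighted means of nearly equal functions -/
theorem mean_close {m : ℕ} (w : ℕ → ℝ) (hw : ∀ i < m, 0 ≤ w i) {S : ℝ} (hS : 0 < S)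
    (hwS : ∑ i ∈ Finset.range m, w i = S) (f g : ℕ → ℂ) {δ : ℝ}
    (hfg : ∀ i < m, ‖f i - g i‖ ≤ δ) :
    ‖(∑ i ∈ Finset.range m, (w i : ℂ) * f i) / (S : ℂ)
      - (∑ i ∈ Finset.range m, (w i : ℂ) * g i) / (S : ℂ)‖ ≤ δ := by
  rw [← sub_div, ← Finset.sum_sub_distrib, norm_div, Complex.norm_real,
    Real.norm_of_nonneg hS.le, div_le_iff₀ hS]
  calc ‖∑ i ∈ Finset.range m, ((w i : ℂ) * f i - (w i : ℂ) * g i)‖
      ≤ ∑ i ∈ Finset.range m, ‖(w i : ℂ) * f i - (w i : ℂ) * g i‖ := norm_sum_le _ _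
    _ ≤ ∑ i ∈ Finset.range m, w i * δ := by
        apply Finset.sum_le_sum
        intro i hi
        rw [Finset.mem_range] at hi
        rw [← mul_sub, norm_mul, Complex.norm_real, Real.norm_of_nonneg (hw i hi)]
        exact mul_le_mul_of_nonneg_left (hfg i hi) (hw i hi)
    _ = δ * S := by rw [← Finset.sum_mul, hwS, mul_comm]

/-- iterated shift of the parameter -/
theorem pq_rise (z : ℝ) (M n : ℕ) :
    pq z n * ∏ j ∈ Finset.range M, (z + n + j) = (∏ j ∈ Finset.range M, (z + j)) * pq (z + M) n := by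
  induction M with
  | zero => simp
  | succ M ih =>
    rw [Finset.prod_range_succ, Finset.prod_range_succ, ← mul_assoc, ih]
    have h := pq_add_one (z + M) n
    have e : z + ((M + 1 : ℕ) : ℝ) = z + M + 1 := by push_cast; ring
    rw [e]
    linear_combination -(∏ j ∈ Finset.range M, (z + (j : ℝ))) * h

/-- the rising moments of the weights -/
theorem sum_rise (z σ : ℝ) (M : ℕ) {m : ℕ} (hm : 1 ≤ m) :
    ∑ i ∈ Finset.range m, (pq z (m - 1 - i) * pq σ i)
        * ∏ j ∈ Finset.range M, (z + ((m - 1 - i : ℕ) : ℝ) + j)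
      = (∏ j ∈ Finset.range M, (z + j)) * pq (z + σ + M) (m - 1) := by
  have h := vander σ (z + M) (m - 1)
  have e : m - 1 + 1 = m := by omega
  have e2 : σ + (z + M) = z + σ + M := by ring
  rw [e, e2] at h
  rw [← h, Finset.mul_sum]
  apply Finset.sum_congr rfl
  intro i _
  have h2 := pq_rise z M (m - 1 - i)
  linear_combination (pq σ i) * h2

theorem gram_eq (N : ℕ) : ∃ C : ℝ, 0 ≤ C ∧ ∀ s : ℂ, ‖s‖ ≤ 7 / 10 → ∀ b : ℝ, 0 < b → b ≤ 1 →
    0 < b + 1 - 2 * s.re → ∀ m : ℕ, 1 ≤ m → ∀ n < N, ∀ k < N,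
      ‖(∑ i ∈ Finset.range m, ((pq (2 + 2 * s.re) (m - 1 - i) * pq (b + 1 - 2 * s.re) i : ℝ) : ℂ)
          * (XD s m n i * conj (XD s m k i))) / (pq (b + 3) (m - 1) : ℝ) - (Gm s b (n + k) : ℂ)‖
        ≤ C / m := by
  obtain ⟨A, hA⟩ : ∃ A : ℝ, A = 2 * N + 5 := ⟨_, rfl⟩
  have hA0 : 0 ≤ A := by rw [hA]; positivity
  obtain ⟨C1, hC1⟩ : ∃ C1 : ℝ, C1 = (2 * N) * (A + 1) ^ (2 * N + 1) := ⟨_, rfl⟩
  have hC10 : 0 ≤ C1 := by rw [hC1]; positivity
  have hN0 : (0 : ℝ) ≤ N := Nat.cast_nonneg N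
  -- the basic comparison
  have key : ∀ m : ℕ, 1 ≤ m → ∀ x : ℝ, 0 ≤ x → x ≤ m → ∀ n ≤ 2 * N, ∀ c : ℕ → ℂ,
      (∀ j < n, ‖c j‖ ≤ A) →
      ‖(∏ j ∈ Finset.range n, ((x : ℂ) + c j)) / (m : ℂ) ^ n - ((x / m : ℝ) : ℂ) ^ n‖
        ≤ C1 / m := by
    intro m hm x hx0 hxm n hn c hc
    refine (prod_close' hA0 hm hx0 hxm n c hc).trans ?_
    apply div_le_div_of_nonneg_right _ (Nat.cast_nonneg m)
    rw [hC1]
    apply mul_le_mul
    · exact_mod_cast hn
    · exact pow_le_pow_right₀ (by linarith only [hA0]) (by omega)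
    · positivity
    · positivity
  refine ⟨C1 * (C1 + 1) + C1 + C1 + C1, by positivity, ?_⟩
  intro s hs b hb hb1 hσ m hm n hn k hk
  have hs1 : ‖s‖ < 1 := by linarith only [hs]
  have hr := neg_one_lt_re hs1
  have hre := abs_le.mp ((Complex.abs_re_le_norm s).trans hs)
  have hm0 : (0 : ℝ) < m := by exact_mod_cast (by omega : 0 < m)
  have hm1 : (1 : ℝ) ≤ m := by exact_mod_cast hm
  have hmc : (m : ℂ) ≠ 0 := by exact_mod_cast hm0.ne'
  have hS : 0 < pq (b + 3) (m - 1) := pq_pos (by linarith only [hb]) _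
  have hz : 0 < 2 + 2 * s.re := by linarith only [hre]
  have hzσ : 2 + 2 * s.re + (b + 1 - 2 * s.re) = b + 3 := by ring
  have hw : ∀ i < m, 0 ≤ pq (2 + 2 * s.re) (m - 1 - i) * pq (b + 1 - 2 * s.re) i := fun i _ =>
    (mul_pos (pq_pos hz _) (pq_pos hσ _)).le
  have hwS : ∑ i ∈ Finset.range m, pq (2 + 2 * s.re) (m - 1 - i) * pq (b + 1 - 2 * s.re) i
      = pq (b + 3) (m - 1) := by
    have h := sum_rise (2 + 2 * s.re) (b + 1 - 2 * s.re) 0 hm
    simpa [hzσ] using h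
  -- the argument of the factors
  have hx : ∀ i < m, ((m - 1 - i : ℕ) : ℝ) ≤ m := by
    intro i _
    exact_mod_cast (by omega : m - 1 - i ≤ m)
  -- the functions XD
  have hXD : ∀ p < N, ∀ i < m, ‖XD s m p i - ((((m - 1 - i : ℕ) : ℝ) / m : ℝ) : ℂ) ^ p‖
      ≤ C1 / m := by
    intro p hp i hi
    have h := key m hm ((m - 1 - i : ℕ) : ℝ) (Nat.cast_nonneg _) (hx i hi) p (by omega)
      (fun j => s + 2 + j) (fun j hj => by
        have h1 : ‖s + 2 + (j : ℂ)‖ ≤ ‖s‖ + 2 + j := by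
          refine (norm_add_le _ _).trans ?_
          rw [Complex.norm_natCast]
          have h2 := norm_add_le s 2
          rw [Complex.norm_two] at h2
          linarith only [h2]
        have h3 : (j : ℝ) ≤ N := by exact_mod_cast (by omega : j ≤ N)
        rw [hA]
        linarith only [hs1, h1, h3])
    have e : XD s m p i = (∏ j ∈ Finset.range p,
        ((((m - 1 - i : ℕ) : ℝ) : ℂ) + (s + 2 + (j : ℂ)))) / (m : ℂ) ^ p := by
      unfold XD
      congr 1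
      apply Finset.prod_congr rfl
      intro j _
      have : m - i = (m - 1 - i) + 1 := by omega
      rw [this]
      push_cast
      ring
    rw [e]
    exact h
  have ht : ∀ i < m, ∀ p : ℕ, ‖((((m - 1 - i : ℕ) : ℝ) / m : ℝ) : ℂ) ^ p‖ ≤ 1 := by
    intro i hi p
    rw [norm_pow]
    apply pow_le_one₀ (norm_nonneg _)
    rw [Complex.norm_real, Real.norm_of_nonneg (by positivity), div_le_one hm0]
    exact hx i hi
  -- the rising products
  have hR : ∀ i < m, ‖(((∏ j ∈ Finset.range (n + k), (2 + 2 * s.re + ((m - 1 - i : ℕ) : ℝ) + j))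
        / (m : ℝ) ^ (n + k) : ℝ) : ℂ) - ((((m - 1 - i : ℕ) : ℝ) / m : ℝ) : ℂ) ^ (n + k)‖
      ≤ C1 / m := by
    intro i hi
    have h := key m hm ((m - 1 - i : ℕ) : ℝ) (Nat.cast_nonneg _) (hx i hi) (n + k) (by omega)
      (fun j => ((2 + 2 * s.re + j : ℝ) : ℂ)) (fun j hj => by
        have h3 : (j : ℝ) ≤ 2 * N := by exact_mod_cast (by omega : j ≤ 2 * N)
        have h4 : (0 : ℝ) ≤ j := Nat.cast_nonneg j
        rw [Complex.norm_real, Real.norm_of_nonneg (by linarith only [hz]), hA]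
        linarith only [hre, h3])
    have e : (((∏ j ∈ Finset.range (n + k), (2 + 2 * s.re + ((m - 1 - i : ℕ) : ℝ) + j))
        / (m : ℝ) ^ (n + k) : ℝ) : ℂ) = (∏ j ∈ Finset.range (n + k),
        ((((m - 1 - i : ℕ) : ℝ) : ℂ) + ((2 + 2 * s.re + j : ℝ) : ℂ))) / (m : ℂ) ^ (n + k) := by
      push_cast
      congr 1
      apply Finset.prod_congr rfl
      intro j _
      ring
    rw [e]
    exact h
  -- pointwise comparison
  have hP : ∀ i < m, ‖XD s m n i * conj (XD s m k i)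
      - (((∏ j ∈ Finset.range (n + k), (2 + 2 * s.re + ((m - 1 - i : ℕ) : ℝ) + j))
        / (m : ℝ) ^ (n + k) : ℝ) : ℂ)‖ ≤ (C1 * (C1 + 1) + C1 + C1) / m := by
    intro i hi
    obtain ⟨t, htd⟩ : ∃ t : ℂ, t = ((((m - 1 - i : ℕ) : ℝ) / m : ℝ) : ℂ) := ⟨_, rfl⟩
    have h1 := hXD n hn i hi
    have h2 := hXD k hk i hi
    have h3 := hR i hi
    have h4 := ht i hi n
    have h5 := ht i hi k
    rw [← htd] at h1 h2 h3 h4 h5
    have h6 : conj t = t := by rw [htd, Complex.conj_ofReal]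
    have h7 : ‖conj (XD s m k i) - t ^ k‖ ≤ C1 / m := by
      have e : conj (XD s m k i) - t ^ k = conj (XD s m k i - t ^ k) := by
        rw [map_sub, map_pow, h6]
      rw [e, Complex.norm_conj]
      exact h2
    have h8 : ‖conj (XD s m k i)‖ ≤ C1 + 1 := by
      have h9 : C1 / m ≤ C1 := div_le_self hC10 hm1
      have e : conj (XD s m k i) = (conj (XD s m k i) - t ^ k) + t ^ k := by ring
      rw [e]
      refine (norm_add_le _ _).trans ?_
      linarith only [h5, h7, h9]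
    have e : XD s m n i * conj (XD s m k i)
        - (((∏ j ∈ Finset.range (n + k), (2 + 2 * s.re + ((m - 1 - i : ℕ) : ℝ) + j))
        / (m : ℝ) ^ (n + k) : ℝ) : ℂ)
        = (XD s m n i - t ^ n) * conj (XD s m k i) + t ^ n * (conj (XD s m k i) - t ^ k)
          - ((((∏ j ∈ Finset.range (n + k), (2 + 2 * s.re + ((m - 1 - i : ℕ) : ℝ) + j))
            / (m : ℝ) ^ (n + k) : ℝ) : ℂ) - t ^ (n + k)) := by
      rw [pow_add]
      ring
    rw [e]
    refine (norm_sub_le _ _).trans ?_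
    refine (add_le_add (norm_add_le _ _) h3).trans ?_
    rw [norm_mul, norm_mul]
    have g1 : ‖XD s m n i - t ^ n‖ * ‖conj (XD s m k i)‖ ≤ C1 / m * (C1 + 1) :=
      mul_le_mul h1 h8 (norm_nonneg _) (by positivity)
    have g2 : ‖t ^ n‖ * ‖conj (XD s m k i) - t ^ k‖ ≤ 1 * (C1 / m) :=
      mul_le_mul h4 h7 (norm_nonneg _) zero_le_one
    have g3 : (C1 * (C1 + 1) + C1 + C1) / m = C1 / m * (C1 + 1) + 1 * (C1 / m) + C1 / m := by ring
    rw [g3]
    linarith only [g1, g2]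
  have h10 := mean_close (fun i => pq (2 + 2 * s.re) (m - 1 - i) * pq (b + 1 - 2 * s.re) i) hw hS
    hwS (fun i => XD s m n i * conj (XD s m k i))
    (fun i => (((∏ j ∈ Finset.range (n + k), (2 + 2 * s.re + ((m - 1 - i : ℕ) : ℝ) + j))
        / (m : ℝ) ^ (n + k) : ℝ) : ℂ)) hP
  -- the exact value
  have hG : (∑ i ∈ Finset.range m,
        ((pq (2 + 2 * s.re) (m - 1 - i) * pq (b + 1 - 2 * s.re) i : ℝ) : ℂ)
        * (((∏ j ∈ Finset.range (n + k), (2 + 2 * s.re + ((m - 1 - i : ℕ) : ℝ) + j))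
        / (m : ℝ) ^ (n + k) : ℝ) : ℂ)) / ((pq (b + 3) (m - 1) : ℝ) : ℂ)
      = ((Gm s b (n + k) * ((∏ j ∈ Finset.range (n + k), ((m : ℝ) + (b + 2 + j)))
        / (m : ℝ) ^ (n + k)) : ℝ) : ℂ) := by
    have g1 : ∑ i ∈ Finset.range m, (pq (2 + 2 * s.re) (m - 1 - i) * pq (b + 1 - 2 * s.re) i)
        * ((∏ j ∈ Finset.range (n + k), (2 + 2 * s.re + ((m - 1 - i : ℕ) : ℝ) + j))
        / (m : ℝ) ^ (n + k))
        = (∏ j ∈ Finset.range (n + k), (2 + 2 * s.re + j)) * pq (b + 3 + (n + k : ℕ)) (m - 1)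
          / (m : ℝ) ^ (n + k) := by
      have g2 := sum_rise (2 + 2 * s.re) (b + 1 - 2 * s.re) (n + k) hm
      rw [hzσ] at g2
      rw [← g2, Finset.sum_div]
      apply Finset.sum_congr rfl
      intro i _
      ring
    have g3 := pq_rise (b + 3) (n + k) (m - 1)
    have g4 : ∏ j ∈ Finset.range (n + k), (b + 3 + ((m - 1 : ℕ) : ℝ) + j)
        = ∏ j ∈ Finset.range (n + k), ((m : ℝ) + (b + 2 + j)) := by
      apply Finset.prod_congr rfl
      intro j _
      rw [Nat.cast_sub hm]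
      push_cast
      ring
    rw [g4] at g3
    have g5 : (∏ j ∈ Finset.range (n + k), (b + 3 + (j : ℝ))) ≠ 0 := by
      apply Finset.prod_ne_zero_iff.mpr
      intro j _
      positivity
    have g6 : Gm s b (n + k) = (∏ j ∈ Finset.range (n + k), (2 + 2 * s.re + j))
        / ∏ j ∈ Finset.range (n + k), (b + 3 + (j : ℝ)) := by
      unfold Gm
      rw [Finset.prod_div_distrib]
      congr 1
      apply Finset.prod_congr rfl
      intro j _
      ring
    have g7 : (∑ i ∈ Finset.range m, (pq (2 + 2 * s.re) (m - 1 - i) * pq (b + 1 - 2 * s.re) i)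
        * ((∏ j ∈ Finset.range (n + k), (2 + 2 * s.re + ((m - 1 - i : ℕ) : ℝ) + j))
        / (m : ℝ) ^ (n + k))) / pq (b + 3) (m - 1)
        = Gm s b (n + k) * ((∏ j ∈ Finset.range (n + k), ((m : ℝ) + (b + 2 + j)))
        / (m : ℝ) ^ (n + k)) := by
      rw [g1, g6, div_eq_iff hS.ne']
      have g8 : (m : ℝ) ^ (n + k) ≠ 0 := pow_ne_zero _ hm0.ne'
      generalize (∏ j ∈ Finset.range (n + k), (2 + 2 * s.re + (j : ℝ))) = P1 at *
      generalize (∏ j ∈ Finset.range (n + k), (b + 3 + (j : ℝ))) = P2 at *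
      generalize (∏ j ∈ Finset.range (n + k), ((m : ℝ) + (b + 2 + j))) = P3 at *
      generalize (m : ℝ) ^ (n + k) = P4 at *
      field_simp
      linear_combination -P1 * g3
    rw [← g7]
    push_cast
    rfl
  rw [hG] at h10
  -- the limit value
  have hGm0 : 0 ≤ Gm s b (n + k) := by
    apply Finset.prod_nonneg
    intro j _
    apply div_nonneg
    · have : (0 : ℝ) ≤ j := Nat.cast_nonneg j
      linarith only [hz]
    · positivity
  have hGm1 : Gm s b (n + k) ≤ 1 := by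
    apply Finset.prod_le_one
    · intro j _
      apply div_nonneg
      · have : (0 : ℝ) ≤ j := Nat.cast_nonneg j
        linarith only [hz]
      · positivity
    · intro j _
      rw [div_le_one (by positivity)]
      linarith only [hσ]
  have hlim : ‖((Gm s b (n + k) * ((∏ j ∈ Finset.range (n + k), ((m : ℝ) + (b + 2 + j)))
        / (m : ℝ) ^ (n + k)) : ℝ) : ℂ) - (Gm s b (n + k) : ℂ)‖ ≤ C1 / m := by
    have h := key m hm (m : ℝ) hm0.le le_rfl (n + k) (by omega)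
      (fun j => ((b + 2 + j : ℝ) : ℂ)) (fun j hj => by
        have h3 : (j : ℝ) ≤ 2 * N := by exact_mod_cast (by omega : j ≤ 2 * N)
        rw [Complex.norm_real, Real.norm_of_nonneg (by positivity), hA]
        linarith only [hb1, h3])
    rw [div_self hm0.ne', Complex.ofReal_one, one_pow] at h
    have e : ((Gm s b (n + k) * ((∏ j ∈ Finset.range (n + k), ((m : ℝ) + (b + 2 + j)))
        / (m : ℝ) ^ (n + k)) : ℝ) : ℂ) - (Gm s b (n + k) : ℂ)
        = (Gm s b (n + k) : ℂ) * ((∏ j ∈ Finset.range (n + k),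
          (((m : ℝ) : ℂ) + ((b + 2 + j : ℝ) : ℂ))) / (m : ℂ) ^ (n + k) - 1) := by
      push_cast
      ring
    rw [e, norm_mul, Complex.norm_real, Real.norm_of_nonneg hGm0]
    calc Gm s b (n + k) * _ ≤ 1 * (C1 / m) := mul_le_mul hGm1 h (norm_nonneg _) zero_le_one
      _ = C1 / m := one_mul _
  have h11 := norm_sub_le_norm_sub_add_norm_sub
    ((∑ i ∈ Finset.range m, ((pq (2 + 2 * s.re) (m - 1 - i) * pq (b + 1 - 2 * s.re) i : ℝ) : ℂ)
          * (XD s m n i * conj (XD s m k i))) / ((pq (b + 3) (m - 1) : ℝ) : ℂ))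
    ((Gm s b (n + k) * ((∏ j ∈ Finset.range (n + k), ((m : ℝ) + (b + 2 + j)))
        / (m : ℝ) ^ (n + k)) : ℝ) : ℂ)
    ((Gm s b (n + k) : ℝ) : ℂ)
  have e9 : (C1 * (C1 + 1) + C1 + C1 + C1) / (m : ℝ)
      = (C1 * (C1 + 1) + C1 + C1) / m + C1 / m := by ring
  rw [e9]
  refine h11.trans (add_le_add h10 hlim)

end Pool.Agent.M16.Helper24.HR2
end

/- Helper94.T.Helper37.PFS.Nfe -/
section
/-!
Project HR2 (MP_16b0ee): the upper form in the normal form used in the inequality of large order.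
-/

set_option autoImplicit false

open Filter Topology Finset
open scoped ComplexConjugate

namespace Pool.Agent.M16.Helper37.PFS

open Pool.Agent.M16.Helper24.HR2
open Pool.Agent.M16.Helper22.Half

/-- the functionals -/
noncomputable def Phi (s : ℂ) (d : ℕ → ℂ) (m n : ℕ) : ℂ :=
  ∑ i ∈ range m, XD s m n i * UD s d m i

theorem XD_zero (s : ℂ) (m i : ℕ) : XD s m 0 i = 1 := by
  simp [XD]

theorem one_add_ne {s : ℂ} (hs : ‖s‖ < 1) : (1 + s) ≠ 0 := by
  intro h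
  have h2 : s = -1 := by linear_combination h
  rw [h2] at hs
  simp at hs

theorem nat_sub_ne {s : ℂ} (hs : ‖s‖ < 1) (k : ℕ) : (((k + 1 : ℕ) : ℂ) - s) ≠ 0 := by
  intro h
  have h2 : s = ((k + 1 : ℕ) : ℂ) := by linear_combination -h
  rw [h2, Complex.norm_natCast] at hs
  push_cast at hs
  have : (0 : ℝ) ≤ k := Nat.cast_nonneg k
  linarith

theorem Vd_eq {s : ℂ} (hs : ‖s‖ < 1) {m : ℕ} (hm : 1 ≤ m) {d : ℕ → ℂ}
    (hd : ∀ l ≤ m, d l = d (m - l)) (j : ℕ) :
    Vd s d m (m + 1 + j) = ((1 + s) * pq (-s) (m + 1 + j)) * ((m : ℂ)⁻¹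
      * ∑ i ∈ range m, UD s d m i * (2 / (1 + s) + kD s m i j)) := by
  have hm0 : (m : ℂ) ≠ 0 := by
    have : m ≠ 0 := by omega
    exact_mod_cast this
  have h1s := one_add_ne hs
  have hV := V_formula s d m (j + 1) hm h1s hd (fun k => by
    have := nat_sub_ne hs (j + k)
    have e : j + k + 1 = j + 1 + k := by ring
    rwa [e] at this)
  have e : m + (j + 1) = m + 1 + j := by ring
  rw [e] at hV
  rw [hV, Finset.mul_sum, Finset.mul_sum, Finset.mul_sum]
  apply Finset.sum_congr rfl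
  intro i hi
  rw [Finset.mem_range] at hi
  have h3 := pq_shift (1 + s) (m - 1 - i)
  have e1 : m - 1 - i + 1 = m - i := by omega
  rw [e1] at h3
  have e2 : (((m - 1 - i : ℕ) : ℂ) + 1) = ((m - i : ℕ) : ℂ) := by
    have : m - i = (m - 1 - i) + 1 := by omega
    rw [this]
    push_cast
    ring
  rw [e2] at h3
  have e3 : (1 + s + 1 : ℂ) = s + 2 := by ring
  rw [e3] at h3
  have h4 : (((j + 1 + i : ℕ) : ℂ) - s) ≠ 0 := by
    have := nat_sub_ne hs (j + i)
    have e : j + i + 1 = j + 1 + i := by ring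
    rwa [e] at this
  rw [h3]
  unfold UD kD
  field_simp

theorem inner_eq (s : ℂ) (D : ℕ) (p : ℕ → ℕ → ℝ) (m : ℕ) (d : ℕ → ℂ) (j : ℕ) :
    ∑ i ∈ range m, UD s d m i * (2 / (1 + s) + kD s m i j)
      = (∑ l ∈ range (D + 1), FF s D p (Phi s d m) l * (YD m j : ℂ) ^ l)
        + ∑ i ∈ range m, UD s d m i * rD s D p m i j := by
  rw [Finset.sum_range_succ']
  have e0 : FF s D p (Phi s d m) 0 = 2 / (1 + s) * ∑ i ∈ range m, UD s d m i := by
    simp only [FF, Phi, XD_zero, one_mul]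
  have e1 : ∑ l ∈ range D, FF s D p (Phi s d m) (l + 1) * (YD m j : ℂ) ^ (l + 1)
      = ∑ i ∈ range m, UD s d m i * ∑ n ∈ range D, ∑ l ∈ range D,
        (p n l : ℂ) * XD s m n i * (YD m j : ℂ) ^ (l + 1) := by
    have h1 : ∑ l ∈ range D, FF s D p (Phi s d m) (l + 1) * (YD m j : ℂ) ^ (l + 1)
        = ∑ l ∈ range D, ∑ n ∈ range D, ∑ i ∈ range m,
          UD s d m i * ((p n l : ℂ) * XD s m n i * (YD m j : ℂ) ^ (l + 1)) := by
      apply Finset.sum_congr rfl
      intro l _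
      simp only [FF, Phi]
      rw [Finset.sum_mul]
      apply Finset.sum_congr rfl
      intro n _
      rw [Finset.mul_sum, Finset.sum_mul]
      apply Finset.sum_congr rfl
      intro i _
      ring
    have h2 : ∑ i ∈ range m, UD s d m i * ∑ n ∈ range D, ∑ l ∈ range D,
        (p n l : ℂ) * XD s m n i * (YD m j : ℂ) ^ (l + 1)
        = ∑ i ∈ range m, ∑ n ∈ range D, ∑ l ∈ range D,
          UD s d m i * ((p n l : ℂ) * XD s m n i * (YD m j : ℂ) ^ (l + 1)) := by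
      apply Finset.sum_congr rfl
      intro i _
      rw [Finset.mul_sum]
      apply Finset.sum_congr rfl
      intro n _
      rw [Finset.mul_sum]
    rw [h1, h2]
    calc ∑ l ∈ range D, ∑ n ∈ range D, ∑ i ∈ range m,
          UD s d m i * ((p n l : ℂ) * XD s m n i * (YD m j : ℂ) ^ (l + 1))
        = ∑ n ∈ range D, ∑ l ∈ range D, ∑ i ∈ range m,
          UD s d m i * ((p n l : ℂ) * XD s m n i * (YD m j : ℂ) ^ (l + 1)) := Finset.sum_comm
      _ = ∑ n ∈ range D, ∑ i ∈ range m, ∑ l ∈ range D,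
          UD s d m i * ((p n l : ℂ) * XD s m n i * (YD m j : ℂ) ^ (l + 1)) :=
        Finset.sum_congr rfl (fun n _ => Finset.sum_comm)
      _ = ∑ i ∈ range m, ∑ n ∈ range D, ∑ l ∈ range D,
          UD s d m i * ((p n l : ℂ) * XD s m n i * (YD m j : ℂ) ^ (l + 1)) := Finset.sum_comm
  rw [e0, e1, pow_zero, mul_one, Finset.mul_sum, ← Finset.sum_add_distrib,
    ← Finset.sum_add_distrib]
  apply Finset.sum_congr rfl
  intro i _
  unfold rD
  ring

theorem Nf_eq {s : ℂ} (hs : ‖s‖ < 1) (b : ℝ) (D : ℕ) (p : ℕ → ℕ → ℝ) {m : ℕ} (hm : 1 ≤ m)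
    {d : ℕ → ℂ} (hd : ∀ l ≤ m, d l = d (m - l)) (J : ℕ) :
    Nf s b d m J = ∑ j ∈ range J, (bD s b m j / (m : ℝ) ^ 2)
      * ‖(∑ l ∈ range (D + 1), FF s D p (Phi s d m) l * (YD m j : ℂ) ^ l)
        + ∑ i ∈ range m, UD s d m i * rD s D p m i j‖ ^ 2 := by
  unfold Nf
  apply Finset.sum_congr rfl
  intro j _
  rw [Vd_eq hs hm hd j, inner_eq s D p m d j, norm_mul, norm_mul _⁻¹, norm_inv,
    Complex.norm_natCast]
  unfold bD
  ring

/-- `FF` is homogeneous -/
theorem FF_smul (s : ℂ) (D : ℕ) (p : ℕ → ℕ → ℝ) (μ : ℕ → ℂ) (c : ℂ) (l : ℕ) :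
    FF s D p (fun n => c * μ n) l = c * FF s D p μ l := by
  cases l with
  | zero => simp only [FF]; ring
  | succ l =>
    simp only [FF]
    rw [Finset.mul_sum]
    apply Finset.sum_congr rfl
    intro n _
    ring

end Pool.Agent.M16.Helper37.PFS
end

/- Helper94.T.Helper37.PFS.Disc -/
section
/-!
Project HR2 (MP_16b0ee): the inequality for one order, before the passage to the limit.
-/

set_option autoImplicit false

open Filter Topology Finset
open scoped ComplexConjugate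

namespace Pool.Agent.M16.Helper37.PFS

open Pool.Agent.M16.Helper24.HR2
open Pool.Agent.M16.Helper22.Half

/-- sums over the column index -/
noncomputable def Sd (s : ℂ) (b : ℝ) (D : ℕ) (p : ℕ → ℕ → ℝ) (m l i : ℕ) : ℂ :=
  ∑' j, (bD s b m j : ℂ) * (YD m j : ℂ) ^ l * rD s D p m i j

/-- discrete Gram matrix -/
noncomputable def Gd (s : ℂ) (b : ℝ) (m n k : ℕ) : ℂ :=
  (∑ i ∈ range m, ((pq (2 + 2 * s.re) (m - 1 - i) * pq (b + 1 - 2 * s.re) i : ℝ) : ℂ)
    * (XD s m n i * conj (XD s m k i))) / (pq (b + 3) (m - 1) : ℝ)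

/-- discrete moments of the column densities -/
noncomputable def Ad (s : ℂ) (b : ℝ) (m l : ℕ) : ℝ :=
  KS s * pq (b + 3) (m - 1) / (m : ℝ) ^ 2 * ∑' j, bD s b m j * YD m j ^ l

/-- discrete cross moments -/
noncomputable def Xd (s : ℂ) (b : ℝ) (D : ℕ) (p : ℕ → ℕ → ℝ) (m l n : ℕ) : ℂ :=
  (1 / (m : ℂ) ^ 2) * ∑ i ∈ Finset.range m,
      (aD s b m i : ℂ) * conj (XD s m n i) * Sd s b D p m l i

/-- discrete Gram matrix of the cross functions -/
noncomputable def Cd (s : ℂ) (b : ℝ) (D : ℕ) (p : ℕ → ℕ → ℝ) (m l k : ℕ) : ℂ :=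
  ((KS s * pq (b + 3) (m - 1) / (m : ℝ) ^ 4 : ℝ) : ℂ)
      * ∑ i ∈ Finset.range m, (aD s b m i : ℂ)
        * (Sd s b D p m l i * conj (Sd s b D p m k i))

/-- the normalised functionals -/
noncomputable def ph (s : ℂ) (d : ℕ → ℂ) (m n : ℕ) : ℂ := Phi s d m n / m

theorem aD_pos {s : ℂ} (hs : ‖s‖ < 1) {b : ℝ} (hσ : 0 < b + 1 - 2 * s.re) (m i : ℕ) :
    0 < aD s b m i := by
  have hr : -1 < s.re := by
    have := Complex.abs_re_le_norm s
    have := neg_abs_le s.re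
    linarith
  have h1 := kap_ge_one hr (by positivity : 0 ≤ ‖s‖ ^ 2) (m - 1 - i)
  have h2 := pq_pos (z := 2 + 2 * s.re) (by linarith only [hr]) (m - 1 - i)
  have h3 := pq_pos hσ i
  unfold aD
  have h0 : 0 < kap s.re (‖s‖ ^ 2) (m - 1 - i) := by linarith
  positivity

theorem bD_nonneg {s : ℂ} {b : ℝ} (hσ : 0 < b + 1 - 2 * s.re) (m j : ℕ) :
    0 ≤ bD s b m j := by
  have h3 := pq_pos hσ (m + 1 + j)
  unfold bD
  positivity

/-- squares of sums, complex form -/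
theorem nsq_sum' (L : Finset ℕ) (x : ℕ → ℂ) :
    ((‖∑ l ∈ L, x l‖ ^ 2 : ℝ) : ℂ) = ∑ l ∈ L, ∑ k ∈ L, x l * conj (x k) := by
  rw [← Complex.normSq_eq_norm_sq, ← Complex.mul_conj, map_sum, Finset.sum_mul_sum]

theorem wsum_sq (I L : Finset ℕ) (a : ℕ → ℝ) (x : ℕ → ℕ → ℂ) :
    ∑ i ∈ I, a i * ‖∑ l ∈ L, x l i‖ ^ 2
      = (∑ l ∈ L, ∑ k ∈ L, ∑ i ∈ I, (a i : ℂ) * (x l i * conj (x k i))).re := by
  have h : ((∑ i ∈ I, a i * ‖∑ l ∈ L, x l i‖ ^ 2 : ℝ) : ℂ)
      = ∑ l ∈ L, ∑ k ∈ L, ∑ i ∈ I, (a i : ℂ) * (x l i * conj (x k i)) := by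
    push_cast
    have e : ∀ i ∈ I, (a i : ℂ) * (‖∑ l ∈ L, x l i‖ : ℂ) ^ 2
        = ∑ l ∈ L, ∑ k ∈ L, (a i : ℂ) * (x l i * conj (x k i)) := by
      intro i _
      have := nsq_sum' L (fun l => x l i)
      push_cast at this
      rw [this, Finset.mul_sum]
      apply Finset.sum_congr rfl
      intro l _
      rw [Finset.mul_sum]
    rw [Finset.sum_congr rfl e, Finset.sum_comm]
    apply Finset.sum_congr rfl
    intro l _
    rw [Finset.sum_comm]
  have h2 := congrArg Complex.re h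
  rw [Complex.ofReal_re] at h2
  exact h2

theorem ph_eq (s : ℂ) (d : ℕ → ℂ) {m : ℕ} (hm : 1 ≤ m) (n : ℕ) :
    Phi s d m n = (m : ℂ) * ph s d m n := by
  have hm0 : (m : ℂ) ≠ 0 := by
    have : m ≠ 0 := by omega
    exact_mod_cast this
  unfold ph
  field_simp

theorem FF_Phi (s : ℂ) (D : ℕ) (p : ℕ → ℕ → ℝ) (d : ℕ → ℂ) {m : ℕ} (hm : 1 ≤ m) (l : ℕ) :
    FF s D p (Phi s d m) l = (m : ℂ) * FF s D p (ph s d m) l := by
  rw [← FF_smul]
  congr 1
  funext n
  exact ph_eq s d hm n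

/-- the linear term -/
theorem term1 (s : ℂ) (N : ℕ) {m : ℕ} (hm : 1 ≤ m) (d y : ℕ → ℂ) (k0 : ℝ) :
    2 * (∑ i ∈ range m, conj (((m / k0 : ℝ) : ℂ) * ∑ n ∈ range N, y n * conj (XD s m n i))
        * UD s d m i).re
      = (m : ℝ) ^ 2 / k0 * (2 * (∑ n ∈ range N, conj (y n) * ph s d m n).re) := by
  have h : ∑ i ∈ range m, conj (((m / k0 : ℝ) : ℂ) * ∑ n ∈ range N, y n * conj (XD s m n i))
        * UD s d m i = (((m : ℝ) ^ 2 / k0 : ℝ) : ℂ) * ∑ n ∈ range N, conj (y n) * ph s d m n := by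
    have e1 : ∀ i ∈ range m, conj (((m / k0 : ℝ) : ℂ) * ∑ n ∈ range N, y n * conj (XD s m n i))
        * UD s d m i = ∑ n ∈ range N, ((m / k0 : ℝ) : ℂ) * (conj (y n)
          * (XD s m n i * UD s d m i)) := by
      intro i _
      rw [map_mul, Complex.conj_ofReal, map_sum, mul_assoc, Finset.sum_mul, Finset.mul_sum]
      apply Finset.sum_congr rfl
      intro n _
      rw [map_mul, Complex.conj_conj]
      ring
    rw [Finset.sum_congr rfl e1, Finset.sum_comm, Finset.mul_sum]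
    apply Finset.sum_congr rfl
    intro n _
    rw [← Finset.mul_sum, ← Finset.mul_sum]
    have e2 := ph_eq s d hm n
    unfold Phi at e2
    rw [e2]
    push_cast
    ring
  rw [h, Complex.re_ofReal_mul]
  ring

/-- the quadratic term in the test vector -/
theorem term2 {s : ℂ} (hs : ‖s‖ < 1) {b : ℝ} (hb : 0 < b) (hσ : 0 < b + 1 - 2 * s.re) (N : ℕ)
    {m : ℕ} (hm : 1 ≤ m) (y : ℕ → ℂ) :
    ∑ i ∈ range m, aD s b m i * ‖((m / (KS s * pq (b + 3) (m - 1)) : ℝ) : ℂ)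
        * ∑ n ∈ range N, y n * conj (XD s m n i)‖ ^ 2
      ≤ (m : ℝ) ^ 2 / (KS s * pq (b + 3) (m - 1))
        * (∑ n ∈ range N, ∑ k ∈ range N, y n * conj (y k) * Gd s b m k n).re := by
  have hKS := KS_facts hs
  have hK0 : 0 < KS s := by linarith only [hKS]
  have hS0 := pq_pos (z := b + 3) (by linarith) (m - 1)
  have hr : -1 < s.re := by
    have := Complex.abs_re_le_norm s
    have := neg_abs_le s.re
    linarith
  have hm0 : (0 : ℝ) < m := by exact_mod_cast hm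
  set S0 := pq (b + 3) (m - 1) with hS0d
  set W : ℕ → ℝ := fun i => pq (2 + 2 * s.re) (m - 1 - i) * pq (b + 1 - 2 * s.re) i with hW
  have hWp : ∀ i, 0 < W i := fun i =>
    mul_pos (pq_pos (z := 2 + 2 * s.re) (by linarith only [hr]) _) (pq_pos hσ i)
  have haW : ∀ i, aD s b m i ≤ KS s * W i := by
    intro i
    have h1 := mul_le_mul_of_nonneg_right (hKS.2.1 (m - 1 - i)) (hWp i).le
    refine le_trans (le_of_eq ?_) h1
    simp only [aD, hW]
    ring
  have h2 : ∑ i ∈ range m, W i * ‖∑ n ∈ range N, y n * conj (XD s m n i)‖ ^ 2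
      = S0 * (∑ n ∈ range N, ∑ k ∈ range N, y n * conj (y k) * Gd s b m k n).re := by
    have e := wsum_sq (range m) (range N) W (fun n i => y n * conj (XD s m n i))
    rw [e, ← Complex.re_ofReal_mul, Finset.mul_sum]
    congr 1
    apply Finset.sum_congr rfl
    intro n _
    rw [Finset.mul_sum]
    apply Finset.sum_congr rfl
    intro k _
    unfold Gd
    rw [← hS0d]
    have hS0c : (S0 : ℂ) ≠ 0 := by exact_mod_cast hS0.ne'
    have e3 : (S0 : ℂ) * (y n * conj (y k) * ((∑ i ∈ range m,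
        ((pq (2 + 2 * s.re) (m - 1 - i) * pq (b + 1 - 2 * s.re) i : ℝ) : ℂ)
          * (XD s m k i * conj (XD s m n i))) / (S0 : ℂ)))
        = y n * conj (y k) * ∑ i ∈ range m,
          ((pq (2 + 2 * s.re) (m - 1 - i) * pq (b + 1 - 2 * s.re) i : ℝ) : ℂ)
          * (XD s m k i * conj (XD s m n i)) := by
      field_simp
    rw [e3, Finset.mul_sum]
    apply Finset.sum_congr rfl
    intro i _
    simp only [hW]
    rw [map_mul, Complex.conj_conj]
    ring
  have h3 : ∑ i ∈ range m, aD s b m i * ‖((m / (KS s * S0) : ℝ) : ℂ)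
        * ∑ n ∈ range N, y n * conj (XD s m n i)‖ ^ 2
      ≤ (m / (KS s * S0)) ^ 2 * (KS s * ∑ i ∈ range m, W i
          * ‖∑ n ∈ range N, y n * conj (XD s m n i)‖ ^ 2) := by
    rw [Finset.mul_sum, Finset.mul_sum]
    apply Finset.sum_le_sum
    intro i _
    rw [norm_mul, Complex.norm_real, Real.norm_of_nonneg (by positivity), mul_pow]
    have h4 := mul_le_mul_of_nonneg_right (haW i)
      (by positivity : 0 ≤ (m / (KS s * S0)) ^ 2
        * ‖∑ n ∈ range N, y n * conj (XD s m n i)‖ ^ 2)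
    refine h4.trans (le_of_eq ?_)
    ring
  refine h3.trans (le_of_eq ?_)
  rw [h2]
  field_simp

/-- the polynomial part -/
theorem term3 {s : ℂ} (hs : ‖s‖ < 1) {b : ℝ} (hb : 0 < b) (D : ℕ) (p : ℕ → ℕ → ℝ)
    {m : ℕ} (hm : 1 ≤ m) (d : ℕ → ℂ) :
    ∑ l ∈ range (D + 1), ∑ k ∈ range (D + 1),
        (FF s D p (Phi s d m) l * conj (FF s D p (Phi s d m) k)).re
          * ((∑' j, bD s b m j * YD m j ^ (l + k)) / (m : ℝ) ^ 2)
      = (m : ℝ) ^ 2 / (KS s * pq (b + 3) (m - 1))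
        * ∑ l ∈ range (D + 1), ∑ k ∈ range (D + 1),
        (FF s D p (ph s d m) l * conj (FF s D p (ph s d m) k)).re * Ad s b m (l + k) := by
  have hKS := KS_facts hs
  have hK0 : 0 < KS s := by linarith only [hKS]
  have hS0 := pq_pos (z := b + 3) (by linarith only [hb]) (m - 1)
  have hm0 : (0 : ℝ) < m := by exact_mod_cast hm
  rw [Finset.mul_sum]
  apply Finset.sum_congr rfl
  intro l _
  rw [Finset.mul_sum]
  apply Finset.sum_congr rfl
  intro k _
  rw [FF_Phi s D p d hm, FF_Phi s D p d hm]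
  have e : (m : ℂ) * FF s D p (ph s d m) l * conj ((m : ℂ) * FF s D p (ph s d m) k)
      = (((m : ℝ) ^ 2 : ℝ) : ℂ) * (FF s D p (ph s d m) l * conj (FF s D p (ph s d m) k)) := by
    rw [map_mul, Complex.conj_natCast]
    push_cast
    ring
  rw [e, Complex.re_ofReal_mul]
  unfold Ad
  field_simp

/-- the cross term with the test vector -/
theorem term4 {s : ℂ} (hs : ‖s‖ < 1) {b : ℝ} (hb : 0 < b) (D N : ℕ) (p : ℕ → ℕ → ℝ)
    {m : ℕ} (hm : 1 ≤ m) (d y : ℕ → ℂ) :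
    2 * (∑ l ∈ range (D + 1), conj (FF s D p (Phi s d m) l)
        * ∑ i ∈ range m, ((aD s b m i : ℂ) * (((m / (KS s * pq (b + 3) (m - 1)) : ℝ) : ℂ)
        * ∑ n ∈ range N, y n * conj (XD s m n i))) * (Sd s b D p m l i / (m : ℂ) ^ 2)).re
      = (m : ℝ) ^ 2 / (KS s * pq (b + 3) (m - 1))
        * (2 * (∑ l ∈ range (D + 1), ∑ n ∈ range N,
        conj (FF s D p (ph s d m) l) * y n * Xd s b D p m l n).re) := by
  have hKS := KS_facts hs
  have hK0 : 0 < KS s := by linarith [hKS.1]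
  have hS0 := pq_pos (z := b + 3) (by linarith only [hb]) (m - 1)
  have hm0 : (0 : ℝ) < m := by exact_mod_cast hm
  have hmc : (m : ℂ) ≠ 0 := by exact_mod_cast hm0.ne'
  have hKc : (KS s : ℂ) ≠ 0 := by exact_mod_cast hK0.ne'
  have hSc : ((pq (b + 3) (m - 1) : ℝ) : ℂ) ≠ 0 := by exact_mod_cast hS0.ne'
  have h : ∑ l ∈ range (D + 1), conj (FF s D p (Phi s d m) l)
        * ∑ i ∈ range m, ((aD s b m i : ℂ) * (((m / (KS s * pq (b + 3) (m - 1)) : ℝ) : ℂ)
        * ∑ n ∈ range N, y n * conj (XD s m n i))) * (Sd s b D p m l i / (m : ℂ) ^ 2)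
      = (((m : ℝ) ^ 2 / (KS s * pq (b + 3) (m - 1)) : ℝ) : ℂ)
        * ∑ l ∈ range (D + 1), ∑ n ∈ range N,
        conj (FF s D p (ph s d m) l) * y n * Xd s b D p m l n := by
    rw [Finset.mul_sum]
    apply Finset.sum_congr rfl
    intro l _
    rw [FF_Phi s D p d hm, map_mul, Complex.conj_natCast]
    have e1 : ∀ i ∈ range m, ((aD s b m i : ℂ)
        * (((m / (KS s * pq (b + 3) (m - 1)) : ℝ) : ℂ)
        * ∑ n ∈ range N, y n * conj (XD s m n i))) * (Sd s b D p m l i / (m : ℂ) ^ 2)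
        = ∑ n ∈ range N, (((m / (KS s * pq (b + 3) (m - 1)) : ℝ) : ℂ) / (m : ℂ) ^ 2 * y n)
          * ((aD s b m i : ℂ) * conj (XD s m n i) * Sd s b D p m l i) := by
      intro i _
      rw [Finset.mul_sum, Finset.mul_sum, Finset.sum_mul]
      apply Finset.sum_congr rfl
      intro n _
      ring
    rw [Finset.sum_congr rfl e1, Finset.sum_comm, Finset.mul_sum, Finset.mul_sum]
    apply Finset.sum_congr rfl
    intro n _
    rw [← Finset.mul_sum]
    unfold Xd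
    push_cast
    field_simp
  rw [h, Complex.re_ofReal_mul]
  ring

/-- the Gram term of the cross functions -/
theorem term5 {s : ℂ} (hs : ‖s‖ < 1) {b : ℝ} (hb : 0 < b) (D : ℕ) (p : ℕ → ℕ → ℝ)
    {m : ℕ} (hm : 1 ≤ m) (d : ℕ → ℂ) :
    ∑ i ∈ range m, aD s b m i * ‖∑ l ∈ range (D + 1), conj (FF s D p (Phi s d m) l)
        * (Sd s b D p m l i / (m : ℂ) ^ 2)‖ ^ 2
      = (m : ℝ) ^ 2 / (KS s * pq (b + 3) (m - 1))
        * (∑ l ∈ range (D + 1), ∑ k ∈ range (D + 1),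
        conj (FF s D p (ph s d m) l) * FF s D p (ph s d m) k * Cd s b D p m l k).re := by
  have hKS := KS_facts hs
  have hK0 : 0 < KS s := by linarith [hKS.1]
  have hS0 := pq_pos (z := b + 3) (by linarith only [hb]) (m - 1)
  have hm0 : (0 : ℝ) < m := by exact_mod_cast hm
  have hmc : (m : ℂ) ≠ 0 := by exact_mod_cast hm0.ne'
  have hKc : (KS s : ℂ) ≠ 0 := by exact_mod_cast hK0.ne'
  have hSc : ((pq (b + 3) (m - 1) : ℝ) : ℂ) ≠ 0 := by exact_mod_cast hS0.ne'
  rw [wsum_sq (range m) (range (D + 1)) (aD s b m)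
    (fun l i => conj (FF s D p (Phi s d m) l) * (Sd s b D p m l i / (m : ℂ) ^ 2)),
    ← Complex.re_ofReal_mul, Finset.mul_sum]
  congr 1
  apply Finset.sum_congr rfl
  intro l _
  rw [Finset.mul_sum]
  apply Finset.sum_congr rfl
  intro k _
  rw [FF_Phi s D p d hm, FF_Phi s D p d hm]
  have e1 : ∀ i ∈ range m, (aD s b m i : ℂ) * (conj ((m : ℂ) * FF s D p (ph s d m) l)
      * (Sd s b D p m l i / (m : ℂ) ^ 2)
      * conj (conj ((m : ℂ) * FF s D p (ph s d m) k) * (Sd s b D p m k i / (m : ℂ) ^ 2)))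
      = (conj (FF s D p (ph s d m) l) * FF s D p (ph s d m) k / (m : ℂ) ^ 2)
        * ((aD s b m i : ℂ) * (Sd s b D p m l i * conj (Sd s b D p m k i))) := by
    intro i _
    simp only [map_mul, map_div₀, map_pow, Complex.conj_natCast, Complex.conj_conj]
    field_simp
  rw [Finset.sum_congr rfl e1, ← Finset.mul_sum]
  unfold Cd
  push_cast
  field_simp

end Pool.Agent.M16.Helper37.PFS
end

/- Helper94.T.Helper24.HR2.PLowerB -/
section
/-!
MP_16b0ee, project HR2, section R5 (second half): the functionals are moments; the lower bound.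
-/

set_option autoImplicit false

open MeasureTheory Set Metric Filter Topology
open scoped Real ComplexConjugate

namespace Pool.Agent.M16.Helper24.HR2

open Pool.Agent.M16.Helper22.Half
open Pool.Agent.M16.Helper39.MH

/-- the moments at the end point -/
noncomputable def mend (d : ℕ → ℂ) (m i : ℕ) : ℂ :=
  ∑ l ∈ Finset.range (m + 1), d l * (((m - l : ℕ) : ℂ) / m) ^ i

/-- the mixed rising moments -/
noncomputable def mris (d : ℕ → ℂ) (m i j : ℕ) : ℂ :=
  ∑ l ∈ Finset.range (m + 1), d l * ((((m - l : ℕ) : ℂ) / m) ^ i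
    * ∏ k ∈ Finset.range j, ((((m - l : ℕ) : ℂ) + k) / m))

theorem mris_zero (d : ℕ → ℂ) (m i : ℕ) : mris d m i 0 = mend d m i := by
  simp [mris, mend]

theorem mris_succ (d : ℕ → ℂ) (m i j : ℕ) :
    mris d m i (j + 1) = mris d m (i + 1) j + (j : ℂ) / m * mris d m i j := by
  unfold mris
  rw [Finset.mul_sum, ← Finset.sum_add_distrib]
  apply Finset.sum_congr rfl
  intro l _
  rw [Finset.prod_range_succ, pow_succ]
  ring

/-- odd central moments vanish -/
theorem odd_zero {d : ℕ → ℂ} {m : ℕ} (hd : ∀ l ≤ m, d l = d (m - l)) (r : ℕ) :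
    ∑ l ∈ Finset.range (m + 1), d l * (((m : ℂ) / 2 - l) / m) ^ (2 * r + 1) = 0 := by
  have h : ∑ l ∈ Finset.range (m + 1), d l * (((m : ℂ) / 2 - l) / m) ^ (2 * r + 1)
      = -∑ l ∈ Finset.range (m + 1), d l * (((m : ℂ) / 2 - l) / m) ^ (2 * r + 1) := by
    conv_lhs => rw [← Finset.sum_range_reflect]
    rw [← Finset.sum_neg_distrib]
    apply Finset.sum_congr rfl
    intro l hl
    rw [Finset.mem_range] at hl
    have e1 : m + 1 - 1 - l = m - l := by omega
    rw [e1, ← hd l (by omega), Nat.cast_sub (by omega)]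
    have e2 : ((m : ℂ) / 2 - ((m : ℂ) - l)) / m = -(((m : ℂ) / 2 - l) / m) := by ring
    rw [e2, Odd.neg_pow ⟨r, rfl⟩]
    ring
  have h2 : (2 : ℂ) * ∑ l ∈ Finset.range (m + 1), d l * (((m : ℂ) / 2 - l) / m) ^ (2 * r + 1)
      = 0 := by linear_combination h
  exact (mul_eq_zero.mp h2).resolve_left two_ne_zero

theorem even_vS {d : ℕ → ℂ} {m : ℕ} (r : ℕ) :
    ∑ l ∈ Finset.range (m + 1), d l * (((m : ℂ) / 2 - l) / m) ^ (2 * r) = vS d m r := by
  unfold vS
  rw [Finset.sum_div]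
  apply Finset.sum_congr rfl
  intro l _
  rw [div_pow, mul_div_assoc]
  congr 2
  rw [pow_mul, pow_mul]
  congr 1
  ring

/-- splitting a sum into even and odd indices -/
theorem sum_even_odd (f : ℕ → ℂ) (K : ℕ) :
    ∑ k ∈ Finset.range (2 * K), f k
      = ∑ r ∈ Finset.range K, (f (2 * r) + f (2 * r + 1)) := by
  induction K with
  | zero => simp
  | succ K ih =>
    rw [Finset.sum_range_succ, ← ih]
    have : 2 * (K + 1) = 2 * K + 1 + 1 := by ring
    rw [this, Finset.sum_range_succ, Finset.sum_range_succ]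
    ring

/-- moments at the end point by the central moments -/
theorem mend_eq {d : ℕ → ℂ} {m : ℕ} (hm : 1 ≤ m) (hd : ∀ l ≤ m, d l = d (m - l)) {K i : ℕ}
    (hi : i < 2 * K) :
    mend d m i = ∑ r ∈ Finset.range K,
      (Nat.choose i (2 * r) : ℂ) * (1 / 2) ^ (i - 2 * r) * vS d m r := by
  have hm0 : (m : ℂ) ≠ 0 := by
    have : m ≠ 0 := by omega
    exact_mod_cast this
  have h1 : mend d m i = ∑ k ∈ Finset.range (2 * K), (Nat.choose i k : ℂ) * (1 / 2) ^ (i - k)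
      * ∑ l ∈ Finset.range (m + 1), d l * (((m : ℂ) / 2 - l) / m) ^ k := by
    unfold mend
    simp_rw [Finset.mul_sum]
    rw [Finset.sum_comm]
    apply Finset.sum_congr rfl
    intro l hl
    rw [Finset.mem_range] at hl
    have e : (((m - l : ℕ) : ℂ) / m) = ((m : ℂ) / 2 - l) / m + 1 / 2 := by
      rw [Nat.cast_sub (by omega)]
      field_simp
      ring
    rw [e, add_pow, Finset.mul_sum]
    have h2 : Finset.range (i + 1) ⊆ Finset.range (2 * K) := by
      apply Finset.range_subset_range.mpr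
      omega
    rw [← Finset.sum_subset h2]
    · apply Finset.sum_congr rfl
      intro k _
      ring
    · intro k _ hk
      rw [Finset.mem_range, not_lt] at hk
      rw [Nat.choose_eq_zero_of_lt (by omega)]
      simp
  rw [h1, sum_even_odd]
  apply Finset.sum_congr rfl
  intro r _
  rw [odd_zero hd, even_vS]
  ring

theorem mend_le {d : ℕ → ℂ} {m : ℕ} (hm : 1 ≤ m) (hd : ∀ l ≤ m, d l = d (m - l)) {K i : ℕ}
    (hi : i < 2 * K) :
    ‖mend d m i‖ ≤ 2 ^ (2 * K) * ∑ r ∈ Finset.range K, ‖vS d m r‖ := by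
  rw [mend_eq hm hd hi, Finset.mul_sum]
  refine (norm_sum_le _ _).trans (Finset.sum_le_sum ?_)
  intro r _
  rw [norm_mul, norm_mul, norm_pow]
  have h1 : ‖(Nat.choose i (2 * r) : ℂ)‖ ≤ 2 ^ (2 * K) := by
    rw [Complex.norm_natCast]
    have h2 : Nat.choose i (2 * r) ≤ 2 ^ i := Nat.choose_le_two_pow _ _
    have h3 : (2 : ℕ) ^ i ≤ 2 ^ (2 * K) := Nat.pow_le_pow_right (by norm_num) (by omega)
    exact_mod_cast h2.trans h3
  have h2 : ‖(1 / 2 : ℂ)‖ ^ (i - 2 * r) ≤ 1 := by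
    apply pow_le_one₀ (norm_nonneg _)
    norm_num
  have h3 : (0 : ℝ) ≤ ‖(Nat.choose i (2 * r) : ℂ)‖ := norm_nonneg _
  have h4 : (0 : ℝ) ≤ ‖(1 / 2 : ℂ)‖ ^ (i - 2 * r) := by positivity
  have h5 : ‖(Nat.choose i (2 * r) : ℂ)‖ * ‖(1 / 2 : ℂ)‖ ^ (i - 2 * r) ≤ 2 ^ (2 * K) := by
    nlinarith only [h1, h2, h3]
  exact mul_le_mul_of_nonneg_right h5 (norm_nonneg _)

theorem mris_eq (K j : ℕ) : ∃ C : ℝ, 0 ≤ C ∧ ∀ i : ℕ, i + j < 2 * K → ∀ m : ℕ, 1 ≤ m →
    ∀ d : ℕ → ℂ, (∀ l ≤ m, d l = d (m - l)) →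
      ‖mris d m i j - mend d m (i + j)‖ ≤ C / m * ∑ r ∈ Finset.range K, ‖vS d m r‖ := by
  induction j with
  | zero =>
    refine ⟨0, le_rfl, ?_⟩
    intro i _ m _ d _
    rw [mris_zero]
    simp
  | succ j ih =>
    obtain ⟨C, hC, h⟩ := ih
    refine ⟨C + j * (2 ^ (2 * K) + C), by positivity, ?_⟩
    intro i hij m hm d hd
    have hmR : (1 : ℝ) ≤ m := by exact_mod_cast hm
    have h1 := h (i + 1) (by omega) m hm d hd
    have h2 := h i (by omega) m hm d hd
    have h3 := mend_le hm hd (K := K) (i := i + j) (by omega)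
    set S := ∑ r ∈ Finset.range K, ‖vS d m r‖ with hS
    have hS0 : 0 ≤ S := Finset.sum_nonneg fun _ _ => norm_nonneg _
    have h4 : ‖mris d m i j‖ ≤ (2 ^ (2 * K) + C) * S := by
      have h5 : ‖mris d m i j‖ ≤ ‖mend d m (i + j)‖ + ‖mris d m i j - mend d m (i + j)‖ := by
        have := norm_add_le (mend d m (i + j)) (mris d m i j - mend d m (i + j))
        rwa [add_sub_cancel] at this
      have h6 : C / m * S ≤ C * S := by
        apply mul_le_mul_of_nonneg_right _ hS0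
        exact div_le_self hC hmR
      linarith only [h2, h3, h5, h6]
    rw [mris_succ]
    have e1 : i + (j + 1) = i + 1 + j := by ring
    rw [e1]
    have e2 : mris d m (i + 1) j + (j : ℂ) / m * mris d m i j - mend d m (i + 1 + j)
        = (mris d m (i + 1) j - mend d m (i + 1 + j)) + (j : ℂ) / m * mris d m i j := by ring
    rw [e2]
    refine (norm_add_le _ _).trans ?_
    rw [norm_mul, norm_div, Complex.norm_natCast, Complex.norm_natCast]
    have h7 : (j : ℝ) / m * ‖mris d m i j‖ ≤ (j : ℝ) / m * ((2 ^ (2 * K) + C) * S) := by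
      apply mul_le_mul_of_nonneg_left h4
      positivity
    refine (add_le_add h1 h7).trans (le_of_eq ?_)
    ring

theorem pq_poch (s : ℂ) (n q : ℕ) :
    (∏ k ∈ Finset.range n, (s + 2 + k + (q : ℂ))) * pq (s + 2) q
      = (∏ k ∈ Finset.range n, (s + 2 + k)) * pq (s + 2 + n) q := by
  induction n with
  | zero => simp
  | succ n ih =>
    rw [Finset.prod_range_succ, Finset.prod_range_succ]
    have h := pq_add_one (s + 2 + n) q
    have e : s + 2 + ((n + 1 : ℕ) : ℂ) = s + 2 + n + 1 := by push_cast; ring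
    rw [e]
    linear_combination (s + 2 + n + q) * ih
      - (∏ k ∈ Finset.range n, (s + 2 + (k : ℂ))) * h

theorem pq_nat (n q : ℕ) :
    (Nat.factorial (n + 1) : ℂ) * pq ((n : ℂ) + 2) q
      = ∏ k ∈ Finset.range (n + 1), ((q : ℂ) + 1 + k) := by
  induction n with
  | zero =>
    have e : ((0 : ℕ) : ℂ) + 2 = 2 := by norm_num
    rw [e, pq_two]
    simp
  | succ n ih =>
    rw [Finset.prod_range_succ, ← ih, Nat.factorial_succ (n + 1)]
    have h := pq_add_one ((n : ℂ) + 2) q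
    have e : ((n + 1 : ℕ) : ℂ) + 2 = (n : ℂ) + 2 + 1 := by push_cast; ring
    rw [e]
    push_cast
    linear_combination (Nat.factorial (n + 1) : ℂ) * h

/-- the convolution -/
theorem conv_d (s : ℂ) (d : ℕ → ℂ) (m n : ℕ) :
    ∑ i ∈ Finset.range m, pq (s + 2 + n) (m - 1 - i) * Vd s d m i
      = ∑ l ∈ Finset.range m, pq ((n : ℂ) + 2) (m - 1 - l) * d l := by
  have h5 := sum_tri (fun l i => pq (s + 2 + n) (m - 1 - i) * pq (-s) (i - l) * d l) m
  have h1 : ∑ i ∈ Finset.range m, pq (s + 2 + n) (m - 1 - i) * Vd s d m i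
      = ∑ i ∈ Finset.range m, ∑ l ∈ Finset.range (i + 1),
        pq (s + 2 + n) (m - 1 - i) * pq (-s) (i - l) * d l := by
    apply Finset.sum_congr rfl
    intro i hi
    rw [Finset.mem_range] at hi
    unfold Vd
    have e : min i m = i := by omega
    rw [e, Finset.mul_sum]
    apply Finset.sum_congr rfl
    intro l _
    ring
  rw [h1, ← h5, Finset.sum_range_succ]
  simp only [Nat.sub_self, Finset.range_zero, Finset.sum_empty, add_zero]
  apply Finset.sum_congr rfl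
  intro l hl
  rw [Finset.mem_range] at hl
  rw [← Finset.sum_mul]
  congr 1
  have h := vander (-s) (s + 2 + n) (m - 1 - l)
  have e : -s + (s + 2 + n) = (n : ℂ) + 2 := by ring
  rw [e] at h
  rw [← h]
  have e2 : m - l = m - 1 - l + 1 := by omega
  rw [e2]
  apply Finset.sum_congr rfl
  intro k hk
  rw [Finset.mem_range] at hk
  have e3 : m - 1 - (l + k) = m - 1 - l - k := by omega
  have e4 : l + k - l = k := by omega
  rw [e3, e4]
  ring

/-- the functionals are rising moments -/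
theorem XU_eq (s : ℂ) (d : ℕ → ℂ) {m : ℕ} (hm : 1 ≤ m) (n : ℕ) :
    (∑ i ∈ Finset.range m, XD s m n i * UD s d m i) / m
      = (∏ k ∈ Finset.range n, (s + 2 + k)) / (Nat.factorial (n + 1) : ℂ)
        * mris d m 0 (n + 1) := by
  have hm0 : (m : ℂ) ≠ 0 := by
    have : m ≠ 0 := by omega
    exact_mod_cast this
  have hf : (Nat.factorial (n + 1) : ℂ) ≠ 0 := by
    exact_mod_cast Nat.factorial_ne_zero _
  have h1 : ∀ i ∈ Finset.range m, XD s m n i * UD s d m i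
      = (∏ k ∈ Finset.range n, (s + 2 + k)) / (m : ℂ) ^ n
        * (pq (s + 2 + n) (m - 1 - i) * Vd s d m i) := by
    intro i hi
    rw [Finset.mem_range] at hi
    unfold XD UD
    have e : (m - i : ℕ) = m - 1 - i + 1 := by omega
    have e2 : ∏ k ∈ Finset.range n, (s + 1 + k + ((m - i : ℕ) : ℂ))
        = ∏ k ∈ Finset.range n, (s + 2 + k + ((m - 1 - i : ℕ) : ℂ)) := by
      apply Finset.prod_congr rfl
      intro k _
      rw [e]
      push_cast
      ring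
    rw [e2]
    have h := pq_poch s n (m - 1 - i)
    field_simp
    linear_combination (Vd s d m i) * h
  rw [Finset.sum_congr rfl h1, ← Finset.mul_sum, conv_d]
  have h2 : mris d m 0 (n + 1) = (Nat.factorial (n + 1) : ℂ) / (m : ℂ) ^ (n + 1)
      * ∑ l ∈ Finset.range m, pq ((n : ℂ) + 2) (m - 1 - l) * d l := by
    unfold mris
    rw [Finset.sum_range_succ]
    have e0 : d m * ((((m - m : ℕ) : ℂ) / m) ^ 0
        * ∏ k ∈ Finset.range (n + 1), ((((m - m : ℕ) : ℂ) + k) / m)) = 0 := by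
      rw [Finset.prod_range_succ']
      simp
    rw [e0, add_zero, Finset.mul_sum]
    apply Finset.sum_congr rfl
    intro l hl
    rw [Finset.mem_range] at hl
    rw [pow_zero, one_mul]
    have e : ((m - l : ℕ) : ℂ) = ((m - 1 - l : ℕ) : ℂ) + 1 := by
      have : m - l = m - 1 - l + 1 := by omega
      rw [this]
      push_cast
      ring
    rw [e, Finset.prod_div_distrib, Finset.prod_const, Finset.card_range, ← pq_nat]
    field_simp
  rw [h2]
  field_simp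
  ring

/-- the functionals are moments -/
theorem mom_eq (K N : ℕ) (hN : N + 1 ≤ 2 * K) : ∃ C : ℝ, 0 ≤ C ∧ ∀ s : ℂ, ‖s‖ ≤ 1 →
    ∀ m : ℕ, 1 ≤ m → ∀ d : ℕ → ℂ, (∀ l ≤ m, d l = d (m - l)) → ∀ n < N,
      ‖(∑ i ∈ Finset.range m, XD s m n i * UD s d m i) / m - muS s K (vS d m) n‖
        ≤ C / m * ∑ r ∈ Finset.range K, ‖vS d m r‖ := by
  choose C hC h using mris_eq K
  refine ⟨∑ n ∈ Finset.range N, (∏ k ∈ Finset.range n, ((3 : ℝ) + k)) * C (n + 1), ?_, ?_⟩
  · apply Finset.sum_nonneg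
    intro n _
    have := hC (n + 1)
    positivity
  intro s hs m hm d hd n hn
  have hmR : (1 : ℝ) ≤ m := by exact_mod_cast hm
  have h1 := h (n + 1) 0 (by omega) m hm d hd
  rw [zero_add] at h1
  have e1 : muS s K (vS d m) n
      = (∏ k ∈ Finset.range n, (s + 2 + k)) / (Nat.factorial (n + 1) : ℂ) * mend d m (n + 1) := by
    unfold muS
    rw [mend_eq hm hd (K := K) (by omega)]
  rw [XU_eq s d hm, e1, ← mul_sub, norm_mul]
  set S := ∑ r ∈ Finset.range K, ‖vS d m r‖ with hS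
  have hS0 : 0 ≤ S := Finset.sum_nonneg fun _ _ => norm_nonneg _
  have h2 : ‖(∏ k ∈ Finset.range n, (s + 2 + k)) / (Nat.factorial (n + 1) : ℂ)‖
      ≤ ∏ k ∈ Finset.range n, ((3 : ℝ) + k) := by
    rw [norm_div, Complex.norm_natCast, norm_prod]
    have h3 : ∏ k ∈ Finset.range n, ‖s + 2 + (k : ℂ)‖ ≤ ∏ k ∈ Finset.range n, ((3 : ℝ) + k) := by
      apply Finset.prod_le_prod
      · intro k _
        exact norm_nonneg _
      · intro k _
        have h4 : ‖s + 2 + (k : ℂ)‖ ≤ ‖s‖ + ‖(2 : ℂ)‖ + ‖(k : ℂ)‖ := norm_add₃_le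
        rw [Complex.norm_natCast, Complex.norm_two] at h4
        linarith only [hs, h4]
    refine (div_le_self (Finset.prod_nonneg fun _ _ => norm_nonneg _) ?_).trans h3
    exact_mod_cast Nat.one_le_iff_ne_zero.mpr (Nat.factorial_ne_zero _)
  have h5 : (∏ k ∈ Finset.range n, ((3 : ℝ) + k)) * C (n + 1)
      ≤ ∑ n ∈ Finset.range N, (∏ k ∈ Finset.range n, ((3 : ℝ) + k)) * C (n + 1) := by
    apply Finset.single_le_sum (f := fun n => (∏ k ∈ Finset.range n, ((3 : ℝ) + k)) * C (n + 1))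
    · intro i _
      have := hC (i + 1)
      positivity
    · exact Finset.mem_range.mpr hn
  calc _ ≤ (∏ k ∈ Finset.range n, ((3 : ℝ) + k)) * (C (n + 1) / m * S) := by
        apply mul_le_mul h2 h1 (norm_nonneg _)
        positivity
    _ = ((∏ k ∈ Finset.range n, ((3 : ℝ) + k)) * C (n + 1)) / m * S := by ring
    _ ≤ _ := by
        apply mul_le_mul_of_nonneg_right _ hS0
        apply div_le_div_of_nonneg_right h5
        positivity

/-- the lower bound, from the three facts of the first half -/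
theorem P_lower_of (K N : ℕ) (hN : N + 1 ≤ 2 * K)
    (hKS : ∀ s : ℂ, ‖s‖ < 1 → 1 ≤ KS s ∧ (∀ n, kap s.re (‖s‖ ^ 2) n ≤ KS s))
    (hPf : ∀ s : ℂ, ‖s‖ < 1 → ∀ b : ℝ, 0 < b + 1 - 2 * s.re → ∀ (d : ℕ → ℂ) (m : ℕ),
      Pf s b d m = ∑ i ∈ Finset.range m, ‖UD s d m i‖ ^ 2 / aD s b m i)
    (hG : ∃ C : ℝ, 0 ≤ C ∧ ∀ s : ℂ, ‖s‖ ≤ 7 / 10 → ∀ b : ℝ, 0 < b → b ≤ 1 →
    0 < b + 1 - 2 * s.re → ∀ m : ℕ, 1 ≤ m → ∀ n < N, ∀ k < N,
      ‖(∑ i ∈ Finset.range m, ((pq (2 + 2 * s.re) (m - 1 - i) * pq (b + 1 - 2 * s.re) i : ℝ) : ℂ)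
          * (XD s m n i * conj (XD s m k i))) / (pq (b + 3) (m - 1) : ℝ) - (Gm s b (n + k) : ℂ)‖
        ≤ C / m) :
    ∃ C : ℝ, 0 ≤ C ∧ ∀ s : ℂ, ‖s‖ ≤ 7 / 10 →
    ∀ b : ℝ, 0 < b → b ≤ 1 → 0 < b + 1 - 2 * s.re → ∀ m : ℕ, 1 ≤ m → ∀ d : ℕ → ℂ,
    (∀ l ≤ m, d l = d (m - l)) → ∀ y : ℕ → ℂ,
      (m : ℝ) ^ 2 / (KS s * pq (b + 3) (m - 1)) * (linF s K N (vS d m) y - gamF s b N y
        - C / m * (∑ n ∈ Finset.range N, ‖y n‖ ^ 2 + ∑ r ∈ Finset.range K, ‖vS d m r‖ ^ 2))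
      ≤ Pf s b d m := by
  obtain ⟨C1, hC1, h1⟩ := mom_eq K N hN
  obtain ⟨C2, hC2, h2⟩ := hG
  refine ⟨C1 * (N + K) + C2 * N, by positivity, ?_⟩
  intro s hs b hb hb1 hσ m hm d hd y
  have hmR : (1 : ℝ) ≤ m := by exact_mod_cast hm
  have hmR0 : (0 : ℝ) < m := by linarith only [hmR]
  have hs1 : ‖s‖ < 1 := by linarith only [hs]
  obtain ⟨hK1, hKle⟩ := hKS s hs1
  have hK0 : 0 < KS s := by linarith only [hK1]
  have hS : 0 < pq (b + 3) (m - 1) := pq_pos (by linarith only [hb]) _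
  have hre := abs_lt.mp ((Complex.abs_re_le_norm s).trans_lt hs1)
  have hw1 : ∀ i, 0 < pq (2 + 2 * s.re) i := fun i => pq_pos (by linarith only [hre]) i
  have hw2 : ∀ i, 0 < pq (b + 1 - 2 * s.re) i := fun i => pq_pos hσ i
  have h1' := fun n hn => h1 s (by linarith only [hs1]) m hm d hd n hn
  have h2' := fun n hn k hk => h2 s hs b hb hb1 hσ m hm n hn k hk
  rw [hPf s hs1 b hσ]
  -- notation
  set T : ℝ := pq (b + 3) (m - 1) with hT
  set lam : ℝ := m / (KS s * T) with hlam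
  have hlam0 : 0 < lam := by positivity
  set z : ℕ → ℂ := fun i => ∑ n ∈ Finset.range N, y n * conj (XD s m n i) with hz
  set w : ℕ → ℝ := fun i => pq (2 + 2 * s.re) (m - 1 - i) * pq (b + 1 - 2 * s.re) i with hw
  have hw0 : ∀ i, 0 < w i := fun i => mul_pos (hw1 _) (hw2 _)
  have ha : ∀ i, aD s b m i = kap s.re (‖s‖ ^ 2) (m - 1 - i) * w i := by
    intro i
    unfold aD
    rw [hw]
    ring
  have hkap : ∀ i, 1 ≤ kap s.re (‖s‖ ^ 2) i := fun i => kap_ge_one (by linarith only [hre]) (by positivity) i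
  have ha0 : ∀ i, 0 < aD s b m i := by
    intro i
    rw [ha]
    have := hkap (m - 1 - i)
    have := hw0 i
    positivity
  have ha1 : ∀ i, aD s b m i ≤ KS s * w i := by
    intro i
    rw [ha]
    exact mul_le_mul_of_nonneg_right (hKle _) (hw0 i).le
  -- pointwise inequality
  have hp : ∀ i, 2 * lam * (conj (z i) * UD s d m i).re - KS s * lam ^ 2 * (w i * ‖z i‖ ^ 2)
      ≤ ‖UD s d m i‖ ^ 2 / aD s b m i := by
    intro i
    have e1 : 2 * lam * (conj (z i) * UD s d m i).re ≤ 2 * (lam * ‖z i‖) * ‖UD s d m i‖ := by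
      have h3 : (conj (z i) * UD s d m i).re ≤ ‖z i‖ * ‖UD s d m i‖ := by
        refine (Complex.re_le_norm _).trans (le_of_eq ?_)
        rw [norm_mul, RCLike.norm_conj]
      have : 0 < 2 * lam := by positivity
      nlinarith only [h3, this]
    have e2 : aD s b m i * (lam * ‖z i‖) ^ 2 ≤ KS s * lam ^ 2 * (w i * ‖z i‖ ^ 2) := by
      have h4 := mul_le_mul_of_nonneg_right (ha1 i) (sq_nonneg (lam * ‖z i‖))
      calc _ ≤ _ := h4
        _ = _ := by ring
    have e3 : 2 * (lam * ‖z i‖) * ‖UD s d m i‖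
        ≤ ‖UD s d m i‖ ^ 2 / aD s b m i + aD s b m i * (lam * ‖z i‖) ^ 2 := by
      have h5 := ha0 i
      have h6 : 0 ≤ (‖UD s d m i‖ - aD s b m i * (lam * ‖z i‖)) ^ 2 / aD s b m i := by positivity
      have h7 : (‖UD s d m i‖ - aD s b m i * (lam * ‖z i‖)) ^ 2 / aD s b m i
          = ‖UD s d m i‖ ^ 2 / aD s b m i + aD s b m i * (lam * ‖z i‖) ^ 2
            - 2 * (lam * ‖z i‖) * ‖UD s d m i‖ := by
        field_simp
        ring
      linarith only [h6, h7]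
    linarith only [e1, e2, e3]
  have hsum := Finset.sum_le_sum (fun i (_ : i ∈ Finset.range m) => hp i)
  refine le_trans ?_ hsum
  rw [Finset.sum_sub_distrib, ← Finset.mul_sum, ← Finset.mul_sum]
  -- the linear part
  set A : ℕ → ℂ := fun n => (∑ i ∈ Finset.range m, XD s m n i * UD s d m i) / m with hA
  have hL : ∑ i ∈ Finset.range m, (conj (z i) * UD s d m i).re
      = m * (∑ n ∈ Finset.range N, conj (y n) * A n).re := by
    have hmC : (m : ℂ) ≠ 0 := by
      have : m ≠ 0 := by omega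
      exact_mod_cast this
    have e0 : (m : ℝ) * (∑ n ∈ Finset.range N, conj (y n) * A n).re
        = ((m : ℂ) * ∑ n ∈ Finset.range N, conj (y n) * A n).re := by
      rw [← Complex.ofReal_natCast, Complex.re_ofReal_mul]
    rw [e0, ← Complex.re_sum]
    congr 1
    rw [Finset.mul_sum]
    have e1 : ∀ i ∈ Finset.range m, conj (z i) * UD s d m i
        = ∑ n ∈ Finset.range N, conj (y n) * (XD s m n i * UD s d m i) := by
      intro i _
      rw [hz]
      simp only [map_sum, map_mul, Complex.conj_conj, Finset.sum_mul]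
      apply Finset.sum_congr rfl
      intro n _
      ring
    rw [Finset.sum_congr rfl e1, Finset.sum_comm]
    apply Finset.sum_congr rfl
    intro n _
    rw [← Finset.mul_sum, hA]
    field_simp
  set G : ℕ → ℕ → ℂ := fun n k => (∑ i ∈ Finset.range m, ((w i : ℝ) : ℂ)
      * (XD s m n i * conj (XD s m k i))) / (T : ℝ) with hGd
  have hQ : ∑ i ∈ Finset.range m, w i * ‖z i‖ ^ 2
      = T * (∑ n ∈ Finset.range N, ∑ k ∈ Finset.range N, (y n * conj (y k)) * G k n).re := by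
    have hTC : (T : ℂ) ≠ 0 := by exact_mod_cast hS.ne'
    have e0 : T * (∑ n ∈ Finset.range N, ∑ k ∈ Finset.range N, (y n * conj (y k)) * G k n).re
        = ((T : ℂ) * ∑ n ∈ Finset.range N, ∑ k ∈ Finset.range N,
          (y n * conj (y k)) * G k n).re := by
      rw [Complex.re_ofReal_mul]
    have e2 : ∑ i ∈ Finset.range m, w i * ‖z i‖ ^ 2
        = (∑ i ∈ Finset.range m, (w i : ℂ) * (z i * conj (z i))).re := by
      rw [Complex.re_sum]
      apply Finset.sum_congr rfl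
      intro i _
      rw [Complex.re_ofReal_mul, Complex.mul_conj, Complex.ofReal_re, Complex.normSq_eq_norm_sq]
    rw [e0, e2]
    congr 1
    rw [Finset.mul_sum]
    have e3 : ∀ i ∈ Finset.range m, (w i : ℂ) * (z i * conj (z i))
        = ∑ n ∈ Finset.range N, ∑ k ∈ Finset.range N,
          (y n * conj (y k)) * ((w i : ℂ) * (XD s m k i * conj (XD s m n i))) := by
      intro i _
      rw [hz]
      simp only [map_sum, map_mul, Complex.conj_conj]
      rw [Finset.sum_mul_sum, Finset.mul_sum]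
      apply Finset.sum_congr rfl
      intro n _
      rw [Finset.mul_sum]
      apply Finset.sum_congr rfl
      intro k _
      ring
    rw [Finset.sum_congr rfl e3, Finset.sum_comm]
    apply Finset.sum_congr rfl
    intro n _
    rw [Finset.sum_comm, Finset.mul_sum]
    apply Finset.sum_congr rfl
    intro k _
    rw [← Finset.mul_sum, hGd]
    field_simp
  rw [hL, hQ]
  -- errors
  set Y : ℝ := ∑ n ∈ Finset.range N, ‖y n‖ with hY
  set V : ℝ := ∑ r ∈ Finset.range K, ‖vS d m r‖ with hV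
  have hY0 : 0 ≤ Y := Finset.sum_nonneg fun _ _ => norm_nonneg _
  have hV0 : 0 ≤ V := Finset.sum_nonneg fun _ _ => norm_nonneg _
  have hlin : linF s K N (vS d m) y - 2 * (Y * (C1 / m * V))
      ≤ 2 * (∑ n ∈ Finset.range N, conj (y n) * A n).re := by
    unfold linF
    have e1 : (∑ n ∈ Finset.range N, conj (y n) * muS s K (vS d m) n)
        - (∑ n ∈ Finset.range N, conj (y n) * A n)
        = -∑ n ∈ Finset.range N, conj (y n) * (A n - muS s K (vS d m) n) := by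
      rw [← Finset.sum_sub_distrib, ← Finset.sum_neg_distrib]
      apply Finset.sum_congr rfl
      intro n _
      ring
    have e2 : ‖∑ n ∈ Finset.range N, conj (y n) * (A n - muS s K (vS d m) n)‖
        ≤ Y * (C1 / m * V) := by
      rw [hY, Finset.sum_mul]
      refine (norm_sum_le _ _).trans (Finset.sum_le_sum ?_)
      intro n hn
      rw [norm_mul, RCLike.norm_conj]
      exact mul_le_mul_of_nonneg_left (h1' n (Finset.mem_range.mp hn)) (norm_nonneg _)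
    have e3 := (Complex.re_le_norm _).trans_eq
      (norm_neg (∑ n ∈ Finset.range N, conj (y n) * (A n - muS s K (vS d m) n)))
    rw [← e1, Complex.sub_re] at e3
    linarith only [e2, e3]
  have hquad : (∑ n ∈ Finset.range N, ∑ k ∈ Finset.range N, (y n * conj (y k)) * G k n).re
      ≤ gamF s b N y + C2 / m * Y ^ 2 := by
    unfold gamF
    have e1 : (∑ n ∈ Finset.range N, ∑ k ∈ Finset.range N, (y n * conj (y k)) * G k n).re
        = (∑ n ∈ Finset.range N, ∑ k ∈ Finset.range N, Gm s b (n + k) * (y n * conj (y k)).re)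
          + (∑ n ∈ Finset.range N, ∑ k ∈ Finset.range N,
            (y n * conj (y k)) * (G k n - (Gm s b (k + n) : ℂ))).re := by
      rw [Complex.re_sum, Complex.re_sum, ← Finset.sum_add_distrib]
      apply Finset.sum_congr rfl
      intro n _
      rw [Complex.re_sum, Complex.re_sum, ← Finset.sum_add_distrib]
      apply Finset.sum_congr rfl
      intro k _
      rw [← Complex.re_ofReal_mul, ← Complex.add_re, add_comm k n]
      congr 1
      ring
    have e2 : ‖∑ n ∈ Finset.range N, ∑ k ∈ Finset.range N,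
        (y n * conj (y k)) * (G k n - (Gm s b (k + n) : ℂ))‖ ≤ C2 / m * Y ^ 2 := by
      have e3 : C2 / m * Y ^ 2 = ∑ n ∈ Finset.range N, ∑ k ∈ Finset.range N,
          ‖y n‖ * ‖y k‖ * (C2 / m) := by
        rw [pow_two, hY, Finset.sum_mul_sum, Finset.mul_sum]
        apply Finset.sum_congr rfl
        intro n _
        rw [Finset.mul_sum]
        apply Finset.sum_congr rfl
        intro k _
        ring
      rw [e3]
      refine (norm_sum_le _ _).trans (Finset.sum_le_sum ?_)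
      intro n hn
      refine (norm_sum_le _ _).trans (Finset.sum_le_sum ?_)
      intro k hk
      rw [norm_mul, norm_mul, RCLike.norm_conj]
      exact mul_le_mul_of_nonneg_left
        (h2' k (Finset.mem_range.mp hk) n (Finset.mem_range.mp hn)) (by positivity)
    have e4 := (Complex.re_le_norm (∑ n ∈ Finset.range N, ∑ k ∈ Finset.range N,
        (y n * conj (y k)) * (G k n - (Gm s b (k + n) : ℂ)))).trans e2
    linarith only [e1, e4]
  have hY2 : Y ^ 2 ≤ N * ∑ n ∈ Finset.range N, ‖y n‖ ^ 2 := by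
    have := sq_sum_le_card_mul_sum_sq (s := Finset.range N) (f := fun n => ‖y n‖)
    rwa [Finset.card_range] at this
  have hV2 : V ^ 2 ≤ K * ∑ r ∈ Finset.range K, ‖vS d m r‖ ^ 2 := by
    have := sq_sum_le_card_mul_sum_sq (s := Finset.range K) (f := fun r => ‖vS d m r‖)
    rwa [Finset.card_range] at this
  set Y2 : ℝ := ∑ n ∈ Finset.range N, ‖y n‖ ^ 2 with hY2d
  set V2 : ℝ := ∑ r ∈ Finset.range K, ‖vS d m r‖ ^ 2 with hV2d
  have hY20 : 0 ≤ Y2 := Finset.sum_nonneg fun _ _ => by positivity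
  have hV20 : 0 ≤ V2 := Finset.sum_nonneg fun _ _ => by positivity
  have herr : 2 * (Y * (C1 / m * V)) + C2 / m * Y ^ 2
      ≤ (C1 * (N + K) + C2 * N) / m * (Y2 + V2) := by
    have g1 : 2 * (Y * V) ≤ N * Y2 + K * V2 := by linarith only [sq_nonneg (Y - V), hY2, hV2]
    have hN0 : (0 : ℝ) ≤ N := Nat.cast_nonneg N
    have hKn : (0 : ℝ) ≤ K := Nat.cast_nonneg K
    have g2 : (N : ℝ) * Y2 + K * V2 ≤ (N + K) * (Y2 + V2) := by
      nlinarith only [hY20, hV20]
    have g3 : (N : ℝ) * Y2 ≤ N * (Y2 + V2) := by nlinarith only [hV20]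
    have g4 : C1 * (2 * (Y * V)) + C2 * Y ^ 2 ≤ (C1 * (N + K) + C2 * N) * (Y2 + V2) := by
      have g5 := mul_le_mul_of_nonneg_left (g1.trans g2) hC1
      have g6 := mul_le_mul_of_nonneg_left (hY2.trans g3) hC2
      linarith only [g5, g6]
    calc 2 * (Y * (C1 / m * V)) + C2 / m * Y ^ 2
        = (C1 * (2 * (Y * V)) + C2 * Y ^ 2) / m := by ring
      _ ≤ ((C1 * (N + K) + C2 * N) * (Y2 + V2)) / m := by
          apply div_le_div_of_nonneg_right g4 hmR0.le
      _ = _ := by ring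
  set Lr := (∑ n ∈ Finset.range N, conj (y n) * A n).re with hLr
  set Qr := (∑ n ∈ Finset.range N, ∑ k ∈ Finset.range N, (y n * conj (y k)) * G k n).re with hQr
  have hid : 2 * lam * (m * Lr) - KS s * lam ^ 2 * (T * Qr)
      = (m : ℝ) ^ 2 / (KS s * T) * (2 * Lr - Qr) := by
    rw [hlam]
    field_simp
  rw [hid]
  apply mul_le_mul_of_nonneg_left _ (by positivity)
  linarith

theorem P_lower (K N : ℕ) (hN : N + 1 ≤ 2 * K) : ∃ C : ℝ, 0 ≤ C ∧ ∀ s : ℂ, ‖s‖ ≤ 7 / 10 →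
    ∀ b : ℝ, 0 < b → b ≤ 1 → 0 < b + 1 - 2 * s.re → ∀ m : ℕ, 1 ≤ m → ∀ d : ℕ → ℂ,
    (∀ l ≤ m, d l = d (m - l)) → ∀ y : ℕ → ℂ,
      (m : ℝ) ^ 2 / (KS s * pq (b + 3) (m - 1)) * (linF s K N (vS d m) y - gamF s b N y
        - C / m * (∑ n ∈ Finset.range N, ‖y n‖ ^ 2 + ∑ r ∈ Finset.range K, ‖vS d m r‖ ^ 2))
      ≤ Pf s b d m :=
  P_lower_of K N hN (fun _ hs => ⟨(KS_facts hs).1, (KS_facts hs).2.1⟩)
    (fun _ hs _ hσ d m => Pf_eq hs hσ d m) (gram_eq N)

end Pool.Agent.M16.Helper24.HR2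
end

/- Helper94.T.Helper22.Half.Faber -/
section
/-!
The Faber type polynomials: coefficients of `ω^i` in `(ω(φ(ω) - φ(ζ)))^{s}`.
-/

set_option autoImplicit false

open MeasureTheory Set Metric Filter Topology
open scoped ENNReal NNReal Real Nat

namespace Pool.Agent.M16.Helper22.Half

open Pool.Agent.M16.Helper39.Area (Ext phi dphi qq_ne qq_diff phi_sub)
open Pool.Agent.M16.Helper22.Marshall (coeff coeff_mul coeff_const_mul coeff_deriv coeff_zero coeff_congr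
  coeff_eq_of_hasSum hasSum_coeff LogPhi)

/-- abstract Taylor recursion: `D T' = -θ D' T` with `D = 1 + ω (β - φ)` -/
theorem coeff_rec {D T : ℂ → ℂ} (hD : AnalyticAt ℂ D 0) (hT : AnalyticAt ℂ T 0) {θ : ℂ}
    (hD0 : D 0 = 1) (h : ∀ᶠ w in 𝓝 (0 : ℂ), D w * deriv T w = -θ * (deriv D w * T w)) (n : ℕ) :
    ((n : ℂ) + 1) * coeff T (n + 1)
      = -∑ i ∈ Finset.range (n + 1), (θ * ((i : ℂ) + 1) + ((n - i : ℕ) : ℂ)) * coeff D (i + 1)
          * coeff T (n - i) := by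
  have h1 := coeff_congr h n
  rw [coeff_mul hD hT.deriv, coeff_const_mul, coeff_mul hD.deriv hT] at h1
  simp_rw [coeff_deriv] at h1
  rw [Finset.sum_range_succ'] at h1
  simp only [coeff_zero, hD0, one_mul, Nat.sub_zero] at h1
  -- the shifted sum
  have h2 : ∑ k ∈ Finset.range n, coeff D (k + 1) * (((n - (k + 1) : ℕ) : ℂ) + 1)
      * coeff T (n - (k + 1) + 1)
      = ∑ i ∈ Finset.range (n + 1), ((n - i : ℕ) : ℂ) * coeff D (i + 1) * coeff T (n - i) := by
    rw [Finset.sum_range_succ]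
    simp only [Nat.sub_self, Nat.cast_zero, zero_mul, add_zero]
    apply Finset.sum_congr rfl
    intro k hk
    rw [Finset.mem_range] at hk
    have e : n - (k + 1) + 1 = n - k := by omega
    rw [e]
    have e2 : ((n - (k + 1) : ℕ) : ℂ) + 1 = ((n - k : ℕ) : ℂ) := by
      rw [← e]; push_cast; ring
    rw [e2]
    ring
  have h3 : ∑ k ∈ Finset.range n, coeff D (k + 1) * ((((n - (k + 1) : ℕ) : ℂ) + 1)
      * coeff T (n - (k + 1) + 1))
      = ∑ i ∈ Finset.range (n + 1), ((n - i : ℕ) : ℂ) * coeff D (i + 1) * coeff T (n - i) := by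
    rw [← h2]
    apply Finset.sum_congr rfl
    intro k _
    ring
  rw [h3] at h1
  have h4 : ∑ i ∈ Finset.range (n + 1), (θ * ((i : ℂ) + 1) + ((n - i : ℕ) : ℂ)) * coeff D (i + 1)
          * coeff T (n - i)
      = θ * ∑ i ∈ Finset.range (n + 1), ((i : ℂ) + 1) * coeff D (i + 1) * coeff T (n - i)
        + ∑ i ∈ Finset.range (n + 1), ((n - i : ℕ) : ℂ) * coeff D (i + 1) * coeff T (n - i) := by
    rw [Finset.mul_sum, ← Finset.sum_add_distrib]
    apply Finset.sum_congr rfl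
    intro i _
    ring
  rw [h4]
  linear_combination h1

/-- polynomials with prescribed recursion -/
theorem exists_poly (θ : ℂ) (bc : ℕ → ℂ) (n : ℕ) : ∃ P : ℕ → Polynomial ℂ,
    (∀ k ≤ n, (P k).natDegree ≤ k) ∧ P 0 = 1 ∧ ∀ k < n, Polynomial.C ((k : ℂ) + 1) * P (k + 1)
      = -∑ i ∈ Finset.range (k + 1), Polynomial.C (θ * ((i : ℂ) + 1) + ((k - i : ℕ) : ℂ))
        * (Polynomial.C (bc i) - if i = 0 then Polynomial.X else 0) * P (k - i) := by
  induction n with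
  | zero =>
    refine ⟨fun _ => 1, fun k hk => by simp, rfl, fun k hk => by omega⟩
  | succ n ih =>
    obtain ⟨P, hP1, hP0, hP2⟩ := ih
    obtain ⟨Q, hQ⟩ : ∃ Q : Polynomial ℂ, Q = Polynomial.C (((n : ℂ) + 1)⁻¹) * (-∑ i ∈ Finset.range (n + 1), Polynomial.C (θ * ((i : ℂ) + 1) + ((n - i : ℕ) : ℂ))
        * (Polynomial.C (bc i) - if i = 0 then Polynomial.X else 0) * P (n - i)) := ⟨_, rfl⟩
    have hQd : Q.natDegree ≤ n + 1 := by
      rw [hQ]
      refine (Polynomial.natDegree_C_mul_le _ _).trans ?_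
      rw [Polynomial.natDegree_neg]
      apply Polynomial.natDegree_sum_le_of_forall_le
      intro i hi
      rw [Finset.mem_range] at hi
      rw [mul_assoc]
      refine (Polynomial.natDegree_C_mul_le _ _).trans ?_
      refine Polynomial.natDegree_mul_le.trans ?_
      have h1 := hP1 (n - i) (by omega)
      have h2 : (Polynomial.C (bc i) - if i = 0 then Polynomial.X else 0 : Polynomial ℂ).natDegree
          ≤ i + 1 := by
        refine (Polynomial.natDegree_sub_le _ _).trans ?_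
        rw [Polynomial.natDegree_C]
        split_ifs
        · simp
        · simp
      omega
    refine ⟨fun k => if k = n + 1 then Q else P k, ?_, ?_, ?_⟩
    · intro k hk
      by_cases h : k = n + 1
      · simp only [h, if_true]; exact hQd
      · simp only [h, if_false]; exact hP1 k (by omega)
    · simp only [Nat.zero_ne_add_one, if_false]; exact hP0
    · intro k hk
      have e : ∀ i, (if k - i = n + 1 then Q else P (k - i)) = P (k - i) := by
        intro i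
        rw [if_neg (by omega)]
      simp only [e]
      by_cases h : k = n
      · subst h
        simp only [if_true]
        rw [hQ, ← mul_assoc, ← Polynomial.C_mul]
        have : ((k : ℂ) + 1) * ((k : ℂ) + 1)⁻¹ = 1 := mul_inv_cancel₀ (Nat.cast_add_one_ne_zero k)
        rw [this, Polynomial.C_1, one_mul]
      · rw [if_neg (by omega)]
        exact hP2 k (by omega)

theorem coeff_D {g : ℂ → ℂ} (hg : DifferentiableOn ℂ g (ball 0 1)) (n : ℕ) :
    coeff (fun w => 1 + w * g w) (n + 1) = coeff g n := by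
  have h := coeff_eq_of_hasSum (f := fun w => 1 + w * g w) (r := 1) one_pos
    (a := fun n => if n = 0 then 1 else coeff g (n - 1)) (fun z hz => by
      have h1 := (hasSum_coeff hg hz).mul_left z
      rw [← hasSum_nat_add_iff' 1]
      simp only [Finset.range_one, Finset.sum_singleton, if_true, pow_zero, mul_one,
        Nat.add_eq_zero_iff, one_ne_zero, and_false, if_false, Nat.add_sub_cancel, add_sub_cancel_left]
      have e : (fun n => coeff g n * z ^ (n + 1)) = fun n => z * (coeff g n * z ^ n) := by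
        funext n; ring
      rw [e]
      exact h1) (n + 1)
  rw [h]
  simp

theorem choose_eq_pq (α : ℂ) (n : ℕ) : Ring.choose (α + n - 1) n = pq α n := by
  rw [← Ring.multichoose_eq]
  have h : ∀ n : ℕ, (n.factorial : ℂ) * Ring.multichoose α n = (n.factorial : ℂ) * pq α n := by
    intro n
    have e := Ring.factorial_nsmul_multichoose_eq_ascPochhammer α n
    rw [nsmul_eq_mul] at e
    rw [e, Polynomial.ascPochhammer_smeval_eq_eval]
    induction n with
    | zero => simp [pq]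
    | succ n ih =>
      have e2 := Ring.factorial_nsmul_multichoose_eq_ascPochhammer α n
      rw [nsmul_eq_mul] at e2
      have ih' := ih e2
      rw [ascPochhammer_succ_eval, ih']
      have h3 := pq_succ' α n
      rw [Nat.factorial_succ]
      push_cast
      linear_combination (-(n.factorial : ℂ)) * h3
  have hne : (n.factorial : ℂ) ≠ 0 := Nat.cast_ne_zero.mpr (Nat.factorial_ne_zero n)
  exact mul_left_cancel₀ hne (h n)

theorem hasSum_pq (α : ℂ) {x : ℂ} (hx : ‖x‖ < 1) :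
    HasSum (fun n : ℕ => pq α n * x ^ n) (1 / (1 - x) ^ α) := by
  have h := (Complex.one_div_one_sub_cpow_hasFPowerSeriesOnBall_zero α).hasSum
    (y := x) (by
      rw [Metric.mem_eball, edist_zero_right]
      rw [← ofReal_norm]
      exact ENNReal.ofReal_lt_one.mpr hx)
  rw [zero_add] at h
  have e : (fun n : ℕ => pq α n * x ^ n) = fun n => ((FormalMultilinearSeries.ofScalars ℂ
      fun n ↦ Ring.choose (α + n - 1) n) n) fun _ => x := by
    funext n
    rw [FormalMultilinearSeries.ofScalars_apply_eq, choose_eq_pq]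
    simp
  rw [e]
  exact h

theorem coeff_power (s : ℂ) {ζ : ℂ} (h0 : ζ ≠ 0) (n : ℕ) :
    coeff (fun w => Complex.exp (s * Complex.log (1 - w / ζ))) n = pq (-s) n * (ζ⁻¹) ^ n := by
  apply coeff_eq_of_hasSum (r := ‖ζ‖) (norm_pos_iff.mpr h0)
  intro z hz
  have hx : ‖z / ζ‖ < 1 := by
    rw [norm_div, div_lt_one (norm_pos_iff.mpr h0)]; exact hz
  have h1 := hasSum_pq (-s) hx
  have hne : 1 - z / ζ ≠ 0 := by
    intro h
    rw [sub_eq_zero] at h
    rw [← h] at hx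
    simp at hx
  have e : (1 / (1 - z / ζ) ^ (-s)) = Complex.exp (s * Complex.log (1 - z / ζ)) := by
    rw [Complex.cpow_def_of_ne_zero hne, one_div, ← Complex.exp_neg]
    congr 1; ring
  rw [e] at h1
  have e2 : (fun n => pq (-s) n * ζ⁻¹ ^ n * z ^ n) = fun n => pq (-s) n * (z / ζ) ^ n := by
    funext n
    rw [div_eq_mul_inv, mul_pow]
    ring
  rw [e2]
  exact h1

theorem one_sub_slit {ζ w : ℂ} (h0 : ζ ≠ 0) (hw : ‖w‖ < ‖ζ‖) : 1 - w / ζ ∈ Complex.slitPlane := by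
  have hx : ‖w / ζ‖ < 1 := by
    rw [norm_div, div_lt_one (norm_pos_iff.mpr h0)]; exact hw
  left
  have := (abs_le.mp (Complex.abs_re_le_norm (w / ζ))).2
  rw [Complex.sub_re, Complex.one_re]
  linarith

section
variable {β H : ℂ → ℂ} {Φ : ℂ → ℂ → ℂ}

/-- the function `T` -/
noncomputable def TF (Φ : ℂ → ℂ → ℂ) (s ζ w : ℂ) : ℂ :=
  Complex.exp (s * (Complex.log (1 - w / ζ) + Φ ζ w))

theorem TF_diff (hΦ : LogPhi β H Φ) {ζ : ℂ} (hζ : ζ ∈ ball (0 : ℂ) 1) (h0 : ζ ≠ 0) :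
    ∀ w : ℂ, ‖w‖ < ‖ζ‖ → DifferentiableAt ℂ (fun w => Complex.log (1 - w / ζ) + Φ ζ w) w := by
  intro w hw
  rw [mem_ball_zero_iff] at hζ
  apply DifferentiableAt.add
  · apply DifferentiableAt.clog
    · fun_prop
    · exact one_sub_slit h0 hw
  · exact (hΦ.sep.right ζ (mem_ball_zero_iff.mpr hζ)).differentiableAt
      (isOpen_ball.mem_nhds (mem_ball_zero_iff.mpr (hw.trans hζ)))

theorem D_eq (hΦ : LogPhi β H Φ) {ζ : ℂ} (hζ : ζ ∈ ball (0 : ℂ) 1) (h0 : ζ ≠ 0) {w : ℂ}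
    (hw : ‖w‖ < ‖ζ‖) :
    Complex.exp (Complex.log (1 - w / ζ) + Φ ζ w) = 1 + w * (β w - phi β ζ) := by
  have hz1 := hζ
  rw [mem_ball_zero_iff] at hz1
  have hne : 1 - w / ζ ≠ 0 := Complex.slitPlane_ne_zero (one_sub_slit h0 hw)
  rw [Complex.exp_add, Complex.exp_log hne, hΦ.exp_eq ζ hζ w (mem_ball_zero_iff.mpr (hw.trans hz1))]
  by_cases hw0 : w = 0
  · subst hw0
    simp [Pool.Agent.M16.Helper39.Area.qq]
  · have h1 := phi_sub (β := β) ζ w h0 hw0
    have h2 : phi β w = w⁻¹ + β w := rfl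
    have h3 : (1 - w / ζ) * Pool.Agent.M16.Helper39.Area.qq β ζ w
        = w * ((w⁻¹ - ζ⁻¹) * Pool.Agent.M16.Helper39.Area.qq β ζ w) := by
      field_simp
    rw [h3, ← h1, h2]
    field_simp
    ring

theorem TF_ode (hΦ : LogPhi β H Φ) (s : ℂ) {ζ : ℂ} (hζ : ζ ∈ ball (0 : ℂ) 1) (h0 : ζ ≠ 0) :
    ∀ᶠ w in 𝓝 (0 : ℂ), (1 + w * (β w - phi β ζ)) * deriv (TF Φ s ζ) w
      = -(-s) * (deriv (fun w => 1 + w * (β w - phi β ζ)) w * TF Φ s ζ w) := by
  have hpos : 0 < ‖ζ‖ := norm_pos_iff.mpr h0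
  filter_upwards [ball_mem_nhds (0 : ℂ) hpos] with w hw
  rw [mem_ball_zero_iff] at hw
  have h1 := (TF_diff hΦ hζ h0 w hw).hasDerivAt
  have h2 := h1.cexp
  have h3 := (h1.const_mul s).cexp
  have e3 : deriv (TF Φ s ζ) w = TF Φ s ζ w * (s *
      deriv (fun w => Complex.log (1 - w / ζ) + Φ ζ w) w) := by
    have : TF Φ s ζ = fun w => Complex.exp (s * (Complex.log (1 - w / ζ) + Φ ζ w)) := rfl
    rw [this]
    exact h3.deriv
  have e2 : deriv (fun w => 1 + w * (β w - phi β ζ)) w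
      = (1 + w * (β w - phi β ζ)) * deriv (fun w => Complex.log (1 - w / ζ) + Φ ζ w) w := by
    have h4 : (fun w => 1 + w * (β w - phi β ζ)) =ᶠ[𝓝 w]
        fun w => Complex.exp (Complex.log (1 - w / ζ) + Φ ζ w) := by
      have : ball (0 : ℂ) ‖ζ‖ ∈ 𝓝 w := isOpen_ball.mem_nhds (mem_ball_zero_iff.mpr hw)
      filter_upwards [this] with v hv
      rw [mem_ball_zero_iff] at hv
      exact (D_eq hΦ hζ h0 hv).symm
    rw [h4.deriv_eq, h2.deriv, D_eq hΦ hζ h0 hw]
  rw [e3, e2]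
  ring

theorem TF_analytic (hΦ : LogPhi β H Φ) (s : ℂ) {ζ : ℂ} (hζ : ζ ∈ ball (0 : ℂ) 1) (h0 : ζ ≠ 0) :
    AnalyticAt ℂ (TF Φ s ζ) 0 := by
  have hpos : 0 < ‖ζ‖ := norm_pos_iff.mpr h0
  have hd : DifferentiableOn ℂ (TF Φ s ζ) (ball 0 ‖ζ‖) := by
    intro w hw
    rw [mem_ball_zero_iff] at hw
    exact ((TF_diff hΦ hζ h0 w hw).const_mul s).cexp.differentiableWithinAt
  exact hd.analyticAt (ball_mem_nhds (0 : ℂ) hpos)

/-- the Faber type polynomials -/
theorem faber_T (h : Ext β) (hΦ : LogPhi β H Φ) (s : ℂ) (n : ℕ) :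
    ∃ P : ℕ → Polynomial ℂ, (∀ k ≤ n, (P k).natDegree ≤ k) ∧
      ∀ ζ ∈ ball (0 : ℂ) 1, ζ ≠ 0 → ∀ k ≤ n, coeff (TF Φ s ζ) k = (P k).eval (phi β ζ) := by
  obtain ⟨P, hP1, hP0, hP2⟩ := exists_poly (-s) (coeff β) n
  refine ⟨P, hP1, fun ζ hζ h0 => ?_⟩
  have hrec := coeff_rec (D := fun w => 1 + w * (β w - phi β ζ)) (T := TF Φ s ζ) (θ := -s)
    (by
      have : DifferentiableOn ℂ (fun w => 1 + w * (β w - phi β ζ)) (ball 0 1) := by
        have := h.diff
        fun_prop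
      exact this.analyticAt (ball_mem_nhds _ one_pos))
    (TF_analytic hΦ s hζ h0) (by simp) (TF_ode hΦ s hζ h0)
  intro k
  induction k using Nat.strong_induction_on with
  | _ k ih =>
    intro hk
    cases k with
    | zero =>
      rw [coeff_zero, hP0]
      simp [TF, hΦ.zero_right ζ hζ]
    | succ k =>
      have h1 := hrec k
      have h2 := congrArg (Polynomial.eval (phi β ζ)) (hP2 k (by omega))
      rw [Polynomial.eval_mul, Polynomial.eval_C, Polynomial.eval_neg,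
        Polynomial.eval_finsetSum] at h2
      have hne : ((k : ℂ) + 1) ≠ 0 := Nat.cast_add_one_ne_zero k
      apply mul_left_cancel₀ hne
      rw [h1, h2]
      congr 1
      apply Finset.sum_congr rfl
      intro i hi
      rw [Finset.mem_range] at hi
      rw [Polynomial.eval_mul, Polynomial.eval_mul, Polynomial.eval_C, ih (k - i) (by omega) (by omega)]
      have e : coeff (fun w => 1 + w * (β w - phi β ζ)) (i + 1)
          = Polynomial.eval (phi β ζ) (Polynomial.C (coeff β i) - if i = 0 then Polynomial.X else 0) := by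
        rw [coeff_D (g := fun w => β w - phi β ζ) (by
          have := h.diff
          fun_prop)]
        have e2 : coeff (fun w => β w - phi β ζ) i = coeff β i - if i = 0 then phi β ζ else 0 := by
          cases i with
          | zero => simp [coeff_zero]
          | succ i =>
            simp only [Nat.add_eq_zero_iff, one_ne_zero, and_false, if_false, sub_zero]
            unfold coeff
            congr 1
            rw [iteratedDeriv_succ', iteratedDeriv_succ']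
            congr 1
            funext w
            simp
        rw [e2]
        rw [Polynomial.eval_sub, Polynomial.eval_C]
        split_ifs <;> simp
      rw [e]

/-- the Faber type polynomials for the symmetric kernel -/
theorem faber_E (h : Ext β) (hΦ : LogPhi β H Φ) (s : ℂ) (n : ℕ) :
    ∃ P : Polynomial ℂ, P.natDegree ≤ n ∧ ∀ ζ ∈ ball (0 : ℂ) 1, ζ ≠ 0 →
      ζ ^ n * P.eval (phi β ζ) = ∑ l ∈ Finset.range (n + 1), pq (-s) (n - l) *
        (coeff (fun w => Complex.exp (s * Φ ζ w)) l * ζ ^ l) := by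
  obtain ⟨P, hP1, hP2⟩ := faber_T h hΦ s n
  refine ⟨P n, hP1 n le_rfl, ?_⟩
  intro ζ hζ h0
  have hpos : 0 < ‖ζ‖ := norm_pos_iff.mpr h0
  have hFd : DifferentiableOn ℂ (fun w => Complex.exp (s * Φ ζ w)) (ball 0 1) :=
    ((hΦ.sep.right ζ hζ).const_mul _).cexp
  have hS : AnalyticAt ℂ (fun w => Complex.exp (s * Complex.log (1 - w / ζ))) 0 := by
    have hd : DifferentiableOn ℂ (fun w => Complex.exp (s * Complex.log (1 - w / ζ)))
        (ball 0 ‖ζ‖) := by
      intro w hw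
      rw [mem_ball_zero_iff] at hw
      apply DifferentiableAt.differentiableWithinAt
      apply DifferentiableAt.cexp
      apply DifferentiableAt.const_mul
      apply DifferentiableAt.clog
      · fun_prop
      · exact one_sub_slit h0 hw
    exact hd.analyticAt (ball_mem_nhds (0 : ℂ) hpos)
  have h2 := coeff_mul hS (hFd.analyticAt (ball_mem_nhds _ one_pos)) n
  have h3 : coeff (TF Φ s ζ) n
      = coeff (fun z => Complex.exp (s * Complex.log (1 - z / ζ)) * Complex.exp (s * Φ ζ z)) n := by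
    congr 1
    funext z
    unfold TF
    rw [mul_add, Complex.exp_add]
  rw [h2] at h3
  rw [← hP2 ζ hζ h0 n le_rfl, h3, Finset.mul_sum, ← Finset.sum_range_reflect]
  apply Finset.sum_congr rfl
  intro l hl
  rw [Finset.mem_range] at hl
  have e1 : n + 1 - 1 - l = n - l := by omega
  have e2 : n - (n - l) = l := by omega
  rw [e1, e2, coeff_power s h0]
  have e3 : ζ ^ n = ζ ^ (n - l) * ζ ^ l := by rw [← pow_add]; congr 1; omega
  rw [e3, inv_pow]
  have : ζ ^ (n - l) ≠ 0 := pow_ne_zero _ h0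
  field_simp

end

end Pool.Agent.M16.Helper22.Half
end

/- Helper94.T.Helper22.Half.GrowthA -/
section
/-!
Expansion of the exponential of the kernel and the area inequality.
-/

set_option autoImplicit false

open MeasureTheory Set Metric Filter Topology
open scoped ENNReal NNReal Real Nat ComplexConjugate

namespace Pool.Agent.M16.Helper22.Half

open Pool.Agent.M16.Helper39.Area (Ext phi)
open Pool.Agent.M16.Helper22.Marshall (coeff SepHol LogPhi dcoeff GLe coeff_congr)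

theorem hasSum_shift {a : ℕ → ℂ} {z s : ℂ} (h : HasSum (fun k => a k * z ^ k) s) (l : ℕ) :
    HasSum (fun m => if l ≤ m then a (m - l) * z ^ m else 0) (s * z ^ l) := by
  rw [← hasSum_nat_add_iff' l]
  have e1 : ∑ i ∈ Finset.range l, (if l ≤ i then a (i - l) * z ^ i else 0) = 0 := by
    apply Finset.sum_eq_zero
    intro i hi
    rw [Finset.mem_range] at hi
    rw [if_neg (by omega)]
  have e2 : (fun n => if l ≤ n + l then a (n + l - l) * z ^ (n + l) else 0)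
      = fun n => (a n * z ^ n) * z ^ l := by
    funext n
    rw [if_pos (by omega), Nat.add_sub_cancel, pow_add]
    ring
  rw [e1, e2, sub_zero]
  exact h.mul_right _

/-- the `m`-th antidiagonal -/
noncomputable def diagc (F : ℂ → ℂ → ℂ) (m l : ℕ) : ℂ := dcoeff F (m - l) l

theorem hasSum_Vd {F : ℂ → ℂ → ℂ} (hF : SepHol F) (s : ℂ) (n : ℕ) {ζ : ℂ} (hζ : ‖ζ‖ < 1) :
    HasSum (fun m => Vd s (diagc F m) m n * ζ ^ m)
      (∑ l ∈ Finset.range (n + 1), pq (-s) (n - l) * (coeff (F ζ) l * ζ ^ l)) := by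
  have h1 : ∀ l ∈ Finset.range (n + 1), HasSum (fun m => pq (-s) (n - l) *
      (if l ≤ m then dcoeff F (m - l) l * ζ ^ m else 0))
      (pq (-s) (n - l) * (coeff (F ζ) l * ζ ^ l)) := by
    intro l _
    apply HasSum.mul_left
    exact hasSum_shift (a := fun k => dcoeff F k l) (hF.hasSum_left hζ l) l
  have h2 := hasSum_sum h1
  have e : (fun m => ∑ l ∈ Finset.range (n + 1), pq (-s) (n - l) *
      (if l ≤ m then dcoeff F (m - l) l * ζ ^ m else 0))
      = fun m => Vd s (diagc F m) m n * ζ ^ m := by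
    funext m
    unfold Vd diagc
    rw [Finset.sum_mul]
    symm
    have hsub : Finset.range (min n m + 1) ⊆ Finset.range (n + 1) := by
      intro l hl
      rw [Finset.mem_range] at hl ⊢
      omega
    rw [← Finset.sum_subset hsub]
    · apply Finset.sum_congr rfl
      intro l hl
      rw [Finset.mem_range] at hl
      rw [if_pos (by omega)]
      ring
    · intro l hl hl2
      rw [Finset.mem_range] at hl hl2
      rw [if_neg (by omega), mul_zero]
  rw [e] at h2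
  exact h2

theorem dcoeff_symm {U : ℂ → ℂ → ℂ} (h : SepHol U)
    (hs : ∀ a ∈ ball (0 : ℂ) 1, ∀ b ∈ ball (0 : ℂ) 1, U a b = U b a) (k l : ℕ) :
    dcoeff U k l = dcoeff U l k := by
  unfold dcoeff
  rw [← h.coeff_comm k l]
  apply coeff_congr
  filter_upwards [ball_mem_nhds (0 : ℂ) one_pos] with w hw
  apply coeff_congr
  filter_upwards [ball_mem_nhds (0 : ℂ) one_pos] with z hz
  exact hs z hz w hw

section
variable {β H : ℂ → ℂ} {Φ : ℂ → ℂ → ℂ}

/-- the symmetric kernel -/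
noncomputable def EE (Φ : ℂ → ℂ → ℂ) (s ζ w : ℂ) : ℂ := Complex.exp (s * Φ ζ w)

theorem EE_sep (hΦ : LogPhi β H Φ) (s : ℂ) : SepHol (EE Φ s) where
  cont := by
    have := hΦ.sep.cont
    exact (continuousOn_const.mul this).cexp
  left := fun w hw => ((hΦ.sep.left w hw).const_mul s).cexp
  right := fun z hz => ((hΦ.sep.right z hz).const_mul s).cexp

theorem EE_symm (hΦ : LogPhi β H Φ) (s : ℂ) (m : ℕ) :
    ∀ l ≤ m, diagc (EE Φ s) m l = diagc (EE Φ s) m (m - l) := by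
  intro l hl
  unfold diagc
  rw [dcoeff_symm (EE_sep hΦ s) (fun a ha b hb => by unfold EE; rw [hΦ.symm a ha b hb])]
  congr 1
  omega

theorem EE_zero (hΦ : LogPhi β H Φ) (s : ℂ) : diagc (EE Φ s) 0 0 = 1 := by
  unfold diagc dcoeff EE
  rw [Pool.Agent.M16.Helper22.Marshall.coeff_zero, Pool.Agent.M16.Helper22.Marshall.coeff_zero,
    hΦ.zero_right 0 (mem_ball_self one_pos), mul_zero, Complex.exp_zero]

theorem EE_diag (hΦ : LogPhi β H Φ) (s : ℂ) (m : ℕ) :
    ∑ l ∈ Finset.range (m + 1), diagc (EE Φ s) m l = coeff (fun z => Complex.exp (s * H z)) m := by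
  have h1 := (EE_sep hΦ s).hasSum_diag m
  have h2 : coeff (fun z => EE Φ s z z) m = coeff (fun z => Complex.exp (s * H z)) m := by
    apply coeff_congr
    filter_upwards [ball_mem_nhds (0 : ℂ) one_pos] with z hz
    unfold EE
    rw [hΦ.diag z hz]
  rw [← h2, h1, ← Finset.sum_range_reflect]
  apply Finset.sum_congr rfl
  intro l hl
  rw [Finset.mem_range] at hl
  unfold diagc
  have e1 : m + 1 - 1 - l = m - l := by omega
  have e2 : m - (m - l) = l := by omega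
  rw [e1, e2]

/-- the area inequality for each Faber type polynomial -/
theorem area_V {k : ℝ} (hk : GLe β k) (hE : Ext β) (hΦ : LogPhi β H Φ) (s : ℂ) (i M : ℕ) :
    ∑ m ∈ Finset.range M, ((m - i : ℕ) : ℝ) * ‖Vd s (diagc (EE Φ s) m) m i‖ ^ 2
      ≤ k ^ 2 * ∑ m ∈ Finset.range i, ((i - m : ℕ) : ℝ) * ‖Vd s (diagc (EE Φ s) m) m i‖ ^ 2 := by
  obtain ⟨P, hP1, hP2⟩ := faber_E hE hΦ s i
  exact hk i P (fun m => Vd s (diagc (EE Φ s) m) m i) hP1 (fun ζ hζ0 hζ1 => by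
    rw [hP2 ζ (mem_ball_zero_iff.mpr hζ1) hζ0]
    exact hasSum_Vd (EE_sep hΦ s) s i hζ1) M

end

end Pool.Agent.M16.Helper22.Half
end

/- Helper94.T.Helper24.HR2.AreaS -/
section
/-!
MP_16b0ee, project HR2, module R4: the area inequality summed over all Faber type polynomials
(complex exponent), uniform bounds of the coefficients of bounded order, and uniform bounds of the
upper forms of bounded order.
-/

set_option autoImplicit false

open MeasureTheory Set Metric Filter Topology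
open scoped Real ComplexConjugate

namespace Pool.Agent.M16.Helper24.HR2

open Pool.Agent.M16.Helper22.Half
open Pool.Agent.M16.Helper22.Marshall (coeff SepHol LogPhi dcoeff GLe)
open Pool.Agent.M16.Helper39.Area (Ext phi)
open Pool.Agent.M16.Helper39.MH

theorem area_sum_s {β H : ℂ → ℂ} {Φ : ℂ → ℂ → ℂ} (hE : Ext β) (hΦ : LogPhi β H Φ) {s : ℂ}
    {b : ℝ} (hσ : 0 < b + 1 - 2 * s.re) (M : ℕ) :
    ∑ m ∈ Finset.range M, Pf s b (diagc (EE Φ s) m) m
      ≤ ∑ m ∈ Finset.range M, Nf s b (diagc (EE Φ s) m) m (M - (m + 1)) := by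
  have h1 := double_fin (S := fun m i => ‖Vd s (diagc (EE Φ s) m) m i‖ ^ 2)
    (lam := fun i => (pq (b + 1 - 2 * s.re) i)⁻¹) (κ := 1 ^ 2)
    (fun i => (inv_pos.mpr (pq_pos hσ i)).le)
    (fun i M => area_V (Pool.Agent.M16.Helper22.Marshall.gLe_one hE) hE hΦ s i M) M
  rw [one_pow, one_mul] at h1
  have e1 : ∑ m ∈ Finset.range M, ∑ i ∈ Finset.range M, ((m - i : ℕ) : ℝ)
      * (pq (b + 1 - 2 * s.re) i)⁻¹ * ‖Vd s (diagc (EE Φ s) m) m i‖ ^ 2
      = ∑ m ∈ Finset.range M, Pf s b (diagc (EE Φ s) m) m := by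
    apply Finset.sum_congr rfl
    intro m hm
    exact lower_eq _ (Finset.mem_range.mp hm)
  rw [e1] at h1
  refine h1.trans (le_of_eq ?_)
  apply Finset.sum_congr rfl
  intro m _
  have h3 := upper_eq (fun i => (pq (b + 1 - 2 * s.re) i)⁻¹
    * ‖Vd s (diagc (EE Φ s) m) m i‖ ^ 2) m M
  unfold Nf
  simp only [← mul_assoc] at h3 ⊢
  exact h3

namespace AreaSAux

/-- the coefficients of `(1-x)^s` are bounded by `|s|` -/
theorem pq_le {s : ℂ} (hs : ‖s‖ ≤ 1) (n : ℕ) : ‖pq (-s) (n + 1)‖ ≤ ‖s‖ := by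
  induction n with
  | zero =>
    rw [pq_succ, pq_zero, one_mul]
    simp
  | succ n ih =>
    rw [pq_succ, norm_mul]
    have h1 : ‖(-s + ((n + 1 : ℕ) : ℂ)) / (((n + 1 : ℕ) : ℂ) + 1)‖ ≤ 1 := by
      rw [norm_div]
      have e : ‖((n + 1 : ℕ) : ℂ) + 1‖ = (n : ℝ) + 2 := by
        have : ((n + 1 : ℕ) : ℂ) + 1 = (((n : ℝ) + 2 : ℝ) : ℂ) := by push_cast; ring
        rw [this, Complex.norm_real, Real.norm_of_nonneg (by positivity)]
      rw [e, div_le_one (by positivity)]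
      calc ‖-s + ((n + 1 : ℕ) : ℂ)‖ ≤ ‖-s‖ + ‖((n + 1 : ℕ) : ℂ)‖ := norm_add_le _ _
        _ ≤ 1 + ((n : ℝ) + 1) := by
            rw [norm_neg, Complex.norm_natCast]
            push_cast
            linarith
        _ = _ := by ring
    calc ‖pq (-s) (n + 1)‖ * ‖(-s + ((n + 1 : ℕ) : ℂ)) / (((n + 1 : ℕ) : ℂ) + 1)‖
        ≤ ‖s‖ * 1 := by gcongr
      _ = ‖s‖ := mul_one _

theorem pq_le_one {s : ℂ} (hs : ‖s‖ ≤ 1) (n : ℕ) : ‖pq (-s) n‖ ≤ 1 := by
  cases n with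
  | zero => rw [pq_zero]; simp
  | succ n => exact (pq_le hs n).trans hs

/-- the boundary coefficients vanish -/
theorem diag_zero {β H : ℂ → ℂ} {Φ : ℂ → ℂ → ℂ} (hΦ : LogPhi β H Φ) (s : ℂ) {m : ℕ}
    (hm : 1 ≤ m) : diagc (EE Φ s) m 0 = 0 := by
  unfold diagc dcoeff
  have e1 : coeff (fun z => coeff (fun w => EE Φ s z w) 0) (m - 0)
      = coeff (fun _ => (1 : ℂ)) (m - 0) := by
    apply Pool.Agent.M16.Helper22.Marshall.coeff_congr
    filter_upwards [ball_mem_nhds (0 : ℂ) one_pos] with z hz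
    rw [Pool.Agent.M16.Helper22.Marshall.coeff_zero]
    unfold EE
    rw [hΦ.zero_right z hz, mul_zero, Complex.exp_zero]
  rw [e1, Nat.sub_zero]
  unfold coeff
  rw [iteratedDeriv_const]
  rw [if_neg (by omega)]
  simp

/-- bounds of the sums `V` by bounds of the coefficients -/
theorem V_le {s : ℂ} (hs : ‖s‖ ≤ 1) {d : ℕ → ℂ} {m i : ℕ} {B : ℝ} (hB : 0 ≤ B)
    (hd : ∀ l ≤ min i m, ‖d l‖ ≤ B) : ‖Vd s d m i‖ ≤ (i + 1) * B := by
  unfold Vd
  calc ‖∑ l ∈ Finset.range (min i m + 1), pq (-s) (i - l) * d l‖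
      ≤ ∑ l ∈ Finset.range (min i m + 1), ‖pq (-s) (i - l) * d l‖ := norm_sum_le _ _
    _ ≤ ∑ l ∈ Finset.range (min i m + 1), B := by
        apply Finset.sum_le_sum
        intro l hl
        rw [Finset.mem_range] at hl
        rw [norm_mul]
        calc ‖pq (-s) (i - l)‖ * ‖d l‖ ≤ 1 * B := by
              gcongr
              · exact pq_le_one hs _
              · exact hd l (by omega)
          _ = B := one_mul _
    _ = (((min i m + 1 : ℕ) : ℝ)) * B := by rw [Finset.sum_const, Finset.card_range, nsmul_eq_mul]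
    _ ≤ (i + 1) * B := by
        apply mul_le_mul_of_nonneg_right _ hB
        have : min i m + 1 ≤ i + 1 := by omega
        exact_mod_cast this

/-- the constants of the recursion -/
noncomputable def Kr : ℕ → ℝ
  | 0 => 0
  | i + 1 => ((i : ℝ) + 1) * (i + 2) * (Kr i + 1) + (i + 1) * Kr i

theorem Kr_nonneg (i : ℕ) : 0 ≤ Kr i := by
  induction i with
  | zero => exact le_rfl
  | succ i ih =>
    show 0 ≤ ((i : ℝ) + 1) * (i + 2) * (Kr i + 1) + (i + 1) * Kr i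
    positivity

theorem Kr_le (i : ℕ) : Kr i ≤ Kr (i + 1) := by
  show Kr i ≤ ((i : ℝ) + 1) * (i + 2) * (Kr i + 1) + (i + 1) * Kr i
  have h := Kr_nonneg i
  have h0 : (0 : ℝ) ≤ i := Nat.cast_nonneg i
  have h1 : 0 ≤ ((i : ℝ) + 1) * (i + 2) * (Kr i + 1) := by positivity
  nlinarith only [h, h1]

/-- the coefficients close to the boundary -/
theorem diag_le {β H : ℂ → ℂ} {Φ : ℂ → ℂ → ℂ} (hE : Ext β) (hΦ : LogPhi β H Φ) {s : ℂ}
    (hs : ‖s‖ ≤ 1) (i : ℕ) : ∀ m : ℕ, 1 ≤ m → ∀ l ≤ m, min l (m - l) ≤ i →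
      ‖diagc (EE Φ s) m l‖ ≤ Kr i * ‖s‖ := by
  have hs0 : 0 ≤ ‖s‖ := norm_nonneg s
  induction i with
  | zero =>
    intro m hm l hl hmin
    have h0 : diagc (EE Φ s) m l = 0 := by
      rcases Nat.eq_zero_or_pos l with h | h
      · rw [h]; exact diag_zero hΦ s hm
      · have hml : l = m := by omega
        rw [hml, EE_symm hΦ s m m le_rfl, Nat.sub_self]
        exact diag_zero hΦ s hm
    rw [h0, norm_zero]
    show 0 ≤ 0 * ‖s‖
    rw [zero_mul]
  | succ i ih =>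
    have hK := Kr_nonneg i
    -- the value at the index `i + 1`
    have key : ∀ m : ℕ, i + 1 < m → ‖diagc (EE Φ s) m (i + 1)‖ ≤ Kr (i + 1) * ‖s‖ := by
      intro m hm
      have hA := area_V (Pool.Agent.M16.Helper22.Marshall.gLe_one hE) hE hΦ s (i + 1) (m + 1)
      rw [one_pow, one_mul] at hA
      -- the right-hand side
      have hR : ∀ k ∈ Finset.range (i + 1), ((i + 1 - k : ℕ) : ℝ)
          * ‖Vd s (diagc (EE Φ s) k) k (i + 1)‖ ^ 2
          ≤ ((i : ℝ) + 1) * (((i : ℝ) + 2) * ((Kr i + 1) * ‖s‖)) ^ 2 := by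
        intro k hk
        rw [Finset.mem_range] at hk
        have hk1 : ((i + 1 - k : ℕ) : ℝ) ≤ (i : ℝ) + 1 := by
          have : i + 1 - k ≤ i + 1 := by omega
          exact_mod_cast this
        have hV : ‖Vd s (diagc (EE Φ s) k) k (i + 1)‖ ≤ ((i : ℝ) + 2) * ((Kr i + 1) * ‖s‖) := by
          rcases Nat.eq_zero_or_pos k with h | h
          · subst h
            unfold Vd
            rw [Nat.min_zero, zero_add, Finset.sum_range_one, EE_zero hΦ s, mul_one, Nat.sub_zero]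
            refine (pq_le hs i).trans ?_
            have h1 : 1 ≤ ((i : ℝ) + 2) * (Kr i + 1) := by
              have h0 : (0 : ℝ) ≤ i := Nat.cast_nonneg i
              nlinarith only [hK]
            nlinarith only [hs0, h1]
          · have h2 := V_le (m := k) (i := i + 1) (d := diagc (EE Φ s) k) (B := (Kr i + 1) * ‖s‖)
              hs (by positivity) (fun l hl => by
                refine (ih k h l (by omega) (by omega)).trans ?_
                linarith only [hs0])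
            push_cast at h2
            calc ‖Vd s (diagc (EE Φ s) k) k (i + 1)‖ ≤ ((i : ℝ) + 1 + 1) * ((Kr i + 1) * ‖s‖) := h2
              _ = _ := by ring
        have hV0 := norm_nonneg (Vd s (diagc (EE Φ s) k) k (i + 1))
        have hfin : ((i + 1 - k : ℕ) : ℝ) * ‖Vd s (diagc (EE Φ s) k) k (i + 1)‖ ^ 2
            ≤ ((i : ℝ) + 1) * (((i : ℝ) + 2) * ((Kr i + 1) * ‖s‖)) ^ 2 := by gcongr
        exact hfin
      have hR2 := hA.trans (Finset.sum_le_sum hR)
      rw [Finset.sum_const, Finset.card_range, nsmul_eq_mul] at hR2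
      -- one term of the left-hand side
      have hL : ‖Vd s (diagc (EE Φ s) m) m (i + 1)‖ ^ 2
          ≤ ∑ k ∈ Finset.range (m + 1), ((k - (i + 1) : ℕ) : ℝ)
            * ‖Vd s (diagc (EE Φ s) k) k (i + 1)‖ ^ 2 := by
        have h1 := Finset.single_le_sum (s := Finset.range (m + 1))
          (f := fun k => ((k - (i + 1) : ℕ) : ℝ) * ‖Vd s (diagc (EE Φ s) k) k (i + 1)‖ ^ 2)
          (fun k _ => by positivity) (Finset.mem_range.mpr (Nat.lt_succ_self m))
        refine le_trans ?_ h1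
        have h2 : (1 : ℝ) ≤ ((m - (i + 1) : ℕ) : ℝ) := by
          have : 1 ≤ m - (i + 1) := by omega
          exact_mod_cast this
        have h3 := sq_nonneg ‖Vd s (diagc (EE Φ s) m) m (i + 1)‖
        show ‖Vd s (diagc (EE Φ s) m) m (i + 1)‖ ^ 2
          ≤ ((m - (i + 1) : ℕ) : ℝ) * ‖Vd s (diagc (EE Φ s) m) m (i + 1)‖ ^ 2
        nlinarith only [h2]
      have hV2 : ‖Vd s (diagc (EE Φ s) m) m (i + 1)‖
          ≤ ((i : ℝ) + 1) * ((i : ℝ) + 2) * ((Kr i + 1) * ‖s‖) := by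
        have h1 := hL.trans hR2
        apply le_of_sq_le_sq _ (by positivity)
        refine h1.trans (le_of_eq ?_)
        push_cast
        ring
      -- the decomposition of `V`
      have hdec : Vd s (diagc (EE Φ s) m) m (i + 1)
          = (∑ l ∈ Finset.range (i + 1), pq (-s) (i + 1 - l) * diagc (EE Φ s) m l)
            + diagc (EE Φ s) m (i + 1) := by
        unfold Vd
        have e : min (i + 1) m = i + 1 := by omega
        rw [e, Finset.sum_range_succ, Nat.sub_self, pq_zero, one_mul]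
      have hsum : ‖∑ l ∈ Finset.range (i + 1), pq (-s) (i + 1 - l) * diagc (EE Φ s) m l‖
          ≤ ((i : ℝ) + 1) * (Kr i * ‖s‖) := by
        calc ‖∑ l ∈ Finset.range (i + 1), pq (-s) (i + 1 - l) * diagc (EE Φ s) m l‖
            ≤ ∑ l ∈ Finset.range (i + 1), ‖pq (-s) (i + 1 - l) * diagc (EE Φ s) m l‖ :=
              norm_sum_le _ _
          _ ≤ ∑ l ∈ Finset.range (i + 1), Kr i * ‖s‖ := by
              apply Finset.sum_le_sum
              intro l hl
              rw [Finset.mem_range] at hl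
              rw [norm_mul]
              calc ‖pq (-s) (i + 1 - l)‖ * ‖diagc (EE Φ s) m l‖ ≤ 1 * (Kr i * ‖s‖) := by
                    gcongr
                    · exact pq_le_one hs _
                    · exact ih m (by omega) l (by omega) (by omega)
                _ = _ := one_mul _
          _ = _ := by
              rw [Finset.sum_const, Finset.card_range, nsmul_eq_mul]
              push_cast
              ring
      have heq : diagc (EE Φ s) m (i + 1) = Vd s (diagc (EE Φ s) m) m (i + 1)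
          - ∑ l ∈ Finset.range (i + 1), pq (-s) (i + 1 - l) * diagc (EE Φ s) m l := by
        rw [hdec]; ring
      rw [heq]
      refine (norm_sub_le _ _).trans ?_
      show _ ≤ (((i : ℝ) + 1) * (i + 2) * (Kr i + 1) + (i + 1) * Kr i) * ‖s‖
      calc ‖Vd s (diagc (EE Φ s) m) m (i + 1)‖
            + ‖∑ l ∈ Finset.range (i + 1), pq (-s) (i + 1 - l) * diagc (EE Φ s) m l‖
          ≤ ((i : ℝ) + 1) * ((i : ℝ) + 2) * ((Kr i + 1) * ‖s‖) + ((i : ℝ) + 1) * (Kr i * ‖s‖) :=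
            add_le_add hV2 hsum
        _ = _ := by ring
    intro m hm l hl hmin
    by_cases hsm : min l (m - l) ≤ i
    · refine (ih m hm l hl hsm).trans ?_
      exact mul_le_mul_of_nonneg_right (Kr_le i) hs0
    · have hmin2 : min l (m - l) = i + 1 := by omega
      rcases Nat.le_total l (m - l) with h | h
      · have hl2 : l = i + 1 := by omega
        rw [hl2]
        exact key m (by omega)
      · have hl2 : m - l = i + 1 := by omega
        rw [EE_symm hΦ s m l hl, hl2]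
        exact key m (by omega)

end AreaSAux

open AreaSAux in
/-- the coefficients of bounded order are bounded; they are of the size of `s` for `m ≥ 1` -/
theorem diag_bound (m : ℕ) : ∃ C : ℝ, 0 ≤ C ∧ ∀ (ρ : ℝ) (β H : ℂ → ℂ) (Φ : ℂ → ℂ → ℂ),
    Dat ρ β H Φ → ∀ s : ℂ, ‖s‖ ≤ 1 → ∀ l ≤ m,
      ‖diagc (EE Φ s) m l‖ ≤ C ∧ (1 ≤ m → ‖diagc (EE Φ s) m l‖ ≤ C * ‖s‖) := by
  refine ⟨Kr m + 1, by have := Kr_nonneg m; positivity, ?_⟩
  intro ρ β H Φ hD s hs l hl
  have hK := Kr_nonneg m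
  have hs0 := norm_nonneg s
  have h1 : 1 ≤ m → ‖diagc (EE Φ s) m l‖ ≤ Kr m * ‖s‖ := fun hm =>
    diag_le hD.ext hD.logPhi hs m m hm l hl (by omega)
  refine ⟨?_, fun hm => (h1 hm).trans (by linarith only [hs0])⟩
  rcases Nat.eq_zero_or_pos m with h | h
  · subst h
    have hl0 : l = 0 := by omega
    rw [hl0, EE_zero hD.logPhi s, norm_one]
    linarith only [hK]
  · refine (h1 h).trans ?_
    nlinarith only [hs, hK]

namespace AreaSAux

/-- the weights -/
noncomputable def Tn (s : ℂ) (σ : ℝ) (n : ℕ) : ℝ := ‖pq (-s) n‖ ^ 2 / pq σ n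

theorem Tn_nonneg {s : ℂ} {σ : ℝ} (hσ : 0 < σ) (n : ℕ) : 0 ≤ Tn s σ n := by
  unfold Tn
  have := pq_pos hσ n
  positivity

theorem norm_pq_succ (s : ℂ) (n : ℕ) : ‖pq (-s) (n + 1)‖ ^ 2
    = ‖pq (-s) n‖ ^ 2 * (((n : ℝ) ^ 2 - 2 * s.re * n + ‖s‖ ^ 2) / ((n : ℝ) + 1) ^ 2) := by
  rw [pq_succ, norm_mul, norm_div, mul_pow, div_pow]
  have e1 : -s + (n : ℂ) = (n : ℂ) - s := by ring
  have e : ‖(n : ℂ) + 1‖ = (n : ℝ) + 1 := by
    have : (n : ℂ) + 1 = (((n : ℝ) + 1 : ℝ) : ℂ) := by push_cast; ring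
    rw [this, Complex.norm_real, Real.norm_of_nonneg (by positivity)]
  rw [e1, normSq_nat_sub, e]

theorem Tn_succ {s : ℂ} {σ : ℝ} (hσ : 0 < σ) (n : ℕ) : Tn s σ (n + 1)
    = Tn s σ n * (((n : ℝ) ^ 2 - 2 * s.re * n + ‖s‖ ^ 2) / (((n : ℝ) + 1) * (σ + n))) := by
  unfold Tn
  rw [norm_pq_succ, pq_succ]
  have h1 := (pq_pos hσ n).ne'
  have h2 : σ + n ≠ 0 := by positivity
  have h3 : (n : ℝ) + 1 ≠ 0 := by positivity
  field_simp

/-- telescoping -/
theorem tele {s : ℂ} (hs : ‖s‖ < 1) {b c : ℝ} (hb : 0 < b) (hσ : 0 < b + 1 - 2 * s.re)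
    (hc : 0 ≤ c) (hcc : 2 * ‖s‖ ^ 2 - 2 * s.re ≤ c * (1 + b - ‖s‖ ^ 2)) {n : ℕ} (hn : 1 ≤ n) :
    b / (b + 4) * ((n : ℝ) * Tn s (b + 1 - 2 * s.re) n)
      ≤ (n : ℝ) * (n + c) * Tn s (b + 1 - 2 * s.re) n
        - ((n + 1 : ℕ) : ℝ) * (((n + 1 : ℕ) : ℝ) + c) * Tn s (b + 1 - 2 * s.re) (n + 1) := by
  have hT := Tn_nonneg (s := s) hσ n
  rw [Tn_succ hσ n]
  obtain ⟨T, hTe⟩ : ∃ T, T = Tn s (b + 1 - 2 * s.re) n := ⟨_, rfl⟩
  rw [← hTe] at hT ⊢
  have hn1 : (1 : ℝ) ≤ n := by exact_mod_cast hn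
  have hre := Complex.abs_re_le_norm s
  have hre2 := abs_lt.mp (hre.trans_lt hs)
  have hu : 0 < b + 1 - 2 * s.re + n := by linarith only [hσ]
  have hs2 : 0 ≤ ‖s‖ ^ 2 := sq_nonneg _
  obtain ⟨q, hq⟩ : ∃ q, q = ‖s‖ ^ 2 := ⟨_, rfl⟩
  obtain ⟨r, hr⟩ : ∃ r, r = s.re := ⟨_, rfl⟩
  rw [← hq] at hcc hs2 ⊢
  rw [← hr] at hre2 hcc hu ⊢
  obtain ⟨x, hx⟩ : ∃ x : ℝ, x = n := ⟨_, rfl⟩
  push_cast
  rw [← hx] at hn1 hu ⊢
  have e : x * (x + c) * T - (x + 1) * (x + 1 + c) * (T * ((x ^ 2 - 2 * r * x + q)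
      / ((x + 1) * (b + 1 - 2 * r + x))))
      = T * ((b * x ^ 2 + x * (c * (b + 1) + 2 * r - q) - q * (1 + c)) / (b + 1 - 2 * r + x)) := by
    have h1 : x + 1 ≠ 0 := by positivity
    field_simp
    ring
  rw [e]
  have h2 : b / (b + 4) * x ≤ (b * x ^ 2 + x * (c * (b + 1) + 2 * r - q) - q * (1 + c))
      / (b + 1 - 2 * r + x) := by
    rw [le_div_iff₀ hu, div_mul_eq_mul_div, div_mul_eq_mul_div, div_le_iff₀ (by linarith only [hb])]
    have h3 : 0 ≤ x * (c * (b + 1) + 2 * r - q) - q * (1 + c) := by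
      have h4 : q * (1 + c) ≤ c * (b + 1) + 2 * r - q := by linarith only [hcc]
      have h5 : 0 ≤ c * (b + 1) + 2 * r - q := le_trans (by positivity) h4
      nlinarith only [hn1, h4, h5]
    have h6 : b + 1 - 2 * r + x ≤ (b + 4) * x := by nlinarith only [hσ, hre2, hr, hn1]
    have h7 : b * x * (b + 1 - 2 * r + x) ≤ b * x * ((b + 4) * x) := by
      apply mul_le_mul_of_nonneg_left h6 (by positivity)
    have h8 : 0 ≤ (x * (c * (b + 1) + 2 * r - q) - q * (1 + c)) * (b + 4) := by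
      apply mul_nonneg h3 (by linarith only [hb])
    linarith only [h7, h8]
  calc b / (b + 4) * (x * T) = T * (b / (b + 4) * x) := by ring
    _ ≤ _ := mul_le_mul_of_nonneg_left h2 hT

/-- the sums of the weights -/
theorem sum_Tn_le {s : ℂ} (hs : ‖s‖ < 1) {b c : ℝ} (hb : 0 < b) (hσ : 0 < b + 1 - 2 * s.re)
    (hc : 0 ≤ c) (hcc : 2 * ‖s‖ ^ 2 - 2 * s.re ≤ c * (1 + b - ‖s‖ ^ 2)) (k J : ℕ) :
    ∑ j ∈ Finset.range J, ((j + 1 + k : ℕ) : ℝ) * Tn s (b + 1 - 2 * s.re) (j + 1 + k)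
      ≤ (b + 4) / b * ((1 + c) * (‖s‖ ^ 2 / (b + 1 - 2 * s.re))) := by
  obtain ⟨σ, hσe⟩ : ∃ σ, σ = b + 1 - 2 * s.re := ⟨_, rfl⟩
  have hσ' : 0 < σ := by rw [hσe]; exact hσ
  obtain ⟨G, hG⟩ : ∃ G : ℕ → ℝ, G = fun n : ℕ => (n : ℝ) * (n + c) * Tn s σ n := ⟨_, rfl⟩
  have hG0 : ∀ n : ℕ, 0 ≤ G n := by
    intro n
    rw [hG]
    have := Tn_nonneg (s := s) hσ' n
    positivity
  have hstep : ∀ n : ℕ, 1 ≤ n → b / (b + 4) * ((n : ℝ) * Tn s σ n) ≤ G n - G (n + 1) := by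
    intro n hn
    rw [hG, hσe]
    exact tele hs hb hσ hc hcc hn
  have hanti : ∀ n : ℕ, G (n + 1) ≤ G 1 := by
    intro n
    induction n with
    | zero => exact le_rfl
    | succ n ih =>
      have h1 := hstep (n + 1) (by omega)
      have h2 : 0 ≤ b / (b + 4) * (((n + 1 : ℕ) : ℝ) * Tn s σ (n + 1)) := by
        have := Tn_nonneg (s := s) hσ' (n + 1)
        positivity
      linarith only [ih, h1, h2]
  have hsum : b / (b + 4) * ∑ j ∈ Finset.range J, ((j + 1 + k : ℕ) : ℝ) * Tn s σ (j + 1 + k)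
      ≤ G (1 + k) - G (J + 1 + k) := by
    induction J with
    | zero =>
      rw [Finset.sum_range_zero, mul_zero]
      have e : 0 + 1 + k = 1 + k := by ring
      rw [e, sub_self]
    | succ J ih =>
      rw [Finset.sum_range_succ, mul_add]
      have h1 := hstep (J + 1 + k) (by omega)
      have e : J + 1 + k + 1 = J + 1 + 1 + k := by ring
      rw [e] at h1
      linarith only [ih, h1]
  have h1 : G 1 = (1 + c) * (‖s‖ ^ 2 / σ) := by
    rw [hG]
    simp only [Nat.cast_one, one_mul]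
    have h2 := Tn_succ (s := s) hσ' 0
    rw [zero_add] at h2
    rw [h2]
    unfold Tn
    rw [pq_zero, pq_zero]
    simp
  have h2 := hanti k
  have e2 : k + 1 = 1 + k := by ring
  rw [e2] at h2
  have h3 := hG0 (J + 1 + k)
  rw [← hσe]
  have h4 : b / (b + 4) * ∑ j ∈ Finset.range J, ((j + 1 + k : ℕ) : ℝ) * Tn s σ (j + 1 + k)
      ≤ (1 + c) * (‖s‖ ^ 2 / σ) := by linarith only [hsum, h1, h2, h3]
  have hb4 : 0 < b + 4 := by linarith only [hb]
  calc ∑ j ∈ Finset.range J, ((j + 1 + k : ℕ) : ℝ) * Tn s σ (j + 1 + k)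
      = (b + 4) / b * (b / (b + 4)
        * ∑ j ∈ Finset.range J, ((j + 1 + k : ℕ) : ℝ) * Tn s σ (j + 1 + k)) := by
        field_simp
    _ ≤ _ := mul_le_mul_of_nonneg_left h4 (by positivity)

/-- shifting the index of the positive weights -/
theorem pq_shift_le {σ κ : ℝ} (hκ : 0 < κ) (hκ1 : κ ≤ 1) (hκσ : κ ≤ σ) (n l : ℕ) :
    (pq σ (n + l))⁻¹ ≤ (1 / κ) ^ l * (pq σ n)⁻¹ := by
  have hσ : 0 < σ := hκ.trans_le hκσ
  induction l with
  | zero => simp
  | succ l ih =>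
    have e : n + (l + 1) = n + l + 1 := by ring
    rw [e, pq_succ, mul_inv]
    have h1 := pq_pos hσ (n + l)
    have h2 : ((σ + ((n + l : ℕ) : ℝ)) / (((n + l : ℕ) : ℝ) + 1))⁻¹ ≤ 1 / κ := by
      rw [inv_div, div_le_div_iff₀ (by positivity) hκ]
      have h3 : (0 : ℝ) ≤ ((n + l : ℕ) : ℝ) := Nat.cast_nonneg _
      nlinarith only [hκ1, hκσ]
    have h4 : 0 ≤ ((σ + ((n + l : ℕ) : ℝ)) / (((n + l : ℕ) : ℝ) + 1))⁻¹ := by positivity
    have h5 : 0 ≤ (1 / κ) ^ l * (pq σ n)⁻¹ := by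
      have := pq_pos hσ n
      positivity
    calc (pq σ (n + l))⁻¹ * ((σ + ((n + l : ℕ) : ℝ)) / (((n + l : ℕ) : ℝ) + 1))⁻¹
        ≤ ((1 / κ) ^ l * (pq σ n)⁻¹) * (1 / κ) := by gcongr
      _ = _ := by rw [pow_succ]; ring

/-- the general bound of the upper forms -/
theorem Nf_le {s : ℂ} (hs : ‖s‖ < 1) {b c κ : ℝ} (hb : 0 < b) (hσ : 0 < b + 1 - 2 * s.re)
    (hc : 0 ≤ c) (hcc : 2 * ‖s‖ ^ 2 - 2 * s.re ≤ c * (1 + b - ‖s‖ ^ 2)) (hκ : 0 < κ)
    (hκ1 : κ ≤ 1) (hκσ : κ ≤ b + 1 - 2 * s.re) {d : ℕ → ℂ} {m : ℕ} {C : ℝ} (hC : 0 ≤ C)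
    (hd : ∀ l ≤ m, ‖d l‖ ≤ C) (J : ℕ) :
    Nf s b d m J ≤ ((m : ℝ) + 1) ^ 2 * C ^ 2 * (1 / κ) ^ m
      * ((b + 4) / b * ((1 + c) * (‖s‖ ^ 2 / (b + 1 - 2 * s.re)))) := by
  obtain ⟨σ, hσe⟩ : ∃ σ, σ = b + 1 - 2 * s.re := ⟨_, rfl⟩
  obtain ⟨S, hS⟩ : ∃ S, S = (b + 4) / b * ((1 + c) * (‖s‖ ^ 2 / (b + 1 - 2 * s.re))) := ⟨_, rfl⟩
  have hsum : ∀ k, ∑ j ∈ Finset.range J, ((j + 1 + k : ℕ) : ℝ) * Tn s σ (j + 1 + k) ≤ S := by
    intro k
    rw [hσe, hS]
    exact sum_Tn_le hs hb hσ hc hcc k J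
  rw [← hS]
  rw [← hσe] at hσ hκσ
  have hk1 : 1 ≤ 1 / κ := by rw [le_div_iff₀ hκ]; linarith only [hκ1]
  -- each term
  have hterm : ∀ j ∈ Finset.range J, ((j : ℝ) + 1) * (pq σ (m + 1 + j))⁻¹
      * ‖Vd s d m (m + 1 + j)‖ ^ 2
      ≤ ∑ l ∈ Finset.range (m + 1), ((m : ℝ) + 1) * C ^ 2 * (1 / κ) ^ m
        * (((j + 1 + (m - l) : ℕ) : ℝ) * Tn s σ (j + 1 + (m - l))) := by
    intro j _
    have hV : ‖Vd s d m (m + 1 + j)‖ ^ 2 ≤ ((m : ℝ) + 1) * ∑ l ∈ Finset.range (m + 1),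
        C ^ 2 * ‖pq (-s) (m + 1 + j - l)‖ ^ 2 := by
      unfold Vd
      have e : min (m + 1 + j) m = m := by omega
      rw [e]
      have h1 : ‖∑ l ∈ Finset.range (m + 1), pq (-s) (m + 1 + j - l) * d l‖
          ≤ ∑ l ∈ Finset.range (m + 1), C * ‖pq (-s) (m + 1 + j - l)‖ := by
        refine (norm_sum_le _ _).trans ?_
        apply Finset.sum_le_sum
        intro l hl
        rw [Finset.mem_range] at hl
        rw [norm_mul, mul_comm]
        gcongr
        exact hd l (by omega)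
      have h2 := pow_le_pow_left₀ (norm_nonneg _) h1 2
      refine h2.trans ?_
      have h3 := sq_sum_le_card_mul_sum_sq (s := Finset.range (m + 1))
        (f := fun l => C * ‖pq (-s) (m + 1 + j - l)‖)
      rw [Finset.card_range] at h3
      push_cast at h3
      refine h3.trans (le_of_eq ?_)
      congr 1
      apply Finset.sum_congr rfl
      intro l _
      rw [mul_pow]
    have hp := pq_pos hσ (m + 1 + j)
    calc ((j : ℝ) + 1) * (pq σ (m + 1 + j))⁻¹ * ‖Vd s d m (m + 1 + j)‖ ^ 2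
        ≤ ((j : ℝ) + 1) * (pq σ (m + 1 + j))⁻¹ * (((m : ℝ) + 1) * ∑ l ∈ Finset.range (m + 1),
          C ^ 2 * ‖pq (-s) (m + 1 + j - l)‖ ^ 2) := by gcongr
      _ = ∑ l ∈ Finset.range (m + 1), ((m : ℝ) + 1) * C ^ 2 * (((j : ℝ) + 1)
          * ((pq σ (m + 1 + j))⁻¹ * ‖pq (-s) (m + 1 + j - l)‖ ^ 2)) := by
          rw [Finset.mul_sum, Finset.mul_sum]
          apply Finset.sum_congr rfl
          intro l _
          ring
      _ ≤ _ := by
          apply Finset.sum_le_sum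
          intro l hl
          rw [Finset.mem_range] at hl
          have e1 : m + 1 + j - l = j + 1 + (m - l) := by omega
          have e2 : m + 1 + j = (j + 1 + (m - l)) + l := by omega
          rw [e1, e2]
          obtain ⟨n, hn⟩ : ∃ n, n = j + 1 + (m - l) := ⟨_, rfl⟩
          rw [← hn]
          have h1 := pq_shift_le hκ hκ1 hκσ n l
          have h2 : (1 / κ) ^ l ≤ (1 / κ) ^ m := pow_le_pow_right₀ hk1 (by omega)
          have h3 : (j : ℝ) + 1 ≤ (n : ℝ) := by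
            have : j + 1 ≤ n := by omega
            exact_mod_cast this
          have hpn := pq_pos hσ n
          have h4 : (pq σ (n + l))⁻¹ * ‖pq (-s) n‖ ^ 2 ≤ (1 / κ) ^ m * Tn s σ n := by
            calc (pq σ (n + l))⁻¹ * ‖pq (-s) n‖ ^ 2
                ≤ ((1 / κ) ^ l * (pq σ n)⁻¹) * ‖pq (-s) n‖ ^ 2 := by gcongr
              _ ≤ ((1 / κ) ^ m * (pq σ n)⁻¹) * ‖pq (-s) n‖ ^ 2 := by gcongr
              _ = _ := by unfold Tn; ring
          have hTn := Tn_nonneg (s := s) hσ n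
          have hpl := pq_pos hσ (n + l)
          have h5 : 0 ≤ (pq σ (n + l))⁻¹ * ‖pq (-s) n‖ ^ 2 := by positivity
          calc ((m : ℝ) + 1) * C ^ 2 * (((j : ℝ) + 1) * ((pq σ (n + l))⁻¹ * ‖pq (-s) n‖ ^ 2))
              ≤ ((m : ℝ) + 1) * C ^ 2 * ((n : ℝ) * ((1 / κ) ^ m * Tn s σ n)) := by gcongr
            _ = _ := by ring
  unfold Nf
  rw [← hσe]
  refine (Finset.sum_le_sum hterm).trans ?_
  rw [Finset.sum_comm]
  have hfin : ∀ l ∈ Finset.range (m + 1), ∑ j ∈ Finset.range J, ((m : ℝ) + 1) * C ^ 2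
      * (1 / κ) ^ m * (((j + 1 + (m - l) : ℕ) : ℝ) * Tn s σ (j + 1 + (m - l)))
      ≤ ((m : ℝ) + 1) * C ^ 2 * (1 / κ) ^ m * S := by
    intro l _
    rw [← Finset.mul_sum]
    exact mul_le_mul_of_nonneg_left (hsum (m - l)) (by positivity)
  refine (Finset.sum_le_sum hfin).trans (le_of_eq ?_)
  rw [Finset.sum_const, Finset.card_range, nsmul_eq_mul]
  push_cast
  ring

end AreaSAux

open AreaSAux in
/-- the upper forms of bounded order are bounded, uniformly for `b = |s|^2 / a` -/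
theorem Nf_small (a : ℝ) (ha : 1 / 2 ≤ a) (ha1 : a < 1) (m : ℕ) : ∃ C : ℝ, 0 ≤ C ∧
    ∀ (ρ : ℝ) (β H : ℂ → ℂ) (Φ : ℂ → ℂ → ℂ), Dat ρ β H Φ → ∀ s : ℂ, s ≠ 0 → ‖s‖ ≤ 7 / 10 →
      ∀ J : ℕ, Nf s (‖s‖ ^ 2 / a) (diagc (EE Φ s) m) m J ≤ C := by
  obtain ⟨C, hC0, hC⟩ := diag_bound m
  have ha0 : 0 < a := by linarith
  have hκ : 0 < 1 - a := by linarith only [ha1]
  refine ⟨((m : ℝ) + 1) ^ 2 * C ^ 2 * (1 / (1 - a)) ^ m * (5 * a * (7 * (1 / (1 - a)))), by
    positivity, ?_⟩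
  intro ρ β H Φ hD s hs0 hs J
  have hsp : 0 < ‖s‖ := norm_pos_iff.mpr hs0
  have hre := Complex.abs_re_le_norm s
  have hre2 := abs_le.mp (hre.trans hs)
  have hre3 := le_of_abs_le hre
  have hb : 0 < ‖s‖ ^ 2 / a := by positivity
  have hs2 : ‖s‖ ^ 2 ≤ 49 / 100 := by nlinarith only [hs, hsp]
  have hκσ : 1 - a ≤ ‖s‖ ^ 2 / a + 1 - 2 * s.re := by
    have h1 : 0 ≤ (‖s‖ - a) ^ 2 / a := by positivity
    have h2 : (‖s‖ - a) ^ 2 / a = ‖s‖ ^ 2 / a - 2 * ‖s‖ + a := by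
      field_simp
      ring
    linarith only [hre3, h1, h2]
  have hσ : 0 < ‖s‖ ^ 2 / a + 1 - 2 * s.re := hκ.trans_le hκσ
  have hb1 : ‖s‖ ^ 2 / a ≤ 1 := by
    rw [div_le_one ha0]; linarith only [ha, hs2]
  have h1 := Nf_le (s := s) (b := ‖s‖ ^ 2 / a) (c := 6) (κ := 1 - a) (d := diagc (EE Φ s) m)
    (m := m) (C := C) (by linarith only [hs]) hb hσ (by norm_num) (by linarith only [hre2, hb, hs2]) hκ (by linarith only [ha0]) hκσ
    hC0 (fun l hl => (hC ρ β H Φ hD s (by linarith only [hs]) l hl).1) J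
  refine h1.trans ?_
  have h2 : (‖s‖ ^ 2 / a + 4) / (‖s‖ ^ 2 / a) * ((1 + 6) * (‖s‖ ^ 2 / (‖s‖ ^ 2 / a + 1 - 2 * s.re)))
      ≤ 5 * a * (7 * (1 / (1 - a))) := by
    have e : (‖s‖ ^ 2 / a + 4) / (‖s‖ ^ 2 / a)
        * ((1 + 6) * (‖s‖ ^ 2 / (‖s‖ ^ 2 / a + 1 - 2 * s.re)))
        = (‖s‖ ^ 2 / a + 4) * a * (7 * (1 / (‖s‖ ^ 2 / a + 1 - 2 * s.re))) := by
      have h3 : ‖s‖ ≠ 0 := hsp.ne'
      obtain ⟨u, hu⟩ : ∃ u, u = ‖s‖ ^ 2 / a + 1 - 2 * s.re := ⟨_, rfl⟩
      rw [← hu] at hσ ⊢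
      have hu0 := hσ.ne'
      field_simp
      ring
    rw [e]
    have h4 : 1 / (‖s‖ ^ 2 / a + 1 - 2 * s.re) ≤ 1 / (1 - a) := one_div_le_one_div_of_le hκ hκσ
    have h5 : 0 ≤ 1 / (‖s‖ ^ 2 / a + 1 - 2 * s.re) := by positivity
    have h6 : (‖s‖ ^ 2 / a + 4) * a ≤ 5 * a := by nlinarith only [ha0, hb1]
    have h7 : 0 ≤ (‖s‖ ^ 2 / a + 4) * a := by positivity
    have h8 : (‖s‖ ^ 2 / a + 4) * a * (7 * (1 / (‖s‖ ^ 2 / a + 1 - 2 * s.re)))
        ≤ 5 * a * (7 * (1 / (1 - a))) := by gcongr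
    exact h8
  exact mul_le_mul_of_nonneg_left h2 (by positivity)

open AreaSAux in
theorem Nf_small_fixed {s : ℂ} (hs : ‖s‖ < 1) {b : ℝ} (hb : 0 < b)
    (hσ : 0 < b + 1 - 2 * s.re) (m : ℕ) : ∃ C : ℝ, 0 ≤ C ∧
    ∀ (ρ : ℝ) (β H : ℂ → ℂ) (Φ : ℂ → ℂ → ℂ), Dat ρ β H Φ →
      ∀ J : ℕ, Nf s b (diagc (EE Φ s) m) m J ≤ C := by
  obtain ⟨C, hC0, hC⟩ := diag_bound m
  have hre := Complex.abs_re_le_norm s
  have hre2 := abs_lt.mp (hre.trans_lt hs)
  have hsn := norm_nonneg s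
  have hs2 : ‖s‖ ^ 2 < 1 := by nlinarith only [hs, hsn]
  have hκ : 0 < min 1 (b + 1 - 2 * s.re) := lt_min one_pos hσ
  have h1s : 0 < 1 - ‖s‖ ^ 2 := by linarith
  have hc0 : 0 ≤ 4 / (1 - ‖s‖ ^ 2) := by positivity
  have hcc : 2 * ‖s‖ ^ 2 - 2 * s.re ≤ 4 / (1 - ‖s‖ ^ 2) * (1 + b - ‖s‖ ^ 2) := by
    have h1 : 4 / (1 - ‖s‖ ^ 2) * (1 - ‖s‖ ^ 2) = 4 := by field_simp
    have h2 : 4 / (1 - ‖s‖ ^ 2) * (1 + b - ‖s‖ ^ 2)
        = 4 / (1 - ‖s‖ ^ 2) * (1 - ‖s‖ ^ 2) + 4 / (1 - ‖s‖ ^ 2) * b := by ring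
    rw [h2, h1]
    have h3 : 0 ≤ 4 / (1 - ‖s‖ ^ 2) * b := by positivity
    linarith only [hre2, hs2, h3]
  refine ⟨((m : ℝ) + 1) ^ 2 * C ^ 2 * (1 / min 1 (b + 1 - 2 * s.re)) ^ m
      * ((b + 4) / b * ((1 + 4 / (1 - ‖s‖ ^ 2)) * (‖s‖ ^ 2 / (b + 1 - 2 * s.re)))), by
    positivity, ?_⟩
  intro ρ β H Φ hD J
  exact Nf_le hs hb hσ hc0 hcc hκ (min_le_left _ _) (min_le_right _ _) hC0
    (fun l hl => (hC ρ β H Φ hD s hs.le l hl).1) J

end Pool.Agent.M16.Helper24.HR2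
end

/- Helper94.T.Helper39.HR.Jet -/
section
/-!
MP_16b0ee, project HR: the second moment identity on an antidiagonal of the two point function.
-/

set_option autoImplicit false

open MeasureTheory Set Metric Filter Topology
open scoped ENNReal NNReal Real Nat ComplexConjugate

namespace Pool.Agent.M16.Helper39.HR

open Pool.Agent.M16.Helper22.Half
open Pool.Agent.M16.Helper39.Area (Ext phi)
open Pool.Agent.M16.Helper22.Marshall (coeff coeff_mul coeff_congr coeff_eq_of_hasSum hasSum_coeff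
  hasSum_coeff_deriv coeff_zero coeff_const_mul SepHol LogPhi dcoeff)

/-- the operator `t d/dt` on power series -/
noncomputable def Dt {R : Type} [CommRing R] (f : PowerSeries R) : PowerSeries R :=
  PowerSeries.mk fun n => (n : R) * PowerSeries.coeff n f

theorem coeff_Dt {R : Type} [CommRing R] (f : PowerSeries R) (n : ℕ) :
    PowerSeries.coeff n (Dt f) = (n : R) * PowerSeries.coeff n f := PowerSeries.coeff_mk _ _

theorem Dt_mul {R : Type} [CommRing R] (f g : PowerSeries R) :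
    Dt (f * g) = Dt f * g + f * Dt g := by
  ext n
  rw [coeff_Dt, map_add, PowerSeries.coeff_mul, PowerSeries.coeff_mul, PowerSeries.coeff_mul,
    Finset.mul_sum, ← Finset.sum_add_distrib]
  apply Finset.sum_congr rfl
  intro p hp
  rw [Finset.HasAntidiagonal.mem_antidiagonal] at hp
  rw [coeff_Dt, coeff_Dt, ← hp]
  push_cast
  ring

theorem Dt_add {R : Type} [CommRing R] (f g : PowerSeries R) : Dt (f + g) = Dt f + Dt g := by
  ext n
  rw [coeff_Dt, map_add, map_add, coeff_Dt, coeff_Dt]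
  ring

theorem Dt_sub {R : Type} [CommRing R] (f g : PowerSeries R) : Dt (f - g) = Dt f - Dt g := by
  ext n
  rw [coeff_Dt, map_sub, map_sub, coeff_Dt, coeff_Dt]
  ring

theorem Dt_C_mul {R : Type} [CommRing R] (c : R) (f : PowerSeries R) :
    Dt (PowerSeries.C c * f) = PowerSeries.C c * Dt f := by
  ext n
  rw [coeff_Dt, PowerSeries.coeff_C_mul, PowerSeries.coeff_C_mul, coeff_Dt]
  ring

theorem Dt_map {R S : Type} [CommRing R] [CommRing S] (f0 : R →+* S) (f : PowerSeries R) :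
    PowerSeries.map f0 (Dt f) = Dt (PowerSeries.map f0 f) := by
  ext n
  rw [PowerSeries.coeff_map, coeff_Dt, coeff_Dt, PowerSeries.coeff_map, map_mul, map_natCast]

/-- the operator `x d/dx` on power series in `t` with polynomial coefficients in `x` -/
noncomputable def Th (f : PowerSeries (Polynomial ℂ)) : PowerSeries (Polynomial ℂ) :=
  PowerSeries.mk fun n => Polynomial.X * Polynomial.derivative (PowerSeries.coeff n f)

theorem coeff_Th (f : PowerSeries (Polynomial ℂ)) (n : ℕ) :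
    PowerSeries.coeff n (Th f) = Polynomial.X * Polynomial.derivative (PowerSeries.coeff n f) :=
  PowerSeries.coeff_mk _ _

theorem Th_mul (f g : PowerSeries (Polynomial ℂ)) : Th (f * g) = Th f * g + f * Th g := by
  ext1 n
  rw [coeff_Th, map_add, PowerSeries.coeff_mul, PowerSeries.coeff_mul, PowerSeries.coeff_mul,
    Polynomial.derivative_sum, Finset.mul_sum, ← Finset.sum_add_distrib]
  apply Finset.sum_congr rfl
  intro p _
  rw [coeff_Th, coeff_Th, Polynomial.derivative_mul]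
  ring

theorem Th_add (f g : PowerSeries (Polynomial ℂ)) : Th (f + g) = Th f + Th g := by
  ext1 n
  rw [coeff_Th, map_add, Polynomial.derivative_add, (PowerSeries.coeff n).map_add, coeff_Th,
    coeff_Th]
  ring

theorem Th_C_mul (c : ℂ) (f : PowerSeries (Polynomial ℂ)) :
    Th (PowerSeries.C (Polynomial.C c) * f) = PowerSeries.C (Polynomial.C c) * Th f := by
  ext1 n
  rw [coeff_Th, PowerSeries.coeff_C_mul, PowerSeries.coeff_C_mul, coeff_Th,
    Polynomial.derivative_C_mul]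
  ring

theorem Dt_Th (f : PowerSeries (Polynomial ℂ)) : Dt (Th f) = Th (Dt f) := by
  ext1 n
  rw [coeff_Dt, coeff_Th, coeff_Th, coeff_Dt, Polynomial.derivative_natCast_mul]
  ring

/-- evaluation of the coefficients at `1` -/
noncomputable def Ev (f : PowerSeries (Polynomial ℂ)) : PowerSeries ℂ :=
  PowerSeries.map (Polynomial.evalRingHom (1 : ℂ)) f

/-- power series with coefficients given by a double array -/
noncomputable def Pa (a : ℕ → ℕ → ℂ) : PowerSeries (Polynomial ℂ) :=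
  PowerSeries.mk fun m => ∑ l ∈ Finset.range (m + 1), Polynomial.C (a m l) * Polynomial.X ^ l

theorem Th_Pa (a : ℕ → ℕ → ℂ) : Th (Pa a) = Pa (fun m l => (l : ℂ) * a m l) := by
  ext1 m
  rw [coeff_Th, Pa, Pa, PowerSeries.coeff_mk, PowerSeries.coeff_mk, Polynomial.derivative_sum,
    Finset.mul_sum]
  apply Finset.sum_congr rfl
  intro l _
  rw [Polynomial.derivative_C_mul_X_pow]
  cases l with
  | zero => simp
  | succ l =>
    rw [Nat.add_sub_cancel, pow_succ, Polynomial.C_mul, Polynomial.C_mul]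
    ring

theorem Ev_Pa (a : ℕ → ℕ → ℂ) (m : ℕ) :
    PowerSeries.coeff m (Ev (Pa a)) = ∑ l ∈ Finset.range (m + 1), a m l := by
  rw [Ev, PowerSeries.coeff_map, Pa, PowerSeries.coeff_mk, Polynomial.coe_evalRingHom,
    Polynomial.eval_finsetSum]
  apply Finset.sum_congr rfl
  intro l _
  simp

/-- the Taylor series of a function at zero -/
noncomputable def psf (f : ℂ → ℂ) : PowerSeries ℂ := PowerSeries.mk (coeff f)

theorem coeff_psf (f : ℂ → ℂ) (n : ℕ) : PowerSeries.coeff n (psf f) = coeff f n :=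
  PowerSeries.coeff_mk _ _

theorem anAt {f : ℂ → ℂ} (hf : DifferentiableOn ℂ f (ball 0 1)) : AnalyticAt ℂ f 0 :=
  hf.analyticAt (ball_mem_nhds _ one_pos)

theorem psf_mul {f g : ℂ → ℂ} (hf : DifferentiableOn ℂ f (ball 0 1))
    (hg : DifferentiableOn ℂ g (ball 0 1)) : psf (fun z => f z * g z) = psf f * psf g := by
  ext n
  rw [coeff_psf, coeff_mul (anAt hf) (anAt hg), PowerSeries.coeff_mul,
    Finset.Nat.sum_antidiagonal_eq_sum_range_succ_mk]
  apply Finset.sum_congr rfl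
  intro k _
  rw [coeff_psf, coeff_psf]

theorem psf_congr {f g : ℂ → ℂ} (h : ∀ z ∈ ball (0 : ℂ) 1, f z = g z) : psf f = psf g := by
  ext n
  rw [coeff_psf, coeff_psf]
  apply coeff_congr
  filter_upwards [ball_mem_nhds (0 : ℂ) one_pos] with z hz
  exact h z hz

theorem psf_const_mul (c : ℂ) (f : ℂ → ℂ) :
    psf (fun z => c * f z) = PowerSeries.C c * psf f := by
  ext n
  rw [coeff_psf, PowerSeries.coeff_C_mul, coeff_psf, coeff_const_mul]

theorem psf_D {f : ℂ → ℂ} (hf : DifferentiableOn ℂ f (ball 0 1)) :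
    psf (fun z => z * deriv f z) = Dt (psf f) := by
  ext n
  rw [coeff_psf, coeff_Dt, coeff_psf]
  exact coeff_eq_of_hasSum (f := fun z => z * deriv f z) (a := fun n => (n : ℂ) * coeff f n)
    one_pos (fun z hz => hasSum_coeff_deriv hf hz) n

/-- the logarithmic derivative of an exponential -/
theorem psf_exp {f : ℂ → ℂ} (hf : DifferentiableOn ℂ f (ball 0 1)) (s : ℂ) :
    Dt (psf (fun z => Complex.exp (s * f z)))
      = PowerSeries.C s * (psf (fun z => z * deriv f z) * psf (fun z => Complex.exp (s * f z))) := by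
  have h1 : DifferentiableOn ℂ (fun z => Complex.exp (s * f z)) (ball 0 1) :=
    (hf.const_mul s).cexp
  have h2 : DifferentiableOn ℂ (fun z => z * deriv f z) (ball 0 1) :=
    differentiableOn_id.mul (hf.deriv isOpen_ball)
  rw [← psf_D h1, ← psf_mul h2 h1, ← psf_const_mul]
  apply psf_congr
  intro z hz
  have h3 := (hf.differentiableAt (isOpen_ball.mem_nhds hz)).hasDerivAt
  have h4 := ((h3.const_mul s).cexp).deriv
  rw [h4]
  ring

theorem coeff_scale {f : ℂ → ℂ} (hf : DifferentiableOn ℂ f (ball 0 1)) {x : ℂ} (hx : ‖x‖ ≤ 1)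
    (n : ℕ) : coeff (fun w => f (x * w)) n = coeff f n * x ^ n := by
  apply coeff_eq_of_hasSum (f := fun w => f (x * w)) (a := fun n => coeff f n * x ^ n) one_pos
  intro z hz
  have h1 : ‖x * z‖ < 1 := by
    rw [norm_mul]
    have := norm_nonneg z
    nlinarith only [hx, hz, this]
  have h2 := hasSum_coeff hf h1
  have e : (fun n => coeff f n * x ^ n * z ^ n) = fun n => coeff f n * (x * z) ^ n := by
    funext n
    rw [mul_pow]
    ring
  rw [e]
  exact h2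

theorem mul_mem_ball {x z : ℂ} (hx : ‖x‖ ≤ 1) (hz : z ∈ ball (0 : ℂ) 1) :
    x * z ∈ ball (0 : ℂ) 1 := by
  rw [mem_ball_zero_iff] at hz ⊢
  rw [norm_mul]
  have := norm_nonneg z
  nlinarith only [hx, hz, this]

theorem sep_scale {U : ℂ → ℂ → ℂ} (h : SepHol U) {x : ℂ} (hx : ‖x‖ ≤ 1) :
    SepHol (fun z w => U z (x * w)) where
  cont := by
    have := h.cont.comp (f := fun p : ℂ × ℂ => (p.1, x * p.2)) (s := ball 0 1 ×ˢ ball 0 1)
      (by fun_prop) (fun p hp => ⟨hp.1, mul_mem_ball hx hp.2⟩)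
    exact this
  left := fun w hw => h.left _ (mul_mem_ball hx hw)
  right := fun z hz => by
    have := (h.right z hz).comp (f := fun w => x * w) (s := ball 0 1)
      (by fun_prop) (fun w hw => mul_mem_ball hx hw)
    exact this

theorem coeff_diag_scale {U : ℂ → ℂ → ℂ} (h : SepHol U) {x : ℂ} (hx : ‖x‖ ≤ 1) (m : ℕ) :
    coeff (fun z => U z (x * z)) m = ∑ l ∈ Finset.range (m + 1), diagc U m l * x ^ l := by
  have h1 := (sep_scale h hx).hasSum_diag m
  rw [h1, ← Finset.sum_range_reflect]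
  apply Finset.sum_congr rfl
  intro l hl
  rw [Finset.mem_range] at hl
  have e1 : m + 1 - 1 - l = m - l := by omega
  have e2 : m - (m - l) = l := by omega
  rw [e1, e2]
  unfold diagc dcoeff
  have h2 : coeff (fun z => coeff (fun w => U z (x * w)) l) (m - l)
      = coeff (fun z => x ^ l * coeff (fun w => U z w) l) (m - l) := by
    apply coeff_congr
    filter_upwards [ball_mem_nhds (0 : ℂ) one_pos] with z hz
    rw [coeff_scale (h.right z hz) hx, mul_comm]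
  rw [h2, coeff_const_mul, mul_comm]

/-- the coefficients of the two point function -/
noncomputable def qa (β : ℂ → ℂ) (k l : ℕ) : ℂ :=
  if l = 0 then (if k = 0 then 1 else 0) else (if l < k then -coeff β (k - 1) else 0)

theorem qa_sum (β : ℂ → ℂ) (f : ℕ → ℂ) (k : ℕ) :
    ∑ l ∈ Finset.range (k + 1 + 1), qa β (k + 1) l * f l
      = -coeff β k * ∑ l ∈ Finset.range k, f (l + 1) := by
  rw [Finset.sum_range_succ', Finset.sum_range_succ]
  have e0 : qa β (k + 1) 0 = 0 := by simp [qa]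
  have e1 : qa β (k + 1) (k + 1) = 0 := by simp [qa]
  rw [e0, e1, zero_mul, zero_mul, add_zero, add_zero, Finset.mul_sum]
  apply Finset.sum_congr rfl
  intro l hl
  rw [Finset.mem_range] at hl
  have e2 : qa β (k + 1) (l + 1) = -coeff β k := by
    unfold qa
    rw [if_neg (Nat.succ_ne_zero l), if_pos (by omega), Nat.add_sub_cancel]
  rw [e2]

theorem qa_zero (β : ℂ → ℂ) (f : ℕ → ℂ) :
    ∑ l ∈ Finset.range (0 + 1), qa β 0 l * f l = f 0 := by
  simp [qa]

theorem qq_line {β : ℂ → ℂ} {x : ℂ} (hx1 : x ≠ 1) (z : ℂ) :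
    Pool.Agent.M16.Helper39.Area.qq β z (x * z) = 1 - x * z * (β (x * z) - β z) / (x - 1) := by
  unfold Pool.Agent.M16.Helper39.Area.qq
  by_cases hz : z = 0
  · subst hz; simp
  · have h1 : x - 1 ≠ 0 := sub_ne_zero.mpr hx1
    have h2 : x * z ≠ z := by
      intro h
      apply h1
      have : (x - 1) * z = 0 := by linear_combination h
      exact (mul_eq_zero.mp this).resolve_right hz
    have h3 : x * z - z ≠ 0 := sub_ne_zero.mpr h2
    rw [dslope_of_ne _ h2, slope_def_field]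
    have h4 : x * z - z = z * (x - 1) := by ring
    rw [h4]
    field_simp

theorem coeff_qq {β : ℂ → ℂ} (hβ : DifferentiableOn ℂ β (ball 0 1)) {x : ℂ} (hx : ‖x‖ < 1)
    (m : ℕ) : coeff (fun z => Pool.Agent.M16.Helper39.Area.qq β z (x * z)) m
      = ∑ l ∈ Finset.range (m + 1), qa β m l * x ^ l := by
  have hx1 : x ≠ 1 := by
    rintro rfl
    simp at hx
  have h1 : x - 1 ≠ 0 := sub_ne_zero.mpr hx1
  apply coeff_eq_of_hasSum (f := fun z => Pool.Agent.M16.Helper39.Area.qq β z (x * z))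
    (a := fun m => ∑ l ∈ Finset.range (m + 1), qa β m l * x ^ l) one_pos
  intro z hz
  rw [qq_line hx1, ← hasSum_nat_add_iff' 1]
  rw [Finset.sum_range_one, qa_zero, pow_zero, pow_zero, mul_one]
  have hxz : ‖x * z‖ < 1 := by
    rw [norm_mul]
    have := norm_nonneg z
    nlinarith only [hx, hz, this]
  have h2 := ((hasSum_coeff hβ hxz).sub (hasSum_coeff hβ hz)).mul_left (-(x * z) / (x - 1))
  have e1 : 1 - x * z * (β (x * z) - β z) / (x - 1) - 1
      = -(x * z) / (x - 1) * (β (x * z) - β z) := by ring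
  rw [e1]
  have e2 : (fun n => (∑ l ∈ Finset.range (n + 1 + 1), qa β (n + 1) l * x ^ l) * z ^ (n + 1))
      = fun n => -(x * z) / (x - 1) * (coeff β n * (x * z) ^ n - coeff β n * z ^ n) := by
    funext n
    rw [qa_sum]
    have e3 : ∑ l ∈ Finset.range n, x ^ (l + 1) = x * ((x ^ n - 1) / (x - 1)) := by
      rw [← geom_sum_eq hx1, Finset.mul_sum]
      apply Finset.sum_congr rfl
      intro l _
      rw [pow_succ]; ring
    rw [e3, mul_pow]
    field_simp
    ring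
  rw [e2]
  exact h2

theorem map_Pa (a : ℕ → ℕ → ℂ) (x : ℂ) (m : ℕ) :
    PowerSeries.coeff m (PowerSeries.map (Polynomial.evalRingHom x) (Pa a))
      = ∑ l ∈ Finset.range (m + 1), a m l * x ^ l := by
  rw [PowerSeries.coeff_map, Pa, PowerSeries.coeff_mk, Polynomial.coe_evalRingHom,
    Polynomial.eval_finsetSum]
  apply Finset.sum_congr rfl
  intro l _
  simp

section
variable {β H : ℂ → ℂ} {Φ : ℂ → ℂ → ℂ}

theorem line_diff (hE : Ext β) (hΦ : LogPhi β H Φ) {x : ℂ} (hx : ‖x‖ < 1) :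
    DifferentiableOn ℂ (fun z => Φ z (x * z)) (ball 0 1) := by
  have hx1 : x ≠ 1 := by
    rintro rfl
    simp at hx
  apply Pool.Agent.M16.Helper22.Marshall.differentiableOn_of_exp isOpen_ball
  · have := hΦ.sep.cont.comp (f := fun z : ℂ => (z, x * z)) (s := ball 0 1)
      (by fun_prop) (fun z hz => ⟨hz, mul_mem_ball hx.le hz⟩)
    exact this
  · have h1 : DifferentiableOn ℂ (fun z => 1 - x * z * (β (x * z) - β z) / (x - 1))
        (ball 0 1) := by
      have h2 := hE.diff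
      have h3 : DifferentiableOn ℂ (fun z => β (x * z)) (ball 0 1) :=
        h2.comp (f := fun z => x * z) (by fun_prop) (fun z hz => mul_mem_ball hx.le hz)
      have h4 : DifferentiableOn ℂ (fun z : ℂ => x * z) (ball 0 1) := by fun_prop
      exact ((h4.mul (h3.sub h2)).div_const _).const_sub _
    apply h1.congr
    intro z hz
    rw [hΦ.exp_eq z hz _ (mul_mem_ball hx.le hz), qq_line hx1]

theorem map_E (hΦ : LogPhi β H Φ) (s : ℂ) {x : ℂ} (hx : ‖x‖ < 1) :
    PowerSeries.map (Polynomial.evalRingHom x) (Pa (fun m l => diagc (EE Φ s) m l))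
      = psf (fun z => Complex.exp (s * Φ z (x * z))) := by
  ext m
  rw [map_Pa, coeff_psf, ← coeff_diag_scale (EE_sep hΦ s) hx.le]
  rfl

theorem map_Q (hE : Ext β) (hΦ : LogPhi β H Φ) {x : ℂ} (hx : ‖x‖ < 1) :
    PowerSeries.map (Polynomial.evalRingHom x) (Pa (qa β))
      = psf (fun z => Complex.exp (1 * Φ z (x * z))) := by
  ext m
  rw [map_Pa, coeff_psf, ← coeff_qq hE.diff hx]
  apply coeff_congr
  filter_upwards [ball_mem_nhds (0 : ℂ) one_pos] with z hz
  rw [one_mul, hΦ.exp_eq z hz _ (mul_mem_ball hx.le hz)]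

theorem poly_ode (hE : Ext β) (hΦ : LogPhi β H Φ) (s : ℂ) :
    Dt (Pa (fun m l => diagc (EE Φ s) m l)) * Pa (qa β)
      = PowerSeries.C (Polynomial.C s) * (Pa (fun m l => diagc (EE Φ s) m l) * Dt (Pa (qa β))) := by
  ext1 n
  apply Polynomial.eq_of_infinite_eval_eq
  apply Set.Infinite.mono (s := ball (0 : ℂ) 1)
  · intro x hx
    rw [mem_ball_zero_iff] at hx
    show Polynomial.evalRingHom x _ = Polynomial.evalRingHom x _
    rw [← PowerSeries.coeff_map, ← PowerSeries.coeff_map]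
    congr 1
    rw [map_mul, map_mul, map_mul, Dt_map, Dt_map, map_E hΦ s hx, map_Q hE hΦ hx,
      psf_exp (line_diff hE hΦ hx), psf_exp (line_diff hE hΦ hx), PowerSeries.map_C,
      Polynomial.coe_evalRingHom, Polynomial.eval_C, map_one]
    ring
  · exact infinite_of_mem_nhds (0 : ℂ) (ball_mem_nhds _ one_pos)

theorem Ev_Q (hE : Ext β) (hΦ : LogPhi β H Φ) :
    Ev (Pa (qa β)) = psf (fun z => Complex.exp (1 * H z)) := by
  ext m
  rw [Ev_Pa, coeff_psf]
  have h1 : coeff (fun z => Complex.exp (1 * H z)) m = coeff (fun z => 1 - z * (z * deriv β z)) m := by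
    apply coeff_congr
    filter_upwards [ball_mem_nhds (0 : ℂ) one_pos] with z hz
    rw [one_mul, ← hΦ.diag z hz, hΦ.exp_eq z hz z hz]
    unfold Pool.Agent.M16.Helper39.Area.qq
    rw [dslope_same]
    ring
  rw [h1]
  symm
  apply coeff_eq_of_hasSum (f := fun z => 1 - z * (z * deriv β z))
    (a := fun m => ∑ l ∈ Finset.range (m + 1), qa β m l) one_pos
  intro z hz
  rw [← hasSum_nat_add_iff' 1]
  have h0 := qa_zero β (fun _ => 1)
  simp only [mul_one] at h0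
  rw [Finset.sum_range_one, h0, pow_zero, mul_one]
  have h2 := (hasSum_coeff_deriv hE.diff hz).mul_left (-z)
  have e1 : 1 - z * (z * deriv β z) - 1 = -z * (z * deriv β z) := by ring
  rw [e1]
  have e2 : (fun n => (∑ l ∈ Finset.range (n + 1 + 1), qa β (n + 1) l) * z ^ (n + 1))
      = fun n : ℕ => -z * ((n : ℂ) * coeff β n * z ^ n) := by
    funext n
    have h3 := qa_sum β (fun _ => 1) n
    simp only [mul_one, Finset.sum_const, Finset.card_range, nsmul_eq_mul] at h3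
    rw [h3, pow_succ]
    ring
  rw [e2]
  exact h2

end

end Pool.Agent.M16.Helper39.HR
end

/- Helper94.T.Helper39.MH.JetsA -/
section
/-!
MP_16b0ee, project MH: the second and the fourth moment of the antidiagonals of
`E(z,w) = exp (-Phi z w)`, from `E * Q = 1`, `Q = exp Phi`, and the derivation
`z^m x^l -> (l - m/2) z^m x^l`.
-/

set_option autoImplicit false

open MeasureTheory Set Metric Filter Topology
open scoped Real ComplexConjugate

namespace Pool.Agent.M16.Helper39.MH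

open Pool.Agent.M16.Helper22.Half
open Pool.Agent.M16.Helper22.Marshall (coeff SepHol LogPhi dcoeff GLe coeff_eq_of_hasSum hasSum_coeff)
open Pool.Agent.M16.Helper39.Area (Ext phi)
open Pool.Agent.M16.Helper39.HR (Dt coeff_Dt Dt_mul Th coeff_Th Th_mul Th_Pa Ev Pa Ev_Pa psf coeff_psf
  psf_mul psf_congr psf_const_mul psf_D qa qa_sum map_E map_Q Ev_Q line_diff)

/-- `X_j`: `(th - 1)^j (1/G) = X_j / G` -/
noncomputable def XX (H : ℂ → ℂ) : ℕ → (ℂ → ℂ)
  | 0 => fun _ => 1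
  | (n + 1) => fun z => th (XX H n) z - 2 * gg H 0 z * XX H n z - XX H n z

theorem Dt_Pa (a : ℕ → ℕ → ℂ) : Dt (Pa a) = Pa (fun m l => (m : ℂ) * a m l) := by
  ext1 m
  rw [coeff_Dt, Pa, Pa, PowerSeries.coeff_mk, PowerSeries.coeff_mk, Finset.mul_sum]
  apply Finset.sum_congr rfl
  intro l _
  rw [Polynomial.C_mul, map_natCast]
  ring

/-- the derivation `z^m x^l -> (l - m/2) z^m x^l` -/
noncomputable def La (f : PowerSeries (Polynomial ℂ)) : PowerSeries (Polynomial ℂ) :=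
  Th f - PowerSeries.C (Polynomial.C (1 / 2 : ℂ)) * Dt f

theorem La_mul (f g : PowerSeries (Polynomial ℂ)) : La (f * g) = La f * g + f * La g := by
  unfold La
  rw [Th_mul, Dt_mul]
  ring

theorem La_add (f g : PowerSeries (Polynomial ℂ)) : La (f + g) = La f + La g := by
  unfold La
  rw [Pool.Agent.M16.Helper39.HR.Th_add, Pool.Agent.M16.Helper39.HR.Dt_add]
  ring

theorem La_Pa (a : ℕ → ℕ → ℂ) : La (Pa a) = Pa (fun m l => ((l : ℂ) - m / 2) * a m l) := by
  unfold La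
  rw [Th_Pa, Dt_Pa]
  ext1 m
  rw [map_sub, PowerSeries.coeff_C_mul, Pa, Pa, Pa, PowerSeries.coeff_mk, PowerSeries.coeff_mk,
    PowerSeries.coeff_mk, Finset.mul_sum, ← Finset.sum_sub_distrib]
  apply Finset.sum_congr rfl
  intro l _
  rw [← mul_assoc, ← Polynomial.C_mul, ← sub_mul, ← Polynomial.C_sub]
  congr 2
  ring

private theorem sum_refl_zero {f : ℕ → ℂ} {m : ℕ} (h : ∀ l ≤ m, f (m - l) = -f l) :
    ∑ l ∈ Finset.range (m + 1), f l = 0 := by
  have h1 := Finset.sum_range_reflect f (m + 1)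
  have h2 : ∑ j ∈ Finset.range (m + 1), f (m + 1 - 1 - j) = -∑ l ∈ Finset.range (m + 1), f l := by
    rw [← Finset.sum_neg_distrib]
    apply Finset.sum_congr rfl
    intro l hl
    rw [Finset.mem_range] at hl
    rw [Nat.add_sub_cancel, h l (by omega)]
  rw [h2] at h1
  have h3 : (2 : ℂ) * ∑ l ∈ Finset.range (m + 1), f l = 0 := by linear_combination -h1
  exact (mul_eq_zero.mp h3).resolve_left two_ne_zero

/-- the odd moments of a symmetric array vanish -/
theorem ev_odd {a : ℕ → ℕ → ℂ} (ha : ∀ m, ∀ l ≤ m, a m l = a m (m - l)) {c : ℕ → ℕ → ℂ}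
    (hc : ∀ m, ∀ l ≤ m, c m (m - l) = -c m l) : Ev (Pa (fun m l => c m l * a m l)) = 0 := by
  ext m
  rw [Ev_Pa, map_zero]
  apply sum_refl_zero
  intro l hl
  rw [hc m l hl, ← ha m l hl]
  ring

theorem qa_symm (β : ℂ → ℂ) (m : ℕ) : ∀ l ≤ m, qa β m l = qa β m (m - l) := by
  intro l hl
  unfold qa
  by_cases h0 : l = 0
  · subst h0
    rw [if_pos rfl, Nat.sub_zero]
    by_cases h1 : m = 0
    · simp [h1]
    · rw [if_neg h1, if_neg h1, if_neg (lt_irrefl m)]
  · rw [if_neg h0]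
    by_cases h1 : l = m
    · subst h1
      rw [if_neg (lt_irrefl l), Nat.sub_self, if_pos rfl, if_neg h0]
    · rw [if_pos (by omega), if_neg (by omega), if_pos (by omega)]

private theorem sum_pow1 (c : ℂ) (k : ℕ) : ∑ l ∈ Finset.range k, (((l + 1 : ℕ) : ℂ) - c) ^ 2
    = (k : ℂ) * (k + 1) * (2 * k + 1) / 6 - c * (k * (k + 1)) + c ^ 2 * k := by
  induction k with
  | zero => simp
  | succ k ih =>
    rw [Finset.sum_range_succ, ih]
    push_cast
    ring

private theorem sum_pow4 (c : ℂ) (k : ℕ) : ∑ l ∈ Finset.range k, (((l + 1 : ℕ) : ℂ) - c) ^ 4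
    = (k : ℂ) * (k + 1) * (2 * k + 1) * (3 * k ^ 2 + 3 * k - 1) / 30 - c * (k * (k + 1)) ^ 2
      + c ^ 2 * (k * (k + 1) * (2 * k + 1)) - 2 * c ^ 3 * (k * (k + 1)) + c ^ 4 * k := by
  induction k with
  | zero => simp
  | succ k ih =>
    rw [Finset.sum_range_succ, ih]
    push_cast
    ring

/-- the operator `Dt - 1` -/
noncomputable def Dm (f : PowerSeries ℂ) : PowerSeries ℂ := Dt f - f

theorem coeff_Dm (f : PowerSeries ℂ) (n : ℕ) :
    PowerSeries.coeff n (Dm f) = ((n : ℂ) - 1) * PowerSeries.coeff n f := by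
  rw [Dm, map_sub, coeff_Dt]
  ring

theorem ev_Q0 (β : ℂ → ℂ) (m : ℕ) : PowerSeries.coeff m (Ev (Pa (qa β)))
    = if m = 0 then 1 else -coeff β (m - 1) * ((m : ℂ) - 1) := by
  rw [Ev_Pa]
  cases m with
  | zero => simp [qa]
  | succ m =>
    have h2 := qa_sum β (fun _ => 1) m
    simp only [mul_one, Finset.sum_const, Finset.card_range, nsmul_eq_mul] at h2
    rw [h2, if_neg (Nat.succ_ne_zero m), Nat.add_sub_cancel]
    push_cast
    ring

theorem ev_Q2 (β : ℂ → ℂ) : Ev (La (La (Pa (qa β))))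
    = PowerSeries.C (1 / 12) * (Dm (Dm (Ev (Pa (qa β)))) - Ev (Pa (qa β))) := by
  ext m
  rw [La_Pa, La_Pa, Ev_Pa, PowerSeries.coeff_C_mul, map_sub, coeff_Dm, coeff_Dm, ev_Q0]
  cases m with
  | zero => simp [qa]
  | succ m =>
    have h1 := qa_sum β (fun l => ((l : ℂ) - ((m + 1 : ℕ) : ℂ) / 2) ^ 2) m
    rw [sum_pow1] at h1
    rw [if_neg (Nat.succ_ne_zero m), Nat.add_sub_cancel]
    have h3 : ∑ l ∈ Finset.range (m + 1 + 1), ((l : ℂ) - ((m + 1 : ℕ) : ℂ) / 2)
          * (((l : ℂ) - ((m + 1 : ℕ) : ℂ) / 2) * qa β (m + 1) l)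
        = ∑ l ∈ Finset.range (m + 1 + 1), qa β (m + 1) l * ((l : ℂ) - ((m + 1 : ℕ) : ℂ) / 2) ^ 2 := by
      apply Finset.sum_congr rfl
      intro l _
      ring
    rw [h3, h1]
    push_cast
    ring

theorem ev_Q4 (β : ℂ → ℂ) : Ev (La (La (La (La (Pa (qa β))))))
    = PowerSeries.C (1 / 240) * (3 * Dm (Dm (Dm (Dm (Ev (Pa (qa β))))))
        - 10 * Dm (Dm (Ev (Pa (qa β)))) + 7 * Ev (Pa (qa β))) := by
  have hc : ∀ (k : ℕ) (f : PowerSeries ℂ) (n : ℕ), PowerSeries.coeff n ((k : PowerSeries ℂ) * f)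
      = (k : ℂ) * PowerSeries.coeff n f := by
    intro k f n
    rw [← map_natCast (PowerSeries.C (R := ℂ)) k, PowerSeries.coeff_C_mul]
  ext m
  have h3' := hc 3 (Dm (Dm (Dm (Dm (Ev (Pa (qa β))))))) m
  have h10' := hc 10 (Dm (Dm (Ev (Pa (qa β))))) m
  have h7' := hc 7 (Ev (Pa (qa β))) m
  push_cast at h3' h10' h7'
  rw [La_Pa, La_Pa, La_Pa, La_Pa, Ev_Pa, PowerSeries.coeff_C_mul, map_add, map_sub, h3', h10', h7',
    coeff_Dm, coeff_Dm, coeff_Dm, coeff_Dm, ev_Q0]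
  cases m with
  | zero => simp [qa]; norm_num
  | succ m =>
    have h1 := qa_sum β (fun l => ((l : ℂ) - ((m + 1 : ℕ) : ℂ) / 2) ^ 4) m
    rw [sum_pow4] at h1
    rw [if_neg (Nat.succ_ne_zero m), Nat.add_sub_cancel]
    have h3 : ∑ l ∈ Finset.range (m + 1 + 1), ((l : ℂ) - ((m + 1 : ℕ) : ℂ) / 2)
          * (((l : ℂ) - ((m + 1 : ℕ) : ℂ) / 2) * (((l : ℂ) - ((m + 1 : ℕ) : ℂ) / 2)
          * (((l : ℂ) - ((m + 1 : ℕ) : ℂ) / 2) * qa β (m + 1) l)))
        = ∑ l ∈ Finset.range (m + 1 + 1), qa β (m + 1) l * ((l : ℂ) - ((m + 1 : ℕ) : ℂ) / 2) ^ 4 := by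
      apply Finset.sum_congr rfl
      intro l _
      ring
    rw [h3, h1]
    push_cast
    ring

/-! functions on the disc -/

theorem psf_sub {f g : ℂ → ℂ} (hf : DifferentiableOn ℂ f (ball 0 1))
    (hg : DifferentiableOn ℂ g (ball 0 1)) : psf (fun z => f z - g z) = psf f - psf g := by
  ext n
  rw [map_sub, coeff_psf, coeff_psf, coeff_psf]
  apply coeff_eq_of_hasSum (f := fun z => f z - g z) (a := fun n => coeff f n - coeff g n) one_pos
  intro z hz
  have h1 := (hasSum_coeff hf hz).sub (hasSum_coeff hg hz)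
  have e : (fun n => (coeff f n - coeff g n) * z ^ n)
      = fun n => coeff f n * z ^ n - coeff g n * z ^ n := by
    funext n
    ring
  rw [e]
  exact h1

private theorem th_diffA {f : ℂ → ℂ} (hf : DifferentiableOn ℂ f (ball 0 1)) :
    DifferentiableOn ℂ (th f) (ball 0 1) := differentiableOn_id.mul (hf.deriv isOpen_ball)

theorem gg0_diff {H : ℂ → ℂ} (hH : DifferentiableOn ℂ H (ball 0 1)) :
    DifferentiableOn ℂ (gg H 0) (ball 0 1) := by
  unfold gg
  exact (th_diffA hH).neg.div_const 2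

theorem XX_diff {H : ℂ → ℂ} (hH : DifferentiableOn ℂ H (ball 0 1)) (n : ℕ) :
    DifferentiableOn ℂ (XX H n) (ball 0 1) := by
  induction n with
  | zero => exact differentiableOn_const 1
  | succ n ih =>
    show DifferentiableOn ℂ (fun z => th (XX H n) z - 2 * gg H 0 z * XX H n z - XX H n z) (ball 0 1)
    exact ((th_diffA ih).sub (((gg0_diff hH).const_mul 2).mul ih)).sub ih

/-- `x_n = X_n exp H` -/
theorem psf_XX {H : ℂ → ℂ} (hH : DifferentiableOn ℂ H (ball 0 1)) (n : ℕ) :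
    psf (fun z => XX H (n + 1) z * Complex.exp (H z))
      = Dm (psf (fun z => XX H n z * Complex.exp (H z))) := by
  have hX := XX_diff hH n
  have hF : DifferentiableOn ℂ (fun z => XX H n z * Complex.exp (H z)) (ball 0 1) :=
    hX.mul hH.cexp
  rw [Dm, ← psf_D hF, ← psf_sub (f := fun z => z * deriv (fun z => XX H n z * Complex.exp (H z)) z)
      (differentiableOn_id.mul (hF.deriv isOpen_ball)) hF]
  apply psf_congr
  intro z hz
  have h1 := (hX.differentiableAt (isOpen_ball.mem_nhds hz)).hasDerivAt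
  have h2 := (hH.differentiableAt (isOpen_ball.mem_nhds hz)).hasDerivAt
  have h3 := (h1.mul h2.cexp).deriv
  have h4 : deriv (fun z => XX H n z * Complex.exp (H z)) z
      = deriv (XX H n) z * Complex.exp (H z) + XX H n z * (Complex.exp (H z) * deriv H z) := h3
  have h5 : gg H 0 z = -(z * deriv H z) / 2 := by
    unfold gg
    rfl
  show XX H (n + 1) z * Complex.exp (H z)
    = z * deriv (fun z => XX H n z * Complex.exp (H z)) z - XX H n z * Complex.exp (H z)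
  rw [h4]
  show (th (XX H n) z - 2 * gg H 0 z * XX H n z - XX H n z) * Complex.exp (H z) = _
  rw [h5, th]
  ring

theorem psf_X0 {H : ℂ → ℂ} : psf (fun z => XX H 0 z * Complex.exp (H z))
    = psf (fun z => Complex.exp (1 * H z)) := by
  apply psf_congr
  intro z _
  show 1 * Complex.exp (H z) = _
  rw [one_mul, one_mul]

section
variable {β H : ℂ → ℂ} {Φ : ℂ → ℂ → ℂ}

end

theorem Data.diff1 {ρ : ℝ} {β H : ℂ → ℂ} {Φ : ℂ → ℂ → ℂ} (h : Data ρ β H Φ) :
    DifferentiableOn ℂ H (ball 0 1) := h.diff.mono (ball_subset_ball h.one_lt.le)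

end Pool.Agent.M16.Helper39.MH
end

/- Helper94.T.Helper39.MH.JetsB -/
section
/-!
MP_16b0ee, project MH: algebra of the jets; the second and the fourth moment of the
antidiagonals in terms of `g0, g1, g2, g3`.
-/

set_option autoImplicit false

open MeasureTheory Set Metric Filter Topology
open scoped Real ComplexConjugate

namespace Pool.Agent.M16.Helper39.MH

open Pool.Agent.M16.Helper22.Half
open Pool.Agent.M16.Helper22.Marshall (coeff SepHol LogPhi dcoeff GLe coeff_eq_of_hasSum hasSum_coeff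
  coeff_const_mul)
open Pool.Agent.M16.Helper39.Area (Ext phi)

/-! ### a calculus for the Euler operator -/

/-- `F` is differentiable at `z` and `th F z = d` -/
def HT (F : ℂ → ℂ) (z d : ℂ) : Prop := DifferentiableAt ℂ F z ∧ th F z = d

theorem HT.add {F K : ℂ → ℂ} {z a b : ℂ} (hF : HT F z a) (hK : HT K z b) :
    HT (fun w => F w + K w) z (a + b) :=
  ⟨hF.1.fun_add hK.1, by rw [th_add hF.1 hK.1, hF.2, hK.2]⟩

theorem HT.mul {F K : ℂ → ℂ} {z a b : ℂ} (hF : HT F z a) (hK : HT K z b) :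
    HT (fun w => F w * K w) z (a * K z + F z * b) :=
  ⟨hF.1.fun_mul hK.1, by rw [th_mul hF.1 hK.1, hF.2, hK.2]⟩

theorem HT.const (c z : ℂ) : HT (fun _ => c) z 0 :=
  ⟨differentiableAt_const c, th_const c z⟩

theorem HT.cm (c : ℂ) {F : ℂ → ℂ} {z a : ℂ} (hF : HT F z a) :
    HT (fun w => c * F w) z (c * a) :=
  ⟨hF.1.const_mul c, by rw [th_const_mul c hF.1, hF.2]⟩

theorem HT.congr {F K : ℂ → ℂ} {z a : ℂ} (hF : HT F z a) (h : K =ᶠ[𝓝 z] F) : HT K z a :=
  ⟨hF.1.congr_of_eventuallyEq h, by rw [th_congr h, hF.2]⟩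

section

variable {H : ℂ → ℂ} {ρ : ℝ}

theorem HT_gg (hρ : 0 < ρ) (hH : DifferentiableOn ℂ H (ball 0 ρ)) {z : ℂ}
    (hz : z ∈ ball (0 : ℂ) ρ) (n : ℕ) : HT (gg H n) z (dval (fun k => gg H k z) n) :=
  ⟨(gg_diff hρ hH n).differentiableAt (isOpen_ball.mem_nhds hz), th_gg n⟩

theorem HT_g0 (hρ : 0 < ρ) (hH : DifferentiableOn ℂ H (ball 0 ρ)) {z : ℂ}
    (hz : z ∈ ball (0 : ℂ) ρ) : HT (gg H 0) z (3 * gg H 1 z - gg H 0 z ^ 2) := by
  have h := HT_gg hρ hH hz 0
  simpa [dval] using h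

theorem HT_g1 (hρ : 0 < ρ) (hH : DifferentiableOn ℂ H (ball 0 ρ)) {z : ℂ}
    (hz : z ∈ ball (0 : ℂ) ρ) : HT (gg H 1) z (4 * gg H 2 z) := by
  have h := HT_gg hρ hH hz 1
  have e : dval (fun k => gg H k z) 1 = 4 * gg H 2 z := by
    unfold dval
    rw [if_neg one_ne_zero]
    simp only [Nat.cast_one, Nat.sub_self, Finset.range_zero, Finset.sum_empty]
    ring
  rw [e] at h
  exact h

theorem HT_g2 (hρ : 0 < ρ) (hH : DifferentiableOn ℂ H (ball 0 ρ)) {z : ℂ}
    (hz : z ∈ ball (0 : ℂ) ρ) : HT (gg H 2) z (5 * gg H 3 z + gg H 1 z ^ 2) := by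
  have h := HT_gg hρ hH hz 2
  have e : dval (fun k => gg H k z) 2 = 5 * gg H 3 z + gg H 1 z ^ 2 := by
    unfold dval
    rw [if_neg two_ne_zero]
    have e1 : Finset.range (2 - 1) = Finset.range 1 := rfl
    rw [e1, Finset.sum_range_one]
    push_cast
    ring
  rw [e] at h
  exact h

theorem XX_one (z : ℂ) : XX H 1 z = -(2 * gg H 0 z + 1) := by
  have e : XX H 1 z = th (XX H 0) z - 2 * gg H 0 z * XX H 0 z - XX H 0 z := rfl
  have e0 : XX H 0 = fun _ => (1 : ℂ) := rfl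
  rw [e, e0, th_const]
  ring

theorem XX_succ (n : ℕ) (z : ℂ) :
    XX H (n + 1) z = th (XX H n) z - 2 * gg H 0 z * XX H n z - XX H n z := rfl

theorem HT_XX1 (hρ : 0 < ρ) (hH : DifferentiableOn ℂ H (ball 0 ρ)) {z : ℂ}
    (hz : z ∈ ball (0 : ℂ) ρ) : HT (XX H 1) z (-2 * (3 * gg H 1 z - gg H 0 z ^ 2)) := by
  have h := ((HT_g0 hρ hH hz).cm (-2)).add (HT.const (-1) z)
  rw [add_zero] at h
  refine h.congr (Eventually.of_forall fun w => ?_)
  show XX H 1 w = -2 * gg H 0 w + -1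
  rw [XX_one]
  ring

theorem XX_two (hρ : 0 < ρ) (hH : DifferentiableOn ℂ H (ball 0 ρ)) {z : ℂ}
    (hz : z ∈ ball (0 : ℂ) ρ) :
    XX H 2 z = 1 + 4 * gg H 0 z + 6 * gg H 0 z ^ 2 - 6 * gg H 1 z := by
  rw [XX_succ, (HT_XX1 hρ hH hz).2, XX_one]
  ring

theorem HT_XX2 (hρ : 0 < ρ) (hH : DifferentiableOn ℂ H (ball 0 ρ)) {z : ℂ}
    (hz : z ∈ ball (0 : ℂ) ρ) :
    HT (XX H 2) z ((4 + 12 * gg H 0 z) * (3 * gg H 1 z - gg H 0 z ^ 2) - 24 * gg H 2 z) := by
  have h0 := HT_g0 hρ hH hz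
  have h1 := HT_g1 hρ hH hz
  have h := ((h0.cm 4).add ((h0.mul h0).cm 6)).add ((h1.cm (-6)).add (HT.const 1 z))
  have h2 := h.congr (K := XX H 2) (by
    filter_upwards [isOpen_ball.mem_nhds hz] with w hw
    rw [XX_two hρ hH hw]
    ring)
  refine ⟨h2.1, ?_⟩
  rw [h2.2]
  ring

theorem XX_three (hρ : 0 < ρ) (hH : DifferentiableOn ℂ H (ball 0 ρ)) {z : ℂ}
    (hz : z ∈ ball (0 : ℂ) ρ) :
    XX H 3 z = (4 + 12 * gg H 0 z) * (3 * gg H 1 z - gg H 0 z ^ 2) - 24 * gg H 2 z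
      - (2 * gg H 0 z + 1) * (1 + 4 * gg H 0 z + 6 * gg H 0 z ^ 2 - 6 * gg H 1 z) := by
  rw [XX_succ, (HT_XX2 hρ hH hz).2, XX_two hρ hH hz]
  ring

theorem HT_XX3 (hρ : 0 < ρ) (hH : DifferentiableOn ℂ H (ball 0 ρ)) {z : ℂ}
    (hz : z ∈ ball (0 : ℂ) ρ) :
    HT (XX H 3) z (12 * (3 * gg H 1 z - gg H 0 z ^ 2) ^ 2
      + (4 + 12 * gg H 0 z) * (12 * gg H 2 z - 2 * gg H 0 z * (3 * gg H 1 z - gg H 0 z ^ 2))
      - 24 * (5 * gg H 3 z + gg H 1 z ^ 2)
      - 2 * (3 * gg H 1 z - gg H 0 z ^ 2)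
        * (1 + 4 * gg H 0 z + 6 * gg H 0 z ^ 2 - 6 * gg H 1 z)
      - (2 * gg H 0 z + 1)
        * ((4 + 12 * gg H 0 z) * (3 * gg H 1 z - gg H 0 z ^ 2) - 24 * gg H 2 z)) := by
  have h0 := HT_g0 hρ hH hz
  have h1 := HT_g1 hρ hH hz
  have h2 := HT_g2 hρ hH hz
  have hX := HT_XX2 hρ hH hz
  have ha := (HT.const 4 z).add (h0.cm 12)
  have hb := (h1.cm 3).add ((h0.mul h0).cm (-1))
  have hc := ((h0.cm (-2)).add (HT.const (-1) z)).mul hX
  have h := ((ha.mul hb).add (h2.cm (-24))).add hc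
  have h3 := h.congr (K := XX H 3) (by
    filter_upwards [isOpen_ball.mem_nhds hz] with w hw
    rw [XX_three hρ hH hw, XX_two hρ hH hw]
    ring)
  refine ⟨h3.1, ?_⟩
  rw [h3.2, XX_two hρ hH hz]
  ring

theorem XX_four (hρ : 0 < ρ) (hH : DifferentiableOn ℂ H (ball 0 ρ)) {z : ℂ}
    (hz : z ∈ ball (0 : ℂ) ρ) :
    XX H 4 z = (12 * (3 * gg H 1 z - gg H 0 z ^ 2) ^ 2
      + (4 + 12 * gg H 0 z) * (12 * gg H 2 z - 2 * gg H 0 z * (3 * gg H 1 z - gg H 0 z ^ 2))
      - 24 * (5 * gg H 3 z + gg H 1 z ^ 2)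
      - 2 * (3 * gg H 1 z - gg H 0 z ^ 2)
        * (1 + 4 * gg H 0 z + 6 * gg H 0 z ^ 2 - 6 * gg H 1 z)
      - (2 * gg H 0 z + 1)
        * ((4 + 12 * gg H 0 z) * (3 * gg H 1 z - gg H 0 z ^ 2) - 24 * gg H 2 z))
      - (2 * gg H 0 z + 1) * ((4 + 12 * gg H 0 z) * (3 * gg H 1 z - gg H 0 z ^ 2)
        - 24 * gg H 2 z
        - (2 * gg H 0 z + 1) * (1 + 4 * gg H 0 z + 6 * gg H 0 z ^ 2 - 6 * gg H 1 z)) := by
  rw [XX_succ, (HT_XX3 hρ hH hz).2, XX_three hρ hH hz]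
  ring

/-! ### the exponential factor -/

end

/-! ### coefficients -/

section

variable {H : ℂ → ℂ}

end

end Pool.Agent.M16.Helper39.MH
end

/- Helper94.T.Helper24.HR2.JetsS -/
section
/-!
MP_16b0ee, project HR2: the second and the fourth moment of the antidiagonals of
`exp (s Phi)` in terms of the jets `g0, g1, g2, g3`, for every complex `s`.
-/

set_option autoImplicit false

open MeasureTheory Set Metric Filter Topology
open scoped Real ComplexConjugate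

namespace Pool.Agent.M16.Helper24.HR2

open Pool.Agent.M16.Helper22.Half
open Pool.Agent.M16.Helper22.Marshall (coeff SepHol LogPhi dcoeff GLe)
open Pool.Agent.M16.Helper39.Area (Ext phi)
open Pool.Agent.M16.Helper39.MH
open Pool.Agent.M16.Helper39.HR (Dt coeff_Dt Dt_mul Dt_sub Dt_C_mul Dt_Th Th coeff_Th Th_mul Th_C_mul
  Th_Pa Ev Pa Ev_Pa psf coeff_psf psf_mul psf_congr psf_const_mul qa Ev_Q poly_ode)

/-- uniqueness for `q x' = c q' x` -/
theorem ode_zero {q X c : PowerSeries (Polynomial ℂ)} (hq : PowerSeries.coeff 0 q = 1)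
    (hX : PowerSeries.coeff 0 X = 0) (h : q * Dt X = c * (Dt q * X)) : X = 0 := by
  ext1 n
  rw [map_zero]
  induction n using Nat.strong_induction_on with
  | _ n ih =>
    rcases Nat.eq_zero_or_pos n with h0 | hpos
    · rw [h0]
      exact hX
    · have h1 := congrArg (PowerSeries.coeff n) h
      rw [PowerSeries.coeff_mul, PowerSeries.coeff_mul] at h1
      have h2 : ∀ j ≤ n, PowerSeries.coeff j (Dt q * X) = 0 := by
        intro j hj
        rw [PowerSeries.coeff_mul]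
        apply Finset.sum_eq_zero
        intro p hp
        rw [Finset.HasAntidiagonal.mem_antidiagonal] at hp
        rcases Nat.eq_zero_or_pos p.1 with h3 | h3
        · rw [h3, coeff_Dt, Nat.cast_zero, zero_mul, zero_mul]
        · rw [ih p.2 (by omega), mul_zero]
      have h3 : ∑ p ∈ Finset.HasAntidiagonal.antidiagonal n,
          PowerSeries.coeff p.1 c * PowerSeries.coeff p.2 (Dt q * X) = 0 := by
        apply Finset.sum_eq_zero
        intro p hp
        rw [Finset.HasAntidiagonal.mem_antidiagonal] at hp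
        rw [h2 p.2 (by omega), mul_zero]
      have h4 : ∑ p ∈ Finset.HasAntidiagonal.antidiagonal n,
          PowerSeries.coeff p.1 q * PowerSeries.coeff p.2 (Dt X)
            = (n : Polynomial ℂ) * PowerSeries.coeff n X := by
        rw [Finset.sum_eq_single (0, n)]
        · rw [hq, coeff_Dt, one_mul]
        · intro p hp hne
          rw [Finset.HasAntidiagonal.mem_antidiagonal] at hp
          have hlt : p.2 < n := by
            rcases Nat.lt_or_ge p.2 n with h5 | h5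
            · exact h5
            · exfalso
              apply hne
              have h6 : p.1 = 0 := by omega
              have h7 : p.2 = n := by omega
              exact Prod.ext h6 h7
          rw [coeff_Dt, ih p.2 hlt, mul_zero, mul_zero]
        · intro hn
          exfalso
          apply hn
          rw [Finset.HasAntidiagonal.mem_antidiagonal]
          exact zero_add n
      rw [h3, h4] at h1
      have h5 : (n : Polynomial ℂ) ≠ 0 := by
        exact_mod_cast hpos.ne'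
      exact (mul_eq_zero.mp h1).resolve_left h5

theorem La_C_mul (c : ℂ) (f : PowerSeries (Polynomial ℂ)) :
    La (PowerSeries.C (Polynomial.C c) * f) = PowerSeries.C (Polynomial.C c) * La f := by
  unfold La
  rw [Th_C_mul, Dt_C_mul]
  ring

section

variable {β H : ℂ → ℂ} {Φ : ℂ → ℂ → ℂ}

theorem th_ode (hE : Ext β) (hΦ : LogPhi β H Φ) (s : ℂ) :
    Th (Pa (fun m l => diagc (EE Φ s) m l)) * Pa (qa β)
      = PowerSeries.C (Polynomial.C s) * (Pa (fun m l => diagc (EE Φ s) m l) * Th (Pa (qa β))) := by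
  have hode := poly_ode hE hΦ s
  have hq : PowerSeries.coeff 0 (Pa (qa β)) = 1 := by
    rw [Pa, PowerSeries.coeff_mk]
    simp [qa]
  have hT0 : ∀ a : ℕ → ℕ → ℂ, PowerSeries.coeff 0 (Th (Pa a)) = 0 := by
    intro a
    rw [Th_Pa, Pa, PowerSeries.coeff_mk]
    simp
  have ht1 := congrArg Th hode
  rw [Th_mul, Th_C_mul, Th_mul, ← Dt_Th, ← Dt_Th] at ht1
  rw [← sub_eq_zero]
  apply ode_zero (q := Pa (qa β)) (c := 1 + PowerSeries.C (Polynomial.C s)) hq
  · rw [map_sub, PowerSeries.coeff_mul, PowerSeries.coeff_C_mul, PowerSeries.coeff_mul]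
    simp [hT0]
  · rw [Dt_sub, Dt_C_mul, Dt_mul, Dt_mul]
    linear_combination Pa (qa β) * ht1
      - (1 + PowerSeries.C (Polynomial.C s)) * Th (Pa (qa β)) * hode

theorem la_ode (hE : Ext β) (hΦ : LogPhi β H Φ) (s : ℂ) :
    La (Pa (fun m l => diagc (EE Φ s) m l)) * Pa (qa β)
      = PowerSeries.C (Polynomial.C s) * (Pa (fun m l => diagc (EE Φ s) m l) * La (Pa (qa β))) := by
  have h1 := poly_ode hE hΦ s
  have h2 := th_ode hE hΦ s
  unfold La
  linear_combination h2 - PowerSeries.C (Polynomial.C (1 / 2 : ℂ)) * h1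

private theorem half_refl_pv1 (m l : ℕ) (hl : l ≤ m) :
    (((m - l : ℕ) : ℂ) - m / 2) = -((l : ℂ) - m / 2) := by
  rw [Nat.cast_sub hl]
  ring

private theorem odd1_pv1 {a : ℕ → ℕ → ℂ} (ha : ∀ m, ∀ l ≤ m, a m l = a m (m - l)) :
    Ev (La (Pa a)) = 0 := by
  rw [La_Pa]
  exact ev_odd ha (fun m l hl => half_refl_pv1 m l hl)

private theorem odd3_pv1 {a : ℕ → ℕ → ℂ} (ha : ∀ m, ∀ l ≤ m, a m l = a m (m - l)) :
    Ev (La (La (La (Pa a)))) = 0 := by
  rw [La_Pa, La_Pa, La_Pa]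
  have h := ev_odd (c := fun m l => ((l : ℂ) - m / 2) ^ 3) ha
    (fun m l hl => by simp only [half_refl_pv1 m l hl]; ring)
  rw [← h]
  congr 1
  congr 1
  funext m l
  ring

/-- the two identities at the diagonal, `q0 e2 = s e0 q2` and
`q0 e4 = s (q4 e0 + 3 q2 e2) - 3 e2 q2` -/
theorem momentsS (hE : Ext β) (hΦ : LogPhi β H Φ) (s : ℂ) :
    Ev (La (La (Pa (fun m l => diagc (EE Φ s) m l)))) * Ev (Pa (qa β))
      = PowerSeries.C s * (Ev (Pa (fun m l => diagc (EE Φ s) m l)) * Ev (La (La (Pa (qa β))))) ∧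
    Ev (La (La (La (La (Pa (fun m l => diagc (EE Φ s) m l)))))) * Ev (Pa (qa β))
      = PowerSeries.C s * (Ev (Pa (fun m l => diagc (EE Φ s) m l))
            * Ev (La (La (La (La (Pa (qa β))))))
          + 3 * (Ev (La (La (Pa (fun m l => diagc (EE Φ s) m l)))) * Ev (La (La (Pa (qa β))))))
        - 3 * (Ev (La (La (Pa (fun m l => diagc (EE Φ s) m l)))) * Ev (La (La (Pa (qa β))))) := by
  have h1 := la_ode hE hΦ s
  have hsE := fun m => EE_symm hΦ s m
  have hsQ := fun m => qa_symm β m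
  have oE1 : Ev (La (Pa (fun m l => diagc (EE Φ s) m l))) = 0 := odd1_pv1 hsE
  have oE3 : Ev (La (La (La (Pa (fun m l => diagc (EE Φ s) m l))))) = 0 := odd3_pv1 hsE
  have oQ1 : Ev (La (Pa (qa β))) = 0 := odd1_pv1 hsQ
  have oQ3 : Ev (La (La (La (Pa (qa β))))) = 0 := odd3_pv1 hsQ
  generalize Pa (fun m l => diagc (EE Φ s) m l) = E at *
  generalize Pa (qa β) = Q at *
  have h2 := congrArg La h1
  rw [La_mul, La_C_mul, La_mul] at h2
  have h3 := congrArg La h2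
  rw [La_add, La_mul, La_mul, La_C_mul, La_add, La_mul, La_mul] at h3
  have h4 := congrArg La h3
  rw [La_add, La_add, La_add, La_C_mul, La_add, La_add, La_add] at h4
  simp only [La_mul] at h4
  have hmul : ∀ a b, Ev (a * b) = Ev a * Ev b := fun a b => map_mul _ a b
  have hadd : ∀ a b, Ev (a + b) = Ev a + Ev b := fun a b => map_add _ a b
  have hC : Ev (PowerSeries.C (Polynomial.C s)) = PowerSeries.C s := by
    rw [Ev, PowerSeries.map_C, Polynomial.coe_evalRingHom, Polynomial.eval_C]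
  have g2 := congrArg Ev h2
  have g4 := congrArg Ev h4
  simp only [hmul, hadd, hC, oE1, oE3, oQ1, oQ3] at g2 g4
  constructor
  · linear_combination g2
  · linear_combination g4

end

theorem ev_ES {β H : ℂ → ℂ} {Φ : ℂ → ℂ → ℂ} (hΦ : LogPhi β H Φ) (s : ℂ) :
    Ev (Pa (fun m l => diagc (EE Φ s) m l)) = psf (fun z => Complex.exp (s * H z)) := by
  ext n
  rw [Ev_Pa, coeff_psf]
  exact EE_diag hΦ s n

private theorem half_sum (d : ℕ → ℂ) (m : ℕ) :
    ∑ l ∈ Finset.range (m + 1), d l * ((l : ℂ) - m / 2) ^ 2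
      = ∑ l ∈ Finset.range (m + 1), ((l : ℂ) - m / 2) * (((l : ℂ) - m / 2) * d l) := by
  apply Finset.sum_congr rfl
  intro l _
  ring

private theorem half_sum4 (d : ℕ → ℂ) (m : ℕ) :
    ∑ l ∈ Finset.range (m + 1), d l * ((l : ℂ) - m / 2) ^ 4
      = ∑ l ∈ Finset.range (m + 1), ((l : ℂ) - m / 2) * (((l : ℂ) - m / 2)
        * (((l : ℂ) - m / 2) * (((l : ℂ) - m / 2) * d l))) := by
  apply Finset.sum_congr rfl
  intro l _
  ring

/-! functions on the disc -/

private theorem dsub_pv1 {f g : ℂ → ℂ} (hf : DifferentiableOn ℂ f (ball 0 1))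
    (hg : DifferentiableOn ℂ g (ball 0 1)) : DifferentiableOn ℂ (fun z => f z - g z) (ball 0 1) :=
  hf.sub hg

private theorem dadd {f g : ℂ → ℂ} (hf : DifferentiableOn ℂ f (ball 0 1))
    (hg : DifferentiableOn ℂ g (ball 0 1)) : DifferentiableOn ℂ (fun z => f z + g z) (ball 0 1) :=
  hf.add hg

private theorem dmul_pv1 {f g : ℂ → ℂ} (hf : DifferentiableOn ℂ f (ball 0 1))
    (hg : DifferentiableOn ℂ g (ball 0 1)) : DifferentiableOn ℂ (fun z => f z * g z) (ball 0 1) :=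
  hf.mul hg

private theorem dcm_pv1 (c : ℂ) {f : ℂ → ℂ} (hf : DifferentiableOn ℂ f (ball 0 1)) :
    DifferentiableOn ℂ (fun z => c * f z) (ball 0 1) := hf.const_mul c

private theorem dpow (n : ℕ) {f : ℂ → ℂ} (hf : DifferentiableOn ℂ f (ball 0 1)) :
    DifferentiableOn ℂ (fun z => f z ^ n) (ball 0 1) := hf.fun_pow n

/-- the diagonal of `La La Q` -/
noncomputable def q2f (H : ℂ → ℂ) (z : ℂ) : ℂ :=
  1 / 12 * (XX H 2 z * Complex.exp (H z) - XX H 0 z * Complex.exp (H z))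

/-- the diagonal of `La La La La Q` -/
noncomputable def q4f (H : ℂ → ℂ) (z : ℂ) : ℂ :=
  1 / 240 * (3 * (XX H 4 z * Complex.exp (H z)) - (10 * (XX H 2 z * Complex.exp (H z))
    - 7 * (XX H 0 z * Complex.exp (H z))))

theorem q2f_diff {H : ℂ → ℂ} (hH : DifferentiableOn ℂ H (ball 0 1)) :
    DifferentiableOn ℂ (q2f H) (ball 0 1) := by
  have hX : ∀ n, DifferentiableOn ℂ (fun z => XX H n z * Complex.exp (H z)) (ball 0 1) :=
    fun n => (XX_diff hH n).mul hH.cexp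
  exact dcm_pv1 _ (dsub_pv1 (hX 2) (hX 0))

theorem q4f_diff {H : ℂ → ℂ} (hH : DifferentiableOn ℂ H (ball 0 1)) :
    DifferentiableOn ℂ (q4f H) (ball 0 1) := by
  have hX : ∀ n, DifferentiableOn ℂ (fun z => XX H n z * Complex.exp (H z)) (ball 0 1) :=
    fun n => (XX_diff hH n).mul hH.cexp
  exact dcm_pv1 _ (dsub_pv1 (dcm_pv1 _ (hX 4)) (dsub_pv1 (dcm_pv1 _ (hX 2)) (dcm_pv1 _ (hX 0))))

theorem ev_q2f {β H : ℂ → ℂ} {Φ : ℂ → ℂ → ℂ} (hE : Ext β) (hΦ : LogPhi β H Φ)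
    (hH : DifferentiableOn ℂ H (ball 0 1)) :
    Ev (La (La (Pa (qa β)))) = psf (q2f H) := by
  have hX : ∀ n, DifferentiableOn ℂ (fun z => XX H n z * Complex.exp (H z)) (ball 0 1) :=
    fun n => (XX_diff hH n).mul hH.cexp
  rw [ev_Q2, Ev_Q hE hΦ, ← psf_X0, ← psf_XX hH, ← psf_XX hH, ← psf_sub (hX 2) (hX 0),
    ← psf_const_mul]
  rfl

theorem ev_q4f {β H : ℂ → ℂ} {Φ : ℂ → ℂ → ℂ} (hE : Ext β) (hΦ : LogPhi β H Φ)
    (hH : DifferentiableOn ℂ H (ball 0 1)) :
    Ev (La (La (La (La (Pa (qa β)))))) = psf (q4f H) := by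
  have hX : ∀ n, DifferentiableOn ℂ (fun z => XX H n z * Complex.exp (H z)) (ball 0 1) :=
    fun n => (XX_diff hH n).mul hH.cexp
  have cst : ∀ k : ℕ, (k : PowerSeries ℂ) = PowerSeries.C (k : ℂ) := by
    intro k
    rw [map_natCast]
  have c3 : (3 : PowerSeries ℂ) = PowerSeries.C (3 : ℂ) := by exact_mod_cast cst 3
  have c10 : (10 : PowerSeries ℂ) = PowerSeries.C (10 : ℂ) := by exact_mod_cast cst 10
  have c7 : (7 : PowerSeries ℂ) = PowerSeries.C (7 : ℂ) := by exact_mod_cast cst 7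
  rw [ev_Q4, Ev_Q hE hΦ, ← psf_X0, ← psf_XX hH, ← psf_XX hH, ← psf_XX hH, ← psf_XX hH]
  have e : psf (q4f H) = psf (fun z => 1 / 240 * (3 * (XX H 4 z * Complex.exp (H z))
        - (10 * (XX H 2 z * Complex.exp (H z)) - 7 * (XX H 0 z * Complex.exp (H z))))) := rfl
  rw [e, psf_const_mul, psf_sub (dcm_pv1 3 (hX 4)) (dsub_pv1 (dcm_pv1 10 (hX 2)) (dcm_pv1 7 (hX 0))),
    psf_sub (dcm_pv1 10 (hX 2)) (dcm_pv1 7 (hX 0)), psf_const_mul, psf_const_mul, psf_const_mul,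
    c3, c10, c7]
  ring

theorem XS_one (s : ℂ) (c : ℕ → ℂ) : XS s c 1 = s * (c 0 ^ 2 - c 1) / 2 := rfl

theorem XS_two (s : ℂ) (c : ℕ → ℂ) : XS s c 2 = 3 / 4 * (s ^ 2 - s) * (c 0 ^ 2 - c 1) ^ 2
      + 3 / 2 * s * (-(c 3) + c 1 ^ 2 + 2 * c 0 * c 2 - 3 * c 0 ^ 2 * c 1 + c 0 ^ 4) := rfl

/-- the second moment on the diagonal -/
noncomputable def k2f (s : ℂ) (H : ℂ → ℂ) (z : ℂ) : ℂ :=
  Complex.exp (s * H z) * (XS s (fun k => gg H k z) 1 + low2S s (fun k => gg H k z))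

/-- the fourth moment on the diagonal -/
noncomputable def k4f (s : ℂ) (H : ℂ → ℂ) (z : ℂ) : ℂ :=
  Complex.exp (s * H z) * (XS s (fun k => gg H k z) 2 + low4S s (fun k => gg H k z))

theorem k2f_diff {H : ℂ → ℂ} (hH : DifferentiableOn ℂ H (ball 0 1)) (s : ℂ) :
    DifferentiableOn ℂ (k2f s H) (ball 0 1) := by
  have d0 := gg_diff one_pos hH 0
  have d1 := gg_diff one_pos hH 1
  have dE : DifferentiableOn ℂ (fun z => Complex.exp (s * H z)) (ball 0 1) :=
    (hH.const_mul s).cexp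
  have h := dmul_pv1 dE (dadd (dcm_pv1 (s / 2) (dsub_pv1 (dpow 2 d0) d1)) (dcm_pv1 (1 / 3 * s) d0))
  refine h.congr fun z _ => ?_
  unfold k2f low2S
  rw [XS_one]
  ring

theorem k4f_diff {H : ℂ → ℂ} (hH : DifferentiableOn ℂ H (ball 0 1)) (s : ℂ) :
    DifferentiableOn ℂ (k4f s H) (ball 0 1) := by
  have d0 := gg_diff one_pos hH 0
  have d1 := gg_diff one_pos hH 1
  have d2 := gg_diff one_pos hH 2
  have d3 := gg_diff one_pos hH 3
  have dE : DifferentiableOn ℂ (fun z => Complex.exp (s * H z)) (ball 0 1) :=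
    (hH.const_mul s).cexp
  unfold k4f low4S
  simp only [XS_two]
  fun_prop

private theorem q0_ne_pv1 {β H : ℂ → ℂ} {Φ : ℂ → ℂ → ℂ} (hE : Ext β) (hΦ : LogPhi β H Φ) :
    psf (fun z => Complex.exp (1 * H z)) ≠ 0 := by
  intro h
  rw [← Ev_Q hE hΦ] at h
  have h1 := congrArg (PowerSeries.coeff 0) h
  rw [Ev_Pa, map_zero] at h1
  simp [qa] at h1

theorem ev_k2f {β H : ℂ → ℂ} {Φ : ℂ → ℂ → ℂ} (hE : Ext β) (hΦ : LogPhi β H Φ)
    (hH : DifferentiableOn ℂ H (ball 0 1)) (s : ℂ) :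
    Ev (La (La (Pa (fun m l => diagc (EE Φ s) m l)))) = psf (k2f s H) := by
  have h1 := (momentsS hE hΦ s).1
  have dE : DifferentiableOn ℂ (fun z => Complex.exp (s * H z)) (ball 0 1) :=
    (hH.const_mul s).cexp
  have d1 : DifferentiableOn ℂ (fun z => Complex.exp (1 * H z)) (ball 0 1) :=
    (hH.const_mul 1).cexp
  rw [ev_q2f hE hΦ hH, ev_ES hΦ, Ev_Q hE hΦ, ← psf_mul dE (q2f_diff hH), ← psf_const_mul] at h1
  apply mul_right_cancel₀ (q0_ne_pv1 hE hΦ)
  rw [h1, ← psf_mul (k2f_diff hH s) d1]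
  apply psf_congr
  intro z hz
  have e3 : XX H 0 z = 1 := rfl
  unfold q2f k2f low2S
  rw [XS_one, e3, XX_two one_pos hH hz, one_mul (H z)]
  ring

theorem ev_k4f {β H : ℂ → ℂ} {Φ : ℂ → ℂ → ℂ} (hE : Ext β) (hΦ : LogPhi β H Φ)
    (hH : DifferentiableOn ℂ H (ball 0 1)) (s : ℂ) :
    Ev (La (La (La (La (Pa (fun m l => diagc (EE Φ s) m l)))))) = psf (k4f s H) := by
  have h1 := (momentsS hE hΦ s).2
  have dE : DifferentiableOn ℂ (fun z => Complex.exp (s * H z)) (ball 0 1) :=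
    (hH.const_mul s).cexp
  have d1 : DifferentiableOn ℂ (fun z => Complex.exp (1 * H z)) (ball 0 1) :=
    (hH.const_mul 1).cexp
  have dk := k2f_diff hH s
  have dq := q2f_diff hH
  have dq4 := q4f_diff hH
  have c3 : (3 : PowerSeries ℂ) = PowerSeries.C (3 : ℂ) := (map_ofNat PowerSeries.C 3).symm
  have f1 : psf (fun z => Complex.exp (s * H z)) * psf (q4f H)
        + PowerSeries.C 3 * (psf (k2f s H) * psf (q2f H))
      = psf (fun z => Complex.exp (s * H z) * q4f H z - (-3) * (k2f s H z * q2f H z)) := by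
    rw [psf_sub (dmul_pv1 dE dq4) (dcm_pv1 (-3) (dmul_pv1 dk dq)), psf_mul dE dq4, psf_const_mul,
      psf_mul dk dq, map_neg]
    ring
  have f2 : PowerSeries.C s * psf (fun z => Complex.exp (s * H z) * q4f H z
          - (-3) * (k2f s H z * q2f H z)) - PowerSeries.C 3 * (psf (k2f s H) * psf (q2f H))
      = psf (fun z => s * (Complex.exp (s * H z) * q4f H z - (-3) * (k2f s H z * q2f H z))
          - 3 * (k2f s H z * q2f H z)) := by
    rw [psf_sub (dcm_pv1 s (dsub_pv1 (dmul_pv1 dE dq4) (dcm_pv1 (-3) (dmul_pv1 dk dq)))) (dcm_pv1 3 (dmul_pv1 dk dq)),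
      psf_const_mul, psf_const_mul, psf_mul dk dq]
  rw [ev_q2f hE hΦ hH, ev_q4f hE hΦ hH, ev_ES hΦ, Ev_Q hE hΦ, ev_k2f hE hΦ hH, c3, f1, f2] at h1
  apply mul_right_cancel₀ (q0_ne_pv1 hE hΦ)
  rw [h1, ← psf_mul (k4f_diff hH s) d1]
  apply psf_congr
  intro z hz
  have e3 : XX H 0 z = 1 := rfl
  unfold q2f q4f k2f k4f low2S low4S
  rw [XS_one, XS_two, e3, XX_two one_pos hH hz, XX_four one_pos hH hz, one_mul (H z)]
  ring

theorem jetS2 {ρ : ℝ} {β H : ℂ → ℂ} {Φ : ℂ → ℂ → ℂ} (h : Data ρ β H Φ) (s : ℂ) (m : ℕ) :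
    ∑ l ∈ Finset.range (m + 1), diagc (EE Φ s) m l * ((l : ℂ) - m / 2) ^ 2
      = coeff (fun z => Complex.exp (s * H z)
        * (XS s (fun k => gg H k z) 1 + low2S s (fun k => gg H k z))) m := by
  have h1 := congrArg (PowerSeries.coeff m) (ev_k2f h.ext h.logPhi h.diff1 s)
  rw [La_Pa, La_Pa, Ev_Pa, ← half_sum, coeff_psf] at h1
  exact h1

theorem jetS4 {ρ : ℝ} {β H : ℂ → ℂ} {Φ : ℂ → ℂ → ℂ} (h : Data ρ β H Φ) (s : ℂ) (m : ℕ) :
    ∑ l ∈ Finset.range (m + 1), diagc (EE Φ s) m l * ((l : ℂ) - m / 2) ^ 4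
      = coeff (fun z => Complex.exp (s * H z)
        * (XS s (fun k => gg H k z) 2 + low4S s (fun k => gg H k z))) m := by
  have h1 := congrArg (PowerSeries.coeff m) (ev_k4f h.ext h.logPhi h.diff1 s)
  rw [La_Pa, La_Pa, La_Pa, La_Pa, Ev_Pa, ← half_sum4, coeff_psf] at h1
  exact h1

end Pool.Agent.M16.Helper24.HR2
end

/- Helper94.T.Helper24.HR2.Defs6 -/
section
/-!
MP_16b0ee, project HR2: the sixth central moment of the antidiagonals of `exp (s Phi)`:
leading part (weight 6, the weight of `g k` is `k + 1`) and lower order part.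
-/

set_option autoImplicit false

namespace Pool.Agent.M16.Helper24.HR2

/-- leading part (weight 6) of the sixth central moment -/
noncomputable def XS6 (s : ℂ) (c : ℕ → ℂ) : ℂ :=
  s * (-(45 / 4) * c 5 + 45 / 2 * c 0 * c 4 + 45 / 4 * c 1 * c 3 - 45 / 2 * c 0 ^ 2 * c 3
      + 45 / 4 * c 2 ^ 2 - 45 * c 0 * c 1 * c 2 + 45 / 2 * c 0 ^ 3 * c 2 - 15 / 4 * c 1 ^ 3
      + 135 / 4 * c 0 ^ 2 * c 1 ^ 2 - 45 / 2 * c 0 ^ 4 * c 1 + 15 / 4 * c 0 ^ 6)
    + s ^ 2 * (45 / 4 * c 1 * c 3 - 45 / 4 * c 0 ^ 2 * c 3 - 45 / 2 * c 0 * c 1 * c 2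
      + 45 / 2 * c 0 ^ 3 * c 2 - 45 / 8 * c 1 ^ 3 + 225 / 8 * c 0 ^ 2 * c 1 ^ 2
      - 225 / 8 * c 0 ^ 4 * c 1 + 45 / 8 * c 0 ^ 6)
    + s ^ 3 * (15 / 8 * (c 0 ^ 2 - c 1) ^ 3)

/-- the lower order part of the sixth central moment -/
noncomputable def low6S (s : ℂ) (g : ℕ → ℂ) : ℂ :=
  s * (135 / 14 * g 4 - 165 / 14 * g 0 * g 3 - 72 / 7 * g 1 * g 2 + 69 / 14 * g 0 ^ 2 * g 2
      + 153 / 14 * g 0 * g 1 ^ 2 - 57 / 14 * g 0 ^ 3 * g 1 + 9 / 14 * g 0 ^ 5
      - 15 / 7 * g 3 - 12 / 7 * g 0 * g 2 + 9 / 14 * g 1 ^ 2 + 25 / 7 * g 0 ^ 2 * g 1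
      - 5 / 14 * g 0 ^ 4
      - 3 / 7 * g 2 + 19 / 14 * g 0 * g 1 + 23 / 126 * g 0 ^ 3
      + 1 / 7 * g 1 + 4 / 21 * g 0 ^ 2 + 1 / 21 * g 0)
    + s ^ 2 * (-(15 / 2) * g 0 * g 3 - 9 * g 1 * g 2 + 24 * g 0 ^ 2 * g 2
      + 57 / 4 * g 0 * g 1 ^ 2 - 27 * g 0 ^ 3 * g 1 + 21 / 4 * g 0 ^ 5
      + 6 * g 0 * g 2 + 3 / 2 * g 1 ^ 2 - 15 / 2 * g 0 ^ 2 * g 1
      - 1 / 2 * g 0 * g 1 - 7 / 6 * g 0 ^ 3 - 1 / 3 * g 0 ^ 2)
    + s ^ 3 * (15 / 4 * g 0 * g 1 ^ 2 - 15 / 2 * g 0 ^ 3 * g 1 + 15 / 4 * g 0 ^ 5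
      - 5 / 2 * g 0 ^ 2 * g 1 + 5 / 2 * g 0 ^ 4 + 5 / 9 * g 0 ^ 3)

end Pool.Agent.M16.Helper24.HR2
end

/- Helper94.T.Helper24.HR2.JetS6 -/
section
/-!
MP_16b0ee, project HR2: the sixth moment of the antidiagonals of `exp (s Phi)` in terms of the jets
`g0, ..., g5`, for every complex `s`.
-/

set_option autoImplicit false

open MeasureTheory Set Metric Filter Topology
open scoped Real ComplexConjugate

namespace Pool.Agent.M16.Helper24.HR2

open Pool.Agent.M16.Helper22.Half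
open Pool.Agent.M16.Helper22.Marshall (coeff SepHol LogPhi dcoeff GLe)
open Pool.Agent.M16.Helper39.Area (Ext phi)
open Pool.Agent.M16.Helper39.MH
open Pool.Agent.M16.Helper39.HR (Dt coeff_Dt Dt_mul Dt_sub Dt_C_mul Dt_Th Th coeff_Th Th_mul Th_C_mul
  Th_Pa Ev Pa Ev_Pa psf coeff_psf psf_mul psf_congr psf_const_mul qa qa_sum Ev_Q poly_ode)

/-! the sixth power sum -/

private theorem sum_pow6 (c : ℂ) (k : ℕ) : ∑ l ∈ Finset.range k, (((l + 1 : ℕ) : ℂ) - c) ^ 6
    = (k : ℂ) * (k + 1) * (2 * k + 1) * (3 * k ^ 4 + 6 * k ^ 3 - 3 * k + 1) / 42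
      - c * (k ^ 2 * (k + 1) ^ 2 * (2 * k ^ 2 + 2 * k - 1) / 2)
      + c ^ 2 * (k * (k + 1) * (2 * k + 1) * (3 * k ^ 2 + 3 * k - 1) / 2)
      - c ^ 3 * (5 * (k * (k + 1)) ^ 2) + c ^ 4 * (5 * (k * (k + 1) * (2 * k + 1)) / 2)
      - c ^ 5 * (3 * (k * (k + 1))) + c ^ 6 * k := by
  induction k with
  | zero => simp
  | succ k ih =>
    rw [Finset.sum_range_succ, ih]
    push_cast
    ring

theorem ev_Q6 (β : ℂ → ℂ) : Ev (La (La (La (La (La (La (Pa (qa β))))))))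
    = PowerSeries.C (1 / 1344) * (3 * Dm (Dm (Dm (Dm (Dm (Dm (Ev (Pa (qa β))))))))
        - 21 * Dm (Dm (Dm (Dm (Ev (Pa (qa β)))))) + 49 * Dm (Dm (Ev (Pa (qa β))))
        - 31 * Ev (Pa (qa β))) := by
  have hc : ∀ (k : ℕ) (f : PowerSeries ℂ) (n : ℕ), PowerSeries.coeff n ((k : PowerSeries ℂ) * f)
      = (k : ℂ) * PowerSeries.coeff n f := by
    intro k f n
    rw [← map_natCast (PowerSeries.C (R := ℂ)) k, PowerSeries.coeff_C_mul]
  ext m
  have h3' := hc 3 (Dm (Dm (Dm (Dm (Dm (Dm (Ev (Pa (qa β))))))))) m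
  have h21' := hc 21 (Dm (Dm (Dm (Dm (Ev (Pa (qa β))))))) m
  have h49' := hc 49 (Dm (Dm (Ev (Pa (qa β))))) m
  have h31' := hc 31 (Ev (Pa (qa β))) m
  push_cast at h3' h21' h49' h31'
  rw [La_Pa, La_Pa, La_Pa, La_Pa, La_Pa, La_Pa, Ev_Pa, PowerSeries.coeff_C_mul, map_sub, map_add,
    map_sub, h3', h21', h49', h31', coeff_Dm, coeff_Dm, coeff_Dm, coeff_Dm, coeff_Dm, coeff_Dm,
    ev_Q0]
  cases m with
  | zero => simp [qa]; norm_num
  | succ m =>
    have h1 := qa_sum β (fun l => ((l : ℂ) - ((m + 1 : ℕ) : ℂ) / 2) ^ 6) m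
    rw [sum_pow6] at h1
    rw [if_neg (Nat.succ_ne_zero m), Nat.add_sub_cancel]
    have h3 : ∑ l ∈ Finset.range (m + 1 + 1), ((l : ℂ) - ((m + 1 : ℕ) : ℂ) / 2)
          * (((l : ℂ) - ((m + 1 : ℕ) : ℂ) / 2) * (((l : ℂ) - ((m + 1 : ℕ) : ℂ) / 2)
          * (((l : ℂ) - ((m + 1 : ℕ) : ℂ) / 2) * (((l : ℂ) - ((m + 1 : ℕ) : ℂ) / 2)
          * (((l : ℂ) - ((m + 1 : ℕ) : ℂ) / 2) * qa β (m + 1) l)))))
        = ∑ l ∈ Finset.range (m + 1 + 1), qa β (m + 1) l * ((l : ℂ) - ((m + 1 : ℕ) : ℂ) / 2) ^ 6 := by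
      apply Finset.sum_congr rfl
      intro l _
      ring
    rw [h3, h1]
    push_cast
    ring

/-! the jets `X_5`, `X_6` -/

section

variable {H : ℂ → ℂ} {ρ : ℝ}

theorem HT_g3 (hρ : 0 < ρ) (hH : DifferentiableOn ℂ H (ball 0 ρ)) {z : ℂ}
    (hz : z ∈ ball (0 : ℂ) ρ) : HT (gg H 3) z (6 * gg H 4 z + 2 * gg H 1 z * gg H 2 z) := by
  have h := HT_gg hρ hH hz 3
  have e : dval (fun k => gg H k z) 3 = 6 * gg H 4 z + 2 * gg H 1 z * gg H 2 z := by
    unfold dval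
    rw [if_neg (by norm_num)]
    have e1 : Finset.range (3 - 1) = Finset.range 2 := rfl
    rw [e1, Finset.sum_range_succ, Finset.sum_range_one]
    push_cast
    ring_nf
  rw [e] at h
  exact h

theorem HT_g4 (hρ : 0 < ρ) (hH : DifferentiableOn ℂ H (ball 0 ρ)) {z : ℂ}
    (hz : z ∈ ball (0 : ℂ) ρ) :
    HT (gg H 4) z (7 * gg H 5 z + 2 * gg H 1 z * gg H 3 z + gg H 2 z ^ 2) := by
  have h := HT_gg hρ hH hz 4
  have e : dval (fun k => gg H k z) 4
      = 7 * gg H 5 z + 2 * gg H 1 z * gg H 3 z + gg H 2 z ^ 2 := by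
    unfold dval
    rw [if_neg (by norm_num)]
    have e1 : Finset.range (4 - 1) = Finset.range 3 := rfl
    rw [e1, Finset.sum_range_succ, Finset.sum_range_succ, Finset.sum_range_one]
    push_cast
    ring_nf
  rw [e] at h
  exact h

theorem XX_four' (hρ : 0 < ρ) (hH : DifferentiableOn ℂ H (ball 0 ρ)) {z : ℂ}
    (hz : z ∈ ball (0 : ℂ) ρ) :
    XX H 4 z = 120 * gg H 0 z ^ 4 - 360 * gg H 0 z ^ 2 * gg H 1 z + 120 * gg H 1 z ^ 2
       + 240 * gg H 0 z * gg H 2 z - 120 * gg H 3 z + 96 * gg H 0 z ^ 3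
       - 192 * gg H 0 z * gg H 1 z + 96 * gg H 2 z + 36 * gg H 0 z ^ 2 - 36 * gg H 1 z
       + 8 * gg H 0 z + 1 := by
  rw [XX_four hρ hH hz]
  ring

theorem HT_XX4 (hρ : 0 < ρ) (hH : DifferentiableOn ℂ H (ball 0 ρ)) {z : ℂ}
    (hz : z ∈ ball (0 : ℂ) ρ) :
    HT (XX H 4) z (-(480 * gg H 0 z ^ 5) + 2160 * gg H 0 z ^ 3 * gg H 1 z
       - 1920 * gg H 0 z * gg H 1 z ^ 2 - 1680 * gg H 0 z ^ 2 * gg H 2 z
       + 1440 * gg H 1 z * gg H 2 z + 1200 * gg H 0 z * gg H 3 z - 720 * gg H 4 z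
       - 288 * gg H 0 z ^ 4 + 1056 * gg H 0 z ^ 2 * gg H 1 z - 480 * gg H 1 z ^ 2
       - 768 * gg H 0 z * gg H 2 z + 480 * gg H 3 z - 72 * gg H 0 z ^ 3
       + 216 * gg H 0 z * gg H 1 z - 144 * gg H 2 z - 8 * gg H 0 z ^ 2 + 24 * gg H 1 z) := by
  have h0 := HT_g0 hρ hH hz
  have h1 := HT_g1 hρ hH hz
  have h2 := HT_g2 hρ hH hz
  have h3 := HT_g3 hρ hH hz
  have h := ((((((((((((h0.mul (h0.mul (h0.mul h0))).cm (120)).add
      ((h0.mul (h0.mul h1)).cm (-360))).add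
      ((h1.mul h1).cm (120))).add
      ((h0.mul h2).cm (240))).add
      (h3.cm (-120))).add
      ((h0.mul (h0.mul h0)).cm (96))).add
      ((h0.mul h1).cm (-192))).add
      (h2.cm (96))).add
      ((h0.mul h0).cm (36))).add
      (h1.cm (-36))).add
      (h0.cm (8))).add
      (HT.const (1) z)
  have h' := h.congr (K := XX H 4) (by
    filter_upwards [isOpen_ball.mem_nhds hz] with w hw
    rw [XX_four' hρ hH hw]
    ring)
  refine ⟨h'.1, ?_⟩
  rw [h'.2]
  ring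

theorem XX_five' (hρ : 0 < ρ) (hH : DifferentiableOn ℂ H (ball 0 ρ)) {z : ℂ}
    (hz : z ∈ ball (0 : ℂ) ρ) :
    XX H 5 z = -(720 * gg H 0 z ^ 5) + 2880 * gg H 0 z ^ 3 * gg H 1 z
       - 2160 * gg H 0 z * gg H 1 z ^ 2 - 2160 * gg H 0 z ^ 2 * gg H 2 z
       + 1440 * gg H 1 z * gg H 2 z + 1440 * gg H 0 z * gg H 3 z - 720 * gg H 4 z
       - 600 * gg H 0 z ^ 4 + 1800 * gg H 0 z ^ 2 * gg H 1 z - 600 * gg H 1 z ^ 2
       - 1200 * gg H 0 z * gg H 2 z + 600 * gg H 3 z - 240 * gg H 0 z ^ 3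
       + 480 * gg H 0 z * gg H 1 z - 240 * gg H 2 z - 60 * gg H 0 z ^ 2
       + 60 * gg H 1 z - 10 * gg H 0 z - 1 := by
  rw [XX_succ, (HT_XX4 hρ hH hz).2, XX_four' hρ hH hz]
  ring

theorem HT_XX5 (hρ : 0 < ρ) (hH : DifferentiableOn ℂ H (ball 0 ρ)) {z : ℂ}
    (hz : z ∈ ball (0 : ℂ) ρ) :
    HT (XX H 5) z (3600 * gg H 0 z ^ 6 - 19440 * gg H 0 z ^ 4 * gg H 1 z
       + 25920 * gg H 0 z ^ 2 * gg H 1 z ^ 2 - 5040 * gg H 1 z ^ 3
       + 15840 * gg H 0 z ^ 3 * gg H 2 z - 27360 * gg H 0 z * gg H 1 z * gg H 2 z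
       + 5040 * gg H 2 z ^ 2 - 12240 * gg H 0 z ^ 2 * gg H 3 z
       + 10080 * gg H 1 z * gg H 3 z + 8640 * gg H 0 z * gg H 4 z - 5040 * gg H 5 z
       + 2400 * gg H 0 z ^ 5 - 10800 * gg H 0 z ^ 3 * gg H 1 z
       + 9600 * gg H 0 z * gg H 1 z ^ 2 + 8400 * gg H 0 z ^ 2 * gg H 2 z
       - 7200 * gg H 1 z * gg H 2 z - 6000 * gg H 0 z * gg H 3 z + 3600 * gg H 4 z
       + 720 * gg H 0 z ^ 4 - 2640 * gg H 0 z ^ 2 * gg H 1 z + 1200 * gg H 1 z ^ 2
       + 1920 * gg H 0 z * gg H 2 z - 1200 * gg H 3 z + 120 * gg H 0 z ^ 3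
       - 360 * gg H 0 z * gg H 1 z + 240 * gg H 2 z + 10 * gg H 0 z ^ 2
       - 30 * gg H 1 z) := by
  have h0 := HT_g0 hρ hH hz
  have h1 := HT_g1 hρ hH hz
  have h2 := HT_g2 hρ hH hz
  have h3 := HT_g3 hρ hH hz
  have h4 := HT_g4 hρ hH hz
  have h := (((((((((((((((((((h0.mul (h0.mul (h0.mul (h0.mul h0)))).cm (-720)).add
      ((h0.mul (h0.mul (h0.mul h1))).cm (2880))).add
      ((h0.mul (h1.mul h1)).cm (-2160))).add
      ((h0.mul (h0.mul h2)).cm (-2160))).add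
      ((h1.mul h2).cm (1440))).add
      ((h0.mul h3).cm (1440))).add
      (h4.cm (-720))).add
      ((h0.mul (h0.mul (h0.mul h0))).cm (-600))).add
      ((h0.mul (h0.mul h1)).cm (1800))).add
      ((h1.mul h1).cm (-600))).add
      ((h0.mul h2).cm (-1200))).add
      (h3.cm (600))).add
      ((h0.mul (h0.mul h0)).cm (-240))).add
      ((h0.mul h1).cm (480))).add
      (h2.cm (-240))).add
      ((h0.mul h0).cm (-60))).add
      (h1.cm (60))).add
      (h0.cm (-10))).add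
      (HT.const (-1) z)
  have h' := h.congr (K := XX H 5) (by
    filter_upwards [isOpen_ball.mem_nhds hz] with w hw
    rw [XX_five' hρ hH hw]
    ring)
  refine ⟨h'.1, ?_⟩
  rw [h'.2]
  ring

theorem XX_six' (hρ : 0 < ρ) (hH : DifferentiableOn ℂ H (ball 0 ρ)) {z : ℂ}
    (hz : z ∈ ball (0 : ℂ) ρ) :
    XX H 6 z = 5040 * gg H 0 z ^ 6 - 25200 * gg H 0 z ^ 4 * gg H 1 z
       + 30240 * gg H 0 z ^ 2 * gg H 1 z ^ 2 - 5040 * gg H 1 z ^ 3
       + 20160 * gg H 0 z ^ 3 * gg H 2 z - 30240 * gg H 0 z * gg H 1 z * gg H 2 z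
       + 5040 * gg H 2 z ^ 2 - 15120 * gg H 0 z ^ 2 * gg H 3 z
       + 10080 * gg H 1 z * gg H 3 z + 10080 * gg H 0 z * gg H 4 z - 5040 * gg H 5 z
       + 4320 * gg H 0 z ^ 5 - 17280 * gg H 0 z ^ 3 * gg H 1 z
       + 12960 * gg H 0 z * gg H 1 z ^ 2 + 12960 * gg H 0 z ^ 2 * gg H 2 z
       - 8640 * gg H 1 z * gg H 2 z - 8640 * gg H 0 z * gg H 3 z + 4320 * gg H 4 z
       + 1800 * gg H 0 z ^ 4 - 5400 * gg H 0 z ^ 2 * gg H 1 z + 1800 * gg H 1 z ^ 2
       + 3600 * gg H 0 z * gg H 2 z - 1800 * gg H 3 z + 480 * gg H 0 z ^ 3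
       - 960 * gg H 0 z * gg H 1 z + 480 * gg H 2 z + 90 * gg H 0 z ^ 2
       - 90 * gg H 1 z + 12 * gg H 0 z + 1 := by
  rw [XX_succ, (HT_XX5 hρ hH hz).2, XX_five' hρ hH hz]
  ring

end

section

variable {β H : ℂ → ℂ} {Φ : ℂ → ℂ → ℂ}

private theorem half_refl_pv2 (m l : ℕ) (hl : l ≤ m) :
    (((m - l : ℕ) : ℂ) - m / 2) = -((l : ℂ) - m / 2) := by
  rw [Nat.cast_sub hl]
  ring

private theorem odd1_pv2 {a : ℕ → ℕ → ℂ} (ha : ∀ m, ∀ l ≤ m, a m l = a m (m - l)) :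
    Ev (La (Pa a)) = 0 := by
  rw [La_Pa]
  exact ev_odd ha (fun m l hl => half_refl_pv2 m l hl)

private theorem odd3_pv2 {a : ℕ → ℕ → ℂ} (ha : ∀ m, ∀ l ≤ m, a m l = a m (m - l)) :
    Ev (La (La (La (Pa a)))) = 0 := by
  rw [La_Pa, La_Pa, La_Pa]
  have h := ev_odd (c := fun m l => ((l : ℂ) - m / 2) ^ 3) ha
    (fun m l hl => by simp only [half_refl_pv2 m l hl]; ring)
  rw [← h]
  congr 1
  congr 1
  funext m l
  ring

private theorem odd5 {a : ℕ → ℕ → ℂ} (ha : ∀ m, ∀ l ≤ m, a m l = a m (m - l)) :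
    Ev (La (La (La (La (La (Pa a)))))) = 0 := by
  rw [La_Pa, La_Pa, La_Pa, La_Pa, La_Pa]
  have h := ev_odd (c := fun m l => ((l : ℂ) - m / 2) ^ 5) ha
    (fun m l hl => by simp only [half_refl_pv2 m l hl]; ring)
  rw [← h]
  congr 1
  congr 1
  funext m l
  ring

/-- the identity of order six at the diagonal,
`q0 e6 = s (e0 q6 + 10 e2 q4 + 5 e4 q2) - 10 e4 q2 - 5 e2 q4` -/
theorem momentsS6 (hE : Ext β) (hΦ : LogPhi β H Φ) (s : ℂ) {e0 e2 e4 e6 q0 q2 q4 q6 : PowerSeries ℂ}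
    (he0 : Ev (Pa (fun m l => diagc (EE Φ s) m l)) = e0)
    (he2 : Ev (La (La (Pa (fun m l => diagc (EE Φ s) m l)))) = e2)
    (he4 : Ev (La (La (La (La (Pa (fun m l => diagc (EE Φ s) m l)))))) = e4)
    (he6 : Ev (La (La (La (La (La (La (Pa (fun m l => diagc (EE Φ s) m l)))))))) = e6)
    (hq0 : Ev (Pa (qa β)) = q0) (hq2 : Ev (La (La (Pa (qa β)))) = q2)
    (hq4 : Ev (La (La (La (La (Pa (qa β)))))) = q4)
    (hq6 : Ev (La (La (La (La (La (La (Pa (qa β)))))))) = q6) :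
    e6 * q0 = PowerSeries.C s * (e0 * q6 + 10 * (e2 * q4) + 5 * (e4 * q2))
      - 10 * (e4 * q2) - 5 * (e2 * q4) := by
  have h1 := la_ode hE hΦ s
  have hsE := fun m => EE_symm hΦ s m
  have hsQ := fun m => qa_symm β m
  have oE1 : Ev (La (Pa (fun m l => diagc (EE Φ s) m l))) = 0 := odd1_pv2 hsE
  have oE3 : Ev (La (La (La (Pa (fun m l => diagc (EE Φ s) m l))))) = 0 := odd3_pv2 hsE
  have oE5 : Ev (La (La (La (La (La (Pa (fun m l => diagc (EE Φ s) m l))))))) = 0 := odd5 hsE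
  have oQ1 : Ev (La (Pa (qa β))) = 0 := odd1_pv2 hsQ
  have oQ3 : Ev (La (La (La (Pa (qa β))))) = 0 := odd3_pv2 hsQ
  have oQ5 : Ev (La (La (La (La (La (Pa (qa β))))))) = 0 := odd5 hsQ
  generalize Pa (fun m l => diagc (EE Φ s) m l) = E at *
  generalize Pa (qa β) = Q at *
  have h2 := congrArg La h1
  rw [La_C_mul] at h2
  simp only [La_mul] at h2
  have h3 := congrArg La h2
  rw [La_C_mul] at h3
  simp only [La_add, La_mul] at h3
  have h4 := congrArg La h3
  rw [La_C_mul] at h4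
  simp only [La_add, La_mul] at h4
  have h5 := congrArg La h4
  rw [La_C_mul] at h5
  simp only [La_add, La_mul] at h5
  have h6 := congrArg La h5
  rw [La_C_mul] at h6
  simp only [La_add, La_mul] at h6
  have hmul : ∀ a b, Ev (a * b) = Ev a * Ev b := fun a b => map_mul _ a b
  have hadd : ∀ a b, Ev (a + b) = Ev a + Ev b := fun a b => map_add _ a b
  have hC : Ev (PowerSeries.C (Polynomial.C s)) = PowerSeries.C s := by
    rw [Ev, PowerSeries.map_C, Polynomial.coe_evalRingHom, Polynomial.eval_C]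
  have g6 := congrArg Ev h6
  simp only [hmul, hadd, hC, oE1, oE3, oE5, oQ1, oQ3, oQ5, he0, he2, he4, he6, hq0, hq2, hq4,
    hq6] at g6
  linear_combination g6

end

private theorem half_sum6 (d : ℕ → ℂ) (m : ℕ) :
    ∑ l ∈ Finset.range (m + 1), d l * ((l : ℂ) - m / 2) ^ 6
      = ∑ l ∈ Finset.range (m + 1), ((l : ℂ) - m / 2) * (((l : ℂ) - m / 2)
        * (((l : ℂ) - m / 2) * (((l : ℂ) - m / 2) * (((l : ℂ) - m / 2)
        * (((l : ℂ) - m / 2) * d l))))) := by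
  apply Finset.sum_congr rfl
  intro l _
  ring

/-! functions on the disc -/

private theorem dsub_pv2 {f g : ℂ → ℂ} (hf : DifferentiableOn ℂ f (ball 0 1))
    (hg : DifferentiableOn ℂ g (ball 0 1)) : DifferentiableOn ℂ (fun z => f z - g z) (ball 0 1) :=
  hf.sub hg

private theorem dmul_pv2 {f g : ℂ → ℂ} (hf : DifferentiableOn ℂ f (ball 0 1))
    (hg : DifferentiableOn ℂ g (ball 0 1)) : DifferentiableOn ℂ (fun z => f z * g z) (ball 0 1) :=
  hf.mul hg

private theorem dcm_pv2 (c : ℂ) {f : ℂ → ℂ} (hf : DifferentiableOn ℂ f (ball 0 1)) :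
    DifferentiableOn ℂ (fun z => c * f z) (ball 0 1) := hf.const_mul c

/-- the diagonal of `La La La La La La Q` -/
noncomputable def q6f (H : ℂ → ℂ) (z : ℂ) : ℂ :=
  1 / 1344 * (3 * (XX H 6 z * Complex.exp (H z)) - (21 * (XX H 4 z * Complex.exp (H z))
    - (49 * (XX H 2 z * Complex.exp (H z)) - 31 * (XX H 0 z * Complex.exp (H z)))))

theorem q6f_diff {H : ℂ → ℂ} (hH : DifferentiableOn ℂ H (ball 0 1)) :
    DifferentiableOn ℂ (q6f H) (ball 0 1) := by
  have hX : ∀ n, DifferentiableOn ℂ (fun z => XX H n z * Complex.exp (H z)) (ball 0 1) :=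
    fun n => (XX_diff hH n).mul hH.cexp
  exact dcm_pv2 _ (dsub_pv2 (dcm_pv2 _ (hX 6)) (dsub_pv2 (dcm_pv2 _ (hX 4)) (dsub_pv2 (dcm_pv2 _ (hX 2)) (dcm_pv2 _ (hX 0)))))

theorem ev_q6f {β H : ℂ → ℂ} {Φ : ℂ → ℂ → ℂ} (hE : Ext β) (hΦ : LogPhi β H Φ)
    (hH : DifferentiableOn ℂ H (ball 0 1)) :
    Ev (La (La (La (La (La (La (Pa (qa β)))))))) = psf (q6f H) := by
  have hX : ∀ n, DifferentiableOn ℂ (fun z => XX H n z * Complex.exp (H z)) (ball 0 1) :=
    fun n => (XX_diff hH n).mul hH.cexp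
  have cst : ∀ k : ℕ, (k : PowerSeries ℂ) = PowerSeries.C (k : ℂ) := by
    intro k
    rw [map_natCast]
  have c3 : (3 : PowerSeries ℂ) = PowerSeries.C (3 : ℂ) := by exact_mod_cast cst 3
  have c21 : (21 : PowerSeries ℂ) = PowerSeries.C (21 : ℂ) := by exact_mod_cast cst 21
  have c49 : (49 : PowerSeries ℂ) = PowerSeries.C (49 : ℂ) := by exact_mod_cast cst 49
  have c31 : (31 : PowerSeries ℂ) = PowerSeries.C (31 : ℂ) := by exact_mod_cast cst 31
  rw [ev_Q6, Ev_Q hE hΦ, ← psf_X0, ← psf_XX hH, ← psf_XX hH, ← psf_XX hH, ← psf_XX hH,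
    ← psf_XX hH, ← psf_XX hH]
  have e : psf (q6f H) = psf (fun z => 1 / 1344 * (3 * (XX H 6 z * Complex.exp (H z))
        - (21 * (XX H 4 z * Complex.exp (H z)) - (49 * (XX H 2 z * Complex.exp (H z))
        - 31 * (XX H 0 z * Complex.exp (H z)))))) := rfl
  rw [e, psf_const_mul, psf_sub (dcm_pv2 3 (hX 6)) (dsub_pv2 (dcm_pv2 21 (hX 4)) (dsub_pv2 (dcm_pv2 49 (hX 2))
      (dcm_pv2 31 (hX 0)))), psf_sub (dcm_pv2 21 (hX 4)) (dsub_pv2 (dcm_pv2 49 (hX 2)) (dcm_pv2 31 (hX 0))),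
    psf_sub (dcm_pv2 49 (hX 2)) (dcm_pv2 31 (hX 0)), psf_const_mul, psf_const_mul, psf_const_mul,
    psf_const_mul, c3, c21, c49, c31]
  ring

/-- the sixth moment on the diagonal -/
noncomputable def k6f (s : ℂ) (H : ℂ → ℂ) (z : ℂ) : ℂ :=
  Complex.exp (s * H z) * (XS6 s (fun k => gg H k z) + low6S s (fun k => gg H k z))

theorem k6f_diff {H : ℂ → ℂ} (hH : DifferentiableOn ℂ H (ball 0 1)) (s : ℂ) :
    DifferentiableOn ℂ (k6f s H) (ball 0 1) := by
  have d0 := gg_diff one_pos hH 0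
  have d1 := gg_diff one_pos hH 1
  have d2 := gg_diff one_pos hH 2
  have d3 := gg_diff one_pos hH 3
  have d4 := gg_diff one_pos hH 4
  have d5 := gg_diff one_pos hH 5
  have dE : DifferentiableOn ℂ (fun z => Complex.exp (s * H z)) (ball 0 1) :=
    (hH.const_mul s).cexp
  unfold k6f low6S XS6
  fun_prop

private theorem q0_ne_pv2 {β H : ℂ → ℂ} {Φ : ℂ → ℂ → ℂ} (hE : Ext β) (hΦ : LogPhi β H Φ) :
    psf (fun z => Complex.exp (1 * H z)) ≠ 0 := by
  intro h
  rw [← Ev_Q hE hΦ] at h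
  have h1 := congrArg (PowerSeries.coeff 0) h
  rw [Ev_Pa, map_zero] at h1
  simp [qa] at h1

theorem ev_k6f {β H : ℂ → ℂ} {Φ : ℂ → ℂ → ℂ} (hE : Ext β) (hΦ : LogPhi β H Φ)
    (hH : DifferentiableOn ℂ H (ball 0 1)) (s : ℂ) :
    Ev (La (La (La (La (La (La (Pa (fun m l => diagc (EE Φ s) m l)))))))) = psf (k6f s H) := by
  have h1 := momentsS6 hE hΦ s (ev_ES hΦ s) (ev_k2f hE hΦ hH s) (ev_k4f hE hΦ hH s) rfl
    (Ev_Q hE hΦ) (ev_q2f hE hΦ hH) (ev_q4f hE hΦ hH) (ev_q6f hE hΦ hH)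
  have dE : DifferentiableOn ℂ (fun z => Complex.exp (s * H z)) (ball 0 1) :=
    (hH.const_mul s).cexp
  have d1 : DifferentiableOn ℂ (fun z => Complex.exp (1 * H z)) (ball 0 1) :=
    (hH.const_mul 1).cexp
  have dk2 := k2f_diff hH s
  have dk4 := k4f_diff hH s
  have dq2 := q2f_diff hH
  have dq4 := q4f_diff hH
  have dq6 := q6f_diff hH
  have c10 : (10 : PowerSeries ℂ) = PowerSeries.C (10 : ℂ) := (map_ofNat PowerSeries.C 10).symm
  have c5 : (5 : PowerSeries ℂ) = PowerSeries.C (5 : ℂ) := (map_ofNat PowerSeries.C 5).symm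
  have hA := dmul_pv2 dE dq6
  have hB := dmul_pv2 dk2 dq4
  have hC := dmul_pv2 dk4 dq2
  have f1 : psf (fun z => s * (Complex.exp (s * H z) * q6f H z)
          - ((5 - 10 * s) * (k2f s H z * q4f H z) - (5 * s - 10) * (k4f s H z * q2f H z)))
      = PowerSeries.C s * (psf (fun z => Complex.exp (s * H z)) * psf (q6f H))
        - (PowerSeries.C (5 - 10 * s) * (psf (k2f s H) * psf (q4f H))
          - PowerSeries.C (5 * s - 10) * (psf (k4f s H) * psf (q2f H))) := by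
    rw [psf_sub (dcm_pv2 s hA) (dsub_pv2 (dcm_pv2 (5 - 10 * s) hB) (dcm_pv2 (5 * s - 10) hC)),
      psf_sub (dcm_pv2 (5 - 10 * s) hB) (dcm_pv2 (5 * s - 10) hC), psf_const_mul, psf_const_mul,
      psf_const_mul, psf_mul dE dq6, psf_mul dk2 dq4, psf_mul dk4 dq2]
  have f2 : psf (fun z => s * (Complex.exp (s * H z) * q6f H z)
          - ((5 - 10 * s) * (k2f s H z * q4f H z) - (5 * s - 10) * (k4f s H z * q2f H z)))
      = psf (fun z => k6f s H z * Complex.exp (1 * H z)) := by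
    apply psf_congr
    intro z hz
    have e3 : XX H 0 z = 1 := rfl
    unfold q2f q4f q6f k2f k4f k6f low2S low4S low6S XS6
    rw [XS_one, XS_two, e3, XX_two one_pos hH hz, XX_four' one_pos hH hz, XX_six' one_pos hH hz,
      one_mul (H z)]
    ring
  apply mul_right_cancel₀ (q0_ne_pv2 hE hΦ)
  rw [h1, ← psf_mul (k6f_diff hH s) d1, ← f2, f1, c10, c5, map_sub, map_sub, map_mul, map_mul]
  ring

theorem jetS6 {ρ : ℝ} {β H : ℂ → ℂ} {Φ : ℂ → ℂ → ℂ} (h : Data ρ β H Φ) (s : ℂ) (m : ℕ) :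
    ∑ l ∈ Finset.range (m + 1), diagc (EE Φ s) m l * ((l : ℂ) - m / 2) ^ 6
      = coeff (fun z => Complex.exp (s * H z)
        * (XS6 s (fun k => gg H k z) + low6S s (fun k => gg H k z))) m := by
  have h1 := congrArg (PowerSeries.coeff m) (ev_k6f h.ext h.logPhi h.diff1 s)
  rw [La_Pa, La_Pa, La_Pa, La_Pa, La_Pa, La_Pa, Ev_Pa, ← half_sum6, coeff_psf] at h1
  exact h1

end Pool.Agent.M16.Helper24.HR2
end
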