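import Mathlib
import Pool.Agent.Helper60.M16.G03
import Pool.Agent.Helper60.M16.G08

/- Helper94.T.Helper24.HR2.Asy -/
section
/-!
MP_16b0ee, project HR2, module 6a: asymptotics and domination of the discrete densities; `x` in
`(0,1)`, `y > 0`, `i = floor (m x)`, `j = floor (m y)`.
-/

set_option autoImplicit false

open MeasureTheory Set Metric Filter Topology
open scoped Real ComplexConjugate

namespace Pool.Agent.M16.Helper24.HR2

open Pool.Agent.M16.Helper22.Half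
open Pool.Agent.M16.Helper22.Marshall (coeff SepHol LogPhi dcoeff GLe)
open Pool.Agent.M16.Helper39.Area (Ext phi)
open Pool.Agent.M16.Helper39.MH

noncomputable def alm (s : ℂ) (b : ℝ) (m : ℕ) (x : ℝ) : ℝ :=
  aD s b m ⌊(m : ℝ) * x⌋₊ / (m : ℝ) ^ (b + 1)

noncomputable def bem (s : ℂ) (b : ℝ) (m : ℕ) (y : ℝ) : ℝ :=
  bD s b m ⌊(m : ℝ) * y⌋₊ * (m : ℝ) ^ (b + 1)

theorem re_bounds {s : ℂ} (hs : ‖s‖ < 1) : -1 < s.re ∧ s.re < 1 :=
  abs_lt.mp ((Complex.abs_re_le_norm s).trans_lt hs)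

theorem one_add_ne {s : ℂ} (hs : ‖s‖ < 1) : 1 + s ≠ 0 := by
  intro h
  have h1 : s = -1 := by linear_combination h
  rw [h1, norm_neg, norm_one] at hs
  exact lt_irrefl _ hs

/-! the floor -/

theorem tendsto_floor {x : ℝ} (hx : 0 ≤ x) :
    Tendsto (fun m : ℕ => ((⌊(m : ℝ) * x⌋₊ : ℝ)) / m) atTop (𝓝 x) := by
  have h := (tendsto_nat_floor_mul_div_atTop hx).comp
    (tendsto_natCast_atTop_atTop (R := ℝ))
  refine h.congr fun m => ?_
  simp only [Function.comp_apply]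
  rw [mul_comm]

theorem tendsto_floor_one {x : ℝ} (hx : 0 ≤ x) :
    Tendsto (fun m : ℕ => ((⌊(m : ℝ) * x⌋₊ : ℝ) + 1) / m) atTop (𝓝 x) := by
  have h := (tendsto_floor hx).add (tendsto_one_div_atTop_nhds_zero_nat (𝕜 := ℝ))
  rw [add_zero] at h
  refine h.congr fun m => ?_
  rw [add_div]

theorem floor_lt_m {m : ℕ} (hm : 1 ≤ m) {x : ℝ} (hx : x ∈ Ioo (0 : ℝ) 1) :
    ⌊(m : ℝ) * x⌋₊ < m := by
  have hm0 : (0 : ℝ) < m := by exact_mod_cast hm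
  rw [Nat.floor_lt' (by omega)]
  nlinarith only [hx.2, hm0]

theorem cast_sub_floor {m : ℕ} (hm : 1 ≤ m) {x : ℝ} (hx : x ∈ Ioo (0 : ℝ) 1) :
    ((m - 1 - ⌊(m : ℝ) * x⌋₊ : ℕ) : ℝ) + 1 = m - (⌊(m : ℝ) * x⌋₊ : ℝ) := by
  have h := floor_lt_m hm hx
  have h1 : m - 1 - ⌊(m : ℝ) * x⌋₊ + 1 = m - ⌊(m : ℝ) * x⌋₊ := by omega
  have h2 : ((m - 1 - ⌊(m : ℝ) * x⌋₊ + 1 : ℕ) : ℝ) = ((m - ⌊(m : ℝ) * x⌋₊ : ℕ) : ℝ) := by
    rw [h1]
  rw [Nat.cast_sub h.le] at h2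
  push_cast at h2
  exact h2

theorem tendsto_co_floor {x : ℝ} (hx : x ∈ Ioo (0 : ℝ) 1) :
    Tendsto (fun m : ℕ => (((m - 1 - ⌊(m : ℝ) * x⌋₊ : ℕ) : ℝ) + 1) / m) atTop (𝓝 (1 - x)) := by
  have h := (tendsto_const_nhds (x := (1 : ℝ))).sub (tendsto_floor hx.1.le)
  refine h.congr' ?_
  filter_upwards [eventually_ge_atTop 1] with m hm
  have hm0 : (m : ℝ) ≠ 0 := by
    have : m ≠ 0 := by omega
    exact_mod_cast this
  rw [cast_sub_floor hm hx, sub_div, div_self hm0]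

theorem floor_mul_le {m : ℕ} {x : ℝ} (hx : 0 ≤ x) : (⌊(m : ℝ) * x⌋₊ : ℝ) ≤ m * x :=
  Nat.floor_le (by positivity)

theorem lt_floor_mul {m : ℕ} {x : ℝ} : (m : ℝ) * x < (⌊(m : ℝ) * x⌋₊ : ℝ) + 1 :=
  Nat.lt_floor_add_one _

/-! the constants -/

theorem kap_tendsto {s : ℂ} (hs : ‖s‖ < 1) : Tendsto (kap s.re (‖s‖ ^ 2)) atTop
    (𝓝 (Real.Gamma (2 + 2 * s.re) / ‖Complex.Gamma (s + 2)‖ ^ 2)) := by
  obtain ⟨hr1, hr2⟩ := re_bounds hs
  have h1s := one_add_ne hs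
  have hz : ∀ m : ℕ, 1 + s ≠ -m := by
    intro m h
    have h1 := congrArg Complex.re h
    simp only [Complex.add_re, Complex.one_re, Complex.neg_re, Complex.natCast_re] at h1
    have : (0 : ℝ) ≤ m := Nat.cast_nonneg m
    linarith
  have t1 : Tendsto (fun n : ℕ => ‖pq (1 + s) (n + 1)‖ * (((n + 1 : ℕ) : ℝ) + 1) ^ (-s.re)) atTop
      (𝓝 ‖Complex.Gamma (1 + s)‖⁻¹) := by
    have h := (tendsto_norm_pq hz).comp (tendsto_add_atTop_nat 1)
    refine h.congr fun n => ?_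
    simp only [Function.comp_apply, Complex.add_re, Complex.one_re]
    congr 2
    ring
  have t2 := tendsto_pq_real_inv (z := 2 + 2 * s.re) (by linarith)
  have t3 := (tendsto_shift_pow (2 * s.re)).comp (tendsto_add_atTop_nat 1)
  have t4 := (((t1.pow 2).mul t2).mul t3).const_mul ((‖1 + s‖ ^ 2)⁻¹)
  have hG : ‖Complex.Gamma (s + 2)‖ = ‖1 + s‖ * ‖Complex.Gamma (1 + s)‖ := by
    have e : s + 2 = (1 + s) + 1 := by ring
    rw [e, Complex.Gamma_add_one _ h1s, norm_mul]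
  have hn1 : ‖1 + s‖ ≠ 0 := norm_ne_zero_iff.mpr h1s
  have hlim : (‖1 + s‖ ^ 2)⁻¹ * (‖Complex.Gamma (1 + s)‖⁻¹ ^ 2 * Real.Gamma (2 + 2 * s.re) * 1)
      = Real.Gamma (2 + 2 * s.re) / ‖Complex.Gamma (s + 2)‖ ^ 2 := by
    rw [hG, mul_pow, inv_pow]
    have hg : ‖Complex.Gamma (1 + s)‖ ≠ 0 := norm_ne_zero_iff.mpr (Complex.Gamma_ne_zero hz)
    field_simp
  rw [hlim] at t4
  refine t4.congr fun n => ?_
  simp only [Function.comp_apply]
  have hq := norm_Q s hr1 n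
  have hp := pq_pos (by linarith only [hr1] : 0 < 2 + 2 * s.re) n
  have a1 : (0 : ℝ) < (n : ℝ) + 1 := by positivity
  have a2 : (0 : ℝ) < (n : ℝ) + 1 + 1 := by positivity
  push_cast
  rw [mul_pow]
  have e1 : (((n : ℝ) + 1 + 1) ^ (-s.re)) ^ 2 = (((n : ℝ) + 1 + 1) ^ (2 * s.re))⁻¹ := by
    rw [← Real.rpow_natCast, ← Real.rpow_mul a2.le, ← Real.rpow_neg a2.le]
    congr 1
    push_cast
    ring
  have e2 : ((n : ℝ) + 1) ^ (2 + 2 * s.re - 1) = ((n : ℝ) + 1) * ((n : ℝ) + 1) ^ (2 * s.re) := by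
    have : 2 + 2 * s.re - 1 = 1 + 2 * s.re := by ring
    rw [this, Real.rpow_add a1, Real.rpow_one]
  have e3 : (((n : ℝ) + 1 + 1) / ((n : ℝ) + 1)) ^ (2 * s.re)
      = ((n : ℝ) + 1 + 1) ^ (2 * s.re) / ((n : ℝ) + 1) ^ (2 * s.re) := Real.div_rpow a2.le a1.le _
  rw [e1, e2, e3]
  have b1 : ((n : ℝ) + 1) ^ (2 * s.re) ≠ 0 := (Real.rpow_pos_of_pos a1 _).ne'
  have b2 : ((n : ℝ) + 1 + 1) ^ (2 * s.re) ≠ 0 := (Real.rpow_pos_of_pos a2 _).ne'
  have c1 : kap s.re (‖s‖ ^ 2) n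
      = (((n : ℝ) + 1) * ‖pq (1 + s) (n + 1)‖ ^ 2) / (‖1 + s‖ ^ 2 * pq (2 + 2 * s.re) n) := by
    rw [hq, eq_div_iff (mul_ne_zero (pow_ne_zero 2 hn1) hp.ne')]
    ring
  rw [c1]
  field_simp

theorem KS_eq {s : ℂ} (hs : ‖s‖ < 1) :
    KS s = Real.Gamma (2 + 2 * s.re) / ‖Complex.Gamma (s + 2)‖ ^ 2 := by
  have h := kap_tendsto hs
  have hm : Monotone (kap s.re (‖s‖ ^ 2)) := fun a c hac =>
    kap_mono (re_bounds hs).1 (sq_nonneg _) hac
  exact tendsto_nhds_unique (tendsto_atTop_ciSup hm h.bddAbove_range) h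

theorem KS_pos {s : ℂ} (hs : ‖s‖ < 1) : 0 < KS s := by
  have h1 := kap_ge_one (re_bounds hs).1 (sq_nonneg ‖s‖) 0
  have h2 : kap s.re (‖s‖ ^ 2) 0 ≤ KS s := le_ciSup (kap_tendsto hs).bddAbove_range 0
  linarith only [h1, h2]

theorem kap_le_KS {s : ℂ} (hs : ‖s‖ < 1) (n : ℕ) : kap s.re (‖s‖ ^ 2) n ≤ KS s :=
  le_ciSup (kap_tendsto hs).bddAbove_range n

theorem kap_tendsto_KS {s : ℂ} (hs : ‖s‖ < 1) :
    Tendsto (kap s.re (‖s‖ ^ 2)) atTop (𝓝 (KS s)) := by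
  rw [KS_eq hs]
  exact kap_tendsto hs

theorem B0_eq {s : ℂ} (hs : ‖s‖ < 1) {b : ℝ} (hσ : 0 < b + 1 - 2 * s.re) :
    B0 s b = Real.Gamma (2 + 2 * s.re) * Real.Gamma (b + 1 - 2 * s.re) / Real.Gamma (b + 3) := by
  obtain ⟨hr1, hr2⟩ := re_bounds hs
  have hv : 0 < 2 + 2 * s.re := by linarith only [hr1]
  have h := ProbabilityTheory.beta_eq_betaIntegralReal (b + 1 - 2 * s.re) (2 + 2 * s.re) hσ hv
  have h1 : ProbabilityTheory.beta (b + 1 - 2 * s.re) (2 + 2 * s.re)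
      = Real.Gamma (2 + 2 * s.re) * Real.Gamma (b + 1 - 2 * s.re) / Real.Gamma (b + 3) := by
    unfold ProbabilityTheory.beta
    rw [mul_comm (Real.Gamma (b + 1 - 2 * s.re))]
    congr 2
    ring
  rw [← h1, h, B0, Complex.betaIntegral, intervalIntegral.integral_of_le (by norm_num),
    integral_Ioc_eq_integral_Ioo, ← RCLike.re_to_complex, ← integral_re]
  · refine setIntegral_congr_fun measurableSet_Ioo fun x hx => ?_
    have hx0 : 0 ≤ x := hx.1.le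
    have hx1 : 0 ≤ 1 - x := by linarith only [hx.2]
    have e1 : ((x : ℂ)) ^ (((b + 1 - 2 * s.re : ℝ) : ℂ) - 1) = ((x ^ (b - 2 * s.re) : ℝ) : ℂ) := by
      rw [Complex.ofReal_cpow hx0]
      congr 1
      push_cast
      ring
    have e2 : (1 - (x : ℂ)) ^ (((2 + 2 * s.re : ℝ) : ℂ) - 1)
        = (((1 - x) ^ (2 * s.re + 1) : ℝ) : ℂ) := by
      rw [Complex.ofReal_cpow hx1]
      push_cast
      congr 1
      ring
    simp only [alp]
    rw [e1, e2, ← Complex.ofReal_mul, RCLike.re_to_complex, Complex.ofReal_re]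
    ring
  · have := Complex.betaIntegral_convergent (u := ((b + 1 - 2 * s.re : ℝ) : ℂ))
      (v := ((2 + 2 * s.re : ℝ) : ℂ)) (by simpa using hσ) (by simpa using hv)
    rw [intervalIntegrable_iff_integrableOn_Ioo_of_le (by norm_num)] at this
    exact this

/-! pointwise limits -/

theorem neg_ne_nat {s : ℂ} (hs0 : s ≠ 0) (hs : ‖s‖ < 1) (m : ℕ) : -s ≠ -(m : ℂ) := by
  intro h
  have h1 : s = m := neg_injective h
  rcases Nat.eq_zero_or_pos m with h2 | h2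
  · apply hs0
    rw [h1, h2, Nat.cast_zero]
  · rw [h1, Complex.norm_natCast] at hs
    have : (1 : ℝ) ≤ m := by exact_mod_cast h2
    linarith only [hs, this]

theorem alm_tendsto {s : ℂ} (hs : ‖s‖ < 1) {b : ℝ} (hσ : 0 < b + 1 - 2 * s.re) {x : ℝ}
    (hx : x ∈ Ioo (0 : ℝ) 1) : Tendsto (fun m : ℕ => alm s b m x) atTop
      (𝓝 (KS s * (Real.Gamma (2 + 2 * s.re))⁻¹ * (Real.Gamma (b + 1 - 2 * s.re))⁻¹
        * alp s b x)) := by
  obtain ⟨hr1, hr2⟩ := re_bounds hs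
  have hx1 : 0 < 1 - x := by linarith [hx.2]
  have k1 := tendsto_co_floor hx
  have k2 := tendsto_floor_one hx.1.le
  have t1 := (kap_tendsto_KS hs).comp (tendsto_of_scaled_atTop hx1 k1)
  have t2 := tendsto_scaled hx1 (tendsto_pq_real (z := 2 + 2 * s.re) (by linarith only [hr1])) k1
  have t3 := tendsto_scaled hx.1 (tendsto_pq_real hσ) k2
  have t4 := (t1.mul t2).mul t3
  have hlim : KS s * ((Real.Gamma (2 + 2 * s.re))⁻¹ * (1 - x) ^ (-(1 - (2 + 2 * s.re))))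
      * ((Real.Gamma (b + 1 - 2 * s.re))⁻¹ * x ^ (-(1 - (b + 1 - 2 * s.re))))
      = KS s * (Real.Gamma (2 + 2 * s.re))⁻¹ * (Real.Gamma (b + 1 - 2 * s.re))⁻¹
        * alp s b x := by
    have e1 : -(1 - (2 + 2 * s.re)) = 2 * s.re + 1 := by ring
    have e2 : -(1 - (b + 1 - 2 * s.re)) = b - 2 * s.re := by ring
    rw [e1, e2, alp]
    ring
  rw [hlim] at t4
  refine t4.congr' ?_
  filter_upwards [eventually_gt_atTop 0] with m hm
  have hm0 : (0 : ℝ) < m := by exact_mod_cast hm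
  simp only [Function.comp_apply, alm, aD]
  have e3 : (m : ℝ) ^ (1 - (2 + 2 * s.re)) * (m : ℝ) ^ (1 - (b + 1 - 2 * s.re))
      = ((m : ℝ) ^ (b + 1))⁻¹ := by
    rw [← Real.rpow_add hm0, ← Real.rpow_neg hm0.le]
    congr 1
    ring
  rw [div_eq_mul_inv, ← e3]
  ring

theorem bem_tendsto {s : ℂ} (hs0 : s ≠ 0) (hs : ‖s‖ < 1) {b : ℝ} (hσ : 0 < b + 1 - 2 * s.re)
    {y : ℝ} (hy : 0 < y) : Tendsto (fun m : ℕ => bem s b m y) atTop
      (𝓝 (‖1 + s‖ ^ 2 * (‖Complex.Gamma (-s)‖⁻¹) ^ 2 * Real.Gamma (b + 1 - 2 * s.re)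
        * bet b y)) := by
  have hy1 : 0 < 1 + y := by linarith only [hy]
  have k1 := tendsto_floor_one hy.le
  have k2 : Tendsto (fun m : ℕ => (((m + 1 + ⌊(m : ℝ) * y⌋₊ : ℕ) : ℝ) + 1) / m) atTop
      (𝓝 (1 + y)) := by
    have h := ((tendsto_const_nhds (x := (1 : ℝ))).add
      (tendsto_one_div_atTop_nhds_zero_nat (𝕜 := ℝ))).add k1
    rw [add_zero] at h
    refine h.congr' ?_
    filter_upwards [eventually_gt_atTop 0] with m hm
    have hm0 : (m : ℝ) ≠ 0 := by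
      have : m ≠ 0 := by omega
      exact_mod_cast this
    push_cast
    field_simp
    ring
  have t1 := tendsto_scaled hy1 (tendsto_norm_pq (neg_ne_nat hs0 hs)) k2
  have t2 := tendsto_scaled (p := (b + 1 - 2 * s.re) - 1) hy1 (tendsto_pq_real_inv hσ) k2
  have t3 := ((k1.mul (t1.pow 2)).mul t2).const_mul (‖1 + s‖ ^ 2)
  have hlim : ‖1 + s‖ ^ 2 * (y * (‖Complex.Gamma (-s)‖⁻¹ * (1 + y) ^ (-(1 - (-s).re))) ^ 2
      * (Real.Gamma (b + 1 - 2 * s.re) * (1 + y) ^ (-(b + 1 - 2 * s.re - 1))))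
      = ‖1 + s‖ ^ 2 * (‖Complex.Gamma (-s)‖⁻¹) ^ 2 * Real.Gamma (b + 1 - 2 * s.re)
        * bet b y := by
    have e1 : ((1 + y) ^ (-(1 - (-s).re))) ^ 2 * (1 + y) ^ (-(b + 1 - 2 * s.re - 1))
        = (1 + y) ^ (-b - 2) := by
      rw [← Real.rpow_natCast, ← Real.rpow_mul hy1.le, ← Real.rpow_add hy1]
      congr 1
      rw [Complex.neg_re]
      push_cast
      ring
    rw [bet, ← e1]
    ring
  rw [hlim] at t3
  refine t3.congr' ?_
  filter_upwards [eventually_gt_atTop 0] with m hm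
  have hm0 : (0 : ℝ) < m := by exact_mod_cast hm
  simp only [bem, bD]
  have e3 : ((m : ℝ) ^ (1 - (-s).re)) ^ 2 * (m : ℝ) ^ (b + 1 - 2 * s.re - 1)
      = (m : ℝ) * (m : ℝ) ^ (b + 1) := by
    have e4 : (m : ℝ) * (m : ℝ) ^ (b + 1) = (m : ℝ) ^ ((1 : ℝ) + (b + 1)) := by
      rw [Real.rpow_add hm0 1 (b + 1), Real.rpow_one]
    rw [e4, ← Real.rpow_natCast, ← Real.rpow_mul hm0.le, ← Real.rpow_add hm0]
    congr 1
    rw [Complex.neg_re]
    push_cast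
    ring
  rw [norm_mul, mul_pow, mul_pow]
  have e5 : ‖1 + s‖ ^ 2 * (((⌊(m : ℝ) * y⌋₊ : ℝ) + 1) / m
      * (‖pq (-s) (m + 1 + ⌊(m : ℝ) * y⌋₊)‖ ^ 2 * ((m : ℝ) ^ (1 - (-s).re)) ^ 2)
      * ((pq (b + 1 - 2 * s.re) (m + 1 + ⌊(m : ℝ) * y⌋₊))⁻¹ * (m : ℝ) ^ (b + 1 - 2 * s.re - 1)))
      = ‖1 + s‖ ^ 2 * (((⌊(m : ℝ) * y⌋₊ : ℝ) + 1) / m
      * ‖pq (-s) (m + 1 + ⌊(m : ℝ) * y⌋₊)‖ ^ 2
      * (pq (b + 1 - 2 * s.re) (m + 1 + ⌊(m : ℝ) * y⌋₊))⁻¹
      * (((m : ℝ) ^ (1 - (-s).re)) ^ 2 * (m : ℝ) ^ (b + 1 - 2 * s.re - 1))) := by ring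
  rw [e5, e3]
  field_simp

/-- the constants and the pointwise limits -/
theorem asy_consts {s : ℂ} (hs0 : s ≠ 0) (hs : ‖s‖ < 1) {b : ℝ} (hb : 0 < b)
    (hσ : 0 < b + 1 - 2 * s.re) : ∃ ca cb : ℝ, 0 < ca ∧ 0 < cb ∧ ca * cb = cst s
      ∧ (∀ x ∈ Ioo (0 : ℝ) 1, Tendsto (fun m : ℕ => alm s b m x) atTop (𝓝 (ca * alp s b x)))
      ∧ (∀ y : ℝ, 0 < y → Tendsto (fun m : ℕ => bem s b m y) atTop (𝓝 (cb * bet b y)))
      ∧ Tendsto (fun m : ℕ => KS s * pq (b + 3) (m - 1) / (m : ℝ) ^ (b + 2)) atTop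
          (𝓝 (ca * B0 s b)) := by
  obtain ⟨hr1, hr2⟩ := re_bounds hs
  have g1 := Real.Gamma_pos_of_pos (by linarith : 0 < 2 + 2 * s.re)
  have g2 := Real.Gamma_pos_of_pos hσ
  have hK := KS_pos hs
  have h1s := one_add_ne hs
  have hn1 : 0 < ‖1 + s‖ := norm_pos_iff.mpr h1s
  have hgs : Complex.Gamma (-s) ≠ 0 := Complex.Gamma_ne_zero (neg_ne_nat hs0 hs)
  have hgn : 0 < ‖Complex.Gamma (-s)‖ := norm_pos_iff.mpr hgs
  refine ⟨KS s * (Real.Gamma (2 + 2 * s.re))⁻¹ * (Real.Gamma (b + 1 - 2 * s.re))⁻¹,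
    ‖1 + s‖ ^ 2 * (‖Complex.Gamma (-s)‖⁻¹) ^ 2 * Real.Gamma (b + 1 - 2 * s.re),
    by positivity, by positivity, ?_, fun x hx => alm_tendsto hs hσ hx,
    fun y hy => bem_tendsto hs0 hs hσ hy, ?_⟩
  · have e1 : Complex.Gamma (s + 2) = (1 + s) * Complex.Gamma (1 + s) := by
      have e : s + 2 = (1 + s) + 1 := by ring
      rw [e, Complex.Gamma_add_one _ h1s]
    have e2 := Complex.Gamma_mul_Gamma_one_sub (-s)
    rw [sub_neg_eq_add] at e2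
    have e3 : (Complex.Gamma (-s) * Complex.Gamma (1 + s))⁻¹
        = Complex.sin (π * -s) / π := by rw [e2, inv_div]
    have e4 : cst s = (‖Complex.Gamma (-s)‖⁻¹ * ‖Complex.Gamma (1 + s)‖⁻¹) ^ 2 := by
      rw [cst, ← norm_inv, ← norm_inv, ← norm_mul, ← mul_inv, e3, mul_neg, Complex.sin_neg,
        neg_div, norm_neg]
    have hg3 : 0 < ‖Complex.Gamma (1 + s)‖ := by
      apply norm_pos_iff.mpr
      apply Complex.Gamma_ne_zero_of_re_pos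
      rw [Complex.add_re, Complex.one_re]
      linarith only [hr1]
    rw [e4, KS_eq hs, e1, norm_mul]
    have g1' := g1.ne'
    have g2' := g2.ne'
    generalize Real.Gamma (2 + 2 * s.re) = G1 at g1' ⊢
    generalize Real.Gamma (b + 1 - 2 * s.re) = G2 at g2' ⊢
    field_simp
  · have k1 : Tendsto (fun m : ℕ => (((m - 1 : ℕ) : ℝ) + 1) / m) atTop (𝓝 1) := by
      refine tendsto_const_nhds.congr' ?_
      filter_upwards [eventually_gt_atTop 0] with m hm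
      have hm0 : (m : ℝ) ≠ 0 := by
        have : m ≠ 0 := by omega
        exact_mod_cast this
      have h1 : ((m - 1 : ℕ) : ℝ) + 1 = m := by
        rw [Nat.cast_sub hm, Nat.cast_one, sub_add_cancel]
      rw [h1, div_self hm0]
    have t1 := (tendsto_scaled one_pos (tendsto_pq_real (z := b + 3) (by linarith only [hb])) k1).const_mul
      (KS s)
    rw [Real.one_rpow, mul_one] at t1
    have hlim : KS s * (Real.Gamma (b + 3))⁻¹ = KS s * (Real.Gamma (2 + 2 * s.re))⁻¹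
        * (Real.Gamma (b + 1 - 2 * s.re))⁻¹ * B0 s b := by
      rw [B0_eq hs hσ]
      have g1' := g1.ne'
      have g2' := g2.ne'
      generalize Real.Gamma (2 + 2 * s.re) = G1 at g1' ⊢
      generalize Real.Gamma (b + 1 - 2 * s.re) = G2 at g2' ⊢
      field_simp
    rw [hlim] at t1
    refine t1.congr' ?_
    filter_upwards [eventually_gt_atTop 0] with m hm
    have hm0 : (0 : ℝ) < m := by exact_mod_cast hm
    have e1 : (m : ℝ) ^ (1 - (b + 3)) = ((m : ℝ) ^ (b + 2))⁻¹ := by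
      rw [← Real.rpow_neg hm0.le]
      congr 1
      ring
    rw [e1]
    ring

/-! domination -/

theorem exists_norm_pq_le {s : ℂ} (hs : ‖s‖ < 1) : ∃ C : ℝ, 0 ≤ C ∧ ∀ n : ℕ, 1 ≤ n →
    ‖pq (-s) n‖ ≤ C * ((n : ℝ) + 1) ^ (-(1 + s.re)) := by
  rcases eq_or_ne s 0 with h0 | h0
  · refine ⟨0, le_rfl, fun n hn => ?_⟩
    obtain ⟨k, rfl⟩ : ∃ k, n = k + 1 := ⟨n - 1, by omega⟩
    have : pq (-(0 : ℂ)) (k + 1) = 0 := by
      rw [neg_zero]
      induction k with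
      | zero => simp [pq]
      | succ k ih => rw [pq_succ, ih (by omega), zero_mul]
    rw [h0, this, norm_zero, zero_mul]
  · have h := tendsto_norm_pq (neg_ne_nat h0 hs)
    rw [Complex.neg_re, sub_neg_eq_add] at h
    obtain ⟨C, hC, h1⟩ := le_of_tendsto_pow h
    exact ⟨C, hC, fun n _ => h1 n⟩

theorem rpow_le_add_one {x t a : ℝ} (hx : 0 < x) (hxt : x ≤ t) (ht : t ≤ 1) :
    t ^ a ≤ x ^ a + 1 := by
  have h0 : 0 < t := hx.trans_le hxt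
  have h1 := Real.rpow_nonneg hx.le a
  rcases le_total a 0 with ha | ha
  · have := Real.rpow_le_rpow_of_nonpos hx hxt ha
    linarith only [this]
  · have := Real.rpow_le_one h0.le ht ha
    linarith only [h1, this]

theorem alm_le {s : ℂ} (hs : ‖s‖ < 1) {b : ℝ} (hb : 0 < b) (hσ : 0 < b + 1 - 2 * s.re) :
    ∃ C : ℝ, 0 ≤ C ∧ ∀ m : ℕ, 1 ≤ m → ∀ x ∈ Ioo (0 : ℝ) 1, 0 ≤ alm s b m x ∧
      alm s b m x ≤ C * (((1 - x) ^ (2 * s.re + 1) + 1) * (x ^ (b - 2 * s.re) + 1)) := by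
  obtain ⟨hr1, hr2⟩ := re_bounds hs
  have hz : 0 < 2 + 2 * s.re := by linarith only [hr1]
  obtain ⟨C1, hC1, h1⟩ := le_of_tendsto_pow (tendsto_pq_real hz)
  obtain ⟨C2, hC2, h2⟩ := le_of_tendsto_pow (tendsto_pq_real hσ)
  have hK := KS_pos hs
  refine ⟨KS s * C1 * C2, by positivity, fun m hm x hx => ?_⟩
  have hm0 : (0 : ℝ) < m := by exact_mod_cast hm
  have hx1 : 0 < 1 - x := by linarith only [hx.2]
  have p1 := pq_pos hz (m - 1 - ⌊(m : ℝ) * x⌋₊)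
  have p2 := pq_pos hσ ⌊(m : ℝ) * x⌋₊
  have p3 := kap_ge_one hr1 (sq_nonneg ‖s‖) (m - 1 - ⌊(m : ℝ) * x⌋₊)
  have hmb : (0 : ℝ) < (m : ℝ) ^ (b + 1) := Real.rpow_pos_of_pos hm0 _
  have f1 := h1 (m - 1 - ⌊(m : ℝ) * x⌋₊)
  have f2 := h2 ⌊(m : ℝ) * x⌋₊
  have f3 := kap_le_KS hs (m - 1 - ⌊(m : ℝ) * x⌋₊)
  have i1 := floor_mul_le (m := m) hx.1.le
  have i2 := lt_floor_mul (m := m) (x := x)
  have i3 := floor_lt_m hm hx
  have i4 := cast_sub_floor hm hx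
  have i5 : (⌊(m : ℝ) * x⌋₊ : ℝ) + 1 ≤ m := by exact_mod_cast i3
  have j0 : (0 : ℝ) ≤ ⌊(m : ℝ) * x⌋₊ := Nat.cast_nonneg _
  -- the first factor
  have u1 : (((m - 1 - ⌊(m : ℝ) * x⌋₊ : ℕ) : ℝ) + 1) / m ≤ 1 := by
    rw [div_le_one hm0, i4]
    linarith only []
  have u2 : 1 - x ≤ (((m - 1 - ⌊(m : ℝ) * x⌋₊ : ℕ) : ℝ) + 1) / m := by
    rw [le_div_iff₀ hm0, i4]
    linarith only [i1]
  have u3 := rpow_le_add_one (a := 2 * s.re + 1) hx1 u2 u1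
  have v1 : ((⌊(m : ℝ) * x⌋₊ : ℝ) + 1) / m ≤ 1 := by
    rw [div_le_one hm0]
    exact i5
  have v2 : x ≤ ((⌊(m : ℝ) * x⌋₊ : ℝ) + 1) / m := by
    rw [le_div_iff₀ hm0]
    linarith only [i2]
  have v3 := rpow_le_add_one (a := b - 2 * s.re) hx.1 v2 v1
  have w1 : (0 : ℝ) < ((m - 1 - ⌊(m : ℝ) * x⌋₊ : ℕ) : ℝ) + 1 := by positivity
  have w2 : (0 : ℝ) < (⌊(m : ℝ) * x⌋₊ : ℝ) + 1 := by positivity
  have e1 : -(1 - (2 + 2 * s.re)) = 2 * s.re + 1 := by ring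
  have e2 : -(1 - (b + 1 - 2 * s.re)) = b - 2 * s.re := by ring
  rw [e1] at f1
  rw [e2] at f2
  rw [Real.div_rpow w1.le hm0.le] at u3
  rw [Real.div_rpow w2.le hm0.le] at v3
  have e3 : (m : ℝ) ^ (2 * s.re + 1) * (m : ℝ) ^ (b - 2 * s.re) = (m : ℝ) ^ (b + 1) := by
    rw [← Real.rpow_add hm0]
    congr 1
    ring
  have q1 : (0 : ℝ) < (m : ℝ) ^ (2 * s.re + 1) := Real.rpow_pos_of_pos hm0 _
  have q2 : (0 : ℝ) < (m : ℝ) ^ (b - 2 * s.re) := Real.rpow_pos_of_pos hm0 _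
  have q3 : 0 ≤ (((m - 1 - ⌊(m : ℝ) * x⌋₊ : ℕ) : ℝ) + 1) ^ (2 * s.re + 1) :=
    Real.rpow_nonneg w1.le _
  have q4 : 0 ≤ ((⌊(m : ℝ) * x⌋₊ : ℝ) + 1) ^ (b - 2 * s.re) := Real.rpow_nonneg w2.le _
  have hx2 : 0 ≤ (1 - x) ^ (2 * s.re + 1) := Real.rpow_nonneg hx1.le _
  have hx3 : 0 ≤ x ^ (b - 2 * s.re) := Real.rpow_nonneg hx.1.le _
  refine ⟨?_, ?_⟩
  · simp only [alm, aD]
    positivity
  · simp only [alm, aD]
    calc kap s.re (‖s‖ ^ 2) (m - 1 - ⌊(m : ℝ) * x⌋₊) * pq (2 + 2 * s.re) (m - 1 - ⌊(m : ℝ) * x⌋₊)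
          * pq (b + 1 - 2 * s.re) ⌊(m : ℝ) * x⌋₊ / (m : ℝ) ^ (b + 1)
        ≤ KS s * (C1 * (((m - 1 - ⌊(m : ℝ) * x⌋₊ : ℕ) : ℝ) + 1) ^ (2 * s.re + 1))
          * (C2 * ((⌊(m : ℝ) * x⌋₊ : ℝ) + 1) ^ (b - 2 * s.re)) / (m : ℝ) ^ (b + 1) := by
          gcongr
      _ = KS s * C1 * C2 * (((((m - 1 - ⌊(m : ℝ) * x⌋₊ : ℕ) : ℝ) + 1) ^ (2 * s.re + 1)
            / (m : ℝ) ^ (2 * s.re + 1))
          * (((⌊(m : ℝ) * x⌋₊ : ℝ) + 1) ^ (b - 2 * s.re) / (m : ℝ) ^ (b - 2 * s.re))) := by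
          rw [← e3]
          field_simp
      _ ≤ _ := by gcongr

theorem bem_le {s : ℂ} (hs : ‖s‖ < 1) {b : ℝ} (hb : 0 < b) (hσ : 0 < b + 1 - 2 * s.re) :
    ∃ C : ℝ, 0 ≤ C ∧ ∀ m : ℕ, 1 ≤ m → ∀ y : ℝ, 0 < y → 0 ≤ bem s b m y ∧
      bem s b m y ≤ C * ((y + 1 / m) * (1 + y) ^ (-b - 2)) := by
  obtain ⟨C1, hC1, h1⟩ := exists_norm_pq_le hs
  obtain ⟨C2, hC2, h2⟩ := le_of_tendsto_pow (p := (b + 1 - 2 * s.re) - 1)
    (tendsto_pq_real_inv hσ)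
  refine ⟨‖1 + s‖ ^ 2 * C1 ^ 2 * C2, by positivity, fun m hm y hy => ?_⟩
  have hm0 : (0 : ℝ) < m := by exact_mod_cast hm
  have hy1 : 0 < 1 + y := by linarith only [hy]
  have p2 := pq_pos hσ (m + 1 + ⌊(m : ℝ) * y⌋₊)
  have f1 := h1 (m + 1 + ⌊(m : ℝ) * y⌋₊) (by omega)
  have f2 := h2 (m + 1 + ⌊(m : ℝ) * y⌋₊)
  have i1 := floor_mul_le (m := m) hy.le
  have i2 := lt_floor_mul (m := m) (x := y)
  have j0 : (0 : ℝ) ≤ ⌊(m : ℝ) * y⌋₊ := Nat.cast_nonneg _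
  have hmb : (0 : ℝ) < (m : ℝ) ^ (b + 1) := Real.rpow_pos_of_pos hm0 _
  have w0 : (0 : ℝ) < ((m + 1 + ⌊(m : ℝ) * y⌋₊ : ℕ) : ℝ) + 1 := by positivity
  have u1 : 1 + y ≤ (((m + 1 + ⌊(m : ℝ) * y⌋₊ : ℕ) : ℝ) + 1) / m := by
    rw [le_div_iff₀ hm0]
    push_cast
    linarith only [i2]
  have u2 : ((⌊(m : ℝ) * y⌋₊ : ℝ) + 1) / m ≤ y + 1 / m := by
    rw [add_div]
    have : (⌊(m : ℝ) * y⌋₊ : ℝ) / m ≤ y := by
      rw [div_le_iff₀ hm0]
      linarith only [i1]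
    linarith only [this]
  have u3 : ((((m + 1 + ⌊(m : ℝ) * y⌋₊ : ℕ) : ℝ) + 1) / m) ^ (-b - 2) ≤ (1 + y) ^ (-b - 2) :=
    Real.rpow_le_rpow_of_nonpos hy1 u1 (by linarith only [hb])
  rw [Real.div_rpow w0.le hm0.le] at u3
  have q0 : (0 : ℝ) < (m : ℝ) ^ (-b - 2) := Real.rpow_pos_of_pos hm0 _
  have q1 : 0 ≤ (1 + y) ^ (-b - 2) := Real.rpow_nonneg hy1.le _
  have q2 : 0 ≤ (((m + 1 + ⌊(m : ℝ) * y⌋₊ : ℕ) : ℝ) + 1) ^ (-(1 + s.re)) :=
    Real.rpow_nonneg w0.le _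
  have q3 : 0 ≤ (((m + 1 + ⌊(m : ℝ) * y⌋₊ : ℕ) : ℝ) + 1) ^ (-(b + 1 - 2 * s.re - 1)) :=
    Real.rpow_nonneg w0.le _
  refine ⟨?_, ?_⟩
  · simp only [bem, bD]
    positivity
  · simp only [bem, bD]
    have e1 : (m : ℝ) ^ (b + 1) = 1 / ((m : ℝ) * (m : ℝ) ^ (-b - 2)) := by
      have h3 : (m : ℝ) * (m : ℝ) ^ (-b - 2) = (m : ℝ) ^ (-(b + 1)) := by
        have h4 : -(b + 1) = 1 + (-b - 2) := by ring
        rw [h4, Real.rpow_add hm0, Real.rpow_one]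
      rw [h3, Real.rpow_neg hm0.le, one_div, inv_inv]
    have e2 : ((((m + 1 + ⌊(m : ℝ) * y⌋₊ : ℕ) : ℝ) + 1) ^ (-(1 + s.re))) ^ 2
        * (((m + 1 + ⌊(m : ℝ) * y⌋₊ : ℕ) : ℝ) + 1) ^ (-(b + 1 - 2 * s.re - 1))
        = (((m + 1 + ⌊(m : ℝ) * y⌋₊ : ℕ) : ℝ) + 1) ^ (-b - 2) := by
      rw [← Real.rpow_natCast, ← Real.rpow_mul w0.le, ← Real.rpow_add w0]
      congr 1
      push_cast
      ring
    rw [norm_mul, mul_pow, div_eq_mul_inv]
    calc ((⌊(m : ℝ) * y⌋₊ : ℝ) + 1) * (‖1 + s‖ ^ 2 * ‖pq (-s) (m + 1 + ⌊(m : ℝ) * y⌋₊)‖ ^ 2)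
          * (pq (b + 1 - 2 * s.re) (m + 1 + ⌊(m : ℝ) * y⌋₊))⁻¹ * (m : ℝ) ^ (b + 1)
        ≤ ((⌊(m : ℝ) * y⌋₊ : ℝ) + 1) * (‖1 + s‖ ^ 2
            * (C1 * (((m + 1 + ⌊(m : ℝ) * y⌋₊ : ℕ) : ℝ) + 1) ^ (-(1 + s.re))) ^ 2)
          * (C2 * (((m + 1 + ⌊(m : ℝ) * y⌋₊ : ℕ) : ℝ) + 1) ^ (-(b + 1 - 2 * s.re - 1)))
          * (m : ℝ) ^ (b + 1) := by gcongr
      _ = ‖1 + s‖ ^ 2 * C1 ^ 2 * C2 * (((⌊(m : ℝ) * y⌋₊ : ℝ) + 1) / m
          * ((((m + 1 + ⌊(m : ℝ) * y⌋₊ : ℕ) : ℝ) + 1) ^ (-b - 2) / (m : ℝ) ^ (-b - 2))) := by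
          rw [← e2, e1]
          ring
      _ ≤ _ := by gcongr

theorem kD_le {s : ℂ} (hs : ‖s‖ < 1) : ∃ C : ℝ, 0 ≤ C ∧ ∀ m : ℕ, 1 ≤ m → ∀ x y : ℝ, 0 < x →
    0 < y → ‖kD s m ⌊(m : ℝ) * x⌋₊ ⌊(m : ℝ) * y⌋₊‖ ≤ C / (x + y + 1 / m) := by
  have h1 : 0 < 1 - ‖s‖ := by linarith
  refine ⟨3 / (1 - ‖s‖), by positivity, fun m hm x y hx hy => ?_⟩
  have hm0 : (0 : ℝ) < m := by exact_mod_cast hm
  have i1 := lt_floor_mul (m := m) (x := x)
  have i2 := lt_floor_mul (m := m) (x := y)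
  have j1 : (0 : ℝ) ≤ ⌊(m : ℝ) * x⌋₊ := Nat.cast_nonneg _
  have j2 : (0 : ℝ) ≤ ⌊(m : ℝ) * y⌋₊ := Nat.cast_nonneg _
  generalize ⌊(m : ℝ) * x⌋₊ = i at *
  generalize ⌊(m : ℝ) * y⌋₊ = j at *
  have h2 : (1 - ‖s‖) * ((j : ℝ) + 1 + i) ≤ ‖((j + 1 + i : ℕ) : ℂ) - s‖ := by
    have h3 := norm_sub_norm_le (((j + 1 + i : ℕ) : ℂ)) s
    rw [Complex.norm_natCast] at h3
    push_cast at h3 ⊢
    have h4 : 0 ≤ ‖s‖ := norm_nonneg s
    nlinarith only [h3, h4]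
  have h5 : 0 < (1 - ‖s‖) * ((j : ℝ) + 1 + i) := by positivity
  have h6 : 0 < x + y + 1 / m := by positivity
  unfold kD
  rw [norm_div, Complex.norm_natCast, div_div, div_le_div_iff₀ (h5.trans_le h2) (by positivity)]
  have h7 : (m : ℝ) * (x + y + 1 / m) = m * x + m * y + 1 := by field_simp
  calc (m : ℝ) * ((1 - ‖s‖) * (x + y + 1 / m))
      = (1 - ‖s‖) * (m * x + m * y + 1) := by rw [← h7]; ring
    _ ≤ (1 - ‖s‖) * (3 * ((j : ℝ) + 1 + i)) := by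
        apply mul_le_mul_of_nonneg_left _ h1.le
        linarith only [i1, i2]
    _ = 3 * ((1 - ‖s‖) * ((j : ℝ) + 1 + i)) := by ring
    _ ≤ _ := by
        apply mul_le_mul_of_nonneg_left h2 (by norm_num)

theorem kD_tendsto {s : ℂ} {x y : ℝ} (hx : 0 < x) (hy : 0 < y) :
    Tendsto (fun m : ℕ => kD s m ⌊(m : ℝ) * x⌋₊ ⌊(m : ℝ) * y⌋₊) atTop
      (𝓝 ((1 / (x + y) : ℝ) : ℂ)) := by
  have h1 : Tendsto (fun m : ℕ => (((⌊(m : ℝ) * y⌋₊ : ℝ) + 1) / m + (⌊(m : ℝ) * x⌋₊ : ℝ) / m))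
      atTop (𝓝 (y + x)) := (tendsto_floor_one hy.le).add (tendsto_floor hx.le)
  have h2 : Tendsto (fun m : ℕ => ((((⌊(m : ℝ) * y⌋₊ : ℝ) + 1) / m
      + (⌊(m : ℝ) * x⌋₊ : ℝ) / m : ℝ) : ℂ) - s / m) atTop (𝓝 (((y + x : ℝ) : ℂ) - 0)) :=
    ((Complex.continuous_ofReal.tendsto _).comp h1).sub (tendsto_const_div_atTop_nhds_zero_nat s)
  rw [sub_zero] at h2
  have h3 : ((y + x : ℝ) : ℂ) ≠ 0 := by
    have : y + x ≠ 0 := by positivity
    exact_mod_cast this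
  have h4 := h2.inv₀ h3
  have e : (((y + x : ℝ) : ℂ))⁻¹ = ((1 / (x + y) : ℝ) : ℂ) := by
    rw [add_comm y x, one_div, Complex.ofReal_inv]
  rw [e] at h4
  refine h4.congr' ?_
  filter_upwards [eventually_gt_atTop 0] with m hm
  have hm0 : (m : ℂ) ≠ 0 := by
    have : m ≠ 0 := by omega
    exact_mod_cast this
  unfold kD
  rw [← inv_div]
  congr 1
  push_cast
  field_simp

theorem XD_tendsto {s : ℂ} (n : ℕ) {x : ℝ} (hx : x ∈ Ioo (0 : ℝ) 1) :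
    Tendsto (fun m : ℕ => XD s m n ⌊(m : ℝ) * x⌋₊) atTop (𝓝 (((1 - x) ^ n : ℝ) : ℂ)) := by
  have h1 : ∀ k ∈ Finset.range n, Tendsto (fun m : ℕ => (s + 1 + k
      + ((m - ⌊(m : ℝ) * x⌋₊ : ℕ) : ℂ)) / m) atTop (𝓝 (((1 - x : ℝ)) : ℂ)) := by
    intro k _
    have h2 : Tendsto (fun m : ℕ => (s + k) / (m : ℂ)
        + (((((m - 1 - ⌊(m : ℝ) * x⌋₊ : ℕ) : ℝ) + 1) / m : ℝ) : ℂ) + 1 / (m : ℂ))
        atTop (𝓝 (0 + ((1 - x : ℝ) : ℂ) + 0)) :=
      ((tendsto_const_div_atTop_nhds_zero_nat (s + k)).add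
        ((Complex.continuous_ofReal.tendsto _).comp (tendsto_co_floor hx))).add
        (tendsto_const_div_atTop_nhds_zero_nat (1 : ℂ))
    rw [zero_add, add_zero] at h2
    refine h2.congr' ?_
    filter_upwards [eventually_ge_atTop 1] with m hm
    have hm0 : (m : ℂ) ≠ 0 := by
      have : m ≠ 0 := by omega
      exact_mod_cast this
    have h3 := floor_lt_m hm hx
    have h4 : m - ⌊(m : ℝ) * x⌋₊ = m - 1 - ⌊(m : ℝ) * x⌋₊ + 1 := by omega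
    rw [h4]
    push_cast
    field_simp
    ring
  have h5 := tendsto_finset_prod _ h1
  rw [Finset.prod_const, Finset.card_range, ← Complex.ofReal_pow] at h5
  refine h5.congr fun m => ?_
  unfold XD
  rw [Finset.prod_div_distrib, Finset.prod_const, Finset.card_range]

theorem XD_le (n : ℕ) : ∃ C : ℝ, 0 ≤ C ∧ ∀ s : ℂ, ‖s‖ < 1 → ∀ m : ℕ, 1 ≤ m → ∀ i < m,
    ‖XD s m n i‖ ≤ C := by
  refine ⟨∏ k ∈ Finset.range n, (3 + (k : ℝ)), Finset.prod_nonneg fun k _ => by positivity,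
    fun s hs m hm i hi => ?_⟩
  have hm0 : (0 : ℝ) < m := by exact_mod_cast hm
  have hm1 : (1 : ℝ) ≤ m := by exact_mod_cast hm
  unfold XD
  rw [norm_div, norm_pow, Complex.norm_natCast, div_le_iff₀ (by positivity), norm_prod]
  have e : (m : ℝ) ^ n = ∏ k ∈ Finset.range n, (m : ℝ) := by
    rw [Finset.prod_const, Finset.card_range]
  rw [e, ← Finset.prod_mul_distrib]
  apply Finset.prod_le_prod
  · intro k _
    exact norm_nonneg _
  · intro k _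
    have h1 : ‖s + 1 + k + ((m - i : ℕ) : ℂ)‖ ≤ ‖s‖ + 1 + k + ((m - i : ℕ) : ℝ) := by
      refine (norm_add_le _ _).trans ?_
      rw [Complex.norm_natCast]
      refine add_le_add_left ?_ _ |>.trans le_rfl
      refine (norm_add_le _ _).trans ?_
      rw [Complex.norm_natCast]
      refine add_le_add_left ?_ _ |>.trans le_rfl
      refine (norm_add_le _ _).trans ?_
      rw [norm_one]
    have h2 : ((m - i : ℕ) : ℝ) ≤ m := by
      exact_mod_cast Nat.sub_le m i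
    have h3 : (0 : ℝ) ≤ k := Nat.cast_nonneg k
    nlinarith only [hs, hm1, h1, h2]

end Pool.Agent.M16.Helper24.HR2
end

/- Helper94.T.Helper24.HR2.LimX -/
section
/-!
MP_16b0ee, project HR2, module 6c: limits of the mixed discrete sums by dominated convergence.
The sums over `j` (over `i < m`) are integrals of step functions over `(0, ∞)` (over `(0, 1)`).
-/

set_option autoImplicit false

open MeasureTheory Set Metric Filter Topology
open scoped Real ComplexConjugate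

namespace Pool.Agent.M16.Helper24.HR2

open Pool.Agent.M16.Helper22.Half
open Pool.Agent.M16.Helper22.Marshall (coeff SepHol LogPhi dcoeff GLe)
open Pool.Agent.M16.Helper39.Area (Ext phi)
open Pool.Agent.M16.Helper39.MH

namespace LimX

/-! step functions -/

theorem floor_meas (m : ℕ) : Measurable (fun y : ℝ => ⌊(m : ℝ) * y⌋₊) :=
  Nat.measurable_floor.comp (measurable_const_mul _)

theorem step_meas (m : ℕ) (f : ℕ → ℂ) : Measurable (fun x : ℝ => f ⌊(m : ℝ) * x⌋₊) :=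
  measurable_from_nat.comp (floor_meas m)

theorem map_floor {m : ℕ} (hm : 1 ≤ m) :
    Measure.map (fun y : ℝ => ⌊(m : ℝ) * y⌋₊) (volume.restrict (Ioi (0 : ℝ)))
      = ENNReal.ofReal (1 / m) • Measure.count := by
  have hm0 : (0 : ℝ) < m := by exact_mod_cast hm
  apply Measure.ext_of_singleton
  intro j
  rw [Measure.map_apply (floor_meas m) (measurableSet_singleton j),
    Measure.restrict_apply ((floor_meas m) (measurableSet_singleton j)),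
    Measure.smul_apply, Measure.count_singleton, smul_eq_mul, mul_one]
  rcases Nat.eq_zero_or_pos j with hj | hj
  · have h : (fun y : ℝ => ⌊(m : ℝ) * y⌋₊) ⁻¹' {j} ∩ Ioi 0 = Ioo 0 (1 / (m : ℝ)) := by
      ext y
      simp only [mem_inter_iff, mem_preimage, mem_singleton_iff, mem_Ioi, mem_Ioo]
      rw [hj, Nat.floor_eq_zero, lt_div_iff₀ hm0, mul_comm y]
      tauto
    rw [h, Real.volume_Ioo, sub_zero]
  · have h : (fun y : ℝ => ⌊(m : ℝ) * y⌋₊) ⁻¹' {j} ∩ Ioi 0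
        = Ico ((j : ℝ) / m) (((j : ℝ) + 1) / m) := by
      ext y
      simp only [mem_inter_iff, mem_preimage, mem_singleton_iff, mem_Ioi, mem_Ico]
      rw [Nat.floor_eq_iff' (by omega), lt_div_iff₀ hm0, div_le_iff₀ hm0, mul_comm y]
      constructor
      · rintro ⟨h1, _⟩
        exact h1
      · intro h1
        refine ⟨h1, ?_⟩
        have hj0 : (0 : ℝ) < j := by exact_mod_cast hj
        by_contra h2
        have h3 : (m : ℝ) * y ≤ 0 := mul_nonpos_of_nonneg_of_nonpos hm0.le (not_lt.mp h2)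
        linarith only [h1, hj0, h3]
    rw [h, Real.volume_Ico]
    congr 1
    rw [← sub_div, add_sub_cancel_left]

theorem step_int {m : ℕ} (hm : 1 ≤ m) (f : ℕ → ℂ) :
    IntegrableOn (fun y : ℝ => f ⌊(m : ℝ) * y⌋₊) (Ioi 0) ↔ Summable (fun j => ‖f j‖) := by
  have hm0 : (0 : ℝ) < m := by exact_mod_cast hm
  have h1 : Integrable f (Measure.map (fun y : ℝ => ⌊(m : ℝ) * y⌋₊)
      (volume.restrict (Ioi (0 : ℝ)))) ↔
      Integrable (f ∘ (fun y : ℝ => ⌊(m : ℝ) * y⌋₊)) (volume.restrict (Ioi (0 : ℝ))) :=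
    integrable_map_measure (measurable_from_nat.aestronglyMeasurable) (floor_meas m).aemeasurable
  rw [IntegrableOn, ← integrable_count_iff]
  have h2 : (fun y : ℝ => f ⌊(m : ℝ) * y⌋₊) = f ∘ (fun y : ℝ => ⌊(m : ℝ) * y⌋₊) := rfl
  rw [h2, ← h1, map_floor hm]
  apply integrable_smul_measure
  · simp only [ne_eq, ENNReal.ofReal_eq_zero, not_le]
    positivity
  · exact ENNReal.ofReal_ne_top

theorem step_eq {m : ℕ} (hm : 1 ≤ m) (f : ℕ → ℂ) (hf : Summable (fun j => ‖f j‖)) :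
    ∫ y in Ioi (0 : ℝ), f ⌊(m : ℝ) * y⌋₊ = (1 / (m : ℂ)) * ∑' j, f j := by
  have hm0 : (0 : ℝ) < m := by exact_mod_cast hm
  have h1 : ∫ k, f k ∂(Measure.map (fun y : ℝ => ⌊(m : ℝ) * y⌋₊)
      (volume.restrict (Ioi (0 : ℝ)))) = ∫ y in Ioi (0 : ℝ), f ⌊(m : ℝ) * y⌋₊ :=
    integral_map (floor_meas m).aemeasurable (measurable_from_nat.aestronglyMeasurable)
  rw [← h1, map_floor hm, integral_smul_measure, ENNReal.toReal_ofReal (by positivity),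
    integral_countable (integrable_count_iff.mpr hf)]
  simp only [count_real_singleton, one_smul]
  rw [Complex.real_smul]
  push_cast
  rfl

theorem step_fin {m : ℕ} (hm : 1 ≤ m) (f : ℕ → ℂ) :
    ∫ x in Ioo (0 : ℝ) 1, f ⌊(m : ℝ) * x⌋₊ = (1 / (m : ℂ)) * ∑ i ∈ Finset.range m, f i := by
  have hm0 : (0 : ℝ) < m := by exact_mod_cast hm
  have hsum : Summable (fun j => ‖if j < m then f j else 0‖) := by
    apply summable_of_ne_finset_zero (s := Finset.range m)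
    intro j hj
    rw [Finset.mem_range] at hj
    rw [if_neg hj, norm_zero]
  have h1 := step_eq hm (fun j => if j < m then f j else 0) hsum
  rw [tsum_eq_sum (s := Finset.range m)] at h1
  · have h2 : ∑ i ∈ Finset.range m, (if i < m then f i else 0) = ∑ i ∈ Finset.range m, f i := by
      apply Finset.sum_congr rfl
      intro i hi
      rw [Finset.mem_range] at hi
      rw [if_pos hi]
    rw [h2] at h1
    rw [← h1]
    have h3 : ∀ y ∈ Ioi (0 : ℝ), (if ⌊(m : ℝ) * y⌋₊ < m then f ⌊(m : ℝ) * y⌋₊ else 0)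
        = (Iio (1 : ℝ)).indicator (fun y => f ⌊(m : ℝ) * y⌋₊) y := by
      intro y hy
      have h4 : ⌊(m : ℝ) * y⌋₊ < m ↔ y < 1 := by
        rw [Nat.floor_lt' (by omega)]
        constructor
        · intro h
          by_contra h5
          nlinarith only [h, h5]
        · intro h
          nlinarith only [hm0, h]
      by_cases h6 : y < 1
      · rw [if_pos (h4.mpr h6), indicator_of_mem (by exact h6)]
      · rw [if_neg (fun h => h6 (h4.mp h)), indicator_of_notMem (by exact h6)]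
    rw [setIntegral_congr_fun measurableSet_Ioi h3, setIntegral_indicator measurableSet_Iio,
      Ioi_inter_Iio]
  · intro j hj
    rw [Finset.mem_range] at hj
    rw [if_neg hj]

/-! the kernel -/

/-- the scaled inner sums -/
noncomputable def psi (s : ℂ) (b : ℝ) (D : ℕ) (p : ℕ → ℕ → ℝ) (l m i : ℕ) : ℂ :=
  (((m : ℝ) ^ b : ℝ) : ℂ) * ∑' j, (bD s b m j : ℂ) * (YD m j : ℂ) ^ l * rD s D p m i j

theorem YD_nonneg (m j : ℕ) : 0 ≤ YD m j := by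
  unfold YD
  positivity

theorem YD_le_one (m j : ℕ) : YD m j ≤ 1 := by
  unfold YD
  rw [div_le_one (by positivity)]
  have : (0 : ℝ) ≤ j := Nat.cast_nonneg j
  linarith

theorem YD_floor_le {m : ℕ} (hm : 1 ≤ m) {y : ℝ} (hy : 0 < y) :
    YD m ⌊(m : ℝ) * y⌋₊ ≤ 1 / (1 + y) := by
  have hm0 : (0 : ℝ) < m := by exact_mod_cast hm
  have h := lt_floor_mul (m := m) (x := y)
  have h0 : (0 : ℝ) ≤ (⌊(m : ℝ) * y⌋₊ : ℝ) := Nat.cast_nonneg _
  unfold YD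
  rw [div_le_div_iff₀ (by linarith only []) (by linarith only [hy])]
  linarith only [h]

theorem YD_tendsto {y : ℝ} (hy : 0 < y) :
    Tendsto (fun m : ℕ => YD m ⌊(m : ℝ) * y⌋₊) atTop (𝓝 (1 / (1 + y))) := by
  have h1 : Tendsto (fun m : ℕ => 1 + ((⌊(m : ℝ) * y⌋₊ : ℝ) + 1) / m) atTop (𝓝 (1 + y)) :=
    tendsto_const_nhds.add (tendsto_floor_one hy.le)
  have h2 := h1.inv₀ (by positivity)
  rw [← one_div] at h2
  refine h2.congr' ?_
  filter_upwards [eventually_gt_atTop 0] with m hm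
  have hm0 : (0 : ℝ) < m := by exact_mod_cast hm
  unfold YD
  rw [← inv_div]
  field_simp
  ring

theorem rD_le {s : ℂ} (hs : ‖s‖ < 1) (D : ℕ) (p : ℕ → ℕ → ℝ) : ∃ C : ℝ, 0 ≤ C ∧
    ∀ m : ℕ, 1 ≤ m → ∀ x ∈ Ioo (0 : ℝ) 1, ∀ y : ℝ, 0 < y →
      ‖rD s D p m ⌊(m : ℝ) * x⌋₊ ⌊(m : ℝ) * y⌋₊‖ ≤ C * (1 / (x + y + 1 / m) + 1 / (1 + y)) := by
  obtain ⟨C1, hC1, h1⟩ := kD_le hs
  choose CX hCX hX using XD_le
  set C2 : ℝ := ∑ n ∈ Finset.range D, ∑ l ∈ Finset.range D, |p n l| * CX n with hC2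
  have hC20 : 0 ≤ C2 := Finset.sum_nonneg fun n _ => Finset.sum_nonneg fun l _ =>
    mul_nonneg (abs_nonneg _) (hCX n)
  refine ⟨C1 + C2, by positivity, fun m hm x hx y hy => ?_⟩
  have hm0 : (0 : ℝ) < m := by exact_mod_cast hm
  have hy1 : (0 : ℝ) < 1 / (1 + y) := by positivity
  have hx0 := hx.1
  have hxy : (0 : ℝ) < 1 / (x + y + 1 / m) := by positivity
  have hY0 := YD_nonneg m ⌊(m : ℝ) * y⌋₊
  have hY1 := YD_le_one m ⌊(m : ℝ) * y⌋₊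
  have hY2 := YD_floor_le hm hy
  have hk := h1 m hm x y hx0 hy
  have hp : ‖∑ n ∈ Finset.range D, ∑ l ∈ Finset.range D,
      (p n l : ℂ) * XD s m n ⌊(m : ℝ) * x⌋₊ * (YD m ⌊(m : ℝ) * y⌋₊ : ℂ) ^ (l + 1)‖
      ≤ C2 * (1 / (1 + y)) := by
    rw [hC2, Finset.sum_mul]
    refine (norm_sum_le _ _).trans (Finset.sum_le_sum fun n _ => ?_)
    rw [Finset.sum_mul]
    refine (norm_sum_le _ _).trans (Finset.sum_le_sum fun l _ => ?_)
    rw [norm_mul, norm_mul, norm_pow, Complex.norm_real, Complex.norm_real, Real.norm_eq_abs,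
      Real.norm_eq_abs, abs_of_nonneg hY0]
    have hx1 := hX n s hs m hm _ (floor_lt_m hm hx)
    have hpow : YD m ⌊(m : ℝ) * y⌋₊ ^ (l + 1) ≤ 1 / (1 + y) := by
      rw [pow_succ]
      have h3 : YD m ⌊(m : ℝ) * y⌋₊ ^ l ≤ 1 := pow_le_one₀ hY0 hY1
      have h4 : 0 ≤ YD m ⌊(m : ℝ) * y⌋₊ ^ l := pow_nonneg hY0 l
      nlinarith only [hY0, hY2, h3]
    have h5 : 0 ≤ YD m ⌊(m : ℝ) * y⌋₊ ^ (l + 1) := pow_nonneg hY0 _
    exact mul_le_mul (mul_le_mul_of_nonneg_left hx1 (abs_nonneg _)) hpow h5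
      (mul_nonneg (abs_nonneg _) (hCX n))
  unfold rD
  refine (norm_sub_le _ _).trans ?_
  have e : C1 / (x + y + 1 / m) = C1 * (1 / (x + y + 1 / m)) := by ring
  rw [e] at hk
  linarith only [mul_nonneg hC1 hy1.le, mul_nonneg hC20 hxy.le, hk, hp]

theorem rD_tendsto {s : ℂ} (D : ℕ) (p : ℕ → ℕ → ℝ) {x y : ℝ} (hx : x ∈ Ioo (0 : ℝ) 1)
    (hy : 0 < y) : Tendsto (fun m : ℕ => rD s D p m ⌊(m : ℝ) * x⌋₊ ⌊(m : ℝ) * y⌋₊) atTop
      (𝓝 ((RR D p x y : ℝ) : ℂ)) := by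
  have h1 := kD_tendsto (s := s) hx.1 hy
  have h2 : Tendsto (fun m : ℕ => ∑ n ∈ Finset.range D, ∑ l ∈ Finset.range D,
      (p n l : ℂ) * XD s m n ⌊(m : ℝ) * x⌋₊ * (YD m ⌊(m : ℝ) * y⌋₊ : ℂ) ^ (l + 1)) atTop
      (𝓝 (∑ n ∈ Finset.range D, ∑ l ∈ Finset.range D,
        (p n l : ℂ) * (((1 - x) ^ n : ℝ) : ℂ) * ((1 / (1 + y) : ℝ) : ℂ) ^ (l + 1))) := by
    refine tendsto_finsetSum _ fun n _ => tendsto_finsetSum _ fun l _ => ?_
    refine ((tendsto_const_nhds.mul (XD_tendsto n hx))).mul ?_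
    exact ((Complex.continuous_ofReal.tendsto _).comp (YD_tendsto hy)).pow (l + 1)
  have h3 := h1.sub h2
  have e : ((1 / (x + y) : ℝ) : ℂ) - (∑ n ∈ Finset.range D, ∑ l ∈ Finset.range D,
        (p n l : ℂ) * (((1 - x) ^ n : ℝ) : ℂ) * ((1 / (1 + y) : ℝ) : ℂ) ^ (l + 1))
      = ((RR D p x y : ℝ) : ℂ) := by
    unfold RR kp
    push_cast
    rfl
  rw [e] at h3
  exact h3

theorem term_bound {s : ℂ} (hs : ‖s‖ < 1) {b : ℝ} (hb : 0 < b) (hσ : 0 < b + 1 - 2 * s.re)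
    (D : ℕ) (p : ℕ → ℕ → ℝ) (l : ℕ) : ∃ C : ℝ, 0 ≤ C ∧
    ∀ m : ℕ, 1 ≤ m → ∀ x ∈ Ioo (0 : ℝ) 1, ∀ y : ℝ, 0 < y →
      ‖((bem s b m y : ℝ) : ℂ) * (YD m ⌊(m : ℝ) * y⌋₊ : ℂ) ^ l
        * rD s D p m ⌊(m : ℝ) * x⌋₊ ⌊(m : ℝ) * y⌋₊‖ ≤ C * (y + 1) ^ (-b - 2) := by
  obtain ⟨C0, hC0, h0⟩ := bem_le hs hb hσ
  obtain ⟨C1, hC1, h1⟩ := rD_le hs D p
  refine ⟨C0 * C1 * 2, by positivity, fun m hm x hx y hy => ?_⟩
  have hm0 : (0 : ℝ) < m := by exact_mod_cast hm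
  have hm1 : (1 : ℝ) / m ≤ 1 := by
    rw [div_le_one hm0]
    exact_mod_cast hm
  have hY0 := YD_nonneg m ⌊(m : ℝ) * y⌋₊
  have hY1 := YD_le_one m ⌊(m : ℝ) * y⌋₊
  obtain ⟨g0, g1⟩ := h0 m hm y hy
  have g2 := h1 m hm x hx y hy
  have hx0 := hx.1
  rw [norm_mul, norm_mul, norm_pow, Complex.norm_real, Complex.norm_real, Real.norm_eq_abs,
    Real.norm_eq_abs, abs_of_nonneg hY0, abs_of_nonneg g0]
  have hpow : YD m ⌊(m : ℝ) * y⌋₊ ^ l ≤ 1 := pow_le_one₀ hY0 hY1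
  have hW : 0 < (1 + y) ^ (-b - 2) := Real.rpow_pos_of_pos (by linarith only [hy]) _
  have q1 : (y + 1 / m) * (1 / (x + y + 1 / m)) ≤ 1 := by
    rw [mul_one_div, div_le_one (by positivity)]
    linarith only [hx0]
  have q2 : (y + 1 / m) * (1 / (1 + y)) ≤ 1 := by
    rw [mul_one_div, div_le_one (by positivity)]
    linarith only [hm1]
  have hz : 0 ≤ 1 / (x + y + 1 / m) + 1 / (1 + y) := by positivity
  calc bem s b m y * YD m ⌊(m : ℝ) * y⌋₊ ^ l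
        * ‖rD s D p m ⌊(m : ℝ) * x⌋₊ ⌊(m : ℝ) * y⌋₊‖
      ≤ (C0 * ((y + 1 / m) * (1 + y) ^ (-b - 2))) * 1
          * (C1 * (1 / (x + y + 1 / m) + 1 / (1 + y))) := by gcongr
    _ = C0 * C1 * (1 + y) ^ (-b - 2) * ((y + 1 / m) * (1 / (x + y + 1 / m))
          + (y + 1 / m) * (1 / (1 + y))) := by ring
    _ ≤ C0 * C1 * (1 + y) ^ (-b - 2) * (1 + 1) := by gcongr
    _ = _ := by
      rw [add_comm 1 y]
      ring

theorem bound_int {b : ℝ} (hb : 0 < b) : IntegrableOn (fun y : ℝ => (y + 1) ^ (-b - 2)) (Ioi 0) :=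
  integrableOn_add_rpow_Ioi_of_lt (by linarith only [hb]) (by norm_num)

theorem F_int {s : ℂ} (hs : ‖s‖ < 1) {b : ℝ} (hb : 0 < b) (hσ : 0 < b + 1 - 2 * s.re)
    (D : ℕ) (p : ℕ → ℕ → ℝ) (l : ℕ) {m : ℕ} (hm : 1 ≤ m) {x : ℝ} (hx : x ∈ Ioo (0 : ℝ) 1) :
    IntegrableOn (fun y : ℝ => ((bem s b m y : ℝ) : ℂ) * (YD m ⌊(m : ℝ) * y⌋₊ : ℂ) ^ l
        * rD s D p m ⌊(m : ℝ) * x⌋₊ ⌊(m : ℝ) * y⌋₊) (Ioi 0) := by
  obtain ⟨C, hC, h⟩ := term_bound hs hb hσ D p l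
  refine Integrable.mono' ((bound_int hb).const_mul C) ?_ ?_
  · exact (step_meas m (fun j : ℕ => ((bD s b m j * (m : ℝ) ^ (b + 1) : ℝ) : ℂ)
        * (YD m j : ℂ) ^ l * rD s D p m ⌊(m : ℝ) * x⌋₊ j)).aestronglyMeasurable
  · filter_upwards [ae_restrict_mem measurableSet_Ioi] with y hy
    exact h m hm x hx y hy

theorem summable_floor {s : ℂ} (hs : ‖s‖ < 1) {b : ℝ} (hb : 0 < b) (hσ : 0 < b + 1 - 2 * s.re)
    (D : ℕ) (p : ℕ → ℕ → ℝ) (l : ℕ) {m : ℕ} (hm : 1 ≤ m) {x : ℝ} (hx : x ∈ Ioo (0 : ℝ) 1) :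
    Summable (fun j => ‖((bD s b m j * (m : ℝ) ^ (b + 1) : ℝ) : ℂ)
        * (YD m j : ℂ) ^ l * rD s D p m ⌊(m : ℝ) * x⌋₊ j‖) :=
  (step_int hm _).mp (F_int hs hb hσ D p l hm hx)

theorem summable_term {s : ℂ} (hs : ‖s‖ < 1) {b : ℝ} (hb : 0 < b) (hσ : 0 < b + 1 - 2 * s.re)
    (D : ℕ) (p : ℕ → ℕ → ℝ) (l : ℕ) {m i : ℕ} (hi : i < m) :
    Summable (fun j => (bD s b m j : ℂ) * (YD m j : ℂ) ^ l * rD s D p m i j) := by
  have hm : 1 ≤ m := by omega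
  have hm0 : (0 : ℝ) < m := by exact_mod_cast hm
  have hx : ((i : ℝ) + 1 / 2) / m ∈ Ioo (0 : ℝ) 1 := by
    constructor
    · positivity
    · rw [div_lt_one hm0]
      have : (i : ℝ) + 1 ≤ m := by exact_mod_cast hi
      linarith only [this]
  have hf : ⌊(m : ℝ) * (((i : ℝ) + 1 / 2) / m)⌋₊ = i := by
    rw [mul_div_cancel₀ _ hm0.ne', Nat.floor_eq_iff (by positivity)]
    constructor <;> linarith only []
  have h := (summable_floor hs hb hσ D p l hm hx).of_norm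
  rw [hf] at h
  have hc : (((m : ℝ) ^ (b + 1) : ℝ) : ℂ) ≠ 0 := by
    exact_mod_cast (Real.rpow_pos_of_pos hm0 _).ne'
  have h2 := h.mul_left (((m : ℝ) ^ (b + 1) : ℝ) : ℂ)⁻¹
  refine h2.congr fun j => ?_
  push_cast
  field_simp

theorem psi_eq {s : ℂ} (hs : ‖s‖ < 1) {b : ℝ} (hb : 0 < b) (hσ : 0 < b + 1 - 2 * s.re)
    (D : ℕ) (p : ℕ → ℕ → ℝ) (l : ℕ) {m : ℕ} (hm : 1 ≤ m) {x : ℝ} (hx : x ∈ Ioo (0 : ℝ) 1) :
    psi s b D p l m ⌊(m : ℝ) * x⌋₊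
      = ∫ y in Ioi (0 : ℝ), ((bem s b m y : ℝ) : ℂ) * (YD m ⌊(m : ℝ) * y⌋₊ : ℂ) ^ l
        * rD s D p m ⌊(m : ℝ) * x⌋₊ ⌊(m : ℝ) * y⌋₊ := by
  have hm0 : (0 : ℝ) < m := by exact_mod_cast hm
  have hmc : (m : ℂ) ≠ 0 := by
    have : m ≠ 0 := by omega
    exact_mod_cast this
  have h := step_eq hm _ (summable_floor hs hb hσ D p l hm hx)
  unfold bem
  rw [h]
  have e : ∀ j, ((bD s b m j * (m : ℝ) ^ (b + 1) : ℝ) : ℂ)
        * (YD m j : ℂ) ^ l * rD s D p m ⌊(m : ℝ) * x⌋₊ j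
      = (m : ℂ) * (((m : ℝ) ^ b : ℝ) : ℂ) * ((bD s b m j : ℂ) * (YD m j : ℂ) ^ l
        * rD s D p m ⌊(m : ℝ) * x⌋₊ j) := by
    intro j
    rw [Real.rpow_add hm0, Real.rpow_one]
    push_cast
    ring
  rw [tsum_congr e, tsum_mul_left]
  unfold psi
  field_simp

theorem psi_le {s : ℂ} (hs : ‖s‖ < 1) {b : ℝ} (hb : 0 < b) (hσ : 0 < b + 1 - 2 * s.re)
    (D : ℕ) (p : ℕ → ℕ → ℝ) (l : ℕ) : ∃ C : ℝ, 0 ≤ C ∧
    ∀ m : ℕ, 1 ≤ m → ∀ x ∈ Ioo (0 : ℝ) 1, ‖psi s b D p l m ⌊(m : ℝ) * x⌋₊‖ ≤ C := by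
  obtain ⟨C, hC, h⟩ := term_bound hs hb hσ D p l
  have h0 : 0 ≤ ∫ y in Ioi (0 : ℝ), C * (y + 1) ^ (-b - 2) := by
    apply setIntegral_nonneg measurableSet_Ioi
    intro y hy
    have : 0 ≤ (y + 1) ^ (-b - 2) := Real.rpow_nonneg (by linarith only [mem_Ioi.mp hy]) _
    positivity
  refine ⟨_, h0, fun m hm x hx => ?_⟩
  rw [psi_eq hs hb hσ D p l hm hx]
  apply norm_integral_le_of_norm_le ((bound_int hb).const_mul C)
  filter_upwards [ae_restrict_mem measurableSet_Ioi] with y hy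
  exact h m hm x hx y hy

theorem psi_tendsto {s : ℂ} (hs : ‖s‖ < 1) {b : ℝ} (hb : 0 < b)
    (hσ : 0 < b + 1 - 2 * s.re) (D : ℕ) (p : ℕ → ℕ → ℝ) (l : ℕ) {cb : ℝ}
    (hcb : ∀ y : ℝ, 0 < y → Tendsto (fun m : ℕ => bem s b m y) atTop (𝓝 (cb * bet b y)))
    {x : ℝ} (hx : x ∈ Ioo (0 : ℝ) 1) :
    Tendsto (fun m : ℕ => psi s b D p l m ⌊(m : ℝ) * x⌋₊) atTop
      (𝓝 ((cb * rl b D p l x : ℝ) : ℂ)) := by
  obtain ⟨C, hC, h⟩ := term_bound hs hb hσ D p l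
  have key : Tendsto (fun m : ℕ => ∫ y in Ioi (0 : ℝ), ((bem s b m y : ℝ) : ℂ)
        * (YD m ⌊(m : ℝ) * y⌋₊ : ℂ) ^ l * rD s D p m ⌊(m : ℝ) * x⌋₊ ⌊(m : ℝ) * y⌋₊) atTop
      (𝓝 (∫ y in Ioi (0 : ℝ), ((cb * bet b y : ℝ) : ℂ) * ((1 / (1 + y) : ℝ) : ℂ) ^ l
        * ((RR D p x y : ℝ) : ℂ))) := by
    apply tendsto_integral_filter_of_dominated_convergence (fun y => C * (y + 1) ^ (-b - 2))
    · filter_upwards [eventually_ge_atTop 1] with m hm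
      exact (F_int hs hb hσ D p l hm hx).aestronglyMeasurable
    · filter_upwards [eventually_ge_atTop 1] with m hm
      filter_upwards [ae_restrict_mem measurableSet_Ioi] with y hy
      exact h m hm x hx y hy
    · exact (bound_int hb).const_mul C
    · filter_upwards [ae_restrict_mem measurableSet_Ioi] with y hy
      have hy0 : 0 < y := hy
      exact (((Complex.continuous_ofReal.tendsto _).comp (hcb y hy0)).mul
        (((Complex.continuous_ofReal.tendsto _).comp (YD_tendsto hy0)).pow l)).mul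
        (rD_tendsto D p hx hy0)
  have e : ∫ y in Ioi (0 : ℝ), ((cb * bet b y : ℝ) : ℂ) * ((1 / (1 + y) : ℝ) : ℂ) ^ l
        * ((RR D p x y : ℝ) : ℂ) = ((cb * rl b D p l x : ℝ) : ℂ) := by
    unfold rl
    rw [← integral_const_mul, ← integral_complex_ofReal]
    congr 1
    funext y
    push_cast
    ring
  rw [e] at key
  refine key.congr' ?_
  filter_upwards [eventually_ge_atTop 1] with m hm
  exact (psi_eq hs hb hσ D p l hm hx).symm

/-! integrability on `(0,1)` -/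

theorem beta_int {α β : ℝ} (hα : -1 < α) (hβ : -1 < β) :
    IntegrableOn (fun x : ℝ => (1 - x) ^ α * x ^ β) (Ioo 0 1) := by
  have h := Complex.betaIntegral_convergent (u := ((β + 1 : ℝ) : ℂ)) (v := ((α + 1 : ℝ) : ℂ))
    (by rw [Complex.ofReal_re]; linarith) (by rw [Complex.ofReal_re]; linarith)
  rw [intervalIntegrable_iff_integrableOn_Ioo_of_le (by norm_num)] at h
  have h2 : IntegrableOn (fun x : ℝ => ‖(x : ℂ) ^ (((β + 1 : ℝ) : ℂ) - 1)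
      * (1 - (x : ℂ)) ^ (((α + 1 : ℝ) : ℂ) - 1)‖) (Ioo 0 1) := h.norm
  refine h2.congr_fun (fun x hx => ?_) measurableSet_Ioo
  have hx0 : 0 < x := hx.1
  have hx1 : 0 < 1 - x := by linarith only [hx.2]
  have e : (1 - (x : ℂ)) = ((1 - x : ℝ) : ℂ) := by push_cast; rfl
  simp only [norm_mul]
  rw [e, Complex.norm_cpow_eq_rpow_re_of_pos hx0, Complex.norm_cpow_eq_rpow_re_of_pos hx1]
  simp only [Complex.sub_re, Complex.ofReal_re, Complex.one_re, add_sub_cancel_right]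
  ring

theorem alm_bound_int {s : ℂ} (hs : ‖s‖ < 1) {b : ℝ} (hσ : 0 < b + 1 - 2 * s.re) :
    IntegrableOn (fun x : ℝ => ((1 - x) ^ (2 * s.re + 1) + 1) * (x ^ (b - 2 * s.re) + 1))
      (Ioo 0 1) := by
  obtain ⟨hr1, hr2⟩ := re_bounds hs
  have h1 := beta_int (α := 2 * s.re + 1) (β := b - 2 * s.re) (by linarith) (by linarith)
  have h2 := beta_int (α := 2 * s.re + 1) (β := 0) (by linarith) (by norm_num)
  have h3 := beta_int (α := 0) (β := b - 2 * s.re) (by norm_num) (by linarith)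
  have h4 := beta_int (α := 0) (β := 0) (by norm_num) (by norm_num)
  have h5 := ((h1.add h2).add h3).add h4
  refine h5.congr_fun (fun x _ => ?_) measurableSet_Ioo
  simp only [Pi.add_apply, Real.rpow_zero]
  ring

theorem B0_pos {s : ℂ} (hs : ‖s‖ < 1) {b : ℝ} (hb : 0 < b) (hσ : 0 < b + 1 - 2 * s.re) :
    0 < B0 s b := by
  obtain ⟨hr1, hr2⟩ := re_bounds hs
  rw [B0_eq hs hσ]
  have g1 := Real.Gamma_pos_of_pos (by linarith only [hr1] : 0 < 2 + 2 * s.re)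
  have g2 := Real.Gamma_pos_of_pos hσ
  have g3 := Real.Gamma_pos_of_pos (by linarith : 0 < b + 3)
  positivity

end LimX

open LimX

theorem lim_x {s : ℂ} (hs0 : s ≠ 0) (hs : ‖s‖ < 1) {b : ℝ} (hb : 0 < b)
    (hσ : 0 < b + 1 - 2 * s.re) (D : ℕ) (p : ℕ → ℕ → ℝ) (l n : ℕ) :
    (∀ m i, i < m → Summable (fun j => (bD s b m j : ℂ) * (YD m j : ℂ) ^ l * rD s D p m i j)) ∧
    Tendsto (fun m : ℕ => (1 / (m : ℂ) ^ 2) * ∑ i ∈ Finset.range m,
      (aD s b m i : ℂ) * conj (XD s m n i)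
        * ∑' j, (bD s b m j : ℂ) * (YD m j : ℂ) ^ l * rD s D p m i j) atTop
      (𝓝 ((Es s b * xln s b D p l n : ℝ) : ℂ)) := by
  refine ⟨fun m i hi => summable_term hs hb hσ D p l hi, ?_⟩
  obtain ⟨ca, cb, hca, hcb, hcc, ha, hbt, _⟩ := asy_consts hs0 hs hb hσ
  obtain ⟨Ca, hCa, hal⟩ := alm_le hs hb hσ
  obtain ⟨Cp, hCp, hpl⟩ := psi_le hs hb hσ D p l
  obtain ⟨Cx, hCx, hxl⟩ := XD_le n
  have key : Tendsto (fun m : ℕ => ∫ x in Ioo (0 : ℝ) 1, ((alm s b m x : ℝ) : ℂ)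
        * conj (XD s m n ⌊(m : ℝ) * x⌋₊) * psi s b D p l m ⌊(m : ℝ) * x⌋₊) atTop
      (𝓝 (∫ x in Ioo (0 : ℝ) 1, ((ca * alp s b x : ℝ) : ℂ) * conj ((((1 - x) ^ n : ℝ)) : ℂ)
        * ((cb * rl b D p l x : ℝ) : ℂ))) := by
    apply tendsto_integral_filter_of_dominated_convergence
      (fun x => Ca * Cx * Cp * (((1 - x) ^ (2 * s.re + 1) + 1) * (x ^ (b - 2 * s.re) + 1)))
    · filter_upwards with m
      exact (step_meas m (fun i => ((aD s b m i / (m : ℝ) ^ (b + 1) : ℝ) : ℂ)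
        * conj (XD s m n i) * psi s b D p l m i)).aestronglyMeasurable
    · filter_upwards [eventually_ge_atTop 1] with m hm
      filter_upwards [ae_restrict_mem measurableSet_Ioo] with x hx
      obtain ⟨g0, g1⟩ := hal m hm x hx
      have g2 := hpl m hm x hx
      have g3 := hxl s hs m hm _ (floor_lt_m hm hx)
      have g4 : 0 ≤ ((1 - x) ^ (2 * s.re + 1) + 1) * (x ^ (b - 2 * s.re) + 1) := by
        have := Real.rpow_nonneg (by linarith only [hx.2] : 0 ≤ 1 - x) (2 * s.re + 1)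
        have := Real.rpow_nonneg hx.1.le (b - 2 * s.re)
        positivity
      rw [norm_mul, norm_mul, RCLike.norm_conj, Complex.norm_real, Real.norm_eq_abs,
        abs_of_nonneg g0]
      calc alm s b m x * ‖XD s m n ⌊(m : ℝ) * x⌋₊‖ * ‖psi s b D p l m ⌊(m : ℝ) * x⌋₊‖
          ≤ (Ca * (((1 - x) ^ (2 * s.re + 1) + 1) * (x ^ (b - 2 * s.re) + 1))) * Cx * Cp := by
            gcongr
        _ = _ := by ring
    · exact (alm_bound_int hs hσ).const_mul _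
    · filter_upwards [ae_restrict_mem measurableSet_Ioo] with x hx
      exact (((Complex.continuous_ofReal.tendsto _).comp (ha x hx)).mul
        ((Complex.continuous_conj.tendsto _).comp (XD_tendsto n hx))).mul
        (psi_tendsto hs hb hσ D p l hbt hx)
  have e : ∫ x in Ioo (0 : ℝ) 1, ((ca * alp s b x : ℝ) : ℂ) * conj ((((1 - x) ^ n : ℝ)) : ℂ)
        * ((cb * rl b D p l x : ℝ) : ℂ) = ((Es s b * xln s b D p l n : ℝ) : ℂ) := by
    have hB := (B0_pos hs hb hσ).ne'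
    have e1 : Es s b * xln s b D p l n
        = ca * cb * ∫ x in Ioo (0 : ℝ) 1, alp s b x * (1 - x) ^ n * rl b D p l x := by
      unfold Es xln
      rw [hcc]
      have e2 : ∀ x : ℝ, ∫ y in Ioi (0 : ℝ), alp s b x * bet b y * (1 - x) ^ n
          * (1 / (1 + y)) ^ l * RR D p x y = alp s b x * (1 - x) ^ n * rl b D p l x := by
        intro x
        unfold rl
        rw [← integral_const_mul]
        congr 1
        funext y
        ring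
      simp only [e2]
      field_simp
    rw [e1, ← integral_const_mul, ← integral_complex_ofReal]
    congr 1
    funext x
    rw [Complex.conj_ofReal]
    push_cast
    ring
  rw [e] at key
  refine key.congr' ?_
  filter_upwards [eventually_ge_atTop 1] with m hm
  have hm0 : (0 : ℝ) < m := by exact_mod_cast hm
  have hmc : (m : ℂ) ≠ 0 := by
    have : m ≠ 0 := by omega
    exact_mod_cast this
  have hmb : (((m : ℝ) ^ b : ℝ) : ℂ) ≠ 0 := by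
    exact_mod_cast (Real.rpow_pos_of_pos hm0 _).ne'
  have h := step_fin hm (fun i => ((aD s b m i / (m : ℝ) ^ (b + 1) : ℝ) : ℂ)
        * conj (XD s m n i) * psi s b D p l m i)
  unfold alm
  rw [h, Finset.mul_sum, Finset.mul_sum]
  apply Finset.sum_congr rfl
  intro i _
  unfold psi
  rw [Real.rpow_add hm0, Real.rpow_one]
  push_cast
  field_simp

theorem lim_cross {s : ℂ} (hs0 : s ≠ 0) (hs : ‖s‖ < 1) {b : ℝ} (hb : 0 < b)
    (hσ : 0 < b + 1 - 2 * s.re) (D : ℕ) (p : ℕ → ℕ → ℝ) (l k : ℕ) :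
    Tendsto (fun m : ℕ => ((KS s * pq (b + 3) (m - 1) / (m : ℝ) ^ 4 : ℝ) : ℂ)
      * ∑ i ∈ Finset.range m, (aD s b m i : ℂ)
        * ((∑' j, (bD s b m j : ℂ) * (YD m j : ℂ) ^ l * rD s D p m i j)
          * conj (∑' j, (bD s b m j : ℂ) * (YD m j : ℂ) ^ k * rD s D p m i j))) atTop
      (𝓝 ((Es s b ^ 2 / B0 s b
        * ∫ x in Ioo (0 : ℝ) 1, alp s b x * rl b D p l x * rl b D p k x : ℝ) : ℂ)) := by
  obtain ⟨ca, cb, hca, hcb, hcc, ha, hbt, hK⟩ := asy_consts hs0 hs hb hσ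
  obtain ⟨Ca, hCa, hal⟩ := alm_le hs hb hσ
  obtain ⟨Cp, hCp, hpl⟩ := psi_le hs hb hσ D p l
  obtain ⟨Cq, hCq, hql⟩ := psi_le hs hb hσ D p k
  have key : Tendsto (fun m : ℕ => ∫ x in Ioo (0 : ℝ) 1, ((alm s b m x : ℝ) : ℂ)
        * (psi s b D p l m ⌊(m : ℝ) * x⌋₊ * conj (psi s b D p k m ⌊(m : ℝ) * x⌋₊))) atTop
      (𝓝 (∫ x in Ioo (0 : ℝ) 1, ((ca * alp s b x : ℝ) : ℂ)
        * (((cb * rl b D p l x : ℝ) : ℂ) * conj ((cb * rl b D p k x : ℝ) : ℂ)))) := by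
    apply tendsto_integral_filter_of_dominated_convergence
      (fun x => Ca * Cp * Cq * (((1 - x) ^ (2 * s.re + 1) + 1) * (x ^ (b - 2 * s.re) + 1)))
    · filter_upwards with m
      exact (step_meas m (fun i => ((aD s b m i / (m : ℝ) ^ (b + 1) : ℝ) : ℂ)
        * (psi s b D p l m i * conj (psi s b D p k m i)))).aestronglyMeasurable
    · filter_upwards [eventually_ge_atTop 1] with m hm
      filter_upwards [ae_restrict_mem measurableSet_Ioo] with x hx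
      obtain ⟨g0, g1⟩ := hal m hm x hx
      have g2 := hpl m hm x hx
      have g3 := hql m hm x hx
      have g4 : 0 ≤ ((1 - x) ^ (2 * s.re + 1) + 1) * (x ^ (b - 2 * s.re) + 1) := by
        have := Real.rpow_nonneg (by linarith only [hx.2] : 0 ≤ 1 - x) (2 * s.re + 1)
        have := Real.rpow_nonneg hx.1.le (b - 2 * s.re)
        positivity
      rw [norm_mul, norm_mul, RCLike.norm_conj, Complex.norm_real, Real.norm_eq_abs,
        abs_of_nonneg g0]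
      calc alm s b m x * (‖psi s b D p l m ⌊(m : ℝ) * x⌋₊‖ * ‖psi s b D p k m ⌊(m : ℝ) * x⌋₊‖)
          ≤ (Ca * (((1 - x) ^ (2 * s.re + 1) + 1) * (x ^ (b - 2 * s.re) + 1))) * (Cp * Cq) := by
            gcongr
        _ = _ := by ring
    · exact (alm_bound_int hs hσ).const_mul _
    · filter_upwards [ae_restrict_mem measurableSet_Ioo] with x hx
      exact ((Complex.continuous_ofReal.tendsto _).comp (ha x hx)).mul
        ((psi_tendsto hs hb hσ D p l hbt hx).mul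
          ((Complex.continuous_conj.tendsto _).comp (psi_tendsto hs hb hσ D p k hbt hx)))
  have key2 := ((Complex.continuous_ofReal.tendsto _).comp hK).mul key
  have e : ((ca * B0 s b : ℝ) : ℂ) * ∫ x in Ioo (0 : ℝ) 1, ((ca * alp s b x : ℝ) : ℂ)
        * (((cb * rl b D p l x : ℝ) : ℂ) * conj ((cb * rl b D p k x : ℝ) : ℂ))
      = ((Es s b ^ 2 / B0 s b
        * ∫ x in Ioo (0 : ℝ) 1, alp s b x * rl b D p l x * rl b D p k x : ℝ) : ℂ) := by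
    have hB := (B0_pos hs hb hσ).ne'
    have e1 : ∫ x in Ioo (0 : ℝ) 1, ((ca * alp s b x : ℝ) : ℂ)
        * (((cb * rl b D p l x : ℝ) : ℂ) * conj ((cb * rl b D p k x : ℝ) : ℂ))
        = ((ca * cb ^ 2 * ∫ x in Ioo (0 : ℝ) 1, alp s b x * rl b D p l x * rl b D p k x : ℝ)
          : ℂ) := by
      rw [← integral_const_mul, ← integral_complex_ofReal]
      congr 1
      funext x
      rw [Complex.conj_ofReal]
      push_cast
      ring
    rw [e1, ← Complex.ofReal_mul]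
    congr 1
    unfold Es
    rw [← hcc]
    field_simp
  rw [e] at key2
  refine key2.congr' ?_
  filter_upwards [eventually_ge_atTop 1] with m hm
  have hm0 : (0 : ℝ) < m := by exact_mod_cast hm
  have hmc : (m : ℂ) ≠ 0 := by
    have : m ≠ 0 := by omega
    exact_mod_cast this
  have hmb : (((m : ℝ) ^ b : ℝ) : ℂ) ≠ 0 := by
    exact_mod_cast (Real.rpow_pos_of_pos hm0 _).ne'
  have h := step_fin hm (fun i => ((aD s b m i / (m : ℝ) ^ (b + 1) : ℝ) : ℂ)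
        * (psi s b D p l m i * conj (psi s b D p k m i)))
  unfold alm
  simp only [Function.comp_apply]
  rw [h, Finset.mul_sum, Finset.mul_sum, Finset.mul_sum]
  apply Finset.sum_congr rfl
  intro i _
  unfold psi
  have e2 : (m : ℝ) ^ (b + 2) = (m : ℝ) ^ b * (m : ℝ) ^ 2 := by
    rw [Real.rpow_add hm0, Real.rpow_two]
  rw [e2, Real.rpow_add hm0, Real.rpow_one, map_mul, Complex.conj_ofReal]
  push_cast
  field_simp

end Pool.Agent.M16.Helper24.HR2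
end

/- Helper94.T.Helper39.MH.Bounds -/
section
/-!
MP_16b0ee, project MH, module MH-7: bounds for the jets and for `exp (-H)`, uniform in the class.
-/

set_option autoImplicit false

open MeasureTheory Set Metric Filter Topology
open scoped Real ComplexConjugate

namespace Pool.Agent.M16.Helper39.MH

open Pool.Agent.M16.Helper22.Marshall (coeff SepHol LogPhi dcoeff GLe)
open Pool.Agent.M16.Helper39.Area (Ext phi)

namespace Bounds

theorem one_sub_sq_pos {z : ℂ} (hz : z ∈ ball (0 : ℂ) 1) : 0 < 1 - ‖z‖ ^ 2 := by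
  have h1 : ‖z‖ < 1 := mem_ball_zero_iff.mp hz
  have h0 := norm_nonneg z
  nlinarith only [h1, h0]

theorem th_diff {F : ℂ → ℂ} (hF : DifferentiableOn ℂ F (ball 0 1)) :
    DifferentiableOn ℂ (th F) (ball 0 1) := by
  have h : DifferentiableOn ℂ (fun z : ℂ => z * deriv F z) (ball 0 1) :=
    differentiableOn_id.mul (hF.deriv isOpen_ball)
  exact h

/-- the Euler operator raises the order of growth by one -/
theorem th_bound {F : ℂ → ℂ} (hF : DifferentiableOn ℂ F (ball 0 1)) {w : ℕ} {C : ℝ}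
    (hC : ∀ z ∈ ball (0 : ℂ) 1, (1 - ‖z‖ ^ 2) ^ w * ‖F z‖ ≤ C) {z : ℂ}
    (hz : z ∈ ball (0 : ℂ) 1) :
    (1 - ‖z‖ ^ 2) ^ (w + 1) * ‖th F z‖ ≤ 4 ^ (w + 1) * C := by
  have hz1 : ‖z‖ < 1 := mem_ball_zero_iff.mp hz
  have hz0 := norm_nonneg z
  have hpos := one_sub_sq_pos hz
  set s : ℝ := 1 - ‖z‖ ^ 2 with hs
  set r : ℝ := (1 - ‖z‖) / 2 with hr
  have hr0 : 0 < r := by rw [hr]; linarith only [hz1]
  have hrs : s / 4 ≤ r := by rw [hr, hs]; nlinarith only [hr, hr0]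
  have hC0 : 0 ≤ C := le_trans (mul_nonneg (pow_nonneg hpos.le _) (norm_nonneg _)) (hC z hz)
  have hsub : closedBall z r ⊆ ball (0 : ℂ) 1 := by
    intro ζ hζ
    have h1 : ‖ζ - z‖ ≤ r := by simpa [dist_eq_norm] using hζ
    have h2 : ‖ζ‖ ≤ ‖ζ - z‖ + ‖z‖ := by
      have := norm_add_le (ζ - z) z
      simpa using this
    rw [mem_ball_zero_iff]
    rw [hr] at h1
    linarith only [hr, hr0, h1, h2]
  have hd : DiffContOnCl ℂ F (ball z r) := by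
    apply DifferentiableOn.diffContOnCl
    apply hF.mono
    exact closure_ball_subset_closedBall.trans hsub
  have key : ∀ ζ ∈ sphere z r, ‖F ζ‖ ≤ 4 ^ w * C / s ^ w := by
    intro ζ hζ
    have hζb : ζ ∈ ball (0 : ℂ) 1 := hsub (sphere_subset_closedBall hζ)
    have h1 : ‖ζ - z‖ = r := by simpa [dist_eq_norm] using hζ
    have h2 : ‖ζ‖ ≤ ‖ζ - z‖ + ‖z‖ := by
      have := norm_add_le (ζ - z) z
      simpa using this
    have h3 : ‖ζ‖ ≤ (1 + ‖z‖) / 2 := by rw [h1, hr] at h2; linarith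
    have h4 : s / 4 ≤ 1 - ‖ζ‖ ^ 2 := by
      have h5 := norm_nonneg ζ
      have h6 : ‖ζ‖ ^ 2 ≤ ‖ζ‖ := by nlinarith only [hr, hr0, h3, h5]
      rw [hs]
      nlinarith
    have h5 : (s / 4) ^ w * ‖F ζ‖ ≤ C :=
      le_trans (mul_le_mul_of_nonneg_right (pow_le_pow_left₀ (by positivity) h4 w)
        (norm_nonneg _)) (hC ζ hζb)
    rw [div_pow, div_mul_eq_mul_div, div_le_iff₀ (by positivity)] at h5
    rw [le_div_iff₀ (by positivity)]
    linarith only [h5]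
  have h7 := Complex.norm_deriv_le_of_forall_mem_sphere_norm_le hr0 hd key
  have h8 : ‖th F z‖ ≤ 4 ^ w * C / s ^ w / r := by
    unfold th
    rw [norm_mul]
    calc ‖z‖ * ‖deriv F z‖ ≤ 1 * ‖deriv F z‖ :=
          mul_le_mul_of_nonneg_right hz1.le (norm_nonneg _)
      _ = ‖deriv F z‖ := one_mul _
      _ ≤ _ := h7
  have h9 : 4 ^ w * C / s ^ w / r ≤ 4 ^ w * C / s ^ w / (s / 4) := by
    apply div_le_div_of_nonneg_left _ (by positivity) hrs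
    positivity
  calc s ^ (w + 1) * ‖th F z‖ ≤ s ^ (w + 1) * (4 ^ w * C / s ^ w / (s / 4)) :=
        mul_le_mul_of_nonneg_left (h8.trans h9) (by positivity)
    _ = 4 ^ (w + 1) * C := by
        have hsw : s ^ w ≠ 0 := (pow_pos hpos w).ne'
        have hs0 : s ≠ 0 := hpos.ne'
        field_simp
        ring

theorem gg_diff1 {H : ℂ → ℂ} (hH : DifferentiableOn ℂ H (ball 0 1)) (n : ℕ) :
    DifferentiableOn ℂ (gg H n) (ball 0 1) := by
  induction n using Nat.strong_induction_on with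
  | _ n ih =>
    match n with
    | 0 =>
      have h : DifferentiableOn ℂ (fun z => -(th H z) / 2) (ball (0 : ℂ) 1) :=
        (Pool.Agent.M16.Helper39.MH.Bounds.th_diff hH).neg.div_const 2
      rw [gg]
      exact h
    | 1 =>
      have h0 := ih 0 (by norm_num)
      have h : DifferentiableOn ℂ (fun z => (th (gg H 0) z + (gg H 0 z) ^ 2) / 3)
          (ball (0 : ℂ) 1) := ((Pool.Agent.M16.Helper39.MH.Bounds.th_diff h0).add (h0.pow 2)).div_const 3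
      rw [gg]
      exact h
    | (n + 2) =>
      have h1 := ih (n + 1) (by omega)
      have h2 : ∀ i : Fin n, DifferentiableOn ℂ (fun z => gg H (i.1 + 1) z * gg H (n - i.1) z)
          (ball (0 : ℂ) 1) := fun i =>
        (ih (i.1 + 1) (by omega)).mul (ih (n - i.1) (by omega))
      have h : DifferentiableOn ℂ (fun z => (th (gg H (n + 1)) z
          - ∑ i : Fin n, gg H (i.1 + 1) z * gg H (n - i.1) z) / ((n : ℂ) + 4))
          (ball (0 : ℂ) 1) :=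
        ((Pool.Agent.M16.Helper39.MH.Bounds.th_diff h1).sub (DifferentiableOn.fun_sum fun i _ => h2 i)).div_const _
      rw [gg]
      exact h

/-- the hypotheses on `H` -/
def Hyp (H : ℂ → ℂ) : Prop :=
  DifferentiableOn ℂ H (ball 0 1) ∧ ∀ z ∈ ball (0 : ℂ) 1, (1 - ‖z‖ ^ 2) * ‖deriv H z‖ ≤ 28

theorem gg_bound_one (n : ℕ) : ∃ C : ℝ, 0 ≤ C ∧ ∀ H : ℂ → ℂ, Hyp H →
    ∀ z ∈ ball (0 : ℂ) 1, (1 - ‖z‖ ^ 2) ^ (n + 1) * ‖gg H n z‖ ≤ C := by
  induction n using Nat.strong_induction_on with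
  | _ n ih =>
    match n with
    | 0 =>
      refine ⟨14, by norm_num, fun H hH z hz => ?_⟩
      have h1 := hH.2 z hz
      have hz1 : ‖z‖ < 1 := mem_ball_zero_iff.mp hz
      have hpos := one_sub_sq_pos hz
      have e : gg H 0 z = -(th H z) / 2 := by rw [gg]
      have h2 : ‖gg H 0 z‖ ≤ ‖deriv H z‖ / 2 := by
        rw [e, norm_div, norm_neg]
        unfold th
        rw [norm_mul]
        have h3 : ‖z‖ * ‖deriv H z‖ ≤ 1 * ‖deriv H z‖ :=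
          mul_le_mul_of_nonneg_right hz1.le (norm_nonneg _)
        have h4 : ‖(2 : ℂ)‖ = 2 := by simp
        rw [h4]
        linarith only [h3]
      have h3 : (1 - ‖z‖ ^ 2) * ‖gg H 0 z‖ ≤ (1 - ‖z‖ ^ 2) * (‖deriv H z‖ / 2) :=
        mul_le_mul_of_nonneg_left h2 hpos.le
      simp only [zero_add, pow_one]
      linarith only [h1, h3]
    | 1 =>
      obtain ⟨C, hC0, hC⟩ := ih 0 (by norm_num)
      refine ⟨(4 ^ (1 + 1) * C + C * C) / 3, by positivity, fun H hH z hz => ?_⟩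
      have hpos := one_sub_sq_pos hz
      have hd := gg_diff1 hH.1 0
      have h1 := th_bound hd (w := 1) (C := C) (fun z hz => by simpa using hC H hH z hz) hz
      have h2 := hC H hH z hz
      have e : gg H 1 z = (th (gg H 0) z + (gg H 0 z) ^ 2) / 3 := by conv_lhs => rw [gg]
      have h3 : ‖gg H 1 z‖ ≤ (‖th (gg H 0) z‖ + ‖gg H 0 z‖ * ‖gg H 0 z‖) / 3 := by
        rw [e, norm_div]
        have h4 : ‖(3 : ℂ)‖ = 3 := by simp
        rw [h4]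
        apply div_le_div_of_nonneg_right _ (by norm_num)
        calc ‖th (gg H 0) z + gg H 0 z ^ 2‖ ≤ ‖th (gg H 0) z‖ + ‖gg H 0 z ^ 2‖ := norm_add_le _ _
          _ = ‖th (gg H 0) z‖ + ‖gg H 0 z‖ * ‖gg H 0 z‖ := by rw [norm_pow, sq]
      have h5 : ((1 - ‖z‖ ^ 2) ^ (0 + 1) * ‖gg H 0 z‖) * ((1 - ‖z‖ ^ 2) ^ (0 + 1) * ‖gg H 0 z‖)
          ≤ C * C := mul_le_mul h2 h2 (by positivity) hC0
      calc (1 - ‖z‖ ^ 2) ^ (1 + 1) * ‖gg H 1 z‖
          ≤ (1 - ‖z‖ ^ 2) ^ (1 + 1) * ((‖th (gg H 0) z‖ + ‖gg H 0 z‖ * ‖gg H 0 z‖) / 3) :=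
            mul_le_mul_of_nonneg_left h3 (by positivity)
        _ = ((1 - ‖z‖ ^ 2) ^ (1 + 1) * ‖th (gg H 0) z‖
            + ((1 - ‖z‖ ^ 2) ^ (0 + 1) * ‖gg H 0 z‖)
              * ((1 - ‖z‖ ^ 2) ^ (0 + 1) * ‖gg H 0 z‖)) / 3 := by ring
        _ ≤ (4 ^ (1 + 1) * C + C * C) / 3 := by
            apply div_le_div_of_nonneg_right _ (by norm_num)
            linarith only [h1, h5]
    | (n + 2) =>
      have hex : ∀ k : Fin (n + 2), ∃ C : ℝ, 0 ≤ C ∧ ∀ H : ℂ → ℂ, Hyp H →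
          ∀ z ∈ ball (0 : ℂ) 1, (1 - ‖z‖ ^ 2) ^ (k.1 + 1) * ‖gg H k.1 z‖ ≤ C :=
        fun k => ih k.1 k.2
      choose B hB0 hB using hex
      let B' : ℕ → ℝ := fun k => if h : k < n + 2 then B ⟨k, h⟩ else 0
      have hB'0 : ∀ k, 0 ≤ B' k := by
        intro k
        simp only [B']
        split_ifs with h
        · exact hB0 _
        · exact le_refl _
      have hB' : ∀ k, k < n + 2 → ∀ H : ℂ → ℂ, Hyp H → ∀ z ∈ ball (0 : ℂ) 1,
          (1 - ‖z‖ ^ 2) ^ (k + 1) * ‖gg H k z‖ ≤ B' k := by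
        intro k hk H hH z hz
        simp only [B', dif_pos hk]
        exact hB ⟨k, hk⟩ H hH z hz
      refine ⟨(4 ^ (n + 1 + 1 + 1) * B' (n + 1)
        + ∑ i : Fin n, B' (i.1 + 1) * B' (n - i.1)) / ((n : ℝ) + 4), ?_, fun H hH z hz => ?_⟩
      · have : 0 ≤ ∑ i : Fin n, B' (i.1 + 1) * B' (n - i.1) :=
          Finset.sum_nonneg fun i _ => mul_nonneg (hB'0 _) (hB'0 _)
        have h2 := hB'0 (n + 1)
        positivity
      · have hpos := one_sub_sq_pos hz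
        have hd := gg_diff1 hH.1 (n + 1)
        have h1 := th_bound hd (w := n + 1 + 1) (C := B' (n + 1))
          (fun z hz => hB' (n + 1) (by omega) H hH z hz) hz
        have e : gg H (n + 2) z = (th (gg H (n + 1)) z
          - ∑ i : Fin n, gg H (i.1 + 1) z * gg H (n - i.1) z) / ((n : ℂ) + 4) := by rw [gg]
        have h4 : ‖(n : ℂ) + 4‖ = (n : ℝ) + 4 := by
          have : ((n : ℂ) + 4) = (((n : ℝ) + 4 : ℝ) : ℂ) := by push_cast; ring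
          rw [this, Complex.norm_real, Real.norm_of_nonneg (by positivity)]
        have h3 : ‖gg H (n + 2) z‖ ≤ (‖th (gg H (n + 1)) z‖
            + ∑ i : Fin n, ‖gg H (i.1 + 1) z‖ * ‖gg H (n - i.1) z‖) / ((n : ℝ) + 4) := by
          rw [e, norm_div, h4]
          apply div_le_div_of_nonneg_right _ (by positivity)
          refine (norm_sub_le _ _).trans ?_
          gcongr
          refine (norm_sum_le _ _).trans ?_
          apply Finset.sum_le_sum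
          intro i _
          rw [norm_mul]
        have h5 : ∀ i : Fin n, (1 - ‖z‖ ^ 2) ^ (n + 2 + 1)
            * (‖gg H (i.1 + 1) z‖ * ‖gg H (n - i.1) z‖) ≤ B' (i.1 + 1) * B' (n - i.1) := by
          intro i
          have hi := i.2
          have e1 : n + 2 + 1 = (i.1 + 1 + 1) + (n - i.1 + 1) := by omega
          have h6 := hB' (i.1 + 1) (by omega) H hH z hz
          have h7 := hB' (n - i.1) (by omega) H hH z hz
          calc (1 - ‖z‖ ^ 2) ^ (n + 2 + 1) * (‖gg H (i.1 + 1) z‖ * ‖gg H (n - i.1) z‖)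
              = ((1 - ‖z‖ ^ 2) ^ (i.1 + 1 + 1) * ‖gg H (i.1 + 1) z‖)
                * ((1 - ‖z‖ ^ 2) ^ (n - i.1 + 1) * ‖gg H (n - i.1) z‖) := by
                rw [e1, pow_add]; ring
            _ ≤ B' (i.1 + 1) * B' (n - i.1) :=
                mul_le_mul h6 h7 (by positivity) (hB'0 _)
        calc (1 - ‖z‖ ^ 2) ^ (n + 2 + 1) * ‖gg H (n + 2) z‖
            ≤ (1 - ‖z‖ ^ 2) ^ (n + 2 + 1) * ((‖th (gg H (n + 1)) z‖
              + ∑ i : Fin n, ‖gg H (i.1 + 1) z‖ * ‖gg H (n - i.1) z‖) / ((n : ℝ) + 4)) :=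
              mul_le_mul_of_nonneg_left h3 (by positivity)
          _ = ((1 - ‖z‖ ^ 2) ^ (n + 1 + 1 + 1) * ‖th (gg H (n + 1)) z‖
              + ∑ i : Fin n, (1 - ‖z‖ ^ 2) ^ (n + 2 + 1)
                * (‖gg H (i.1 + 1) z‖ * ‖gg H (n - i.1) z‖)) / ((n : ℝ) + 4) := by
              rw [← Finset.mul_sum]; ring
          _ ≤ _ := by
              apply div_le_div_of_nonneg_right _ (by positivity)
              exact add_le_add h1 (Finset.sum_le_sum fun i _ => h5 i)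

end Bounds

open Bounds

theorem gg_bound : ∃ Cb : ℕ → ℝ, (∀ n, 0 ≤ Cb n) ∧ ∀ H : ℂ → ℂ,
    DifferentiableOn ℂ H (ball 0 1) → (∀ z ∈ ball (0 : ℂ) 1, (1 - ‖z‖ ^ 2) * ‖deriv H z‖ ≤ 28) →
    ∀ (n : ℕ), ∀ z ∈ ball (0 : ℂ) 1, ‖cc H z n‖ ≤ Cb n := by
  choose Cb h0 h using gg_bound_one
  refine ⟨Cb, h0, fun H hH hB n z hz => ?_⟩
  have hpos := one_sub_sq_pos hz
  have h1 := h n H ⟨hH, hB⟩ z hz
  unfold cc
  rw [norm_mul, Complex.norm_real, Real.norm_of_nonneg (by positivity)]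
  exact h1

end Pool.Agent.M16.Helper39.MH
end
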