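import Mathlib
import Pool.Agent.Helper60.M16.G03
import Pool.Agent.Helper60.M16.G07
import Pool.Agent.Helper60.M16.G08

/- Helper94.T.Helper24.HR2.NumB -/
section
/-!
MP_16b0ee, project HR2, section R12b: the series `SS`.
-/

set_option autoImplicit false

open MeasureTheory Set Metric Filter Topology
open scoped Real ComplexConjugate

namespace Pool.Agent.M16.Helper24.HR2

open Pool.Agent.M16.Helper22.Half

noncomputable def SS (s : ℂ) (b : ℝ) (n j : ℕ) : ℝ := ∑' i : ℕ, Gm s b (n + i) / (b + 1 + i + j)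

namespace NB

variable {s : ℂ} {b : ℝ}

theorem Gm_zero : Gm s b 0 = 1 := by simp [Gm]

theorem Gm_succ (n : ℕ) : Gm s b (n + 1) = Gm s b n * ((2 * s.re + 2 + n) / (b + 3 + n)) := by
  simp only [Gm]
  rw [Finset.prod_range_succ]

theorem Gm_pos (hs : -1 < s.re) (hb : 0 < b) (n : ℕ) : 0 < Gm s b n := by
  induction n with
  | zero =>
    rw [Gm_zero]
    exact one_pos
  | succ n ih =>
    rw [Gm_succ]
    have hn : (0 : ℝ) ≤ n := Nat.cast_nonneg n
    exact mul_pos ih (div_pos (by linarith only [hs]) (by linarith only [hb]))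

/-- the telescoping step -/
theorem Gm_step (hb : 0 < b) (n : ℕ) :
    Gm s b n - Gm s b (n + 1) = (b + 1 - 2 * s.re) * (Gm s b n / (b + 3 + n)) := by
  have hn : (0 : ℝ) ≤ n := Nat.cast_nonneg n
  have h : b + 3 + n ≠ 0 := by positivity
  rw [Gm_succ]
  field_simp
  ring

theorem Gm_part (hb : 0 < b) (n M : ℕ) :
    ∑ i ∈ Finset.range M, (b + 1 - 2 * s.re) * (Gm s b (n + i) / (b + 3 + (n + i : ℕ)))
      = Gm s b n - Gm s b (n + M) := by
  induction M with
  | zero => simp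
  | succ M ih =>
    rw [Finset.sum_range_succ, ih, ← Gm_step hb (n + M), ← add_assoc]
    ring

theorem Gm_anti (hs : -1 < s.re) (hb : 0 < b) (hσ : 0 < b + 1 - 2 * s.re) :
    Antitone (Gm s b) := by
  apply antitone_nat_of_succ_le
  intro n
  have h := Gm_step (s := s) hb n
  have hn : (0 : ℝ) ≤ n := Nat.cast_nonneg n
  have h2 : 0 ≤ (b + 1 - 2 * s.re) * (Gm s b n / (b + 3 + n)) :=
    mul_nonneg hσ.le (div_nonneg (Gm_pos hs hb n).le (by linarith only [hb]))
  linarith

theorem Gm_summable (hs : -1 < s.re) (hb : 0 < b) (hσ : 0 < b + 1 - 2 * s.re) (n : ℕ) :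
    Summable (fun i : ℕ => Gm s b (n + i) / (b + 3 + (n + i : ℕ))) := by
  have hpos : ∀ i : ℕ, 0 ≤ Gm s b (n + i) / (b + 3 + (n + i : ℕ)) := by
    intro i
    have hn : (0 : ℝ) ≤ (n + i : ℕ) := Nat.cast_nonneg _
    exact div_nonneg (Gm_pos hs hb _).le (by linarith only [hb])
  apply summable_of_sum_range_le (c := Gm s b n / (b + 1 - 2 * s.re)) hpos
  intro M
  have h := Gm_part (s := s) hb n M
  rw [← Finset.mul_sum] at h
  rw [le_div_iff₀ hσ, mul_comm, h]
  have := (Gm_pos hs hb (n + M)).le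
  linarith only [this]

theorem Gm_tendsto (hs : -1 < s.re) (hb : 0 < b) (hσ : 0 < b + 1 - 2 * s.re) :
    Tendsto (Gm s b) atTop (𝓝 0) := by
  have hbd : BddBelow (range (Gm s b)) := by
    refine ⟨0, ?_⟩
    rintro _ ⟨n, rfl⟩
    exact (Gm_pos hs hb n).le
  have hlim := tendsto_atTop_ciInf (Gm_anti hs hb hσ) hbd
  set L := ⨅ n, Gm s b n with hL
  have hL0 : 0 ≤ L := le_ciInf (fun n => (Gm_pos hs hb n).le)
  rcases hL0.eq_or_lt with h0 | h0
  · rw [← h0] at hlim
    exact hlim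
  · exfalso
    have hLle : ∀ n, L ≤ Gm s b n := fun n => ciInf_le hbd n
    have hsum := Gm_summable hs hb hσ 0
    obtain ⟨k, hk⟩ := exists_nat_ge (b + 3)
    have h1 : Summable (fun i : ℕ => (1 : ℝ) / ((i + k : ℕ) : ℝ)) := by
      have h2 : Summable (fun i : ℕ => L⁻¹ * (Gm s b (0 + i) / (b + 3 + (0 + i : ℕ)))) :=
        hsum.mul_left _
      apply Summable.of_nonneg_of_le _ _ h2
      · intro i
        positivity
      · intro i
        have hi : (0 : ℝ) ≤ i := Nat.cast_nonneg i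
        have h3 : (0 : ℝ) < b + 3 + i := by linarith
        have h4 : (b + 3 + i : ℝ) ≤ ((i + k : ℕ) : ℝ) := by
          push_cast
          linarith
        rw [zero_add]
        calc (1 : ℝ) / ((i + k : ℕ) : ℝ) ≤ 1 / (b + 3 + i) :=
              one_div_le_one_div_of_le h3 h4
          _ = L⁻¹ * (L / (b + 3 + i)) := by field_simp
          _ ≤ L⁻¹ * (Gm s b i / (b + 3 + i)) := by
              apply mul_le_mul_of_nonneg_left _ (inv_nonneg.mpr h0.le)
              exact div_le_div_of_nonneg_right (hLle i) h3.le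
    have h5 := (summable_nat_add_iff (f := fun i : ℕ => (1 : ℝ) / (i : ℝ)) k).mp h1
    exact Real.not_summable_one_div_natCast h5

theorem hasSum_diag (hs : -1 < s.re) (hb : 0 < b) (hσ : 0 < b + 1 - 2 * s.re) (n : ℕ) :
    HasSum (fun i : ℕ => Gm s b (n + i) / (b + 3 + (n + i : ℕ)))
      (Gm s b n / (b + 1 - 2 * s.re)) := by
  have hpos : ∀ i : ℕ, 0 ≤ Gm s b (n + i) / (b + 3 + (n + i : ℕ)) := by
    intro i
    have hn : (0 : ℝ) ≤ (n + i : ℕ) := Nat.cast_nonneg _
    exact div_nonneg (Gm_pos hs hb _).le (by linarith)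
  rw [hasSum_iff_tendsto_nat_of_nonneg hpos]
  have h1 : Tendsto (fun M : ℕ => (Gm s b n - Gm s b (n + M)) / (b + 1 - 2 * s.re)) atTop
      (𝓝 ((Gm s b n - 0) / (b + 1 - 2 * s.re))) := by
    apply Tendsto.div_const
    apply Tendsto.const_sub
    have h2 : Tendsto (fun M : ℕ => n + M) atTop atTop := by
      apply tendsto_atTop_mono (f := fun M : ℕ => M) _ tendsto_id
      intro M
      exact Nat.le_add_left M n
    exact (Gm_tendsto hs hb hσ).comp h2
  rw [sub_zero] at h1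
  apply h1.congr
  intro M
  rw [← Gm_part hb n M, ← Finset.mul_sum]
  field_simp

end NB

open NB

theorem SS_summable {s : ℂ} (hs : -1 < s.re) {b : ℝ} (hb : 0 < b)
    (hσ : 0 < b + 1 - 2 * s.re) (n j : ℕ) :
    Summable (fun i : ℕ => Gm s b (n + i) / (b + 1 + i + j)) := by
  have h := (Gm_summable hs hb hσ n).mul_left ((n : ℝ) + 3)
  apply Summable.of_nonneg_of_le _ _ h
  · intro i
    exact div_nonneg (Gm_pos hs hb _).le (by positivity)
  · intro i
    have hi : (0 : ℝ) ≤ i := Nat.cast_nonneg i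
    have hj : (0 : ℝ) ≤ j := Nat.cast_nonneg j
    have hn : (0 : ℝ) ≤ n := Nat.cast_nonneg n
    have h1 : (0 : ℝ) < b + 1 + i + j := by positivity
    have h2 : (0 : ℝ) < b + 3 + (n + i : ℕ) := by positivity
    have hG := (Gm_pos hs hb (n + i)).le
    rw [← mul_div_assoc, div_le_div_iff₀ h1 h2]
    push_cast
    have h3 : b + 3 + (n + i) ≤ (n + 3) * (b + 1 + i + j) := by nlinarith only [hb]
    calc Gm s b (n + i) * (b + 3 + (n + i)) ≤ Gm s b (n + i) * ((n + 3) * (b + 1 + i + j)) :=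
          mul_le_mul_of_nonneg_left h3 hG
      _ = (n + 3) * Gm s b (n + i) * (b + 1 + i + j) := by ring

theorem SS_diag {s : ℂ} (hs : -1 < s.re) {b : ℝ} (hb : 0 < b) (hσ : 0 < b + 1 - 2 * s.re)
    (n : ℕ) : SS s b n (n + 2) = Gm s b n / (b + 1 - 2 * s.re) := by
  have h := hasSum_diag hs hb hσ n
  rw [SS, ← h.tsum_eq]
  congr 1
  funext i
  congr 1
  push_cast
  ring

theorem SS_shift {s : ℂ} (hs : -1 < s.re) {b : ℝ} (hb : 0 < b) (hσ : 0 < b + 1 - 2 * s.re)
    (n j : ℕ) : SS s b (n + 1) (j + 1) = SS s b n j - Gm s b n / (b + 1 + j) := by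
  have h := (SS_summable hs hb hσ n j).tsum_eq_zero_add
  have e1 : SS s b n j = Gm s b n / (b + 1 + j) + SS s b (n + 1) (j + 1) := by
    unfold SS
    rw [h]
    congr 1
    · simp
    · congr 1
      funext i
      have e2 : n + 1 + i = n + (i + 1) := by ring
      rw [e2]
      congr 1
      push_cast
      ring
  rw [e1]
  ring

theorem SS_rec {s : ℂ} (hs : -1 < s.re) {b : ℝ} (hb : 0 < b) (hσ : 0 < b + 1 - 2 * s.re)
    (n j : ℕ) : ((n : ℝ) + 2 - j) * SS s b (n + 1) j
      = Gm s b n + (2 * s.re + 1 + n - b - j) * SS s b n j := by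
  have h1 := (SS_summable hs hb hσ n j).hasSum.mul_left (2 * s.re + 1 + n - b - j)
  have h2 := (hasSum_diag hs hb hσ n).mul_left (b + 1 - 2 * s.re)
  have h3 := (SS_summable hs hb hσ (n + 1) j).hasSum.mul_left ((n : ℝ) + 2 - j)
  have h4 := h2.add h1
  have e : (fun i : ℕ => ((n : ℝ) + 2 - j) * (Gm s b (n + 1 + i) / (b + 1 + i + j)))
      = fun i : ℕ => (b + 1 - 2 * s.re) * (Gm s b (n + i) / (b + 3 + (n + i : ℕ)))
        + (2 * s.re + 1 + n - b - j) * (Gm s b (n + i) / (b + 1 + i + j)) := by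
    funext i
    have e1 : n + 1 + i = n + i + 1 := by ring
    have hi : (0 : ℝ) ≤ i := Nat.cast_nonneg i
    have hj : (0 : ℝ) ≤ j := Nat.cast_nonneg j
    have hn : (0 : ℝ) ≤ n := Nat.cast_nonneg n
    have h5 : b + 1 + (i : ℝ) + j ≠ 0 := by positivity
    have h6 : b + 3 + ((n : ℝ) + i) ≠ 0 := by positivity
    rw [e1, Gm_succ]
    push_cast
    field_simp
    ring
  rw [e] at h3
  have h7 := h3.unique h4
  have h8 : (b + 1 - 2 * s.re) * (Gm s b n / (b + 1 - 2 * s.re)) = Gm s b n := by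
    field_simp
  rw [h8] at h7
  exact h7

end Pool.Agent.M16.Helper24.HR2
end

/- Helper94.T.Helper24.HR2.NumM2 -/
section
/-!
MP_16b0ee, project HR2, section T5: recursions and enclosures for the Gram matrix `MM`.
-/

set_option autoImplicit false

open MeasureTheory Set Metric Filter Topology
open scoped Real ComplexConjugate

namespace Pool.Agent.M16.Helper24.HR2

open Pool.Agent.M16.Helper22.Half

namespace NM

open NB

variable {s : ℂ} {b : ℝ}

/-- the recursion of the moments without division -/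
theorem Gm_mul (hb : 0 < b) (n : ℕ) :
    (b + 3 + n) * Gm s b (n + 1) = (2 * s.re + 2 + n) * Gm s b n := by
  have hn : (0 : ℝ) ≤ n := Nat.cast_nonneg n
  have h : b + 3 + n ≠ 0 := by positivity
  rw [Gm_succ]
  field_simp

private theorem CN_nonneg_pv1 (hs : -1 < s.re) (hb : 0 < b) (n k N : ℕ) : 0 ≤ CN s b n k N := by
  apply Finset.sum_nonneg
  intro j _
  exact mul_nonneg (Gm_pos hs hb _).le (Gm_pos hs hb _).le

theorem CN_zero (n k : ℕ) : CN s b n k 0 = Gm s b n * Gm s b k := by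
  simp [CN]

theorem CN_shift (n k N : ℕ) :
    CN s b (n + 1) k N = CN s b n k (N + 1) - Gm s b n * Gm s b (k + (N + 1)) := by
  unfold CN
  rw [Finset.sum_range_succ' _ (N + 1)]
  have e : ∑ j ∈ Finset.range (N + 1), Gm s b (n + 1 + j) * Gm s b (k + (N - j))
      = ∑ j ∈ Finset.range (N + 1), Gm s b (n + (j + 1)) * Gm s b (k + (N + 1 - (j + 1))) := by
    apply Finset.sum_congr rfl
    intro j _
    have e1 : n + 1 + j = n + (j + 1) := by ring
    have e2 : N + 1 - (j + 1) = N - j := by omega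
    rw [e1, e2]
  rw [e]
  simp

/-- the recursion of the convolutions -/
theorem CN_gen (hb : 0 < b) (n k N : ℕ) :
    (N + 2 * b + 5 + n + k) * CN s b n k (N + 1)
      = (N + 4 * s.re + 4 + n + k) * CN s b n k N
        + (b + 2 + n) * (Gm s b n * Gm s b (k + (N + 1)))
        + (b + 2 + k) * (Gm s b k * Gm s b (n + (N + 1))) := by
  have h1 : ∑ j ∈ Finset.range (N + 1 + 1),
        (b + 2 + n + j) * (Gm s b (n + j) * Gm s b (k + (N + 1 - j)))
      = (∑ j ∈ Finset.range (N + 1),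
          (2 * s.re + 2 + n + j) * (Gm s b (n + j) * Gm s b (k + (N - j))))
        + (b + 2 + n) * (Gm s b n * Gm s b (k + (N + 1))) := by
    rw [Finset.sum_range_succ' _ (N + 1)]
    congr 1
    · apply Finset.sum_congr rfl
      intro j _
      have e2 : N + 1 - (j + 1) = N - j := by omega
      have e3 : n + (j + 1) = n + j + 1 := by ring
      have h := Gm_mul (s := s) hb (n + j)
      rw [e2, e3]
      push_cast at h ⊢
      linear_combination Gm s b (k + (N - j)) * h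
    · simp
  have h2 : ∑ j ∈ Finset.range (N + 1 + 1),
        (b + 2 + k + ((N : ℝ) + 1 - j)) * (Gm s b (n + j) * Gm s b (k + (N + 1 - j)))
      = (∑ j ∈ Finset.range (N + 1),
          (2 * s.re + 2 + k + ((N : ℝ) - j)) * (Gm s b (n + j) * Gm s b (k + (N - j))))
        + (b + 2 + k) * (Gm s b k * Gm s b (n + (N + 1))) := by
    rw [Finset.sum_range_succ _ (N + 1)]
    congr 1
    · apply Finset.sum_congr rfl
      intro j hj
      rw [Finset.mem_range] at hj
      have e2 : N + 1 - j = N - j + 1 := by omega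
      have e3 : k + (N - j + 1) = k + (N - j) + 1 := by ring
      have h := Gm_mul (s := s) hb (k + (N - j))
      have e4 : ((N - j : ℕ) : ℝ) = (N : ℝ) - j := by
        rw [Nat.cast_sub (by omega)]
      rw [e2, e3]
      push_cast [e4] at h ⊢
      linear_combination Gm s b (n + j) * h
    · have e5 : N + 1 - (N + 1) = 0 := by omega
      rw [e5, add_zero]
      push_cast
      ring
  have h3 := congrArg₂ (· + ·) h1 h2
  have e1 : (∑ j ∈ Finset.range (N + 1 + 1),
        (b + 2 + n + j) * (Gm s b (n + j) * Gm s b (k + (N + 1 - j))))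
      + ∑ j ∈ Finset.range (N + 1 + 1),
        (b + 2 + k + ((N : ℝ) + 1 - j)) * (Gm s b (n + j) * Gm s b (k + (N + 1 - j)))
      = (N + 2 * b + 5 + n + k) * CN s b n k (N + 1) := by
    rw [← Finset.sum_add_distrib, CN, Finset.mul_sum]
    apply Finset.sum_congr rfl
    intro j _
    ring
  have e2 : (∑ j ∈ Finset.range (N + 1),
          (2 * s.re + 2 + n + j) * (Gm s b (n + j) * Gm s b (k + (N - j))))
      + ∑ j ∈ Finset.range (N + 1),
          (2 * s.re + 2 + k + ((N : ℝ) - j)) * (Gm s b (n + j) * Gm s b (k + (N - j)))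
      = (N + 4 * s.re + 4 + n + k) * CN s b n k N := by
    rw [← Finset.sum_add_distrib, CN, Finset.mul_sum]
    apply Finset.sum_congr rfl
    intro j _
    ring
  rw [e1] at h3
  rw [h3, ← e2]
  ring

/-- the elementary bound of the convolutions -/
theorem CN_le (hs : -1 < s.re) (hb : 0 < b) (hσ : 0 < b + 1 - 2 * s.re) (n k N : ℕ) :
    CN s b n k N ≤ (N + 1) * Gm s b (N / 2) := by
  have hA := Gm_anti hs hb hσ
  have h1 : ∀ i, Gm s b i ≤ 1 := fun i => by
    have := hA (Nat.zero_le i)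
    rwa [Gm_zero] at this
  have h0 : ∀ i, 0 ≤ Gm s b i := fun i => (Gm_pos hs hb i).le
  have h2 : ∀ j ∈ Finset.range (N + 1), Gm s b (n + j) * Gm s b (k + (N - j)) ≤ Gm s b (N / 2) := by
    intro j hj
    rw [Finset.mem_range] at hj
    rcases le_total (N / 2) j with h | h
    · calc Gm s b (n + j) * Gm s b (k + (N - j)) ≤ Gm s b (n + j) * 1 :=
            mul_le_mul_of_nonneg_left (h1 _) (h0 _)
        _ = Gm s b (n + j) := mul_one _
        _ ≤ Gm s b (N / 2) := hA (by omega)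
    · calc Gm s b (n + j) * Gm s b (k + (N - j)) ≤ 1 * Gm s b (k + (N - j)) :=
            mul_le_mul_of_nonneg_right (h1 _) (h0 _)
        _ = Gm s b (k + (N - j)) := one_mul _
        _ ≤ Gm s b (N / 2) := hA (by omega)
  calc CN s b n k N ≤ ∑ _j ∈ Finset.range (N + 1), Gm s b (N / 2) := Finset.sum_le_sum h2
    _ = (N + 1) * Gm s b (N / 2) := by
        rw [Finset.sum_const, Finset.card_range, nsmul_eq_mul]
        push_cast
        ring

theorem half_tendsto : Tendsto (fun N : ℕ => N / 2) atTop atTop := by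
  apply tendsto_atTop_atTop.mpr
  intro B
  refine ⟨2 * B, ?_⟩
  intro N hN
  omega

theorem Gh_tendsto (hs : -1 < s.re) (hb : 0 < b) (hσ : 0 < b + 1 - 2 * s.re) :
    Tendsto (fun N : ℕ => Gm s b (N / 2)) atTop (𝓝 0) :=
  (Gm_tendsto hs hb hσ).comp half_tendsto

theorem sum_half {h : ℕ → ℝ} (hh : Summable h) : Summable (fun N : ℕ => h (N / 2)) := by
  have he : HasSum (fun k : ℕ => h (2 * k / 2)) (∑' i : ℕ, h i) := by
    have e : (fun k : ℕ => h (2 * k / 2)) = h := by
      funext k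
      have e1 : 2 * k / 2 = k := by omega
      rw [e1]
    rw [e]
    exact hh.hasSum
  have ho : HasSum (fun k : ℕ => h ((2 * k + 1) / 2)) (∑' i : ℕ, h i) := by
    have e : (fun k : ℕ => h ((2 * k + 1) / 2)) = h := by
      funext k
      have e1 : (2 * k + 1) / 2 = k := by omega
      rw [e1]
    rw [e]
    exact hh.hasSum
  exact (HasSum.even_add_odd (f := fun N : ℕ => h (N / 2)) he ho).summable

theorem Gh_summable (hs : -1 < s.re) (hb : 0 < b) (hσ : 0 < b + 1 - 2 * s.re) :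
    Summable (fun N : ℕ => Gm s b (N / 2) / (b + 3 + (N / 2 : ℕ))) := by
  have h := Gm_summable hs hb hσ 0
  simp only [zero_add] at h
  exact sum_half (h := fun i : ℕ => Gm s b i / (b + 3 + (i : ℕ))) h

theorem sum_w1 (hs : -1 < s.re) (hb : 0 < b) (hσ : 0 < b + 1 - 2 * s.re) (n k : ℕ) :
    Summable (fun N : ℕ => CN s b n k N / ((b + N + 1) * (b + N + 2))) := by
  have h := (Gh_summable hs hb hσ).mul_left 3
  apply Summable.of_nonneg_of_le _ _ h
  · intro N
    exact div_nonneg (CN_nonneg_pv1 hs hb n k N) (by positivity)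
  · intro N
    have hN : (0 : ℝ) ≤ N := Nat.cast_nonneg N
    have hG := (Gm_pos hs hb (N / 2)).le
    have hc := CN_le hs hb hσ n k N
    have h2 : ((N / 2 : ℕ) : ℝ) ≤ (N : ℝ) := by exact_mod_cast Nat.div_le_self N 2
    have h3 : (0 : ℝ) ≤ ((N / 2 : ℕ) : ℝ) := Nat.cast_nonneg _
    have hp1 : (0 : ℝ) < (b + N + 1) * (b + N + 2) := by positivity
    have hp2 : (0 : ℝ) < b + 3 + ((N / 2 : ℕ) : ℝ) := by positivity
    rw [div_le_iff₀ hp1]
    refine hc.trans ?_
    have h4 : ((N : ℝ) + 1) * (b + 3 + ((N / 2 : ℕ) : ℝ)) ≤ 3 * ((b + N + 1) * (b + N + 2)) := by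
      have h5 : ((N : ℝ) + 1) * (b + 3 + ((N / 2 : ℕ) : ℝ)) ≤ ((N : ℝ) + 1) * (b + 3 + N) :=
        mul_le_mul_of_nonneg_left (by linarith only [h2]) (by linarith only [])
      nlinarith only [hb, h5]
    calc ((N : ℝ) + 1) * Gm s b (N / 2)
        = (((N : ℝ) + 1) * (b + 3 + ((N / 2 : ℕ) : ℝ))) * (Gm s b (N / 2)
            / (b + 3 + ((N / 2 : ℕ) : ℝ))) := by
          field_simp
      _ ≤ (3 * ((b + N + 1) * (b + N + 2))) * (Gm s b (N / 2)
            / (b + 3 + ((N / 2 : ℕ) : ℝ))) :=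
          mul_le_mul_of_nonneg_right h4 (div_nonneg hG hp2.le)
      _ = _ := by ring

theorem sum_w2 (hs : -1 < s.re) (hb : 0 < b) (hσ : 0 < b + 1 - 2 * s.re) (n k : ℕ) :
    Summable (fun N : ℕ => CN s b n k N / ((b + N + 2) * (b + N + 3))) := by
  apply Summable.of_nonneg_of_le _ _ (sum_w1 hs hb hσ n k)
  · intro N
    exact div_nonneg (CN_nonneg_pv1 hs hb n k N) (by positivity)
  · intro N
    have hN : (0 : ℝ) ≤ N := Nat.cast_nonneg N
    apply div_le_div_of_nonneg_left (CN_nonneg_pv1 hs hb n k N) (by positivity)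
    linarith only [hb]

theorem sum_A (hs : -1 < s.re) (hb : 0 < b) (hσ : 0 < b + 1 - 2 * s.re) (n : ℕ) :
    HasSum (fun N : ℕ => Gm s b (n + N) / ((b + N + 1) * (b + N + 2)))
      (SS s b n 0 - SS s b n 1) := by
  have h0 := (SS_summable hs hb hσ n 0).hasSum
  have h1 := (SS_summable hs hb hσ n 1).hasSum
  have h := h0.sub h1
  have e : (fun N : ℕ => Gm s b (n + N) / ((b + N + 1) * (b + N + 2)))
      = fun N : ℕ => Gm s b (n + N) / (b + 1 + N + (0 : ℕ))
        - Gm s b (n + N) / (b + 1 + N + (1 : ℕ)) := by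
    funext N
    have hN : (0 : ℝ) ≤ N := Nat.cast_nonneg N
    have h2 : b + N + 1 ≠ 0 := by positivity
    have h3 : b + N + 2 ≠ 0 := by positivity
    have e1 : b + 1 + (N : ℝ) + ((0 : ℕ) : ℝ) = b + N + 1 := by push_cast; ring
    have e2 : b + 1 + (N : ℝ) + ((1 : ℕ) : ℝ) = b + N + 2 := by push_cast; ring
    rw [e1, e2]
    field_simp
    ring
  rw [e]
  exact h

/-- `CN / N` tends to zero -/
theorem CN_div_tendsto (hs : -1 < s.re) (hb : 0 < b) (hσ : 0 < b + 1 - 2 * s.re) (n k : ℕ) :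
    Tendsto (fun N : ℕ => CN s b n k N / ((N : ℝ) + 1)) atTop (𝓝 0) := by
  apply squeeze_zero _ _ (Gh_tendsto hs hb hσ)
  · intro N
    exact div_nonneg (CN_nonneg_pv1 hs hb n k N) (by positivity)
  · intro N
    have hN : (0 : ℝ) < (N : ℝ) + 1 := by positivity
    rw [div_le_iff₀ hN, mul_comm]
    exact CN_le hs hb hσ n k N

/-- bounded factors -/
theorem CN_mul_tendsto (hs : -1 < s.re) (hb : 0 < b) (hσ : 0 < b + 1 - 2 * s.re) (n k : ℕ)
    {f : ℕ → ℝ} {C : ℝ} (hf : ∀ N : ℕ, |f N| ≤ C / ((N : ℝ) + 1)) :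
    Tendsto (fun N : ℕ => f N * CN s b n k N) atTop (𝓝 0) := by
  have h := (CN_div_tendsto hs hb hσ n k).const_mul C
  rw [mul_zero] at h
  apply squeeze_zero_norm _ h
  intro N
  have hN : (0 : ℝ) < (N : ℝ) + 1 := by positivity
  have hc := CN_nonneg_pv1 hs hb n k N
  rw [norm_mul, Real.norm_eq_abs, Real.norm_of_nonneg hc]
  calc |f N| * CN s b n k N ≤ C / ((N : ℝ) + 1) * CN s b n k N :=
        mul_le_mul_of_nonneg_right (hf N) hc
    _ = C * (CN s b n k N / ((N : ℝ) + 1)) := by ring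

/-- the partial sums -/
theorem part (hb : 0 < b) (n k M : ℕ) :
    (4 * s.re - b + n + k + 1)
        * ∑ N ∈ Finset.range (M + 1), CN s b n k N / ((b + N + 2) * (b + N + 3))
      - (b + 3 + n + k) * ∑ N ∈ Finset.range (M + 1), CN s b n k N / ((b + N + 1) * (b + N + 2))
      + (b + 2 + n) * Gm s b n
        * ∑ N ∈ Finset.range (M + 1), Gm s b (k + N) / ((b + N + 1) * (b + N + 2))
      + (b + 2 + k) * Gm s b k
        * ∑ N ∈ Finset.range (M + 1), Gm s b (n + N) / ((b + N + 1) * (b + N + 2))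
      = (M + 4 * s.re + 4 + n + k) / ((b + M + 2) * (b + M + 3)) * CN s b n k M := by
  induction M with
  | zero =>
    simp only [zero_add, Finset.range_one, Finset.sum_singleton, CN_zero, Nat.cast_zero, add_zero]
    have h1 : b + 1 ≠ 0 := by positivity
    have h2 : b + 2 ≠ 0 := by positivity
    have h3 : b + 3 ≠ 0 := by positivity
    field_simp
    ring
  | succ M ih =>
    have h := CN_gen (s := s) hb n k M
    simp only [Finset.sum_range_succ _ (M + 1)]
    have hM : (0 : ℝ) ≤ M := Nat.cast_nonneg M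
    have h1 : b + (M + 1) + 1 ≠ 0 := by positivity
    have h2 : b + (M + 1) + 2 ≠ 0 := by positivity
    have h3 : b + (M + 1) + 3 ≠ 0 := by positivity
    have hn : (n : ℕ) + (M + 1) = n + (M + 1) := rfl
    push_cast
    have hkey : (4 * s.re - b + n + k + 1)
          * (CN s b n k (M + 1) / ((b + (M + 1) + 2) * (b + (M + 1) + 3)))
        - (b + 3 + n + k) * (CN s b n k (M + 1) / ((b + (M + 1) + 1) * (b + (M + 1) + 2)))
        + (b + 2 + n) * Gm s b n
          * (Gm s b (k + (M + 1)) / ((b + (M + 1) + 1) * (b + (M + 1) + 2)))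
        + (b + 2 + k) * Gm s b k
          * (Gm s b (n + (M + 1)) / ((b + (M + 1) + 1) * (b + (M + 1) + 2)))
        = (M + 1 + 4 * s.re + 4 + n + k) / ((b + (M + 1) + 2) * (b + (M + 1) + 3))
            * CN s b n k (M + 1)
          - (M + 4 * s.re + 4 + n + k) / ((b + M + 2) * (b + M + 3)) * CN s b n k M := by
      have h4 : b + (M : ℝ) + 2 ≠ 0 := by positivity
      have h5 : b + (M : ℝ) + 3 ≠ 0 := by positivity
      have h6 : b + (M : ℝ) + 4 ≠ 0 := by positivity
      have e1 : b + ((M : ℝ) + 1) + 1 = b + M + 2 := by ring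
      have e2 : b + ((M : ℝ) + 1) + 2 = b + M + 3 := by ring
      have e3 : b + ((M : ℝ) + 1) + 3 = b + M + 4 := by ring
      rw [e1, e2, e3]
      field_simp
      linear_combination (-(b + (M : ℝ) + 4)) * h
    linear_combination ih + hkey

end NM

open NB NM

theorem MM_rec {s : ℂ} (hs : -1 < s.re) {b : ℝ} (hb : 0 < b) (hσ : 0 < b + 1 - 2 * s.re)
    (n k : ℕ) : (b + 3 + n + k) * MM s b (n + 1) k = (4 * s.re - b + n + k + 1) * MM s b n k
      + (b + 2 + k) * Gm s b k * (SS s b n 0 - SS s b n 1)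
      - (k + 1) * Gm s b n * (SS s b k 0 - SS s b k 1) := by
  set An := SS s b n 0 - SS s b n 1 with hAn
  set Ak := SS s b k 0 - SS s b k 1 with hAk
  have hM := (sum_w2 hs hb hσ n k).hasSum
  have hI := (sum_w1 hs hb hσ n k).hasSum
  have hAn' := sum_A hs hb hσ n
  have hAk' := sum_A hs hb hσ k
  rw [← hAn] at hAn'
  rw [← hAk] at hAk'
  set I := ∑' N : ℕ, CN s b n k N / ((b + N + 1) * (b + N + 2)) with hIdef
  have hMM : (∑' N : ℕ, CN s b n k N / ((b + N + 2) * (b + N + 3))) = MM s b n k := rfl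
  rw [hMM] at hM
  have ht : ∀ {f : ℕ → ℝ} {a : ℝ}, HasSum f a →
      Tendsto (fun M : ℕ => ∑ N ∈ Finset.range (M + 1), f N) atTop (𝓝 a) := by
    intro f a h
    exact h.tendsto_sum_nat.comp (tendsto_add_atTop_nat 1)
  have hlim := ((((ht hM).const_mul (4 * s.re - b + n + k + 1)).sub
    ((ht hI).const_mul (b + 3 + n + k))).add
    ((ht hAk').const_mul ((b + 2 + n) * Gm s b n))).add
    ((ht hAn').const_mul ((b + 2 + k) * Gm s b k))
  have hz : Tendsto (fun M : ℕ => ((M : ℝ) + 4 * s.re + 4 + n + k) / ((b + M + 2) * (b + M + 3))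
      * CN s b n k M) atTop (𝓝 0) := by
    apply CN_mul_tendsto hs hb hσ n k (C := 4 * |s.re| + 5 + n + k)
    intro M
    have hMn : (0 : ℝ) ≤ M := Nat.cast_nonneg M
    have hnn : (0 : ℝ) ≤ n := Nat.cast_nonneg n
    have hkk : (0 : ℝ) ≤ k := Nat.cast_nonneg k
    have hp : (0 : ℝ) < (b + M + 2) * (b + M + 3) := by positivity
    have hp1 : (0 : ℝ) < (M : ℝ) + 1 := by positivity
    rw [abs_div, abs_of_pos hp, div_le_div_iff₀ hp hp1]
    have ha : |(M : ℝ) + 4 * s.re + 4 + n + k| ≤ M + 4 * |s.re| + 4 + n + k := by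
      have h1 := neg_abs_le s.re
      have h2 := le_abs_self s.re
      rw [abs_le]
      constructor <;> linarith only [h1, h2]
    have habs : 0 ≤ |s.re| := abs_nonneg _
    set A : ℝ := 4 * |s.re| + 5 + n + k with hA
    have hA5 : 5 ≤ A := by
      rw [hA]
      linarith only [habs]
    calc |(M : ℝ) + 4 * s.re + 4 + n + k| * ((M : ℝ) + 1)
        ≤ (M + (A - 1)) * ((M : ℝ) + 1) := by
          apply mul_le_mul_of_nonneg_right _ hp1.le
          rw [hA]
          linarith only [ha]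
      _ ≤ (A * (M + 1)) * (M + 1) := by
          apply mul_le_mul_of_nonneg_right _ hp1.le
          nlinarith only [hA5]
      _ ≤ A * ((b + M + 2) * (b + M + 3)) := by
          have h3 : ((M : ℝ) + 1) * (M + 1) ≤ (b + M + 2) * (b + M + 3) := by
            apply mul_le_mul <;> linarith only [hb]
          nlinarith only [hA5, h3]
  have heq := tendsto_nhds_unique (hlim.congr (fun M => part (s := s) hb n k M)) hz
  have hshift : MM s b (n + 1) k = I - Gm s b n * Ak := by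
    have h1 := hI.summable.tsum_eq_zero_add
    have h2 := hAk'.summable.tsum_eq_zero_add
    rw [hAk'.tsum_eq] at h2
    have hs1 : Summable (fun N : ℕ => CN s b n k (N + 1) / ((b + (N + 1 : ℕ) + 1)
        * (b + (N + 1 : ℕ) + 2))) :=
      (summable_nat_add_iff (f := fun N : ℕ => CN s b n k N / ((b + N + 1) * (b + N + 2))) 1).mpr
        hI.summable
    have hs2 : Summable (fun N : ℕ => Gm s b (k + (N + 1)) / ((b + (N + 1 : ℕ) + 1)
        * (b + (N + 1 : ℕ) + 2))) :=
      (summable_nat_add_iff (f := fun N : ℕ => Gm s b (k + N) / ((b + N + 1) * (b + N + 2))) 1).mpr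
        hAk'.summable
    have h3 : MM s b (n + 1) k
        = (∑' N : ℕ, CN s b n k (N + 1) / ((b + (N + 1 : ℕ) + 1) * (b + (N + 1 : ℕ) + 2)))
          - Gm s b n * ∑' N : ℕ, Gm s b (k + (N + 1)) / ((b + (N + 1 : ℕ) + 1)
            * (b + (N + 1 : ℕ) + 2)) := by
      rw [← tsum_mul_left, ← hs1.tsum_sub (hs2.mul_left (Gm s b n))]
      unfold MM
      congr 1
      funext N
      rw [CN_shift]
      have e1 : b + ((N + 1 : ℕ) : ℝ) + 1 = b + N + 2 := by push_cast; ring
      have e2 : b + ((N + 1 : ℕ) : ℝ) + 2 = b + N + 3 := by push_cast; ring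
      rw [e1, e2]
      ring
    rw [h3]
    rw [← hIdef] at h1
    have h4 : CN s b n k 0 / ((b + (0 : ℕ) + 1) * (b + (0 : ℕ) + 2))
        = Gm s b n * (Gm s b (k + 0) / ((b + (0 : ℕ) + 1) * (b + (0 : ℕ) + 2))) := by
      rw [CN_zero, add_zero]
      ring
    linear_combination (-1 : ℝ) * h1 + Gm s b n * h2 - h4
  rw [hshift]
  linear_combination (-1 : ℝ) * heq

theorem CN_rec {s : ℂ} {b : ℝ} (hb : 0 < b) (N : ℕ) :
    (N + 2 * b + 5) * CN s b 0 0 (N + 1)
      = (N + 4 * s.re + 4) * CN s b 0 0 N + 2 * (b + 2) * Gm s b (N + 1) := by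
  have h := CN_gen (s := s) hb 0 0 N
  simp only [Nat.cast_zero, add_zero, zero_add, Gm_zero, one_mul] at h
  rw [h]
  ring

namespace NM

variable {s : ℂ} {b : ℝ}

theorem ph_bd (hb : 0 < b) (f1 f2 : ℝ) (N : ℕ) :
    |ph f1 f2 b N| ≤ (|f1| + |f2|) / ((N : ℝ) + 1) := by
  have hN : (0 : ℝ) ≤ N := Nat.cast_nonneg N
  have hp : (0 : ℝ) < (N : ℝ) + 1 := by positivity
  have h1 : (0 : ℝ) < N + 2 * b + 5 := by positivity
  have h2 : (0 : ℝ) < N + 2 * b + 6 := by positivity
  unfold ph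
  refine (abs_add_le _ _).trans ?_
  rw [abs_div, abs_div, abs_of_pos h1, abs_of_pos (mul_pos h1 h2), add_div]
  apply add_le_add
  · apply div_le_div_of_nonneg_left (abs_nonneg _) hp
    linarith
  · apply div_le_div_of_nonneg_left (abs_nonneg _) hp
    nlinarith only [hb]

theorem ch_bd (hb : 0 < b) (g1 g2 : ℝ) (N : ℕ) : |ch g1 g2 b N| ≤ |g1| + |g2| := by
  have hN : (0 : ℝ) ≤ N := Nat.cast_nonneg N
  have h1 : (0 : ℝ) < N + b + 3 := by positivity
  have h2 : (0 : ℝ) < N + b + 4 := by positivity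
  unfold ch
  refine (abs_add_le _ _).trans ?_
  rw [abs_div, abs_div, abs_of_pos h1, abs_of_pos (mul_pos h1 h2)]
  apply add_le_add
  · apply div_le_self (abs_nonneg _)
    linarith only [hb]
  · apply div_le_self (abs_nonneg _)
    nlinarith only [hb]

/-- the comparison sequence -/
noncomputable def DN (s : ℂ) (b f1 f2 g1 g2 : ℝ) (N : ℕ) : ℝ :=
  CN s b 0 0 N * ph f1 f2 b N + Gm s b N * ch g1 g2 b N

theorem DN_tendsto (hs : -1 < s.re) (hb : 0 < b) (hσ : 0 < b + 1 - 2 * s.re) (f1 f2 g1 g2 : ℝ) :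
    Tendsto (DN s b f1 f2 g1 g2) atTop (𝓝 0) := by
  have h1 := CN_mul_tendsto hs hb hσ 0 0 (f := ph f1 f2 b) (C := |f1| + |f2|)
    (fun N => ph_bd hb f1 f2 N)
  have h2 : Tendsto (fun N : ℕ => Gm s b N * ch g1 g2 b N) atTop (𝓝 0) := by
    have h3 := (Gm_tendsto hs hb hσ).mul_const (|g1| + |g2|)
    rw [zero_mul] at h3
    apply squeeze_zero_norm _ h3
    intro N
    have hG := (Gm_pos hs hb N).le
    rw [norm_mul, Real.norm_of_nonneg hG, Real.norm_eq_abs]
    exact mul_le_mul_of_nonneg_left (ch_bd hb g1 g2 N) hG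
  have h4 := h1.add h2
  rw [add_zero] at h4
  apply h4.congr
  intro N
  unfold DN
  ring

theorem DN_step (hb : 0 < b) (f1 f2 g1 g2 : ℝ) (N : ℕ) :
    DN s b f1 f2 g1 g2 N - DN s b f1 f2 g1 g2 (N + 1)
      = CN s b 0 0 N * (ph f1 f2 b N - ph f1 f2 b (N + 1)
          * ((N + 4 * s.re + 4) / (N + 2 * b + 5)))
        + Gm s b N * (ch g1 g2 b N - ch g1 g2 b (N + 1) * ((2 * s.re + 2 + N) / (b + 3 + N))
          - ph f1 f2 b (N + 1) * (2 * (b + 2) * (2 * s.re + 2 + N)
            / ((N + 2 * b + 5) * (b + 3 + N)))) := by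
  have hN : (0 : ℝ) ≤ N := Nat.cast_nonneg N
  have h1 : (N : ℝ) + 2 * b + 5 ≠ 0 := by positivity
  have h2 : b + 3 + (N : ℝ) ≠ 0 := by positivity
  have hC : CN s b 0 0 (N + 1) = ((N + 4 * s.re + 4) * CN s b 0 0 N
      + 2 * (b + 2) * Gm s b (N + 1)) / (N + 2 * b + 5) := by
    rw [← CN_rec hb N]
    field_simp
  unfold DN
  rw [hC, Gm_succ]
  field_simp
  ring

end NM

theorem MM_upper {s : ℂ} (hs : -1 < s.re) {b : ℝ} (hb : 0 < b) (hσ : 0 < b + 1 - 2 * s.re)
    (J : ℕ) {f1 f2 g1 g2 : ℝ}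
    (h1 : ∀ N : ℕ, J ≤ N → 1 / ((b + N + 2) * (b + N + 3))
      ≤ ph f1 f2 b N - ph f1 f2 b (N + 1) * ((N + 4 * s.re + 4) / (N + 2 * b + 5)))
    (h2 : ∀ N : ℕ, J ≤ N → ph f1 f2 b (N + 1) * (2 * (b + 2) * (2 * s.re + 2 + N)
        / ((N + 2 * b + 5) * (b + 3 + N)))
      ≤ ch g1 g2 b N - ch g1 g2 b (N + 1) * ((2 * s.re + 2 + N) / (b + 3 + N))) :
    MM s b 0 0 ≤ (∑ N ∈ Finset.range J, CN s b 0 0 N / ((b + N + 2) * (b + N + 3)))
      + CN s b 0 0 J * ph f1 f2 b J + Gm s b J * ch g1 g2 b J := by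
  have hsum := sum_w2 hs hb hσ 0 0
  have hpart : ∀ M : ℕ,
      (∑ N ∈ Finset.range (M + J), CN s b 0 0 N / ((b + N + 2) * (b + N + 3)))
        + DN s b f1 f2 g1 g2 (M + J)
      ≤ (∑ N ∈ Finset.range J, CN s b 0 0 N / ((b + N + 2) * (b + N + 3)))
        + DN s b f1 f2 g1 g2 J := by
    intro M
    induction M with
    | zero => rw [zero_add]
    | succ M ih =>
      have e : M + 1 + J = M + J + 1 := by ring
      rw [e, Finset.sum_range_succ]
      have hst := DN_step (s := s) hb f1 f2 g1 g2 (M + J)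
      have hc := CN_nonneg_pv1 hs hb 0 0 (M + J)
      have hg := (Gm_pos hs hb (M + J)).le
      have a1 := mul_le_mul_of_nonneg_left (h1 (M + J) (by omega)) hc
      have a2 := mul_nonneg hg (sub_nonneg.mpr (h2 (M + J) (by omega)))
      have a3 : CN s b 0 0 (M + J) / ((b + (M + J : ℕ) + 2) * (b + (M + J : ℕ) + 3))
          = CN s b 0 0 (M + J) * (1 / ((b + (M + J : ℕ) + 2) * (b + (M + J : ℕ) + 3))) := by
        ring
      rw [a3]
      linarith only [ih, hst, a1, a2]
  have hl : Tendsto (fun M : ℕ =>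
      (∑ N ∈ Finset.range (M + J), CN s b 0 0 N / ((b + N + 2) * (b + N + 3)))
        + DN s b f1 f2 g1 g2 (M + J)) atTop (𝓝 (MM s b 0 0 + 0)) :=
    (hsum.hasSum.tendsto_sum_nat.comp (tendsto_add_atTop_nat J)).add
      ((DN_tendsto hs hb hσ f1 f2 g1 g2).comp (tendsto_add_atTop_nat J))
  rw [add_zero] at hl
  have h := le_of_tendsto' hl hpart
  unfold DN at h
  linarith

theorem MM_lower {s : ℂ} (hs : -1 < s.re) {b : ℝ} (hb : 0 < b) (hσ : 0 < b + 1 - 2 * s.re)
    (J : ℕ) {f1 f2 g1 g2 : ℝ}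
    (h1 : ∀ N : ℕ, J ≤ N →
      ph f1 f2 b N - ph f1 f2 b (N + 1) * ((N + 4 * s.re + 4) / (N + 2 * b + 5))
        ≤ 1 / ((b + N + 2) * (b + N + 3)))
    (h2 : ∀ N : ℕ, J ≤ N →
      ch g1 g2 b N - ch g1 g2 b (N + 1) * ((2 * s.re + 2 + N) / (b + 3 + N))
        ≤ ph f1 f2 b (N + 1) * (2 * (b + 2) * (2 * s.re + 2 + N)
          / ((N + 2 * b + 5) * (b + 3 + N)))) :
    (∑ N ∈ Finset.range J, CN s b 0 0 N / ((b + N + 2) * (b + N + 3)))
      + CN s b 0 0 J * ph f1 f2 b J + Gm s b J * ch g1 g2 b J ≤ MM s b 0 0 := by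
  have hsum := sum_w2 hs hb hσ 0 0
  have hpart : ∀ M : ℕ,
      (∑ N ∈ Finset.range J, CN s b 0 0 N / ((b + N + 2) * (b + N + 3)))
        + DN s b f1 f2 g1 g2 J
      ≤ (∑ N ∈ Finset.range (M + J), CN s b 0 0 N / ((b + N + 2) * (b + N + 3)))
        + DN s b f1 f2 g1 g2 (M + J) := by
    intro M
    induction M with
    | zero => rw [zero_add]
    | succ M ih =>
      have e : M + 1 + J = M + J + 1 := by ring
      rw [e, Finset.sum_range_succ]
      have hst := DN_step (s := s) hb f1 f2 g1 g2 (M + J)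
      have hc := CN_nonneg_pv1 hs hb 0 0 (M + J)
      have hg := (Gm_pos hs hb (M + J)).le
      have a1 := mul_le_mul_of_nonneg_left (h1 (M + J) (by omega)) hc
      have a2 := mul_nonneg hg (sub_nonneg.mpr (h2 (M + J) (by omega)))
      have a3 : CN s b 0 0 (M + J) / ((b + (M + J : ℕ) + 2) * (b + (M + J : ℕ) + 3))
          = CN s b 0 0 (M + J) * (1 / ((b + (M + J : ℕ) + 2) * (b + (M + J : ℕ) + 3))) := by
        ring
      rw [a3]
      linarith only [ih, hst, a1, a2]
  have hl : Tendsto (fun M : ℕ =>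
      (∑ N ∈ Finset.range (M + J), CN s b 0 0 N / ((b + N + 2) * (b + N + 3)))
        + DN s b f1 f2 g1 g2 (M + J)) atTop (𝓝 (MM s b 0 0 + 0)) :=
    (hsum.hasSum.tendsto_sum_nat.comp (tendsto_add_atTop_nat J)).add
      ((DN_tendsto hs hb hσ f1 f2 g1 g2).comp (tendsto_add_atTop_nat J))
  rw [add_zero] at hl
  have h := ge_of_tendsto' hl hpart
  unfold DN at h
  linarith

end Pool.Agent.M16.Helper24.HR2
end

/- Helper94.T.Helper37.PFS.Crs -/
section
/-!
Project HR2 (MP_16b0ee): integrability of the products of cross functions, the norm of the cross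
functional as a form.
-/

set_option autoImplicit false

open Filter Topology Finset MeasureTheory Set
open scoped ComplexConjugate

namespace Pool.Agent.M16.Helper37.PFS

open Pool.Agent.M16.Helper24.HR2
open Pool.Agent.M16.Helper22.Half

theorem alp_int {s : ℂ} (hs : ‖s‖ < 1) {b : ℝ} (hσ : 0 < b + 1 - 2 * s.re) :
    IntegrableOn (alp s b) (Ioo 0 1) := by
  have hr : -1 < s.re := by
    have := Complex.abs_re_le_norm s
    have := neg_abs_le s.re
    linarith
  have h := Complex.betaIntegral_convergent (u := ((b + 1 - 2 * s.re : ℝ) : ℂ))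
    (v := ((2 * s.re + 2 : ℝ) : ℂ)) (by rw [Complex.ofReal_re]; exact hσ)
    (by rw [Complex.ofReal_re]; linarith)
  rw [intervalIntegrable_iff_integrableOn_Ioo_of_le zero_le_one] at h
  have h2 := h.norm
  refine h2.congr ?_
  filter_upwards [ae_restrict_mem measurableSet_Ioo] with x hx
  have hx0 : 0 < x := hx.1
  have hx1 : 0 < 1 - x := by linarith [hx.2]
  have e1 : (1 - (x : ℂ)) = ((1 - x : ℝ) : ℂ) := by push_cast; ring
  rw [norm_mul, e1, Complex.norm_cpow_eq_rpow_re_of_pos hx0,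
    Complex.norm_cpow_eq_rpow_re_of_pos hx1, Complex.sub_re, Complex.sub_re, Complex.one_re,
    Complex.ofReal_re, Complex.ofReal_re]
  unfold alp
  have e2 : b + 1 - 2 * s.re - 1 = b - 2 * s.re := by ring
  have e3 : 2 * s.re + 2 - 1 = 2 * s.re + 1 := by ring
  rw [e2, e3]
  ring

theorem kp_le (D : ℕ) (p : ℕ → ℕ → ℝ) {X Y : ℝ} (hX0 : 0 ≤ X) (hX1 : X ≤ 1) (hY0 : 0 ≤ Y)
    (hY1 : Y ≤ 1) :
    |kp D p X Y| ≤ (∑ n ∈ Finset.range D, ∑ l ∈ Finset.range D, |p n l|) * Y := by
  unfold kp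
  rw [Finset.sum_mul]
  refine (Finset.abs_sum_le_sum_abs _ _).trans (Finset.sum_le_sum (fun n _ => ?_))
  rw [Finset.sum_mul]
  refine (Finset.abs_sum_le_sum_abs _ _).trans (Finset.sum_le_sum (fun l _ => ?_))
  rw [abs_mul, abs_mul, abs_of_nonneg (pow_nonneg hX0 n), abs_of_nonneg (pow_nonneg hY0 (l + 1)),
    pow_succ]
  have h1 : X ^ n ≤ 1 := pow_le_one₀ hX0 hX1
  have h2 : Y ^ l ≤ 1 := pow_le_one₀ hY0 hY1
  have h3 : X ^ n * Y ^ l ≤ 1 := mul_le_one₀ h1 (pow_nonneg hY0 l) h2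
  have h4 : 0 ≤ |p n l| * Y := mul_nonneg (abs_nonneg _) hY0
  calc |p n l| * X ^ n * (Y ^ l * Y) = (|p n l| * Y) * (X ^ n * Y ^ l) := by ring
    _ ≤ (|p n l| * Y) * 1 := mul_le_mul_of_nonneg_left h3 h4
    _ = |p n l| * Y := mul_one _

theorem rl_bdd {b : ℝ} (hb : 0 < b) (D : ℕ) (p : ℕ → ℕ → ℝ) :
    ∃ M : ℝ, 0 ≤ M ∧ ∀ l, ∀ x ∈ Ioo (0 : ℝ) 1, |rl b D p l x| ≤ M := by
  set C0 := ∑ n ∈ Finset.range D, ∑ l ∈ Finset.range D, |p n l| with hC0
  have hC0n : 0 ≤ C0 := Finset.sum_nonneg (fun _ _ => Finset.sum_nonneg (fun _ _ => abs_nonneg _))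
  have hint : IntegrableOn (fun y : ℝ => (1 + C0) * (y + 1) ^ (-b - 2)) (Ioi 0) :=
    (integrableOn_add_rpow_Ioi_of_lt (a := -b - 2) (c := 0) (m := 1) (by linarith)
      (by norm_num)).const_mul _
  refine ⟨∫ y in Ioi (0 : ℝ), (1 + C0) * (y + 1) ^ (-b - 2), ?_, ?_⟩
  · apply setIntegral_nonneg measurableSet_Ioi
    intro y hy
    have : (0 : ℝ) < y := hy
    positivity
  · intro l x hx
    unfold rl
    rw [← Real.norm_eq_abs]
    apply norm_integral_le_of_norm_le hint
    filter_upwards [ae_restrict_mem measurableSet_Ioi] with y hy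
    have hy0 : 0 < y := hy
    have hx0 : 0 < x := hx.1
    have hx1 : x < 1 := hx.2
    set Y := 1 / (1 + y) with hY
    have hY0 : 0 < Y := by positivity
    have hY1 : Y ≤ 1 := by
      rw [hY, div_le_one (by positivity)]
      linarith
    have hk := kp_le D p (X := 1 - x) (Y := Y) (by linarith) (by linarith) hY0.le hY1
    rw [← hC0] at hk
    have hR : |RR D p x y| ≤ 1 / (x + y) + C0 * Y := by
      unfold RR
      refine (abs_sub _ _).trans ?_
      rw [abs_of_pos (by positivity : 0 < 1 / (x + y))]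
      linarith
    have hP : 0 < (1 + y) ^ (-b - 2) := by positivity
    have hYl : Y ^ l ≤ 1 := pow_le_one₀ hY0.le hY1
    have h1 : y * (1 / (x + y)) ≤ 1 := by
      rw [mul_one_div, div_le_one (by positivity)]
      linarith
    have h2 : y * Y ≤ 1 := by
      rw [hY, mul_one_div, div_le_one (by positivity)]
      linarith
    have h3 : y * |RR D p x y| ≤ 1 + C0 := by
      have := mul_le_mul_of_nonneg_left hR hy0.le
      nlinarith only [hC0n, h1, h2, this]
    rw [Real.norm_eq_abs, abs_mul, abs_mul]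
    unfold bet
    rw [abs_mul, abs_of_pos hy0, abs_of_pos hP, abs_of_pos (pow_pos hY0 l)]
    have e : y + 1 = 1 + y := by ring
    rw [e]
    calc y * (1 + y) ^ (-b - 2) * Y ^ l * |RR D p x y|
        = ((1 + y) ^ (-b - 2) * (y * |RR D p x y|)) * Y ^ l := by ring
      _ ≤ ((1 + y) ^ (-b - 2) * (y * |RR D p x y|)) * 1 :=
          mul_le_mul_of_nonneg_left hYl (by positivity)
      _ ≤ (1 + C0) * (1 + y) ^ (-b - 2) := by
          rw [mul_one, mul_comm]
          exact mul_le_mul_of_nonneg_right h3 hP.le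

theorem rl_meas (b : ℝ) (D : ℕ) (p : ℕ → ℕ → ℝ) (l : ℕ) :
    StronglyMeasurable (rl b D p l) := by
  have hm : Measurable (Function.uncurry (fun x y : ℝ =>
      bet b y * (1 / (1 + y)) ^ l * RR D p x y)) := by
    unfold bet RR kp Function.uncurry
    fun_prop
  exact (hm.stronglyMeasurable).integral_prod_right

theorem alp_rl_int {s : ℂ} (hs : ‖s‖ < 1) {b : ℝ} (hb : 0 < b) (hσ : 0 < b + 1 - 2 * s.re)
    (D : ℕ) (p : ℕ → ℕ → ℝ) (l k : ℕ) :
    IntegrableOn (fun x => alp s b x * rl b D p l x * rl b D p k x) (Ioo 0 1) := by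
  obtain ⟨M, hM0, hM⟩ := rl_bdd hb D p
  have h1 : IntegrableOn (fun x => M * M * alp s b x) (Ioo 0 1) :=
    (alp_int hs hσ).const_mul _
  refine Integrable.mono' h1 ?_ ?_
  · exact ((alp_int hs hσ).aestronglyMeasurable.mul
      (rl_meas b D p l).aestronglyMeasurable).mul (rl_meas b D p k).aestronglyMeasurable
  · filter_upwards [ae_restrict_mem measurableSet_Ioo] with x hx
    have ha : 0 ≤ alp s b x := by
      unfold alp
      have : 0 < x := hx.1
      have : 0 < 1 - x := by linarith [hx.2]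
      positivity
    rw [Real.norm_eq_abs, abs_mul, abs_mul, abs_of_nonneg ha]
    have h2 := mul_le_mul (hM l x hx) (hM k x hx) (abs_nonneg _) hM0
    have h3 := mul_le_mul_of_nonneg_left h2 ha
    linarith

theorem Ncross_eq {s : ℂ} (hs : ‖s‖ < 1) {b : ℝ} (hb : 0 < b) (hσ : 0 < b + 1 - 2 * s.re)
    (D : ℕ) (p : ℕ → ℕ → ℝ) (F : ℕ → ℂ) :
    Ncross s b D p F = (1 / B0 s b) * ∑ l ∈ Finset.range (D + 1), ∑ k ∈ Finset.range (D + 1),
      (conj (F l) * F k).re
        * ∫ x in Ioo (0 : ℝ) 1, alp s b x * rl b D p l x * rl b D p k x := by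
  unfold Ncross
  congr 1
  have e : ∀ x : ℝ, alp s b x * ‖∑ l ∈ Finset.range (D + 1), F l * (rl b D p l x : ℂ)‖ ^ 2
      = ∑ l ∈ Finset.range (D + 1), ∑ k ∈ Finset.range (D + 1), (conj (F l) * F k).re
        * (alp s b x * rl b D p l x * rl b D p k x) := by
    intro x
    rw [nsq_sum, Finset.mul_sum]
    apply Finset.sum_congr rfl
    intro l _
    rw [Finset.mul_sum]
    apply Finset.sum_congr rfl
    intro k _
    have e1 : F l * (rl b D p l x : ℂ) * conj (F k * (rl b D p k x : ℂ))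
        = ((rl b D p l x * rl b D p k x : ℝ) : ℂ) * (F l * conj (F k)) := by
      rw [map_mul, Complex.conj_ofReal]
      push_cast
      ring
    have e2 : (conj (F l) * F k).re = (F l * conj (F k)).re := by
      simp only [Complex.mul_re, Complex.conj_re, Complex.conj_im]
      ring
    rw [e1, Complex.re_ofReal_mul, e2]
    ring
  rw [integral_congr_ae (Eventually.of_forall e), integral_finsetSum]
  · apply Finset.sum_congr rfl
    intro l _
    rw [integral_finsetSum]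
    · apply Finset.sum_congr rfl
      intro k _
      rw [integral_const_mul]
    · intro k _
      exact (alp_rl_int hs hb hσ D p l k).const_mul _
  · intro l _
    apply integrable_finsetSum
    intro k _
    exact (alp_rl_int hs hb hσ D p l k).const_mul _

end Pool.Agent.M16.Helper37.PFS
end

/- Helper94.T.Helper65.HR2.Fast -/
section
/-!
MP_16b0ee, project HR2: vectors of rational numbers with a common denominator; scalar products by
integer arithmetic, for fast evaluation in the kernel.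
-/

set_option autoImplicit false

open scoped ComplexConjugate

namespace Pool.Agent.M16.Helper65.HR2

/-- scalar product of lists of integers -/
noncomputable def dotI : List ℤ → List ℤ → ℤ :=
  List.rec (motive := fun _ => List ℤ → ℤ) (fun _ => 0)
    (fun a _ ih v => List.rec (motive := fun _ => ℤ) 0
      (fun b t _ => Int.add (Int.mul a b) (ih t)) v)

theorem dotI_nil (v : List ℤ) : dotI [] v = 0 := rfl

theorem dotI_cons_nil (a : ℤ) (u : List ℤ) : dotI (a :: u) [] = 0 := rfl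

theorem dotI_cons (a b : ℤ) (u v : List ℤ) : dotI (a :: u) (b :: v) = a * b + dotI u v := rfl

theorem dotI_eq (u : List ℤ) : ∀ (v : List ℤ) (n : ℕ), u.length ≤ n →
    dotI u v = ∑ i ∈ Finset.range n, u.getD i 0 * v.getD i 0 := by
  induction u with
  | nil =>
    intro v n _
    rw [dotI_nil]
    simp
  | cons a u ih =>
    intro v n hn
    obtain ⟨m, rfl⟩ : ∃ m, n = m + 1 := by
      rcases n with _ | m
      · simp at hn
      · exact ⟨m, rfl⟩
    have hm : u.length ≤ m := by simpa using hn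
    rcases v with _ | ⟨b, v⟩
    · rw [dotI_cons_nil]
      simp
    · rw [dotI_cons, ih v m hm, Finset.sum_range_succ']
      simp
      ring

/-- dropping the first elements -/
noncomputable def dropI : ℕ → List ℤ → List ℤ :=
  Nat.rec (motive := fun _ => List ℤ → List ℤ) (fun l => l)
    (fun _ ih l => List.rec (motive := fun _ => List ℤ) [] (fun _ t _ => ih t) l)

theorem dropI_getD (i : ℕ) : ∀ (l : List ℤ) (j : ℕ), (dropI i l).getD j 0 = l.getD (i + j) 0 := by
  induction i with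
  | zero =>
    intro l j
    rw [Nat.zero_add]
    rfl
  | succ i ih =>
    intro l j
    rcases l with _ | ⟨a, l⟩
    · change ([] : List ℤ).getD j 0 = _
      simp
    · change (dropI i l).getD j 0 = _
      rw [ih l j, Nat.succ_add]
      rfl

/-- a vector with a common denominator -/
structure SV where
  /-- denominator -/
  den : ℕ
  /-- numerators -/
  num : List ℤ

/-- an entry -/
def SV.get (v : SV) (i : ℕ) : ℚ := (v.num.getD i 0 : ℚ) / v.den

/-- dropping the first entries -/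
noncomputable def sdrop (i : ℕ) (v : SV) : SV := ⟨v.den, dropI i v.num⟩

theorem sdrop_get (i : ℕ) (v : SV) (j : ℕ) : (sdrop i v).get j = v.get (i + j) := by
  rw [SV.get, SV.get, sdrop, dropI_getD]

/-- scalar product -/
noncomputable def sdot (u v : SV) : ℚ := mkRat (dotI u.num v.num) (Nat.mul u.den v.den)

theorem sdot_eq (u v : SV) (n : ℕ) (h : u.num.length ≤ n) :
    sdot u v = ∑ i ∈ Finset.range n, u.get i * v.get i := by
  rw [sdot, Rat.mkRat_eq_div, dotI_eq _ _ n h]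
  simp only [SV.get]
  rw [show ((Nat.mul u.den v.den : ℕ) : ℚ) = (u.den : ℚ) * v.den from by
    rw [← Nat.cast_mul]; rfl]
  push_cast
  rw [Finset.sum_div]
  refine Finset.sum_congr rfl (fun i _ => ?_)
  rw [div_mul_div_comm]

/-- the least common denominator -/
noncomputable def lcd (f : ℕ → ℚ) : ℕ → ℕ :=
  Nat.rec (motive := fun _ => ℕ) 1 (fun n ih => Nat.lcm ih (f n).den)

theorem lcd_pos (f : ℕ → ℚ) (n : ℕ) : 0 < lcd f n := by
  induction n with
  | zero => exact Nat.one_pos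
  | succ n ih => exact Nat.lcm_pos ih (f n).den_pos

theorem den_dvd_lcd (f : ℕ → ℚ) (n : ℕ) {i : ℕ} (hi : i < n) : (f i).den ∣ lcd f n := by
  induction n with
  | zero => omega
  | succ n ih =>
    change (f i).den ∣ Nat.lcm (lcd f n) (f n).den
    rcases Nat.lt_succ_iff_lt_or_eq.1 hi with h | h
    · exact (ih h).trans (Nat.dvd_lcm_left _ _)
    · rw [h]
      exact Nat.dvd_lcm_right _ _

/-- the numerator of `q` over the denominator `L` -/
noncomputable def nmr (L : ℕ) (q : ℚ) : ℤ := Int.mul q.num (Int.ofNat (Nat.div L q.den))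

theorem nmr_eq {L : ℕ} (hL : 0 < L) {q : ℚ} (h : q.den ∣ L) : (nmr L q : ℚ) / L = q := by
  obtain ⟨k, rfl⟩ := h
  have hk : Nat.div (q.den * k) q.den = k := Nat.mul_div_cancel_left k q.den_pos
  have e : nmr (q.den * k) q = q.num * (k : ℤ) := by
    rw [nmr, hk]
    rfl
  rw [e]
  have hk0 : (k : ℚ) ≠ 0 := by
    intro h0
    have : k = 0 := by exact_mod_cast h0
    rw [this] at hL
    simp at hL
  have hd : (q.den : ℚ) ≠ 0 := by exact_mod_cast q.den_pos.ne'
  push_cast
  rw [mul_div_mul_right _ _ hk0]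
  exact Rat.num_div_den q

/-- list of the values of a function (the indices are literals in the kernel) -/
noncomputable def tabG {α : Type} (f : ℕ → α) (n : ℕ) : List α :=
  Nat.rec (motive := fun _ => List α → List α) (fun acc => acc)
    (fun k ih acc => ih (f k :: acc)) n []

theorem tabG_eq {α : Type} (f : ℕ → α) (n : ℕ) : tabG f n = (List.range n).map f := by
  have h : ∀ (n : ℕ) (acc : List α), (Nat.rec (motive := fun _ => List α → List α)
      (fun acc => acc) (fun k ih acc => ih (f k :: acc)) n acc : List α)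
      = (List.range n).map f ++ acc := by
    intro n
    induction n with
    | zero => intro acc; rfl
    | succ n ih =>
      intro acc
      change (Nat.rec (motive := fun _ => List α → List α)
        (fun acc => acc) (fun k ih acc => ih (f k :: acc)) n (f n :: acc) : List α) = _
      rw [ih, List.range_succ, List.map_append, List.append_assoc]
      rfl
  rw [tabG, h, List.append_nil]

theorem tabG_length {α : Type} (f : ℕ → α) (n : ℕ) : (tabG f n).length = n := by
  rw [tabG_eq, List.length_map, List.length_range]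

theorem tabG_getElem {α : Type} (f : ℕ → α) (n : ℕ) {j : ℕ} (h : j < n) :
    (tabG f n)[j]? = some (f j) := by
  rw [tabG_eq, List.getElem?_map, List.getElem?_range h]
  rfl

theorem tabG_getD {α : Type} (f : ℕ → α) (n : ℕ) {j : ℕ} (h : j < n) (d : α) :
    (tabG f n).getD j d = f j := by
  rw [List.getD_eq_getElem?_getD, tabG_getElem f n h]
  rfl

/-- a matrix with a common denominator -/
structure RM where
  /-- denominator -/
  den : ℕ
  /-- rows -/
  rows : List (List ℤ)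

/-- the least common denominator of a matrix -/
noncomputable def lcd2 (f : ℕ → ℕ → ℚ) (m' : ℕ) : ℕ → ℕ :=
  Nat.rec (motive := fun _ => ℕ) 1 (fun n ih => Nat.lcm ih (lcd (f n) m'))

theorem lcd2_pos (f : ℕ → ℕ → ℚ) (m' n : ℕ) : 0 < lcd2 f m' n := by
  induction n with
  | zero => exact Nat.one_pos
  | succ n ih => exact Nat.lcm_pos ih (lcd_pos (f n) m')

theorem den_dvd_lcd2 (f : ℕ → ℕ → ℚ) (m' n : ℕ) {i j : ℕ} (hi : i < n) (hj : j < m') :
    (f i j).den ∣ lcd2 f m' n := by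
  induction n with
  | zero => omega
  | succ n ih =>
    change (f i j).den ∣ Nat.lcm (lcd2 f m' n) (lcd (f n) m')
    rcases Nat.lt_succ_iff_lt_or_eq.1 hi with h | h
    · exact (ih h).trans (Nat.dvd_lcm_left _ _)
    · rw [h]
      exact (den_dvd_lcd (f n) m' hj).trans (Nat.dvd_lcm_right _ _)

/-- a matrix from a function -/
noncomputable def rm (f : ℕ → ℕ → ℚ) (m m' : ℕ) : RM :=
  ⟨lcd2 f m' m, tabG (fun i => tabG (fun j => nmr (lcd2 f m' m) (f i j)) m') m⟩

/-- product of a matrix and a vector -/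
noncomputable def mv (X : RM) (v : SV) : SV :=
  ⟨Nat.mul X.den v.den, List.rec (motive := fun _ => List ℤ) []
    (fun row _ ih => dotI row v.num :: ih) X.rows⟩

theorem mv_num (X : RM) (v : SV) : (mv X v).num = X.rows.map (fun row => dotI row v.num) := by
  rw [mv]
  simp only
  induction X.rows with
  | nil => rfl
  | cons a l ih =>
    rw [List.map_cons, ← ih]

theorem mv_get (f : ℕ → ℕ → ℚ) (m m' : ℕ) (v : SV) {i : ℕ} (hi : i < m) :
    (mv (rm f m m') v).get i = ∑ j ∈ Finset.range m', f i j * v.get j := by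
  rw [SV.get, mv_num]
  have h1 : ((rm f m m').rows.map (fun row => dotI row v.num)).getD i 0
      = dotI (tabG (fun j => nmr (lcd2 f m' m) (f i j)) m') v.num := by
    rw [List.getD_eq_getElem?_getD, List.getElem?_map, rm]
    simp only
    rw [tabG_getElem _ _ hi]
    rfl
  rw [h1, dotI_eq _ _ m' (by rw [tabG_length])]
  have h2 : (((mv (rm f m m') v).den : ℕ) : ℚ) = (lcd2 f m' m : ℚ) * v.den := by
    rw [← Nat.cast_mul]
    rfl
  rw [h2]
  push_cast
  rw [Finset.sum_div]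
  refine Finset.sum_congr rfl (fun j hj => ?_)
  have hj' := Finset.mem_range.1 hj
  rw [tabG_getD _ _ hj', ← div_mul_div_comm,
    nmr_eq (lcd2_pos f m' m) (den_dvd_lcd2 f m' m hi hj'), SV.get]

theorem mv_length (f : ℕ → ℕ → ℚ) (m m' : ℕ) (v : SV) : (mv (rm f m m') v).num.length = m := by
  rw [mv_num, List.length_map, rm]
  exact tabG_length _ _

end Pool.Agent.M16.Helper65.HR2
end

/- Helper94.T.Helper65.HR2.GQ -/
section
/-!
MP_16b0ee, project HR2: exact rational arithmetic for the area form at one point. Gaussian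
rationals, finite sums, Hermitian forms of order three.
-/

set_option autoImplicit false

open scoped ComplexConjugate

namespace Pool.Agent.M16.Helper65.HR2

open Pool.Agent.M16.Helper24.HR2

/-- Gaussian rationals -/
structure GQ where
  /-- real part -/
  re : ℚ
  /-- imaginary part -/
  im : ℚ

namespace GQ

/-- zero -/
def zero : GQ := ⟨0, 0⟩

/-- sum -/
def add (x y : GQ) : GQ := ⟨x.re + y.re, x.im + y.im⟩

/-- difference -/
def sub (x y : GQ) : GQ := ⟨x.re - y.re, x.im - y.im⟩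

/-- product -/
def mul (x y : GQ) : GQ := ⟨x.re * y.re - x.im * y.im, x.re * y.im + x.im * y.re⟩

/-- conjugate -/
def cj (x : GQ) : GQ := ⟨x.re, -x.im⟩

/-- product with a rational number -/
def sc (q : ℚ) (x : GQ) : GQ := ⟨q * x.re, q * x.im⟩

/-- square of the modulus -/
def nsq (x : GQ) : ℚ := x.re * x.re + x.im * x.im

/-- inverse -/
def inv (x : GQ) : GQ := ⟨x.re / x.nsq, -x.im / x.nsq⟩

/-- the complex number -/
noncomputable def toC (x : GQ) : ℂ := ⟨(x.re : ℝ), (x.im : ℝ)⟩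

theorem toC_re (x : GQ) : x.toC.re = (x.re : ℝ) := rfl

theorem toC_im (x : GQ) : x.toC.im = (x.im : ℝ) := rfl

theorem toC_zero : zero.toC = 0 := by
  apply Complex.ext <;> simp [toC, zero]

theorem toC_add (x y : GQ) : (x.add y).toC = x.toC + y.toC := by
  apply Complex.ext <;> simp [toC, add]

theorem toC_sub (x y : GQ) : (x.sub y).toC = x.toC - y.toC := by
  apply Complex.ext <;> simp [toC, sub]

theorem toC_mul (x y : GQ) : (x.mul y).toC = x.toC * y.toC := by
  apply Complex.ext <;> simp [toC, mul]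

theorem toC_cj (x : GQ) : x.cj.toC = conj x.toC := by
  apply Complex.ext <;> simp [toC, cj]

theorem toC_sc (q : ℚ) (x : GQ) : (x.sc q).toC = ((q : ℝ) : ℂ) * x.toC := by
  apply Complex.ext <;> simp [toC, sc]

theorem toC_mk (q : ℚ) : (GQ.mk q 0).toC = ((q : ℝ) : ℂ) := by
  apply Complex.ext <;> simp [toC]

theorem nsq_eq (x : GQ) : ((x.nsq : ℚ) : ℝ) = ‖x.toC‖ ^ 2 := by
  rw [← Complex.normSq_eq_norm_sq, Complex.normSq_apply, toC_re, toC_im, nsq]
  push_cast
  ring

theorem toC_inv (x : GQ) : x.inv.toC = (x.toC)⁻¹ := by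
  have h : Complex.normSq x.toC = ((x.nsq : ℚ) : ℝ) := by
    rw [Complex.normSq_apply, toC_re, toC_im, nsq]
    push_cast
    ring
  apply Complex.ext
  · rw [Complex.inv_re, h, toC_re, toC_re, inv]
    push_cast
    ring
  · rw [Complex.inv_im, h, toC_im, toC_im, inv]
    push_cast
    ring

end GQ

/-- finite sums of rational numbers -/
def sm (f : ℕ → ℚ) : ℕ → ℚ
  | 0 => 0
  | n + 1 => sm f n + f n

theorem sm_eq (f : ℕ → ℚ) (n : ℕ) : ((sm f n : ℚ) : ℝ) = ∑ i ∈ Finset.range n, (f i : ℝ) := by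
  induction n with
  | zero => simp [sm]
  | succ n ih => rw [sm, Finset.sum_range_succ, ← ih]; push_cast; ring

/-- finite sums of Gaussian rationals -/
def smG (f : ℕ → GQ) : ℕ → GQ
  | 0 => GQ.zero
  | n + 1 => (smG f n).add (f n)

theorem smG_eq (f : ℕ → GQ) (n : ℕ) : (smG f n).toC = ∑ i ∈ Finset.range n, (f i).toC := by
  induction n with
  | zero => simp [smG, GQ.toC_zero]
  | succ n ih => rw [smG, Finset.sum_range_succ, ← ih, GQ.toC_add]

/-! Hermitian forms -/

theorem hF_add (K : ℕ) (P Q : ℕ → ℕ → ℂ) (g : ℕ → ℂ) :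
    hF K (fun r t => P r t + Q r t) g = hF K P g + hF K Q g := by
  simp only [hF, add_mul, Complex.add_re, Finset.sum_add_distrib]

theorem hF_sub (K : ℕ) (P Q : ℕ → ℕ → ℂ) (g : ℕ → ℂ) :
    hF K (fun r t => P r t - Q r t) g = hF K P g - hF K Q g := by
  simp only [hF, sub_mul, Complex.sub_re, Finset.sum_sub_distrib]

theorem hF_smul (K : ℕ) (a : ℝ) (P : ℕ → ℕ → ℂ) (g : ℕ → ℂ) :
    hF K (fun r t => (a : ℂ) * P r t) g = a * hF K P g := by
  simp only [hF, mul_assoc, Complex.re_ofReal_mul, Finset.mul_sum]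

theorem hF_sum (K : ℕ) {ι : Type} (S : Finset ι) (P : ι → ℕ → ℕ → ℂ) (g : ℕ → ℂ) :
    hF K (fun r t => ∑ i ∈ S, P i r t) g = ∑ i ∈ S, hF K (P i) g := by
  classical
  induction S using Finset.induction_on with
  | empty => simp [hF]
  | insert a S ha ih =>
    simp only [Finset.sum_insert ha]
    rw [hF_add, ih]

/-- the form of a product of two linear functionals -/
theorem hF_prod (K : ℕ) (A B : ℕ → ℂ) (g : ℕ → ℂ) :
    hF K (fun r t => A t * conj (B r)) g
      = ((∑ t ∈ Finset.range K, A t * g t) * conj (∑ r ∈ Finset.range K, B r * g r)).re := by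
  rw [hF, map_sum, Finset.sum_mul_sum, Finset.sum_comm, Complex.re_sum]
  refine Finset.sum_congr rfl (fun r _ => ?_)
  rw [Complex.re_sum]
  refine Finset.sum_congr rfl (fun t _ => ?_)
  rw [map_mul]
  congr 1
  ring

end Pool.Agent.M16.Helper65.HR2
end

/- Helper94.T.Helper24.HR2.NumA -/
section
/-!
MP_16b0ee, project HR2: the moments of the limit densities.
-/

set_option autoImplicit false

open MeasureTheory Set Metric Filter Topology
open scoped Real ComplexConjugate

namespace Pool.Agent.M16.Helper24.HR2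

open Pool.Agent.M16.Helper22.Half

private lemma beta_real {u v : ℝ} (hu : 0 < u) (hv : 0 < v) :
    IntegrableOn (fun x : ℝ => (1 - x) ^ (v - 1) * x ^ (u - 1)) (Ioo 0 1) ∧
      ∫ x in Ioo (0 : ℝ) 1, (1 - x) ^ (v - 1) * x ^ (u - 1) = ProbabilityTheory.beta u v := by
  have h1 := Complex.betaIntegral_convergent (u := (u : ℂ)) (v := (v : ℂ)) (by simpa) (by simpa)
  rw [intervalIntegrable_iff_integrableOn_Ioc_of_le zero_le_one] at h1
  have h2 : IntegrableOn (fun x : ℝ => ((x : ℂ) ^ ((u : ℂ) - 1)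
      * (1 - (x : ℂ)) ^ ((v : ℂ) - 1)).re) (Ioc 0 1) := h1.re
  have h3 : ∀ x ∈ Ioc (0 : ℝ) 1, ((x : ℂ) ^ ((u : ℂ) - 1) * (1 - (x : ℂ)) ^ ((v : ℂ) - 1)).re
      = (1 - x) ^ (v - 1) * x ^ (u - 1) := by
    intro x hx
    have e1 : ((x : ℂ) ^ ((u : ℂ) - 1)) = ((x ^ (u - 1) : ℝ) : ℂ) := by
      rw [Complex.ofReal_cpow hx.1.le]
      norm_num
    have e2 : ((1 - (x : ℂ)) ^ ((v : ℂ) - 1)) = (((1 - x) ^ (v - 1) : ℝ) : ℂ) := by
      rw [Complex.ofReal_cpow (by linarith only [hx.2])]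
      norm_num
    rw [e1, e2, ← Complex.ofReal_mul, Complex.ofReal_re, mul_comm]
  constructor
  · exact (h2.congr_fun h3 measurableSet_Ioc).mono_set Ioo_subset_Ioc_self
  · rw [ProbabilityTheory.beta_eq_betaIntegralReal u v hu hv, Complex.betaIntegral,
      intervalIntegral.integral_of_le zero_le_one, ← integral_Ioc_eq_integral_Ioo]
    have h4 : (∫ x in Ioc (0 : ℝ) 1, (x : ℂ) ^ ((u : ℂ) - 1)
        * (1 - (x : ℂ)) ^ ((v : ℂ) - 1)).re = ∫ x in Ioc (0 : ℝ) 1, ((x : ℂ) ^ ((u : ℂ) - 1)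
        * (1 - (x : ℂ)) ^ ((v : ℂ) - 1)).re := by
      have := integral_re (𝕜 := ℂ) h1
      simpa using this.symm
    rw [h4]
    exact (setIntegral_congr_fun measurableSet_Ioc h3).symm

private lemma beta_succ {u v : ℝ} (hu : 0 < u) (hv : 0 < v) :
    ProbabilityTheory.beta u (v + 1) = ProbabilityTheory.beta u v * (v / (u + v)) := by
  unfold ProbabilityTheory.beta
  rw [Real.Gamma_add_one hv.ne', ← add_assoc, Real.Gamma_add_one (by positivity)]
  have h1 : Real.Gamma (u + v) ≠ 0 := (Real.Gamma_pos_of_pos (by positivity)).ne'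
  have h2 : u + v ≠ 0 := by positivity
  field_simp

private lemma beta_add_nat {u v : ℝ} (hu : 0 < u) (hv : 0 < v) (n : ℕ) :
    ProbabilityTheory.beta u (v + n) = ProbabilityTheory.beta u v
      * ∏ k ∈ Finset.range n, (v + k) / (u + v + k) := by
  induction n with
  | zero => simp
  | succ n ih =>
    rw [Finset.prod_range_succ, ← mul_assoc, ← ih, Nat.cast_succ, ← add_assoc,
      beta_succ hu (by positivity), add_assoc u v (n : ℝ)]

theorem B0_pos {s : ℂ} (hs : -1 < s.re) {b : ℝ} (hσ : 0 < b + 1 - 2 * s.re) :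
    0 < B0 s b ∧ IntegrableOn (alp s b) (Ioo 0 1) := by
  have hv : 0 < 2 * s.re + 2 := by linarith only [hs]
  obtain ⟨h1, h2⟩ := beta_real hσ hv
  have e : (fun x : ℝ => (1 - x) ^ (2 * s.re + 2 - 1) * x ^ (b + 1 - 2 * s.re - 1)) = alp s b := by
    funext x
    unfold alp
    congr 2 <;> ring
  rw [e] at h1 h2
  refine ⟨?_, h1⟩
  unfold B0
  rw [h2]
  exact ProbabilityTheory.beta_pos hσ hv

theorem mom_alp {s : ℂ} (hs : -1 < s.re) {b : ℝ} (hσ : 0 < b + 1 - 2 * s.re) (n : ℕ) :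
    (1 / B0 s b) * ∫ x in Ioo (0 : ℝ) 1, alp s b x * (1 - x) ^ n = Gm s b n := by
  have hv : 0 < 2 * s.re + 2 := by linarith only [hs]
  obtain ⟨h1, h2⟩ := beta_real hσ hv
  have hvn : 0 < 2 * s.re + 2 + n := by positivity
  obtain ⟨h3, h4⟩ := beta_real hσ hvn
  have e : ∀ x : ℝ, (1 - x) ^ (2 * s.re + 2 - 1) * x ^ (b + 1 - 2 * s.re - 1) = alp s b x := by
    intro x
    unfold alp
    congr 2 <;> ring
  simp only [e] at h1 h2
  have e2 : ∫ x in Ioo (0 : ℝ) 1, alp s b x * (1 - x) ^ n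
      = ProbabilityTheory.beta (b + 1 - 2 * s.re) (2 * s.re + 2 + n) := by
    rw [← h4]
    refine setIntegral_congr_fun measurableSet_Ioo fun x hx => ?_
    have hx1 : 0 < 1 - x := by linarith [hx.2]
    show alp s b x * (1 - x) ^ n = _
    rw [← e x, mul_right_comm, ← Real.rpow_add_natCast hx1.ne']
    congr 2
    ring
  have e3 : B0 s b = ProbabilityTheory.beta (b + 1 - 2 * s.re) (2 * s.re + 2) := h2
  have hB := ProbabilityTheory.beta_pos hσ hv
  rw [e2, e3, beta_add_nat hσ hv, ← mul_assoc, one_div, inv_mul_cancel₀ hB.ne', one_mul]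
  unfold Gm
  refine Finset.prod_congr rfl fun k _ => ?_
  congr 1
  ring

theorem mom_bet {b : ℝ} (hb : 0 < b) (l : ℕ) :
    ∫ y in Ioi (0 : ℝ), bet b y * (1 / (1 + y)) ^ l = 1 / ((b + l) * (b + l + 1)) := by
  have hbl : 0 < b + l := by positivity
  have hbl1 : 0 < b + l + 1 := by positivity
  have e1 : ∀ y : ℝ, 0 ≤ y → bet b y * (1 / (1 + y)) ^ l =
      (1 + y) ^ (-(b + l) - 1) - (1 + y) ^ (-(b + l + 1) - 1) := by
    intro y hy
    have hy1 : 0 < 1 + y := by linarith
    unfold bet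
    have h1 : (1 / (1 + y)) ^ l = (1 + y) ^ (-(l : ℝ)) := by
      rw [Real.rpow_neg hy1.le, Real.rpow_natCast, one_div, inv_pow]
    have h2 : (1 + y) ^ (-(b + l) - 1) = (1 + y) * (1 + y) ^ (-(b + l + 1) - 1) := by
      have h3 := Real.rpow_add hy1 1 (-(b + l + 1) - 1)
      rw [Real.rpow_one] at h3
      rw [← h3]
      congr 1
      ring
    rw [h1, h2, mul_assoc, ← Real.rpow_add hy1]
    have h4 : -b - 2 + -(l : ℝ) = -(b + l + 1) - 1 := by ring
    rw [h4]
    ring
  have e2 : ∫ y in Ioi (0 : ℝ), bet b y * (1 / (1 + y)) ^ l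
      = ∫ y in Ioi (0 : ℝ), ((1 + y) ^ (-(b + l) - 1) - (1 + y) ^ (-(b + l + 1) - 1)) :=
    setIntegral_congr_fun measurableSet_Ioi fun y hy => e1 y (le_of_lt hy)
  rw [e2]
  have hd : ∀ y ∈ Ici (0 : ℝ), HasDerivAt
      (fun y : ℝ => -(1 + y) ^ (-(b + l)) / (b + l) + (1 + y) ^ (-(b + l + 1)) / (b + l + 1))
      ((1 + y) ^ (-(b + l) - 1) - (1 + y) ^ (-(b + l + 1) - 1)) y := by
    intro y hy
    have hy1 : 0 < 1 + y := by linarith [mem_Ici.1 hy]
    have h0 : HasDerivAt (fun y : ℝ => 1 + y) 1 y := by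
      simpa using (hasDerivAt_id y).const_add 1
    have h1 := (h0.rpow_const (p := -(b + l)) (Or.inl hy1.ne')).neg.div_const (b + l)
    have h2 := (h0.rpow_const (p := -(b + l + 1)) (Or.inl hy1.ne')).div_const (b + l + 1)
    have h3 := h1.add h2
    convert! h3 using 1
    field_simp
    ring
  have ht : Tendsto
      (fun y : ℝ => -(1 + y) ^ (-(b + l)) / (b + l) + (1 + y) ^ (-(b + l + 1)) / (b + l + 1))
      atTop (𝓝 (-0 / (b + l) + 0 / (b + l + 1))) := by
    have h0 : Tendsto (fun y : ℝ => 1 + y) atTop atTop := tendsto_atTop_add_const_left _ _ tendsto_id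
    exact (((tendsto_rpow_neg_atTop hbl).comp h0).neg.div_const _).add
      (((tendsto_rpow_neg_atTop hbl1).comp h0).div_const _)
  have hp : ∀ y ∈ Ioi (0 : ℝ), 0 ≤ (1 + y) ^ (-(b + l) - 1) - (1 + y) ^ (-(b + l + 1) - 1) := by
    intro y hy
    rw [← e1 y (le_of_lt hy)]
    have hy1 : 0 < 1 + y := by linarith [mem_Ioi.1 hy]
    have hy0 : 0 < y := hy
    unfold bet
    positivity
  rw [integral_Ioi_of_hasDerivAt_of_nonneg' hd hp ht]
  simp only [add_zero, Real.one_rpow]
  field_simp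
  ring

end Pool.Agent.M16.Helper24.HR2
end

/- Helper94.T.Helper24.HR2.NumD -/
section
/-!
MP_16b0ee, project HR2, module R12d: upper bound of the cross functional.
-/

set_option autoImplicit false

open MeasureTheory Set Metric Filter Topology
open scoped Real ComplexConjugate

namespace Pool.Agent.M16.Helper24.HR2

open Pool.Agent.M16.Helper22.Half

noncomputable def cJ (b : ℝ) (D : ℕ) (p : ℕ → ℕ → ℝ) (l j : ℕ) : ℝ :=
  1 / ((b + l + 1 + j) * (b + l + 2 + j))
    - if j < D then ∑ l' ∈ Finset.range D, p j l' / ((b + l + l' + 1) * (b + l + l' + 2)) else 0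

namespace ND

theorem Gm_pos {s : ℂ} (hs : -1 < s.re) {b : ℝ} (hb : 0 < b) (n : ℕ) : 0 < Gm s b n := by
  unfold Gm
  apply Finset.prod_pos
  intro k _
  have : (0:ℝ) ≤ k := Nat.cast_nonneg k
  apply div_pos <;> linarith only [hs, hb]

theorem bet_nonneg {b y : ℝ} (hy : 0 < y) : 0 ≤ bet b y := by
  unfold bet
  positivity

theorem alp_nonneg {s : ℂ} {b x : ℝ} (hx : x ∈ Ioo (0:ℝ) 1) : 0 ≤ alp s b x := by
  have h1 : 0 ≤ 1 - x := by linarith only [hx.2]
  have h2 : 0 ≤ x := hx.1.le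
  unfold alp
  positivity

theorem bet_int {b : ℝ} (hb : 0 < b) (l : ℕ) :
    IntegrableOn (fun y => bet b y * (1 / (1 + y)) ^ l) (Ioi (0:ℝ)) := by
  by_contra h
  have h1 := mom_bet hb l
  rw [integral_undef h] at h1
  have : 0 < 1 / ((b + l) * (b + l + 1)) := by positivity
  linarith only [h1, this]

theorem alp_mom {s : ℂ} (hs : -1 < s.re) {b : ℝ} (hσ : 0 < b + 1 - 2 * s.re) (n : ℕ) :
    ∫ x in Ioo (0 : ℝ) 1, alp s b x * (1 - x) ^ n = B0 s b * Gm s b n := by
  have h1 := mom_alp hs hσ n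
  have h2 := (B0_pos hs hσ).1
  rw [← h1]
  field_simp

theorem alp_int {s : ℂ} (hs : -1 < s.re) {b : ℝ} (hb : 0 < b) (hσ : 0 < b + 1 - 2 * s.re)
    (n : ℕ) : IntegrableOn (fun x => alp s b x * (1 - x) ^ n) (Ioo (0:ℝ) 1) := by
  by_contra h
  have h1 := alp_mom hs hσ n
  rw [integral_undef h] at h1
  have := mul_pos (B0_pos hs hσ).1 (Gm_pos hs hb n)
  linarith only [h1, this]

/-- finite geometric expansion of the kernel -/
theorem kernel_fin {x y : ℝ} (hx : 0 < x) (hy : 0 < y) (J : ℕ) :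
    1 / (x + y) = ∑ j ∈ Finset.range J, (1 - x) ^ j * (1 / (1 + y)) ^ (j + 1)
      + (1 - x) ^ J * ((1 / (1 + y)) ^ J * (1 / (x + y))) := by
  have h1 : (1 + y) ≠ 0 := by linarith only [hy]
  have h2 : x + y ≠ 0 := by linarith only [hx, hy]
  have h3 : 1 / (x + y) = 1 / (1 + y) + (1 - x) * (1 / (1 + y)) * (1 / (x + y)) := by
    field_simp
    ring
  induction J with
  | zero => simp
  | succ J ih =>
    rw [Finset.sum_range_succ]
    have h4 : (1 - x) ^ J * ((1 / (1 + y)) ^ J * (1 / (x + y)))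
        = (1 - x) ^ J * (1 / (1 + y)) ^ (J + 1)
          + (1 - x) ^ (J + 1) * ((1 / (1 + y)) ^ (J + 1) * (1 / (x + y))) := by
      conv_lhs => rw [h3]
      ring
    rw [h4] at ih
    rw [add_assoc]
    exact ih

/-- the tail of the cross function -/
noncomputable def tl (b : ℝ) (J l : ℕ) (x : ℝ) : ℝ :=
  ∫ y in Ioi (0 : ℝ), bet b y * (1 / (1 + y)) ^ (l + J) * (1 / (x + y))

theorem bet_meas (b : ℝ) (l : ℕ) (x : ℝ) :
    Measurable (fun y : ℝ => bet b y * (1 / (1 + y)) ^ l * (1 / (x + y))) := by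
  unfold bet
  fun_prop

theorem tl_int {b : ℝ} (hb : 0 < b) (l : ℕ) {x : ℝ} (hx : 0 < x) :
    IntegrableOn (fun y => bet b y * (1 / (1 + y)) ^ l * (1 / (x + y))) (Ioi (0:ℝ)) := by
  refine Integrable.mono' ((bet_int hb l).mul_const (1 / x)) (bet_meas b l x).aestronglyMeasurable ?_
  refine (ae_restrict_iff' measurableSet_Ioi).2 (Filter.Eventually.of_forall fun y hy => ?_)
  have hy0 : 0 < y := hy
  have hb0 := bet_nonneg (b := b) hy0
  have h1 : 0 ≤ bet b y * (1 / (1 + y)) ^ l := by positivity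
  rw [Real.norm_of_nonneg (mul_nonneg h1 (by positivity))]
  apply mul_le_mul_of_nonneg_left _ h1
  apply one_div_le_one_div_of_le hx
  linarith only [hy0]

theorem pow_int {c : ℝ} (hc : 0 < c) :
    IntegrableOn (fun y : ℝ => (1 + y) ^ (-c - 1)) (Ioi 0) ∧
    ∫ y in Ioi (0 : ℝ), (1 + y) ^ (-c - 1) = 1 / c := by
  have hd : ∀ y ∈ Ici (0 : ℝ), HasDerivAt (fun y : ℝ => -(1 + y) ^ (-c) / c)
      ((1 + y) ^ (-c - 1)) y := by
    intro y hy
    have hy1 : 0 < 1 + y := by linarith only [mem_Ici.1 hy]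
    have h0 : HasDerivAt (fun y : ℝ => 1 + y) 1 y := by
      simpa using (hasDerivAt_id y).const_add 1
    have h1 := (h0.rpow_const (p := -c) (Or.inl hy1.ne')).neg.div_const c
    have e : -(1 * -c * (1 + y) ^ (-c - 1)) / c = (1 + y) ^ (-c - 1) := by
      field_simp
    rw [e] at h1
    exact h1
  have ht : Tendsto (fun y : ℝ => -(1 + y) ^ (-c) / c) atTop (𝓝 (-0 / c)) := by
    have h0 : Tendsto (fun y : ℝ => 1 + y) atTop atTop := tendsto_atTop_add_const_left _ _ tendsto_id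
    exact ((tendsto_rpow_neg_atTop hc).comp h0).neg.div_const _
  have hp : ∀ y ∈ Ioi (0 : ℝ), 0 ≤ (1 + y) ^ (-c - 1) := by
    intro y hy
    have hy1 : 0 < 1 + y := by linarith [mem_Ioi.1 hy]
    positivity
  constructor
  · exact integrableOn_Ioi_deriv_of_nonneg' hd hp ht
  · rw [integral_Ioi_of_hasDerivAt_of_nonneg' hd hp ht]
    simp only [add_zero, Real.one_rpow]
    ring

theorem tl_bounds {b : ℝ} (hb : 0 < b) (J l : ℕ) {x : ℝ} (hx : 0 < x) :
    0 ≤ tl b J l x ∧ tl b J l x ≤ 1 / (b + l + 1 + J) := by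
  have hc : 0 < b + l + 1 + J := by positivity
  obtain ⟨h1, h2⟩ := pow_int hc
  constructor
  · apply setIntegral_nonneg measurableSet_Ioi
    intro y hy
    have hy0 : 0 < y := hy
    have hb0 := bet_nonneg (b := b) hy0
    positivity
  · rw [← h2]
    apply setIntegral_mono_on (tl_int hb (l + J) hx) h1 measurableSet_Ioi
    intro y hy
    have hy0 : 0 < y := hy
    have hy1 : 0 < 1 + y := by linarith only [hy0]
    have e1 : (1 / (1 + y)) ^ (l + J) = (1 + y) ^ (-((l + J : ℕ) : ℝ)) := by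
      rw [Real.rpow_neg hy1.le, Real.rpow_natCast, one_div, inv_pow]
    have e2 : (1 + y) ^ (-(b + l + 1 + J) - 1) = (1 + y) ^ (-b - 2) * (1 + y) ^ (-((l + J : ℕ) : ℝ)) := by
      rw [← Real.rpow_add hy1]
      congr 1
      push_cast
      ring
    have e3 : y * (1 / (x + y)) ≤ 1 := by
      rw [mul_one_div, div_le_one (by linarith only [hx, hy0])]
      linarith
    rw [e1, e2]
    unfold bet
    have h3 : 0 ≤ (1 + y) ^ (-b - 2) * (1 + y) ^ (-((l + J : ℕ) : ℝ)) := by positivity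
    calc y * (1 + y) ^ (-b - 2) * (1 + y) ^ (-((l + J : ℕ) : ℝ)) * (1 / (x + y))
        = (1 + y) ^ (-b - 2) * (1 + y) ^ (-((l + J : ℕ) : ℝ)) * (y * (1 / (x + y))) := by ring
      _ ≤ (1 + y) ^ (-b - 2) * (1 + y) ^ (-((l + J : ℕ) : ℝ)) * 1 :=
          mul_le_mul_of_nonneg_left e3 h3
      _ = _ := by ring

theorem rl_eq {b : ℝ} (hb : 0 < b) {D J : ℕ} (hJ : D ≤ J) (p : ℕ → ℕ → ℝ) (l : ℕ) {x : ℝ}
    (hx : 0 < x) :
    rl b D p l x = ∑ j ∈ Finset.range J, cJ b D p l j * (1 - x) ^ j + (1 - x) ^ J * tl b J l x := by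
  have e1 : ∀ y ∈ Ioi (0:ℝ), bet b y * (1 / (1 + y)) ^ l * RR D p x y
      = ∑ j ∈ Finset.range J, (1 - x) ^ j * (bet b y * (1 / (1 + y)) ^ (l + 1 + j))
        + (1 - x) ^ J * (bet b y * (1 / (1 + y)) ^ (l + J) * (1 / (x + y)))
        - ∑ n ∈ Finset.range D, ∑ l' ∈ Finset.range D,
            p n l' * (1 - x) ^ n * (bet b y * (1 / (1 + y)) ^ (l + l' + 1)) := by
    intro y hy
    have hy0 : 0 < y := hy
    unfold RR kp
    conv_lhs => rw [kernel_fin hx hy0 J]
    rw [mul_sub, mul_add, Finset.mul_sum, Finset.mul_sum]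
    congr 1
    · congr 1
      · apply Finset.sum_congr rfl
        intro j _
        ring
      · ring
    · apply Finset.sum_congr rfl
      intro n _
      rw [Finset.mul_sum]
      apply Finset.sum_congr rfl
      intro l' _
      ring
  unfold rl
  rw [setIntegral_congr_fun measurableSet_Ioi e1]
  have i1 : ∀ j ∈ Finset.range J, IntegrableOn
      (fun y => (1 - x) ^ j * (bet b y * (1 / (1 + y)) ^ (l + 1 + j))) (Ioi (0:ℝ)) :=
    fun j _ => (bet_int hb (l + 1 + j)).const_mul _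
  have i2 : IntegrableOn
      (fun y => (1 - x) ^ J * (bet b y * (1 / (1 + y)) ^ (l + J) * (1 / (x + y)))) (Ioi (0:ℝ)) :=
    (tl_int hb (l + J) hx).const_mul _
  have i3 : ∀ n ∈ Finset.range D, ∀ l' ∈ Finset.range D, IntegrableOn
      (fun y => p n l' * (1 - x) ^ n * (bet b y * (1 / (1 + y)) ^ (l + l' + 1))) (Ioi (0:ℝ)) :=
    fun n _ l' _ => (bet_int hb (l + l' + 1)).const_mul _
  have i4 : ∀ n ∈ Finset.range D, IntegrableOn
      (fun y => ∑ l' ∈ Finset.range D,
        p n l' * (1 - x) ^ n * (bet b y * (1 / (1 + y)) ^ (l + l' + 1))) (Ioi (0:ℝ)) :=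
    fun n hn => integrable_finsetSum _ (i3 n hn)
  have i5 : IntegrableOn (fun y => ∑ j ∈ Finset.range J,
      (1 - x) ^ j * (bet b y * (1 / (1 + y)) ^ (l + 1 + j))) (Ioi (0:ℝ)) :=
    integrable_finsetSum _ i1
  have i6 : IntegrableOn (fun y => ∑ n ∈ Finset.range D, ∑ l' ∈ Finset.range D,
      p n l' * (1 - x) ^ n * (bet b y * (1 / (1 + y)) ^ (l + l' + 1))) (Ioi (0:ℝ)) :=
    integrable_finsetSum _ i4
  have i7 : IntegrableOn (fun y => ∑ j ∈ Finset.range J,
      (1 - x) ^ j * (bet b y * (1 / (1 + y)) ^ (l + 1 + j))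
      + (1 - x) ^ J * (bet b y * (1 / (1 + y)) ^ (l + J) * (1 / (x + y)))) (Ioi (0:ℝ)) := i5.add i2
  rw [integral_sub i7 i6, integral_add i5 i2, integral_finsetSum _ i1,
    integral_finsetSum _ i4]
  have k1 : ∀ j ∈ Finset.range J, ∫ y in Ioi (0:ℝ),
      (1 - x) ^ j * (bet b y * (1 / (1 + y)) ^ (l + 1 + j))
      = (1 / ((b + l + 1 + j) * (b + l + 2 + j))) * (1 - x) ^ j := by
    intro j _
    rw [integral_const_mul, mom_bet hb]
    push_cast
    rw [mul_comm]
    congr 2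
    ring
  have k2 : ∀ n ∈ Finset.range D, ∫ y in Ioi (0:ℝ), ∑ l' ∈ Finset.range D,
      p n l' * (1 - x) ^ n * (bet b y * (1 / (1 + y)) ^ (l + l' + 1))
      = (∑ l' ∈ Finset.range D, p n l' / ((b + l + l' + 1) * (b + l + l' + 2))) * (1 - x) ^ n := by
    intro n hn
    rw [integral_finsetSum _ (i3 n hn), Finset.sum_mul]
    apply Finset.sum_congr rfl
    intro l' _
    rw [integral_const_mul, mom_bet hb]
    push_cast
    have e : (b + ((l:ℝ) + l' + 1)) * (b + ((l:ℝ) + l' + 1) + 1)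
        = (b + l + l' + 1) * (b + l + l' + 2) := by ring
    rw [e]
    ring
  rw [Finset.sum_congr rfl k1, Finset.sum_congr rfl k2, integral_const_mul]
  have k3 : ∑ n ∈ Finset.range D,
      (∑ l' ∈ Finset.range D, p n l' / ((b + l + l' + 1) * (b + l + l' + 2))) * (1 - x) ^ n
      = ∑ j ∈ Finset.range J, (if j < D then
        ∑ l' ∈ Finset.range D, p j l' / ((b + l + l' + 1) * (b + l + l' + 2)) else 0)
          * (1 - x) ^ j := by
    rw [← Finset.sum_subset (Finset.range_subset_range.2 hJ)]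
    · apply Finset.sum_congr rfl
      intro n hn
      rw [if_pos (Finset.mem_range.1 hn)]
    · intro n _ hn
      rw [if_neg (fun h => hn (Finset.mem_range.2 h)), zero_mul]
  rw [k3]
  unfold cJ tl
  simp only [sub_mul, Finset.sum_sub_distrib]
  ring

theorem sq_add_le {θ : ℝ} (hθ : 0 < θ) (u v : ℂ) :
    ‖u + v‖ ^ 2 ≤ (1 + θ) * ‖u‖ ^ 2 + (1 + 1 / θ) * ‖v‖ ^ 2 := by
  have h1 : ‖u + v‖ ^ 2 ≤ (‖u‖ + ‖v‖) ^ 2 :=
    pow_le_pow_left₀ (norm_nonneg _) (norm_add_le u v) 2
  have h2 : 0 ≤ (θ * ‖u‖ - ‖v‖) ^ 2 / θ := by positivity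
  have h3 : (θ * ‖u‖ - ‖v‖) ^ 2 / θ = θ * ‖u‖ ^ 2 - 2 * ‖u‖ * ‖v‖ + 1 / θ * ‖v‖ ^ 2 := by
    field_simp
    ring
  linarith only [h1, h2, h3]

theorem normSq_sum (J : ℕ) (A : ℕ → ℂ) (X : ℝ) :
    ‖∑ j ∈ Finset.range J, A j * ((X ^ j : ℝ) : ℂ)‖ ^ 2
      = ∑ i ∈ Finset.range J, ∑ j ∈ Finset.range J, X ^ (i + j) * (A i * conj (A j)).re := by
  have h1 : ∀ z : ℂ, ‖z‖ ^ 2 = (z * conj z).re := by
    intro z
    rw [Complex.mul_conj, Complex.ofReal_re, Complex.normSq_eq_norm_sq]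
  rw [h1, map_sum, Finset.sum_mul_sum, Complex.re_sum]
  apply Finset.sum_congr rfl
  intro i _
  rw [Complex.re_sum]
  apply Finset.sum_congr rfl
  intro j _
  rw [map_mul, Complex.conj_ofReal]
  have e : A i * ((X ^ i : ℝ) : ℂ) * (conj (A j) * ((X ^ j : ℝ) : ℂ))
      = ((X ^ (i + j) : ℝ) : ℂ) * (A i * conj (A j)) := by
    push_cast
    ring
  rw [e, Complex.re_ofReal_mul]

end ND

theorem Ncross_le {s : ℂ} (hs : -1 < s.re) {b : ℝ} (hb : 0 < b) (hσ : 0 < b + 1 - 2 * s.re)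
    {D J : ℕ} (hJ : D ≤ J) (p : ℕ → ℕ → ℝ) (F : ℕ → ℂ) {θ : ℝ} (hθ : 0 < θ) :
    Ncross s b D p F ≤ (1 + θ) * ∑ i ∈ Finset.range J, ∑ j ∈ Finset.range J, Gm s b (i + j)
        * ((∑ l ∈ Finset.range (D + 1), F l * (cJ b D p l i : ℂ))
          * conj (∑ l ∈ Finset.range (D + 1), F l * (cJ b D p l j : ℂ))).re
      + (1 + 1 / θ) * Gm s b (2 * J)
        * (∑ l ∈ Finset.range (D + 1), ‖F l‖ / (b + l + 1 + J)) ^ 2 := by
  set A : ℕ → ℂ := fun i => ∑ l ∈ Finset.range (D + 1), F l * (cJ b D p l i : ℂ) with hA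
  set τ : ℝ := ∑ l ∈ Finset.range (D + 1), ‖F l‖ / (b + l + 1 + J) with hτ
  have hτ0 : 0 ≤ τ := Finset.sum_nonneg fun l _ => by positivity
  -- the majorant
  set g : ℝ → ℝ := fun x => (1 + θ) * ∑ i ∈ Finset.range J, ∑ j ∈ Finset.range J,
      (A i * conj (A j)).re * (alp s b x * (1 - x) ^ (i + j))
      + (1 + 1 / θ) * τ ^ 2 * (alp s b x * (1 - x) ^ (2 * J)) with hg
  have i1 : ∀ i ∈ Finset.range J, ∀ j ∈ Finset.range J, IntegrableOn
      (fun x => (A i * conj (A j)).re * (alp s b x * (1 - x) ^ (i + j))) (Ioo (0:ℝ) 1) :=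
    fun i _ j _ => (ND.alp_int hs hb hσ (i + j)).const_mul _
  have i2 : ∀ i ∈ Finset.range J, IntegrableOn (fun x => ∑ j ∈ Finset.range J,
      (A i * conj (A j)).re * (alp s b x * (1 - x) ^ (i + j))) (Ioo (0:ℝ) 1) :=
    fun i hi => integrable_finsetSum _ (i1 i hi)
  have i3 : IntegrableOn (fun x => (1 + θ) * ∑ i ∈ Finset.range J, ∑ j ∈ Finset.range J,
      (A i * conj (A j)).re * (alp s b x * (1 - x) ^ (i + j))) (Ioo (0:ℝ) 1) :=
    (integrable_finsetSum _ i2).const_mul _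
  have i4 : IntegrableOn (fun x => (1 + 1 / θ) * τ ^ 2 * (alp s b x * (1 - x) ^ (2 * J)))
      (Ioo (0:ℝ) 1) := (ND.alp_int hs hb hσ (2 * J)).const_mul _
  have hgi : IntegrableOn g (Ioo (0:ℝ) 1) := i3.add i4
  have hB := (B0_pos hs hσ).1
  have hgv : (1 / B0 s b) * ∫ x in Ioo (0:ℝ) 1, g x
      = (1 + θ) * ∑ i ∈ Finset.range J, ∑ j ∈ Finset.range J, Gm s b (i + j)
        * (A i * conj (A j)).re + (1 + 1 / θ) * Gm s b (2 * J) * τ ^ 2 := by
    rw [hg, integral_add i3 i4, integral_const_mul, integral_const_mul, integral_finsetSum _ i2,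
      ND.alp_mom hs hσ]
    have k1 : ∀ i ∈ Finset.range J, ∫ x in Ioo (0:ℝ) 1, ∑ j ∈ Finset.range J,
        (A i * conj (A j)).re * (alp s b x * (1 - x) ^ (i + j))
        = B0 s b * ∑ j ∈ Finset.range J, Gm s b (i + j) * (A i * conj (A j)).re := by
      intro i hi
      rw [integral_finsetSum _ (i1 i hi), Finset.mul_sum]
      apply Finset.sum_congr rfl
      intro j _
      rw [integral_const_mul, ND.alp_mom hs hσ]
      ring
    rw [Finset.sum_congr rfl k1, ← Finset.mul_sum]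
    field_simp
  rw [← hgv]
  unfold Ncross
  apply mul_le_mul_of_nonneg_left _ (by positivity)
  apply integral_mono_of_nonneg
  · refine (ae_restrict_iff' measurableSet_Ioo).2 (Filter.Eventually.of_forall fun x hx => ?_)
    exact mul_nonneg (ND.alp_nonneg hx) (by positivity)
  · exact hgi
  refine (ae_restrict_iff' measurableSet_Ioo).2 (Filter.Eventually.of_forall fun x hx => ?_)
  have hx0 : 0 < x := hx.1
  have hX0 : 0 ≤ 1 - x := by linarith only [hx.2]
  have hal := ND.alp_nonneg (s := s) (b := b) hx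
  set T : ℂ := ∑ l ∈ Finset.range (D + 1), F l * ((ND.tl b J l x : ℝ) : ℂ) with hT
  have e1 : ∑ l ∈ Finset.range (D + 1), F l * (rl b D p l x : ℂ)
      = (∑ j ∈ Finset.range J, A j * (((1 - x) ^ j : ℝ) : ℂ)) + (((1 - x) ^ J : ℝ) : ℂ) * T := by
    have e2 : ∀ l ∈ Finset.range (D + 1), F l * (rl b D p l x : ℂ)
        = (∑ j ∈ Finset.range J, F l * (cJ b D p l j : ℂ) * (((1 - x) ^ j : ℝ) : ℂ))
          + (((1 - x) ^ J : ℝ) : ℂ) * (F l * ((ND.tl b J l x : ℝ) : ℂ)) := by
      intro l _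
      rw [ND.rl_eq hb hJ p l hx0, Complex.ofReal_add, mul_add]
      congr 1
      · rw [Complex.ofReal_sum, Finset.mul_sum]
        apply Finset.sum_congr rfl
        intro j _
        rw [Complex.ofReal_mul]
        ring
      · rw [Complex.ofReal_mul]
        ring
    rw [Finset.sum_congr rfl e2, Finset.sum_add_distrib, Finset.sum_comm, ← Finset.mul_sum]
    congr 1
    apply Finset.sum_congr rfl
    intro j _
    rw [hA]
    simp only
    rw [Finset.sum_mul]
  have hTn : ‖T‖ ≤ τ := by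
    rw [hT, hτ]
    refine (norm_sum_le _ _).trans (Finset.sum_le_sum fun l _ => ?_)
    obtain ⟨h1, h2⟩ := ND.tl_bounds hb J l hx0
    rw [norm_mul, Complex.norm_real, Real.norm_of_nonneg h1, div_eq_mul_one_div]
    exact mul_le_mul_of_nonneg_left h2 (norm_nonneg _)
  have e3 : ‖(((1 - x) ^ J : ℝ) : ℂ) * T‖ ^ 2 ≤ (1 - x) ^ (2 * J) * τ ^ 2 := by
    rw [norm_mul, Complex.norm_real, Real.norm_of_nonneg (by positivity), mul_pow, ← pow_mul,
      mul_comm J 2]
    apply mul_le_mul_of_nonneg_left _ (by positivity)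
    exact pow_le_pow_left₀ (norm_nonneg _) hTn 2
  have e4 := ND.sq_add_le hθ (∑ j ∈ Finset.range J, A j * (((1 - x) ^ j : ℝ) : ℂ))
    ((((1 - x) ^ J : ℝ) : ℂ) * T)
  rw [ND.normSq_sum] at e4
  show alp s b x * ‖∑ l ∈ Finset.range (D + 1), F l * (rl b D p l x : ℂ)‖ ^ 2 ≤ g x
  rw [e1]
  have h5 : (0:ℝ) ≤ 1 + 1 / θ := by positivity
  calc alp s b x * ‖(∑ j ∈ Finset.range J, A j * (((1 - x) ^ j : ℝ) : ℂ))
        + (((1 - x) ^ J : ℝ) : ℂ) * T‖ ^ 2
      ≤ alp s b x * ((1 + θ) * ∑ i ∈ Finset.range J, ∑ j ∈ Finset.range J,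
          (1 - x) ^ (i + j) * (A i * conj (A j)).re + (1 + 1 / θ) * ((1 - x) ^ (2 * J) * τ ^ 2)) :=
        mul_le_mul_of_nonneg_left (e4.trans (by gcongr)) hal
    _ = g x := by
        rw [hg]
        simp only [Finset.mul_sum, mul_add]
        congr 1
        · apply Finset.sum_congr rfl
          intro i _
          apply Finset.sum_congr rfl
          intro j _
          ring
        · ring

end Pool.Agent.M16.Helper24.HR2
end

/- Helper94.T.Helper24.HR2.NumC -/
section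
/-!
MP_16b0ee, project HR2, module R12c: the exact value of the Hilbert-Schmidt norm and of the mixed
moments of the remainder.
-/

set_option autoImplicit false

open MeasureTheory Set Metric Filter Topology
open scoped Real ComplexConjugate

namespace Pool.Agent.M16.Helper24.HR2

open Pool.Agent.M16.Helper22.Half

namespace NC

theorem Gm_pos {s : ℂ} (hs : -1 < s.re) {b : ℝ} (hb : 0 < b) (n : ℕ) : 0 < Gm s b n := by
  unfold Gm
  apply Finset.prod_pos
  intro k _
  have : (0:ℝ) ≤ k := Nat.cast_nonneg k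
  apply div_pos <;> linarith only [hs, hb]

theorem bet_nonneg {b y : ℝ} (hy : y ∈ Ioi (0:ℝ)) : 0 ≤ bet b y := by
  have hy0 : 0 < y := hy
  unfold bet
  positivity

theorem alp_nonneg {s : ℂ} {b x : ℝ} (hx : x ∈ Ioo (0:ℝ) 1) : 0 ≤ alp s b x := by
  have h1 : 0 ≤ 1 - x := by linarith [hx.2]
  have h2 : 0 ≤ x := hx.1.le
  unfold alp
  positivity

theorem bet_int {b : ℝ} (hb : 0 < b) (l : ℕ) :
    IntegrableOn (fun y => bet b y * (1 / (1 + y)) ^ l) (Ioi (0:ℝ)) := by
  by_contra h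
  have h1 := mom_bet hb l
  rw [integral_undef h] at h1
  have : 0 < 1 / ((b + l) * (b + l + 1)) := by positivity
  linarith only [h1, this]

theorem alp_mom {s : ℂ} (hs : -1 < s.re) {b : ℝ} (hσ : 0 < b + 1 - 2 * s.re) (n : ℕ) :
    ∫ x in Ioo (0 : ℝ) 1, alp s b x * (1 - x) ^ n = B0 s b * Gm s b n := by
  have h1 := mom_alp hs hσ n
  have h2 := (B0_pos hs hσ).1
  rw [← h1]
  field_simp

theorem alp_int {s : ℂ} (hs : -1 < s.re) {b : ℝ} (hb : 0 < b) (hσ : 0 < b + 1 - 2 * s.re)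
    (n : ℕ) : IntegrableOn (fun x => alp s b x * (1 - x) ^ n) (Ioo (0:ℝ) 1) := by
  by_contra h
  have h1 := alp_mom hs hσ n
  rw [integral_undef h] at h1
  have := mul_pos (B0_pos hs hσ).1 (Gm_pos hs hb n)
  linarith

theorem hasSum_of_eq {f g : ℕ → ℝ} {a : ℝ} (h : HasSum f a) (e : ∀ j, g j = f j) :
    HasSum g a := by
  have : g = f := funext e
  rw [this]
  exact h

/-- integral of a series of nonnegative functions -/
theorem int_tsum {S : Set ℝ} (hS : MeasurableSet S) (F : ℕ → ℝ → ℝ) (G : ℝ → ℝ) (v : ℕ → ℝ)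
    (hF : ∀ j, IntegrableOn (F j) S) (h0 : ∀ j, ∀ y ∈ S, 0 ≤ F j y)
    (hv : ∀ j, ∫ y in S, F j y = v j) (hs : Summable v)
    (hG : ∀ y ∈ S, HasSum (fun j => F j y) (G y)) (hpos : 0 < v 0) :
    IntegrableOn G S ∧ ∫ y in S, G y = ∑' j, v j := by
  have hn : ∀ j, ∫ y in S, ‖F j y‖ = v j := by
    intro j
    rw [← hv j]
    apply setIntegral_congr_fun hS
    intro y hy
    exact Real.norm_of_nonneg (h0 j y hy)
  have h1 := hasSum_integral_of_summable_integral_norm (μ := volume.restrict S) (F := F) hF (by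
    simp only [hn]
    exact hs)
  simp only [hv] at h1
  have h2 : ∫ y in S, ∑' j, F j y = ∫ y in S, G y := by
    apply setIntegral_congr_fun hS
    intro y hy
    exact (hG y hy).tsum_eq
  rw [h2] at h1
  refine ⟨?_, h1.tsum_eq.symm⟩
  by_contra h
  have h3 := h1.tsum_eq
  rw [integral_undef h] at h3
  have h4 : ∀ j, 0 ≤ v j := fun j => by
    rw [← hv j]
    exact setIntegral_nonneg hS (h0 j)
  have h5 : v 0 ≤ ∑' j, v j := hs.le_tsum 0 (fun j _ => h4 j)
  linarith

theorem kernel_one {x y : ℝ} (hx : x ∈ Ioo (0:ℝ) 1) (hy : y ∈ Ioi (0:ℝ)) :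
    HasSum (fun j : ℕ => (1 - x) ^ j * (1 / (1 + y)) ^ (j + 1)) (1 / (x + y)) := by
  have hy0 : 0 < y := hy
  have hx0 := hx.1
  have hx1 := hx.2
  have hr0 : 0 ≤ (1 - x) * (1 / (1 + y)) := by
    have : 0 ≤ 1 - x := by linarith
    positivity
  have hr1 : (1 - x) * (1 / (1 + y)) < 1 := by
    rw [mul_one_div, div_lt_one (by linarith)]
    linarith only [hy0, hx0]
  have h := (hasSum_geometric_of_lt_one hr0 hr1).mul_left (1 / (1 + y))
  have e1 : 1 / (1 + y) * (1 - (1 - x) * (1 / (1 + y)))⁻¹ = 1 / (x + y) := by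
    have h1 : (1 + y) ≠ 0 := by linarith
    have h2 : x + y ≠ 0 := by linarith
    have h3 : 1 - (1 - x) * (1 / (1 + y)) = (x + y) / (1 + y) := by
      field_simp
      ring
    rw [h3]
    field_simp
  rw [e1] at h
  refine hasSum_of_eq h fun j => ?_
  rw [mul_pow, pow_succ]
  ring

theorem kernel_two {x y : ℝ} (hx : x ∈ Ioo (0:ℝ) 1) (hy : y ∈ Ioi (0:ℝ)) :
    HasSum (fun j : ℕ => ((j : ℝ) + 1) * ((1 - x) ^ j * (1 / (1 + y)) ^ (j + 2)))
      ((1 / (x + y)) ^ 2) := by
  have hy0 : 0 < y := hy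
  have hx0 := hx.1
  have hx1 := hx.2
  have hr0 : 0 ≤ (1 - x) * (1 / (1 + y)) := by
    have : 0 ≤ 1 - x := by linarith
    positivity
  have hr1 : (1 - x) * (1 / (1 + y)) < 1 := by
    rw [mul_one_div, div_lt_one (by linarith only [hy0])]
    linarith
  have hr : ‖(1 - x) * (1 / (1 + y))‖ < 1 := by
    rwa [Real.norm_of_nonneg hr0]
  have h := ((hasSum_coe_mul_geometric_of_norm_lt_one hr).add
    (hasSum_geometric_of_norm_lt_one hr)).mul_left ((1 / (1 + y)) ^ 2)
  have e1 : (1 / (1 + y)) ^ 2 * ((1 - x) * (1 / (1 + y)) / (1 - (1 - x) * (1 / (1 + y))) ^ 2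
      + (1 - (1 - x) * (1 / (1 + y)))⁻¹) = (1 / (x + y)) ^ 2 := by
    have h1 : (1 + y) ≠ 0 := by linarith
    have h2 : x + y ≠ 0 := by linarith
    have h3 : 1 - (1 - x) * (1 / (1 + y)) = (x + y) / (1 + y) := by
      field_simp
      ring
    rw [h3]
    field_simp
    ring
  rw [e1] at h
  refine hasSum_of_eq h fun j => ?_
  rw [mul_pow]
  ring

/-- functions of two variables with a computed iterated integral -/
structure Good (s : ℂ) (b : ℝ) (f : ℝ → ℝ → ℝ) (v : ℝ) : Prop where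
  inn : ∀ x ∈ Ioo (0:ℝ) 1, IntegrableOn (fun y => bet b y * f x y) (Ioi 0)
  out : IntegrableOn (fun x => alp s b x * ∫ y in Ioi (0:ℝ), bet b y * f x y) (Ioo 0 1)
  val : (1 / B0 s b) * ∫ x in Ioo (0:ℝ) 1, alp s b x * ∫ y in Ioi (0:ℝ), bet b y * f x y = v

theorem Good.zero (s : ℂ) (b : ℝ) : Good s b (fun _ _ => 0) 0 := by
  constructor
  · intro x _
    simp
  · simp
  · simp

theorem Good.add {s : ℂ} {b : ℝ} {f g : ℝ → ℝ → ℝ} {v w : ℝ} (hf : Good s b f v)
    (hg : Good s b g w) : Good s b (fun x y => f x y + g x y) (v + w) := by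
  have h1 : ∀ x ∈ Ioo (0:ℝ) 1, ∫ y in Ioi (0:ℝ), bet b y * (f x y + g x y)
      = (∫ y in Ioi (0:ℝ), bet b y * f x y) + ∫ y in Ioi (0:ℝ), bet b y * g x y := by
    intro x hx
    rw [← integral_add (hf.inn x hx) (hg.inn x hx)]
    congr 1
    ext y
    ring
  have h2 : EqOn (fun x => alp s b x * ∫ y in Ioi (0:ℝ), bet b y * (f x y + g x y))
      (fun x => alp s b x * (∫ y in Ioi (0:ℝ), bet b y * f x y)
        + alp s b x * ∫ y in Ioi (0:ℝ), bet b y * g x y) (Ioo 0 1) := by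
    intro x hx
    simp only
    rw [h1 x hx]
    ring
  refine ⟨fun x hx => ?_, ?_, ?_⟩
  · have := (hf.inn x hx).add (hg.inn x hx)
    refine this.congr (Filter.Eventually.of_forall fun y => ?_)
    simp only [Pi.add_apply]
    ring
  · exact (integrableOn_congr_fun h2 measurableSet_Ioo).mpr (hf.out.add hg.out)
  · rw [setIntegral_congr_fun measurableSet_Ioo h2, integral_add hf.out hg.out, mul_add, hf.val,
      hg.val]

theorem Good.smul {s : ℂ} {b : ℝ} {f : ℝ → ℝ → ℝ} {v : ℝ} (c : ℝ) (hf : Good s b f v) :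
    Good s b (fun x y => c * f x y) (c * v) := by
  have h1 : ∀ x, ∫ y in Ioi (0:ℝ), bet b y * (c * f x y)
      = c * ∫ y in Ioi (0:ℝ), bet b y * f x y := by
    intro x
    rw [← integral_const_mul]
    congr 1
    ext y
    ring
  have h2 : (fun x => alp s b x * ∫ y in Ioi (0:ℝ), bet b y * (c * f x y))
      = fun x => c * (alp s b x * ∫ y in Ioi (0:ℝ), bet b y * f x y) := by
    ext x
    rw [h1 x]
    ring
  refine ⟨fun x hx => ?_, ?_, ?_⟩
  · have := (hf.inn x hx).const_mul c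
    refine this.congr (Filter.Eventually.of_forall fun y => ?_)
    simp only
    ring
  · rw [h2]
    exact hf.out.const_mul c
  · rw [h2, integral_const_mul, ← hf.val]
    ring

theorem Good.sum {s : ℂ} {b : ℝ} {ι : Type} (S : Finset ι) {f : ι → ℝ → ℝ → ℝ} {v : ι → ℝ}
    (h : ∀ i ∈ S, Good s b (f i) (v i)) :
    Good s b (fun x y => ∑ i ∈ S, f i x y) (∑ i ∈ S, v i) := by
  classical
  induction S using Finset.induction_on with
  | empty => simpa using Good.zero s b
  | insert a S ha ih =>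
    have h1 := (h a (Finset.mem_insert_self a S)).add
      (ih fun i hi => h i (Finset.mem_insert_of_mem hi))
    simp only [Finset.sum_insert ha]
    exact h1

theorem Good.congr {s : ℂ} {b : ℝ} {f g : ℝ → ℝ → ℝ} {v w : ℝ} (hf : Good s b f v)
    (h : ∀ x ∈ Ioo (0:ℝ) 1, ∀ y ∈ Ioi (0:ℝ), g x y = f x y) (hw : w = v) : Good s b g w := by
  have h1 : ∀ x ∈ Ioo (0:ℝ) 1, EqOn (fun y => bet b y * g x y) (fun y => bet b y * f x y)
      (Ioi 0) := by
    intro x hx y hy
    simp only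
    rw [h x hx y hy]
  have h2 : EqOn (fun x => alp s b x * ∫ y in Ioi (0:ℝ), bet b y * g x y)
      (fun x => alp s b x * ∫ y in Ioi (0:ℝ), bet b y * f x y) (Ioo 0 1) := by
    intro x hx
    simp only
    rw [setIntegral_congr_fun measurableSet_Ioi (h1 x hx)]
  refine ⟨fun x hx => ?_, ?_, ?_⟩
  · exact (integrableOn_congr_fun (h1 x hx) measurableSet_Ioi).mpr (hf.inn x hx)
  · exact (integrableOn_congr_fun h2 measurableSet_Ioo).mpr hf.out
  · rw [setIntegral_congr_fun measurableSet_Ioo h2, hf.val, hw]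

/-- a function whose inner integral is a power series with positive bounded coefficients -/
theorem good_of_series {s : ℂ} (hs : -1 < s.re) {b : ℝ} (hb : 0 < b)
    (hσ : 0 < b + 1 - 2 * s.re) (n : ℕ) (f : ℝ → ℝ → ℝ) (c : ℕ → ℝ) (F : ℕ → ℝ → ℝ → ℝ)
    (hF : ∀ x ∈ Ioo (0:ℝ) 1, ∀ j, IntegrableOn (fun y => bet b y * F j x y) (Ioi 0))
    (hF0 : ∀ x ∈ Ioo (0:ℝ) 1, ∀ j, ∀ y ∈ Ioi (0:ℝ), 0 ≤ F j x y)
    (hFv : ∀ x ∈ Ioo (0:ℝ) 1, ∀ j, ∫ y in Ioi (0:ℝ), bet b y * F j x y
      = (1 - x) ^ n * (c j * (1 - x) ^ j))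
    (hsum : ∀ x ∈ Ioo (0:ℝ) 1, ∀ y ∈ Ioi (0:ℝ), HasSum (fun j => F j x y) (f x y))
    (hc : ∀ j, 0 < c j) (hc1 : ∀ j, c j ≤ 1)
    (hG : Summable (fun j => c j * Gm s b (n + j))) :
    Good s b f (∑' j, c j * Gm s b (n + j)) := by
  have hS : ∀ x ∈ Ioo (0:ℝ) 1, Summable (fun j => c j * (1 - x) ^ j) := by
    intro x hx
    have h0 : 0 ≤ 1 - x := by linarith [hx.2]
    have h1 : 1 - x < 1 := by linarith [hx.1]
    refine Summable.of_nonneg_of_le (fun j => mul_nonneg (hc j).le (pow_nonneg h0 j))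
      (fun j => ?_) (summable_geometric_of_lt_one h0 h1)
    calc c j * (1 - x) ^ j ≤ 1 * (1 - x) ^ j := mul_le_mul_of_nonneg_right (hc1 j) (pow_nonneg h0 j)
      _ = (1 - x) ^ j := one_mul _
  have hI : ∀ x ∈ Ioo (0:ℝ) 1, IntegrableOn (fun y => bet b y * f x y) (Ioi 0) ∧
      ∫ y in Ioi (0:ℝ), bet b y * f x y = ∑' j, (1 - x) ^ n * (c j * (1 - x) ^ j) := by
    intro x hx
    have h0 : 0 < 1 - x := by linarith [hx.2]
    apply int_tsum measurableSet_Ioi (fun j y => bet b y * F j x y) _ _ (hF x hx)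
      (fun j y hy => mul_nonneg (bet_nonneg hy) (hF0 x hx j y hy)) (hFv x hx)
      ((hS x hx).mul_left _) (fun y hy => (hsum x hx y hy).mul_left _)
    have := hc 0
    positivity
  have hB := (B0_pos hs hσ).1
  have hO := int_tsum (S := Ioo (0:ℝ) 1) measurableSet_Ioo
    (fun j x => c j * (alp s b x * (1 - x) ^ (n + j)))
    (fun x => alp s b x * ∫ y in Ioi (0:ℝ), bet b y * f x y)
    (fun j => c j * (B0 s b * Gm s b (n + j)))
    (fun j => (alp_int hs hb hσ (n + j)).const_mul (c j))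
    (fun j x hx => by
      have h0 : 0 ≤ 1 - x := by linarith [hx.2]
      exact mul_nonneg (hc j).le (mul_nonneg (alp_nonneg hx) (pow_nonneg h0 _)))
    (fun j => by rw [integral_const_mul, alp_mom hs hσ])
    (by
      refine (hG.mul_left (B0 s b)).congr fun j => ?_
      ring)
    (fun x hx => by
      have h1 := (hS x hx).hasSum.mul_left (alp s b x * (1 - x) ^ n)
      have h2 : alp s b x * ∫ y in Ioi (0:ℝ), bet b y * f x y
          = alp s b x * (1 - x) ^ n * ∑' j, c j * (1 - x) ^ j := by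
        rw [(hI x hx).2, tsum_mul_left]
        ring
      rw [h2]
      refine hasSum_of_eq h1 fun j => ?_
      rw [pow_add]
      ring)
    (mul_pos (hc 0) (mul_pos hB (Gm_pos hs hb _)))
  refine ⟨fun x hx => (hI x hx).1, hO.1, ?_⟩
  rw [hO.2, ← tsum_mul_left]
  apply tsum_congr
  intro j
  field_simp

theorem good_mono {s : ℂ} (hs : -1 < s.re) {b : ℝ} (hb : 0 < b) (hσ : 0 < b + 1 - 2 * s.re)
    (n l : ℕ) : Good s b (fun x y => (1 - x) ^ n * (1 / (1 + y)) ^ l)
      (Gm s b n / ((b + l) * (b + l + 1))) := by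
  have h1 : ∀ x : ℝ, ∫ y in Ioi (0:ℝ), bet b y * ((1 - x) ^ n * (1 / (1 + y)) ^ l)
      = (1 - x) ^ n * (1 / ((b + l) * (b + l + 1))) := by
    intro x
    rw [← mom_bet hb l, ← integral_const_mul]
    congr 1
    ext y
    ring
  have h2 : (fun x => alp s b x * ∫ y in Ioi (0:ℝ), bet b y * ((1 - x) ^ n * (1 / (1 + y)) ^ l))
      = fun x => (1 / ((b + l) * (b + l + 1))) * (alp s b x * (1 - x) ^ n) := by
    ext x
    rw [h1 x]
    ring
  refine ⟨fun x hx => ?_, ?_, ?_⟩
  · refine ((bet_int hb l).const_mul ((1 - x) ^ n)).congr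
      (Filter.Eventually.of_forall fun y => ?_)
    simp only
    ring
  · rw [h2]
    exact (alp_int hs hb hσ n).const_mul _
  · rw [h2, integral_const_mul, alp_mom hs hσ n]
    have hB := (B0_pos hs hσ).1
    have h3 : 0 < (b + l) * (b + l + 1) := by positivity
    field_simp

theorem good_one {s : ℂ} (hs : -1 < s.re) {b : ℝ} (hb : 0 < b) (hσ : 0 < b + 1 - 2 * s.re)
    (n l : ℕ) : Good s b (fun x y => (1 - x) ^ n * (1 / (1 + y)) ^ l * (1 / (x + y)))
      (SS s b n l - SS s b n (l + 1)) := by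
  have hsm := (SS_summable hs hb hσ n l).sub (SS_summable hs hb hσ n (l + 1))
  have hcj : ∀ j : ℕ, 1 / ((b + ((l + j + 1 : ℕ) : ℝ)) * (b + ((l + j + 1 : ℕ) : ℝ) + 1))
      * Gm s b (n + j) = Gm s b (n + j) / (b + 1 + j + l) - Gm s b (n + j)
        / (b + 1 + j + (l + 1 : ℕ)) := by
    intro j
    have h1 : 0 < b + 1 + j + l := by positivity
    have h2 : 0 < b + 1 + j + (l + 1 : ℕ) := by positivity
    have h3 : 0 < b + ((l + j + 1 : ℕ) : ℝ) := by positivity
    push_cast at *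
    field_simp
    ring
  have h := good_of_series hs hb hσ n
    (fun x y => (1 - x) ^ n * (1 / (1 + y)) ^ l * (1 / (x + y)))
    (fun j => 1 / ((b + ((l + j + 1 : ℕ) : ℝ)) * (b + ((l + j + 1 : ℕ) : ℝ) + 1)))
    (fun j x y => (1 - x) ^ n * (1 / (1 + y)) ^ l * ((1 - x) ^ j * (1 / (1 + y)) ^ (j + 1)))
    (fun x _ j => by
      refine ((bet_int hb (l + j + 1)).const_mul ((1 - x) ^ (n + j))).congr
        (Filter.Eventually.of_forall fun y => ?_)
      simp only
      ring)
    (fun x hx j y hy => by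
      have h0 : 0 ≤ 1 - x := by linarith [hx.2]
      have hy0 : 0 < y := hy
      positivity)
    (fun x _ j => by
      rw [← mom_bet hb (l + j + 1), ← integral_mul_const, ← integral_const_mul]
      congr 1
      ext y
      ring)
    (fun x hx y hy => (kernel_one hx hy).mul_left _)
    (fun j => by positivity)
    (fun j => by
      have h3 : 1 ≤ b + ((l + j + 1 : ℕ) : ℝ) := by
        push_cast
        have : (0:ℝ) ≤ l := Nat.cast_nonneg l
        have : (0:ℝ) ≤ j := Nat.cast_nonneg j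
        linarith
      rw [div_le_one (by positivity)]
      nlinarith only [h3])
    (hsm.congr fun j => (hcj j).symm)
  refine h.congr (fun _ _ _ _ => rfl) ?_
  rw [tsum_congr hcj, (SS_summable hs hb hσ n l).tsum_sub (SS_summable hs hb hσ n (l + 1))]
  rfl

theorem good_two {s : ℂ} (hs : -1 < s.re) {b : ℝ} (hb : 0 < b) (hσ : 0 < b + 1 - 2 * s.re) :
    Good s b (fun x y => (1 / (x + y)) ^ 2)
      (-(b + 1) * SS s b 0 1 + (b + 2) * SS s b 0 2) := by
  have hs1 := (SS_summable hs hb hσ 0 1).mul_left (-(b + 1))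
  have hs2 := (SS_summable hs hb hσ 0 2).mul_left (b + 2)
  have hcj : ∀ j : ℕ, ((j : ℝ) + 1) * (1 / ((b + ((j + 2 : ℕ) : ℝ)) * (b + ((j + 2 : ℕ) : ℝ) + 1)))
      * Gm s b (0 + j) = -(b + 1) * (Gm s b (0 + j) / (b + 1 + j + (1 : ℕ)))
        + (b + 2) * (Gm s b (0 + j) / (b + 1 + j + (2 : ℕ))) := by
    intro j
    have h1 : 0 < b + 1 + j + (1 : ℕ) := by positivity
    have h2 : 0 < b + 1 + j + (2 : ℕ) := by positivity
    have h3 : 0 < b + ((j + 2 : ℕ) : ℝ) := by positivity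
    push_cast at *
    field_simp
    ring
  have h := good_of_series hs hb hσ 0
    (fun x y => (1 / (x + y)) ^ 2)
    (fun j => ((j : ℝ) + 1) * (1 / ((b + ((j + 2 : ℕ) : ℝ)) * (b + ((j + 2 : ℕ) : ℝ) + 1))))
    (fun j x y => ((j : ℝ) + 1) * ((1 - x) ^ j * (1 / (1 + y)) ^ (j + 2)))
    (fun x _ j => by
      refine ((bet_int hb (j + 2)).const_mul (((j : ℝ) + 1) * (1 - x) ^ j)).congr
        (Filter.Eventually.of_forall fun y => ?_)
      simp only
      ring)
    (fun x hx j y hy => by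
      have h0 : 0 ≤ 1 - x := by linarith [hx.2]
      have hy0 : 0 < y := hy
      positivity)
    (fun x _ j => by
      rw [← mom_bet hb (j + 2), mul_right_comm, pow_zero, one_mul, ← integral_const_mul]
      congr 1
      ext y
      ring)
    (fun x hx y hy => kernel_two hx hy)
    (fun j => by positivity)
    (fun j => by
      have h3 : 0 < (b + ((j + 2 : ℕ) : ℝ)) * (b + ((j + 2 : ℕ) : ℝ) + 1) := by positivity
      rw [mul_one_div, div_le_one h3]
      push_cast
      have : (0:ℝ) ≤ j := Nat.cast_nonneg j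
      nlinarith only [hb])
    ((hs1.add hs2).congr fun j => (hcj j).symm)
  refine h.congr (fun _ _ _ _ => rfl) ?_
  rw [tsum_congr hcj, hs1.tsum_add hs2, tsum_mul_left, tsum_mul_left]
  rfl

theorem HSn_of_good {s : ℂ} {b : ℝ} {D : ℕ} {p : ℕ → ℕ → ℝ} {v : ℝ}
    (h : Good s b (fun x y => RR D p x y ^ 2) v) : HSn s b D p = v := by
  rw [← h.val]
  unfold HSn
  congr 2
  ext x
  rw [← integral_const_mul]
  congr 1
  ext y
  ring

theorem xln_of_good {s : ℂ} {b : ℝ} {D : ℕ} {p : ℕ → ℕ → ℝ} {l n : ℕ} {v : ℝ}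
    (h : Good s b (fun x y => (1 - x) ^ n * (1 / (1 + y)) ^ l * RR D p x y) v) :
    xln s b D p l n = v := by
  rw [← h.val]
  unfold xln
  congr 2
  ext x
  rw [← integral_const_mul]
  congr 1
  ext y
  ring

end NC

open NC

theorem HSn_eq {s : ℂ} (hs : -1 < s.re) {b : ℝ} (hb : 0 < b) (hσ : 0 < b + 1 - 2 * s.re)
    (D : ℕ) (p : ℕ → ℕ → ℝ) : HSn s b D p = -(b + 1) * SS s b 0 1 + (b + 2) * SS s b 0 2
      - 2 * ∑ n ∈ Finset.range D, ∑ l ∈ Finset.range D,
          p n l * (SS s b n (l + 1) - SS s b n (l + 2))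
      + ∑ n ∈ Finset.range D, ∑ l ∈ Finset.range D, ∑ n' ∈ Finset.range D,
          ∑ l' ∈ Finset.range D, p n l * p n' l' * Gm s b (n + n')
            / ((b + l + l' + 2) * (b + l + l' + 3)) := by
  apply HSn_of_good
  have h1 := good_two hs hb hσ
  have h2 : Good s b (fun x y => ∑ n ∈ Finset.range D, ∑ l ∈ Finset.range D,
      p n l * ((1 - x) ^ n * (1 / (1 + y)) ^ (l + 1) * (1 / (x + y))))
      (∑ n ∈ Finset.range D, ∑ l ∈ Finset.range D,
          p n l * (SS s b n (l + 1) - SS s b n (l + 2))) :=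
    Good.sum _ fun n _ => Good.sum _ fun l _ => (good_one hs hb hσ n (l + 1)).smul (p n l)
  have h3 : Good s b (fun x y => ∑ n ∈ Finset.range D, ∑ l ∈ Finset.range D,
      ∑ n' ∈ Finset.range D, ∑ l' ∈ Finset.range D,
      (p n l * p n' l') * ((1 - x) ^ (n + n') * (1 / (1 + y)) ^ (l + l' + 2)))
      (∑ n ∈ Finset.range D, ∑ l ∈ Finset.range D, ∑ n' ∈ Finset.range D,
          ∑ l' ∈ Finset.range D, (p n l * p n' l') * (Gm s b (n + n')
            / ((b + ((l + l' + 2 : ℕ) : ℝ)) * (b + ((l + l' + 2 : ℕ) : ℝ) + 1)))) :=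
    Good.sum _ fun n _ => Good.sum _ fun l _ => Good.sum _ fun n' _ => Good.sum _ fun l' _ =>
      (good_mono hs hb hσ (n + n') (l + l' + 2)).smul (p n l * p n' l')
  refine ((h1.add (h2.smul (-2))).add h3).congr (fun x hx y hy => ?_) ?_
  · have e1 : 1 / (x + y) * kp D p (1 - x) (1 / (1 + y))
        = ∑ n ∈ Finset.range D, ∑ l ∈ Finset.range D,
          p n l * ((1 - x) ^ n * (1 / (1 + y)) ^ (l + 1) * (1 / (x + y))) := by
      unfold kp
      rw [Finset.mul_sum]
      refine Finset.sum_congr rfl fun n _ => ?_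
      rw [Finset.mul_sum]
      refine Finset.sum_congr rfl fun l _ => ?_
      ring
    have e2 : kp D p (1 - x) (1 / (1 + y)) * kp D p (1 - x) (1 / (1 + y))
        = ∑ n ∈ Finset.range D, ∑ l ∈ Finset.range D,
      ∑ n' ∈ Finset.range D, ∑ l' ∈ Finset.range D,
      (p n l * p n' l') * ((1 - x) ^ (n + n') * (1 / (1 + y)) ^ (l + l' + 2)) := by
      conv_lhs => unfold kp
      rw [Finset.sum_mul]
      refine Finset.sum_congr rfl fun n _ => ?_
      rw [Finset.sum_mul]
      refine Finset.sum_congr rfl fun l _ => ?_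
      rw [Finset.mul_sum]
      refine Finset.sum_congr rfl fun n' _ => ?_
      rw [Finset.mul_sum]
      refine Finset.sum_congr rfl fun l' _ => ?_
      ring
    rw [← e1, ← e2]
    unfold RR
    ring
  · have e3 : ∑ n ∈ Finset.range D, ∑ l ∈ Finset.range D, ∑ n' ∈ Finset.range D,
          ∑ l' ∈ Finset.range D, p n l * p n' l' * Gm s b (n + n')
            / ((b + l + l' + 2) * (b + l + l' + 3))
        = ∑ n ∈ Finset.range D, ∑ l ∈ Finset.range D, ∑ n' ∈ Finset.range D,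
          ∑ l' ∈ Finset.range D, (p n l * p n' l') * (Gm s b (n + n')
            / ((b + ((l + l' + 2 : ℕ) : ℝ)) * (b + ((l + l' + 2 : ℕ) : ℝ) + 1))) := by
      refine Finset.sum_congr rfl fun n _ => Finset.sum_congr rfl fun l _ =>
        Finset.sum_congr rfl fun n' _ => Finset.sum_congr rfl fun l' _ => ?_
      have e4 : (b + ((l + l' + 2 : ℕ) : ℝ)) * (b + ((l + l' + 2 : ℕ) : ℝ) + 1)
          = (b + l + l' + 2) * (b + l + l' + 3) := by
        push_cast
        ring
      rw [e4, mul_div_assoc]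
    rw [e3]
    ring

theorem xln_eq {s : ℂ} (hs : -1 < s.re) {b : ℝ} (hb : 0 < b) (hσ : 0 < b + 1 - 2 * s.re)
    (D : ℕ) (p : ℕ → ℕ → ℝ) (l n : ℕ) : xln s b D p l n = SS s b n l - SS s b n (l + 1)
      - ∑ n' ∈ Finset.range D, ∑ l' ∈ Finset.range D, p n' l' * Gm s b (n + n')
          / ((b + l + l' + 1) * (b + l + l' + 2)) := by
  apply xln_of_good
  have h1 := good_one hs hb hσ n l
  have h2 : Good s b (fun x y => ∑ n' ∈ Finset.range D, ∑ l' ∈ Finset.range D,
      p n' l' * ((1 - x) ^ (n + n') * (1 / (1 + y)) ^ (l + l' + 1)))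
      (∑ n' ∈ Finset.range D, ∑ l' ∈ Finset.range D, p n' l' * (Gm s b (n + n')
          / ((b + ((l + l' + 1 : ℕ) : ℝ)) * (b + ((l + l' + 1 : ℕ) : ℝ) + 1)))) :=
    Good.sum _ fun n' _ => Good.sum _ fun l' _ =>
      (good_mono hs hb hσ (n + n') (l + l' + 1)).smul (p n' l')
  refine (h1.add (h2.smul (-1))).congr (fun x hx y hy => ?_) ?_
  · have e1 : (1 - x) ^ n * (1 / (1 + y)) ^ l * kp D p (1 - x) (1 / (1 + y))
        = ∑ n' ∈ Finset.range D, ∑ l' ∈ Finset.range D,
          p n' l' * ((1 - x) ^ (n + n') * (1 / (1 + y)) ^ (l + l' + 1)) := by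
      unfold kp
      rw [Finset.mul_sum]
      refine Finset.sum_congr rfl fun n' _ => ?_
      rw [Finset.mul_sum]
      refine Finset.sum_congr rfl fun l' _ => ?_
      ring
    rw [← e1]
    unfold RR
    ring
  · have e3 : ∑ n' ∈ Finset.range D, ∑ l' ∈ Finset.range D, p n' l' * Gm s b (n + n')
          / ((b + l + l' + 1) * (b + l + l' + 2))
        = ∑ n' ∈ Finset.range D, ∑ l' ∈ Finset.range D, p n' l' * (Gm s b (n + n')
          / ((b + ((l + l' + 1 : ℕ) : ℝ)) * (b + ((l + l' + 1 : ℕ) : ℝ) + 1))) := by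
      refine Finset.sum_congr rfl fun n' _ => Finset.sum_congr rfl fun l' _ => ?_
      have e4 : (b + ((l + l' + 1 : ℕ) : ℝ)) * (b + ((l + l' + 1 : ℕ) : ℝ) + 1)
          = (b + l + l' + 1) * (b + l + l' + 2) := by
        push_cast
        ring
      rw [e4, mul_div_assoc]
    rw [e3]
    ring

end Pool.Agent.M16.Helper24.HR2
end

/- Helper94.T.Helper65.HR2.S0 -/
section
/-!
MP_16b0ee, project HR2: sharp enclosure of the series `SS s b 0 1` by inverse factorial series.
-/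

set_option autoImplicit false

open Filter Topology

namespace Pool.Agent.M16.Helper65.HR2

open Pool.Agent.M16.Helper24.HR2

theorem gmS_succ (s : ℂ) (b : ℝ) (n : ℕ) :
    Gm s b (n + 1) = Gm s b n * ((2 * s.re + 2 + n) / (b + 3 + n)) := by
  rw [Gm, Finset.prod_range_succ, ← Gm]

theorem gmS_pos {s : ℂ} (hs : -1 < s.re) {b : ℝ} (hb : 0 < b) (n : ℕ) : 0 < Gm s b n := by
  rw [Gm]
  refine Finset.prod_pos (fun k _ => ?_)
  have : (0 : ℝ) ≤ k := Nat.cast_nonneg k
  apply div_pos <;> linarith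

theorem gmS_le_one {s : ℂ} (hs : -1 < s.re) {b : ℝ} (hb : 0 < b) (hσ : 0 < b + 1 - 2 * s.re)
    (n : ℕ) : Gm s b n ≤ 1 := by
  rw [Gm]
  refine Finset.prod_le_one (fun k _ => ?_) (fun k _ => ?_)
  · have : (0 : ℝ) ≤ k := Nat.cast_nonneg k
    apply div_nonneg <;> linarith only [hs, hb]
  · have : (0 : ℝ) ≤ k := Nat.cast_nonneg k
    rw [div_le_one (by linarith)]
    linarith

/-- the products in the denominators -/
noncomputable def PP (b : ℝ) (m k : ℕ) : ℝ := ∏ l ∈ Finset.range m, (b + 3 + l + k)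

theorem PP_pos {b : ℝ} (hb : 0 < b) (m k : ℕ) : 0 < PP b m k := by
  rw [PP]
  exact Finset.prod_pos (fun l _ => by positivity)

theorem PP_succ (b : ℝ) (m k : ℕ) : PP b (m + 1) k = PP b m k * (b + 3 + m + k) := by
  rw [PP, Finset.prod_range_succ, ← PP]

theorem PP_ge_one {b : ℝ} (hb : 0 < b) (m k : ℕ) : 1 ≤ PP b m k := by
  induction m with
  | zero => simp [PP]
  | succ m ih =>
    rw [PP_succ]
    have h1 : (0 : ℝ) ≤ m := Nat.cast_nonneg m
    have h2 : (0 : ℝ) ≤ k := Nat.cast_nonneg k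
    nlinarith only [hb, ih]

theorem PP_ge {b : ℝ} (hb : 0 < b) (m k : ℕ) : (k : ℝ) + 1 ≤ PP b (m + 1) k := by
  rw [PP_succ]
  have h0 := PP_ge_one hb m k
  have h1 : (0 : ℝ) ≤ m := Nat.cast_nonneg m
  have h2 : (0 : ℝ) ≤ k := Nat.cast_nonneg k
  nlinarith only [hb, h0]

theorem PP_shift {b : ℝ} (m k : ℕ) :
    PP b m (k + 1) * (b + 3 + k) = PP b m k * (b + 3 + m + k) := by
  rw [← PP_succ, PP, PP, Finset.prod_range_succ']
  congr 1
  · refine Finset.prod_congr rfl (fun l _ => ?_)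
    push_cast
    ring
  · push_cast
    ring

theorem tele {s : ℂ} {b : ℝ} (hb : 0 < b) (m k : ℕ) :
    Gm s b k / PP b m k - Gm s b (k + 1) / PP b m (k + 1)
      = (b + 1 + m - 2 * s.re) * (Gm s b k / PP b (m + 1) k) := by
  have h1 := PP_pos hb m k
  have h2 := PP_pos hb m (k + 1)
  have h3 : (0 : ℝ) < b + 3 + k := by positivity
  have h4 : (0 : ℝ) < b + 3 + m + k := by positivity
  have h5 : PP b m (k + 1) = PP b m k * (b + 3 + m + k) / (b + 3 + k) := by
    rw [eq_div_iff h3.ne', PP_shift]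
  rw [gmS_succ, h5, PP_succ]
  field_simp
  ring

theorem V_hasSum {s : ℂ} (hs : -1 < s.re) {b : ℝ} (hb : 0 < b) (hσ : 0 < b + 1 - 2 * s.re)
    (J m : ℕ) : HasSum (fun i : ℕ => Gm s b (J + i) / PP b (m + 1) (J + i))
      (Gm s b J / PP b m J / (b + 1 + m - 2 * s.re)) := by
  have hc : (0 : ℝ) < b + 1 + m - 2 * s.re := by
    have : (0 : ℝ) ≤ m := Nat.cast_nonneg m
    linarith
  rcases m with _ | m
  · have h1 := SS_diag hs hb hσ J
    have h2 := SS_summable hs hb hσ J (J + 2)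
    have h3 := h2.hasSum
    rw [SS] at h1
    rw [h1] at h3
    have e1 : (fun i : ℕ => Gm s b (J + i) / (b + 1 + (i : ℝ) + ((J + 2 : ℕ) : ℝ)))
        = fun i : ℕ => Gm s b (J + i) / PP b (0 + 1) (J + i) := by
      funext i
      rw [PP, Finset.prod_range_one]
      congr 1
      push_cast
      ring
    rw [e1] at h3
    have e2 : Gm s b J / PP b 0 J / (b + 1 + ((0 : ℕ) : ℝ) - 2 * s.re)
        = Gm s b J / (b + 1 - 2 * s.re) := by
      rw [PP]
      simp
    rw [e2]
    exact h3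
  · rw [hasSum_iff_tendsto_nat_of_nonneg
      (fun i => (div_pos (gmS_pos hs hb _) (PP_pos hb _ _)).le)]
    have e1 : ∀ n : ℕ, ∑ i ∈ Finset.range n, Gm s b (J + i) / PP b (m + 1 + 1) (J + i)
        = (Gm s b J / PP b (m + 1) J - Gm s b (J + n) / PP b (m + 1) (J + n))
          / (b + 1 + ((m + 1 : ℕ) : ℝ) - 2 * s.re) := by
      intro n
      rw [eq_div_iff hc.ne', Finset.sum_mul]
      have := Finset.sum_range_sub' (fun i => Gm s b (J + i) / PP b (m + 1) (J + i)) n
      simp only [add_zero] at this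
      rw [← this]
      refine Finset.sum_congr rfl (fun i _ => ?_)
      rw [show J + (i + 1) = J + i + 1 from rfl, tele hb]
      ring
    simp only [e1]
    have lim : Tendsto (fun n : ℕ => Gm s b (J + n) / PP b (m + 1) (J + n)) atTop (𝓝 0) := by
      have hu : Tendsto (fun n : ℕ => 1 / ((n : ℝ) + 1)) atTop (𝓝 0) :=
        tendsto_one_div_add_atTop_nhds_zero_nat
      refine squeeze_zero (fun n => (div_pos (gmS_pos hs hb _) (PP_pos hb _ _)).le) (fun n => ?_) hu
      have h1 := gmS_le_one hs hb hσ (J + n)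
      have h2 : (n : ℝ) + 1 ≤ PP b (m + 1) (J + n) := by
        refine le_trans ?_ (PP_ge hb m (J + n))
        push_cast
        linarith [(Nat.cast_nonneg J : (0 : ℝ) ≤ J)]
      exact div_le_div₀ zero_le_one h1 (by positivity) h2
    have h6 := ((tendsto_const_nhds (x := Gm s b J / PP b (m + 1) J)).sub lim).div_const
      (b + 1 + ((m + 1 : ℕ) : ℝ) - 2 * s.re)
    rw [sub_zero] at h6
    exact h6

/-- the expansion of `1 / x` in an inverse factorial series -/
theorem inv_expand {b : ℝ} (hb : 0 < b) (k M : ℕ) :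
    1 / (b + 2 + k) = (∑ m ∈ Finset.range M, (Nat.factorial m : ℝ) / PP b (m + 1) k)
      + (Nat.factorial M : ℝ) / ((b + 2 + k) * PP b M k) := by
  have hx : (0 : ℝ) < b + 2 + k := by positivity
  induction M with
  | zero => simp [PP]
  | succ M ih =>
    rw [Finset.sum_range_succ]
    rw [ih]
    have h1 := PP_pos hb M k
    have h2 : (0 : ℝ) < b + 3 + M + k := by positivity
    rw [Nat.factorial_succ, PP_succ]
    push_cast
    field_simp
    ring

/-- enclosure of the tail -/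
theorem tail_bounds {s : ℂ} (hs : -1 < s.re) {b : ℝ} (hb : 0 < b) (hσ : 0 < b + 1 - 2 * s.re)
    (J M : ℕ) :
    (∑ m ∈ Finset.range (M + 1), (Nat.factorial m : ℝ)
        * (Gm s b J / PP b m J / (b + 1 + m - 2 * s.re))) ≤ SS s b J (J + 1) ∧
    SS s b J (J + 1) ≤ (∑ m ∈ Finset.range M, (Nat.factorial m : ℝ)
        * (Gm s b J / PP b m J / (b + 1 + m - 2 * s.re)))
      + (Nat.factorial M : ℝ) * (Gm s b J / PP b M J / (b + 1 + M - 2 * s.re))
        * ((b + 3 + M + J) / (b + 2 + J)) := by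
  have hS := (SS_summable hs hb hσ J (J + 1)).hasSum
  have hV : ∀ m, HasSum (fun i : ℕ => (Nat.factorial m : ℝ)
      * (Gm s b (J + i) / PP b (m + 1) (J + i)))
      ((Nat.factorial m : ℝ) * (Gm s b J / PP b m J / (b + 1 + m - 2 * s.re))) :=
    fun m => (V_hasSum hs hb hσ J m).mul_left _
  have hsum : ∀ K, HasSum (fun i : ℕ => ∑ m ∈ Finset.range K, (Nat.factorial m : ℝ)
      * (Gm s b (J + i) / PP b (m + 1) (J + i)))
      (∑ m ∈ Finset.range K, (Nat.factorial m : ℝ)
        * (Gm s b J / PP b m J / (b + 1 + m - 2 * s.re))) :=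
    fun K => hasSum_sum (fun m _ => hV m)
  have hterm : ∀ i : ℕ, Gm s b (J + i) / (b + 1 + (i : ℝ) + ((J + 1 : ℕ) : ℝ))
      = (∑ m ∈ Finset.range M, (Nat.factorial m : ℝ) * (Gm s b (J + i) / PP b (m + 1) (J + i)))
        + Gm s b (J + i) * ((Nat.factorial M : ℝ)
          / ((b + 2 + ((J + i : ℕ) : ℝ)) * PP b M (J + i))) := by
    intro i
    have h1 := inv_expand hb (J + i) M
    have h2 : b + 1 + (i : ℝ) + ((J + 1 : ℕ) : ℝ) = b + 2 + ((J + i : ℕ) : ℝ) := by
      push_cast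
      ring
    rw [h2, div_eq_mul_one_div, h1, mul_add, Finset.mul_sum]
    congr 1
    refine Finset.sum_congr rfl (fun m _ => ?_)
    ring
  have hR1 : ∀ i : ℕ, (Nat.factorial M : ℝ) * (Gm s b (J + i) / PP b (M + 1) (J + i))
      ≤ Gm s b (J + i) * ((Nat.factorial M : ℝ)
          / ((b + 2 + ((J + i : ℕ) : ℝ)) * PP b M (J + i))) := by
    intro i
    have h1 := PP_pos hb M (J + i)
    have h2 : (0 : ℝ) < b + 2 + ((J + i : ℕ) : ℝ) := by positivity
    have h3 : (0 : ℝ) < b + 3 + M + ((J + i : ℕ) : ℝ) := by positivity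
    have h4 := gmS_pos hs hb (J + i)
    have h5 : (0 : ℝ) < (Nat.factorial M : ℝ) := by positivity
    rw [PP_succ]
    rw [show (Nat.factorial M : ℝ) * (Gm s b (J + i) / (PP b M (J + i)
        * (b + 3 + M + ((J + i : ℕ) : ℝ)))) = Gm s b (J + i) * (Nat.factorial M : ℝ)
        / PP b M (J + i) * (1 / (b + 3 + M + ((J + i : ℕ) : ℝ))) from by field_simp,
      show Gm s b (J + i) * ((Nat.factorial M : ℝ)
          / ((b + 2 + ((J + i : ℕ) : ℝ)) * PP b M (J + i))) = Gm s b (J + i)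
        * (Nat.factorial M : ℝ) / PP b M (J + i) * (1 / (b + 2 + ((J + i : ℕ) : ℝ)))
        from by field_simp]
    refine mul_le_mul_of_nonneg_left ?_ (by positivity)
    refine one_div_le_one_div_of_le h2 ?_
    linarith [(Nat.cast_nonneg M : (0 : ℝ) ≤ M)]
  have hR2 : ∀ i : ℕ, Gm s b (J + i) * ((Nat.factorial M : ℝ)
          / ((b + 2 + ((J + i : ℕ) : ℝ)) * PP b M (J + i)))
      ≤ (Nat.factorial M : ℝ) * (Gm s b (J + i) / PP b (M + 1) (J + i))
        * ((b + 3 + M + J) / (b + 2 + J)) := by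
    intro i
    have h1 := PP_pos hb M (J + i)
    have h2 : (0 : ℝ) < b + 2 + ((J + i : ℕ) : ℝ) := by positivity
    have h3 : (0 : ℝ) < b + 3 + M + ((J + i : ℕ) : ℝ) := by positivity
    have h4 := gmS_pos hs hb (J + i)
    have h5 : (0 : ℝ) < (Nat.factorial M : ℝ) := by positivity
    have h6 : (0 : ℝ) < b + 2 + J := by positivity
    rw [PP_succ]
    rw [show (Nat.factorial M : ℝ) * (Gm s b (J + i) / (PP b M (J + i)
        * (b + 3 + M + ((J + i : ℕ) : ℝ)))) * ((b + 3 + M + J) / (b + 2 + J))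
        = Gm s b (J + i) * (Nat.factorial M : ℝ)
        / PP b M (J + i) * ((b + 3 + M + J) / ((b + 3 + M + ((J + i : ℕ) : ℝ)) * (b + 2 + J)))
        from by field_simp,
      show Gm s b (J + i) * ((Nat.factorial M : ℝ)
          / ((b + 2 + ((J + i : ℕ) : ℝ)) * PP b M (J + i))) = Gm s b (J + i)
        * (Nat.factorial M : ℝ) / PP b M (J + i) * (1 / (b + 2 + ((J + i : ℕ) : ℝ)))
        from by field_simp]
    refine mul_le_mul_of_nonneg_left ?_ (by positivity)
    rw [div_le_div_iff₀ h2 (by positivity)]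
    push_cast
    nlinarith only []
  constructor
  · refine hasSum_le (fun i => ?_) (hsum (M + 1)) hS
    rw [hterm i, Finset.sum_range_succ]
    have := hR1 i
    linarith
  · have h7 := (hsum M).add ((hV M).mul_right ((b + 3 + M + J) / (b + 2 + J)))
    refine hasSum_le (fun i => ?_) hS h7
    rw [hterm i]
    have := hR2 i
    linarith only [this]

theorem SS_split {s : ℂ} (hs : -1 < s.re) {b : ℝ} (hb : 0 < b) (hσ : 0 < b + 1 - 2 * s.re)
    (J : ℕ) : SS s b 0 1 = (∑ i ∈ Finset.range J, Gm s b i / (b + 2 + i)) + SS s b J (J + 1) := by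
  induction J with
  | zero => simp
  | succ J ih =>
    rw [ih, Finset.sum_range_succ, SS_shift hs hb hσ J (J + 1)]
    have : b + 1 + ((J + 1 : ℕ) : ℝ) = b + 2 + J := by
      push_cast
      ring
    rw [this]
    ring

end Pool.Agent.M16.Helper65.HR2
end

/- Helper94.T.Helper65.HR2.Ser -/
section
/-!
MP_16b0ee, project HR2: the moments and the series in exact rational arithmetic; all series are
affine in `SS s b 0 1`.
-/

set_option autoImplicit false

open scoped ComplexConjugate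

namespace Pool.Agent.M16.Helper65.HR2

open Pool.Agent.M16.Helper24.HR2

/-- the moments -/
def gmQ (r b : ℚ) : ℕ → ℚ
  | 0 => 1
  | n + 1 => gmQ r b n * ((2 * r + 2 + n) / (b + 3 + n))

theorem gmQ_eq {s : ℂ} {r b : ℚ} (hr : s.re = r) (n : ℕ) : ((gmQ r b n : ℚ) : ℝ) = Gm s b n := by
  induction n with
  | zero => simp [gmQ, Gm]
  | succ n ih =>
    rw [gmQ, Gm, Finset.prod_range_succ, ← Gm, ← ih, hr]
    push_cast
    ring

/-- affine functions of the series `SS s b 0 1` -/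
def av (S : ℝ) (x : ℚ × ℚ) : ℝ := (x.1 : ℝ) + (x.2 : ℝ) * S

/-- the first row -/
def ss0 (r b : ℚ) : ℕ → ℚ × ℚ
  | 0 => (1 / (b + 1) + 1, 2 * r - b)
  | 1 => (0, 1)
  | j + 2 => ((-j * ((ss0 r b (j + 1)).1 - 1 / (b + 2 + j)) - 1) / (2 * r - b - j - 1),
      -j * (ss0 r b (j + 1)).2 / (2 * r - b - j - 1))

/-- all rows -/
def ssQ (r b : ℚ) : ℕ → ℕ → ℚ × ℚ
  | 0, j => ss0 r b j
  | n + 1, 0 => ((gmQ r b n + (2 * r + 1 + n - b) * (ssQ r b n 0).1) / (n + 2),
      (2 * r + 1 + n - b) * (ssQ r b n 0).2 / (n + 2))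
  | n + 1, j + 1 => ((ssQ r b n j).1 - gmQ r b n / (b + 1 + j), (ssQ r b n j).2)

theorem ss0_eq {s : ℂ} {r b : ℚ} (hr : s.re = r) (hs : -1 < s.re) (hb : 0 < (b : ℝ))
    (hσ : 0 < (b : ℝ) + 1 - 2 * s.re) (j : ℕ) : SS s b 0 j = av (SS s b 0 1) (ss0 r b j) := by
  have hG : Gm s b 0 = 1 := by simp [Gm]
  induction j with
  | zero =>
    have h1 := SS_rec hs hb hσ 0 1
    have h2 := SS_shift hs hb hσ 0 0
    rw [hG] at h1 h2
    simp only [Nat.cast_zero, Nat.cast_one, zero_add, add_zero] at h1 h2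
    rw [h2, hr] at h1
    simp only [av, ss0]
    push_cast
    linarith only [h1]
  | succ j ih =>
    rcases j with _ | j
    · simp [av, ss0]
    · have h1 := SS_rec hs hb hσ 0 (j + 2)
      have h2 := SS_shift hs hb hσ 0 (j + 1)
      rw [hG] at h1 h2
      rw [show j + 1 + 1 = j + 2 from rfl] at h2 ⊢
      simp only [zero_add] at h1 h2
      rw [h2, ih, hr] at h1
      have hne : (2 * (r : ℝ) - b - j - 1) ≠ 0 := by
        have : (0 : ℝ) ≤ j := Nat.cast_nonneg j
        rw [hr] at hσ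
        intro h0
        linarith only [hσ, h0]
      simp only [av, ss0] at h1 ⊢
      push_cast at h1 ⊢
      have hb2 : (b : ℝ) + 2 + j ≠ 0 := by positivity
      have hb3 : (b : ℝ) + 1 + (j + 1) ≠ 0 := by positivity
      field_simp
      field_simp at h1
      linarith only [h1]

theorem ssQ_eq {s : ℂ} {r b : ℚ} (hr : s.re = r) (hs : -1 < s.re) (hb : 0 < (b : ℝ))
    (hσ : 0 < (b : ℝ) + 1 - 2 * s.re) (n : ℕ) :
    ∀ j : ℕ, SS s b n j = av (SS s b 0 1) (ssQ r b n j) := by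
  induction n with
  | zero =>
    intro j
    rw [show ssQ r b 0 j = ss0 r b j from by simp [ssQ]]
    exact ss0_eq hr hs hb hσ j
  | succ n ih =>
    intro j
    rcases j with _ | j
    · have h1 := SS_rec hs hb hσ n 0
      rw [ih 0, ← gmQ_eq hr n, hr] at h1
      have hn : ((n : ℝ) + 2) ≠ 0 := by positivity
      simp only [av, ssQ] at h1 ⊢
      push_cast at h1 ⊢
      field_simp
      rw [sub_zero] at h1
      linarith only [h1]
    · have h2 := SS_shift hs hb hσ n j
      rw [ih j, ← gmQ_eq hr n] at h2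
      rw [h2]
      simp only [av, ssQ]
      push_cast
      ring

/-- weights -/
def wQ (b : ℚ) (k : ℕ) : ℚ := 1 / ((b + k) * (b + k + 1))

/-- the coefficients of the kernel times the moments -/
def pgQ (r b : ℚ) (D : ℕ) (p : ℕ → ℕ → ℚ) (n l : ℕ) : ℚ :=
  sm (fun n' => p n' l * gmQ r b (n + n')) D

theorem pgQ_eq {s : ℂ} {r b : ℚ} (hr : s.re = r) (D : ℕ) (p : ℕ → ℕ → ℚ) (n l : ℕ) :
    ((pgQ r b D p n l : ℚ) : ℝ) = ∑ n' ∈ Finset.range D, (p n' l : ℝ) * Gm s b (n + n') := by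
  rw [pgQ, sm_eq]
  refine Finset.sum_congr rfl (fun n' _ => ?_)
  rw [Rat.cast_mul, gmQ_eq hr]

/-- the squared Hilbert-Schmidt norm of the remainder -/
def hsQ (r b : ℚ) (D : ℕ) (p : ℕ → ℕ → ℚ) : ℚ × ℚ :=
  ((b + 2) * (ss0 r b 2).1
      - 2 * sm (fun n => sm (fun l => p n l * ((ssQ r b n (l + 1)).1 - (ssQ r b n (l + 2)).1)) D) D
      + sm (fun n => sm (fun l => p n l * sm (fun l' => pgQ r b D p n l' * wQ b (l + l' + 2)) D)
          D) D,
    -(b + 1) + (b + 2) * (ss0 r b 2).2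
      - 2 * sm (fun n => sm (fun l => p n l * ((ssQ r b n (l + 1)).2 - (ssQ r b n (l + 2)).2)) D) D)

theorem hsQ_eq {s : ℂ} {r b : ℚ} (hr : s.re = r) (hs : -1 < s.re) (hb : 0 < (b : ℝ))
    (hσ : 0 < (b : ℝ) + 1 - 2 * s.re) (D : ℕ) (p : ℕ → ℕ → ℚ) :
    HSn s b D (fun n l => (p n l : ℝ)) = av (SS s b 0 1) (hsQ r b D p) := by
  rw [HSn_eq hs hb hσ]
  have h1 : ∑ n ∈ Finset.range D, ∑ l ∈ Finset.range D,
      (p n l : ℝ) * (SS s b n (l + 1) - SS s b n (l + 2))
      = ((sm (fun n => sm (fun l => p n l * ((ssQ r b n (l + 1)).1 - (ssQ r b n (l + 2)).1)) D) D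
          : ℚ) : ℝ) + ((sm (fun n => sm (fun l => p n l * ((ssQ r b n (l + 1)).2
            - (ssQ r b n (l + 2)).2)) D) D : ℚ) : ℝ) * SS s b 0 1 := by
    rw [sm_eq, sm_eq, Finset.sum_mul, ← Finset.sum_add_distrib]
    refine Finset.sum_congr rfl (fun n _ => ?_)
    rw [sm_eq, sm_eq, Finset.sum_mul, ← Finset.sum_add_distrib]
    refine Finset.sum_congr rfl (fun l _ => ?_)
    rw [ssQ_eq hr hs hb hσ n (l + 1), ssQ_eq hr hs hb hσ n (l + 2), av, av]
    push_cast
    ring
  have h2 : ∑ n ∈ Finset.range D, ∑ l ∈ Finset.range D, ∑ n' ∈ Finset.range D,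
      ∑ l' ∈ Finset.range D, (p n l : ℝ) * (p n' l' : ℝ) * Gm s b (n + n')
        / ((b + l + l' + 2) * (b + l + l' + 3))
      = ((sm (fun n => sm (fun l => p n l * sm (fun l' => pgQ r b D p n l' * wQ b (l + l' + 2)) D)
          D) D : ℚ) : ℝ) := by
    rw [sm_eq]
    refine Finset.sum_congr rfl (fun n _ => ?_)
    rw [sm_eq]
    refine Finset.sum_congr rfl (fun l _ => ?_)
    rw [Rat.cast_mul, sm_eq, Finset.mul_sum, Finset.sum_comm]
    refine Finset.sum_congr rfl (fun l' _ => ?_)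
    rw [Rat.cast_mul, pgQ_eq hr, Finset.sum_mul, Finset.mul_sum]
    refine Finset.sum_congr rfl (fun n' _ => ?_)
    rw [wQ]
    push_cast
    rw [mul_one_div, ← mul_div_assoc, mul_assoc]
    congr 1
    ring
  rw [h1, h2, ss0_eq hr hs hb hσ 2]
  simp only [av, hsQ]
  push_cast
  ring

/-- initial sum of the series -/
def s0Q (r b : ℚ) (J : ℕ) : ℚ := sm (fun i => gmQ r b i / (b + 2 + i)) J

/-- coefficients of the inverse factorial series -/
def cmQ (b : ℚ) (J : ℕ) : ℕ → ℚ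
  | 0 => 1
  | m + 1 => cmQ b J m * ((m + 1) / (b + 3 + m + J))

theorem cmQ_eq {b : ℚ} (hb : 0 < (b : ℝ)) (J m : ℕ) :
    ((cmQ b J m : ℚ) : ℝ) = (Nat.factorial m : ℝ) / PP b m J := by
  induction m with
  | zero => simp [cmQ, PP]
  | succ m ih =>
    rw [cmQ, Rat.cast_mul, ih, Nat.factorial_succ, PP_succ]
    have h1 := PP_pos hb m J
    have h2 : (0 : ℝ) < (b : ℝ) + 3 + m + J := by positivity
    push_cast
    field_simp

/-- sums of the inverse factorial series -/
def ifQ (r b : ℚ) (J M : ℕ) : ℚ := sm (fun m => cmQ b J m / (b + 1 + m - 2 * r)) M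

/-- check of the enclosure of the series -/
def s0C (r b : ℚ) (J M : ℕ) (lo hi : ℚ) : Bool :=
  decide (lo ≤ s0Q r b J + gmQ r b J * ifQ r b J (M + 1)) &&
    decide (s0Q r b J + gmQ r b J * (ifQ r b J M + cmQ b J M / (b + 1 + M - 2 * r)
      * ((b + 3 + M + J) / (b + 2 + J))) ≤ hi)

theorem s0C_sound {s : ℂ} {r b : ℚ} (hr : s.re = r) (hs : -1 < s.re) (hb : 0 < (b : ℝ))
    (hσ : 0 < (b : ℝ) + 1 - 2 * s.re) {J M : ℕ} {lo hi : ℚ} (h : s0C r b J M lo hi = true) :
    (lo : ℝ) ≤ SS s b 0 1 ∧ SS s b 0 1 ≤ (hi : ℝ) := by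
  rw [s0C, Bool.and_eq_true, decide_eq_true_eq, decide_eq_true_eq] at h
  obtain ⟨h1, h2⟩ := h
  have h1' := (Rat.cast_le (K := ℝ)).2 h1
  have h2' := (Rat.cast_le (K := ℝ)).2 h2
  obtain ⟨h3, h4⟩ := tail_bounds hs hb hσ J M
  have h5 : ((s0Q r b J : ℚ) : ℝ) = ∑ i ∈ Finset.range J, Gm s b i / (b + 2 + i) := by
    rw [s0Q, sm_eq]
    refine Finset.sum_congr rfl (fun i _ => ?_)
    push_cast
    rw [gmQ_eq hr]
  have h6 : ∀ m : ℕ, (Nat.factorial m : ℝ) * (Gm s b J / PP b m J / (b + 1 + m - 2 * s.re))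
      = ((gmQ r b J : ℚ) : ℝ) * ((cmQ b J m / (b + 1 + m - 2 * r) : ℚ) : ℝ) := by
    intro m
    rw [gmQ_eq hr, Rat.cast_div, cmQ_eq hb, hr]
    push_cast
    ring
  have h7 : ∀ K : ℕ, ∑ m ∈ Finset.range K, (Nat.factorial m : ℝ)
      * (Gm s b J / PP b m J / (b + 1 + m - 2 * s.re))
      = ((gmQ r b J : ℚ) : ℝ) * ((ifQ r b J K : ℚ) : ℝ) := by
    intro K
    rw [ifQ, sm_eq, Finset.mul_sum]
    exact Finset.sum_congr rfl (fun m _ => h6 m)
  rw [h7] at h3 h4
  rw [h6] at h4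
  have h8 := SS_split hs hb hσ J
  rw [← h5] at h8
  push_cast at h1' h2' h4
  rw [h8]
  constructor
  · linarith only [h3, h1']
  · refine le_trans ?_ h2'
    rw [mul_add]
    linarith

end Pool.Agent.M16.Helper65.HR2
end

/- Helper94.T.Helper65.HR2.Mat -/
section
/-!
MP_16b0ee, project HR2: the lower bound of the area form at one point as a Hermitian matrix of
order three with Gaussian rational entries.
-/

set_option autoImplicit false

open scoped ComplexConjugate

namespace Pool.Agent.M16.Helper65.HR2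

open Pool.Agent.M16.Helper24.HR2

/-- the matrix of `sum_(l,k) w l k * (A l g) * conj (B k g)` -/
def bil (m m' : ℕ) (w : ℕ → ℕ → ℚ) (A B : ℕ → ℕ → GQ) (r t : ℕ) : GQ :=
  smG (fun l => (A l t).mul (smG (fun k => ((B k r).cj).sc (w l k)) m')) m

theorem bil_eq (K m m' : ℕ) (w : ℕ → ℕ → ℚ) (A B : ℕ → ℕ → GQ) (g : ℕ → ℂ) :
    hF K (fun r t => (bil m m' w A B r t).toC) g
      = ∑ l ∈ Finset.range m, ∑ k ∈ Finset.range m', (w l k : ℝ)
        * ((∑ t ∈ Finset.range K, (A l t).toC * g t)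
          * conj (∑ r ∈ Finset.range K, (B k r).toC * g r)).re := by
  have h1 : (fun r t => (bil m m' w A B r t).toC)
      = fun r t => ∑ l ∈ Finset.range m, ∑ k ∈ Finset.range m', (((w l k : ℚ) : ℝ) : ℂ)
        * ((A l t).toC * conj ((B k r).toC)) := by
    funext r t
    rw [bil, smG_eq]
    refine Finset.sum_congr rfl (fun l _ => ?_)
    rw [GQ.toC_mul, smG_eq, Finset.mul_sum]
    refine Finset.sum_congr rfl (fun k _ => ?_)
    rw [GQ.toC_sc, GQ.toC_cj]
    ring
  rw [h1, hF_sum]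
  refine Finset.sum_congr rfl (fun l _ => ?_)
  rw [hF_sum]
  refine Finset.sum_congr rfl (fun k _ => ?_)
  rw [hF_smul, hF_prod]

/-- the product in the functionals -/
def prQ (s : GQ) : ℕ → GQ
  | 0 => ⟨1, 0⟩
  | n + 1 => (prQ s n).mul ⟨s.re + 2 + n, s.im⟩

theorem prQ_eq (s : GQ) (n : ℕ) : (prQ s n).toC = ∏ k ∈ Finset.range n, (s.toC + 2 + k) := by
  induction n with
  | zero =>
    rw [prQ, GQ.toC_mk]
    simp
  | succ n ih =>
    rw [prQ, GQ.toC_mul, Finset.prod_range_succ, ← ih]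
    congr 1
    apply Complex.ext <;> simp [GQ.toC]

/-- the functionals -/
def muQ (s : GQ) (n r : ℕ) : GQ :=
  (prQ s n).sc ((Nat.choose (n + 1) (2 * r) : ℚ) * (1 / 2) ^ (n + 1 - 2 * r)
    / (Nat.factorial (n + 1) : ℚ))

theorem muQ_eq (s : GQ) (K : ℕ) (g : ℕ → ℂ) (n : ℕ) :
    muS s.toC K g n = ∑ r ∈ Finset.range K, (muQ s n r).toC * g r := by
  rw [muS, Finset.mul_sum]
  refine Finset.sum_congr rfl (fun r _ => ?_)
  rw [muQ, GQ.toC_sc, prQ_eq]
  push_cast
  ring

/-- the coefficients of the inner function -/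
def phQ (s : GQ) (D : ℕ) (p : ℕ → ℕ → ℚ) : ℕ → ℕ → GQ
  | 0, r => ((GQ.mk (1 + s.re) s.im).inv.sc 2).mul (muQ s 0 r)
  | l + 1, r => smG (fun n => (muQ s n r).sc (p n l)) D

theorem phQ_eq (s : GQ) (D : ℕ) (p : ℕ → ℕ → ℚ) (K : ℕ) (g : ℕ → ℂ) (l : ℕ) :
    FF s.toC D (fun n l => (p n l : ℝ)) (muS s.toC K g) l
      = ∑ r ∈ Finset.range K, (phQ s D p l r).toC * g r := by
  rcases l with _ | l
  · rw [FF, muQ_eq, Finset.mul_sum]
    refine Finset.sum_congr rfl (fun r _ => ?_)
    rw [phQ, GQ.toC_mul, GQ.toC_sc, GQ.toC_inv]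
    have : (GQ.mk (1 + s.re) s.im).toC = 1 + s.toC := by
      apply Complex.ext <;> simp [GQ.toC]
    rw [this]
    push_cast
    ring
  · rw [FF]
    have h1 : ∀ r, (phQ s D p (l + 1) r).toC
        = ∑ n ∈ Finset.range D, ((p n l : ℝ) : ℂ) * (muQ s n r).toC := by
      intro r
      rw [phQ, smG_eq]
      exact Finset.sum_congr rfl (fun n _ => by rw [GQ.toC_sc])
    simp only [h1, muQ_eq]
    simp only [Finset.sum_mul, Finset.mul_sum]
    rw [Finset.sum_comm]
    refine Finset.sum_congr rfl (fun r _ => Finset.sum_congr rfl (fun n _ => ?_))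
    ring

/-! the matrices -/

/-- coefficients of the cross functions -/
def cJQ (b : ℚ) (D : ℕ) (p : ℕ → ℕ → ℚ) (l j : ℕ) : ℚ :=
  1 / ((b + l + 1 + j) * (b + l + 2 + j))
    - if j < D then sm (fun l' => p j l' * wQ b (l + l' + 1)) D else 0

theorem cJQ_eq (b : ℚ) (D : ℕ) (p : ℕ → ℕ → ℚ) (l j : ℕ) :
    ((cJQ b D p l j : ℚ) : ℝ) = cJ b D (fun n l => (p n l : ℝ)) l j := by
  rw [cJQ, cJ]
  split_ifs with h
  · push_cast
    rw [sm_eq]
    congr 1
    refine Finset.sum_congr rfl (fun l' _ => ?_)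
    rw [wQ]
    push_cast
    rw [mul_one_div]
    congr 1
    ring
  · push_cast
    ring

/-- inner sums -/
def vQ (r b : ℚ) (D : ℕ) (p : ℕ → ℕ → ℚ) (J k i : ℕ) : ℚ :=
  sm (fun j => gmQ r b (i + j) * cJQ b D p k j) J

/-- the matrix of the cross functional -/
def WQ (r b : ℚ) (D : ℕ) (p : ℕ → ℕ → ℚ) (J : ℕ) (th : ℚ) (l k : ℕ) : ℚ :=
  (1 + th) * sm (fun i => cJQ b D p l i * vQ r b D p J k i) J
    + if l = k then (1 + 1 / th) * gmQ r b (2 * J)
      * sm (fun l' => 1 / (b + l' + 1 + J)) (D + 1) * (1 / (b + l + 1 + J)) else 0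

theorem cs_tail (m : ℕ) (w : ℕ → ℝ) (hw : ∀ l, 0 ≤ w l) (F : ℕ → ℂ) :
    (∑ l ∈ Finset.range m, ‖F l‖ * w l) ^ 2
      ≤ (∑ l ∈ Finset.range m, w l) * ∑ l ∈ Finset.range m, w l * (F l * conj (F l)).re := by
  have h1 : ∀ l, (F l * conj (F l)).re = ‖F l‖ ^ 2 := by
    intro l
    rw [Complex.mul_conj, ← Complex.normSq_eq_norm_sq]
    exact Complex.ofReal_re _
  simp only [h1]
  have := Finset.sum_mul_sq_le_sq_mul_sq (Finset.range m) (fun l => Real.sqrt (w l))
    (fun l => Real.sqrt (w l) * ‖F l‖)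
  have e1 : ∀ l, Real.sqrt (w l) * (Real.sqrt (w l) * ‖F l‖) = ‖F l‖ * w l := by
    intro l
    rw [← mul_assoc, Real.mul_self_sqrt (hw l), mul_comm]
  have e2 : ∀ l, Real.sqrt (w l) ^ 2 = w l := fun l => Real.sq_sqrt (hw l)
  have e3 : ∀ l, (Real.sqrt (w l) * ‖F l‖) ^ 2 = w l * ‖F l‖ ^ 2 := by
    intro l
    rw [mul_pow, e2]
  simp only [e1, e2, e3] at this
  exact this

theorem ncross_le {s : GQ} {b : ℚ} (hs : -1 < s.toC.re) (hb : 0 < (b : ℝ))
    (hσ : 0 < (b : ℝ) + 1 - 2 * s.toC.re) {D J : ℕ} (hJ : D ≤ J) (p : ℕ → ℕ → ℚ) (K : ℕ)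
    (g : ℕ → ℂ) {th : ℚ} (hth : 0 < (th : ℝ)) :
    Ncross s.toC b D (fun n l => (p n l : ℝ))
        (FF s.toC D (fun n l => (p n l : ℝ)) (muS s.toC K g))
      ≤ hF K (fun i j => (bil (D + 1) (D + 1) (WQ s.re b D p J th) (phQ s D p) (phQ s D p)
          i j).toC) g := by
  set F := FF s.toC D (fun n l => (p n l : ℝ)) (muS s.toC K g) with hFd
  refine (Ncross_le hs hb hσ hJ _ F hth).trans ?_
  have hr : s.toC.re = (s.re : ℝ) := rfl
  rw [bil_eq]
  have hF1 : ∀ l, (∑ t ∈ Finset.range K, (phQ s D p l t).toC * g t) = F l := by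
    intro l
    rw [hFd, phQ_eq]
  simp only [hF1]
  -- the main part
  have m1 : ∑ i ∈ Finset.range J, ∑ j ∈ Finset.range J, Gm s.toC b (i + j)
        * ((∑ l ∈ Finset.range (D + 1), F l * (cJ b D (fun n l => (p n l : ℝ)) l i : ℂ))
          * conj (∑ l ∈ Finset.range (D + 1), F l
            * (cJ b D (fun n l => (p n l : ℝ)) l j : ℂ))).re
      = ∑ l ∈ Finset.range (D + 1), ∑ k ∈ Finset.range (D + 1),
        ((sm (fun i => cJQ b D p l i * vQ s.re b D p J k i) J : ℚ) : ℝ)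
          * (F l * conj (F k)).re := by
    have e1 : ∀ i j, ((∑ l ∈ Finset.range (D + 1), F l
            * (cJ b D (fun n l => (p n l : ℝ)) l i : ℂ))
          * conj (∑ l ∈ Finset.range (D + 1), F l
            * (cJ b D (fun n l => (p n l : ℝ)) l j : ℂ))).re
        = ∑ l ∈ Finset.range (D + 1), ∑ k ∈ Finset.range (D + 1),
          cJ b D (fun n l => (p n l : ℝ)) l i * cJ b D (fun n l => (p n l : ℝ)) k j
            * (F l * conj (F k)).re := by
      intro i j
      rw [map_sum, Finset.sum_mul_sum, Complex.re_sum]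
      refine Finset.sum_congr rfl (fun l _ => ?_)
      rw [Complex.re_sum]
      refine Finset.sum_congr rfl (fun k _ => ?_)
      rw [map_mul, Complex.conj_ofReal]
      rw [show F l * (cJ b D (fun n l => (p n l : ℝ)) l i : ℂ)
          * (conj (F k) * (cJ b D (fun n l => (p n l : ℝ)) k j : ℂ))
        = ((cJ b D (fun n l => (p n l : ℝ)) l i * cJ b D (fun n l => (p n l : ℝ)) k j : ℝ) : ℂ)
          * (F l * conj (F k)) from by push_cast; ring]
      rw [Complex.re_ofReal_mul]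
    simp only [e1, Finset.mul_sum]
    have e2 : ∀ l k, ((sm (fun i => cJQ b D p l i * vQ s.re b D p J k i) J : ℚ) : ℝ)
        = ∑ i ∈ Finset.range J, ∑ j ∈ Finset.range J, Gm s.toC b (i + j)
          * (cJ b D (fun n l => (p n l : ℝ)) l i * cJ b D (fun n l => (p n l : ℝ)) k j) := by
      intro l k
      rw [sm_eq]
      refine Finset.sum_congr rfl (fun i _ => ?_)
      rw [Rat.cast_mul, vQ, sm_eq, Finset.mul_sum]
      refine Finset.sum_congr rfl (fun j _ => ?_)
      rw [Rat.cast_mul, gmQ_eq hr, cJQ_eq, cJQ_eq]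
      ring
    simp only [e2, Finset.sum_mul]
    -- reorder the sums
    calc ∑ i ∈ Finset.range J, ∑ j ∈ Finset.range J, ∑ l ∈ Finset.range (D + 1),
          ∑ k ∈ Finset.range (D + 1), Gm s.toC b (i + j)
            * (cJ b D (fun n l => (p n l : ℝ)) l i * cJ b D (fun n l => (p n l : ℝ)) k j
              * (F l * conj (F k)).re)
        = ∑ i ∈ Finset.range J, ∑ l ∈ Finset.range (D + 1), ∑ k ∈ Finset.range (D + 1),
          ∑ j ∈ Finset.range J, Gm s.toC b (i + j)
            * (cJ b D (fun n l => (p n l : ℝ)) l i * cJ b D (fun n l => (p n l : ℝ)) k j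
              * (F l * conj (F k)).re) := by
          refine Finset.sum_congr rfl (fun i _ => ?_)
          rw [Finset.sum_comm]
          refine Finset.sum_congr rfl (fun l _ => ?_)
          rw [Finset.sum_comm]
      _ = ∑ l ∈ Finset.range (D + 1), ∑ k ∈ Finset.range (D + 1), ∑ i ∈ Finset.range J,
          ∑ j ∈ Finset.range J, Gm s.toC b (i + j)
            * (cJ b D (fun n l => (p n l : ℝ)) l i * cJ b D (fun n l => (p n l : ℝ)) k j
              * (F l * conj (F k)).re) := by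
          rw [Finset.sum_comm]
          refine Finset.sum_congr rfl (fun l _ => ?_)
          rw [Finset.sum_comm]
      _ = _ := by
          refine Finset.sum_congr rfl (fun l _ => Finset.sum_congr rfl (fun k _ =>
            Finset.sum_congr rfl (fun i _ => Finset.sum_congr rfl (fun j _ => ?_))))
          ring
  rw [m1]
  -- the tail
  have hG : (0 : ℝ) ≤ Gm s.toC b (2 * J) := by
    rw [Gm]
    refine Finset.prod_nonneg (fun k _ => ?_)
    have : (0 : ℝ) ≤ k := Nat.cast_nonneg k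
    apply div_nonneg <;> linarith
  have t1 := cs_tail (D + 1) (fun l => 1 / ((b : ℝ) + l + 1 + J)) (fun l => by positivity) F
  have t2 : (∑ l ∈ Finset.range (D + 1), ‖F l‖ / ((b : ℝ) + l + 1 + J))
      = ∑ l ∈ Finset.range (D + 1), ‖F l‖ * (1 / ((b : ℝ) + l + 1 + J)) :=
    Finset.sum_congr rfl (fun l _ => by rw [mul_one_div])
  rw [t2]
  have t3 : (0 : ℝ) ≤ (1 + 1 / (th : ℝ)) * Gm s.toC b (2 * J) := by positivity
  have t4 := mul_le_mul_of_nonneg_left t1 t3
  have t5 : ∑ l ∈ Finset.range (D + 1), ∑ k ∈ Finset.range (D + 1),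
        ((WQ s.re b D p J th l k : ℚ) : ℝ) * (F l * conj (F k)).re
      = (1 + (th : ℝ)) * ∑ l ∈ Finset.range (D + 1), ∑ k ∈ Finset.range (D + 1),
        ((sm (fun i => cJQ b D p l i * vQ s.re b D p J k i) J : ℚ) : ℝ)
          * (F l * conj (F k)).re
        + (1 + 1 / (th : ℝ)) * Gm s.toC b (2 * J)
          * ((∑ l ∈ Finset.range (D + 1), 1 / ((b : ℝ) + l + 1 + J))
            * ∑ l ∈ Finset.range (D + 1), 1 / ((b : ℝ) + l + 1 + J)
              * (F l * conj (F l)).re) := by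
    have u1 : ∀ l k, ((WQ s.re b D p J th l k : ℚ) : ℝ) * (F l * conj (F k)).re
        = (1 + (th : ℝ)) * (((sm (fun i => cJQ b D p l i * vQ s.re b D p J k i) J : ℚ) : ℝ)
          * (F l * conj (F k)).re) + (if l = k then (1 + 1 / (th : ℝ)) * Gm s.toC b (2 * J)
          * (∑ l ∈ Finset.range (D + 1), 1 / ((b : ℝ) + l + 1 + J))
            * (1 / ((b : ℝ) + l + 1 + J)) * (F l * conj (F k)).re else 0) := by
      intro l k
      have u2 : ((sm (fun l' => 1 / (b + l' + 1 + J)) (D + 1) : ℚ) : ℝ)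
          = ∑ l ∈ Finset.range (D + 1), 1 / ((b : ℝ) + l + 1 + J) := by
        rw [sm_eq]
        exact Finset.sum_congr rfl (fun l _ => by push_cast; ring)
      rw [← u2, ← gmQ_eq hr, WQ]
      split_ifs with h
      · push_cast
        ring
      · push_cast
        ring
    have u3 : ∑ l ∈ Finset.range (D + 1), ∑ k ∈ Finset.range (D + 1),
        (if l = k then (1 + 1 / (th : ℝ)) * Gm s.toC b (2 * J)
          * (∑ l ∈ Finset.range (D + 1), 1 / ((b : ℝ) + l + 1 + J))
            * (1 / ((b : ℝ) + l + 1 + J)) * (F l * conj (F k)).re else 0)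
        = (1 + 1 / (th : ℝ)) * Gm s.toC b (2 * J)
          * ((∑ l ∈ Finset.range (D + 1), 1 / ((b : ℝ) + l + 1 + J))
            * ∑ l ∈ Finset.range (D + 1), 1 / ((b : ℝ) + l + 1 + J)
              * (F l * conj (F l)).re) := by
      generalize (∑ l ∈ Finset.range (D + 1), 1 / ((b : ℝ) + l + 1 + J)) = w0
      rw [← mul_assoc, Finset.mul_sum]
      refine Finset.sum_congr rfl (fun l hl => ?_)
      rw [Finset.sum_ite_eq, if_pos hl]
      ring
    simp only [u1, Finset.sum_add_distrib, ← Finset.mul_sum]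
    rw [u3]
  rw [t5]
  linarith only [t4]

end Pool.Agent.M16.Helper65.HR2
end

/- Helper94.T.Helper24.HR2.NumM -/
section
/-!
MP_16b0ee, project HR2, stage 3, module T4: the Gram matrix of the remainder on the powers.
-/

set_option autoImplicit false

open MeasureTheory Set Metric Filter Topology
open scoped Real ComplexConjugate

namespace Pool.Agent.M16.Helper24.HR2

open Pool.Agent.M16.Helper22.Half

namespace NM

open NC

theorem Gm_step (s : ℂ) (b : ℝ) (n : ℕ) :
    Gm s b (n + 1) = Gm s b n * ((2 * s.re + 2 + n) / (b + 3 + n)) := by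
  unfold Gm
  rw [Finset.prod_range_succ]

theorem Gm_le_one {s : ℂ} (hs : -1 < s.re) {b : ℝ} (hb : 0 < b) (hσ : 0 < b + 1 - 2 * s.re)
    (n : ℕ) : Gm s b n ≤ 1 := by
  induction n with
  | zero => simp [Gm]
  | succ n ih =>
    have h0 : (0:ℝ) ≤ n := Nat.cast_nonneg n
    have h2 : (2 * s.re + 2 + n) / (b + 3 + n) ≤ 1 := by
      rw [div_le_one (by linarith only [hb])]
      linarith
    have h3 : 0 ≤ (2 * s.re + 2 + n) / (b + 3 + n) := by
      apply div_nonneg <;> linarith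
    rw [Gm_step]
    calc Gm s b n * ((2 * s.re + 2 + n) / (b + 3 + n)) ≤ 1 * 1 :=
          mul_le_mul ih h2 h3 zero_le_one
      _ = 1 := one_mul 1

theorem CN_nonneg {s : ℂ} (hs : -1 < s.re) {b : ℝ} (hb : 0 < b) (n k N : ℕ) :
    0 ≤ CN s b n k N :=
  Finset.sum_nonneg fun _ _ => mul_nonneg (Gm_pos hs hb _).le (Gm_pos hs hb _).le

theorem CN_symm {s : ℂ} {b : ℝ} (n k N : ℕ) : CN s b n k N = CN s b k n N := by
  unfold CN
  rw [← Finset.sum_range_reflect]
  refine Finset.sum_congr rfl fun j hj => ?_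
  have hj' : j < N + 1 := Finset.mem_range.1 hj
  have e1 : N + 1 - 1 - j = N - j := by omega
  have e2 : N - (N + 1 - 1 - j) = j := by omega
  rw [e2, e1, mul_comm]

/-- functions with a computed weighted integral -/
structure GG (w : ℝ → ℝ) (S : Set ℝ) (f : ℝ → ℝ) (v : ℝ) : Prop where
  int : IntegrableOn (fun x => w x * f x) S
  val : ∫ x in S, w x * f x = v

theorem GG.add {w : ℝ → ℝ} {S : Set ℝ} {f g : ℝ → ℝ} {u v : ℝ} (hf : GG w S f u)
    (hg : GG w S g v) : GG w S (fun x => f x + g x) (u + v) := by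
  have h1 : (fun x => w x * (f x + g x)) = fun x => w x * f x + w x * g x := by
    ext x
    ring
  refine ⟨?_, ?_⟩
  · rw [h1]
    exact hf.int.add hg.int
  · rw [h1, integral_add hf.int hg.int, hf.val, hg.val]

theorem GG.smul {w : ℝ → ℝ} {S : Set ℝ} {f : ℝ → ℝ} {v : ℝ} (c : ℝ) (hf : GG w S f v) :
    GG w S (fun x => c * f x) (c * v) := by
  have h1 : (fun x => w x * (c * f x)) = fun x => c * (w x * f x) := by
    ext x
    ring
  refine ⟨?_, ?_⟩
  · rw [h1]
    exact hf.int.const_mul c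
  · rw [h1, integral_const_mul, hf.val]

theorem GG.zero (w : ℝ → ℝ) (S : Set ℝ) : GG w S (fun _ => 0) 0 := by
  refine ⟨?_, ?_⟩
  · simp
  · simp

theorem GG.sum {w : ℝ → ℝ} {S : Set ℝ} {ι : Type} (T : Finset ι) {f : ι → ℝ → ℝ} {v : ι → ℝ}
    (h : ∀ i ∈ T, GG w S (f i) (v i)) :
    GG w S (fun x => ∑ i ∈ T, f i x) (∑ i ∈ T, v i) := by
  classical
  induction T using Finset.induction_on with
  | empty => simpa using GG.zero w S
  | insert a T ha ih =>
    have h1 := (h a (Finset.mem_insert_self a T)).add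
      (ih fun i hi => h i (Finset.mem_insert_of_mem hi))
    simp only [Finset.sum_insert ha]
    exact h1

theorem GG.congr {w : ℝ → ℝ} {S : Set ℝ} (hS : MeasurableSet S) {f g : ℝ → ℝ} {u v : ℝ}
    (hf : GG w S f u) (h : ∀ x ∈ S, g x = f x) (hv : v = u) : GG w S g v := by
  have h1 : EqOn (fun x => w x * g x) (fun x => w x * f x) S := by
    intro x hx
    simp only
    rw [h x hx]
  refine ⟨(integrableOn_congr_fun h1 hS).mpr hf.int, ?_⟩
  rw [setIntegral_congr_fun hS h1, hf.val, hv]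

/-- the moment generating function of the density `alp`, tested on `X^n` -/
noncomputable def Sn (s : ℂ) (b : ℝ) (n : ℕ) (y : ℝ) : ℝ :=
  ∑' j : ℕ, Gm s b (n + j) * (1 / (1 + y)) ^ (j + 1)

theorem Y_bd {y : ℝ} (hy : y ∈ Ioi (0:ℝ)) : 0 < 1 / (1 + y) ∧ 1 / (1 + y) < 1 := by
  have hy0 : 0 < y := hy
  refine ⟨by positivity, ?_⟩
  rw [div_lt_one (by linarith)]
  linarith

theorem Sn_summable {s : ℂ} (hs : -1 < s.re) {b : ℝ} (hb : 0 < b)
    (hσ : 0 < b + 1 - 2 * s.re) (n : ℕ) {y : ℝ} (hy : y ∈ Ioi (0:ℝ)) :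
    Summable (fun j : ℕ => Gm s b (n + j) * (1 / (1 + y)) ^ (j + 1)) := by
  obtain ⟨h0, h1⟩ := Y_bd hy
  refine Summable.of_nonneg_of_le
    (fun j => mul_nonneg (Gm_pos hs hb _).le (pow_nonneg h0.le _)) (fun j => ?_)
    ((summable_geometric_of_lt_one h0.le h1).mul_right (1 / (1 + y)))
  rw [pow_succ]
  have h2 := Gm_le_one hs hb hσ (n + j)
  calc Gm s b (n + j) * ((1 / (1 + y)) ^ j * (1 / (1 + y)))
      ≤ 1 * ((1 / (1 + y)) ^ j * (1 / (1 + y))) :=
        mul_le_mul_of_nonneg_right h2 (by positivity)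
    _ = (1 / (1 + y)) ^ j * (1 / (1 + y)) := one_mul _

theorem gx_mono {s : ℂ} (hs : -1 < s.re) {b : ℝ} (hb : 0 < b) (hσ : 0 < b + 1 - 2 * s.re)
    (n : ℕ) : GG (alp s b) (Ioo (0:ℝ) 1) (fun x => (1 - x) ^ n) (B0 s b * Gm s b n) :=
  ⟨alp_int hs hb hσ n, alp_mom hs hσ n⟩

theorem gx_ker {s : ℂ} (hs : -1 < s.re) {b : ℝ} (hb : 0 < b) (hσ : 0 < b + 1 - 2 * s.re)
    (n : ℕ) {y : ℝ} (hy : y ∈ Ioi (0:ℝ)) :
    GG (alp s b) (Ioo (0:ℝ) 1) (fun x => (1 - x) ^ n * (1 / (x + y)))
      (B0 s b * Sn s b n y) := by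
  obtain ⟨h0, h1⟩ := Y_bd hy
  have hB := (B0_pos hs hσ).1
  have h := int_tsum (S := Ioo (0:ℝ) 1) measurableSet_Ioo
    (fun j x => (1 / (1 + y)) ^ (j + 1) * (alp s b x * (1 - x) ^ (n + j)))
    (fun x => alp s b x * ((1 - x) ^ n * (1 / (x + y))))
    (fun j => (1 / (1 + y)) ^ (j + 1) * (B0 s b * Gm s b (n + j)))
    (fun j => (alp_int hs hb hσ (n + j)).const_mul _)
    (fun j x hx => by
      have h2 : 0 ≤ 1 - x := by linarith [hx.2]
      exact mul_nonneg (pow_nonneg h0.le _) (mul_nonneg (alp_nonneg hx) (pow_nonneg h2 _)))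
    (fun j => by rw [integral_const_mul, alp_mom hs hσ])
    (by
      refine ((Sn_summable hs hb hσ n hy).mul_left (B0 s b)).congr fun j => ?_
      ring)
    (fun x hx => by
      have e : alp s b x * (1 - x) ^ n * (1 / (x + y))
          = alp s b x * ((1 - x) ^ n * (1 / (x + y))) := mul_assoc _ _ _
      have h3 := (kernel_one hx hy).mul_left (alp s b x * (1 - x) ^ n)
      rw [e] at h3
      refine hasSum_of_eq h3 fun j => ?_
      rw [pow_add]
      ring)
    (mul_pos (pow_pos h0 _) (mul_pos hB (Gm_pos hs hb _)))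
  refine ⟨h.1, ?_⟩
  rw [h.2]
  unfold Sn
  rw [← tsum_mul_left]
  refine tsum_congr fun j => ?_
  ring

theorem ryn_eq {s : ℂ} (hs : -1 < s.re) {b : ℝ} (hb : 0 < b) (hσ : 0 < b + 1 - 2 * s.re)
    (D : ℕ) (p : ℕ → ℕ → ℝ) (n : ℕ) {y : ℝ} (hy : y ∈ Ioi (0:ℝ)) :
    ryn s b D p n y = Sn s b n y
      - ∑ l ∈ Finset.range D, pil s b D p n l * (1 / (1 + y)) ^ (l + 1) := by
  have h1 := gx_ker hs hb hσ n hy
  have h2 : GG (alp s b) (Ioo (0:ℝ) 1) (fun x => ∑ n' ∈ Finset.range D,
      ∑ l ∈ Finset.range D, (p n' l * (1 / (1 + y)) ^ (l + 1)) * (1 - x) ^ (n + n'))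
      (∑ n' ∈ Finset.range D, ∑ l ∈ Finset.range D,
        (p n' l * (1 / (1 + y)) ^ (l + 1)) * (B0 s b * Gm s b (n + n'))) :=
    GG.sum _ fun n' _ => GG.sum _ fun l _ => (gx_mono hs hb hσ (n + n')).smul _
  have h3 : GG (alp s b) (Ioo (0:ℝ) 1) (fun x => (1 - x) ^ n * RR D p x y)
      (B0 s b * Sn s b n y + (-1) * (∑ n' ∈ Finset.range D, ∑ l ∈ Finset.range D,
        (p n' l * (1 / (1 + y)) ^ (l + 1)) * (B0 s b * Gm s b (n + n')))) := by
    refine (h1.add (h2.smul (-1))).congr measurableSet_Ioo (fun x _ => ?_) rfl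
    have e1 : (1 - x) ^ n * kp D p (1 - x) (1 / (1 + y)) = ∑ n' ∈ Finset.range D,
        ∑ l ∈ Finset.range D, (p n' l * (1 / (1 + y)) ^ (l + 1)) * (1 - x) ^ (n + n') := by
      unfold kp
      rw [Finset.mul_sum]
      refine Finset.sum_congr rfl fun n' _ => ?_
      rw [Finset.mul_sum]
      refine Finset.sum_congr rfl fun l _ => ?_
      rw [pow_add]
      ring
    rw [← e1]
    unfold RR
    ring
  have hB := (B0_pos hs hσ).1
  have e2 : ryn s b D p n y = (1 / B0 s b) * ∫ x in Ioo (0 : ℝ) 1,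
      alp s b x * ((1 - x) ^ n * RR D p x y) := by
    unfold ryn
    congr 2
    ext x
    exact mul_assoc _ _ _
  rw [e2, h3.val]
  have e3 : ∑ n' ∈ Finset.range D, ∑ l ∈ Finset.range D,
      (p n' l * (1 / (1 + y)) ^ (l + 1)) * (B0 s b * Gm s b (n + n'))
      = B0 s b * ∑ l ∈ Finset.range D, pil s b D p n l * (1 / (1 + y)) ^ (l + 1) := by
    rw [Finset.sum_comm, Finset.mul_sum]
    refine Finset.sum_congr rfl fun l _ => ?_
    unfold pil
    rw [Finset.sum_mul, Finset.mul_sum]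
    refine Finset.sum_congr rfl fun n' _ => ?_
    ring
  rw [e3]
  field_simp
  ring

theorem gy_mono {b : ℝ} (hb : 0 < b) (l : ℕ) :
    GG (bet b) (Ioi (0:ℝ)) (fun y => (1 / (1 + y)) ^ l) (1 / ((b + l) * (b + l + 1))) :=
  ⟨bet_int hb l, mom_bet hb l⟩

theorem gy_one {s : ℂ} (hs : -1 < s.re) {b : ℝ} (hb : 0 < b) (hσ : 0 < b + 1 - 2 * s.re)
    (n l : ℕ) : GG (bet b) (Ioi (0:ℝ)) (fun y => Sn s b n y * (1 / (1 + y)) ^ (l + 1))
      (SS s b n (l + 1) - SS s b n (l + 2)) := by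
  have hs1 := SS_summable hs hb hσ n (l + 1)
  have hs2 := SS_summable hs hb hσ n (l + 2)
  have hcj : ∀ j : ℕ, Gm s b (n + j)
      * (1 / ((b + ((j + l + 2 : ℕ) : ℝ)) * (b + ((j + l + 2 : ℕ) : ℝ) + 1)))
      = Gm s b (n + j) / (b + 1 + j + (l + 1 : ℕ)) - Gm s b (n + j)
        / (b + 1 + j + (l + 2 : ℕ)) := by
    intro j
    have h1 : 0 < b + 1 + j + (l + 1 : ℕ) := by positivity
    have h2 : 0 < b + 1 + j + (l + 2 : ℕ) := by positivity
    have h3 : 0 < b + ((j + l + 2 : ℕ) : ℝ) := by positivity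
    push_cast at *
    field_simp
    ring
  have h := int_tsum (S := Ioi (0:ℝ)) measurableSet_Ioi
    (fun j y => Gm s b (n + j) * (bet b y * (1 / (1 + y)) ^ (j + l + 2)))
    (fun y => bet b y * (Sn s b n y * (1 / (1 + y)) ^ (l + 1)))
    (fun j => Gm s b (n + j)
      * (1 / ((b + ((j + l + 2 : ℕ) : ℝ)) * (b + ((j + l + 2 : ℕ) : ℝ) + 1))))
    (fun j => (bet_int hb (j + l + 2)).const_mul _)
    (fun j y hy => mul_nonneg (Gm_pos hs hb _).le
      (mul_nonneg (bet_nonneg hy) (pow_nonneg (Y_bd hy).1.le _)))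
    (fun j => by rw [integral_const_mul, mom_bet hb])
    ((hs1.sub hs2).congr fun j => (hcj j).symm)
    (fun y hy => by
      have h1 := ((Sn_summable hs hb hσ n hy).hasSum.mul_right
        ((1 / (1 + y)) ^ (l + 1))).mul_left (bet b y)
      refine hasSum_of_eq h1 fun j => ?_
      ring)
    (mul_pos (Gm_pos hs hb _) (by positivity))
  refine ⟨h.1, ?_⟩
  rw [h.2, tsum_congr hcj, hs1.tsum_sub hs2]
  rfl

end NM

open NC NM

theorem MM_summable {s : ℂ} (hs : -1 < s.re) {b : ℝ} (hb : 0 < b) (hσ : 0 < b + 1 - 2 * s.re)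
    (n k : ℕ) : Summable (fun N : ℕ => CN s b n k N / ((b + N + 2) * (b + N + 3))) := by
  have hf : ∀ n : ℕ, Summable (fun j : ℕ => Gm s b (n + j) / ((j:ℝ) + 1)) := by
    intro n
    refine Summable.of_nonneg_of_le
      (fun j => div_nonneg (Gm_pos hs hb _).le (by positivity)) (fun j => ?_)
      ((SS_summable hs hb hσ n 0).mul_left (b + 1))
    have h0 : (0:ℝ) ≤ j := Nat.cast_nonneg j
    have h1 := mul_nonneg (Gm_pos hs hb (n + j)).le (mul_nonneg hb.le h0)
    rw [← mul_div_assoc, div_le_div_iff₀ (by positivity) (by positivity)]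
    have e : (b + 1) * Gm s b (n + j) * ((j:ℝ) + 1)
        - Gm s b (n + j) * (b + 1 + j + ((0:ℕ) : ℝ)) = Gm s b (n + j) * (b * j) := by
      rw [Nat.cast_zero]
      ring
    linarith
  have hfg := summable_norm_sum_mul_range_of_summable_norm (hf n).norm (hf k).norm
  refine Summable.of_nonneg_of_le
    (fun N => div_nonneg (CN_nonneg hs hb n k N) (by positivity)) (fun N => ?_) hfg
  refine le_trans ?_ (Real.le_norm_self _)
  unfold CN
  rw [Finset.sum_div]
  refine Finset.sum_le_sum fun j hj => ?_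
  have hj' : j ≤ N := by
    have := Finset.mem_range.1 hj
    omega
  obtain ⟨i, rfl⟩ := Nat.exists_eq_add_of_le hj'
  rw [Nat.add_sub_cancel_left, div_mul_div_comm]
  have hG : 0 ≤ Gm s b (n + j) * Gm s b (k + i) :=
    mul_nonneg (Gm_pos hs hb _).le (Gm_pos hs hb _).le
  have hi0 : (0:ℝ) ≤ i := Nat.cast_nonneg i
  have hj0 : (0:ℝ) ≤ j := Nat.cast_nonneg j
  refine div_le_div_of_nonneg_left hG (by positivity) ?_
  push_cast
  exact mul_le_mul (by linarith only [hb]) (by linarith) (by positivity) (by positivity)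

theorem MM_symm {s : ℂ} {b : ℝ} (n k : ℕ) : MM s b n k = MM s b k n := by
  unfold MM
  refine tsum_congr fun N => ?_
  rw [CN_symm]

theorem NM.gy_two {s : ℂ} (hs : -1 < s.re) {b : ℝ} (hb : 0 < b) (hσ : 0 < b + 1 - 2 * s.re)
    (n k : ℕ) : GG (bet b) (Ioi (0:ℝ)) (fun y => Sn s b n y * Sn s b k y)
      (MM s b n k) := by
  have hcj : ∀ N : ℕ, CN s b n k N
      * (1 / ((b + ((N + 2 : ℕ) : ℝ)) * (b + ((N + 2 : ℕ) : ℝ) + 1)))
      = CN s b n k N / ((b + N + 2) * (b + N + 3)) := by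
    intro N
    have e : (b + ((N + 2 : ℕ) : ℝ)) * (b + ((N + 2 : ℕ) : ℝ) + 1)
        = (b + N + 2) * (b + N + 3) := by
      push_cast
      ring
    rw [e, mul_one_div]
  have h := int_tsum (S := Ioi (0:ℝ)) measurableSet_Ioi
    (fun N y => CN s b n k N * (bet b y * (1 / (1 + y)) ^ (N + 2)))
    (fun y => bet b y * (Sn s b n y * Sn s b k y))
    (fun N => CN s b n k N
      * (1 / ((b + ((N + 2 : ℕ) : ℝ)) * (b + ((N + 2 : ℕ) : ℝ) + 1))))
    (fun N => (bet_int hb (N + 2)).const_mul _)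
    (fun N y hy => mul_nonneg (CN_nonneg hs hb n k N)
      (mul_nonneg (bet_nonneg hy) (pow_nonneg (Y_bd hy).1.le _)))
    (fun N => by rw [integral_const_mul, mom_bet hb])
    ((MM_summable hs hb hσ n k).congr fun N => (hcj N).symm)
    (fun y hy => by
      have h1 := Sn_summable hs hb hσ n hy
      have h2 := Sn_summable hs hb hσ k hy
      have h3 := tsum_mul_tsum_eq_tsum_sum_range_of_summable_norm h1.norm h2.norm
      have h4 := (summable_norm_sum_mul_range_of_summable_norm h1.norm h2.norm).of_norm.hasSum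
      rw [← h3] at h4
      refine hasSum_of_eq (h4.mul_left (bet b y)) fun N => ?_
      have h5 : ∑ j ∈ Finset.range (N + 1), Gm s b (n + j) * (1 / (1 + y)) ^ (j + 1)
          * (Gm s b (k + (N - j)) * (1 / (1 + y)) ^ (N - j + 1))
          = CN s b n k N * (1 / (1 + y)) ^ (N + 2) := by
        unfold CN
        rw [Finset.sum_mul]
        refine Finset.sum_congr rfl fun j hj => ?_
        have hj' : j ≤ N := by
          have := Finset.mem_range.1 hj
          omega
        obtain ⟨i, rfl⟩ := Nat.exists_eq_add_of_le hj'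
        rw [Nat.add_sub_cancel_left]
        ring
      rw [h5]
      ring)
    (by
      have h1 : 0 < CN s b n k 0 := by
        unfold CN
        rw [zero_add, Finset.sum_range_one]
        exact mul_pos (Gm_pos hs hb _) (Gm_pos hs hb _)
      positivity)
  refine ⟨h.1, ?_⟩
  rw [h.2, tsum_congr hcj]
  rfl

theorem MR_eq {s : ℂ} (hs : -1 < s.re) {b : ℝ} (hb : 0 < b) (hσ : 0 < b + 1 - 2 * s.re)
    (D : ℕ) (p : ℕ → ℕ → ℝ) (n k : ℕ) : MR s b D p n k = MM s b n k
      - ∑ l ∈ Finset.range D, pil s b D p k l * (SS s b n (l + 1) - SS s b n (l + 2))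
      - ∑ l ∈ Finset.range D, pil s b D p n l * (SS s b k (l + 1) - SS s b k (l + 2))
      + ∑ l ∈ Finset.range D, ∑ l' ∈ Finset.range D, pil s b D p n l * pil s b D p k l'
          / ((b + l + l' + 2) * (b + l + l' + 3)) := by
  have h1 := gy_two hs hb hσ n k
  have h2 : GG (bet b) (Ioi (0:ℝ)) (fun y => ∑ l ∈ Finset.range D,
      pil s b D p k l * (Sn s b n y * (1 / (1 + y)) ^ (l + 1)))
      (∑ l ∈ Finset.range D, pil s b D p k l * (SS s b n (l + 1) - SS s b n (l + 2))) :=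
    GG.sum _ fun l _ => (gy_one hs hb hσ n l).smul _
  have h3 : GG (bet b) (Ioi (0:ℝ)) (fun y => ∑ l ∈ Finset.range D,
      pil s b D p n l * (Sn s b k y * (1 / (1 + y)) ^ (l + 1)))
      (∑ l ∈ Finset.range D, pil s b D p n l * (SS s b k (l + 1) - SS s b k (l + 2))) :=
    GG.sum _ fun l _ => (gy_one hs hb hσ k l).smul _
  have h4 : GG (bet b) (Ioi (0:ℝ)) (fun y => ∑ l ∈ Finset.range D, ∑ l' ∈ Finset.range D,
      (pil s b D p n l * pil s b D p k l') * (1 / (1 + y)) ^ (l + l' + 2))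
      (∑ l ∈ Finset.range D, ∑ l' ∈ Finset.range D, (pil s b D p n l * pil s b D p k l')
        * (1 / ((b + ((l + l' + 2 : ℕ) : ℝ)) * (b + ((l + l' + 2 : ℕ) : ℝ) + 1)))) :=
    GG.sum _ fun l _ => GG.sum _ fun l' _ => (gy_mono hb (l + l' + 2)).smul _
  have h5 : GG (bet b) (Ioi (0:ℝ)) (fun y => ryn s b D p n y * ryn s b D p k y)
      (MM s b n k
      - ∑ l ∈ Finset.range D, pil s b D p k l * (SS s b n (l + 1) - SS s b n (l + 2))
      - ∑ l ∈ Finset.range D, pil s b D p n l * (SS s b k (l + 1) - SS s b k (l + 2))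
      + ∑ l ∈ Finset.range D, ∑ l' ∈ Finset.range D, pil s b D p n l * pil s b D p k l'
          / ((b + l + l' + 2) * (b + l + l' + 3))) := by
    refine (((h1.add (h2.smul (-1))).add (h3.smul (-1))).add h4).congr measurableSet_Ioi
      (fun y hy => ?_) ?_
    · rw [ryn_eq hs hb hσ D p n hy, ryn_eq hs hb hσ D p k hy]
      have e2 : ∑ l ∈ Finset.range D, pil s b D p k l * (Sn s b n y * (1 / (1 + y)) ^ (l + 1))
          = Sn s b n y * ∑ l ∈ Finset.range D, pil s b D p k l * (1 / (1 + y)) ^ (l + 1) := by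
        rw [Finset.mul_sum]
        refine Finset.sum_congr rfl fun l _ => ?_
        ring
      have e3 : ∑ l ∈ Finset.range D, pil s b D p n l * (Sn s b k y * (1 / (1 + y)) ^ (l + 1))
          = Sn s b k y * ∑ l ∈ Finset.range D, pil s b D p n l * (1 / (1 + y)) ^ (l + 1) := by
        rw [Finset.mul_sum]
        refine Finset.sum_congr rfl fun l _ => ?_
        ring
      have e4 : ∑ l ∈ Finset.range D, ∑ l' ∈ Finset.range D,
          (pil s b D p n l * pil s b D p k l') * (1 / (1 + y)) ^ (l + l' + 2)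
          = (∑ l ∈ Finset.range D, pil s b D p n l * (1 / (1 + y)) ^ (l + 1))
            * ∑ l ∈ Finset.range D, pil s b D p k l * (1 / (1 + y)) ^ (l + 1) := by
        rw [Finset.sum_mul]
        refine Finset.sum_congr rfl fun l _ => ?_
        rw [Finset.mul_sum]
        refine Finset.sum_congr rfl fun l' _ => ?_
        ring
      rw [e2, e3, e4]
      ring
    · have e5 : ∑ l ∈ Finset.range D, ∑ l' ∈ Finset.range D, pil s b D p n l * pil s b D p k l'
          / ((b + l + l' + 2) * (b + l + l' + 3))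
          = ∑ l ∈ Finset.range D, ∑ l' ∈ Finset.range D, (pil s b D p n l * pil s b D p k l')
        * (1 / ((b + ((l + l' + 2 : ℕ) : ℝ)) * (b + ((l + l' + 2 : ℕ) : ℝ) + 1))) := by
        refine Finset.sum_congr rfl fun l _ => Finset.sum_congr rfl fun l' _ => ?_
        have e6 : (b + ((l + l' + 2 : ℕ) : ℝ)) * (b + ((l + l' + 2 : ℕ) : ℝ) + 1)
            = (b + l + l' + 2) * (b + l + l' + 3) := by
          push_cast
          ring
        rw [e6, mul_one_div]
      rw [e5]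
      ring
  rw [← h5.val]
  unfold MR
  congr 1
  ext y
  exact mul_assoc _ _ _

end Pool.Agent.M16.Helper24.HR2
end

/- Helper94.T.Helper65.HR2.Point -/
section
/-!
MP_16b0ee, project HR2: the hypotheses of the core theorem at one point, checked by the kernel in
exact rational arithmetic.
-/

set_option autoImplicit false

open MeasureTheory Set
open scoped ComplexConjugate Real

namespace Pool.Agent.M16.Helper65.HR2

open Pool.Agent.M16.Helper24.HR2

/-- the data at one point. `s = (s1 + s2 i) / sd`, `b = bn / bd`, the coefficients of the kernel are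
`p / pd`, the test vectors are `T / td`, the matrix of the form is given by the Gaussian integers
`M` and the integer `N` (see `AP.Qf`) -/
structure AP where
  /-- numerator of the real part of `s` -/
  s1 : ℤ
  /-- numerator of the imaginary part of `s` -/
  s2 : ℤ
  /-- denominator of `s` -/
  sd : ℕ
  /-- numerator of `b` -/
  bn : ℕ
  /-- denominator of `b` -/
  bd : ℕ
  /-- degree of the kernel -/
  D : ℕ
  /-- numerators of the kernel -/
  p : List (List ℤ)
  /-- denominator of the kernel -/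
  pd : ℕ
  /-- numerators of the test vectors -/
  T : List (List (ℤ × ℤ))
  /-- denominator of the test vectors -/
  td : ℕ
  /-- the matrix of the form -/
  M : List (List (ℤ × ℤ))
  /-- the scale of the form -/
  N : ℕ
  /-- bound of the Hilbert-Schmidt norm -/
  eps : ℚ
  /-- first weight -/
  kap : ℚ
  /-- second weight -/
  tau : ℚ
  /-- third weight -/
  th : ℚ
  /-- number of terms of the series -/
  J1 : ℕ
  /-- number of terms of the inverse factorial series -/
  M1 : ℕ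
  /-- number of terms of the cross functions -/
  J2 : ℕ
  /-- lower bound of the series -/
  Slo : ℚ
  /-- upper bound of the series -/
  Shi : ℚ
  /-- lower bound of the main constant -/
  Elo : ℚ
  /-- upper bound of the main constant -/
  Ehi : ℚ

namespace AP

/-- the exponent -/
def s (P : AP) : GQ := ⟨mkRat P.s1 P.sd, mkRat P.s2 P.sd⟩

/-- the parameter `b` -/
def b (P : AP) : ℚ := mkRat P.bn P.bd

/-- the coefficients of the kernel -/
def pf (P : AP) (n l : ℕ) : ℚ := mkRat ((P.p.getD n []).getD l 0) P.pd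

/-- the test vectors -/
def Tf (P : AP) (n r : ℕ) : GQ :=
  ⟨mkRat ((P.T.getD n []).getD r (0, 0)).1 P.td, mkRat ((P.T.getD n []).getD r (0, 0)).2 P.td⟩

/-- the entries of the integral matrix -/
def Mf (P : AP) (r t : ℕ) : GQ :=
  ⟨(((P.M.getD r []).getD t (0, 0)).1 : ℚ), (((P.M.getD r []).getD t (0, 0)).2 : ℚ)⟩

/-- the Pochhammer symbol -/
def pochQ (x : ℚ) : ℕ → ℚ
  | 0 => 1
  | n + 1 => pochQ x n * (x + n)

/-- the elementary conditions -/
def c1 (P : AP) : Bool :=
  decide (0 < P.sd) && decide (0 < P.bd) && decide (0 < P.N) && decide (0 < P.s.nsq) &&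
  decide (P.s.nsq ≤ 49 / 100) && decide (0 < P.b) && decide (P.b ≤ 1) &&
  decide (0 < P.b + 1 - 2 * P.s.re) && decide (4 * P.s.nsq < (P.b + 1) ^ 2) &&
  decide (P.D ≤ 9) && decide (P.D ≤ P.J2) && decide (0 < P.kap) && decide (0 < P.tau) &&
  decide (0 < P.th) && decide ((1 + P.kap) * P.eps + P.tau < 1)

/-- the value of the Hilbert-Schmidt norm at a corner -/
def hsc (P : AP) (E S : ℚ) : Bool :=
  decide (E * ((hsQ P.s.re P.b P.D P.pf).1 + (hsQ P.s.re P.b P.D P.pf).2 * S) ≤ P.eps)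

/-- the Hilbert-Schmidt norm -/
def c2 (P : AP) : Bool :=
  P.hsc P.Elo P.Slo && P.hsc P.Elo P.Shi && P.hsc P.Ehi P.Slo && P.hsc P.Ehi P.Shi

/-- the enclosure of the series -/
def c3 (P : AP) : Bool := s0C P.s.re P.b P.J1 P.M1 P.Slo P.Shi

/-- the exponent as a complex number -/
noncomputable def sC (P : AP) : ℂ := P.s.toC

/-- the parameter `b` as a real number -/
noncomputable def bR (P : AP) : ℝ := (P.b : ℝ)

/-- the kernel with real coefficients -/
noncomputable def pR (P : AP) (n l : ℕ) : ℝ := (P.pf n l : ℝ)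

/-- the test vectors -/
noncomputable def TC (P : AP) (n r : ℕ) : ℂ := (P.Tf n r).toC

end AP

theorem corner {E S E1 E2 S1 S2 m a0 a1 : ℝ} (hE1 : E1 ≤ E) (hE2 : E ≤ E2) (hS1 : S1 ≤ S)
    (hS2 : S ≤ S2) (h1 : 0 ≤ m - E1 * (a0 + S1 * a1)) (h2 : 0 ≤ m - E1 * (a0 + S2 * a1))
    (h3 : 0 ≤ m - E2 * (a0 + S1 * a1)) (h4 : 0 ≤ m - E2 * (a0 + S2 * a1)) :
    0 ≤ m - E * (a0 + S * a1) := by
  have k1 : 0 ≤ m - E1 * (a0 + S * a1) := by
    rcases le_total 0 (E1 * a1) with h | h
    · nlinarith only [hS2, h2, h]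
    · nlinarith only [hS1, h1, h]
  have k2 : 0 ≤ m - E2 * (a0 + S * a1) := by
    rcases le_total 0 (E2 * a1) with h | h
    · nlinarith only [hS2, h4, h]
    · nlinarith only [hS1, h3, h]
  rcases le_total 0 (a0 + S * a1) with h | h
  · nlinarith only [hE2, k2, h]
  · linarith only [mul_nonneg (neg_nonneg.2 h) (sub_nonneg.2 hE1), k1]

namespace AP

theorem ncross_nonneg (s : ℂ) (b : ℝ) (D : ℕ) (p : ℕ → ℕ → ℝ) (F : ℕ → ℂ) :
    0 ≤ Ncross s b D p F := by
  have ha : ∀ x ∈ Ioo (0 : ℝ) 1, 0 ≤ alp s b x := by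
    intro x hx
    exact mul_nonneg (Real.rpow_nonneg (by linarith [hx.2]) _) (Real.rpow_nonneg hx.1.le _)
  refine mul_nonneg (one_div_nonneg.2 ?_) ?_
  · exact setIntegral_nonneg measurableSet_Ioo ha
  · exact setIntegral_nonneg measurableSet_Ioo (fun x hx => mul_nonneg (ha x hx) (by positivity))

/-- the hypothesis on the Hilbert-Schmidt norm -/
theorem hs_le (P : AP) (h1 : P.c1 = true) (h2 : P.c2 = true) (h3 : P.c3 = true)
    (hE1 : (P.Elo : ℝ) ≤ Es P.sC P.bR) (hE2 : Es P.sC P.bR ≤ (P.Ehi : ℝ)) :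
    Es P.sC P.bR * HSn P.sC P.bR P.D P.pR ≤ (P.eps : ℝ) := by
  simp only [c1, Bool.and_eq_true, decide_eq_true_eq] at h1
  obtain ⟨⟨⟨⟨⟨⟨⟨⟨⟨⟨⟨⟨⟨⟨-, -⟩, -⟩, hq0⟩, hq1⟩, hb0⟩, hb1⟩, hσ⟩, -⟩, -⟩, hDJ⟩, hk⟩, hta⟩, hth⟩, -⟩ := h1
  simp only [c2, hsc, Bool.and_eq_true, decide_eq_true_eq] at h2
  obtain ⟨⟨⟨k1, k2⟩, k3⟩, k4⟩ := h2
  have hb' : (0 : ℝ) < (P.b : ℝ) := by exact_mod_cast hb0
  have hr : P.sC.re = (P.s.re : ℝ) := rfl
  have hσ' : (0 : ℝ) < (P.b : ℝ) + 1 - 2 * P.sC.re := by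
    rw [hr]
    exact_mod_cast hσ
  have hn : ‖P.sC‖ ^ 2 ≤ 49 / 100 := by
    rw [sC, ← GQ.nsq_eq]
    have := (Rat.cast_le (K := ℝ)).2 hq1
    push_cast at this
    exact this
  have hs : -1 < P.sC.re := by
    have h5 : ‖P.sC‖ ≤ 7 / 10 := by nlinarith only [hn]
    have h6 := Complex.abs_re_le_norm P.sC
    have h7 := neg_abs_le P.sC.re
    linarith only [h5, h6, h7]
  obtain ⟨hS1, hS2⟩ := s0C_sound (s := P.sC) hr hs hb' hσ' h3
  have k1' := (Rat.cast_le (K := ℝ)).2 k1
  have k2' := (Rat.cast_le (K := ℝ)).2 k2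
  have k3' := (Rat.cast_le (K := ℝ)).2 k3
  have k4' := (Rat.cast_le (K := ℝ)).2 k4
  push_cast at k1' k2' k3' k4'
  have h := corner (E := Es P.sC P.bR) (S := SS P.sC P.bR 0 1) (m := (P.eps : ℝ))
    (a0 := ((hsQ P.s.re P.b P.D P.pf).1 : ℝ)) (a1 := ((hsQ P.s.re P.b P.D P.pf).2 : ℝ))
    hE1 hE2 hS1 hS2 (by linarith only [k1']) (by linarith only [k2']) (by linarith only [k3']) (by linarith only [k4'])
  have e : HSn P.sC P.bR P.D P.pR = av (SS P.sC P.bR 0 1) (hsQ P.s.re P.b P.D P.pf) :=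
    hsQ_eq hr hs hb' hσ' P.D P.pf
  rw [e, av]
  linarith only [h]

end AP

end Pool.Agent.M16.Helper65.HR2
end

/- Helper94.T.Helper65.HR2.Tab2 -/
section
/-!
MP_16b0ee, project HR2: the Gram matrix of the kernel on the powers in exact rational arithmetic;
all entries are affine in `SS s b 0 1` and `MM s b 0 0`.
-/

set_option autoImplicit false

open scoped ComplexConjugate

namespace Pool.Agent.M16.Helper65.HR2

open Pool.Agent.M16.Helper24.HR2

/-- affine functions of the two series -/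
structure Tr where
  /-- constant coefficient -/
  c0 : ℚ
  /-- coefficient of `SS s b 0 1` -/
  c1 : ℚ
  /-- coefficient of `MM s b 0 0` -/
  c2 : ℚ

/-- the value -/
def tv (S M : ℝ) (x : Tr) : ℝ := (x.c0 : ℝ) + (x.c1 : ℝ) * S + (x.c2 : ℝ) * M

/-- one step of the recursion -/
def mmStep (r b : ℚ) (n k : ℕ) (x : Tr) : Tr :=
  ⟨((4 * r - b + n + k + 1) * x.c0
      + ((b + 2 + k) * gmQ r b k * ((ssQ r b n 0).1 - (ssQ r b n 1).1)
        - (k + 1) * gmQ r b n * ((ssQ r b k 0).1 - (ssQ r b k 1).1))) / (b + 3 + n + k),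
    ((4 * r - b + n + k + 1) * x.c1
      + ((b + 2 + k) * gmQ r b k * ((ssQ r b n 0).2 - (ssQ r b n 1).2)
        - (k + 1) * gmQ r b n * ((ssQ r b k 0).2 - (ssQ r b k 1).2))) / (b + 3 + n + k),
    (4 * r - b + n + k + 1) * x.c2 / (b + 3 + n + k)⟩

/-- the first column -/
def mm0 (r b : ℚ) : ℕ → Tr
  | 0 => ⟨0, 0, 1⟩
  | k + 1 => mmStep r b k 0 (mm0 r b k)

/-- the Gram matrix -/
def mmQ (r b : ℚ) : ℕ → ℕ → Tr
  | 0, k => mm0 r b k
  | n + 1, k => mmStep r b n k (mmQ r b n k)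

theorem mmStep_eq {s : ℂ} {r b : ℚ} (hr : s.re = r) (hs : -1 < s.re) (hb : 0 < (b : ℝ))
    (hσ : 0 < (b : ℝ) + 1 - 2 * s.re) (n k : ℕ) (x : Tr)
    (hx : MM s b n k = tv (SS s b 0 1) (MM s b 0 0) x) :
    MM s b (n + 1) k = tv (SS s b 0 1) (MM s b 0 0) (mmStep r b n k x) := by
  have h1 := MM_rec hs hb hσ n k
  rw [hx, ssQ_eq hr hs hb hσ n 0, ssQ_eq hr hs hb hσ n 1, ssQ_eq hr hs hb hσ k 0,
    ssQ_eq hr hs hb hσ k 1, ← gmQ_eq hr k, ← gmQ_eq hr n, hr] at h1
  have hn : ((b : ℝ) + 3 + n + k) ≠ 0 := by positivity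
  have h2 : MM s b (n + 1) k = ((4 * (r : ℝ) - b + n + k + 1)
        * tv (SS s b 0 1) (MM s b 0 0) x
      + (b + 2 + k) * ((gmQ r b k : ℚ) : ℝ) * (av (SS s b 0 1) (ssQ r b n 0)
        - av (SS s b 0 1) (ssQ r b n 1))
      - (k + 1) * ((gmQ r b n : ℚ) : ℝ) * (av (SS s b 0 1) (ssQ r b k 0)
        - av (SS s b 0 1) (ssQ r b k 1))) / ((b : ℝ) + 3 + n + k) := by
    rw [eq_div_iff hn, mul_comm]
    exact h1
  rw [h2]
  simp only [tv, av, mmStep]
  push_cast
  rw [div_eq_iff hn]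
  field_simp
  ring

theorem mm0_eq {s : ℂ} {r b : ℚ} (hr : s.re = r) (hs : -1 < s.re) (hb : 0 < (b : ℝ))
    (hσ : 0 < (b : ℝ) + 1 - 2 * s.re) (k : ℕ) :
    MM s b k 0 = tv (SS s b 0 1) (MM s b 0 0) (mm0 r b k) := by
  induction k with
  | zero => simp [tv, mm0]
  | succ k ih => exact mmStep_eq hr hs hb hσ k 0 _ ih

theorem mmQ_eq {s : ℂ} {r b : ℚ} (hr : s.re = r) (hs : -1 < s.re) (hb : 0 < (b : ℝ))
    (hσ : 0 < (b : ℝ) + 1 - 2 * s.re) (n k : ℕ) :
    MM s b n k = tv (SS s b 0 1) (MM s b 0 0) (mmQ r b n k) := by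
  induction n with
  | zero =>
    rw [MM_symm, mm0_eq hr hs hb hσ k, mmQ]
  | succ n ih => exact mmStep_eq hr hs hb hσ n k _ ih

end Pool.Agent.M16.Helper65.HR2
end

/- Helper94.T.Helper65.HR2.Psd -/
section
/-!
MP_16b0ee, project HR2: positivity of Hermitian forms of arbitrary order with Gaussian rational
entries by elimination.
-/

set_option autoImplicit false

open scoped ComplexConjugate

namespace Pool.Agent.M16.Helper65.HR2

open Pool.Agent.M16.Helper24.HR2

/-- the Hermitian form with the given upper triangle -/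
noncomputable def uf : ℕ → (ℕ → ℕ → GQ) → (ℕ → ℂ) → ℝ
  | 0, _, _ => 0
  | n + 1, M, g => ((M 0 0).re : ℝ) * ‖g 0‖ ^ 2
      + 2 * (conj (g 0) * ∑ j ∈ Finset.range n, (M 0 (j + 1)).toC * g (j + 1)).re
      + uf n (fun i j => M (i + 1) (j + 1)) (fun i => g (i + 1))

/-- the Schur complement times the pivot -/
def schur (M : ℕ → ℕ → GQ) (i j : ℕ) : GQ :=
  ((M (i + 1) (j + 1)).sc (M 0 0).re).sub ((M 0 (i + 1)).cj.mul (M 0 (j + 1)))

/-- the check -/
def psdU : ℕ → (ℕ → ℕ → GQ) → Bool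
  | 0, _ => true
  | n + 1, M => decide (0 < (M 0 0).re) && psdU n (schur M)

theorem uf_comb (n : ℕ) (a : ℚ) : ∀ (A B : ℕ → ℕ → GQ) (g : ℕ → ℂ),
    uf n (fun i j => ((A i j).sc a).sub (B i j)) g = (a : ℝ) * uf n A g - uf n B g := by
  induction n with
  | zero => intro A B g; simp [uf]
  | succ n ih =>
    intro A B g
    rw [uf, uf, uf, ih (fun i j => A (i + 1) (j + 1)) (fun i j => B (i + 1) (j + 1))]
    have h1 : ∑ j ∈ Finset.range n, (((A 0 (j + 1)).sc a).sub (B 0 (j + 1))).toC * g (j + 1)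
        = (a : ℂ) * ∑ j ∈ Finset.range n, (A 0 (j + 1)).toC * g (j + 1)
          - ∑ j ∈ Finset.range n, (B 0 (j + 1)).toC * g (j + 1) := by
      rw [Finset.mul_sum, ← Finset.sum_sub_distrib]
      refine Finset.sum_congr rfl (fun j _ => ?_)
      rw [GQ.toC_sub, GQ.toC_sc]
      push_cast
      ring
    rw [h1]
    have h2 : ((((A 0 0).sc a).sub (B 0 0)).re : ℝ) = (a : ℝ) * ((A 0 0).re : ℝ)
        - ((B 0 0).re : ℝ) := by
      simp only [GQ.sub, GQ.sc]
      push_cast
      ring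
    rw [h2, mul_sub, Complex.sub_re]
    have h3 : (conj (g 0) * ((a : ℂ) * ∑ j ∈ Finset.range n, (A 0 (j + 1)).toC * g (j + 1))).re
        = (a : ℝ) * (conj (g 0) * ∑ j ∈ Finset.range n, (A 0 (j + 1)).toC * g (j + 1)).re := by
      rw [show conj (g 0) * ((a : ℂ) * ∑ j ∈ Finset.range n, (A 0 (j + 1)).toC * g (j + 1))
        = (((a : ℝ)) : ℂ) * (conj (g 0) * ∑ j ∈ Finset.range n, (A 0 (j + 1)).toC * g (j + 1))
        from by push_cast; ring, Complex.re_ofReal_mul]
    rw [h3]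
    ring

theorem uf_rank (n : ℕ) : ∀ (c : ℕ → GQ) (g : ℕ → ℂ),
    uf n (fun i j => (c i).cj.mul (c j)) g
      = ‖∑ j ∈ Finset.range n, (c j).toC * g j‖ ^ 2 := by
  induction n with
  | zero => intro c g; simp [uf]
  | succ n ih =>
    intro c g
    rw [uf, ih (fun j => c (j + 1)), Finset.sum_range_succ']
    have h1 : ∑ j ∈ Finset.range n, ((c 0).cj.mul (c (j + 1))).toC * g (j + 1)
        = conj (c 0).toC * ∑ j ∈ Finset.range n, (c (j + 1)).toC * g (j + 1) := by
      rw [Finset.mul_sum]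
      refine Finset.sum_congr rfl (fun j _ => ?_)
      rw [GQ.toC_mul, GQ.toC_cj]
      ring
    rw [h1]
    generalize (∑ j ∈ Finset.range n, (c (j + 1)).toC * g (j + 1)) = z
    have h2 : (((c 0).cj.mul (c 0)).re : ℝ) = ‖(c 0).toC‖ ^ 2 := by
      rw [← GQ.nsq_eq]
      simp only [GQ.mul, GQ.cj, GQ.nsq]
      push_cast
      ring
    rw [h2]
    have h3 : ∀ x y : ℂ, ‖x + y‖ ^ 2 = ‖x‖ ^ 2 + ‖y‖ ^ 2 + 2 * (conj y * x).re := by
      intro x y
      rw [← Complex.normSq_eq_norm_sq, ← Complex.normSq_eq_norm_sq, ← Complex.normSq_eq_norm_sq,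
        Complex.normSq_apply, Complex.normSq_apply, Complex.normSq_apply, Complex.mul_re,
        Complex.conj_re, Complex.conj_im, Complex.add_re, Complex.add_im]
      ring
    rw [h3, norm_mul, mul_pow, map_mul]
    rw [show conj (g 0) * (conj (c 0).toC * z) = conj (c 0).toC * conj (g 0) * z from by ring]
    ring

theorem psdU_sound (n : ℕ) : ∀ (M : ℕ → ℕ → GQ), psdU n M = true → ∀ g : ℕ → ℂ,
    0 ≤ uf n M g := by
  induction n with
  | zero => intro M _ g; simp [uf]
  | succ n ih =>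
    intro M h g
    rw [psdU, Bool.and_eq_true, decide_eq_true_eq] at h
    obtain ⟨h1, h2⟩ := h
    have h3 := ih _ h2 (fun i => g (i + 1))
    have h1' : (0 : ℝ) < ((M 0 0).re : ℝ) := by exact_mod_cast h1
    have e1 : uf n (schur M) (fun i => g (i + 1))
        = ((M 0 0).re : ℝ) * uf n (fun i j => M (i + 1) (j + 1)) (fun i => g (i + 1))
          - ‖∑ j ∈ Finset.range n, (M 0 (j + 1)).toC * g (j + 1)‖ ^ 2 := by
      have := uf_comb n (M 0 0).re (fun i j => M (i + 1) (j + 1))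
        (fun i j => (M 0 (i + 1)).cj.mul (M 0 (j + 1))) (fun i => g (i + 1))
      rw [uf_rank n (fun j => M 0 (j + 1))] at this
      exact this
    rw [e1] at h3
    rw [uf]
    generalize (∑ j ∈ Finset.range n, (M 0 (j + 1)).toC * g (j + 1)) = z at h3 ⊢
    generalize uf n (fun i j => M (i + 1) (j + 1)) (fun i => g (i + 1)) = u at h3 ⊢
    generalize ((M 0 0).re : ℝ) = a at h3 h1' ⊢
    have h4 : 0 ≤ ‖(a : ℂ) * g 0 + z‖ ^ 2 := by positivity
    have h5 : ‖(a : ℂ) * g 0 + z‖ ^ 2 = a ^ 2 * ‖g 0‖ ^ 2 + 2 * a * (conj (g 0) * z).re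
        + ‖z‖ ^ 2 := by
      rw [← Complex.normSq_eq_norm_sq, ← Complex.normSq_eq_norm_sq, ← Complex.normSq_eq_norm_sq,
        Complex.normSq_apply, Complex.normSq_apply, Complex.normSq_apply, Complex.add_re,
        Complex.add_im, Complex.re_ofReal_mul, Complex.im_ofReal_mul, Complex.mul_re,
        Complex.conj_re, Complex.conj_im]
      ring
    have h6 : 0 ≤ a * (a * ‖g 0‖ ^ 2 + 2 * (conj (g 0) * z).re + u) := by
      rw [h5] at h4
      linarith only [h3, h4]
    exact nonneg_of_mul_nonneg_right h6 h1'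

/-- the Hermitian part -/
def hrm (Q : ℕ → ℕ → GQ) (i j : ℕ) : GQ := ((Q i j).add (Q j i).cj).sc (1 / 2)

theorem hrm_eq (K : ℕ) : ∀ (Q : ℕ → ℕ → GQ) (g : ℕ → ℂ),
    hF K (fun r t => (Q r t).toC) g = uf K (hrm Q) g := by
  induction K with
  | zero => intro Q g; simp [hF, uf]
  | succ K ih =>
    intro Q g
    rw [uf]
    have h0 : uf K (fun i j => hrm Q (i + 1) (j + 1)) (fun i => g (i + 1))
        = hF K (fun r t => (Q (r + 1) (t + 1)).toC) (fun i => g (i + 1)) :=
      (ih (fun r t => Q (r + 1) (t + 1)) (fun i => g (i + 1))).symm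
    rw [h0, hF, hF, Finset.sum_range_succ']
    simp only [Finset.sum_range_succ', Finset.sum_add_distrib]
    have h1 : (∑ j ∈ Finset.range K, (hrm Q 0 (j + 1)).toC * g (j + 1))
        = (∑ j ∈ Finset.range K, (1 / 2 : ℂ) * ((Q 0 (j + 1)).toC * g (j + 1)))
          + ∑ j ∈ Finset.range K, (1 / 2 : ℂ) * (conj (Q (j + 1) 0).toC * g (j + 1)) := by
      rw [← Finset.sum_add_distrib]
      refine Finset.sum_congr rfl (fun j _ => ?_)
      rw [hrm, GQ.toC_sc, GQ.toC_add, GQ.toC_cj]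
      push_cast
      ring
    rw [h1, mul_add, Complex.add_re, ← Finset.mul_sum, ← Finset.mul_sum]
    have h2 : ((hrm Q 0 0).re : ℝ) = ((Q 0 0).re : ℝ) := by
      simp only [hrm, GQ.sc, GQ.add, GQ.cj]
      push_cast
      ring
    have h3 : ((Q 0 0).toC * (g 0 * conj (g 0))).re = ((Q 0 0).re : ℝ) * ‖g 0‖ ^ 2 := by
      rw [Complex.mul_conj, Complex.re_mul_ofReal, GQ.toC_re, Complex.normSq_eq_norm_sq]
    have h4 : 2 * (conj (g 0) * (1 / 2 * ∑ j ∈ Finset.range K, (Q 0 (j + 1)).toC * g (j + 1))).re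
        = ∑ j ∈ Finset.range K, ((Q 0 (j + 1)).toC * (g (j + 1) * conj (g 0))).re := by
      rw [← Complex.re_sum, ← Complex.re_ofReal_mul]
      congr 1
      rw [Finset.mul_sum, Finset.mul_sum, Finset.mul_sum]
      refine Finset.sum_congr rfl (fun j _ => ?_)
      push_cast
      ring
    have h5 : 2 * (conj (g 0) * (1 / 2 * ∑ j ∈ Finset.range K,
          conj (Q (j + 1) 0).toC * g (j + 1))).re
        = ∑ j ∈ Finset.range K, ((Q (j + 1) 0).toC * (g 0 * conj (g (j + 1)))).re := by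
      rw [← Complex.re_sum, ← Complex.re_ofReal_mul, ← Complex.conj_re]
      congr 1
      simp only [map_mul, map_sum, Finset.mul_sum, Complex.conj_conj, Complex.conj_ofReal,
        map_div₀, map_one, map_ofNat]
      refine Finset.sum_congr rfl (fun j _ => ?_)
      push_cast
      ring
    rw [h2, mul_add 2, h4, h5, h3]
    ring

end Pool.Agent.M16.Helper65.HR2
end

/- Helper94.T.Helper65.HR2.PsdZ -/
section
/-!
MP_16b0ee, project HR2: positivity of a Hermitian matrix depending affinely on three parameters,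
by integer arithmetic.
-/

set_option autoImplicit false

open scoped ComplexConjugate

namespace Pool.Agent.M16.Helper65.HR2

open Pool.Agent.M16.Helper24.HR2

/-- Gaussian integers -/
structure GZ where
  /-- real part -/
  re : ℤ
  /-- imaginary part -/
  im : ℤ

/-- the Gaussian rational -/
def GZ.toQ (x : GZ) : GQ := ⟨(x.re : ℚ), (x.im : ℚ)⟩

/-- an entry of the Schur complement -/
noncomputable def schZ (h : ℤ) (a m b : GZ) : GZ :=
  ⟨Int.sub (Int.mul h m.re) (Int.add (Int.mul a.re b.re) (Int.mul a.im b.im)),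
    Int.sub (Int.mul h m.im) (Int.sub (Int.mul a.re b.im) (Int.mul a.im b.re))⟩

/-- a row of the Schur complement -/
noncomputable def zipS (h : ℤ) (a : GZ) : List GZ → List GZ → List GZ :=
  List.rec (motive := fun _ => List GZ → List GZ) (fun _ => [])
    (fun m _ ih v => List.rec (motive := fun _ => List GZ) []
      (fun b t _ => schZ h a m b :: ih t) v)

/-- the Schur complement -/
noncomputable def schL (h : ℤ) : List GZ → List (List GZ) → List (List GZ) :=
  List.rec (motive := fun _ => List (List GZ) → List (List GZ)) (fun _ => [])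
    (fun a u ih rows => List.rec (motive := fun _ => List (List GZ)) []
      (fun row rest _ => zipS h a row (a :: u) :: ih rest) rows)

/-- the check, for a list of rows of the upper triangle -/
noncomputable def psdL : ℕ → List (List GZ) → Bool :=
  Nat.rec (motive := fun _ => List (List GZ) → Bool) (fun _ => true)
    (fun _ ih rows => List.rec (motive := fun _ => Bool) false
      (fun row rest _ => List.rec (motive := fun _ => Bool) false
        (fun h u _ => Bool.and (decide (0 < h.re)) (ih (schL h.re u rest))) row) rows)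

/-- a row of the upper triangle -/
noncomputable def rowU (f : ℕ → ℕ → GZ) (K i : ℕ) : List GZ :=
  Nat.rec (motive := fun _ => List GZ → List GZ) (fun acc => acc)
    (fun j ih acc => ih (bif Nat.ble i j then f i j :: acc else acc)) K []

/-- the upper triangle -/
noncomputable def triU (f : ℕ → ℕ → GZ) (K : ℕ) : List (List GZ) := tabG (rowU f K) K

theorem rowU_eq (f : ℕ → ℕ → GZ) (K i : ℕ) :
    rowU f K i = (List.range (K - i)).map (fun m => f i (i + m)) := by
  have h : ∀ (n : ℕ) (acc : List GZ), (Nat.rec (motive := fun _ => List GZ → List GZ)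
      (fun acc => acc) (fun j ih acc => ih (bif Nat.ble i j then f i j :: acc else acc)) n acc
        : List GZ) = (List.range (n - i)).map (fun m => f i (i + m)) ++ acc := by
    intro n
    induction n with
    | zero =>
      intro acc
      simp
    | succ n ih =>
      intro acc
      change (Nat.rec (motive := fun _ => List GZ → List GZ)
        (fun acc => acc) (fun j ih acc => ih (bif Nat.ble i j then f i j :: acc else acc)) n
          (bif Nat.ble i n then f i n :: acc else acc) : List GZ) = _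
      rw [ih]
      cases h : Nat.ble i n
      · have h1 : ¬ i ≤ n := fun h2 => by
          rw [Nat.ble_eq_true_of_le h2] at h
          exact Bool.noConfusion h
        rw [cond_false, show n - i = 0 from by omega, show n + 1 - i = 0 from by omega]
      · have h1 : i ≤ n := Nat.le_of_ble_eq_true h
        rw [cond_true, show n + 1 - i = (n - i) + 1 from by omega, List.range_succ,
          List.map_append, List.append_assoc]
        simp only [List.map_cons, List.map_nil, List.cons_append, List.nil_append]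
        rw [show i + (n - i) = n from by omega]
  rw [rowU, h, List.append_nil]

theorem zipS_eq (h : ℤ) (a : GZ) (n : ℕ) : ∀ (R C : ℕ → GZ),
    zipS h a ((List.range n).map R) ((List.range n).map C)
      = (List.range n).map (fun m => schZ h a (R m) (C m)) := by
  induction n with
  | zero => intro R C; rfl
  | succ n ih =>
    intro R C
    rw [List.range_succ_eq_map, List.map_cons, List.map_cons, List.map_cons, List.map_map,
      List.map_map, List.map_map]
    change schZ h a (R 0) (C 0) :: zipS h a ((List.range n).map (R ∘ Nat.succ))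
      ((List.range n).map (C ∘ Nat.succ)) = _
    rw [ih]
    rfl

theorem schL_eq (h : ℤ) (n : ℕ) : ∀ (C : ℕ → GZ) (R : ℕ → ℕ → GZ),
    schL h ((List.range n).map C)
        ((List.range n).map (fun i => (List.range (n - i)).map (fun m => R i (i + m))))
      = (List.range n).map (fun i => (List.range (n - i)).map
          (fun m => schZ h (C i) (R i (i + m)) (C (i + m)))) := by
  induction n with
  | zero => intro C R; rfl
  | succ n ih =>
    intro C R
    have e1 : (List.range (n + 1)).map C = C 0 :: (List.range n).map (fun m => C (m + 1)) := by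
      rw [List.range_succ_eq_map, List.map_cons, List.map_map]
      rfl
    have e2 : ∀ F : ℕ → ℕ → GZ, (List.range (n + 1)).map
          (fun i => (List.range (n + 1 - i)).map (fun m => F i (i + m)))
        = (List.range (n + 1)).map (fun m => F 0 m)
          :: (List.range n).map (fun i => (List.range (n - i)).map
              (fun m => F (i + 1) (i + m + 1))) := by
      intro F
      rw [List.range_succ_eq_map, List.map_cons, List.map_map]
      congr 1
      · rw [Nat.sub_zero, List.range_succ_eq_map]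
        simp only [Nat.zero_add]
      · refine List.map_congr_left (fun i hi => ?_)
        have hi' := List.mem_range.1 hi
        simp only [Function.comp]
        rw [show n + 1 - (i + 1) = n - i from by omega]
        refine List.map_congr_left (fun m _ => ?_)
        rw [show i + 1 + m = i + m + 1 from by ring]
    have e3 := e2 R
    have e4 := e2 (fun i m => schZ h (C i) (R i m) (C m))
    rw [e3, e4, e1]
    have e5 := ih (fun m => C (m + 1)) (fun i m => R (i + 1) (m + 1))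
    change zipS h (C 0) ((List.range (n + 1)).map (fun m => R 0 m))
        (C 0 :: (List.range n).map (fun m => C (m + 1)))
      :: schL h ((List.range n).map (fun m => C (m + 1))) _ = _
    rw [← e1, zipS_eq, e5]

/-- the function of the Schur complement -/
noncomputable def schurZ (M : ℕ → ℕ → GZ) (i j : ℕ) : GZ :=
  schZ (M 0 0).re (M 0 (i + 1)) (M (i + 1) (j + 1)) (M 0 (j + 1))

theorem psdL_U (n : ℕ) : ∀ (M : ℕ → ℕ → GZ) (M' : ℕ → ℕ → GQ),
    (∀ i j, i ≤ j → j < n → M' i j = (M i j).toQ) →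
    psdL n ((List.range n).map (fun i => (List.range (n - i)).map (fun m => M i (i + m)))) = true →
    psdU n M' = true := by
  induction n with
  | zero => intro M M' _ _; rfl
  | succ n ih =>
    intro M M' hM h
    have e1 : (List.range (n + 1)).map (fun m => M 0 m)
        = M 0 0 :: (List.range n).map (fun m => M 0 (m + 1)) := by
      rw [List.range_succ_eq_map, List.map_cons, List.map_map]
      rfl
    have e2 : (List.range (n + 1)).map
          (fun i => (List.range (n + 1 - i)).map (fun m => M i (i + m)))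
        = (M 0 0 :: (List.range n).map (fun m => M 0 (m + 1)))
          :: (List.range n).map (fun i => (List.range (n - i)).map
              (fun m => M (i + 1) (i + m + 1))) := by
      rw [List.range_succ_eq_map, List.map_cons, List.map_map]
      congr 1
      · rw [Nat.sub_zero, ← e1, List.range_succ_eq_map]
        simp only [Nat.zero_add]
      · refine List.map_congr_left (fun i hi => ?_)
        have hi' := List.mem_range.1 hi
        simp only [Function.comp]
        rw [show n + 1 - (i + 1) = n - i from by omega]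
        refine List.map_congr_left (fun m _ => ?_)
        rw [show i + 1 + m = i + m + 1 from by ring]
    rw [e2] at h
    change Bool.and (decide (0 < (M 0 0).re)) (psdL n (schL (M 0 0).re
      ((List.range n).map (fun m => M 0 (m + 1))) _)) = true at h
    have h' := (Bool.and_eq_true _ _).mp h
    obtain ⟨h1, h2⟩ := h'
    rw [decide_eq_true_eq] at h1
    have e3 := schL_eq (M 0 0).re n (fun m => M 0 (m + 1)) (fun i m => M (i + 1) (m + 1))
    rw [e3] at h2
    rw [psdU, Bool.and_eq_true, decide_eq_true_eq]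
    refine ⟨?_, ih (schurZ M) (schur M') ?_ h2⟩
    · rw [hM 0 0 le_rfl (by omega), GZ.toQ]
      have h3 : (0 : ℚ) < ((M 0 0).re : ℚ) := by exact_mod_cast h1
      exact h3
    · intro i j hij hj
      rw [schur, hM 0 0 le_rfl (by omega), hM 0 (i + 1) (by omega) (by omega),
        hM 0 (j + 1) (by omega) (by omega), hM (i + 1) (j + 1) (by omega) (by omega)]
      have e1 : ∀ x y : ℤ, ((Int.add x y : ℤ) : ℚ) = (x : ℚ) + (y : ℚ) := fun x y => by
        change ((x + y : ℤ) : ℚ) = _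
        push_cast
        ring
      have e2 : ∀ x y : ℤ, ((Int.mul x y : ℤ) : ℚ) = (x : ℚ) * (y : ℚ) := fun x y => by
        change ((x * y : ℤ) : ℚ) = _
        push_cast
        ring
      have e3 : ∀ x y : ℤ, ((Int.sub x y : ℤ) : ℚ) = (x : ℚ) - (y : ℚ) := fun x y => by
        change ((x - y : ℤ) : ℚ) = _
        push_cast
        ring
      simp only [schurZ, schZ, GZ.toQ, GQ.sub, GQ.sc, GQ.mul, GQ.cj, e1, e2, e3]
      congr 1 <;> ring

theorem psdT_U (n : ℕ) (M : ℕ → ℕ → GZ) (h : psdL n (triU M n) = true) :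
    psdU n (fun i j => (M i j).toQ) = true := by
  refine psdL_U n M _ (fun i j _ _ => rfl) ?_
  have : triU M n
      = (List.range n).map (fun i => (List.range (n - i)).map (fun m => M i (i + m))) := by
    rw [triU, tabG_eq]
    exact List.map_congr_left (fun i _ => rowU_eq M n i)
  rw [← this]
  exact h

theorem uf_congr (n : ℕ) : ∀ (A B : ℕ → ℕ → GQ) (g : ℕ → ℂ),
    (∀ i j, i ≤ j → j < n → (A i j).toC = (B i j).toC) → uf n A g = uf n B g := by
  induction n with
  | zero => intro A B g _; rfl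
  | succ n ih =>
    intro A B g h
    rw [uf, uf, ih _ (fun i j => B (i + 1) (j + 1)) _
      (fun i j hij hj => h (i + 1) (j + 1) (by omega) (by omega))]
    have h0 : ((A 0 0).re : ℝ) = ((B 0 0).re : ℝ) := by
      have := congrArg Complex.re (h 0 0 le_rfl (by omega))
      rw [GQ.toC_re, GQ.toC_re] at this
      exact this
    rw [h0]
    congr 3
    congr 1
    congr 1
    refine Finset.sum_congr rfl (fun j hj => ?_)
    rw [h 0 (j + 1) (by omega) (by have := Finset.mem_range.1 hj; omega)]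

theorem uf_sc (n : ℕ) (a : ℚ) (A : ℕ → ℕ → GQ) (g : ℕ → ℂ) :
    uf n (fun i j => (A i j).sc a) g = (a : ℝ) * uf n A g := by
  have h := uf_comb n a A (fun _ _ => GQ.zero) g
  have h2 : uf n (fun _ _ => GQ.zero) g = 0 := by
    have : ∀ (m : ℕ) (g : ℕ → ℂ), uf m (fun _ _ => GQ.zero) g = 0 := by
      intro m
      induction m with
      | zero => intro g; rfl
      | succ m ih =>
        intro g
        rw [uf, ih]
        simp only [GQ.toC_zero, zero_mul, Finset.sum_const_zero, mul_zero, Complex.zero_re]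
        simp [GQ.zero]
    exact this n g
  rw [h2, sub_zero] at h
  rw [← h]
  refine uf_congr n _ _ g (fun i j _ _ => ?_)
  rw [GQ.toC_sub, GQ.toC_zero, sub_zero]

theorem hrm_toC (Q : ℕ → ℕ → GQ) (i j : ℕ) :
    (hrm Q i j).toC = (1 / 2 : ℂ) * ((Q i j).toC + conj (Q j i).toC) := by
  rw [hrm, GQ.toC_sc, GQ.toC_add, GQ.toC_cj]
  push_cast
  ring

end Pool.Agent.M16.Helper65.HR2
end

/- Helper94.T.Helper39.MH.Bridge -/
section
/-!
MP_16b0ee, project MH, module MH-8: the weighted area integral of a product in terms of the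
Taylor coefficients.
-/

set_option autoImplicit false

open MeasureTheory Set Metric Filter Topology
open scoped Real ComplexConjugate

namespace Pool.Agent.M16.Helper39.MH

open Pool.Agent.M16.Helper22.Half
open Pool.Agent.M16.Helper22.Marshall (coeff SepHol LogPhi dcoeff GLe)
open Pool.Agent.M16.Helper39.Area (Ext phi)

namespace Bridge

theorem hasSum_c {ρ : ℝ} {F : ℂ → ℂ} (hF : DifferentiableOn ℂ F (ball 0 ρ)) {z : ℂ}
    (hz : ‖z‖ < ρ) : HasSum (fun n => coeff F n * z ^ n) (F z) := by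
  have h := Complex.hasSum_taylorSeries_on_ball (c := 0) (r := ρ) (z := z) hF (by simpa using hz)
  have : (fun n => coeff F n * z ^ n)
      = fun n : ℕ => (n.factorial : ℂ)⁻¹ • (z - 0) ^ n • iteratedDeriv n F 0 := by
    funext n
    simp only [coeff, smul_eq_mul, sub_zero]
    ring
  rw [this]
  exact h

theorem summable_c {ρ : ℝ} {F : ℂ → ℂ} (hF : DifferentiableOn ℂ F (ball 0 ρ)) {r : ℝ}
    (hr0 : 0 ≤ r) (hr : r < ρ) : Summable (fun n => ‖coeff F n‖ * r ^ n) := by
  have h := (hasSum_c hF (z := (r : ℂ)) (by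
    rw [Complex.norm_real, Real.norm_of_nonneg hr0]; exact hr)).summable.norm
  have e : (fun n => ‖coeff F n‖ * r ^ n) = fun n => ‖coeff F n * (r : ℂ) ^ n‖ := by
    funext n
    rw [norm_mul, norm_pow, Complex.norm_real, Real.norm_of_nonneg hr0]
  rw [e]
  exact h

/-- the radial integrals -/
noncomputable def J (p : ℝ) (m : ℕ) : ℝ := ∫ r in (0:ℝ)..1, r ^ (2 * m + 1) * (1 - r ^ 2) ^ p

theorem cont_rad {p : ℝ} (hp : 0 ≤ p) (k : ℕ) :
    Continuous (fun r : ℝ => r ^ k * (1 - r ^ 2) ^ p) := by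
  have h1 : Continuous (fun r : ℝ => (1 - r ^ 2 : ℝ) ^ p) := by
    apply Continuous.rpow_const (by fun_prop)
    intro r
    right
    exact hp
  exact (continuous_pow k).mul h1

theorem J_zero {p : ℝ} (hp : 0 ≤ p) : J p 0 = 1 / (2 * (p + 1)) := by
  have hd : ∀ r ∈ Set.uIcc (0:ℝ) 1, HasDerivAt (fun r : ℝ => -(1 - r ^ 2) ^ (p + 1) / (2 * (p + 1)))
      (r ^ (2 * 0 + 1) * (1 - r ^ 2) ^ p) r := by
    intro r _
    have h1 : HasDerivAt (fun r : ℝ => 1 - r ^ 2) (-(2 * r)) r := by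
      have := (hasDerivAt_pow 2 r).const_sub 1
      simpa using this
    have h2 : HasDerivAt (fun r : ℝ => -(1 - r ^ 2) ^ (p + 1) / (2 * (p + 1)))
        (-(-(2 * r) * (p + 1) * (1 - r ^ 2) ^ (p + 1 - 1)) / (2 * (p + 1))) r :=
      (h1.rpow_const (p := p + 1) (Or.inr (by linarith))).neg.div_const (2 * (p + 1))
    refine h2.congr_deriv ?_
    have hp1 : p + 1 ≠ 0 := by positivity
    rw [show p + 1 - 1 = p by ring]
    field_simp
    ring
  have h := intervalIntegral.integral_eq_sub_of_hasDerivAt hd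
    ((cont_rad hp _).intervalIntegrable 0 1)
  unfold J
  rw [h]
  have h0 : (0:ℝ) ^ (p + 1) = 0 := Real.zero_rpow (by positivity)
  have hp1 : p + 1 ≠ 0 := by positivity
  rw [show (1:ℝ) - 1 ^ 2 = 0 by norm_num, show (1:ℝ) - 0 ^ 2 = 1 by norm_num, h0, Real.one_rpow]
  field_simp
  ring

theorem J_succ {p : ℝ} (hp : 0 ≤ p) (m : ℕ) :
    ((m : ℝ) + 1) * J p m = ((m : ℝ) + p + 2) * J p (m + 1) := by
  have hd : ∀ r ∈ Set.uIcc (0:ℝ) 1,
      HasDerivAt (fun r : ℝ => r ^ (2 * m + 2) * (1 - r ^ 2) ^ (p + 1))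
      ((2 * m + 2) * (r ^ (2 * m + 1) * (1 - r ^ 2) ^ p)
        - (2 * m + 2 * p + 4) * (r ^ (2 * (m + 1) + 1) * (1 - r ^ 2) ^ p)) r := by
    intro r hr
    rw [Set.uIcc_of_le (by norm_num)] at hr
    have hnn : 0 ≤ 1 - r ^ 2 := by nlinarith only [hr.1, hr.2]
    have h1 : HasDerivAt (fun r : ℝ => 1 - r ^ 2) (-(2 * r)) r := by
      have := (hasDerivAt_pow 2 r).const_sub 1
      simpa using this
    have h2 := h1.rpow_const (p := p + 1) (Or.inr (by linarith))
    have h3 : HasDerivAt (fun r : ℝ => r ^ (2 * m + 2) * (1 - r ^ 2) ^ (p + 1))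
        (((2 * m + 2 : ℕ) : ℝ) * r ^ (2 * m + 2 - 1) * (1 - r ^ 2) ^ (p + 1)
          + r ^ (2 * m + 2) * (-(2 * r) * (p + 1) * (1 - r ^ 2) ^ (p + 1 - 1))) r :=
      (hasDerivAt_pow (2 * m + 2) r).mul h2
    refine h3.congr_deriv ?_
    have e1 : (1 - r ^ 2) ^ (p + 1) = (1 - r ^ 2) * (1 - r ^ 2) ^ p := by
      rw [Real.rpow_add' hnn (by positivity), Real.rpow_one]
      ring
    rw [e1, show p + 1 - 1 = p by ring, show 2 * m + 2 - 1 = 2 * m + 1 by omega]
    push_cast
    ring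
  have c1 : Continuous (fun r : ℝ => (2 * (m:ℝ) + 2) * (r ^ (2 * m + 1) * (1 - r ^ 2) ^ p)) :=
    continuous_const.mul (cont_rad hp (2 * m + 1))
  have c2 : Continuous (fun r : ℝ =>
      (2 * (m:ℝ) + 2 * p + 4) * (r ^ (2 * (m + 1) + 1) * (1 - r ^ 2) ^ p)) :=
    continuous_const.mul (cont_rad hp (2 * (m + 1) + 1))
  have h := intervalIntegral.integral_eq_sub_of_hasDerivAt hd
    ((c1.sub c2).intervalIntegrable 0 1)
  rw [intervalIntegral.integral_sub (c1.intervalIntegrable 0 1) (c2.intervalIntegrable 0 1),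
    intervalIntegral.integral_const_mul, intervalIntegral.integral_const_mul] at h
  have h0 : (0:ℝ) ^ (p + 1) = 0 := Real.zero_rpow (by positivity)
  have h5 : (1:ℝ) ^ (2 * m + 2) * (1 - 1 ^ 2) ^ (p + 1) - 0 ^ (2 * m + 2) * (1 - 0 ^ 2) ^ (p + 1)
      = 0 := by
    rw [show (1:ℝ) - 1 ^ 2 = 0 by norm_num, h0, zero_pow (by omega)]
    ring
  rw [h5] at h
  change (2 * (m:ℝ) + 2) * J p m - (2 * m + 2 * p + 4) * J p (m + 1) = 0 at h
  linarith

theorem J_eq {p : ℝ} (hp : 0 ≤ p) (m : ℕ) : J p m = ((p + 1) * pq (p + 2) m)⁻¹ / 2 := by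
  induction m with
  | zero =>
    rw [J_zero hp, pq_zero]
    have hp1 : p + 1 ≠ 0 := by positivity
    field_simp
  | succ m ih =>
    have h1 := J_succ hp m
    rw [ih] at h1
    have h2 : (0:ℝ) < pq (p + 2) m := pq_pos (by linarith only [hp]) m
    have h3 : (0:ℝ) < (m : ℝ) + p + 2 := by positivity
    have h4 : (0:ℝ) < (m : ℝ) + 1 := by positivity
    have h5 : (0:ℝ) < p + 1 := by positivity
    have h6 : J p (m + 1) = ((m : ℝ) + 1) * (((p + 1) * pq (p + 2) m)⁻¹ / 2) / ((m : ℝ) + p + 2) := by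
      rw [eq_div_iff h3.ne']
      linarith only [h1]
    rw [h6, pq_succ]
    have h7 : (0:ℝ) < p + 2 + m := by positivity
    field_simp
    ring

theorem exp_int (n : ℤ) (hn : n ≠ 0) :
    ∫ θ in Ioo (-π) π, Complex.exp ((n : ℂ) * (θ : ℂ) * Complex.I) = 0 := by
  rw [← integral_Ioc_eq_integral_Ioo, ← intervalIntegral.integral_of_le (by linarith only [Real.pi_pos])]
  exact Pool.Agent.M16.Helper22.Marshall.integral_exp_int n hn

end Bridge

open Bridge

end Pool.Agent.M16.Helper39.MH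
end

/- Helper94.T.Helper24.HR2.RelS -/
section
/-!
MP_16b0ee, project HR2, module HR2-2: the weighted area integral of a product in terms of the
Taylor coefficients, for every weight exponent above `-1`, and the stationarity relation for
`G = exp (s H)` with a complex multiplier.
-/

set_option autoImplicit false

open MeasureTheory Set Metric Filter Topology
open scoped Real ComplexConjugate

namespace Pool.Agent.M16.Helper24.HR2

open Pool.Agent.M16.Helper22.Half
open Pool.Agent.M16.Helper22.Marshall (coeff SepHol LogPhi dcoeff GLe)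
open Pool.Agent.M16.Helper39.Area (Ext phi)
open Pool.Agent.M16.Helper39.MH

namespace RelS

open Pool.Agent.M16.Helper39.MH.Bridge (hasSum_c summable_c J J_eq exp_int)

theorem re_swap (ζ w : ℂ) (r : ℝ) : (ζ * ((r : ℂ) * w)).re = r * (ζ * w).re := by
  rw [mul_left_comm, Complex.re_ofReal_mul]

theorem deriv_rad {p : ℝ} (hp : -1 < p) {r : ℝ} (hr : r ∈ Ioo (0:ℝ) 1) :
    HasDerivAt (fun r : ℝ => -(1 - r ^ 2) ^ (p + 1) / (2 * (p + 1)))
      (r * (1 - r ^ 2) ^ p) r := by
  have hpos : 0 < 1 - r ^ 2 := by nlinarith only [hr.1, hr.2]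
  have h1 : HasDerivAt (fun r : ℝ => 1 - r ^ 2) (-(2 * r)) r := by
    have := (hasDerivAt_pow 2 r).const_sub 1
    simpa using this
  have h2 : HasDerivAt (fun r : ℝ => -(1 - r ^ 2) ^ (p + 1) / (2 * (p + 1)))
      (-(-(2 * r) * (p + 1) * (1 - r ^ 2) ^ (p + 1 - 1)) / (2 * (p + 1))) r :=
    (h1.rpow_const (p := p + 1) (Or.inl hpos.ne')).neg.div_const (2 * (p + 1))
  refine h2.congr_deriv ?_
  have hp1 : p + 1 ≠ 0 := by linarith
  rw [show p + 1 - 1 = p by ring]
  field_simp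

theorem cont_pow {q : ℝ} (hq : 0 < q) : Continuous (fun r : ℝ => (1 - r ^ 2 : ℝ) ^ q) := by
  apply Continuous.rpow_const (by fun_prop)
  intro r
  right
  exact hq.le

theorem rad_int_zero {p : ℝ} (hp : -1 < p) :
    IntervalIntegrable (fun r : ℝ => r * (1 - r ^ 2) ^ p) volume 0 1 := by
  rw [intervalIntegrable_iff_integrableOn_Ioc_of_le zero_le_one]
  have hc : ContinuousOn (fun r : ℝ => -(1 - r ^ 2) ^ (p + 1) / (2 * (p + 1))) (Icc 0 1) :=
    ((cont_pow (q := p + 1) (by linarith)).neg.div_const _).continuousOn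
  refine intervalIntegral.integrableOn_deriv_of_nonneg hc (fun r hr => deriv_rad hp hr) ?_
  intro r hr
  have hpos : 0 < 1 - r ^ 2 := by nlinarith only [hr.1, hr.2]
  exact mul_nonneg hr.1.le (Real.rpow_nonneg hpos.le _)

theorem rad_int {p : ℝ} (hp : -1 < p) (k : ℕ) :
    IntervalIntegrable (fun r : ℝ => r ^ (k + 1) * (1 - r ^ 2) ^ p) volume 0 1 := by
  have h := (rad_int_zero hp).continuousOn_mul
    (g := fun r : ℝ => r ^ k) (continuous_pow k).continuousOn
  have e : (fun r : ℝ => r ^ (k + 1) * (1 - r ^ 2) ^ p)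
      = fun r : ℝ => r ^ k * (r * (1 - r ^ 2) ^ p) := by
    funext r
    ring
  rw [e]
  exact h

theorem J_zero' {p : ℝ} (hp : -1 < p) : J p 0 = 1 / (2 * (p + 1)) := by
  have hc : ContinuousOn (fun r : ℝ => -(1 - r ^ 2) ^ (p + 1) / (2 * (p + 1))) (Icc 0 1) :=
    ((cont_pow (q := p + 1) (by linarith)).neg.div_const _).continuousOn
  have h := intervalIntegral.integral_eq_sub_of_hasDerivAt_of_le zero_le_one hc
    (fun r hr => deriv_rad hp hr) (rad_int_zero hp)
  have e : J p 0 = ∫ r in (0:ℝ)..1, r * (1 - r ^ 2) ^ p := by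
    unfold J
    simp
  rw [e, h]
  have hp1 : p + 1 ≠ 0 := by linarith only [hp]
  have h0 : (0:ℝ) ^ (p + 1) = 0 := Real.zero_rpow hp1
  rw [show (1:ℝ) - 1 ^ 2 = 0 by norm_num, show (1:ℝ) - 0 ^ 2 = 1 by norm_num, h0, Real.one_rpow]
  field_simp
  ring

theorem J_step {p : ℝ} (hp : -1 < p) (m : ℕ) :
    (p + 1) * J p (m + 1) = ((m : ℝ) + 1) * J (p + 1) m := by
  have hd : ∀ r ∈ Ioo (0:ℝ) 1,
      HasDerivAt (fun r : ℝ => r ^ (2 * m + 2) * (1 - r ^ 2) ^ (p + 1))
      ((2 * m + 2) * (r ^ (2 * m + 1) * (1 - r ^ 2) ^ (p + 1))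
        - (2 * p + 2) * (r ^ (2 * (m + 1) + 1) * (1 - r ^ 2) ^ p)) r := by
    intro r hr
    have hpos : 0 < 1 - r ^ 2 := by nlinarith only [hr.1, hr.2]
    have h1 : HasDerivAt (fun r : ℝ => 1 - r ^ 2) (-(2 * r)) r := by
      have := (hasDerivAt_pow 2 r).const_sub 1
      simpa using this
    have h2 := h1.rpow_const (p := p + 1) (Or.inl hpos.ne')
    have h3 : HasDerivAt (fun r : ℝ => r ^ (2 * m + 2) * (1 - r ^ 2) ^ (p + 1))
        (((2 * m + 2 : ℕ) : ℝ) * r ^ (2 * m + 2 - 1) * (1 - r ^ 2) ^ (p + 1)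
          + r ^ (2 * m + 2) * (-(2 * r) * (p + 1) * (1 - r ^ 2) ^ (p + 1 - 1))) r :=
      (hasDerivAt_pow (2 * m + 2) r).mul h2
    refine h3.congr_deriv ?_
    rw [show p + 1 - 1 = p by ring, show 2 * m + 2 - 1 = 2 * m + 1 by omega]
    push_cast
    ring
  have hc : ContinuousOn (fun r : ℝ => r ^ (2 * m + 2) * (1 - r ^ 2) ^ (p + 1)) (Icc 0 1) :=
    ((continuous_pow _).mul (cont_pow (q := p + 1) (by linarith))).continuousOn
  have c1 : IntervalIntegrable (fun r : ℝ => (2 * (m:ℝ) + 2)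
      * (r ^ (2 * m + 1) * (1 - r ^ 2) ^ (p + 1))) volume 0 1 :=
    (rad_int (p := p + 1) (by linarith) (2 * m)).const_mul _
  have c2 : IntervalIntegrable (fun r : ℝ => (2 * p + 2)
      * (r ^ (2 * (m + 1) + 1) * (1 - r ^ 2) ^ p)) volume 0 1 :=
    (rad_int hp (2 * (m + 1))).const_mul _
  have h := intervalIntegral.integral_eq_sub_of_hasDerivAt_of_le zero_le_one hc hd (c1.sub c2)
  rw [intervalIntegral.integral_sub c1 c2,
    intervalIntegral.integral_const_mul, intervalIntegral.integral_const_mul] at h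
  have hp1 : p + 1 ≠ 0 := by linarith
  have h0 : (0:ℝ) ^ (p + 1) = 0 := Real.zero_rpow hp1
  have h5 : (1:ℝ) ^ (2 * m + 2) * (1 - 1 ^ 2) ^ (p + 1) - 0 ^ (2 * m + 2) * (1 - 0 ^ 2) ^ (p + 1)
      = 0 := by
    rw [show (1:ℝ) - 1 ^ 2 = 0 by norm_num, h0, zero_pow (by omega)]
    ring
  rw [h5] at h
  change (2 * (m:ℝ) + 2) * J (p + 1) m - (2 * p + 2) * J p (m + 1) = 0 at h
  linarith only [h]

theorem J_eq' {p : ℝ} (hp : -1 < p) (m : ℕ) : J p m = ((p + 1) * pq (p + 2) m)⁻¹ / 2 := by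
  have hp1 : 0 < p + 1 := by linarith
  cases m with
  | zero =>
    rw [J_zero' hp, pq_zero]
    field_simp
  | succ m =>
    have h1 := J_step hp m
    rw [J_eq (p := p + 1) hp1.le] at h1
    have h2 := pq_shift (p + 2) m
    have e1 : p + 1 + 2 = p + 2 + 1 := by ring
    have e2 : p + 1 + 1 = p + 2 := by ring
    rw [e1, e2] at h1
    have h3 : (0:ℝ) < pq (p + 2 + 1) m := pq_pos (by linarith only [hp1]) m
    have h4 : (0:ℝ) < (m : ℝ) + 1 := by positivity
    have h5 : (0:ℝ) < pq (p + 2) (m + 1) := pq_pos (by linarith only [hp1]) _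
    have h6 : (0:ℝ) < p + 2 := by linarith only [hp1]
    have h7 : J p (m + 1) = ((m : ℝ) + 1) * (((p + 2) * pq (p + 2 + 1) m)⁻¹ / 2) / (p + 1) := by
      rw [eq_div_iff hp1.ne']
      linarith only [h1]
    rw [h7, ← h2]
    field_simp

/-- the weight is integrable -/
theorem w_int {p : ℝ} (hp : -1 < p) :
    IntegrableOn (fun z : ℂ => ((1 - ‖z‖ ^ 2) ^ p : ℝ)) (closedBall (0 : ℂ) 1) := by
  have h1 : Integrable (fun z : ℂ => (Iic (1:ℝ)).indicator (fun r : ℝ => (1 - r ^ 2) ^ p) ‖z‖)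
      volume := by
    rw [integrable_fun_norm_addHaar (μ := (volume : Measure ℂ))
      (f := (Iic (1:ℝ)).indicator (fun r : ℝ => (1 - r ^ 2) ^ p))]
    have e : (fun y : ℝ => y ^ (Module.finrank ℝ ℂ - 1)
        • (Iic (1:ℝ)).indicator (fun r : ℝ => (1 - r ^ 2) ^ p) y)
        = (Iic (1:ℝ)).indicator (fun r : ℝ => r * (1 - r ^ 2) ^ p) := by
      funext y
      rw [Complex.finrank_real_complex]
      by_cases hy : y ∈ Iic (1:ℝ)
      · rw [indicator_of_mem hy, indicator_of_mem hy]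
        simp
      · rw [indicator_of_notMem hy, indicator_of_notMem hy, smul_zero]
    rw [e, IntegrableOn, integrable_indicator_iff measurableSet_Iic]
    have h2 := rad_int_zero hp
    rw [intervalIntegrable_iff_integrableOn_Ioc_of_le zero_le_one] at h2
    rw [IntegrableOn, Measure.restrict_restrict measurableSet_Iic]
    rw [inter_comm, Ioi_inter_Iic]
    exact h2
  have h3 : (fun z : ℂ => (Iic (1:ℝ)).indicator (fun r : ℝ => (1 - r ^ 2) ^ p) ‖z‖)
      = (closedBall (0 : ℂ) 1).indicator (fun z : ℂ => ((1 - ‖z‖ ^ 2) ^ p : ℝ)) := by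
    funext z
    by_cases hz : ‖z‖ ≤ 1
    · rw [indicator_of_mem (by exact hz), indicator_of_mem (by simpa using hz)]
    · rw [indicator_of_notMem (by exact hz), indicator_of_notMem (by simpa using hz)]
  rw [h3, integrable_indicator_iff measurableSet_closedBall] at h1
  exact h1

/-- the weight times a continuous function is integrable -/
theorem wf_int {p : ℝ} (hp : -1 < p) {f : ℂ → ℝ} (hf : ContinuousOn f (closedBall 0 1)) :
    IntegrableOn (fun z : ℂ => (1 - ‖z‖ ^ 2) ^ p * f z) (ball (0 : ℂ) 1) :=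
  ((w_int hp).mul_continuousOn hf (isCompact_closedBall 0 1)).mono_set ball_subset_closedBall

theorem wfc_int {p : ℝ} (hp : -1 < p) {f : ℂ → ℂ} (hf : ContinuousOn f (closedBall 0 1)) :
    IntegrableOn (fun z : ℂ => (((1 - ‖z‖ ^ 2) ^ p : ℝ) : ℂ) * f z) (ball (0 : ℂ) 1) :=
  (IntegrableOn.mul_continuousOn (Integrable.ofReal (w_int hp)) hf
    (isCompact_closedBall 0 1)).mono_set ball_subset_closedBall

/-- the integral of a monomial -/
theorem mono_int' {p : ℝ} (hp : -1 < p) (m n : ℕ) :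
    ∫ z in ball (0 : ℂ) 1, (((1 - ‖z‖ ^ 2) ^ p : ℝ) : ℂ) * (z ^ m * conj z ^ n)
      = if m = n then ((π * ((p + 1) * pq (p + 2) m)⁻¹ : ℝ) : ℂ) else 0 := by
  have hsplit : ∀ q ∈ polarCoord.target,
      q.1 • (ball (0 : ℂ) 1).indicator
        (fun z : ℂ => (((1 - ‖z‖ ^ 2) ^ p : ℝ) : ℂ) * (z ^ m * conj z ^ n))
        (Complex.polarCoord.symm q)
      = (Ioo (0:ℝ) 1 ×ˢ Ioo (-π) π).indicator (fun q : ℝ × ℝ =>
          ((q.1 ^ (m + n + 1) * (1 - q.1 ^ 2) ^ p : ℝ) : ℂ)
            * Complex.exp (((m : ℤ) - (n : ℤ) : ℤ) * (q.2 : ℂ) * Complex.I)) q := by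
    rintro ⟨r, θ⟩ hq
    rw [polarCoord_target] at hq
    obtain ⟨hr, hθ⟩ := hq
    have hr0 : 0 < r := hr
    have hz : (Complex.polarCoord.symm (r, θ) : ℂ) = (r : ℂ) * Complex.exp ((θ : ℂ) * Complex.I) := by
      rw [Complex.polarCoord_symm_apply, Complex.exp_mul_I]
      simp
    have hnorm : ‖(Complex.polarCoord.symm (r, θ) : ℂ)‖ = r := by
      rw [Complex.norm_polarCoord_symm]
      exact abs_of_pos hr0
    by_cases h1 : r < 1
    · have hmem : ((r, θ) : ℝ × ℝ) ∈ (Ioo (0:ℝ) 1 ×ˢ Ioo (-π) π : Set (ℝ × ℝ)) :=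
        ⟨⟨hr0, h1⟩, hθ⟩
      rw [indicator_of_mem (by rw [mem_ball_zero_iff, hnorm]; exact h1), indicator_of_mem hmem]
      rw [hnorm, hz]
      simp only [map_mul, Complex.conj_ofReal]
      rw [← Complex.exp_conj]
      simp only [map_mul, Complex.conj_ofReal, Complex.conj_I]
      rw [mul_pow, mul_pow, ← Complex.exp_nat_mul, ← Complex.exp_nat_mul]
      have h5 : Complex.exp (((m : ℤ) - (n : ℤ) : ℤ) * (θ : ℂ) * Complex.I)
          = Complex.exp ((m : ℂ) * ((θ : ℂ) * Complex.I))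
            * Complex.exp ((n : ℂ) * ((θ : ℂ) * -Complex.I)) := by
        rw [← Complex.exp_add]
        congr 1
        push_cast
        ring
      rw [h5]
      simp only [Complex.real_smul]
      push_cast
      ring
    · have hmem : ((r, θ) : ℝ × ℝ) ∉ (Ioo (0:ℝ) 1 ×ˢ Ioo (-π) π : Set (ℝ × ℝ)) :=
        fun h => h1 h.1.2
      rw [indicator_of_notMem (by rw [mem_ball_zero_iff, hnorm]; exact h1),
        indicator_of_notMem hmem, smul_zero]
  rw [← integral_indicator measurableSet_ball, ← Complex.integral_comp_polarCoord_symm,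
    setIntegral_congr_fun polarCoord.open_target.measurableSet hsplit,
    setIntegral_indicator (measurableSet_Ioo.prod measurableSet_Ioo)]
  have hinter : polarCoord.target ∩ (Ioo (0:ℝ) 1 ×ˢ Ioo (-π) π) = Ioo (0:ℝ) 1 ×ˢ Ioo (-π) π := by
    rw [polarCoord_target]
    apply inter_eq_self_of_subset_right
    exact prod_mono Ioo_subset_Ioi_self Subset.rfl
  rw [hinter, Measure.volume_eq_prod]
  rw [setIntegral_prod_mul (fun r : ℝ => ((r ^ (m + n + 1) * (1 - r ^ 2) ^ p : ℝ) : ℂ))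
    (fun θ : ℝ => Complex.exp (((m : ℤ) - (n : ℤ) : ℤ) * (θ : ℂ) * Complex.I))]
  by_cases hmn : m = n
  · subst hmn
    rw [if_pos rfl]
    have h1 : ∫ θ in Ioo (-π) π, Complex.exp (((m : ℤ) - (m : ℤ) : ℤ) * (θ : ℂ) * Complex.I)
        = ((2 * π : ℝ) : ℂ) := by
      simp only [sub_self, Int.cast_zero, zero_mul, Complex.exp_zero]
      rw [setIntegral_const, Real.volume_real_Ioo_of_le (by linarith [Real.pi_pos])]
      simp only [sub_neg_eq_add, Complex.real_smul, mul_one]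
      push_cast
      ring
    have h2 : ∫ r in Ioo (0:ℝ) 1, ((r ^ (m + m + 1) * (1 - r ^ 2) ^ p : ℝ) : ℂ) = ((J p m : ℝ) : ℂ) := by
      rw [integral_complex_ofReal]
      congr 1
      unfold J
      rw [intervalIntegral.integral_of_le (by norm_num), integral_Ioc_eq_integral_Ioo]
      rw [show m + m + 1 = 2 * m + 1 by ring]
    rw [h1, h2, J_eq' hp]
    push_cast
    ring
  · rw [if_neg hmn, exp_int _ (sub_ne_zero.mpr (by exact_mod_cast hmn)), mul_zero]

end RelS

open RelS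

open Pool.Agent.M16.Helper39.MH.Bridge (hasSum_c summable_c) in
theorem bridge_s {ρ : ℝ} (hρ : 1 < ρ) {F K : ℂ → ℂ} (hF : DifferentiableOn ℂ F (ball 0 ρ))
    (hK : DifferentiableOn ℂ K (ball 0 ρ)) {p : ℝ} (hp : -1 < p) (ζ : ℂ) :
    HasSum (fun m : ℕ => ((p + 1) * pq (p + 2) m)⁻¹ * (ζ * (coeff F m * conj (coeff K m))).re)
      ((1 / π) * ∫ z in ball (0 : ℂ) 1, (1 - ‖z‖ ^ 2) ^ p * (ζ * (F z * conj (K z))).re) := by
  have hsF : Summable (fun n => ‖coeff F n‖) := by
    simpa using summable_c hF (r := 1) zero_le_one hρ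
  have hsK : Summable (fun n => ‖coeff K n‖) := by
    simpa using summable_c hK (r := 1) zero_le_one hρ
  -- the double series
  let T : ℕ × ℕ → ℂ → ℂ := fun q z =>
    (((1 - ‖z‖ ^ 2) ^ p : ℝ) : ℂ) * ((coeff F q.1 * z ^ q.1) * conj (coeff K q.2 * z ^ q.2))
  have hTi : ∀ q, IntegrableOn (T q) (ball (0 : ℂ) 1) := by
    intro q
    refine wfc_int hp (f := fun z => (coeff F q.1 * z ^ q.1) * conj (coeff K q.2 * z ^ q.2)) ?_
    exact ((((continuous_const.mul (continuous_pow _))).mul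
      (Complex.continuous_conj.comp (continuous_const.mul (continuous_pow _))))).continuousOn
  have hpt : ∀ z ∈ ball (0 : ℂ) 1, HasSum (fun q => T q z)
      ((((1 - ‖z‖ ^ 2) ^ p : ℝ) : ℂ) * (F z * conj (K z))) := by
    intro z hz
    have hz1 : ‖z‖ < 1 := mem_ball_zero_iff.mp hz
    have h1 := hasSum_c hF (z := z) (by linarith)
    have h2 := (hasSum_c hK (z := z) (by linarith)).map (starRingEnd ℂ) Complex.continuous_conj
    have h2' : HasSum (fun n => conj (coeff K n * z ^ n)) (conj (K z)) := h2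
    have hn1 : Summable (fun n => ‖coeff F n * z ^ n‖) := h1.summable.norm
    have hn2 : Summable (fun n => ‖conj (coeff K n * z ^ n)‖) := h2'.summable.norm
    have h3 := Pool.Agent.M16.Helper22.Marshall.hasSum_mul_aux (fun n => coeff F n * z ^ n)
      (fun n => conj (coeff K n * z ^ n)) (F z) (conj (K z)) h1 h2' hn1 hn2
    exact h3.mul_left (((1 - ‖z‖ ^ 2) ^ p : ℝ) : ℂ)
  set W : ℝ := ∫ z in ball (0 : ℂ) 1, ((1 - ‖z‖ ^ 2) ^ p : ℝ) with hW
  have hwi : IntegrableOn (fun z : ℂ => ((1 - ‖z‖ ^ 2) ^ p : ℝ)) (ball (0 : ℂ) 1) :=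
    (w_int hp).mono_set ball_subset_closedBall
  have hbound : ∀ q, ∫ z in ball (0 : ℂ) 1, ‖T q z‖ ≤ W * (‖coeff F q.1‖ * ‖coeff K q.2‖) := by
    intro q
    have h1 : ∀ z ∈ ball (0 : ℂ) 1, ‖T q z‖
        ≤ ((1 - ‖z‖ ^ 2) ^ p : ℝ) * (‖coeff F q.1‖ * ‖coeff K q.2‖) := by
      intro z hz
      have hz1 : ‖z‖ < 1 := mem_ball_zero_iff.mp hz
      have hz0 := norm_nonneg z
      have hnn : 0 ≤ ((1 - ‖z‖ ^ 2) ^ p : ℝ) := Real.rpow_nonneg (by nlinarith only [hz1, hz0]) _
      have h3 : ‖(((1 - ‖z‖ ^ 2) ^ p : ℝ) : ℂ)‖ = ((1 - ‖z‖ ^ 2) ^ p : ℝ) := by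
        rw [Complex.norm_real, Real.norm_of_nonneg hnn]
      have h4 : ∀ k : ℕ, ‖z‖ ^ k ≤ 1 := fun k => pow_le_one₀ hz0 hz1.le
      simp only [T, norm_mul, Complex.norm_conj, norm_pow]
      rw [h3]
      have h5 : ‖coeff F q.1‖ * ‖z‖ ^ q.1 ≤ ‖coeff F q.1‖ :=
        mul_le_of_le_one_right (norm_nonneg _) (h4 _)
      have h6 : ‖coeff K q.2‖ * ‖z‖ ^ q.2 ≤ ‖coeff K q.2‖ :=
        mul_le_of_le_one_right (norm_nonneg _) (h4 _)
      exact mul_le_mul_of_nonneg_left (mul_le_mul h5 h6 (by positivity) (norm_nonneg _)) hnn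
    have h2 := setIntegral_mono_on (hTi q).norm (hwi.mul_const _) measurableSet_ball h1
    refine h2.trans (le_of_eq ?_)
    rw [integral_mul_const]
  have hsum : HasSum (fun q => ∫ z in ball (0 : ℂ) 1, T q z)
      (∫ z in ball (0 : ℂ) 1, (((1 - ‖z‖ ^ 2) ^ p : ℝ) : ℂ) * (F z * conj (K z))) := by
    have h1 := hasSum_integral_of_summable_integral_norm (μ := volume.restrict (ball (0 : ℂ) 1))
      (F := T) hTi (Summable.of_nonneg_of_le
        (fun q => integral_nonneg fun z => norm_nonneg _) hbound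
        ((summable_mul_of_summable_norm (f := fun n => ‖coeff F n‖) (g := fun n => ‖coeff K n‖)
          (by simpa using hsF) (by simpa using hsK)).mul_left W))
    have h2 : ∫ z in ball (0 : ℂ) 1, ∑' q, T q z
        = ∫ z in ball (0 : ℂ) 1, (((1 - ‖z‖ ^ 2) ^ p : ℝ) : ℂ) * (F z * conj (K z)) := by
      apply setIntegral_congr_fun measurableSet_ball
      intro z hz
      exact (hpt z hz).tsum_eq
    rw [h2] at h1
    exact h1
  have hval : ∀ q : ℕ × ℕ, ∫ z in ball (0 : ℂ) 1, T q z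
      = if q.1 = q.2 then ((π * ((p + 1) * pq (p + 2) q.1)⁻¹ : ℝ) : ℂ)
          * (coeff F q.1 * conj (coeff K q.1)) else 0 := by
    rintro ⟨m, n⟩
    have h1 : ∀ z : ℂ, T (m, n) z = (coeff F m * conj (coeff K n))
        * ((((1 - ‖z‖ ^ 2) ^ p : ℝ) : ℂ) * (z ^ m * conj z ^ n)) := by
      intro z
      simp only [T, map_mul, map_pow]
      ring
    simp_rw [h1]
    rw [integral_const_mul, mono_int' hp]
    by_cases hmn : m = n
    · subst hmn
      simp only [if_true]
      ring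
    · simp only [if_neg hmn, mul_zero]
  simp_rw [hval] at hsum
  have hdiag : HasSum (fun n : ℕ => ((π * ((p + 1) * pq (p + 2) n)⁻¹ : ℝ) : ℂ)
      * (coeff F n * conj (coeff K n)))
      (∫ z in ball (0 : ℂ) 1, (((1 - ‖z‖ ^ 2) ^ p : ℝ) : ℂ) * (F z * conj (K z))) := by
    have hinj : Function.Injective (fun n : ℕ => (n, n)) := by
      intro a b h
      exact (Prod.mk.inj h).1
    have := (hinj.hasSum_iff (f := fun q : ℕ × ℕ =>
      if q.1 = q.2 then ((π * ((p + 1) * pq (p + 2) q.1)⁻¹ : ℝ) : ℂ)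
          * (coeff F q.1 * conj (coeff K q.1)) else 0)
      (a := ∫ z in ball (0 : ℂ) 1, (((1 - ‖z‖ ^ 2) ^ p : ℝ) : ℂ) * (F z * conj (K z))) ?_).mpr hsum
    · simpa [Function.comp_def] using this
    · rintro ⟨a, b⟩ hab
      rw [if_neg]
      intro h
      apply hab
      refine ⟨a, ?_⟩
      simp only [Prod.mk.injEq, true_and]
      exact h
  have hre := Complex.hasSum_re (hdiag.mul_left ζ)
  have hcF : ContinuousOn F (closedBall 0 1) := hF.continuousOn.mono (closedBall_subset_ball hρ)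
  have hcK : ContinuousOn K (closedBall 0 1) := hK.continuousOn.mono (closedBall_subset_ball hρ)
  have hInt : IntegrableOn (fun z => ζ * ((((1 - ‖z‖ ^ 2) ^ p : ℝ) : ℂ) * (F z * conj (K z))))
      (ball (0 : ℂ) 1) :=
    (wfc_int hp (hcF.mul (Complex.continuous_conj.comp_continuousOn hcK))).const_mul ζ
  have h3 : (ζ * ∫ z in ball (0 : ℂ) 1, (((1 - ‖z‖ ^ 2) ^ p : ℝ) : ℂ) * (F z * conj (K z))).re
      = ∫ z in ball (0 : ℂ) 1, (1 - ‖z‖ ^ 2) ^ p * (ζ * (F z * conj (K z))).re := by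
    have h4 := integral_re (μ := volume.restrict (ball (0 : ℂ) 1)) hInt
    have h5 : ∀ z : ℂ, RCLike.re (ζ * ((((1 - ‖z‖ ^ 2) ^ p : ℝ) : ℂ) * (F z * conj (K z))))
        = (1 - ‖z‖ ^ 2) ^ p * (ζ * (F z * conj (K z))).re := by
      intro z
      rw [mul_left_comm]
      exact Complex.re_ofReal_mul _ _
    simp_rw [h5] at h4
    rw [integral_const_mul] at h4
    exact h4.symm
  rw [h3] at hre
  have h6 := hre.mul_left (1 / π)
  have h7 : (fun m : ℕ => ((p + 1) * pq (p + 2) m)⁻¹ * (ζ * (coeff F m * conj (coeff K m))).re)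
      = fun n : ℕ => 1 / π * (ζ * (((π * ((p + 1) * pq (p + 2) n)⁻¹ : ℝ) : ℂ)
        * (coeff F n * conj (coeff K n)))).re := by
    funext n
    rw [re_swap]
    have hpi := Real.pi_pos
    field_simp
  rw [h7]
  exact h6

namespace RelS

theorem FA_diff (s : ℂ) {H : ℂ → ℂ} {ρ : ℝ} (hρ : 0 < ρ) (hH : DifferentiableOn ℂ H (ball 0 ρ))
    (A : List ℕ) : DifferentiableOn ℂ (FA s H A) (ball 0 ρ) :=
  exp_ev_diff_s s hρ hH A

theorem th_FA (s : ℂ) {H : ℂ → ℂ} {ρ : ℝ} (hρ : 0 < ρ) (hH : DifferentiableOn ℂ H (ball 0 ρ))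
    {z : ℂ} (hz : z ∈ ball (0 : ℂ) ρ) (A : List ℕ) :
    th (FA s H A) z = Complex.exp (s * H z) * DGs s (fun k => gg H k z) A :=
  th_ev_s s hρ hH hz A

theorem hprod (ζ g a c : ℂ) (x y : ℝ) : ‖g‖ ^ 2 * (ζ * (((x : ℂ) * a) * conj ((y : ℂ) * c))).re
    = x * y * (ζ * ((g * a) * conj (g * c))).re := by
  have h1 : (g * a) * conj (g * c) = ((‖g‖ ^ 2 : ℝ) : ℂ) * (a * conj c) := by
    rw [map_mul]
    have := Complex.mul_conj g
    rw [Complex.normSq_eq_norm_sq] at this
    rw [← this]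
    ring
  have h2 : ((x : ℂ) * a) * conj ((y : ℂ) * c) = ((x * y : ℝ) : ℂ) * (a * conj c) := by
    rw [map_mul, Complex.conj_ofReal]
    push_cast
    ring
  rw [h1, h2, re_swap, re_swap]
  ring

theorem rpow_shift {b t : ℝ} (ht : 0 < t) (n : ℕ) : t ^ (b - 1) * t ^ n = t ^ (b - 1 + n) := by
  rw [Real.rpow_add ht, Real.rpow_natCast]

/-- pointwise form of the density times a product -/
theorem dens_eq (s ζ : ℂ) (H : ℂ → ℂ) (b : ℝ) (A B : List ℕ) {z : ℂ} (hz : z ∈ ball (0 : ℂ) 1) :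
    (1 - ‖z‖ ^ 2) ^ (b - 1) * ‖Complex.exp (s * H z)‖ ^ 2
      * (ζ * (ev (cc H z) A * conj (ev (cc H z) B))).re
    = (1 - ‖z‖ ^ 2) ^ (b - 1 + wt A + wt B) * (ζ * (FA s H A z * conj (FA s H B z))).re := by
  have hz1 : ‖z‖ < 1 := by simpa using hz
  have ht : 0 < 1 - ‖z‖ ^ 2 := by nlinarith [norm_nonneg z]
  rw [ev_cc, ev_cc, mul_assoc, hprod]
  have h3 : (b - 1 + wt A + wt B : ℝ) = b - 1 + ((wt A + wt B : ℕ) : ℝ) := by
    push_cast; ring
  rw [h3, ← rpow_shift ht, pow_add]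
  unfold FA
  ring

theorem dens_eq1 (s ζ : ℂ) (H : ℂ → ℂ) (b : ℝ) (A B : List ℕ) {z : ℂ} (hz : z ∈ ball (0 : ℂ) 1) :
    (1 - ‖z‖ ^ 2) ^ (b - 1) * ‖Complex.exp (s * H z)‖ ^ 2
      * ((1 - ‖z‖ ^ 2) * (ζ * (ev (cc H z) A * conj (ev (cc H z) B))).re)
    = (1 - ‖z‖ ^ 2) ^ (b + wt A + wt B) * (ζ * (FA s H A z * conj (FA s H B z))).re := by
  have hz1 : ‖z‖ < 1 := by simpa using hz
  have ht : 0 < 1 - ‖z‖ ^ 2 := by nlinarith only [norm_nonneg z, hz1]
  have h1 := dens_eq s ζ H b A B hz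
  have h2 : (1 - ‖z‖ ^ 2) ^ (b + wt A + wt B)
      = (1 - ‖z‖ ^ 2) ^ (b - 1 + wt A + wt B) * (1 - ‖z‖ ^ 2) := by
    have e : b + wt A + wt B = (b - 1 + wt A + wt B) + 1 := by ring
    rw [e, Real.rpow_add ht, Real.rpow_one]
  rw [h2]
  linear_combination (1 - ‖z‖ ^ 2) * h1

theorem dens_eqD (s ζ : ℂ) {H : ℂ → ℂ} (b : ℝ) (A B : List ℕ) {ρ : ℝ} (hρ : 1 < ρ)
    (hH : DifferentiableOn ℂ H (ball 0 ρ)) {z : ℂ} (hz : z ∈ ball (0 : ℂ) 1) :
    (1 - ‖z‖ ^ 2) ^ (b - 1) * ‖Complex.exp (s * H z)‖ ^ 2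
      * (ζ * (DGs s (cc H z) A * conj (ev (cc H z) B))).re
    = (1 - ‖z‖ ^ 2) ^ (b + wt A + wt B) * (ζ * (th (FA s H A) z * conj (FA s H B z))).re := by
  have hz1 : ‖z‖ < 1 := by simpa using hz
  have ht : 0 < 1 - ‖z‖ ^ 2 := by nlinarith [norm_nonneg z]
  have hzρ : z ∈ ball (0 : ℂ) ρ := ball_subset_ball hρ.le hz
  rw [DGs_cc, ev_cc, mul_assoc, hprod, th_FA s (by linarith only [hρ]) hH hzρ]
  have h3 : (b + wt A + wt B : ℝ) = b - 1 + ((wt A + 1 + wt B : ℕ) : ℝ) := by
    push_cast; ring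
  rw [h3, ← rpow_shift ht, pow_add _ (wt A + 1) (wt B)]
  unfold FA
  ring

/-- integration by parts in terms of the coefficients -/
theorem parts_s {ρ : ℝ} (hρ : 1 < ρ) {F K : ℂ → ℂ} (hF : DifferentiableOn ℂ F (ball 0 ρ))
    (hK : DifferentiableOn ℂ K (ball 0 ρ)) {p : ℝ} (hp0 : 0 < p) (ζ : ℂ) :
    (1 / π) * (∫ z in ball (0 : ℂ) 1, (1 - ‖z‖ ^ 2) ^ p * (ζ * (th F z * conj (K z))).re)
        - p * ((1 / π) * ∫ z in ball (0 : ℂ) 1, (1 - ‖z‖ ^ 2) ^ (p - 1)
            * (ζ * (F z * conj (K z))).re)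
      = -(p + 1) * ((1 / π) * ∫ z in ball (0 : ℂ) 1, (1 - ‖z‖ ^ 2) ^ p
            * (ζ * (F z * conj (K z))).re) := by
  have hpm : -1 < p - 1 := by linarith
  have hpp : -1 < p := by linarith
  have hT : DifferentiableOn ℂ (th F) (ball 0 ρ) := th_diff hF
  have b1 := bridge_s hρ hT hK hpp ζ
  have b2 := (bridge_s hρ hF hK hpm ζ).mul_left p
  have b3 := (bridge_s hρ hF hK hpp ζ).mul_left (-(p + 1))
  have hF1 : DifferentiableOn ℂ F (ball 0 1) := hF.mono (ball_subset_ball hρ.le)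
  have hfe : (fun m : ℕ => ((p + 1) * pq (p + 2) m)⁻¹
        * (ζ * (coeff (th F) m * conj (coeff K m))).re
      - p * (((p - 1 + 1) * pq (p - 1 + 2) m)⁻¹ * (ζ * (coeff F m * conj (coeff K m))).re))
      = fun m : ℕ => -(p + 1) * (((p + 1) * pq (p + 2) m)⁻¹
        * (ζ * (coeff F m * conj (coeff K m))).re) := by
    funext m
    rw [coeff_th hF1 m]
    have h4 : (ζ * ((m : ℂ) * coeff F m * conj (coeff K m))).re
        = m * (ζ * (coeff F m * conj (coeff K m))).re := by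
      have e1 : ζ * ((m : ℂ) * coeff F m * conj (coeff K m))
          = ((m : ℝ) : ℂ) * (ζ * (coeff F m * conj (coeff K m))) := by
        push_cast
        ring
      rw [e1, Complex.re_ofReal_mul]
    rw [h4]
    have h5 := pq_add_one (p + 1) m
    have h6 : 0 < pq (p + 1) m := pq_pos (by linarith) m
    have h8 : (p + 1 + 1 : ℝ) = p + 2 := by ring
    have h9 : (p - 1 + 2 : ℝ) = p + 1 := by ring
    have h10 : (p - 1 + 1 : ℝ) = p := by ring
    rw [h8] at h5
    rw [h9, h10]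
    have hp1' : (p + 1 : ℝ) ≠ 0 := by linarith
    have hp0' : (p : ℝ) ≠ 0 := by linarith
    have h11 : ((p + 1) * pq (p + 2) m)⁻¹ = (pq (p + 1) m)⁻¹ * (p + 1 + m)⁻¹ := by
      rw [h5, mul_inv]
    have h12 : (p + 1 + m : ℝ) ≠ 0 := by positivity
    rw [h11]
    field_simp
    ring
  have b4 := b1.sub b2
  rw [hfe] at b4
  exact b4.unique b3

theorem cont_prod {ρ : ℝ} (hρ : 1 < ρ) {F K : ℂ → ℂ} (hF : DifferentiableOn ℂ F (ball 0 ρ))
    (hK : DifferentiableOn ℂ K (ball 0 ρ)) (ζ : ℂ) :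
    ContinuousOn (fun z : ℂ => (ζ * (F z * conj (K z))).re) (closedBall (0 : ℂ) 1) := by
  have hsub : closedBall (0 : ℂ) 1 ⊆ ball 0 ρ := closedBall_subset_ball hρ
  refine Complex.continuous_re.comp_continuousOn ?_
  refine continuousOn_const.mul ((hF.continuousOn.mono hsub).mul ?_)
  exact Complex.continuous_conj.comp_continuousOn (hK.continuousOn.mono hsub)

end RelS

theorem cross_sum_s {ρ : ℝ} {β H : ℂ → ℂ} {Φ : ℂ → ℂ → ℂ} (h : Dat ρ β H Φ) {b : ℝ}
    (hb : 0 < b) (s ζ : ℂ) (A B : List ℕ) :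
    HasSum (fun m : ℕ => ((b + wt A + wt B) * pq (b + wt A + wt B + 1) m)⁻¹
      * (ζ * (coeff (FA s H A) m * conj (coeff (FA s H B) m))).re)
      (LS s H b (fun z => (ζ * (ev (cc H z) A * conj (ev (cc H z) B))).re)) := by
  have hρ := h.one_lt
  have hwA : (0 : ℝ) ≤ wt A := Nat.cast_nonneg _
  have hwB : (0 : ℝ) ≤ wt B := Nat.cast_nonneg _
  have hp : -1 < b - 1 + wt A + wt B := by linarith
  have h1 := bridge_s hρ (FA_diff s (by linarith) h.diff A) (FA_diff s (by linarith) h.diff B) hp ζ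
  have e1 : b - 1 + wt A + wt B + 1 = b + wt A + wt B := by ring
  have e2 : b - 1 + wt A + wt B + 2 = b + wt A + wt B + 1 := by ring
  rw [e1, e2] at h1
  have e3 : LS s H b (fun z => (ζ * (ev (cc H z) A * conj (ev (cc H z) B))).re)
      = (1 / π) * ∫ z in ball (0 : ℂ) 1, (1 - ‖z‖ ^ 2) ^ (b - 1 + wt A + wt B)
        * (ζ * (FA s H A z * conj (FA s H B z))).re := by
    unfold LS
    rw [setIntegral_congr_fun measurableSet_ball
      (fun z hz => dens_eq s ζ H b A B hz)]
  rw [e3]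
  exact h1

theorem relS_LS {ρ : ℝ} {β H : ℂ → ℂ} {Φ : ℂ → ℂ → ℂ} (h : Dat ρ β H Φ) {b : ℝ}
    (hb : 0 < b) (s ζ : ℂ) (A B : List ℕ) :
    LS s H b (fun z => (ζ * relS s b (cc H z) A B).re)
      = -(b + wt A + wt B + 1) * LS s H b (fun z => (1 - ‖z‖ ^ 2)
          * (ζ * (ev (cc H z) A * conj (ev (cc H z) B))).re) := by
  have hρ := h.one_lt
  have hwA : (0 : ℝ) ≤ wt A := Nat.cast_nonneg _
  have hwB : (0 : ℝ) ≤ wt B := Nat.cast_nonneg _
  have hFA := FA_diff s (by linarith only [hρ]) h.diff A (ρ := ρ)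
  have hFB := FA_diff s (by linarith) h.diff B (ρ := ρ)
  have hT : DifferentiableOn ℂ (th (FA s H A)) (ball 0 ρ) := th_diff hFA
  have hp0 : 0 < b + wt A + wt B := by linarith
  have hpp : -1 < b + wt A + wt B := by linarith
  have hpm : -1 < b + wt A + wt B - 1 := by linarith
  have e1 : ∀ z ∈ ball (0 : ℂ) 1, (1 - ‖z‖ ^ 2) ^ (b - 1) * ‖Complex.exp (s * H z)‖ ^ 2
      * (ζ * relS s b (cc H z) A B).re
        = (1 - ‖z‖ ^ 2) ^ (b + wt A + wt B) * (ζ * (th (FA s H A) z * conj (FA s H B z))).re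
        - (b + wt A + wt B) * ((1 - ‖z‖ ^ 2) ^ (b + wt A + wt B - 1)
          * (ζ * (FA s H A z * conj (FA s H B z))).re) := by
    intro z hz
    have h1 := dens_eqD s ζ b A B hρ h.diff hz
    have h2 := dens_eq s ζ H b A B hz
    have e2 : b + wt A + wt B - 1 = b - 1 + wt A + wt B := by ring
    rw [← h1, e2, ← h2]
    have e3 : (ζ * relS s b (cc H z) A B).re
        = (ζ * (DGs s (cc H z) A * conj (ev (cc H z) B))).re
          - (b + wt A + wt B) * (ζ * (ev (cc H z) A * conj (ev (cc H z) B))).re := by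
      unfold relS
      rw [mul_sub, Complex.sub_re, re_swap]
    rw [e3]
    ring
  have hL : LS s H b (fun z => (ζ * relS s b (cc H z) A B).re)
      = (1 / π) * (∫ z in ball (0 : ℂ) 1, (1 - ‖z‖ ^ 2) ^ (b + wt A + wt B)
          * (ζ * (th (FA s H A) z * conj (FA s H B z))).re)
        - (b + wt A + wt B) * ((1 / π) * ∫ z in ball (0 : ℂ) 1,
            (1 - ‖z‖ ^ 2) ^ (b + wt A + wt B - 1)
            * (ζ * (FA s H A z * conj (FA s H B z))).re) := by
    unfold LS
    rw [setIntegral_congr_fun measurableSet_ball e1,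
      integral_sub (wf_int hpp (cont_prod hρ hT hFB ζ))
        ((wf_int hpm (cont_prod hρ hFA hFB ζ)).const_mul _), integral_const_mul]
    ring
  have hR : LS s H b (fun z => (1 - ‖z‖ ^ 2) * (ζ * (ev (cc H z) A * conj (ev (cc H z) B))).re)
      = (1 / π) * ∫ z in ball (0 : ℂ) 1, (1 - ‖z‖ ^ 2) ^ (b + wt A + wt B)
        * (ζ * (FA s H A z * conj (FA s H B z))).re := by
    unfold LS
    rw [setIntegral_congr_fun measurableSet_ball (fun z hz => dens_eq1 s ζ H b A B hz)]
  rw [hL, hR]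
  exact parts_s hρ hFA hFB hp0 ζ

end Pool.Agent.M16.Helper24.HR2
end

/- Helper94.T.Helper39.MH.Weights -/
section
/-!
MP_16b0ee, project MH, module MH-12a: the weights of the orders, the weighted sums of the
coefficients.
-/

set_option autoImplicit false

open MeasureTheory Set Metric Filter Topology
open scoped Real ComplexConjugate

namespace Pool.Agent.M16.Helper39.MH

open Pool.Agent.M16.Helper22.Half
open Pool.Agent.M16.Helper22.Marshall (coeff SepHol LogPhi dcoeff GLe)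
open Pool.Agent.M16.Helper39.Area (Ext phi)

/-- the weight of the order `m` -/
noncomputable def Wt (b : ℝ) (m : ℕ) : ℝ := (m : ℝ) ^ 2 / pq (b + 3) m

namespace Weights

theorem quot_one (c : ℝ) : Tendsto (fun m : ℕ => (c + (m : ℝ)) / (m : ℝ)) atTop (𝓝 1) := by
  have h1 : Tendsto (fun m : ℕ => c / (m : ℝ) + 1) atTop (𝓝 (0 + 1)) :=
    (tendsto_const_div_atTop_nhds_zero_nat c).add_const 1
  rw [zero_add] at h1
  refine h1.congr' ?_
  filter_upwards [eventually_gt_atTop 0] with m hm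
  have hm' : (m : ℝ) ≠ 0 := by exact_mod_cast hm.ne'
  field_simp

theorem quot_inv (c : ℝ) : Tendsto (fun m : ℕ => (m : ℝ) / (c + (m : ℝ))) atTop (𝓝 1) := by
  have h1 := (quot_one c).inv₀ one_ne_zero
  rw [inv_one] at h1
  refine h1.congr fun m => ?_
  rw [inv_div]

theorem wt_base {b : ℝ} (hb : 0 < b) {m : ℕ} :
    Wt b m * (b * pq (b + 1) m)
      = b * (b + 1) * (b + 2) * ((m : ℝ) / (b + 1 + m)) * ((m : ℝ) / (b + 2 + m)) := by
  have h1 : pq (b + 3) m = pq (b + 1) m * ((b + 1 + m) / (b + 1)) * ((b + 2 + m) / (b + 2)) := by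
    have e1 := pq_add_one (b + 1) m
    have e2 := pq_add_one (b + 2) m
    rw [show b + 1 + 1 = b + 2 by ring] at e1
    rw [show b + 2 + 1 = b + 3 by ring] at e2
    have n1 : b + 1 ≠ 0 := by positivity
    have n2 : b + 2 ≠ 0 := by positivity
    field_simp
    linear_combination (b + 1) * e2 + (b + 2 + m) * e1
  have h2 : 0 < pq (b + 1) m := pq_pos (by positivity) m
  have n3 : b + 1 + (m : ℝ) ≠ 0 := by positivity
  have n4 : b + 2 + (m : ℝ) ≠ 0 := by positivity
  have n1 : b + 1 ≠ 0 := by positivity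
  have n2 : b + 2 ≠ 0 := by positivity
  unfold Wt
  rw [h1]
  field_simp

end Weights

open Weights

theorem wt_tendsto {b : ℝ} (hb : 0 < b) (w : ℕ) :
    Tendsto (fun m : ℕ => Wt b m / (m : ℝ) ^ w * ((b + w) * pq (b + w + 1) m)) atTop
      (𝓝 (b * (b + 1) * (b + 2) / ((Nat.factorial w : ℝ) * pq b w))) := by
  induction w with
  | zero =>
    have h1 := ((quot_inv (b + 1)).const_mul (b * (b + 1) * (b + 2))).mul (quot_inv (b + 2))
    have e : b * (b + 1) * (b + 2) * 1 * 1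
        = b * (b + 1) * (b + 2) / ((Nat.factorial 0 : ℝ) * pq b 0) := by
      rw [pq_zero, Nat.factorial_zero]
      simp
    rw [e] at h1
    refine h1.congr fun m => ?_
    rw [pow_zero, div_one, Nat.cast_zero, add_zero, wt_base hb]
  | succ w ih =>
    have hbw : b + (w : ℝ) ≠ 0 := by positivity
    have h1 := ih.mul ((quot_one (b + w + 1)).div_const (b + w))
    have e : b * (b + 1) * (b + 2) / ((Nat.factorial w : ℝ) * pq b w) * (1 / (b + w))
        = b * (b + 1) * (b + 2) / ((Nat.factorial (w + 1) : ℝ) * pq b (w + 1)) := by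
      rw [Nat.factorial_succ]
      have h2 := pq_succ' b w
      have h3 : (((w + 1) * Nat.factorial w : ℕ) : ℝ) * pq b (w + 1)
          = (Nat.factorial w : ℝ) * pq b w * (b + w) := by
        push_cast
        linear_combination (Nat.factorial w : ℝ) * h2
      rw [h3]
      field_simp
    rw [e] at h1
    refine h1.congr' ?_
    filter_upwards [eventually_gt_atTop 0] with m hm
    have hm' : (m : ℝ) ≠ 0 := by exact_mod_cast hm.ne'
    have h4 := pq_add_one (b + w + 1) m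
    have h5 : (b + w + 1) ≠ 0 := by positivity
    have e2 : b + ((w + 1 : ℕ) : ℝ) = b + w + 1 := by push_cast; ring
    rw [e2, h4]
    field_simp
    ring

/-- a bound for a monomial -/
theorem ev_bound {c : ℕ → ℂ} {Cb : ℕ → ℝ} (h0 : ∀ n, 0 ≤ Cb n) (h : ∀ n, ‖c n‖ ≤ Cb n)
    (A : List ℕ) : ‖ev c A‖ ≤ (A.map Cb).prod ∧ 0 ≤ (A.map Cb).prod := by
  induction A with
  | nil => simp [ev]
  | cons a A ih =>
    rw [ev_cons, List.map_cons, List.prod_cons, norm_mul]
    exact ⟨mul_le_mul (h a) ih.1 (norm_nonneg _) (h0 a), mul_nonneg (h0 a) ih.2⟩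

theorem cont_cc {ρ : ℝ} (hρ : 1 < ρ) {H : ℂ → ℂ} (hH : DifferentiableOn ℂ H (ball 0 ρ)) (n : ℕ) :
    ContinuousOn (fun z => cc H z n) (closedBall (0 : ℂ) 1) := by
  have h1 : ContinuousOn (gg H n) (closedBall (0 : ℂ) 1) :=
    (gg_diff (by linarith only [hρ]) hH n).continuousOn.mono (closedBall_subset_ball hρ)
  have h2 : Continuous (fun z : ℂ => (((1 - ‖z‖ ^ 2) ^ (n + 1) : ℝ) : ℂ)) := by fun_prop
  exact h2.continuousOn.mul h1

theorem cont_ev_cc {ρ : ℝ} (hρ : 1 < ρ) {H : ℂ → ℂ} (hH : DifferentiableOn ℂ H (ball 0 ρ))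
    (A : List ℕ) : ContinuousOn (fun z => ev (cc H z) A) (closedBall (0 : ℂ) 1) := by
  induction A with
  | nil =>
    simp only [ev_nil]
    exact continuousOn_const
  | cons a A ih =>
    simp only [ev_cons]
    exact (cont_cc hρ hH a).mul ih

end Pool.Agent.M16.Helper39.MH
end
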