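import Mathlib
import Pool.Agent.Helper60.M16.G06
import Pool.Agent.Helper60.M16.G07
import Pool.Agent.Helper60.M16.G08
import Pool.Agent.Helper60.M16.G09
import Pool.Agent.Helper60.M16.G10
import Pool.Agent.Helper60.M16.G11
import Pool.Agent.Helper60.M16.G14

/- Helper94.T.Helper24.HR2.SmallCore -/
section
/-!
MP_16b0ee, project HR2, module 10c: the region of small exponents, conclusion.
-/

set_option autoImplicit false

open MeasureTheory Set Metric Filter Topology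
open scoped Real ComplexConjugate

namespace Pool.Agent.M16.Helper24.HR2

open Pool.Agent.M16.Helper22.Half
open Pool.Agent.M16.Helper22.Marshall (coeff SepHol LogPhi dcoeff GLe)
open Pool.Agent.M16.Helper39.Area (Ext phi)
open Pool.Agent.M16.Helper39.MH

namespace SmallCore

theorem cont_H {ρ : ℝ} {β H : ℂ → ℂ} {Φ : ℂ → ℂ → ℂ} (h : Dat ρ β H Φ) :
    ContinuousOn H (closedBall 0 1) :=
  h.diff.continuousOn.mono (closedBall_subset_ball h.one_lt)

theorem cont_pair {ρ : ℝ} {β H : ℂ → ℂ} {Φ : ℂ → ℂ → ℂ} (h : Dat ρ β H Φ) (ζ : ℂ)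
    (A B : List ℕ) :
    ContinuousOn (fun z => (ζ * (ev (cc H z) A * conj (ev (cc H z) B))).re)
      (closedBall (0 : ℂ) 1) := by
  have h1 := cont_ev_cc h.one_lt h.diff A
  have h2 := cont_ev_cc h.one_lt h.diff B
  have h3 : ContinuousOn (fun z => conj (ev (cc H z) B)) (closedBall (0 : ℂ) 1) :=
    Complex.continuous_conj.comp_continuousOn h2
  exact Complex.continuous_re.comp_continuousOn (continuousOn_const.mul (h1.mul h3))

theorem cont_dval {ρ : ℝ} {β H : ℂ → ℂ} {Φ : ℂ → ℂ → ℂ} (h : Dat ρ β H Φ) (n : ℕ) :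
    ContinuousOn (fun z => dval (cc H z) n) (closedBall (0 : ℂ) 1) := by
  have hc := fun k => cont_cc h.one_lt h.diff k
  unfold dval
  split_ifs
  · exact (continuousOn_const.mul (hc 1)).sub ((hc 0).pow 2)
  · exact (continuousOn_const.mul (hc (n + 1))).add
      (continuousOn_finsetSum _ fun i _ => (hc (i + 1)).mul (hc (n - 1 - i)))

theorem cont_Dv {ρ : ℝ} {β H : ℂ → ℂ} {Φ : ℂ → ℂ → ℂ} (h : Dat ρ β H Φ) (A : List ℕ) :
    ContinuousOn (fun z => Dv (cc H z) A) (closedBall (0 : ℂ) 1) := by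
  induction A with
  | nil =>
    simp only [Dv]
    exact continuousOn_const
  | cons a A ih =>
    simp only [Dv]
    exact ((cont_dval h a).mul (cont_ev_cc h.one_lt h.diff A)).add
      ((cont_cc h.one_lt h.diff a).mul ih)

theorem cont_DGs {ρ : ℝ} {β H : ℂ → ℂ} {Φ : ℂ → ℂ → ℂ} (h : Dat ρ β H Φ) (s : ℂ)
    (A : List ℕ) : ContinuousOn (fun z => DGs s (cc H z) A) (closedBall (0 : ℂ) 1) := by
  unfold DGs
  exact ((continuousOn_const.mul (cont_cc h.one_lt h.diff 0)).mul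
    (cont_ev_cc h.one_lt h.diff A)).add (cont_Dv h A)

theorem cont_rel {ρ : ℝ} {β H : ℂ → ℂ} {Φ : ℂ → ℂ → ℂ} (h : Dat ρ β H Φ) (s : ℂ) (b : ℝ) (ζ : ℂ)
    (A B : List ℕ) :
    ContinuousOn (fun z => (ζ * relS s b (cc H z) A B).re) (closedBall (0 : ℂ) 1) := by
  have h1 := cont_ev_cc h.one_lt h.diff A
  have h2 := cont_ev_cc h.one_lt h.diff B
  have h3 : ContinuousOn (fun z => conj (ev (cc H z) B)) (closedBall (0 : ℂ) 1) :=
    Complex.continuous_conj.comp_continuousOn h2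
  unfold relS
  exact Complex.continuous_re.comp_continuousOn (continuousOn_const.mul
    (((cont_DGs h s A).mul h3).sub (continuousOn_const.mul (h1.mul h3))))

theorem cont_YS {ρ : ℝ} {β H : ℂ → ℂ} {Φ : ℂ → ℂ → ℂ} (h : Dat ρ β H Φ) (s : ℂ) (r : ℕ) :
    ContinuousOn (fun z => YS s (cc H z) r) (closedBall (0 : ℂ) 1) := by
  have hc := fun k => cont_cc h.one_lt h.diff k
  have h0 := hc 0
  have h1 := hc 1
  have h2 := hc 2
  have h3 := hc 3
  match r with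
  | 0 =>
    simp only [YS]
    exact continuousOn_const.mul h0
  | 1 =>
    simp only [YS]
    exact ((h0.pow 2).sub h1).div_const 2
  | 2 =>
    simp only [YS]
    exact (continuousOn_const.mul (((h0.pow 2).sub h1).pow 2)).add
      (continuousOn_const.mul (((((h3.neg.add (h1.pow 2)).add
        ((continuousOn_const.mul h0).mul h2)).sub
        ((continuousOn_const.mul (h0.pow 2)).mul h1))).add (h0.pow 4)))
  | (r + 3) =>
    simp only [YS]
    exact continuousOn_const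

theorem cont_qY {ρ : ℝ} {β H : ℂ → ℂ} {Φ : ℂ → ℂ → ℂ} (h : Dat ρ β H Φ) (Q : ℕ → ℕ → ℂ)
    (s : ℂ) (b : ℝ) :
    ContinuousOn (fun z => qY Q s b (cc H z)) (closedBall (0 : ℂ) 1) := by
  unfold qY
  refine continuousOn_const.mul (continuousOn_finsetSum _ fun r _ =>
    continuousOn_finsetSum _ fun t _ => ContinuousOn.div_const ?_ _)
  have h3 : ContinuousOn (fun z => conj (YS s (cc H z) r)) (closedBall (0 : ℂ) 1) :=
    Complex.continuous_conj.comp_continuousOn (cont_YS h s r)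
  exact Complex.continuous_re.comp_continuousOn
    (continuousOn_const.mul ((cont_YS h s t).mul h3))

/-- one relation term; `E` bounds the multiplier -/
theorem rel_term (A B : List ℕ) : ∃ K : ℝ, 0 ≤ K ∧
    ∀ (ρ : ℝ) (β H : ℂ → ℂ) (Φ : ℂ → ℂ → ℂ), Dat ρ β H Φ → ∀ (s ζ : ℂ) (b E : ℝ), 0 < b → b ≤ 1 →
      ‖s‖ ≤ 1 / 20 → ‖ζ‖ ≤ E →
      |LS s H b (fun z => (ζ * relS s b (cc H z) A B).re)| ≤ K * E := by
  obtain ⟨Cb, hC0, hCb⟩ := gg_bound
  have hPA := (ev_bound hC0 (c := fun n => (0:ℂ)) (fun n => by simpa using hC0 n) A).2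
  have hPB := (ev_bound hC0 (c := fun n => (0:ℂ)) (fun n => by simpa using hC0 n) B).2
  refine ⟨((wt A : ℝ) + wt B + 2) * ((A.map Cb).prod * (B.map Cb).prod * 2), by positivity, ?_⟩
  intro ρ β H Φ h s ζ b E hb hb1 hs hζ
  have hE : 0 ≤ E := (norm_nonneg _).trans hζ
  have hHd : DifferentiableOn ℂ H (ball 0 1) := h.diff.mono (ball_subset_ball h.one_lt.le)
  have hbnd : ∀ z ∈ ball (0 : ℂ) 1, |(ζ * (ev (cc H z) A * conj (ev (cc H z) B))).re|
      ≤ E * ((A.map Cb).prod * (B.map Cb).prod) := by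
    intro z hz
    have h5 := (ev_bound hC0 (fun n => hCb H hHd h.bloch n z hz) A).1
    have h6 := (ev_bound hC0 (fun n => hCb H hHd h.bloch n z hz) B).1
    refine (Complex.abs_re_le_norm _).trans ?_
    rw [norm_mul, norm_mul, Complex.norm_conj]
    gcongr
  have herr := LS_err h (s := s) hb (by linarith only [hb, hs]) (cont_pair h ζ A B) hbnd
  rw [relS_LS h hb s ζ A B, abs_mul, abs_neg, abs_of_pos (by positivity)]
  have h9 : E * ((A.map Cb).prod * (B.map Cb).prod) / (b + 1 - 2 * ‖s‖)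
      ≤ E * ((A.map Cb).prod * (B.map Cb).prod) * 2 := by
    rw [div_le_iff₀ (by linarith)]
    have : 0 ≤ E * ((A.map Cb).prod * (B.map Cb).prod) := by positivity
    nlinarith only [hb, hs, this]
  calc (b + wt A + wt B + 1) * |LS s H b (fun z => (1 - ‖z‖ ^ 2)
          * (ζ * (ev (cc H z) A * conj (ev (cc H z) B))).re)|
      ≤ ((wt A : ℝ) + wt B + 2) * (E * ((A.map Cb).prod * (B.map Cb).prod) * 2) := by
        apply mul_le_mul _ (herr.trans h9) (abs_nonneg _) (by positivity)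
        linarith
    _ = _ := by ring

/-- a list of relation terms -/
theorem rel_list (rels : List ((ℂ → ℂ) × List ℕ × List ℕ)) : ∃ K : ℝ, 0 ≤ K ∧
    ∀ (ρ : ℝ) (β H : ℂ → ℂ) (Φ : ℂ → ℂ → ℂ), Dat ρ β H Φ → ∀ (s : ℂ) (b E : ℝ), 0 < b → b ≤ 1 →
      ‖s‖ ≤ 1 / 20 → (∀ x ∈ rels, ‖x.1 s‖ ≤ E) →
      (rels.map (fun x => LS s H b
        (fun z => (x.1 s * relS s b (cc H z) x.2.1 x.2.2).re))).sum ≤ K * E := by
  induction rels with
  | nil =>
    refine ⟨0, le_rfl, ?_⟩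
    intro ρ β H Φ h s b E hb hb1 hs hζ
    simp
  | cons x rels ih =>
    obtain ⟨K1, hK1, h1⟩ := ih
    obtain ⟨K2, hK2, h2⟩ := rel_term x.2.1 x.2.2
    refine ⟨K2 + K1, by positivity, ?_⟩
    intro ρ β H Φ h s b E hb hb1 hs hζ
    have h3 := h1 ρ β H Φ h s b E hb hb1 hs (fun y hy => hζ y (List.mem_cons_of_mem _ hy))
    have h4 := h2 ρ β H Φ h s (x.1 s) b E hb hb1 hs (hζ x List.mem_cons_self)
    rw [List.map_cons, List.sum_cons]
    have h5 := (abs_le.mp h4).2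
    linarith only [h3, h5]

theorem wt_zero : wt [0] = 1 := rfl

theorem R2_id {s : ℂ} (hs : s ≠ 0) {a b : ℝ} (ha : 0 < a) (hb : b = ‖s‖ ^ 2 / a) (c : ℕ → ℂ) :
    ‖c 0‖ ^ 2 - (b + 1) / (4 * a)
      = ((((b + 1) / (4 * ‖s‖ ^ 2) : ℝ) : ℂ) * relS s b c [] []).re
        + (-(1 / (2 * s)) * relS s b c [] [0]).re := by
  have hn : ‖s‖ ≠ 0 := norm_ne_zero_iff.mpr hs
  have hnn : ((‖s‖ : ℝ) : ℂ) ≠ 0 := by exact_mod_cast hn
  have haa : (a : ℂ) ≠ 0 := by exact_mod_cast ha.ne'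
  have hcs : conj s ≠ 0 := (map_ne_zero _).mpr hs
  have h1 : ((((b + 1) / (4 * ‖s‖ ^ 2) : ℝ) : ℂ) * relS s b c [] []).re
      = ((((b + 1) / (4 * ‖s‖ ^ 2) : ℝ) : ℂ) * conj (relS s b c [] [])).re := by
    rw [Complex.re_ofReal_mul, Complex.re_ofReal_mul, Complex.conj_re]
  rw [h1, ← Complex.add_re]
  have h2 : relS s b c [] [] = -2 * s * c 0 - b := by
    unfold relS DGs
    simp [ev_nil, Dv, wt_nil]
  have h3 : relS s b c [] [0] = -2 * s * c 0 * conj (c 0) - (b + 1) * conj (c 0) := by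
    unfold relS DGs
    simp [ev_nil, ev_cons, Dv, wt_nil, wt_zero]
  have hss : (((‖s‖ ^ 2 : ℝ)) : ℂ) = s * conj s := by
    rw [Complex.mul_conj, Complex.normSq_eq_norm_sq]
  have h4 : (((b + 1) / (4 * ‖s‖ ^ 2) : ℝ) : ℂ) = ((b : ℂ) + 1) / (4 * (s * conj s)) := by
    rw [← hss]
    push_cast
    ring
  have hbc : (b : ℂ) = s * conj s / a := by
    rw [hb, Complex.ofReal_div, hss]
  have hcc : c 0 * conj (c 0) = ((‖c 0‖ ^ 2 : ℝ) : ℂ) := by
    rw [Complex.mul_conj, Complex.normSq_eq_norm_sq]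
  have h5 : (((b + 1) / (4 * ‖s‖ ^ 2) : ℝ) : ℂ) * conj (relS s b c [] [])
      + -(1 / (2 * s)) * relS s b c [] [0]
      = ((‖c 0‖ ^ 2 - (b + 1) / (4 * a) : ℝ) : ℂ) := by
    rw [h2, h3, h4]
    have e1 : conj (-2 * s * c 0 - (b : ℂ)) = -2 * conj s * conj (c 0) - b := by
      rw [map_sub, map_mul, map_mul, map_neg, Complex.conj_ofReal, map_ofNat]
    rw [e1]
    push_cast
    rw [show ((‖c 0‖ : ℝ) : ℂ) ^ 2 = c 0 * conj (c 0) by rw [hcc]; push_cast; rfl]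
    have e2 : ((b : ℂ) + 1) / (4 * (s * conj s)) * (-2 * conj s * conj (c 0) - b)
        = -((b : ℂ) + 1) * conj (c 0) / (2 * s) - (b + 1) * b / (4 * (s * conj s)) := by
      field_simp
      ring
    have e3 : ((b : ℂ) + 1) * b / (4 * (s * conj s)) = (b + 1) / (4 * a) := by
      have : (b : ℂ) / (s * conj s) = 1 / a := by
        rw [hbc]
        field_simp
      calc ((b : ℂ) + 1) * b / (4 * (s * conj s)) = (b + 1) / 4 * ((b : ℂ) / (s * conj s)) := by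
            field_simp
        _ = _ := by
            rw [this]
            field_simp
    rw [e2, e3]
    field_simp
    ring
  rw [h5, Complex.ofReal_re]

end SmallCore

open SmallCore

end Pool.Agent.M16.Helper24.HR2
end

/- Helper94.T.Helper24.HR2.SmallN -/
section
/-!
MP_16b0ee, project HR2, section R10: the upper form for small exponents.
-/

set_option autoImplicit false

open Filter Topology

namespace Pool.Agent.M16.Helper24.HR2

open Pool.Agent.M16.Helper22.Half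
open Pool.Agent.M16.Helper39.HR (Bq Rb Cw Ks Xm Sk)

/-- the constant of the products is `1 + O(|s|^2)` -/
theorem small_const {ρ b r : ℝ} (hρ0 : 0 ≤ ρ) (hρ : ρ ≤ 1 / 400) (hb : 0 < b) (hb1 : b ≤ 2 * ρ)
    (hr : -(1 / 20) ≤ r) (hr1 : r ≤ 1 / 20) : Bq r ρ * Rb b r ≤ 1 + 4 * ρ := by
  have f1 := Pool.Agent.M16.Helper39.HR.F1_pos hb (by linarith only [hρ, hb1] : b ≤ 1 / 2)
    (by linarith only [hr] : -(1 / 2) ≤ r) (by linarith only [hr1] : r < 1 / 2)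
  have f2 := Pool.Agent.M16.Helper39.HR.F2_pos hb (by linarith only [hρ, hb1] : b ≤ 1 / 2)
    (by linarith only [hr] : -(1 / 2) ≤ r) (by linarith only [hr1] : r < 1 / 2)
  have g1 : 1 - 2 * b * (1 + r) / (4 * (b + 2 - 2 * r)) ≤ 1 := by
    have : 0 ≤ 2 * b * (1 + r) / (4 * (b + 2 - 2 * r)) := by
      apply div_nonneg
      · apply mul_nonneg <;> linarith only [hb, hr]
      · linarith only [hb, hr1]
    linarith only [this]
  have g2 : 1 - 2 * b * (1 + r) / (5 * (b + 3 - 2 * r)) ≤ 1 := by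
    have : 0 ≤ 2 * b * (1 + r) / (5 * (b + 3 - 2 * r)) := by
      apply div_nonneg
      · apply mul_nonneg <;> linarith only [hb, hr]
      · linarith only [hb, hr1]
    linarith only [this]
  have g3 : Real.exp (-(2 * b * (1 + r) / (qe b r + 2))) ≤ 1 := by
    rw [Real.exp_le_one_iff]
    have : 0 ≤ 2 * b * (1 + r) / (qe b r + 2) := by
      apply div_nonneg
      · apply mul_nonneg <;> linarith only [hb, hr]
      · unfold qe
        linarith only [hb, hr1]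
    linarith only [this]
  have hR0 := Pool.Agent.M16.Helper39.HR.Rb_nonneg hb (by linarith only [hρ, hb1] : b ≤ 1 / 2)
    (by linarith only [hr] : -(1 / 2) ≤ r) (by linarith only [hr1] : r < 1 / 2)
  have hR : Rb b r ≤ Real.exp (2 / 3 * ρ) := by
    have h1 : Rb b r ≤ (1 + b / 3) * 1 * 1 * 1 := by
      unfold Pool.Agent.M16.Helper39.HR.Rb
      gcongr
    have h2 := Real.add_one_le_exp (2 / 3 * ρ)
    linarith only [hb1, h1, h2]
  have q1 : ∀ c x : ℝ, 0 < c → c ≤ x → 1 + ρ / x ≤ Real.exp (ρ * (1 / c)) := by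
    intro c x hc hcx
    have h1 : ρ / x ≤ ρ * (1 / c) := by
      rw [mul_one_div]
      exact div_le_div_of_nonneg_left hρ0 hc hcx
    have h2 := Real.add_one_le_exp (ρ * (1 / c))
    linarith only [h1, h2]
  have q2 : ∀ c x : ℝ, 0 < c → c ≤ x → 0 ≤ 1 + ρ / x := by
    intro c x hc hcx
    have : 0 < x := by linarith only [hc, hcx]
    positivity
  have a1 := q1 (38 / 10) (2 * (2 + 2 * r)) (by norm_num) (by linarith only [hr])
  have a2 := q1 (38 / 10) (2 * (2 - 2 * r)) (by norm_num) (by linarith only [hr1])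
  have a3 := q1 (87 / 10) (3 * (3 + 2 * r)) (by norm_num) (by linarith only [hr])
  have a4 := q1 (87 / 10) (3 * (3 - 2 * r)) (by norm_num) (by linarith only [hr1])
  have b1 := q2 (38 / 10) (2 * (2 + 2 * r)) (by norm_num) (by linarith only [hr])
  have b2 := q2 (38 / 10) (2 * (2 - 2 * r)) (by norm_num) (by linarith only [hr1])
  have b3 := q2 (87 / 10) (3 * (3 + 2 * r)) (by norm_num) (by linarith only [hr])
  have b4 := q2 (87 / 10) (3 * (3 - 2 * r)) (by norm_num) (by linarith only [hr1])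
  have hB : Bq r ρ ≤ Real.exp (7 / 5 * ρ) := by
    have h1 : Bq r ρ ≤ Real.exp (ρ * (1 / (38 / 10))) * Real.exp (ρ * (1 / (38 / 10)))
        * Real.exp (ρ * (1 / (87 / 10))) * Real.exp (ρ * (1 / (87 / 10)))
        * Real.exp (7 * ρ / 12) := by
      unfold Pool.Agent.M16.Helper39.HR.Bq
      gcongr
    refine h1.trans ?_
    rw [← Real.exp_add, ← Real.exp_add, ← Real.exp_add, ← Real.exp_add]
    apply Real.exp_le_exp.mpr
    linarith only [hρ0]
  have h3 : Bq r ρ * Rb b r ≤ Real.exp (31 / 15 * ρ) := by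
    calc Bq r ρ * Rb b r ≤ Real.exp (7 / 5 * ρ) * Real.exp (2 / 3 * ρ) := by
          apply mul_le_mul hB hR hR0 (Real.exp_pos _).le
      _ = Real.exp (31 / 15 * ρ) := by
          rw [← Real.exp_add]
          congr 1
          ring
  refine h3.trans ?_
  have h4 := Real.one_sub_le_exp_neg (31 / 15 * ρ)
  have h5 : Real.exp (31 / 15 * ρ) * Real.exp (-(31 / 15 * ρ)) = 1 := by
    rw [← Real.exp_add, add_neg_cancel, Real.exp_zero]
  have h6 := Real.exp_pos (31 / 15 * ρ)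
  have h7 : Real.exp (31 / 15 * ρ) * (1 - 31 / 15 * ρ) ≤ 1 := by
    have := mul_le_mul_of_nonneg_left h4 h6.le
    linarith only [h5, this]
  have h8 : 0 < 1 - 31 / 15 * ρ := by linarith only [hρ]
  have h9 : 1 ≤ (1 + 4 * ρ) * (1 - 31 / 15 * ρ) := by
    have := mul_le_mul_of_nonneg_left hρ hρ0
    linarith only [hb, hb1, this]
  by_contra hcon
  have := mul_lt_mul_of_pos_right (not_le.mp hcon) h8
  linarith only [h7, h9, this]

/-- the numerical coefficients -/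
theorem small_coef {a ρ b r N c ζ u v : ℝ} (ha : 1 / 2 ≤ a) (ha1 : a < 1) (hρ : 0 < ρ)
    (hρ1 : ρ ≤ 1 / 400) (hb : b * a = ρ) (hr : -(1 / 20) ≤ r) (hr1 : r ≤ 1 / 20) (hN0 : 0 ≤ N)
    (hN : N ≤ 441 / 400) (hc0 : 0 ≤ c) (hζ0 : 0 < ζ) (hζ1 : ζ ≤ 1 / 10)
    (hc : c ≤ ρ / 2 * (1 + 4 * ρ) * (1 + ζ)) (hu0 : 0 ≤ u) (hu : u ≤ ζ)
    (hv : v ≤ 2 * ζ) :
    c * (N * ((1 + (b + 3) * u) / (b + 1 - 2 * r) + 24)
        + 2 * ((1 + (b + 3) * u) / (2 * (b + 2)) + v)) ≤ 20 * ρ ∧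
      c * (4 * (1 + (b + 1) * u) / ((b + 1) * b)
        + 2 * (1 + r) * (1 / (b + 1) + (1 + (b + 3) * u) / ((b + 2) * (b + 1)))
        + 2 * ((1 + (b + 3) * u) / (2 * (b + 2)) + v) * N)
        ≤ 4 * (a / 2 * (1 + 20 * ρ) + 3 * ζ) := by
  have ha0 : 0 < a := by linarith only [ha]
  have hb0 : 0 < b := by
    by_contra h
    have := mul_nonpos_of_nonpos_of_nonneg (not_lt.mp h) ha0.le
    linarith only [hρ, hb, this]
  have hb2 : b ≤ 2 * ρ := by
    have := mul_le_mul_of_nonneg_left ha hb0.le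
    linarith only [hb, this]
  have hρζ := mul_le_mul_of_nonneg_right hρ1 hζ0.le
  have hζζ := mul_le_mul_of_nonneg_right hζ1 hζ0.le
  have hbb := mul_pos hb0 hb0
  have hb3 : b ≤ 1 / 200 := by linarith only [hρ1, hb2]
  have hc1 : c ≤ 5 / 9 * ρ := by
    refine hc.trans ?_
    have h1 : (1 + 4 * ρ) * (1 + ζ) ≤ 10 / 9 := by linarith
    calc ρ / 2 * (1 + 4 * ρ) * (1 + ζ) = ρ / 2 * ((1 + 4 * ρ) * (1 + ζ)) := by ring
      _ ≤ ρ / 2 * (10 / 9) := by gcongr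
      _ = _ := by ring
  have hbu : (b + 3) * u ≤ 1 / 3 := by
    calc (b + 3) * u ≤ (1 / 200 + 3) * (1 / 10) := by
          apply mul_le_mul <;> linarith only [hb3, hζ1, hu, hu0]
      _ ≤ 1 / 3 := by norm_num
  have hbu0 : 0 ≤ (b + 3) * u := by positivity
  have hbu1 : (b + 1) * u ≤ 2 * ζ := by
    apply mul_le_mul <;> linarith only [hb3, hu, hu0]
  have hbu2 : 0 ≤ (b + 1) * u := by positivity
  have hs : 9 / 10 ≤ b + 1 - 2 * r := by linarith only [hr1, hb0]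
  have t1 : (1 + (b + 3) * u) / (b + 1 - 2 * r) ≤ 3 / 2 := by
    rw [div_le_iff₀ (by linarith only [hs])]
    linarith only [hbu, hs]
  have t10 : 0 ≤ (1 + (b + 3) * u) / (b + 1 - 2 * r) := by
    apply div_nonneg <;> linarith only [hbu0, hs]
  have t2 : (1 + (b + 3) * u) / (2 * (b + 2)) ≤ 1 / 3 := by
    rw [div_le_iff₀ (by linarith only [hb0])]
    linarith only [hb0, hbu]
  have t20 : 0 ≤ (1 + (b + 3) * u) / (2 * (b + 2)) := by
    apply div_nonneg <;> linarith only [hbu0, hb0]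
  have t3 : (1 + (b + 3) * u) / ((b + 2) * (b + 1)) ≤ 2 / 3 := by
    rw [div_le_iff₀ (by positivity)]
    linarith only [hb0, hbb, hbu]
  have t30 : 0 ≤ (1 + (b + 3) * u) / ((b + 2) * (b + 1)) := by
    apply div_nonneg
    · linarith only [hbu0]
    · positivity
  have t4 : 1 / (b + 1) ≤ 1 := by
    rw [div_le_one (by linarith only [hb0])]
    linarith only [hb0]
  have t40 : 0 ≤ 1 / (b + 1) := by positivity
  constructor
  · have h1 : N * ((1 + (b + 3) * u) / (b + 1 - 2 * r) + 24) ≤ 441 / 400 * (3 / 2 + 24) := by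
      gcongr
    have h2 : N * ((1 + (b + 3) * u) / (b + 1 - 2 * r) + 24)
        + 2 * ((1 + (b + 3) * u) / (2 * (b + 2)) + v) ≤ 30 := by
      linarith only [hζ1, hv, t2, h1]
    calc c * (N * ((1 + (b + 3) * u) / (b + 1 - 2 * r) + 24)
        + 2 * ((1 + (b + 3) * u) / (2 * (b + 2)) + v)) ≤ c * 30 := by gcongr
      _ ≤ 20 * ρ := by linarith only [hb0, hb2, hc1]
  · have h1 : c * (4 * (1 + (b + 1) * u) / ((b + 1) * b)) ≤ 4 * (a / 2 * (1 + 4 * ρ) + 3 * ζ) := by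
      have k1 : 4 * (1 + (b + 1) * u) / ((b + 1) * b) ≤ 4 * (1 + 2 * ζ) / b := by
        apply div_le_div₀
        · linarith only [hbu1, hbu2]
        · linarith only [hbu1]
        · exact hb0
        · linarith only [hbb]
      have k2 : c * (4 * (1 + 2 * ζ) / b) ≤ (ρ / 2 * (1 + 4 * ρ) * (1 + ζ)) * (4 * (1 + 2 * ζ) / b) := by
        gcongr
      have k3 : (ρ / 2 * (1 + 4 * ρ) * (1 + ζ)) * (4 * (1 + 2 * ζ) / b)
          = 4 * (a / 2 * ((1 + 4 * ρ) * ((1 + ζ) * (1 + 2 * ζ)))) := by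
        rw [← hb]
        field_simp
      have k4 : (1 + ζ) * (1 + 2 * ζ) ≤ 1 + 4 * ζ := by linarith only [hζζ, hbu1, hbu2]
      have k5 : (1 + 4 * ρ) * ((1 + ζ) * (1 + 2 * ζ)) ≤ (1 + 4 * ρ) + 6 * ζ := by
        have : (1 + 4 * ρ) * ((1 + ζ) * (1 + 2 * ζ)) ≤ (1 + 4 * ρ) * (1 + 4 * ζ) := by
          gcongr
        linarith only [hu0, hu, hρζ, this]
      have k6 : a / 2 * ((1 + 4 * ρ) * ((1 + ζ) * (1 + 2 * ζ)))
          ≤ a / 2 * ((1 + 4 * ρ) + 6 * ζ) := by gcongr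
      have k7 := mul_le_mul_of_nonneg_right ha1.le hζ0.le
      calc c * (4 * (1 + (b + 1) * u) / ((b + 1) * b)) ≤ c * (4 * (1 + 2 * ζ) / b) := by gcongr
        _ ≤ _ := k2
        _ = _ := k3
        _ ≤ _ := by linarith only [k6, k7]
    have h2 : 2 * (1 + r) * (1 / (b + 1) + (1 + (b + 3) * u) / ((b + 2) * (b + 1)))
        ≤ 2 * (1 + 1 / 20) * (1 + 2 / 3) := by
      have : 0 ≤ 1 + r := by linarith only [hr]
      gcongr
    have h3 : 2 * ((1 + (b + 3) * u) / (2 * (b + 2)) + v) * N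
        ≤ 2 * (1 / 3 + 2 / 10) * (441 / 400) := by
      have : v ≤ 2 / 10 := by linarith only [hζ1, hv]
      gcongr
    have h4 : 2 * (1 + r) * (1 / (b + 1) + (1 + (b + 3) * u) / ((b + 2) * (b + 1)))
        + 2 * ((1 + (b + 3) * u) / (2 * (b + 2)) + v) * N ≤ 5 := by linarith only [h2, h3]
    have h5 : c * (2 * (1 + r) * (1 / (b + 1) + (1 + (b + 3) * u) / ((b + 2) * (b + 1)))
        + 2 * ((1 + (b + 3) * u) / (2 * (b + 2)) + v) * N) ≤ 25 / 9 * ρ := by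
      calc c * (2 * (1 + r) * (1 / (b + 1) + (1 + (b + 3) * u) / ((b + 2) * (b + 1)))
        + 2 * ((1 + (b + 3) * u) / (2 * (b + 2)) + v) * N) ≤ c * 5 := by gcongr
        _ ≤ _ := by linarith only [hc1]
    have h6 : 25 / 9 * ρ ≤ 4 * (a / 2 * (16 * ρ)) := by
      have := mul_le_mul_of_nonneg_right ha hρ.le
      linarith only [hb0, hb2, this]
    have e : c * (4 * (1 + (b + 1) * u) / ((b + 1) * b)
        + 2 * (1 + r) * (1 / (b + 1) + (1 + (b + 3) * u) / ((b + 2) * (b + 1)))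
        + 2 * ((1 + (b + 3) * u) / (2 * (b + 2)) + v) * N)
        = c * (4 * (1 + (b + 1) * u) / ((b + 1) * b))
          + c * (2 * (1 + r) * (1 / (b + 1) + (1 + (b + 3) * u) / ((b + 2) * (b + 1)))
        + 2 * ((1 + (b + 3) * u) / (2 * (b + 2)) + v) * N) := by ring
    rw [e]
    linarith only [h1, h5, h6]

theorem small_N {a : ℝ} (ha : 1 / 2 ≤ a) (ha1 : a < 1) {δ : ℝ} (hδ : 0 < δ) :
    ∃ m0 : ℕ, ∀ m : ℕ, 1 ≤ m → m0 ≤ m → ∀ (J : ℕ) (s : ℂ), s ≠ 0 → ‖s‖ ≤ 1 / 20 →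
      ∀ d : ℕ → ℂ, (∀ l ≤ m, d l = d (m - l)) →
      Nf s (‖s‖ ^ 2 / a) d m J ≤ (m : ℝ) ^ 2 / (KS s * pq (‖s‖ ^ 2 / a + 3) (m - 1))
          * ((a / 2 * (1 + 20 * ‖s‖ ^ 2) + δ) * ‖vS d m 0‖ ^ 2)
        + 20 * ‖s‖ ^ 2 * Pf s (‖s‖ ^ 2 / a) d m := by
  -- the small parameter
  obtain ⟨ζ, hζ0, hζ1, hζδ⟩ : ∃ ζ : ℝ, 0 < ζ ∧ ζ ≤ 1 / 10 ∧ 3 * ζ ≤ δ := by
    refine ⟨min (1 / 10) (δ / 3), by positivity, min_le_left _ _, ?_⟩
    have := min_le_right (1 / 10) (δ / 3)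
    linarith only [this]
  have hlim1 : Tendsto (fun m : ℕ => (1 + 2 / (m : ℝ)) * Real.exp (3 / (2 * (m : ℝ)))) atTop
      (𝓝 1) := by
    have h1 : Tendsto (fun m : ℕ => 1 + 2 / (m : ℝ)) atTop (𝓝 (1 + 0)) :=
      tendsto_const_nhds.add (tendsto_const_div_atTop_nhds_zero_nat 2)
    have h2 : Tendsto (fun m : ℕ => Real.exp (3 / (2 * (m : ℝ)))) atTop (𝓝 (Real.exp 0)) := by
      apply (Real.continuous_exp.tendsto 0).comp
      have h3 := tendsto_const_div_atTop_nhds_zero_nat (3 / 2 : ℝ)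
      refine h3.congr (fun m => ?_)
      rw [div_div]
    have h4 := h1.mul h2
    rw [add_zero, Real.exp_zero, mul_one] at h4
    exact h4
  have hev1 : ∀ᶠ m : ℕ in atTop, (1 + 2 / (m : ℝ)) * Real.exp (3 / (2 * (m : ℝ))) ≤ 1 + ζ :=
    (hlim1.eventually_lt_const (by linarith only [hζ0] : (1 : ℝ) < 1 + ζ)).mono (fun m h => h.le)
  have hev2 : ∀ᶠ m : ℕ in atTop, 1 / (m : ℝ) ≤ ζ :=
    ((tendsto_const_div_atTop_nhds_zero_nat 1).eventually_lt_const hζ0).mono (fun m h => h.le)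
  obtain ⟨L, hL⟩ := exists_nat_gt (1 / ζ)
  have hLpos : (0 : ℝ) < L := lt_trans (by positivity) hL
  have hL1 : 1 ≤ L := by
    have : 0 < L := by exact_mod_cast hLpos
    omega
  have hLζ : 1 / (L : ℝ) ≤ ζ := by
    rw [div_le_iff₀ hLpos]
    rw [div_lt_iff₀ hζ0] at hL
    linarith only [hL]
  have hev3 : ∀ᶠ m : ℕ in atTop, (L : ℝ) / (m : ℝ) ≤ ζ :=
    ((tendsto_const_div_atTop_nhds_zero_nat (L : ℝ)).eventually_lt_const hζ0).mono
      (fun m h => h.le)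
  obtain ⟨m0, hm0⟩ := eventually_atTop.mp (hev1.and (hev2.and hev3))
  refine ⟨max 3 m0, fun m hm1 hm J s hs0 hs d hd => ?_⟩
  have hm3 : 3 ≤ m := (le_max_left _ _).trans hm
  obtain ⟨g1, g2, g3⟩ := hm0 m ((le_max_right _ _).trans hm)
  have hm0r : (0 : ℝ) < m := by exact_mod_cast (by omega : 0 < m)
  -- the exponent
  have ha0 : 0 < a := by linarith only [ha]
  have hns : 0 < ‖s‖ := norm_pos_iff.mpr hs0
  obtain ⟨b, hbd⟩ : ∃ b, b = ‖s‖ ^ 2 / a := ⟨_, rfl⟩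
  rw [← hbd]
  have hba : b * a = ‖s‖ ^ 2 := by
    rw [hbd]
    field_simp
  have hb0 : 0 < b := by
    rw [hbd]
    positivity
  have hρ0 : 0 < ‖s‖ ^ 2 := by positivity
  have hρ1 : ‖s‖ ^ 2 ≤ 1 / 400 := by
    have := pow_le_pow_left₀ hns.le hs 2
    linarith only [this]
  have hb2 : b ≤ 2 * ‖s‖ ^ 2 := by
    have := mul_le_mul_of_nonneg_left ha hb0.le
    linarith only [hba, this]
  have hb12 : b ≤ 1 / 2 := by linarith only [hρ1, hb2]
  have hbρ : ‖s‖ ^ 2 ≤ b := by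
    have := mul_le_mul_of_nonneg_left ha1.le hb0.le
    linarith only [hba, this]
  have hre := abs_le.mp ((Complex.abs_re_le_norm s).trans hs)
  have hs2 : ‖s‖ < 1 / 2 := by linarith only [hs]
  have hσ : 0 < b + 1 - 2 * s.re := by linarith only [hb2, hbρ, hre]
  have hr4 : 4 * s.re ^ 2 ≤ 1 := by
    have := sq_le_sq' hre.1 hre.2
    linarith only [this]
  -- the constant K
  have hKS : KS s = Ks s.re (‖s‖ ^ 2) := rfl
  have hK1 := Pool.Agent.M16.Helper39.HR.one_le_Ks hr4 hρ0.le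
  have hCw := Pool.Agent.M16.Helper39.HR.Cw_nonneg s hs2 hb0 hb12 m
  have h4 := S4_le' (J := J) hb0 (by linarith only [hre] : -(1 / 2) ≤ s.re) hσ hm1
  have key := Pool.Agent.M16.Helper39.HR.N_bound hs2 hb0 (K := Ks s.re (‖s‖ ^ 2)) (by linarith only [hK1])
    (Pool.Agent.M16.Helper39.HR.kap_le_Ks hr4 hρ0.le) hCw hm1 hd J hL1
    (fun j => Pool.Agent.M16.Helper39.HR.hw_Cw s hs2 hb0 hb12 hm3 j) h4 one_pos
  have hP := Pf_nonneg hσ d m
  have hX : 0 ≤ Xm b (Ks s.re (‖s‖ ^ 2)) d m := by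
    have := pq_pos (by linarith only [hre, hσ] : 0 < b + 3) (m - 1)
    unfold Pool.Agent.M16.Helper39.HR.Xm
    positivity
  have hN : ‖1 + s‖ ^ 2 ≤ 441 / 400 := by
    have h1 : ‖1 + s‖ ≤ 21 / 20 := by
      refine (norm_add_le _ _).trans ?_
      rw [norm_one]
      linarith only [hs]
    have h2 : ‖1 + s‖ ^ 2 ≤ (21 / 20) ^ 2 := pow_le_pow_left₀ (norm_nonneg _) h1 2
    linarith only [h2]
  -- the product of the constants
  have hc : Ks s.re (‖s‖ ^ 2) * Cw s b m ≤ ‖s‖ ^ 2 / 2 * (1 + 4 * ‖s‖ ^ 2) * (1 + ζ) := by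
    refine (Pool.Agent.M16.Helper39.HR.K_mul_Cw s hs2 hb0 hb12 m hm1).trans ?_
    have hq0 : 0 ≤ (1 - 2 * s.re + ‖s‖ ^ 2) / (b + 1 - 2 * s.re) := by
      apply div_nonneg <;> linarith only [hb2, hbρ, hre, hσ]
    have hq1 : (1 - 2 * s.re + ‖s‖ ^ 2) / (b + 1 - 2 * s.re) ≤ 1 := by
      rw [div_le_one hσ]
      linarith only [hbρ]
    have hBR := small_const hρ0.le hρ1 hb0 hb2 hre.1 hre.2
    have hB0 : 0 ≤ Bq s.re (‖s‖ ^ 2) := by
      have := Pool.Agent.M16.Helper39.HR.kap_le_Bq (r := s.re) hr4 hρ0.le 0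
      rw [kap_zero] at this
      linarith only [this]
    have hR0 := Pool.Agent.M16.Helper39.HR.Rb_nonneg hb0 hb12 (by linarith only [hre] : -(1 / 2) ≤ s.re)
      (by linarith only [hre] : s.re < 1 / 2)
    calc ‖s‖ ^ 2 / 2 * ((1 - 2 * s.re + ‖s‖ ^ 2) / (b + 1 - 2 * s.re))
        * (Bq s.re (‖s‖ ^ 2) * Rb b s.re) * ((1 + 2 / m) * Real.exp (3 / (2 * m)))
        ≤ ‖s‖ ^ 2 / 2 * 1 * (1 + 4 * ‖s‖ ^ 2) * (1 + ζ) := by gcongr
      _ = _ := by ring
  obtain ⟨k1, k2⟩ := small_coef (N := ‖1 + s‖ ^ 2) (c := Ks s.re (‖s‖ ^ 2) * Cw s b m)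
    (u := 1 / (m : ℝ)) (v := 1 / (L : ℝ) + L / m) (b := b) ha ha1 hρ0 hρ1 hba hre.1 hre.2
    (by positivity) hN (by positivity) hζ0 hζ1 hc (by positivity) g2 (by linarith only [hLζ, g3])
  have hv : vS d m 0 = Sk d m 0 := by
    unfold vS Pool.Agent.M16.Helper39.HR.Sk
    simp
  have hXe : (m : ℝ) ^ 2 / (KS s * pq (b + 3) (m - 1))
      * ((a / 2 * (1 + 20 * ‖s‖ ^ 2) + δ) * ‖vS d m 0‖ ^ 2)
      = 4 * (a / 2 * (1 + 20 * ‖s‖ ^ 2) + δ) * Xm b (Ks s.re (‖s‖ ^ 2)) d m := by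
    have h1 := pq_pos (by linarith only [hre, hσ] : 0 < b + 3) (m - 1)
    have h2 : 0 < Ks s.re (‖s‖ ^ 2) := by linarith only [hK1]
    rw [hKS, hv]
    unfold Pool.Agent.M16.Helper39.HR.Xm
    field_simp
  rw [hXe]
  unfold Nf
  refine key.trans ?_
  have ekp : Pool.Agent.M16.Helper39.HR.kp b m L = (1 + (b + 3) * (1 / (m : ℝ))) / (2 * (b + 2))
      + (1 / (L : ℝ) + L / m) := by
    unfold Pool.Agent.M16.Helper39.HR.kp
    ring
  have e1 : (b + 3) / (m : ℝ) = (b + 3) * (1 / (m : ℝ)) := by ring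
  have e2 : (b + 1) / (m : ℝ) = (b + 1) * (1 / (m : ℝ)) := by ring
  rw [ekp, e1, e2, mul_one, mul_one, div_one]
  have i1 := mul_le_mul_of_nonneg_right k1 hP
  have i2 := mul_le_mul_of_nonneg_right k2 hX
  have i3 : 4 * (a / 2 * (1 + 20 * ‖s‖ ^ 2) + 3 * ζ) * Xm b (Ks s.re (‖s‖ ^ 2)) d m
      ≤ 4 * (a / 2 * (1 + 20 * ‖s‖ ^ 2) + δ) * Xm b (Ks s.re (‖s‖ ^ 2)) d m := by
    gcongr
  linarith only [i1, i2, i3]

end Pool.Agent.M16.Helper24.HR2
end

/- Helper94.T.Helper24.HR2.SmallForm -/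
section
/-!
MP_16b0ee, project HR2, module HR2-10b: the area form in the region of small exponents, uniformly
in the exponent `s`, `b = |s|^2 / a`. The even moments are divided by `s`; all error terms are
controlled by the norm of the first scaled jet.
-/

set_option autoImplicit false

open MeasureTheory Set Metric Filter Topology
open scoped Real ComplexConjugate

namespace Pool.Agent.M16.Helper24.HR2

open Pool.Agent.M16.Helper22.Half
open Pool.Agent.M16.Helper22.Marshall (coeff SepHol LogPhi dcoeff GLe coeff_const_mul)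
open Pool.Agent.M16.Helper39.Area (Ext phi)
open Pool.Agent.M16.Helper39.MH

namespace SF

/-! ### the weights -/

theorem poch_succ (x : ℝ) (n : ℕ) : poch x (n + 1) = poch x n * (x + n) := by
  unfold poch
  rw [Finset.prod_range_succ]

theorem poch_one_le {x : ℝ} (hx : 1 ≤ x) (n : ℕ) : 1 ≤ poch x n := by
  induction n with
  | zero => simp [poch]
  | succ n ih =>
    rw [poch_succ]
    have : (0 : ℝ) ≤ n := Nat.cast_nonneg n
    nlinarith only [hx, ih]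

theorem pq_one_le {x : ℝ} (hx : 1 ≤ x) (n : ℕ) : 1 ≤ pq x n := by
  have := pq_mono_n hx (Nat.zero_le n)
  rwa [pq_zero] at this

theorem pq_fact (x : ℝ) (n : ℕ) : pq x n * (Nat.factorial n : ℝ) = poch x n := by
  induction n with
  | zero => simp [poch, pq_zero]
  | succ n ih =>
    rw [poch_succ, ← ih, Nat.factorial_succ]
    have := pq_succ' x n
    push_cast
    linear_combination (Nat.factorial n : ℝ) * this

theorem poch_add (x : ℝ) (n k : ℕ) : poch x (n + k) = poch x n * poch (x + n) k := by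
  induction k with
  | zero => simp [poch]
  | succ k ih =>
    rw [← add_assoc, poch_succ, ih, poch_succ]
    push_cast
    ring

/-- the weight of the order `m` -/
noncomputable def Wm (b : ℝ) (m : ℕ) : ℝ := (m : ℝ) ^ 2 / pq (b + 3) (m - 1)

/-- the exact weight of the total weight `v + 1` -/
noncomputable def om (b : ℝ) (v m : ℕ) : ℝ :=
  (b + 1) * (b + 2) / poch (b + 1) v * ((b + (v + 1 : ℕ)) * pq (b + (v + 1 : ℕ) + 1) m)⁻¹

/-- the quotient -/
noncomputable def tq (b : ℝ) (v m : ℕ) : ℝ := ∏ j ∈ Finset.range v, ((m : ℝ) / (b + m + 2 + j))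

theorem Wm_nonneg {b : ℝ} (hb : 0 < b) (m : ℕ) : 0 ≤ Wm b m := by
  unfold Wm
  have := pq_pos (show 0 < b + 3 by linarith only [hb]) (m - 1)
  positivity

theorem om_eq {b : ℝ} (hb : 0 < b) (v : ℕ) {m : ℕ} (hm : 1 ≤ m) :
    om b v m * (m : ℝ) ^ (v + 1) = Wm b m * tq b v m := by
  obtain ⟨k, rfl⟩ := Nat.exists_eq_add_of_le hm
  have e0 : 1 + k = k + 1 := by omega
  rw [e0]
  have e1 : k + 1 - 1 = k := by omega
  unfold om Wm tq
  rw [e1]
  set M : ℝ := ((k + 1 : ℕ) : ℝ) with hM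
  have hM0 : 0 < M := by rw [hM]; positivity
  have hMk : M = k + 1 := by rw [hM]; push_cast; ring
  have h1 := pq_fact (b + (v + 1 : ℕ) + 1) (k + 1)
  have h2 := pq_fact (b + 3) k
  have hf : (Nat.factorial (k + 1) : ℝ) = M * (Nat.factorial k : ℝ) := by
    rw [Nat.factorial_succ, hM]; push_cast; ring
  have hfk : (0 : ℝ) < (Nat.factorial k : ℝ) := by exact_mod_cast Nat.factorial_pos k
  have h3 : poch (b + 1) ((v + 1) + (k + 1))
      = poch (b + 1) v * (b + (v + 1 : ℕ)) * poch (b + (v + 1 : ℕ) + 1) (k + 1) := by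
    rw [poch_add (b + 1) (v + 1) (k + 1), poch_succ]
    have : b + 1 + ((v + 1 : ℕ) : ℝ) = b + ((v + 1 : ℕ) : ℝ) + 1 := by ring
    rw [this]
    push_cast
    ring
  have h4 : poch (b + 1) (2 + k) = (b + 1) * (b + 2) * poch (b + 3) k := by
    rw [poch_add (b + 1) 2 k]
    have e : poch (b + 1) 2 = (b + 1) * (b + 2) := by
      unfold poch
      rw [Finset.prod_range_succ, Finset.prod_range_one]
      push_cast
      ring
    have e2 : b + 1 + ((2 : ℕ) : ℝ) = b + 3 := by push_cast; ring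
    rw [e, e2]
  have h5 : poch (b + 1) ((2 + k) + v) = poch (b + 1) (2 + k) * poch (b + M + 2) v := by
    rw [poch_add (b + 1) (2 + k) v]
    have e2 : b + 1 + ((2 + k : ℕ) : ℝ) = b + M + 2 := by rw [hMk]; push_cast; ring
    rw [e2]
  have h6 : (v + 1) + (k + 1) = (2 + k) + v := by omega
  rw [h6, h5, h4] at h3
  have h7 : ∏ j ∈ Finset.range v, (M / (b + M + 2 + (j : ℝ))) = M ^ v / poch (b + M + 2) v := by
    unfold poch
    rw [Finset.prod_div_distrib, Finset.prod_const, Finset.card_range]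
  rw [h7]
  have p1 : 0 < poch (b + 1) v := lt_of_lt_of_le one_pos (poch_one_le (by linarith only [hb]) v)
  have p2 : 0 < pq (b + (v + 1 : ℕ) + 1) (k + 1) := pq_pos (by positivity) _
  have p3 : 0 < pq (b + 3) k := pq_pos (by positivity) _
  have p4 : 0 < poch (b + M + 2) v := lt_of_lt_of_le one_pos (poch_one_le (by linarith only [hb, hM]) v)
  have p5 : 0 < b + ((v + 1 : ℕ) : ℝ) := by positivity
  rw [← h2, ← h1, hf] at h3
  have h8 : (b + 1) * (b + 2) * pq (b + 3) k * poch (b + M + 2) v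
      = poch (b + 1) v * (b + (v + 1 : ℕ)) * pq (b + (v + 1 : ℕ) + 1) (k + 1) * M := by
    have := hfk.ne'
    apply mul_right_cancel₀ this
    linear_combination h3
  have p6 : poch (b + 1) v * (b + (v + 1 : ℕ)) * pq (b + (v + 1 : ℕ) + 1) (k + 1) ≠ 0 := by
    positivity
  have p7 : pq (b + 3) k * poch (b + M + 2) v ≠ 0 := by positivity
  have e8 : (b + 1) * (b + 2) / poch (b + 1) v
      * ((b + ((v + 1 : ℕ) : ℝ)) * pq (b + ((v + 1 : ℕ) : ℝ) + 1) (k + 1))⁻¹ * M ^ (v + 1)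
      = (b + 1) * (b + 2) * M ^ (v + 1) / (poch (b + 1) v * (b + (v + 1 : ℕ))
        * pq (b + (v + 1 : ℕ) + 1) (k + 1)) := by
    field_simp
  have e9 : M ^ 2 / pq (b + 3) k * (M ^ v / poch (b + M + 2) v)
      = M ^ (v + 2) / (pq (b + 3) k * poch (b + M + 2) v) := by
    rw [div_mul_div_comm, pow_add]
    ring
  rw [e8, e9, div_eq_div_iff p6 p7]
  rw [pow_succ, pow_add]
  linear_combination M ^ v * M * h8

theorem tq_pos {b : ℝ} (hb : 0 < b) (v : ℕ) {m : ℕ} (hm : 1 ≤ m) : 0 < tq b v m := by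
  unfold tq
  apply Finset.prod_pos
  intro j _
  have : (0 : ℝ) < m := by exact_mod_cast hm
  positivity

theorem tq_le_one {b : ℝ} (hb : 0 < b) (v : ℕ) {m : ℕ} (hm : 1 ≤ m) : tq b v m ≤ 1 := by
  unfold tq
  apply Finset.prod_le_one
  · intro j _
    positivity
  · intro j _
    have : (0 : ℝ) < m := by exact_mod_cast hm
    rw [div_le_one (by positivity)]
    have : (0 : ℝ) ≤ j := Nat.cast_nonneg j
    linarith

theorem tq_ge {b : ℝ} (hb : 0 < b) (hb1 : b ≤ 1) (v : ℕ) {m : ℕ} (hm : 1 ≤ m) :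
    1 ≤ ((v : ℝ) + 4) ^ v * tq b v m := by
  unfold tq
  have h0 : (1 : ℝ) ≤ m := by exact_mod_cast hm
  have h1 : ((v : ℝ) + 4) ^ v = ∏ _j ∈ Finset.range v, ((v : ℝ) + 4) := by
    rw [Finset.prod_const, Finset.card_range]
  rw [h1, ← Finset.prod_mul_distrib]
  have h2 : (1 : ℝ) = ∏ _j ∈ Finset.range v, (1 : ℝ) := by simp
  rw [h2]
  apply Finset.prod_le_prod
  · intro j _
    exact zero_le_one
  · intro j hj
    have hj1 : (j : ℝ) + 1 ≤ v := by exact_mod_cast Finset.mem_range.mp hj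
    have hj0 : (0 : ℝ) ≤ j := Nat.cast_nonneg j
    rw [← mul_div_assoc, one_le_div (by positivity)]
    nlinarith only [hb1, h0, hj1]

theorem tq_sub {b : ℝ} (hb : 0 < b) (hb1 : b ≤ 1) (v : ℕ) {m : ℕ} (hm : 1 ≤ m) :
    |tq b v m - 1| ≤ v * (v + 3) / m := by
  have h0 : (0 : ℝ) < m := by exact_mod_cast hm
  rw [abs_of_nonpos (by linarith only [tq_le_one hb v hm]), neg_sub]
  rw [le_div_iff₀ h0]
  induction v with
  | zero => simp [tq]
  | succ v ih =>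
    have h1 := tq_pos hb v hm
    have h2 := tq_le_one hb v hm
    have e : tq b (v + 1) m = tq b v m * ((m : ℝ) / (b + m + 2 + v)) := by
      unfold tq
      rw [Finset.prod_range_succ]
    rw [e]
    have hv : (0 : ℝ) ≤ v := Nat.cast_nonneg v
    have hD : 0 < b + m + 2 + v := by positivity
    have e2 : (1 - tq b v m * ((m : ℝ) / (b + m + 2 + v))) * m
        = (1 - tq b v m) * m + tq b v m * ((b + 2 + v) * ((m : ℝ) / (b + m + 2 + v))) := by
      field_simp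
      ring
    rw [e2]
    have h3 : (m : ℝ) / (b + m + 2 + v) ≤ 1 := by
      rw [div_le_one hD]
      linarith only [hb]
    have h3' : 0 ≤ (m : ℝ) / (b + m + 2 + v) := by positivity
    have h4 : (b + 2 + v) * ((m : ℝ) / (b + m + 2 + v)) ≤ 3 + v := by
      nlinarith only [hb, hb1, h3]
    have h4' : 0 ≤ (b + 2 + v) * ((m : ℝ) / (b + m + 2 + v)) := by positivity
    have h5 : tq b v m * ((b + 2 + v) * ((m : ℝ) / (b + m + 2 + v))) ≤ 3 + v := by
      nlinarith only [h2, h4, h4']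
    push_cast
    linarith only [ih, h5]

theorem om_pos {b : ℝ} (hb : 0 < b) (v m : ℕ) : 0 < om b v m := by
  unfold om
  have p1 : 0 < poch (b + 1) v := lt_of_lt_of_le one_pos (poch_one_le (by linarith only [hb]) v)
  have p2 : 0 < pq (b + (v + 1 : ℕ) + 1) m := pq_pos (by positivity) _
  positivity

theorem om_le {b : ℝ} (hb : 0 < b) (hb1 : b ≤ 1) (v m : ℕ) :
    om b v m ≤ 6 * ((b + (v + 1 : ℕ)) * pq (b + (v + 1 : ℕ) + 1) m)⁻¹ := by
  unfold om
  have p1 : 1 ≤ poch (b + 1) v := poch_one_le (by linarith only [hb]) v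
  have p2 : 0 < pq (b + (v + 1 : ℕ) + 1) m := pq_pos (by positivity) _
  apply mul_le_mul_of_nonneg_right _ (by positivity)
  rw [div_le_iff₀ (by linarith only [p1])]
  nlinarith only [hb, hb1, p1]

theorem om_le_six {b : ℝ} (hb : 0 < b) (hb1 : b ≤ 1) (v m : ℕ) : om b v m ≤ 6 := by
  refine (om_le hb hb1 v m).trans ?_
  have hv : (0 : ℝ) ≤ v := Nat.cast_nonneg v
  have p2 : 1 ≤ pq (b + (v + 1 : ℕ) + 1) m := pq_one_le (by push_cast; linarith only [hb]) _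
  have p3 : 1 ≤ b + ((v + 1 : ℕ) : ℝ) := by push_cast; linarith
  have h1 : 1 ≤ (b + ((v + 1 : ℕ) : ℝ)) * pq (b + (v + 1 : ℕ) + 1) m := by nlinarith only [p2, p3]
  have h2 : ((b + ((v + 1 : ℕ) : ℝ)) * pq (b + (v + 1 : ℕ) + 1) m)⁻¹ ≤ 1 :=
    inv_le_one_of_one_le₀ h1
  linarith only [h2]

/-! ### the coefficients -/

/-- the coefficients of `exp (s H)` times a monomial in the jets -/
noncomputable def xc (s : ℂ) (H : ℂ → ℂ) (A : List ℕ) (m : ℕ) : ℂ := coeff (FA s H A) m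

/-- the normalised moduli -/
noncomputable def yc (s : ℂ) (H : ℂ → ℂ) (A : List ℕ) (m : ℕ) : ℝ :=
  ‖xc s H A m‖ / (m : ℝ) ^ wt A

theorem yc_nonneg (s : ℂ) (H : ℂ → ℂ) (A : List ℕ) (m : ℕ) : 0 ≤ yc s H A m := by
  unfold yc
  positivity

/-- the norm of a monomial -/
noncomputable def SA (s : ℂ) (H : ℂ → ℂ) (b : ℝ) (A : List ℕ) : ℝ :=
  LS s H b (fun z => ‖ev (cc H z) A‖ ^ 2)

theorem re_self (x : ℂ) : (1 * (x * conj x)).re = ‖x‖ ^ 2 := by
  rw [one_mul, Complex.mul_conj, Complex.normSq_eq_norm_sq, Complex.ofReal_re]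

theorem SA_hasSum {ρ : ℝ} {β H : ℂ → ℂ} {Φ : ℂ → ℂ → ℂ} (h : Dat ρ β H Φ) {b : ℝ}
    (hb : 0 < b) (s : ℂ) (A : List ℕ) :
    HasSum (fun m : ℕ => ((b + wt A + wt A) * pq (b + wt A + wt A + 1) m)⁻¹
      * ‖xc s H A m‖ ^ 2) (SA s H b A) := by
  have h1 := cross_sum_s h hb s 1 A A
  simp only [re_self] at h1
  exact h1

theorem cont_H {ρ : ℝ} {β H : ℂ → ℂ} {Φ : ℂ → ℂ → ℂ} (h : Dat ρ β H Φ) :
    ContinuousOn H (closedBall 0 1) :=
  h.diff.continuousOn.mono (closedBall_subset_ball h.one_lt)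

theorem cont_A {ρ : ℝ} {β H : ℂ → ℂ} {Φ : ℂ → ℂ → ℂ} (h : Dat ρ β H Φ) (A : List ℕ) :
    ContinuousOn (fun z => ‖ev (cc H z) A‖ ^ 2) (closedBall 0 1) :=
  (cont_ev_cc h.one_lt h.diff A).norm.pow 2

theorem SA_nonneg {ρ : ℝ} {β H : ℂ → ℂ} {Φ : ℂ → ℂ → ℂ} (h : Dat ρ β H Φ) {b : ℝ}
    (hb : 0 < b) (s : ℂ) (A : List ℕ) : 0 ≤ SA s H b A :=
  LS_nonneg (cont_H h) hb (cont_A h A) (fun z _ => by positivity)

theorem SA_cons (k : ℕ) (A : List ℕ) : ∃ C : ℝ, 0 ≤ C ∧ ∀ (ρ : ℝ) (β H : ℂ → ℂ)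
    (Φ : ℂ → ℂ → ℂ), Dat ρ β H Φ → ∀ (s : ℂ) (b : ℝ), 0 < b →
      SA s H b (k :: A) ≤ C * SA s H b [k] := by
  obtain ⟨Cb, hC0, hCb⟩ := gg_bound
  refine ⟨(A.map Cb).prod ^ 2, by positivity, fun ρ β H Φ h s b hb => ?_⟩
  have h1 : SA s H b (k :: A) ≤ LS s H b (fun z => (A.map Cb).prod ^ 2 * ‖ev (cc H z) [k]‖ ^ 2) := by
    apply LS_mono (cont_H h) hb (cont_A h _) (continuousOn_const.mul (cont_A h _))
    intro z hz
    have h5 := (ev_bound hC0 (fun n => hCb H (h.diff.mono (ball_subset_ball h.one_lt.le))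
      h.bloch n z hz) A).1
    have h6 : ‖ev (cc H z) A‖ ^ 2 ≤ (A.map Cb).prod ^ 2 :=
      pow_le_pow_left₀ (norm_nonneg _) h5 2
    show ‖ev (cc H z) (k :: A)‖ ^ 2 ≤ (A.map Cb).prod ^ 2 * ‖ev (cc H z) [k]‖ ^ 2
    rw [ev_cons, ev_cons, ev_nil, mul_one, norm_mul, mul_pow, mul_comm]
    exact mul_le_mul_of_nonneg_right h6 (by positivity)
  rw [LS_smul] at h1
  exact h1

/-- comparison of two norms by the coefficients -/
theorem SA_step {ρ : ℝ} {β H : ℂ → ℂ} {Φ : ℂ → ℂ → ℂ} (h : Dat ρ β H Φ) {b : ℝ}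
    (hb : 0 < b) (hb1 : b ≤ 1) (s : ℂ) {A B C D : List ℕ} (hB : wt B = wt A + 1)
    (hC : wt C = wt B) (hD : wt D = wt B)
    (hx : ∀ m : ℕ, ‖xc s H B m‖ ≤ m * ‖xc s H A m‖ + 3 * ‖xc s H C m‖ + ‖xc s H D m‖) :
    SA s H b B ≤ 3 * ((2 * (wt A : ℝ) + 3) ^ 2 * SA s H b A + 9 * SA s H b C + SA s H b D) := by
  have sB := SA_hasSum h hb s B
  have sA := SA_hasSum h hb s A
  have sC := SA_hasSum h hb s C
  have sD := SA_hasSum h hb s D
  rw [hC] at sC
  rw [hD] at sD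
  have s1 := (((sA.mul_left ((2 * (wt A : ℝ) + 3) ^ 2)).add (sC.mul_left 9)).add sD).mul_left 3
  refine hasSum_le ?_ sB s1
  intro m
  set k : ℝ := (wt A : ℝ) with hk
  have hk0 : 0 ≤ k := Nat.cast_nonneg _
  have hBk : (wt B : ℝ) = k + 1 := by rw [hB, hk]; push_cast; ring
  rw [hBk]
  have hm0 : (0 : ℝ) ≤ m := Nat.cast_nonneg m
  -- the weights
  have e1 := pq_add_one (b + k + k + 1) m
  have e2 := pq_add_one (b + k + k + 2) m
  rw [show b + k + k + 1 + 1 = b + k + k + 2 by ring] at e1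
  rw [show b + k + k + 2 + 1 = b + (k + 1) + (k + 1) + 1 by ring] at e2
  have p1 : 0 < pq (b + k + k + 1) m := pq_pos (by positivity) m
  have p2 : 0 < pq (b + k + k + 2) m := pq_pos (by positivity) m
  have p3 : 0 < pq (b + (k + 1) + (k + 1) + 1) m := pq_pos (by positivity) m
  set q1 := pq (b + k + k + 1) m
  set q2 := pq (b + k + k + 2) m
  set q3 := pq (b + (k + 1) + (k + 1) + 1) m
  have q2e : q2 = q1 * (b + k + k + 1 + m) / (b + k + k + 1) := by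
    rw [eq_div_iff (by positivity)]
    linear_combination e1
  have q3e : q3 = q2 * (b + k + k + 2 + m) / (b + k + k + 2) := by
    rw [eq_div_iff (by positivity)]
    linear_combination e2
  have hw : ((b + (k + 1) + (k + 1)) * q3)⁻¹ * (m : ℝ) ^ 2
      ≤ (2 * k + 3) ^ 2 * ((b + k + k) * q1)⁻¹ := by
    by_cases hm : m = 0
    · subst hm
      have hbk : 0 < b + k + k := by positivity
      simp only [Nat.cast_zero]
      have : 0 ≤ ((b + k + k) * q1)⁻¹ := by positivity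
      nlinarith only [this]
    have hm1 : (0 : ℝ) < m := by exact_mod_cast Nat.pos_of_ne_zero hm
    have e3 : ((b + (k + 1) + (k + 1)) * q3)⁻¹ * (m : ℝ) ^ 2
        = (b + k + k + 1) * ((m : ℝ) / (b + k + k + 1 + m)) * ((m : ℝ) / (b + k + k + 2 + m))
          * q1⁻¹ := by
      rw [q3e, q2e]
      have : b + (k + 1) + (k + 1) = b + k + k + 2 := by ring
      rw [this]
      field_simp
    rw [e3]
    have r1 : (m : ℝ) / (b + k + k + 1 + m) ≤ 1 := by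
      rw [div_le_one (by positivity)]
      linarith only [hb, hk0]
    have r2 : (m : ℝ) / (b + k + k + 2 + m) ≤ 1 := by
      rw [div_le_one (by positivity)]
      linarith only [hb, hk0]
    have r3 : 0 ≤ (m : ℝ) / (b + k + k + 1 + m) := by positivity
    have r4 : 0 ≤ (m : ℝ) / (b + k + k + 2 + m) := by positivity
    have r5 : (b + k + k + 1) * ((m : ℝ) / (b + k + k + 1 + m)) * ((m : ℝ) / (b + k + k + 2 + m))
        ≤ 2 * k + 2 := by
      have a1 : (m : ℝ) / (b + k + k + 1 + m) * ((m : ℝ) / (b + k + k + 2 + m)) ≤ 1 := by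
        nlinarith only [r1, r2, r4]
      have a2 : (b + k + k + 1) * ((m : ℝ) / (b + k + k + 1 + m) * ((m : ℝ) / (b + k + k + 2 + m)))
          ≤ (b + k + k + 1) * 1 := mul_le_mul_of_nonneg_left a1 (by positivity)
      linarith only [hb1, a2]
    have r6 : (2 * k + 2) ≤ (2 * k + 3) ^ 2 * (b + k + k)⁻¹ := by
      have hbk : 0 < b + k + k := by positivity
      rw [← div_eq_mul_inv, le_div_iff₀ hbk]
      nlinarith only [hb1, hBk]
    rw [mul_inv, ← mul_assoc]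
    exact mul_le_mul_of_nonneg_right (r5.trans r6) (by positivity)
  have hx2 : ‖xc s H B m‖ ^ 2
      ≤ 3 * ((m : ℝ) ^ 2 * ‖xc s H A m‖ ^ 2 + 9 * ‖xc s H C m‖ ^ 2 + ‖xc s H D m‖ ^ 2) := by
    have h1 := pow_le_pow_left₀ (norm_nonneg _) (hx m) 2
    refine h1.trans ?_
    nlinarith only [sq_nonneg (m * ‖xc s H A m‖ - 3 * ‖xc s H C m‖), sq_nonneg (m * ‖xc s H A m‖ - ‖xc s H D m‖)]
  have hq : 0 ≤ ((b + (k + 1) + (k + 1)) * q3)⁻¹ := by positivity
  have h3 := mul_le_mul_of_nonneg_left hx2 hq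
  have h4 := mul_le_mul_of_nonneg_right hw (sq_nonneg ‖xc s H A m‖)
  refine h3.trans ?_
  linarith only [h4]

theorem diff_FA {ρ : ℝ} {β H : ℂ → ℂ} {Φ : ℂ → ℂ → ℂ} (h : Dat ρ β H Φ) (s : ℂ) (A : List ℕ) :
    DifferentiableOn ℂ (FA s H A) (ball 0 1) :=
  (RelS.FA_diff s (one_pos.trans h.one_lt) h.diff A).mono (ball_subset_ball h.one_lt.le)

theorem coeff_add' {f g : ℂ → ℂ} (hf : DifferentiableOn ℂ f (ball 0 1))
    (hg : DifferentiableOn ℂ g (ball 0 1)) (n : ℕ) :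
    coeff (fun z => f z + g z) n = coeff f n + coeff g n := by
  apply Pool.Agent.M16.Helper22.Marshall.coeff_eq_of_hasSum one_pos
  intro z hz
  have h1 := Pool.Agent.M16.Helper22.Marshall.hasSum_coeff hf hz
  have h2 := Pool.Agent.M16.Helper22.Marshall.hasSum_coeff hg hz
  have h3 := h1.add h2
  simp only [← add_mul] at h3
  exact h3

/-- coefficients of a linear combination, by a list -/
theorem coeff_comb {ρ : ℝ} {β H : ℂ → ℂ} {Φ : ℂ → ℂ → ℂ} (h : Dat ρ β H Φ) (s : ℂ)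
    (l : List (ℂ × List ℕ)) (m : ℕ) :
    coeff (fun z => (l.map (fun x => x.1 * FA s H x.2 z)).sum) m
      = (l.map (fun x => x.1 * xc s H x.2 m)).sum ∧
    DifferentiableOn ℂ (fun z => (l.map (fun x => x.1 * FA s H x.2 z)).sum) (ball 0 1) := by
  induction l with
  | nil =>
    simp only [List.map_nil, List.sum_nil]
    refine ⟨?_, differentiableOn_const 0⟩
    have := coeff_const_mul 0 (fun _ => (0 : ℂ)) m
    simpa using this
  | cons x l ih =>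
    simp only [List.map_cons, List.sum_cons]
    have hd : DifferentiableOn ℂ (fun z => x.1 * FA s H x.2 z) (ball 0 1) :=
      (diff_FA h s x.2).const_mul x.1
    refine ⟨?_, hd.fun_add ih.2⟩
    rw [coeff_add' hd ih.2, ih.1, coeff_const_mul]
    rfl

/-- the derivative of the monomial of one variable -/
theorem th_coeff {ρ : ℝ} {β H : ℂ → ℂ} {Φ : ℂ → ℂ → ℂ} (h : Dat ρ β H Φ) (s : ℂ) (A : List ℕ)
    (l : List (ℂ × List ℕ))
    (hl : ∀ c : ℕ → ℂ, DGs s c A = (l.map (fun x => x.1 * ev c x.2)).sum) (m : ℕ) :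
    (m : ℂ) * xc s H A m = (l.map (fun x => x.1 * xc s H x.2 m)).sum := by
  rw [← (coeff_comb h s l m).1]
  have h1 := coeff_th (diff_FA h s A) m
  have h2 : coeff (th (FA s H A)) m
      = coeff (fun z => (l.map (fun x => x.1 * FA s H x.2 z)).sum) m := by
    apply Pool.Agent.M16.Helper22.Marshall.coeff_congr
    filter_upwards [ball_mem_nhds (0 : ℂ) (one_pos.trans h.one_lt)] with z hz
    rw [RelS.th_FA s (one_pos.trans h.one_lt) h.diff hz, hl]
    have h3 : (fun x : ℂ × List ℕ => x.1 * FA s H x.2 z)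
        = fun x : ℂ × List ℕ => Complex.exp (s * H z) * (x.1 * ev (fun k => gg H k z) x.2) := by
      funext x
      unfold FA
      ring
    rw [h3, List.sum_map_mul_left]
  rw [← h2, h1]
  rfl

theorem x_zero {ρ : ℝ} {β H : ℂ → ℂ} {Φ : ℂ → ℂ → ℂ} (h : Dat ρ β H Φ) (s : ℂ) (m : ℕ) :
    (m : ℂ) * xc s H [] m = -2 * s * xc s H [0] m := by
  have h1 := th_coeff h s [] [(-2 * s, [0])] (by
    intro c
    simp [DGs, Dv, ev]) m
  rw [h1]
  simp

theorem x_one {ρ : ℝ} {β H : ℂ → ℂ} {Φ : ℂ → ℂ → ℂ} (h : Dat ρ β H Φ) (s : ℂ) (m : ℕ) :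
    (m : ℂ) * xc s H [0] m = 3 * xc s H [1] m + (-(2 * s + 1)) * xc s H [0, 0] m := by
  have h1 := th_coeff h s [0] [(3, [1]), (-(2 * s + 1), [0, 0])] (by
    intro c
    simp [DGs, Dv, ev, dval]
    ring) m
  rw [h1]
  simp

theorem x_two {ρ : ℝ} {β H : ℂ → ℂ} {Φ : ℂ → ℂ → ℂ} (h : Dat ρ β H Φ) (s : ℂ) (m : ℕ) :
    (m : ℂ) * xc s H [1] m = 4 * xc s H [2] m + (-(2 * s)) * xc s H [0, 1] m := by
  have h1 := th_coeff h s [1] [(4, [2]), (-(2 * s), [0, 1])] (by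
    intro c
    simp [DGs, Dv, ev, dval]
    ring) m
  rw [h1]
  simp

theorem x_three {ρ : ℝ} {β H : ℂ → ℂ} {Φ : ℂ → ℂ → ℂ} (h : Dat ρ β H Φ) (s : ℂ) (m : ℕ) :
    (m : ℂ) * xc s H [2] m = 5 * xc s H [3] m + (-(2 * s)) * xc s H [0, 2] m
      + xc s H [1, 1] m := by
  have h1 := th_coeff h s [2] [(5, [3]), (-(2 * s), [0, 2]), (1, [1, 1])] (by
    intro c
    simp [DGs, Dv, ev, dval]
    ring) m
  rw [h1]
  simp
  ring

/-- all the single jets are controlled by the first one -/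
theorem S1_bound : ∃ C : ℝ, 0 ≤ C ∧ ∀ (ρ : ℝ) (β H : ℂ → ℂ) (Φ : ℂ → ℂ → ℂ), Dat ρ β H Φ →
    ∀ (s : ℂ), ‖s‖ ≤ 1 → ∀ (b : ℝ), 0 < b → b ≤ 1 → ∀ k ≤ 3,
      SA s H b [k] ≤ C * SA s H b [0] := by
  obtain ⟨C1, hC1, h00⟩ := SA_cons 0 [0]
  obtain ⟨C2, hC2, h01⟩ := SA_cons 0 [1]
  obtain ⟨C3, hC3, h02⟩ := SA_cons 0 [2]
  obtain ⟨C4, hC4, h11⟩ := SA_cons 1 [1]
  set D1 : ℝ := 3 * (5 ^ 2 + 10 * C1) with hD1
  set D2 : ℝ := 3 * (7 ^ 2 * D1 + 10 * C2) with hD2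
  set D3 : ℝ := 3 * (9 ^ 2 * D2 + 9 * C3 + C4 * D1) with hD3
  have p1 : 0 ≤ D1 := by positivity
  have p2 : 0 ≤ D2 := by positivity
  have p3 : 0 ≤ D3 := by positivity
  refine ⟨1 + D1 + D2 + D3, by positivity, fun ρ β H Φ h s hs b hb hb1 k hk => ?_⟩
  have g00 := h00 ρ β H Φ h s b hb
  have g01 := h01 ρ β H Φ h s b hb
  have g02 := h02 ρ β H Φ h s b hb
  have g11 := h11 ρ β H Φ h s b hb
  have n0 := SA_nonneg h hb s [0]
  have n2s : ‖2 * s‖ ≤ 2 := by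
    rw [norm_mul]
    simp
    linarith only [hs]
  have n2s1 : ‖2 * s + 1‖ ≤ 3 := by
    refine (norm_add_le _ _).trans ?_
    simp only [norm_one]
    linarith only [n2s]
  have k1 : SA s H b [1] ≤ D1 * SA s H b [0] := by
    have h1 := SA_step h hb hb1 s (A := [0]) (B := [1]) (C := [0, 0]) (D := [0, 0]) rfl rfl rfl
      (fun m => by
        have e := x_one h s m
        have e2 : 3 * xc s H [1] m = (m : ℂ) * xc s H [0] m + (2 * s + 1) * xc s H [0, 0] m := by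
          linear_combination -e
        have e3 : 3 * ‖xc s H [1] m‖ = ‖3 * xc s H [1] m‖ := by rw [norm_mul]; simp
        have e4 : ‖3 * xc s H [1] m‖ ≤ m * ‖xc s H [0] m‖ + 3 * ‖xc s H [0, 0] m‖ := by
          rw [e2]
          refine (norm_add_le _ _).trans ?_
          rw [norm_mul, norm_mul, Complex.norm_natCast]
          have := mul_le_mul_of_nonneg_right n2s1 (norm_nonneg (xc s H [0, 0] m))
          linarith only [this]
        have := norm_nonneg (xc s H [1] m)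
        have := norm_nonneg (xc s H [0, 0] m)
        linarith)
    have e : (wt [0] : ℝ) = 1 := by norm_num [wt]
    rw [e] at h1
    rw [hD1]
    linarith only [g00, h1]
  have k2 : SA s H b [2] ≤ D2 * SA s H b [0] := by
    have h1 := SA_step h hb hb1 s (A := [1]) (B := [2]) (C := [0, 1]) (D := [0, 1]) rfl rfl rfl
      (fun m => by
        have e := x_two h s m
        have e2 : 4 * xc s H [2] m = (m : ℂ) * xc s H [1] m + (2 * s) * xc s H [0, 1] m := by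
          linear_combination -e
        have e3 : 4 * ‖xc s H [2] m‖ = ‖4 * xc s H [2] m‖ := by rw [norm_mul]; simp
        have e4 : ‖4 * xc s H [2] m‖ ≤ m * ‖xc s H [1] m‖ + 2 * ‖xc s H [0, 1] m‖ := by
          rw [e2]
          refine (norm_add_le _ _).trans ?_
          rw [norm_mul, norm_mul (2 * s), Complex.norm_natCast]
          have := mul_le_mul_of_nonneg_right n2s (norm_nonneg (xc s H [0, 1] m))
          linarith only [this]
        have := norm_nonneg (xc s H [2] m)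
        have := norm_nonneg (xc s H [0, 1] m)
        linarith)
    have e : (wt [1] : ℝ) = 2 := by norm_num [wt]
    rw [e] at h1
    have a1 := mul_le_mul_of_nonneg_left k1 (show (0 : ℝ) ≤ 3 * 49 by norm_num)
    rw [hD2]
    linarith only [g01, k1, h1]
  have k3 : SA s H b [3] ≤ D3 * SA s H b [0] := by
    have h1 := SA_step h hb hb1 s (A := [2]) (B := [3]) (C := [0, 2]) (D := [1, 1]) rfl rfl rfl
      (fun m => by
        have e := x_three h s m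
        have e2 : 5 * xc s H [3] m = (m : ℂ) * xc s H [2] m + (2 * s) * xc s H [0, 2] m
            + -(xc s H [1, 1] m) := by
          linear_combination -e
        have e3 : 5 * ‖xc s H [3] m‖ = ‖5 * xc s H [3] m‖ := by rw [norm_mul]; simp
        have e4 : ‖5 * xc s H [3] m‖ ≤ m * ‖xc s H [2] m‖ + 2 * ‖xc s H [0, 2] m‖
            + ‖xc s H [1, 1] m‖ := by
          rw [e2]
          refine (norm_add₃_le).trans ?_
          rw [norm_mul, norm_mul (2 * s), Complex.norm_natCast, norm_neg]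
          have := mul_le_mul_of_nonneg_right n2s (norm_nonneg (xc s H [0, 2] m))
          linarith only [this]
        have := norm_nonneg (xc s H [3] m)
        have := norm_nonneg (xc s H [0, 2] m)
        linarith)
    have e : (wt [2] : ℝ) = 3 := by norm_num [wt]
    rw [e] at h1
    have a1 := mul_le_mul_of_nonneg_left k2 (show (0 : ℝ) ≤ 3 * 81 by norm_num)
    have a2 := mul_le_mul_of_nonneg_left k1 hC4
    rw [hD3]
    linarith only [g02, g11, h1, a1, a2]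
  have hk' : k = 0 ∨ k = 1 ∨ k = 2 ∨ k = 3 := by omega
  have q1 := mul_nonneg p1 n0
  have q2 := mul_nonneg p2 n0
  have q3 := mul_nonneg p3 n0
  rcases hk' with rfl | rfl | rfl | rfl <;> linarith only [q1, q2, q3, n0, k1, k2, k3]

/-! ### the monomials which occur -/

/-- the monomials which occur -/
def Lst : Fin 11 → List ℕ :=
  ![[0], [0, 0], [1], [0, 0, 0, 0], [0, 0, 1], [1, 1], [3], [0, 2], [2], [0, 1], [0, 0, 0]]

theorem Lst_form (i : Fin 11) : ∃ (k : ℕ) (A : List ℕ), k ≤ 3 ∧ Lst i = k :: A := by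
  fin_cases i <;> exact ⟨_, _, by decide, rfl⟩

/-- the sum of the normalised moduli -/
noncomputable def NN (s : ℂ) (H : ℂ → ℂ) (m : ℕ) : ℝ := ∑ i, yc s H (Lst i) m

/-- the sum of the squares of the normalised moduli -/
noncomputable def S2 (s : ℂ) (H : ℂ → ℂ) (m : ℕ) : ℝ := ∑ i, yc s H (Lst i) m ^ 2

theorem yc_le (s : ℂ) (H : ℂ → ℂ) (m : ℕ) (i : Fin 11) : yc s H (Lst i) m ≤ NN s H m :=
  Finset.single_le_sum (f := fun i => yc s H (Lst i) m) (fun i _ => yc_nonneg s H (Lst i) m)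
    (Finset.mem_univ i)

theorem NN_nonneg (s : ℂ) (H : ℂ → ℂ) (m : ℕ) : 0 ≤ NN s H m :=
  Finset.sum_nonneg fun i _ => yc_nonneg s H (Lst i) m

theorem NN_sq (s : ℂ) (H : ℂ → ℂ) (m : ℕ) : NN s H m ^ 2 ≤ 11 * S2 s H m := by
  have h := sq_sum_le_card_mul_sum_sq (s := (Finset.univ : Finset (Fin 11)))
    (f := fun i => yc s H (Lst i) m)
  unfold NN S2
  simpa using h

theorem SA_all (k : ℕ) (hk : k ≤ 3) (A : List ℕ) : ∃ C : ℝ, 0 ≤ C ∧ ∀ (ρ : ℝ) (β H : ℂ → ℂ)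
    (Φ : ℂ → ℂ → ℂ), Dat ρ β H Φ → ∀ (s : ℂ), ‖s‖ ≤ 1 → ∀ (b : ℝ), 0 < b → b ≤ 1 →
      SA s H b (k :: A) ≤ C * SA s H b [0] := by
  obtain ⟨C1, hC1, h1⟩ := SA_cons k A
  obtain ⟨C2, hC2, h2⟩ := S1_bound
  refine ⟨C1 * C2, by positivity, fun ρ β H Φ h s hs b hb hb1 => ?_⟩
  have g1 := h1 ρ β H Φ h s b hb
  have g2 := h2 ρ β H Φ h s hs b hb hb1 k hk
  have g3 := mul_le_mul_of_nonneg_left g2 hC1
  rw [mul_assoc]
  exact g1.trans g3

theorem y_term {b : ℝ} (hb : 0 < b) (hb1 : b ≤ 1) (s : ℂ) (H : ℂ → ℂ) {A : List ℕ}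
    (hA : 1 ≤ wt A) (m : ℕ) :
    Wm b m * yc s H A m ^ 2 ≤ 6 * (((2 * wt A - 1 : ℕ) : ℝ) + 4) ^ (2 * wt A - 1)
      * (((b + wt A + wt A) * pq (b + wt A + wt A + 1) m)⁻¹ * ‖xc s H A m‖ ^ 2) := by
  set v : ℕ := 2 * wt A - 1 with hv
  have hv1 : v + 1 = wt A + wt A := by omega
  have hc : b + ((v + 1 : ℕ) : ℝ) = b + wt A + wt A := by
    rw [hv1]
    push_cast
    ring
  have p2 : 0 < pq (b + wt A + wt A + 1) m := pq_pos (by positivity) _
  by_cases hm : m = 0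
  · subst hm
    have : Wm b 0 = 0 := by simp [Wm]
    rw [this, zero_mul]
    positivity
  have hm1 : 1 ≤ m := Nat.one_le_iff_ne_zero.mpr hm
  have hm0 : (0 : ℝ) < m := by exact_mod_cast hm1
  have h1 := om_eq hb v hm1
  have h2 := om_le hb hb1 v m
  have h3 := tq_ge hb hb1 v hm1
  have hW := Wm_nonneg hb m
  rw [hc] at h2
  set R : ℝ := ((b + wt A + wt A) * pq (b + wt A + wt A + 1) m)⁻¹ with hR
  set V : ℝ := ((v : ℝ) + 4) ^ v with hV
  have hV0 : 0 ≤ V := by positivity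
  set x := ‖xc s H A m‖ with hx
  have hp : 0 < (m : ℝ) ^ (v + 1) := by positivity
  have h4 : Wm b m ≤ V * (6 * R) * (m : ℝ) ^ (v + 1) := by
    calc Wm b m = Wm b m * 1 := (mul_one _).symm
      _ ≤ Wm b m * (V * tq b v m) := mul_le_mul_of_nonneg_left h3 hW
      _ = V * (om b v m * (m : ℝ) ^ (v + 1)) := by rw [h1]; ring
      _ ≤ V * ((6 * R) * (m : ℝ) ^ (v + 1)) :=
          mul_le_mul_of_nonneg_left (mul_le_mul_of_nonneg_right h2 hp.le) hV0
      _ = _ := by ring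
  have h5 : yc s H A m ^ 2 = x ^ 2 / (m : ℝ) ^ (v + 1) := by
    unfold yc
    rw [div_pow, ← pow_mul, hv1]
    congr 2
    omega
  rw [h5]
  calc Wm b m * (x ^ 2 / (m : ℝ) ^ (v + 1))
      ≤ (V * (6 * R) * (m : ℝ) ^ (v + 1)) * (x ^ 2 / (m : ℝ) ^ (v + 1)) :=
        mul_le_mul_of_nonneg_right h4 (by positivity)
    _ = 6 * V * (R * x ^ 2) := by
        field_simp

theorem y_sum {A : List ℕ} (hA : 1 ≤ wt A) : ∃ C : ℝ, 0 ≤ C ∧
    ∀ (ρ : ℝ) (β H : ℂ → ℂ) (Φ : ℂ → ℂ → ℂ), Dat ρ β H Φ → ∀ (s : ℂ) (b : ℝ), 0 < b → b ≤ 1 →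
      ∀ fs : Finset ℕ, ∑ m ∈ fs, Wm b m * yc s H A m ^ 2 ≤ C * SA s H b A := by
  refine ⟨6 * (((2 * wt A - 1 : ℕ) : ℝ) + 4) ^ (2 * wt A - 1), by positivity,
    fun ρ β H Φ h s b hb hb1 fs => ?_⟩
  have h1 := SA_hasSum h hb s A
  refine (Finset.sum_le_sum fun m _ => y_term hb hb1 s H hA m).trans ?_
  rw [← Finset.mul_sum]
  apply mul_le_mul_of_nonneg_left _ (by positivity)
  apply sum_le_hasSum _ _ h1
  intro m _
  have p2 : 0 < pq (b + wt A + wt A + 1) m := pq_pos (by positivity) _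
  positivity

theorem S2_sum : ∃ C : ℝ, 0 ≤ C ∧
    ∀ (ρ : ℝ) (β H : ℂ → ℂ) (Φ : ℂ → ℂ → ℂ), Dat ρ β H Φ → ∀ (s : ℂ), ‖s‖ ≤ 1 → ∀ (b : ℝ),
      0 < b → b ≤ 1 → ∀ fs : Finset ℕ, ∑ m ∈ fs, Wm b m * S2 s H m ≤ C * SA s H b [0] := by
  have h : ∀ i : Fin 11, ∃ C : ℝ, 0 ≤ C ∧
      ∀ (ρ : ℝ) (β H : ℂ → ℂ) (Φ : ℂ → ℂ → ℂ), Dat ρ β H Φ → ∀ (s : ℂ), ‖s‖ ≤ 1 → ∀ (b : ℝ),
      0 < b → b ≤ 1 → ∀ fs : Finset ℕ,
        ∑ m ∈ fs, Wm b m * yc s H (Lst i) m ^ 2 ≤ C * SA s H b [0] := by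
    intro i
    obtain ⟨k, A, hk, hA⟩ := Lst_form i
    rw [hA]
    have hw : 1 ≤ wt (k :: A) := by rw [wt_cons]; omega
    obtain ⟨C1, hC1, h1⟩ := y_sum hw
    obtain ⟨C2, hC2, h2⟩ := SA_all k hk A
    refine ⟨C1 * C2, by positivity, fun ρ β H Φ h s hs b hb hb1 fs => ?_⟩
    refine (h1 ρ β H Φ h s b hb hb1 fs).trans ?_
    rw [mul_assoc]
    exact mul_le_mul_of_nonneg_left (h2 ρ β H Φ h s hs b hb hb1) hC1
  choose C hC0 hC using h
  refine ⟨∑ i, C i, Finset.sum_nonneg fun i _ => hC0 i, fun ρ β H Φ hd s hs b hb hb1 fs => ?_⟩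
  have e : ∑ m ∈ fs, Wm b m * S2 s H m = ∑ i, ∑ m ∈ fs, Wm b m * yc s H (Lst i) m ^ 2 := by
    rw [Finset.sum_comm]
    apply Finset.sum_congr rfl
    intro m _
    unfold S2
    rw [Finset.mul_sum]
  rw [e, Finset.sum_mul]
  apply Finset.sum_le_sum
  intro i _
  exact hC i ρ β H Φ hd s hs b hb hb1 fs

/-- the coefficients are bounded in the class -/
theorem xc_bound (A : List ℕ) (m : ℕ) : ∃ B : ℝ, 0 ≤ B ∧ ∀ (ρ : ℝ) (β H : ℂ → ℂ)
    (Φ : ℂ → ℂ → ℂ), Dat ρ β H Φ → ∀ s : ℂ, ‖s‖ ≤ 1 → ‖xc s H A m‖ ≤ B := by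
  obtain ⟨Cb, hC0, hCb⟩ := gg_bound
  have hP := (ev_bound hC0 (c := fun n => (0:ℂ)) (fun n => by simpa using hC0 n) A).2
  refine ⟨4 / 3 * ((4 / 3) ^ wt A * (A.map Cb).prod) * 2 ^ m, by positivity,
    fun ρ β H Φ h s hs => ?_⟩
  have h1 := Pool.Agent.M16.Helper22.Marshall.coeff_bound (diff_FA h s A) (r := 1 / 2)
    (M := 4 / 3 * ((4 / 3) ^ wt A * (A.map Cb).prod)) (by norm_num) (by norm_num)
    (fun z hz => by
      have hzb : z ∈ ball (0 : ℂ) 1 := by rw [mem_ball_zero_iff]; linarith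
      have hs34 : 3 / 4 ≤ 1 - ‖z‖ ^ 2 := by
        have := norm_nonneg z
        nlinarith only [hz, this]
      have hpos : 0 < 1 - ‖z‖ ^ 2 := by linarith
      have h2 : ‖Complex.exp (s * H z)‖ ≤ 4 / 3 := by
        rw [Complex.norm_exp]
        have g1 : (s * H z).re ≤ ‖s * H z‖ := Complex.re_le_norm _
        have g2 : ‖s * H z‖ ≤ ‖H z‖ := by
          rw [norm_mul]
          have := mul_le_mul_of_nonneg_right hs (norm_nonneg (H z))
          linarith only [this]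
        have g3 := h.gol z hzb
        have g4 : Real.exp (s * H z).re ≤ Real.exp (Real.log (1 / (1 - ‖z‖ ^ 2))) :=
          Real.exp_le_exp.mpr (by linarith only [g1, g2, g3])
        rw [Real.exp_log (by positivity)] at g4
        refine g4.trans ?_
        rw [div_le_div_iff₀ hpos (by norm_num)]
        linarith only [hs34]
      have h3 := (ev_bound hC0 (fun n => hCb H (h.diff.mono (ball_subset_ball h.one_lt.le))
        h.bloch n z hzb) A).1
      have h4 : ‖ev (fun k => gg H k z) A‖ ≤ (4 / 3) ^ wt A * (A.map Cb).prod := by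
        rw [ev_cc, norm_mul, Complex.norm_real, Real.norm_of_nonneg (by positivity)] at h3
        have h5 : (3 / 4 : ℝ) ^ wt A ≤ (1 - ‖z‖ ^ 2) ^ wt A :=
          pow_le_pow_left₀ (by norm_num) hs34 _
        have h6 : (3 / 4 : ℝ) ^ wt A * ‖ev (fun k => gg H k z) A‖ ≤ (A.map Cb).prod :=
          (mul_le_mul_of_nonneg_right h5 (norm_nonneg _)).trans h3
        have h7 : (4 / 3 : ℝ) ^ wt A * (3 / 4 : ℝ) ^ wt A = 1 := by
          rw [← mul_pow]; norm_num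
        calc ‖ev (fun k => gg H k z) A‖
            = (4 / 3 : ℝ) ^ wt A * ((3 / 4 : ℝ) ^ wt A * ‖ev (fun k => gg H k z) A‖) := by
              rw [← mul_assoc, h7, one_mul]
          _ ≤ _ := mul_le_mul_of_nonneg_left h6 (by positivity)
      unfold FA
      rw [norm_mul]
      exact mul_le_mul h2 h4 (norm_nonneg _) (by norm_num)) m
  rw [one_div, inv_pow] at h1
  have h2 : (0 : ℝ) < 2 ^ m := by positivity
  unfold xc
  calc ‖coeff (FA s H A) m‖ = ‖coeff (FA s H A) m‖ * (2 ^ m)⁻¹ * 2 ^ m := by field_simp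
    _ ≤ 4 / 3 * ((4 / 3) ^ wt A * (A.map Cb).prod) * 2 ^ m :=
      mul_le_mul_of_nonneg_right h1 h2.le

/-! ### the main parts -/

/-- the main parts as lists -/
noncomputable def LY (s : ℂ) : ℕ → List (ℂ × List ℕ)
  | 0 => [(-2, [0])]
  | 1 => [(1 / 2, [0, 0]), (-(1 / 2), [1])]
  | 2 => [(3 / 4 * (s - 1) + 3 / 2, [0, 0, 0, 0]), (-(3 / 2) * (s - 1) - 9 / 2, [0, 0, 1]),
      (3 / 4 * (s - 1) + 3 / 2, [1, 1]), (-(3 / 2), [3]), (3, [0, 2])]
  | _ => []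

theorem LY_eq (s : ℂ) (c : ℕ → ℂ) (r : ℕ) :
    YS s c r = ((LY s r).map (fun x => x.1 * ev c x.2)).sum := by
  match r with
  | 0 => simp [YS, LY, ev]
  | 1 => simp [YS, LY, ev]; ring
  | 2 => simp [YS, LY, ev]; ring
  | (r + 3) => simp [YS, LY]

theorem YS_scale (s t : ℂ) (g : ℕ → ℂ) (r : ℕ) :
    YS s (fun n => t ^ (n + 1) * g n) r = t ^ (wY r) * YS s g r := by
  match r with
  | 0 => simp only [YS, wY]; ring
  | 1 => simp only [YS, wY]; ring
  | 2 => simp only [YS, wY]; ring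
  | (r + 3) => simp only [YS, wY]; ring

theorem YS_cc (s : ℂ) (H : ℂ → ℂ) (z : ℂ) (r : ℕ) :
    YS s (cc H z) r = (((1 - ‖z‖ ^ 2) ^ (wY r) : ℝ) : ℂ) * YS s (fun k => gg H k z) r := by
  rw [cc_eq, YS_scale]
  push_cast
  ring

/-- the main functions -/
noncomputable def YF (s : ℂ) (H : ℂ → ℂ) (r : ℕ) (z : ℂ) : ℂ :=
  Complex.exp (s * H z) * YS s (fun k => gg H k z) r

/-- their coefficients -/
noncomputable def Yx (s : ℂ) (H : ℂ → ℂ) (r m : ℕ) : ℂ := coeff (YF s H r) m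

theorem YF_list (s : ℂ) (H : ℂ → ℂ) (r : ℕ) :
    YF s H r = fun z => ((LY s r).map (fun x => x.1 * FA s H x.2 z)).sum := by
  funext z
  unfold YF
  rw [LY_eq, ← List.sum_map_mul_left]
  congr 1
  apply List.map_congr_left
  intro x _
  unfold FA
  ring

theorem Yx_list {ρ : ℝ} {β H : ℂ → ℂ} {Φ : ℂ → ℂ → ℂ} (h : Dat ρ β H Φ) (s : ℂ) (r m : ℕ) :
    Yx s H r m = ((LY s r).map (fun x => x.1 * xc s H x.2 m)).sum := by
  unfold Yx
  rw [YF_list, (coeff_comb h s (LY s r) m).1]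

theorem YF_diff {ρ : ℝ} {β H : ℂ → ℂ} {Φ : ℂ → ℂ → ℂ} (h : Dat ρ β H Φ) (s : ℂ) (r : ℕ) :
    DifferentiableOn ℂ (YF s H r) (ball 0 ρ) := by
  rw [YF_list]
  have hρ : 0 < ρ := one_pos.trans h.one_lt
  generalize LY s r = l
  induction l with
  | nil =>
    simp only [List.map_nil, List.sum_nil]
    exact differentiableOn_const 0
  | cons x l ih =>
    simp only [List.map_cons, List.sum_cons]
    exact ((RelS.FA_diff s hρ h.diff x.2).const_mul x.1).fun_add ih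

theorem YS_cont {ρ : ℝ} {β H : ℂ → ℂ} {Φ : ℂ → ℂ → ℂ} (h : Dat ρ β H Φ) (s : ℂ) (r : ℕ) :
    ContinuousOn (fun z => YS s (cc H z) r) (closedBall 0 1) := by
  have e : (fun z => YS s (cc H z) r)
      = fun z => ((LY s r).map (fun x => x.1 * ev (cc H z) x.2)).sum := by
    funext z
    exact LY_eq s (cc H z) r
  rw [e]
  generalize LY s r = l
  induction l with
  | nil =>
    simp only [List.map_nil, List.sum_nil]
    exact continuousOn_const
  | cons x l ih =>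
    simp only [List.map_cons, List.sum_cons]
    exact (continuousOn_const.mul (cont_ev_cc h.one_lt h.diff x.2)).add ih

theorem pair_cont {ρ : ℝ} {β H : ℂ → ℂ} {Φ : ℂ → ℂ → ℂ} (h : Dat ρ β H Φ) (s ζ : ℂ)
    (r t : ℕ) : ContinuousOn (fun z => (ζ * (YS s (cc H z) t * conj (YS s (cc H z) r))).re)
      (closedBall 0 1) := by
  have h1 := YS_cont h s r
  have h2 := YS_cont h s t
  exact Complex.continuous_re.comp_continuousOn
    (continuousOn_const.mul (h2.mul (Complex.continuous_conj.comp_continuousOn h1)))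

theorem pair_sum {ρ : ℝ} {β H : ℂ → ℂ} {Φ : ℂ → ℂ → ℂ} (h : Dat ρ β H Φ) {b : ℝ}
    (hb : 0 < b) (s ζ : ℂ) (r t : ℕ) :
    HasSum (fun m : ℕ => ((b + (wY r + wY t : ℕ)) * pq (b + (wY r + wY t : ℕ) + 1) m)⁻¹
      * (ζ * (Yx s H t m * conj (Yx s H r m))).re)
      (LS s H b (fun z => (ζ * (YS s (cc H z) t * conj (YS s (cc H z) r))).re)) := by
  have hw : (0 : ℝ) ≤ ((wY r + wY t : ℕ) : ℝ) := Nat.cast_nonneg _
  have hp : -1 < b - 1 + ((wY r + wY t : ℕ) : ℝ) := by linarith only [hb]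
  have h1 := bridge_s h.one_lt (YF_diff h s t) (YF_diff h s r) hp ζ
  have e1 : b - 1 + ((wY r + wY t : ℕ) : ℝ) + 1 = b + ((wY r + wY t : ℕ) : ℝ) := by ring
  have e2 : b - 1 + ((wY r + wY t : ℕ) : ℝ) + 2 = b + ((wY r + wY t : ℕ) : ℝ) + 1 := by ring
  rw [e1, e2] at h1
  have e3 : LS s H b (fun z => (ζ * (YS s (cc H z) t * conj (YS s (cc H z) r))).re)
      = (1 / π) * ∫ z in ball (0 : ℂ) 1, (1 - ‖z‖ ^ 2) ^ (b - 1 + ((wY r + wY t : ℕ) : ℝ))
        * (ζ * (YF s H t z * conj (YF s H r z))).re := by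
    unfold LS
    congr 1
    apply setIntegral_congr_fun measurableSet_ball
    intro z hz
    have hz1 : ‖z‖ < 1 := by simpa using hz
    have ht : 0 < 1 - ‖z‖ ^ 2 := by nlinarith only [norm_nonneg z, hz1]
    simp only
    rw [YS_cc, YS_cc, mul_assoc, RelS.hprod, ← RelS.rpow_shift ht, pow_add]
    unfold YF
    ring
  rw [e3]
  exact h1

theorem LS_fsum {s : ℂ} {H : ℂ → ℂ} {b : ℝ} (hH : ContinuousOn H (closedBall 0 1)) (hb : 0 < b)
    {ι : Type} [DecidableEq ι] (u : Finset ι) (f : ι → ℂ → ℝ)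
    (hf : ∀ i ∈ u, ContinuousOn (f i) (closedBall 0 1)) :
    LS s H b (fun z => ∑ i ∈ u, f i z) = ∑ i ∈ u, LS s H b (f i) := by
  induction u using Finset.induction_on with
  | empty =>
    unfold LS
    simp
  | insert i u hi ih =>
    have h1 := ih (fun j hj => hf j (Finset.mem_insert_of_mem hj))
    have h2 : ContinuousOn (fun z => ∑ j ∈ u, f j z) (closedBall 0 1) :=
      continuousOn_finsetSum u (fun j hj => hf j (Finset.mem_insert_of_mem hj))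
    rw [Finset.sum_insert hi, ← h1, ← LS_add hH hb (hf i (Finset.mem_insert_self i u)) h2]
    apply LS_congr
    intro z _
    rw [Finset.sum_insert hi]

/-- the term of order `m` of the form -/
noncomputable def cmS (Q : ℕ → ℕ → ℂ) (s : ℂ) (b : ℝ) (H : ℂ → ℂ) (m : ℕ) : ℝ :=
  ∑ r ∈ Finset.range 3, ∑ t ∈ Finset.range 3, om b (wY r + wY t - 1) m
    * (Q r t * (Yx s H t m * conj (Yx s H r m))).re

theorem wY_pos {r : ℕ} (hr : r < 3) : 1 ≤ wY r ∧ wY r ≤ 4 := by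
  interval_cases r <;> simp [wY]

theorem cmS_hasSum {ρ : ℝ} {β H : ℂ → ℂ} {Φ : ℂ → ℂ → ℂ} (h : Dat ρ β H Φ) {b : ℝ}
    (hb : 0 < b) (s : ℂ) (Q : ℕ → ℕ → ℂ) :
    HasSum (cmS Q s b H) (LS s H b (fun z => qY Q s b (cc H z))) := by
  have e : LS s H b (fun z => qY Q s b (cc H z)) = ∑ r ∈ Finset.range 3, ∑ t ∈ Finset.range 3,
      ((b + 1) * (b + 2) / poch (b + 1) (wY r + wY t - 1))
      * LS s H b (fun z => (Q r t * (YS s (cc H z) t * conj (YS s (cc H z) r))).re) := by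
    have e1 : (fun z => qY Q s b (cc H z)) = fun z => ∑ r ∈ Finset.range 3,
        ∑ t ∈ Finset.range 3, ((b + 1) * (b + 2) / poch (b + 1) (wY r + wY t - 1))
        * (Q r t * (YS s (cc H z) t * conj (YS s (cc H z) r))).re := by
      funext z
      unfold qY
      rw [Finset.mul_sum]
      apply Finset.sum_congr rfl
      intro r _
      rw [Finset.mul_sum]
      apply Finset.sum_congr rfl
      intro t _
      ring
    rw [e1, LS_fsum (cont_H h) hb]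
    · apply Finset.sum_congr rfl
      intro r _
      rw [LS_fsum (cont_H h) hb]
      · apply Finset.sum_congr rfl
        intro t _
        exact LS_smul _ _
      · intro t _
        exact continuousOn_const.mul (pair_cont h s _ r t)
    · intro r _
      apply continuousOn_finsetSum
      intro t _
      exact continuousOn_const.mul (pair_cont h s _ r t)
  rw [e]
  apply hasSum_sum
  intro r hr
  apply hasSum_sum
  intro t ht
  have hr3 := wY_pos (Finset.mem_range.mp hr)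
  have ht3 := wY_pos (Finset.mem_range.mp ht)
  have h1 := (pair_sum h hb s (Q r t) r t).mul_left
    ((b + 1) * (b + 2) / poch (b + 1) (wY r + wY t - 1))
  have e2 : wY r + wY t - 1 + 1 = wY r + wY t := by omega
  have e3 : (fun m => (b + 1) * (b + 2) / poch (b + 1) (wY r + wY t - 1)
      * (((b + (wY r + wY t : ℕ)) * pq (b + (wY r + wY t : ℕ) + 1) m)⁻¹
      * (Q r t * (Yx s H t m * conj (Yx s H r m))).re))
      = fun m => om b (wY r + wY t - 1) m * (Q r t * (Yx s H t m * conj (Yx s H r m))).re := by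
    funext m
    unfold om
    rw [e2]
    ring
  rw [e3] at h1
  exact h1

/-! ### the even moments -/

/-- the error parts as lists -/
noncomputable def LE (s : ℂ) : ℕ → List (ℂ × List ℕ)
  | 0 => []
  | 1 => [(1 / 3, [0])]
  | 2 => [(6 / 5, [2]), (-(7 / 5) - s, [0, 1]), (1 / 5 + s, [0, 0, 0]), (-(1 / 5), [1]),
      (-(2 / 15) + s / 3, [0, 0]), (-(1 / 15), [0])]
  | _ => []

/-- the error parts -/
noncomputable def Ex (s : ℂ) (H : ℂ → ℂ) (r m : ℕ) : ℂ :=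
  ((LE s r).map (fun x => x.1 * xc s H x.2 m)).sum

theorem mom_one {ρ : ℝ} {β H : ℂ → ℂ} {Φ : ℂ → ℂ → ℂ} (h : Dat ρ β H Φ) (s : ℂ) (m : ℕ) :
    ∑ l ∈ Finset.range (m + 1), diagc (EE Φ s) m l * ((l : ℂ) - m / 2) ^ 2
      = s * (Yx s H 1 m + Ex s H 1 m) := by
  rw [jetS2 h.toData s m, Yx_list h]
  have h1 := (coeff_comb h s [(s / 2, [0, 0]), (-(s / 2), [1]), (s / 3, [0])] m).1
  have e : (fun z => Complex.exp (s * H z)
      * (XS s (fun k => gg H k z) 1 + low2S s (fun k => gg H k z)))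
      = fun z => (([(s / 2, [0, 0]), (-(s / 2), [1]), (s / 3, [0])] : List (ℂ × List ℕ)).map
        (fun x => x.1 * FA s H x.2 z)).sum := by
    funext z
    simp [XS, low2S, FA, ev]
    ring
  rw [e, h1]
  simp [LY, Ex, LE]
  ring

theorem mom_two {ρ : ℝ} {β H : ℂ → ℂ} {Φ : ℂ → ℂ → ℂ} (h : Dat ρ β H Φ) (s : ℂ) (m : ℕ) :
    ∑ l ∈ Finset.range (m + 1), diagc (EE Φ s) m l * ((l : ℂ) - m / 2) ^ 4
      = s * (Yx s H 2 m + Ex s H 2 m) := by
  rw [jetS4 h.toData s m, Yx_list h]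
  have h1 := (coeff_comb h s ((LY s 2 ++ LE s 2).map (fun x => (s * x.1, x.2))) m).1
  have e : (fun z => Complex.exp (s * H z)
      * (XS s (fun k => gg H k z) 2 + low4S s (fun k => gg H k z)))
      = fun z => (((LY s 2 ++ LE s 2).map (fun x => (s * x.1, x.2))).map
        (fun x => x.1 * FA s H x.2 z)).sum := by
    funext z
    simp [XS, low4S, FA, ev, LY, LE]
    ring
  rw [e, h1]
  simp [LY, Ex, LE]
  ring

/-- the normalised moments divided by `s` -/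
noncomputable def gt (s : ℂ) (H : ℂ → ℂ) (m r : ℕ) : ℂ :=
  Yx s H r m / (m : ℂ) ^ wY r + Ex s H r m / (m : ℂ) ^ wY r

theorem vS_eq {ρ : ℝ} {β H : ℂ → ℂ} {Φ : ℂ → ℂ → ℂ} (h : Dat ρ β H Φ) (s : ℂ) {m : ℕ}
    (hm : 1 ≤ m) {r : ℕ} (hr : r < 3) : vS (diagc (EE Φ s) m) m r = s * gt s H m r := by
  have hm0 : (m : ℂ) ≠ 0 := by
    have : m ≠ 0 := by omega
    exact_mod_cast this
  unfold vS gt
  interval_cases r
  · have h1 := x_zero h s m
    have h2 := EE_diag h.logPhi s m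
    have h3 : xc s H [] m = coeff (fun z => Complex.exp (s * H z)) m := by
      unfold xc
      congr 1
      funext z
      simp [FA, ev]
    rw [← h3] at h2
    simp only [Nat.mul_zero, pow_zero, mul_one, div_one]
    rw [h2, Yx_list h]
    simp only [LY, Ex, LE, wY, List.map_cons, List.map_nil, List.sum_cons, List.sum_nil]
    field_simp
    linear_combination h1
  · rw [show 2 * 1 = 2 by norm_num, mom_one h s m]
    simp only [wY]
    ring
  · rw [show 2 * 2 = 4 by norm_num, mom_two h s m]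
    simp only [wY]
    ring

/-! ### norms -/

theorem norm_xc (s : ℂ) (H : ℂ → ℂ) (A : List ℕ) {m : ℕ} (hm : 1 ≤ m) :
    ‖xc s H A m‖ = yc s H A m * (m : ℝ) ^ wt A := by
  unfold yc
  have h0 : (0 : ℝ) < m := by exact_mod_cast hm
  field_simp

theorem comb_norm (l : List (ℂ × List ℕ)) (f : List ℕ → ℂ) {N : ℝ}
    (hf : ∀ x ∈ l, ‖f x.2‖ ≤ N) :
    ‖(l.map (fun x => x.1 * f x.2)).sum‖ ≤ (l.map (fun x => ‖x.1‖)).sum * N := by
  induction l with
  | nil => simp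
  | cons x l ih =>
    simp only [List.map_cons, List.sum_cons]
    refine (norm_add_le _ _).trans ?_
    rw [norm_mul, add_mul]
    have h1 := ih (fun y hy => hf y (List.mem_cons_of_mem _ hy))
    have h2 := mul_le_mul_of_nonneg_left (hf x List.mem_cons_self) (norm_nonneg x.1)
    linarith only [h1, h2]

theorem xc_le (s : ℂ) (H : ℂ → ℂ) {m : ℕ} (hm : 1 ≤ m) (i : Fin 11) {w : ℕ}
    (hw : wt (Lst i) ≤ w) : ‖xc s H (Lst i) m‖ ≤ NN s H m * (m : ℝ) ^ w := by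
  have hm1 : (1 : ℝ) ≤ m := by exact_mod_cast hm
  rw [norm_xc s H _ hm]
  exact mul_le_mul (yc_le s H m i) (pow_le_pow_right₀ hm1 hw) (by positivity) (NN_nonneg s H m)

theorem LY_mem (s : ℂ) {r : ℕ} (hr : r < 3) :
    ∀ x ∈ LY s r, ∃ i : Fin 11, x.2 = Lst i ∧ wt (Lst i) ≤ wY r := by
  intro x hx
  interval_cases r
  · simp only [LY, List.mem_cons, List.not_mem_nil, or_false] at hx
    subst hx
    exact ⟨0, rfl, by decide⟩
  · simp only [LY, List.mem_cons, List.not_mem_nil, or_false] at hx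
    rcases hx with rfl | rfl
    · exact ⟨1, rfl, by decide⟩
    · exact ⟨2, rfl, by decide⟩
  · simp only [LY, List.mem_cons, List.not_mem_nil, or_false] at hx
    rcases hx with rfl | rfl | rfl | rfl | rfl
    · exact ⟨3, rfl, by decide⟩
    · exact ⟨4, rfl, by decide⟩
    · exact ⟨5, rfl, by decide⟩
    · exact ⟨6, rfl, by decide⟩
    · exact ⟨7, rfl, by decide⟩

theorem LY_sum {s : ℂ} (hs : ‖s‖ ≤ 1) {r : ℕ} (hr : r < 3) :
    ((LY s r).map (fun x => ‖x.1‖)).sum ≤ 18 := by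
  have hs1 : ‖s - 1‖ ≤ 2 := (norm_sub_le _ _).trans (by rw [norm_one]; linarith only [hs])
  have c1 : ‖3 / 4 * (s - 1) + 3 / 2‖ ≤ 3 := by
    refine (norm_add_le _ _).trans ?_
    rw [norm_mul]
    have e1 : ‖(3 / 4 : ℂ)‖ = 3 / 4 := by norm_num
    have e2 : ‖(3 / 2 : ℂ)‖ = 3 / 2 := by norm_num
    rw [e1, e2]
    linarith only [hs1]
  have c2 : ‖-(3 / 2) * (s - 1) - 9 / 2‖ ≤ 15 / 2 := by
    refine (norm_sub_le _ _).trans ?_
    rw [norm_mul, norm_neg]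
    have e1 : ‖(3 / 2 : ℂ)‖ = 3 / 2 := by norm_num
    have e2 : ‖(9 / 2 : ℂ)‖ = 9 / 2 := by norm_num
    rw [e1, e2]
    linarith only [hs1]
  interval_cases r
  · simp [LY]
    norm_num
  · simp only [LY, List.map_cons, List.map_nil, List.sum_cons, List.sum_nil, norm_neg]
    have e1 : ‖(1 / 2 : ℂ)‖ = 1 / 2 := by norm_num
    rw [e1]
    norm_num
  · simp only [LY, List.map_cons, List.map_nil, List.sum_cons, List.sum_nil, norm_neg]
    have e2 : ‖(3 / 2 : ℂ)‖ = 3 / 2 := by norm_num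
    have e3 : ‖(3 : ℂ)‖ = 3 := by norm_num
    rw [e2, e3]
    linarith only [c1, c2]

theorem Yx_norm {ρ : ℝ} {β H : ℂ → ℂ} {Φ : ℂ → ℂ → ℂ} (h : Dat ρ β H Φ) {s : ℂ}
    (hs : ‖s‖ ≤ 1) {m : ℕ} (hm : 1 ≤ m) {r : ℕ} (hr : r < 3) :
    ‖Yx s H r m / (m : ℂ) ^ wY r‖ ≤ 18 * NN s H m := by
  have hm0 : (0 : ℝ) < m := by exact_mod_cast hm
  have hN := NN_nonneg s H m
  rw [norm_div, norm_pow, Complex.norm_natCast, div_le_iff₀ (by positivity), Yx_list h]
  have key : ‖((LY s r).map (fun x => x.1 * xc s H x.2 m)).sum‖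
      ≤ ((LY s r).map (fun x => ‖x.1‖)).sum * (NN s H m * (m : ℝ) ^ wY r) := by
    apply comb_norm (LY s r) (fun A => xc s H A m)
    intro x hx
    obtain ⟨i, hi, hw⟩ := LY_mem s hr x hx
    rw [hi]
    exact xc_le s H hm i hw
  refine key.trans ?_
  have hp : 0 ≤ NN s H m * (m : ℝ) ^ wY r := by positivity
  have h1 := mul_le_mul_of_nonneg_right (LY_sum hs hr) hp
  linarith only [h1]

theorem Ex_norm {s : ℂ} (hs : ‖s‖ ≤ 1) (H : ℂ → ℂ) {m : ℕ} (hm : 1 ≤ m) {r : ℕ} (hr : r < 3) :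
    ‖Ex s H r m / (m : ℂ) ^ wY r‖ ≤ 6 * NN s H m / m := by
  have hm0 : (0 : ℝ) < m := by exact_mod_cast hm
  have hN := NN_nonneg s H m
  rw [norm_div, norm_pow, Complex.norm_natCast, div_le_iff₀ (by positivity)]
  have hw : 1 ≤ wY r := (wY_pos hr).1
  have key : ‖Ex s H r m‖ ≤ ((LE s r).map (fun x => ‖x.1‖)).sum
      * (NN s H m * (m : ℝ) ^ (wY r - 1)) := by
    apply comb_norm (LE s r) (fun A => xc s H A m)
    intro x hx
    interval_cases r
    · simp only [LE, List.not_mem_nil] at hx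
    · simp only [LE, List.mem_cons, List.not_mem_nil, or_false] at hx
      subst hx
      exact xc_le s H hm 0 (by decide)
    · simp only [LE, List.mem_cons, List.not_mem_nil, or_false] at hx
      rcases hx with rfl | rfl | rfl | rfl | rfl | rfl
      · exact xc_le s H hm 8 (by decide)
      · exact xc_le s H hm 9 (by decide)
      · exact xc_le s H hm 10 (by decide)
      · exact xc_le s H hm 2 (by decide)
      · exact xc_le s H hm 1 (by decide)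
      · exact xc_le s H hm 0 (by decide)
  have hk : ((LE s r).map (fun x => ‖x.1‖)).sum ≤ 6 := by
    interval_cases r
    · simp [LE]
    · simp only [LE, List.map_cons, List.map_nil, List.sum_cons, List.sum_nil]
      norm_num
    · simp only [LE, List.map_cons, List.map_nil, List.sum_cons, List.sum_nil]
      have c1 : ‖-(7 / 5) - s‖ ≤ 7 / 5 + 1 := by
        refine (norm_sub_le _ _).trans ?_
        rw [norm_neg]
        have e1 : ‖(7 / 5 : ℂ)‖ = 7 / 5 := by norm_num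
        rw [e1]
        linarith only [hs]
      have c2 : ‖1 / 5 + s‖ ≤ 1 / 5 + 1 := by
        refine (norm_add_le _ _).trans ?_
        have e1 : ‖(1 / 5 : ℂ)‖ = 1 / 5 := by norm_num
        rw [e1]
        linarith only [hs]
      have c3 : ‖-(2 / 15) + s / 3‖ ≤ 2 / 15 + 1 / 3 := by
        refine (norm_add_le _ _).trans ?_
        rw [norm_neg]
        have e1 : ‖(2 / 15 : ℂ)‖ = 2 / 15 := by norm_num
        have e2 : ‖s / 3‖ = ‖s‖ / 3 := by
          rw [norm_div]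
          norm_num
        rw [e1, e2]
        linarith only [hs]
      have e1 : ‖(6 / 5 : ℂ)‖ = 6 / 5 := by norm_num
      have e2 : ‖-(1 / 5 : ℂ)‖ = 1 / 5 := by rw [norm_neg]; norm_num
      have e3 : ‖-(1 / 15 : ℂ)‖ = 1 / 15 := by rw [norm_neg]; norm_num
      rw [e1, e2, e3]
      linarith only [c1, c2, c3]
  refine key.trans ?_
  have hp : 0 ≤ NN s H m * (m : ℝ) ^ (wY r - 1) := by positivity
  have h1 := mul_le_mul_of_nonneg_right hk hp
  refine h1.trans (le_of_eq ?_)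
  obtain ⟨w, hw'⟩ := Nat.exists_eq_add_of_le hw
  rw [hw']
  have e : 1 + w - 1 = w := by omega
  rw [e, pow_add]
  field_simp

theorem gt_norm {ρ : ℝ} {β H : ℂ → ℂ} {Φ : ℂ → ℂ → ℂ} (h : Dat ρ β H Φ) {s : ℂ}
    (hs : ‖s‖ ≤ 1) {m : ℕ} (hm : 1 ≤ m) {r : ℕ} (hr : r < 3) :
    ‖gt s H m r‖ ≤ 24 * NN s H m := by
  have h1 := Yx_norm h hs hm hr
  have h2 := Ex_norm hs H hm hr
  have hN := NN_nonneg s H m
  have hm1 : (1 : ℝ) ≤ m := by exact_mod_cast hm
  have h3 : 6 * NN s H m / m ≤ 6 * NN s H m := by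
    rw [div_le_iff₀ (by linarith only [hm1])]
    nlinarith only [hN, hm1]
  unfold gt
  refine (norm_add_le _ _).trans ?_
  linarith only [h1, h2, h3]

/-! ### the forms -/

theorem hF_pert (Q : ℕ → ℕ → ℂ) (u v : ℕ → ℂ) (τ : ℕ → ℕ → ℝ) {CQ U V e e' : ℝ}
    (hQ : ∀ r t, ‖Q r t‖ ≤ CQ) (hu : ∀ r < 3, ‖u r‖ ≤ U) (hv : ∀ r < 3, ‖v r‖ ≤ V)
    (hd : ∀ r < 3, ‖u r - v r‖ ≤ e) (hτ : ∀ r < 3, ∀ t < 3, |τ r t - 1| ≤ e') :
    ∑ r ∈ Finset.range 3, ∑ t ∈ Finset.range 3, τ r t * (Q r t * (u t * conj (u r))).re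
      ≤ hF 3 Q v + 9 * (CQ * (e' * U ^ 2 + e * (U + V))) := by
  have hCQ : 0 ≤ CQ := (norm_nonneg _).trans (hQ 0 0)
  have hU : 0 ≤ U := (norm_nonneg _).trans (hu 0 (by norm_num))
  have hV : 0 ≤ V := (norm_nonneg _).trans (hv 0 (by norm_num))
  have he : 0 ≤ e := (norm_nonneg _).trans (hd 0 (by norm_num))
  have he' : 0 ≤ e' := (abs_nonneg _).trans (hτ 0 (by norm_num) 0 (by norm_num))
  have h1 : ∀ r ∈ Finset.range 3, ∀ t ∈ Finset.range 3,
      τ r t * (Q r t * (u t * conj (u r))).re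
        ≤ (Q r t * (v t * conj (v r))).re + CQ * (e' * U ^ 2 + e * (U + V)) := by
    intro r hr t ht
    rw [Finset.mem_range] at hr ht
    have a1 : |(Q r t * (u t * conj (u r))).re| ≤ CQ * U ^ 2 := by
      refine (Complex.abs_re_le_norm _).trans ?_
      rw [norm_mul, norm_mul, RCLike.norm_conj, sq]
      exact mul_le_mul (hQ r t) (mul_le_mul (hu t ht) (hu r hr) (norm_nonneg _) hU)
        (by positivity) hCQ
    have a2 : |(Q r t * (u t * conj (u r))).re - (Q r t * (v t * conj (v r))).re|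
        ≤ CQ * (e * (U + V)) := by
      rw [← Complex.sub_re]
      refine (Complex.abs_re_le_norm _).trans ?_
      have e1 : Q r t * (u t * conj (u r)) - Q r t * (v t * conj (v r))
          = Q r t * ((u t - v t) * conj (u r) + v t * conj (u r - v r)) := by
        rw [map_sub]
        ring
      rw [e1, norm_mul]
      apply mul_le_mul (hQ r t) _ (norm_nonneg _) hCQ
      refine (norm_add_le _ _).trans ?_
      rw [norm_mul, norm_mul, RCLike.norm_conj, RCLike.norm_conj]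
      have b1 := mul_le_mul (hd t ht) (hu r hr) (norm_nonneg _) he
      have b2 := mul_le_mul (hv t ht) (hd r hr) (norm_nonneg _) hV
      linarith only [b1, b2]
    have a3 : (τ r t - 1) * (Q r t * (u t * conj (u r))).re ≤ e' * (CQ * U ^ 2) := by
      refine (le_abs_self _).trans ?_
      rw [abs_mul]
      exact mul_le_mul (hτ r hr t ht) a1 (abs_nonneg _) he'
    have a4 := le_abs_self ((Q r t * (u t * conj (u r))).re - (Q r t * (v t * conj (v r))).re)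
    linarith only [a2, a3, a4]
  have h2 := Finset.sum_le_sum fun r hr => Finset.sum_le_sum fun t ht => h1 r hr t ht
  refine h2.trans (le_of_eq ?_)
  unfold hF
  simp only [Finset.sum_add_distrib, Finset.sum_const, Finset.card_range]
  simp only [nsmul_eq_mul]
  push_cast
  ring

theorem hF_smul (Q : ℕ → ℕ → ℂ) (s : ℂ) {u v : ℕ → ℂ} (h : ∀ r < 3, u r = s * v r) :
    hF 3 Q u = ‖s‖ ^ 2 * hF 3 Q v := by
  unfold hF
  rw [Finset.mul_sum]
  apply Finset.sum_congr rfl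
  intro r hr
  rw [Finset.mul_sum]
  apply Finset.sum_congr rfl
  intro t ht
  rw [h r (Finset.mem_range.mp hr), h t (Finset.mem_range.mp ht)]
  have e : Q r t * (s * v t * conj (s * v r))
      = ((‖s‖ ^ 2 : ℝ) : ℂ) * (Q r t * (v t * conj (v r))) := by
    have h7 : s * conj s = ((‖s‖ ^ 2 : ℝ) : ℂ) := by
      rw [Complex.mul_conj, Complex.normSq_eq_norm_sq]
    rw [map_mul, ← h7]
    ring
  rw [e, Complex.re_ofReal_mul]

/-! ### the constant -/

theorem kap_two {s : ℂ} (hs : ‖s‖ ≤ 1 / 20) (n : ℕ) :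
    kap s.re (‖s‖ ^ 2) n ≤ 2 - 1 / ((n : ℝ) + 1) := by
  have hr := abs_le.mp ((Complex.abs_re_le_norm s).trans hs)
  have hs2 : ‖s‖ ^ 2 ≤ 1 / 400 := by
    have := norm_nonneg s
    nlinarith only [hs, this]
  induction n with
  | zero =>
    rw [kap_zero]
    norm_num
  | succ n ih =>
    rw [kap_succ]
    have hn : (0 : ℝ) ≤ n := Nat.cast_nonneg n
    have h1 : ‖s‖ ^ 2 / (((n : ℝ) + 2) * (n + 2 + 2 * s.re))
        ≤ (1 / 400) / (((n : ℝ) + 2) * (n + 1)) := by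
      apply div_le_div₀ (by norm_num) hs2 (by positivity)
      apply mul_le_mul_of_nonneg_left _ (by positivity)
      linarith only [hr]
    have h0 : 0 ≤ ‖s‖ ^ 2 / (((n : ℝ) + 2) * (n + 2 + 2 * s.re)) := by
      apply div_nonneg (by positivity)
      apply mul_nonneg (by positivity)
      linarith only [hr]
    have h2 : 1 + ‖s‖ ^ 2 / (((n : ℝ) + 2) * (n + 2 + 2 * s.re))
        ≤ 1 + (1 / 400) / (((n : ℝ) + 2) * (n + 1)) := by linarith only [h1]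
    have h3 : 0 ≤ 2 - 1 / ((n : ℝ) + 1) := by
      have : 1 / ((n : ℝ) + 1) ≤ 1 := by
        rw [div_le_one (by positivity)]
        linarith only []
      linarith only [this]
    have h4 := mul_le_mul ih h2 (by linarith only [h0]) h3
    refine h4.trans ?_
    push_cast
    have e : 2 - 1 / ((n : ℝ) + 1 + 1) - (2 - 1 / ((n : ℝ) + 1))
        * (1 + (1 / 400) / (((n : ℝ) + 2) * (n + 1)))
        = (1 / (((n : ℝ) + 2) * (n + 1))) * (1 - (2 - 1 / ((n : ℝ) + 1)) / 400) := by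
      field_simp
      ring
    have h5 : 0 ≤ (1 / (((n : ℝ) + 2) * (n + 1))) * (1 - (2 - 1 / ((n : ℝ) + 1)) / 400) := by
      apply mul_nonneg (by positivity)
      have : 0 ≤ 1 / ((n : ℝ) + 1) := by positivity
      linarith only [this]
    linarith only [e, h5]

theorem KS_two {s : ℂ} (hs : ‖s‖ ≤ 1 / 20) : KS s ≤ 2 := by
  unfold KS
  apply ciSup_le
  intro n
  have h1 := kap_two hs n
  have : 0 ≤ 1 / ((n : ℝ) + 1) := by positivity
  linarith only [h1, this]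

/-! ### the inequality for a large order -/

theorem Tg_sq (T : ℕ → ℕ → ℂ) {CT : ℝ} (hT : ∀ n r, ‖T n r‖ ≤ CT) (g : ℕ → ℂ) (n : ℕ) :
    ‖Tg 3 T g n‖ ^ 2 ≤ 3 * CT ^ 2 * ∑ r ∈ Finset.range 3, ‖g r‖ ^ 2 := by
  have hCT : 0 ≤ CT := (norm_nonneg _).trans (hT 0 0)
  have h1 : ‖Tg 3 T g n‖ ≤ ∑ r ∈ Finset.range 3, CT * ‖g r‖ := by
    unfold Tg
    refine (norm_sum_le _ _).trans ?_
    apply Finset.sum_le_sum
    intro r _
    rw [norm_mul]
    exact mul_le_mul_of_nonneg_right (hT n r) (norm_nonneg _)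
  have h2 := pow_le_pow_left₀ (norm_nonneg _) h1 2
  refine h2.trans ?_
  have h3 := sq_sum_le_card_mul_sum_sq (s := Finset.range 3) (f := fun r => CT * ‖g r‖)
  refine h3.trans (le_of_eq ?_)
  rw [Finset.card_range]
  simp only [mul_pow]
  rw [← Finset.mul_sum]
  push_cast
  ring

theorem low_order {a : ℝ} (ha : 1 / 2 ≤ a) (ha1 : a < 1) {s0 : ℝ} (hs0 : s0 ≤ 1 / 20)
    (T Q : ℂ → ℕ → ℕ → ℂ) {CT : ℝ} (hT : ∀ s : ℂ, ‖s‖ ≤ s0 → ∀ n r, ‖T s n r‖ ≤ CT)
    (hQ : ∀ s : ℂ, s ≠ 0 → ‖s‖ ≤ s0 → ∀ g : ℕ → ℂ, hF 3 (Q s) g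
      ≤ (1 - 20 * ‖s‖ ^ 2) * (linF s 3 5 g (Tg 3 (T s) g)
          - gamF s (‖s‖ ^ 2 / a) 5 (Tg 3 (T s) g))
        - a / 2 * (1 + 20 * ‖s‖ ^ 2) * ‖g 0‖ ^ 2) {δ : ℝ} (hδ : 0 < δ) :
    ∃ m0 : ℕ, ∀ m : ℕ, 1 ≤ m → m0 ≤ m → ∀ (J : ℕ) (s : ℂ), s ≠ 0 → ‖s‖ ≤ s0 →
      ∀ d : ℕ → ℂ, (∀ l ≤ m, d l = d (m - l)) →
      Wm (‖s‖ ^ 2 / a) m * (hF 3 (Q s) (vS d m) - δ * ∑ r ∈ Finset.range 3, ‖vS d m r‖ ^ 2)
        ≤ KS s * (Pf s (‖s‖ ^ 2 / a) d m - Nf s (‖s‖ ^ 2 / a) d m J) := by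
  obtain ⟨C0, hC0, hP⟩ := P_lower 3 5 (by norm_num)
  obtain ⟨m1, hm1⟩ := small_N ha ha1 (δ := δ / 2) (by positivity)
  set C1 : ℝ := C0 * (15 * CT ^ 2 + 1) with hC1
  have hC10 : 0 ≤ C1 := by positivity
  obtain ⟨m2, hm2⟩ := exists_nat_ge (2 * C1 / δ)
  refine ⟨max m1 m2, fun m hm hmm J s hs hss d hd => ?_⟩
  have hmm1 : m1 ≤ m := (le_max_left _ _).trans hmm
  have hmm2 : m2 ≤ m := (le_max_right _ _).trans hmm
  have hmr : (0 : ℝ) < m := by exact_mod_cast hm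
  have hs20 : ‖s‖ ≤ 1 / 20 := hss.trans hs0
  have hsp : 0 < ‖s‖ := norm_pos_iff.mpr hs
  have ha0 : 0 < a := by linarith only [ha]
  set b : ℝ := ‖s‖ ^ 2 / a with hb
  have hs2 : ‖s‖ ^ 2 ≤ 1 / 400 := by nlinarith only [hs20, hsp]
  have hb0 : 0 < b := by positivity
  have hb1 : b ≤ 1 := by
    rw [hb, div_le_one ha0]
    linarith only [ha, hs2]
  have hre := abs_le.mp ((Complex.abs_re_le_norm s).trans hs20)
  have hσ : 0 < b + 1 - 2 * s.re := by linarith only [hb0, hre]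
  have hK := KS_facts (s := s) (by linarith only [hs20])
  have hK0 : 0 < KS s := by linarith only [hK]
  have h1 := hP s (by linarith only [hs20]) b hb0 hb1 hσ m hm d hd (Tg 3 (T s) (vS d m))
  have h2 := hm1 m hm hmm1 J s hs hs20 d hd
  rw [← hb] at h2
  have h3 := hQ s hs hss (vS d m)
  rw [← hb] at h3
  set L : ℝ := linF s 3 5 (vS d m) (Tg 3 (T s) (vS d m)) - gamF s b 5 (Tg 3 (T s) (vS d m)) with hL
  set G : ℝ := ∑ r ∈ Finset.range 3, ‖vS d m r‖ ^ 2 with hG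
  set P : ℝ := Pf s b d m with hPd
  set Nn : ℝ := Nf s b d m J with hNd
  have hG0 : 0 ≤ G := Finset.sum_nonneg fun _ _ => sq_nonneg _
  have hP0 : 0 ≤ P := Pf_nonneg hσ d m
  have hW := Wm_nonneg hb0 m
  have hWK : (m : ℝ) ^ 2 / (KS s * pq (b + 3) (m - 1)) = Wm b m / KS s := by
    unfold Wm
    rw [div_div, mul_comm (KS s)]
  rw [hWK] at h1 h2
  have hy : ∑ n ∈ Finset.range 5, ‖Tg 3 (T s) (vS d m) n‖ ^ 2 ≤ 15 * CT ^ 2 * G := by
    have a1 : ∀ n ∈ Finset.range 5, ‖Tg 3 (T s) (vS d m) n‖ ^ 2 ≤ 3 * CT ^ 2 * G :=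
      fun n _ => Tg_sq (T s) (hT s hss) (vS d m) n
    have a2 := Finset.sum_le_sum a1
    rw [Finset.sum_const, Finset.card_range, nsmul_eq_mul] at a2
    push_cast at a2
    linarith only [a2]
  have hCm : 0 ≤ C0 / m := by positivity
  have h4 : Wm b m * (L - C1 / m * G) ≤ KS s * P := by
    have a1 : C0 / m * (∑ n ∈ Finset.range 5, ‖Tg 3 (T s) (vS d m) n‖ ^ 2 + G) ≤ C1 / m * G := by
      have a2 := mul_le_mul_of_nonneg_left hy hCm
      have a3 : C1 / m * G = C0 / m * (15 * CT ^ 2 * G) + C0 / m * G := by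
        rw [hC1]
        ring
      rw [a3]
      linarith only [a2]
    have a4 : Wm b m / KS s * (L - C1 / m * G) ≤ P := by
      refine le_trans ?_ h1
      apply mul_le_mul_of_nonneg_left _ (by positivity)
      linarith only [a1]
    have a5 := mul_le_mul_of_nonneg_left a4 hK0.le
    have a6 : KS s * (Wm b m / KS s * (L - C1 / m * G)) = Wm b m * (L - C1 / m * G) := by
      field_simp
    linarith only [a5, a6]
  have h5 : KS s * Nn ≤ Wm b m * ((a / 2 * (1 + 20 * ‖s‖ ^ 2) + δ / 2) * ‖vS d m 0‖ ^ 2)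
      + 20 * ‖s‖ ^ 2 * (KS s * P) := by
    have a5 := mul_le_mul_of_nonneg_left h2 hK0.le
    have a6 : KS s * (Wm b m / KS s * ((a / 2 * (1 + 20 * ‖s‖ ^ 2) + δ / 2) * ‖vS d m 0‖ ^ 2)
        + 20 * ‖s‖ ^ 2 * P) = Wm b m * ((a / 2 * (1 + 20 * ‖s‖ ^ 2) + δ / 2) * ‖vS d m 0‖ ^ 2)
        + 20 * ‖s‖ ^ 2 * (KS s * P) := by
      field_simp
    linarith only [a5, a6]
  have h6 : 0 ≤ 1 - 20 * ‖s‖ ^ 2 := by linarith only [hs2]
  have h7 : 1 - 20 * ‖s‖ ^ 2 ≤ 1 := by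
    have := sq_nonneg ‖s‖
    linarith only [this]
  have h8 := mul_le_mul_of_nonneg_left h4 h6
  have h9 : C1 / m ≤ δ / 2 := by
    rw [div_le_iff₀ hmr]
    have b1 : 2 * C1 / δ ≤ m := hm2.trans (by exact_mod_cast hmm2)
    rw [div_le_iff₀ hδ] at b1
    linarith only [b1]
  have h10 : ‖vS d m 0‖ ^ 2 ≤ G :=
    Finset.single_le_sum (f := fun r => ‖vS d m r‖ ^ 2) (fun _ _ => sq_nonneg _)
      (Finset.mem_range.mpr (by norm_num))
  have h11 : (1 - 20 * ‖s‖ ^ 2) * (C1 / m * G) ≤ δ / 2 * G := by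
    have c1 : 0 ≤ C1 / m := by positivity
    have c2 : C1 / m * G ≤ δ / 2 * G := mul_le_mul_of_nonneg_right h9 hG0
    have c3 : 0 ≤ C1 / m * G := by positivity
    nlinarith only [c2, c3]
  have h12 : δ / 2 * ‖vS d m 0‖ ^ 2 ≤ δ / 2 * G := mul_le_mul_of_nonneg_left h10 (by positivity)
  have h13 : hF 3 (Q s) (vS d m) - δ * G
      ≤ (1 - 20 * ‖s‖ ^ 2) * (L - C1 / m * G)
        - (a / 2 * (1 + 20 * ‖s‖ ^ 2) + δ / 2) * ‖vS d m 0‖ ^ 2 := by
    linarith only [h3, h11, h12]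
  have h14 := mul_le_mul_of_nonneg_left h13 hW
  refine h14.trans ?_
  linarith only [h5, h8]

/-- the constants of the perturbation -/
theorem per_order {a : ℝ} (ha : 1 / 2 ≤ a) (ha1 : a < 1) {s0 : ℝ} (hs0 : s0 ≤ 1 / 20)
    (T Q : ℂ → ℕ → ℕ → ℂ) {CT : ℝ} (hT : ∀ s : ℂ, ‖s‖ ≤ s0 → ∀ n r, ‖T s n r‖ ≤ CT)
    (hQb : ∀ s : ℂ, ‖s‖ ≤ s0 → ∀ r t, ‖Q s r t‖ ≤ CT) (hCT : 0 ≤ CT)
    (hQ : ∀ s : ℂ, s ≠ 0 → ‖s‖ ≤ s0 → ∀ g : ℕ → ℂ, hF 3 (Q s) g
      ≤ (1 - 20 * ‖s‖ ^ 2) * (linF s 3 5 g (Tg 3 (T s) g)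
          - gamF s (‖s‖ ^ 2 / a) 5 (Tg 3 (T s) g))
        - a / 2 * (1 + 20 * ‖s‖ ^ 2) * ‖g 0‖ ^ 2) {δ : ℝ} (hδ : 0 < δ) :
    ∃ m0 : ℕ, ∀ m : ℕ, m0 ≤ m → ∀ (J : ℕ) (s : ℂ), s ≠ 0 → ‖s‖ ≤ s0 →
      ∀ (ρ : ℝ) (β H : ℂ → ℂ) (Φ : ℂ → ℂ → ℂ), Dat ρ β H Φ →
      cmS (Q s) s (‖s‖ ^ 2 / a) H m
        ≤ KS s / ‖s‖ ^ 2 * (Pf s (‖s‖ ^ 2 / a) (diagc (EE Φ s) m) m
          - Nf s (‖s‖ ^ 2 / a) (diagc (EE Φ s) m) m J)
        + δ * (Wm (‖s‖ ^ 2 / a) m * S2 s H m) := by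
  set δ2 : ℝ := δ / (2 * 11 * 1728) with hδ2
  obtain ⟨m1, hm1⟩ := low_order ha ha1 hs0 T Q hT hQ (δ := δ2) (by positivity)
  set K1 : ℝ := 9 * (CT * (70 * 324 + 6 * 42)) with hK1
  have hK10 : 0 ≤ K1 := by positivity
  obtain ⟨m2, hm2⟩ := exists_nat_ge (22 * K1 / δ)
  refine ⟨max 1 (max m1 m2), fun m hmm J s hs hss ρ β H Φ h => ?_⟩
  have hm : 1 ≤ m := (le_max_left _ _).trans hmm
  have hmm1 : m1 ≤ m := ((le_max_left _ _).trans (le_max_right _ _)).trans hmm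
  have hmm2 : m2 ≤ m := ((le_max_right _ _).trans (le_max_right _ _)).trans hmm
  have hmr : (0 : ℝ) < m := by exact_mod_cast hm
  have hs20 : ‖s‖ ≤ 1 / 20 := hss.trans hs0
  have hs1 : ‖s‖ ≤ 1 := by linarith only [hs20]
  have hsp : 0 < ‖s‖ := norm_pos_iff.mpr hs
  have ha0 : 0 < a := by linarith only [ha]
  have hs2 : ‖s‖ ^ 2 ≤ 1 / 400 := by nlinarith only [hs20, hsp]
  have h1 := hm1 m hm hmm1 J s hs hss (diagc (EE Φ s) m) (EE_symm h.logPhi s m)
  set b : ℝ := ‖s‖ ^ 2 / a with hb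
  have hb0 : 0 < b := by positivity
  have hb1 : b ≤ 1 := by
    rw [hb, div_le_one ha0]
    linarith only [ha, hs2]
  have hW := Wm_nonneg hb0 m
  have hN := NN_nonneg s H m
  set P : ℝ := Pf s b (diagc (EE Φ s) m) m with hPd
  set Nn : ℝ := Nf s b (diagc (EE Φ s) m) m J with hNd
  have hs2p : 0 < ‖s‖ ^ 2 := by positivity
  -- the scaled form
  have hv : ∀ r < 3, vS (diagc (EE Φ s) m) m r = s * gt s H m r := fun r hr => vS_eq h s hm hr
  rw [hF_smul (Q s) s hv] at h1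
  have h2 : ∑ r ∈ Finset.range 3, ‖vS (diagc (EE Φ s) m) m r‖ ^ 2
      = ‖s‖ ^ 2 * ∑ r ∈ Finset.range 3, ‖gt s H m r‖ ^ 2 := by
    rw [Finset.mul_sum]
    apply Finset.sum_congr rfl
    intro r hr
    rw [hv r (Finset.mem_range.mp hr), norm_mul, mul_pow]
  rw [h2] at h1
  have h3 : ∑ r ∈ Finset.range 3, ‖gt s H m r‖ ^ 2 ≤ 1728 * NN s H m ^ 2 := by
    have a1 : ∀ r ∈ Finset.range 3, ‖gt s H m r‖ ^ 2 ≤ (24 * NN s H m) ^ 2 := fun r hr =>
      pow_le_pow_left₀ (norm_nonneg _) (gt_norm h hs1 hm (Finset.mem_range.mp hr)) 2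
    have a2 := Finset.sum_le_sum a1
    rw [Finset.sum_const, Finset.card_range, nsmul_eq_mul] at a2
    push_cast at a2
    linarith only [a2]
  have h4 : Wm b m * (hF 3 (Q s) (gt s H m)) ≤ KS s / ‖s‖ ^ 2 * (P - Nn)
      + Wm b m * (δ2 * (1728 * NN s H m ^ 2)) := by
    have a1 : ‖s‖ ^ 2 * (Wm b m * (hF 3 (Q s) (gt s H m)
        - δ2 * ∑ r ∈ Finset.range 3, ‖gt s H m r‖ ^ 2)) ≤ KS s * (P - Nn) := by
      refine le_trans (le_of_eq ?_) h1
      ring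
    have a2 : Wm b m * (hF 3 (Q s) (gt s H m)
        - δ2 * ∑ r ∈ Finset.range 3, ‖gt s H m r‖ ^ 2) ≤ KS s / ‖s‖ ^ 2 * (P - Nn) := by
      have a4 : KS s / ‖s‖ ^ 2 * (P - Nn) = KS s * (P - Nn) / ‖s‖ ^ 2 := by ring
      rw [a4, le_div_iff₀ hs2p, mul_comm _ (‖s‖ ^ 2)]
      exact a1
    have a3 : Wm b m * (δ2 * ∑ r ∈ Finset.range 3, ‖gt s H m r‖ ^ 2)
        ≤ Wm b m * (δ2 * (1728 * NN s H m ^ 2)) := by
      apply mul_le_mul_of_nonneg_left _ hW
      exact mul_le_mul_of_nonneg_left h3 (by positivity)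
    linarith only [a2, a3]
  -- the exact form
  set u : ℕ → ℂ := fun r => Yx s H r m / (m : ℂ) ^ wY r with hu
  set τ : ℕ → ℕ → ℝ := fun r t => tq b (wY r + wY t - 1) m with hτ
  have h5 : cmS (Q s) s b H m = Wm b m * ∑ r ∈ Finset.range 3, ∑ t ∈ Finset.range 3,
      τ r t * (Q s r t * (u t * conj (u r))).re := by
    unfold cmS
    rw [Finset.mul_sum]
    apply Finset.sum_congr rfl
    intro r hr
    rw [Finset.mul_sum]
    apply Finset.sum_congr rfl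
    intro t ht
    have hr3 := wY_pos (Finset.mem_range.mp hr)
    have ht3 := wY_pos (Finset.mem_range.mp ht)
    have e2 : wY r + wY t - 1 + 1 = wY r + wY t := by omega
    have e3 := om_eq hb0 (wY r + wY t - 1) hm
    rw [e2] at e3
    have e4 : (Q s r t * (u t * conj (u r))).re
        = (Q s r t * (Yx s H t m * conj (Yx s H r m))).re / (m : ℝ) ^ (wY r + wY t) := by
      have e5 : Q s r t * (u t * conj (u r))
          = (Q s r t * (Yx s H t m * conj (Yx s H r m))) / (((m : ℝ) ^ (wY r + wY t) : ℝ) : ℂ) := by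
        rw [hu]
        simp only
        rw [map_div₀, map_pow, Complex.conj_natCast]
        push_cast
        ring
      rw [e5, Complex.div_ofReal_re]
    rw [e4, hτ]
    simp only
    have hp : (0 : ℝ) < (m : ℝ) ^ (wY r + wY t) := by positivity
    set X := (Q s r t * (Yx s H t m * conj (Yx s H r m))).re
    calc om b (wY r + wY t - 1) m * X
        = (om b (wY r + wY t - 1) m * (m : ℝ) ^ (wY r + wY t)) * (X / (m : ℝ) ^ (wY r + wY t)) := by
          field_simp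
      _ = Wm b m * (tq b (wY r + wY t - 1) m * (X / (m : ℝ) ^ (wY r + wY t))) := by
          rw [e3]
          ring
  have h6 := hF_pert (Q s) u (gt s H m) τ (CQ := CT) (U := 18 * NN s H m) (V := 24 * NN s H m)
    (e := 6 * NN s H m / m) (e' := 70 / m) (hQb s hss)
    (fun r hr => Yx_norm h hs1 hm hr) (fun r hr => gt_norm h hs1 hm hr)
    (fun r hr => by
      have e : u r - gt s H m r = -(Ex s H r m / (m : ℂ) ^ wY r) := by
        rw [hu]
        unfold gt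
        ring
      rw [e, norm_neg]
      exact Ex_norm hs1 H hm hr)
    (fun r hr t ht => by
      have hr3 := wY_pos hr
      have ht3 := wY_pos ht
      have e := tq_sub hb0 hb1 (wY r + wY t - 1) hm
      refine e.trans ?_
      apply div_le_div_of_nonneg_right _ hmr.le
      have h7 : (((wY r + wY t - 1 : ℕ)) : ℝ) ≤ 7 := by
        have : wY r + wY t - 1 ≤ 7 := by omega
        exact_mod_cast this
      have h8 : (0 : ℝ) ≤ (((wY r + wY t - 1 : ℕ)) : ℝ) := Nat.cast_nonneg _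
      nlinarith only [h7])
  have h7 : 9 * (CT * (70 / m * (18 * NN s H m) ^ 2 + 6 * NN s H m / m
      * (18 * NN s H m + 24 * NN s H m))) = K1 / m * NN s H m ^ 2 := by
    rw [hK1]
    field_simp
    ring
  rw [h7] at h6
  have h8 := mul_le_mul_of_nonneg_left h6 hW
  rw [← h5] at h8
  have h9 : K1 / m ≤ δ / 22 := by
    rw [div_le_iff₀ hmr]
    have b1 : 22 * K1 / δ ≤ m := hm2.trans (by exact_mod_cast hmm2)
    rw [div_le_iff₀ hδ] at b1
    linarith only [b1]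
  have h10 : K1 / m * NN s H m ^ 2 ≤ δ / 22 * NN s H m ^ 2 :=
    mul_le_mul_of_nonneg_right h9 (sq_nonneg _)
  have h11 : K1 / m * NN s H m ^ 2 + δ2 * (1728 * NN s H m ^ 2) ≤ δ * S2 s H m := by
    have c1 := NN_sq s H m
    have c2 : δ2 * (1728 * NN s H m ^ 2) = δ / 22 * NN s H m ^ 2 := by
      rw [hδ2]
      ring
    rw [c2]
    have c3 := mul_le_mul_of_nonneg_left c1 (show 0 ≤ δ / 11 by positivity)
    linarith only [h10, c3]
  have h12 := mul_le_mul_of_nonneg_left h11 hW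
  linarith only [h4, h8, h12]

/-! ### the finite part -/

theorem Yx_bound (r m : ℕ) (hr : r < 3) : ∃ B : ℝ, 0 ≤ B ∧ ∀ (ρ : ℝ) (β H : ℂ → ℂ)
    (Φ : ℂ → ℂ → ℂ), Dat ρ β H Φ → ∀ s : ℂ, ‖s‖ ≤ 1 → ‖Yx s H r m‖ ≤ B := by
  have h := fun i : Fin 11 => xc_bound (Lst i) m
  choose B hB0 hB using h
  have hB1 : 0 ≤ ∑ i, B i := Finset.sum_nonneg fun i _ => hB0 i
  refine ⟨18 * ∑ i, B i, mul_nonneg (by norm_num) hB1, fun ρ β H Φ hd s hs => ?_⟩
  rw [Yx_list hd]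
  have key : ‖((LY s r).map (fun x => x.1 * xc s H x.2 m)).sum‖
      ≤ ((LY s r).map (fun x => ‖x.1‖)).sum * ∑ i, B i := by
    apply comb_norm (LY s r) (fun A => xc s H A m)
    intro x hx
    obtain ⟨i, hi, _⟩ := LY_mem s hr x hx
    rw [hi]
    exact (hB i ρ β H Φ hd s hs).trans
      (Finset.single_le_sum (f := B) (fun r _ => hB0 r) (Finset.mem_univ i))
  exact key.trans (mul_le_mul_of_nonneg_right (LY_sum hs hr) hB1)

theorem cmS_bound {s0 : ℝ} (hs0 : s0 ≤ 1 / 20) (Q : ℂ → ℕ → ℕ → ℂ) {CT : ℝ}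
    (hQb : ∀ s : ℂ, ‖s‖ ≤ s0 → ∀ r t, ‖Q s r t‖ ≤ CT) (hCT : 0 ≤ CT) (m : ℕ) :
    ∃ C : ℝ, 0 ≤ C ∧ ∀ s : ℂ, ‖s‖ ≤ s0 → ∀ b : ℝ, 0 < b → b ≤ 1 → ∀ (ρ : ℝ) (β H : ℂ → ℂ)
      (Φ : ℂ → ℂ → ℂ), Dat ρ β H Φ → cmS (Q s) s b H m ≤ C := by
  have h : ∀ r : Fin 3, ∃ B : ℝ, 0 ≤ B ∧ ∀ (ρ : ℝ) (β H : ℂ → ℂ)
    (Φ : ℂ → ℂ → ℂ), Dat ρ β H Φ → ∀ s : ℂ, ‖s‖ ≤ 1 → ‖Yx s H r m‖ ≤ B :=
    fun r => Yx_bound r m r.2
  choose B hB0 hB using h
  set M : ℝ := ∑ r, B r with hM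
  have hM0 : 0 ≤ M := Finset.sum_nonneg fun r _ => hB0 r
  refine ⟨9 * (6 * (CT * (M * M))), by positivity, fun s hs b hb hb1 ρ β H Φ hd => ?_⟩
  have hs1 : ‖s‖ ≤ 1 := by linarith
  have hY : ∀ r < 3, ‖Yx s H r m‖ ≤ M := by
    intro r hr
    have h1 := hB ⟨r, hr⟩ ρ β H Φ hd s hs1
    exact h1.trans (Finset.single_le_sum (f := B) (fun r _ => hB0 r) (Finset.mem_univ _))
  have h1 : ∀ r ∈ Finset.range 3, ∀ t ∈ Finset.range 3, om b (wY r + wY t - 1) m
      * (Q s r t * (Yx s H t m * conj (Yx s H r m))).re ≤ 6 * (CT * (M * M)) := by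
    intro r hr t ht
    rw [Finset.mem_range] at hr ht
    have a1 : |(Q s r t * (Yx s H t m * conj (Yx s H r m))).re| ≤ CT * (M * M) := by
      refine (Complex.abs_re_le_norm _).trans ?_
      rw [norm_mul, norm_mul, RCLike.norm_conj]
      exact mul_le_mul (hQb s hs r t) (mul_le_mul (hY t ht) (hY r hr) (norm_nonneg _) hM0)
        (by positivity) hCT
    refine (le_abs_self _).trans ?_
    rw [abs_mul, abs_of_pos (om_pos hb _ m)]
    exact mul_le_mul (om_le_six hb hb1 _ m) a1 (abs_nonneg _) (by norm_num)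
  unfold cmS
  refine (Finset.sum_le_sum fun r hr => Finset.sum_le_sum fun t ht => h1 r hr t ht).trans
    (le_of_eq ?_)
  simp only [Finset.sum_const, Finset.card_range, nsmul_eq_mul]
  push_cast
  ring

end SF

open SF

theorem area_form_small {a : ℝ} (ha : 1 / 2 ≤ a) (ha1 : a < 1) {s0 : ℝ} (hs0 : s0 ≤ 1 / 20)
    (T Q : ℂ → ℕ → ℕ → ℂ) {CT : ℝ} (hT : ∀ s : ℂ, ‖s‖ ≤ s0 → ∀ n r, ‖T s n r‖ ≤ CT)
    (hQb : ∀ s : ℂ, ‖s‖ ≤ s0 → ∀ r t, ‖Q s r t‖ ≤ CT)
    (hQ : ∀ s : ℂ, s ≠ 0 → ‖s‖ ≤ s0 → ∀ g : ℕ → ℂ, hF 3 (Q s) g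
      ≤ (1 - 20 * ‖s‖ ^ 2) * (linF s 3 5 g (Tg 3 (T s) g)
          - gamF s (‖s‖ ^ 2 / a) 5 (Tg 3 (T s) g))
        - a / 2 * (1 + 20 * ‖s‖ ^ 2) * ‖g 0‖ ^ 2) {δ : ℝ} (hδ : 0 < δ) :
    ∃ C : ℝ, ∀ s : ℂ, s ≠ 0 → ‖s‖ ≤ s0 → ∀ (ρ : ℝ) (β H : ℂ → ℂ) (Φ : ℂ → ℂ → ℂ),
      Dat ρ β H Φ → LS s H (‖s‖ ^ 2 / a) (fun z => qY (Q s) s (‖s‖ ^ 2 / a) (cc H z))
        ≤ δ * LS s H (‖s‖ ^ 2 / a) (fun z => ‖cc H z 0‖ ^ 2) + C / ‖s‖ ^ 2 := by
  by_cases hneg : s0 < 0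
  · refine ⟨0, fun s _ hss => ?_⟩
    exact absurd (lt_of_le_of_lt hss hneg) (not_lt.mpr (norm_nonneg s))
  rw [not_lt] at hneg
  have hCT : 0 ≤ CT := (norm_nonneg _).trans (hT 0 (by simpa using hneg) 0 0)
  obtain ⟨C5, hC50, hC5⟩ := S2_sum
  set δ3 : ℝ := δ / (C5 + 1) with hδ3
  have hδ3p : 0 < δ3 := by positivity
  obtain ⟨m0, hm0⟩ := per_order ha ha1 hs0 T Q hT hQb hCT hQ hδ3p
  have hfin := fun m : ℕ => cmS_bound hs0 Q hQb hCT m
  choose B hB0 hB using hfin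
  have hNs := fun m : ℕ => Nf_small a ha ha1 m
  choose D hD0 hD using hNs
  have ha0 : 0 < a := by linarith only [ha]
  refine ⟨(∑ m ∈ Finset.range m0, B m) + 2 * ∑ m ∈ Finset.range m0, D m,
    fun s hs hss ρ β H Φ h => ?_⟩
  have hs20 : ‖s‖ ≤ 1 / 20 := hss.trans hs0
  have hs1 : ‖s‖ ≤ 1 := by linarith only [hs20]
  have hsp : 0 < ‖s‖ := norm_pos_iff.mpr hs
  have hs2 : ‖s‖ ^ 2 ≤ 1 / 400 := by nlinarith only [hs20, hsp]
  have hs2p : 0 < ‖s‖ ^ 2 := by positivity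
  have hre := abs_le.mp ((Complex.abs_re_le_norm s).trans hs20)
  set b : ℝ := ‖s‖ ^ 2 / a with hb
  have hb0 : 0 < b := by positivity
  have hb1 : b ≤ 1 := by
    rw [hb, div_le_one ha0]
    linarith only [ha, hs2]
  have hσ : 0 < b + 1 - 2 * s.re := by linarith only [hre, hb0]
  have hK1 := KS_facts (s := s) (by linarith only [hs20])
  have hK2 := KS_two hs20
  have hK0 : 0 < KS s := by linarith only [hK1]
  have hSA : LS s H b (fun z => ‖cc H z 0‖ ^ 2) = SA s H b [0] := by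
    unfold SA
    simp only [ev_cons, ev_nil, mul_one]
  rw [hSA]
  have hSA0 := SA_nonneg h hb0 s [0]
  have hsum := (cmS_hasSum h hb0 s (Q s)).tendsto_sum_nat
  apply le_of_tendsto hsum
  filter_upwards [eventually_ge_atTop m0] with M hM
  -- split the sum
  have hsplit : ∀ f : ℕ → ℝ, ∑ m ∈ Finset.range M, f m
      = ∑ m ∈ Finset.range m0, f m + ∑ m ∈ Finset.Ico m0 M, f m := fun f =>
    (Finset.sum_range_add_sum_Ico f hM).symm
  have hA := area_sum_s h.ext h.logPhi hσ M (s := s)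
  rw [hsplit, hsplit] at hA
  have hP0 : 0 ≤ ∑ m ∈ Finset.range m0, Pf s b (diagc (EE Φ s) m) m :=
    Finset.sum_nonneg fun m _ => Pf_nonneg hσ _ m
  have hN0 : ∑ m ∈ Finset.range m0, Nf s b (diagc (EE Φ s) m) m (M - (m + 1))
      ≤ ∑ m ∈ Finset.range m0, D m := by
    apply Finset.sum_le_sum
    intro m _
    exact hD m ρ β H Φ h s hs (by linarith only [hs20]) _
  have hdiff : ∑ m ∈ Finset.Ico m0 M, (Pf s b (diagc (EE Φ s) m) m
      - Nf s b (diagc (EE Φ s) m) m (M - (m + 1))) ≤ ∑ m ∈ Finset.range m0, D m := by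
    rw [Finset.sum_sub_distrib]
    linarith only [hA, hP0, hN0]
  have hD1 : 0 ≤ ∑ m ∈ Finset.range m0, D m := Finset.sum_nonneg fun m _ => hD0 m
  have hB1 : 0 ≤ ∑ m ∈ Finset.range m0, B m := Finset.sum_nonneg fun m _ => hB0 m
  have hlow : ∑ m ∈ Finset.range m0, cmS (Q s) s b H m ≤ ∑ m ∈ Finset.range m0, B m := by
    apply Finset.sum_le_sum
    intro m _
    exact hB m s hss b hb0 hb1 ρ β H Φ h
  have hhigh : ∑ m ∈ Finset.Ico m0 M, cmS (Q s) s b H m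
      ≤ KS s / ‖s‖ ^ 2 * ∑ m ∈ Finset.Ico m0 M, (Pf s b (diagc (EE Φ s) m) m
        - Nf s b (diagc (EE Φ s) m) m (M - (m + 1)))
        + δ3 * ∑ m ∈ Finset.Ico m0 M, Wm b m * S2 s H m := by
    rw [Finset.mul_sum, Finset.mul_sum, ← Finset.sum_add_distrib]
    apply Finset.sum_le_sum
    intro m hm
    have hm1 : m0 ≤ m := (Finset.mem_Ico.mp hm).1
    exact hm0 m hm1 (M - (m + 1)) s hs hss ρ β H Φ h
  have hS := hC5 ρ β H Φ h s hs1 b hb0 hb1 (Finset.Ico m0 M)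
  have hS2 : δ3 * ∑ m ∈ Finset.Ico m0 M, Wm b m * S2 s H m ≤ δ * SA s H b [0] := by
    have a1 := mul_le_mul_of_nonneg_left hS hδ3p.le
    have a2 : δ3 * C5 ≤ δ := by
      rw [hδ3, div_mul_eq_mul_div, div_le_iff₀ (by positivity)]
      linarith only [hδ]
    have a3 := mul_le_mul_of_nonneg_right a2 hSA0
    linarith only [a1, a3]
  have hKs : KS s / ‖s‖ ^ 2 * ∑ m ∈ Finset.Ico m0 M, (Pf s b (diagc (EE Φ s) m) m
        - Nf s b (diagc (EE Φ s) m) m (M - (m + 1)))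
      ≤ 2 * (∑ m ∈ Finset.range m0, D m) / ‖s‖ ^ 2 := by
    have a1 := mul_le_mul_of_nonneg_left hdiff (show 0 ≤ KS s / ‖s‖ ^ 2 by positivity)
    refine a1.trans ?_
    rw [div_mul_eq_mul_div]
    apply div_le_div_of_nonneg_right _ hs2p.le
    exact mul_le_mul_of_nonneg_right hK2 hD1
  have hBs : ∑ m ∈ Finset.range m0, B m ≤ (∑ m ∈ Finset.range m0, B m) / ‖s‖ ^ 2 := by
    rw [le_div_iff₀ hs2p]
    nlinarith only [hs2, hB1]
  rw [hsplit, add_div]
  linarith only [hlow, hhigh, hS2, hKs, hBs]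

end Pool.Agent.M16.Helper24.HR2
end

/- Helper94.T.Helper98.HR2.SmCore -/
section
/-!
MP_16b0ee, project HR2: the region of small exponents, conclusion; the certificate is only needed
for the jets with `‖c 0‖ ≤ 14`.
-/

set_option autoImplicit false

open MeasureTheory Set Metric Filter Topology
open scoped Real ComplexConjugate

namespace Pool.Agent.M16.Helper98.HR2

open Pool.Agent.M16.Helper39.MH
open Pool.Agent.M16.Helper24.HR2
open Pool.Agent.M16.Helper24.HR2.SmallCore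

theorem cc0_le {ρ : ℝ} {β H : ℂ → ℂ} {Φ : ℂ → ℂ → ℂ} (h : Dat ρ β H Φ) {z : ℂ}
    (hz : z ∈ ball (0 : ℂ) 1) : ‖cc H z 0‖ ≤ 14 := by
  have h1 := h.bloch z hz
  have hz1 : ‖z‖ < 1 := mem_ball_zero_iff.mp hz
  have hz0 := norm_nonneg z
  have hpos : 0 ≤ 1 - ‖z‖ ^ 2 := by nlinarith only [hz1, hz0]
  have e : gg H 0 z = -(th H z) / 2 := by rw [gg]
  have e2 : ‖cc H z 0‖ = (1 - ‖z‖ ^ 2) * (‖z‖ * ‖deriv H z‖ / 2) := by
    unfold cc
    rw [e, norm_mul, Complex.norm_real, Real.norm_of_nonneg (by positivity), norm_div, norm_neg]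
    unfold th
    rw [norm_mul, Complex.norm_ofNat]
    simp
  rw [e2]
  have h3 : ‖z‖ * ‖deriv H z‖ ≤ 1 * ‖deriv H z‖ :=
    mul_le_mul_of_nonneg_right hz1.le (norm_nonneg _)
  have h4 := mul_le_mul_of_nonneg_left h3 hpos
  linarith only [h1, h4]

/-- the region of small exponents; the multipliers may grow like `1 / |s|^2` -/
theorem core_small14 {a : ℝ} (ha : 1 / 2 ≤ a) (ha1 : a < 1) {s0 : ℝ} (hs0 : s0 ≤ 1 / 20)
    (T Q : ℂ → ℕ → ℕ → ℂ) {CT : ℝ} (hT : ∀ s : ℂ, ‖s‖ ≤ s0 → ∀ n r, ‖T s n r‖ ≤ CT)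
    (hQb : ∀ s : ℂ, ‖s‖ ≤ s0 → ∀ r t, ‖Q s r t‖ ≤ CT)
    (hQ : ∀ s : ℂ, s ≠ 0 → ‖s‖ ≤ s0 → ∀ g : ℕ → ℂ, hF 3 (Q s) g
      ≤ (1 - 20 * ‖s‖ ^ 2) * (linF s 3 5 g (Tg 3 (T s) g)
          - gamF s (‖s‖ ^ 2 / a) 5 (Tg 3 (T s) g))
        - a / 2 * (1 + 20 * ‖s‖ ^ 2) * ‖g 0‖ ^ 2)
    (rels : List ((ℂ → ℂ) × List ℕ × List ℕ)) {CZ : ℝ}
    (hζ : ∀ x ∈ rels, ∀ s : ℂ, s ≠ 0 → ‖s‖ ≤ s0 → ‖x.1 s‖ ≤ CZ / ‖s‖ ^ 2)
    {η : ℝ} (hη : 0 < η)
    (hc : ∀ s : ℂ, s ≠ 0 → ‖s‖ ≤ s0 → ∀ c : ℕ → ℂ, ‖c 0‖ ≤ 14 →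
      η * ‖c 0‖ ^ 2 ≤ qY (Q s) s (‖s‖ ^ 2 / a) c
      + (rels.map (fun x => (x.1 s * relS s (‖s‖ ^ 2 / a) c x.2.1 x.2.2).re)).sum) :
    ∃ C : ℝ, ∀ s : ℂ, s ≠ 0 → ‖s‖ ≤ s0 → ∀ (ρ : ℝ) (β H : ℂ → ℂ) (Φ : ℂ → ℂ → ℂ),
      Dat ρ β H Φ → ‖s‖ ^ 2 / a * LS s H (‖s‖ ^ 2 / a) (fun _ => 1) ≤ C := by
  obtain ⟨C1, hC1⟩ := area_form_small ha ha1 hs0 T Q hT hQb hQ (half_pos hη)
  obtain ⟨K0, hK0, hrel⟩ := rel_list rels
  obtain ⟨K1, hK1, hr1⟩ := rel_term [] []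
  obtain ⟨K2, hK2, hr2⟩ := rel_term [] [0]
  have ha0 : 0 < a := by linarith
  refine ⟨4 * ((2 / η) * (C1 + K0 * CZ) + K1 + K2), ?_⟩
  intro s hs hss ρ β H Φ h
  have hn : 0 < ‖s‖ := norm_pos_iff.mpr hs
  have hn2 : 0 < ‖s‖ ^ 2 := by positivity
  have hs20 : ‖s‖ ≤ 1 / 20 := hss.trans hs0
  have hb0 : 0 < ‖s‖ ^ 2 / a := by positivity
  have hb1 : ‖s‖ ^ 2 / a ≤ 1 := by
    rw [div_le_one ha0]
    nlinarith only [ha, hs0, hss, hn]
  have hA := hC1 s hs hss ρ β H Φ h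
  have hcs := hc s hs hss
  have hζs := fun x hx => hζ x hx s hs hss
  set b := ‖s‖ ^ 2 / a with hbdef
  have hH := cont_H h
  have hc0 : ContinuousOn (fun z => ‖cc H z 0‖ ^ 2) (closedBall (0 : ℂ) 1) :=
    (cont_cc h.one_lt h.diff 0).norm.pow 2
  have hqc := cont_qY h (Q s) s b
  -- integrate the certificate
  obtain ⟨hl1, hl2⟩ := LS_list (s := s) (b := b) hH hb0 rels
    (fun x z => (x.1 s * relS s b (cc H z) x.2.1 x.2.2).re)
    (fun x _ => cont_rel h s b (x.1 s) x.2.1 x.2.2)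
  have hm : LS s H b (fun z => η * ‖cc H z 0‖ ^ 2)
      ≤ LS s H b (fun z => qY (Q s) s b (cc H z)
        + (rels.map (fun x => (x.1 s * relS s b (cc H z) x.2.1 x.2.2).re)).sum) :=
    LS_mono hH hb0 (continuousOn_const.mul hc0) (hqc.add hl2)
      (fun z hz => hcs (cc H z) (cc0_le h hz))
  rw [LS_smul, LS_add hH hb0 hqc hl2, hl1] at hm
  have hr := hrel ρ β H Φ h s b (CZ / ‖s‖ ^ 2) hb0 hb1 hs20 hζs
  have hLc : LS s H b (fun z => ‖cc H z 0‖ ^ 2) ≤ (2 / η) * (C1 + K0 * CZ) / ‖s‖ ^ 2 := by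
    have h3 : η / 2 * LS s H b (fun z => ‖cc H z 0‖ ^ 2) ≤ (C1 + K0 * CZ) / ‖s‖ ^ 2 := by
      have e : (C1 + K0 * CZ) / ‖s‖ ^ 2 = C1 / ‖s‖ ^ 2 + K0 * (CZ / ‖s‖ ^ 2) := by ring
      rw [e]
      linarith only [hA, hm, hr]
    have h4 : LS s H b (fun z => ‖cc H z 0‖ ^ 2)
        = 2 / η * (η / 2 * LS s H b (fun z => ‖cc H z 0‖ ^ 2)) := by
      field_simp
    rw [h4, mul_div_assoc]
    exact mul_le_mul_of_nonneg_left h3 (by positivity)
  -- the relation R2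
  have hk1 : LS s H b (fun z => ‖cc H z 0‖ ^ 2 + (-((b + 1) / (4 * a))) * 1)
      = LS s H b (fun z => ((((b + 1) / (4 * ‖s‖ ^ 2) : ℝ) : ℂ) * relS s b (cc H z) [] []).re
        + (-(1 / (2 * s)) * relS s b (cc H z) [] [0]).re) := by
    apply LS_congr
    intro z _
    rw [← R2_id hs ha0 hbdef (cc H z)]
    ring
  rw [LS_add hH hb0 hc0 continuousOn_const, LS_smul,
    LS_add hH hb0 (cont_rel h s b _ _ _) (cont_rel h s b _ _ _)] at hk1
  have he1 := hr1 ρ β H Φ h s (((b + 1) / (4 * ‖s‖ ^ 2) : ℝ) : ℂ) b (1 / ‖s‖ ^ 2) hb0 hb1 hs20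
    (by
      rw [Complex.norm_real, Real.norm_of_nonneg (by positivity), div_le_div_iff₀ (by positivity)
        hn2]
      nlinarith only [hb1])
  have he2 := hr2 ρ β H Φ h s (-(1 / (2 * s))) b (1 / ‖s‖ ^ 2) hb0 hb1 hs20
    (by
      rw [norm_neg, norm_div, norm_mul, norm_one, Complex.norm_ofNat,
        div_le_div_iff₀ (by positivity) hn2]
      nlinarith only [hn, hs20])
  have g1 := (abs_le.mp he1).1
  have g2 := (abs_le.mp he2).1
  have hL1 : (b + 1) / (4 * a) * LS s H b (fun _ => 1)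
      ≤ ((2 / η) * (C1 + K0 * CZ) + K1 + K2) / ‖s‖ ^ 2 := by
    have e : ((2 / η) * (C1 + K0 * CZ) + K1 + K2) / ‖s‖ ^ 2
        = (2 / η) * (C1 + K0 * CZ) / ‖s‖ ^ 2 + K1 * (1 / ‖s‖ ^ 2) + K2 * (1 / ‖s‖ ^ 2) := by ring
    rw [e]
    linarith
  have hL0 : 0 ≤ LS s H b (fun _ => 1) :=
    LS_nonneg hH hb0 continuousOn_const (fun _ _ => zero_le_one)
  have h5 : 1 / (4 * a) * LS s H b (fun _ => 1) ≤ (b + 1) / (4 * a) * LS s H b (fun _ => 1) := by
    apply mul_le_mul_of_nonneg_right _ hL0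
    apply div_le_div_of_nonneg_right _ (by positivity)
    linarith only [hb0]
  have h6 := h5.trans hL1
  calc b * LS s H b (fun _ => 1) = 4 * ‖s‖ ^ 2 * (1 / (4 * a) * LS s H b (fun _ => 1)) := by
        rw [hbdef]
        field_simp
    _ ≤ 4 * ‖s‖ ^ 2 * (((2 / η) * (C1 + K0 * CZ) + K1 + K2) / ‖s‖ ^ 2) :=
        mul_le_mul_of_nonneg_left h6 (by positivity)
    _ = 4 * ((2 / η) * (C1 + K0 * CZ) + K1 + K2) := by
        field_simp

end Pool.Agent.M16.Helper98.HR2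
end
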