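import Mathlib
import Pool.Agent.Helper60.M16.G03
import Pool.Agent.Helper60.M16.G08
import Pool.Agent.Helper60.M16.G09
import Pool.Agent.Helper60.M16.G10
import Pool.Agent.Helper60.M16.G11
import Pool.Agent.Helper60.M16.G14

/- Helper94.T.Helper24.HR2.CoreS -/
section
/-!
MP_16b0ee, project HR2, section R9: a certificate gives the bound (fixed exponent `s`).
-/

set_option autoImplicit false

open MeasureTheory Set Metric Filter Topology
open scoped Real ComplexConjugate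

namespace Pool.Agent.M16.Helper24.HR2

open Pool.Agent.M16.Helper22.Half
open Pool.Agent.M16.Helper22.Marshall (coeff SepHol LogPhi dcoeff GLe)
open Pool.Agent.M16.Helper39.Area (Ext phi)
open Pool.Agent.M16.Helper39.MH

namespace CoreS

section
variable {H : ℂ → ℂ} {ρ : ℝ}

theorem dval_cont (hρ : 1 < ρ) (hH : DifferentiableOn ℂ H (ball 0 ρ)) (n : ℕ) :
    ContinuousOn (fun z => dval (cc H z) n) (closedBall 0 1) := by
  unfold dval
  split_ifs
  · exact (continuousOn_const.mul (cont_cc hρ hH 1)).sub ((cont_cc hρ hH 0).pow 2)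
  · exact (continuousOn_const.mul (cont_cc hρ hH (n + 1))).add
      (continuousOn_finsetSum _ (fun i _ => (cont_cc hρ hH _).mul (cont_cc hρ hH _)))

theorem Dv_cont (hρ : 1 < ρ) (hH : DifferentiableOn ℂ H (ball 0 ρ)) (A : List ℕ) :
    ContinuousOn (fun z => Dv (cc H z) A) (closedBall 0 1) := by
  induction A with
  | nil =>
    simp only [Dv]
    exact continuousOn_const
  | cons a A ih =>
    simp only [Dv]
    exact ((dval_cont hρ hH a).mul (cont_ev_cc hρ hH A)).add ((cont_cc hρ hH a).mul ih)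

theorem pair_cont (hρ : 1 < ρ) (hH : DifferentiableOn ℂ H (ball 0 ρ)) (ζ : ℂ) (A B : List ℕ) :
    ContinuousOn (fun z => (ζ * (ev (cc H z) A * conj (ev (cc H z) B))).re) (closedBall 0 1) :=
  Complex.continuous_re.comp_continuousOn (continuousOn_const.mul ((cont_ev_cc hρ hH A).mul
    (Complex.continuous_conj.comp_continuousOn (cont_ev_cc hρ hH B))))

theorem relS_cont (hρ : 1 < ρ) (hH : DifferentiableOn ℂ H (ball 0 ρ)) (s : ℂ) (b : ℝ) (ζ : ℂ)
    (A B : List ℕ) :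
    ContinuousOn (fun z => (ζ * relS s b (cc H z) A B).re) (closedBall 0 1) := by
  unfold relS DGs
  have hB := Complex.continuous_conj.comp_continuousOn (cont_ev_cc hρ hH B)
  exact Complex.continuous_re.comp_continuousOn (continuousOn_const.mul
    (((((continuousOn_const.mul (cont_cc hρ hH 0)).mul (cont_ev_cc hρ hH A)).add
      (Dv_cont hρ hH A)).mul hB).sub
    (continuousOn_const.mul ((cont_ev_cc hρ hH A).mul hB))))

end

/-- one term of the relations -/
theorem rel_term (s : ℂ) {b : ℝ} (hb : 0 < b) (hg : 2 * ‖s‖ < b + 1) (x : ℂ × List ℕ × List ℕ) :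
    ∃ K : ℝ, ∀ (ρ : ℝ) (β H : ℂ → ℂ) (Φ : ℂ → ℂ → ℂ), Dat ρ β H Φ →
      LS s H b (fun z => (x.1 * relS s b (cc H z) x.2.1 x.2.2).re) ≤ K := by
  obtain ⟨Cb, hC0, hCb⟩ := gg_bound
  obtain ⟨ζ, A, B⟩ := x
  have hA0 := (ev_bound hC0 (c := fun n => (0:ℂ)) (fun n => by simpa using hC0 n) A).2
  have hB0 := (ev_bound hC0 (c := fun n => (0:ℂ)) (fun n => by simpa using hC0 n) B).2
  refine ⟨(b + wt A + wt B + 1) * ((‖ζ‖ * ((A.map Cb).prod * (B.map Cb).prod))
    / (b + 1 - 2 * ‖s‖)), ?_⟩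
  intro ρ β H Φ h
  have hHd : DifferentiableOn ℂ H (ball 0 1) := h.diff.mono (ball_subset_ball h.one_lt.le)
  have h1 := LS_err h hb hg (M := ‖ζ‖ * ((A.map Cb).prod * (B.map Cb).prod))
    (pair_cont h.one_lt h.diff ζ A B) (fun z hz => by
      refine (Complex.abs_re_le_norm _).trans ?_
      rw [norm_mul, norm_mul, RCLike.norm_conj]
      have e1 := (ev_bound hC0 (fun n => hCb H hHd h.bloch n z hz) A).1
      have e2 := (ev_bound hC0 (fun n => hCb H hHd h.bloch n z hz) B).1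
      exact mul_le_mul_of_nonneg_left (mul_le_mul e1 e2 (norm_nonneg _) hA0) (norm_nonneg _))
  simp only
  rw [relS_LS h hb s ζ A B]
  have hw : 0 ≤ b + wt A + wt B + 1 := by positivity
  have h2 := (abs_le.mp h1).1
  have h3 := mul_le_mul_of_nonneg_left h2 hw
  linarith only [h3]

theorem rel_sum (s : ℂ) {b : ℝ} (hb : 0 < b) (hg : 2 * ‖s‖ < b + 1)
    (rels : List (ℂ × List ℕ × List ℕ)) :
    ∃ K : ℝ, ∀ (ρ : ℝ) (β H : ℂ → ℂ) (Φ : ℂ → ℂ → ℂ), Dat ρ β H Φ →
      LS s H b (fun z => (rels.map (fun x => (x.1 * relS s b (cc H z) x.2.1 x.2.2).re)).sum)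
        ≤ K ∧ ContinuousOn (fun z =>
          (rels.map (fun x => (x.1 * relS s b (cc H z) x.2.1 x.2.2).re)).sum)
          (closedBall 0 1) := by
  choose K hK using rel_term s hb hg
  refine ⟨(rels.map K).sum, ?_⟩
  intro ρ β H Φ h
  have hHc : ContinuousOn H (closedBall 0 1) :=
    h.diff.continuousOn.mono (closedBall_subset_ball h.one_lt)
  have hl := LS_list (s := s) hHc hb rels
    (fun x z => (x.1 * relS s b (cc H z) x.2.1 x.2.2).re)
    (fun x _ => relS_cont h.one_lt h.diff s b _ _ _)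
  refine ⟨?_, hl.2⟩
  rw [hl.1]
  exact List.sum_le_sum fun x _ => hK x ρ β H Φ h

end CoreS

open CoreS

end Pool.Agent.M16.Helper24.HR2
end

/- Helper94.T.Helper24.Br.Defs -/
section
/-!
MP_16b0ee, project BR (the mean of the power -2 of the derivative): common definitions.
-/

set_option autoImplicit false

open MeasureTheory Set Metric Filter Topology

namespace Pool.Agent.M16.Helper24.Br

open Pool.Agent.M16.Helper22.Half

/-- the bound of the upper form of the antidiagonal `d` of order `m` -/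
noncomputable def Um (b : ℝ) (d : ℕ → ℂ) (m : ℕ) : ℝ :=
  (m + 1) * (m + b + 2) / (b * (b + 1)) * (pq (b + 3) m)⁻¹
    * ‖∑ l ∈ Finset.range (m + 1), d l‖ ^ 2

/-- the midpoints, in the reversed order -/
noncomputable def tt (m i : ℕ) : ℝ := (2 * ((m - i : ℕ) : ℝ) - 1) / (2 * m)

end Pool.Agent.M16.Helper24.Br
end

/- Helper94.T.Helper39.MH.AreaForm -/
section
/-!
MP_16b0ee, project MH, module MH-12b: the area inequality in the scaled variables.
-/

set_option autoImplicit false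

open MeasureTheory Set Metric Filter Topology
open scoped Real ComplexConjugate

namespace Pool.Agent.M16.Helper39.MH

open Pool.Agent.M16.Helper22.Half
open Pool.Agent.M16.Helper22.Marshall (coeff SepHol LogPhi dcoeff GLe coeff_const_mul)
open Pool.Agent.M16.Helper39.Area (Ext phi)
open Pool.Agent.M16.Helper24.Br (Um tt)

namespace AF

theorem ev_gg_bound (A : List ℕ) : ∃ C : ℝ, 0 ≤ C ∧ ∀ H : ℂ → ℂ, Bounds.Hyp H →
    ∀ z ∈ ball (0 : ℂ) 1, (1 - ‖z‖ ^ 2) ^ wt A * ‖ev (fun k => gg H k z) A‖ ≤ C := by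
  induction A with
  | nil =>
    refine ⟨1, zero_le_one, fun H _ z _ => ?_⟩
    rw [ev_nil, wt_nil]
    simp
  | cons a A ih =>
    obtain ⟨C, hC0, hC⟩ := ih
    obtain ⟨D, hD0, hD⟩ := Bounds.gg_bound_one a
    refine ⟨D * C, mul_nonneg hD0 hC0, fun H hH z hz => ?_⟩
    rw [ev_cons, wt_cons, pow_add, norm_mul]
    have h1 := hC H hH z hz
    have h2 := hD H hH z hz
    have h0 := (Bounds.one_sub_sq_pos hz).le
    calc (1 - ‖z‖ ^ 2) ^ (a + 1) * (1 - ‖z‖ ^ 2) ^ wt A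
          * (‖gg H a z‖ * ‖ev (fun k => gg H k z) A‖)
        = ((1 - ‖z‖ ^ 2) ^ (a + 1) * ‖gg H a z‖)
          * ((1 - ‖z‖ ^ 2) ^ wt A * ‖ev (fun k => gg H k z) A‖) := by ring
      _ ≤ D * C := mul_le_mul h2 h1 (mul_nonneg (pow_nonneg h0 _) (norm_nonneg _)) hD0

/-! ### linearity of the coefficients -/

theorem coeff_add' {f g : ℂ → ℂ} (hf : DifferentiableOn ℂ f (ball 0 1))
    (hg : DifferentiableOn ℂ g (ball 0 1)) (n : ℕ) :
    coeff (fun z => f z + g z) n = coeff f n + coeff g n := by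
  apply Pool.Agent.M16.Helper22.Marshall.coeff_eq_of_hasSum one_pos
  intro z hz
  have h1 := Pool.Agent.M16.Helper22.Marshall.hasSum_coeff hf hz
  have h2 := Pool.Agent.M16.Helper22.Marshall.hasSum_coeff hg hz
  have h3 := h1.add h2
  simp only [← add_mul] at h3
  exact h3

/-! ### quadratic forms in three complex variables -/

/-! ### the area form as a series -/

/-! ### the upper form -/

/-! ### the monomials of the error terms -/

/-! ### the inequality for a large order -/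

/-! ### the finite part -/

end AF

open AF

end Pool.Agent.M16.Helper39.MH
end

/- Helper94.T.Helper24.HR2.FormBase -/
section
/-!
MP_16b0ee, project HR2, module R8: general lemmas on the coefficients of `exp (s H)` times a
polynomial in the jets.
-/

set_option autoImplicit false

open MeasureTheory Set Metric Filter Topology
open scoped Real ComplexConjugate

namespace Pool.Agent.M16.Helper24.HR2

open Pool.Agent.M16.Helper22.Half
open Pool.Agent.M16.Helper22.Marshall (coeff SepHol LogPhi dcoeff GLe coeff_const_mul)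
open Pool.Agent.M16.Helper39.Area (Ext phi)
open Pool.Agent.M16.Helper39.MH

namespace FS

/-- the coefficients of `exp (s H)` times a monomial in the jets -/
noncomputable def xs (s : ℂ) (H : ℂ → ℂ) (A : List ℕ) (m : ℕ) : ℂ := coeff (FA s H A) m

/-- the normalised moduli -/
noncomputable def ys (s : ℂ) (H : ℂ → ℂ) (A : List ℕ) (m : ℕ) : ℝ :=
  ‖xs s H A m‖ / (m : ℝ) ^ wt A

/-- the value of a polynomial in the jets -/
noncomputable def pv (c : ℕ → ℂ) (P : List (ℂ × List ℕ)) : ℂ :=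
  (P.map (fun x => x.1 * ev c x.2)).sum

/-- the coefficients of `exp (s H)` times a polynomial in the jets -/
noncomputable def px (s : ℂ) (H : ℂ → ℂ) (P : List (ℂ × List ℕ)) (m : ℕ) : ℂ :=
  (P.map (fun x => x.1 * xs s H x.2 m)).sum

/-- the sum of the moduli of the coefficients -/
noncomputable def pn (P : List (ℂ × List ℕ)) : ℝ := (P.map (fun x => ‖x.1‖)).sum

theorem pv_nil (c : ℕ → ℂ) : pv c [] = 0 := rfl

theorem pv_cons (c : ℕ → ℂ) (x : ℂ × List ℕ) (P : List (ℂ × List ℕ)) :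
    pv c (x :: P) = x.1 * ev c x.2 + pv c P := by
  unfold pv
  rw [List.map_cons, List.sum_cons]

theorem px_nil (s : ℂ) (H : ℂ → ℂ) (m : ℕ) : px s H [] m = 0 := rfl

theorem px_cons (s : ℂ) (H : ℂ → ℂ) (x : ℂ × List ℕ) (P : List (ℂ × List ℕ)) (m : ℕ) :
    px s H (x :: P) m = x.1 * xs s H x.2 m + px s H P m := by
  unfold px
  rw [List.map_cons, List.sum_cons]

theorem pn_nil : pn [] = 0 := rfl

theorem pn_cons (x : ℂ × List ℕ) (P : List (ℂ × List ℕ)) : pn (x :: P) = ‖x.1‖ + pn P := by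
  unfold pn
  rw [List.map_cons, List.sum_cons]

theorem pn_nonneg (P : List (ℂ × List ℕ)) : 0 ≤ pn P := by
  induction P with
  | nil => exact le_refl _
  | cons x P ih =>
    rw [pn_cons]
    have := norm_nonneg x.1
    linarith

theorem ys_nonneg (s : ℂ) (H : ℂ → ℂ) (A : List ℕ) (m : ℕ) : 0 ≤ ys s H A m := by
  unfold ys
  positivity

theorem norm_xs (s : ℂ) (H : ℂ → ℂ) (A : List ℕ) {m : ℕ} (hm : 1 ≤ m) :
    ‖xs s H A m‖ = ys s H A m * (m : ℝ) ^ wt A := by
  unfold ys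
  have h0 : (0 : ℝ) < m := by exact_mod_cast hm
  field_simp

theorem FA_diff (s : ℂ) {H : ℂ → ℂ} {ρ : ℝ} (hρ : 0 < ρ) (hH : DifferentiableOn ℂ H (ball 0 ρ))
    (A : List ℕ) : DifferentiableOn ℂ (FA s H A) (ball 0 ρ) :=
  exp_ev_diff_s s hρ hH A

theorem pv_gg_diff {H : ℂ → ℂ} {ρ : ℝ} (hρ : 0 < ρ) (hH : DifferentiableOn ℂ H (ball 0 ρ))
    (P : List (ℂ × List ℕ)) :
    DifferentiableOn ℂ (fun z => pv (fun k => gg H k z) P) (ball 0 ρ) := by
  induction P with
  | nil =>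
    simp only [pv_nil]
    exact differentiableOn_const 0
  | cons x P ih =>
    simp only [pv_cons]
    exact ((ev_gg_diff hρ hH x.2).const_mul x.1).fun_add ih

/-- the coefficients of a polynomial in the jets -/
theorem coeff_pv (s : ℂ) {H : ℂ → ℂ} (hH : DifferentiableOn ℂ H (ball 0 1))
    (P : List (ℂ × List ℕ)) (m : ℕ) :
    coeff (fun z => Complex.exp (s * H z) * pv (fun k => gg H k z) P) m = px s H P m := by
  induction P with
  | nil =>
    have e : (fun z => Complex.exp (s * H z) * pv (fun k => gg H k z) [])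
        = fun z => (0 : ℂ) * Complex.exp (s * H z) := by
      funext z
      rw [pv_nil]
      ring
    rw [e, coeff_const_mul, px_nil, zero_mul]
  | cons x P ih =>
    have e : (fun z => Complex.exp (s * H z) * pv (fun k => gg H k z) (x :: P))
        = fun z => x.1 * FA s H x.2 z
          + Complex.exp (s * H z) * pv (fun k => gg H k z) P := by
      funext z
      rw [pv_cons]
      unfold FA
      ring
    rw [e, AF.coeff_add' ((FA_diff s one_pos hH x.2).const_mul x.1)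
      ((exp_mul_diff s hH).fun_mul (pv_gg_diff one_pos hH P)), coeff_const_mul, ih, px_cons]
    rfl

/-! ### bounds for the coefficients of bounded order -/

theorem dat_hyp {ρ : ℝ} {β H : ℂ → ℂ} {Φ : ℂ → ℂ → ℂ} (h : Dat ρ β H Φ) : Bounds.Hyp H :=
  ⟨h.diff.mono (ball_subset_ball h.one_lt.le), h.bloch⟩

theorem dat_cont {ρ : ℝ} {β H : ℂ → ℂ} {Φ : ℂ → ℂ → ℂ} (h : Dat ρ β H Φ) :
    ContinuousOn H (closedBall 0 1) :=
  h.diff.continuousOn.mono (closedBall_subset_ball h.one_lt)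

theorem exp_gol {ρ : ℝ} {β H : ℂ → ℂ} {Φ : ℂ → ℂ → ℂ} (h : Dat ρ β H Φ) {s : ℂ}
    (hs : ‖s‖ ≤ 1) {z : ℂ} (hz : ‖z‖ ≤ 1 / 2) : ‖Complex.exp (s * H z)‖ ≤ 4 / 3 := by
  have hzb : z ∈ ball (0 : ℂ) 1 := by rw [mem_ball_zero_iff]; linarith only [hz]
  have h0 := Bounds.one_sub_sq_pos hzb
  have h1 := h.gol z hzb
  have hs2 : 3 / 4 ≤ 1 - ‖z‖ ^ 2 := by
    have := norm_nonneg z
    nlinarith only [hz, this]
  have h2 : ‖s * H z‖ ≤ Real.log (4 / 3) := by
    rw [norm_mul]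
    calc ‖s‖ * ‖H z‖ ≤ 1 * ‖H z‖ := mul_le_mul_of_nonneg_right hs (norm_nonneg _)
      _ = ‖H z‖ := one_mul _
      _ ≤ Real.log (1 / (1 - ‖z‖ ^ 2)) := h1
      _ ≤ Real.log (4 / 3) := by
        apply Real.log_le_log (by positivity)
        rw [div_le_div_iff₀ h0 (by norm_num)]
        linarith only [hs2]
  have h3 : ‖Complex.exp (s * H z)‖ ≤ Real.exp ‖s * H z‖ := by
    rw [Complex.norm_exp]
    exact Real.exp_le_exp.mpr ((le_abs_self _).trans (Complex.abs_re_le_norm _))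
  calc ‖Complex.exp (s * H z)‖ ≤ Real.exp ‖s * H z‖ := h3
    _ ≤ Real.exp (Real.log (4 / 3)) := Real.exp_le_exp.mpr h2
    _ = 4 / 3 := Real.exp_log (by norm_num)

/-- the coefficients are bounded in the class -/
theorem xs_bound (A : List ℕ) (m : ℕ) : ∃ B : ℝ, 0 ≤ B ∧ ∀ (ρ : ℝ) (β H : ℂ → ℂ)
    (Φ : ℂ → ℂ → ℂ), Dat ρ β H Φ → ∀ s : ℂ, ‖s‖ ≤ 1 → ‖xs s H A m‖ ≤ B := by
  obtain ⟨C, hC0, hC⟩ := AF.ev_gg_bound A
  refine ⟨4 / 3 * ((4 / 3) ^ wt A * C) * 2 ^ m, by positivity, fun ρ β H Φ h s hs1 => ?_⟩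
  have hH := dat_hyp h
  have hf : DifferentiableOn ℂ (FA s H A) (ball 0 1) := FA_diff s one_pos hH.1 A
  have h1 := Pool.Agent.M16.Helper22.Marshall.coeff_bound hf (r := 1 / 2)
    (M := 4 / 3 * ((4 / 3) ^ wt A * C)) (by norm_num) (by norm_num)
    (fun z hz => by
      have hzb : z ∈ ball (0 : ℂ) 1 := by rw [mem_ball_zero_iff]; linarith only [hz]
      have hs : 3 / 4 ≤ 1 - ‖z‖ ^ 2 := by
        have := norm_nonneg z
        nlinarith only [hz, this]
      have h2 := exp_gol h hs1 hz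
      have h3 := hC H hH z hzb
      have h4 : ‖ev (fun k => gg H k z) A‖ ≤ (4 / 3) ^ wt A * C := by
        have h5 : (3 / 4 : ℝ) ^ wt A ≤ (1 - ‖z‖ ^ 2) ^ wt A :=
          pow_le_pow_left₀ (by norm_num) hs _
        have h6 : (3 / 4 : ℝ) ^ wt A * ‖ev (fun k => gg H k z) A‖ ≤ C :=
          (mul_le_mul_of_nonneg_right h5 (norm_nonneg _)).trans h3
        have h7 : (4 / 3 : ℝ) ^ wt A * (3 / 4 : ℝ) ^ wt A = 1 := by
          rw [← mul_pow]; norm_num
        calc ‖ev (fun k => gg H k z) A‖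
            = (4 / 3 : ℝ) ^ wt A * ((3 / 4 : ℝ) ^ wt A * ‖ev (fun k => gg H k z) A‖) := by
              rw [← mul_assoc, h7, one_mul]
          _ ≤ (4 / 3) ^ wt A * C := mul_le_mul_of_nonneg_left h6 (by positivity)
      unfold FA
      rw [norm_mul]
      exact mul_le_mul h2 h4 (norm_nonneg _) (by norm_num)) m
  rw [one_div, inv_pow] at h1
  have h2 : (0 : ℝ) < 2 ^ m := by positivity
  unfold xs
  calc ‖coeff (FA s H A) m‖
      = ‖coeff (FA s H A) m‖ * (2 ^ m)⁻¹ * 2 ^ m := by field_simp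
    _ ≤ 4 / 3 * ((4 / 3) ^ wt A * C) * 2 ^ m :=
      mul_le_mul_of_nonneg_right h1 h2.le

theorem px_bound (s : ℂ) (hs : ‖s‖ ≤ 1) (P : List (ℂ × List ℕ)) (m : ℕ) : ∃ B : ℝ, 0 ≤ B ∧
    ∀ (ρ : ℝ) (β H : ℂ → ℂ) (Φ : ℂ → ℂ → ℂ), Dat ρ β H Φ → ‖px s H P m‖ ≤ B := by
  induction P with
  | nil =>
    refine ⟨0, le_refl _, fun ρ β H Φ _ => ?_⟩
    rw [px_nil, norm_zero]
  | cons x P ih =>
    obtain ⟨B, hB0, hB⟩ := ih
    obtain ⟨D, hD0, hD⟩ := xs_bound x.2 m
    refine ⟨‖x.1‖ * D + B, by positivity, fun ρ β H Φ h => ?_⟩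
    rw [px_cons]
    refine (norm_add_le _ _).trans ?_
    rw [norm_mul]
    exact add_le_add (mul_le_mul_of_nonneg_left (hD ρ β H Φ h s hs) (norm_nonneg _)) (hB ρ β H Φ h)

/-- the size of the coefficients of a polynomial of bounded weight -/
theorem norm_px_le (s : ℂ) (H : ℂ → ℂ) (P : List (ℂ × List ℕ)) {m w : ℕ} (hm : 1 ≤ m) {N : ℝ}
    (hP : ∀ x ∈ P, wt x.2 ≤ w ∧ ys s H x.2 m ≤ N) : ‖px s H P m‖ ≤ pn P * N * (m : ℝ) ^ w := by
  induction P with
  | nil => rw [px_nil, norm_zero, pn_nil, zero_mul, zero_mul]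
  | cons x P ih =>
    have h1 := ih (fun y hy => hP y (List.mem_cons_of_mem _ hy))
    obtain ⟨h2, h3⟩ := hP x List.mem_cons_self
    rw [px_cons, pn_cons]
    refine (norm_add_le _ _).trans ?_
    rw [norm_mul, norm_xs s H x.2 hm]
    have hm1 : (1 : ℝ) ≤ m := by exact_mod_cast hm
    have h4 : ys s H x.2 m * (m : ℝ) ^ wt x.2 ≤ N * (m : ℝ) ^ w :=
      mul_le_mul h3 (pow_le_pow_right₀ hm1 h2) (by positivity) ((ys_nonneg s H x.2 m).trans h3)
    have h5 := mul_le_mul_of_nonneg_left h4 (norm_nonneg x.1)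
    calc ‖x.1‖ * (ys s H x.2 m * (m : ℝ) ^ wt x.2) + ‖px s H P m‖
        ≤ ‖x.1‖ * (N * (m : ℝ) ^ w) + pn P * N * (m : ℝ) ^ w := add_le_add h5 h1
      _ = (‖x.1‖ + pn P) * N * (m : ℝ) ^ w := by ring

/-! ### the pairings as series -/

theorem cont_pv {ρ : ℝ} {β H : ℂ → ℂ} {Φ : ℂ → ℂ → ℂ} (h : Dat ρ β H Φ)
    (P : List (ℂ × List ℕ)) : ContinuousOn (fun z => pv (cc H z) P) (closedBall 0 1) := by
  induction P with
  | nil =>
    simp only [pv_nil]
    exact continuousOn_const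
  | cons x P ih =>
    simp only [pv_cons]
    exact ((cont_ev_cc h.one_lt h.diff x.2).const_mul x.1).add ih

theorem cont_pair {f g : ℂ → ℂ} {S : Set ℂ} (hf : ContinuousOn f S) (hg : ContinuousOn g S)
    (ζ : ℂ) : ContinuousOn (fun z => (ζ * (f z * conj (g z))).re) S :=
  Complex.continuous_re.comp_continuousOn
    ((hf.mul (Complex.continuous_conj.comp_continuousOn hg)).const_mul ζ)

theorem pair_one {ρ : ℝ} {β H : ℂ → ℂ} {Φ : ℂ → ℂ → ℂ} (h : Dat ρ β H Φ) {b : ℝ}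
    (hb : 0 < b) (s : ℂ) (A : List ℕ) (R : List (ℂ × List ℕ)) {wR : ℕ}
    (hR : ∀ x ∈ R, wt x.2 = wR) : ∀ ζ : ℂ,
    HasSum (fun m : ℕ => ((b + wt A + wR) * pq (b + wt A + wR + 1) m)⁻¹
      * (ζ * (xs s H A m * conj (px s H R m))).re)
      (LS s H b (fun z => (ζ * (ev (cc H z) A * conj (pv (cc H z) R))).re)) := by
  induction R with
  | nil =>
    intro ζ
    have e1 : (fun m : ℕ => ((b + wt A + wR) * pq (b + wt A + wR + 1) m)⁻¹
      * (ζ * (xs s H A m * conj (px s H [] m))).re) = fun _ => 0 := by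
      funext m
      rw [px_nil]
      simp
    have e2 : LS s H b (fun z => (ζ * (ev (cc H z) A * conj (pv (cc H z) []))).re) = 0 := by
      unfold LS
      simp [pv_nil]
    rw [e1, e2]
    exact hasSum_zero
  | cons x R ih =>
    intro ζ
    have h1 := ih (fun y hy => hR y (List.mem_cons_of_mem _ hy)) ζ
    have h2 := cross_sum_s h hb s (ζ * conj x.1) A x.2
    have hw := hR x List.mem_cons_self
    rw [hw] at h2
    have h3 := h2.add h1
    have e1 : (fun m : ℕ => ((b + wt A + wR) * pq (b + wt A + wR + 1) m)⁻¹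
        * (ζ * conj x.1 * (coeff (FA s H A) m * conj (coeff (FA s H x.2) m))).re
        + ((b + wt A + wR) * pq (b + wt A + wR + 1) m)⁻¹
        * (ζ * (xs s H A m * conj (px s H R m))).re)
        = fun m : ℕ => ((b + wt A + wR) * pq (b + wt A + wR + 1) m)⁻¹
        * (ζ * (xs s H A m * conj (px s H (x :: R) m))).re := by
      funext m
      rw [← mul_add, ← Complex.add_re]
      congr 2
      rw [px_cons, map_add, map_mul]
      unfold xs
      ring
    rw [e1] at h3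
    have hHc := dat_cont h
    have c1 := cont_pair (cont_ev_cc h.one_lt h.diff A) (cont_ev_cc h.one_lt h.diff x.2)
      (ζ * conj x.1)
    have c2 := cont_pair (cont_ev_cc h.one_lt h.diff A) (cont_pv h R) ζ
    rw [← LS_add hHc hb c1 c2] at h3
    have e2 : (fun z => (ζ * conj x.1 * (ev (cc H z) A * conj (ev (cc H z) x.2))).re
        + (ζ * (ev (cc H z) A * conj (pv (cc H z) R))).re)
        = fun z => (ζ * (ev (cc H z) A * conj (pv (cc H z) (x :: R)))).re := by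
      funext z
      rw [← Complex.add_re]
      congr 1
      rw [pv_cons, map_add, map_mul]
      ring
    rw [e2] at h3
    exact h3

theorem pair_hasSum {ρ : ℝ} {β H : ℂ → ℂ} {Φ : ℂ → ℂ → ℂ} (h : Dat ρ β H Φ) {b : ℝ}
    (hb : 0 < b) (s : ℂ) (P R : List (ℂ × List ℕ)) {wP wR : ℕ} (hP : ∀ x ∈ P, wt x.2 = wP)
    (hR : ∀ x ∈ R, wt x.2 = wR) : ∀ ζ : ℂ,
    HasSum (fun m : ℕ => ((b + wP + wR) * pq (b + wP + wR + 1) m)⁻¹
      * (ζ * (px s H P m * conj (px s H R m))).re)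
      (LS s H b (fun z => (ζ * (pv (cc H z) P * conj (pv (cc H z) R))).re)) := by
  induction P with
  | nil =>
    intro ζ
    have e1 : (fun m : ℕ => ((b + wP + wR) * pq (b + wP + wR + 1) m)⁻¹
      * (ζ * (px s H [] m * conj (px s H R m))).re) = fun _ => 0 := by
      funext m
      rw [px_nil]
      simp
    have e2 : LS s H b (fun z => (ζ * (pv (cc H z) [] * conj (pv (cc H z) R))).re) = 0 := by
      unfold LS
      simp [pv_nil]
    rw [e1, e2]
    exact hasSum_zero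
  | cons x P ih =>
    intro ζ
    have h1 := ih (fun y hy => hP y (List.mem_cons_of_mem _ hy)) ζ
    have h2 := pair_one h hb s x.2 R hR (ζ * x.1)
    have hw := hP x List.mem_cons_self
    rw [hw] at h2
    have h3 := h2.add h1
    have e1 : (fun m : ℕ => ((b + wP + wR) * pq (b + wP + wR + 1) m)⁻¹
        * (ζ * x.1 * (xs s H x.2 m * conj (px s H R m))).re
        + ((b + wP + wR) * pq (b + wP + wR + 1) m)⁻¹
        * (ζ * (px s H P m * conj (px s H R m))).re)
        = fun m : ℕ => ((b + wP + wR) * pq (b + wP + wR + 1) m)⁻¹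
        * (ζ * (px s H (x :: P) m * conj (px s H R m))).re := by
      funext m
      rw [← mul_add, ← Complex.add_re]
      congr 2
      rw [px_cons]
      ring
    rw [e1] at h3
    have hHc := dat_cont h
    have c1 := cont_pair (cont_ev_cc h.one_lt h.diff x.2) (cont_pv h R) (ζ * x.1)
    have c2 := cont_pair (cont_pv h P) (cont_pv h R) ζ
    rw [← LS_add hHc hb c1 c2] at h3
    have e2 : (fun z => (ζ * x.1 * (ev (cc H z) x.2 * conj (pv (cc H z) R))).re
        + (ζ * (pv (cc H z) P * conj (pv (cc H z) R))).re)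
        = fun z => (ζ * (pv (cc H z) (x :: P) * conj (pv (cc H z) R))).re := by
      funext z
      rw [← Complex.add_re]
      congr 1
      rw [pv_cons]
      ring
    rw [e2] at h3
    exact h3

/-! ### the weights of the orders -/

/-- the weight of the order `m` -/
noncomputable def WtS (b : ℝ) (m : ℕ) : ℝ := (m : ℝ) ^ 2 / pq (b + 3) (m - 1)

theorem WtS_pos {b : ℝ} (hb : 0 < b) {m : ℕ} (hm : 1 ≤ m) : 0 < WtS b m := by
  unfold WtS
  have := pq_pos (z := b + 3) (by positivity) (m - 1)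
  have h0 : (0 : ℝ) < m := by exact_mod_cast hm
  positivity

theorem WtS_eq {b : ℝ} (hb : 0 < b) {m : ℕ} (hm : 1 ≤ m) :
    WtS b m = Helper39.MH.Wt b m * ((b + 2 + m) / m) := by
  obtain ⟨n, rfl⟩ := Nat.exists_eq_add_of_le' hm
  unfold WtS Helper39.MH.Wt
  rw [Nat.add_sub_cancel]
  have h1 : pq (b + 3) (n + 1) = pq (b + 3) n * ((b + 3 + n) / (n + 1)) := rfl
  rw [h1]
  have h2 := pq_pos (z := b + 3) (by positivity) n
  have h3 : (0 : ℝ) < b + 3 + n := by positivity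
  have h4 : (0 : ℝ) < (n : ℝ) + 1 := by positivity
  push_cast
  have e : b + 2 + ((n : ℝ) + 1) = b + 3 + n := by ring
  rw [e]
  field_simp

theorem poch_eq (b : ℝ) (w : ℕ) : poch b w = (Nat.factorial w : ℝ) * pq b w := by
  induction w with
  | zero => simp [poch, pq]
  | succ w ih =>
    have h1 : pq b (w + 1) = pq b w * ((b + w) / (w + 1)) := rfl
    unfold poch at ih ⊢
    rw [Finset.prod_range_succ, ih, h1, Nat.factorial_succ]
    push_cast
    field_simp

theorem poch_pos {b : ℝ} (hb : 0 < b) (w : ℕ) : 0 < poch b w := by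
  unfold poch
  exact Finset.prod_pos fun k _ => by positivity

theorem wtS_tendsto {b : ℝ} (hb : 0 < b) (w : ℕ) :
    Tendsto (fun m : ℕ => WtS b m / (m : ℝ) ^ w * ((b + w) * pq (b + w + 1) m)) atTop
      (𝓝 (b * (b + 1) * (b + 2) / poch b w)) := by
  have h1 := (wt_tendsto hb w).mul (Weights.quot_one (b + 2))
  rw [mul_one, ← poch_eq] at h1
  refine h1.congr' ?_
  filter_upwards [eventually_ge_atTop 1] with m hm
  rw [WtS_eq hb hm]
  ring

/-- the ratio of the exact coefficient and of its leading term -/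
noncomputable def trS (b : ℝ) (m w : ℕ) : ℝ :=
  b * (b + 1) * (b + 2) / poch b w / (WtS b m / (m : ℝ) ^ w * ((b + w) * pq (b + w + 1) m))

theorem trS_tendsto {b : ℝ} (hb : 0 < b) (w : ℕ) :
    Tendsto (fun m => trS b m w) atTop (𝓝 1) := by
  have h := wtS_tendsto hb w
  have hp := poch_pos hb w
  have h0 : b * (b + 1) * (b + 2) / poch b w ≠ 0 := by positivity
  have h1 := (tendsto_const_nhds (x := b * (b + 1) * (b + 2) / poch b w)).div h h0
  rw [div_self h0] at h1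
  exact h1

/-- the weighted sum of the squares of the normalised moduli, for a general integrand -/
theorem norm_sum_s {b : ℝ} (hb : 0 < b) (A : List ℕ) : ∃ C : ℝ, 0 ≤ C ∧
    ∀ (ρ : ℝ) (β H : ℂ → ℂ) (Φ : ℂ → ℂ → ℂ), Dat ρ β H Φ → ∀ (s : ℂ) (F : Finset ℕ),
      ∑ m ∈ F, WtS b m * ys s H A m ^ 2 ≤ C * LS s H b (fun _ => 1) := by
  obtain ⟨Cb, hC0, hCb⟩ := gg_bound
  obtain ⟨K0, hK0⟩ := (wtS_tendsto hb (wt A + wt A)).bddAbove_range
  have hK : ∀ m : ℕ, WtS b m / (m : ℝ) ^ (wt A + wt A)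
      * ((b + wt A + wt A) * pq (b + wt A + wt A + 1) m) ≤ max K0 0 := by
    intro m
    have h1 := hK0 ⟨m, rfl⟩
    simp only at h1
    push_cast at h1
    rw [show b + ((wt A : ℝ) + wt A) = b + wt A + wt A by ring] at h1
    exact h1.trans (le_max_left _ _)
  have hK1 : 0 ≤ max K0 0 := le_max_right _ _
  generalize max K0 0 = K at hK hK1
  have hP := (ev_bound hC0 (c := fun n => (0:ℂ)) (fun n => by simpa using hC0 n) A).2
  refine ⟨K * (A.map Cb).prod ^ 2, by positivity, ?_⟩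
  intro ρ β H Φ h s F
  have hs := cross_sum_s h hb s 1 A A
  have hre : ∀ x : ℂ, (1 * (x * conj x)).re = ‖x‖ ^ 2 := by
    intro x
    rw [one_mul, Complex.mul_conj, Complex.normSq_eq_norm_sq, Complex.ofReal_re]
  simp_rw [hre] at hs
  have hterm : ∀ m : ℕ, WtS b m * ys s H A m ^ 2
      ≤ K * (((b + wt A + wt A) * pq (b + wt A + wt A + 1) m)⁻¹ * ‖coeff (FA s H A) m‖ ^ 2) := by
    intro m
    unfold ys xs
    generalize ‖coeff (FA s H A) m‖ = x
    have hq1 := pq_pos (z := b + wt A + wt A + 1) (by positivity) m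
    have hq : 0 < (b + wt A + wt A) * pq (b + wt A + wt A + 1) m := by positivity
    have h2 : WtS b m * (x / (m : ℝ) ^ wt A) ^ 2 = WtS b m / (m : ℝ) ^ (wt A + wt A)
        * ((b + wt A + wt A) * pq (b + wt A + wt A + 1) m)
        * (((b + wt A + wt A) * pq (b + wt A + wt A + 1) m)⁻¹ * x ^ 2) := by
      rw [div_pow, ← pow_mul, show wt A * 2 = wt A + wt A by ring]
      generalize (b + wt A + wt A) * pq (b + wt A + wt A + 1) m = q at hq
      have := hq.ne'
      field_simp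
    rw [h2]
    exact mul_le_mul_of_nonneg_right (hK m) (by positivity)
  have hnn : ∀ m : ℕ, 0 ≤ ((b + wt A + wt A) * pq (b + wt A + wt A + 1) m)⁻¹
      * ‖coeff (FA s H A) m‖ ^ 2 := by
    intro m
    have hq1 := pq_pos (z := b + wt A + wt A + 1) (by positivity) m
    positivity
  have h3 : ∑ m ∈ F, WtS b m * ys s H A m ^ 2 ≤ K * LS s H b (fun z => ‖ev (cc H z) A‖ ^ 2) := by
    refine (Finset.sum_le_sum fun m _ => hterm m).trans ?_
    rw [← Finset.mul_sum]
    exact mul_le_mul_of_nonneg_left (sum_le_hasSum F (fun m _ => hnn m) hs) hK1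
  refine h3.trans ?_
  have hHd : DifferentiableOn ℂ H (ball 0 1) := h.diff.mono (ball_subset_ball h.one_lt.le)
  have h4 : LS s H b (fun z => ‖ev (cc H z) A‖ ^ 2)
      ≤ LS s H b (fun _ => (A.map Cb).prod ^ 2 * 1) := by
    apply LS_mono (dat_cont h) hb ((cont_ev_cc h.one_lt h.diff A).norm.pow 2) continuousOn_const
    intro z hz
    have h5 := (ev_bound hC0 (fun n => hCb H hHd h.bloch n z hz) A).1
    rw [mul_one]
    exact pow_le_pow_left₀ (norm_nonneg _) h5 2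
  rw [LS_smul] at h4
  rw [mul_assoc]
  exact mul_le_mul_of_nonneg_left h4 hK1

/-! ### Hermitian forms -/

/-- the sum of the moduli of the entries -/
noncomputable def qn (K : ℕ) (Q : ℕ → ℕ → ℂ) : ℝ :=
  ∑ r ∈ Finset.range K, ∑ t ∈ Finset.range K, ‖Q r t‖

theorem qn_nonneg (K : ℕ) (Q : ℕ → ℕ → ℂ) : 0 ≤ qn K Q :=
  Finset.sum_nonneg fun _ _ => Finset.sum_nonneg fun _ _ => norm_nonneg _

theorem hF_diff (K : ℕ) (Q : ℕ → ℕ → ℂ) (u v : ℕ → ℂ) {U V e : ℝ} (he : 0 ≤ e)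
    (hu : ∀ i < K, ‖u i‖ ≤ U) (hv : ∀ i < K, ‖v i‖ ≤ V) (hd : ∀ i < K, ‖u i - v i‖ ≤ e) :
    hF K Q u - hF K Q v ≤ qn K Q * (e * (U + V)) := by
  unfold hF qn
  rw [← Finset.sum_sub_distrib, Finset.sum_mul]
  apply Finset.sum_le_sum
  intro r hr
  rw [← Finset.sum_sub_distrib, Finset.sum_mul]
  apply Finset.sum_le_sum
  intro t ht
  rw [Finset.mem_range] at hr ht
  rw [← Complex.sub_re, ← mul_sub]
  refine (Complex.re_le_norm _).trans ?_
  rw [norm_mul]
  apply mul_le_mul_of_nonneg_left _ (norm_nonneg _)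
  have e1 : u t * conj (u r) - v t * conj (v r)
      = (u t - v t) * conj (u r) + v t * conj (u r - v r) := by
    rw [map_sub]
    ring
  rw [e1]
  refine (norm_add_le _ _).trans ?_
  rw [norm_mul, norm_mul, RCLike.norm_conj, RCLike.norm_conj]
  have h2 : ‖u t - v t‖ * ‖u r‖ ≤ e * U := mul_le_mul (hd t ht) (hu r hr) (norm_nonneg _) he
  have h3 : ‖v t‖ * ‖u r - v r‖ ≤ V * e :=
    mul_le_mul (hv t ht) (hd r hr) (norm_nonneg _) ((norm_nonneg _).trans (hv t ht))
  linarith only [h2, h3]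

/-- perturbation of the coefficients -/
theorem hF_pert (K : ℕ) (Q : ℕ → ℕ → ℂ) (τ : ℕ → ℕ → ℝ) (u : ℕ → ℂ) {N e : ℝ} (hN : 0 ≤ N)
    (he0 : 0 ≤ e) (hu : ∀ i < K, ‖u i‖ ≤ N) (he : ∀ r < K, ∀ t < K, |τ r t - 1| ≤ e) :
    ∑ r ∈ Finset.range K, ∑ t ∈ Finset.range K, τ r t * (Q r t * (u t * conj (u r))).re
      ≤ hF K Q u + e * (qn K Q * N ^ 2) := by
  unfold hF qn
  rw [← mul_assoc, Finset.mul_sum, Finset.sum_mul, ← Finset.sum_add_distrib]
  apply Finset.sum_le_sum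
  intro r hr
  rw [Finset.mul_sum, Finset.sum_mul, ← Finset.sum_add_distrib]
  apply Finset.sum_le_sum
  intro t ht
  rw [Finset.mem_range] at hr ht
  have h1 : |(Q r t * (u t * conj (u r))).re| ≤ ‖Q r t‖ * N ^ 2 := by
    refine (Complex.abs_re_le_norm _).trans ?_
    rw [norm_mul, norm_mul, RCLike.norm_conj, sq]
    exact mul_le_mul_of_nonneg_left (mul_le_mul (hu t ht) (hu r hr) (norm_nonneg _) hN)
      (norm_nonneg _)
  have h2 : (τ r t - 1) * (Q r t * (u t * conj (u r))).re ≤ e * (‖Q r t‖ * N ^ 2) := by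
    refine (le_abs_self _).trans ?_
    rw [abs_mul]
    exact mul_le_mul (he r hr t ht) h1 (abs_nonneg _) he0
  have e3 : e * ‖Q r t‖ * N ^ 2 = e * (‖Q r t‖ * N ^ 2) := by ring
  rw [e3]
  have e4 : τ r t * (Q r t * (u t * conj (u r))).re = (Q r t * (u t * conj (u r))).re
      + (τ r t - 1) * (Q r t * (u t * conj (u r))).re := by ring
  rw [e4]
  linarith only [h2]

theorem LS_fsum {s : ℂ} {H : ℂ → ℂ} {b : ℝ} (hH : ContinuousOn H (closedBall 0 1)) (hb : 0 < b)
    (S : Finset ℕ) (f : ℕ → ℂ → ℝ) (hf : ∀ i ∈ S, ContinuousOn (f i) (closedBall 0 1)) :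
    LS s H b (fun z => ∑ i ∈ S, f i z) = ∑ i ∈ S, LS s H b (f i) := by
  induction S using Finset.induction_on with
  | empty =>
    unfold LS
    simp
  | insert i S hi ih =>
    have h1 := ih (fun j hj => hf j (Finset.mem_insert_of_mem hj))
    have h2 : ContinuousOn (fun z => ∑ j ∈ S, f j z) (closedBall 0 1) :=
      continuousOn_finsetSum S (fun j hj => hf j (Finset.mem_insert_of_mem hj))
    rw [Finset.sum_insert hi, ← h1, ← LS_add hH hb (hf i (Finset.mem_insert_self i S)) h2]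
    apply LS_congr
    intro z _
    rw [Finset.sum_insert hi]

end FS

end Pool.Agent.M16.Helper24.HR2
end

/- Helper94.T.Helper24.HR2.FormS -/
section
/-!
MP_16b0ee, project HR2, section R8: the area form in the scaled variables.
-/

set_option autoImplicit false

open MeasureTheory Set Metric Filter Topology
open scoped Real ComplexConjugate

namespace Pool.Agent.M16.Helper24.HR2

open Pool.Agent.M16.Helper22.Half
open Pool.Agent.M16.Helper22.Marshall (coeff SepHol LogPhi dcoeff GLe coeff_const_mul)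
open Pool.Agent.M16.Helper39.Area (Ext phi)
open Pool.Agent.M16.Helper39.MH

namespace FS

theorem pv_append (c : ℕ → ℂ) (P R : List (ℂ × List ℕ)) : pv c (P ++ R) = pv c P + pv c R := by
  unfold pv
  rw [List.map_append, List.sum_append]

theorem px_append (s : ℂ) (H : ℂ → ℂ) (P R : List (ℂ × List ℕ)) (m : ℕ) :
    px s H (P ++ R) m = px s H P m + px s H R m := by
  unfold px
  rw [List.map_append, List.sum_append]

/-- the leading parts of the even moments, as polynomials in the jets -/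
noncomputable def LP (s : ℂ) : ℕ → List (ℂ × List ℕ)
  | 0 => [(1, [])]
  | 1 => [(s / 2, [0, 0]), (-(s / 2), [1])]
  | 2 => [(-(3 / 2) * s, [3]), (3 / 4 * (s ^ 2 - s) + 3 / 2 * s, [1, 1]), (3 * s, [0, 2]),
      (-(3 / 2) * (s ^ 2 - s) - 9 / 2 * s, [0, 0, 1]),
      (3 / 4 * (s ^ 2 - s) + 3 / 2 * s, [0, 0, 0, 0])]
  | _ => []

/-- the lower order parts of the even moments, as polynomials in the jets -/
noncomputable def lP (s : ℂ) : ℕ → List (ℂ × List ℕ)
  | 1 => [(1 / 3 * s, [0])]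
  | 2 => [(6 / 5 * s, [2]), (-(7 / 5) * s - s ^ 2, [0, 1]), (1 / 5 * s + s ^ 2, [0, 0, 0]),
      (-(1 / 5) * s, [1]), (-(2 / 15) * s + 1 / 3 * s ^ 2, [0, 0]), (-(1 / 15) * s, [0])]
  | _ => []

theorem XS_eq (s : ℂ) (c : ℕ → ℂ) {r : ℕ} (hr : r < 3) : XS s c r = pv c (LP s r) := by
  interval_cases r
  · simp [XS, pv, LP, ev]
  · simp [XS, pv, LP, ev]
    ring
  · simp [XS, pv, LP, ev]
    ring

theorem low2S_eq (s : ℂ) (c : ℕ → ℂ) : low2S s c = pv c (lP s 1) := by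
  simp [low2S, pv, lP, ev]

theorem low4S_eq (s : ℂ) (c : ℕ → ℂ) : low4S s c = pv c (lP s 2) := by
  simp [low4S, pv, lP, ev]
  ring

theorem LP_wt (s : ℂ) {r : ℕ} (hr : r < 3) : ∀ x ∈ LP s r, wt x.2 = 2 * r := by
  interval_cases r
  · simp [LP, wt]
  · simp [LP, wt]
  · simp [LP, wt]

theorem lP_wt (s : ℂ) {r : ℕ} (hr : r < 3) : ∀ x ∈ lP s r, wt x.2 + 1 ≤ 2 * r := by
  interval_cases r
  · simp [lP]
  · simp [lP, wt]
  · simp [lP, wt]

/-! ### the area form as a series -/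

/-! ### the inequality for a large order -/

theorem KS_pos {s : ℂ} (hs : ‖s‖ < 1) : 0 < KS s := lt_of_lt_of_le one_pos (KS_facts hs).1

/-! ### the finite part -/

end FS

open FS

end Pool.Agent.M16.Helper24.HR2
end

/- Helper94.T.Helper24.HR2.CoreG -/
section
/-!
MP_16b0ee, project HR2, section T3: from an abstract inequality for large orders to the bound,
for an arbitrary number of even moments; the cases of three and of four moments.
-/

set_option autoImplicit false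

open MeasureTheory Set Metric Filter Topology
open scoped Real ComplexConjugate

namespace Pool.Agent.M16.Helper24.HR2

open Pool.Agent.M16.Helper22.Half
open Pool.Agent.M16.Helper22.Marshall (coeff SepHol LogPhi dcoeff GLe)
open Pool.Agent.M16.Helper39.Area (Ext phi)
open Pool.Agent.M16.Helper39.MH

namespace CG

theorem pref_nonneg {s : ℂ} (hs : ‖s‖ < 1) {b : ℝ} (hb : 0 < b) (m : ℕ) :
    0 ≤ (m : ℝ) ^ 2 / (KS s * pq (b + 3) (m - 1)) := by
  have h1 := FS.KS_pos hs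
  have h2 := pq_pos (z := b + 3) (by linarith only [hb]) (m - 1)
  positivity

end CG

namespace CG

open FS

/-- a family of leading parts and of lower order parts of the first `R` even moments -/
structure Fam (s : ℂ) (R : ℕ) (L l : ℕ → List (ℂ × List ℕ)) : Prop where
  wtL : ∀ r < R, ∀ x ∈ L r, wt x.2 = 2 * r
  wtl : ∀ r < R, ∀ x ∈ l r, wt x.2 + 1 ≤ 2 * r
  split : ∀ (ρ : ℝ) (β H : ℂ → ℂ) (Φ : ℂ → ℂ → ℂ), Dat ρ β H Φ → ∀ m : ℕ, ∀ r < R,
    ∑ i ∈ Finset.range (m + 1), diagc (EE Φ s) m i * ((i : ℂ) - m / 2) ^ (2 * r)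
      = px s H (L r) m + px s H (l r) m

/-- the monomials which occur -/
def mons (R : ℕ) (L l : ℕ → List (ℂ × List ℕ)) : Finset (List ℕ) :=
  (Finset.range R).biUnion fun r => ((L r ++ l r).map Prod.snd).toFinset

theorem mem_mons {R : ℕ} {L l : ℕ → List (ℂ × List ℕ)} {r : ℕ} (hr : r < R) {x : ℂ × List ℕ}
    (hx : x ∈ L r ∨ x ∈ l r) : x.2 ∈ mons R L l := by
  unfold mons
  rw [Finset.mem_biUnion]
  refine ⟨r, Finset.mem_range.mpr hr, ?_⟩
  rw [List.mem_toFinset, List.mem_map]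
  exact ⟨x, List.mem_append.mpr hx, rfl⟩

/-- the sum of the normalised moduli -/
noncomputable def NG (M : Finset (List ℕ)) (s : ℂ) (H : ℂ → ℂ) (m : ℕ) : ℝ :=
  ∑ A ∈ M, ys s H A m

/-- the sum of the squares of the normalised moduli -/
noncomputable def S2G (M : Finset (List ℕ)) (s : ℂ) (H : ℂ → ℂ) (m : ℕ) : ℝ :=
  ∑ A ∈ M, ys s H A m ^ 2

theorem ys_le {M : Finset (List ℕ)} (s : ℂ) (H : ℂ → ℂ) (m : ℕ) {A : List ℕ} (hA : A ∈ M) :
    ys s H A m ≤ NG M s H m :=
  Finset.single_le_sum (f := fun A => ys s H A m) (fun A _ => ys_nonneg s H A m) hA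

theorem NG_nonneg (M : Finset (List ℕ)) (s : ℂ) (H : ℂ → ℂ) (m : ℕ) : 0 ≤ NG M s H m :=
  Finset.sum_nonneg fun A _ => ys_nonneg s H A m

theorem S2G_nonneg (M : Finset (List ℕ)) (s : ℂ) (H : ℂ → ℂ) (m : ℕ) : 0 ≤ S2G M s H m :=
  Finset.sum_nonneg fun A _ => by positivity

theorem NG_sq (M : Finset (List ℕ)) (s : ℂ) (H : ℂ → ℂ) (m : ℕ) :
    NG M s H m ^ 2 ≤ ((M.card : ℝ) + 1) * S2G M s H m := by
  have h := sq_sum_le_card_mul_sum_sq (s := M) (f := fun A => ys s H A m)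
  have h2 := S2G_nonneg M s H m
  unfold NG
  unfold S2G at h2 ⊢
  linarith

/-- the leading part of the normalised moments -/
noncomputable def ug (L : ℕ → List (ℂ × List ℕ)) (s : ℂ) (H : ℂ → ℂ) (m r : ℕ) : ℂ :=
  px s H (L r) m / (m : ℂ) ^ (2 * r)

theorem vS_split {s : ℂ} {R : ℕ} {L l : ℕ → List (ℂ × List ℕ)} (hf : Fam s R L l)
    {ρ : ℝ} {β H : ℂ → ℂ} {Φ : ℂ → ℂ → ℂ} (h : Dat ρ β H Φ) (m : ℕ) {r : ℕ} (hr : r < R) :
    vS (diagc (EE Φ s) m) m r = ug L s H m r + ug l s H m r := by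
  unfold vS ug
  rw [hf.split ρ β H Φ h m r hr, add_div]

/-- a common bound of the coefficients -/
noncomputable def CPG (R : ℕ) (L l : ℕ → List (ℂ × List ℕ)) : ℝ :=
  1 + ∑ r ∈ Finset.range R, (pn (L r) + pn (l r))

theorem CPG_ge {R : ℕ} (L l : ℕ → List (ℂ × List ℕ)) {r : ℕ} (hr : r < R) :
    pn (L r) + pn (l r) ≤ CPG R L l := by
  unfold CPG
  have h1 := Finset.single_le_sum (f := fun r => pn (L r) + pn (l r))
    (s := Finset.range R) (fun r _ => add_nonneg (pn_nonneg _) (pn_nonneg _))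
    (Finset.mem_range.mpr hr)
  linarith only [h1]

theorem CPG_pos (R : ℕ) (L l : ℕ → List (ℂ × List ℕ)) : 1 ≤ CPG R L l := by
  unfold CPG
  have h1 := Finset.sum_nonneg (f := fun r => pn (L r) + pn (l r))
    (s := Finset.range R) (fun r _ => add_nonneg (pn_nonneg _) (pn_nonneg _))
  linarith

theorem norm_ug_le {s : ℂ} {R : ℕ} {L l : ℕ → List (ℂ × List ℕ)} (hf : Fam s R L l)
    (H : ℂ → ℂ) {m : ℕ} (hm : 1 ≤ m) {r : ℕ} (hr : r < R) :
    ‖ug L s H m r‖ ≤ CPG R L l * NG (mons R L l) s H m := by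
  have hm0 : (0 : ℝ) < m := by exact_mod_cast hm
  have h1 := norm_px_le s H (L r) (w := 2 * r) hm (N := NG (mons R L l) s H m) (fun x hx =>
    ⟨(hf.wtL r hr x hx).le, ys_le s H m (mem_mons hr (Or.inl hx))⟩)
  unfold ug
  rw [norm_div, norm_pow, Complex.norm_natCast, div_le_iff₀ (by positivity)]
  have hN := NG_nonneg (mons R L l) s H m
  have h2 := CPG_ge L l hr
  have h3 := pn_nonneg (l r)
  refine h1.trans ?_
  apply mul_le_mul_of_nonneg_right _ (by positivity)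
  apply mul_le_mul_of_nonneg_right _ hN
  linarith only [h2, h3]

theorem norm_eg_le {s : ℂ} {R : ℕ} {L l : ℕ → List (ℂ × List ℕ)} (hf : Fam s R L l)
    (H : ℂ → ℂ) {m : ℕ} (hm : 1 ≤ m) {r : ℕ} (hr : r < R) :
    ‖ug l s H m r‖ ≤ CPG R L l * NG (mons R L l) s H m / m := by
  have hm0 : (0 : ℝ) < m := by exact_mod_cast hm
  have hN := NG_nonneg (mons R L l) s H m
  have hC := CPG_pos R L l
  rcases Nat.eq_zero_or_pos r with h0 | h0
  · subst h0
    have e : ug l s H m 0 = 0 := by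
      unfold ug
      have : l 0 = [] := by
        rw [List.eq_nil_iff_forall_not_mem]
        intro x hx
        have := hf.wtl 0 hr x hx
        omega
      rw [this, px_nil, zero_div]
    rw [e, norm_zero]
    positivity
  · have h1 := norm_px_le s H (l r) (w := 2 * r - 1) hm (N := NG (mons R L l) s H m)
      (fun x hx => ⟨by have := hf.wtl r hr x hx; omega, ys_le s H m (mem_mons hr (Or.inr hx))⟩)
    unfold ug
    have h2 := CPG_ge L l hr
    have h3 := pn_nonneg (L r)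
    have e : (m : ℝ) ^ (2 * r) = (m : ℝ) ^ (2 * r - 1) * m := by
      rw [← pow_succ]
      congr 1
      omega
    rw [norm_div, norm_pow, Complex.norm_natCast, e, ← div_div]
    apply div_le_div_of_nonneg_right _ hm0.le
    rw [div_le_iff₀ (by positivity)]
    refine h1.trans ?_
    apply mul_le_mul_of_nonneg_right _ (by positivity)
    apply mul_le_mul_of_nonneg_right _ hN
    linarith only [h2, h3]

/-! ### the area form as a series -/

/-- the area form of a family -/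
noncomputable def qG (R : ℕ) (L : ℕ → List (ℂ × List ℕ)) (Q : ℕ → ℕ → ℂ) (b : ℝ)
    (c : ℕ → ℂ) : ℝ :=
  b * (b + 1) * (b + 2) * ∑ r ∈ Finset.range R, ∑ t ∈ Finset.range R,
    (Q r t * (pv c (L t) * conj (pv c (L r)))).re / poch b (2 * r + 2 * t)

/-- the term of order `m` of the area form -/
noncomputable def cmG (R : ℕ) (L : ℕ → List (ℂ × List ℕ)) (Q : ℕ → ℕ → ℂ) (s : ℂ) (b : ℝ)
    (H : ℂ → ℂ) (m : ℕ) : ℝ :=
  ∑ r ∈ Finset.range R, ∑ t ∈ Finset.range R, b * (b + 1) * (b + 2) / poch b (2 * r + 2 * t)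
    * (((b + (2 * t : ℕ) + (2 * r : ℕ)) * pq (b + (2 * t : ℕ) + (2 * r : ℕ) + 1) m)⁻¹
      * (Q r t * (px s H (L t) m * conj (px s H (L r) m))).re)

theorem qG_cont (R : ℕ) (L : ℕ → List (ℂ × List ℕ)) {ρ : ℝ} {β H : ℂ → ℂ} {Φ : ℂ → ℂ → ℂ}
    (h : Dat ρ β H Φ) (b : ℝ) (Q : ℕ → ℕ → ℂ) :
    ContinuousOn (fun z => qG R L Q b (cc H z)) (closedBall 0 1) := by
  unfold qG
  refine continuousOn_const.mul (continuousOn_finsetSum _ fun r _ =>
    continuousOn_finsetSum _ fun t _ => ContinuousOn.div_const ?_ _)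
  exact cont_pair (cont_pv h _) (cont_pv h _) _

theorem cmG_hasSum {s : ℂ} {R : ℕ} {L l : ℕ → List (ℂ × List ℕ)} (hf : Fam s R L l)
    {ρ : ℝ} {β H : ℂ → ℂ} {Φ : ℂ → ℂ → ℂ} (h : Dat ρ β H Φ) {b : ℝ} (hb : 0 < b)
    (Q : ℕ → ℕ → ℂ) :
    HasSum (cmG R L Q s b H) (LS s H b (fun z => qG R L Q b (cc H z))) := by
  have hH := dat_cont h
  have e : LS s H b (fun z => qG R L Q b (cc H z))
      = ∑ r ∈ Finset.range R, ∑ t ∈ Finset.range R,
      b * (b + 1) * (b + 2) / poch b (2 * r + 2 * t)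
        * LS s H b (fun z => (Q r t * (pv (cc H z) (L t)
          * conj (pv (cc H z) (L r)))).re) := by
    have e1 : (fun z => qG R L Q b (cc H z)) = fun z => ∑ r ∈ Finset.range R,
        ∑ t ∈ Finset.range R, b * (b + 1) * (b + 2) / poch b (2 * r + 2 * t)
        * (Q r t * (pv (cc H z) (L t) * conj (pv (cc H z) (L r)))).re := by
      funext z
      unfold qG
      rw [Finset.mul_sum]
      apply Finset.sum_congr rfl
      intro r _
      rw [Finset.mul_sum]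
      apply Finset.sum_congr rfl
      intro t _
      ring
    rw [e1, LS_fsum hH hb]
    · apply Finset.sum_congr rfl
      intro r _
      rw [LS_fsum hH hb]
      · apply Finset.sum_congr rfl
        intro t _
        exact LS_smul _ _
      · intro t _
        exact (cont_pair (cont_pv h _) (cont_pv h _) _).const_mul _
    · intro r _
      apply continuousOn_finsetSum
      intro t _
      exact (cont_pair (cont_pv h _) (cont_pv h _) _).const_mul _
  rw [e]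
  apply hasSum_sum
  intro r hr
  apply hasSum_sum
  intro t ht
  rw [Finset.mem_range] at hr ht
  exact (pair_hasSum h hb s (L t) (L r) (hf.wtL t ht) (hf.wtL r hr) (Q r t)).mul_left _

theorem cmG_eq (R : ℕ) (L : ℕ → List (ℂ × List ℕ)) {b : ℝ} (hb : 0 < b) (Q : ℕ → ℕ → ℂ)
    (s : ℂ) (H : ℂ → ℂ) {m : ℕ} (hm : 1 ≤ m) :
    cmG R L Q s b H m = WtS b m * ∑ r ∈ Finset.range R, ∑ t ∈ Finset.range R,
      trS b m (2 * r + 2 * t) * (Q r t * (ug L s H m t * conj (ug L s H m r))).re := by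
  have hm0 : (0:ℝ) < m := by exact_mod_cast hm
  have hW := WtS_pos hb hm
  unfold cmG
  rw [Finset.mul_sum]
  apply Finset.sum_congr rfl
  intro r _
  rw [Finset.mul_sum]
  apply Finset.sum_congr rfl
  intro t _
  have e1 : (Q r t * (ug L s H m t * conj (ug L s H m r))).re
      = (Q r t * (px s H (L t) m * conj (px s H (L r) m))).re
        / (m : ℝ) ^ (2 * r + 2 * t) := by
    unfold ug
    rw [map_div₀, map_pow, Complex.conj_natCast, div_mul_div_comm, ← pow_add, mul_div_assoc']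
    have e2 : (m : ℂ) ^ (2 * t + 2 * r) = (((m : ℝ) ^ (2 * r + 2 * t) : ℝ) : ℂ) := by
      push_cast
      rw [Nat.add_comm]
    rw [e2, Complex.div_ofReal_re]
  rw [e1]
  unfold trS
  have hc : (b + ((2 * t : ℕ) : ℝ) + ((2 * r : ℕ) : ℝ)) = b + ((2 * r + 2 * t : ℕ) : ℝ) := by
    push_cast
    ring
  rw [hc]
  set w := 2 * r + 2 * t with hw
  have hp1 := poch_pos hb w
  have hp2 := pq_pos (show (0:ℝ) < b + w + 1 by positivity) m
  have hbw : (0:ℝ) < b + w := by positivity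
  field_simp

/-! ### the inequality for a large order -/

theorem per_order_g {s : ℂ} (hs1 : ‖s‖ < 1) {b : ℝ} (hb : 0 < b) {R : ℕ}
    {L l : ℕ → List (ℂ × List ℕ)} (hf : Fam s R L l) (Q : ℕ → ℕ → ℂ)
    (hQ : PF s b R (hF R Q)) {δ : ℝ} (hδ : 0 < δ) :
    ∃ m1 : ℕ, ∀ m : ℕ, m1 ≤ m → ∀ (J : ℕ) (ρ : ℝ) (β H : ℂ → ℂ) (Φ : ℂ → ℂ → ℂ),
      Dat ρ β H Φ → cmG R L Q s b H m
        ≤ KS s * (Pf s b (diagc (EE Φ s) m) m - Nf s b (diagc (EE Φ s) m) m J)
          + δ * (WtS b m * S2G (mons R L l) s H m) := by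
  have hK := KS_pos hs1
  have hC := CPG_pos R L l
  set C := CPG R L l with hCdef
  have hq := qn_nonneg R Q
  set n : ℝ := ((mons R L l).card : ℝ) + 1 with hn
  have hnp : 1 ≤ n := by
    have : (0 : ℝ) ≤ ((mons R L l).card : ℝ) := by positivity
    linarith only [this]
  obtain ⟨m0, hm0⟩ := hQ (δ / (12 * (R + 1) * C ^ 2 * n)) (by positivity)
  set e2 : ℝ := δ / (3 * n * C ^ 2 * (qn R Q + 1)) with he2
  have he2p : 0 < e2 := by positivity
  have hev : ∀ᶠ m : ℕ in atTop, ∀ w ∈ Finset.range (4 * R), |trS b m w - 1| ≤ e2 := by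
    rw [Finset.eventually_all]
    intro w _
    have h1 := trS_tendsto hb w
    have h2 := Metric.tendsto_atTop.mp h1 e2 he2p
    obtain ⟨n0, hn0⟩ := h2
    filter_upwards [eventually_ge_atTop n0] with m hm
    have h3 := hn0 m hm
    rw [Real.dist_eq] at h3
    exact h3.le
  have hev2 : ∀ᶠ m : ℕ in atTop, 1 ≤ m ∧ m0 ≤ m ∧ 9 * n * C ^ 2 * qn R Q / δ ≤ (m : ℝ) ∧
      ∀ w ∈ Finset.range (4 * R), |trS b m w - 1| ≤ e2 := by
    filter_upwards [eventually_ge_atTop 1, eventually_ge_atTop m0,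
      eventually_ge_atTop ⌈9 * n * C ^ 2 * qn R Q / δ⌉₊, hev] with m h1 h2 h3 h4
    exact ⟨h1, h2, (Nat.le_ceil _).trans (by exact_mod_cast h3), h4⟩
  obtain ⟨m1, hm1⟩ := eventually_atTop.mp hev2
  refine ⟨m1, fun m hm J ρ β H Φ h => ?_⟩
  obtain ⟨g1, g2, g3, g4⟩ := hm1 m hm
  have hmr : (0:ℝ) < m := by exact_mod_cast g1
  have hmr1 : (1:ℝ) ≤ m := by exact_mod_cast g1
  have hW := WtS_pos hb g1
  have hN := NG_nonneg (mons R L l) s H m
  have hN2 := NG_sq (mons R L l) s H m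
  rw [← hn] at hN2
  set N := NG (mons R L l) s H m with hNdef
  set S2 := S2G (mons R L l) s H m with hS2
  -- the exact form
  have hA : cmG R L Q s b H m
      ≤ WtS b m * (hF R Q (ug L s H m) + e2 * (qn R Q * (C * N) ^ 2)) := by
    rw [cmG_eq R L hb Q s H g1]
    apply mul_le_mul_of_nonneg_left _ hW.le
    apply hF_pert R Q (fun r t => trS b m (2 * r + 2 * t)) (ug L s H m) (by positivity) he2p.le
    · intro i hi
      exact norm_ug_le hf H g1 hi
    · intro r hr t ht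
      apply g4
      rw [Finset.mem_range]
      omega
  set v : ℕ → ℂ := vS (diagc (EE Φ s) m) m with hv
  have hve : ∀ i < R, ‖ug L s H m i - v i‖ ≤ C * N / m := by
    intro i hi
    rw [hv, vS_split hf h m hi]
    have e : ug L s H m i - (ug L s H m i + ug l s H m i) = -ug l s H m i := by ring
    rw [e, norm_neg]
    exact norm_eg_le hf H g1 hi
  have h2N : C * N / m ≤ C * N := div_le_self (by positivity) hmr1
  have hvn : ∀ i < R, ‖v i‖ ≤ 2 * (C * N) := by
    intro i hi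
    have e : v i = ug L s H m i - (ug L s H m i - v i) := by ring
    rw [e]
    refine (norm_sub_le _ _).trans ?_
    have a1 := norm_ug_le hf H g1 hi
    have a2 := hve i hi
    rw [← hNdef, ← hCdef] at a1
    linarith only [h2N, a1, a2]
  have hB : hF R Q (ug L s H m) ≤ hF R Q v + 3 * C ^ 2 * qn R Q * N ^ 2 / m := by
    have a1 := hF_diff R Q (ug L s H m) v (U := C * N) (V := 2 * (C * N)) (e := C * N / m)
      (by positivity) (fun i hi => norm_ug_le hf H g1 hi) hvn hve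
    have e3 : qn R Q * (C * N / m * (C * N + 2 * (C * N)))
        = 3 * C ^ 2 * qn R Q * N ^ 2 / m := by
      field_simp
      ring
    rw [e3] at a1
    linarith only [a1]
  have hD2 := hm0 m g1 g2 J (diagc (EE Φ s) m) (EE_symm h.logPhi s m)
  rw [← hv] at hD2
  have hWK : (m : ℝ) ^ 2 / (KS s * pq (b + 3) (m - 1)) = WtS b m / KS s := by
    unfold WtS
    rw [div_div, mul_comm (pq (b + 3) (m - 1))]
  rw [hWK] at hD2
  set E : ℝ := ∑ r ∈ Finset.range R, ‖v r‖ ^ 2 with hEdef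
  have hD3 : WtS b m * (hF R Q v - δ / (12 * (R + 1) * C ^ 2 * n) * E)
      ≤ KS s * (Pf s b (diagc (EE Φ s) m) m - Nf s b (diagc (EE Φ s) m) m J) := by
    have a2 := mul_le_mul_of_nonneg_left hD2 hK.le
    have e4 : KS s * (WtS b m / KS s
        * (hF R Q v - δ / (12 * (R + 1) * C ^ 2 * n) * E))
        = WtS b m * (hF R Q v - δ / (12 * (R + 1) * C ^ 2 * n) * E) := by
      rw [← mul_assoc, mul_div_cancel₀ _ hK.ne']
    rw [e4] at a2
    exact a2
  have hE : E ≤ R * (2 * (C * N)) ^ 2 := by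
    have a : ∀ r ∈ Finset.range R, ‖v r‖ ^ 2 ≤ (2 * (C * N)) ^ 2 := fun r hr =>
      pow_le_pow_left₀ (norm_nonneg _) (hvn r (Finset.mem_range.mp hr)) 2
    have a2 := Finset.sum_le_card_nsmul _ _ _ a
    rw [Finset.card_range, nsmul_eq_mul] at a2
    exact a2
  have hF1 : 3 * C ^ 2 * qn R Q * N ^ 2 / m ≤ δ / (3 * n) * N ^ 2 := by
    rw [div_le_iff₀ hmr]
    rw [div_le_iff₀ hδ] at g3
    have a := mul_le_mul_of_nonneg_right g3 (sq_nonneg N)
    have e : δ / (3 * n) * N ^ 2 * m = (m * δ) * N ^ 2 / (3 * n) := by ring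
    rw [e, le_div_iff₀ (by positivity)]
    linarith only [a]
  have hG : e2 * (qn R Q * (C * N) ^ 2) ≤ δ / (3 * n) * N ^ 2 := by
    have a : e2 * (qn R Q * C ^ 2) ≤ δ / (3 * n) := by
      have e : e2 * (qn R Q * C ^ 2) = δ / (3 * n) * (qn R Q / (qn R Q + 1)) := by
        rw [he2]
        field_simp
      rw [e]
      apply mul_le_of_le_one_right (by positivity)
      rw [div_le_one (by positivity)]
      linarith only []
    have a2 := mul_le_mul_of_nonneg_right a (sq_nonneg N)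
    calc e2 * (qn R Q * (C * N) ^ 2) = e2 * (qn R Q * C ^ 2) * N ^ 2 := by ring
      _ ≤ δ / (3 * n) * N ^ 2 := a2
  have hE2 : δ / (12 * (R + 1) * C ^ 2 * n) * E ≤ δ / (3 * n) * N ^ 2 := by
    have a1 := mul_le_mul_of_nonneg_left hE
      (show 0 ≤ δ / (12 * (R + 1) * C ^ 2 * n) by positivity)
    have e5 : δ / (12 * (R + 1) * C ^ 2 * n) * (R * (2 * (C * N)) ^ 2)
        = (δ / (3 * n) * N ^ 2) * (R / (R + 1)) := by
      field_simp
      ring
    rw [e5] at a1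
    refine a1.trans (mul_le_of_le_one_right (by positivity) ?_)
    rw [div_le_one (by positivity)]
    linarith only []
  -- conclusion
  have hI : hF R Q (ug L s H m) + e2 * (qn R Q * (C * N) ^ 2)
      ≤ (hF R Q v - δ / (12 * (R + 1) * C ^ 2 * n) * E) + δ * S2 := by
    have a2 : δ / n * N ^ 2 ≤ δ / n * (n * S2) :=
      mul_le_mul_of_nonneg_left hN2 (by positivity)
    have e6 : δ / n * (n * S2) = δ * S2 := by field_simp
    have e7 : δ / (3 * n) * N ^ 2 * 3 = δ / n * N ^ 2 := by field_simp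
    linarith only [hB, hF1, hG, hE2, a2, e6, e7]
  calc cmG R L Q s b H m
      ≤ WtS b m * (hF R Q (ug L s H m) + e2 * (qn R Q * (C * N) ^ 2)) := hA
    _ ≤ WtS b m * ((hF R Q v - δ / (12 * (R + 1) * C ^ 2 * n) * E) + δ * S2) :=
        mul_le_mul_of_nonneg_left hI hW.le
    _ = WtS b m * (hF R Q v - δ / (12 * (R + 1) * C ^ 2 * n) * E)
        + δ * (WtS b m * S2) := by ring
    _ ≤ _ := add_le_add hD3 (le_refl _)

/-! ### the finite part -/

theorem cmG_bound (R : ℕ) (L : ℕ → List (ℂ × List ℕ)) {b : ℝ} (Q : ℕ → ℕ → ℂ) {s : ℂ}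
    (hs : ‖s‖ ≤ 1) (m : ℕ) : ∃ C : ℝ, 0 ≤ C ∧
    ∀ (ρ : ℝ) (β H : ℂ → ℂ) (Φ : ℂ → ℂ → ℂ), Dat ρ β H Φ → cmG R L Q s b H m ≤ C := by
  have h := fun r : ℕ => px_bound s hs (L r) m
  choose B hB0 hB using h
  refine ⟨∑ r ∈ Finset.range R, ∑ t ∈ Finset.range R,
    |b * (b + 1) * (b + 2) / poch b (2 * r + 2 * t)
      * ((b + (2 * t : ℕ) + (2 * r : ℕ)) * pq (b + (2 * t : ℕ) + (2 * r : ℕ) + 1) m)⁻¹|
      * (‖Q r t‖ * (B t * B r)), ?_, fun ρ β H Φ hd => ?_⟩
  · exact Finset.sum_nonneg fun r _ => Finset.sum_nonneg fun t _ =>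
      mul_nonneg (abs_nonneg _) (mul_nonneg (norm_nonneg _) (mul_nonneg (hB0 t) (hB0 r)))
  · unfold cmG
    apply Finset.sum_le_sum
    intro r _
    apply Finset.sum_le_sum
    intro t _
    rw [← mul_assoc]
    refine (le_abs_self _).trans ?_
    rw [abs_mul]
    apply mul_le_mul_of_nonneg_left _ (abs_nonneg _)
    refine (Complex.abs_re_le_norm _).trans ?_
    rw [norm_mul, norm_mul, RCLike.norm_conj]
    exact mul_le_mul_of_nonneg_left
      (mul_le_mul (hB t ρ β H Φ hd) (hB r ρ β H Φ hd) (norm_nonneg _) (hB0 t)) (norm_nonneg _)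

theorem S2G_sum (M : Finset (List ℕ)) {b : ℝ} (hb : 0 < b) : ∃ C : ℝ, 0 ≤ C ∧
    ∀ (ρ : ℝ) (β H : ℂ → ℂ) (Φ : ℂ → ℂ → ℂ), Dat ρ β H Φ → ∀ (s : ℂ) (F : Finset ℕ),
      ∑ m ∈ F, WtS b m * S2G M s H m ≤ C * LS s H b (fun _ => 1) := by
  have h := fun A : List ℕ => norm_sum_s hb A
  choose C hC0 hC using h
  refine ⟨∑ A ∈ M, C A, Finset.sum_nonneg fun A _ => hC0 A, fun ρ β H Φ hd s F => ?_⟩
  have e : ∑ m ∈ F, WtS b m * S2G M s H m
      = ∑ A ∈ M, ∑ m ∈ F, WtS b m * ys s H A m ^ 2 := by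
    rw [Finset.sum_comm]
    apply Finset.sum_congr rfl
    intro m _
    unfold S2G
    rw [Finset.mul_sum]
  rw [e, Finset.sum_mul]
  apply Finset.sum_le_sum
  intro A _
  exact hC A ρ β H Φ hd s F

theorem area_form_gen {s : ℂ} (hs1 : ‖s‖ < 1) {b : ℝ} (hb : 0 < b)
    (hσ : 0 < b + 1 - 2 * s.re) {R : ℕ} {L l : ℕ → List (ℂ × List ℕ)} (hf : Fam s R L l)
    (Q : ℕ → ℕ → ℂ) (hQ : PF s b R (hF R Q)) {δ : ℝ} (hδ : 0 < δ) :
    ∃ C : ℝ, ∀ (ρ : ℝ) (β H : ℂ → ℂ) (Φ : ℂ → ℂ → ℂ), Dat ρ β H Φ →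
      LS s H b (fun z => qG R L Q b (cc H z)) ≤ δ * LS s H b (fun _ => 1) + C := by
  have hK := KS_pos hs1
  obtain ⟨C4, hC40, hC4⟩ := S2G_sum (mons R L l) hb
  set δ' : ℝ := δ / (C4 + 1) with hδ'
  have hδp : 0 < δ' := by positivity
  obtain ⟨m1, hm1⟩ := per_order_g hs1 hb hf Q hQ hδp
  have hfin := fun m : ℕ => cmG_bound R L (b := b) Q hs1.le m
  choose B hB0 hB using hfin
  have hNf := fun m : ℕ => Nf_small_fixed hs1 hb hσ m
  choose B' hB'0 hB' using hNf
  refine ⟨∑ m ∈ Finset.range m1, B m + KS s * ∑ m ∈ Finset.range m1, B' m,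
    fun ρ β H Φ h => ?_⟩
  have hsum := (cmG_hasSum hf h hb Q).tendsto_sum_nat
  apply le_of_tendsto hsum
  filter_upwards [eventually_ge_atTop m1] with M hM
  have hLS : 0 ≤ LS s H b (fun _ => 1) :=
    LS_nonneg (dat_cont h) hb continuousOn_const (fun z _ => zero_le_one)
  have hPf0 : ∀ m, 0 ≤ Pf s b (diagc (EE Φ s) m) m := fun m => Pf_nonneg hσ _ m
  rw [← Finset.sum_range_add_sum_Ico _ hM]
  have a1 : ∑ m ∈ Finset.range m1, cmG R L Q s b H m ≤ ∑ m ∈ Finset.range m1, B m :=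
    Finset.sum_le_sum fun m _ => hB m ρ β H Φ h
  have a2 : ∑ m ∈ Finset.Ico m1 M, cmG R L Q s b H m
      ≤ ∑ m ∈ Finset.Ico m1 M, (KS s * (Pf s b (diagc (EE Φ s) m) m
        - Nf s b (diagc (EE Φ s) m) m (M - (m + 1)))
        + δ' * (WtS b m * S2G (mons R L l) s H m)) :=
    Finset.sum_le_sum fun m hm => hm1 m (Finset.mem_Ico.mp hm).1 (M - (m + 1)) ρ β H Φ h
  rw [Finset.sum_add_distrib, ← Finset.mul_sum, ← Finset.mul_sum, Finset.sum_sub_distrib] at a2
  have a3 := area_sum_s h.ext h.logPhi hσ M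
  rw [← Finset.sum_range_add_sum_Ico (fun m => Pf s b (diagc (EE Φ s) m) m) hM,
    ← Finset.sum_range_add_sum_Ico
      (fun m => Nf s b (diagc (EE Φ s) m) m (M - (m + 1))) hM] at a3
  have a4 : 0 ≤ ∑ m ∈ Finset.range m1, Pf s b (diagc (EE Φ s) m) m :=
    Finset.sum_nonneg fun m _ => hPf0 m
  have a5 : ∑ m ∈ Finset.range m1, Nf s b (diagc (EE Φ s) m) m (M - (m + 1))
      ≤ ∑ m ∈ Finset.range m1, B' m :=
    Finset.sum_le_sum fun m _ => hB' m ρ β H Φ h (M - (m + 1))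
  have a6 : ∑ m ∈ Finset.Ico m1 M, Pf s b (diagc (EE Φ s) m) m
      - ∑ m ∈ Finset.Ico m1 M, Nf s b (diagc (EE Φ s) m) m (M - (m + 1))
      ≤ ∑ m ∈ Finset.range m1, B' m := by linarith only [a3, a4, a5]
  have a7 := mul_le_mul_of_nonneg_left a6 hK.le
  have a8 := hC4 ρ β H Φ h s (Finset.Ico m1 M)
  have a9 : δ' * ∑ m ∈ Finset.Ico m1 M, WtS b m * S2G (mons R L l) s H m
      ≤ δ * LS s H b (fun _ => 1) := by
    calc δ' * ∑ m ∈ Finset.Ico m1 M, WtS b m * S2G (mons R L l) s H m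
        ≤ δ' * (C4 * LS s H b (fun _ => 1)) := mul_le_mul_of_nonneg_left a8 hδp.le
      _ = (δ * (C4 / (C4 + 1))) * LS s H b (fun _ => 1) := by rw [hδ']; ring
      _ ≤ (δ * 1) * LS s H b (fun _ => 1) := by
          apply mul_le_mul_of_nonneg_right _ hLS
          apply mul_le_mul_of_nonneg_left _ hδ.le
          rw [div_le_one (by linarith only [hC40])]
          linarith only []
      _ = δ * LS s H b (fun _ => 1) := by ring
  linarith

open CoreS in
/-- the bound, for any family -/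
theorem core_gen {s : ℂ} (hs1 : ‖s‖ < 1) {b : ℝ} (hb : 0 < b)
    (hσ : 0 < b + 1 - 2 * s.re) (hg : 2 * ‖s‖ < b + 1) {R : ℕ} {L l : ℕ → List (ℂ × List ℕ)}
    (hf : Fam s R L l) (Q : ℕ → ℕ → ℂ) (hQ : PF s b R (hF R Q))
    (rels : List (ℂ × List ℕ × List ℕ)) {η : ℝ} (hη : 0 < η)
    (hc : ∀ c : ℕ → ℂ, η ≤ qG R L Q b c
      + (rels.map (fun x => (x.1 * relS s b c x.2.1 x.2.2).re)).sum) :
    ∃ C : ℝ, ∀ (ρ : ℝ) (β H : ℂ → ℂ) (Φ : ℂ → ℂ → ℂ), Dat ρ β H Φ →
      LS s H b (fun _ => 1) ≤ C := by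
  obtain ⟨CA, hCA⟩ := area_form_gen hs1 hb hσ hf Q hQ (δ := η / 2) (by positivity)
  obtain ⟨K, hK⟩ := rel_sum s hb hg rels
  refine ⟨(CA + K) * (2 / η), ?_⟩
  intro ρ β H Φ h
  have hHc : ContinuousOn H (closedBall 0 1) := dat_cont h
  have hA := hCA ρ β H Φ h
  obtain ⟨hR, hRc⟩ := hK ρ β H Φ h
  have hq := qG_cont R L h b Q
  have h2 : LS s H b (fun _ => η * 1) ≤ LS s H b (fun z => qG R L Q b (cc H z)
      + (rels.map (fun x => (x.1 * relS s b (cc H z) x.2.1 x.2.2).re)).sum) := by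
    apply LS_mono hHc hb continuousOn_const (hq.add hRc)
    intro z _
    have h4 := hc (cc H z)
    beta_reduce
    rw [mul_one]
    exact h4
  rw [LS_smul, LS_add hHc hb hq hRc] at h2
  obtain ⟨I, hI⟩ : ∃ I, I = LS s H b (fun _ => 1) := ⟨_, rfl⟩
  rw [← hI] at h2 hA ⊢
  have h3 : η / 2 * I ≤ CA + K := by linarith only [hR, hA, h2]
  have e : I = (η / 2 * I) * (2 / η) := by field_simp
  rw [e]
  exact mul_le_mul_of_nonneg_right h3 (by positivity)

/-! ### three moments -/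

theorem fam3 (s : ℂ) : Fam s 3 (LP s) (lP s) where
  wtL := fun _ hr => LP_wt s hr
  wtl := fun _ hr => lP_wt s hr
  split := by
    intro ρ β H Φ h m r hr
    have hH : DifferentiableOn ℂ H (ball 0 1) := (dat_hyp h).1
    rw [← px_append, ← coeff_pv s hH]
    interval_cases r
    · have e1 := EE_diag h.logPhi s m
      simp only [mul_zero, pow_zero, mul_one]
      rw [e1]
      congr 1
      funext z
      simp [pv, LP, lP, ev]
    · have e1 := jetS2 h.toData s m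
      rw [mul_one, e1]
      congr 1
      funext z
      rw [pv_append, ← XS_eq s _ (by norm_num), ← low2S_eq]
    · have e1 := jetS4 h.toData s m
      rw [show 2 * 2 = 4 by norm_num, e1]
      congr 1
      funext z
      rw [pv_append, ← XS_eq s _ (by norm_num), ← low4S_eq]

end CG

end Pool.Agent.M16.Helper24.HR2
end

/- Helper94.T.Helper24.HR2.Defs4 -/
section
/-!
MP_16b0ee, project HR2: the area form with four moments (orders 0, 2, 4, 6).
-/

set_option autoImplicit false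

open MeasureTheory Set Metric Filter Topology
open scoped Real ComplexConjugate

namespace Pool.Agent.M16.Helper24.HR2

/-- leading parts (weight `2 r`) of the even moments of order at most 6 -/
noncomputable def XT (s : ℂ) (c : ℕ → ℂ) (r : ℕ) : ℂ := if r = 3 then XS6 s c else XS s c r

/-- the area form with four moments (fixed exponent) -/
noncomputable def qT (Q : ℕ → ℕ → ℂ) (s : ℂ) (b : ℝ) (c : ℕ → ℂ) : ℝ :=
  b * (b + 1) * (b + 2) * ∑ r ∈ Finset.range 4, ∑ t ∈ Finset.range 4,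
    (Q r t * (XT s c t * conj (XT s c r))).re / poch b (2 * r + 2 * t)

end Pool.Agent.M16.Helper24.HR2
end

/- Helper94.T.Helper24.HR2.CoreT -/
section
/-!
MP_16b0ee, project HR2, section U1: the case of four moments (with the sixth central moment).
-/

set_option autoImplicit false

open MeasureTheory Set Metric Filter Topology
open scoped Real ComplexConjugate

namespace Pool.Agent.M16.Helper24.HR2

open Pool.Agent.M16.Helper22.Half
open Pool.Agent.M16.Helper22.Marshall (coeff SepHol LogPhi dcoeff GLe)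
open Pool.Agent.M16.Helper39.Area (Ext phi)
open Pool.Agent.M16.Helper39.MH

namespace CG

open FS

/-- the leading part of the sixth moment -/
noncomputable def L6 (s : ℂ) : List (ℂ × List ℕ) :=
  [(-(45 / 4) * s, [5]), (45 / 2 * s, [0, 4]), (45 / 4 * s + 45 / 4 * s ^ 2, [1, 3]),
    (-(45 / 2) * s - 45 / 4 * s ^ 2, [0, 0, 3]), (45 / 4 * s, [2, 2]),
    (-45 * s - 45 / 2 * s ^ 2, [0, 1, 2]), (45 / 2 * s + 45 / 2 * s ^ 2, [0, 0, 0, 2]),
    (-(15 / 4) * s - 45 / 8 * s ^ 2 - 15 / 8 * s ^ 3, [1, 1, 1]),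
    (135 / 4 * s + 225 / 8 * s ^ 2 + 45 / 8 * s ^ 3, [0, 0, 1, 1]),
    (-(45 / 2) * s - 225 / 8 * s ^ 2 - 45 / 8 * s ^ 3, [0, 0, 0, 0, 1]),
    (15 / 4 * s + 45 / 8 * s ^ 2 + 15 / 8 * s ^ 3, [0, 0, 0, 0, 0, 0])]

/-- the lower order part of the sixth moment -/
noncomputable def l6 (s : ℂ) : List (ℂ × List ℕ) :=
  [(135 / 14 * s, [4]), (-(165 / 14) * s - 15 / 2 * s ^ 2, [0, 3]),
    (-(72 / 7) * s - 9 * s ^ 2, [1, 2]), (69 / 14 * s + 24 * s ^ 2, [0, 0, 2]),
    (153 / 14 * s + 57 / 4 * s ^ 2 + 15 / 4 * s ^ 3, [0, 1, 1]),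
    (-(57 / 14) * s - 27 * s ^ 2 - 15 / 2 * s ^ 3, [0, 0, 0, 1]),
    (9 / 14 * s + 21 / 4 * s ^ 2 + 15 / 4 * s ^ 3, [0, 0, 0, 0, 0]),
    (-(15 / 7) * s, [3]), (-(12 / 7) * s + 6 * s ^ 2, [0, 2]),
    (9 / 14 * s + 3 / 2 * s ^ 2, [1, 1]),
    (25 / 7 * s - 15 / 2 * s ^ 2 - 5 / 2 * s ^ 3, [0, 0, 1]),
    (-(5 / 14) * s + 5 / 2 * s ^ 3, [0, 0, 0, 0]), (-(3 / 7) * s, [2]),
    (19 / 14 * s - 1 / 2 * s ^ 2, [0, 1]),
    (23 / 126 * s - 7 / 6 * s ^ 2 + 5 / 9 * s ^ 3, [0, 0, 0]), (1 / 7 * s, [1]),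
    (4 / 21 * s - 1 / 3 * s ^ 2, [0, 0]), (1 / 21 * s, [0])]

/-- the leading parts of the first four even moments -/
noncomputable def L4 (s : ℂ) : ℕ → List (ℂ × List ℕ)
  | 0 => LP s 0
  | 1 => LP s 1
  | 2 => LP s 2
  | 3 => L6 s
  | _ => []

/-- the lower order parts of the first four even moments -/
noncomputable def l4 (s : ℂ) : ℕ → List (ℂ × List ℕ)
  | 0 => lP s 0
  | 1 => lP s 1
  | 2 => lP s 2
  | 3 => l6 s
  | _ => []

theorem XS6_eq (s : ℂ) (c : ℕ → ℂ) : XS6 s c = pv c (L6 s) := by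
  simp only [XS6, pv, L6, ev, List.map_cons, List.map_nil, List.sum_cons, List.sum_nil,
    List.prod_cons, List.prod_nil]
  ring

theorem low6S_eq (s : ℂ) (c : ℕ → ℂ) : low6S s c = pv c (l6 s) := by
  simp only [low6S, pv, l6, ev, List.map_cons, List.map_nil, List.sum_cons, List.sum_nil,
    List.prod_cons, List.prod_nil]
  ring

theorem XT_eq (s : ℂ) (c : ℕ → ℂ) {r : ℕ} (hr : r < 4) : XT s c r = pv c (L4 s r) := by
  interval_cases r
  · exact XS_eq s c (r := 0) (by norm_num)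
  · exact XS_eq s c (r := 1) (by norm_num)
  · exact XS_eq s c (r := 2) (by norm_num)
  · exact XS6_eq s c

theorem qT_eq (Q : ℕ → ℕ → ℂ) (s : ℂ) (b : ℝ) (c : ℕ → ℂ) : qT Q s b c = qG 4 (L4 s) Q b c := by
  unfold qT qG
  congr 1
  apply Finset.sum_congr rfl
  intro r hr
  apply Finset.sum_congr rfl
  intro t ht
  rw [Finset.mem_range] at hr ht
  rw [XT_eq s _ ht, XT_eq s _ hr]

theorem L6_wt (s : ℂ) : ∀ x ∈ L6 s, wt x.2 = 6 := by
  simp [L6, wt]

theorem l6_wt (s : ℂ) : ∀ x ∈ l6 s, wt x.2 + 1 ≤ 6 := by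
  simp [l6, wt]

theorem fam4 (s : ℂ) : Fam s 4 (L4 s) (l4 s) where
  wtL := by
    intro r hr
    interval_cases r
    · exact (fam3 s).wtL 0 (by norm_num)
    · exact (fam3 s).wtL 1 (by norm_num)
    · exact (fam3 s).wtL 2 (by norm_num)
    · exact L6_wt s
  wtl := by
    intro r hr
    interval_cases r
    · exact (fam3 s).wtl 0 (by norm_num)
    · exact (fam3 s).wtl 1 (by norm_num)
    · exact (fam3 s).wtl 2 (by norm_num)
    · exact l6_wt s
  split := by
    intro ρ β H Φ h m r hr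
    interval_cases r
    · exact (fam3 s).split ρ β H Φ h m 0 (by norm_num)
    · exact (fam3 s).split ρ β H Φ h m 1 (by norm_num)
    · exact (fam3 s).split ρ β H Φ h m 2 (by norm_num)
    · have hH : DifferentiableOn ℂ H (ball 0 1) := (dat_hyp h).1
      have e1 := jetS6 h.toData s m
      rw [← px_append, ← coeff_pv s hH, show 2 * 3 = 6 by norm_num, e1]
      congr 1
      funext z
      rw [pv_append, XS6_eq, low6S_eq]
      rfl

end CG

/-- elimination of the last moment, any form -/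
theorem PF_extK {s : ℂ} (hs : ‖s‖ < 1) {b : ℝ} (hb : 0 < b) {K : ℕ} {q q' : (ℕ → ℂ) → ℝ}
    (h : PF s b (K + 1) q) {δ' : ℝ} (hδ' : 0 < δ')
    (hQ : ∀ g : ℕ → ℂ, q' g + δ' * ‖g K‖ ^ 2 ≤ q g) : PF s b K q' := by
  intro δ hδ
  obtain ⟨m0, hm0⟩ := h (min δ δ') (lt_min hδ hδ')
  refine ⟨m0, fun m h1 h2 J d hd =>
    (mul_le_mul_of_nonneg_left ?_ (CG.pref_nonneg hs hb m)).trans (hm0 m h1 h2 J d hd)⟩
  rw [Finset.sum_range_succ, mul_add]
  have a := hQ (vS d m)
  have b1 : min δ δ' * ∑ r ∈ Finset.range K, ‖vS d m r‖ ^ 2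
      ≤ δ * ∑ r ∈ Finset.range K, ‖vS d m r‖ ^ 2 :=
    mul_le_mul_of_nonneg_right (min_le_left _ _) (Finset.sum_nonneg fun _ _ => by positivity)
  have b2 : min δ δ' * ‖vS d m K‖ ^ 2 ≤ δ' * ‖vS d m K‖ ^ 2 :=
    mul_le_mul_of_nonneg_right (min_le_right _ _) (by positivity)
  linarith only [a, b1, b2]

/-- the bound from four moments, any exponent in the unit disc -/
theorem core_t' {s : ℂ} (hs : ‖s‖ < 1) {b : ℝ} (hb : 0 < b)
    (hσ : 0 < b + 1 - 2 * s.re) (hg : 2 * ‖s‖ < b + 1)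
    (Q : ℕ → ℕ → ℂ) (hQ : PF s b 4 (hF 4 Q))
    (rels : List (ℂ × List ℕ × List ℕ)) {η : ℝ} (hη : 0 < η)
    (hc : ∀ c : ℕ → ℂ, η ≤ qT Q s b c
      + (rels.map (fun x => (x.1 * relS s b c x.2.1 x.2.2).re)).sum) :
    ∃ C : ℝ, ∀ (ρ : ℝ) (β H : ℂ → ℂ) (Φ : ℂ → ℂ → ℂ), Dat ρ β H Φ →
      LS s H b (fun _ => 1) ≤ C :=
  CG.core_gen hs hb hσ hg (CG.fam4 s) Q hQ rels hη
    (fun c => by rw [← CG.qT_eq]; exact hc c)

theorem core_t {s : ℂ} (_hs0 : s ≠ 0) (hs : ‖s‖ ≤ 7 / 10) {b : ℝ} (hb : 0 < b)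
    (_hb1 : b ≤ 1) (hσ : 0 < b + 1 - 2 * s.re) (hg : 2 * ‖s‖ < b + 1)
    (Q : ℕ → ℕ → ℂ) (hQ : PF s b 4 (hF 4 Q))
    (rels : List (ℂ × List ℕ × List ℕ)) {η : ℝ} (hη : 0 < η)
    (hc : ∀ c : ℕ → ℂ, η ≤ qT Q s b c
      + (rels.map (fun x => (x.1 * relS s b c x.2.1 x.2.2).re)).sum) :
    ∃ C : ℝ, ∀ (ρ : ℝ) (β H : ℂ → ℂ) (Φ : ℂ → ℂ → ℂ), Dat ρ β H Φ →
      LS s H b (fun _ => 1) ≤ C :=
  core_t' (by linarith only [hs]) hb hσ hg Q hQ rels hη hc

end Pool.Agent.M16.Helper24.HR2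
end

/- Helper94.T.Helper24.HR2.SmallGam -/
section
/-!
MP_16b0ee, project HR2: the region of small exponents, part 1. The quadratic part of the test form
in the basis of Legendre polynomials: explicit first order approximation.
-/

set_option autoImplicit false

open scoped ComplexConjugate

namespace Pool.Agent.M16.Helper24.HR2

namespace SmallCert

/-- a polynomial in two variables, given by a list of coefficients and exponents -/
noncomputable def pe (l : List (ℚ × ℕ × ℕ)) (x y : ℝ) : ℝ :=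
  (l.map (fun t => (t.1 : ℝ) * x ^ t.2.1 * y ^ t.2.2)).sum

/-- the bound of a polynomial -/
def pb (l : List (ℚ × ℕ × ℕ)) (X Y : ℚ) : ℚ :=
  (l.map (fun t => |t.1| * X ^ t.2.1 * Y ^ t.2.2)).sum

theorem pe_le (l : List (ℚ × ℕ × ℕ)) {x y : ℝ} {X Y : ℚ} (hx : |x| ≤ X) (hy : |y| ≤ Y) :
    |pe l x y| ≤ (pb l X Y : ℝ) := by
  induction l with
  | nil => simp [pe, pb]
  | cons t l ih =>
    have h1 : pe (t :: l) x y = (t.1 : ℝ) * x ^ t.2.1 * y ^ t.2.2 + pe l x y := by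
      simp [pe]
    have h2 : pb (t :: l) X Y = |t.1| * X ^ t.2.1 * Y ^ t.2.2 + pb l X Y := by
      simp [pb]
    rw [h1, h2]
    refine (abs_add_le _ _).trans ?_
    push_cast
    refine add_le_add ?_ ih
    rw [abs_mul, abs_mul, abs_pow, abs_pow]
    have hX : (0 : ℝ) ≤ X := (abs_nonneg x).trans hx
    have hY : (0 : ℝ) ≤ Y := (abs_nonneg y).trans hy
    gcongr

theorem gmf (s : ℂ) {b : ℝ} (hb : 0 ≤ b) (n : ℕ) :
    Gm s b (n + 1) * (b + 3 + n) = Gm s b n * (2 * s.re + 2 + n) := by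
  unfold Gm
  rw [Finset.prod_range_succ]
  have : (b + 3 + n : ℝ) ≠ 0 := by positivity
  field_simp

theorem gm1 (s : ℂ) {b : ℝ} (hb : 0 ≤ b) : Gm s b 1 * (b + 3) = 2 * s.re + 2 := by
  have h := gmf s hb 0
  have h0 : Gm s b 0 = 1 := by simp [Gm]
  rw [h0] at h
  push_cast at h
  linarith only [h]

theorem gm2 (s : ℂ) {b : ℝ} (hb : 0 ≤ b) :
    Gm s b 2 * ((b + 3) * (b + 4)) = (2 * s.re + 2) * (2 * s.re + 3) := by
  have h := gmf s hb 1
  have h1 := gm1 s hb
  push_cast at h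
  linear_combination ((b + 3)) * h + (2 * s.re + 3) * h1

theorem gm3 (s : ℂ) {b : ℝ} (hb : 0 ≤ b) :
    Gm s b 3 * ((b + 3) * (b + 4) * (b + 5)) = (2 * s.re + 2) * (2 * s.re + 3) * (2 * s.re + 4) := by
  have h := gmf s hb 2
  have h1 := gm2 s hb
  push_cast at h
  linear_combination ((b + 3) * (b + 4)) * h + (2 * s.re + 4) * h1

theorem gm4 (s : ℂ) {b : ℝ} (hb : 0 ≤ b) :
    Gm s b 4 * ((b + 3) * (b + 4) * (b + 5) * (b + 6)) = (2 * s.re + 2) * (2 * s.re + 3) * (2 * s.re + 4) * (2 * s.re + 5) := by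
  have h := gmf s hb 3
  have h1 := gm3 s hb
  push_cast at h
  linear_combination ((b + 3) * (b + 4) * (b + 5)) * h + (2 * s.re + 5) * h1

theorem gm5 (s : ℂ) {b : ℝ} (hb : 0 ≤ b) :
    Gm s b 5 * ((b + 3) * (b + 4) * (b + 5) * (b + 6) * (b + 7)) = (2 * s.re + 2) * (2 * s.re + 3) * (2 * s.re + 4) * (2 * s.re + 5) * (2 * s.re + 6) := by
  have h := gmf s hb 4
  have h1 := gm4 s hb
  push_cast at h
  linear_combination ((b + 3) * (b + 4) * (b + 5) * (b + 6)) * h + (2 * s.re + 6) * h1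

theorem gm6 (s : ℂ) {b : ℝ} (hb : 0 ≤ b) :
    Gm s b 6 * ((b + 3) * (b + 4) * (b + 5) * (b + 6) * (b + 7) * (b + 8)) = (2 * s.re + 2) * (2 * s.re + 3) * (2 * s.re + 4) * (2 * s.re + 5) * (2 * s.re + 6) * (2 * s.re + 7) := by
  have h := gmf s hb 5
  have h1 := gm5 s hb
  push_cast at h
  linear_combination ((b + 3) * (b + 4) * (b + 5) * (b + 6) * (b + 7)) * h + (2 * s.re + 7) * h1

theorem gm7 (s : ℂ) {b : ℝ} (hb : 0 ≤ b) :
    Gm s b 7 * ((b + 3) * (b + 4) * (b + 5) * (b + 6) * (b + 7) * (b + 8) * (b + 9)) = (2 * s.re + 2) * (2 * s.re + 3) * (2 * s.re + 4) * (2 * s.re + 5) * (2 * s.re + 6) * (2 * s.re + 7) * (2 * s.re + 8) := by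
  have h := gmf s hb 6
  have h1 := gm6 s hb
  push_cast at h
  linear_combination ((b + 3) * (b + 4) * (b + 5) * (b + 6) * (b + 7) * (b + 8)) * h + (2 * s.re + 8) * h1

theorem gm8 (s : ℂ) {b : ℝ} (hb : 0 ≤ b) :
    Gm s b 8 * ((b + 3) * (b + 4) * (b + 5) * (b + 6) * (b + 7) * (b + 8) * (b + 9) * (b + 10)) = (2 * s.re + 2) * (2 * s.re + 3) * (2 * s.re + 4) * (2 * s.re + 5) * (2 * s.re + 6) * (2 * s.re + 7) * (2 * s.re + 8) * (2 * s.re + 9) := by
  have h := gmf s hb 7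
  have h1 := gm7 s hb
  push_cast at h
  linear_combination ((b + 3) * (b + 4) * (b + 5) * (b + 6) * (b + 7) * (b + 8) * (b + 9)) * h + (2 * s.re + 9) * h1

/-- the remainder -/
def lG10 : List (ℚ × ℕ × ℕ) :=
  [(-25/4, 0, 1), (5/4, 0, 2), (-95/4, 1, 1), (-5/4, 1, 2), (30, 2, 0)]

/-- the remainder -/
def lG20 : List (ℚ × ℕ × ℕ) :=
  [(-171/2, 0, 1), (531/4, 0, 2), (-99/2, 0, 3), (9/4, 0, 4), (-936, 1, 1), (1231/2, 1, 2), (-99, 1, 3), (-1/2, 1, 4), (990, 2, 0), (-2430, 2, 1), (810, 2, 2), (2520, 3, 0), (-2520, 3, 1), (2520, 4, 0)]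

/-- the remainder -/
def lG11 : List (ℚ × ℕ × ℕ) :=
  [(-390, 0, 1), (145, 0, 2), (-60, 0, 3), (5, 0, 4), (-2355, 1, 1), (905/2, 1, 2), (-195, 1, 3), (-5/2, 1, 4), (2700, 2, 0), (-3000, 2, 1), (1200, 2, 2), (3600, 3, 0), (-3600, 3, 1), (3600, 4, 0)]

/-- the remainder -/
def lG21 : List (ℚ × ℕ × ℕ) :=
  [(-38250, 0, 1), (13725/2, 0, 2), (-37305/4, 0, 3), (8145/4, 0, 4), (-855/4, 0, 5), (45/4, 0, 6), (-242505, 1, 1), (125705/4, 1, 2), (-460725/8, 1, 3), (38425/8, 1, 4), (-5835/8, 1, 5), (-35/8, 1, 6), (277200, 2, 0), (-337230, 2, 1), (268470, 2, 2), (-71280, 2, 3), (9720, 2, 4), (441000, 3, 0), (-684000, 3, 1), (315000, 3, 2), (-72000, 3, 3), (630000, 4, 0), (-621000, 4, 1), (261000, 4, 2), (453600, 5, 0), (-453600, 5, 1), (302400, 6, 0)]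

/-- the remainder -/
def lG22 : List (ℚ × ℕ × ℕ) :=
  [(-3593160, 0, 1), (905904, 0, 2), (-1519326, 0, 3), (403992, 0, 4), (-96750, 0, 5), (12006, 0, 6), (-684, 0, 7), (18, 0, 8), (-26963280, 1, 1), (6460074, 1, 2), (-10763136, 1, 3), (3615939/2, 1, 4), (-510210, 1, 5), (32841, 1, 6), (-1854, 1, 7), (-9/2, 1, 8), (30164400, 2, 0), (-51444720, 2, 1), (49455360, 2, 2), (-21298140, 2, 3), (5681340, 2, 4), (-714420, 2, 5), (46980, 2, 6), (64411200, 3, 0), (-123100560, 3, 1), (88056720, 3, 2), (-34985520, 3, 3), (6246720, 3, 4), (-628560, 3, 5), (111358800, 4, 0), (-168233760, 4, 1), (111468960, 4, 2), (-28978560, 4, 3), (4484160, 4, 4), (121564800, 5, 0), (-176904000, 5, 1), (73483200, 5, 2), (-18144000, 5, 3), (110678400, 6, 0), (-96163200, 6, 1), (41731200, 6, 2), (50803200, 7, 0), (-50803200, 7, 1), (25401600, 8, 0)]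

end SmallCert

end Pool.Agent.M16.Helper24.HR2
end
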