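import Mathlib
import Pool.Agent.Helper60.M16.G18
import Pool.Agent.Helper60.M16.G22

/- Helper94.T.Helper53.HR2.MMX -/
section
/-!
MP_16b0ee, project HR2, stage 3: the enclosure of `MM s b 0 0` at a point given by the record `AP`
(or `AP2`), and the hypotheses of the core theorem with all numerical inputs checked by the kernel.
-/

set_option autoImplicit false

namespace Pool.Agent.M16.Helper65.HR2

open Pool.Agent.M16.Helper24.HR2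
open Pool.Agent.M16.Helper53.HR2 (mmC mmC_sound esQ2 esQ2_sound)

namespace AP

/-- the enclosure of the Gram constant, at the point -/
def mm (P : AP) (S J : ℕ) (f1 f2 g1 g2 f1' f2' g1' g2' Mlo Mhi : ℚ) : Bool :=
  decide (0 ≤ P.s1 + P.sd) &&
    mmC (P.bd * P.sd) (P.bn * P.sd) (2 * (P.s1 + P.sd).toNat * P.bd) S J
      f1 f2 g1 g2 f1' f2' g1' g2' Mlo Mhi

theorem mm_sound (P : AP) (h1 : P.c1 = true) {S J : ℕ} {f1 f2 g1 g2 f1' f2' g1' g2' Mlo Mhi : ℚ}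
    (h : P.mm S J f1 f2 g1 g2 f1' f2' g1' g2' Mlo Mhi = true) :
    (Mlo : ℝ) ≤ MM P.sC P.bR 0 0 ∧ MM P.sC P.bR 0 0 ≤ (Mhi : ℝ) := by
  simp only [mm, Bool.and_eq_true, decide_eq_true_eq] at h
  obtain ⟨hs0, h⟩ := h
  simp only [c1, Bool.and_eq_true, decide_eq_true_eq] at h1
  obtain ⟨⟨⟨⟨⟨⟨⟨⟨⟨⟨⟨⟨⟨⟨hsd, hbd⟩, -⟩, -⟩, hq1⟩, -⟩, -⟩, hσ⟩, -⟩, -⟩, -⟩, -⟩, -⟩, -⟩, -⟩ := h1
  have hsdR : (0 : ℝ) < P.sd := by exact_mod_cast hsd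
  have hbdR : (0 : ℝ) < P.bd := by exact_mod_cast hbd
  have hre : P.sC.re = ((P.s.re : ℚ) : ℝ) := rfl
  have hre2 : P.sC.re = (P.s1 : ℝ) / P.sd := by
    rw [hre]
    simp only [s, Rat.mkRat_eq_div]
    push_cast
    rfl
  have hnq : ((P.s.nsq : ℚ) : ℝ) = ‖P.sC‖ ^ 2 := GQ.nsq_eq P.s
  have hn : ‖P.sC‖ ^ 2 ≤ 49 / 100 := by
    rw [← hnq]
    have := (Rat.cast_le (K := ℝ)).2 hq1
    push_cast at this
    exact this
  have hs : -1 < P.sC.re := by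
    have a := Complex.abs_re_le_norm P.sC
    have b1 := neg_abs_le P.sC.re
    have c := norm_nonneg P.sC
    nlinarith only [hn, a, b1]
  have hb : P.bR = ((P.bn * P.sd : ℕ) : ℝ) / ((P.bd * P.sd : ℕ) : ℝ) := by
    rw [bR, b, Rat.mkRat_eq_div]
    push_cast
    field_simp
  have hr : 2 * P.sC.re + 2
      = ((2 * (P.s1 + P.sd).toNat * P.bd : ℕ) : ℝ) / ((P.bd * P.sd : ℕ) : ℝ) := by
    have e : (((P.s1 + P.sd).toNat : ℕ) : ℝ) = P.s1 + P.sd := by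
      have : (((P.s1 + P.sd).toNat : ℕ) : ℤ) = P.s1 + P.sd := Int.toNat_of_nonneg hs0
      exact_mod_cast this
    rw [hre2]
    push_cast
    rw [e]
    field_simp
  have hσ' : (0 : ℝ) < P.bR + 1 - 2 * P.sC.re := by
    rw [hre, bR]
    exact_mod_cast hσ
  exact mmC_sound hs hb hr hσ' h

end AP

namespace AP2

/-- the enclosure of the main constant -/
def c5 (X : AP2) (n : ℕ) (bu gu bl gl : ℚ) : Bool :=
  esQ2 X.P.s.re X.P.s.nsq X.P.b n bu gu bl gl X.P.Elo X.P.Ehi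

/-- the enclosure of the Gram constant -/
def c8 (X : AP2) (S J : ℕ) (f1 f2 g1 g2 f1' f2' g1' g2' : ℚ) : Bool :=
  X.P.mm S J f1 f2 g1 g2 f1' f2' g1' g2' X.Mlo X.Mhi

/-- the hypotheses of the core theorem from the kernel checks alone -/
theorem pf' (X : AP2) (h1 : X.P.c1 = true) (h2 : X.P.c2 = true) (h3 : X.P.c3 = true)
    (h6 : X.c6 = true) (h7 : X.c7 = true) {m : ℕ} {bu gu bl gl : ℚ}
    (h5 : X.c5 m bu gu bl gl = true) {S J : ℕ} {f1 f2 g1 g2 f1' f2' g1' g2' : ℚ}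
    (h8 : X.c8 S J f1 f2 g1 g2 f1' f2' g1' g2' = true) :
    X.P.sC ≠ 0 ∧ ‖X.P.sC‖ ≤ 7 / 10 ∧ 0 < X.P.bR ∧ X.P.bR ≤ 1 ∧ 0 < X.P.bR + 1 - 2 * X.P.sC.re ∧
      2 * ‖X.P.sC‖ < X.P.bR + 1 ∧ PF X.P.sC X.P.bR X.K (hF X.K X.QC2) := by
  have h1' := h1
  simp only [AP.c1, Bool.and_eq_true, decide_eq_true_eq] at h1
  obtain ⟨⟨⟨⟨⟨⟨⟨⟨⟨⟨⟨⟨⟨⟨-, -⟩, -⟩, hs0⟩, hs1⟩, hb0⟩, -⟩, hσ⟩, -⟩, -⟩, -⟩, -⟩, -⟩, -⟩, -⟩ := h1
  have hnsq : ‖X.P.sC‖ ^ 2 = ((X.P.s.nsq : ℚ) : ℝ) := (GQ.nsq_eq X.P.s).symm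
  have hb : (0 : ℝ) < X.P.bR := by
    rw [AP.bR]
    exact_mod_cast hb0
  have hsne : X.P.sC ≠ 0 := by
    intro h0
    rw [h0, norm_zero] at hnsq
    have : ((X.P.s.nsq : ℚ) : ℝ) = 0 := by rw [← hnsq]; norm_num
    have h2 : X.P.s.nsq = 0 := by exact_mod_cast this
    rw [h2] at hs0
    exact lt_irrefl _ hs0
  have hslt : ‖X.P.sC‖ < 1 := by
    have : ((X.P.s.nsq : ℚ) : ℝ) ≤ ((49 / 100 : ℚ) : ℝ) := by exact_mod_cast hs1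
    rw [← hnsq] at this
    push_cast at this
    nlinarith only [this]
  have hre : X.P.sC.re = ((X.P.s.re : ℚ) : ℝ) := rfl
  have hσ' : (0 : ℝ) < X.P.bR + 1 - 2 * X.P.sC.re := by
    rw [hre, AP.bR]
    exact_mod_cast hσ
  obtain ⟨hE1, hE2, -⟩ := esQ2_sound hre hnsq hsne hslt (b := X.P.b) hb hσ' h5
  obtain ⟨hM1, hM2⟩ := X.P.mm_sound h1' h8
  exact X.pf h1' h2 h3 h6 h7 hE1 hE2 hM1 hM2

end AP2

end Pool.Agent.M16.Helper65.HR2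
end
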