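import Mathlib
import Pool.Agent.Helper60.M16.G04
import Pool.Agent.Helper60.M16.G11
import Pool.Agent.Helper60.M16.G15
import Pool.Agent.Helper60.M16.G20
import Pool.Agent.Helper60.M16.G21
import Pool.Agent.Helper60.M16.G22

/- Helper94.T.Helper53.HR2.Form4 -/
section
/-!
MP_16b0ee, project HR2: the area form with four moments as a polynomial, and the pointwise
inequality of the core theorem from a certificate.
-/

set_option autoImplicit false

open scoped ComplexConjugate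

namespace Pool.Agent.M16.Helper53.HR2

open Pool.Agent.M16.Helper12.HR2
open Pool.Agent.M16.Helper24.HR2 (relS XS XS6 XT qT poch)

/-- multiplication by an integer -/
def gz (n : ℤ) (x : GZ) : GZ := (n * x.1, n * x.2)

theorem gv_gz (n : ℤ) (x : GZ) : gv (gz n x) = (n : ℂ) * gv x := by
  simp only [gz, gv]
  push_cast
  ring

/-- addition -/
def ga (x y : GZ) : GZ := (x.1 + y.1, x.2 + y.2)

theorem gv_ga (x y : GZ) : gv (ga x y) = gv x + gv y := by
  simp only [ga, gv]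
  push_cast
  ring

/-- the coefficient `a s + b s ^ 2 + c s ^ 3`, multiplied by `sr ^ 3` -/
def cf (P : Par) (a b c : ℤ) : GZ :=
  ga (gz (a * (P.sr : ℤ) ^ 2) (P.p, P.q))
    (ga (gz (b * (P.sr : ℤ)) (gmul (P.p, P.q) (P.p, P.q)))
      (gz c (gmul (P.p, P.q) (gmul (P.p, P.q) (P.p, P.q)))))

theorem gv_cf (P : Par) (a b c : ℤ) : gv (cf P a b c)
    = a * P.sr ^ 2 * ((P.p : ℂ) + P.q * Complex.I)
      + b * P.sr * ((P.p : ℂ) + P.q * Complex.I) ^ 2
      + c * ((P.p : ℂ) + P.q * Complex.I) ^ 3 := by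
  rw [cf, gv_ga, gv_ga, gv_gz, gv_gz, gv_gz, gv_mul, gv_mul, gv_mul]
  have : gv (P.p, P.q) = (P.p : ℂ) + P.q * Complex.I := rfl
  rw [this]
  push_cast
  ring

/-- the sixth moment, scaled -/
def XP6 (P : Par) : Pol :=
  [(([5], []), cf P (-90) 0 0), (([0, 4], []), cf P 180 0 0), (([1, 3], []), cf P 90 90 0),
    (([0, 0, 3], []), cf P (-180) (-90) 0), (([2, 2], []), cf P 90 0 0),
    (([0, 1, 2], []), cf P (-360) (-180) 0), (([0, 0, 0, 2], []), cf P 180 180 0),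
    (([1, 1, 1], []), cf P (-30) (-45) (-15)), (([0, 0, 1, 1], []), cf P 270 225 45),
    (([0, 0, 0, 0, 1], []), cf P (-180) (-225) (-45)),
    (([0, 0, 0, 0, 0, 0], []), cf P 30 45 15)]

/-- the scaled moments as polynomials, orders 0, 2, 4, 6 -/
def XP4 (P : Par) : ℕ → Pol
  | 0 => XP P 0
  | 1 => XP P 1
  | 2 => XP P 2
  | 3 => XP6 P
  | _ => []

/-- minus the area form with integer coefficients -/
def qfM4 (P : Par) (M : M3) : Pol :=
  (List.range 4).flatMap (fun r => (List.range 4).flatMap (fun t =>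
    pmul (pmul [(([], []), (-(M r t).1, -(M r t).2))] (XP4 P t)) (pconj (XP4 P r))))

/-- the normalisation of the moments -/
noncomputable def xsc4 (P : Par) (r : ℕ) : ℝ := 1 / (2 * P.sr) ^ r

theorem xsc4_eq (P : Par) {r : ℕ} (hr : r < 3) : xsc4 P r = xsc P r := by
  interval_cases r
  · simp [xsc4, xsc]
  · simp [xsc4, xsc]
  · simp only [xsc4, xsc]
    congr 1
    ring

theorem pv_XP6 (P : Par) (hs : P.sr ≠ 0) (c ψ : ℕ → ℂ) :
    XS6 (((P.p : ℂ) + P.q * Complex.I) / P.sr) c = xsc4 P 3 * pv c ψ (XP6 P) := by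
  have hs' : (P.sr : ℂ) ≠ 0 := by exact_mod_cast hs
  simp only [XP6, pv_cons, pv_nil, mv, gv_cf, List.map_cons, List.map_nil, List.prod_cons,
    List.prod_nil, XS6, xsc4]
  generalize (P.p : ℂ) + P.q * Complex.I = S
  push_cast
  field_simp
  ring

theorem pv_XP4 (P : Par) (hs : P.sr ≠ 0) (c ψ : ℕ → ℂ) {r : ℕ} (hr : r < 4) :
    XT (((P.p : ℂ) + P.q * Complex.I) / P.sr) c r = xsc4 P r * pv c ψ (XP4 P r) := by
  by_cases h3 : r = 3
  · subst h3
    rw [XT, if_pos rfl]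
    exact pv_XP6 P hs c ψ
  · have hr3 : r < 3 := by omega
    rw [XT, if_neg h3, xsc4_eq P hr3, pv_XP P hs c ψ hr3]
    congr 2
    interval_cases r <;> rfl

/-- the area form is the polynomial -/
theorem qT_eq4 (P : Par) (hs : P.sr ≠ 0) (M : M3) (Q : ℕ → ℕ → ℂ) {N b : ℝ} (c : ℕ → ℂ)
    (hQ : ∀ r < 4, ∀ t < 4, ((N * (b * (b + 1) * (b + 2) / poch b (2 * r + 2 * t)
      * (xsc4 P r * xsc4 P t)) : ℝ) : ℂ) * Q r t = gv (M r t)) :
    N * qT Q (((P.p : ℂ) + P.q * Complex.I) / P.sr) b c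
      = -(pv c (fun k => conj (c k)) (qfM4 P M)).re := by
  unfold qT qfM4
  rw [pv_flatMap, sum_range_list]
  have h1 : ∀ r ∈ Finset.range 4, ∀ t ∈ Finset.range 4,
      N * (b * (b + 1) * (b + 2) * ((Q r t * (XT (((P.p : ℂ) + P.q * Complex.I) / P.sr) c t
        * conj (XT (((P.p : ℂ) + P.q * Complex.I) / P.sr) c r))).re / poch b (2 * r + 2 * t)))
      = -(pv c (fun k => conj (c k)) (pmul (pmul [(([], []), (-(M r t).1, -(M r t).2))] (XP4 P t))
          (pconj (XP4 P r)))).re := by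
    intro r hr t ht
    have hr' := Finset.mem_range.1 hr
    have ht' := Finset.mem_range.1 ht
    have h2 := hQ r hr' t ht'
    rw [pv_XP4 P hs c (fun k => conj (c k)) hr', pv_XP4 P hs c (fun k => conj (c k)) ht', pv_mul,
      pv_mul, pv_conj]
    have h3 : (fun k => conj ((fun k => conj (c k)) k)) = c := by
      funext k
      simp
    rw [h3]
    have h4 : pv c (fun k => conj (c k)) [((([] : List ℕ), ([] : List ℕ)),
        ((-(M r t).1, -(M r t).2) : GZ))] = -gv (M r t) := by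
      simp [pv_cons, pv_nil, mv, gv]
      ring
    rw [h4, ← h2]
    rw [← Complex.neg_re]
    have h5 : -(-(((N * (b * (b + 1) * (b + 2) / poch b (2 * r + 2 * t)
        * (xsc4 P r * xsc4 P t)) : ℝ) : ℂ) * Q r t) * pv c (fun k => conj (c k)) (XP4 P t)
          * conj (pv c (fun k => conj (c k)) (XP4 P r)))
        = ((N * (b * (b + 1) * (b + 2) / poch b (2 * r + 2 * t)) : ℝ) : ℂ)
          * (Q r t * ((xsc4 P t : ℂ) * pv c (fun k => conj (c k)) (XP4 P t)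
            * conj ((xsc4 P r : ℂ) * pv c (fun k => conj (c k)) (XP4 P r)))) := by
      rw [map_mul, Complex.conj_ofReal]
      push_cast
      ring
    rw [h5, Complex.re_ofReal_mul]
    ring
  have h6 : (∑ i ∈ Finset.range 4, pv c (fun k => conj (c k))
      ((List.range 4).flatMap (fun t => pmul (pmul [(([], []), (-(M i t).1, -(M i t).2))] (XP4 P t))
        (pconj (XP4 P i))))).re
      = ∑ r ∈ Finset.range 4, ∑ t ∈ Finset.range 4, (pv c (fun k => conj (c k))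
        (pmul (pmul [(([], []), (-(M r t).1, -(M r t).2))] (XP4 P t)) (pconj (XP4 P r)))).re := by
    rw [Complex.re_sum]
    refine Finset.sum_congr rfl fun r _ => ?_
    rw [pv_flatMap, sum_range_list, Complex.re_sum]
  rw [h6, ← Finset.sum_neg_distrib, Finset.mul_sum, Finset.mul_sum]
  refine Finset.sum_congr rfl fun r hr => ?_
  rw [← Finset.sum_neg_distrib, Finset.mul_sum, Finset.mul_sum]
  refine Finset.sum_congr rfl fun t ht => ?_
  exact h1 r hr t ht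

/-- the relations with real multipliers -/
noncomputable def relsL (mL N : ℝ) (L : Pol) : List (ℂ × List ℕ × List ℕ) :=
  L.map (fun t => (-((mL / N : ℝ) : ℂ) * gv t.2, t.1.1, t.1.2))

/-- the pointwise inequality from the conclusion of a certificate checker -/
theorem hc_of_sound4 (P : Par) (hsr : P.sr ≠ 0) (M : M3) (Q : ℕ → ℕ → ℂ) {N b : ℝ} (hN : 0 < N)
    {s : ℂ} (hs : s = ((P.p : ℂ) + P.q * Complex.I) / P.sr) (hb : b = (P.bn : ℝ) / P.bd)
    {eta mL : ℝ} {qf L : Pol}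
    (h : ∀ c : ℕ → ℂ, eta + (pv c (fun k => conj (c k)) qf).re
      + mL * (rel (((P.p : ℂ) + P.q * Complex.I) / P.sr) ((P.bn : ℂ) / P.bd) c L).re ≤ 0)
    (hqf : ∀ c : ℕ → ℂ, (pv c (fun k => conj (c k)) qf).re
      = (pv c (fun k => conj (c k)) (qfM4 P M)).re)
    (hQ : ∀ r < 4, ∀ t < 4, ((N * (b * (b + 1) * (b + 2) / poch b (2 * r + 2 * t)
      * (xsc4 P r * xsc4 P t)) : ℝ) : ℂ) * Q r t = gv (M r t)) (c : ℕ → ℂ) :
    eta / N ≤ qT Q s b c
      + ((relsL mL N L).map (fun x => (x.1 * relS s b c x.2.1 x.2.2).re)).sum := by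
  have h1 := h c
  have hbc : ((P.bn : ℂ) / P.bd) = ((b : ℝ) : ℂ) := by
    rw [hb]
    push_cast
    rfl
  have h2 := qT_eq4 P hsr M Q (N := N) (b := b) c hQ
  rw [← hs] at h2
  rw [hbc, ← hs, rel_eq, hqf] at h1
  have h3 : ((relsL mL N L).map (fun x => (x.1 * relS s b c x.2.1 x.2.2).re)).sum
      = -(mL / N) * (L.map (fun t => gv t.2 * relS s b c t.1.1 t.1.2)).sum.re := by
    unfold relsL
    clear h1 h hqf
    induction L with
    | nil => simp
    | cons x L ih =>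
      simp only [List.map_cons, List.sum_cons, Complex.add_re] at ih ⊢
      rw [ih]
      have h4 : (-((mL / N : ℝ) : ℂ) * gv x.2 * relS s b c x.1.1 x.1.2).re
          = -(mL / N) * (gv x.2 * relS s b c x.1.1 x.1.2).re := by
        rw [mul_assoc, ← Complex.ofReal_neg, Complex.re_ofReal_mul]
      rw [h4]
      ring
  rw [h3]
  obtain ⟨q, hq⟩ : ∃ q, q = qT Q s b c := ⟨_, rfl⟩
  obtain ⟨r, hr⟩ : ∃ r, r = (L.map (fun t => gv t.2
        * relS s b c t.1.1 t.1.2)).sum.re := ⟨_, rfl⟩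
  rw [← hq] at h2 ⊢
  rw [← hr] at h1 ⊢
  have h5 : eta ≤ N * q - mL * r := by linarith only [h2, h1]
  rw [div_le_iff₀ hN]
  have h6 : (q + -(mL / N) * r) * N = N * q - mL * r := by
    field_simp
    ring
  rw [h6]
  exact h5

end Pool.Agent.M16.Helper53.HR2
end

/- Helper94.T.Helper65.HR2.Joint -/
section
/-!
MP_16b0ee, project HR2: the bound at one point from the two kernel checks.
-/

set_option autoImplicit false

open scoped ComplexConjugate

namespace Pool.Agent.M16.Helper65.HR2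

open Pool.Agent.M16.Helper24.HR2
open Pool.Agent.M16.Helper12.HR2

namespace AP

/-- the parameters of the certificate -/
def par (P : AP) : Par := ⟨P.s1, P.s2, P.sd, P.bn, P.bd⟩

/-- the matrix of the certificate -/
def MZ (P : AP) (r t : ℕ) : ℤ × ℤ := (P.M.getD r []).getD t (0, 0)

theorem sC_eq (P : AP) : P.sC = ((P.s1 : ℂ) + P.s2 * Complex.I) / P.sd := by
  apply Complex.ext
  · rw [sC, GQ.toC_re, s, Rat.mkRat_eq_div, ← Complex.ofReal_natCast, Complex.div_ofReal_re]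
    push_cast
    simp
  · rw [sC, GQ.toC_im, s, ← Complex.ofReal_natCast, Complex.div_ofReal_im]
    simp only [Rat.mkRat_eq_div]
    push_cast
    simp

theorem bR_eq (P : AP) : P.bR = (P.bn : ℝ) / P.bd := by
  rw [bR, b, Rat.mkRat_eq_div]
  push_cast
  rfl

theorem pochQ_eq (x : ℚ) (n : ℕ) : ((pochQ x n : ℚ) : ℝ) = poch (x : ℝ) n := by
  induction n with
  | zero => simp [pochQ, poch]
  | succ n ih =>
    rw [pochQ, poch, Finset.prod_range_succ, ← poch, ← ih]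
    push_cast
    ring

theorem pochQ_pos {x : ℚ} (hx : 0 < x) (n : ℕ) : 0 < pochQ x n := by
  induction n with
  | zero => simp [pochQ]
  | succ n ih =>
    rw [pochQ]
    have : (0 : ℚ) ≤ n := Nat.cast_nonneg n
    positivity

end AP

end Pool.Agent.M16.Helper65.HR2
end

/- Helper94.T.Helper53.HR2.Fin2 -/
section
/-!
MP_16b0ee, project HR2: the bound of the means at one point from the second form of the area
inequality (record `AP2`), with three moments (the fourth one is eliminated) or with four moments.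
-/

set_option autoImplicit false

open scoped ComplexConjugate

namespace Pool.Agent.M16.Helper65.HR2

open Pool.Agent.M16.Helper24.HR2
open Pool.Agent.M16.Helper12.HR2
open Pool.Agent.M16.Helper53.HR2 (xsc4 xsc4_eq qfM4 relsL hc_of_sound4)

/-- from the bound of the weighted area integral to the means -/
theorem AP.ptOK_of_LS (P : AP) (hb : 0 < P.bR)
    (h : ∃ C0 : ℝ, ∀ (ρ : ℝ) (β H : ℂ → ℂ) (Φ : ℂ → ℂ → ℂ), Dat ρ β H Φ →
      LS P.sC H P.bR (fun _ => 1) ≤ C0) : PtOK P.par := by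
  obtain ⟨C0, hC0⟩ := h
  have key := mean_of_LS hb hC0
  rw [P.sC_eq, P.bR_eq] at key
  exact ⟨(P.bn : ℝ) / P.bd * C0, key⟩

namespace AP2

theorem fac2_pos (X : AP2) (h1 : X.P.c1 = true) (r t : ℕ) : 0 < X.fac2 r t := by
  simp only [AP.c1, Bool.and_eq_true, decide_eq_true_eq] at h1
  obtain ⟨⟨⟨⟨⟨⟨⟨⟨⟨⟨⟨⟨⟨⟨hsd, -⟩, hN⟩, -⟩, -⟩, hb0⟩, -⟩, -⟩, -⟩, -⟩, -⟩, -⟩, -⟩, -⟩, -⟩ := h1
  rw [fac2]
  have h4 := AP.pochQ_pos hb0 (2 * r + 2 * t)
  positivity

theorem fac2_eq (X : AP2) (r t : ℕ) : ((X.fac2 r t : ℚ) : ℝ)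
    = (X.P.N : ℝ) * (X.P.bR * (X.P.bR + 1) * (X.P.bR + 2) / poch X.P.bR (2 * r + 2 * t)
      * (xsc4 X.P.par r * xsc4 X.P.par t)) := by
  have e : (X.P.par.sr : ℝ) = X.P.sd := rfl
  rw [fac2, AP.bR, ← AP.pochQ_eq, xsc4, xsc4, e]
  push_cast
  rw [pow_add, ← one_div_mul_one_div]
  ring

theorem QC2_eq (X : AP2) (h1 : X.P.c1 = true) (r t : ℕ) :
    (((X.P.N : ℝ) * (X.P.bR * (X.P.bR + 1) * (X.P.bR + 2) / poch X.P.bR (2 * r + 2 * t)
      * (xsc4 X.P.par r * xsc4 X.P.par t)) : ℝ) : ℂ) * X.QC2 r t = gv (X.P.MZ r t) := by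
  have hfac := X.fac2_pos h1 r t
  rw [← fac2_eq, QC2, Qf2, GQ.toC_sc, ← mul_assoc, ← Complex.ofReal_mul, ← Rat.cast_mul,
    mul_one_div_cancel hfac.ne', Rat.cast_one, Complex.ofReal_one, one_mul]
  apply Complex.ext
  · simp [GQ.toC, AP.Mf, AP.MZ, gv]
  · simp [GQ.toC, AP.Mf, AP.MZ, gv]

theorem QC2_zero (X : AP2) (h1 : X.P.c1 = true) {r t : ℕ} (h : X.P.MZ r t = (0, 0)) :
    X.QC2 r t = 0 := by
  have h2 := X.QC2_eq h1 r t
  rw [h, ← fac2_eq] at h2
  have h3 : ((X.fac2 r t : ℝ) : ℂ) ≠ 0 := by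
    have := X.fac2_pos h1 r t
    exact_mod_cast this.ne'
  have h4 : gv (0, 0) = 0 := by simp [gv]
  rw [h4] at h2
  exact (mul_eq_zero.1 h2).resolve_left h3

theorem QC2_pos (X : AP2) (h1 : X.P.c1 = true) {r t : ℕ} (h : 0 < (X.P.MZ r t).1) :
    0 < (X.QC2 r t).re := by
  have h2 := X.QC2_eq h1 r t
  rw [← fac2_eq] at h2
  have h3 : (0 : ℝ) < (X.fac2 r t : ℝ) := by
    have := X.fac2_pos h1 r t
    exact_mod_cast this
  have h4 := congrArg Complex.re h2
  rw [Complex.re_ofReal_mul, gv_re] at h4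
  have h5 : (0 : ℝ) < ((X.P.MZ r t).1 : ℝ) := by exact_mod_cast h
  rw [← h4] at h5
  exact (pos_iff_pos_of_mul_pos h5).1 h3

theorem N_pos (X : AP2) (h1 : X.P.c1 = true) : (0 : ℝ) < (X.P.N : ℝ) := by
  simp only [AP.c1, Bool.and_eq_true, decide_eq_true_eq] at h1
  obtain ⟨⟨⟨⟨⟨⟨⟨⟨⟨⟨⟨⟨⟨⟨-, -⟩, hN⟩, -⟩, -⟩, -⟩, -⟩, -⟩, -⟩, -⟩, -⟩, -⟩, -⟩, -⟩, -⟩ := h1
  exact_mod_cast hN

theorem sr_ne (X : AP2) (h1 : X.P.c1 = true) : X.P.par.sr ≠ 0 := by
  simp only [AP.c1, Bool.and_eq_true, decide_eq_true_eq] at h1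
  obtain ⟨⟨⟨⟨⟨⟨⟨⟨⟨⟨⟨⟨⟨⟨hsd, -⟩, -⟩, -⟩, -⟩, -⟩, -⟩, -⟩, -⟩, -⟩, -⟩, -⟩, -⟩, -⟩, -⟩ := h1
  exact hsd.ne'

end AP2

end Pool.Agent.M16.Helper65.HR2
end
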