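import Mathlib
import Pool.Agent.Helper60.M16.G26

/- Helper94.T.Helper53.HR2.EsF -/
section
/-!
MP_16b0ee, project HR2: a fast form of the check of the main constant (`AP2.c5`): integer
polynomials and directed rounding to multiples of `2 ^ (-128)`.
-/

set_option autoImplicit false

namespace Pool.Agent.M16.Helper53.HR2

/-! integer polynomials and their rational multiples -/

def zadd : List ℤ → List ℤ → List ℤ
  | [], l => l
  | a :: l, [] => a :: l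
  | a :: l, b :: m => (a + b) :: zadd l m

def zsm (t : ℤ) : List ℤ → List ℤ
  | [] => []
  | a :: l => (t * a) :: zsm t l

/-- multiplication by `u x + v` -/
def zlin (u v : ℤ) (l : List ℤ) : List ℤ := zadd (zsm v l) (0 :: zsm u l)

/-- multiplication by `w x ^ 2 + u x + v` -/
def zquad (w u v : ℤ) (l : List ℤ) : List ℤ := zadd (zsm v l) (0 :: zadd (zsm u l) (0 :: zsm w l))

/-- the integer polynomial is `c` times the rational polynomial -/
def Sc (c : ℚ) (l : List ℤ) (m : List ℚ) : Prop := l.map (fun z : ℤ => (z : ℚ)) = psm c m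

theorem map_zadd : ∀ l m : List ℤ, (zadd l m).map (fun z : ℤ => (z : ℚ))
    = padd (l.map (fun z : ℤ => (z : ℚ))) (m.map (fun z : ℤ => (z : ℚ)))
  | [], m => by simp [zadd, padd]
  | a :: l, [] => by simp [zadd, padd]
  | a :: l, b :: m => by
    simp only [zadd, padd, List.map_cons, map_zadd l m, List.cons.injEq, and_true]
    push_cast
    rfl

theorem map_zsm (t : ℤ) : ∀ l : List ℤ, (zsm t l).map (fun z : ℤ => (z : ℚ))
    = psm (t : ℚ) (l.map (fun z : ℤ => (z : ℚ)))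
  | [] => by simp [zsm, psm]
  | a :: l => by
    simp only [zsm, psm, List.map_cons, map_zsm t l, List.cons.injEq, and_true]
    push_cast
    rfl

theorem psm_padd (c : ℚ) : ∀ l m : List ℚ, psm c (padd l m) = padd (psm c l) (psm c m)
  | [], m => by simp [psm, padd]
  | a :: l, [] => by simp [psm, padd]
  | a :: l, b :: m => by
    simp only [psm, padd, psm_padd c l m, List.cons.injEq, and_true]
    ring

theorem psm_psm (c d : ℚ) : ∀ l : List ℚ, psm c (psm d l) = psm (c * d) l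
  | [] => rfl
  | a :: l => by
    simp only [psm, psm_psm c d l, List.cons.injEq, and_true]
    ring

theorem Sc.add {c : ℚ} {l l' : List ℤ} {m m' : List ℚ} (h : Sc c l m) (h' : Sc c l' m') :
    Sc c (zadd l l') (padd m m') := by
  unfold Sc at *
  rw [map_zadd, psm_padd, h, h']

theorem Sc.sm {c d : ℚ} {t : ℤ} {a : ℚ} {l : List ℤ} {m : List ℚ} (h : Sc c l m)
    (he : (t : ℚ) * c = d * a) : Sc d (zsm t l) (psm a m) := by
  unfold Sc at *
  rw [map_zsm, h, psm_psm, psm_psm, he]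

theorem Sc.sm1 {c d : ℚ} {t : ℤ} {l : List ℤ} {m : List ℚ} (h : Sc c l m)
    (he : (t : ℚ) * c = d) : Sc d (zsm t l) m := by
  unfold Sc at *
  rw [map_zsm, h, psm_psm, he]

theorem Sc.cons0 {c : ℚ} {l : List ℤ} {m : List ℚ} (h : Sc c l m) : Sc c (0 :: l) (0 :: m) := by
  unfold Sc at *
  simp only [List.map_cons, psm, h, Int.cast_zero, mul_zero]

theorem Sc.lin {c : ℚ} {u v : ℤ} {a : ℚ} {l : List ℤ} {m : List ℚ} (h : Sc c l m)
    (he : (v : ℚ) = u * a) : Sc (u * c) (zlin u v l) (plin a m) :=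
  (h.sm (by rw [he]; ring)).add (h.sm1 rfl).cons0

theorem Sc.quad {c : ℚ} {w u v : ℤ} {a b : ℚ} {l : List ℤ} {m : List ℚ} (h : Sc c l m)
    (hu : (u : ℚ) = w * a) (hv : (v : ℚ) = w * b) : Sc (w * c) (zquad w u v l) (pquad a b m) :=
  (h.sm (by rw [hv]; ring)).add ((h.sm (by rw [hu]; ring)).add (h.sm1 rfl).cons0).cons0

theorem Sc.start {ga' : ℕ} {u : ℤ} {a : ℚ} (he : (u : ℚ) = ga' * a) :
    Sc ga' [u, ga'] [a, 1] := by
  unfold Sc
  simp only [List.map_cons, List.map_nil, psm, mul_one, he, Int.cast_natCast]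

theorem Sc.nonneg {c : ℚ} (hc : 0 < c) : ∀ {l : List ℤ} {m : List ℚ}, Sc c l m →
    (l.all fun a => decide (0 ≤ a)) = true → (m.all fun a => decide (0 ≤ a)) = true
  | _, [], _, _ => rfl
  | [], a :: m, h, _ => by simp [Sc, psm] at h
  | z :: l, a :: m, h, hl => by
    simp only [Sc, List.map_cons, psm, List.cons.injEq] at h
    rw [List.all_cons, Bool.and_eq_true, decide_eq_true_eq] at hl ⊢
    refine ⟨?_, Sc.nonneg hc h.2 hl.2⟩
    have h1 : (0 : ℚ) ≤ (z : ℚ) := by exact_mod_cast hl.1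
    rw [h.1] at h1
    exact nonneg_of_mul_nonneg_right h1 hc

/-! the two polynomials -/

def zL (sd bd be' ga' : ℕ) (p n2 bn be ga n : ℤ) : List ℤ :=
  zquad (sd * sd) (2 * n * (sd * sd) - 2 * p * sd) (n * n * (sd * sd) - 2 * p * n * sd + n2)
    (zquad (sd * sd) ((2 * n + 4) * (sd * sd) + 2 * p * sd)
        ((n * n + 4 * n + 4) * (sd * sd) + (2 * n + 4) * p * sd + n2)
      (zlin bd ((n + 3) * bd + bn) (zlin be' (n * be' + be) [(n + 1) * ga' + ga, ga'])))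

def zR (sd bd be' ga' : ℕ) (p bn be ga n : ℤ) : List ℤ :=
  zlin (bd * sd) ((n + 1) * bd * sd + bn * sd - 2 * p * bd)
    (zlin (sd * sd * sd) (((n + 2) * sd + 2 * p) * sd * sd)
      (zlin 1 (n + 2) (zlin 1 (n + 1) (zlin 1 (n + 1)
        (zlin be' ((n + 1) * be' + be) [n * ga' + ga, ga'])))))

section

variable {sd bd : ℕ} {p n2 bn : ℤ} {r q b : ℚ}

theorem sc_L (hr : r * sd = p) (hq : q * (sd * sd) = n2) (hb : b * bd = bn) (n : ℕ) (be ga : ℚ) :
    Sc ((sd * sd) * ((sd * sd) * (bd * (be.den * ga.den))))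
      (zL sd bd be.den ga.den p n2 bn be.num ga.num n) (lhsP2 r q b n be ga) := by
  have e1 : (be.num : ℚ) = be * be.den := (Rat.mul_den_eq_num be).symm
  have e2 : (ga.num : ℚ) = ga * ga.den := (Rat.mul_den_eq_num ga).symm
  have h1 : Sc ga.den [((n : ℤ) + 1) * ga.den + ga.num, (ga.den : ℤ)] [(n : ℚ) + ga + 1, 1] :=
    Sc.start (by push_cast; rw [e2]; ring)
  have h2 := h1.lin (u := (be.den : ℤ)) (v := (n : ℤ) * be.den + be.num) (a := (n : ℚ) + be)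
    (by push_cast; rw [e1]; ring)
  have h3 := h2.lin (u := (bd : ℤ)) (v := ((n : ℤ) + 3) * bd + bn) (a := (n : ℚ) + b + 3)
    (by push_cast; rw [← hb]; ring)
  have h4 := h3.quad (w := (sd : ℤ) * sd) (u := (2 * (n : ℤ) + 4) * (sd * sd) + 2 * p * sd)
    (v := ((n : ℤ) * n + 4 * n + 4) * (sd * sd) + (2 * n + 4) * p * sd + n2)
    (a := 2 * (n : ℚ) + 4 + 2 * r) (b := (n : ℚ) ^ 2 + (4 + 2 * r) * n + 4 + 4 * r + q)
    (by push_cast; rw [← hr]; ring) (by push_cast; rw [← hr, ← hq]; ring)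
  have h5 := h4.quad (w := (sd : ℤ) * sd) (u := 2 * (n : ℤ) * (sd * sd) - 2 * p * sd)
    (v := (n : ℤ) * n * (sd * sd) - 2 * p * n * sd + n2)
    (a := 2 * (n : ℚ) - 2 * r) (b := (n : ℚ) ^ 2 - 2 * r * n + q)
    (by push_cast; rw [← hr]; ring) (by push_cast; rw [← hr, ← hq]; ring)
  push_cast at h5
  exact h5

theorem sc_R (hr : r * sd = p) (hb : b * bd = bn) (n : ℕ) (be ga : ℚ) :
    Sc ((bd * sd) * ((sd * sd * sd) * (be.den * ga.den)))
      (zR sd bd be.den ga.den p bn be.num ga.num n) (rhsP2 r b n be ga) := by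
  have e1 : (be.num : ℚ) = be * be.den := (Rat.mul_den_eq_num be).symm
  have e2 : (ga.num : ℚ) = ga * ga.den := (Rat.mul_den_eq_num ga).symm
  have h1 : Sc ga.den [(n : ℤ) * ga.den + ga.num, (ga.den : ℤ)] [(n : ℚ) + ga, 1] :=
    Sc.start (by push_cast; rw [e2]; ring)
  have h2 := h1.lin (u := (be.den : ℤ)) (v := ((n : ℤ) + 1) * be.den + be.num)
    (a := (n : ℚ) + 1 + be) (by push_cast; rw [e1]; ring)
  have h3 := h2.lin (u := 1) (v := (n : ℤ) + 1) (a := (n : ℚ) + 1) (by push_cast; ring)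
  have h4 := h3.lin (u := 1) (v := (n : ℤ) + 1) (a := (n : ℚ) + 1) (by push_cast; ring)
  have h5 := h4.lin (u := 1) (v := (n : ℤ) + 2) (a := (n : ℚ) + 2) (by push_cast; ring)
  have h6 := h5.lin (u := (sd : ℤ) * sd * sd) (v := (((n : ℤ) + 2) * sd + 2 * p) * sd * sd)
    (a := (n : ℚ) + 2 + 2 * r) (by push_cast; rw [← hr]; ring)
  have h7 := h6.lin (u := (bd : ℤ) * sd) (v := ((n : ℤ) + 1) * bd * sd + bn * sd - 2 * p * bd)
    (a := (n : ℚ) + b + 1 - 2 * r) (by push_cast; rw [← hr, ← hb]; ring)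
  push_cast at h7
  simp only [one_mul] at h7
  exact h7

end

/-! the recursion, rounded up and rounded down -/

/-- numerator of the quotient -/
def eN (sd pP pN n2 bn bd k : ℕ) : ℕ :=
  ((sd * k) * (sd * k) + 2 * pN * (sd * k) + n2 - 2 * pP * (sd * k))
    * ((sd * (k + 2)) * (sd * (k + 2)) + 2 * pP * (sd * (k + 2)) + n2 - 2 * pN * (sd * (k + 2)))
    * (bd * (k + 3) + bn)

/-- denominator of the quotient -/
def eD (sd pP pN bn bd k : ℕ) : ℕ :=
  sd * sd * ((k + 1) * (k + 1) * (k + 2)) * (sd * (k + 2) + 2 * pP - 2 * pN)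
    * (bd * sd * (k + 1) + bn * sd + 2 * pN * bd - 2 * pP * bd)

def goE (sd pP pN n2 bn bd : ℕ) : ℕ → ℕ → ℕ → ℕ → ℕ × ℕ
  | 0, _, lo, hi => (lo, hi)
  | k + 1, j, lo, hi =>
    goE sd pP pN n2 bn bd k (j + 1) (lo * eN sd pP pN n2 bn bd j / eD sd pP pN bn bd j)
      (hi * eN sd pP pN n2 bn bd j / eD sd pP pN bn bd j + 1)

section

variable {sd pP pN n2 bn bd : ℕ} {r q b : ℚ}

/-- `2 p x ≤ x ^ 2 + n2` -/
theorem le_sq {P N n2 : ℕ} (h : ((P : ℤ) - N) * (P - N) ≤ n2) (x : ℕ) :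
    2 * P * x ≤ x * x + 2 * N * x + n2 := by
  have h2 : (0 : ℤ) ≤ ((x : ℤ) - (P - N)) * (x - (P - N)) := mul_self_nonneg _
  have h3 : (2 * (P : ℤ) * x) ≤ x * x + 2 * N * x + n2 := by linarith
  exact_mod_cast h3

theorem eN_eq (hr : r * sd = (pP : ℚ) - pN) (hq : q * (sd * sd) = n2) (hb : b * bd = bn)
    (hn : ((pP : ℤ) - pN) * (pP - pN) ≤ n2) (k : ℕ) :
    (eN sd pP pN n2 bn bd k : ℚ) = ((sd : ℚ) ^ 4 * bd)
      * (((k : ℚ) ^ 2 - 2 * r * k + q) * (((k : ℚ) + 2) * (k + 2 + 2 * r) + q) * (k + b + 3)) := by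
  have h1 := le_sq hn (sd * k)
  have hn' : ((pN : ℤ) - pP) * (pN - pP) ≤ n2 := by
    have e : ((pN : ℤ) - pP) * (pN - pP) = ((pP : ℤ) - pN) * (pP - pN) := by ring
    rw [e]
    exact hn
  have h2 := le_sq hn' (sd * (k + 2))
  have e1 : (((sd * k) * (sd * k) + 2 * pN * (sd * k) + n2 - 2 * pP * (sd * k) : ℕ) : ℚ)
      = (sd : ℚ) ^ 2 * ((k : ℚ) ^ 2 - 2 * r * k + q) := by
    rw [Nat.cast_sub h1]
    push_cast
    rw [← hq]
    linear_combination (2 * (sd : ℚ) * k) * hr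
  have e2 : (((sd * (k + 2)) * (sd * (k + 2)) + 2 * pP * (sd * (k + 2)) + n2
      - 2 * pN * (sd * (k + 2)) : ℕ) : ℚ)
      = (sd : ℚ) ^ 2 * (((k : ℚ) + 2) * (k + 2 + 2 * r) + q) := by
    rw [Nat.cast_sub h2]
    push_cast
    rw [← hq]
    linear_combination (2 * (sd : ℚ) * (k + 2)) * (-hr)
  have e3 : ((bd * (k + 3) + bn : ℕ) : ℚ) = (bd : ℚ) * (k + b + 3) := by
    push_cast
    rw [← hb]
    ring
  unfold eN
  rw [Nat.cast_mul, Nat.cast_mul, e1, e2, e3]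
  generalize (k : ℚ) ^ 2 - 2 * r * k + q = A
  generalize ((k : ℚ) + 2) * (k + 2 + 2 * r) + q = B
  generalize (k : ℚ) + b + 3 = C
  ring

theorem eD_eq (hr : r * sd = (pP : ℚ) - pN) (hb : b * bd = bn)
    (h1 : 2 * pN < sd * 2 + 2 * pP) (h2 : 2 * pP * bd < bd * sd + bn * sd + 2 * pN * bd)
    (k : ℕ) :
    (eD sd pP pN bn bd k : ℚ) = ((sd : ℚ) ^ 4 * bd)
      * (((k : ℚ) + 1) ^ 2 * (((k : ℚ) + 2) * (k + 2 + 2 * r)) * (k + b + 1 - 2 * r)) := by
  have k1 : 2 * pN ≤ sd * (k + 2) + 2 * pP := by nlinarith [Nat.zero_le (sd * k)]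
  have k2 : 2 * pP * bd ≤ bd * sd * (k + 1) + bn * sd + 2 * pN * bd := by
    nlinarith [Nat.zero_le (bd * sd * k)]
  have e1 : ((sd * (k + 2) + 2 * pP - 2 * pN : ℕ) : ℚ) = (sd : ℚ) * (k + 2 + 2 * r) := by
    rw [Nat.cast_sub k1]
    push_cast
    linear_combination (-2) * hr
  have e2 : ((bd * sd * (k + 1) + bn * sd + 2 * pN * bd - 2 * pP * bd : ℕ) : ℚ)
      = (bd : ℚ) * sd * (k + b + 1 - 2 * r) := by
    rw [Nat.cast_sub k2]
    push_cast
    rw [← hb]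
    linear_combination (2 * (bd : ℚ)) * hr
  unfold eD
  rw [Nat.cast_mul, Nat.cast_mul, e1, e2]
  push_cast
  generalize (k : ℚ) + 2 + 2 * r = B
  generalize (k : ℚ) + b + 1 - 2 * r = C
  ring

theorem eD_pos (hsd : 0 < sd) (h1 : 2 * pN < sd * 2 + 2 * pP)
    (h2 : 2 * pP * bd < bd * sd + bn * sd + 2 * pN * bd) (k : ℕ) : 0 < eD sd pP pN bn bd k := by
  have k1 : 2 * pN < sd * (k + 2) + 2 * pP := by nlinarith [Nat.zero_le (sd * k)]
  have k2 : 2 * pP * bd < bd * sd * (k + 1) + bn * sd + 2 * pN * bd := by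
    nlinarith [Nat.zero_le (bd * sd * k)]
  have k3 : 0 < sd * (k + 2) + 2 * pP - 2 * pN := by omega
  have k4 : 0 < bd * sd * (k + 1) + bn * sd + 2 * pN * bd - 2 * pP * bd := Nat.sub_pos_of_lt k2
  unfold eD
  positivity

theorem qn_frac (hsd : 0 < sd) (hbd : 0 < bd) (hr : r * sd = (pP : ℚ) - pN)
    (hq : q * (sd * sd) = n2) (hb : b * bd = bn)
    (hn : ((pP : ℤ) - pN) * (pP - pN) ≤ n2)
    (h1 : 2 * pN < sd * 2 + 2 * pP) (h2 : 2 * pP * bd < bd * sd + bn * sd + 2 * pN * bd)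
    (k : ℕ) : qnQ r q b k = (eN sd pP pN n2 bn bd k : ℚ) / eD sd pP pN bn bd k := by
  rw [eN_eq hr hq hb hn, eD_eq hr hb h1 h2, qnQ, mul_div_mul_left]
  have a1 : (0 : ℚ) < sd := by exact_mod_cast hsd
  have a2 : (0 : ℚ) < bd := by exact_mod_cast hbd
  positivity

theorem goE_spec (hsd : 0 < sd) (hbd : 0 < bd) (hr : r * sd = (pP : ℚ) - pN)
    (hq : q * (sd * sd) = n2) (hb : b * bd = bn)
    (hn : ((pP : ℤ) - pN) * (pP - pN) ≤ n2)
    (h1 : 2 * pN < sd * 2 + 2 * pP) (h2 : 2 * pP * bd < bd * sd + bn * sd + 2 * pN * bd)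
    {S : ℚ} : ∀ (m j lo hi : ℕ), (lo : ℚ) ≤ S * enQ r q b j → S * enQ r q b j ≤ hi →
      ((goE sd pP pN n2 bn bd m j lo hi).1 : ℚ) ≤ S * enQ r q b (j + m) ∧
      S * enQ r q b (j + m) ≤ ((goE sd pP pN n2 bn bd m j lo hi).2 : ℚ)
  | 0, j, lo, hi, k1, k2 => ⟨k1, k2⟩
  | m + 1, j, lo, hi, k1, k2 => by
    have e : j + (m + 1) = j + 1 + m := by ring
    rw [e, goE]
    have hD := eD_pos hsd h1 h2 j
    have hD' : (0 : ℚ) < (eD sd pP pN bn bd j : ℚ) := by exact_mod_cast hD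
    have hen : S * enQ r q b (j + 1)
        = (S * enQ r q b j) * ((eN sd pP pN n2 bn bd j : ℚ) / eD sd pP pN bn bd j) := by
      rw [enQ, qn_frac hsd hbd hr hq hb hn h1 h2 j]
      ring
    have hf : (0 : ℚ) ≤ (eN sd pP pN n2 bn bd j : ℚ) / eD sd pP pN bn bd j := by positivity
    apply goE_spec hsd hbd hr hq hb hn h1 h2
    · rw [hen]
      refine le_trans Nat.cast_div_le ?_
      push_cast
      rw [mul_div_assoc]
      exact mul_le_mul_of_nonneg_right k1 hf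
    · rw [hen]
      refine le_trans (mul_le_mul_of_nonneg_right k2 hf) ?_
      rw [← mul_div_assoc, div_le_iff₀ hD']
      have h5 := Nat.lt_mul_div_succ (hi * eN sd pP pN n2 bn bd j) hD
      have h6 : ((hi * eN sd pP pN n2 bn bd j : ℕ) : ℚ) < ((eD sd pP pN bn bd j
        * (hi * eN sd pP pN n2 bn bd j / eD sd pP pN bn bd j + 1) : ℕ) : ℚ) := by exact_mod_cast h5
      rw [Nat.cast_mul, Nat.cast_mul] at h6
      linarith

end

/-- the fast check -/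
def esF (s1 s2 : ℤ) (sd bn bd n : ℕ) (bu gu bl gl Elo Ehi : ℚ) : Bool :=
  decide (0 < sd) && decide (0 < bd)
    && decide (2 * (-s1).toNat < sd * 2 + 2 * s1.toNat)
    && decide (2 * s1.toNat * bd < bd * sd + bn * sd + 2 * (-s1).toNat * bd)
    && decide (0 < (n : ℚ) + bu) && decide (0 < (n : ℚ) + gu)
    && decide (0 < (n : ℚ) + bl) && decide (0 < (n : ℚ) + gl)
    && (zadd (zR sd bd bu.den gu.den s1 bn bu.num gu.num n)
      (zsm (-1) (zL sd bd bu.den gu.den s1 (s1 * s1 + s2 * s2) bn bu.num gu.num n))).all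
        (fun a => decide (0 ≤ a))
    && (zadd (zL sd bd bl.den gl.den s1 (s1 * s1 + s2 * s2) bn bl.num gl.num n)
      (zsm (-1) (zR sd bd bl.den gl.den s1 bn bl.num gl.num n))).all (fun a => decide (0 ≤ a))
    && decide (0 ≤ Elo)
    && (let x0 := 2 ^ 128 * (sd * sd + 2 * s1.toNat * sd + (s1 * s1 + s2 * s2).toNat
          - 2 * (-s1).toNat * sd) / (sd * sd)
        let e := goE sd s1.toNat (-s1).toNat (s1 * s1 + s2 * s2).toNat bn bd n 0 x0 (x0 + 1)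
        decide (2 ^ 128 * Elo ≤ e.1 * (((n : ℚ) + gl) / ((n : ℚ) + bl))) &&
        decide (e.2 * (((n : ℚ) + gu) / ((n : ℚ) + bu)) ≤ 2 ^ 128 * Ehi))

theorem esF_sound {s1 s2 : ℤ} {sd bn bd n : ℕ} {bu gu bl gl Elo Ehi : ℚ}
    (h : esF s1 s2 sd bn bd n bu gu bl gl Elo Ehi = true) {r q b : ℚ}
    (hr : r = mkRat s1 sd) (hq : q = mkRat s1 sd * mkRat s1 sd + mkRat s2 sd * mkRat s2 sd)
    (hb : b = mkRat bn bd) : esQ2 r q b n bu gu bl gl Elo Ehi = true := by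
  simp only [esF, Bool.and_eq_true, decide_eq_true_eq] at h
  obtain ⟨⟨⟨⟨⟨⟨⟨⟨⟨⟨⟨c1, c2⟩, c3⟩, c4⟩, c5⟩, c6⟩, c7⟩, c8⟩, c9⟩, c10⟩, c11⟩, c12, c13⟩ := h
  have a1 : (0 : ℚ) < sd := by exact_mod_cast c1
  have a2 : (0 : ℚ) < bd := by exact_mod_cast c2
  have hr' : r * sd = (s1 : ℚ) := by
    rw [hr, Rat.mkRat_eq_div]
    field_simp
  have hq' : q * (sd * sd) = ((s1 * s1 + s2 * s2 : ℤ) : ℚ) := by
    rw [hq, Rat.mkRat_eq_div, Rat.mkRat_eq_div]
    push_cast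
    field_simp
  have hb' : b * bd = ((bn : ℤ) : ℚ) := by
    rw [hb, Rat.mkRat_eq_div]
    push_cast
    field_simp
  -- the signs
  have hp : ((s1.toNat : ℤ)) - ((-s1).toNat : ℤ) = s1 := by omega
  have hpq : r * sd = (s1.toNat : ℚ) - ((-s1).toNat : ℚ) := by
    rw [hr']
    have : ((((s1.toNat : ℤ)) - ((-s1).toNat : ℤ) : ℤ) : ℚ) = (s1 : ℚ) := by rw [hp]
    push_cast at this
    exact this.symm
  have hn0 : (0 : ℤ) ≤ s1 * s1 + s2 * s2 := add_nonneg (mul_self_nonneg _) (mul_self_nonneg _)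
  have hnZ : (((s1 * s1 + s2 * s2).toNat : ℕ) : ℤ) = s1 * s1 + s2 * s2 := Int.toNat_of_nonneg hn0
  have hnq : q * (sd * sd) = (((s1 * s1 + s2 * s2).toNat : ℕ) : ℚ) := by
    rw [hq', ← hnZ, Int.cast_natCast]
    rfl
  have hn : (((s1.toNat : ℕ) : ℤ) - ((-s1).toNat : ℕ)) * ((s1.toNat : ℕ) - ((-s1).toNat : ℕ))
      ≤ ((s1 * s1 + s2 * s2).toNat : ℕ) := by
    rw [hp, hnZ]
    have := mul_self_nonneg s2
    linarith
  have hbq : b * bd = ((bn : ℕ) : ℚ) := by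
    rw [hb']
    push_cast
    rfl
  -- the starting values
  set S : ℚ := 2 ^ 128 with hS
  have hS0 : (0 : ℚ) < S := by norm_num [hS]
  set X : ℕ := sd * sd + 2 * s1.toNat * sd + (s1 * s1 + s2 * s2).toNat - 2 * (-s1).toNat * sd
    with hX
  have hle : 2 * (-s1).toNat * sd ≤ sd * sd + 2 * s1.toNat * sd + (s1 * s1 + s2 * s2).toNat := by
    have hn' : (((-s1).toNat : ℕ) - ((s1.toNat : ℕ) : ℤ)) * ((-s1).toNat - (s1.toNat : ℕ))
        ≤ ((s1 * s1 + s2 * s2).toNat : ℕ) := by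
      have e : (((-s1).toNat : ℕ) - ((s1.toNat : ℕ) : ℤ)) * ((-s1).toNat - (s1.toNat : ℕ))
        = (((s1.toNat : ℕ) : ℤ) - ((-s1).toNat : ℕ)) * ((s1.toNat : ℕ) - ((-s1).toNat : ℕ)) := by
        ring
      rw [e]
      exact hn
    exact le_sq hn' sd
  have hXq : (X : ℚ) = (sd * sd) * (1 + 2 * r + q) := by
    rw [hX, Nat.cast_sub hle]
    push_cast
    have h5 := hnq
    linear_combination (-2 * (sd : ℚ)) * hpq - h5
  have hen : S * enQ r q b 0 = (2 ^ 128 * X : ℕ) / ((sd * sd : ℕ) : ℚ) := by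
    rw [enQ]
    push_cast
    rw [hXq, hS]
    field_simp
    ring
  have hssd : 0 < sd * sd := Nat.mul_pos c1 c1
  have k1 : (((2 ^ 128 * X / (sd * sd) : ℕ)) : ℚ) ≤ S * enQ r q b 0 := by
    rw [hen]
    exact Nat.cast_div_le
  have k2 : S * enQ r q b 0 ≤ (((2 ^ 128 * X / (sd * sd) + 1 : ℕ)) : ℚ) := by
    have a3 : (0 : ℚ) < ((sd * sd : ℕ) : ℚ) := by exact_mod_cast hssd
    rw [hen, div_le_iff₀ a3]
    have h5 := Nat.lt_mul_div_succ (2 ^ 128 * X) hssd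
    have h6 : ((2 ^ 128 * X : ℕ) : ℚ) < ((sd * sd * (2 ^ 128 * X / (sd * sd) + 1) : ℕ) : ℚ) := by
      exact_mod_cast h5
    rw [Nat.cast_mul (sd * sd)] at h6
    linarith
  obtain ⟨g1, g2⟩ := goE_spec c1 c2 hpq hnq hbq hn c3 c4 n 0 _ _ k1 k2
  rw [zero_add] at g1 g2
  have w1 : (0 : ℚ) ≤ ((n : ℚ) + gl) / ((n : ℚ) + bl) := by positivity
  have w2 : (0 : ℚ) ≤ ((n : ℚ) + gu) / ((n : ℚ) + bu) := by positivity
  simp only [esQ2, Bool.and_eq_true, decide_eq_true_eq]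
  refine ⟨⟨⟨⟨⟨⟨⟨⟨c5, c6⟩, c7⟩, c8⟩, ?_⟩, ?_⟩, c11⟩, ?_⟩, ?_⟩
  · have hR := sc_R (n := n) hr' hb' bu gu
    have hL := sc_L (n := n) hr' hq' hb' bu gu
    have hbu : (0 : ℚ) < bu.den := by exact_mod_cast bu.den_pos
    have hgu : (0 : ℚ) < gu.den := by exact_mod_cast gu.den_pos
    have e : ((bd * sd) * ((sd * sd * sd) * (bu.den * gu.den)) : ℚ)
        = (sd * sd) * ((sd * sd) * (bd * (bu.den * gu.den))) := by ring
    rw [e] at hR
    exact (hR.add (hL.sm (t := -1) (a := -1) (by push_cast; ring))).nonneg (by positivity) c9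
  · have hR := sc_R (n := n) hr' hb' bl gl
    have hL := sc_L (n := n) hr' hq' hb' bl gl
    have hbu : (0 : ℚ) < bl.den := by exact_mod_cast bl.den_pos
    have hgu : (0 : ℚ) < gl.den := by exact_mod_cast gl.den_pos
    have e : ((bd * sd) * ((sd * sd * sd) * (bl.den * gl.den)) : ℚ)
        = (sd * sd) * ((sd * sd) * (bd * (bl.den * gl.den))) := by ring
    rw [e] at hR
    exact (hL.add (hR.sm (t := -1) (a := -1) (by push_cast; ring))).nonneg (by positivity) c10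
  · have h5 := c12.trans (mul_le_mul_of_nonneg_right g1 w1)
    rw [mul_assoc] at h5
    exact le_of_mul_le_mul_left h5 hS0
  · have h5 := (mul_le_mul_of_nonneg_right g2 w2).trans c13
    rw [mul_assoc] at h5
    exact le_of_mul_le_mul_left h5 hS0

end Pool.Agent.M16.Helper53.HR2

namespace Pool.Agent.M16.Helper65.HR2.AP2

open Pool.Agent.M16.Helper53.HR2 (esF esF_sound)

/-- fast form of the check `c5` -/
def c5f (X : AP2) (n : ℕ) (bu gu bl gl : ℚ) : Bool :=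
  esF X.P.s1 X.P.s2 X.P.sd X.P.bn X.P.bd n bu gu bl gl X.P.Elo X.P.Ehi

theorem c5_of_c5f {X : AP2} {n : ℕ} {bu gu bl gl : ℚ} (h : X.c5f n bu gu bl gl = true) :
    X.c5 n bu gu bl gl = true :=
  esF_sound h rfl rfl rfl

end Pool.Agent.M16.Helper65.HR2.AP2
end
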