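import Mathlib
import Pool.Agent.Helper60.M16.G13
import Pool.Agent.Helper60.M16.G20
import Pool.Agent.Helper60.M16.G26
import Pool.Agent.Helper60.M16.G27

/- Helper94.T.Helper53.HR2.Fin3 -/
section
/-!
MP_16b0ee, project HR2: the bound of the means at one point from the second form of the area
inequality with any number `X.K` of moments; the moments beyond the third (or fourth) are eliminated.
-/

set_option autoImplicit false

open scoped ComplexConjugate

namespace Pool.Agent.M16.Helper65.HR2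

open Pool.Agent.M16.Helper24.HR2
open Pool.Agent.M16.Helper12.HR2
open Pool.Agent.M16.Helper53.HR2 (xsc4 xsc4_eq qfM4 relsL hc_of_sound4)

namespace AP2

/-- the row and the column of order `i` vanish before the diagonal, which is positive -/
def cz (X : AP2) (i : ℕ) : Bool :=
  decide (0 < (X.P.MZ i i).1) &&
    (List.range i).all (fun j => decide (X.P.MZ i j = (0, 0)) && decide (X.P.MZ j i = (0, 0)))

/-- the moments of order `k, ..., K - 1` split off -/
def c10 (X : AP2) (k : ℕ) : Bool :=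
  decide (k ≤ X.K) && (List.range X.K).all (fun i => decide (i < k) || X.cz i)

theorem hF_succ_split (K : ℕ) (Q : ℕ → ℕ → ℂ) (h1 : ∀ j < K, Q K j = 0) (h2 : ∀ j < K, Q j K = 0)
    (g : ℕ → ℂ) : hF K Q g + (Q K K).re * ‖g K‖ ^ 2 = hF (K + 1) Q g := by
  have e : (Q K K * (g K * conj (g K))).re = (Q K K).re * ‖g K‖ ^ 2 := by
    rw [Complex.mul_conj, Complex.normSq_eq_norm_sq, Complex.re_mul_ofReal]
  have e1 : ∑ t ∈ Finset.range K, (Q K t * (g t * conj (g K))).re = 0 := by
    refine Finset.sum_eq_zero (fun j hj => ?_)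
    rw [h1 j (Finset.mem_range.1 hj), zero_mul, Complex.zero_re]
  have e2 : ∑ r ∈ Finset.range K, (Q r K * (g K * conj (g r))).re = 0 := by
    refine Finset.sum_eq_zero (fun j hj => ?_)
    rw [h2 j (Finset.mem_range.1 hj), zero_mul, Complex.zero_re]
  rw [← e, hF, hF, Finset.sum_range_succ]
  simp only [Finset.sum_range_succ]
  rw [Finset.sum_add_distrib, e1, e2]
  ring

theorem pf_drop_aux (X : AP2) (h1 : X.P.c1 = true) (hs : ‖X.P.sC‖ < 1) (hb : 0 < X.P.bR) (k : ℕ) :
    ∀ K : ℕ, k ≤ K → (∀ i < K, i < k ∨ X.cz i = true) → PF X.P.sC X.P.bR K (hF K X.QC2) →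
      PF X.P.sC X.P.bR k (hF k X.QC2) := by
  intro K
  induction K with
  | zero =>
    intro hk _ h
    have : k = 0 := by omega
    rw [this]
    exact h
  | succ K ih =>
    intro hk hz h
    by_cases hk' : k = K + 1
    · rw [hk']
      exact h
    · have hkK : k ≤ K := by omega
      refine ih hkK (fun i hi => hz i (by omega)) ?_
      have h2 := (hz K (by omega)).resolve_left (by omega)
      simp only [cz, Bool.and_eq_true, decide_eq_true_eq, List.all_eq_true, List.mem_range] at h2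
      obtain ⟨h3, h4⟩ := h2
      exact PF_extK hs hb h (X.QC2_pos h1 h3) (fun g =>
        (hF_succ_split K X.QC2 (fun j hj => X.QC2_zero h1 (h4 j hj).1)
          (fun j hj => X.QC2_zero h1 (h4 j hj).2) g).le)

/-- the per-frequency inequality with the first `k` moments -/
theorem pf_drop (X : AP2) (h1 : X.P.c1 = true) (hs : ‖X.P.sC‖ < 1) (hb : 0 < X.P.bR) {k : ℕ}
    (h10 : X.c10 k = true) (h : PF X.P.sC X.P.bR X.K (hF X.K X.QC2)) :
    PF X.P.sC X.P.bR k (hF k X.QC2) := by
  simp only [c10, Bool.and_eq_true, decide_eq_true_eq, List.all_eq_true, List.mem_range,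
    Bool.or_eq_true] at h10
  exact X.pf_drop_aux h1 hs hb k X.K h10.1 h10.2 h

/-- **the bound of the means at the point, four moments**, the others are eliminated; from the
conclusion of any certificate checker -/
theorem ok4g_of_sound (X : AP2) (h1 : X.P.c1 = true) (h2 : X.P.c2 = true) (h3 : X.P.c3 = true)
    (h6 : X.c6 = true) (h7 : X.c7 = true) {m : ℕ} {bu gu bl gl : ℚ}
    (h5 : X.c5 m bu gu bl gl = true) {S J : ℕ} {f1 f2 g1 g2 f1' f2' g1' g2' : ℚ}
    (h8 : X.c8 S J f1 f2 g1 g2 f1' f2' g1' g2' = true) (h10 : X.c10 4 = true)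
    {eta mL : ℝ} {qf L : Pol} (heta : 0 < eta)
    (h : ∀ c : ℕ → ℂ, eta + (pv c (fun k => conj (c k)) qf).re
      + mL * (rel (((X.P.par.p : ℂ) + X.P.par.q * Complex.I) / X.P.par.sr)
        ((X.P.par.bn : ℂ) / X.P.par.bd) c L).re ≤ 0)
    (hqf : ∀ c : ℕ → ℂ, (pv c (fun k => conj (c k)) qf).re
      = (pv c (fun k => conj (c k)) (qfM4 X.P.par X.P.MZ)).re) : PtOK X.P.par := by
  obtain ⟨k1, k2, k3, k4, k5, k6, k7⟩ := X.pf' h1 h2 h3 h6 h7 h5 h8
  have hpf := X.pf_drop h1 (by linarith only [k4, k6]) k3 h10 k7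
  have hc := hc_of_sound4 X.P.par (X.sr_ne h1) X.P.MZ X.QC2 (X.N_pos h1) X.P.sC_eq X.P.bR_eq h hqf
    (fun r _ t _ => X.QC2_eq h1 r t)
  exact X.P.ptOK_of_LS k3 (core_t k1 k2 k3 k4 k5 k6 X.QC2 hpf (relsL mL X.P.N L)
    (div_pos heta (X.N_pos h1)) hc)

end AP2

end Pool.Agent.M16.Helper65.HR2
end

/- Helper94.T.Helper54.HR2.Fin6 -/
section
/-!
MP_16b0ee, project HR2: the inequality at a point from a certificate of the second kernel
computation.
-/

set_option autoImplicit false

open scoped ComplexConjugate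

namespace Pool.Agent.M16.Helper54.HR2

open Pool.Agent.M16.Helper12.HR2 (Par Mo GZ gv Pol mv pv wl rel Dvl dvl upl prd M3)
open Pool.Agent.M16.Helper65.HR2 (AP2)
open Pool.Agent.M16.Helper53.HR2 (qfM4)

/-! ## A faster comparison of the forms -/

/-- `a = z + h` -/
noncomputable def ieq (a h : ℕ) (z : ℤ) : Bool :=
  Int.rec (motive := fun _ => Bool) (fun n => Nat.beq a (Nat.add n h))
    (fun n => Nat.beq (Nat.add a (Nat.succ n)) h) z

/-- the coefficients are the digits -/
noncomputable def eqQ (w h : ℕ) (l : List (Mo × GZ)) : ℕ → ℕ → Bool :=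
  List.rec (motive := fun _ => ℕ → ℕ → Bool) (fun _ _ => true)
    (fun t _ ih x y => and (ieq (Nat.mod x w) h t.2.1)
      (and (ieq (Nat.mod y w) h t.2.2) (ih (Nat.div x w) (Nat.div y w)))) l

theorem ieq_eq {a h : ℕ} {z : ℤ} (hz : ieq a h z = true) : ((a : ℕ) : ℤ) - h = z := by
  rcases z with n | n
  · have h1 : a = n + h := Nat.eq_of_beq_eq_true hz
    rw [h1]
    push_cast
    simp
  · have h1 : a + (n + 1) = h := Nat.eq_of_beq_eq_true hz
    rw [← h1, Int.negSucc_eq]
    push_cast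
    ring

theorem eqQ_eq (w h : ℕ) (l : List (Mo × GZ)) : ∀ x y : ℕ, eqQ w h l x y = true →
    upl w h (l.map Prod.fst) x y = l := by
  induction l with
  | nil => intro x y _; rfl
  | cons t l ih =>
    intro x y hq
    have h' : (ieq (x % w) h t.2.1 && (ieq (y % w) h t.2.2 && eqQ w h l (x / w) (y / w))) = true :=
      hq
    simp only [Bool.and_eq_true] at h'
    rw [List.map_cons, upl, ih _ _ h'.2.2, ieq_eq h'.1, ieq_eq h'.2.1]

set_option maxRecDepth 100000 in
theorem qfM4_mono (P : Par) (M : M3) : (qfM4 P M).map Prod.fst = qmSix := rfl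

/-- a matrix from a list -/
def mfn (l : List (List (ℤ × ℤ))) : M3 := fun r t => (l.getD r []).getD t (0, 0)

/-- the first matrix is `kq` times the second (first four rows and columns) -/
def okM (M M1 : M3) (kq : ℕ) : Bool :=
  (List.range 4).all (fun r => (List.range 4).all (fun t =>
    decide (M r t = ((kq : ℤ) * (M1 r t).1, (kq : ℤ) * (M1 r t).2))))

theorem pv_qfM4_scale (P : Par) {M M1 : M3} {kq : ℕ} (h : okM M M1 kq = true) (φ ψ : ℕ → ℂ) :
    pv φ ψ (qfM4 P M) = (kq : ℂ) * pv φ ψ (qfM4 P M1) := by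
  have h' : ∀ r ∈ Finset.range 4, ∀ t ∈ Finset.range 4,
      M r t = ((kq : ℤ) * (M1 r t).1, (kq : ℤ) * (M1 r t).2) := by
    intro r hr t ht
    simp only [okM, List.all_eq_true, List.mem_range, decide_eq_true_eq] at h
    exact h r (Finset.mem_range.1 hr) t (Finset.mem_range.1 ht)
  unfold qfM4
  rw [Pool.Agent.M16.Helper12.HR2.pv_flatMap, Pool.Agent.M16.Helper12.HR2.sum_range_list,
    Pool.Agent.M16.Helper12.HR2.pv_flatMap, Pool.Agent.M16.Helper12.HR2.sum_range_list, Finset.mul_sum]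
  refine Finset.sum_congr rfl (fun r hr => ?_)
  rw [Pool.Agent.M16.Helper12.HR2.pv_flatMap, Pool.Agent.M16.Helper12.HR2.sum_range_list,
    Pool.Agent.M16.Helper12.HR2.pv_flatMap, Pool.Agent.M16.Helper12.HR2.sum_range_list, Finset.mul_sum]
  refine Finset.sum_congr rfl (fun t ht => ?_)
  rw [h' r hr t ht]
  simp only [Pool.Agent.M16.Helper12.HR2.pv_mul, Pool.Agent.M16.Helper12.HR2.pv_cons,
    Pool.Agent.M16.Helper12.HR2.pv_nil, gv]
  push_cast
  ring

/-- **The point is good**: the data of the area form, a certificate with basis monomials of weight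
at most 6 for a smaller multiple of the matrix, any correct table. -/
theorem ok6k (X : AP2) (h1 : X.P.c1 = true) (h2 : X.P.c2 = true) (h3 : X.P.c3 = true)
    (h6 : X.c6 = true) (h7 : X.c7 = true) {m : ℕ} {bu gu bl gl : ℚ}
    (h5 : X.c5 m bu gu bl gl = true) {S J : ℕ} {f1 f2 g1 g2 f1' f2' g1' g2' : ℚ}
    (h8 : X.c8 S J f1 f2 g1 g2 f1' f2' g1' g2' = true) (h10 : X.c10 4 = true)
    {t : Tab6} {K : ℕ} {rep : ℕ → ℕ} {bas : List Mo} {gm : List (List Mo)} {prs : List (ℕ × ℕ)}
    (ht : TabOK6 t K rep bas qmSix gm prs) (C : Cert6) (hR : chR t C = true)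
    (hI : chI t C = true) (hB : chB t K C = true) (hP : C.P = X.P.par) (M1 : M3) (kq : ℕ)
    (hM : okM X.P.MZ M1 kq = true) (hkq : 0 < kq)
    (hqf : eqQ C.wQ C.hQ (qfM4 C.P M1) C.qx C.qy = true)
    (heta : 0 < C.eta) : Pool.Agent.M16.Helper65.HR2.PtOK X.P.par := by
  have hq := eqQ_eq _ _ _ _ _ hqf
  rw [qfM4_mono] at hq
  have hk : (0 : ℝ) < kq := by exact_mod_cast hkq
  have he : (0 : ℝ) < C.eta := by exact_mod_cast heta
  refine X.ok4g_of_sound h1 h2 h3 h6 h7 h5 h8 h10 (eta := (kq : ℝ) * C.eta)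
    (mL := (kq : ℝ) * C.mL) (qf := qfM4 X.P.par X.P.MZ) (L := dec6 C.wL C.hL gm C.G)
    (mul_pos hk he) ?_ (fun c => rfl)
  intro c
  have h := sound6 ht C hR hI hB c
  rw [hq, hP] at h
  have h9 : ((kq : ℂ) * pv c (fun k => conj (c k)) (qfM4 X.P.par M1)).re
      = (kq : ℝ) * (pv c (fun k => conj (c k)) (qfM4 X.P.par M1)).re := by
    have : (kq : ℂ) = ((kq : ℝ) : ℂ) := by push_cast; rfl
    rw [this, Complex.re_ofReal_mul]
  rw [pv_qfM4_scale X.P.par hM, h9]
  have h11 := mul_nonpos_of_nonneg_of_nonpos hk.le h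
  linarith only [h11]

end Pool.Agent.M16.Helper54.HR2
end
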