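import Mathlib
import Pool.Agent.Helper60.M16.G15
import Pool.Agent.Helper60.M16.G21
import Pool.Agent.Helper60.M16.G28
import Pool.Agent.Helper60.M16.G31
import Pool.Agent.Helper60.M16.G32
import Pool.Agent.Helper60.M16.G33
import Pool.Agent.Helper60.M16.G34
import Pool.Agent.Helper60.M16.G35
import Pool.Agent.Helper60.M16.G36
import Pool.Agent.Helper60.M16.G37
import Pool.Agent.Helper60.M16.G38
import Pool.Agent.Helper60.M16.G39
import Pool.Agent.Helper60.M16.G40
import Pool.Agent.Helper60.M16.G41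
import Pool.Agent.Helper60.M16.G42

/- Helper94.T.Helper12.HR2.MainD -/
section
/-!
MP_16b0ee, project HR2: the exponential square integral with the exponent `73 / 100` is bounded
uniformly over the class `Σ`.
-/

set_option autoImplicit false

namespace Pool.Agent.M16.Helper12.HR2.D

open Pool.Agent.M16.Helper22.Half (SigmaLog mInt)
open Pool.Agent.M16.Helper65.HR2 (PtOK)
open Pool.Agent.M16.Helper12.HR2
open Pool.Agent.M16.Helper12.HR2.B (cw_P cw_d cw_ds cw_t1 cw_t2 cw_h1 cw_h2 cw_hd)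

theorem hok_C : ∀ D ∈ cw_d :: cw_ds, PtOK ⟨D.p, -D.q, D.sr, D.bn, D.bd⟩ := by
  unfold cw_d cw_ds
  simp only [List.forall_mem_cons]
  exact ⟨ok107, ok0, ok1, ok2, ok3, ok4, ok5, ok6, ok7, ok8, ok9, ok10, ok11, ok12, ok13, ok14,
    ok15, ok16, ok17, ok18, ok19, ok20, ok21, ok22, ok23, ok24, ok25, ok26, ok27, ok28, ok29,
    ok30, ok31, ok32, ok33, ok34, ok35, ok36, ok37, ok38, ok39, ok40, ok41, ok42, ok43, ok44,
    ok45, ok46, ok47, ok48, ok49, ok50, ok51, ok52, ok53, ok54, ok55, ok56, ok57, ok58, ok59,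
    ok60, ok61, ok62, ok63, ok64, ok65, ok66, ok67, ok68, ok69, ok70, ok71, ok72, ok73, ok74,
    ok75, ok76, ok77, ok78, ok79, ok80, ok81, ok82, ok83, ok84, ok85, ok86, ok87, ok88, ok89,
    ok90, ok91, ok92, ok93, ok94, ok95, ok96, ok97, ok98, ok99, ok100, ok101, ok102, ok103, ok104,
    ok105, ok106, by simp⟩

/-- **The uniform bound of the exponential square integral with the exponent `73 / 100`.** -/
theorem mInt_73 : ∃ C' : ℝ, ∀ R : ℝ, 1 < R → ∀ ψ h : ℂ → ℂ, SigmaLog ψ h →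
    mInt (73 / 100) R h ≤ C' := by
  have h := mInt_of_data cw_P cw_ds cw_d cw_t1 cw_t2 (by decide) (by decide) (by decide)
    cw_hd cw_h1 cw_h2 hok_C (a1 := 731 / 1000) (s0 := 1 / 250)
    (by norm_num [cw_P]) (by norm_num [cw_P]) Pool.Agent.M16.Helper98.HR2.small_meanA
  have e : ((cw_P.an : ℝ) / cw_P.ad) = 73 / 100 := by norm_num [cw_P]
  rw [e] at h
  exact h

end Pool.Agent.M16.Helper12.HR2.D
end
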