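import Mathlib
import Pool.Agent.Helper60.M16.G06
import Pool.Agent.Helper60.M16.G08
import Pool.Agent.Helper60.M16.G14

/- Helper94.T.Helper22.Half.FamExt -/
section
/-!
The two bounds in the exterior of the disc.
-/

set_option autoImplicit false

open MeasureTheory Set Metric Filter Topology
open scoped ENNReal NNReal Real ComplexConjugate

namespace Pool.Agent.M16.Helper22.Half

open Pool.Agent.M16.Helper39.Area (Ext phi toDisc eq_zero_of_exp_one inv_mem isOpen_ext)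

theorem mInt_disc (a R : ℝ) (hR : 1 < R) (h : ℂ → ℂ) : mInt a R h = (1 / (2 * π)) *
    ∫ θ in (0:ℝ)..(2 * π),
        Real.exp (a * ‖toDisc 0 h (((R⁻¹ : ℝ) : ℂ) * Complex.exp ((θ : ℂ) * Complex.I))‖ ^ 2
          / Real.log (1 / (1 - (R⁻¹) ^ 2))) := by
  unfold mInt
  rw [Pool.Agent.M16.Helper39.Area.integral_transfer h a R hR]

end Pool.Agent.M16.Helper22.Half
end

/- Helper94.T.Helper22.Half.Family -/
section
/-!
Holomorphic families of maps in the class Sigma.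
-/

set_option autoImplicit false

open MeasureTheory Set Metric Filter Topology
open scoped ENNReal NNReal Real ComplexConjugate

namespace Pool.Agent.M16.Helper22.Half

open Pool.Agent.M16.Helper39.Area (Ext phi toDisc eq_zero_of_exp_one inv_mem isOpen_ext)
open Pool.Agent.M16.Helper22.Marshall (differentiableOn_of_exp)

/-- bound of the derivative -/
theorem SigmaLog.goluzin {ψ h : ℂ → ℂ} (H : SigmaLog ψ h) :
    DifferentiableOn ℂ (toDisc 0 h) (ball 0 1) ∧ ∀ ζ ∈ ball (0:ℂ) 1,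
      ‖toDisc 0 h ζ‖ ≤ Real.log (1 / (1 - ‖ζ‖ ^ 2)) :=
  Pool.Agent.M16.Helper39.Area.goluzin_disc H.diff H.inj H.normalised H.hdiff H.exp_eq H.lim

theorem exp_norm_le {w : ℂ} {x : ℝ} (hx : 0 < x) (hw : ‖w‖ ≤ Real.log x) :
    ‖Complex.exp w‖ ≤ x := by
  rw [Complex.norm_exp]
  have h1 : w.re ≤ Real.log x := (Complex.re_le_norm w).trans hw
  calc Real.exp w.re ≤ Real.exp (Real.log x) := Real.exp_le_exp.mpr h1
    _ = x := Real.exp_log hx

theorem SigmaLog.q_bound {ψ h : ℂ → ℂ} (H : SigmaLog ψ h) {ρ : ℝ} (hρ : 0 < ρ) {ζ : ℂ}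
    (hζ : ‖ζ‖ ≤ 1 - ρ) : ‖Complex.exp (toDisc 0 h ζ)‖ ≤ 1 / ρ := by
  have h0 := norm_nonneg ζ
  have h1 : ζ ∈ ball (0:ℂ) 1 := by
    rw [mem_ball_zero_iff]; linarith only [hρ, hζ]
  have h2 : 0 < 1 - ‖ζ‖ ^ 2 := by nlinarith only [hρ, hζ, h0]
  refine (exp_norm_le (by positivity) (H.goluzin.2 ζ h1)).trans ?_
  apply one_div_le_one_div_of_le hρ
  nlinarith only [hζ, h0, h2]

theorem SigmaLog.deriv_bound {ψ h : ℂ → ℂ} (H : SigmaLog ψ h) {ρ : ℝ} (hρ : 0 < ρ) {z : ℂ}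
    (hz : 1 + ρ ≤ ‖z‖) : ‖deriv ψ z‖ ≤ (1 + ρ) / ρ := by
  have hz0 : z ≠ 0 := by
    rintro rfl
    rw [norm_zero] at hz
    linarith only [hρ, hz]
  have h1 : deriv ψ z = Complex.exp (toDisc 0 h z⁻¹) := by
    rw [← H.exp_eq z (by linarith)]
    simp only [toDisc]
    rw [if_neg (inv_ne_zero hz0), inv_inv]
  rw [h1]
  have h2 : ‖z⁻¹‖ ≤ 1 - ρ / (1 + ρ) := by
    rw [norm_inv]
    have : 1 - ρ / (1 + ρ) = (1 + ρ)⁻¹ := by
      field_simp
      ring
    rw [this]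
    exact inv_anti₀ (by linarith) hz
  have h3 := H.q_bound (ρ := ρ / (1 + ρ)) (by positivity) h2
  rwa [one_div_div] at h3

/-- oscillation of a bounded holomorphic function -/
theorem osc_bound {f : ℂ → ℂ} {c : ℂ} {ρ M : ℝ} (hρ : 0 < ρ)
    (hf : DifferentiableOn ℂ f (ball c ρ)) (hM : ∀ z ∈ ball c ρ, ‖f z‖ ≤ M) {z : ℂ}
    (hz : z ∈ ball c ρ) : ‖f z - f c‖ ≤ 2 * M / ρ * ‖z - c‖ := by
  have h := Complex.dist_le_div_mul_dist_of_mapsTo_ball (R₂ := 2 * M) hf (fun w hw => by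
    rw [mem_closedBall, dist_eq_norm]
    calc ‖f w - f c‖ ≤ ‖f w‖ + ‖f c‖ := norm_sub_le _ _
      _ ≤ M + M := add_le_add (hM w hw) (hM c (mem_ball_self hρ))
      _ = 2 * M := by ring) hz
  rwa [dist_eq_norm, dist_eq_norm] at h

/-- the difference quotient is uniformly close to the derivative -/
theorem SigmaLog.quotient {ψ h : ℂ → ℂ} (H : SigmaLog ψ h) {z0 : ℂ} {ρ : ℝ} (hρ : 0 < ρ)
    (hz0 : 1 + 2 * ρ ≤ ‖z0‖) {δ : ℝ} (hδ : 0 < δ) (hδρ : δ < ρ) :
    ‖(ψ (z0 + δ) - ψ z0) / δ - deriv ψ z0‖ ≤ 2 * ((1 + ρ) / ρ) / ρ * δ := by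
  have hball : ∀ z ∈ ball z0 ρ, 1 + ρ ≤ ‖z‖ := by
    intro z hz
    rw [mem_ball, dist_eq_norm] at hz
    have h1 : ‖z0‖ ≤ ‖z‖ + ‖z - z0‖ := by
      calc ‖z0‖ = ‖z - (z - z0)‖ := by congr 1; ring
        _ ≤ ‖z‖ + ‖z - z0‖ := norm_sub_le _ _
    linarith
  have hsub : ball z0 ρ ⊆ {z : ℂ | 1 < ‖z‖} := by
    intro z hz
    have := hball z hz
    show 1 < ‖z‖
    linarith only [hδ, hδρ, this]
  have hd : DifferentiableOn ℂ ψ (ball z0 ρ) := H.diff.mono hsub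
  have hd2 : DifferentiableOn ℂ (deriv ψ) (ball z0 ρ) := hd.deriv isOpen_ball
  have hosc : ∀ z ∈ ball z0 ρ, ‖deriv ψ z - deriv ψ z0‖ ≤ 2 * ((1 + ρ) / ρ) / ρ * ‖z - z0‖ :=
    fun z hz => osc_bound hρ hd2 (fun w hw => H.deriv_bound hρ (hball w hw)) hz
  obtain ⟨C, hC⟩ : ∃ C, C = 2 * ((1 + ρ) / ρ) / ρ := ⟨_, rfl⟩
  have hC0 : 0 < C := by rw [hC]; positivity
  rw [← hC] at hosc ⊢
  have hmem : ∀ z ∈ closedBall z0 δ, z ∈ ball z0 ρ := fun z hz => by
    rw [mem_closedBall] at hz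
    rw [mem_ball]; linarith only [hδρ, hz]
  have key := Convex.norm_image_sub_le_of_norm_deriv_le (𝕜 := ℂ) (f := fun z => ψ z - deriv ψ z0 * z)
    (s := closedBall z0 δ) (x := z0) (y := z0 + δ) (C := C * δ)
    (fun z hz => by
      have := hd.differentiableAt (isOpen_ball.mem_nhds (hmem z hz))
      exact this.sub ((differentiableAt_id).const_mul _))
    (fun z hz => by
      have h1 := hd.differentiableAt (isOpen_ball.mem_nhds (hmem z hz))
      have h2 : deriv (fun z => ψ z - deriv ψ z0 * z) z = deriv ψ z - deriv ψ z0 := by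
        have h3 : HasDerivAt (fun z => ψ z - deriv ψ z0 * z) (deriv ψ z - deriv ψ z0 * 1) z :=
          h1.hasDerivAt.sub ((hasDerivAt_id z).const_mul _)
        rw [h3.deriv, mul_one]
      rw [h2]
      refine (hosc z (hmem z hz)).trans ?_
      rw [mem_closedBall, dist_eq_norm] at hz
      gcongr)
    (convex_closedBall _ _) (mem_closedBall_self hδ.le)
    (by
      rw [mem_closedBall, dist_eq_norm, add_sub_cancel_left, Complex.norm_real,
        Real.norm_of_nonneg hδ.le])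
  have hδ0 : (δ : ℂ) ≠ 0 := by exact_mod_cast hδ.ne'
  have e1 : (ψ (z0 + δ) - ψ z0) / δ - deriv ψ z0
      = ((ψ (z0 + δ) - deriv ψ z0 * (z0 + δ)) - (ψ z0 - deriv ψ z0 * z0)) / δ := by
    field_simp
    ring
  rw [e1, norm_div, Complex.norm_real, Real.norm_of_nonneg hδ.le, div_le_iff₀ hδ]
  refine key.trans ?_
  rw [add_sub_cancel_left, Complex.norm_real, Real.norm_of_nonneg hδ.le]

theorem HolFam.deriv_hol {ψ h : ℂ → ℂ → ℂ} (H : HolFam ψ h) {z0 : ℂ} (hz0 : 1 < ‖z0‖) :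
    DifferentiableOn ℂ (fun l => deriv (ψ l) z0) (ball 0 1) := by
  obtain ⟨ρ, hρ⟩ : ∃ ρ, ρ = (‖z0‖ - 1) / 2 := ⟨_, rfl⟩
  have hρ0 : 0 < ρ := by rw [hρ]; linarith only [hz0]
  have hz1 : 1 + 2 * ρ ≤ ‖z0‖ := by rw [hρ]; linarith only []
  have hlim : TendstoLocallyUniformlyOn
      (fun (n : ℕ) (l : ℂ) => (ψ l (z0 + (ρ / (n + 2) : ℝ)) - ψ l z0) / ((ρ / (n + 2) : ℝ) : ℂ))
      (fun l => deriv (ψ l) z0) atTop (ball 0 1) := by
    apply TendstoUniformlyOn.tendstoLocallyUniformlyOn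
    rw [Metric.tendstoUniformlyOn_iff]
    intro ε hε
    have h1 : Tendsto (fun n : ℕ => 2 * ((1 + ρ) / ρ) / ρ * (ρ / ((n : ℝ) + 2))) atTop (𝓝 0) := by
      have h2 : Tendsto (fun n : ℕ => (ρ / ((n : ℝ) + 2))) atTop (𝓝 0) := by
        apply Tendsto.const_div_atTop
        exact tendsto_natCast_atTop_atTop.atTop_add tendsto_const_nhds
      simpa using h2.const_mul (2 * ((1 + ρ) / ρ) / ρ)
    filter_upwards [h1.eventually_lt_const hε] with n hn l hl
    rw [dist_comm, dist_eq_norm]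
    have h3 : (0:ℝ) < ρ / ((n : ℝ) + 2) := by positivity
    have h4 : ρ / ((n : ℝ) + 2) < ρ := by
      rw [div_lt_iff₀ (by positivity)]
      have : (0:ℝ) ≤ n := Nat.cast_nonneg n
      nlinarith only [hρ0]
    exact ((H.mem l hl).quotient hρ0 hz1 h3 h4).trans_lt hn
  apply hlim.differentiableOn _ isOpen_ball
  apply Eventually.of_forall
  intro n
  have h3 : (0:ℝ) < ρ / ((n : ℝ) + 2) := by positivity
  have h4 : ρ / ((n : ℝ) + 2) < ρ := by
    rw [div_lt_iff₀ (by positivity)]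
    have : (0:ℝ) ≤ n := Nat.cast_nonneg n
    nlinarith only [hρ0]
  apply DifferentiableOn.div_const
  apply DifferentiableOn.sub
  · apply H.hol
    have h5 : ‖z0‖ ≤ ‖z0 + ((ρ / (n + 2) : ℝ) : ℂ)‖ + ‖((ρ / (n + 2) : ℝ) : ℂ)‖ := by
      calc ‖z0‖ = ‖(z0 + ((ρ / (n + 2) : ℝ) : ℂ)) - ((ρ / (n + 2) : ℝ) : ℂ)‖ := by
            congr 1; ring
        _ ≤ _ := norm_sub_le _ _
    rw [Complex.norm_real ((ρ / (n + 2) : ℝ)), Real.norm_of_nonneg h3.le] at h5
    linarith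
  · exact H.hol z0 hz0

theorem HolFam.q_hol {ψ h : ℂ → ℂ → ℂ} (H : HolFam ψ h) {ζ : ℂ} (hζ : ζ ∈ ball (0:ℂ) 1) :
    DifferentiableOn ℂ (fun l => Complex.exp (toDisc 0 (h l) ζ)) (ball 0 1) := by
  by_cases h0 : ζ = 0
  · subst h0
    simp only [toDisc, if_true, Complex.exp_zero]
    exact differentiableOn_const _
  · apply (H.deriv_hol (inv_mem hζ h0)).congr
    intro l hl
    simp only [toDisc]
    rw [if_neg h0, (H.mem l hl).exp_eq _ (inv_mem hζ h0)]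

theorem HolFam.q_cont {ψ h : ℂ → ℂ → ℂ} (H : HolFam ψ h) :
    ContinuousOn (fun p : ℂ × ℂ => Complex.exp (toDisc 0 (h p.1) p.2))
      (ball (0:ℂ) 1 ×ˢ ball (0:ℂ) 1) := by
  rintro ⟨l0, ζ0⟩ ⟨hl0, hζ0⟩
  simp only at hl0 hζ0
  apply ContinuousAt.continuousWithinAt
  obtain ⟨ρ, hρ⟩ : ∃ ρ, ρ = (1 - ‖ζ0‖) / 2 := ⟨_, rfl⟩
  have hζ1 : ‖ζ0‖ < 1 := by rwa [mem_ball_zero_iff] at hζ0
  have hρ0 : 0 < ρ := by rw [hρ]; linarith
  have hball : ∀ ζ ∈ ball ζ0 ρ, ‖ζ‖ ≤ 1 - ρ := by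
    intro ζ hζ
    rw [mem_ball, dist_eq_norm] at hζ
    have h1 : ‖ζ‖ ≤ ‖ζ0‖ + ‖ζ - ζ0‖ := by
      calc ‖ζ‖ = ‖ζ0 + (ζ - ζ0)‖ := by congr 1; ring
        _ ≤ _ := norm_add_le _ _
    have h2 : ‖ζ0‖ = 1 - 2 * ρ := by rw [hρ]; ring
    linarith only [hζ, h1, h2]
  have hsub : ball ζ0 ρ ⊆ ball (0:ℂ) 1 := by
    intro ζ hζ
    rw [mem_ball_zero_iff]
    have := hball ζ hζ
    linarith only [hρ0, this]
  have hosc : ∀ l ∈ ball (0:ℂ) 1, ∀ ζ ∈ ball ζ0 ρ,
      ‖Complex.exp (toDisc 0 (h l) ζ) - Complex.exp (toDisc 0 (h l) ζ0)‖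
        ≤ 2 * (1 / ρ) / ρ * ‖ζ - ζ0‖ := by
    intro l hl ζ hζ
    exact osc_bound (f := fun w => Complex.exp (toDisc 0 (h l) w)) hρ0
      (((H.mem l hl).goluzin.1.mono hsub).cexp)
      (fun w hw => (H.mem l hl).q_bound hρ0 (hball w hw)) hζ
  have hcl : ContinuousAt (fun l => Complex.exp (toDisc 0 (h l) ζ0)) l0 :=
    ((H.q_hol hζ0).differentiableAt (isOpen_ball.mem_nhds hl0)).continuousAt
  have hcp : ContinuousAt (fun p : ℂ × ℂ => Complex.exp (toDisc 0 (h p.1) ζ0)) (l0, ζ0) :=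
    ContinuousAt.comp (x := (l0, ζ0)) (f := fun p : ℂ × ℂ => p.1) hcl continuousAt_fst
  have hdiff : Tendsto (fun p : ℂ × ℂ => Complex.exp (toDisc 0 (h p.1) p.2)
      - Complex.exp (toDisc 0 (h p.1) ζ0)) (𝓝 (l0, ζ0)) (𝓝 0) := by
    apply squeeze_zero_norm' (a := fun p : ℂ × ℂ => 2 * (1 / ρ) / ρ * ‖p.2 - ζ0‖)
    · have hn : (ball (0:ℂ) 1 ×ˢ ball ζ0 ρ) ∈ 𝓝 (l0, ζ0) :=
        (isOpen_ball.prod isOpen_ball).mem_nhds ⟨hl0, mem_ball_self hρ0⟩
      filter_upwards [hn] with p hp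
      exact hosc p.1 hp.1 p.2 hp.2
    · have : Continuous (fun p : ℂ × ℂ => 2 * (1 / ρ) / ρ * ‖p.2 - ζ0‖) := by fun_prop
      have h2 := this.tendsto (l0, ζ0)
      simpa using h2
  have h3 := hdiff.add hcp
  rw [zero_add] at h3
  apply Tendsto.congr _ h3
  intro p
  ring

/-- joint continuity of the logarithm -/
theorem HolFam.h_cont {ψ h : ℂ → ℂ → ℂ} (H : HolFam ψ h) :
    ContinuousOn (fun p : ℂ × ℂ => toDisc 0 (h p.1) p.2) (ball (0:ℂ) 1 ×ˢ ball (0:ℂ) 1) := by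
  set U : Set (ℂ × ℂ) := ball 0 1 ×ˢ ball 0 1 with hU
  have hUo : IsOpen U := isOpen_ball.prod isOpen_ball
  have hUconv : Convex ℝ U := (convex_ball _ _).prod (convex_ball _ _)
  have h0b : (0:ℂ) ∈ ball (0:ℂ) 1 := mem_ball_self one_pos
  have h00 : ((0:ℂ), (0:ℂ)) ∈ U := ⟨h0b, h0b⟩
  have hUs : IsSimplyConnected U := by
    have hc : ContractibleSpace U := hUconv.contractibleSpace ⟨_, h00⟩
    show SimplyConnectedSpace U
    infer_instance
  have hq0 : 0 ∉ (fun p : ℂ × ℂ => Complex.exp (toDisc 0 (h p.1) p.2)) '' U := by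
    rintro ⟨p, _, hp⟩
    exact Complex.exp_ne_zero _ hp
  obtain ⟨Φ, hΦc, hΦ⟩ := Complex.exists_continuousOn_eqOn_exp_comp hUs hUo H.q_cont hq0
  have hΦe : ∀ b ∈ ball (0:ℂ) 1, ∀ ζ ∈ ball (0:ℂ) 1,
      Complex.exp (Φ (b, ζ)) = Complex.exp (toDisc 0 (h b) ζ) :=
    fun b hb ζ hζ => hΦ (show (b, ζ) ∈ U from ⟨hb, hζ⟩)
  have hz : ∀ b : ℂ, toDisc 0 (h b) 0 = 0 := fun b => by simp [toDisc]
  have hΨc : ContinuousOn (fun p : ℂ × ℂ => Φ (p.1, p.2) - Φ (0, 0)) U := by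
    have : ContinuousOn (fun p : ℂ × ℂ => Φ (p.1, p.2)) U := hΦc
    exact this.sub continuousOn_const
  have hΨe : ∀ a ∈ ball (0:ℂ) 1, ∀ b ∈ ball (0:ℂ) 1,
      Complex.exp (Φ (a, b) - Φ (0, 0)) = Complex.exp (toDisc 0 (h a) b) := by
    intro a ha b hb
    rw [Complex.exp_sub, hΦe a ha b hb, hΦe 0 h0b 0 h0b, hz, Complex.exp_zero, div_one]
  have hright0 : ∀ a ∈ ball (0:ℂ) 1, Φ (a, 0) - Φ (0, 0) = 0 := by
    apply eq_zero_of_exp_one (convex_ball (0:ℂ) 1).isPreconnected _ _ h0b (by simp)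
    · exact hΨc.comp (f := fun a => (a, 0)) (by fun_prop) (fun a ha => ⟨ha, h0b⟩)
    · intro a ha
      rw [hΨe a ha 0 h0b, hz, Complex.exp_zero]
  have heq : ∀ a ∈ ball (0:ℂ) 1, ∀ b ∈ ball (0:ℂ) 1,
      (Φ (a, b) - Φ (0, 0)) - toDisc 0 (h a) b = 0 := by
    intro a ha
    apply eq_zero_of_exp_one (convex_ball (0:ℂ) 1).isPreconnected _ _ h0b
      (by rw [hright0 a ha, hz, sub_zero])
    · apply ContinuousOn.sub _ (H.mem a ha).goluzin.1.continuousOn
      exact hΨc.comp (f := fun b => (a, b)) (by fun_prop) (fun b hb => ⟨ha, hb⟩)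
    · intro b hb
      rw [Complex.exp_sub, hΨe a ha b hb, div_self (Complex.exp_ne_zero _)]
  apply hΨc.congr
  rintro ⟨a, b⟩ ⟨ha, hb⟩
  exact (sub_eq_zero.mp (heq a ha b hb)).symm

theorem HolFam.h_hol {ψ h : ℂ → ℂ → ℂ} (H : HolFam ψ h) {ζ : ℂ} (hζ : ζ ∈ ball (0:ℂ) 1) :
    DifferentiableOn ℂ (fun l => toDisc 0 (h l) ζ) (ball 0 1) := by
  apply differentiableOn_of_exp isOpen_ball
  · exact H.h_cont.comp (f := fun l => (l, ζ)) (by fun_prop) (fun l hl => ⟨hl, hζ⟩)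
  · exact H.q_hol hζ

theorem HolFam.h_zero {ψ h : ℂ → ℂ → ℂ} (H : HolFam ψ h) :
    ∀ ζ ∈ ball (0:ℂ) 1, toDisc 0 (h 0) ζ = 0 := by
  have h0b : (0:ℂ) ∈ ball (0:ℂ) 1 := mem_ball_self one_pos
  apply eq_zero_of_exp_one (convex_ball (0:ℂ) 1).isPreconnected
    (H.mem 0 h0b).goluzin.1.continuousOn _ h0b (by simp [toDisc])
  intro ζ hζ
  by_cases h0 : ζ = 0
  · subst h0
    simp [toDisc]
  · simp only [toDisc]
    rw [if_neg h0, (H.mem 0 h0b).exp_eq _ (inv_mem hζ h0)]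
    have h1 : ψ 0 =ᶠ[𝓝 ζ⁻¹] fun z => z := by
      filter_upwards [isOpen_ext.mem_nhds (inv_mem hζ h0)] with z hz
      exact H.base z hz
    rw [h1.deriv_eq]
    exact deriv_id _

end Pool.Agent.M16.Helper22.Half
end

/- Helper94.T.Helper22.Half.FamMean -/
section
/-!
Subharmonicity in the parameter.
-/

set_option autoImplicit false

open MeasureTheory Set Metric Filter Topology
open scoped ENNReal NNReal Real ComplexConjugate

namespace Pool.Agent.M16.Helper22.Half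

open Pool.Agent.M16.Helper39.Area (Ext phi toDisc eq_zero_of_exp_one inv_mem isOpen_ext)

/-- a Moebius map from the unit disc to the disc of radius `κ` -/
noncomputable def mob (κ : ℝ) (μ w : ℂ) : ℂ := κ * ((w + μ) / (1 + conj μ * w))

theorem mob_den {μ w : ℂ} (hμ : ‖μ‖ < 1) (hw : ‖w‖ ≤ 1) : 1 + conj μ * w ≠ 0 := by
  intro h
  have h1 : ‖conj μ * w‖ < 1 := by
    rw [norm_mul, RCLike.norm_conj]
    have := norm_nonneg μ
    nlinarith only [hμ, hw, this]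
  have h2 : conj μ * w = -1 := by linear_combination h
  rw [h2, norm_neg, norm_one] at h1
  exact lt_irrefl _ h1

theorem mob_id {μ w : ℂ} : ‖1 + conj μ * w‖ ^ 2 - ‖w + μ‖ ^ 2 = (1 - ‖w‖ ^ 2) * (1 - ‖μ‖ ^ 2) := by
  rw [← Complex.normSq_eq_norm_sq, ← Complex.normSq_eq_norm_sq, ← Complex.normSq_eq_norm_sq,
    ← Complex.normSq_eq_norm_sq]
  simp only [Complex.normSq_apply, Complex.add_re, Complex.add_im, Complex.mul_re, Complex.mul_im,
    Complex.conj_re, Complex.conj_im, Complex.one_re, Complex.one_im]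
  ring

theorem mob_norm_le {κ : ℝ} (hκ : 0 ≤ κ) {μ w : ℂ} (hμ : ‖μ‖ < 1) (hw : ‖w‖ ≤ 1) :
    ‖mob κ μ w‖ ≤ κ := by
  unfold mob
  rw [norm_mul, Complex.norm_real, Real.norm_of_nonneg hκ, norm_div]
  have h1 := mob_id (μ := μ) (w := w)
  have h2 : 0 < ‖1 + conj μ * w‖ := norm_pos_iff.mpr (mob_den hμ hw)
  have h3 : ‖w + μ‖ ≤ ‖1 + conj μ * w‖ := by
    apply (pow_le_pow_iff_left₀ (norm_nonneg _) h2.le two_ne_zero).mp
    have : 0 ≤ (1 - ‖w‖ ^ 2) * (1 - ‖μ‖ ^ 2) := by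
      apply mul_nonneg
      · nlinarith only [norm_nonneg w, hw]
      · nlinarith only [norm_nonneg μ, hμ]
    linarith
  have h4 : ‖w + μ‖ / ‖1 + conj μ * w‖ ≤ 1 := (div_le_one h2).mpr h3
  calc κ * (‖w + μ‖ / ‖1 + conj μ * w‖) ≤ κ * 1 := by gcongr
    _ = κ := mul_one κ

theorem mob_norm_eq {κ : ℝ} (hκ : 0 ≤ κ) {μ w : ℂ} (hμ : ‖μ‖ < 1) (hw : ‖w‖ = 1) :
    ‖mob κ μ w‖ = κ := by
  unfold mob
  rw [norm_mul, Complex.norm_real, Real.norm_of_nonneg hκ, norm_div]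
  have h1 := mob_id (μ := μ) (w := w)
  rw [hw] at h1
  have h2 : 0 < ‖1 + conj μ * w‖ := norm_pos_iff.mpr (mob_den hμ hw.le)
  have h3 : ‖w + μ‖ = ‖1 + conj μ * w‖ := by
    apply (sq_eq_sq₀ (norm_nonneg _) (norm_nonneg _)).mp
    linarith only [h1]
  rw [h3, div_self h2.ne', mul_one]

theorem mob_zero {κ : ℝ} {μ : ℂ} : mob κ μ 0 = κ * μ := by
  unfold mob
  simp

/-- the sub mean value inequality for the exponential of a squared modulus -/
theorem exp_sq_mean {g : ℂ → ℂ} (hg : DifferentiableOn ℂ g (ball 0 1)) {κ : ℝ} (hκ : 0 < κ)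
    (hκ1 : κ < 1) {μ : ℂ} (hμ : ‖μ‖ < 1) {A : ℝ} (hA : 0 ≤ A) :
    Real.exp (A * ‖g (κ * μ)‖ ^ 2) ≤ (2 * π)⁻¹ * ∫ t in (0:ℝ)..(2 * π),
      Real.exp (A * ‖g (mob κ μ (circleMap 0 1 t))‖ ^ 2) := by
  have hcl : ContinuousOn (fun w => g (mob κ μ w)) (closedBall 0 1) := by
    apply hg.continuousOn.comp
    · intro w hw
      rw [mem_closedBall_zero_iff] at hw
      have := mob_den hμ hw
      unfold mob
      fun_prop (disch := assumption)
    · intro w hw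
      rw [mem_closedBall_zero_iff] at hw
      rw [mem_ball_zero_iff]
      exact (mob_norm_le hκ.le hμ hw).trans_lt hκ1
  have hcd : DiffContOnCl ℂ (fun w => g (mob κ μ w)) (ball 0 |1|) := by
    rw [abs_one]
    refine ⟨?_, ?_⟩
    · apply hg.comp
      · intro w hw
        rw [mem_ball_zero_iff] at hw
        have := mob_den hμ hw.le
        unfold mob
        apply DifferentiableAt.differentiableWithinAt
        fun_prop (disch := assumption)
      · intro w hw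
        rw [mem_ball_zero_iff] at hw ⊢
        exact (mob_norm_le hκ.le hμ hw.le).trans_lt hκ1
    · rw [closure_ball _ one_ne_zero]
      exact hcl
  have hmean := hcd.circleAverage
  rw [Real.circleAverage_def] at hmean
  rw [mob_zero] at hmean
  have hmem : ∀ t : ℝ, circleMap (0:ℂ) 1 t ∈ closedBall (0:ℂ) 1 := fun t =>
    circleMap_mem_closedBall 0 zero_le_one t
  have hcont : Continuous (fun t : ℝ => g (mob κ μ (circleMap 0 1 t))) :=
    hcl.comp_continuous (continuous_circleMap 0 1) hmem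
  have hconv : ConvexOn ℝ univ (fun x : ℂ => Real.exp (A * ‖x‖ ^ 2)) := by
    have h1 : ConvexOn ℝ univ (fun x : ℂ => A * ‖x‖ ^ 2) := by
      have h2 : ConvexOn ℝ univ (fun x : ℂ => ‖x‖ ^ 2) :=
        (convexOn_univ_norm (E := ℂ)).pow (fun x _ => norm_nonneg x) 2
      simpa [smul_eq_mul] using h2.smul hA
    refine ⟨convex_univ, ?_⟩
    intro x _ y _ a b ha hb hab
    have h3 := h1.2 (mem_univ x) (mem_univ y) ha hb hab
    have h4 := convexOn_exp.2 (mem_univ (A * ‖x‖ ^ 2)) (mem_univ (A * ‖y‖ ^ 2)) ha hb hab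
    simp only [smul_eq_mul] at h3 h4 ⊢
    exact (Real.exp_le_exp.mpr h3).trans h4
  have hpi := Real.pi_pos
  have hvol : volume.real (Ioc (0:ℝ) (2 * π)) = 2 * π := by
    rw [Real.volume_real_Ioc_of_le (by positivity)]
    ring
  have hvol0 : volume (Ioc (0:ℝ) (2 * π)) ≠ 0 := by
    rw [Real.volume_Ioc]
    simp [hpi]
  have hvol1 : volume (Ioc (0:ℝ) (2 * π)) ≠ ∞ := by
    rw [Real.volume_Ioc]
    exact ENNReal.ofReal_ne_top
  have hφc : Continuous (fun x : ℂ => Real.exp (A * ‖x‖ ^ 2)) := by fun_prop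
  have hJ := hconv.map_set_average_le (μ := volume) (t := Ioc (0:ℝ) (2 * π))
    (f := fun t : ℝ => g (mob κ μ (circleMap 0 1 t))) hφc.continuousOn isClosed_univ hvol0 hvol1
    (Eventually.of_forall fun _ => mem_univ _) hcont.integrableOn_Ioc
    (hφc.comp hcont).integrableOn_Ioc
  rw [setAverage_eq, setAverage_eq, hvol, smul_eq_mul, ← intervalIntegral.integral_of_le (by positivity),
    ← intervalIntegral.integral_of_le (by positivity), hmean] at hJ
  exact hJ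

/-- the integrand on the family -/
theorem fam_disc {ψ h : ℂ → ℂ → ℂ} (H : HolFam ψ h) {A C κ L r : ℝ} (hA : 0 ≤ A) (hL : 0 < L)
    (hκ : 0 < κ) (hκ1 : κ < 1) (hr0 : 0 ≤ r) (hr1 : r < 1)
    (hC : ∀ l ∈ ball (0:ℂ) 1, ∫ θ in (0:ℝ)..(2 * π),
      Real.exp (A / κ ^ 2 * ‖toDisc 0 (h l) ((r : ℂ) * Complex.exp ((θ : ℂ) * Complex.I))‖ ^ 2 / L)
        ≤ C) {l0 : ℂ} (hl0 : ‖l0‖ < κ) (hl00 : l0 ≠ 0) :
    ∫ θ in (0:ℝ)..(2 * π),
      Real.exp (A / ‖l0‖ ^ 2 *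
        ‖toDisc 0 (h l0) ((r : ℂ) * Complex.exp ((θ : ℂ) * Complex.I))‖ ^ 2 / L) ≤ C := by
  have hpi := Real.pi_pos
  obtain ⟨μ, hμd⟩ : ∃ μ : ℂ, μ = l0 / κ := ⟨_, rfl⟩
  have hκc : (κ : ℂ) ≠ 0 := by exact_mod_cast hκ.ne'
  have hμ : ‖μ‖ < 1 := by
    rw [hμd, norm_div, Complex.norm_real, Real.norm_of_nonneg hκ.le, div_lt_one hκ]
    exact hl0
  have hκμ : (κ : ℂ) * μ = l0 := by rw [hμd]; field_simp
  have hmem : ∀ θ : ℝ, (r : ℂ) * Complex.exp ((θ : ℂ) * Complex.I) ∈ ball (0 : ℂ) 1 := by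
    intro θ
    rw [mem_ball_zero_iff, norm_mul, Complex.norm_exp_ofReal_mul_I, mul_one, Complex.norm_real,
      Real.norm_of_nonneg hr0]
    exact hr1
  have hm1 : ∀ t : ℝ, ‖mob κ μ (circleMap 0 1 t)‖ = κ := by
    intro t
    apply mob_norm_eq hκ.le hμ
    rw [norm_circleMap_zero, abs_one]
  have hmb : ∀ t : ℝ, mob κ μ (circleMap 0 1 t) ∈ ball (0:ℂ) 1 := by
    intro t
    rw [mem_ball_zero_iff, hm1]; exact hκ1
  have hmc : Continuous (fun t : ℝ => mob κ μ (circleMap 0 1 t)) := by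
    unfold mob
    apply Continuous.mul continuous_const
    apply Continuous.div
    · exact (continuous_circleMap 0 1).add continuous_const
    · exact continuous_const.add (continuous_const.mul (continuous_circleMap 0 1))
    · intro t
      apply mob_den hμ
      rw [norm_circleMap_zero, abs_one]
  -- the integrand of the double integral
  obtain ⟨G, hG⟩ : ∃ G : ℝ → ℝ → ℝ, G = fun (t θ : ℝ) => Real.exp (A / κ ^ 2 *
      ‖toDisc 0 (h (mob κ μ (circleMap 0 1 t))) ((r : ℂ) * Complex.exp ((θ : ℂ) * Complex.I))‖ ^ 2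
        / L) := ⟨_, rfl⟩
  have hGc : Continuous (Function.uncurry G) := by
    have h1 : Continuous (fun p : ℝ × ℝ => toDisc 0 (h (mob κ μ (circleMap 0 1 p.1)))
        ((r : ℂ) * Complex.exp ((p.2 : ℂ) * Complex.I))) := by
      apply H.h_cont.comp_continuous (f := fun p : ℝ × ℝ => (mob κ μ (circleMap 0 1 p.1),
        (r : ℂ) * Complex.exp ((p.2 : ℂ) * Complex.I)))
      · apply Continuous.prodMk
        · exact hmc.comp continuous_fst
        · fun_prop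
      · intro p
        exact ⟨hmb p.1, hmem p.2⟩
    have h2 : Function.uncurry G = fun p : ℝ × ℝ => Real.exp (A / κ ^ 2 *
        ‖toDisc 0 (h (mob κ μ (circleMap 0 1 p.1)))
          ((r : ℂ) * Complex.exp ((p.2 : ℂ) * Complex.I))‖ ^ 2 / L) := by
      rw [hG]; rfl
    rw [h2]
    exact Real.continuous_exp.comp ((continuous_const.mul (h1.norm.pow 2)).div_const L)
  -- pointwise inequality
  have hpt : ∀ θ : ℝ, Real.exp (A / ‖l0‖ ^ 2 *
        ‖toDisc 0 (h l0) ((r : ℂ) * Complex.exp ((θ : ℂ) * Complex.I))‖ ^ 2 / L)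
      ≤ (2 * π)⁻¹ * ∫ t in (0:ℝ)..(2 * π), G t θ := by
    intro θ
    obtain ⟨ζ, hζ⟩ : ∃ ζ : ℂ, ζ = (r : ℂ) * Complex.exp ((θ : ℂ) * Complex.I) := ⟨_, rfl⟩
    have hζm : ζ ∈ ball (0:ℂ) 1 := by rw [hζ]; exact hmem θ
    obtain ⟨F, hF⟩ : ∃ F : ℂ → ℂ, F = fun l => toDisc 0 (h l) ζ := ⟨_, rfl⟩
    have hFd : DifferentiableOn ℂ F (ball 0 1) := by rw [hF]; exact H.h_hol hζm
    have hF0 : F 0 = 0 := by rw [hF]; exact H.h_zero ζ hζm
    have hb : ball (0:ℂ) 1 ∈ 𝓝 (0:ℂ) := ball_mem_nhds 0 one_pos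
    have hgd : DifferentiableOn ℂ (dslope F 0) (ball 0 1) :=
      (Complex.differentiableOn_dslope hb).mpr hFd
    have hgF : ∀ l : ℂ, l ≠ 0 → ‖dslope F 0 l‖ ^ 2 = ‖F l‖ ^ 2 / ‖l‖ ^ 2 := by
      intro l hl
      rw [dslope_of_ne _ hl, slope_def_field, hF0, sub_zero, sub_zero, norm_div, div_pow]
    have key := exp_sq_mean hgd hκ hκ1 hμ (A := A / L) (by positivity)
    rw [hκμ, hgF l0 hl00] at key
    have e1 : A / ‖l0‖ ^ 2 * ‖F l0‖ ^ 2 / L = A / L * (‖F l0‖ ^ 2 / ‖l0‖ ^ 2) := by ring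
    have e2 : toDisc 0 (h l0) ((r : ℂ) * Complex.exp ((θ : ℂ) * Complex.I)) = F l0 := by
      rw [hF, hζ]
    rw [e2, e1]
    refine key.trans (le_of_eq ?_)
    congr 1
    apply intervalIntegral.integral_congr
    intro t _
    have hne : mob κ μ (circleMap 0 1 t) ≠ 0 := by
      intro h0
      have := hm1 t
      rw [h0, norm_zero] at this
      linarith only [hκ, this]
    simp only
    rw [hgF _ hne, hm1, hG, hF]
    simp only
    rw [hζ]
    congr 1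
    ring
  have hGi1 : ∀ θ : ℝ, Continuous (fun t => G t θ) := fun θ =>
    hGc.comp (f := fun t : ℝ => (t, θ)) (by fun_prop)
  have hGi2 : ∀ t : ℝ, Continuous (fun θ => G t θ) := fun t =>
    hGc.comp (f := fun θ : ℝ => (t, θ)) (by fun_prop)
  have hI1 : Continuous (fun θ : ℝ => ∫ t in (0:ℝ)..(2 * π), G t θ) := by
    apply intervalIntegral.continuous_parametric_intervalIntegral_of_continuous'
    exact hGc.comp (f := fun p : ℝ × ℝ => (p.2, p.1)) (by fun_prop)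
  have hI2 : Continuous (fun t : ℝ => ∫ θ in (0:ℝ)..(2 * π), G t θ) :=
    intervalIntegral.continuous_parametric_intervalIntegral_of_continuous' hGc _ _
  have hfc : Continuous (fun θ : ℝ => toDisc 0 (h l0) ((r : ℂ) * Complex.exp ((θ : ℂ) * Complex.I))) :=
    ((H.mem l0 (by rw [mem_ball_zero_iff]; linarith)).goluzin.1.continuousOn).comp_continuous
      (by fun_prop) hmem
  calc ∫ θ in (0:ℝ)..(2 * π), Real.exp (A / ‖l0‖ ^ 2 *
        ‖toDisc 0 (h l0) ((r : ℂ) * Complex.exp ((θ : ℂ) * Complex.I))‖ ^ 2 / L)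
      ≤ ∫ θ in (0:ℝ)..(2 * π), (2 * π)⁻¹ * ∫ t in (0:ℝ)..(2 * π), G t θ := by
        apply intervalIntegral.integral_mono (by positivity)
        · apply Continuous.intervalIntegrable
          exact Real.continuous_exp.comp ((continuous_const.mul (hfc.norm.pow 2)).div_const L)
        · apply Continuous.intervalIntegrable
          exact continuous_const.mul hI1
        · exact hpt
    _ = (2 * π)⁻¹ * ∫ t in (0:ℝ)..(2 * π), ∫ θ in (0:ℝ)..(2 * π), G t θ := by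
        rw [intervalIntegral.integral_const_mul]
        congr 1
        rw [MeasureTheory.intervalIntegral_intervalIntegral_swap]
        apply (hGc.comp (f := fun p : ℝ × ℝ => (p.2, p.1)) (by fun_prop)).continuousOn.integrableOn_compact
          (isCompact_uIcc.prod isCompact_uIcc) |>.mono_set
        exact Set.prod_mono uIoc_subset_uIcc uIoc_subset_uIcc
    _ ≤ (2 * π)⁻¹ * ∫ t in (0:ℝ)..(2 * π), C := by
        gcongr
        apply intervalIntegral.integral_mono (by positivity)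
        · exact hI2.intervalIntegrable _ _
        · exact continuous_const.intervalIntegrable _ _
        · intro t
          simp only
          rw [hG]
          exact hC _ (hmb t)
    _ = C := by
        rw [intervalIntegral.integral_const, smul_eq_mul]
        field_simp
        ring

end Pool.Agent.M16.Helper22.Half
end

/- Helper94.T.Helper24.HR2.Family -/
section
/-!
MP_16b0ee, project HR2: from one bound for the whole class Sigma to the bound for holomorphic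
families, with a general threshold `a0`.
-/

set_option autoImplicit false

open MeasureTheory Set Metric Filter Topology
open scoped ENNReal NNReal Real ComplexConjugate

namespace Pool.Agent.M16.Helper24.HR2

open Pool.Agent.M16.Helper22.Half
open Pool.Agent.M16.Helper39.Area (toDisc)

/-- The closed form: from the bound with the single exponent `a0` for the class Sigma to all
exponents `a ≤ a0 / k ^ 2` for a holomorphic family at `‖l‖ ≤ k`. -/
theorem mInt_family_closed {a0 : ℝ} (ha0 : 0 < a0)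
    (hS : ∃ C : ℝ, ∀ R : ℝ, 1 < R → ∀ ψ h : ℂ → ℂ, SigmaLog ψ h → mInt a0 R h ≤ C)
    {k a : ℝ} (hk0 : 0 < k) (hk1 : k < 1) (ha : 0 < a) (hak : a * k ^ 2 ≤ a0) :
    ∃ C : ℝ, 0 ≤ C ∧ ∀ R : ℝ, 1 < R → ∀ ψ h : ℂ → ℂ → ℂ, HolFam ψ h →
      ∀ l : ℂ, ‖l‖ ≤ k → mInt a R (h l) ≤ C := by
  have hpi := Real.pi_pos
  obtain ⟨C, hmain⟩ := hS
  refine ⟨|C| + 1, by positivity, ?_⟩
  intro R hR ψ h H l hl
  have hR0 : 0 < R⁻¹ := by positivity
  have hR1 : R⁻¹ < 1 := inv_lt_one_of_one_lt₀ hR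
  obtain ⟨r, hr⟩ : ∃ r, r = R⁻¹ := ⟨_, rfl⟩
  obtain ⟨L, hL⟩ : ∃ L, L = Real.log (1 / (1 - r ^ 2)) := ⟨_, rfl⟩
  rw [← hr] at hR0 hR1
  have hx : 0 < 1 - r ^ 2 := by nlinarith only [hR1, hR0]
  have hLpos : 0 < L := by
    rw [hL]
    apply Real.log_pos
    rw [one_lt_div hx]
    have : 0 < r ^ 2 := by positivity
    linarith
  have hmem : ∀ θ : ℝ, (r : ℂ) * Complex.exp ((θ : ℂ) * Complex.I) ∈ ball (0 : ℂ) 1 := by
    intro θ
    rw [mem_ball_zero_iff, norm_mul, Complex.norm_exp_ofReal_mul_I, mul_one, Complex.norm_real,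
      Real.norm_of_nonneg hR0.le]
    exact hR1
  have hl1 : l ∈ ball (0:ℂ) 1 := by
    rw [mem_ball_zero_iff]; linarith
  have hCabs := le_abs_self C
  have hCnn := abs_nonneg C
  rw [mInt_disc a R hR, ← hr, ← hL]
  by_cases hl0 : l = 0
  · subst hl0
    have h1 : ∀ θ : ℝ, Real.exp (a * ‖toDisc 0 (h 0) ((r : ℂ) * Complex.exp ((θ : ℂ) * Complex.I))‖ ^ 2
          / L) = 1 := by
      intro θ
      rw [H.h_zero _ (hmem θ)]
      simp
    simp_rw [h1]
    rw [intervalIntegral.integral_const, smul_eq_mul]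
    have : 1 / (2 * π) * ((2 * π - 0) * 1) = 1 := by
      field_simp
      ring
    rw [this]
    linarith
  · have hln : 0 < ‖l‖ := norm_pos_iff.mpr hl0
    have hln1 : ‖l‖ < 1 := lt_of_le_of_lt hl hk1
    have hfc : Continuous (fun θ : ℝ => toDisc 0 (h l) ((r : ℂ) * Complex.exp ((θ : ℂ) * Complex.I))) :=
      ((H.mem l hl1).goluzin.1.continuousOn).comp_continuous (by fun_prop) hmem
    have hfam : ∀ κ : ℝ, ‖l‖ < κ → κ < 1 → ∫ θ in (0:ℝ)..(2 * π),
        Real.exp (a0 * κ ^ 2 / ‖l‖ ^ 2 *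
          ‖toDisc 0 (h l) ((r : ℂ) * Complex.exp ((θ : ℂ) * Complex.I))‖ ^ 2 / L)
        ≤ 2 * π * C := by
      intro κ hκ hκ1
      have hκ0 : 0 < κ := hln.trans hκ
      have e1 : a0 * κ ^ 2 / κ ^ 2 = a0 := by field_simp
      exact fam_disc H (A := a0 * κ ^ 2) (C := 2 * π * C) (κ := κ) (L := L) (r := r)
        (by positivity) hLpos hκ0 hκ1 hR0.le hR1 (fun l' hl' => by
        rw [e1]
        have h1 := hmain R hR (ψ l') (h l') (H.mem l' hl')
        rw [mInt_disc _ R hR, ← hr, ← hL] at h1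
        rw [one_div, inv_mul_le_iff₀ (by positivity)] at h1
        exact h1) hκ hl0
    have hcont : Continuous (fun κ : ℝ => ∫ θ in (0:ℝ)..(2 * π),
        Real.exp (a0 * κ ^ 2 / ‖l‖ ^ 2 *
          ‖toDisc 0 (h l) ((r : ℂ) * Complex.exp ((θ : ℂ) * Complex.I))‖ ^ 2 / L)) := by
      apply intervalIntegral.continuous_parametric_intervalIntegral_of_continuous'
      have hf2 : Continuous (fun p : ℝ × ℝ =>
          toDisc 0 (h l) ((r : ℂ) * Complex.exp ((p.2 : ℂ) * Complex.I))) :=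
        hfc.comp continuous_snd
      have hg : Continuous (fun p : ℝ × ℝ => a0 * p.1 ^ 2 / ‖l‖ ^ 2) := by fun_prop
      exact Real.continuous_exp.comp ((hg.mul (hf2.norm.pow 2)).div_const L)
    have hone : ∫ θ in (0:ℝ)..(2 * π),
        Real.exp (a0 * 1 ^ 2 / ‖l‖ ^ 2 *
          ‖toDisc 0 (h l) ((r : ℂ) * Complex.exp ((θ : ℂ) * Complex.I))‖ ^ 2 / L)
        ≤ 2 * π * C := by
      have ht : Tendsto (fun κ : ℝ => ∫ θ in (0:ℝ)..(2 * π),
        Real.exp (a0 * κ ^ 2 / ‖l‖ ^ 2 *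
          ‖toDisc 0 (h l) ((r : ℂ) * Complex.exp ((θ : ℂ) * Complex.I))‖ ^ 2 / L)) (𝓝[<] 1)
          (𝓝 (∫ θ in (0:ℝ)..(2 * π),
        Real.exp (a0 * 1 ^ 2 / ‖l‖ ^ 2 *
          ‖toDisc 0 (h l) ((r : ℂ) * Complex.exp ((θ : ℂ) * Complex.I))‖ ^ 2 / L))) :=
        (hcont.tendsto 1).mono_left nhdsWithin_le_nhds
      refine le_of_tendsto ht ?_
      filter_upwards [Ioo_mem_nhdsLT hln1] with κ hκ
      exact hfam κ hκ.1 hκ.2
    have haA : a ≤ a0 * 1 ^ 2 / ‖l‖ ^ 2 := by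
      rw [le_div_iff₀ (by positivity), one_pow, mul_one]
      refine le_trans ?_ hak
      gcongr
    have hmono : ∫ θ in (0:ℝ)..(2 * π),
        Real.exp (a * ‖toDisc 0 (h l) ((r : ℂ) * Complex.exp ((θ : ℂ) * Complex.I))‖ ^ 2 / L)
        ≤ ∫ θ in (0:ℝ)..(2 * π),
        Real.exp (a0 * 1 ^ 2 / ‖l‖ ^ 2 *
          ‖toDisc 0 (h l) ((r : ℂ) * Complex.exp ((θ : ℂ) * Complex.I))‖ ^ 2 / L) := by
      apply intervalIntegral.integral_mono (by positivity)
      · apply Continuous.intervalIntegrable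
        exact Real.continuous_exp.comp ((continuous_const.mul (hfc.norm.pow 2)).div_const L)
      · apply Continuous.intervalIntegrable
        exact Real.continuous_exp.comp ((continuous_const.mul (hfc.norm.pow 2)).div_const L)
      · intro θ
        simp only
        gcongr
    have h2 := hmono.trans hone
    rw [one_div, inv_mul_le_iff₀ (by positivity)]
    have h3 : 2 * π * C ≤ 2 * π * (|C| + 1) := by
      apply mul_le_mul_of_nonneg_left _ (by positivity)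
      linarith only [hCabs]
    linarith only [h2, h3]

end Pool.Agent.M16.Helper24.HR2
end

/- Helper94.T.Helper94.HR2.FinFam -/
section
/-!
MP_16b0ee, project HR2: the statement of the hand-in for holomorphic families, from one bound
`mInt a0 R h ≤ C` for the class Sigma (light imports).
-/

set_option autoImplicit false

open MeasureTheory Set Metric Filter Topology
open scoped ENNReal NNReal Real ComplexConjugate

namespace Pool.Agent.M16.Helper94.HR2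

open Pool.Agent.M16.Helper22.Half
open Pool.Agent.M16.Helper24.HR2

/-- The statement for holomorphic families with the closed range `0 < a ≤ a0 / k ^ 2`. -/
theorem final_family {a0 : ℝ} (ha0 : 0 < a0)
    (hS : ∃ C : ℝ, ∀ R : ℝ, 1 < R → ∀ ψ h : ℂ → ℂ, SigmaLog ψ h → mInt a0 R h ≤ C) :
    ∀ k a : ℝ, 0 < k → k < 1 → 0 < a → a * k ^ 2 ≤ a0 → ∃ C : ℝ, ∀ R : ℝ, 1 < R →
      ∀ ψ h : ℂ → ℂ → ℂ,
      (∀ l : ℂ, ‖l‖ < 1 →
        DifferentiableOn ℂ (ψ l) {z : ℂ | 1 < ‖z‖} ∧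
        Set.InjOn (ψ l) {z : ℂ | 1 < ‖z‖} ∧
        (∃ b : ℂ, Filter.Tendsto (fun z => ψ l z - z) (Bornology.cobounded ℂ) (nhds b)) ∧
        DifferentiableOn ℂ (h l) {z : ℂ | 1 < ‖z‖} ∧
        (∀ z : ℂ, 1 < ‖z‖ → Complex.exp (h l z) = deriv (ψ l) z) ∧
        Filter.Tendsto (h l) (Bornology.cobounded ℂ) (nhds 0)) →
      (∀ z : ℂ, 1 < ‖z‖ → DifferentiableOn ℂ (fun l => ψ l z) {l : ℂ | ‖l‖ < 1}) →
      (∀ z : ℂ, 1 < ‖z‖ → ψ 0 z = z) →
      ∀ l : ℂ, ‖l‖ ≤ k →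
      (1 / (2 * Real.pi)) * ∫ θ in (0:ℝ)..(2 * Real.pi),
        Real.exp (a * ‖h l ((R : ℂ) * Complex.exp ((θ : ℂ) * Complex.I))‖ ^ 2
          / Real.log (R ^ 2 / (R ^ 2 - 1))) ≤ C := by
  intro k a hk0 hk1 ha hak
  obtain ⟨C, _, hm⟩ := mInt_family_closed ha0 hS hk0 hk1 ha hak
  refine ⟨C, fun R hR ψ h hmem hhol hbase l hl => ?_⟩
  have hball : Metric.ball (0:ℂ) 1 = {l : ℂ | ‖l‖ < 1} := by
    ext l
    simp
  refine hm R hR ψ h ⟨?_, ?_, hbase⟩ l hl
  · intro l' hl'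
    rw [hball] at hl'
    obtain ⟨h1, h2, h3, h4, h5, h6⟩ := hmem l' hl'
    exact ⟨h1, h2, h3, h4, h5, h6⟩
  · intro z hz
    rw [hball]
    exact hhol z hz

end Pool.Agent.M16.Helper94.HR2
end
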